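import Mathlib

namespace Pool.Agent.Q115.Abund

open SimpleGraph Finset

/-- a finite graph, up to isomorphism -/
abbrev FG := Σ k : ℕ, SimpleGraph (Fin k)

open Classical in
/-- A graph `H` is triangle-abundant. -/
def TriangleAbundant (H : FG) : Prop :=
  ∃ C : ℝ, 0 < C ∧ ∀ ε : ℝ, 0 < ε → ε < 1 → ∃ n₀ : ℕ, ∀ n : ℕ, n₀ ≤ n →
    ∀ G : SimpleGraph (Fin n), G.FarFromTriangleFree ε →
      ε ^ C * (n : ℝ) ^ H.1 ≤ (G.copyCount H.2 : ℝ)

/-- `G` contains at least `m` pairwise edge-disjoint triangles. -/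
def ManyTriangles {V : Type} [DecidableEq V] (G : SimpleGraph V) (m : ℝ) : Prop :=
  ∃ T : Finset (Finset V), (∀ t ∈ T, G.IsNClique 3 t) ∧
    (∀ s ∈ T, ∀ t ∈ T, s ≠ t → (s ∩ t).card ≤ 1) ∧ m ≤ (T.card : ℝ)

/-- A family of graphs is triangle-abundant. -/
def FamilyAbundant (F : Set FG) : Prop :=
  ∃ C : ℝ, 0 < C ∧ ∀ ε : ℝ, 0 < ε → ε < 1 → ∃ n₀ : ℕ, ∀ n : ℕ, n₀ ≤ n →
    ∀ G : SimpleGraph (Fin n), ManyTriangles G (ε * (n : ℝ) ^ 2) →
      ∃ H ∈ F, ε ^ C * (n : ℝ) ^ H.1 ≤ (G.copyCount H.2 : ℝ)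

/-! ### indexed families of edge-disjoint triangles -/

/-- an indexed family of triangles, any two of which share no edge -/
def TriFam {V ι : Type} (G : SimpleGraph V) (f : ι → Fin 3 → V) : Prop :=
  (∀ i a b, a ≠ b → G.Adj (f i a) (f i b)) ∧
  (∀ i i' a b a' b', a ≠ b → f i a = f i' a' → f i b = f i' b' → i = i')

theorem TriFam.inj {V ι : Type} {G : SimpleGraph V} {f : ι → Fin 3 → V} (hf : TriFam G f)
    (i : ι) : Function.Injective (f i) := by
  intro a b hab
  by_contra hne
  have := hf.1 i a b hne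
  rw [hab] at this
  exact G.loopless.irrefl _ this

theorem TriFam.card_le {V ι : Type} [Fintype V] [Fintype ι] {G : SimpleGraph V}
    {f : ι → Fin 3 → V} (hf : TriFam G f) : 6 * Fintype.card ι ≤ Fintype.card V ^ 2 := by
  classical
  let P := {p : Fin 3 × Fin 3 // p.1 ≠ p.2}
  have hP : Fintype.card P = 6 := by decide
  let g : ι × P → V × V := fun x => (f x.1 x.2.1.1, f x.1 x.2.1.2)
  have hg : Function.Injective g := by
    rintro ⟨i, ⟨⟨a, b⟩, hab⟩⟩ ⟨i', ⟨⟨a', b'⟩, hab'⟩⟩ h
    simp only [g, Prod.mk.injEq] at h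
    have hi := hf.2 i i' a b a' b' hab h.1 h.2
    subst hi
    have h1 := hf.inj i h.1
    have h2 := hf.inj i h.2
    subst h1; subst h2
    rfl
  have := Fintype.card_le_of_injective g hg
  rw [Fintype.card_prod, Fintype.card_prod, hP] at this
  nlinarith

theorem TriFam.many {V ι : Type} [Fintype V] [Fintype ι] [DecidableEq V] {G : SimpleGraph V}
    {f : ι → Fin 3 → V} (hf : TriFam G f) : ManyTriangles G (Fintype.card ι) := by
  classical
  let S : ι → Finset V := fun i => univ.image (f i)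
  have hcard : ∀ i, (S i).card = 3 := fun i => by
    rw [Finset.card_image_of_injective _ (hf.inj i), Finset.card_univ, Fintype.card_fin]
  have hshare : ∀ i j, 1 < (S i ∩ S j).card → i = j := by
    intro i j h
    obtain ⟨x, hx, y, hy, hxy⟩ := Finset.one_lt_card.mp h
    simp only [S, Finset.mem_inter, Finset.mem_image, Finset.mem_univ, true_and] at hx hy
    obtain ⟨⟨a, ha⟩, ⟨a', ha'⟩⟩ := hx
    obtain ⟨⟨b, hb⟩, ⟨b', hb'⟩⟩ := hy
    refine hf.2 i j a b a' b' ?_ (ha.trans ha'.symm) (hb.trans hb'.symm)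
    rintro rfl
    exact hxy (ha.symm.trans hb)
  have hinj : Function.Injective S := by
    intro i j hij
    apply hshare
    rw [hij, Finset.inter_self, hcard]
    norm_num
  refine ⟨univ.image S, ?_, ?_, ?_⟩
  · intro t ht
    simp only [Finset.mem_image, Finset.mem_univ, true_and] at ht
    obtain ⟨i, rfl⟩ := ht
    refine ⟨?_, hcard i⟩
    intro x hx y hy hxy
    simp only [S, Finset.coe_image, Finset.coe_univ, Set.image_univ, Set.mem_range] at hx hy
    obtain ⟨a, rfl⟩ := hx
    obtain ⟨b, rfl⟩ := hy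
    exact hf.1 i a b (fun h => hxy (by rw [h]))
  · intro s hs t ht hst
    simp only [Finset.mem_image, Finset.mem_univ, true_and] at hs ht
    obtain ⟨i, rfl⟩ := hs
    obtain ⟨j, rfl⟩ := ht
    by_contra h
    exact hst (by rw [hshare i j (by omega)])
  · rw [Finset.card_image_of_injective _ hinj, Finset.card_univ]

/-- a maximal family of edge-disjoint triangles in a graph far from triangle-free -/
theorem exists_triFam {V : Type} [Fintype V] [DecidableEq V] {G : SimpleGraph V}
    [DecidableRel G.Adj] {ε : ℝ} (hfar : G.FarFromTriangleFree ε) :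
    ∃ (m : ℕ) (f : Fin m → Fin 3 → V), TriFam G f ∧
      ε * (Fintype.card V : ℝ) ^ 2 ≤ 3 * m := by
  classical
  -- a maximal `m`
  have hex : ∃ m, ∃ f : Fin m → Fin 3 → V, TriFam G f :=
    ⟨0, fun i => i.elim0, ⟨fun i => i.elim0, fun i => i.elim0⟩⟩
  have hbd : ∀ m, (∃ f : Fin m → Fin 3 → V, TriFam G f) → m ≤ Fintype.card V ^ 2 := by
    rintro m ⟨f, hf⟩
    have := hf.card_le
    rw [Fintype.card_fin] at this
    omega
  obtain ⟨m, hm, hmax⟩ : ∃ m, (∃ f : Fin m → Fin 3 → V, TriFam G f) ∧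
      ¬ ∃ f : Fin (m + 1) → Fin 3 → V, TriFam G f := by
    by_contra hcon
    push Not at hcon
    have : ∀ m, ∃ f : Fin m → Fin 3 → V, TriFam G f := by
      intro m
      induction m with
      | zero => exact ⟨fun i => i.elim0, ⟨fun i => i.elim0, fun i => i.elim0⟩⟩
      | succ m ih =>
        exact hcon m ih
    have := hbd _ (this (Fintype.card V ^ 2 + 1))
    omega
  obtain ⟨f, hf⟩ := hm
  refine ⟨m, f, hf, ?_⟩
  -- delete all edges of the triangles
  let E : Finset (Sym2 V) := univ.biUnion fun i : Fin m =>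
    {s(f i 0, f i 1), s(f i 0, f i 2), s(f i 1, f i 2)}
  have hE : ∀ i a b, a ≠ b → s(f i a, f i b) ∈ E := by
    intro i a b hab
    simp only [E, Finset.mem_biUnion, Finset.mem_univ, true_and]
    refine ⟨i, ?_⟩
    fin_cases a <;> fin_cases b <;> simp at hab ⊢
  have hEcard : E.card ≤ 3 * m := by
    calc E.card ≤ ∑ i : Fin m,
          ({s(f i 0, f i 1), s(f i 0, f i 2), s(f i 1, f i 2)} : Finset (Sym2 V)).card :=
          Finset.card_biUnion_le
      _ ≤ ∑ i : Fin m, 3 := Finset.sum_le_sum fun i _ => Finset.card_le_three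
      _ = 3 * m := by simp [mul_comm]
  have hEsub : E ⊆ G.edgeFinset := by
    intro e he
    simp only [E, Finset.mem_biUnion, Finset.mem_univ, true_and, Finset.mem_insert,
      Finset.mem_singleton] at he
    obtain ⟨i, rfl | rfl | rfl⟩ := he <;> rw [mem_edgeFinset, mem_edgeSet]
    · exact hf.1 i 0 1 (by decide)
    · exact hf.1 i 0 2 (by decide)
    · exact hf.1 i 1 2 (by decide)
  have hfree : (G.deleteEdges (E : Set (Sym2 V))).CliqueFree 3 := by
    intro t ht
    obtain ⟨x, y, z, hxy, hxz, hyz, rfl⟩ := is3Clique_iff.mp ht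
    rw [deleteEdges_adj] at hxy hxz hyz
    apply hmax
    let g : Fin 3 → V := ![x, y, z]
    have hg : ∀ a b, a ≠ b → G.Adj (g a) (g b) ∧ s(g a, g b) ∉ (E : Set (Sym2 V)) := by
      intro a b hab
      have e1 : s(y, x) ∉ (E : Set (Sym2 V)) := by rw [Sym2.eq_swap]; exact hxy.2
      have e2 : s(z, x) ∉ (E : Set (Sym2 V)) := by rw [Sym2.eq_swap]; exact hxz.2
      have e3 : s(z, y) ∉ (E : Set (Sym2 V)) := by rw [Sym2.eq_swap]; exact hyz.2
      fin_cases a <;> fin_cases b
      · exact absurd rfl hab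
      · exact hxy
      · exact hxz
      · exact ⟨hxy.1.symm, e1⟩
      · exact absurd rfl hab
      · exact hyz
      · exact ⟨hxz.1.symm, e2⟩
      · exact ⟨hyz.1.symm, e3⟩
      · exact absurd rfl hab
    refine ⟨Fin.snoc f g, ?_, ?_⟩
    · intro i a b hab
      refine Fin.lastCases ?_ (fun i => ?_) i
      · rw [Fin.snoc_last]; exact (hg a b hab).1
      · rw [Fin.snoc_castSucc]; exact hf.1 i a b hab
    · intro i i' a b a' b' hab
      have hginj : ∀ a b, a ≠ b → g a ≠ g b := fun a b hab h => by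
        have := (hg a b hab).1
        rw [h] at this
        exact G.loopless.irrefl _ this
      have hcross : ∀ (i : Fin m) (a b a' b' : Fin 3), a ≠ b → f i a = g a' →
          f i b = g b' → False := by
        intro i a b a' b' hab h1 h2
        have hab' : a' ≠ b' := by
          rintro rfl
          exact hab (hf.inj i (h1.trans h2.symm))
        have h3 := (hg a' b' hab').2
        rw [← h1, ← h2] at h3
        exact h3 (Finset.mem_coe.mpr (hE i a b hab))
      refine Fin.lastCases ?_ (fun i => ?_) i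
      · refine Fin.lastCases ?_ (fun i' => ?_) i'
        · intro _ _; rfl
        · rw [Fin.snoc_last, Fin.snoc_castSucc]
          intro h1 h2
          exfalso
          have hab' : a' ≠ b' := by
            rintro rfl
            exact hginj a b hab (h1.trans h2.symm)
          exact hcross i' a' b' a b hab' h1.symm h2.symm
      · refine Fin.lastCases ?_ (fun i' => ?_) i'
        · rw [Fin.snoc_last, Fin.snoc_castSucc]
          intro h1 h2
          exact (hcross i a b a' b' hab h1 h2).elim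
        · rw [Fin.snoc_castSucc, Fin.snoc_castSucc]
          intro h1 h2
          rw [hf.2 i i' a b a' b' hab h1 h2]
  have h1 := hfar hEsub hfree
  have h2 : ((E.card : ℕ) : ℝ) ≤ 3 * m := by exact_mod_cast hEcard
  push_cast at h1
  linarith

end Pool.Agent.Q115.Abund
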