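import Pool.Agent.Q115.AbundBase

namespace Pool.Agent.Q115.Abund

open SimpleGraph Finset

variable {V V' W : Type}

/-- the number of homomorphisms -/
noncomputable def hc (F : SimpleGraph W) (G : SimpleGraph V) : ℕ := Nat.card (F →g G)

/-- the homomorphism density -/
noncomputable def td (F : SimpleGraph W) (G : SimpleGraph V) : ℝ :=
  (hc F G : ℝ) / (Nat.card V : ℝ) ^ (Nat.card W)

instance homFinite [Finite W] [Finite V] (F : SimpleGraph W) (G : SimpleGraph V) :
    Finite (F →g G) := DFunLike.finite _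

theorem td_nonneg (F : SimpleGraph W) (G : SimpleGraph V) : 0 ≤ td F G := by
  unfold td
  positivity

theorem hc_le [Finite W] [Finite V] (F : SimpleGraph W) (G : SimpleGraph V) :
    hc F G ≤ Nat.card V ^ Nat.card W := by
  unfold hc
  rw [← Nat.card_fun]
  exact Nat.card_le_card_of_injective (fun f : F →g G => (f : W → V)) DFunLike.coe_injective

theorem td_le_one [Finite W] [Finite V] [Nonempty V] (F : SimpleGraph W)
    (G : SimpleGraph V) : td F G ≤ 1 := by
  unfold td
  have h1 : 0 < Nat.card V := Nat.card_pos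
  rw [div_le_one (by positivity)]
  exact_mod_cast hc_le F G

/-! ### tensor products -/

/-- the tensor product -/
def tens (G : SimpleGraph V) (G' : SimpleGraph V') : SimpleGraph (V × V') where
  Adj p q := G.Adj p.1 q.1 ∧ G'.Adj p.2 q.2
  symm := ⟨fun _ _ h => ⟨h.1.symm, h.2.symm⟩⟩
  loopless := ⟨fun _ h => G.loopless.irrefl _ h.1⟩

/-- homomorphisms into a tensor product -/
def homTens (F : SimpleGraph W) (G : SimpleGraph V) (G' : SimpleGraph V') :
    (F →g tens G G') ≃ (F →g G) × (F →g G') where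
  toFun φ := (⟨fun w => (φ w).1, fun h => (φ.map_adj h).1⟩,
    ⟨fun w => (φ w).2, fun h => (φ.map_adj h).2⟩)
  invFun p := ⟨fun w => (p.1 w, p.2 w), fun h => ⟨p.1.map_adj h, p.2.map_adj h⟩⟩
  left_inv _ := rfl
  right_inv _ := rfl

theorem td_tens (F : SimpleGraph W) (G : SimpleGraph V) (G' : SimpleGraph V') :
    td F (tens G G') = td F G * td F G' := by
  unfold td hc
  rw [Nat.card_congr (homTens F G G'), Nat.card_prod, Nat.card_prod]
  push_cast
  rw [mul_pow, mul_div_mul_comm]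

theorem triFam_tens {ι ι' : Type} {G : SimpleGraph V} {G' : SimpleGraph V'}
    {f : ι → Fin 3 → V} {f' : ι' → Fin 3 → V'} (hf : TriFam G f) (hf' : TriFam G' f') :
    TriFam (tens G G') (fun (i : ι × ι') a => (f i.1 a, f' i.2 a)) := by
  refine ⟨fun i a b hab => ⟨hf.1 _ _ _ hab, hf'.1 _ _ _ hab⟩, ?_⟩
  intro i i' a b a' b' hab h1 h2
  simp only [Prod.mk.injEq] at h1 h2
  exact Prod.ext (hf.2 _ _ a b a' b' hab h1.1 h2.1) (hf'.2 _ _ a b a' b' hab h1.2 h2.2)

/-- a graph with a nonempty family of edge-disjoint triangles -/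
structure TP where
  V : Type
  fin : Finite V
  ne : Nonempty V
  G : SimpleGraph V
  ι : Type
  finι : Finite ι
  neι : Nonempty ι
  f : ι → Fin 3 → V
  hf : TriFam G f

attribute [instance] TP.fin TP.ne TP.finι TP.neι

/-- the density of edge-disjoint triangles -/
noncomputable def TP.α (X : TP) : ℝ := (Nat.card X.ι : ℝ) / (Nat.card X.V : ℝ) ^ 2

theorem TP.α_pos (X : TP) : 0 < X.α := by
  have h1 : 0 < Nat.card X.ι := Nat.card_pos
  have h2 : 0 < Nat.card X.V := Nat.card_pos
  unfold TP.α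
  positivity

theorem TP.α_le (X : TP) : X.α ≤ 1 / 6 := by
  have h2 : 0 < Nat.card X.V := Nat.card_pos
  unfold TP.α
  rw [div_le_div_iff₀ (by positivity) (by norm_num)]
  have : Fintype X.V := Fintype.ofFinite _
  have : Fintype X.ι := Fintype.ofFinite _
  have h3 := X.hf.card_le
  rw [← Nat.card_eq_fintype_card, ← Nat.card_eq_fintype_card] at h3
  have h4 : (6 : ℝ) * Nat.card X.ι ≤ (Nat.card X.V : ℝ) ^ 2 := by exact_mod_cast h3
  linarith

/-- product -/
def TP.mul (X Y : TP) : TP where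
  V := X.V × Y.V
  fin := inferInstance
  ne := inferInstance
  G := tens X.G Y.G
  ι := X.ι × Y.ι
  finι := inferInstance
  neι := inferInstance
  f := fun i a => (X.f i.1 a, Y.f i.2 a)
  hf := triFam_tens X.hf Y.hf

theorem TP.mul_α (X Y : TP) : (X.mul Y).α = X.α * Y.α := by
  unfold TP.α TP.mul
  simp only [Nat.card_prod]
  push_cast
  rw [mul_pow, mul_div_mul_comm]

theorem TP.mul_td (X Y : TP) (F : SimpleGraph W) :
    td F (X.mul Y).G = td F X.G * td F Y.G := td_tens F X.G Y.G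

/-- power (exponent `k + 1`) -/
def TP.pow (X : TP) : ℕ → TP
  | 0 => X
  | k + 1 => (X.pow k).mul X

theorem TP.pow_α (X : TP) (k : ℕ) : (X.pow k).α = X.α ^ (k + 1) := by
  induction k with
  | zero => simp [TP.pow]
  | succ k ih =>
    rw [TP.pow, TP.mul_α, ih]
    ring

theorem TP.pow_td (X : TP) (F : SimpleGraph W) (k : ℕ) :
    td F (X.pow k).G = td F X.G ^ (k + 1) := by
  induction k with
  | zero => simp [TP.pow]
  | succ k ih =>
    rw [TP.pow, TP.mul_td, ih]
    ring

/-- combining two pairs, asymmetric form -/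
theorem combine_aux (X Y : TP) (hXY : X.α ≤ Y.α) (D : ℕ) (A B : Set FG)
    (hA : ∀ H ∈ A, td H.2 X.G ≤ X.α ^ (3 * D)) (hB : ∀ H ∈ B, td H.2 Y.G ≤ Y.α ^ (3 * D)) :
    ∃ Z : TP, (∀ H ∈ A, td H.2 Z.G ≤ Z.α ^ D) ∧ (∀ H ∈ B, td H.2 Z.G ≤ Z.α ^ D) := by
  set α := X.α with hα
  set β := Y.α with hβ
  have hα0 : 0 < α := X.α_pos
  have hβ0 : 0 < β := Y.α_pos
  have hα1 : α ≤ 1 := X.α_le.trans (by norm_num)
  have hβ1 : β < 1 := lt_of_le_of_lt Y.α_le (by norm_num)
  obtain ⟨l, hl1, hl2⟩ := exists_nat_pow_near_of_lt_one hα0 hα1 hβ0 hβ1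
  cases l with
  | zero =>
    simp only [zero_add, pow_one] at hl1
    exact absurd hXY (not_le.mpr hl1)
  | succ l =>
    -- `β ^ (2 (l+1)) ≤ α ≤ β ^ (l+1)`
    have h2 : β ^ (2 * (l + 1)) ≤ α := by
      refine le_trans (pow_le_pow_of_le_one hβ0.le hβ1.le ?_) hl1.le
      omega
    refine ⟨X.mul (Y.pow l), ?_, ?_⟩
    · intro H hH
      rw [TP.mul_α, TP.pow_α, ← hα, ← hβ, TP.mul_td]
      have e1 := hA H hH
      have e2 : td H.2 (Y.pow l).G ≤ 1 := td_le_one _ _
      calc td H.2 X.G * td H.2 (Y.pow l).G ≤ td H.2 X.G * 1 :=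
            mul_le_mul_of_nonneg_left e2 (td_nonneg _ _)
        _ ≤ α ^ (3 * D) := by rw [mul_one]; exact e1
        _ ≤ α ^ (2 * D) := pow_le_pow_of_le_one hα0.le hα1 (by omega)
        _ = (α * α) ^ D := by rw [pow_mul, sq]
        _ ≤ (α * β ^ (l + 1)) ^ D :=
            pow_le_pow_left₀ (by positivity) (mul_le_mul_of_nonneg_left hl2 hα0.le) D
    · intro H hH
      rw [TP.mul_α, TP.pow_α, ← hα, ← hβ, TP.mul_td, TP.pow_td]
      have e1 := hB H hH
      have e2 : td H.2 X.G ≤ 1 := td_le_one _ _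
      have e3 : 0 ≤ td H.2 Y.G := td_nonneg _ _
      calc td H.2 X.G * td H.2 Y.G ^ (l + 1) ≤ 1 * td H.2 Y.G ^ (l + 1) :=
            mul_le_mul_of_nonneg_right e2 (pow_nonneg e3 _)
        _ ≤ (β ^ (3 * D)) ^ (l + 1) := by
            rw [one_mul]; exact pow_le_pow_left₀ e3 e1 _
        _ = (β ^ (2 * (l + 1)) * β ^ (l + 1)) ^ D := by
            rw [← pow_add, ← pow_mul, ← pow_mul]
            congr 1
            ring
        _ ≤ (α * β ^ (l + 1)) ^ D :=
            pow_le_pow_left₀ (by positivity)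
              (mul_le_mul_of_nonneg_right h2 (by positivity)) D

theorem combine (X Y : TP) (D : ℕ) (A B : Set FG)
    (hA : ∀ H ∈ A, td H.2 X.G ≤ X.α ^ (3 * D)) (hB : ∀ H ∈ B, td H.2 Y.G ≤ Y.α ^ (3 * D)) :
    ∃ Z : TP, (∀ H ∈ A, td H.2 Z.G ≤ Z.α ^ D) ∧ (∀ H ∈ B, td H.2 Z.G ≤ Z.α ^ D) := by
  rcases le_total X.α Y.α with h | h
  · exact combine_aux X Y h D A B hA hB
  · obtain ⟨Z, h1, h2⟩ := combine_aux Y X h D B A hB hA
    exact ⟨Z, h2, h1⟩

/-! ### the small graph handling all large members -/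

/-- a triangle and six isolated vertices -/
def nine : SimpleGraph (Fin 9) where
  Adj i j := i ≠ j ∧ i.val < 3 ∧ j.val < 3
  symm := ⟨fun _ _ h => ⟨h.1.symm, h.2.2, h.2.1⟩⟩
  loopless := ⟨fun _ h => h.1 rfl⟩

/-- the corresponding pair -/
def S9 : TP where
  V := Fin 9
  fin := inferInstance
  ne := inferInstance
  G := nine
  ι := Unit
  finι := inferInstance
  neι := inferInstance
  f := fun _ a => Fin.castLE (by norm_num) a
  hf := by
    refine ⟨fun _ a b hab => ⟨?_, a.isLt, b.isLt⟩, fun _ _ _ _ _ _ _ _ _ => rfl⟩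
    intro h
    exact hab (Fin.castLE_injective _ h)

theorem S9_α : S9.α = (1 / 3) ^ 4 := by
  unfold TP.α S9
  simp only [Nat.card_eq_fintype_card, Fintype.card_fin, Fintype.card_unit]
  norm_num

theorem td_nine {m : ℕ} (T : SimpleGraph (Fin m)) (hT : ∀ v, ∃ w, T.Adj v w) :
    td T nine ≤ (1 / 3) ^ m := by
  have h1 : hc T nine ≤ 3 ^ m := by
    have : (3 : ℕ) ^ m = Nat.card (Fin m → Fin 3) := by
      rw [Nat.card_fun, Nat.card_eq_fintype_card, Nat.card_eq_fintype_card, Fintype.card_fin,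
        Fintype.card_fin]
    rw [this]
    have hlt : ∀ (φ : T →g nine) (v : Fin m), (φ v).val < 3 := by
      intro φ v
      obtain ⟨w, hw⟩ := hT v
      exact (φ.map_adj hw).2.1
    refine Nat.card_le_card_of_injective
      (fun (φ : T →g nine) (v : Fin m) => (⟨(φ v).val, hlt φ v⟩ : Fin 3)) ?_
    intro φ ψ h
    ext v
    have := congrFun h v
    simpa using this
  unfold td
  rw [Nat.card_eq_fintype_card, Nat.card_eq_fintype_card, Fintype.card_fin, Fintype.card_fin]
  have h2 : (hc T nine : ℝ) ≤ 3 ^ m := by exact_mod_cast h1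
  rw [div_le_iff₀ (by positivity), ← mul_pow]
  norm_num
  exact h2

/-! ### removing isolated vertices -/

/-- the non-isolated vertices -/
def supp {k : ℕ} (F : SimpleGraph (Fin k)) : Set (Fin k) := {v | ∃ w, F.Adj v w}

/-- an enumeration of the non-isolated vertices -/
noncomputable def enumS {k : ℕ} (F : SimpleGraph (Fin k)) :
    supp F ≃ Fin (Nat.card (supp F)) := Finite.equivFin _

/-- the graph without its isolated vertices -/
noncomputable def tpG {k : ℕ} (F : SimpleGraph (Fin k)) :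
    SimpleGraph (Fin (Nat.card (supp F))) where
  Adj i j := F.Adj ((enumS F).symm i) ((enumS F).symm j)
  symm := ⟨fun _ _ h => h.symm⟩
  loopless := ⟨fun _ h => F.loopless.irrefl _ h⟩

/-- the graph without its isolated vertices -/
noncomputable def tp (H : FG) : FG := ⟨Nat.card (supp H.2), tpG H.2⟩

theorem tpG_noniso {k : ℕ} (F : SimpleGraph (Fin k)) (v : Fin (Nat.card (supp F))) :
    ∃ w, (tpG F).Adj v w := by
  obtain ⟨w, hw⟩ := ((enumS F).symm v).2
  have hw' : w ∈ supp F := ⟨_, hw.symm⟩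
  refine ⟨enumS F ⟨w, hw'⟩, ?_⟩
  unfold tpG
  simp only [Equiv.symm_apply_apply]
  exact hw

theorem tpG_adj {k : ℕ} (F : SimpleGraph (Fin k)) {v w : Fin k} (hv : v ∈ supp F)
    (hw : w ∈ supp F) (h : F.Adj v w) :
    (tpG F).Adj (enumS F ⟨v, hv⟩) (enumS F ⟨w, hw⟩) := by
  unfold tpG
  simp only [Equiv.symm_apply_apply]
  exact h

open Classical in
/-- homomorphisms and the isolated vertices -/
noncomputable def homTp {k : ℕ} (F : SimpleGraph (Fin k)) (G : SimpleGraph V) :
    (F →g G) ≃ (tpG F →g G) × ({v // v ∉ supp F} → V) where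
  toFun φ := (⟨fun i => φ ((enumS F).symm i : Fin k), fun h => φ.map_adj h⟩,
    fun v => φ v.1)
  invFun p := ⟨fun v => if h : v ∈ supp F then p.1 (enumS F ⟨v, h⟩) else p.2 ⟨v, h⟩, by
    intro v w hvw
    have hv : v ∈ supp F := ⟨w, hvw⟩
    have hw : w ∈ supp F := ⟨v, hvw.symm⟩
    rw [dif_pos hv, dif_pos hw]
    exact p.1.map_adj (tpG_adj F hv hw hvw)⟩
  left_inv φ := by
    ext v
    by_cases h : v ∈ supp F
    · show (if h : v ∈ supp F then φ ((enumS F).symm (enumS F ⟨v, h⟩) : Fin k) else φ v) = φ v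
      rw [dif_pos h, Equiv.symm_apply_apply]
    · show (if h : v ∈ supp F then φ ((enumS F).symm (enumS F ⟨v, h⟩) : Fin k) else φ v) = φ v
      rw [dif_neg h]
  right_inv p := by
    refine Prod.ext ?_ ?_
    · ext i
      show (if h : ((enumS F).symm i : Fin k) ∈ supp F then
        p.1 (enumS F ⟨((enumS F).symm i : Fin k), h⟩) else _) = p.1 i
      rw [dif_pos ((enumS F).symm i).2]
      have : (⟨((enumS F).symm i : Fin k), ((enumS F).symm i).2⟩ : supp F) =
        (enumS F).symm i := Subtype.coe_eta _ _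
      rw [this, Equiv.apply_symm_apply]
    · funext v
      exact dif_neg v.2

theorem td_tpG [Finite V] [Nonempty V] {k : ℕ} (F : SimpleGraph (Fin k)) (G : SimpleGraph V) :
    td F G = td (tpG F) G := by
  classical
  unfold td hc
  rw [Nat.card_congr (homTp F G), Nat.card_prod, Nat.card_fun]
  have h1 : Nat.card (Fin k) =
      Nat.card (Fin (Nat.card (supp F))) + Nat.card {v // v ∉ supp F} := by
    have h2 : Nat.card (Fin k) = Nat.card ((supp F : Set (Fin k)) ⊕ {v // v ∉ supp F}) :=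
      Nat.card_congr (Equiv.Set.sumCompl (supp F)).symm
    rw [h2, Nat.card_sum]
    congr 1
    exact Nat.card_congr (enumS F)
  rw [h1, pow_add]
  have h3 : 0 < Nat.card V := Nat.card_pos
  push_cast
  rw [mul_div_mul_right _ _ (by positivity)]

theorem tp_noniso (H : FG) (v : Fin (tp H).1) : ∃ w, (tp H).2.Adj v w := tpG_noniso H.2 v

theorem td_tp [Finite V] [Nonempty V] (H : FG) (G : SimpleGraph V) :
    td H.2 G = td (tp H).2 G := td_tpG H.2 G

/-! ### blow-ups -/

/-- the blow-up with classes of size `b + 1` -/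
def blow (G : SimpleGraph V) (b : ℕ) : SimpleGraph (V × Fin (b + 1)) where
  Adj p q := G.Adj p.1 q.1
  symm := ⟨fun _ _ h => h.symm⟩
  loopless := ⟨fun _ h => G.loopless.irrefl _ h⟩

/-- homomorphisms into a blow-up -/
def homBlow (F : SimpleGraph W) (G : SimpleGraph V) (b : ℕ) :
    (F →g blow G b) ≃ (F →g G) × (W → Fin (b + 1)) where
  toFun φ := (⟨fun w => (φ w).1, fun h => φ.map_adj h⟩, fun w => (φ w).2)
  invFun p := ⟨fun w => (p.1 w, p.2 w), fun h => p.1.map_adj h⟩
  left_inv _ := rfl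
  right_inv _ := rfl

theorem td_blow [Finite W] (F : SimpleGraph W) (G : SimpleGraph V) (b : ℕ) :
    td F (blow G b) = td F G := by
  unfold td hc
  rw [Nat.card_congr (homBlow F G b), Nat.card_prod, Nat.card_prod, Nat.card_fun]
  have h3 : 0 < Nat.card (Fin (b + 1)) := Nat.card_pos
  push_cast
  rw [mul_pow, mul_div_mul_right _ _ (by positivity)]

/-- the Latin square -/
def lat {b : ℕ} (x y : Fin (b + 1)) : Fin 3 → Fin (b + 1) := ![x, y, x + y]

theorem lat_inj {b : ℕ} {x y x' y' : Fin (b + 1)} {a c : Fin 3} (hac : a ≠ c)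
    (h1 : lat x y a = lat x' y' a) (h2 : lat x y c = lat x' y' c) : x = x' ∧ y = y' := by
  fin_cases a <;> fin_cases c <;> simp only [lat, Fin.zero_eta, Fin.mk_one, Fin.reduceFinMk,
    Matrix.cons_val_zero, Matrix.cons_val_one, Matrix.cons_val] at h1 h2 hac
  · exact absurd rfl hac
  · exact ⟨h1, h2⟩
  · subst h1
    exact ⟨rfl, add_left_cancel h2⟩
  · exact ⟨h2, h1⟩
  · exact absurd rfl hac
  · subst h1
    exact ⟨add_right_cancel h2, rfl⟩
  · subst h2
    exact ⟨rfl, add_left_cancel h1⟩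
  · subst h2
    exact ⟨add_right_cancel h1, rfl⟩
  · exact absurd rfl hac

theorem triFam_blow {ι : Type} {G : SimpleGraph V} {f : ι → Fin 3 → V} (hf : TriFam G f)
    (b : ℕ) : TriFam (blow G b)
      (fun (i : ι × (Fin (b + 1) × Fin (b + 1))) a => (f i.1 a, lat i.2.1 i.2.2 a)) := by
  refine ⟨fun i a c hac => hf.1 _ _ _ hac, ?_⟩
  rintro ⟨i, x, y⟩ ⟨i', x', y'⟩ a c a' c' hac h1 h2
  simp only [Prod.mk.injEq] at h1 h2
  have hi := hf.2 _ _ a c a' c' hac h1.1 h2.1
  subst hi
  have ha := hf.inj i h1.1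
  have hc := hf.inj i h2.1
  subst ha; subst hc
  obtain ⟨rfl, rfl⟩ := lat_inj hac h1.2 h2.2
  rfl

/-! ### copies and homomorphisms -/

theorem card_nat {α : Type} (i : Fintype α) : @Fintype.card α i = Nat.card α :=
  (@Nat.card_eq_fintype_card α i).symm

theorem labelled_eq {k n : ℕ} (F : SimpleGraph (Fin k)) (G : SimpleGraph (Fin n)) :
    G.labelledCopyCount F = Nat.card (Copy F G) := by
  delta labelledCopyCount
  exact card_nat _

theorem copyCount_le_hc {k n : ℕ} (F : SimpleGraph (Fin k)) (G : SimpleGraph (Fin n)) :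
    G.copyCount F ≤ hc F G := by
  classical
  refine copyCount_le_labelledCopyCount.trans ?_
  rw [labelled_eq]
  unfold hc
  refine Nat.card_le_card_of_injective (fun f : Copy F G => f.toHom) ?_
  intro f g h
  have h1 : (f : Fin k → Fin n) = g := congrArg (fun φ : F →g G => (φ : Fin k → Fin n)) h
  exact Copy.ext (fun v => congrFun h1 v)

theorem card_filter_nat {α : Type} (i : Fintype α) (p : α → Prop) (d : DecidablePred p) :
    (@Finset.filter α p d (@Finset.univ α i)).card = Nat.card {a // p a} := by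
  rw [Nat.card_eq_fintype_card, Fintype.card_subtype]

theorem labelled_le {k n : ℕ} (F : SimpleGraph (Fin k)) (G : SimpleGraph (Fin n)) :
    Nat.card (Copy F G) ≤ G.copyCount F * k ^ k := by
  classical
  let S := {G' : G.Subgraph // Nonempty (F ≃g G'.coe)}
  have hS : G.copyCount F = Nat.card S := by
    delta copyCount
    exact card_filter_nat _ _ _
  have hfun : k ^ k = Nat.card (Fin k → Fin k) := by
    rw [Nat.card_fun, Nat.card_eq_fintype_card, Fintype.card_fin]
  rw [hS, hfun, ← Nat.card_prod]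
  let e : (s : S) → F ≃g s.1.coe := fun s => s.2.some
  let Φ : S × (Fin k → Fin k) → (Fin k → Fin n) := fun p v => ((e p.1 (p.2 v)) : Fin n)
  have hmem : ∀ (f : Copy F G) (v : Fin k), f v ∈ f.toSubgraph.verts := by
    intro f v
    exact (f.isoToSubgraph v).2
  let Ψ : Copy F G → S × (Fin k → Fin k) := fun f =>
    (⟨f.toSubgraph, ⟨f.isoToSubgraph⟩⟩,
      fun v => (e ⟨f.toSubgraph, ⟨f.isoToSubgraph⟩⟩).symm ⟨f v, hmem f v⟩)
  have hΦ : ∀ f : Copy F G, Φ (Ψ f) = f := by
    intro f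
    funext v
    simp only [Φ, Ψ]
    rw [RelIso.apply_symm_apply]
  refine Nat.card_le_card_of_injective Ψ ?_
  intro f g h
  have h1 : (f : Fin k → Fin n) = g := by rw [← hΦ f, ← hΦ g, h]
  ext v
  rw [h1]

theorem hc_le_copy {k n : ℕ} (F : SimpleGraph (Fin k)) (G : SimpleGraph (Fin n)) :
    (hc F G : ℝ) ≤ (G.copyCount F : ℝ) * (k : ℝ) ^ k +
      ((n : ℝ) ^ k - (n.descFactorial k : ℝ)) := by
  classical
  have h1 : hc F G = Nat.card {f : F →g G // Function.Injective f} +
      Nat.card {f : F →g G // ¬ Function.Injective f} := by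
    unfold hc
    rw [← Nat.card_sum]
    exact Nat.card_congr (Equiv.sumCompl _).symm
  have h2 : Nat.card {f : F →g G // Function.Injective f} ≤ G.copyCount F * k ^ k := by
    refine le_trans (le_of_eq ?_) (labelled_le F G)
    refine Nat.card_congr ⟨fun f => ⟨f.1, f.2⟩, fun f => ⟨f.toHom, f.injective⟩, fun f => rfl,
      fun f => rfl⟩
  have h3 : Nat.card {f : F →g G // ¬ Function.Injective f} ≤
      Nat.card {f : Fin k → Fin n // ¬ Function.Injective f} := by
    refine Nat.card_le_card_of_injective (fun f => ⟨(f.1 : Fin k → Fin n), f.2⟩) ?_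
    intro f g h
    apply Subtype.ext
    simp only [Subtype.mk.injEq] at h
    exact DFunLike.coe_injective h
  have h4 : Nat.card {f : Fin k → Fin n // Function.Injective f} +
      Nat.card {f : Fin k → Fin n // ¬ Function.Injective f} = n ^ k := by
    rw [← Nat.card_sum]
    rw [Nat.card_congr (Equiv.sumCompl (fun f : Fin k → Fin n => Function.Injective f)),
      Nat.card_fun, Nat.card_eq_fintype_card, Nat.card_eq_fintype_card, Fintype.card_fin,
      Fintype.card_fin]
  have h5 : Nat.card {f : Fin k → Fin n // Function.Injective f} = n.descFactorial k := by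
    rw [Nat.card_congr (Equiv.subtypeInjectiveEquivEmbedding (Fin k) (Fin n)),
      Nat.card_eq_fintype_card, Fintype.card_embedding_eq, Fintype.card_fin, Fintype.card_fin]
  rw [h5] at h4
  have h6 : (n.descFactorial k : ℝ) + (Nat.card {f : Fin k → Fin n // ¬ Function.Injective f} : ℝ)
      = (n : ℝ) ^ k := by exact_mod_cast h4
  have h7 : (hc F G : ℝ) ≤ (G.copyCount F : ℝ) * (k : ℝ) ^ k +
      (Nat.card {f : Fin k → Fin n // ¬ Function.Injective f} : ℝ) := by
    rw [h1]
    push_cast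
    exact add_le_add (by exact_mod_cast h2) (by exact_mod_cast h3)
  linarith

theorem desc_ge {k n : ℕ} (hn : 1 ≤ n) (hk : k ≤ n) :
    (n : ℝ) ^ k - (n.descFactorial k : ℝ) ≤ (k : ℝ) ^ 2 / n * (n : ℝ) ^ k := by
  have h1 : ((n - k : ℕ) : ℝ) ^ k ≤ (n.descFactorial k : ℝ) := by
    have h2 : (n - k) ^ k ≤ n.descFactorial k :=
      (Nat.pow_le_pow_left (by omega) k).trans (Nat.pow_sub_le_descFactorial n k)
    exact_mod_cast h2
  have hn0 : (0 : ℝ) < n := by exact_mod_cast hn
  rw [Nat.cast_sub hk] at h1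
  have h3 : ((n : ℝ) - k) ^ k = (n : ℝ) ^ k * (1 + (-(k / n : ℝ))) ^ k := by
    rw [← mul_pow]
    congr 1
    field_simp
    ring
  have hkn : (k : ℝ) / n ≤ 1 := by
    rw [div_le_one hn0]
    exact_mod_cast hk
  have h4 : 1 + (k : ℝ) * (-(k / n : ℝ)) ≤ (1 + (-(k / n : ℝ))) ^ k :=
    one_add_mul_le_pow (by linarith) k
  have h5 : (n : ℝ) ^ k * (1 + (k : ℝ) * (-(k / n : ℝ))) ≤ (n.descFactorial k : ℝ) := by
    refine le_trans ?_ h1
    rw [h3]
    exact mul_le_mul_of_nonneg_left h4 (by positivity)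
  have h6 : (n : ℝ) ^ k * (1 + (k : ℝ) * (-(k / n : ℝ))) =
      (n : ℝ) ^ k - (k : ℝ) ^ 2 / n * (n : ℝ) ^ k := by
    ring
  linarith

end Pool.Agent.Q115.Abund
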