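import Pool.Agent.Q115.AbundHom

namespace Pool.Agent.Q115.Abund

open SimpleGraph Finset

/-- a non-abundant graph admits bad pairs of all orders -/
theorem exists_bad (H : FG) (hH : ¬ TriangleAbundant H) (D : ℕ) :
    ∃ X : TP, td H.2 X.G ≤ X.α ^ D := by
  classical
  by_contra hcon
  push Not at hcon
  apply hH
  obtain ⟨k, F⟩ := H
  obtain ⟨E, hE⟩ := pow_unbounded_of_one_lt (2 * (k : ℝ) ^ k * 3 ^ D)
    (by norm_num : (1 : ℝ) < 2)
  refine ⟨((D + E + 1 : ℕ) : ℝ), by positivity, ?_⟩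
  intro ε hε0 hε1
  obtain ⟨n₀, hn₀⟩ := exists_nat_ge (2 * (k : ℝ) ^ 2 * (3 / ε) ^ D)
  refine ⟨max (max n₀ k) 1, ?_⟩
  intro n hn G hfar
  have hn1 : 1 ≤ n := le_trans (le_max_right _ _) hn
  have hnk : k ≤ n := le_trans (le_trans (le_max_right _ _) (le_max_left _ _)) hn
  have hnn : n₀ ≤ n := le_trans (le_trans (le_max_left _ _) (le_max_left _ _)) hn
  have hne : Nonempty (Fin n) := ⟨⟨0, hn1⟩⟩
  have hhalf := hfar.lt_half
  obtain ⟨m, f, hf, hm⟩ := exists_triFam hfar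
  have hnR : (0 : ℝ) < n := by exact_mod_cast hn1
  rw [Fintype.card_fin] at hm
  have hm0 : 0 < m := by
    have h1 : 0 < ε * (n : ℝ) ^ 2 := by positivity
    have h2 : (0 : ℝ) < 3 * m := lt_of_lt_of_le h1 hm
    have h3 : (0 : ℝ) < m := by linarith
    exact_mod_cast h3
  let X : TP :=
    { V := Fin n, fin := inferInstance, ne := hne, G := G, ι := Fin m,
      finι := inferInstance, neι := ⟨⟨0, hm0⟩⟩, f := f, hf := hf }
  have hα : ε / 3 ≤ X.α := by
    unfold TP.α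
    simp only [X, Nat.card_eq_fintype_card, Fintype.card_fin]
    rw [le_div_iff₀ (by positivity)]
    linarith
  have h1 : X.α ^ D < td F G := hcon X
  have h2 : (ε / 3) ^ D ≤ X.α ^ D := pow_le_pow_left₀ (by positivity) hα D
  have h3 : (ε / 3) ^ D * (n : ℝ) ^ k < (hc F G : ℝ) := by
    have h4 : (ε / 3) ^ D < td F G := lt_of_le_of_lt h2 h1
    unfold td at h4
    rw [Nat.card_eq_fintype_card, Nat.card_eq_fintype_card, Fintype.card_fin,
      Fintype.card_fin, lt_div_iff₀ (by positivity)] at h4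
    exact h4
  have h4 := hc_le_copy F G
  have h5 := desc_ge hn1 hnk
  -- the error term
  have h6 : (k : ℝ) ^ 2 / n ≤ (ε / 3) ^ D / 2 := by
    have h7 : 2 * (k : ℝ) ^ 2 * (3 / ε) ^ D ≤ n := hn₀.trans (by exact_mod_cast hnn)
    rw [div_le_iff₀ hnR]
    have h8 : (ε / 3) ^ D * (3 / ε) ^ D = 1 := by
      rw [← mul_pow]
      have : ε / 3 * (3 / ε) = 1 := by field_simp
      rw [this, one_pow]
    have h9 : (ε / 3) ^ D / 2 * (2 * (k : ℝ) ^ 2 * (3 / ε) ^ D) ≤ (ε / 3) ^ D / 2 * n :=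
      mul_le_mul_of_nonneg_left h7 (by positivity)
    have h10 : (ε / 3) ^ D / 2 * (2 * (k : ℝ) ^ 2 * (3 / ε) ^ D) =
        (k : ℝ) ^ 2 * ((ε / 3) ^ D * (3 / ε) ^ D) := by ring
    rw [h10, h8, mul_one] at h9
    exact h9
  have h7 : (k : ℝ) ^ 2 / n * (n : ℝ) ^ k ≤ (ε / 3) ^ D / 2 * (n : ℝ) ^ k :=
    mul_le_mul_of_nonneg_right h6 (by positivity)
  have h8 : (ε / 3) ^ D / 2 * (n : ℝ) ^ k ≤ (G.copyCount F : ℝ) * (k : ℝ) ^ k := by
    linarith
  -- the power of `ε`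
  have hkk : (0 : ℝ) < (k : ℝ) ^ k := by
    rcases Nat.eq_zero_or_pos k with h | h
    · subst h; norm_num
    · positivity
  have h9 : ε ^ (D + E + 1) * (k : ℝ) ^ k ≤ (ε / 3) ^ D / 2 := by
    have e1 : ε ^ (D + E + 1) ≤ ε ^ (D + E) := pow_le_pow_of_le_one hε0.le hε1.le (by omega)
    have e2 : ε ^ E ≤ (1 / 2) ^ E := pow_le_pow_left₀ hε0.le (by
      rw [one_div]; exact hhalf.le) E
    have e3 : (1 / 2 : ℝ) ^ E * (2 * (k : ℝ) ^ k * 3 ^ D) ≤ 1 := by
      have e4 : (1 / 2 : ℝ) ^ E * 2 ^ E = 1 := by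
        rw [← mul_pow]; norm_num
      calc (1 / 2 : ℝ) ^ E * (2 * (k : ℝ) ^ k * 3 ^ D) ≤ (1 / 2 : ℝ) ^ E * 2 ^ E :=
            mul_le_mul_of_nonneg_left hE.le (by positivity)
        _ = 1 := e4
    have e5 : ε ^ E * (2 * (k : ℝ) ^ k * 3 ^ D) ≤ 1 :=
      (mul_le_mul_of_nonneg_right e2 (by positivity)).trans e3
    have e6 : ε ^ (D + E) * (k : ℝ) ^ k =
        (ε / 3) ^ D / 2 * (ε ^ E * (2 * (k : ℝ) ^ k * 3 ^ D)) := by
      rw [div_pow, pow_add]
      field_simp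
    calc ε ^ (D + E + 1) * (k : ℝ) ^ k ≤ ε ^ (D + E) * (k : ℝ) ^ k :=
          mul_le_mul_of_nonneg_right e1 hkk.le
      _ = (ε / 3) ^ D / 2 * (ε ^ E * (2 * (k : ℝ) ^ k * 3 ^ D)) := e6
      _ ≤ (ε / 3) ^ D / 2 * 1 := mul_le_mul_of_nonneg_left e5 (by positivity)
      _ = (ε / 3) ^ D / 2 := mul_one _
  rw [Real.rpow_natCast]
  have h10 : ε ^ (D + E + 1) * (n : ℝ) ^ k * (k : ℝ) ^ k ≤
      (G.copyCount F : ℝ) * (k : ℝ) ^ k := by
    calc ε ^ (D + E + 1) * (n : ℝ) ^ k * (k : ℝ) ^ k =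
          ε ^ (D + E + 1) * (k : ℝ) ^ k * (n : ℝ) ^ k := by ring
      _ ≤ (ε / 3) ^ D / 2 * (n : ℝ) ^ k := mul_le_mul_of_nonneg_right h9 (by positivity)
      _ ≤ _ := h8
  exact le_of_mul_le_mul_right h10 hkk

theorem finite_types (S : Finset FG)
    (hS : ∀ T ∈ S, ∀ D : ℕ, ∃ X : TP, td T.2 X.G ≤ X.α ^ D) :
    ∀ D : ℕ, ∃ X : TP, ∀ T ∈ S, td T.2 X.G ≤ X.α ^ D := by
  classical
  induction S using Finset.induction_on with
  | empty => exact fun D => ⟨S9, by simp⟩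
  | insert T S hT ih =>
    intro D
    obtain ⟨X, hX⟩ := ih (fun T' h => hS T' (Finset.mem_insert_of_mem h)) (3 * D)
    obtain ⟨Y, hY⟩ := hS T (Finset.mem_insert_self _ _) (3 * D)
    obtain ⟨Z, h1, h2⟩ := combine X Y D (S : Set FG) {T} (fun H hH => hX H hH)
      (fun H hH => by
        rw [Set.mem_singleton_iff] at hH
        subst hH
        exact hY)
    refine ⟨Z, ?_⟩
    intro T' hT'
    rw [Finset.mem_insert] at hT'
    rcases hT' with rfl | hT'
    · exact h2 _ rfl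
    · exact h1 T' hT'

theorem finite_small (M : ℕ) : {T : FG | T.1 < M}.Finite := by
  refine Set.Finite.subset (Set.finite_range
    (fun x : Σ m : Fin M, SimpleGraph (Fin m.val) => (⟨x.1.val, x.2⟩ : FG))) ?_
  rintro ⟨m, T⟩ hT
  exact ⟨⟨⟨m, hT⟩, T⟩, rfl⟩

theorem family_bad (F : Set FG) (hF : ∀ H ∈ F, ¬ TriangleAbundant H) (D : ℕ) :
    ∃ Z : TP, ∀ H ∈ F, td H.2 Z.G ≤ Z.α ^ D := by
  classical
  set M := 4 * (3 * D) with hM
  -- large members
  have hA : ∀ H ∈ {H ∈ F | M ≤ (tp H).1}, td H.2 S9.G ≤ S9.α ^ (3 * D) := by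
    rintro H ⟨-, hH⟩
    rw [td_tp, S9_α, ← pow_mul]
    have h1 := td_nine (tp H).2 (tp_noniso H)
    refine h1.trans ?_
    exact pow_le_pow_of_le_one (by norm_num) (by norm_num) hH
  -- small members
  let S : Finset FG := (Set.Finite.subset (finite_small M)
    (show {T | T.1 < M ∧ ∃ H ∈ F, tp H = T} ⊆ {T : FG | T.1 < M} from
      fun T hT => hT.1)).toFinset
  obtain ⟨Y, hY⟩ := finite_types S (by
    intro T hT D'
    rw [Set.Finite.mem_toFinset] at hT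
    obtain ⟨-, H, hH, rfl⟩ := hT
    obtain ⟨X, hX⟩ := exists_bad H (hF H hH) D'
    exact ⟨X, by rw [← td_tp]; exact hX⟩) (3 * D)
  have hB : ∀ H ∈ {H ∈ F | (tp H).1 < M}, td H.2 Y.G ≤ Y.α ^ (3 * D) := by
    rintro H ⟨hH, hlt⟩
    rw [td_tp]
    apply hY
    rw [Set.Finite.mem_toFinset]
    exact ⟨hlt, H, hH, rfl⟩
  obtain ⟨Z, h1, h2⟩ := combine S9 Y D _ _ hA hB
  refine ⟨Z, fun H hH => ?_⟩
  rcases le_or_gt M (tp H).1 with h | h
  · exact h1 H ⟨hH, h⟩
  · exact h2 H ⟨hH, h⟩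

/-! ### the final graphs -/

/-- transport of homomorphisms -/
def homComap {V V' W : Type} (F : SimpleGraph W) (G : SimpleGraph V) (e : V' ≃ V) :
    (F →g G.comap e) ≃ (F →g G) where
  toFun φ := ⟨fun w => e (φ w), fun h => φ.map_adj h⟩
  invFun φ := ⟨fun w => e.symm (φ w), fun {a b} h => by
    show G.Adj (e (e.symm (φ a))) (e (e.symm (φ b)))
    rw [Equiv.apply_symm_apply, Equiv.apply_symm_apply]
    exact φ.map_adj h⟩
  left_inv φ := by
    ext w
    exact e.symm_apply_apply _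
  right_inv φ := by
    ext w
    exact e.apply_symm_apply _

theorem td_comap {V V' W : Type} (F : SimpleGraph W) (G : SimpleGraph V) (e : V' ≃ V) :
    td F (G.comap e) = td F G := by
  unfold td hc
  rw [Nat.card_congr (homComap F G e), Nat.card_congr e]

theorem triFam_comap {V V' ι : Type} {G : SimpleGraph V} {f : ι → Fin 3 → V}
    (hf : TriFam G f) (e : V' ≃ V) :
    TriFam (G.comap e) (fun i a => e.symm (f i a)) := by
  refine ⟨?_, ?_⟩
  · intro i a b hab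
    show G.Adj (e (e.symm (f i a))) (e (e.symm (f i b)))
    rw [Equiv.apply_symm_apply, Equiv.apply_symm_apply]
    exact hf.1 i a b hab
  · intro i i' a b a' b' hab h1 h2
    exact hf.2 i i' a b a' b' hab (e.symm.injective h1) (e.symm.injective h2)

theorem not_family (F : Set FG) (hF : ∀ H ∈ F, ¬ TriangleAbundant H) :
    ¬ FamilyAbundant F := by
  classical
  rintro ⟨C, hC, h⟩
  obtain ⟨D, hD⟩ := exists_nat_gt C
  obtain ⟨Z, hZ⟩ := family_bad F hF D
  have hε0 := Z.α_pos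
  have hε1 : Z.α < 1 := lt_of_le_of_lt Z.α_le (by norm_num)
  obtain ⟨n₀, hn₀⟩ := h Z.α hε0 hε1
  -- the blow-up
  let e : Fin (Nat.card (Z.V × Fin (n₀ + 1))) ≃ Z.V × Fin (n₀ + 1) := (Finite.equivFin _).symm
  set N := Nat.card (Z.V × Fin (n₀ + 1)) with hN
  have hNV : 0 < Nat.card Z.V := Nat.card_pos
  have hNval : N = Nat.card Z.V * (n₀ + 1) := by
    rw [hN, Nat.card_prod]
    congr 1
    rw [Nat.card_eq_fintype_card, Fintype.card_fin]
  have hNn : n₀ ≤ N := by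
    rw [hNval]
    nlinarith
  let G : SimpleGraph (Fin N) := (blow Z.G n₀).comap e
  have hfin : Fintype Z.ι := Fintype.ofFinite _
  have htri : TriFam G _ := triFam_comap (triFam_blow Z.hf n₀) e
  have hmany : ManyTriangles G (Z.α * (N : ℝ) ^ 2) := by
    obtain ⟨T, h1, h2, h3⟩ := htri.many
    refine ⟨T, h1, h2, le_trans (le_of_eq ?_) h3⟩
    rw [Fintype.card_prod, Fintype.card_prod, Fintype.card_fin, hNval]
    unfold TP.α
    rw [Nat.card_eq_fintype_card (α := Z.ι)]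
    push_cast
    field_simp
  obtain ⟨H, hH, hle⟩ := hn₀ N hNn G hmany
  have h1 : (G.copyCount H.2 : ℝ) ≤ (hc H.2 G : ℝ) := by
    exact_mod_cast copyCount_le_hc H.2 G
  have hN0 : 0 < N := by
    rw [hNval]
    positivity
  have hNR : (0 : ℝ) < (N : ℝ) ^ H.1 := by positivity
  have h2 : (hc H.2 G : ℝ) = td H.2 G * (N : ℝ) ^ H.1 := by
    unfold td
    rw [Nat.card_eq_fintype_card, Nat.card_eq_fintype_card, Fintype.card_fin,
      Fintype.card_fin]
    field_simp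
  have h3 : td H.2 G ≤ Z.α ^ D := by
    rw [td_comap, td_blow]
    exact hZ H hH
  have h4 : Z.α ^ C * (N : ℝ) ^ H.1 ≤ Z.α ^ D * (N : ℝ) ^ H.1 := by
    refine hle.trans (h1.trans ?_)
    rw [h2]
    exact mul_le_mul_of_nonneg_right h3 hNR.le
  have h5 : Z.α ^ C ≤ Z.α ^ D := le_of_mul_le_mul_right h4 hNR
  have h6 : Z.α ^ D < Z.α ^ C := by
    rw [← Real.rpow_natCast]
    exact Real.rpow_lt_rpow_of_exponent_gt hε0 hε1 hD
  linarith

theorem family_of_member (F : Set FG) {H : FG} (hH : H ∈ F) (hA : TriangleAbundant H) :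
    FamilyAbundant F := by
  classical
  obtain ⟨C, hC, h⟩ := hA
  refine ⟨C, hC, fun ε h0 h1 => ?_⟩
  obtain ⟨n₀, hn₀⟩ := h ε h0 h1
  refine ⟨n₀, fun n hn G hG => ⟨H, hH, hn₀ n hn G ?_⟩⟩
  obtain ⟨T, h2, h3, h4⟩ := hG
  refine farFromTriangleFree_of_disjoint_triangles T ?_ ?_ ?_
  · intro t ht
    rw [mem_cliqueFinset_iff]
    exact h2 t ht
  · intro s hs t ht hst
    have h5 := h3 s hs t ht hst
    rw [Finset.card_le_one] at h5
    intro x hx y hy
    exact h5 x (by simpa using hx) y (by simpa using hy)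
  · rw [Fintype.card_fin]
    push_cast
    exact h4

end Pool.Agent.Q115.Abund
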