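import Mathlib

set_option autoImplicit false

/-!
# Odd closed walks contain odd cycles
-/

namespace Q115.OddWalk

open Finset SimpleGraph

theorem sub_val_cases {n : ℕ} (i j : Fin n) :
    (i.val ≤ j.val ∧ (j - i).val = j.val - i.val) ∨
      (j.val < i.val ∧ (j - i).val = n + j.val - i.val) := by
  rcases le_or_gt i j with h | h
  · exact Or.inl ⟨h, Fin.sub_val_of_le h⟩
  · exact Or.inr ⟨h, Fin.coe_sub_iff_lt.mpr h⟩

/-- A closed walk of odd length `l` contains an odd cycle of length at most `l`. -/
theorem odd_closed {V : Type} (G : SimpleGraph V) : ∀ l : ℕ, Odd l → ∀ f : ℕ → V,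
    (∀ n, n < l → G.Adj (f n) (f (n + 1))) → f l = f 0 →
    ∃ s, 1 ≤ s ∧ 2 * s + 1 ≤ l ∧ cycleGraph (2 * s + 1) ⊑ G := by
  intro l
  induction l using Nat.strong_induction_on with
  | _ l ih =>
    intro hodd f hf hclosed
    by_cases hinj : ∀ i j, i < j → j < l → f i ≠ f j
    · -- the walk is a cycle
      obtain ⟨s, hs⟩ := hodd
      have hs1 : 1 ≤ s := by
        by_contra hcon
        have h1 : l = 1 := by omega
        have h2 := hf 0 (by omega)
        rw [h1] at hclosed
        rw [hclosed] at h2
        exact G.irrefl h2
      refine ⟨s, hs1, by omega, ?_⟩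
      rw [← hs]
      refine ⟨⟨⟨fun i => f i.val, ?_⟩, ?_⟩⟩
      · have key : ∀ u v : Fin l, (v - u).val = 1 → G.Adj (f u.val) (f v.val) := by
          intro u v h
          have hu := u.2
          have hv := v.2
          rcases sub_val_cases u v with ⟨h1, h2⟩ | ⟨h1, h2⟩
          · have h3 : v.val = u.val + 1 := by omega
            rw [h3]
            exact hf _ hu
          · have h3 : v.val = 0 := by omega
            have h4 : u.val + 1 = l := by omega
            have h5 := hf u.val hu
            rw [h4, hclosed] at h5
            rw [h3]
            exact h5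
        intro u v huv
        rw [cycleGraph_adj'] at huv
        rcases huv with h | h
        · exact (key v u h).symm
        · exact key u v h
      · intro u v huv
        have huv' : f u.val = f v.val := huv
        apply Fin.ext
        rcases lt_trichotomy u.val v.val with h | h | h
        · exact absurd huv' (hinj _ _ h v.2)
        · exact h
        · exact absurd huv'.symm (hinj _ _ h u.2)
    · push Not at hinj
      obtain ⟨i, j, hij, hjl, hfij⟩ := hinj
      by_cases hpar : Odd (j - i)
      · obtain ⟨s, h1, h2, h3⟩ := ih (j - i) (by omega) hpar (fun n => f (i + n))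
          (fun n hn => by
            have := hf (i + n) (by omega)
            exact this)
          (by
            have : i + (j - i) = j := by omega
            simp only [this, Nat.add_zero]
            exact hfij.symm)
        exact ⟨s, h1, by omega, h3⟩
      · have hpar2 : Odd (l - (j - i)) := by
          rw [Nat.not_odd_iff_even] at hpar
          obtain ⟨a, ha⟩ := hpar
          obtain ⟨b, hb⟩ := hodd
          exact ⟨b - a, by omega⟩
        obtain ⟨s, h1, h2, h3⟩ := ih (l - (j - i)) (by omega) hpar2
          (fun n => if n ≤ i then f n else f (n + (j - i)))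
          (fun n hn => by
            by_cases h1 : n + 1 ≤ i
            · have h2 : n ≤ i := by omega
              simp only [h1, h2, if_true]
              exact hf n (by omega)
            · by_cases h2 : n ≤ i
              · have h3 : n = i := by omega
                subst h3
                simp only [le_refl, h1, if_true, if_false]
                rw [hfij]
                have h4 : n + 1 + (j - n) = j + 1 := by omega
                rw [h4]
                exact hf j hjl
              · simp only [h1, h2, if_false]
                have h4 : n + 1 + (j - i) = (n + (j - i)) + 1 := by omega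
                rw [h4]
                exact hf _ (by omega))
          (by
            have h1 : ¬ l - (j - i) ≤ i := by omega
            have h2 : (0 : ℕ) ≤ i := Nat.zero_le _
            simp only [h1, h2, if_true, if_false]
            have h3 : l - (j - i) + (j - i) = l := by omega
            rw [h3]
            exact hclosed)
        exact ⟨s, h1, by omega, h3⟩

theorem ofNat_succ (k m : ℕ) : Fin.ofNat (k + 3) (m + 1) = Fin.ofNat (k + 3) m + 1 := by
  apply Fin.ext
  rw [Fin.val_add]
  simp only [Fin.val_ofNat]
  have h1 : ((1 : Fin (k + 3)) : ℕ) = 1 := rfl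
  rw [h1]
  simp [Nat.add_mod]

theorem adj_succ (k : ℕ) (i : Fin (k + 3)) : (cycleGraph (k + 3)).Adj i (i + 1) := by
  rw [cycleGraph_adj]
  right
  exact add_sub_cancel_left i 1

/-- A copy of an odd cycle gives an infinite periodic walk. -/
theorem periodic_walk {V : Type} (G : SimpleGraph V) (s : ℕ) (hs : 1 ≤ s)
    (h : cycleGraph (2 * s + 1) ⊑ G) : ∃ f : ℕ → V, (∀ n, G.Adj (f n) (f (n + 1))) ∧
      ∀ n, f (n + (2 * s + 1)) = f n := by
  obtain ⟨k, rfl⟩ : ∃ k, s = k + 1 := ⟨s - 1, by omega⟩
  have e : 2 * (k + 1) + 1 = 2 * k + 3 := by ring
  rw [e] at h ⊢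
  obtain ⟨g⟩ := h
  refine ⟨fun n => g (Fin.ofNat (2 * k + 3) n), ?_, ?_⟩
  · intro n
    have h1 := adj_succ (2 * k) (Fin.ofNat (2 * k + 3) n)
    rw [← ofNat_succ] at h1
    exact g.toHom.map_rel h1
  · intro n
    have h1 : Fin.ofNat (2 * k + 3) (n + (2 * k + 3)) = Fin.ofNat (2 * k + 3) n := by
      apply Fin.ext
      simp only [Fin.val_ofNat]
      exact Nat.add_mod_right _ _
    simp only [h1]

end Q115.OddWalk
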