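import Mathlib
import Pool.Agent.Q115.OddWalk

set_option autoImplicit false

/-!
# Subdivided shift graphs with attached bit vectors

The graph `Gr t m K` has odd girth larger than `2 t + 3`, linear minimum degree, and every
homomorphic image of bounded order contains an odd closed walk of length `2 t + 1`.
-/

namespace Q115.Asym

open Finset SimpleGraph

/-- Vertices on the subdivided shift graph: position, and three indices. At position `0` the third
index is a copy of the second one. -/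
abbrev ZT (t m : ℕ) : Type :=
  {p : Fin (2 * t + 1) × Fin m × Fin m × Fin m // p.2.1 < p.2.2.1 ∧
    (p.1.val = 0 → p.2.2.2 = p.2.2.1) ∧ (p.1.val ≠ 0 → p.2.2.1 < p.2.2.2)}

/-- Position. -/
def zp {t m : ℕ} (u : ZT t m) : ℕ := u.1.1.val
/-- First index. -/
def zi {t m : ℕ} (u : ZT t m) : Fin m := u.1.2.1
/-- Second index. -/
def zj {t m : ℕ} (u : ZT t m) : Fin m := u.1.2.2.1
/-- Third index. -/
def zk {t m : ℕ} (u : ZT t m) : Fin m := u.1.2.2.2

theorem zp_lt {t m : ℕ} (u : ZT t m) : zp u < 2 * t + 1 := u.1.1.2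
theorem zij {t m : ℕ} (u : ZT t m) : zi u < zj u := u.2.1
theorem zjk {t m : ℕ} (u : ZT t m) (h : zp u ≠ 0) : zj u < zk u := u.2.2.2 h

/-- A step in the positive direction. -/
def fwd {t m : ℕ} (u v : ZT t m) : Prop :=
  (zp u < 2 * t ∧ zp v = zp u + 1 ∧ zi v = zi u ∧ zj v = zj u ∧ (zp u ≠ 0 → zk v = zk u)) ∨
  (zp u = 2 * t ∧ zp v = 0 ∧ zi v = zj u ∧ zj v = zk u)

/-- Attached vertices: position, bit vector, copy number. -/
abbrev AT (t m K : ℕ) : Type := Fin (2 * t + 1) × (Fin m → Bool) × Fin K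

/-- All vertices. -/
abbrev VT (t m K : ℕ) : Type := ZT t m ⊕ (AT t m K ⊕ AT t m K)

/-- Attachment. -/
def att {t m K : ℕ} (u : ZT t m) (a : AT t m K) : Prop :=
  zp u = a.1.val ∧ a.2.1 (zi u) = false ∧ a.2.1 (zj u) = true

/-- The adjacency relation before symmetrisation. -/
def rel {t m K : ℕ} : VT t m K → VT t m K → Prop
  | Sum.inl u, Sum.inl v => fwd u v
  | Sum.inl u, Sum.inr (Sum.inl a) => att u a
  | Sum.inr (Sum.inl a), Sum.inr (Sum.inr b) => a.1 = b.1
  | _, _ => False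

/-- The graph. -/
def Gr (t m K : ℕ) : SimpleGraph (VT t m K) := SimpleGraph.fromRel rel

/-! ### Chains of positive steps -/

/-- `Ch n u v`: there is a chain of `n` positive steps from `u` to `v`. -/
def Ch {t m : ℕ} : ℕ → ZT t m → ZT t m → Prop
  | 0, u, v => u = v
  | n + 1, u, v => ∃ w, Ch n u w ∧ fwd w v

theorem Ch_front {t m : ℕ} (n : ℕ) : ∀ (u v : ZT t m), Ch (n + 1) u v → ∃ w, fwd u w ∧ Ch n w v := by
  induction n with
  | zero =>
    rintro u v ⟨w, hw, h⟩
    have hw' : u = w := hw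
    subst hw'
    exact ⟨v, h, rfl⟩
  | succ n ih =>
    rintro u v ⟨w, hw, h⟩
    obtain ⟨x, hx, hx'⟩ := ih u w hw
    exact ⟨x, hx, w, hx', h⟩

theorem Ch_trans {t m : ℕ} (a b : ℕ) : ∀ (u v w : ZT t m), Ch a u v → Ch b v w → Ch (a + b) u w := by
  induction b with
  | zero =>
    intro u v w h1 h2
    have h2' : v = w := h2
    subst h2'
    exact h1
  | succ b ih =>
    rintro u v w h1 ⟨x, hx, h⟩
    exact ⟨x, ih u v x h1 hx, h⟩

theorem Ch_track {t m : ℕ} (n : ℕ) : ∀ (u v : ZT t m), n ≤ 2 * t + 1 → Ch n u v →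
    (zp u + n < 2 * t + 1 ∧ zp v = zp u + n ∧ zi v = zi u ∧ zj v = zj u) ∨
    (2 * t + 1 ≤ zp u + n ∧ zp v + (2 * t + 1) = zp u + n ∧ zi v = zj u) := by
  induction n with
  | zero =>
    intro u v _ h
    have h' : u = v := h
    subst h'
    exact Or.inl ⟨zp_lt u, rfl, rfl, rfl⟩
  | succ n ih =>
    rintro u v hn ⟨w, hw, h⟩
    have hu := zp_lt u
    rcases ih u w (by omega) hw with ⟨h1, h2, h3, h4⟩ | ⟨h1, h2, h3⟩
    · rcases h with ⟨h5, h6, h7, h8, _⟩ | ⟨h5, h6, h7, h8⟩
      · left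
        refine ⟨by omega, by omega, by rw [h7, h3], by rw [h8, h4]⟩
      · right
        refine ⟨by omega, by omega, by rw [h7, h4]⟩
    · rcases h with ⟨h5, h6, h7, h8, _⟩ | ⟨h5, h6, h7, h8⟩
      · right
        refine ⟨by omega, by omega, by rw [h7, h3]⟩
      · exfalso
        omega

theorem Ch_full {t m : ℕ} (u v : ZT t m) (h : Ch (2 * t + 1) u v) : zi v = zj u := by
  rcases Ch_track (2 * t + 1) u v le_rfl h with ⟨h1, _⟩ | ⟨_, _, h3⟩
  · omega
  · exact h3

theorem Ch_not_closed {t m : ℕ} (u : ZT t m) : ¬ Ch (2 * t + 1) u u := by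
  intro h
  have h1 := Ch_full u u h
  have h2 := zij u
  rw [h1] at h2
  exact lt_irrefl _ h2

/-- No backtracking. -/
theorem Ch_back {t m : ℕ} (u v : ZT t m) (h : Ch (2 * t + 1 + 1) u v) (hv : fwd u v) : False := by
  obtain ⟨w, hw, hc⟩ := Ch_front _ u v h
  have h1 := Ch_full w v hc
  have hij := zij u
  rcases hv with ⟨h5, h6, h7, h8, _⟩ | ⟨h5, h6, h7, h8⟩
  · rcases hw with ⟨g5, g6, g7, g8, _⟩ | ⟨g5, g6, g7, g8⟩
    · rw [h7, g8] at h1
      rw [h1] at hij
      exact lt_irrefl _ hij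
    · omega
  · rcases hw with ⟨g5, g6, g7, g8, _⟩ | ⟨g5, g6, g7, g8⟩
    · omega
    · rw [h7, g8] at h1
      have ht : zp u ≠ 0 := by
        intro h0
        have := zp_lt u
        have ht0 : t = 0 := by omega
        rcases hc with ⟨x, _, _⟩
        -- for `t = 0` position is always `0` and `fwd` gives `zi v = zj u = zk u = zj u`
        have hkk : zk u = zj u := u.2.2.1 h0
        have hvij := zij v
        rw [h7, h8, hkk] at hvij
        exact lt_irrefl _ hvij
      have hjk := zjk u ht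
      rw [h1] at hjk
      exact lt_irrefl _ hjk

/-! ### Steps, net displacement -/

/-- Position of an arbitrary vertex. -/
def pos {t m K : ℕ} : VT t m K → ℕ
  | Sum.inl u => zp u
  | Sum.inr (Sum.inl a) => a.1.val
  | Sum.inr (Sum.inr b) => b.1.val

/-- Parity marker. -/
def par {t m K : ℕ} : VT t m K → ℕ
  | Sum.inr (Sum.inl _) => 1
  | _ => 0

open Classical in
/-- Displacement of a step. -/
noncomputable def stp {t m K : ℕ} (x y : VT t m K) : ℤ :=
  if ∃ u v, x = Sum.inl u ∧ y = Sum.inl v ∧ fwd u v then 1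
  else if ∃ u v, x = Sum.inl u ∧ y = Sum.inl v ∧ fwd v u then -1 else 0

theorem fwd_pos {t m : ℕ} {u v : ZT t m} (h : fwd u v) :
    (zp v = zp u + 1) ∨ (zp u = 2 * t ∧ zp v = 0) := by
  rcases h with h | h
  · exact Or.inl h.2.1
  · exact Or.inr ⟨h.1, h.2.1⟩

theorem not_fwd_both {t m : ℕ} (ht : 1 ≤ t) {u v : ZT t m} (h : fwd u v) : ¬ fwd v u := by
  intro h'
  rcases fwd_pos h with h1 | h1 <;> rcases fwd_pos h' with h2 | h2 <;> omega

/-- The possible kinds of steps. -/
theorem step_cases {t m K : ℕ} (ht : 1 ≤ t) {x y : VT t m K} (h : (Gr t m K).Adj x y) :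
    (∃ u v, x = Sum.inl u ∧ y = Sum.inl v ∧ fwd u v ∧ stp x y = 1) ∨
    (∃ u v, x = Sum.inl u ∧ y = Sum.inl v ∧ fwd v u ∧ stp x y = -1) ∨
    (∃ u a, x = Sum.inl u ∧ y = Sum.inr (Sum.inl a) ∧ att u a ∧ stp x y = 0) ∨
    (∃ u a, x = Sum.inr (Sum.inl a) ∧ y = Sum.inl u ∧ att u a ∧ stp x y = 0) ∨
    (∃ a b, x = Sum.inr (Sum.inl a) ∧ y = Sum.inr (Sum.inr b) ∧ a.1 = b.1 ∧ stp x y = 0) ∨
    (∃ a b, x = Sum.inr (Sum.inr b) ∧ y = Sum.inr (Sum.inl a) ∧ a.1 = b.1 ∧ stp x y = 0) := by
  rw [Gr, SimpleGraph.fromRel_adj] at h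
  obtain ⟨_, h⟩ := h
  rcases x with u | a | b <;> rcases y with v | a' | b'
  · rcases h with h | h
    · have h' : fwd u v := h
      left
      refine ⟨u, v, rfl, rfl, h', ?_⟩
      unfold stp
      rw [if_pos ⟨u, v, rfl, rfl, h'⟩]
    · have h' : fwd v u := h
      right; left
      refine ⟨u, v, rfl, rfl, h', ?_⟩
      unfold stp
      rw [if_neg, if_pos ⟨u, v, rfl, rfl, h'⟩]
      rintro ⟨u', v', hu, hv, hf⟩
      rw [Sum.inl.injEq] at hu hv
      subst hu hv
      exact not_fwd_both ht h' hf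
  · rcases h with h | h
    · have h' : att u a' := h
      right; right; left
      refine ⟨u, a', rfl, rfl, h', ?_⟩
      unfold stp
      rw [if_neg, if_neg]
      · rintro ⟨u', v', _, hv, _⟩
        cases hv
      · rintro ⟨u', v', _, hv, _⟩
        cases hv
    · exact h.elim
  · rcases h with h | h <;> exact h.elim
  · rcases h with h | h
    · exact h.elim
    · have h' : att v a := h
      right; right; right; left
      refine ⟨v, a, rfl, rfl, h', ?_⟩
      unfold stp
      rw [if_neg, if_neg]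
      · rintro ⟨u', v', hu, _, _⟩
        cases hu
      · rintro ⟨u', v', hu, _, _⟩
        cases hu
  · rcases h with h | h <;> exact h.elim
  · rcases h with h | h
    · have h' : a.1 = b'.1 := h
      right; right; right; right; left
      refine ⟨a, b', rfl, rfl, h', ?_⟩
      unfold stp
      rw [if_neg, if_neg]
      · rintro ⟨u', v', hu, _, _⟩
        cases hu
      · rintro ⟨u', v', hu, _, _⟩
        cases hu
    · exact h.elim
  · rcases h with h | h <;> exact h.elim
  · rcases h with h | h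
    · exact h.elim
    · have h' : a'.1 = b.1 := h
      right; right; right; right; right
      refine ⟨a', b, rfl, rfl, h', ?_⟩
      unfold stp
      rw [if_neg, if_neg]
      · rintro ⟨u', v', hu, _, _⟩
        cases hu
      · rintro ⟨u', v', hu, _, _⟩
        cases hu
  · rcases h with h | h <;> exact h.elim

/-- Net displacement. -/
noncomputable def net {t m K : ℕ} (f : ℕ → VT t m K) (n : ℕ) : ℤ :=
  ∑ k ∈ range n, stp (f k) (f (k + 1))

theorem net_succ {t m K : ℕ} (f : ℕ → VT t m K) (n : ℕ) :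
    net f (n + 1) = net f n + stp (f n) (f (n + 1)) := Finset.sum_range_succ _ _

theorem net_zero {t m K : ℕ} (f : ℕ → VT t m K) : net f 0 = 0 := Finset.sum_range_zero _

theorem net_le {t m K : ℕ} (ht : 1 ≤ t) (f : ℕ → VT t m K) (l : ℕ)
    (hf : ∀ n, n < l → (Gr t m K).Adj (f n) (f (n + 1))) :
    ∀ n, n ≤ l → net f n ≤ n ∧ -(n : ℤ) ≤ net f n := by
  intro n
  induction n with
  | zero =>
    intro _
    rw [net_zero]
    simp
  | succ n ih =>
    intro hn
    have h1 := ih (by omega)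
    rw [net_succ]
    push_cast
    rcases step_cases ht (hf n (by omega)) with ⟨_, _, _, _, _, h⟩ | ⟨_, _, _, _, _, h⟩ |
      ⟨_, _, _, _, _, h⟩ | ⟨_, _, _, _, _, h⟩ | ⟨_, _, _, _, _, h⟩ | ⟨_, _, _, _, _, h⟩ <;>
      rw [h] <;> constructor <;> linarith [h1.1, h1.2]

theorem pos_mod {t m K : ℕ} (ht : 1 ≤ t) (f : ℕ → VT t m K) (l : ℕ)
    (hf : ∀ n, n < l → (Gr t m K).Adj (f n) (f (n + 1))) :
    ∀ n, n ≤ l → ∃ c : ℤ, (pos (f n) : ℤ) = pos (f 0) + net f n + c * (2 * t + 1) := by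
  intro n
  induction n with
  | zero =>
    intro _
    exact ⟨0, by rw [net_zero]; ring⟩
  | succ n ih =>
    intro hn
    obtain ⟨c, hc⟩ := ih (by omega)
    rw [net_succ]
    rcases step_cases ht (hf n (by omega)) with ⟨u, v, hx, hy, hfw, h⟩ | ⟨u, v, hx, hy, hfw, h⟩ |
      ⟨u, a, hx, hy, hat, h⟩ | ⟨u, a, hx, hy, hat, h⟩ | ⟨a, b, hx, hy, hab, h⟩ |
      ⟨a, b, hx, hy, hab, h⟩
    · rw [h]
      rw [hx] at hc
      rw [hy]
      have e1 : pos (Sum.inl u : VT t m K) = zp u := rfl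
      have e2 : pos (Sum.inl v : VT t m K) = zp v := rfl
      rw [e1] at hc
      rw [e2]
      rcases fwd_pos hfw with h1 | ⟨h1, h2⟩
      · exact ⟨c, by rw [h1]; push_cast; linarith⟩
      · refine ⟨c - 1, ?_⟩
        rw [h2]
        rw [h1] at hc
        push_cast at hc ⊢
        linarith
    · rw [h]
      rw [hx] at hc
      rw [hy]
      have e1 : pos (Sum.inl u : VT t m K) = zp u := rfl
      have e2 : pos (Sum.inl v : VT t m K) = zp v := rfl
      rw [e1] at hc
      rw [e2]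
      rcases fwd_pos hfw with h1 | ⟨h1, h2⟩
      · refine ⟨c, ?_⟩
        rw [h1] at hc
        push_cast at hc
        linarith
      · refine ⟨c + 1, ?_⟩
        rw [h1]
        rw [h2] at hc
        push_cast at hc ⊢
        linarith
    · refine ⟨c, ?_⟩
      rw [h, hy]
      rw [hx] at hc
      have e1 : pos (Sum.inl u : VT t m K) = zp u := rfl
      have e2 : pos (Sum.inr (Sum.inl a) : VT t m K) = a.1.val := rfl
      rw [e1] at hc
      rw [e2, ← hat.1]
      linarith
    · refine ⟨c, ?_⟩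
      rw [h, hy]
      rw [hx] at hc
      have e1 : pos (Sum.inl u : VT t m K) = zp u := rfl
      have e2 : pos (Sum.inr (Sum.inl a) : VT t m K) = a.1.val := rfl
      rw [e1, hat.1, ← e2]
      linarith
    · refine ⟨c, ?_⟩
      rw [h, hy]
      rw [hx] at hc
      have e1 : pos (Sum.inr (Sum.inl a) : VT t m K) = a.1.val := rfl
      have e2 : pos (Sum.inr (Sum.inr b) : VT t m K) = b.1.val := rfl
      rw [e2, ← hab, ← e1]
      linarith
    · refine ⟨c, ?_⟩
      rw [h, hy]
      rw [hx] at hc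
      have e1 : pos (Sum.inr (Sum.inl a) : VT t m K) = a.1.val := rfl
      have e2 : pos (Sum.inr (Sum.inr b) : VT t m K) = b.1.val := rfl
      rw [e1, hab, ← e2]
      linarith

theorem par_mod {t m K : ℕ} (ht : 1 ≤ t) (f : ℕ → VT t m K) (l : ℕ)
    (hf : ∀ n, n < l → (Gr t m K).Adj (f n) (f (n + 1))) :
    ∀ n, n ≤ l → ∃ c : ℤ, (par (f n) : ℤ) + net f n = par (f 0) + n + 2 * c := by
  intro n
  induction n with
  | zero =>
    intro _
    exact ⟨0, by rw [net_zero]; push_cast; ring⟩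
  | succ n ih =>
    intro hn
    obtain ⟨c, hc⟩ := ih (by omega)
    rw [net_succ]
    rcases step_cases ht (hf n (by omega)) with ⟨u, v, hx, hy, hfw, h⟩ | ⟨u, v, hx, hy, hfw, h⟩ |
      ⟨u, a, hx, hy, hat, h⟩ | ⟨u, a, hx, hy, hat, h⟩ | ⟨a, b, hx, hy, hab, h⟩ |
      ⟨a, b, hx, hy, hab, h⟩
    · refine ⟨c, ?_⟩
      rw [h, hy]
      rw [hx] at hc
      have e1 : par (Sum.inl u : VT t m K) = 0 := rfl
      have e2 : par (Sum.inl v : VT t m K) = 0 := rfl
      rw [e1] at hc
      rw [e2]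
      push_cast at hc ⊢
      linarith
    · refine ⟨c - 1, ?_⟩
      rw [h, hy]
      rw [hx] at hc
      have e1 : par (Sum.inl u : VT t m K) = 0 := rfl
      have e2 : par (Sum.inl v : VT t m K) = 0 := rfl
      rw [e1] at hc
      rw [e2]
      push_cast at hc ⊢
      linarith
    · refine ⟨c, ?_⟩
      rw [h, hy]
      rw [hx] at hc
      have e1 : par (Sum.inl u : VT t m K) = 0 := rfl
      have e2 : par (Sum.inr (Sum.inl a) : VT t m K) = 1 := rfl
      rw [e1] at hc
      rw [e2]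
      push_cast at hc ⊢
      linarith
    · refine ⟨c - 1, ?_⟩
      rw [h, hy]
      rw [hx] at hc
      have e1 : par (Sum.inl u : VT t m K) = 0 := rfl
      have e2 : par (Sum.inr (Sum.inl a) : VT t m K) = 1 := rfl
      rw [e2] at hc
      rw [e1]
      push_cast at hc ⊢
      linarith
    · refine ⟨c - 1, ?_⟩
      rw [h, hy]
      rw [hx] at hc
      have e1 : par (Sum.inr (Sum.inl a) : VT t m K) = 1 := rfl
      have e2 : par (Sum.inr (Sum.inr b) : VT t m K) = 0 := rfl
      rw [e1] at hc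
      rw [e2]
      push_cast at hc ⊢
      linarith
    · refine ⟨c, ?_⟩
      rw [h, hy]
      rw [hx] at hc
      have e1 : par (Sum.inr (Sum.inl a) : VT t m K) = 1 := rfl
      have e2 : par (Sum.inr (Sum.inr b) : VT t m K) = 0 := rfl
      rw [e2] at hc
      rw [e1]
      push_cast at hc ⊢
      linarith

/-- Classification of walks with small defect. -/
theorem classify {t m K : ℕ} (ht : 1 ≤ t) (f : ℕ → VT t m K) (l : ℕ)
    (hf : ∀ n, n < l → (Gr t m K).Adj (f n) (f (n + 1))) (v0 : ZT t m) (h0 : f 0 = Sum.inl v0) :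
    ∀ n, n ≤ l →
      (net f n = n → ∃ u, f n = Sum.inl u ∧ Ch n v0 u) ∧
      (net f n = n - 1 → ∃ a u n', f n = Sum.inr (Sum.inl a) ∧ att u a ∧ Ch n' v0 u ∧
        n' + 1 = n) ∧
      (net f n = n - 2 → ∀ u, f n = Sum.inl u →
        (∃ n1 n2 u1 u2, ∃ a : AT t m K, Ch n1 v0 u1 ∧ att u1 a ∧ att u2 a ∧ Ch n2 u2 u ∧
          n1 + n2 + 2 = n) ∨
        (∃ n1 n2 u1 u2, Ch n1 v0 u1 ∧ fwd u2 u1 ∧ Ch n2 u2 u ∧ n1 + 1 + n2 = n)) := by
  intro n
  induction n with
  | zero =>
    intro _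
    rw [net_zero]
    refine ⟨fun _ => ⟨v0, h0, rfl⟩, fun h => ?_, fun h => ?_⟩
    · exfalso
      norm_num at h
    · exfalso
      norm_num at h
  | succ n ih =>
    intro hn
    obtain ⟨ih0, ih1, ih2⟩ := ih (by omega)
    have hle := net_le ht f l hf n (by omega)
    rw [net_succ]
    have hstep := step_cases ht (hf n (by omega))
    refine ⟨fun h => ?_, fun h => ?_, fun h => ?_⟩
    · push_cast at h
      rcases hstep with ⟨u, v, hx, hy, hfw, hs⟩ | ⟨u, v, hx, hy, hfw, hs⟩ |
        ⟨u, a, hx, hy, hat, hs⟩ | ⟨u, a, hx, hy, hat, hs⟩ | ⟨a, b, hx, hy, hab, hs⟩ |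
        ⟨a, b, hx, hy, hab, hs⟩
      · rw [hs] at h
        obtain ⟨u', hu', hc⟩ := ih0 (by linarith)
        rw [hx, Sum.inl.injEq] at hu'
        subst hu'
        exact ⟨v, hy, u, hc, hfw⟩
      all_goals
        exfalso
        rw [hs] at h
        linarith [hle.1]
    · push_cast at h
      rcases hstep with ⟨u, v, hx, hy, hfw, hs⟩ | ⟨u, v, hx, hy, hfw, hs⟩ |
        ⟨u, a, hx, hy, hat, hs⟩ | ⟨u, a, hx, hy, hat, hs⟩ | ⟨a, b, hx, hy, hab, hs⟩ |
        ⟨a, b, hx, hy, hab, hs⟩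
      · rw [hs] at h
        obtain ⟨a, u', n', ha, _⟩ := ih1 (by linarith)
        rw [hx] at ha
        cases ha
      · exfalso
        rw [hs] at h
        linarith [hle.1]
      · rw [hs] at h
        obtain ⟨u', hu', hc⟩ := ih0 (by linarith)
        rw [hx, Sum.inl.injEq] at hu'
        subst hu'
        exact ⟨a, u, n, ⟨hy, hat, hc, rfl⟩⟩
      · rw [hs] at h
        obtain ⟨u', hu', hc⟩ := ih0 (by linarith)
        rw [hx] at hu'
        cases hu'
      · rw [hs] at h
        obtain ⟨u', hu', hc⟩ := ih0 (by linarith)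
        rw [hx] at hu'
        cases hu'
      · rw [hs] at h
        obtain ⟨u', hu', hc⟩ := ih0 (by linarith)
        rw [hx] at hu'
        cases hu'
    · push_cast at h
      intro w hw
      rcases hstep with ⟨u, v, hx, hy, hfw, hs⟩ | ⟨u, v, hx, hy, hfw, hs⟩ |
        ⟨u, a, hx, hy, hat, hs⟩ | ⟨u, a, hx, hy, hat, hs⟩ | ⟨a, b, hx, hy, hab, hs⟩ |
        ⟨a, b, hx, hy, hab, hs⟩
      · rw [hs] at h
        rw [hy, Sum.inl.injEq] at hw
        subst hw
        rcases ih2 (by linarith) u hx with ⟨n1, n2, u1, u2, a, g1, g2, g3, g4, g5⟩ |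
          ⟨n1, n2, u1, u2, g1, g2, g3, g4⟩
        · left
          exact ⟨n1, n2 + 1, u1, u2, a, g1, g2, g3, ⟨u, g4, hfw⟩, by omega⟩
        · right
          exact ⟨n1, n2 + 1, u1, u2, g1, g2, ⟨u, g3, hfw⟩, by omega⟩
      · rw [hs] at h
        rw [hy, Sum.inl.injEq] at hw
        subst hw
        obtain ⟨u', hu', hc⟩ := ih0 (by linarith)
        rw [hx, Sum.inl.injEq] at hu'
        subst hu'
        right
        exact ⟨n, 0, u, v, hc, hfw, rfl, rfl⟩
      · rw [hy] at hw
        cases hw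
      · rw [hs] at h
        rw [hy, Sum.inl.injEq] at hw
        subst hw
        obtain ⟨a', u', n', ha, g1, g2, g3⟩ := ih1 (by linarith)
        rw [hx, Sum.inr.injEq, Sum.inl.injEq] at ha
        subst ha
        left
        exact ⟨n', 0, u', u, a, g2, g1, hat, rfl, by omega⟩
      · rw [hy] at hw
        cases hw
      · rw [hy] at hw
        cases hw

/-- No closed walk of length at most `2 t + 3` from a vertex on the subdivided shift graph has
displacement `2 t + 1`. -/
theorem no_turn {t m K : ℕ} (ht : 1 ≤ t) (f : ℕ → VT t m K) (l : ℕ) (hl : l ≤ 2 * t + 3)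
    (hf : ∀ n, n < l → (Gr t m K).Adj (f n) (f (n + 1))) (v0 : ZT t m) (h0 : f 0 = Sum.inl v0)
    (hcl : f l = f 0) (hnet : net f l = 2 * t + 1) : False := by
  obtain ⟨c0, c1, c2⟩ := classify ht f l hf v0 h0 l le_rfl
  have hle := (net_le ht f l hf l le_rfl).1
  rw [hnet] at hle
  have hl2 : l = 2 * t + 1 ∨ l = 2 * t + 2 ∨ l = 2 * t + 3 := by
    have : 2 * t + 1 ≤ l := by exact_mod_cast hle
    omega
  rw [h0] at hcl
  rcases hl2 with h | h | h
  · obtain ⟨u, hu, hc⟩ := c0 (by rw [hnet, h]; push_cast; ring)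
    rw [hcl, Sum.inl.injEq] at hu
    subst hu
    rw [h] at hc
    exact Ch_not_closed v0 hc
  · obtain ⟨a, u, n', ha, _⟩ := c1 (by rw [hnet, h]; push_cast; ring)
    rw [hcl] at ha
    cases ha
  · rcases c2 (by rw [hnet, h]; push_cast; ring) v0 hcl with
      ⟨n1, n2, u1, u2, a, g1, g2, g3, g4, g5⟩ | ⟨n1, n2, u1, u2, g1, g2, g3, g4⟩
    · have h1 := Ch_trans n2 n1 u2 v0 u1 g4 g1
      have h2 : n2 + n1 = 2 * t + 1 := by omega
      rw [h2] at h1
      have h3 := Ch_full u2 u1 h1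
      have h4 := g2.2.1
      have h5 := g3.2.2
      rw [h3, h5] at h4
      cases h4
    · have h1 := Ch_trans n2 n1 u2 v0 u1 g3 g1
      have h2 : n2 + n1 = 2 * t + 1 + 1 := by omega
      rw [h2] at h1
      exact Ch_back u2 u1 h1 g2

theorem stp_symm {t m K : ℕ} (ht : 1 ≤ t) (x y : VT t m K) : stp y x = - stp x y := by
  unfold stp
  by_cases h1 : ∃ u v, x = Sum.inl u ∧ y = Sum.inl v ∧ fwd u v
  · obtain ⟨u, v, hx, hy, hf⟩ := h1
    rw [if_pos (⟨u, v, hx, hy, hf⟩ : ∃ u v, x = Sum.inl u ∧ y = Sum.inl v ∧ fwd u v)]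
    rw [if_neg, if_pos ⟨v, u, hy, hx, hf⟩]
    rintro ⟨u', v', hu, hv, hf'⟩
    rw [hy, Sum.inl.injEq] at hu
    rw [hx, Sum.inl.injEq] at hv
    subst hu hv
    exact not_fwd_both ht hf hf'
  · by_cases h2 : ∃ u v, x = Sum.inl u ∧ y = Sum.inl v ∧ fwd v u
    · rw [if_neg h1, if_pos h2]
      obtain ⟨u, v, hx, hy, hf⟩ := h2
      rw [if_pos ⟨v, u, hy, hx, hf⟩]
      norm_num
    · rw [if_neg h1, if_neg h2, if_neg, if_neg]
      · norm_num
      · rintro ⟨u, v, hy, hx, hf⟩
        exact h1 ⟨v, u, hx, hy, hf⟩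
      · rintro ⟨u, v, hy, hx, hf⟩
        exact h2 ⟨v, u, hx, hy, hf⟩

/-- Closed odd walks of length at most `2 t + 3` turn around exactly once. -/
theorem net_closed {t m K : ℕ} (ht : 1 ≤ t) (f : ℕ → VT t m K) (s : ℕ) (hs : s ≤ t + 1)
    (hf : ∀ n, n < 2 * s + 1 → (Gr t m K).Adj (f n) (f (n + 1))) (hcl : f (2 * s + 1) = f 0) :
    net f (2 * s + 1) = 2 * t + 1 ∨ net f (2 * s + 1) = -(2 * t + 1) := by
  obtain ⟨c, hc⟩ := pos_mod ht f (2 * s + 1) hf (2 * s + 1) le_rfl
  obtain ⟨d, hd⟩ := par_mod ht f (2 * s + 1) hf (2 * s + 1) le_rfl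
  obtain ⟨h1, h2⟩ := net_le ht f (2 * s + 1) hf (2 * s + 1) le_rfl
  rw [hcl] at hc hd
  have hc' : net f (2 * s + 1) = - c * (2 * t + 1) := by linarith
  have hd' : net f (2 * s + 1) = 2 * s + 1 + 2 * d := by
    push_cast at hd
    linarith
  have hsZ : (s : ℤ) ≤ t + 1 := by exact_mod_cast hs
  have htZ : (1 : ℤ) ≤ t := by exact_mod_cast ht
  push_cast at h1 h2
  -- `c` is `1` or `-1`
  have hcle : c ≤ 1 := by
    by_contra hcon
    push Not at hcon
    have : (2 : ℤ) ≤ c := by omega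
    nlinarith
  have hcge : -1 ≤ c := by
    by_contra hcon
    push Not at hcon
    have : c ≤ -2 := by omega
    nlinarith
  have hc3 : c = -1 ∨ c = 0 ∨ c = 1 := by omega
  rcases hc3 with h | h | h
  · left
    rw [hc', h]
    ring
  · exfalso
    rw [h] at hc'
    simp only [neg_zero, zero_mul] at hc'
    omega
  · right
    rw [hc', h]
    ring

/-- The graph has no odd cycle of length at most `2 t + 3`. -/
theorem odd_free {t m K : ℕ} (ht : 1 ≤ t) (s : ℕ) (hs1 : 1 ≤ s) (hs : s ≤ t + 1) :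
    (cycleGraph (2 * s + 1)).Free (Gr t m K) := by
  intro hcon
  obtain ⟨f, hf, hper⟩ := Q115.OddWalk.periodic_walk (Gr t m K) s hs1 hcon
  -- find a vertex on the subdivided shift graph
  have hz : ∃ n v, f n = Sum.inl v := by
    by_contra hno
    push Not at hno
    have h0 : net f (2 * s + 1) = 0 := by
      unfold net
      apply Finset.sum_eq_zero
      intro k _
      unfold stp
      rw [if_neg, if_neg]
      · rintro ⟨u, v, hx, _, _⟩
        exact hno k u hx
      · rintro ⟨u, v, hx, _, _⟩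
        exact hno k u hx
    have h1 := net_closed ht f s hs (fun n _ => hf n) (by
      have := hper 0
      rwa [Nat.zero_add] at this)
    rw [h0] at h1
    have htZ : (1 : ℤ) ≤ t := by exact_mod_cast ht
    rcases h1 with h1 | h1 <;> omega
  obtain ⟨n0, v0, hn0⟩ := hz
  set g : ℕ → VT t m K := fun n => f (n + n0) with hg
  have hgadj : ∀ n, (Gr t m K).Adj (g n) (g (n + 1)) := by
    intro n
    have := hf (n + n0)
    have e : n + 1 + n0 = n + n0 + 1 := by omega
    simp only [hg, e]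
    exact this
  have hg0 : g 0 = Sum.inl v0 := by
    simp only [hg, Nat.zero_add]
    exact hn0
  have hgcl : g (2 * s + 1) = g 0 := by
    simp only [hg, Nat.zero_add]
    have := hper n0
    rw [Nat.add_comm n0] at this
    exact this
  rcases net_closed ht g s hs (fun n _ => hgadj n) hgcl with h | h
  · exact no_turn ht g (2 * s + 1) (by omega) (fun n _ => hgadj n) v0 hg0 hgcl h
  · -- reverse
    set g' : ℕ → VT t m K := fun n => g (2 * s + 1 - n) with hg'
    have hadj' : ∀ n, n < 2 * s + 1 → (Gr t m K).Adj (g' n) (g' (n + 1)) := by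
      intro n hn
      have h1 := hgadj (2 * s + 1 - (n + 1))
      have e : 2 * s + 1 - (n + 1) + 1 = 2 * s + 1 - n := by omega
      rw [e] at h1
      exact h1.symm
    have h0' : g' 0 = Sum.inl v0 := by
      simp only [hg', Nat.sub_zero]
      rw [hgcl, hg0]
    have hcl' : g' (2 * s + 1) = g' 0 := by
      simp only [hg', Nat.sub_self, Nat.sub_zero]
      exact hgcl.symm
    have hnet' : net g' (2 * s + 1) = 2 * t + 1 := by
      have h1 : net g' (2 * s + 1) = - net g (2 * s + 1) := by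
        unfold net
        rw [← Finset.sum_range_reflect (fun k => stp (g k) (g (k + 1))), ← Finset.sum_neg_distrib]
        apply Finset.sum_congr rfl
        intro k hk
        rw [mem_range] at hk
        rw [← stp_symm ht]
        have e1 : 2 * s + 1 - 1 - k + 1 = 2 * s + 1 - k := by omega
        have e2 : 2 * s + 1 - 1 - k = 2 * s + 1 - (k + 1) := by omega
        rw [e1, e2]
      rw [h1, h]
      ring
    exact no_turn ht g' (2 * s + 1) (by omega) hadj' v0 h0' hcl' hnet'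

end Q115.Asym
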