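import Mathlib
import Pool.Agent.Q115.OddWalk
import Pool.Agent.Q115.AsymGraph

set_option autoImplicit false

/-!
# Homomorphic images and degrees of the graph `Gr t m K`
-/

namespace Q115.Asym

open Finset SimpleGraph

/-- Vertex of the shift graph. -/
def base (t : ℕ) {m : ℕ} (i j : Fin m) (h : i < j) : ZT t m :=
  ⟨(⟨0, by omega⟩, i, j, j), h, fun _ => rfl, fun hn => absurd rfl hn⟩

/-- Inner vertex of a subdivided edge. -/
def mid (t : ℕ) {m : ℕ} (c : ℕ) (hc0 : c ≠ 0) (hc : c < 2 * t + 1) (i j k : Fin m) (h : i < j)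
    (h' : j < k) : ZT t m :=
  ⟨(⟨c, hc⟩, i, j, k), h, fun hn => absurd hn hc0, fun _ => h'⟩

/-- The walk from `base i j` to `base j k`. -/
def wlk (t : ℕ) {m : ℕ} (i j k : Fin m) (h : i < j) (h' : j < k) (n : ℕ) : ZT t m :=
  if hn0 : n = 0 then base t i j h
  else if hn : n < 2 * t + 1 then mid t n hn0 hn i j k h h'
  else base t j k h'

theorem wlk_fwd {t m : ℕ} (i j k : Fin m) (h : i < j) (h' : j < k) (n : ℕ) (hn : n < 2 * t + 1)
    (ht : 1 ≤ t) : fwd (wlk t i j k h h' n) (wlk t i j k h h' (n + 1)) := by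
  by_cases hn0 : n = 0
  · subst hn0
    have e1 : wlk t i j k h h' 0 = base t i j h := by
      unfold wlk
      rw [dif_pos rfl]
    have e2 : wlk t i j k h h' (0 + 1) = mid t 1 (by omega) (by omega) i j k h h' := by
      unfold wlk
      rw [dif_neg (by omega), dif_pos (by omega : (0 + 1 : ℕ) < 2 * t + 1)]
    rw [e1, e2]
    left
    refine ⟨?_, rfl, rfl, rfl, ?_⟩
    · change (0 : ℕ) < 2 * t
      omega
    · intro hne
      exact absurd rfl hne
  · have e1 : wlk t i j k h h' n = mid t n hn0 hn i j k h h' := by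
      unfold wlk
      rw [dif_neg hn0, dif_pos hn]
    by_cases hn2 : n + 1 < 2 * t + 1
    · have e2 : wlk t i j k h h' (n + 1) = mid t (n + 1) (by omega) hn2 i j k h h' := by
        unfold wlk
        rw [dif_neg (by omega), dif_pos hn2]
      rw [e1, e2]
      left
      refine ⟨?_, rfl, rfl, rfl, fun _ => rfl⟩
      change n < 2 * t
      omega
    · have e2 : wlk t i j k h h' (n + 1) = base t j k h' := by
        unfold wlk
        rw [dif_neg (by omega), dif_neg hn2]
      rw [e1, e2]
      right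
      refine ⟨?_, rfl, rfl, rfl⟩
      change n = 2 * t
      omega

theorem fwd_adj {t m K : ℕ} (ht : 1 ≤ t) {u v : ZT t m} (h : fwd u v) :
    (Gr t m K).Adj (Sum.inl u) (Sum.inl v) := by
  rw [Gr, SimpleGraph.fromRel_adj]
  refine ⟨?_, Or.inl h⟩
  intro he
  rw [Sum.inl.injEq] at he
  subst he
  exact not_fwd_both ht h h

/-- Every homomorphic image of order at most `M` of `Gr t (2 ^ M + 1) K` contains an odd cycle of
length at most `2 t + 1`. -/
theorem image_odd {t M K : ℕ} (ht : 1 ≤ t) {W : Type} [Fintype W] (hW : Fintype.card W ≤ M)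
    (Γ : SimpleGraph W) (φ : Gr t (2 ^ M + 1) K →g Γ) :
    ∃ s, 1 ≤ s ∧ s ≤ t ∧ cycleGraph (2 * s + 1) ⊑ Γ := by
  classical
  let S : Fin (2 ^ M + 1) → Finset W := fun i =>
    univ.filter (fun w => ∃ j, ∃ h : i < j, φ (Sum.inl (base t i j h)) = w)
  have hcard : Fintype.card (Finset W) < Fintype.card (Fin (2 ^ M + 1)) := by
    rw [Fintype.card_finset, Fintype.card_fin]
    have : 2 ^ Fintype.card W ≤ 2 ^ M := Nat.pow_le_pow_right (by norm_num) hW
    omega
  obtain ⟨i, j, hij, hS⟩ := Fintype.exists_ne_map_eq_of_card_lt S hcard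
  wlog hlt : i < j generalizing i j with H
  · exact H j i hij.symm hS.symm (lt_of_le_of_ne (not_lt.mp hlt) hij.symm)
  have h1 : φ (Sum.inl (base t i j hlt)) ∈ S i := by
    simp only [S, mem_filter, mem_univ, true_and]
    exact ⟨j, hlt, rfl⟩
  rw [hS] at h1
  simp only [S, mem_filter, mem_univ, true_and] at h1
  obtain ⟨k, hjk, hk⟩ := h1
  obtain ⟨s, hs1, hs2, hs3⟩ := Q115.OddWalk.odd_closed Γ (2 * t + 1) ⟨t, rfl⟩
    (fun n => φ (Sum.inl (wlk t i j k hlt hjk n)))
    (fun n hn => φ.map_rel (fwd_adj ht (wlk_fwd i j k hlt hjk n hn ht)))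
    (by
      have e1 : wlk t i j k hlt hjk 0 = base t i j hlt := by
        unfold wlk
        rw [dif_pos rfl]
      have e2 : wlk t i j k hlt hjk (2 * t + 1) = base t j k hjk := by
        unfold wlk
        rw [dif_neg (by omega), dif_neg (by omega)]
      simp only [e1, e2]
      exact hk)
  exact ⟨s, hs1, by omega, hs3⟩

/-! ### Degrees -/

theorem card_le_ncard {α β : Type} [Fintype α] [Finite β] (s : Set β) (g : α → β)
    (hg : Function.Injective g) (hs : ∀ a, g a ∈ s) : Fintype.card α ≤ s.ncard := by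
  classical
  have h1 : (Set.range g).ncard = Fintype.card α := by
    rw [← Set.image_univ, Set.ncard_image_of_injective _ hg, Set.ncard_univ, Nat.card_eq_fintype_card]
  rw [← h1]
  apply Set.ncard_le_ncard _ (Set.toFinite s)
  rintro _ ⟨a, rfl⟩
  exact hs a

theorem card_vec {m : ℕ} (i j : Fin m) (hij : i < j) :
    2 ^ m ≤ 4 * Fintype.card {w : Fin m → Bool // w i = false ∧ w j = true} := by
  classical
  have hne : i ≠ j := ne_of_lt hij
  have h1 : Fintype.card (Fin m → Bool) ≤
      Fintype.card ({w : Fin m → Bool // w i = false ∧ w j = true} × (Bool × Bool)) := by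
    apply Fintype.card_le_of_injective
      (fun w => (⟨Function.update (Function.update w i false) j true, by
        rw [Function.update_of_ne hne, Function.update_self], by
        rw [Function.update_self]⟩, (w i, w j)))
    intro w w' h
    simp only [Prod.mk.injEq, Subtype.mk.injEq] at h
    obtain ⟨h1, h2, h3⟩ := h
    funext x
    by_cases hxi : x = i
    · rw [hxi, h2]
    · by_cases hxj : x = j
      · rw [hxj, h3]
      · have h4 := congrFun h1 x
        rw [Function.update_of_ne hxj, Function.update_of_ne hxi, Function.update_of_ne hxj,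
          Function.update_of_ne hxi] at h4
        exact h4
  rw [Fintype.card_prod, Fintype.card_prod, Fintype.card_fun, Fintype.card_fin, Fintype.card_bool]
    at h1
  omega

noncomputable instance {t m : ℕ} : Fintype (ZT t m) := Fintype.ofFinite _

theorem deg_Z {t m K : ℕ} (u : ZT t m) :
    2 ^ m * K ≤ 4 * ((Gr t m K).neighborSet (Sum.inl u)).ncard := by
  classical
  have h1 := card_le_ncard ((Gr t m K).neighborSet (Sum.inl u))
    (fun p : {w : Fin m → Bool // w (zi u) = false ∧ w (zj u) = true} × Fin K =>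
      (Sum.inr (Sum.inl (⟨zp u, zp_lt u⟩, p.1.1, p.2)) : VT t m K))
    (by
      intro p q h
      simp only [Sum.inr.injEq, Sum.inl.injEq, Prod.mk.injEq, true_and] at h
      exact Prod.ext (Subtype.ext h.1) h.2)
    (by
      intro p
      rw [SimpleGraph.mem_neighborSet, Gr, SimpleGraph.fromRel_adj]
      refine ⟨(fun h => by cases h), Or.inl ?_⟩
      exact ⟨rfl, p.1.2.1, p.1.2.2⟩)
  have h2 := card_vec (zi u) (zj u) (zij u)
  rw [Fintype.card_prod, Fintype.card_fin] at h1
  calc 2 ^ m * K ≤ (4 * Fintype.card {w : Fin m → Bool // w (zi u) = false ∧ w (zj u) = true}) * K :=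
        Nat.mul_le_mul_right _ h2
    _ = 4 * (Fintype.card {w : Fin m → Bool // w (zi u) = false ∧ w (zj u) = true} * K) := by ring
    _ ≤ _ := Nat.mul_le_mul_left _ h1

theorem deg_A {t m K : ℕ} (a : AT t m K) :
    2 ^ m * K ≤ ((Gr t m K).neighborSet (Sum.inr (Sum.inl a))).ncard := by
  classical
  have h1 := card_le_ncard ((Gr t m K).neighborSet (Sum.inr (Sum.inl a)))
    (fun p : (Fin m → Bool) × Fin K =>
      (Sum.inr (Sum.inr (a.1, p.1, p.2)) : VT t m K))
    (by
      intro p q h
      simp only [Sum.inr.injEq, Prod.mk.injEq, true_and] at h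
      exact Prod.ext h.1 h.2)
    (by
      intro p
      rw [SimpleGraph.mem_neighborSet, Gr, SimpleGraph.fromRel_adj]
      refine ⟨(fun h => by cases h), Or.inl ?_⟩
      rfl)
  rw [Fintype.card_prod, Fintype.card_fun, Fintype.card_fin, Fintype.card_bool,
    Fintype.card_fin] at h1
  exact h1

theorem deg_B {t m K : ℕ} (b : AT t m K) :
    2 ^ m * K ≤ ((Gr t m K).neighborSet (Sum.inr (Sum.inr b))).ncard := by
  classical
  have h1 := card_le_ncard ((Gr t m K).neighborSet (Sum.inr (Sum.inr b)))
    (fun p : (Fin m → Bool) × Fin K =>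
      (Sum.inr (Sum.inl (b.1, p.1, p.2)) : VT t m K))
    (by
      intro p q h
      simp only [Sum.inr.injEq, Sum.inl.injEq, Prod.mk.injEq, true_and] at h
      exact Prod.ext h.1 h.2)
    (by
      intro p
      rw [SimpleGraph.mem_neighborSet, Gr, SimpleGraph.fromRel_adj]
      refine ⟨(fun h => by cases h), Or.inr ?_⟩
      rfl)
  rw [Fintype.card_prod, Fintype.card_fun, Fintype.card_fin, Fintype.card_bool,
    Fintype.card_fin] at h1
  exact h1

theorem card_V {t m : ℕ} :
    Fintype.card (VT t m (Fintype.card (ZT t m) + 1)) ≤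
      (4 * t + 3) * (2 ^ m * (Fintype.card (ZT t m) + 1)) := by
  classical
  have h2 : Fintype.card (AT t m (Fintype.card (ZT t m) + 1)) =
      (2 * t + 1) * (2 ^ m * (Fintype.card (ZT t m) + 1)) := by
    rw [Fintype.card_prod, Fintype.card_prod, Fintype.card_fun, Fintype.card_fin,
      Fintype.card_bool, Fintype.card_fin, Fintype.card_fin]
  have h1 : Fintype.card (VT t m (Fintype.card (ZT t m) + 1)) =
      Fintype.card (ZT t m) + ((2 * t + 1) * (2 ^ m * (Fintype.card (ZT t m) + 1)) +
        (2 * t + 1) * (2 ^ m * (Fintype.card (ZT t m) + 1))) := by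
    rw [Fintype.card_sum, Fintype.card_sum, h2]
  rw [h1]
  have h3 : Fintype.card (ZT t m) ≤ 2 ^ m * (Fintype.card (ZT t m) + 1) := by
    have : 1 ≤ 2 ^ m := Nat.one_le_two_pow
    nlinarith
  nlinarith

/-- The graph has minimum degree at least `|V| / (16 t + 12)`. -/
theorem min_deg {t m : ℕ} (v : VT t m (Fintype.card (ZT t m) + 1)) :
    Fintype.card (VT t m (Fintype.card (ZT t m) + 1)) ≤
      (16 * t + 12) * ((Gr t m (Fintype.card (ZT t m) + 1)).neighborSet v).ncard := by
  have h1 := card_V (t := t) (m := m)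
  have h2 : 2 ^ m * (Fintype.card (ZT t m) + 1) ≤
      4 * ((Gr t m (Fintype.card (ZT t m) + 1)).neighborSet v).ncard := by
    rcases v with u | a | b
    · exact deg_Z u
    · have := deg_A a
      omega
    · have := deg_B b
      omega
  calc _ ≤ _ := h1
    _ ≤ (4 * t + 3) * (4 * ((Gr t m (Fintype.card (ZT t m) + 1)).neighborSet v).ncard) :=
        Nat.mul_le_mul_left _ h2
    _ = _ := by ring

end Q115.Asym
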