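import Pool.Agent.Q115.SDC

set_option autoImplicit false
open scoped Classical Pointwise
open Finset

universe u v

namespace Pool.Agent.Q115.DD

open Pool.Agent.Q115.SD

variable {Γ : Type u} [AddCommGroup Γ]

/-- Pigeonhole: a dense set of integers contains, for every `q`, a difference `i q` with
`1 ≤ i ≤ t`. -/
theorem pigeon (S : Set ℤ) (t : ℕ)
    (hS : ∀ C : ℕ, ∃ (x : ℤ) (N : ℕ),
      N + C < (t + 1) * ((Finset.Ico x (x + N)).filter (· ∈ S)).card)
    (q : ℤ) : ∃ i : ℕ, 1 ≤ i ∧ i ≤ t ∧ ∃ s ∈ S, ∃ s' ∈ S, (i : ℤ) * q = s - s' := by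
  by_contra hcon
  push Not at hcon
  obtain ⟨x, N, hN⟩ := hS (2 * (t * q.natAbs))
  set W := (Finset.Ico x (x + N)).filter (· ∈ S) with hW
  let f : ℕ × ℤ → ℤ := fun p => p.2 + p.1 * q
  have hinj : Set.InjOn f (range (t + 1) ×ˢ W : Finset (ℕ × ℤ)) := by
    rintro ⟨i, w⟩ hi ⟨j, w'⟩ hj h
    simp only [coe_product, Set.mem_prod, mem_coe, mem_range] at hi hj
    simp only [f] at h
    have hw := (mem_filter.1 hi.2).2
    have hw' := (mem_filter.1 hj.2).2
    rcases lt_trichotomy i j with hij | hij | hij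
    · exfalso
      refine hcon (j - i) (by omega) (by omega) w hw w' hw' ?_
      rw [Nat.cast_sub hij.le]
      linear_combination -h
    · subst hij
      have : w = w' := by linarith
      rw [this]
    · exfalso
      refine hcon (i - j) (by omega) (by omega) w' hw' w hw ?_
      rw [Nat.cast_sub hij.le]
      linear_combination h
  have hmaps : ∀ p ∈ range (t + 1) ×ˢ W,
      f p ∈ Finset.Ico (x - (t * q.natAbs : ℕ)) (x + N + (t * q.natAbs : ℕ)) := by
    rintro ⟨i, w⟩ hp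
    rw [mem_product, mem_range, hW, mem_filter, mem_Ico] at hp
    obtain ⟨hi, ⟨h1, h2⟩, -⟩ := hp
    simp only at hi h1 h2
    have h3 : |(i : ℤ) * q| ≤ (t * q.natAbs : ℕ) := by
      rw [abs_mul]
      push_cast
      gcongr
      · rw [abs_of_nonneg (by positivity)]
        exact_mod_cast Nat.lt_succ_iff.1 hi
    have h4 := abs_le.1 h3
    rw [mem_Ico]
    simp only [f]
    constructor
    · linarith [h4.1]
    · linarith [h4.2]
  have hcard := card_le_card_of_injOn f (fun p hp => hmaps p hp) hinj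
  rw [card_product, card_range, Int.card_Ico] at hcard
  have h5 : (x + N + (t * q.natAbs : ℕ) - (x - (t * q.natAbs : ℕ))).toNat
      = N + 2 * (t * q.natAbs) := by
    have : x + N + (t * q.natAbs : ℕ) - (x - (t * q.natAbs : ℕ))
        = ((N + 2 * (t * q.natAbs) : ℕ) : ℤ) := by
      push_cast; ring
    rw [this, Int.toNat_natCast]
  rw [h5] at hcard
  omega

/-- Dense dilates. -/
theorem dense (A : Finset Γ) (hA : A.Nonempty) (K : ℝ) (U : Set ℤ) (k t : ℕ)
    (hAA : ((A + A).card : ℝ) ≤ K * A.card)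
    (hU : ∀ u ∈ U, ((A + A.image (fun a => u • a)).card : ℝ) ≤ K * A.card)
    (hS : ∀ C : ℕ, ∃ (x : ℤ) (N : ℕ), N + C < (t + 1) * ((Finset.Ico x (x + N)).filter
      (fun s => ∃ f : Fin k → ℤ, (∀ i, f i ∈ U) ∧ s = ∑ i, f i)).card)
    (n : ℕ) : ((A + A.image (fun a => n • a)).card : ℝ)
      ≤ ((2 * k + 1) * K) ^ ((2 * k + 1) * t.factorial) * A.card := by
  have hK : 1 ≤ K := by
    refine one_le_of (R := ℤ) A hA (c := 1) ?_
    rw [dil_one]
    exact hAA
  have hk1 : (1 : ℝ) ≤ (2 * k + 1) * K := by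
    have : (0 : ℝ) ≤ k := Nat.cast_nonneg k
    nlinarith
  set T := t.factorial with hT
  have hTpos : 0 < T := Nat.factorial_pos t
  obtain ⟨i, hi1, hit, s, ⟨f, hf, rfl⟩, s', ⟨g, hg, rfl⟩, he⟩ :=
    pigeon {s | ∃ f : Fin k → ℤ, (∀ i, f i ∈ U) ∧ s = ∑ i, f i} t
      (by simpa only [Set.mem_ofPred_eq] using hS) ((n / T : ℕ) : ℤ)
  obtain ⟨e, he2⟩ : i ∣ T := Nat.dvd_factorial hi1 hit
  have heT : e ≤ T := by
    rw [he2]
    exact Nat.le_mul_of_pos_left e hi1
  set r := n % T with hr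
  have hrT : r < T := Nat.mod_lt _ hTpos
  set V : Finset ℤ := insert 1 (univ.image f ∪ univ.image g) with hV
  have hVc : V.card ≤ 2 * k + 1 := by
    refine (card_insert_le _ _).trans ?_
    have h1 := card_union_le (univ.image f) (univ.image g)
    have h2 : (univ.image f).card ≤ k := card_image_le.trans (by simp)
    have h3 : (univ.image g).card ≤ k := card_image_le.trans (by simp)
    omega
  have hVs : ∀ v ∈ V, ((A + dil v A).card : ℝ) ≤ K * A.card := by
    intro v hv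
    rw [hV, mem_insert, mem_union, mem_image, mem_image] at hv
    rcases hv with rfl | ⟨i, -, rfl⟩ | ⟨i, -, rfl⟩
    · rw [dil_one]; exact hAA
    · exact hU _ (hf i)
    · exact hU _ (hg i)
  have h1 := union_trick A hA V K hVs (1 + r + e * k) (e * k)
  have h2 : A + A.image (fun a => n • a)
      ⊆ (1 + r + e * k) • uni V A - (e * k) • uni V A := by
    intro y hy
    obtain ⟨p, hp, b, hb, rfl⟩ := mem_add.1 hy
    obtain ⟨a, ha, rfl⟩ := mem_image.1 hb
    have hna : n • a = r • a + e • (∑ i, f i • a) - e • (∑ i, g i • a) := by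
      have h3 : (n : ℤ) = r + e * ((∑ i, f i) - ∑ i, g i) := by
        rw [← he]
        have h4 : n = T * (n / T) + r := (Nat.div_add_mod n T).symm
        have h5 : T = i * e := he2
        calc (n : ℤ) = ((T * (n / T) + r : ℕ) : ℤ) := by rw [← h4]
          _ = (T : ℤ) * ((n / T : ℕ) : ℤ) + r := by push_cast; ring
          _ = ((i * e : ℕ) : ℤ) * ((n / T : ℕ) : ℤ) + r := by rw [← h5]
          _ = r + e * (i * ((n / T : ℕ) : ℤ)) := by push_cast; ring
      rw [← natCast_zsmul, h3, add_smul, natCast_zsmul, mul_smul, sub_smul, sum_smul, sum_smul,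
        natCast_zsmul, smul_sub]
      abel
    have h6 : p + n • a = (p + r • a + e • (∑ i, f i • a)) - e • (∑ i, g i • a) := by
      rw [hna]; abel
    have h1V : (1 : ℤ) ∈ V := mem_insert_self _ _
    have hB : ∀ {b : Γ}, b ∈ A → b ∈ uni V A := fun {b} hb => by
      have := smul_mem_uni h1V hb
      rwa [one_smul] at this
    have key : ∀ h : Fin k → ℤ, (∀ i, h i ∈ V) → e • (∑ i, h i • a) ∈ (e * k) • uni V A := by
      intro h hh
      rw [mul_comm, mul_nsmul]
      exact nsmul_mem_nsmul _ (sum_mem_nsmul _ _ _ fun i => smul_mem_uni (hh i) ha) e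
    rw [h6, add_smul, add_smul, one_smul]
    refine sub_mem_sub (add_mem_add (add_mem_add (hB hp) (nsmul_mem_nsmul _ (hB ha) r)) ?_) ?_
    · exact key f fun i => by simp [hV]
    · exact key g fun i => by simp [hV]
  have h4 : ((A + A.image (fun a => n • a)).card : ℝ)
      ≤ (((1 + r + e * k) • uni V A - (e * k) • uni V A).card : ℝ) := by
    exact_mod_cast card_le_card h2
  refine h4.trans (h1.trans ?_)
  have h6 : (V.card : ℝ) ≤ 2 * k + 1 := by exact_mod_cast hVc
  have h7 : (V.card * K) ^ (1 + r + e * k + e * k) ≤ ((2 * k + 1) * K) ^ ((2 * k + 1) * T) := by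
    calc (V.card * K) ^ (1 + r + e * k + e * k) ≤ ((2 * k + 1) * K) ^ (1 + r + e * k + e * k) := by
          gcongr
      _ ≤ ((2 * k + 1) * K) ^ ((2 * k + 1) * T) := by
          apply pow_le_pow_right₀ hk1
          nlinarith [Nat.mul_le_mul_right k heT]
  gcongr

/-- Every integer, even if `m` is even, is a sum of two units modulo `m`. -/
theorem two_units (m n : ℕ) (hm : 0 < m) (hn : 2 ∣ m → 2 ∣ n) :
    ∃ u v : ℕ, u.Coprime m ∧ v.Coprime m ∧ n ≡ u + v [MOD m] := by
  -- `P` is the product of the primes dividing `m` and `n`, `Q` that of the others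
  set P := ∏ p ∈ m.primeFactors.filter (· ∣ n), p with hP
  set Q := ∏ p ∈ m.primeFactors.filter (fun p => ¬ p ∣ n), p with hQ
  have hPQ : P.Coprime Q := by
    rw [hP, hQ]
    refine Nat.Coprime.prod_left fun p hp => Nat.Coprime.prod_right fun q hq => ?_
    rw [mem_filter, Nat.mem_primeFactors] at hp hq
    rw [Nat.coprime_primes hp.1.1 hq.1.1]
    rintro rfl
    exact hq.2 hp.2
  obtain ⟨u, hu1, hu2⟩ := Nat.chineseRemainder hPQ 1 (2 * n)
  have hcase : ∀ p, p.Prime → p ∣ m → ¬ p ∣ u ∧ ∀ c : ℕ, p ∣ c → ¬ (u ≡ n + c [MOD p]) := by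
    intro p hp hpm
    have hpm' : p ∈ m.primeFactors := Nat.mem_primeFactors.2 ⟨hp, hpm, hm.ne'⟩
    by_cases hpn : p ∣ n
    · have h1 : u ≡ 1 [MOD p] :=
        hu1.of_dvd (by rw [hP]; exact dvd_prod_of_mem _ (mem_filter.2 ⟨hpm', hpn⟩))
      have h2 : ¬ (1 ≡ 0 [MOD p]) := by
        intro h
        have := (Nat.modEq_zero_iff_dvd.1 h)
        exact hp.one_lt.ne' (Nat.dvd_one.1 this)
      constructor
      · intro h
        exact h2 (h1.symm.trans (Nat.modEq_zero_iff_dvd.2 h))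
      · intro c hc h
        exact h2 (h1.symm.trans (h.trans (Nat.modEq_zero_iff_dvd.2 (dvd_add hpn hc))))
    · have hp2 : ¬ p ∣ 2 := by
        intro h
        have h3 : p = 2 := (Nat.prime_dvd_prime_iff_eq hp Nat.prime_two).1 h
        subst h3
        exact hpn (hn hpm)
      have h1 : u ≡ 2 * n [MOD p] :=
        hu2.of_dvd (by rw [hQ]; exact dvd_prod_of_mem _ (mem_filter.2 ⟨hpm', hpn⟩))
      constructor
      · intro h
        have h3 : p ∣ 2 * n :=
          Nat.modEq_zero_iff_dvd.1 (h1.symm.trans (Nat.modEq_zero_iff_dvd.2 h))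
        rcases (Nat.Prime.dvd_mul hp).1 h3 with h4 | h4
        · exact hp2 h4
        · exact hpn h4
      · intro c hc h
        have h3 : n + n ≡ n + c [MOD p] := by
          rw [← two_mul]
          exact h1.symm.trans h
        have h4 : n ≡ c [MOD p] := Nat.ModEq.add_left_cancel' n h3
        exact hpn (Nat.modEq_zero_iff_dvd.1 (h4.trans (Nat.modEq_zero_iff_dvd.2 hc)))
  -- `v = n + m u - u`
  refine ⟨u, n + m * u - u, ?_, ?_, ?_⟩
  · refine Nat.Coprime.symm (Nat.coprime_of_dvd fun p hp hpm => (hcase p hp hpm).1)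
  · have hle : u ≤ n + m * u := by nlinarith
    refine Nat.Coprime.symm (Nat.coprime_of_dvd fun p hp hpm hpv => ?_)
    refine (hcase p hp hpm).2 (m * u) (Dvd.dvd.mul_right hpm u) ?_
    exact (Nat.modEq_iff_dvd' hle).2 hpv
  · have hle : u ≤ n + m * u := by nlinarith
    have h1 : u + (n + m * u - u) = n + m * u := by omega
    rw [h1]
    exact (Nat.modEq_iff_dvd' (by omega)).2 (by rw [Nat.add_sub_cancel_left]; exact Dvd.intro _ rfl)

/-- Torsion sets invariant under units. -/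
theorem units (A : Finset Γ) (hA : A.Nonempty) (K : ℝ) (m : ℕ) (hm : 0 < m)
    (hmA : ∀ a ∈ A, m • a = 0) (hinv : ∀ u : ℕ, u.Coprime m → ∀ a ∈ A, u • a ∈ A)
    (hAA : ((A + A).card : ℝ) ≤ K * A.card) (n : ℕ) :
    ((A + A.image (fun a => n • a)).card : ℝ) ≤ K ^ 4 * A.card := by
  have hK : 1 ≤ K := by
    refine one_le_of (R := ℤ) A hA (c := 1) ?_
    rw [dil_one]
    exact hAA
  have hmod : ∀ x y : ℕ, x ≡ y [MOD m] → ∀ a ∈ A, x • a = y • a := by
    intro x y hxy a ha
    have h1 : ∀ z : ℕ, z • a = (z % m) • a := by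
      intro z
      conv_lhs => rw [← Nat.div_add_mod z m, add_smul, mul_comm, mul_smul, hmA a ha, smul_zero,
        zero_add]
    rw [h1 x, h1 y, hxy]
  have hsub : A + A.image (fun a => n • a) ⊆ 3 • A ∨ A + A.image (fun a => n • a) ⊆ 4 • A := by
    have e3 : (3 : ℕ) • A = A + (A + A) := by
      rw [show (3 : ℕ) = 2 + 1 from rfl, succ_nsmul, two_nsmul, add_comm]
    have e4 : (4 : ℕ) • A = A + (A + (A + A)) := by
      rw [show (4 : ℕ) = 3 + 1 from rfl, succ_nsmul, e3, add_comm]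
    by_cases h2 : 2 ∣ m → 2 ∣ n
    · left
      obtain ⟨u, v, hu, hv, huv⟩ := two_units m n hm h2
      intro y hy
      obtain ⟨p, hp, b, hb, rfl⟩ := mem_add.1 hy
      obtain ⟨a, ha, rfl⟩ := mem_image.1 hb
      rw [hmod _ _ huv a ha, add_smul, e3]
      exact add_mem_add hp (add_mem_add (hinv u hu a ha) (hinv v hv a ha))
    · right
      push Not at h2
      obtain ⟨u, v, hu, hv, huv⟩ := two_units m (n - 1) hm (fun _ => by
        have h3 := h2.2
        omega)
      have hn : n = 1 + (n - 1) := by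
        have h3 := h2.2
        omega
      intro y hy
      obtain ⟨p, hp, b, hb, rfl⟩ := mem_add.1 hy
      obtain ⟨a, ha, rfl⟩ := mem_image.1 hb
      have h5 : n • a = a + (u • a + v • a) := by
        rw [hn, add_smul, one_smul, hmod _ _ huv a ha, add_smul]
      rw [h5, e4]
      exact add_mem_add hp (add_mem_add ha (add_mem_add (hinv u hu a ha) (hinv v hv a ha)))
  rcases hsub with h | h
  · have h1 := plu' A hA A K hAA 3
    have h2 : ((A + A.image (fun a => n • a)).card : ℝ) ≤ ((3 • A).card : ℝ) := by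
      exact_mod_cast card_le_card h
    refine h2.trans (h1.trans ?_)
    have : K ^ 3 ≤ K ^ 4 := pow_le_pow_right₀ hK (by norm_num)
    gcongr
  · have h1 := plu' A hA A K hAA 4
    have h2 : ((A + A.image (fun a => n • a)).card : ℝ) ≤ ((4 • A).card : ℝ) := by
      exact_mod_cast card_le_card h
    exact h2.trans h1

/-- Integral sets. -/
theorem integral (A : Finset Γ) (hA : A.Nonempty) (K : ℝ)
    (hfin : ∀ a ∈ A, IsOfFinAddOrder a)
    (hint : ∀ a ∈ A, ∀ b : Γ, AddSubgroup.zmultiples b = AddSubgroup.zmultiples a → b ∈ A)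
    (hAA : ((A + A).card : ℝ) ≤ K * A.card) (n : ℕ) :
    ((A + A.image (fun a => n • a)).card : ℝ) ≤ K ^ 4 * A.card := by
  refine units A hA K (∏ a ∈ A, addOrderOf a) ?_ ?_ ?_ hAA n
  · exact prod_pos fun a ha => (hfin a ha).addOrderOf_pos
  · intro a ha
    exact addOrderOf_dvd_iff_nsmul_eq_zero.1 (dvd_prod_of_mem _ ha)
  · intro u hu a ha
    refine hint a ha _ ?_
    have h1 : u.Coprime (addOrderOf a) := Nat.Coprime.coprime_dvd_right (dvd_prod_of_mem _ ha) hu
    apply le_antisymm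
    · rw [AddSubgroup.zmultiples_le]
      exact AddSubgroup.nsmul_mem _ (AddSubgroup.mem_zmultiples a) u
    · rw [AddSubgroup.zmultiples_le]
      exact mem_zmultiples_nsmul_iff.2 h1

/-- Square dilates. -/
theorem squares (A : Finset Γ) (hA : A.Nonempty) (K : ℝ)
    (hU : ∀ u : ℕ, ((A + A.image (fun a => u ^ 2 • a)).card : ℝ) ≤ K * A.card) (n : ℕ) :
    ((A + A.image (fun a => n • a)).card : ℝ) ≤ (5 * K) ^ 5 * A.card := by
  have hdil : ∀ u : ℕ, dil (((u ^ 2 : ℕ) : ℤ)) A = A.image (fun a => u ^ 2 • a) := by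
    intro u
    unfold dil
    congr 1
    funext a
    exact natCast_zsmul _ _
  have hK : 1 ≤ K := by
    refine one_le_of (R := ℤ) A hA (c := ((1 ^ 2 : ℕ) : ℤ)) ?_
    rw [hdil]
    exact hU 1
  obtain ⟨a, b, c, d, habcd⟩ := Nat.sum_four_squares n
  set V : Finset ℤ := {((1 ^ 2 : ℕ) : ℤ), ((a ^ 2 : ℕ) : ℤ), ((b ^ 2 : ℕ) : ℤ), ((c ^ 2 : ℕ) : ℤ),
    ((d ^ 2 : ℕ) : ℤ)} with hV
  have hVc : V.card ≤ 5 := card_le_five
  have hVs : ∀ v ∈ V, ((A + dil v A).card : ℝ) ≤ K * A.card := by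
    intro v hv
    simp only [hV, mem_insert, mem_singleton] at hv
    rcases hv with rfl | rfl | rfl | rfl | rfl
    all_goals
      rw [hdil]
      exact hU _
  have h1 := union_trick A hA V K hVs 5 0
  rw [zero_nsmul, sub_zero, add_zero] at h1
  have e5 : (5 : ℕ) • uni V A = uni V A + uni V A + uni V A + uni V A + uni V A := by
    rw [show (5 : ℕ) = 4 + 1 from rfl, succ_nsmul, show (4 : ℕ) = 3 + 1 from rfl, succ_nsmul,
      show (3 : ℕ) = 2 + 1 from rfl, succ_nsmul, two_nsmul]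
  have h2 : A + A.image (fun a => n • a) ⊆ 5 • uni V A := by
    intro y hy
    obtain ⟨p, hp, q', hq', rfl⟩ := mem_add.1 hy
    obtain ⟨q, hq, rfl⟩ := mem_image.1 hq'
    have h3 : p + n • q = ((1 ^ 2 : ℕ) : ℤ) • p + ((a ^ 2 : ℕ) : ℤ) • q + ((b ^ 2 : ℕ) : ℤ) • q
        + ((c ^ 2 : ℕ) : ℤ) • q + ((d ^ 2 : ℕ) : ℤ) • q := by
      simp only [natCast_zsmul]
      rw [← habcd, add_smul, add_smul, add_smul, one_pow, one_smul]
      abel
    rw [h3, e5]
    refine add_mem_add (add_mem_add (add_mem_add (add_mem_add ?_ ?_) ?_) ?_) ?_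
    · exact smul_mem_uni (by simp [hV]) hp
    all_goals exact smul_mem_uni (by simp [hV]) hq
  have h4 : ((A + A.image (fun a => n • a)).card : ℝ) ≤ ((5 • uni V A).card : ℝ) := by
    exact_mod_cast card_le_card h2
  refine h4.trans (h1.trans ?_)
  have h6 : (V.card : ℝ) ≤ 5 := by exact_mod_cast hVc
  gcongr

theorem dense' (A : Finset Γ) (hA : A.Nonempty) (K : ℝ) (U : Set ℤ) (k t : ℕ)
    (hAA : ((A + A).card : ℝ) ≤ K * A.card)
    (hU : ∀ u ∈ U, ((A + A.image (fun a => u • a)).card : ℝ) ≤ K * A.card)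
    (hS : ∀ C : ℕ, ∃ (x : ℤ) (N : ℕ), N + C <
        (t + 1) * {s : ℤ | s ∈ Set.Ico x (x + N) ∧
          ∃ f : Fin k → ℤ, (∀ i, f i ∈ U) ∧ s = ∑ i, f i}.ncard)
    (n : ℕ) : ((A + A.image (fun a => n • a)).card : ℝ)
      ≤ ((2 * k + 1) * K) ^ ((2 * k + 1) * t.factorial) * A.card := by
  refine dense A hA K U k t hAA hU ?_ n
  intro C
  obtain ⟨x, N, h⟩ := hS C
  refine ⟨x, N, ?_⟩
  have h2 : {s : ℤ | s ∈ Set.Ico x (x + N) ∧
      ∃ f : Fin k → ℤ, (∀ i, f i ∈ U) ∧ s = ∑ i, f i}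
      = (((Finset.Ico x (x + N)).filter
        (fun s => ∃ f : Fin k → ℤ, (∀ i, f i ∈ U) ∧ s = ∑ i, f i) : Finset ℤ) : Set ℤ) := by
    ext s
    simp
  rw [h2, Set.ncard_coe_finset] at h
  exact h

end Pool.Agent.Q115.DD
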