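import Mathlib

/-! Union-closed families in dual form: the sets of vertices (generators) each of whose vertices is
supported by an edge (element) inside. Basic lemmas, first and second moments. -/

set_option autoImplicit false

namespace Pool.Agent.Q115.DU

open Finset

variable {V : Type*} [Fintype V] [DecidableEq V]

/-- the sets of vertices each of whose members lies in an edge inside the set -/
def Sp (E : Finset (Finset V)) : Finset (Finset V) :=
  univ.filter fun U => ∀ v ∈ U, ∃ e ∈ E, v ∈ e ∧ e ⊆ U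

theorem mem_Sp {E : Finset (Finset V)} {U : Finset V} :
    U ∈ Sp E ↔ ∀ v ∈ U, ∃ e ∈ E, v ∈ e ∧ e ⊆ U := by
  simp [Sp]

theorem empty_mem (E : Finset (Finset V)) : ∅ ∈ Sp E := by
  rw [mem_Sp]; intro v hv; exact absurd hv (notMem_empty v)

theorem card_pos (E : Finset (Finset V)) : 0 < (Sp E).card := Finset.card_pos.2 ⟨∅, empty_mem E⟩

theorem edge_mem {E : Finset (Finset V)} {e : Finset V} (he : e ∈ E) : e ∈ Sp E := by
  rw [mem_Sp]; exact fun v hv => ⟨e, he, hv, subset_rfl⟩

/-- the number of supersets of a set -/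
theorem card_super (A : Finset V) :
    (univ.filter fun U : Finset V => A ⊆ U).card * 2 ^ A.card = 2 ^ Fintype.card V := by
  have h1 : (univ.filter fun U : Finset V => A ⊆ U) = Finset.Icc A univ := by
    ext U; simp
  rw [h1, Finset.card_Icc_finset (subset_univ A), ← pow_add, card_univ,
    Nat.sub_add_cancel (card_le_univ A)]

/-- a set contained in at least half of the members is small -/
theorem pow_le_of_half {E : Finset (Finset V)} {M : ℕ}
    (hM : 2 ^ Fintype.card V ≤ M * (Sp E).card) {A : Finset V}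
    (hA : (Sp E).card ≤ 2 * ((Sp E).filter fun U => A ⊆ U).card) : 2 ^ A.card ≤ 2 * M := by
  have h1 : ((Sp E).filter fun U => A ⊆ U).card ≤ (univ.filter fun U : Finset V => A ⊆ U).card :=
    card_le_card (filter_subset_filter _ (subset_univ _))
  have h2 := card_super A
  have h0 := card_pos E
  have h3 : 0 < ((Sp E).filter fun U => A ⊆ U).card := by omega
  refine Nat.le_of_mul_le_mul_left ?_ h3
  calc ((Sp E).filter fun U => A ⊆ U).card * 2 ^ A.card
      ≤ (univ.filter fun U : Finset V => A ⊆ U).card * 2 ^ A.card := Nat.mul_le_mul_right _ h1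
    _ = 2 ^ Fintype.card V := h2
    _ ≤ M * (Sp E).card := hM
    _ ≤ M * (2 * ((Sp E).filter fun U => A ⊆ U).card) := Nat.mul_le_mul_left _ hA
    _ = ((Sp E).filter fun U => A ⊆ U).card * (2 * M) := by ring

theorem exp_numeric : ((3 + Real.exp 1) / 4) ^ 6 ≤ Real.exp 3 / 2 := by
  have h1 := Real.exp_one_gt_d9
  have h2 := Real.exp_one_lt_d9
  have h3 : Real.exp 3 = Real.exp 1 ^ 3 := by rw [← Real.exp_nat_mul]; norm_num
  rw [h3]
  have h4 : ((3 + Real.exp 1) / 4) ^ 6 ≤ ((3 + 2.7182818286) / 4) ^ 6 := by gcongr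
  have h5 : (2.7182818283 : ℝ) ^ 3 ≤ Real.exp 1 ^ 3 := by gcongr
  refine h4.trans (le_trans ?_ (div_le_div_of_nonneg_right h5 (by norm_num)))
  norm_num

/-- exponential moment of the number of blocks contained in a random set -/
theorem exp_moment {ι : Type*} (s : Finset ι) (f : ι → Finset V)
    (hd : (s : Set ι).PairwiseDisjoint f) (h2 : ∀ i ∈ s, 2 ≤ (f i).card) :
    ∑ U : Finset V, Real.exp (∑ i ∈ s, if f i ⊆ U then (1 : ℝ) else 0) ≤
      2 ^ Fintype.card V * ((3 + Real.exp 1) / 4) ^ s.card := by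
  classical
  set a : ℝ := Real.exp 1 - 1 with ha
  have ha0 : 0 ≤ a := by
    have := Real.add_one_le_exp (1 : ℝ)
    linarith
  have h1 : ∀ U : Finset V, Real.exp (∑ i ∈ s, if f i ⊆ U then (1 : ℝ) else 0) =
      ∑ t ∈ s.powerset, ∏ i ∈ t, (if f i ⊆ U then a else 0) := by
    intro U
    rw [Real.exp_sum, ← Finset.prod_one_add]
    refine prod_congr rfl fun i _ => ?_
    by_cases h : f i ⊆ U <;> simp [h, ha]
  simp_rw [h1]
  rw [Finset.sum_comm]
  have h3 : ∀ t ∈ s.powerset, ∑ U : Finset V, ∏ i ∈ t, (if f i ⊆ U then a else 0) ≤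
      2 ^ Fintype.card V * (a / 4) ^ t.card := by
    intro t ht
    rw [mem_powerset] at ht
    have h4 : ∀ U : Finset V, ∏ i ∈ t, (if f i ⊆ U then a else 0) =
        if t.biUnion f ⊆ U then a ^ t.card else 0 := by
      intro U
      by_cases h : t.biUnion f ⊆ U
      · rw [if_pos h, ← prod_const]
        refine prod_congr rfl fun i hi => ?_
        rw [if_pos ((subset_biUnion_of_mem f hi).trans h)]
      · rw [if_neg h]
        rw [biUnion_subset] at h
        push Not at h
        obtain ⟨i, hi, hn⟩ := h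
        exact prod_eq_zero hi (if_neg hn)
    simp_rw [h4]
    rw [← sum_filter, sum_const, nsmul_eq_mul]
    have h5 := card_super (t.biUnion f)
    have h6 : 2 * t.card ≤ (t.biUnion f).card := by
      rw [card_biUnion]
      · calc 2 * t.card = ∑ _i ∈ t, 2 := by rw [sum_const, smul_eq_mul, mul_comm]
          _ ≤ _ := sum_le_sum fun i hi => h2 i (ht hi)
      · intro i hi j hj hij
        exact hd (ht hi) (ht hj) hij
    have h7 : ((univ.filter fun U : Finset V => t.biUnion f ⊆ U).card : ℝ) * 4 ^ t.card ≤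
        2 ^ Fintype.card V := by
      have : (univ.filter fun U : Finset V => t.biUnion f ⊆ U).card * 4 ^ t.card ≤
          2 ^ Fintype.card V := by
        rw [← h5]
        refine Nat.mul_le_mul_left _ ?_
        calc 4 ^ t.card = 2 ^ (2 * t.card) := by rw [pow_mul]; norm_num
          _ ≤ _ := Nat.pow_le_pow_right (by norm_num) h6
      exact_mod_cast this
    calc ((univ.filter fun U : Finset V => t.biUnion f ⊆ U).card : ℝ) * a ^ t.card
        = ((univ.filter fun U : Finset V => t.biUnion f ⊆ U).card : ℝ) * 4 ^ t.card *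
            (a / 4) ^ t.card := by
          rw [div_pow]
          field_simp
      _ ≤ 2 ^ Fintype.card V * (a / 4) ^ t.card :=
          mul_le_mul_of_nonneg_right h7 (by positivity)
  refine (sum_le_sum h3).trans (le_of_eq ?_)
  rw [← mul_sum]
  congr 1
  have h8 : (3 + Real.exp 1) / 4 = 1 + a / 4 := by rw [ha]; ring
  rw [h8, ← prod_const, Finset.prod_one_add]
  simp only [prod_const]

/-- few disjoint blocks of at least two vertices lie in at least half of the members -/
theorem matching_bound {E : Finset (Finset V)} {M D : ℕ}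
    (hM : 2 ^ Fintype.card V ≤ M * (Sp E).card) (hD : M < 2 ^ D)
    {ι : Type*} (s : Finset ι) (f : ι → Finset V)
    (hd : (s : Set ι).PairwiseDisjoint f) (h2 : ∀ i ∈ s, 2 ≤ (f i).card)
    (hP : ∀ i ∈ s, (Sp E).card ≤ 2 * ((Sp E).filter fun U => f i ⊆ U).card) :
    s.card < 6 * D := by
  classical
  by_contra hcon
  push Not at hcon
  obtain ⟨N, hN⟩ : ∃ N : ℝ, N = ((Sp E).card : ℝ) := ⟨_, rfl⟩
  have hN0 : 0 < N := by rw [hN]; exact_mod_cast card_pos E
  obtain ⟨t, ht⟩ : ∃ t : ℝ, t = (s.card : ℝ) := ⟨_, rfl⟩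
  set X : Finset V → ℝ := fun U => ∑ i ∈ s, if f i ⊆ U then (1 : ℝ) else 0 with hX
  have h1 : N ≤ ∑ U ∈ Sp E, Real.exp (X U - t / 2) := by
    have h3 : ∑ U ∈ Sp E, (X U - t / 2 + 1) ≤ ∑ U ∈ Sp E, Real.exp (X U - t / 2) :=
      sum_le_sum fun U _ => Real.add_one_le_exp _
    refine le_trans ?_ h3
    rw [sum_add_distrib, sum_sub_distrib, sum_const, sum_const, nsmul_eq_mul, nsmul_eq_mul, ← hN,
      mul_one]
    have h4 : N * (t / 2) ≤ ∑ U ∈ Sp E, X U := by
      simp only [hX]
      rw [sum_comm]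
      have h5 : ∀ i ∈ s, N / 2 ≤ ∑ U ∈ Sp E, if f i ⊆ U then (1 : ℝ) else 0 := by
        intro i hi
        rw [← sum_filter, sum_const, nsmul_eq_mul, mul_one, hN]
        have : ((Sp E).card : ℝ) ≤ 2 * (((Sp E).filter fun U => f i ⊆ U).card : ℝ) := by
          exact_mod_cast hP i hi
        linarith
      have h6 := sum_le_sum h5
      rw [sum_const, nsmul_eq_mul, ← ht] at h6
      linarith
    linarith
  have h2' : ∑ U ∈ Sp E, Real.exp (X U - t / 2) ≤
      Real.exp (-(t / 2)) * (2 ^ Fintype.card V * ((3 + Real.exp 1) / 4) ^ s.card) := by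
    calc ∑ U ∈ Sp E, Real.exp (X U - t / 2)
        ≤ ∑ U : Finset V, Real.exp (X U - t / 2) :=
          sum_le_sum_of_subset_of_nonneg (subset_univ _) fun _ _ _ => (Real.exp_pos _).le
      _ = Real.exp (-(t / 2)) * ∑ U : Finset V, Real.exp (X U) := by
          rw [mul_sum]
          refine sum_congr rfl fun U _ => ?_
          rw [← Real.exp_add]
          congr 1
          ring
      _ ≤ _ := mul_le_mul_of_nonneg_left (exp_moment s f hd h2) (Real.exp_pos _).le
  have h3 : (2 : ℝ) ^ Fintype.card V ≤ M * N := by rw [hN]; exact_mod_cast hM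
  set q : ℝ := Real.exp (-(1 / 2)) * ((3 + Real.exp 1) / 4) with hq
  have hq0 : 0 < q := by have := Real.exp_pos (1 : ℝ); positivity
  have hq6 : q ^ 6 ≤ 1 / 2 := by
    rw [hq, mul_pow]
    have h4 : Real.exp (-(1 / 2)) ^ 6 = (Real.exp 3)⁻¹ := by
      rw [← Real.exp_nat_mul, ← Real.exp_neg]; norm_num
    rw [h4]
    have h5 := exp_numeric
    have h6 : 0 < Real.exp 3 := Real.exp_pos _
    rw [inv_mul_le_iff₀ h6]
    linarith
  have hq1 : q ≤ 1 := by
    by_contra hcon
    push Not at hcon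
    have : 1 ≤ q ^ 6 := one_le_pow₀ hcon.le
    linarith
  have h4 : Real.exp (-(t / 2)) * (2 ^ Fintype.card V * ((3 + Real.exp 1) / 4) ^ s.card) =
      2 ^ Fintype.card V * q ^ s.card := by
    rw [hq, mul_pow, ← Real.exp_nat_mul]
    have : -(t / 2) = (s.card : ℝ) * -(1 / 2) := by rw [ht]; ring
    rw [this]
    ring
  have h5 : q ^ s.card ≤ (1 / 2) ^ D := by
    calc q ^ s.card ≤ q ^ (6 * D) := pow_le_pow_of_le_one hq0.le hq1 hcon
      _ = (q ^ 6) ^ D := pow_mul _ _ _
      _ ≤ _ := pow_le_pow_left₀ (by positivity) hq6 _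
  have h6 : N ≤ M * N * (1 / 2) ^ D := by
    calc N ≤ 2 ^ Fintype.card V * q ^ s.card := by rw [← h4]; exact h1.trans h2'
      _ ≤ (M * N) * (1 / 2) ^ D := mul_le_mul h3 h5 (by positivity) (by positivity)
  have h7 : (M : ℝ) < 2 ^ D := by exact_mod_cast hD
  have h8 : (M : ℝ) * (1 / 2) ^ D < 1 := by
    rw [one_div, inv_pow, ← div_eq_mul_inv, div_lt_one (by positivity)]
    exact h7
  nlinarith

end Pool.Agent.Q115.DU
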