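import Pool.Agent.Q115.DU1

/-! The bounded core. -/

set_option autoImplicit false

namespace Pool.Agent.Q115.DU

open Finset

variable {V : Type*} [Fintype V] [DecidableEq V]

/-- a small set which every edge meets in all but one of its vertices -/
theorem exists_core {E : Finset (Finset V)} {D t0 : ℕ} (hD : ∀ e ∈ E, e.card ≤ D)
    (hm : ∀ (T : Finset V) (s : Finset (Finset V)), s ⊆ E → (∀ e ∈ s, 2 ≤ (e \ T).card) →
      ((s : Set (Finset V)).PairwiseDisjoint fun e => e \ T) → s.card ≤ t0) (j : ℕ) :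
    ∃ T : Finset V, T.card ≤ j * (t0 * D) ∧ ∀ e ∈ E, (e \ T).card ≤ 1 ∨ j ≤ (e ∩ T).card := by
  classical
  induction j with
  | zero => exact ⟨∅, by simp, fun e _ => Or.inr (Nat.zero_le _)⟩
  | succ j ih =>
    obtain ⟨T, hT, hTe⟩ := ih
    set F : Finset (Finset (Finset V)) := E.powerset.filter fun s : Finset (Finset V) =>
      (∀ e ∈ s, 2 ≤ (e \ T).card) ∧
      ((s : Set (Finset V)).PairwiseDisjoint fun e => e \ T) with hF
    have hne : F.Nonempty := ⟨∅, by rw [hF, mem_filter]; simp⟩
    obtain ⟨s, hs, hmax⟩ := Finset.exists_max_image F Finset.card hne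
    rw [hF, mem_filter, mem_powerset] at hs
    obtain ⟨hsE, hs2, hsd⟩ := hs
    refine ⟨T ∪ s.biUnion id, ?_, fun e he => ?_⟩
    · have h1 : (s.biUnion id).card ≤ t0 * D := by
        refine (card_biUnion_le_card_mul s id D fun e he => hD e (hsE he)).trans ?_
        exact Nat.mul_le_mul_right _ (hm T s hsE hs2 hsd)
      calc (T ∪ s.biUnion id).card ≤ T.card + (s.biUnion id).card := card_union_le _ _
        _ ≤ j * (t0 * D) + t0 * D := Nat.add_le_add hT h1
        _ = _ := by ring
    · by_cases h1 : (e \ (T ∪ s.biUnion id)).card ≤ 1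
      · exact Or.inl h1
      · right
        push Not at h1
        have hsub : e \ (T ∪ s.biUnion id) ⊆ e \ T := sdiff_subset_sdiff subset_rfl subset_union_left
        have h2 : 2 ≤ (e \ T).card := by
          have := card_le_card hsub
          omega
        have h3 : j ≤ (e ∩ T).card := by
          rcases hTe e he with h | h
          · omega
          · exact h
        -- some vertex of `e` outside `T` lies in the new part
        have h4 : ∃ v ∈ e, v ∉ T ∧ v ∈ s.biUnion id := by
          by_contra hcon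
          push Not at hcon
          have hes : e ∉ s := by
            intro hes
            obtain ⟨v, hv⟩ : (e \ T).Nonempty := Finset.card_pos.1 (by omega)
            rw [mem_sdiff] at hv
            exact hcon v hv.1 hv.2 (mem_biUnion.2 ⟨e, hes, hv.1⟩)
          have hins : insert e s ∈ F := by
            rw [hF, mem_filter, mem_powerset]
            refine ⟨insert_subset he hsE, ?_, ?_⟩
            · intro e' he'
              rcases mem_insert.1 he' with rfl | he'
              · exact h2
              · exact hs2 e' he'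
            · rw [coe_insert]
              refine hsd.insert ?_
              intro e' he' _
              rw [disjoint_left]
              intro v hv hv'
              rw [mem_sdiff] at hv hv'
              exact hcon v hv.1 hv.2 (mem_biUnion.2 ⟨e', he', hv'.1⟩)
          have := hmax _ hins
          rw [card_insert_of_notMem hes] at this
          omega
        obtain ⟨v, hve, hvT, hvs⟩ := h4
        have h5 : insert v (e ∩ T) ⊆ e ∩ (T ∪ s.biUnion id) := by
          intro w hw
          rcases mem_insert.1 hw with rfl | hw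
          · exact mem_inter.2 ⟨hve, mem_union_right _ hvs⟩
          · exact mem_inter.2 ⟨(mem_inter.1 hw).1, mem_union_left _ (mem_inter.1 hw).2⟩
        have h6 := card_le_card h5
        rw [card_insert_of_notMem (fun h => hvT (mem_inter.1 h).2)] at h6
        omega

/-- second moment of the size of a random set -/
theorem second_moment (Y : Finset V) :
    ∑ U : Finset V, (2 * ((U ∩ Y).card : ℝ) - (Y.card : ℝ)) ^ 2 =
      (Y.card : ℝ) * (2 : ℝ) ^ Fintype.card V := by
  classical
  set ε : V → Finset V → ℝ := fun y U => 2 * (if y ∈ U then 1 else 0) - 1 with hε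
  have h1 : ∀ U : Finset V, 2 * ((U ∩ Y).card : ℝ) - Y.card = ∑ y ∈ Y, ε y U := by
    intro U
    simp only [hε]
    have h0 : U ∩ Y = Y.filter fun y => y ∈ U := by
      ext v
      simp only [mem_inter, mem_filter, and_comm]
    rw [sum_sub_distrib, ← mul_sum, ← sum_filter, sum_const, sum_const, nsmul_eq_mul, nsmul_eq_mul,
      mul_one, mul_one, h0]
  simp_rw [h1, sq, sum_mul_sum]
  rw [sum_comm]
  have hcnt : ∀ A : Finset V, ((univ.filter fun U : Finset V => A ⊆ U).card : ℝ) * 2 ^ A.card =
      2 ^ Fintype.card V := fun A => by exact_mod_cast card_super A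
  have h2 : ∀ y ∈ Y, ∑ U : Finset V, ∑ z ∈ Y, ε y U * ε z U = 2 ^ Fintype.card V := by
    intro y hy
    rw [sum_comm, sum_eq_single_of_mem y hy]
    · have : ∀ U : Finset V, ε y U * ε y U = 1 := by
        intro U
        simp only [hε]
        by_cases h : y ∈ U <;> simp [h] <;> norm_num
      simp_rw [this]
      simp
    · intro z _ hzy
      have h3 : ∀ U : Finset V, ε y U * ε z U = 4 * (if {y, z} ⊆ U then 1 else 0) -
          2 * (if {y} ⊆ U then 1 else 0) - 2 * (if {z} ⊆ U then 1 else 0) + 1 := by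
        intro U
        simp only [hε, singleton_subset_iff, insert_subset_iff]
        by_cases h : y ∈ U <;> by_cases h' : z ∈ U <;> simp [h, h'] <;> norm_num
      simp_rw [h3]
      rw [sum_add_distrib, sum_sub_distrib, sum_sub_distrib, ← mul_sum, ← mul_sum, ← mul_sum,
        ← sum_filter, ← sum_filter, ← sum_filter, sum_const, sum_const, sum_const, sum_const]
      simp only [nsmul_eq_mul, mul_one]
      have h4 := hcnt {y, z}
      have h5 := hcnt {y}
      have h6 := hcnt {z}
      rw [card_pair (Ne.symm hzy)] at h4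
      rw [card_singleton] at h5 h6
      have h7 : ((univ : Finset (Finset V)).card : ℝ) = 2 ^ Fintype.card V := by
        rw [card_univ, Fintype.card_finset]; push_cast; rfl
      rw [h7]
      linarith
  rw [sum_congr rfl h2, sum_const, nsmul_eq_mul]

/-- A vertex which lies together with each of many vertices in half of the members lies in almost
all members. -/
theorem almost_always {E : Finset (Finset V)} {M : ℕ}
    (hM : 2 ^ Fintype.card V ≤ M * (Sp E).card) (k : V) (Y : Finset V)
    (hY : ∀ y ∈ Y, (Sp E).card ≤ 2 * ((Sp E).filter fun U => y ∈ U ∧ k ∈ U).card) :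
    Y.card * ((Sp E).filter fun U => k ∉ U).card ^ 2 ≤ M * (Sp E).card ^ 2 := by
  classical
  rcases Nat.eq_zero_or_pos Y.card with h0 | hY0
  · rw [h0]; simp
  obtain ⟨N, hN⟩ : ∃ N : ℝ, N = ((Sp E).card : ℝ) := ⟨_, rfl⟩
  have hN0 : 0 < N := by rw [hN]; exact_mod_cast card_pos E
  obtain ⟨n, hn⟩ : ∃ n : ℝ, n = (Y.card : ℝ) := ⟨_, rfl⟩
  have hn0 : 0 < n := by rw [hn]; exact_mod_cast hY0
  obtain ⟨δ, hδ⟩ : ∃ δ : ℝ, δ = (((Sp E).filter fun U => k ∉ U).card : ℝ) := ⟨_, rfl⟩
  have hδ0 : 0 ≤ δ := by rw [hδ]; positivity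
  set A := (Sp E).filter fun U => k ∈ U with hA
  have hsplit : (A.card : ℝ) + δ = N := by
    rw [hδ, hN, hA]
    exact_mod_cast card_filter_add_card_filter_not (s := Sp E) (fun U => k ∈ U)
  have h1 : n * N ≤ 2 * ∑ U ∈ A, ((U ∩ Y).card : ℝ) := by
    have h2 : ∑ U ∈ A, ((U ∩ Y).card : ℝ) =
        ∑ y ∈ Y, (((Sp E).filter fun U => y ∈ U ∧ k ∈ U).card : ℝ) := by
      have h3 : ∀ U : Finset V, ((U ∩ Y).card : ℝ) = ∑ y ∈ Y, if y ∈ U then (1 : ℝ) else 0 := by
        intro U
        rw [← sum_filter, sum_const, nsmul_eq_mul, mul_one]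
        congr 2
        ext v; simp [and_comm]
      simp_rw [h3]
      rw [sum_comm]
      refine sum_congr rfl fun y _ => ?_
      rw [← sum_filter, sum_const, nsmul_eq_mul, mul_one, hA, filter_filter]
      congr 2
      ext U; simp [and_comm]
    rw [h2, mul_sum, hn, hN]
    calc (Y.card : ℝ) * (Sp E).card = ∑ _y ∈ Y, ((Sp E).card : ℝ) := by
          rw [sum_const, nsmul_eq_mul]
      _ ≤ _ := sum_le_sum fun y hy => by exact_mod_cast hY y hy
  have h2 : n * δ ≤ ∑ U ∈ A, (2 * ((U ∩ Y).card : ℝ) - n) := by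
    rw [sum_sub_distrib, ← mul_sum, sum_const, nsmul_eq_mul]
    nlinarith
  have h3 : (∑ U ∈ A, (2 * ((U ∩ Y).card : ℝ) - n)) ^ 2 ≤
      A.card * ∑ U ∈ A, (2 * ((U ∩ Y).card : ℝ) - n) ^ 2 := sq_sum_le_card_mul_sum_sq
  have h4 : ∑ U ∈ A, (2 * ((U ∩ Y).card : ℝ) - n) ^ 2 ≤ n * 2 ^ Fintype.card V := by
    rw [hn, ← second_moment Y]
    exact sum_le_sum_of_subset_of_nonneg (subset_univ _) fun _ _ _ => sq_nonneg _
  have h5 : (2 : ℝ) ^ Fintype.card V ≤ M * N := by rw [hN]; exact_mod_cast hM
  have h6 : (A.card : ℝ) ≤ N := by linarith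
  have h7 : (n * δ) ^ 2 ≤ N * (n * (M * N)) := by
    calc (n * δ) ^ 2 ≤ (∑ U ∈ A, (2 * ((U ∩ Y).card : ℝ) - n)) ^ 2 :=
          pow_le_pow_left₀ (by positivity) h2 2
      _ ≤ A.card * ∑ U ∈ A, (2 * ((U ∩ Y).card : ℝ) - n) ^ 2 := h3
      _ ≤ N * (n * (M * N)) := by
          refine mul_le_mul h6 (h4.trans ?_) (sum_nonneg fun _ _ => sq_nonneg _) hN0.le
          exact mul_le_mul_of_nonneg_left h5 hn0.le
  have h8 : n * δ ^ 2 ≤ M * N ^ 2 := by
    have : n * (n * δ ^ 2) ≤ n * (M * N ^ 2) := by
      calc n * (n * δ ^ 2) = (n * δ) ^ 2 := by ring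
        _ ≤ N * (n * (M * N)) := h7
        _ = _ := by ring
    exact le_of_mul_le_mul_left this hn0
  rw [hn, hδ, hN] at h8
  exact_mod_cast h8

end Pool.Agent.Q115.DU
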