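import Pool.Agent.Q115.DU1

/-! The final step: a vertex whose edges all have many twins lies in one edge only. -/

set_option autoImplicit false

namespace Pool.Agent.Q115.DU

open Finset

variable {V : Type*} [Fintype V] [DecidableEq V]

theorem spread_card (B Q : Finset (Finset V)) (S0 : Finset V) (h1 : ∀ W ∈ B, Disjoint W S0)
    (h2 : ∀ W ∈ B, ∀ S ⊆ S0, W ∪ S ∈ Q) : B.card * 2 ^ S0.card ≤ Q.card := by
  rw [← card_powerset, ← card_product]
  refine card_le_card_of_injOn (fun p => p.1 ∪ p.2) ?_ ?_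
  · rintro ⟨W, S⟩ hp
    rw [mem_coe, mem_product, mem_powerset] at hp
    exact h2 W hp.1 S hp.2
  · rintro ⟨W, S⟩ hp ⟨W', S'⟩ hp' h
    rw [mem_coe, mem_product, mem_powerset] at hp hp'
    simp only at h hp hp'
    have hW := h1 W hp.1
    have hW' := h1 W' hp'.1
    have e1 : W = W' := by
      have : (W ∪ S) \ S0 = (W' ∪ S') \ S0 := by rw [h]
      rw [union_sdiff_distrib, union_sdiff_distrib, sdiff_eq_empty_iff_subset.2 hp.2,
        sdiff_eq_empty_iff_subset.2 hp'.2, union_empty, union_empty,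
        sdiff_eq_self_of_disjoint hW, sdiff_eq_self_of_disjoint hW'] at this
      exact this
    have e2 : S = S' := by
      have : (W ∪ S) ∩ S0 = (W' ∪ S') ∩ S0 := by rw [h]
      rw [union_inter_distrib_right, union_inter_distrib_right, disjoint_iff_inter_eq_empty.1 hW,
        disjoint_iff_inter_eq_empty.1 hW', empty_union, empty_union, inter_eq_left.2 hp.2,
        inter_eq_left.2 hp'.2] at this
      exact this
    rw [e1, e2]

/-- the largest member inside a set -/
def core (E : Finset (Finset V)) (U : Finset V) : Finset V :=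
  U.filter fun v => ∃ e ∈ E, v ∈ e ∧ e ⊆ U

theorem core_mem (E : Finset (Finset V)) (U : Finset V) : core E U ∈ Sp E := by
  rw [mem_Sp]
  intro v hv
  rw [core, mem_filter] at hv
  obtain ⟨_, e, he, hve, heU⟩ := hv
  refine ⟨e, he, hve, fun w hw => ?_⟩
  rw [core, mem_filter]
  exact ⟨heU hw, e, he, hw, heU⟩

theorem unique_edge {E : Finset (Finset V)} {K : Finset V} {y : V} {m : ℕ} (hyK : y ∉ K)
    (hy : ∀ e ∈ E, y ∈ e → e.erase y ⊆ K)
    (hpop : ∀ κ κ' : Finset V, κ ⊆ K → κ' ⊆ K → insert y κ ∈ E → insert y κ' ∈ E →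
      m ≤ (univ.filter fun z => z ∉ K ∧ insert z κ ∈ E ∧ insert z κ' ∈ E).card)
    (hm : 3 * (2 ^ K.card) ^ 3 < 2 ^ m)
    (hhalf : ∀ e ∈ E, (Sp E).card ≤ 2 * ((Sp E).filter fun U => e ⊆ U).card) :
    ∀ e ∈ E, ∀ e' ∈ E, y ∈ e → y ∈ e' → e = e' := by
  classical
  set ρ := K.powerset.filter fun κ => insert y κ ∈ E with hρ
  have hmemρ : ∀ κ, κ ∈ ρ ↔ κ ⊆ K ∧ insert y κ ∈ E := by
    intro κ; rw [hρ, mem_filter, mem_powerset]
  have hyρ : ∀ κ ∈ ρ, y ∉ κ := fun κ hκ h => hyK (((hmemρ κ).1 hκ).1 h)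
  have hρcard : ρ.card ≤ 2 ^ K.card := by
    rw [← card_powerset]; exact card_filter_le _ _
  have heρ : ∀ e ∈ E, y ∈ e → e.erase y ∈ ρ := by
    intro e he hye
    rw [hmemρ, insert_erase hye]
    exact ⟨hy e he hye, he⟩
  set crit := (Sp E).filter fun U => y ∈ U ∧ U.erase y ∉ Sp E with hcrit
  -- (1)
  have hstar : ∀ κ ∈ ρ, ((Sp E).filter fun U => ¬ κ ⊆ U).card ≤ crit.card := by
    intro κ hκ
    have hκE := ((hmemρ κ).1 hκ).2
    have h1 := hhalf _ hκE
    have h2 := card_filter_add_card_filter_not (s := Sp E) (fun U => insert y κ ⊆ U)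
    have h3 : ((Sp E).filter fun U => ¬ κ ⊆ U).card +
        ((Sp E).filter fun U => κ ⊆ U ∧ y ∉ U).card ≤
        ((Sp E).filter fun U => ¬ insert y κ ⊆ U).card := by
      rw [← card_union_of_disjoint]
      · apply card_le_card
        intro U hU
        rw [mem_union, mem_filter, mem_filter] at hU
        rw [mem_filter]
        rcases hU with ⟨hU, h⟩ | ⟨hU, _, h⟩
        · exact ⟨hU, fun h' => h ((subset_insert _ _).trans h')⟩
        · exact ⟨hU, fun h' => h (h' (mem_insert_self _ _))⟩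
      · rw [disjoint_left]
        intro U hU hU'
        rw [mem_filter] at hU hU'
        exact hU.2 hU'.2.1
    have h4 : ((Sp E).filter fun U => insert y κ ⊆ U).card ≤ crit.card +
        ((Sp E).filter fun U => κ ⊆ U ∧ y ∉ U).card := by
      have h5 : ((Sp E).filter fun U => insert y κ ⊆ U) ⊆ crit ∪
          ((Sp E).filter fun U => insert y κ ⊆ U ∧ U.erase y ∈ Sp E) := by
        intro U hU
        rw [mem_filter] at hU
        rw [mem_union, hcrit, mem_filter, mem_filter]
        by_cases h : U.erase y ∈ Sp E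
        · exact Or.inr ⟨hU.1, hU.2, h⟩
        · exact Or.inl ⟨hU.1, hU.2 (mem_insert_self _ _), h⟩
      have h6 : ((Sp E).filter fun U => insert y κ ⊆ U ∧ U.erase y ∈ Sp E).card ≤
          ((Sp E).filter fun U => κ ⊆ U ∧ y ∉ U).card := by
        refine card_le_card_of_injOn (fun U => U.erase y) ?_ ?_
        · intro U hU
          rw [mem_coe, mem_filter] at hU
          rw [mem_coe, mem_filter]
          refine ⟨hU.2.2, ?_, notMem_erase _ _⟩
          intro v hv
          exact mem_erase.2 ⟨fun h => hyρ κ hκ (h ▸ hv), hU.2.1 (mem_insert_of_mem hv)⟩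
        · intro U hU U' hU' h
          rw [mem_coe, mem_filter] at hU hU'
          simp only at h
          rw [← insert_erase (hU.2.1 (mem_insert_self y κ)), h,
            insert_erase (hU'.2.1 (mem_insert_self y κ))]
      exact (card_le_card h5).trans ((card_union_le _ _).trans (Nat.add_le_add_left h6 _))
    omega
  -- (2)
  set W : Finset V → Finset V := fun U => core E (U.erase y) with hW
  have hWsub : ∀ U, W U ⊆ U.erase y := fun U => filter_subset _ _
  have hlost : ∀ U ∈ crit, ∀ v ∈ U.erase y, v ∉ W U → ∃ κ ∈ ρ, v ∈ κ ∧ κ ⊆ U ∧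
      ∀ z, z ≠ y → insert z κ ∈ E → z ∉ U := by
    intro U hU v hv hvW
    rw [hcrit, mem_filter] at hU
    obtain ⟨hUS, hyU, _⟩ := hU
    obtain ⟨hvy, hvU⟩ := mem_erase.1 hv
    obtain ⟨e, he, hve, heU⟩ := mem_Sp.1 hUS v hvU
    have hye : y ∈ e := by
      by_contra hye
      apply hvW
      rw [hW]
      simp only [core, mem_filter]
      exact ⟨hv, e, he, hve, fun w hw => mem_erase.2 ⟨fun h => hye (h ▸ hw), heU hw⟩⟩
    refine ⟨e.erase y, heρ e he hye, mem_erase.2 ⟨hvy, hve⟩, (erase_subset _ _).trans heU, ?_⟩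
    intro z hzy hzE hzU
    apply hvW
    rw [hW]
    simp only [core, mem_filter]
    refine ⟨hv, _, hzE, mem_insert_of_mem (mem_erase.2 ⟨hvy, hve⟩), ?_⟩
    intro w hw
    rcases mem_insert.1 hw with rfl | hw
    · exact mem_erase.2 ⟨hzy, hzU⟩
    · exact mem_erase.2 ⟨(mem_erase.1 hw).1, heU (mem_erase.1 hw).2⟩
  have hexlost : ∀ U ∈ crit, ∃ v ∈ U.erase y, v ∉ W U := by
    intro U hU
    by_contra hcon
    push Not at hcon
    rw [hcrit, mem_filter] at hU
    apply hU.2.2
    have : W U = U.erase y := subset_antisymm (hWsub U) hcon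
    rw [← this]
    exact core_mem E _
  set κs := ρ.biUnion id with hκs
  have hκsub : ∀ κ ∈ ρ, κ ⊆ κs := fun κ hκ => subset_biUnion_of_mem id hκ
  set Z := (Sp E).filter fun U => ∀ κ ∈ ρ, ¬ κ ⊆ U with hZ
  set Q := (Sp E).filter fun U => (∃ κ ∈ ρ, κ ⊆ U) ∧ ∃ κ ∈ ρ, ¬ κ ⊆ U with hQ
  set critb := crit.filter fun U => ¬ κs ⊆ U with hcritb
  set crita := crit.filter fun U => κs ⊆ U with hcrita
  set crita' := crita.filter fun U => W U ∈ Q with hcrita'
  have hrec : ∀ U ∈ crita, U = insert y (W U ∪ κs) := by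
    intro U hU
    rw [hcrita, mem_filter] at hU
    have hyU : y ∈ U := by
      have := hU.1
      rw [hcrit, mem_filter] at this
      exact this.2.1
    apply subset_antisymm
    · intro v hv
      by_cases hvy : v = y
      · rw [hvy]; exact mem_insert_self _ _
      · apply mem_insert_of_mem
        by_cases hvW : v ∈ W U
        · exact mem_union_left _ hvW
        · obtain ⟨κ, hκ, hvκ, _⟩ := hlost U hU.1 v (mem_erase.2 ⟨hvy, hv⟩) hvW
          exact mem_union_right _ (hκsub κ hκ hvκ)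
    · intro v hv
      rcases mem_insert.1 hv with rfl | hv
      · exact hyU
      · rcases mem_union.1 hv with hv | hv
        · exact (mem_erase.1 (hWsub U hv)).2
        · exact hU.2 hv
  have hinj : ∀ U ∈ crita, ∀ U' ∈ crita, W U = W U' → U = U' := by
    intro U hU U' hU' h
    rw [hrec U hU, hrec U' hU', h]
  -- (4)
  have h4 : crita.card ≤ Z.card + crita'.card := by
    have h5 : crita ⊆ (crita.filter fun U => W U ∈ Z) ∪ crita' := by
      intro U hU
      by_cases hz : W U ∈ Z
      · exact mem_union_left _ (mem_filter.2 ⟨hU, hz⟩)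
      · refine mem_union_right _ (mem_filter.2 ⟨hU, ?_⟩)
        have hWS : W U ∈ Sp E := core_mem E _
        rw [hZ, mem_filter] at hz
        push Not at hz
        rw [hQ, mem_filter]
        refine ⟨hWS, hz hWS, ?_⟩
        by_contra hcon
        push Not at hcon
        have hU1 := hU
        rw [hcrita, mem_filter] at hU1
        obtain ⟨v, hv, hvW⟩ := hexlost U hU1.1
        obtain ⟨κ, hκ, hvκ, _⟩ := hlost U hU1.1 v hv hvW
        exact hvW (hcon κ hκ hvκ)
    have h6 : (crita.filter fun U => W U ∈ Z).card ≤ Z.card := by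
      refine card_le_card_of_injOn W ?_ ?_
      · intro U hU
        rw [mem_coe, mem_filter] at hU
        exact hU.2
      · intro U hU U' hU' h
        rw [mem_coe, mem_filter] at hU hU'
        exact hinj U hU.1 U' hU'.1 h
    exact (card_le_card h5).trans ((card_union_le _ _).trans (Nat.add_le_add_right h6 _))
  have hcc : crita.card + critb.card = crit.card :=
    card_filter_add_card_filter_not (s := crit) (fun U => κs ⊆ U)
  -- (5)
  have h5 : ∀ κ ∈ ρ, (Q.filter fun U => ¬ κ ⊆ U).card ≤ critb.card + crita'.card := by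
    intro κ hκ
    have h6 : Z.card + (Q.filter fun U => ¬ κ ⊆ U).card ≤
        ((Sp E).filter fun U => ¬ κ ⊆ U).card := by
      rw [← card_union_of_disjoint]
      · apply card_le_card
        intro U hU
        rw [mem_filter]
        rcases mem_union.1 hU with hU | hU
        · rw [hZ, mem_filter] at hU
          exact ⟨hU.1, hU.2 κ hκ⟩
        · rw [mem_filter, hQ, mem_filter] at hU
          exact ⟨hU.1.1, hU.2⟩
      · rw [disjoint_left]
        intro U hU hU'
        rw [hZ, mem_filter] at hU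
        rw [mem_filter, hQ, mem_filter] at hU'
        obtain ⟨κ', hκ', h⟩ := hU'.1.2.1
        exact hU.2 κ' hκ' h
    have h7 := hstar κ hκ
    omega
  -- (6)
  have h6 : Q.card ≤ ρ.card * (critb.card + crita'.card) := by
    have h7 : Q ⊆ ρ.biUnion fun κ => Q.filter fun U => ¬ κ ⊆ U := by
      intro U hU
      have hU' := hU
      rw [hQ, mem_filter] at hU'
      obtain ⟨κ, hκ, h⟩ := hU'.2.2
      exact mem_biUnion.2 ⟨κ, hκ, mem_filter.2 ⟨hU, h⟩⟩
    exact (card_le_card h7).trans (card_biUnion_le_card_mul _ _ _ h5)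
  have hm1 : 1 ≤ m := by
    by_contra hcon
    have : m = 0 := by omega
    rw [this, pow_zero] at hm
    have : 1 ≤ (2 ^ K.card) ^ 3 := Nat.one_le_two_pow.trans (Nat.le_self_pow (by norm_num) _)
    omega
  have hSQ : ∀ U ∈ Q, ∀ κ ∈ ρ, κ ⊆ U → ∀ S : Finset V, (∀ z ∈ S, z ∉ K ∧ insert z κ ∈ E) →
      U ∪ S ∈ Q := by
    intro U hU κ hκ hκU S hS
    rw [hQ, mem_filter] at hU ⊢
    obtain ⟨hUS, _, κ', hκ', hκ'U⟩ := hU
    refine ⟨?_, ⟨κ, hκ, hκU.trans subset_union_left⟩, κ', hκ', ?_⟩
    · rw [mem_Sp] at hUS ⊢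
      intro v hv
      rcases mem_union.1 hv with hv | hv
      · obtain ⟨e, he, hve, heU⟩ := hUS v hv
        exact ⟨e, he, hve, heU.trans subset_union_left⟩
      · refine ⟨_, (hS v hv).2, mem_insert_self _ _, ?_⟩
        intro w hw
        rcases mem_insert.1 hw with rfl | hw
        · exact mem_union_right _ hv
        · exact mem_union_left _ (hκU hw)
    · intro h
      apply hκ'U
      intro v hv
      rcases mem_union.1 (h hv) with h' | h'
      · exact h'
      · exact absurd (((hmemρ κ').1 hκ').1 hv) (hS v h').1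
  -- (7)
  have h7 : critb.card * 2 ^ m ≤ ρ.card * (2 * Q.card) := by
    set Aκ : Finset V → Finset (Finset V) := fun κ => Q.filter fun U => κ ⊆ U ∧
      ∀ z, z ≠ y → insert z κ ∈ E → z ∉ U with hAκ
    have h8 : critb ⊆ ρ.biUnion Aκ := by
      intro U hU
      rw [hcritb, mem_filter] at hU
      obtain ⟨hU, hUs⟩ := hU
      obtain ⟨v, hv, hvW⟩ := hexlost U hU
      obtain ⟨κ, hκ, hvκ, hκU, hz⟩ := hlost U hU v hv hvW
      refine mem_biUnion.2 ⟨κ, hκ, ?_⟩
      rw [hAκ]
      simp only [mem_filter]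
      refine ⟨?_, hκU, hz⟩
      rw [hQ, mem_filter]
      rw [hcrit, mem_filter] at hU
      refine ⟨hU.1, ⟨κ, hκ, hκU⟩, ?_⟩
      by_contra hcon
      push Not at hcon
      exact hUs (biUnion_subset.2 hcon)
    have h9 : ∀ κ ∈ ρ, (Aκ κ).card * 2 ^ m ≤ 2 * Q.card := by
      intro κ hκ
      set S0 := (univ.filter fun z => z ∉ K ∧ insert z κ ∈ E).erase y with hS0
      have h10 := spread_card (Aκ κ) Q S0 ?_ ?_
      · have h11 : m ≤ S0.card + 1 := by
          have h12 := hpop κ κ ((hmemρ κ).1 hκ).1 ((hmemρ κ).1 hκ).1 ((hmemρ κ).1 hκ).2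
            ((hmemρ κ).1 hκ).2
          have h13 : (univ.filter fun z => z ∉ K ∧ insert z κ ∈ E ∧ insert z κ ∈ E) =
              univ.filter fun z => z ∉ K ∧ insert z κ ∈ E := by
            ext z; simp
          rw [h13] at h12
          have := pred_card_le_card_erase (s := univ.filter fun z => z ∉ K ∧ insert z κ ∈ E)
            (a := y)
          rw [← hS0] at this
          omega
        calc (Aκ κ).card * 2 ^ m ≤ (Aκ κ).card * 2 ^ (S0.card + 1) :=
              Nat.mul_le_mul_left _ (Nat.pow_le_pow_right (by norm_num) h11)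
          _ = 2 * ((Aκ κ).card * 2 ^ S0.card) := by rw [pow_succ]; ring
          _ ≤ 2 * Q.card := Nat.mul_le_mul_left _ h10
      · intro U hU
        rw [hAκ] at hU
        simp only [mem_filter] at hU
        rw [disjoint_left]
        intro z hzU hz
        rw [hS0, mem_erase, mem_filter] at hz
        exact hU.2.2 z hz.1 hz.2.2.2 hzU
      · intro U hU S hS
        rw [hAκ] at hU
        simp only [mem_filter] at hU
        refine hSQ U hU.1 κ hκ hU.2.1 S fun z hz => ?_
        have := hS hz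
        rw [hS0, mem_erase, mem_filter] at this
        exact this.2.2
    calc critb.card * 2 ^ m ≤ (ρ.biUnion Aκ).card * 2 ^ m := Nat.mul_le_mul_right _ (card_le_card h8)
      _ ≤ (∑ κ ∈ ρ, (Aκ κ).card) * 2 ^ m := Nat.mul_le_mul_right _ card_biUnion_le
      _ = ∑ κ ∈ ρ, (Aκ κ).card * 2 ^ m := sum_mul _ _ _
      _ ≤ ∑ _κ ∈ ρ, 2 * Q.card := sum_le_sum h9
      _ = _ := by rw [sum_const, smul_eq_mul]
  -- (8)
  have h8 : crita'.card * 2 ^ m ≤ ρ.card * ρ.card * Q.card := by
    set B : Finset V × Finset V → Finset (Finset V) := fun p => Q.filter fun U => p.2 ⊆ U ∧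
      ∀ z, z ∉ K → insert z p.1 ∈ E → z ∉ U with hB
    have h9 : crita'.card ≤ ((ρ ×ˢ ρ).biUnion B).card := by
      refine card_le_card_of_injOn W ?_ ?_
      · intro U hU
        rw [mem_coe, hcrita', mem_filter] at hU
        obtain ⟨hUa, hUQ⟩ := hU
        have hUc : U ∈ crit := by
          rw [hcrita, mem_filter] at hUa
          exact hUa.1
        obtain ⟨v, hv, hvW⟩ := hexlost U hUc
        obtain ⟨κ, hκ, hvκ, hκU, hz⟩ := hlost U hUc v hv hvW
        have hUQ' := hUQ
        rw [hQ, mem_filter] at hUQ'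
        obtain ⟨κ', hκ', hκ'W⟩ := hUQ'.2.1
        rw [mem_coe, mem_biUnion]
        refine ⟨(κ, κ'), mem_product.2 ⟨hκ, hκ'⟩, ?_⟩
        rw [hB]
        simp only [mem_filter]
        refine ⟨hUQ, hκ'W, fun z _ hzE hzW => ?_⟩
        obtain ⟨hzy, hzU⟩ := mem_erase.1 (hWsub U hzW)
        exact hz z hzy hzE hzU
      · intro U hU U' hU' h
        rw [mem_coe, hcrita', mem_filter] at hU hU'
        exact hinj U hU.1 U' hU'.1 h
    have h10 : ∀ p ∈ ρ ×ˢ ρ, (B p).card * 2 ^ m ≤ Q.card := by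
      rintro ⟨κ, κ'⟩ hp
      obtain ⟨hκ, hκ'⟩ := mem_product.1 hp
      simp only at hκ hκ'
      set S0 := univ.filter fun z => z ∉ K ∧ insert z κ ∈ E ∧ insert z κ' ∈ E with hS0
      have h11 := spread_card (B (κ, κ')) Q S0 ?_ ?_
      · have h12 := hpop κ κ' ((hmemρ κ).1 hκ).1 ((hmemρ κ').1 hκ').1 ((hmemρ κ).1 hκ).2
            ((hmemρ κ').1 hκ').2
        exact (Nat.mul_le_mul_left _ (Nat.pow_le_pow_right (by norm_num) h12)).trans h11
      · intro U hU
        rw [hB] at hU
        simp only [mem_filter] at hU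
        rw [disjoint_left]
        intro z hzU hz
        rw [hS0, mem_filter] at hz
        exact hU.2.2 z hz.2.1 hz.2.2.1 hzU
      · intro U hU S hS
        rw [hB] at hU
        simp only [mem_filter] at hU
        refine hSQ U hU.1 κ' hκ' hU.2.1 S fun z hz => ?_
        have := hS hz
        rw [hS0, mem_filter] at this
        exact ⟨this.2.1, this.2.2.2⟩
    calc crita'.card * 2 ^ m ≤ ((ρ ×ˢ ρ).biUnion B).card * 2 ^ m := Nat.mul_le_mul_right _ h9
      _ ≤ (∑ p ∈ ρ ×ˢ ρ, (B p).card) * 2 ^ m := Nat.mul_le_mul_right _ card_biUnion_le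
      _ = ∑ p ∈ ρ ×ˢ ρ, (B p).card * 2 ^ m := sum_mul _ _ _
      _ ≤ ∑ _p ∈ ρ ×ˢ ρ, Q.card := sum_le_sum h10
      _ = _ := by rw [sum_const, smul_eq_mul, card_product]
  -- (9)
  have hQ0 : Q = ∅ := by
    by_contra hne
    have hQpos : 0 < Q.card := Finset.card_pos.2 (nonempty_iff_ne_empty.2 hne)
    have h9 : Q.card * 2 ^ m ≤ Q.card * (3 * ρ.card ^ 3) := by
      have h10 : Q.card * 2 ^ m ≤ ρ.card * (ρ.card * (2 * Q.card) + ρ.card * ρ.card * Q.card) := by
        calc Q.card * 2 ^ m ≤ ρ.card * (critb.card + crita'.card) * 2 ^ m :=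
              Nat.mul_le_mul_right _ h6
          _ = ρ.card * (critb.card * 2 ^ m + crita'.card * 2 ^ m) := by ring
          _ ≤ _ := Nat.mul_le_mul_left _ (Nat.add_le_add h7 h8)
      have hρ1 : 1 ≤ ρ.card := by
        by_contra hcon
        have : ρ.card = 0 := by omega
        rw [this, Nat.zero_mul] at h6
        omega
      have h11 : ρ.card * ρ.card ≤ ρ.card * ρ.card * ρ.card := Nat.le_mul_of_pos_right _ hρ1
      nlinarith
    have h10 := Nat.le_of_mul_le_mul_left h9 hQpos
    have h11 : 3 * ρ.card ^ 3 ≤ 3 * (2 ^ K.card) ^ 3 :=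
      Nat.mul_le_mul_left _ (Nat.pow_le_pow_left hρcard 3)
    omega
  -- (10)
  have hsub : ∀ e ∈ E, ∀ e' ∈ E, y ∈ e → y ∈ e' → e' ⊆ e := by
    intro e he e' he' hye hye'
    have h9 : e.erase y ∈ ρ := heρ e he hye
    have h10 : e'.erase y ∈ ρ := heρ e' he' hye'
    have h11 : e ∉ Q := by rw [hQ0]; exact notMem_empty _
    rw [hQ, mem_filter] at h11
    have h12 : e'.erase y ⊆ e := by
      by_contra hcon
      exact h11 ⟨edge_mem he, ⟨_, h9, erase_subset _ _⟩, ⟨_, h10, hcon⟩⟩
    intro v hv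
    by_cases hvy : v = y
    · rw [hvy]; exact hye
    · exact h12 (mem_erase.2 ⟨hvy, hv⟩)
  intro e he e' he' hye hye'
  exact subset_antisymm (hsub e' he' e he hye' hye) (hsub e he e' he' hye hye')

end Pool.Agent.Q115.DU
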