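import Pool.Agent.Q115.DU2
import Pool.Agent.Q115.DU3

/-! Union-closed families with many members in terms of the number of generators. -/

set_option autoImplicit false

namespace Pool.Agent.Q115.DU

open Finset

section dual

variable {V : Type*} [Fintype V] [DecidableEq V]

/-- the bound for the number of exceptional generators -/
def bnd (M D : ℕ) : ℕ := 6 * D ^ 3 + 4 * (6 * D ^ 3) ^ 3 * M + 4 * M ^ 2 * (3 * D + 2)

theorem few_multiple {E : Finset (Finset V)} {M D : ℕ}
    (hM : 2 ^ Fintype.card V ≤ M * (Sp E).card) (hD : M < 2 ^ D)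
    (hhalf : ∀ e ∈ E, (Sp E).card ≤ 2 * ((Sp E).filter fun U => e ⊆ U).card) :
    ∃ bad : Finset V, bad.card ≤ bnd M D ∧
      ∀ y ∉ bad, ∀ e ∈ E, ∀ e' ∈ E, y ∈ e → y ∈ e' → e = e' := by
  classical
  have hN0 := card_pos E
  have hM1 : 1 ≤ M := by
    by_contra hcon
    have : M = 0 := by omega
    rw [this, Nat.zero_mul] at hM
    have := Nat.one_le_two_pow (n := Fintype.card V)
    omega
  have hD1 : 1 ≤ D := by
    by_contra hcon
    have : D = 0 := by omega
    rw [this, pow_zero] at hD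
    omega
  have hlt : ∀ a : ℕ, 2 ^ a ≤ 2 * M → a ≤ D := by
    intro a ha
    have : 2 ^ a < 2 ^ (D + 1) := by rw [pow_succ]; omega
    have := (Nat.pow_lt_pow_iff_right (by norm_num : 1 < 2)).1 this
    omega
  have hED : ∀ e ∈ E, e.card ≤ D := fun e he => hlt _ (pow_le_of_half hM (hhalf e he))
  have hsubhalf : ∀ e ∈ E, ∀ A ⊆ e, (Sp E).card ≤ 2 * ((Sp E).filter fun U => A ⊆ U).card := by
    intro e he A hA
    refine (hhalf e he).trans (Nat.mul_le_mul_left _ (card_le_card ?_))
    intro U hU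
    rw [mem_filter] at hU ⊢
    exact ⟨hU.1, hA.trans hU.2⟩
  obtain ⟨T, hTc, hT⟩ := exists_core (t0 := 6 * D) hED (fun T s hs h2 hd =>
    (matching_bound hM hD s (fun e => e \ T) hd h2
      (fun e he => hsubhalf e (hs he) _ sdiff_subset)).le) D
  have hTc' : T.card ≤ 6 * D ^ 3 := by
    calc T.card ≤ D * (6 * D * D) := hTc
      _ = _ := by ring
  have hT1 : ∀ e ∈ E, (e \ T).card ≤ 1 := by
    intro e he
    rcases hT e he with h | h
    · exact h
    · have h1 := card_sdiff_add_card_inter e T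
      have h2 := hED e he
      omega
  set τ := 6 * D ^ 3 with hτ
  have hτ0 : 0 < τ := by positivity
  set Y : V → Finset V := fun k => univ.filter fun y => y ∉ T ∧ ∃ e ∈ E, y ∈ e ∧ k ∈ e with hY
  have hδ : ∀ k, 4 * τ ^ 2 * M ≤ (Y k).card →
      2 * τ * ((Sp E).filter fun U => k ∉ U).card ≤ (Sp E).card := by
    intro k hk
    have h1 := almost_always hM k (Y k) (fun y hy => by
      rw [hY] at hy
      simp only [mem_filter, mem_univ, true_and] at hy
      obtain ⟨_, e, he, hye, hke⟩ := hy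
      have := hsubhalf e he {y, k} (by
        intro v hv
        rw [mem_insert, mem_singleton] at hv
        rcases hv with rfl | rfl
        · exact hye
        · exact hke)
      refine this.trans (Nat.mul_le_mul_left _ (card_le_card ?_))
      intro U hU
      rw [mem_filter] at hU ⊢
      exact ⟨hU.1, hU.2 (by simp), hU.2 (by simp)⟩)
    set δ := ((Sp E).filter fun U => k ∉ U).card
    have h2 : M * (2 * τ * δ) ^ 2 ≤ M * (Sp E).card ^ 2 := by
      calc M * (2 * τ * δ) ^ 2 = 4 * τ ^ 2 * M * δ ^ 2 := by ring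
        _ ≤ (Y k).card * δ ^ 2 := Nat.mul_le_mul_right _ hk
        _ ≤ _ := h1
    have h3 := Nat.le_of_mul_le_mul_left h2 hM1
    exact (Nat.pow_le_pow_iff_left (by norm_num)).1 h3
  set K := T.filter fun k => 4 * τ ^ 2 * M ≤ (Y k).card with hK
  have hKT : K ⊆ T := filter_subset _ _
  have hKpow : 2 ^ K.card ≤ 2 * M := by
    apply pow_le_of_half hM
    have h1 := card_filter_add_card_filter_not (s := Sp E) (fun U => K ⊆ U)
    have h2 : ((Sp E).filter fun U => ¬ K ⊆ U).card ≤
        ∑ k ∈ K, ((Sp E).filter fun U => k ∉ U).card := by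
      have h3 : ((Sp E).filter fun U => ¬ K ⊆ U) ⊆
          K.biUnion fun k => (Sp E).filter fun U => k ∉ U := by
        intro U hU
        rw [mem_filter] at hU
        obtain ⟨k, hk, hkU⟩ := not_subset.1 hU.2
        exact mem_biUnion.2 ⟨k, hk, mem_filter.2 ⟨hU.1, hkU⟩⟩
      exact (card_le_card h3).trans card_biUnion_le
    have h4 : 2 * τ * ∑ k ∈ K, ((Sp E).filter fun U => k ∉ U).card ≤ τ * (Sp E).card := by
      rw [mul_sum]
      calc ∑ k ∈ K, 2 * τ * ((Sp E).filter fun U => k ∉ U).card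
          ≤ ∑ _k ∈ K, (Sp E).card := by
            refine sum_le_sum fun k hk => ?_
            rw [hK, mem_filter] at hk
            exact hδ k hk.2
        _ = K.card * (Sp E).card := by rw [sum_const, smul_eq_mul]
        _ ≤ _ := Nat.mul_le_mul_right _ ((card_le_card hKT).trans hTc')
    have h5 : 2 * ∑ k ∈ K, ((Sp E).filter fun U => k ∉ U).card ≤ (Sp E).card := by
      refine Nat.le_of_mul_le_mul_left ?_ hτ0
      calc τ * (2 * ∑ k ∈ K, ((Sp E).filter fun U => k ∉ U).card)
          = 2 * τ * ∑ k ∈ K, ((Sp E).filter fun U => k ∉ U).card := by ring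
        _ ≤ _ := h4
    omega
  have hKD : K.card ≤ D := hlt _ hKpow
  -- bad vertices
  set C : Finset V × Finset V → Finset V := fun p =>
    univ.filter fun z => z ∉ K ∧ insert z p.1 ∈ E ∧ insert z p.2 ∈ E with hC
  set P := (K.powerset ×ˢ K.powerset).filter fun p => (C p).card ≤ 3 * D + 2 with hP
  have hPc : P.card ≤ 4 * M ^ 2 := by
    calc P.card ≤ (K.powerset ×ˢ K.powerset).card := card_filter_le _ _
      _ = 2 ^ K.card * 2 ^ K.card := by rw [card_product, card_powerset]
      _ ≤ (2 * M) * (2 * M) := Nat.mul_le_mul hKpow hKpow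
      _ = _ := by ring
  set bad := T ∪ ((T \ K).biUnion Y ∪ P.biUnion C) with hbad
  have hbadc : bad.card ≤ bnd M D := by
    rw [bnd]
    have h1 : ((T \ K).biUnion Y).card ≤ τ * (4 * τ ^ 2 * M) := by
      refine (card_biUnion_le_card_mul _ _ (4 * τ ^ 2 * M) ?_).trans
        (Nat.mul_le_mul_right _ ((card_le_card sdiff_subset).trans hTc'))
      intro k hk
      rw [mem_sdiff, hK, mem_filter] at hk
      by_contra hcon
      push Not at hcon
      exact hk.2 ⟨hk.1, hcon.le⟩
    have h2 : (P.biUnion C).card ≤ 4 * M ^ 2 * (3 * D + 2) := by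
      refine (card_biUnion_le_card_mul _ _ (3 * D + 2) ?_).trans (Nat.mul_le_mul_right _ hPc)
      intro p hp
      rw [hP, mem_filter] at hp
      exact hp.2
    calc bad.card ≤ T.card + ((T \ K).biUnion Y ∪ P.biUnion C).card := card_union_le _ _
      _ ≤ T.card + (((T \ K).biUnion Y).card + (P.biUnion C).card) :=
          Nat.add_le_add_left (card_union_le _ _) _
      _ ≤ τ + (τ * (4 * τ ^ 2 * M) + 4 * M ^ 2 * (3 * D + 2)) :=
          Nat.add_le_add hTc' (Nat.add_le_add h1 h2)
      _ = _ := by ring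
  refine ⟨bad, hbadc, fun y hybad => ?_⟩
  rw [hbad, mem_union, mem_union, not_or, not_or] at hybad
  obtain ⟨hyT, hyY, hyP⟩ := hybad
  refine unique_edge (K := K) (m := 3 * D + 2) (fun h => hyT (hKT h)) ?_ ?_ ?_ hhalf
  · intro e he hye v hv
    obtain ⟨hvy, hve⟩ := mem_erase.1 hv
    have hvT : v ∈ T := by
      by_contra hvT
      have h1 : ({v, y} : Finset V) ⊆ e \ T := by
        intro w hw
        rw [mem_insert, mem_singleton] at hw
        rcases hw with rfl | rfl
        · exact mem_sdiff.2 ⟨hve, hvT⟩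
        · exact mem_sdiff.2 ⟨hye, hyT⟩
      have h2 := card_le_card h1
      rw [card_pair hvy] at h2
      have := hT1 e he
      omega
    by_contra hvK
    apply hyY
    rw [mem_biUnion]
    refine ⟨v, mem_sdiff.2 ⟨hvT, hvK⟩, ?_⟩
    rw [hY]
    simp only [mem_filter, mem_univ, true_and]
    exact ⟨hyT, e, he, hye, hve⟩
  · intro κ κ' hκ hκ' h1 h2
    by_contra hcon
    push Not at hcon
    apply hyP
    rw [mem_biUnion]
    refine ⟨(κ, κ'), ?_, ?_⟩
    · rw [hP, mem_filter, mem_product, mem_powerset, mem_powerset]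
      exact ⟨⟨hκ, hκ'⟩, hcon.le⟩
    · rw [hC]
      simp only [mem_filter, mem_univ, true_and]
      exact ⟨fun h => hyT (hKT h), h1, h2⟩
  · calc 3 * (2 ^ K.card) ^ 3 ≤ 3 * (2 ^ D) ^ 3 := by gcongr; norm_num
      _ = 3 * 2 ^ (3 * D) := by rw [← pow_mul, mul_comm D 3]
      _ < 4 * 2 ^ (3 * D) := by
          have := Nat.one_le_two_pow (n := 3 * D)
          omega
      _ = 2 ^ (3 * D + 2) := by rw [pow_add]; ring

end dual

section primal

variable {α : Type*} [DecidableEq α]

/-- all unions of members of `G`, the empty union included -/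
def unions (G : Finset (Finset α)) : Finset (Finset α) := G.powerset.image fun S => S.sup id

theorem mem_unions {G : Finset (Finset α)} {A : Finset α} :
    A ∈ unions G ↔ ∀ x ∈ A, ∃ g ∈ G, x ∈ g ∧ g ⊆ A := by
  rw [unions, mem_image]
  constructor
  · rintro ⟨S, hS, rfl⟩ x hx
    rw [mem_powerset] at hS
    rw [mem_sup] at hx
    obtain ⟨g, hg, hxg⟩ := hx
    exact ⟨g, hS hg, hxg, le_sup (f := id) hg⟩
  · intro h
    refine ⟨G.filter fun g => g ⊆ A, mem_powerset.2 (filter_subset _ _), ?_⟩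
    ext x
    rw [mem_sup]
    constructor
    · rintro ⟨g, hg, hxg⟩
      exact (mem_filter.1 hg).2 hxg
    · intro hx
      obtain ⟨g, hg, hxg, hgA⟩ := h x hx
      exact ⟨g, mem_filter.2 ⟨hg, hgA⟩, hxg⟩

theorem union_mem_unions {G : Finset (Finset α)} {A g : Finset α} (hA : A ∈ unions G)
    (hg : g ∈ G) : A ∪ g ∈ unions G := by
  rw [mem_unions] at hA ⊢
  intro x hx
  rcases mem_union.1 hx with hx | hx
  · obtain ⟨g', hg', hxg', hgA⟩ := hA x hx
    exact ⟨g', hg', hxg', hgA.trans subset_union_left⟩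
  · exact ⟨g, hg, hx, subset_union_right⟩

/-- the set of the generators which contain `x` -/
def star (G : Finset (Finset α)) (x : α) : Finset G := univ.filter fun g => x ∈ (g : Finset α)

/-- the edges of the dual -/
def edges (G : Finset (Finset α)) : Finset (Finset G) := (G.sup id).image (star G)

theorem mem_star {G : Finset (Finset α)} {x : α} {g : G} : g ∈ star G x ↔ x ∈ (g : Finset α) := by
  simp [star]

theorem star_mem_edges {G : Finset (Finset α)} {x : α} {g : G} (h : x ∈ (g : Finset α)) :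
    star G x ∈ edges G := by
  rw [edges, mem_image]
  exact ⟨x, mem_sup.2 ⟨g, g.2, h⟩, rfl⟩

/-- the correspondence between the dual and the family -/
def toU (G : Finset (Finset α)) (A : Finset α) : Finset G :=
  univ.filter fun g => ¬ (g : Finset α) ⊆ A

theorem mem_toU {G : Finset (Finset α)} {A : Finset α} {g : G} :
    g ∈ toU G A ↔ ¬ (g : Finset α) ⊆ A := by simp [toU]

theorem toU_mem {G : Finset (Finset α)} (A : Finset α) : toU G A ∈ Sp (edges G) := by
  rw [mem_Sp]
  intro g hg
  rw [mem_toU] at hg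
  obtain ⟨x, hx, hxA⟩ := not_subset.1 hg
  refine ⟨star G x, star_mem_edges hx, mem_star.2 hx, fun h hh => ?_⟩
  rw [mem_star] at hh
  rw [mem_toU]
  exact fun hs => hxA (hs hh)

theorem star_subset_toU {G : Finset (Finset α)} {A : Finset α} (hA : A ∈ unions G) (x : α) :
    star G x ⊆ toU G A ↔ x ∉ A := by
  constructor
  · intro h hx
    obtain ⟨g, hg, hxg, hgA⟩ := mem_unions.1 hA x hx
    have := h (mem_star.2 (show x ∈ ((⟨g, hg⟩ : G) : Finset α) from hxg))
    rw [mem_toU] at this
    exact this hgA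
  · intro hx g hg
    rw [mem_star] at hg
    rw [mem_toU]
    exact fun h => hx (h hg)

theorem toU_injOn (G : Finset (Finset α)) : Set.InjOn (toU G) (unions G : Set (Finset α)) := by
  intro A hA B hB h
  ext x
  have h1 := star_subset_toU hA x
  have h2 := star_subset_toU hB x
  rw [h] at h1
  exact not_iff_not.1 (h1.symm.trans h2)

theorem toU_surj {G : Finset (Finset α)} {U : Finset G} (hU : U ∈ Sp (edges G)) :
    ∃ A ∈ unions G, toU G A = U := by
  refine ⟨(Uᶜ.image Subtype.val).sup id, ?_, ?_⟩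
  · rw [unions, mem_image]
    refine ⟨Uᶜ.image Subtype.val, ?_, rfl⟩
    rw [mem_powerset]
    intro g hg
    rw [mem_image] at hg
    obtain ⟨g', _, rfl⟩ := hg
    exact g'.2
  · ext g
    rw [mem_toU]
    have hsup : ∀ x, x ∈ (Uᶜ.image Subtype.val).sup id ↔ ∃ g : G, g ∉ U ∧ x ∈ (g : Finset α) := by
      intro x
      rw [mem_sup]
      constructor
      · rintro ⟨h, hh, hx⟩
        rw [mem_image] at hh
        obtain ⟨g', hg', rfl⟩ := hh
        exact ⟨g', mem_compl.1 hg', hx⟩
      · rintro ⟨g', hg', hx⟩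
        exact ⟨g', mem_image.2 ⟨g', mem_compl.2 hg', rfl⟩, hx⟩
    constructor
    · intro h
      by_contra hgU
      exact h fun x hx => (hsup x).2 ⟨g, hgU, hx⟩
    · intro hgU hsub
      obtain ⟨e, he, hge, heU⟩ := mem_Sp.1 hU g hgU
      rw [edges, mem_image] at he
      obtain ⟨x, _, rfl⟩ := he
      rw [mem_star] at hge
      obtain ⟨g', hg', hx⟩ := (hsup x).1 (hsub hge)
      exact hg' (heU (mem_star.2 hx))

theorem card_Sp (G : Finset (Finset α)) : (Sp (edges G)).card = (unions G).card := by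
  symm
  refine card_bij (fun A _ => toU G A) (fun A _ => toU_mem A) ?_ ?_
  · intro A hA B hB h
    exact toU_injOn G hA hB h
  · intro U hU
    obtain ⟨A, hA, h⟩ := toU_surj hU
    exact ⟨A, hA, h⟩

theorem card_Sp_filter (G : Finset (Finset α)) (x : α) :
    ((Sp (edges G)).filter fun U => star G x ⊆ U).card =
      ((unions G).filter fun A => x ∉ A).card := by
  symm
  refine card_bij (fun A _ => toU G A) ?_ ?_ ?_
  · intro A hA
    rw [mem_filter] at hA ⊢
    exact ⟨toU_mem A, (star_subset_toU hA.1 x).2 hA.2⟩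
  · intro A hA B hB h
    rw [mem_filter] at hA hB
    exact toU_injOn G hA.1 hB.1 h
  · intro U hU
    rw [mem_filter] at hU
    obtain ⟨A, hA, rfl⟩ := toU_surj hU.1
    exact ⟨A, mem_filter.2 ⟨hA, (star_subset_toU hA x).1 hU.2⟩, rfl⟩

/-- The main theorem: if no element is in more than half of the members, and the family is dense in
terms of its generators, then for all generators `y` but a bounded number, all the elements of `y`
lie in the same generators. -/
theorem twin_generators (G : Finset (Finset α)) {M D : ℕ}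
    (hM : 2 ^ G.card ≤ M * (unions G).card) (hD : M < 2 ^ D)
    (hhalf : ∀ x, 2 * ((unions G).filter fun A => x ∈ A).card ≤ (unions G).card) :
    ∃ G0 ⊆ G, G0.card ≤ bnd M D ∧
      ∀ y ∈ G, y ∉ G0 → ∀ x ∈ y, ∀ x' ∈ y, ∀ g ∈ G, x ∈ g → x' ∈ g := by
  have hcard : Fintype.card G = G.card := Fintype.card_coe G
  have hh : ∀ e ∈ edges G, (Sp (edges G)).card ≤
      2 * ((Sp (edges G)).filter fun U => e ⊆ U).card := by
    intro e he
    rw [edges, mem_image] at he
    obtain ⟨x, _, rfl⟩ := he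
    rw [card_Sp, card_Sp_filter]
    have h1 := card_filter_add_card_filter_not (s := unions G) (fun A => x ∈ A)
    have h2 := hhalf x
    omega
  obtain ⟨bad, hbad, h⟩ := few_multiple (V := G) (E := edges G) (M := M) (D := D)
    (by rw [hcard, card_Sp]; exact hM) hD hh
  refine ⟨bad.image Subtype.val, ?_, card_image_le.trans hbad, ?_⟩
  · intro g hg
    rw [mem_image] at hg
    obtain ⟨g', _, rfl⟩ := hg
    exact g'.2
  · intro y hy hyb x hx x' hx' g hg hxg
    have hyb' : (⟨y, hy⟩ : G) ∉ bad := fun h => hyb (mem_image.2 ⟨_, h, rfl⟩)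
    have h1 := h _ hyb' _ (star_mem_edges (g := ⟨y, hy⟩) hx) _
      (star_mem_edges (g := ⟨y, hy⟩) hx') (mem_star.2 hx) (mem_star.2 hx')
    have h3 : (⟨g, hg⟩ : G) ∈ star G x := mem_star.2 hxg
    rw [h1] at h3
    exact mem_star.1 h3

/-- The elements of such a generator lie in at least half of the members. -/
theorem half_of_twin (G : Finset (Finset α)) {y : Finset α} (hy : y ∈ G)
    (htw : ∀ x ∈ y, ∀ x' ∈ y, ∀ g ∈ G, x ∈ g → x' ∈ g) {x : α} (hx : x ∈ y) :
    ((unions G).filter fun A => x ∉ A).card ≤ ((unions G).filter fun A => x ∈ A).card := by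
  refine card_le_card_of_injOn (fun A => A ∪ y) ?_ ?_
  · intro A hA
    rw [mem_coe, mem_filter] at hA ⊢
    exact ⟨union_mem_unions hA.1 hy, mem_union_right _ hx⟩
  · intro A hA B hB h
    rw [mem_coe, mem_filter] at hA hB
    have hd : ∀ A, A ∈ unions G → x ∉ A → (A ∪ y) \ y = A := by
      intro A hA hxA
      rw [union_sdiff_right, sdiff_eq_self_of_disjoint]
      rw [disjoint_left]
      intro z hzA hzy
      obtain ⟨g, hg, hzg, hgA⟩ := mem_unions.1 hA z hzA
      exact hxA (hgA (htw z hzy x hx g hg hzg))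
    rw [← hd A hA.1 hA.2, ← hd B hB.1 hB.2]
    simp only at h
    rw [h]

/-- The union-closed sets conjecture for families with many members. -/
theorem frankl_many (G : Finset (Finset α)) (hne : ∅ ∉ G) {M D : ℕ}
    (hM : 2 ^ G.card ≤ M * (unions G).card) (hD : M < 2 ^ D) (hJ : bnd M D < G.card) :
    ∃ x, (unions G).card ≤ 2 * ((unions G).filter fun A => x ∈ A).card := by
  by_contra hcon
  push Not at hcon
  obtain ⟨G0, hG0, hG0c, htw⟩ := twin_generators G hM hD fun x => (hcon x).le
  obtain ⟨y, hy, hyG0⟩ : ∃ y ∈ G, y ∉ G0 := by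
    by_contra hno
    push Not at hno
    have := card_le_card (show G ⊆ G0 from hno)
    omega
  have htw := htw y hy hyG0
  obtain ⟨x, hx⟩ : y.Nonempty := by
    rw [nonempty_iff_ne_empty]
    intro h0
    exact hne (h0 ▸ hy)
  have h1 := half_of_twin G hy htw hx
  have h2 := card_filter_add_card_filter_not (s := unions G) (fun A => x ∈ A)
  have h3 := hcon x
  omega

/-- In the case of equality a generator as above is disjoint from the other generators, if the
generators are irreducible. -/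
theorem disjoint_of_twin (G : Finset (Finset α)) (hirr : ∀ g ∈ G, g ∉ unions (G.erase g))
    (hhalf : ∀ x, 2 * ((unions G).filter fun A => x ∈ A).card ≤ (unions G).card)
    {y : Finset α} (hy : y ∈ G)
    (htw : ∀ x ∈ y, ∀ x' ∈ y, ∀ g ∈ G, x ∈ g → x' ∈ g) :
    ∀ g ∈ G, g ≠ y → Disjoint g y := by
  intro g hg hgy
  by_contra hnd
  rw [not_disjoint_iff] at hnd
  obtain ⟨x, hxg, hx⟩ := hnd
  have hd : ∀ A, A ∈ unions G → x ∉ A → Disjoint A y := by
    intro A hA hxA
    rw [disjoint_left]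
    intro z hzA hzy
    obtain ⟨g, hg, hzg, hgA⟩ := mem_unions.1 hA z hzA
    exact hxA (hgA (htw z hzy x hx g hg hzg))
  have hinj : Set.InjOn (fun A => A ∪ y) ((unions G).filter fun A => x ∉ A : Set (Finset α)) := by
    intro A hA B hB h
    rw [mem_coe, mem_filter] at hA hB
    simp only at h
    have h1 : (A ∪ y) \ y = (B ∪ y) \ y := by rw [h]
    rwa [union_sdiff_right, union_sdiff_right, sdiff_eq_self_of_disjoint (hd A hA.1 hA.2),
      sdiff_eq_self_of_disjoint (hd B hB.1 hB.2)] at h1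
  have himg : ((unions G).filter fun A => x ∉ A).image (fun A => A ∪ y) =
      (unions G).filter fun A => x ∈ A := by
    apply eq_of_subset_of_card_le
    · intro B hB
      rw [mem_image] at hB
      obtain ⟨A, hA, rfl⟩ := hB
      rw [mem_filter] at hA ⊢
      exact ⟨union_mem_unions hA.1 hy, mem_union_right _ hx⟩
    · rw [card_image_of_injOn hinj]
      have h2 := card_filter_add_card_filter_not (s := unions G) (fun A => x ∈ A)
      have h3 := hhalf x
      omega
  have hgG : g ∈ unions G := by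
    rw [mem_unions]
    exact fun z hz => ⟨g, hg, hz, subset_rfl⟩
  have hgm : g ∈ (unions G).filter fun A => x ∈ A := mem_filter.2 ⟨hgG, hxg⟩
  rw [← himg, mem_image] at hgm
  obtain ⟨A, hA, hAg⟩ := hgm
  rw [mem_filter] at hA
  apply hirr g hg
  rw [mem_unions]
  intro z hz
  rw [← hAg] at hz
  rcases mem_union.1 hz with hz | hz
  · obtain ⟨h, hh, hzh, hhA⟩ := mem_unions.1 hA.1 z hz
    refine ⟨h, mem_erase.2 ⟨?_, hh⟩, hzh, ?_⟩
    · rintro rfl
      exact hA.2 (hhA hxg)
    · rw [← hAg]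
      exact hhA.trans subset_union_left
  · refine ⟨y, mem_erase.2 ⟨Ne.symm hgy, hy⟩, hz, ?_⟩
    rw [← hAg]
    exact subset_union_right

/-- Families in which no element lies in more than half of the members: a bounded part and
pairwise disjoint further generators. -/
theorem structure_half (G : Finset (Finset α)) (hirr : ∀ g ∈ G, g ∉ unions (G.erase g)) {M D : ℕ}
    (hM : 2 ^ G.card ≤ M * (unions G).card) (hD : M < 2 ^ D)
    (hhalf : ∀ x, 2 * ((unions G).filter fun A => x ∈ A).card ≤ (unions G).card) :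
    ∃ G0 ⊆ G, G0.card ≤ bnd M D ∧ ∀ y ∈ G, y ∉ G0 → ∀ g ∈ G, g ≠ y → Disjoint g y := by
  obtain ⟨G0, h1, h2, h3⟩ := twin_generators G hM hD hhalf
  exact ⟨G0, h1, h2, fun y hy hy0 => disjoint_of_twin G hirr hhalf hy (h3 y hy hy0)⟩

theorem pow_bound (D : ℕ) : D ^ 8 ≤ 10 ^ 6 * 2 ^ D := by
  rcases Nat.lt_or_ge D 12 with h | h
  · interval_cases D <;> norm_num
  · induction D, h using Nat.le_induction with
    | base => norm_num
    | succ n hn ih =>
      have h1 : 12 ^ 8 * (n + 1) ^ 8 ≤ 13 ^ 8 * n ^ 8 := by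
        rw [← mul_pow, ← mul_pow]
        exact Nat.pow_le_pow_left (by omega) 8
      have h3 : 2 ^ (n + 1) = 2 * 2 ^ n := by ring
      rw [h3]
      have h2 : (n + 1) ^ 8 ≤ 2 * n ^ 8 := by omega
      omega

theorem bnd_le {M : ℕ} (hM : 1 ≤ M) :
    bnd M (Nat.log 2 M + 1) < 10 ^ 10 * M ^ 2 * (Nat.log 2 M + 1) := by
  set D := Nat.log 2 M + 1 with hD
  have h1 : 2 ^ D ≤ 2 * M := by
    rw [hD, pow_succ, mul_comm]
    exact Nat.mul_le_mul_left 2 (Nat.pow_log_le_self 2 (by omega))
  have hD1 : 1 ≤ D := by omega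
  have h2 := pow_bound D
  have h3 : D ^ 8 ≤ 2 * 10 ^ 6 * M := by
    calc D ^ 8 ≤ 10 ^ 6 * 2 ^ D := h2
      _ ≤ 10 ^ 6 * (2 * M) := Nat.mul_le_mul_left _ h1
      _ = _ := by ring
  have h4 : D ≤ M := by
    have : Nat.log 2 M < M := Nat.log_lt_self 2 (by omega)
    omega
  rw [bnd]
  have h5 : D ^ 3 ≤ M ^ 2 * D := by
    calc D ^ 3 = D ^ 2 * D := by ring
      _ ≤ M ^ 2 * D := Nat.mul_le_mul_right _ (Nat.pow_le_pow_left h4 2)
  have h6 : 4 * (6 * D ^ 3) ^ 3 * M ≤ 4 * 216 * (2 * 10 ^ 6) * (M ^ 2 * D) := by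
    calc 4 * (6 * D ^ 3) ^ 3 * M = 4 * 216 * (D ^ 8 * (D * M)) := by ring
      _ ≤ 4 * 216 * ((2 * 10 ^ 6 * M) * (D * M)) :=
          Nat.mul_le_mul_left _ (Nat.mul_le_mul_right _ h3)
      _ = _ := by ring
  have h7 : 4 * M ^ 2 * (3 * D + 2) ≤ 20 * (M ^ 2 * D) := by
    have : 3 * D + 2 ≤ 5 * D := by omega
    calc 4 * M ^ 2 * (3 * D + 2) ≤ 4 * M ^ 2 * (5 * D) := Nat.mul_le_mul_left _ this
      _ = _ := by ring
  have h8 : 1 ≤ M ^ 2 * D := Nat.one_le_iff_ne_zero.2 (by positivity)
  calc 6 * D ^ 3 + 4 * (6 * D ^ 3) ^ 3 * M + 4 * M ^ 2 * (3 * D + 2)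
      ≤ 6 * (M ^ 2 * D) + 4 * 216 * (2 * 10 ^ 6) * (M ^ 2 * D) + 20 * (M ^ 2 * D) := by omega
    _ < 10 ^ 10 * (M ^ 2 * D) := by omega
    _ = _ := by ring

end primal

end Pool.Agent.Q115.DU
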