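import Mathlib

namespace Pool.Agent.Q115.EP

open SimpleGraph

variable {V V1 V2 : Type}

/-- `l` is the list of vertices of a path of `G` from `u` to `v` -/
def Pth (G : SimpleGraph V) (u v : V) (l : List V) : Prop :=
  l.Nodup ∧ l.IsChain G.Adj ∧ l.head? = some u ∧ l.getLast? = some v

/-- the edge `st` is used by the path `l` -/
def Thru (l : List V) (s t : V) : Prop := [s, t] <:+: l ∨ [t, s] <:+: l

theorem Thru.mono {l l' : List V} {s t : V} (h : Thru l s t) (hl : l <:+: l') :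
    Thru l' s t := by
  rcases h with h | h
  · exact Or.inl (h.trans hl)
  · exact Or.inr (h.trans hl)

theorem Thru.map {l : List V1} {s t : V1} (h : Thru l s t) (f : V1 → V) :
    Thru (l.map f) (f s) (f t) := by
  rcases h with h | h
  · exact Or.inl (h.map f)
  · exact Or.inr (h.map f)

theorem Thru.symm {l : List V} {s t : V} (h : Thru l s t) : Thru l t s := Or.symm h

theorem Pth.cons {G : SimpleGraph V} {u v : V} {l : List V} (h : Pth G u v l) :
    ∃ k, l = u :: k := by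
  obtain ⟨-, -, h1, -⟩ := h
  cases l with
  | nil => simp at h1
  | cons a k =>
    rw [List.head?_cons, Option.some.injEq] at h1
    exact ⟨k, by rw [h1]⟩

theorem Pth.snoc {G : SimpleGraph V} {u v : V} {l : List V} (h : Pth G u v l) :
    ∃ k, l = k ++ [v] := by
  obtain ⟨-, -, -, h1⟩ := h
  rcases List.eq_nil_or_concat l with rfl | ⟨k, a, rfl⟩
  · simp at h1
  · rw [List.concat_eq_append] at h1 ⊢
    rw [List.getLast?_append, List.getLast?_singleton, Option.some_or, Option.some.injEq] at h1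
    exact ⟨k, by rw [h1]⟩

theorem Pth.reverse {G : SimpleGraph V} {u v : V} {l : List V} (h : Pth G u v l) :
    Pth G v u l.reverse := by
  obtain ⟨h1, h2, h3, h4⟩ := h
  refine ⟨List.nodup_reverse.mpr h1, ?_, ?_, ?_⟩
  · rw [List.isChain_reverse]
    exact h2.imp fun a b hab => hab.symm
  · rw [List.head?_reverse]; exact h4
  · rw [List.getLast?_reverse]; exact h3

theorem Pth.map {G1 : SimpleGraph V1} {G : SimpleGraph V} {f : V1 → V}
    (hf : Function.Injective f) (hfa : ∀ a b, G1.Adj a b → G.Adj (f a) (f b)) {u v : V1}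
    {l : List V1} (h : Pth G1 u v l) : Pth G (f u) (f v) (l.map f) := by
  obtain ⟨h1, h2, h3, h4⟩ := h
  refine ⟨h1.map hf, ?_, ?_, ?_⟩
  · rw [List.isChain_map]
    exact h2.imp fun a b hab => hfa a b hab
  · rw [List.head?_map, h3]; rfl
  · rw [List.getLast?_map, h4]; rfl

section glue

variable {G : SimpleGraph V} {G1 : SimpleGraph V1} {G2 : SimpleGraph V2} {f : V1 → V}
  {g : V2 → V}

/-- gluing at one vertex -/
theorem glue1 (hf : Function.Injective f) (hg : Function.Injective g)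
    (hfa : ∀ a b, G1.Adj a b → G.Adj (f a) (f b))
    (hga : ∀ a b, G2.Adj a b → G.Adj (g a) (g b)) {z1 : V1} {z2 : V2} (hz : f z1 = g z2)
    (hdis : ∀ a b, f a = g b → a = z1 ∧ b = z2) {u : V1} {v : V2} {l1 : List V1}
    {l2 : List V2} (h1 : Pth G1 u z1 l1) (h2 : Pth G2 z2 v l2) :
    ∃ T, Pth G (f u) (g v) T ∧ T.length + 1 = l1.length + l2.length ∧
      l1.map f <:+: T ∧ l2.map g <:+: T := by
  obtain ⟨k1, rfl⟩ := h1.snoc
  obtain ⟨k2, rfl⟩ := h2.cons
  have hT : k1.map f ++ (z2 :: k2).map g = (k1 ++ [z1]).map f ++ k2.map g := by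
    simp [hz]
  refine ⟨k1.map f ++ (z2 :: k2).map g, ⟨?_, ?_, ?_, ?_⟩, ?_, ?_, ?_⟩
  · rw [List.nodup_append]
    have h3 := h1.1
    rw [List.nodup_append] at h3
    refine ⟨h3.1.map hf, h2.1.map hg, ?_⟩
    intro a ha b hb hab
    rw [List.mem_map] at ha hb
    obtain ⟨a', ha', rfl⟩ := ha
    obtain ⟨b', hb', rfl⟩ := hb
    obtain ⟨rfl, -⟩ := hdis a' b' hab
    exact h3.2.2 a' ha' a' (by simp) rfl
  · have e1 : ((k1 ++ [z1]).map f).IsChain G.Adj := by
      rw [List.isChain_map]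
      exact h1.2.1.imp fun a b hab => hfa a b hab
    have e2 : ((z2 :: k2).map g).IsChain G.Adj := by
      rw [List.isChain_map]
      exact h2.2.1.imp fun a b hab => hga a b hab
    rw [List.map_append, List.map_singleton, hz] at e1
    rw [List.map_cons] at e2 ⊢
    exact List.isChain_split.mpr ⟨e1, e2⟩
  · rw [hT, List.head?_append, List.head?_map, h1.2.2.1]
    rfl
  · rw [List.getLast?_append, List.getLast?_map, h2.2.2.2]
    rfl
  · simp only [List.length_append, List.length_map, List.length_cons, List.length_nil]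
    omega
  · rw [hT]
    exact (List.prefix_append _ _).isInfix
  · exact (List.suffix_append _ _).isInfix

/-- gluing at two vertices -/
theorem glue2 (hf : Function.Injective f) (hg : Function.Injective g)
    (hfa : ∀ a b, G1.Adj a b → G.Adj (f a) (f b))
    (hga : ∀ a b, G2.Adj a b → G.Adj (g a) (g b)) {x1 y1 : V1} {x2 y2 : V2}
    (hx : f x1 = g x2) (hy : f y1 = g y2)
    (hdis : ∀ a b, f a = g b → (a = x1 ∧ b = x2) ∨ (a = y1 ∧ b = y2)) {u v : V1}
    {l1 l3 : List V1} {l2 : List V2} (h1 : Pth G1 u x1 l1) (h3 : Pth G1 y1 v l3)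
    (hd : ∀ a ∈ l1, a ∉ l3) (h2 : Pth G2 x2 y2 l2) :
    ∃ T, Pth G (f u) (f v) T ∧ T.length + 2 = l1.length + l2.length + l3.length ∧
      l1.map f <:+: T ∧ l2.map g <:+: T ∧ l3.map f <:+: T := by
  obtain ⟨k1, rfl⟩ := h1.snoc
  obtain ⟨k3, rfl⟩ := h3.cons
  have hxy : x1 ≠ y1 := by
    rintro rfl
    exact hd x1 (by simp) (by simp)
  have hxy2 : x2 ≠ y2 := by
    rintro rfl
    exact hxy (hf (hx.trans hy.symm))
  obtain ⟨m, rfl⟩ : ∃ m, l2 = x2 :: (m ++ [y2]) := by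
    obtain ⟨k, rfl⟩ := h2.cons
    obtain ⟨k', hk'⟩ := h2.snoc
    cases k' with
    | nil =>
      simp only [List.nil_append, List.cons.injEq] at hk'
      exact absurd hk'.1 hxy2
    | cons c k'' =>
      simp only [List.cons_append, List.cons.injEq] at hk'
      exact ⟨k'', by rw [hk'.2]⟩
  have hT1 : k1.map f ++ ((x2 :: (m ++ [y2])).map g ++ k3.map f) =
      (k1 ++ [x1]).map f ++ ((m ++ [y2]).map g ++ k3.map f) := by
    simp [hx]
  have hT2 : k1.map f ++ ((x2 :: (m ++ [y2])).map g ++ k3.map f) =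
      (k1.map f ++ (x2 :: m).map g) ++ (y1 :: k3).map f := by
    simp [hy]
  have n1 := h1.1
  have n3 := h3.1
  rw [List.nodup_append] at n1
  rw [List.nodup_cons] at n3
  refine ⟨k1.map f ++ ((x2 :: (m ++ [y2])).map g ++ k3.map f), ⟨?_, ?_, ?_, ?_⟩, ?_, ?_, ?_, ?_⟩
  · rw [List.nodup_append, List.nodup_append]
    refine ⟨n1.1.map hf, ⟨h2.1.map hg, n3.2.map hf, ?_⟩, ?_⟩
    · intro a ha b hb hab
      rw [List.mem_map] at ha hb
      obtain ⟨a', ha', rfl⟩ := ha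
      obtain ⟨b', hb', rfl⟩ := hb
      rcases hdis b' a' hab.symm with ⟨rfl, -⟩ | ⟨rfl, -⟩
      · exact hd b' (by simp) (by simp [hb'])
      · exact n3.1 hb'
    · intro a ha b hb hab
      rw [List.mem_map] at ha
      obtain ⟨a', ha', rfl⟩ := ha
      rw [List.mem_append, List.mem_map, List.mem_map] at hb
      rcases hb with ⟨b', hb', rfl⟩ | ⟨b', hb', rfl⟩
      · rcases hdis a' b' hab with ⟨rfl, -⟩ | ⟨rfl, -⟩
        · exact n1.2.2 a' ha' a' (by simp) rfl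
        · exact hd a' (by simp [ha']) (by simp)
      · have := hf hab
        subst this
        exact hd a' (by simp [ha']) (by simp [hb'])
  · have e1 : ((k1 ++ [x1]).map f).IsChain G.Adj := by
      rw [List.isChain_map]
      exact h1.2.1.imp fun a b hab => hfa a b hab
    have e2 : ((x2 :: (m ++ [y2])).map g).IsChain G.Adj := by
      rw [List.isChain_map]
      exact h2.2.1.imp fun a b hab => hga a b hab
    have e3 : ((y1 :: k3).map f).IsChain G.Adj := by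
      rw [List.isChain_map]
      exact h3.2.1.imp fun a b hab => hfa a b hab
    rw [List.map_append, List.map_singleton, hx] at e1
    rw [List.map_cons, hy] at e3
    rw [List.map_cons, List.map_append, List.map_singleton] at e2 ⊢
    rw [List.cons_append]
    refine List.isChain_split.mpr ⟨e1, ?_⟩
    have e4 : g x2 :: (List.map g m ++ [g y2] ++ List.map f k3) =
        (g x2 :: List.map g m) ++ g y2 :: List.map f k3 := by simp
    rw [e4]
    refine List.isChain_split.mpr ⟨?_, e3⟩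
    simpa using e2
  · rw [hT1, List.head?_append, List.head?_map, h1.2.2.1]
    rfl
  · rw [hT2, List.getLast?_append, List.getLast?_map, h3.2.2.2]
    rfl
  · simp only [List.length_append, List.length_map, List.length_cons, List.length_nil]
    omega
  · rw [hT1]
    exact (List.prefix_append _ _).isInfix
  · exact ⟨k1.map f, k3.map f, by rw [List.append_assoc]⟩
  · rw [hT2]
    exact (List.suffix_append _ _).isInfix

end glue

/-- splitting a path at an edge -/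
theorem Pth.split {G : SimpleGraph V} {a b s t : V} {l : List V} (h : Pth G a b l)
    (hst : [s, t] <:+: l) : ∃ l1 l3, Pth G a s l1 ∧ Pth G t b l3 ∧ (∀ z ∈ l1, z ∉ l3) ∧
      l1.length + l3.length = l.length := by
  obtain ⟨α, β, hl⟩ := hst
  have hl' : l = (α ++ [s]) ++ (t :: β) := by
    rw [← hl]; simp
  subst hl'
  obtain ⟨h1, h2, h3, h4⟩ := h
  rw [List.nodup_append] at h1
  rw [List.isChain_append] at h2
  refine ⟨α ++ [s], t :: β, ⟨h1.1, h2.1, ?_, ?_⟩, ⟨h1.2.1, h2.2.1, ?_, ?_⟩, ?_, ?_⟩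
  · rw [List.head?_append_of_ne_nil _ (by simp)] at h3
    exact h3
  · simp
  · rfl
  · rw [List.getLast?_append_of_ne_nil _ (by simp)] at h4
    exact h4
  · intro z hz hz'
    exact h1.2.2 z hz z hz' rfl
  · simp only [List.length_append, List.length_cons, List.length_nil]

/-! ### bridges -/

/-- A two-terminal graph with paths of many lengths: paths `a … b` of all lengths `q, …, N`,
for every edge and some `r ≤ p` paths `a … b` through the edge of all lengths `r, …, N`, and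
cycles through the edge of all lengths `3, …, r + g`. -/
structure Bridge (G : SimpleGraph V) (a b : V) (N q p g : ℕ) : Prop where
  P0 : ∀ ℓ, q ≤ ℓ → ℓ ≤ N → ∃ l, Pth G a b l ∧ l.length = ℓ + 1
  P1 : ∀ s t, G.Adj s t → ∃ r, r ≤ p ∧ (∀ ℓ, r ≤ ℓ → ℓ ≤ N →
    ∃ l, Pth G a b l ∧ l.length = ℓ + 1 ∧ Thru l s t) ∧
    (∀ ℓ, 3 ≤ ℓ → ℓ ≤ r + g → ∃ l, Pth G s t l ∧ l.length = ℓ)

/-! ### glued graphs -/

/-- the second graph inside the glued vertex set -/
def gmap (A : V2 → Prop) [DecidablePred A] (φ : V2 → V1) (v : V2) :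
    V1 ⊕ {v : V2 // ¬ A v} :=
  if h : A v then Sum.inl (φ v) else Sum.inr ⟨v, h⟩

/-- the glued graph -/
def glued (G1 : SimpleGraph V1) (G2 : SimpleGraph V2) (A : V2 → Prop) [DecidablePred A]
    (φ : V2 → V1) : SimpleGraph (V1 ⊕ {v : V2 // ¬ A v}) where
  Adj p q := p ≠ q ∧ ((∃ a b, G1.Adj a b ∧ p = Sum.inl a ∧ q = Sum.inl b) ∨
    (∃ a b, G2.Adj a b ∧ p = gmap A φ a ∧ q = gmap A φ b))
  symm := ⟨fun p q h => ⟨h.1.symm, by
    rcases h.2 with ⟨a, b, h1, h2, h3⟩ | ⟨a, b, h1, h2, h3⟩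
    · exact Or.inl ⟨b, a, h1.symm, h3, h2⟩
    · exact Or.inr ⟨b, a, h1.symm, h3, h2⟩⟩⟩
  loopless := ⟨fun p h => h.1 rfl⟩

section gl

variable {G1 : SimpleGraph V1} {G2 : SimpleGraph V2} {A : V2 → Prop} [DecidablePred A]
  {φ : V2 → V1}

theorem gmap_inj (hφ : ∀ a b, A a → A b → φ a = φ b → a = b) :
    Function.Injective (gmap A φ) := by
  intro a b h
  unfold gmap at h
  split_ifs at h with h1 h2 h2
  · exact hφ a b h1 h2 (Sum.inl.inj h)
  · have := Sum.inr.inj h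
    exact congrArg Subtype.val this

theorem glued_left {a b : V1} (h : G1.Adj a b) :
    (glued G1 G2 A φ).Adj (Sum.inl a) (Sum.inl b) :=
  ⟨fun h' => h.ne (Sum.inl.inj h'), Or.inl ⟨a, b, h, rfl, rfl⟩⟩

theorem glued_right (hφ : ∀ a b, A a → A b → φ a = φ b → a = b) {a b : V2}
    (h : G2.Adj a b) : (glued G1 G2 A φ).Adj (gmap A φ a) (gmap A φ b) :=
  ⟨fun h' => h.ne (gmap_inj hφ h'), Or.inr ⟨a, b, h, rfl, rfl⟩⟩

theorem gmap_eq_inl {a : V1} {b : V2} (h : Sum.inl a = gmap A φ b) : A b ∧ a = φ b := by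
  unfold gmap at h
  split_ifs at h with h1
  exact ⟨h1, Sum.inl.inj h⟩

theorem gmap_of {b : V2} (h : A b) : gmap A φ b = Sum.inl (φ b) := by
  unfold gmap
  rw [dif_pos h]

theorem glued_edges [Finite V1] [Finite V2] :
    (glued G1 G2 A φ).edgeSet.ncard ≤ G1.edgeSet.ncard + G2.edgeSet.ncard := by
  classical
  have hsub : (glued G1 G2 A φ).edgeSet ⊆ (Sym2.map Sum.inl '' G1.edgeSet) ∪
      (Sym2.map (gmap A φ) '' G2.edgeSet) := by
    intro e he
    induction e using Sym2.ind with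
    | _ x y =>
      rw [mem_edgeSet] at he
      rcases he.2 with ⟨a, b, h1, rfl, rfl⟩ | ⟨a, b, h1, rfl, rfl⟩
      · exact Or.inl ⟨s(a, b), h1, rfl⟩
      · exact Or.inr ⟨s(a, b), h1, rfl⟩
  calc (glued G1 G2 A φ).edgeSet.ncard ≤ ((Sym2.map Sum.inl '' G1.edgeSet) ∪
      (Sym2.map (gmap A φ) '' G2.edgeSet)).ncard := Set.ncard_le_ncard hsub (Set.toFinite _)
    _ ≤ (Sym2.map (Sum.inl : V1 → V1 ⊕ {v : V2 // ¬ A v}) '' G1.edgeSet).ncard +
        (Sym2.map (gmap A φ) '' G2.edgeSet).ncard := Set.ncard_union_le _ _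
    _ ≤ G1.edgeSet.ncard + G2.edgeSet.ncard :=
        Nat.add_le_add (Set.ncard_image_le (Set.toFinite _)) (Set.ncard_image_le (Set.toFinite _))

end gl

/-! ### series composition -/

theorem series [DecidableEq V2] {G1 : SimpleGraph V1} {G2 : SimpleGraph V2} {a1 b1 : V1}
    {a2 b2 : V2} {N1 q1 p1 g1 N2 q2 p2 g2 p g : ℕ}
    (h1 : Bridge G1 a1 b1 N1 q1 p1 g1) (h2 : Bridge G2 a2 b2 N2 q2 p2 g2)
    (hq1 : q1 ≤ N1) (hq2 : q2 ≤ N2) (hp1 : p1 ≤ N1) (hp2 : p2 ≤ N2)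
    (hpa : p1 + q2 ≤ p) (hpb : p2 + q1 ≤ p) (hg1 : g + q2 ≤ g1) (hg2 : g + q1 ≤ g2) :
    Bridge (glued G1 G2 (fun v => v = a2) (fun _ => b1)) (Sum.inl a1)
      (gmap (fun v => v = a2) (fun _ => b1) b2) (N1 + N2) (q1 + q2) p g := by
  set A : V2 → Prop := fun v => v = a2 with hA
  set φ : V2 → V1 := fun _ => b1 with hφ'
  have hφ : ∀ a b, A a → A b → φ a = φ b → a = b := fun a b ha hb _ => ha.trans hb.symm
  have hf : Function.Injective (Sum.inl : V1 → V1 ⊕ {v : V2 // ¬ A v}) := Sum.inl_injective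
  have hg := gmap_inj hφ
  have hfa : ∀ a b, G1.Adj a b → (glued G1 G2 A φ).Adj (Sum.inl a) (Sum.inl b) :=
    fun a b h => glued_left h
  have hga : ∀ a b, G2.Adj a b → (glued G1 G2 A φ).Adj (gmap A φ a) (gmap A φ b) :=
    fun a b h => glued_right hφ h
  have hz : (Sum.inl b1 : V1 ⊕ {v : V2 // ¬ A v}) = gmap A φ a2 :=
    (gmap_of (A := A) (φ := φ) (b := a2) rfl).symm
  have hdis : ∀ a b, (Sum.inl a : V1 ⊕ {v : V2 // ¬ A v}) = gmap A φ b →
      a = b1 ∧ b = a2 := by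
    intro a b h
    obtain ⟨h3, h4⟩ := gmap_eq_inl h
    exact ⟨h4, h3⟩
  refine ⟨?_, ?_⟩
  · intro ℓ hl1 hl2
    obtain ⟨ℓ1, ℓ2, e1, e2, e3, e4, e5⟩ : ∃ ℓ1 ℓ2, q1 ≤ ℓ1 ∧ ℓ1 ≤ N1 ∧ q2 ≤ ℓ2 ∧ ℓ2 ≤ N2 ∧
        ℓ = ℓ1 + ℓ2 := by
      by_cases h : ℓ ≤ q2 + N1
      · exact ⟨ℓ - q2, q2, by omega, by omega, le_rfl, hq2, by omega⟩
      · exact ⟨N1, ℓ - N1, hq1, le_rfl, by omega, by omega, by omega⟩
    obtain ⟨l1, hl1, hlen1⟩ := h1.P0 ℓ1 e1 e2
    obtain ⟨l2, hl2, hlen2⟩ := h2.P0 ℓ2 e3 e4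
    obtain ⟨T, hT, hlen, -, -⟩ := glue1 hf hg hfa hga hz hdis hl1 hl2
    exact ⟨T, hT, by omega⟩
  · intro s t hst
    rcases hst.2 with ⟨s', t', h3, rfl, rfl⟩ | ⟨s', t', h3, rfl, rfl⟩
    · obtain ⟨r, hr, hP, hC⟩ := h1.P1 s' t' h3
      refine ⟨r + q2, by omega, ?_, ?_⟩
      · intro ℓ hl1 hl2
        obtain ⟨ℓ1, ℓ2, e1, e2, e3, e4, e5⟩ : ∃ ℓ1 ℓ2, r ≤ ℓ1 ∧ ℓ1 ≤ N1 ∧ q2 ≤ ℓ2 ∧
            ℓ2 ≤ N2 ∧ ℓ = ℓ1 + ℓ2 := by
          by_cases h : ℓ ≤ q2 + N1
          · exact ⟨ℓ - q2, q2, by omega, by omega, le_rfl, hq2, by omega⟩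
          · exact ⟨N1, ℓ - N1, by omega, le_rfl, by omega, by omega, by omega⟩
        obtain ⟨l1, hl1, hlen1, hth⟩ := hP ℓ1 e1 e2
        obtain ⟨l2, hl2, hlen2⟩ := h2.P0 ℓ2 e3 e4
        obtain ⟨T, hT, hlen, hi, -⟩ := glue1 hf hg hfa hga hz hdis hl1 hl2
        exact ⟨T, hT, by omega, (hth.map _).mono hi⟩
      · intro ℓ hl1 hl2
        obtain ⟨l, hl, hlen⟩ := hC ℓ hl1 (by omega)
        exact ⟨_, hl.map hf hfa, by rw [List.length_map]; exact hlen⟩
    · obtain ⟨r, hr, hP, hC⟩ := h2.P1 s' t' h3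
      refine ⟨r + q1, by omega, ?_, ?_⟩
      · intro ℓ hl1 hl2
        obtain ⟨ℓ1, ℓ2, e1, e2, e3, e4, e5⟩ : ∃ ℓ1 ℓ2, q1 ≤ ℓ1 ∧ ℓ1 ≤ N1 ∧ r ≤ ℓ2 ∧
            ℓ2 ≤ N2 ∧ ℓ = ℓ1 + ℓ2 := by
          by_cases h : ℓ ≤ q1 + N2
          · exact ⟨q1, ℓ - q1, le_rfl, hq1, by omega, by omega, by omega⟩
          · exact ⟨ℓ - N2, N2, by omega, by omega, by omega, le_rfl, by omega⟩
        obtain ⟨l1, hl1, hlen1⟩ := h1.P0 ℓ1 e1 e2
        obtain ⟨l2, hl2, hlen2, hth⟩ := hP ℓ2 e3 e4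
        obtain ⟨T, hT, hlen, -, hi⟩ := glue1 hf hg hfa hga hz hdis hl1 hl2
        exact ⟨T, hT, by omega, (hth.map _).mono hi⟩
      · intro ℓ hl1 hl2
        obtain ⟨l, hl, hlen⟩ := hC ℓ hl1 (by omega)
        exact ⟨_, hl.map hg hga, by rw [List.length_map]; exact hlen⟩

/-! ### closure by a four-terminal graph -/

/-- the finite facts about the four-terminal graph `X` -/
structure XFacts {VX : Type} (X : SimpleGraph VX) (a b x y : VX) : Prop where
  ne : x ≠ y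
  A : ∀ ℓ, 2 ≤ ℓ → ℓ ≤ 13 → ∃ l, Pth X a b l ∧ l.length = ℓ + 1
  B : ∃ l1 l3, Pth X a x l1 ∧ Pth X y b l3 ∧ (∀ z ∈ l1, z ∉ l3) ∧ l1.length + l3.length = 10
  B' : ∃ l1 l3, Pth X a x l1 ∧ Pth X y b l3 ∧ (∀ z ∈ l1, z ∉ l3) ∧ l1.length + l3.length = 15
  S : ∀ s t, X.Adj s t → (∃ l1 l3, Pth X a x l1 ∧ Pth X y b l3 ∧ (∀ z ∈ l1, z ∉ l3) ∧
      l1.length + l3.length = 15 ∧ (Thru l1 s t ∨ Thru l3 s t)) ∨
    (∃ l1 l3, Pth X a y l1 ∧ Pth X x b l3 ∧ (∀ z ∈ l1, z ∉ l3) ∧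
      l1.length + l3.length = 15 ∧ (Thru l1 s t ∨ Thru l3 s t))
  Cy : ∀ s t, X.Adj s t → ∃ m l, Pth X x y l ∧ l.length = m + 1 ∧ 2 ≤ m ∧ Thru l s t ∧
    ∀ ℓ, 3 ≤ ℓ → ℓ ≤ m + 5 → ∃ l', Pth X s t l' ∧ l'.length = ℓ
  E : ∃ l, Pth X x y l ∧ l.length = 3

theorem closure {VX : Type} [DecidableEq V2] {X : SimpleGraph VX} {a b x y : VX}
    (hX : XFacts X a b x y) {G2 : SimpleGraph V2} {x2 y2 : V2} (hne : x2 ≠ y2)
    {M p g g' : ℕ} (h2 : Bridge G2 x2 y2 M 6 p g) (hM : 10 ≤ M) (hp6 : 6 ≤ p)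
    (hg : 1 ≤ g) (hg' : g' + p + 11 ≤ M) :
    Bridge (glued X G2 (fun v => v = x2 ∨ v = y2) (fun v => if v = x2 then x else y))
      (Sum.inl a) (Sum.inl b) (M + 13) 2 (p + 13) g' := by
  have hg1 := hg
  clear hg
  set A : V2 → Prop := fun v => v = x2 ∨ v = y2 with hA
  set φ : V2 → VX := fun v => if v = x2 then x else y with hφ'
  have hφx : φ x2 = x := if_pos rfl
  have hφy : φ y2 = y := if_neg hne.symm
  have hφ : ∀ a b, A a → A b → φ a = φ b → a = b := by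
    rintro a b (rfl | rfl) (rfl | rfl) h
    · rfl
    · rw [hφx, hφy] at h
      exact absurd h hX.ne
    · rw [hφx, hφy] at h
      exact absurd h.symm hX.ne
    · rfl
  have hf : Function.Injective (Sum.inl : VX → VX ⊕ {v : V2 // ¬ A v}) := Sum.inl_injective
  have hg := gmap_inj hφ
  have hfa : ∀ a b, X.Adj a b → (glued X G2 A φ).Adj (Sum.inl a) (Sum.inl b) :=
    fun a b h => glued_left h
  have hga : ∀ a b, G2.Adj a b → (glued X G2 A φ).Adj (gmap A φ a) (gmap A φ b) :=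
    fun a b h => glued_right hφ h
  have hx : (Sum.inl x : VX ⊕ {v : V2 // ¬ A v}) = gmap A φ x2 := by
    rw [gmap_of (A := A) (φ := φ) (b := x2) (Or.inl rfl), hφx]
  have hy : (Sum.inl y : VX ⊕ {v : V2 // ¬ A v}) = gmap A φ y2 := by
    rw [gmap_of (A := A) (φ := φ) (b := y2) (Or.inr rfl), hφy]
  have hdis : ∀ a b, (Sum.inl a : VX ⊕ {v : V2 // ¬ A v}) = gmap A φ b →
      (a = x ∧ b = x2) ∨ (a = y ∧ b = y2) := by
    intro a b h
    obtain ⟨h3, h4⟩ := gmap_eq_inl h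
    rcases h3 with rfl | rfl
    · exact Or.inl ⟨by rw [h4, hφx], rfl⟩
    · exact Or.inr ⟨by rw [h4, hφy], rfl⟩
  have hdis' : ∀ a b, (Sum.inl a : VX ⊕ {v : V2 // ¬ A v}) = gmap A φ b →
      (a = y ∧ b = y2) ∨ (a = x ∧ b = x2) := fun a b h => (hdis a b h).symm
  have hdis2 : ∀ b a, gmap A φ b = (Sum.inl a : VX ⊕ {v : V2 // ¬ A v}) →
      (b = x2 ∧ a = x) ∨ (b = y2 ∧ a = y) := by
    intro b a h
    rcases hdis a b h.symm with ⟨h1, h3⟩ | ⟨h1, h3⟩
    · exact Or.inl ⟨h3, h1⟩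
    · exact Or.inr ⟨h3, h1⟩
  have hdis2' : ∀ b a, gmap A φ b = (Sum.inl a : VX ⊕ {v : V2 // ¬ A v}) →
      (b = y2 ∧ a = y) ∨ (b = x2 ∧ a = x) := fun b a h => (hdis2 b a h).symm
  refine ⟨?_, ?_⟩
  · -- all lengths
    intro ℓ hl1 hl2
    by_cases h13 : ℓ ≤ 13
    · obtain ⟨l, hl, hlen⟩ := hX.A ℓ hl1 h13
      exact ⟨_, hl.map hf hfa, by rw [List.length_map]; exact hlen⟩
    · by_cases h8 : ℓ ≤ M + 8
      · obtain ⟨l1, l3, e1, e3, ed, elen⟩ := hX.B
        obtain ⟨l2, e2, hlen2⟩ := h2.P0 (ℓ - 8) (by omega) (by omega)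
        obtain ⟨T, hT, hlen, -⟩ := glue2 hf hg hfa hga hx hy hdis e1 e3 ed e2
        exact ⟨T, hT, by omega⟩
      · obtain ⟨l1, l3, e1, e3, ed, elen⟩ := hX.B'
        obtain ⟨l2, e2, hlen2⟩ := h2.P0 (ℓ - 13) (by omega) (by omega)
        obtain ⟨T, hT, hlen, -⟩ := glue2 hf hg hfa hga hx hy hdis e1 e3 ed e2
        exact ⟨T, hT, by omega⟩
  · intro s t hst
    refine ⟨p + 13, le_rfl, ?_, ?_⟩
    · -- paths through an edge
      intro ℓ hl1 hl2
      rcases hst.2 with ⟨s', t', h3, rfl, rfl⟩ | ⟨s', t', h3, rfl, rfl⟩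
      · rcases hX.S s' t' h3 with
          ⟨l1, l3, e1, e3, ed, elen, eth⟩ | ⟨l1, l3, e1, e3, ed, elen, eth⟩
        · obtain ⟨l2, e2, hlen2⟩ := h2.P0 (ℓ - 13) (by omega) (by omega)
          obtain ⟨T, hT, hlen, i1, -, i3⟩ := glue2 hf hg hfa hga hx hy hdis e1 e3 ed e2
          refine ⟨T, hT, by omega, ?_⟩
          rcases eth with eth | eth
          · exact (eth.map _).mono i1
          · exact (eth.map _).mono i3
        · obtain ⟨l2, e2, hlen2⟩ := h2.P0 (ℓ - 13) (by omega) (by omega)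
          obtain ⟨T, hT, hlen, i1, -, i3⟩ :=
            glue2 hf hg hfa hga hy hx hdis' e1 e3 ed e2.reverse
          rw [List.length_reverse] at hlen
          refine ⟨T, hT, by omega, ?_⟩
          rcases eth with eth | eth
          · exact (eth.map _).mono i1
          · exact (eth.map _).mono i3
      · obtain ⟨l1, l3, e1, e3, ed, elen⟩ := hX.B'
        obtain ⟨r, hr, hP, -⟩ := h2.P1 s' t' h3
        obtain ⟨l2, e2, hlen2, eth⟩ := hP (ℓ - 13) (by omega) (by omega)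
        obtain ⟨T, hT, hlen, -, i2, -⟩ := glue2 hf hg hfa hga hx hy hdis e1 e3 ed e2
        exact ⟨T, hT, by omega, (eth.map _).mono i2⟩
    · -- cycles
      intro ℓ hl1 hl2
      rcases hst.2 with ⟨s', t', h3, rfl, rfl⟩ | ⟨s', t', h3, rfl, rfl⟩
      · obtain ⟨m, l, hl, hlen, hm, hth, hcy⟩ := hX.Cy s' t' h3
        by_cases h5 : ℓ ≤ m + 5
        · obtain ⟨l', hl', hlen'⟩ := hcy ℓ hl1 h5
          exact ⟨_, hl'.map hf hfa, by rw [List.length_map]; exact hlen'⟩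
        · obtain ⟨l2, e2, hlen2⟩ := h2.P0 (ℓ - m) (by omega) (by omega)
          rcases hth with hth | hth
          · -- `x … s t … y`
            obtain ⟨l1, l3, e1, e3, ed, elen⟩ := hl.split hth
            obtain ⟨T, hT, hlenT, -⟩ := glue2 hf hg hfa hga hx hy hdis
              e1.reverse e3.reverse (fun z hz hz' => ed z (List.mem_reverse.mp hz)
                (List.mem_reverse.mp hz')) e2
            rw [List.length_reverse, List.length_reverse] at hlenT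
            exact ⟨T, hT, by omega⟩
          · obtain ⟨l1, l3, e1, e3, ed, elen⟩ := hl.split hth
            obtain ⟨T, hT, hlenT, -⟩ := glue2 hf hg hfa hga hy hx hdis'
              e3 e1 (fun z hz hz' => ed z hz' hz) e2.reverse
            rw [List.length_reverse] at hlenT
            exact ⟨T, hT, by omega⟩
      · obtain ⟨r, hr, hP, hC⟩ := h2.P1 s' t' h3
        by_cases h5 : ℓ ≤ r + g
        · obtain ⟨l', hl', hlen'⟩ := hC ℓ hl1 h5
          exact ⟨_, hl'.map hg hga, by rw [List.length_map]; exact hlen'⟩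
        · obtain ⟨l, hl, hlen, hth⟩ := hP (ℓ - 2) (by omega) (by omega)
          obtain ⟨l2, e2, hlen2⟩ := hX.E
          rcases hth with hth | hth
          · obtain ⟨l1, l3, e1, e3, ed, elen⟩ := hl.split hth
            obtain ⟨T, hT, hlenT, -⟩ := glue2 hg hf hga hfa hx.symm hy.symm hdis2
              e1.reverse e3.reverse (fun z hz hz' => ed z (List.mem_reverse.mp hz)
                (List.mem_reverse.mp hz')) e2
            rw [List.length_reverse, List.length_reverse] at hlenT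
            exact ⟨T, hT, by omega⟩
          · obtain ⟨l1, l3, e1, e3, ed, elen⟩ := hl.split hth
            obtain ⟨T, hT, hlenT, -⟩ := glue2 hg hf hga hfa hy.symm hx.symm hdis2'
              e3 e1 (fun z hz hz' => ed z hz' hz) e2.reverse
            rw [List.length_reverse] at hlenT
            exact ⟨T, hT, by omega⟩

end Pool.Agent.Q115.EP
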