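import Pool.Agent.Q115.EPBase

namespace Pool.Agent.Q115.EP

open SimpleGraph

/-- adjacency table given by bit masks -/
def adjB (M : List ℕ) (u v : ℕ) : Bool := Nat.testBit (M.getD u 0) v

/-- the graph of a table -/
def tabG (N : ℕ) (M : List ℕ) (hsym : ∀ u v : Fin N, adjB M u v = true → adjB M v u = true)
    (hirr : ∀ u : Fin N, adjB M u u = false) : SimpleGraph (Fin N) where
  Adj u v := adjB M u v = true
  symm := ⟨fun u v h => hsym u v h⟩
  loopless := ⟨fun u h => by
    have := hirr u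
    rw [h] at this
    exact Bool.noConfusion this⟩

/-- no repetitions -/
def nodupB {N : ℕ} : List (Fin N) → Bool
  | [] => true
  | a :: l => (!(l.any fun b => decide (b = a))) && nodupB l

/-- consecutive vertices are adjacent -/
def chainB {N : ℕ} (M : List ℕ) : List (Fin N) → Bool
  | [] => true
  | [_] => true
  | a :: b :: l => adjB M a b && chainB M (b :: l)

/-- path check -/
def pB {N : ℕ} (M : List ℕ) (u v : Fin N) (l : List (Fin N)) : Bool :=
  nodupB l && chainB M l && decide (l.head? = some u) && decide (l.getLast? = some v)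

/-- the ordered pair `s, t` occurs consecutively -/
def thr2 {N : ℕ} (s t : Fin N) : List (Fin N) → Bool
  | [] => false
  | [_] => false
  | a :: b :: l => (decide (a = s) && decide (b = t)) || thr2 s t (b :: l)

/-- the edge `st` is used -/
def thB {N : ℕ} (s t : Fin N) (l : List (Fin N)) : Bool := thr2 s t l || thr2 t s l

/-- a list of paths of lengths `n, n + 1, …` -/
def manyB {N : ℕ} (chk : List (Fin N) → Bool) : ℕ → List (List (Fin N)) → Bool
  | _, [] => true
  | n, l :: L => (chk l && decide (l.length = n)) && manyB chk (n + 1) L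

/-- disjointness -/
def disjB {N : ℕ} (l l' : List (Fin N)) : Bool := l.all fun a => l'.all fun b => decide (a ≠ b)

variable {N : ℕ} {M : List ℕ}

theorem nodupB_sound (l : List (Fin N)) (h : nodupB l = true) : l.Nodup := by
  induction l with
  | nil => exact List.nodup_nil
  | cons a l ih =>
    simp only [nodupB, Bool.and_eq_true, Bool.not_eq_true', List.any_eq_false,
      decide_eq_true_eq] at h
    rw [List.nodup_cons]
    exact ⟨fun h' => h.1 a h' rfl, ih h.2⟩

theorem chainB_sound (hsym : ∀ u v : Fin N, adjB M u v = true → adjB M v u = true)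
    (hirr : ∀ u : Fin N, adjB M u u = false) (l : List (Fin N)) (h : chainB M l = true) :
    l.IsChain (tabG N M hsym hirr).Adj := by
  induction l with
  | nil => exact List.IsChain.nil
  | cons a l ih =>
    cases l with
    | nil => exact List.IsChain.singleton _
    | cons b l =>
      simp only [chainB, Bool.and_eq_true] at h
      rw [List.isChain_cons_cons]
      exact ⟨h.1, ih h.2⟩

theorem pB_sound (hsym : ∀ u v : Fin N, adjB M u v = true → adjB M v u = true)
    (hirr : ∀ u : Fin N, adjB M u u = false) {u v : Fin N} {l : List (Fin N)}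
    (h : pB M u v l = true) : Pth (tabG N M hsym hirr) u v l := by
  simp only [pB, Bool.and_eq_true, decide_eq_true_eq] at h
  exact ⟨nodupB_sound l h.1.1.1, chainB_sound hsym hirr l h.1.1.2, h.1.2, h.2⟩

theorem thr2_sound {s t : Fin N} (l : List (Fin N)) (h : thr2 s t l = true) :
    [s, t] <:+: l := by
  induction l with
  | nil => simp [thr2] at h
  | cons a l ih =>
    cases l with
    | nil => simp [thr2] at h
    | cons b l =>
      simp only [thr2, Bool.or_eq_true, Bool.and_eq_true, decide_eq_true_eq] at h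
      rcases h with ⟨rfl, rfl⟩ | h
      · exact ⟨[], l, by simp⟩
      · exact (ih h).trans (List.suffix_cons _ _).isInfix

theorem thB_sound {s t : Fin N} {l : List (Fin N)} (h : thB s t l = true) : Thru l s t := by
  simp only [thB, Bool.or_eq_true] at h
  rcases h with h | h
  · exact Or.inl (thr2_sound l h)
  · exact Or.inr (thr2_sound l h)

theorem manyB_sound {chk : List (Fin N) → Bool} (L : List (List (Fin N))) (n : ℕ)
    (h : manyB chk n L = true) (ℓ : ℕ) (h1 : n ≤ ℓ) (h2 : ℓ < n + L.length) :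
    ∃ l, chk l = true ∧ l.length = ℓ := by
  induction L generalizing n with
  | nil => simp at h2; omega
  | cons l L ih =>
    simp only [manyB, Bool.and_eq_true, decide_eq_true_eq] at h
    rcases Nat.eq_or_lt_of_le h1 with h3 | h3
    · exact ⟨l, h.1.1, by rw [h.1.2, h3]⟩
    · refine ih (n + 1) h.2 h3 ?_
      simp only [List.length_cons] at h2
      omega

theorem disjB_sound {l l' : List (Fin N)} (h : disjB l l' = true) : ∀ z ∈ l, z ∉ l' := by
  intro z hz hz'
  simp only [disjB, List.all_eq_true, decide_eq_true_eq] at h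
  exact h z hz z hz' rfl

/-! ### certificates for the four-terminal graph -/

/-- certificate for an edge: spanning pair, its type, path `x … y`, paths `s … t` -/
structure XC (N : ℕ) where
  s : Fin N
  t : Fin N
  l1 : List (Fin N)
  l3 : List (Fin N)
  tag : Bool
  l : List (Fin N)
  cyc : List (List (Fin N))

/-- check of a certificate -/
def XC.ok (M : List ℕ) (a b x y : Fin N) (e : XC N) : Bool :=
  (if e.tag then pB M a x e.l1 && pB M y b e.l3 else pB M a y e.l1 && pB M x b e.l3) &&
  disjB e.l1 e.l3 && decide (e.l1.length + e.l3.length = 15) &&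
  (thB e.s e.t e.l1 || thB e.s e.t e.l3) && pB M x y e.l && thB e.s e.t e.l &&
  decide (3 ≤ e.l.length) && manyB (pB M e.s e.t) 3 e.cyc &&
  decide (e.l.length + 2 ≤ e.cyc.length)

theorem XC.sound (hsym : ∀ u v : Fin N, adjB M u v = true → adjB M v u = true)
    (hirr : ∀ u : Fin N, adjB M u u = false) {a b x y : Fin N} (e : XC N)
    (h : e.ok M a b x y = true) :
    ((∃ l1 l3, Pth (tabG N M hsym hirr) a x l1 ∧ Pth (tabG N M hsym hirr) y b l3 ∧
      (∀ z ∈ l1, z ∉ l3) ∧ l1.length + l3.length = 15 ∧ (Thru l1 e.s e.t ∨ Thru l3 e.s e.t)) ∨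
    (∃ l1 l3, Pth (tabG N M hsym hirr) a y l1 ∧ Pth (tabG N M hsym hirr) x b l3 ∧
      (∀ z ∈ l1, z ∉ l3) ∧ l1.length + l3.length = 15 ∧ (Thru l1 e.s e.t ∨ Thru l3 e.s e.t))) ∧
    (∃ m l, Pth (tabG N M hsym hirr) x y l ∧ l.length = m + 1 ∧ 2 ≤ m ∧ Thru l e.s e.t ∧
      ∀ ℓ, 3 ≤ ℓ → ℓ ≤ m + 5 → ∃ l', Pth (tabG N M hsym hirr) e.s e.t l' ∧ l'.length = ℓ) := by
  simp only [XC.ok, Bool.and_eq_true, Bool.or_eq_true, decide_eq_true_eq] at h
  obtain ⟨⟨⟨⟨⟨⟨⟨⟨h1, h2⟩, h3⟩, h4⟩, h5⟩, h6⟩, h7⟩, h8⟩, h9⟩ := h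
  have hth : Thru e.l1 e.s e.t ∨ Thru e.l3 e.s e.t := by
    rcases h4 with h4 | h4
    · exact Or.inl (thB_sound h4)
    · exact Or.inr (thB_sound h4)
  refine ⟨?_, ?_⟩
  · cases htag : e.tag with
    | true =>
      rw [htag] at h1
      simp only [if_true, Bool.and_eq_true] at h1
      exact Or.inl ⟨e.l1, e.l3, pB_sound hsym hirr h1.1, pB_sound hsym hirr h1.2,
        disjB_sound h2, h3, hth⟩
    | false =>
      rw [htag] at h1
      simp only [Bool.false_eq_true, if_false, Bool.and_eq_true] at h1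
      exact Or.inr ⟨e.l1, e.l3, pB_sound hsym hirr h1.1, pB_sound hsym hirr h1.2,
        disjB_sound h2, h3, hth⟩
  · refine ⟨e.l.length - 1, e.l, pB_sound hsym hirr h5, by omega, by omega, thB_sound h6, ?_⟩
    intro ℓ hl1 hl2
    obtain ⟨l', hl', hlen⟩ := manyB_sound e.cyc 3 h8 ℓ hl1 (by omega)
    exact ⟨l', pB_sound hsym hirr hl', hlen⟩

theorem xfacts_of (hsym : ∀ u v : Fin N, adjB M u v = true → adjB M v u = true)
    (hirr : ∀ u : Fin N, adjB M u u = false) {a b x y : Fin N} (hne : x ≠ y)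
    (LA : List (List (Fin N))) (hA : manyB (pB M a b) 3 LA = true) (hAl : LA.length = 12)
    (b1 b3 : List (Fin N)) (hb1 : pB M a x b1 = true) (hb3 : pB M y b b3 = true)
    (hbd : disjB b1 b3 = true) (hbl : b1.length + b3.length = 10)
    (c1 c3 : List (Fin N)) (hc1 : pB M a x c1 = true) (hc3 : pB M y b c3 = true)
    (hcd : disjB c1 c3 = true) (hcl : c1.length + c3.length = 15)
    (d : List (Fin N)) (hd : pB M x y d = true) (hdl : d.length = 3)
    (cert : List (XC N)) (hcert : ∀ e ∈ cert, e.ok M a b x y = true)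
    (hall : ∀ s t : Fin N, s < t → adjB M s t = true →
      (cert.any fun e => decide (e.s = s) && decide (e.t = t)) = true) :
    XFacts (tabG N M hsym hirr) a b x y := by
  have key : ∀ s t : Fin N, s < t → adjB M s t = true → ∃ e ∈ cert, e.s = s ∧ e.t = t := by
    intro s t hst h
    have := hall s t hst h
    rw [List.any_eq_true] at this
    obtain ⟨e, he, he'⟩ := this
    simp only [Bool.and_eq_true, decide_eq_true_eq] at he'
    exact ⟨e, he, he'⟩
  refine ⟨hne, ?_, ?_, ?_, ?_, ?_, ?_⟩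
  · intro ℓ h1 h2
    obtain ⟨l, hl, hlen⟩ := manyB_sound LA 3 hA (ℓ + 1) (by omega) (by omega)
    exact ⟨l, pB_sound hsym hirr hl, hlen⟩
  · exact ⟨b1, b3, pB_sound hsym hirr hb1, pB_sound hsym hirr hb3, disjB_sound hbd, hbl⟩
  · exact ⟨c1, c3, pB_sound hsym hirr hc1, pB_sound hsym hirr hc3, disjB_sound hcd, hcl⟩
  · intro s t hst
    rcases lt_trichotomy s t with h | h | h
    · obtain ⟨e, he, rfl, rfl⟩ := key s t h hst
      exact (e.sound hsym hirr (hcert e he)).1
    · subst h
      exact absurd hst ((tabG N M hsym hirr).loopless.irrefl s)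
    · obtain ⟨e, he, rfl, rfl⟩ := key t s h (hsym _ _ hst)
      rcases (e.sound hsym hirr (hcert e he)).1 with
        ⟨l1, l3, h1, h2, h3, h4, h5⟩ | ⟨l1, l3, h1, h2, h3, h4, h5⟩
      · exact Or.inl ⟨l1, l3, h1, h2, h3, h4, h5.imp Thru.symm Thru.symm⟩
      · exact Or.inr ⟨l1, l3, h1, h2, h3, h4, h5.imp Thru.symm Thru.symm⟩
  · intro s t hst
    rcases lt_trichotomy s t with h | h | h
    · obtain ⟨e, he, rfl, rfl⟩ := key s t h hst
      exact (e.sound hsym hirr (hcert e he)).2
    · subst h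
      exact absurd hst ((tabG N M hsym hirr).loopless.irrefl s)
    · obtain ⟨e, he, rfl, rfl⟩ := key t s h (hsym _ _ hst)
      obtain ⟨m, l, h1, h2, h3, h4, h5⟩ := (e.sound hsym hirr (hcert e he)).2
      refine ⟨m, l, h1, h2, h3, h4.symm, ?_⟩
      intro ℓ hl1 hl2
      obtain ⟨l', hl', hlen⟩ := h5 ℓ hl1 hl2
      exact ⟨l'.reverse, hl'.reverse, by rw [List.length_reverse]; exact hlen⟩
  · exact ⟨d, pB_sound hsym hirr hd, hdl⟩

/-! ### certificates for the base bridge -/

/-- certificate for an edge of the base: paths `a … b` through the edge of all lengths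
`r, …, N`, paths `s … t` -/
structure FC (N : ℕ) where
  s : Fin N
  t : Fin N
  r : ℕ
  thr : List (List (Fin N))
  cyc : List (List (Fin N))

/-- check of a certificate -/
def FC.ok (M : List ℕ) (a b : Fin N) (K p g : ℕ) (e : FC N) : Bool :=
  decide (e.r ≤ p) &&
  manyB (fun l => pB M a b l && thB e.s e.t l) (e.r + 1) e.thr &&
  decide (K + 1 ≤ e.r + e.thr.length) &&
  manyB (pB M e.s e.t) 3 e.cyc && decide (e.r + g ≤ e.cyc.length + 2)

theorem bridge_of (hsym : ∀ u v : Fin N, adjB M u v = true → adjB M v u = true)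
    (hirr : ∀ u : Fin N, adjB M u u = false) {a b : Fin N} (K q p g : ℕ)
    (L0 : List (List (Fin N))) (h0 : manyB (pB M a b) (q + 1) L0 = true)
    (h0l : K + 1 ≤ q + L0.length)
    (cert : List (FC N)) (hcert : ∀ e ∈ cert, e.ok M a b K p g = true)
    (hall : ∀ s t : Fin N, s < t → adjB M s t = true →
      (cert.any fun e => decide (e.s = s) && decide (e.t = t)) = true) :
    Bridge (tabG N M hsym hirr) a b K q p g := by
  have key : ∀ s t : Fin N, s < t → adjB M s t = true → ∃ e ∈ cert, e.s = s ∧ e.t = t := by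
    intro s t hst h
    have := hall s t hst h
    rw [List.any_eq_true] at this
    obtain ⟨e, he, he'⟩ := this
    simp only [Bool.and_eq_true, decide_eq_true_eq] at he'
    exact ⟨e, he, he'⟩
  have hP1 : ∀ s t : Fin N, s < t → adjB M s t = true → ∃ r, r ≤ p ∧
      (∀ ℓ, r ≤ ℓ → ℓ ≤ K → ∃ l, Pth (tabG N M hsym hirr) a b l ∧ l.length = ℓ + 1 ∧
        Thru l s t) ∧
      (∀ ℓ, 3 ≤ ℓ → ℓ ≤ r + g → ∃ l, Pth (tabG N M hsym hirr) s t l ∧ l.length = ℓ) := by
    intro s t hlt hst
    obtain ⟨e, he, rfl, rfl⟩ := key s t hlt hst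
    have h := hcert e he
    simp only [FC.ok, Bool.and_eq_true, decide_eq_true_eq] at h
    obtain ⟨⟨⟨⟨h1, h2⟩, h3⟩, h4⟩, h5⟩ := h
    refine ⟨e.r, h1, ?_, ?_⟩
    · intro ℓ hl1 hl2
      obtain ⟨l, hl, hlen⟩ := manyB_sound e.thr (e.r + 1) h2 (ℓ + 1) (by omega) (by omega)
      simp only [Bool.and_eq_true] at hl
      exact ⟨l, pB_sound hsym hirr hl.1, hlen, thB_sound hl.2⟩
    · intro ℓ hl1 hl2
      obtain ⟨l, hl, hlen⟩ := manyB_sound e.cyc 3 h4 ℓ hl1 (by omega)
      exact ⟨l, pB_sound hsym hirr hl, hlen⟩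
  refine ⟨?_, ?_⟩
  · intro ℓ h1 h2
    obtain ⟨l, hl, hlen⟩ := manyB_sound L0 (q + 1) h0 (ℓ + 1) (by omega) (by omega)
    exact ⟨l, pB_sound hsym hirr hl, hlen⟩
  · intro s t hst
    rcases lt_trichotomy s t with h | h | h
    · exact hP1 s t h hst
    · subst h
      exact absurd hst ((tabG N M hsym hirr).loopless.irrefl s)
    · obtain ⟨r, hr, h1, h2⟩ := hP1 t s h (hsym _ _ hst)
      refine ⟨r, hr, ?_, ?_⟩
      · intro ℓ hl1 hl2
        obtain ⟨l, hl, hlen, hth⟩ := h1 ℓ hl1 hl2
        exact ⟨l, hl, hlen, hth.symm⟩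
      · intro ℓ hl1 hl2
        obtain ⟨l, hl, hlen⟩ := h2 ℓ hl1 hl2
        exact ⟨l.reverse, hl.reverse, by rw [List.length_reverse]; exact hlen⟩

/-- the number of edges of a table graph -/
theorem tab_edges (hsym : ∀ u v : Fin N, adjB M u v = true → adjB M v u = true)
    (hirr : ∀ u : Fin N, adjB M u u = false) :
    (tabG N M hsym hirr).edgeSet.ncard ≤
      (Finset.univ.filter fun p : Fin N × Fin N => p.1 < p.2 ∧ adjB M p.1 p.2 = true).card := by
  classical
  have hsub : (tabG N M hsym hirr).edgeSet ⊆ (fun p : Fin N × Fin N => s(p.1, p.2)) ''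
      ((Finset.univ.filter fun p : Fin N × Fin N => p.1 < p.2 ∧ adjB M p.1 p.2 = true) :
        Set (Fin N × Fin N)) := by
    intro e he
    induction e using Sym2.ind with
    | _ u v =>
      rw [mem_edgeSet] at he
      rcases lt_trichotomy u v with h | h | h
      · exact ⟨(u, v), by simpa using ⟨h, he⟩, rfl⟩
      · subst h
        exact absurd he ((tabG N M hsym hirr).loopless.irrefl u)
      · exact ⟨(v, u), by simpa using ⟨h, hsym _ _ he⟩, Sym2.eq_swap⟩
  calc _ ≤ _ := Set.ncard_le_ncard hsub (Set.toFinite _)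
    _ ≤ _ := Set.ncard_image_le (Set.toFinite _)
    _ = _ := Set.ncard_coe_finset _

end Pool.Agent.Q115.EP
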