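import Pool.Agent.Q115.EPTable

namespace Pool.Agent.Q115.EP

open SimpleGraph

/-- existence of a bridge with given parameters -/
def Good (N D q p g : ℕ) : Prop :=
  ∃ (V : Type) (_ : Fintype V) (_ : DecidableEq V) (G : SimpleGraph V) (a b : V),
    a ≠ b ∧ Fintype.card V = N + 1 ∧ G.edgeSet.ncard + D ≤ 2 * N ∧ Bridge G a b N q p g

theorem good_series {N1 D1 q1 p1 g1 N2 D2 q2 p2 g2 p g : ℕ} (h1 : Good N1 D1 q1 p1 g1)
    (h2 : Good N2 D2 q2 p2 g2) (hq1 : q1 ≤ N1) (hq2 : q2 ≤ N2) (hp1 : p1 ≤ N1)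
    (hp2 : p2 ≤ N2) (hpa : p1 + q2 ≤ p) (hpb : p2 + q1 ≤ p) (hg1 : g + q2 ≤ g1)
    (hg2 : g + q1 ≤ g2) : Good (N1 + N2) (D1 + D2) (q1 + q2) p g := by
  obtain ⟨V1, f1, d1, G1, a1, b1, n1, c1, e1, B1⟩ := h1
  obtain ⟨V2, f2, d2, G2, a2, b2, n2, c2, e2, B2⟩ := h2
  have hB := series B1 B2 hq1 hq2 hp1 hp2 hpa hpb hg1 hg2
  refine ⟨_, inferInstance, inferInstance, _, _, _, ?_, ?_, ?_, hB⟩
  · intro h
    obtain ⟨h3, -⟩ := gmap_eq_inl (A := fun v => v = a2) (φ := fun _ => b1) h
    exact n2 h3.symm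
  · rw [Fintype.card_sum, c1, Fintype.card_subtype_compl, Fintype.card_subtype_eq, c2]
    omega
  · have := glued_edges (G1 := G1) (G2 := G2) (A := fun v => v = a2) (φ := fun _ => b1)
    omega

theorem good_closure {M D p g g' : ℕ} (h2 : Good M (D + 1) 6 p g) (hM : 10 ≤ M)
    (hp6 : 6 ≤ p) (hg : 1 ≤ g) (hg' : g' + p + 11 ≤ M) : Good (M + 13) D 2 (p + 13) g' := by
  obtain ⟨V2, f2, d2, G2, x2, y2, n2, c2, e2, B2⟩ := h2
  have hB := closure xfactsX n2 B2 hM hp6 hg hg'
  refine ⟨_, inferInstance, inferInstance, _, _, _, ?_, ?_, ?_, hB⟩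
  · intro h
    have := Sum.inl.inj h
    exact absurd this (by decide)
  · rw [Fintype.card_sum, Fintype.card_fin, Fintype.card_subtype_compl]
    have : Fintype.card {v : V2 // v = x2 ∨ v = y2} = 2 := by
      rw [Fintype.card_subtype]
      have : (Finset.univ.filter fun v : V2 => v = x2 ∨ v = y2) = {x2, y2} := by
        ext v; simp
      rw [this, Finset.card_pair n2]
    rw [this, c2]
    omega
  · have := glued_edges (G1 := X15) (G2 := G2) (A := fun v => v = x2 ∨ v = y2)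
      (φ := fun v => if v = x2 then (6 : Fin 15) else 7)
    have := edgesX
    omega

theorem good_base : Good 13 1 3 6 5 :=
  ⟨Fin 14, inferInstance, inferInstance, F14, 0, 13, by decide, by simp, by
    have := edgesF
    omega, bridgeF⟩

theorem good_one : Good 39 1 2 22 5 := by
  have h1 : Good (13 + 13) (1 + 1) (3 + 3) 9 2 := good_series good_base good_base
    (by norm_num) (by norm_num) (by norm_num) (by norm_num) (by norm_num) (by norm_num)
    (by norm_num) (by norm_num)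
  exact good_closure h1 (by norm_num) (by norm_num) (by norm_num) (by norm_num)

theorem good_step {N D p : ℕ} (h : Good N (D + 1) 2 p 5) (hp : 2 ≤ p) (hpN : p ≤ N)
    (hN : 10 ≤ N) (h3 : p + 20 ≤ 3 * N) : Good (3 * N + 13) (3 * D + 2) 2 (p + 17) 5 := by
  have h1 : Good (N + N) ((D + 1) + (D + 1)) (2 + 2) (p + 2) 3 := good_series h h
    (by omega) (by omega) hpN hpN (by omega) (by omega) (by omega) (by omega)
  have h2 : Good (N + N + N) ((D + 1) + (D + 1) + (D + 1)) (2 + 2 + 2) (p + 4) 1 :=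
    good_series h1 h (by omega) (by omega) (by omega) hpN (by omega) (by omega) (by omega)
      (by omega)
  have h4 : (D + 1) + (D + 1) + (D + 1) = (3 * D + 2) + 1 := by ring
  have h5 : N + N + N = 3 * N := by ring
  rw [h4, h5] at h2
  exact good_closure h2 (by omega) (by omega) (by omega) (by omega)

theorem good_all (j : ℕ) : ∃ N D p, Good N (D + 1) 2 p 5 ∧ 2 ≤ p ∧ p ≤ N ∧ 10 ≤ N ∧
    p + 20 ≤ 3 * N ∧ j ≤ N ∧ N + 52 = 91 * (D + 1) := by
  induction j with
  | zero => exact ⟨39, 0, 22, good_one, by norm_num, by norm_num, by norm_num, by norm_num,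
      by norm_num, by norm_num⟩
  | succ j ih =>
    obtain ⟨N, D, p, h, h1, h2, h3, h4, h5, h6⟩ := ih
    refine ⟨3 * N + 13, 3 * D + 1, p + 17, ?_, by omega, by omega, by omega, by omega,
      by omega, by omega⟩
    exact good_step h h1 h2 h3 h4

/-! ### from bridges to edge-pancyclic graphs -/

variable {V : Type}

theorem Pth.mono {G G' : SimpleGraph V} (hle : G ≤ G') {u v : V} {l : List V}
    (h : Pth G u v l) : Pth G' u v l :=
  ⟨h.1, h.2.1.imp fun _ _ hab => hle hab, h.2.2.1, h.2.2.2⟩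

theorem Pth.append {G : SimpleGraph V} {s a b t : V} {m1 m2 : List V} (h1 : Pth G s a m1)
    (h2 : Pth G b t m2) (hd : ∀ z ∈ m1, z ∉ m2) (hab : G.Adj a b) :
    Pth G s t (m1 ++ m2) := by
  obtain ⟨k1, rfl⟩ := h1.snoc
  obtain ⟨k2, rfl⟩ := h2.cons
  refine ⟨?_, ?_, ?_, ?_⟩
  · rw [List.nodup_append]
    exact ⟨h1.1, h2.1, fun a ha b hb hab => hd a ha (hab ▸ hb)⟩
  · rw [List.isChain_append]
    refine ⟨h1.2.1, h2.2.1, ?_⟩
    intro x hx y hy
    rw [h1.2.2.2, Option.mem_def, Option.some.injEq] at hx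
    rw [List.head?_cons, Option.mem_def, Option.some.injEq] at hy
    subst hx; subst hy
    exact hab
  · rw [List.head?_append, h1.2.2.1]; rfl
  · rw [List.getLast?_append, h2.2.2.2]; rfl

/-- list form of edge-pancyclicity -/
def LP (G : SimpleGraph V) (n : ℕ) : Prop :=
  ∀ s t, G.Adj s t → ∀ ℓ, 3 ≤ ℓ → ℓ ≤ n → ∃ l, Pth G s t l ∧ l.length = ℓ

theorem closeUp {G : SimpleGraph V} {a b : V} (hab : a ≠ b) {N p : ℕ}
    (h : Bridge G a b N 2 p 5) : LP (G ⊔ edge a b) (N + 1) := by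
  have hle : G ≤ G ⊔ edge a b := le_sup_left
  have hadj : (G ⊔ edge a b).Adj a b := by
    rw [sup_adj, edge_adj]
    exact Or.inr ⟨Or.inl ⟨rfl, rfl⟩, hab⟩
  intro s t hst ℓ h3 hn
  by_cases hG : G.Adj s t
  · obtain ⟨r, -, hP, hC⟩ := h.P1 s t hG
    by_cases hr : ℓ ≤ r + 5
    · obtain ⟨l, hl, hlen⟩ := hC ℓ h3 hr
      exact ⟨l, hl.mono hle, hlen⟩
    · obtain ⟨l, hl, hlen, hth⟩ := hP (ℓ - 1) (by omega) (by omega)
      rcases hth with hth | hth
      · obtain ⟨l1, l3, e1, e3, ed, elen⟩ := hl.split hth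
        refine ⟨l1.reverse ++ l3.reverse, Pth.append (e1.reverse.mono hle)
          (e3.reverse.mono hle) (fun z hz hz' => ed z (List.mem_reverse.mp hz)
            (List.mem_reverse.mp hz')) hadj, ?_⟩
        rw [List.length_append, List.length_reverse, List.length_reverse]
        omega
      · obtain ⟨l1, l3, e1, e3, ed, elen⟩ := hl.split hth
        refine ⟨l3 ++ l1, Pth.append (e3.mono hle) (e1.mono hle)
          (fun z hz hz' => ed z hz' hz) hadj.symm, ?_⟩
        rw [List.length_append]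
        omega
  · obtain ⟨l, hl, hlen⟩ := h.P0 (ℓ - 1) (by omega) (by omega)
    rw [sup_adj, edge_adj] at hst
    rcases hst with hst | ⟨⟨rfl, rfl⟩ | ⟨rfl, rfl⟩, -⟩
    · exact absurd hst hG
    · exact ⟨l, hl.mono hle, by omega⟩
    · exact ⟨l.reverse, hl.reverse.mono hle, by rw [List.length_reverse]; omega⟩

/-- a walk from a list -/
theorem exists_walk {G : SimpleGraph V} (l : List V) : ∀ (s t : V),
    (s :: l).IsChain G.Adj → (s :: l).getLast? = some t →
    ∃ w : G.Walk s t, w.support = s :: l := by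
  induction l with
  | nil =>
    intro s t _ h
    simp only [List.getLast?_singleton, Option.some.injEq] at h
    subst h
    exact ⟨Walk.nil, rfl⟩
  | cons b l ih =>
    intro s t hc h
    rw [List.isChain_cons_cons] at hc
    rw [List.getLast?_cons_cons] at h
    obtain ⟨w, hw⟩ := ih b t hc.2 h
    exact ⟨Walk.cons hc.1 w, by rw [Walk.support_cons, hw]⟩

theorem cycle_of_pth {G : SimpleGraph V} {s t : V} (hst : G.Adj s t) {l : List V}
    (hl : Pth G s t l) (h3 : 3 ≤ l.length) :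
    ∃ w : G.Walk t t, w.IsCycle ∧ w.length = l.length ∧ s(s, t) ∈ w.edges := by
  obtain ⟨k, rfl⟩ := hl.cons
  obtain ⟨p, hp⟩ := exists_walk k s t hl.2.1 hl.2.2.2
  have hpath : p.IsPath := by
    rw [Walk.isPath_def, hp]
    exact hl.1
  have hlen : p.length + 1 = (s :: k).length := by
    rw [← hp, Walk.length_support]
  refine ⟨Walk.cons hst.symm p, ?_, ?_, ?_⟩
  · rw [Walk.cons_isCycle_iff]
    refine ⟨hpath, ?_⟩
    intro hmem
    cases p with
    | nil => simp at hmem
    | cons h q =>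
      rw [Walk.cons_isPath_iff] at hpath
      rw [Walk.edges_cons, List.mem_cons] at hmem
      rcases hmem with hmem | hmem
      · rw [Sym2.eq_iff] at hmem
        rcases hmem with ⟨h1, -⟩ | ⟨h1, -⟩
        · exact hst.ne h1.symm
        · subst h1
          have hq : q = Walk.nil := by
            have := hpath.1
            rwa [Walk.isPath_iff_nil, ← Walk.eq_nil_iff_nil] at this
          subst hq
          simp only [Walk.length_cons, Walk.length_nil] at hlen
          omega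
      · exact hpath.2 (Walk.snd_mem_support_of_mem_edges _ hmem)
  · rw [Walk.length_cons]
    omega
  · rw [Walk.edges_cons, List.mem_cons]
    exact Or.inl Sym2.eq_swap

/-- `G` is edge-pancyclic: every edge lies on a cycle of every length `3, …, n`. -/
def EdgePancyclic {n : ℕ} (G : SimpleGraph (Fin n)) : Prop :=
  ∀ e ∈ G.edgeSet, ∀ k, 3 ≤ k → k ≤ n →
    ∃ (v : Fin n) (w : G.Walk v v), w.IsCycle ∧ w.length = k ∧ e ∈ w.edges

theorem edgePancyclic_of {n : ℕ} {G : SimpleGraph (Fin n)} (h : LP G n) :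
    EdgePancyclic G := by
  intro e he k h3 hk
  induction e using Sym2.ind with
  | _ s t =>
    rw [mem_edgeSet] at he
    obtain ⟨l, hl, hlen⟩ := h s t he k h3 hk
    obtain ⟨w, hw, hwl, hwe⟩ := cycle_of_pth he hl (by omega)
    exact ⟨t, w, hw, by omega, hwe⟩

/-- the sparse edge-pancyclic graphs -/
theorem sparse (n₀ : ℕ) : ∃ n, n₀ ≤ n ∧ ∃ G : SimpleGraph (Fin n), EdgePancyclic G ∧
    G.edgeSet.Nonempty ∧ 91 * G.edgeSet.ncard + 51 + n + 91 ≤ 182 * n := by
  classical
  obtain ⟨N, D, p, ⟨V, fV, dV, G, a, b, hab, hc, he, hB⟩, -, -, hN, -, hj, h6⟩ := good_all n₀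
  refine ⟨N + 1, by omega, ?_⟩
  have hLP := closeUp hab hB
  let e : V ≃ Fin (N + 1) := Fintype.equivFinOfCardEq hc
  let H := G ⊔ edge a b
  let G' : SimpleGraph (Fin (N + 1)) := H.map e.toEmbedding
  let i : H ≃g G' := SimpleGraph.Iso.map e H
  have hcard : G'.edgeSet.ncard = H.edgeSet.ncard := by
    have : G'.edgeSet = (e.toEmbedding.sym2Map) '' H.edgeSet := SimpleGraph.edgeSet_map _ _
    rw [this, Set.ncard_image_of_injective _ e.toEmbedding.sym2Map.injective]
  have hH : H.edgeSet.ncard ≤ G.edgeSet.ncard + 1 := by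
    have hsub : H.edgeSet ⊆ G.edgeSet ∪ {s(a, b)} := by
      intro f hf
      induction f using Sym2.ind with
      | _ x y =>
        rw [mem_edgeSet, sup_adj, edge_adj] at hf
        rcases hf with hf | ⟨⟨rfl, rfl⟩ | ⟨rfl, rfl⟩, -⟩
        · exact Or.inl hf
        · exact Or.inr rfl
        · exact Or.inr Sym2.eq_swap
    calc H.edgeSet.ncard ≤ (G.edgeSet ∪ {s(a, b)}).ncard :=
          Set.ncard_le_ncard hsub (Set.toFinite _)
      _ ≤ G.edgeSet.ncard + ({s(a, b)} : Set (Sym2 V)).ncard := Set.ncard_union_le _ _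
      _ = G.edgeSet.ncard + 1 := by rw [Set.ncard_singleton]
  refine ⟨G', ?_, ?_, ?_⟩
  · apply edgePancyclic_of
    intro s t hst ℓ h3 hn
    obtain ⟨s, rfl⟩ := i.surjective s
    obtain ⟨t, rfl⟩ := i.surjective t
    have hst' : H.Adj s t := i.map_adj_iff.mp hst
    obtain ⟨l, hl, hlen⟩ := hLP s t hst' ℓ h3 hn
    exact ⟨l.map i, hl.map i.injective (fun a b h => i.map_adj_iff.mpr h), by
      rw [List.length_map]; exact hlen⟩
  · refine ⟨s(i a, i b), ?_⟩
    rw [mem_edgeSet, i.map_adj_iff]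
    show (G ⊔ edge a b).Adj a b
    rw [sup_adj, edge_adj]
    exact Or.inr ⟨Or.inl ⟨rfl, rfl⟩, hab⟩
  · rw [hcard]
    omega

end Pool.Agent.Q115.EP
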