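import Pool.Agent.Q115.EPCheck

namespace Pool.Agent.Q115.EP

open SimpleGraph

/-- adjacency masks of the four-terminal graph: two paths on seven vertices, a common hub and
one chord -/
def MX : List ℕ := [16386, 16389, 16394, 16404, 16424, 16720, 16416, 16640, 17056, 17664, 18944, 21504, 26624, 20480, 16383]

/-- certificates for the edges of the four-terminal graph -/
def certX : List (XC 15) := [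
  { s := 0, t := 1, l1 := [0, 1, 2, 3, 4, 5, 6], l3 := [7, 8, 9, 10, 11, 12, 14, 13], tag := true, l := [6, 5, 4, 3, 2, 1, 0, 14, 7],
    cyc := [[0, 14, 1], [0, 14, 2, 1], [0, 14, 3, 2, 1], [0, 14, 4, 3, 2, 1], [0, 14, 5, 4, 3, 2, 1], [0, 14, 8, 5, 4, 3, 2, 1], [0, 14, 9, 8, 5, 4, 3, 2, 1], [0, 14, 10, 9, 8, 5, 4, 3, 2, 1], [0, 14, 11, 10, 9, 8, 5, 4, 3, 2, 1], [0, 14, 12, 11, 10, 9, 8, 5, 4, 3, 2, 1], [0, 14, 13, 12, 11, 10, 9, 8, 5, 4, 3, 2, 1]] },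
  { s := 0, t := 14, l1 := [0, 14, 1, 2, 3, 4, 5, 6], l3 := [7, 8, 9, 10, 11, 12, 13], tag := true, l := [6, 5, 4, 3, 2, 1, 0, 14, 7],
    cyc := [[0, 1, 14], [0, 1, 2, 14], [0, 1, 2, 3, 14], [0, 1, 2, 3, 4, 14], [0, 1, 2, 3, 4, 5, 14], [0, 1, 2, 3, 4, 5, 8, 14], [0, 1, 2, 3, 4, 5, 8, 9, 14], [0, 1, 2, 3, 4, 5, 8, 9, 10, 14], [0, 1, 2, 3, 4, 5, 8, 9, 10, 11, 14], [0, 1, 2, 3, 4, 5, 8, 9, 10, 11, 12, 14], [0, 1, 2, 3, 4, 5, 8, 9, 10, 11, 12, 13, 14]] },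
  { s := 1, t := 2, l1 := [0, 1, 2, 3, 4, 5, 6], l3 := [7, 8, 9, 10, 11, 12, 14, 13], tag := true, l := [6, 5, 4, 3, 2, 1, 14, 7],
    cyc := [[1, 14, 2], [1, 14, 3, 2], [1, 14, 4, 3, 2], [1, 14, 5, 4, 3, 2], [1, 14, 8, 5, 4, 3, 2], [1, 14, 9, 8, 5, 4, 3, 2], [1, 14, 10, 9, 8, 5, 4, 3, 2], [1, 14, 11, 10, 9, 8, 5, 4, 3, 2], [1, 14, 12, 11, 10, 9, 8, 5, 4, 3, 2], [1, 14, 13, 12, 11, 10, 9, 8, 5, 4, 3, 2]] },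
  { s := 1, t := 14, l1 := [0, 1, 14, 2, 3, 4, 5, 6], l3 := [7, 8, 9, 10, 11, 12, 13], tag := true, l := [6, 5, 4, 3, 2, 1, 14, 7],
    cyc := [[1, 2, 14], [1, 2, 3, 14], [1, 2, 3, 4, 14], [1, 2, 3, 4, 5, 14], [1, 2, 3, 4, 5, 8, 14], [1, 2, 3, 4, 5, 8, 9, 14], [1, 2, 3, 4, 5, 8, 9, 10, 14], [1, 2, 3, 4, 5, 8, 9, 10, 11, 14], [1, 2, 3, 4, 5, 8, 9, 10, 11, 12, 14], [1, 2, 3, 4, 5, 8, 9, 10, 11, 12, 13, 14]] },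
  { s := 2, t := 3, l1 := [0, 1, 2, 3, 4, 5, 6], l3 := [7, 8, 9, 10, 11, 12, 14, 13], tag := true, l := [6, 5, 4, 3, 2, 14, 7],
    cyc := [[2, 14, 3], [2, 14, 4, 3], [2, 14, 5, 4, 3], [2, 14, 8, 5, 4, 3], [2, 14, 9, 8, 5, 4, 3], [2, 14, 10, 9, 8, 5, 4, 3], [2, 14, 11, 10, 9, 8, 5, 4, 3], [2, 14, 12, 11, 10, 9, 8, 5, 4, 3], [2, 14, 13, 12, 11, 10, 9, 8, 5, 4, 3]] },
  { s := 2, t := 14, l1 := [0, 1, 2, 14, 3, 4, 5, 6], l3 := [7, 8, 9, 10, 11, 12, 13], tag := true, l := [6, 5, 4, 3, 2, 14, 7],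
    cyc := [[2, 3, 14], [2, 3, 4, 14], [2, 3, 4, 5, 14], [2, 3, 4, 5, 8, 14], [2, 3, 4, 5, 8, 9, 14], [2, 3, 4, 5, 8, 9, 10, 14], [2, 3, 4, 5, 8, 9, 10, 11, 14], [2, 3, 4, 5, 8, 9, 10, 11, 12, 14], [2, 3, 4, 5, 8, 9, 10, 11, 12, 13, 14]] },
  { s := 3, t := 4, l1 := [0, 1, 2, 3, 4, 5, 6], l3 := [7, 8, 9, 10, 11, 12, 14, 13], tag := true, l := [6, 5, 4, 3, 14, 7],
    cyc := [[3, 14, 4], [3, 14, 5, 4], [3, 14, 8, 5, 4], [3, 14, 9, 8, 5, 4], [3, 14, 10, 9, 8, 5, 4], [3, 14, 11, 10, 9, 8, 5, 4], [3, 14, 12, 11, 10, 9, 8, 5, 4], [3, 14, 13, 12, 11, 10, 9, 8, 5, 4]] },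
  { s := 3, t := 14, l1 := [0, 1, 2, 3, 14, 4, 5, 6], l3 := [7, 8, 9, 10, 11, 12, 13], tag := true, l := [6, 5, 4, 3, 14, 7],
    cyc := [[3, 4, 14], [3, 4, 5, 14], [3, 4, 5, 8, 14], [3, 4, 5, 8, 9, 14], [3, 4, 5, 8, 9, 10, 14], [3, 4, 5, 8, 9, 10, 11, 14], [3, 4, 5, 8, 9, 10, 11, 12, 14], [3, 4, 5, 8, 9, 10, 11, 12, 13, 14]] },
  { s := 4, t := 5, l1 := [0, 1, 2, 3, 4, 5, 6], l3 := [7, 8, 9, 10, 11, 12, 14, 13], tag := true, l := [6, 5, 4, 14, 7],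
    cyc := [[4, 14, 5], [4, 14, 8, 5], [4, 14, 9, 8, 5], [4, 14, 10, 9, 8, 5], [4, 14, 11, 10, 9, 8, 5], [4, 14, 12, 11, 10, 9, 8, 5], [4, 14, 13, 12, 11, 10, 9, 8, 5]] },
  { s := 4, t := 14, l1 := [0, 1, 2, 3, 4, 14, 5, 6], l3 := [7, 8, 9, 10, 11, 12, 13], tag := true, l := [6, 5, 4, 14, 7],
    cyc := [[4, 5, 14], [4, 5, 8, 14], [4, 5, 8, 9, 14], [4, 5, 8, 9, 10, 14], [4, 5, 8, 9, 10, 11, 14], [4, 5, 8, 9, 10, 11, 12, 14], [4, 5, 8, 9, 10, 11, 12, 13, 14]] },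
  { s := 5, t := 6, l1 := [0, 1, 2, 3, 4, 5, 6], l3 := [7, 8, 9, 10, 11, 12, 14, 13], tag := true, l := [6, 5, 8, 7],
    cyc := [[5, 14, 6], [5, 8, 14, 6], [5, 8, 9, 14, 6], [5, 8, 9, 10, 14, 6], [5, 8, 9, 10, 11, 14, 6], [5, 8, 9, 10, 11, 12, 14, 6]] },
  { s := 5, t := 8, l1 := [0, 1, 2, 3, 4, 5, 8, 7], l3 := [6, 14, 9, 10, 11, 12, 13], tag := false, l := [6, 5, 8, 7],
    cyc := [[5, 14, 8], [5, 14, 9, 8], [5, 14, 10, 9, 8], [5, 14, 11, 10, 9, 8], [5, 14, 12, 11, 10, 9, 8], [5, 14, 13, 12, 11, 10, 9, 8]] },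
  { s := 5, t := 14, l1 := [0, 1, 2, 3, 4, 5, 14, 6], l3 := [7, 8, 9, 10, 11, 12, 13], tag := true, l := [6, 5, 14, 7],
    cyc := [[5, 8, 14], [5, 8, 9, 14], [5, 8, 9, 10, 14], [5, 8, 9, 10, 11, 14], [5, 8, 9, 10, 11, 12, 14], [5, 8, 9, 10, 11, 12, 13, 14]] },
  { s := 6, t := 14, l1 := [0, 1, 2, 3, 4, 5, 8, 7], l3 := [6, 14, 9, 10, 11, 12, 13], tag := false, l := [6, 14, 7],
    cyc := [[6, 5, 14], [6, 5, 8, 14], [6, 5, 8, 9, 14], [6, 5, 8, 9, 10, 14], [6, 5, 8, 9, 10, 11, 14]] },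
  { s := 7, t := 8, l1 := [0, 1, 2, 3, 4, 5, 6], l3 := [7, 8, 9, 10, 11, 12, 14, 13], tag := true, l := [6, 5, 8, 7],
    cyc := [[7, 14, 8], [7, 14, 9, 8], [7, 14, 10, 9, 8], [7, 14, 11, 10, 9, 8], [7, 14, 12, 11, 10, 9, 8], [7, 14, 13, 12, 11, 10, 9, 8]] },
  { s := 7, t := 14, l1 := [0, 1, 2, 3, 4, 5, 6], l3 := [7, 14, 8, 9, 10, 11, 12, 13], tag := true, l := [6, 14, 7],
    cyc := [[7, 8, 14], [7, 8, 9, 14], [7, 8, 9, 10, 14], [7, 8, 9, 10, 11, 14], [7, 8, 9, 10, 11, 12, 14]] },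
  { s := 8, t := 9, l1 := [0, 1, 2, 3, 4, 5, 6], l3 := [7, 8, 9, 10, 11, 12, 14, 13], tag := true, l := [6, 14, 9, 8, 7],
    cyc := [[8, 14, 9], [8, 14, 10, 9], [8, 14, 11, 10, 9], [8, 14, 12, 11, 10, 9], [8, 14, 13, 12, 11, 10, 9], [8, 7, 14, 13, 12, 11, 10, 9], [8, 5, 6, 14, 13, 12, 11, 10, 9]] },
  { s := 8, t := 14, l1 := [0, 1, 2, 3, 4, 5, 6], l3 := [7, 8, 14, 9, 10, 11, 12, 13], tag := true, l := [6, 14, 8, 7],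
    cyc := [[8, 9, 14], [8, 9, 10, 14], [8, 9, 10, 11, 14], [8, 9, 10, 11, 12, 14], [8, 9, 10, 11, 12, 13, 14], [8, 5, 4, 3, 2, 1, 0, 14]] },
  { s := 9, t := 10, l1 := [0, 1, 2, 3, 4, 5, 6], l3 := [7, 8, 9, 10, 11, 12, 14, 13], tag := true, l := [6, 14, 10, 9, 8, 7],
    cyc := [[9, 14, 10], [9, 14, 11, 10], [9, 14, 12, 11, 10], [9, 14, 13, 12, 11, 10], [9, 8, 14, 13, 12, 11, 10], [9, 8, 7, 14, 13, 12, 11, 10], [9, 8, 5, 6, 14, 13, 12, 11, 10], [9, 8, 5, 4, 3, 14, 13, 12, 11, 10]] },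
  { s := 9, t := 14, l1 := [0, 1, 2, 3, 4, 5, 6], l3 := [7, 8, 9, 14, 10, 11, 12, 13], tag := true, l := [6, 14, 9, 8, 7],
    cyc := [[9, 10, 14], [9, 10, 11, 14], [9, 10, 11, 12, 14], [9, 10, 11, 12, 13, 14], [9, 8, 5, 4, 3, 2, 14], [9, 8, 5, 4, 3, 2, 1, 14], [9, 8, 5, 4, 3, 2, 1, 0, 14]] },
  { s := 10, t := 11, l1 := [0, 1, 2, 3, 4, 5, 6], l3 := [7, 8, 9, 10, 11, 12, 14, 13], tag := true, l := [6, 14, 11, 10, 9, 8, 7],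
    cyc := [[10, 14, 11], [10, 14, 12, 11], [10, 14, 13, 12, 11], [10, 9, 14, 13, 12, 11], [10, 9, 8, 14, 13, 12, 11], [10, 9, 8, 7, 14, 13, 12, 11], [10, 9, 8, 5, 6, 14, 13, 12, 11], [10, 9, 8, 5, 4, 3, 14, 13, 12, 11], [10, 9, 8, 5, 4, 3, 2, 14, 13, 12, 11]] },
  { s := 10, t := 14, l1 := [0, 1, 2, 3, 4, 5, 6], l3 := [7, 8, 9, 10, 14, 11, 12, 13], tag := true, l := [6, 14, 10, 9, 8, 7],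
    cyc := [[10, 11, 14], [10, 11, 12, 14], [10, 11, 12, 13, 14], [10, 9, 8, 5, 6, 14], [10, 9, 8, 5, 4, 3, 14], [10, 9, 8, 5, 4, 3, 2, 14], [10, 9, 8, 5, 4, 3, 2, 1, 14], [10, 9, 8, 5, 4, 3, 2, 1, 0, 14]] },
  { s := 11, t := 12, l1 := [0, 1, 2, 3, 4, 5, 6], l3 := [7, 8, 9, 10, 11, 12, 14, 13], tag := true, l := [6, 14, 12, 11, 10, 9, 8, 7],
    cyc := [[11, 14, 12], [11, 14, 13, 12], [11, 10, 14, 13, 12], [11, 10, 9, 14, 13, 12], [11, 10, 9, 8, 14, 13, 12], [11, 10, 9, 8, 7, 14, 13, 12], [11, 10, 9, 8, 5, 6, 14, 13, 12], [11, 10, 9, 8, 5, 4, 3, 14, 13, 12], [11, 10, 9, 8, 5, 4, 3, 2, 14, 13, 12], [11, 10, 9, 8, 5, 4, 3, 2, 1, 14, 13, 12]] },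
  { s := 11, t := 14, l1 := [0, 1, 2, 3, 4, 5, 6], l3 := [7, 8, 9, 10, 11, 14, 12, 13], tag := true, l := [6, 14, 11, 10, 9, 8, 7],
    cyc := [[11, 12, 14], [11, 12, 13, 14], [11, 10, 9, 8, 14], [11, 10, 9, 8, 7, 14], [11, 10, 9, 8, 5, 6, 14], [11, 10, 9, 8, 5, 4, 3, 14], [11, 10, 9, 8, 5, 4, 3, 2, 14], [11, 10, 9, 8, 5, 4, 3, 2, 1, 14], [11, 10, 9, 8, 5, 4, 3, 2, 1, 0, 14]] },
  { s := 12, t := 13, l1 := [0, 1, 2, 3, 4, 5, 6], l3 := [7, 8, 9, 10, 11, 14, 12, 13], tag := true, l := [6, 14, 13, 12, 11, 10, 9, 8, 7],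
    cyc := [[12, 14, 13], [12, 11, 14, 13], [12, 11, 10, 14, 13], [12, 11, 10, 9, 14, 13], [12, 11, 10, 9, 8, 14, 13], [12, 11, 10, 9, 8, 7, 14, 13], [12, 11, 10, 9, 8, 5, 6, 14, 13], [12, 11, 10, 9, 8, 5, 4, 3, 14, 13], [12, 11, 10, 9, 8, 5, 4, 3, 2, 14, 13], [12, 11, 10, 9, 8, 5, 4, 3, 2, 1, 14, 13], [12, 11, 10, 9, 8, 5, 4, 3, 2, 1, 0, 14, 13]] },
  { s := 12, t := 14, l1 := [0, 1, 2, 3, 4, 5, 6], l3 := [7, 8, 9, 10, 11, 12, 14, 13], tag := true, l := [6, 14, 12, 11, 10, 9, 8, 7],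
    cyc := [[12, 13, 14], [12, 11, 10, 14], [12, 11, 10, 9, 14], [12, 11, 10, 9, 8, 14], [12, 11, 10, 9, 8, 7, 14], [12, 11, 10, 9, 8, 5, 6, 14], [12, 11, 10, 9, 8, 5, 4, 3, 14], [12, 11, 10, 9, 8, 5, 4, 3, 2, 14], [12, 11, 10, 9, 8, 5, 4, 3, 2, 1, 14], [12, 11, 10, 9, 8, 5, 4, 3, 2, 1, 0, 14]] },
  { s := 13, t := 14, l1 := [0, 1, 2, 3, 4, 5, 6], l3 := [7, 8, 9, 10, 11, 12, 14, 13], tag := true, l := [6, 14, 13, 12, 11, 10, 9, 8, 7],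
    cyc := [[13, 12, 14], [13, 12, 11, 14], [13, 12, 11, 10, 14], [13, 12, 11, 10, 9, 14], [13, 12, 11, 10, 9, 8, 14], [13, 12, 11, 10, 9, 8, 7, 14], [13, 12, 11, 10, 9, 8, 5, 6, 14], [13, 12, 11, 10, 9, 8, 5, 4, 3, 14], [13, 12, 11, 10, 9, 8, 5, 4, 3, 2, 14], [13, 12, 11, 10, 9, 8, 5, 4, 3, 2, 1, 14], [13, 12, 11, 10, 9, 8, 5, 4, 3, 2, 1, 0, 14]] }]

theorem symX : ∀ u v : Fin 15, adjB MX u v = true → adjB MX v u = true := by decide +kernel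
theorem irrX : ∀ u : Fin 15, adjB MX u u = false := by decide +kernel

/-- the four-terminal graph -/
def X15 : SimpleGraph (Fin 15) := tabG 15 MX symX irrX

theorem xfactsX : XFacts X15 0 13 6 7 := by
  refine xfacts_of symX irrX (by decide)
    [[0, 14, 13], [0, 1, 14, 13], [0, 1, 2, 14, 13], [0, 1, 2, 3, 14, 13], [0, 1, 2, 3, 4, 14, 13], [0, 1, 2, 3, 4, 5, 14, 13], [0, 1, 2, 3, 4, 5, 6, 14, 13], [0, 1, 2, 3, 4, 5, 6, 14, 12, 13], [0, 1, 2, 3, 4, 5, 6, 14, 11, 12, 13], [0, 1, 2, 3, 4, 5, 6, 14, 10, 11, 12, 13], [0, 1, 2, 3, 4, 5, 6, 14, 9, 10, 11, 12, 13], [0, 1, 2, 3, 4, 5, 6, 14, 8, 9, 10, 11, 12, 13]] (by decide +kernel) (by decide +kernel)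
    [0, 1, 2, 3, 4, 5, 6] [7, 14, 13] (by decide +kernel) (by decide +kernel)
    (by decide +kernel) (by decide +kernel)
    [0, 14, 1, 2, 3, 4, 5, 6] [7, 8, 9, 10, 11, 12, 13] (by decide +kernel) (by decide +kernel)
    (by decide +kernel) (by decide +kernel)
    [6, 14, 7] (by decide +kernel) (by decide +kernel)
    certX (by decide +kernel) (by decide +kernel)

theorem edgesX : X15.edgeSet.ncard ≤ 27 :=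
  (tab_edges symX irrX).trans (by decide +kernel)

/-- adjacency masks of the base graph -/
def MF : List ℕ := [20, 4120, 81, 11954, 4463, 1048, 276, 1544, 4176, 2184, 168, 8712, 274, 2056]

/-- certificates for the edges of the base graph -/
def certF : List (FC 14) := [
  { s := 0, t := 2, r := 4, thr := [[0, 2, 4, 3, 13], [0, 2, 4, 1, 3, 13], [0, 2, 4, 1, 3, 11, 13], [0, 2, 4, 1, 3, 9, 11, 13], [0, 2, 4, 1, 3, 7, 9, 11, 13], [0, 2, 4, 1, 3, 10, 7, 9, 11, 13], [0, 2, 4, 1, 3, 5, 10, 7, 9, 11, 13], [0, 2, 4, 6, 8, 12, 1, 3, 7, 9, 11, 13], [0, 2, 4, 6, 8, 12, 1, 3, 10, 7, 9, 11, 13], [0, 2, 4, 6, 8, 12, 1, 3, 5, 10, 7, 9, 11, 13]],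
    cyc := [[0, 4, 2], [0, 4, 6, 2], [0, 4, 8, 6, 2], [0, 4, 12, 8, 6, 2], [0, 4, 1, 12, 8, 6, 2], [0, 4, 3, 1, 12, 8, 6, 2], [0, 4, 5, 3, 1, 12, 8, 6, 2]] },
  { s := 0, t := 4, r := 3, thr := [[0, 4, 3, 13], [0, 4, 1, 3, 13], [0, 4, 1, 3, 11, 13], [0, 4, 1, 3, 9, 11, 13], [0, 4, 1, 3, 7, 9, 11, 13], [0, 4, 1, 3, 10, 7, 9, 11, 13], [0, 4, 1, 3, 5, 10, 7, 9, 11, 13], [0, 4, 2, 6, 8, 12, 1, 3, 9, 11, 13], [0, 4, 2, 6, 8, 12, 1, 3, 7, 9, 11, 13], [0, 4, 2, 6, 8, 12, 1, 3, 10, 7, 9, 11, 13], [0, 4, 2, 6, 8, 12, 1, 3, 5, 10, 7, 9, 11, 13]],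
    cyc := [[0, 2, 4], [0, 2, 6, 4], [0, 2, 6, 8, 4], [0, 2, 6, 8, 12, 4], [0, 2, 6, 8, 12, 1, 4], [0, 2, 6, 8, 12, 1, 3, 4]] },
  { s := 1, t := 3, r := 4, thr := [[0, 4, 1, 3, 13], [0, 2, 4, 1, 3, 13], [0, 2, 4, 1, 3, 11, 13], [0, 2, 4, 1, 3, 9, 11, 13], [0, 2, 4, 1, 3, 7, 9, 11, 13], [0, 2, 4, 1, 3, 10, 7, 9, 11, 13], [0, 2, 4, 1, 3, 5, 10, 7, 9, 11, 13], [0, 2, 4, 6, 8, 12, 1, 3, 7, 9, 11, 13], [0, 2, 4, 6, 8, 12, 1, 3, 10, 7, 9, 11, 13], [0, 2, 4, 6, 8, 12, 1, 3, 5, 10, 7, 9, 11, 13]],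
    cyc := [[1, 4, 3], [1, 12, 4, 3], [1, 12, 8, 4, 3], [1, 12, 8, 6, 4, 3], [1, 12, 8, 6, 4, 5, 3], [1, 12, 8, 6, 4, 5, 10, 3], [1, 12, 8, 6, 4, 5, 10, 7, 3]] },
  { s := 1, t := 4, r := 4, thr := [[0, 4, 1, 3, 13], [0, 2, 4, 1, 3, 13], [0, 2, 4, 1, 3, 11, 13], [0, 2, 4, 1, 3, 9, 11, 13], [0, 2, 4, 1, 3, 7, 9, 11, 13], [0, 2, 4, 1, 3, 10, 7, 9, 11, 13], [0, 2, 4, 1, 3, 5, 10, 7, 9, 11, 13], [0, 2, 6, 4, 1, 3, 5, 10, 7, 9, 11, 13], [0, 2, 6, 8, 4, 1, 3, 5, 10, 7, 9, 11, 13], [0, 2, 6, 8, 12, 1, 4, 3, 5, 10, 7, 9, 11, 13]],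
    cyc := [[1, 12, 4], [1, 12, 8, 4], [1, 12, 8, 6, 4], [1, 12, 8, 6, 2, 4], [1, 12, 8, 6, 2, 0, 4], [1, 3, 11, 9, 7, 10, 5, 4], [1, 3, 13, 11, 9, 7, 10, 5, 4]] },
  { s := 1, t := 12, r := 5, thr := [[0, 4, 12, 1, 3, 13], [0, 2, 4, 12, 1, 3, 13], [0, 2, 4, 8, 12, 1, 3, 13], [0, 2, 4, 6, 8, 12, 1, 3, 13], [0, 2, 4, 6, 8, 12, 1, 3, 11, 13], [0, 2, 4, 6, 8, 12, 1, 3, 9, 11, 13], [0, 2, 4, 6, 8, 12, 1, 3, 7, 9, 11, 13], [0, 2, 4, 6, 8, 12, 1, 3, 10, 7, 9, 11, 13], [0, 2, 4, 6, 8, 12, 1, 3, 5, 10, 7, 9, 11, 13]],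
    cyc := [[1, 4, 12], [1, 4, 8, 12], [1, 4, 6, 8, 12], [1, 4, 2, 6, 8, 12], [1, 4, 0, 2, 6, 8, 12], [1, 3, 10, 5, 4, 6, 8, 12], [1, 3, 11, 9, 7, 10, 5, 4, 12], [1, 3, 13, 11, 9, 7, 10, 5, 4, 12]] },
  { s := 2, t := 4, r := 4, thr := [[0, 2, 4, 3, 13], [0, 2, 4, 1, 3, 13], [0, 2, 4, 1, 3, 11, 13], [0, 2, 4, 1, 3, 9, 11, 13], [0, 2, 4, 1, 3, 7, 9, 11, 13], [0, 2, 4, 1, 3, 10, 7, 9, 11, 13], [0, 2, 4, 1, 3, 5, 10, 7, 9, 11, 13], [0, 2, 4, 6, 8, 12, 1, 3, 7, 9, 11, 13], [0, 2, 4, 6, 8, 12, 1, 3, 10, 7, 9, 11, 13], [0, 2, 4, 6, 8, 12, 1, 3, 5, 10, 7, 9, 11, 13]],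
    cyc := [[2, 6, 4], [2, 6, 8, 4], [2, 6, 8, 12, 4], [2, 6, 8, 12, 1, 4], [2, 6, 8, 12, 1, 3, 4], [2, 6, 8, 12, 1, 3, 5, 4], [2, 6, 8, 12, 1, 3, 10, 5, 4]] },
  { s := 2, t := 6, r := 5, thr := [[0, 2, 6, 4, 3, 13], [0, 2, 6, 4, 1, 3, 13], [0, 2, 6, 4, 1, 3, 11, 13], [0, 2, 6, 4, 1, 3, 9, 11, 13], [0, 2, 6, 4, 1, 3, 7, 9, 11, 13], [0, 2, 6, 4, 1, 3, 10, 7, 9, 11, 13], [0, 2, 6, 4, 1, 3, 5, 10, 7, 9, 11, 13], [0, 2, 6, 4, 8, 12, 1, 3, 10, 7, 9, 11, 13], [0, 2, 6, 4, 8, 12, 1, 3, 5, 10, 7, 9, 11, 13]],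
    cyc := [[2, 4, 6], [2, 4, 8, 6], [2, 4, 12, 8, 6], [2, 4, 1, 12, 8, 6], [2, 4, 3, 1, 12, 8, 6], [2, 4, 5, 3, 1, 12, 8, 6], [2, 4, 5, 10, 3, 1, 12, 8, 6], [2, 4, 5, 10, 7, 3, 1, 12, 8, 6]] },
  { s := 3, t := 4, r := 3, thr := [[0, 4, 3, 13], [0, 2, 4, 3, 13], [0, 2, 4, 3, 11, 13], [0, 2, 4, 3, 9, 11, 13], [0, 2, 4, 3, 7, 9, 11, 13], [0, 2, 4, 3, 10, 7, 9, 11, 13], [0, 2, 4, 3, 5, 10, 7, 9, 11, 13], [0, 2, 6, 4, 3, 5, 10, 7, 9, 11, 13], [0, 2, 6, 8, 4, 3, 5, 10, 7, 9, 11, 13], [0, 2, 6, 8, 12, 1, 4, 3, 10, 7, 9, 11, 13], [0, 2, 6, 8, 12, 1, 3, 4, 5, 10, 7, 9, 11, 13]],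
    cyc := [[3, 5, 4], [3, 10, 5, 4], [3, 7, 10, 5, 4], [3, 9, 7, 10, 5, 4], [3, 11, 9, 7, 10, 5, 4], [3, 13, 11, 9, 7, 10, 5, 4]] },
  { s := 3, t := 5, r := 4, thr := [[0, 4, 5, 3, 13], [0, 2, 4, 5, 3, 13], [0, 2, 4, 5, 3, 11, 13], [0, 2, 4, 5, 3, 9, 11, 13], [0, 2, 4, 5, 3, 7, 9, 11, 13], [0, 2, 4, 3, 5, 10, 7, 9, 11, 13], [0, 2, 4, 1, 3, 5, 10, 7, 9, 11, 13], [0, 2, 4, 12, 1, 3, 5, 10, 7, 9, 11, 13], [0, 2, 4, 8, 12, 1, 3, 5, 10, 7, 9, 11, 13], [0, 2, 4, 6, 8, 12, 1, 3, 5, 10, 7, 9, 11, 13]],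
    cyc := [[3, 10, 5], [3, 7, 10, 5], [3, 9, 7, 10, 5], [3, 11, 9, 7, 10, 5], [3, 13, 11, 9, 7, 10, 5], [3, 1, 12, 8, 6, 2, 4, 5], [3, 1, 12, 8, 6, 2, 0, 4, 5]] },
  { s := 3, t := 7, r := 6, thr := [[0, 4, 3, 7, 9, 11, 13], [0, 2, 4, 3, 7, 9, 11, 13], [0, 2, 4, 1, 3, 7, 9, 11, 13], [0, 2, 4, 5, 10, 3, 7, 9, 11, 13], [0, 2, 4, 8, 12, 1, 3, 7, 9, 11, 13], [0, 2, 4, 6, 8, 12, 1, 3, 7, 9, 11, 13], [0, 2, 6, 8, 12, 1, 4, 5, 3, 7, 9, 11, 13], [0, 2, 6, 8, 12, 1, 4, 5, 10, 3, 7, 9, 11, 13]],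
    cyc := [[3, 10, 7], [3, 11, 9, 7], [3, 13, 11, 9, 7], [3, 1, 4, 5, 10, 7], [3, 1, 12, 4, 5, 10, 7], [3, 1, 12, 8, 4, 5, 10, 7], [3, 1, 12, 8, 6, 4, 5, 10, 7], [3, 1, 12, 8, 6, 2, 4, 5, 10, 7], [3, 1, 12, 8, 6, 2, 0, 4, 5, 10, 7]] },
  { s := 3, t := 9, r := 5, thr := [[0, 4, 3, 9, 11, 13], [0, 2, 4, 3, 9, 11, 13], [0, 2, 4, 1, 3, 9, 11, 13], [0, 2, 4, 5, 10, 3, 9, 11, 13], [0, 2, 4, 5, 10, 7, 3, 9, 11, 13], [0, 2, 4, 6, 8, 12, 1, 3, 9, 11, 13], [0, 2, 6, 8, 4, 5, 10, 7, 3, 9, 11, 13], [0, 2, 6, 8, 12, 1, 4, 5, 10, 3, 9, 11, 13], [0, 2, 6, 8, 12, 1, 4, 5, 10, 7, 3, 9, 11, 13]],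
    cyc := [[3, 11, 9], [3, 13, 11, 9], [3, 5, 10, 7, 9], [3, 4, 5, 10, 7, 9], [3, 1, 4, 5, 10, 7, 9], [3, 1, 12, 4, 5, 10, 7, 9], [3, 1, 12, 8, 4, 5, 10, 7, 9], [3, 1, 12, 8, 6, 4, 5, 10, 7, 9]] },
  { s := 3, t := 10, r := 5, thr := [[0, 4, 5, 10, 3, 13], [0, 2, 4, 5, 10, 3, 13], [0, 2, 4, 5, 10, 3, 11, 13], [0, 2, 4, 3, 10, 7, 9, 11, 13], [0, 2, 4, 1, 3, 10, 7, 9, 11, 13], [0, 2, 4, 12, 1, 3, 10, 7, 9, 11, 13], [0, 2, 4, 8, 12, 1, 3, 10, 7, 9, 11, 13], [0, 2, 4, 6, 8, 12, 1, 3, 10, 7, 9, 11, 13], [0, 2, 6, 8, 12, 1, 4, 5, 3, 10, 7, 9, 11, 13]],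
    cyc := [[3, 7, 10], [3, 9, 7, 10], [3, 11, 9, 7, 10], [3, 13, 11, 9, 7, 10], [3, 1, 12, 8, 4, 5, 10], [3, 1, 12, 8, 6, 4, 5, 10], [3, 1, 12, 8, 6, 2, 4, 5, 10], [3, 1, 12, 8, 6, 2, 0, 4, 5, 10]] },
  { s := 3, t := 11, r := 4, thr := [[0, 4, 3, 11, 13], [0, 2, 4, 3, 11, 13], [0, 2, 4, 1, 3, 11, 13], [0, 2, 4, 5, 10, 3, 11, 13], [0, 2, 4, 5, 10, 7, 3, 11, 13], [0, 2, 4, 5, 10, 7, 9, 3, 11, 13], [0, 2, 6, 4, 5, 10, 7, 9, 3, 11, 13], [0, 2, 6, 8, 4, 5, 10, 7, 9, 3, 11, 13], [0, 2, 6, 8, 12, 1, 4, 5, 10, 7, 3, 11, 13], [0, 2, 6, 8, 12, 1, 4, 5, 10, 7, 9, 3, 11, 13]],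
    cyc := [[3, 13, 11], [3, 7, 9, 11], [3, 10, 7, 9, 11], [3, 5, 10, 7, 9, 11], [3, 4, 5, 10, 7, 9, 11], [3, 1, 4, 5, 10, 7, 9, 11], [3, 1, 12, 4, 5, 10, 7, 9, 11]] },
  { s := 3, t := 13, r := 3, thr := [[0, 4, 3, 13], [0, 2, 4, 3, 13], [0, 2, 4, 1, 3, 13], [0, 2, 4, 5, 10, 3, 13], [0, 2, 4, 5, 10, 7, 3, 13], [0, 2, 4, 5, 10, 7, 9, 3, 13], [0, 2, 4, 5, 10, 7, 9, 11, 3, 13], [0, 2, 6, 4, 5, 10, 7, 9, 11, 3, 13], [0, 2, 6, 8, 4, 5, 10, 7, 9, 11, 3, 13], [0, 2, 6, 8, 12, 1, 4, 5, 10, 7, 9, 3, 13], [0, 2, 6, 8, 12, 1, 4, 5, 10, 7, 9, 11, 3, 13]],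
    cyc := [[3, 11, 13], [3, 9, 11, 13], [3, 7, 9, 11, 13], [3, 10, 7, 9, 11, 13], [3, 5, 10, 7, 9, 11, 13], [3, 4, 5, 10, 7, 9, 11, 13]] },
  { s := 4, t := 5, r := 4, thr := [[0, 4, 5, 3, 13], [0, 2, 4, 5, 3, 13], [0, 2, 4, 5, 3, 11, 13], [0, 2, 4, 5, 3, 9, 11, 13], [0, 2, 4, 5, 3, 7, 9, 11, 13], [0, 2, 4, 5, 3, 10, 7, 9, 11, 13], [0, 2, 6, 4, 5, 3, 10, 7, 9, 11, 13], [0, 2, 6, 8, 4, 5, 3, 10, 7, 9, 11, 13], [0, 2, 6, 8, 12, 1, 4, 5, 3, 7, 9, 11, 13], [0, 2, 6, 8, 12, 1, 3, 4, 5, 10, 7, 9, 11, 13]],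
    cyc := [[4, 3, 5], [4, 3, 10, 5], [4, 12, 1, 3, 5], [4, 12, 1, 3, 10, 5], [4, 12, 1, 3, 7, 10, 5], [4, 12, 1, 3, 9, 7, 10, 5], [4, 12, 1, 3, 11, 9, 7, 10, 5]] },
  { s := 4, t := 6, r := 5, thr := [[0, 2, 6, 4, 3, 13], [0, 2, 6, 4, 1, 3, 13], [0, 2, 6, 4, 1, 3, 11, 13], [0, 2, 4, 6, 8, 12, 1, 3, 13], [0, 2, 4, 6, 8, 12, 1, 3, 11, 13], [0, 2, 4, 6, 8, 12, 1, 3, 9, 11, 13], [0, 2, 4, 6, 8, 12, 1, 3, 7, 9, 11, 13], [0, 2, 4, 6, 8, 12, 1, 3, 10, 7, 9, 11, 13], [0, 2, 4, 6, 8, 12, 1, 3, 5, 10, 7, 9, 11, 13]],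
    cyc := [[4, 8, 6], [4, 12, 8, 6], [4, 1, 12, 8, 6], [4, 3, 1, 12, 8, 6], [4, 5, 3, 1, 12, 8, 6], [4, 5, 10, 3, 1, 12, 8, 6], [4, 5, 10, 7, 3, 1, 12, 8, 6], [4, 5, 10, 7, 9, 3, 1, 12, 8, 6]] },
  { s := 4, t := 8, r := 6, thr := [[0, 2, 6, 8, 4, 3, 13], [0, 2, 4, 8, 12, 1, 3, 13], [0, 2, 4, 8, 12, 1, 3, 11, 13], [0, 2, 4, 8, 12, 1, 3, 9, 11, 13], [0, 2, 4, 8, 12, 1, 3, 7, 9, 11, 13], [0, 2, 4, 8, 12, 1, 3, 10, 7, 9, 11, 13], [0, 2, 4, 8, 12, 1, 3, 5, 10, 7, 9, 11, 13], [0, 2, 6, 4, 8, 12, 1, 3, 5, 10, 7, 9, 11, 13]],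
    cyc := [[4, 12, 8], [4, 2, 6, 8], [4, 3, 1, 12, 8], [4, 5, 3, 1, 12, 8], [4, 5, 10, 3, 1, 12, 8], [4, 5, 10, 7, 3, 1, 12, 8], [4, 5, 10, 7, 9, 3, 1, 12, 8], [4, 5, 10, 7, 9, 11, 3, 1, 12, 8], [4, 5, 10, 7, 9, 11, 13, 3, 1, 12, 8]] },
  { s := 4, t := 12, r := 5, thr := [[0, 4, 12, 1, 3, 13], [0, 2, 4, 12, 1, 3, 13], [0, 2, 4, 12, 1, 3, 11, 13], [0, 2, 4, 12, 1, 3, 9, 11, 13], [0, 2, 4, 12, 1, 3, 7, 9, 11, 13], [0, 2, 4, 12, 1, 3, 10, 7, 9, 11, 13], [0, 2, 4, 12, 1, 3, 5, 10, 7, 9, 11, 13], [0, 2, 6, 4, 12, 1, 3, 5, 10, 7, 9, 11, 13], [0, 2, 6, 8, 4, 12, 1, 3, 5, 10, 7, 9, 11, 13]],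
    cyc := [[4, 8, 12], [4, 6, 8, 12], [4, 5, 3, 1, 12], [4, 5, 10, 3, 1, 12], [4, 5, 10, 7, 3, 1, 12], [4, 5, 10, 7, 9, 3, 1, 12], [4, 5, 10, 7, 9, 11, 3, 1, 12], [4, 5, 10, 7, 9, 11, 13, 3, 1, 12]] },
  { s := 5, t := 10, r := 5, thr := [[0, 4, 5, 10, 3, 13], [0, 2, 4, 5, 10, 3, 13], [0, 2, 4, 5, 10, 3, 11, 13], [0, 2, 4, 5, 10, 3, 9, 11, 13], [0, 2, 4, 3, 5, 10, 7, 9, 11, 13], [0, 2, 4, 1, 3, 5, 10, 7, 9, 11, 13], [0, 2, 4, 12, 1, 3, 5, 10, 7, 9, 11, 13], [0, 2, 4, 8, 12, 1, 3, 5, 10, 7, 9, 11, 13], [0, 2, 4, 6, 8, 12, 1, 3, 5, 10, 7, 9, 11, 13]],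
    cyc := [[5, 3, 10], [5, 4, 3, 10], [5, 4, 3, 7, 10], [5, 4, 12, 1, 3, 10], [5, 4, 12, 1, 3, 7, 10], [5, 4, 12, 1, 3, 9, 7, 10], [5, 4, 12, 1, 3, 11, 9, 7, 10], [5, 4, 12, 1, 3, 13, 11, 9, 7, 10]] },
  { s := 6, t := 8, r := 6, thr := [[0, 2, 6, 8, 4, 3, 13], [0, 2, 6, 8, 4, 1, 3, 13], [0, 2, 4, 6, 8, 12, 1, 3, 13], [0, 2, 4, 6, 8, 12, 1, 3, 11, 13], [0, 2, 4, 6, 8, 12, 1, 3, 9, 11, 13], [0, 2, 4, 6, 8, 12, 1, 3, 7, 9, 11, 13], [0, 2, 4, 6, 8, 12, 1, 3, 10, 7, 9, 11, 13], [0, 2, 4, 6, 8, 12, 1, 3, 5, 10, 7, 9, 11, 13]],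
    cyc := [[6, 4, 8], [6, 4, 12, 8], [6, 4, 1, 12, 8], [6, 4, 3, 1, 12, 8], [6, 4, 5, 3, 1, 12, 8], [6, 4, 5, 10, 3, 1, 12, 8], [6, 4, 5, 10, 7, 3, 1, 12, 8], [6, 4, 5, 10, 7, 9, 3, 1, 12, 8], [6, 4, 5, 10, 7, 9, 11, 3, 1, 12, 8]] },
  { s := 7, t := 9, r := 6, thr := [[0, 4, 3, 7, 9, 11, 13], [0, 2, 4, 3, 7, 9, 11, 13], [0, 2, 4, 1, 3, 7, 9, 11, 13], [0, 2, 4, 1, 3, 10, 7, 9, 11, 13], [0, 2, 4, 1, 3, 5, 10, 7, 9, 11, 13], [0, 2, 4, 6, 8, 12, 1, 3, 7, 9, 11, 13], [0, 2, 4, 6, 8, 12, 1, 3, 10, 7, 9, 11, 13], [0, 2, 4, 6, 8, 12, 1, 3, 5, 10, 7, 9, 11, 13]],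
    cyc := [[7, 3, 9], [7, 10, 3, 9], [7, 10, 5, 3, 9], [7, 10, 5, 4, 3, 9], [7, 10, 5, 4, 3, 11, 9], [7, 10, 5, 4, 12, 1, 3, 9], [7, 10, 5, 4, 12, 1, 3, 11, 9], [7, 10, 5, 4, 12, 1, 3, 13, 11, 9], [7, 10, 5, 4, 8, 12, 1, 3, 13, 11, 9]] },
  { s := 7, t := 10, r := 6, thr := [[0, 4, 5, 10, 7, 3, 13], [0, 2, 4, 5, 10, 7, 3, 13], [0, 2, 4, 3, 10, 7, 9, 11, 13], [0, 2, 4, 1, 3, 10, 7, 9, 11, 13], [0, 2, 4, 1, 3, 5, 10, 7, 9, 11, 13], [0, 2, 4, 8, 12, 1, 3, 10, 7, 9, 11, 13], [0, 2, 4, 6, 8, 12, 1, 3, 10, 7, 9, 11, 13], [0, 2, 4, 6, 8, 12, 1, 3, 5, 10, 7, 9, 11, 13]],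
    cyc := [[7, 3, 10], [7, 9, 3, 10], [7, 9, 11, 3, 10], [7, 9, 11, 13, 3, 10], [7, 9, 11, 13, 3, 5, 10], [7, 9, 11, 13, 3, 4, 5, 10], [7, 9, 11, 13, 3, 1, 4, 5, 10], [7, 9, 11, 13, 3, 1, 12, 4, 5, 10], [7, 9, 11, 13, 3, 1, 12, 8, 4, 5, 10]] },
  { s := 8, t := 12, r := 6, thr := [[0, 4, 8, 12, 1, 3, 13], [0, 2, 4, 8, 12, 1, 3, 13], [0, 2, 4, 6, 8, 12, 1, 3, 13], [0, 2, 4, 6, 8, 12, 1, 3, 11, 13], [0, 2, 4, 6, 8, 12, 1, 3, 9, 11, 13], [0, 2, 4, 6, 8, 12, 1, 3, 7, 9, 11, 13], [0, 2, 4, 6, 8, 12, 1, 3, 10, 7, 9, 11, 13], [0, 2, 4, 6, 8, 12, 1, 3, 5, 10, 7, 9, 11, 13]],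
    cyc := [[8, 4, 12], [8, 6, 4, 12], [8, 6, 4, 1, 12], [8, 6, 4, 3, 1, 12], [8, 6, 4, 5, 3, 1, 12], [8, 6, 4, 5, 10, 3, 1, 12], [8, 6, 4, 5, 10, 7, 3, 1, 12], [8, 6, 4, 5, 10, 7, 9, 3, 1, 12], [8, 6, 4, 5, 10, 7, 9, 11, 3, 1, 12]] },
  { s := 9, t := 11, r := 5, thr := [[0, 4, 3, 9, 11, 13], [0, 2, 4, 3, 9, 11, 13], [0, 2, 4, 1, 3, 9, 11, 13], [0, 2, 4, 1, 3, 7, 9, 11, 13], [0, 2, 4, 1, 3, 10, 7, 9, 11, 13], [0, 2, 4, 1, 3, 5, 10, 7, 9, 11, 13], [0, 2, 4, 6, 8, 12, 1, 3, 7, 9, 11, 13], [0, 2, 4, 6, 8, 12, 1, 3, 10, 7, 9, 11, 13], [0, 2, 4, 6, 8, 12, 1, 3, 5, 10, 7, 9, 11, 13]],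
    cyc := [[9, 3, 11], [9, 7, 3, 11], [9, 7, 10, 3, 11], [9, 7, 10, 5, 3, 11], [9, 7, 10, 5, 4, 3, 11], [9, 7, 10, 5, 4, 3, 13, 11], [9, 7, 10, 5, 4, 12, 1, 3, 11], [9, 7, 10, 5, 4, 12, 1, 3, 13, 11]] },
  { s := 11, t := 13, r := 4, thr := [[0, 4, 3, 11, 13], [0, 2, 4, 3, 11, 13], [0, 2, 4, 1, 3, 11, 13], [0, 2, 4, 1, 3, 9, 11, 13], [0, 2, 4, 1, 3, 7, 9, 11, 13], [0, 2, 4, 1, 3, 10, 7, 9, 11, 13], [0, 2, 4, 1, 3, 5, 10, 7, 9, 11, 13], [0, 2, 4, 6, 8, 12, 1, 3, 7, 9, 11, 13], [0, 2, 4, 6, 8, 12, 1, 3, 10, 7, 9, 11, 13], [0, 2, 4, 6, 8, 12, 1, 3, 5, 10, 7, 9, 11, 13]],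
    cyc := [[11, 3, 13], [11, 9, 3, 13], [11, 9, 7, 3, 13], [11, 9, 7, 10, 3, 13], [11, 9, 7, 10, 5, 3, 13], [11, 9, 7, 10, 5, 4, 3, 13], [11, 9, 7, 10, 5, 4, 1, 3, 13]] }]

theorem symF : ∀ u v : Fin 14, adjB MF u v = true → adjB MF v u = true := by decide +kernel
theorem irrF : ∀ u : Fin 14, adjB MF u u = false := by decide +kernel

/-- the base graph -/
def F14 : SimpleGraph (Fin 14) := tabG 14 MF symF irrF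

theorem bridgeF : Bridge F14 0 13 13 3 6 5 :=
  bridge_of symF irrF 13 3 6 5
    [[0, 4, 3, 13], [0, 2, 4, 3, 13], [0, 2, 4, 1, 3, 13], [0, 2, 4, 1, 3, 11, 13], [0, 2, 4, 1, 3, 9, 11, 13], [0, 2, 4, 1, 3, 7, 9, 11, 13], [0, 2, 4, 1, 3, 10, 7, 9, 11, 13], [0, 2, 4, 1, 3, 5, 10, 7, 9, 11, 13], [0, 2, 4, 6, 8, 12, 1, 3, 7, 9, 11, 13], [0, 2, 4, 6, 8, 12, 1, 3, 10, 7, 9, 11, 13], [0, 2, 4, 6, 8, 12, 1, 3, 5, 10, 7, 9, 11, 13]]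
    (by decide +kernel) (by decide +kernel) certF (by decide +kernel) (by decide +kernel)

theorem edgesF : F14.edgeSet.ncard ≤ 25 :=
  (tab_edges symF irrF).trans (by decide +kernel)

end Pool.Agent.Q115.EP
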