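import Pool.Agent.Q115.MonoUnion

namespace Pool.Agent.Q115.Mono

open SimpleGraph

variable {V : Type*}

/-! ### small facts on degrees -/

theorem nbr_two [Finite V] {G : SimpleGraph V} {v a b : V} (hd : deg G v ≤ 2)
    (ha : G.Adj v a) (hb : G.Adj v b) (hab : a ≠ b) {c : V} (hc : G.Adj v c) :
    c = a ∨ c = b := by
  have h1 : ({a, b} : Set V) ⊆ G.neighborSet v := by
    rintro x (rfl | rfl)
    · exact ha
    · exact hb
  have h2 := Set.eq_of_subset_of_ncard_le h1 (by
    rw [Set.ncard_pair hab]; exact hd) (Set.toFinite _)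
  have : c ∈ ({a, b} : Set V) := by rw [h2]; exact hc
  simpa using this

theorem nbr_one [Finite V] {G : SimpleGraph V} {v a : V} (hd : deg G v ≤ 1)
    (ha : G.Adj v a) {c : V} (hc : G.Adj v c) : c = a :=
  (Set.ncard_le_one (Set.toFinite _)).mp hd c hc a ha

theorem one_le_deg [Finite V] {G : SimpleGraph V} {v a : V} (ha : G.Adj v a) :
    1 ≤ deg G v :=
  (Set.ncard_pos (Set.toFinite _)).mpr ⟨a, ha⟩

theorem two_le_deg [Finite V] {G : SimpleGraph V} {v a b : V} (ha : G.Adj v a)
    (hb : G.Adj v b) (hab : a ≠ b) : 2 ≤ deg G v := by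
  have h1 : ({a, b} : Set V) ⊆ G.neighborSet v := by
    rintro x (rfl | rfl)
    · exact ha
    · exact hb
  have := Set.ncard_le_ncard h1 (Set.toFinite _)
  rwa [Set.ncard_pair hab] at this

theorem exists_nbr [Finite V] {G : SimpleGraph V} {v : V} (h : 1 ≤ deg G v) :
    ∃ a, G.Adj v a :=
  (Set.ncard_pos (Set.toFinite _)).mp h

theorem exists_other [Finite V] {G : SimpleGraph V} {v : V} (h : 2 ≤ deg G v) (a : V) :
    ∃ b, b ≠ a ∧ G.Adj v b := by
  obtain ⟨b, hb, hne⟩ := Set.exists_ne_of_one_lt_ncard h a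
  exact ⟨b, hne, hb⟩

/-! ### increasing paths by indices -/

theorem inc_idx {G : SimpleGraph V} {l : List V} (hl : Inc G l) (i : ℕ)
    (h : i + 1 < l.length) : Up G l[i] l[i + 1] :=
  (List.isChain_iff_getElem.mp hl.2) i h

theorem inc_inj {G : SimpleGraph V} {l : List V} (hl : Inc G l) {i j : ℕ}
    (hi : i < l.length) (hj : j < l.length) (h : l[i] = l[j]) : i = j :=
  (List.Nodup.getElem_inj_iff hl.1).mp h

theorem exists_fail {G G' : SimpleGraph V} {l : List V} (hl : Inc G' l) (hn : ¬ Inc G l) :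
    ∃ i, ∃ h : i + 1 < l.length, ¬ Up G l[i] l[i + 1] := by
  by_contra hcon
  push Not at hcon
  exact hn ⟨hl.1, List.isChain_iff_getElem.mpr hcon⟩

/-- the two properties of a `5`-saturated graph in terms of increasing paths -/
structure Sat5 (G : SimpleGraph V) : Prop where
  A : ∀ l, Inc G l → l.length < 5
  B : ∀ u v, u ≠ v → ¬ G.Adj u v → ∃ l, Inc (G ⊔ edge u v) l ∧ 5 ≤ l.length

theorem sat5_of [Fintype V] {G : SimpleGraph V} (h : KSaturated 5 G) : Sat5 G := by
  refine ⟨(mp_lt_iff (by omega)).mp h.1, ?_⟩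
  intro u v huv hadj
  exact (le_mp_iff (by omega)).mp (h.2 u v huv hadj)

theorem no_five {G : SimpleGraph V} (hs : Sat5 G) {a b c d e : V} (hab : Up G a b)
    (hbc : Up G b c) (hcd : Up G c d) (hde : Up G d e) (hn : [a, b, c, d, e].Nodup) :
    False := by
  have := hs.A [a, b, c, d, e] ⟨hn, by
    simp only [List.isChain_cons_cons, List.isChain_singleton, and_true]
    exact ⟨hab, hbc, hcd, hde⟩⟩
  simp at this

/-- the new edge joins a vertex of maximum degree and a vertex of smaller degree -/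
theorem lemW [Finite V] {G : SimpleGraph V} (hs : Sat5 G) {u w : V} (huw : u ≠ w)
    (hadj : ¬ G.Adj u w) (hmax : ∀ x, deg G x ≤ deg G w) (hlt : deg G u < deg G w) :
    (∃ p, G.Adj p u ∧ p ≠ w ∧ deg G p = deg G u + 1 ∧
      ((∃ x, x ≠ u ∧ x ≠ w ∧ G.Adj x p ∧ deg G x ≤ deg G p) ∨ ∃ s, s ≠ p ∧ G.Adj u s)) ∨
    (∃ y x p, [y, x, p, u].Nodup ∧ y ≠ w ∧ x ≠ w ∧ p ≠ w ∧ G.Adj y x ∧ G.Adj x p ∧
      G.Adj p u ∧ deg G y ≤ deg G x ∧ deg G x ≤ deg G p ∧ deg G p ≤ deg G u + 1) := by
  obtain ⟨l, hl, hlen⟩ := hs.B u w huw hadj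
  have hu' := deg_sup_left huw hadj
  have hw' := deg_sup_right huw hadj
  have ho : ∀ x, x ≠ u → x ≠ w → deg (G ⊔ edge u w) x = deg G x := fun x => deg_sup_other
  -- the vertex `w` can only be the last one
  have hlast : ∀ i (h : i + 1 < l.length), l[i] ≠ w := by
    intro i h hi
    have h1 := (inc_idx hl i h).2
    rw [hi, hw'] at h1
    by_cases h2 : l[i + 1] = w
    · have := inc_inj hl (by omega) h (hi.trans h2.symm)
      omega
    · by_cases h3 : l[i + 1] = u
      · rw [h3, hu'] at h1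
        omega
      · rw [ho _ h3 h2] at h1
        have := hmax l[i + 1]
        omega
  obtain ⟨i, hi, hfail⟩ := exists_fail hl (fun h => by
    have := hs.A l h
    omega)
  have hup := inc_idx hl i hi
  have hne : ∀ j k (hj : j < l.length) (hk : k < l.length), j ≠ k → l[j] ≠ l[k] :=
    fun j k hj hk hjk h => hjk (inc_inj hl hj hk h)
  by_cases hA : G.Adj l[i] l[i + 1]
  · -- the degrees fail
    have hd : deg G l[i + 1] < deg G l[i] := by
      by_contra hcon
      exact hfail ⟨hA, not_lt.mp hcon⟩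
    have hw1 : l[i + 1] ≠ w := by
      intro h
      rw [h] at hd
      have := hmax l[i]
      omega
    have hw0 := hlast i hi
    have hu1 : l[i + 1] = u := by
      by_contra h
      have h2 := hup.2
      rw [ho _ h hw1] at h2
      have := deg_mono (G := G) (G' := G ⊔ edge u w) le_sup_left l[i]
      omega
    have hu0 : l[i] ≠ u := by
      rw [← hu1]
      exact hne _ _ _ _ (by omega)
    have h2 := hup.2
    rw [ho _ hu0 hw0, hu1, hu'] at h2
    rw [hu1] at hd
    left
    refine ⟨l[i], by rw [← hu1]; exact hA, hw0, by omega, ?_⟩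
    rcases Nat.eq_zero_or_pos i with h0 | h0
    · right
      subst h0
      have h3 := inc_idx hl 1 (by omega)
      have hw2 := hlast 2 (by omega)
      refine ⟨l[2], hne _ _ _ _ (by omega), ?_⟩
      have h4 := h3.1
      rw [sup_edge_adj] at h4
      have hu1' : l[1] = u := hu1
      rcases h4 with h4 | ⟨h4, -⟩
      · rw [hu1'] at h4
        exact h4
      · exfalso
        rcases h4 with ⟨-, h4⟩ | ⟨h4, -⟩
        · exact hw2 h4
        · exact hlast 1 (by omega) h4
    · left
      obtain ⟨j, rfl⟩ : ∃ j, i = j + 1 := ⟨i - 1, by omega⟩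
      have h3 := inc_idx hl j (by omega)
      have hwj := hlast j (by omega)
      have huj : l[j] ≠ u := by
        rw [← hu1]
        exact hne _ _ _ _ (by omega)
      refine ⟨l[j], huj, hwj, ?_, ?_⟩
      · have h4 := h3.1
        rw [sup_edge_adj] at h4
        rcases h4 with h4 | ⟨h4, -⟩
        · exact h4
        · exfalso
          rcases h4 with ⟨h4, -⟩ | ⟨h4, -⟩
          · exact huj h4
          · exact hwj h4
      · have h4 := h3.2
        rw [ho _ huj hwj, ho _ hu0 hw0] at h4
        exact h4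
  · -- the new edge is used
    have h1 := hup.1
    rw [sup_edge_adj] at h1
    rcases h1 with h1 | ⟨h1 | h1, -⟩
    · exact absurd h1 hA
    · obtain ⟨hiu, hiw⟩ := h1
      have hend : i + 2 = l.length := by
        by_contra h
        exact hlast (i + 1) (by omega) hiw
      obtain ⟨j, rfl⟩ : ∃ j, i = j + 3 := ⟨i - 3, by omega⟩
      have a0 := inc_idx hl j (by omega)
      have a1 := inc_idx hl (j + 1) (by omega)
      have a2 := inc_idx hl (j + 2) (by omega)
      have hw0 := hlast j (by omega)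
      have hw1 := hlast (j + 1) (by omega)
      have hw2 := hlast (j + 2) (by omega)
      have hu0 : l[j] ≠ u := by rw [← hiu]; exact hne _ _ _ _ (by omega)
      have hu1 : l[j + 1] ≠ u := by rw [← hiu]; exact hne _ _ _ _ (by omega)
      have hu2 : l[j + 2] ≠ u := by rw [← hiu]; exact hne _ _ _ _ (by omega)
      right
      refine ⟨l[j], l[j + 1], l[j + 2], ?_, hw0, hw1, hw2, ?_, ?_, ?_, ?_, ?_, ?_⟩
      · have e1 : l[j] ≠ l[j + 1] := hne _ _ _ _ (by omega)
        have e2 : l[j] ≠ l[j + 2] := hne _ _ _ _ (by omega)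
        have e3 : l[j + 1] ≠ l[j + 2] := hne _ _ _ _ (by omega)
        simp [e1, e2, e3, hu0, hu1, hu2]
      · have := a0.1
        rw [sup_edge_adj] at this
        tauto
      · have := a1.1
        rw [sup_edge_adj] at this
        tauto
      · have h5 := a2.1
        have h6 : l[j + 2 + 1] = u := hiu
        rw [sup_edge_adj] at h5
        rw [h6] at h5
        tauto
      · have := a0.2
        rwa [ho _ hu0 hw0, ho _ hu1 hw1] at this
      · have := a1.2
        rwa [ho _ hu1 hw1, ho _ hu2 hw2] at this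
      · have h5 := a2.2
        have h6 : l[j + 2 + 1] = u := hiu
        rw [h6, hu', ho _ hu2 hw2] at h5
        exact h5
    · exact absurd h1.1 (hlast i hi)

/-- the new edge joins two vertices of maximum degree -/
theorem lemE [Finite V] {G : SimpleGraph V} (hs : Sat5 G) {u w : V} (huw : u ≠ w)
    (hadj : ¬ G.Adj u w) (hmax : ∀ x, deg G x ≤ deg G w) (heq : deg G u = deg G w) :
    ∃ y x p z, (z = u ∨ z = w) ∧ [y, x, p, z].Nodup ∧ G.Adj y x ∧ G.Adj x p ∧
      G.Adj p z ∧ deg G y ≤ deg G x ∧ deg G x ≤ deg G p := by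
  obtain ⟨l, hl, hlen⟩ := hs.B u w huw hadj
  have hu' := deg_sup_left huw hadj
  have hw' := deg_sup_right huw hadj
  have ho : ∀ x, x ≠ u → x ≠ w → deg (G ⊔ edge u w) x = deg G x := fun x => deg_sup_other
  have hne : ∀ j k (hj : j < l.length) (hk : k < l.length), j ≠ k → l[j] ≠ l[k] :=
    fun j k hj hk hjk h => hjk (inc_inj hl hj hk h)
  -- after one of `u`, `w` comes the other one
  have hnext : ∀ i (h : i + 1 < l.length), (l[i] = u ∨ l[i] = w) →
      (l[i + 1] = u ∨ l[i + 1] = w) := by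
    intro i h hi
    by_contra hcon
    push Not at hcon
    have h1 := (inc_idx hl i h).2
    rw [ho _ hcon.1 hcon.2] at h1
    have h2 := hmax l[i + 1]
    rcases hi with hi | hi
    · rw [hi, hu'] at h1
      omega
    · rw [hi, hw'] at h1
      omega
  obtain ⟨i, hi, hfail⟩ := exists_fail hl (fun h => by
    have := hs.A l h
    omega)
  have hup := inc_idx hl i hi
  by_cases hA : G.Adj l[i] l[i + 1]
  · exfalso
    have hd : deg G l[i + 1] < deg G l[i] := by
      by_contra hcon
      exact hfail ⟨hA, not_lt.mp hcon⟩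
    have h0 := hmax l[i]
    have h1 : l[i + 1] ≠ u := by
      intro h
      rw [h] at hd
      omega
    have h2 : l[i + 1] ≠ w := by
      intro h
      rw [h] at hd
      omega
    have h3 := hup.2
    rw [ho _ h1 h2] at h3
    have := deg_mono (G := G) (G' := G ⊔ edge u w) le_sup_left l[i]
    omega
  · have h1 := hup.1
    rw [sup_edge_adj] at h1
    have h1' : (l[i] = u ∧ l[i + 1] = w) ∨ (l[i] = w ∧ l[i + 1] = u) := by tauto
    have hend : i + 2 = l.length := by
      by_contra h
      have h2 := hnext (i + 1) (by omega) (by tauto)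
      have e1 : l[i] ≠ l[i + 1 + 1] := hne _ _ _ _ (by omega)
      have e2 : l[i + 1] ≠ l[i + 1 + 1] := hne _ _ _ _ (by omega)
      rcases h1' with ⟨h3, h4⟩ | ⟨h3, h4⟩ <;> rw [h3] at e1 <;> rw [h4] at e2 <;>
        rcases h2 with h2 | h2 <;> rw [h2] at e1 e2 <;> tauto
    have hbefore : ∀ j (h : j < i), l[j] ≠ u ∧ l[j] ≠ w := by
      intro j h
      have e1 : l[j] ≠ l[i] := hne _ _ _ _ (by omega)
      have e2 : l[j] ≠ l[i + 1] := hne _ _ _ _ (by omega)
      rcases h1' with ⟨h3, h4⟩ | ⟨h3, h4⟩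
      · rw [h3] at e1; rw [h4] at e2; exact ⟨e1, e2⟩
      · rw [h3] at e1; rw [h4] at e2; exact ⟨e2, e1⟩
    obtain ⟨j, rfl⟩ : ∃ j, i = j + 3 := ⟨i - 3, by omega⟩
    have a0 := inc_idx hl j (by omega)
    have a1 := inc_idx hl (j + 1) (by omega)
    have a2 := inc_idx hl (j + 2) (by omega)
    obtain ⟨hu0, hw0⟩ := hbefore j (by omega)
    obtain ⟨hu1, hw1⟩ := hbefore (j + 1) (by omega)
    obtain ⟨hu2, hw2⟩ := hbefore (j + 2) (by omega)
    refine ⟨l[j], l[j + 1], l[j + 2], l[j + 3], by tauto, ?_, ?_, ?_, ?_, ?_, ?_⟩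
    · have e1 : l[j] ≠ l[j + 1] := hne _ _ _ _ (by omega)
      have e2 : l[j] ≠ l[j + 2] := hne _ _ _ _ (by omega)
      have e3 : l[j + 1] ≠ l[j + 2] := hne _ _ _ _ (by omega)
      have e4 : l[j] ≠ l[j + 3] := hne _ _ _ _ (by omega)
      have e5 : l[j + 1] ≠ l[j + 3] := hne _ _ _ _ (by omega)
      have e6 : l[j + 2] ≠ l[j + 3] := hne _ _ _ _ (by omega)
      simp [e1, e2, e3, e4, e5, e6]
    · have := a0.1
      rw [sup_edge_adj] at this
      tauto
    · have := a1.1
      rw [sup_edge_adj] at this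
      tauto
    · have h5 := a2.1
      rw [sup_edge_adj] at h5
      have h6 : G.Adj l[j + 2] l[j + 2 + 1] := by tauto
      exact h6
    · have := a0.2
      rwa [ho _ hu0 hw0, ho _ hu1 hw1] at this
    · have := a1.2
      rwa [ho _ hu1 hw1, ho _ hu2 hw2] at this

/-- a set of at most four vertices closed under adjacency is a clique -/
theorem closed_small [DecidableEq V] {G : SimpleGraph V} (hs : Sat5 G) (S : Finset V)
    (hc : S.card ≤ 4) (hcl : ∀ a ∈ S, ∀ b, G.Adj a b → b ∈ S) {u v : V} (hu : u ∈ S)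
    (hv : v ∈ S) (huv : u ≠ v) : G.Adj u v := by
  by_contra hadj
  obtain ⟨l, hl, hlen⟩ := hs.B u v huv hadj
  have hstep : ∀ a b, (G ⊔ edge u v).Adj a b → (a ∈ S ↔ b ∈ S) := by
    intro a b hab
    rw [sup_edge_adj] at hab
    rcases hab with hab | ⟨⟨rfl, rfl⟩ | ⟨rfl, rfl⟩, -⟩
    · exact ⟨fun h => hcl a h b hab, fun h => hcl b h a hab.symm⟩
    · tauto
    · tauto
  have hall : ∀ i (h : i < l.length), (l[i] ∈ S ↔ l[0] ∈ S) := by
    intro i
    induction i with
    | zero => intro _; exact Iff.rfl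
    | succ i ih =>
      intro h
      rw [← ih (by omega)]
      exact (hstep _ _ (inc_idx hl i h).1).symm
  by_cases h0 : l[0] ∈ S
  · have h1 : l.toFinset ⊆ S := by
      intro x hx
      rw [List.mem_toFinset, List.mem_iff_getElem] at hx
      obtain ⟨i, hi, rfl⟩ := hx
      exact (hall i hi).mpr h0
    have h2 := Finset.card_le_card h1
    rw [List.toFinset_card_of_nodup hl.1] at h2
    omega
  · obtain ⟨i, hi, hfail⟩ := exists_fail hl (fun h => by
      have := hs.A l h
      omega)
    have hnot : ∀ j (h : j < l.length), l[j] ≠ u ∧ l[j] ≠ v := by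
      intro j h
      have h1 : l[j] ∉ S := fun h' => h0 ((hall j h).mp h')
      exact ⟨fun h' => h1 (h' ▸ hu), fun h' => h1 (h' ▸ hv)⟩
    have hup := inc_idx hl i hi
    have h1 := hnot i (by omega)
    have h2 := hnot (i + 1) hi
    apply hfail
    refine ⟨?_, ?_⟩
    · have := hup.1
      rw [sup_edge_adj] at this
      tauto
    · have h3 := hup.2
      have hd : ∀ x, x ≠ u → x ≠ v → deg (G ⊔ edge u v) x = deg G x := by
        intro x hxu hxv
        unfold deg
        have : (G ⊔ edge u v).neighborSet x = G.neighborSet x := by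
          ext y
          rw [mem_neighborSet, mem_neighborSet, sup_edge_adj]
          tauto
        rw [this]
      rwa [hd _ h1.1 h1.2, hd _ h2.1 h2.2] at h3

end Pool.Agent.Q115.Mono
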