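import Pool.Agent.Q115.FiveBase

namespace Pool.Agent.Q115.Mono

open SimpleGraph

variable {V : Type*} [Finite V] {G : SimpleGraph V}

/-- the end of all arguments about four-cycles -/
theorem no_four_cycle (hs : Sat5 G) {y x p u : V} (hn : [y, x, p, u].Nodup)
    (hyx : G.Adj y x) (hxp : G.Adj x p) (hpu : G.Adj p u) (huy : G.Adj u y)
    (dy : deg G y ≤ 2) (dx : deg G x ≤ 2) (dp : deg G p ≤ 2) (du : deg G u ≤ 2) : False := by
  classical
  simp only [List.nodup_cons, List.mem_cons, List.not_mem_nil, or_false, not_or,
    List.nodup_nil, and_true, not_false_eq_true] at hn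
  obtain ⟨⟨nyx, nyp, nyu⟩, ⟨nxp, nxu⟩, npu⟩ := hn
  have h := closed_small hs {y, x, p, u} Finset.card_le_four (by
    intro a ha b hab
    simp only [Finset.mem_insert, Finset.mem_singleton] at ha ⊢
    rcases ha with rfl | rfl | rfl | rfl
    · rcases nbr_two dy hyx huy.symm nxu hab with h | h <;> tauto
    · rcases nbr_two dx hyx.symm hxp nyp hab with h | h <;> tauto
    · rcases nbr_two dp hxp.symm hpu nxu hab with h | h <;> tauto
    · rcases nbr_two du hpu.symm huy (Ne.symm nyp) hab with h | h <;> tauto)
    (u := x) (v := u) (by simp) (by simp) nxu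
  rcases nbr_two dx hyx.symm hxp nyp h with h | h
  · exact nyu h.symm
  · exact npu h.symm

theorem low_path (hs : Sat5 G) {w : V} (hmax : ∀ x, deg G x ≤ deg G w) (hw : 3 ≤ deg G w)
    {u : V} (hu : deg G u = 2) (hlow : ∀ x, G.Adj u x → deg G x ≤ 2) :
    ∃ y x p, [y, x, p, u].Nodup ∧ G.Adj y x ∧ G.Adj x p ∧ G.Adj p u ∧
      deg G y ≤ deg G x ∧ deg G x ≤ deg G p := by
  have huw : u ≠ w := by
    rintro rfl
    omega
  have hadj : ¬ G.Adj u w := by
    intro h
    have := hlow w h
    omega
  rcases lemW hs huw hadj hmax (by omega) with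
    ⟨p, hp, -, hd, -⟩ | ⟨y, x, p, hn, -, -, -, h1, h2, h3, h4, h5, -⟩
  · have := hlow p hp.symm
    omega
  · exact ⟨y, x, p, hn, h1, h2, h3, h4, h5⟩

/-- a vertex of degree two has a neighbour of degree at least three -/
theorem no_low (hs : Sat5 G) {w : V} (hmax : ∀ x, deg G x ≤ deg G w) (hw : 3 ≤ deg G w)
    {u : V} (hu : deg G u = 2) (hlow : ∀ x, G.Adj u x → deg G x ≤ 2) : False := by
  obtain ⟨y, x, p, hn, hyx, hxp, hpu, d1, d2⟩ := low_path hs hmax hw hu hlow
  have hn0 := hn
  simp only [List.nodup_cons, List.mem_cons, List.not_mem_nil, or_false, not_or,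
    List.nodup_nil, and_true, not_false_eq_true] at hn
  obtain ⟨⟨nyx, nyp, nyu⟩, ⟨nxp, nxu⟩, npu⟩ := hn
  have dp : deg G p = 2 := by
    have h1 := hlow p hpu.symm
    have h2 := two_le_deg hxp.symm hpu nxu
    omega
  have dx : deg G x = 2 := by
    have h2 := two_le_deg hyx.symm hxp nyp
    omega
  have dy : deg G y ≤ 2 := by omega
  have nadj : ¬ G.Adj x u := by
    intro h
    rcases nbr_two dx.le hyx.symm hxp nyp h with h | h
    · exact nyu h.symm
    · exact npu h.symm
  obtain ⟨y', x', p', hn', hyx', hxp', hpp, d1', d2'⟩ := low_path hs hmax hw dp (by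
    intro z hz
    rcases nbr_two dp.le hxp.symm hpu nxu hz with rfl | rfl
    · omega
    · omega)
  simp only [List.nodup_cons, List.mem_cons, List.not_mem_nil, or_false, not_or,
    List.nodup_nil, and_true, not_false_eq_true] at hn'
  obtain ⟨⟨nyx', nyp', nyp2⟩, ⟨nxp', nxp2⟩, npp⟩ := hn'
  rcases nbr_two dp.le hxp.symm hpu nxu hpp.symm with rfl | rfl
  · -- `p' = x`
    rcases nbr_two dx.le hyx.symm hxp nyp hxp'.symm with rfl | rfl
    · by_cases h : y' = u
      · subst h
        exact no_four_cycle hs hn0 hyx hxp hpu hyx' dy dx.le dp.le hu.le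
      · have dy2 : deg G x' = 2 := by
          have := two_le_deg hyx'.symm hyx nyp'
          omega
        refine no_five hs (a := y') (b := x') (c := p') (d := p) (e := u)
          ⟨hyx', d1'⟩ ⟨hyx, by omega⟩ ⟨hxp, by omega⟩ ⟨hpu, by omega⟩ ?_
        simp only [List.nodup_cons, List.mem_cons, List.not_mem_nil, or_false, not_or,
          List.nodup_nil, and_true, not_false_eq_true]
        tauto
    · exact absurd rfl nxp2
  · -- `p' = u`
    have dq : deg G x' = 2 := by
      have h1 := hlow x' hxp'.symm
      have h2 := two_le_deg hyx'.symm hxp' nyp'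
      omega
    have nqx : x' ≠ x := by
      rintro rfl
      exact nadj hxp'
    by_cases h : y' = x
    · subst h
      rcases nbr_two dx.le hyx.symm hxp nyp hyx' with h | h
      · subst h
        exact no_four_cycle hs hn0 hyx hxp hpu hxp'.symm dq.le dx.le dp.le hu.le
      · exact nxp2 h
    · refine no_five hs (a := y') (b := x') (c := p') (d := p) (e := x)
        ⟨hyx', d1'⟩ ⟨hxp', by omega⟩ ⟨hpu.symm, by omega⟩ ⟨hxp.symm, by omega⟩ ?_
      simp only [List.nodup_cons, List.mem_cons, List.not_mem_nil, or_false, not_or,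
        List.nodup_nil, and_true, not_false_eq_true]
      have nxp3 := Ne.symm nxp
      have npu3 := Ne.symm npu
      have nxu3 := Ne.symm nxu
      tauto

/-- no isolated vertices -/
theorem no_isolated (hs : Sat5 G) {w : V} (hmax : ∀ x, deg G x ≤ deg G w)
    (hn : ∀ v : V, ∃ v' : V, v' ≠ v) (u : V) : 1 ≤ deg G u := by
  by_contra hcon
  have hu : deg G u = 0 := by omega
  by_cases hw : deg G w = 0
  · obtain ⟨v, hv⟩ := hn w
    have hz : ∀ x, deg G x = 0 := fun x => by
      have := hmax x
      omega
    have hadj : ¬ G.Adj v w := by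
      intro h
      have := one_le_deg h
      rw [hz] at this
      omega
    obtain ⟨y, x, p, z, -, -, h1, -⟩ := lemE hs hv hadj hmax (by rw [hz, hz])
    have := one_le_deg h1
    rw [hz] at this
    omega
  · have huw : u ≠ w := by
      rintro rfl
      exact hw hu
    have hadj : ¬ G.Adj u w := by
      intro h
      have := one_le_deg h
      omega
    rcases lemW hs huw hadj hmax (by omega) with ⟨p, hp, -⟩ | ⟨y, x, p, -, -, -, -, -, -, hp, -⟩
    · have := one_le_deg hp.symm
      omega
    · have := one_le_deg hp.symm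
      omega

/-- there is a vertex of degree at least three -/
theorem exists_three [Fintype V] (hs : Sat5 G) (hn : 4 ≤ Fintype.card V) :
    ∃ w, 3 ≤ deg G w := by
  classical
  by_contra hcon
  push Not at hcon
  have h2 : ∀ v, deg G v ≤ 2 := fun v => by
    have := hcon v
    omega
  -- avoid few vertices
  have havoid : ∀ S : Finset V, S.card ≤ 3 → ∃ v, v ∉ S := by
    intro S hS
    by_contra h
    push Not at h
    have : S = Finset.univ := Finset.eq_univ_iff_forall.mpr h
    rw [this, Finset.card_univ] at hS
    omega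
  obtain ⟨v0, -⟩ := havoid ∅ (by simp)
  obtain ⟨w, hw⟩ : ∃ w, ∀ x, deg G x ≤ deg G w := by
    obtain ⟨w, -, hw⟩ := Finset.exists_max_image Finset.univ (deg G) ⟨v0, Finset.mem_univ _⟩
    exact ⟨w, fun x => hw x (Finset.mem_univ _)⟩
  have hiso : ∀ u, 1 ≤ deg G u := no_isolated hs hw (fun v => by
    obtain ⟨v', hv'⟩ := havoid {v} (by simp)
    exact ⟨v', by simpa using hv'⟩)
  -- the maximum degree is two
  have hw2 : deg G w = 2 := by
    by_contra hne
    have h1 : ∀ v, deg G v = 1 := fun v => by
      have a := hw v
      have b := h2 w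
      have c := hiso v
      omega
    obtain ⟨b, hb⟩ := exists_nbr (hiso w)
    obtain ⟨c, hc⟩ := havoid {w, b} ((Finset.card_le_two).trans (by omega))
    obtain ⟨d, hd⟩ := exists_nbr (hiso c)
    simp only [Finset.mem_insert, Finset.mem_singleton, not_or] at hc
    have := closed_small hs {w, b, c, d} Finset.card_le_four (by
      intro x hx y hxy
      simp only [Finset.mem_insert, Finset.mem_singleton] at hx ⊢
      rcases hx with rfl | rfl | rfl | rfl
      · have := nbr_one (h1 _).le hb hxy; tauto
      · have := nbr_one (h1 _).le hb.symm hxy; tauto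
      · have := nbr_one (h1 _).le hd hxy; tauto
      · have := nbr_one (h1 _).le hd.symm hxy; tauto) (u := w) (v := c) (by simp) (by simp)
      (Ne.symm hc.1)
    exact hc.2 (nbr_one (h1 _).le hb this)
  -- neighbours of vertices of degree two have degree two
  have hnbr : ∀ v, deg G v = 2 → ∀ y, G.Adj v y → deg G y = 2 := by
    intro v hv y hy
    by_contra hne
    have hy1 : deg G y = 1 := by
      have := h2 y
      have := hiso y
      omega
    obtain ⟨x, hxy, hx⟩ := exists_other hv.ge y
    by_cases hx2 : deg G x = 2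
    · have hadj : ¬ G.Adj y x := by
        intro h
        have := nbr_one hy1.le hy.symm h
        exact G.loopless.irrefl v (this ▸ hx)
      rcases lemW hs (Ne.symm hxy) hadj (fun z => by rw [hx2]; exact h2 z) (by omega) with
        ⟨p, hp, hpx, -, ⟨x', h3, h4, h5, -⟩ | ⟨s, h3, h4⟩⟩ |
        ⟨y', x', p, hnd, -, h3, -, -, h5, hp, -⟩
      · have hpv : p = v := nbr_one hy1.le hy.symm hp.symm
        subst hpv
        rcases nbr_two hv.le hy hx (Ne.symm hxy) h5.symm with h | h
        · exact h3 h
        · exact h4 h
      · exact h3 (nbr_one hy1.le hp.symm h4)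
      · have hpv : p = v := nbr_one hy1.le hy.symm hp.symm
        subst hpv
        simp only [List.nodup_cons, List.mem_cons, List.not_mem_nil, or_false, not_or,
          List.nodup_nil, and_true, not_false_eq_true] at hnd
        rcases nbr_two hv.le hy hx (Ne.symm hxy) h5.symm with h | h
        · exact hnd.2.1.2 h
        · exact h3 h
    · have hx1 : deg G x = 1 := by
        have := h2 x
        have := hiso x
        omega
      have := closed_small hs {v, x, y} (Finset.card_le_three.trans (by omega)) (by
        intro a ha b hab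
        simp only [Finset.mem_insert, Finset.mem_singleton] at ha ⊢
        rcases ha with rfl | rfl | rfl
        · have := nbr_two hv.le hy hx (Ne.symm hxy) hab; tauto
        · have := nbr_one hx1.le hx.symm hab; tauto
        · have := nbr_one hy1.le hy.symm hab; tauto) (u := x) (v := y) (by simp) (by simp)
        hxy
      have h3 := nbr_one hx1.le hx.symm this
      exact G.loopless.irrefl v (h3 ▸ hy)
  have hall : ∀ v, deg G v = 2 := by
    intro v
    by_contra hne
    have hv1 : deg G v = 1 := by
      have := h2 v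
      have := hiso v
      omega
    have hvw : v ≠ w := by
      rintro rfl
      exact hne hw2
    have hadj : ¬ G.Adj v w := fun h => hne (hnbr w hw2 v h.symm)
    rcases lemW hs hvw hadj hw (by omega) with
      ⟨p, hp, -, hd, -⟩ | ⟨y', x', p, hnd, -, -, -, -, h5, hp, -⟩
    · exact hne (hnbr p (by omega) v hp)
    · simp only [List.nodup_cons, List.mem_cons, List.not_mem_nil, or_false, not_or,
        List.nodup_nil, and_true, not_false_eq_true] at hnd
      have h6 := two_le_deg h5.symm hp hnd.2.1.2
      have h7 := h2 p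
      exact hne (hnbr p (by omega) v hp)
  obtain ⟨a, ha⟩ := exists_nbr (hiso w)
  obtain ⟨b, hba, hb⟩ := exists_other hw2.ge a
  obtain ⟨v, hv⟩ := havoid {w, a, b} Finset.card_le_three
  simp only [Finset.mem_insert, Finset.mem_singleton, not_or] at hv
  have hadj : ¬ G.Adj v w := by
    intro h
    rcases nbr_two hw2.le ha hb (Ne.symm hba) h.symm with h | h
    · exact hv.2.1 h
    · exact hv.2.2 h
  obtain ⟨y, x, p, z, -, hnd, hyx, hxp, hpz, -⟩ := lemE hs hv.1 hadj hw (by rw [hall, hall])
  have hnd0 := hnd
  simp only [List.nodup_cons, List.mem_cons, List.not_mem_nil, or_false, not_or,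
    List.nodup_nil, and_true, not_false_eq_true] at hnd
  obtain ⟨⟨nyx, nyp, nyz⟩, ⟨nxp, nxz⟩, npz⟩ := hnd
  obtain ⟨t, htp, ht⟩ := exists_other (hall z).ge p
  by_cases hty : t = y
  · subst hty
    exact no_four_cycle hs hnd0 hyx hxp hpz ht (h2 _) (h2 _) (h2 _) (h2 _)
  · have htx : t ≠ x := by
      rintro rfl
      rcases nbr_two (h2 t) hyx.symm hxp nyp ht.symm with h | h
      · exact nyz h.symm
      · exact npz h.symm
    have htz : t ≠ z := by
      rintro rfl
      exact G.loopless.irrefl _ ht
    refine no_five hs (a := y) (b := x) (c := p) (d := z) (e := t) ⟨hyx, ?_⟩ ⟨hxp, ?_⟩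
      ⟨hpz, ?_⟩ ⟨ht, ?_⟩ ?_
    · rw [hall, hall]
    · rw [hall, hall]
    · rw [hall, hall]
    · rw [hall, hall]
    · simp only [List.nodup_cons, List.mem_cons, List.not_mem_nil, or_false, not_or,
        List.nodup_nil, and_true, not_false_eq_true]
      have := Ne.symm hty
      have := Ne.symm htx
      have := Ne.symm htp
      have := Ne.symm htz
      tauto

/-- a leaf is adjacent to every vertex of maximum degree -/
theorem leaf_adj (hs : Sat5 G) {w : V} (hmax : ∀ x, deg G x ≤ deg G w) (hw : 3 ≤ deg G w)
    {u : V} (hu : deg G u = 1) : G.Adj u w := by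
  by_contra hadj
  have huw : u ≠ w := by
    rintro rfl
    omega
  rcases lemW hs huw hadj hmax (by omega) with
    ⟨p, hp, -, hd, ⟨x, h1, -, h3, h4⟩ | ⟨s, h1, h3⟩⟩ |
    ⟨y, x, p, hnd, -, -, -, -, h5, hp, -, h6, h7⟩
  · refine no_low hs hmax hw (u := p) (by omega) ?_
    intro z hz
    rcases nbr_two (by omega) h3.symm hp h1 hz with rfl | rfl
    · omega
    · omega
  · exact h1 (nbr_one hu.le hp.symm h3)
  · simp only [List.nodup_cons, List.mem_cons, List.not_mem_nil, or_false, not_or,
      List.nodup_nil, and_true, not_false_eq_true] at hnd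
    have h8 := two_le_deg h5.symm hp hnd.2.1.2
    refine no_low hs hmax hw (u := p) (by omega) ?_
    intro z hz
    rcases nbr_two (by omega) h5.symm hp hnd.2.1.2 hz with rfl | rfl
    · omega
    · omega

/-- there is at most one leaf -/
theorem leaf_unique (hs : Sat5 G) {w : V} (hmax : ∀ x, deg G x ≤ deg G w)
    (hw : 3 ≤ deg G w) {a b : V} (ha : deg G a = 1) (hb : deg G b = 1) : a = b := by
  by_contra hab
  have haw := leaf_adj hs hmax hw ha
  have hbw := leaf_adj hs hmax hw hb
  have huniq : ∀ z, deg G z = deg G w → z = w := by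
    intro z hz
    have h1 : G.Adj a z := leaf_adj hs (fun x => by rw [hz]; exact hmax x) (by omega) ha
    exact nbr_one ha.le haw h1
  have nbw : w ≠ b := by
    rintro rfl
    omega
  have naw : w ≠ a := by
    rintro rfl
    omega
  have hadj : ¬ G.Adj a b := by
    intro h
    exact nbw (nbr_one ha.le haw h).symm
  obtain ⟨l, hl, hlen⟩ := hs.B a b hab hadj
  have ha' := deg_sup_left hab hadj
  have hb' := deg_sup_right hab hadj
  have ho : ∀ x, x ≠ a → x ≠ b → deg (G ⊔ edge a b) x = deg G x := fun x => deg_sup_other
  have hw' := ho w naw nbw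
  have hne : ∀ j k (hj : j < l.length) (hk : k < l.length), j ≠ k → l[j] ≠ l[k] :=
    fun j k hj hk hjk h => hjk (inc_inj hl hj hk h)
  -- neighbours of `a` and `b` in the new graph
  have hna : ∀ x, (G ⊔ edge a b).Adj a x → x = w ∨ x = b := by
    intro x hx
    rw [sup_edge_adj] at hx
    rcases hx with hx | ⟨⟨-, hx⟩ | ⟨hx, -⟩, -⟩
    · exact Or.inl (nbr_one ha.le haw hx)
    · exact Or.inr hx
    · exact absurd hx hab
  have hnb : ∀ x, (G ⊔ edge a b).Adj b x → x = w ∨ x = a := by
    intro x hx
    rw [sup_edge_adj] at hx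
    rcases hx with hx | ⟨⟨hx, -⟩ | ⟨-, hx⟩, -⟩
    · exact Or.inl (nbr_one hb.le hbw hx)
    · exact absurd hx.symm hab
    · exact Or.inr hx
  -- `w` is the last vertex
  have hlast : ∀ i (h : i + 1 < l.length), l[i] ≠ w := by
    intro i h hi
    have h1 := (inc_idx hl i h).2
    rw [hi, hw'] at h1
    have hx : l[i + 1] ≠ w := by
      rw [← hi]
      exact (hne _ _ _ _ (by omega))
    by_cases h2 : l[i + 1] = a
    · rw [h2, ha'] at h1
      omega
    · by_cases h3 : l[i + 1] = b
      · rw [h3, hb'] at h1
        omega
      · rw [ho _ h2 h3] at h1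
        exact hx (huniq _ (le_antisymm (hmax _) h1))
  -- hence `a`, `b` do not occur
  have hno : ∀ i (h : i < l.length), l[i] ≠ a ∧ l[i] ≠ b := by
    -- among three consecutive vertices the middle one is neither `a` nor `b`
    have hmid : ∀ i (h : i + 2 < l.length), l[i + 1] ≠ a ∧ l[i + 1] ≠ b := by
      intro i h
      have h1 := inc_idx hl i (by omega)
      have h2 := inc_idx hl (i + 1) h
      have h3 := hlast i (by omega)
      have h4 : l[i] ≠ l[i + 1 + 1] := hne _ _ _ _ (by omega)
      constructor
      · intro h5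
        rw [h5] at h1 h2
        have h6 := hna _ h1.1.symm
        have h7 := hna _ h2.1
        have h8 : l[i] = b := by tauto
        have h9 : l[i + 1 + 1] = w := by
          rcases h7 with h7 | h7
          · exact h7
          · exact absurd (h8.trans h7.symm) h4
        have h10 : i + 1 + 2 = l.length := by
          by_contra h11
          exact hlast (i + 1 + 1) (by omega) h9
        -- so the path is `…, b, a, w`
        obtain ⟨j, rfl⟩ : ∃ j, i = j + 1 := ⟨i - 1, by omega⟩
        have h12 := inc_idx hl j (by omega)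
        have h13 : (G ⊔ edge a b).Adj b l[j] := by
          have h15 := h12.1.symm
          rw [h8] at h15
          exact h15
        rcases hnb _ h13 with h14 | h14
        · exact hlast j (by omega) h14
        · have : l[j] ≠ l[j + 1 + 1] := hne _ _ _ _ (by omega)
          exact this (h14.trans h5.symm)
      · intro h5
        rw [h5] at h1 h2
        have h6 := hnb _ h1.1.symm
        have h7 := hnb _ h2.1
        have h8 : l[i] = a := by tauto
        have h9 : l[i + 1 + 1] = w := by
          rcases h7 with h7 | h7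
          · exact h7
          · exact absurd (h8.trans h7.symm) h4
        have h10 : i + 1 + 2 = l.length := by
          by_contra h11
          exact hlast (i + 1 + 1) (by omega) h9
        obtain ⟨j, rfl⟩ : ∃ j, i = j + 1 := ⟨i - 1, by omega⟩
        have h12 := inc_idx hl j (by omega)
        have h13 : (G ⊔ edge a b).Adj a l[j] := by
          have h15 := h12.1.symm
          rw [h8] at h15
          exact h15
        rcases hna _ h13 with h14 | h14
        · exact hlast j (by omega) h14
        · have : l[j] ≠ l[j + 1 + 1] := hne _ _ _ _ (by omega)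
          exact this (h14.trans h5.symm)
    intro i h
    rcases Nat.eq_zero_or_pos i with h0 | h0
    · subst h0
      have h1 := inc_idx hl 0 (by omega)
      have h2 := hmid 0 (by omega)
      have h3 := hlast 1 (by omega)
      constructor
      · intro h4
        rw [h4] at h1
        rcases hna _ h1.1 with h5 | h5
        · exact h3 h5
        · exact h2.2 h5
      · intro h4
        rw [h4] at h1
        rcases hnb _ h1.1 with h5 | h5
        · exact h3 h5
        · exact h2.1 h5
    · obtain ⟨j, rfl⟩ : ∃ j, i = j + 1 := ⟨i - 1, by omega⟩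
      by_cases hj : j + 2 < l.length
      · exact hmid j hj
      · obtain ⟨k, rfl⟩ : ∃ k, j = k + 1 := ⟨j - 1, by omega⟩
        have h1 := inc_idx hl (k + 1) (by omega)
        have h2 := hmid k (by omega)
        have h3 := hlast (k + 1) (by omega)
        constructor
        · intro h4
          rw [h4] at h1
          rcases hna _ h1.1.symm with h5 | h5
          · exact h3 h5
          · exact h2.2 h5
        · intro h4
          rw [h4] at h1
          rcases hnb _ h1.1.symm with h5 | h5
          · exact h3 h5
          · exact h2.1 h5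
  obtain ⟨i, hi, hfail⟩ := exists_fail hl (fun h => by
    have := hs.A l h
    omega)
  have h1 := hno i (by omega)
  have h2 := hno (i + 1) hi
  have hup := inc_idx hl i hi
  apply hfail
  refine ⟨?_, ?_⟩
  · have := hup.1
    rw [sup_edge_adj] at this
    tauto
  · have := hup.2
    rwa [ho _ h1.1 h1.2, ho _ h2.1 h2.2] at this

/-- at most one vertex of degree three has only neighbours of degree two -/
theorem bad_unique (hs : Sat5 G) {w : V} (hmax : ∀ x, deg G x ≤ deg G w)
    (hw : 3 ≤ deg G w) {a b : V} (ha : deg G a = 3) (hb : deg G b = 3)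
    (ha2 : ∀ x, G.Adj a x → deg G x = 2) (hb2 : ∀ x, G.Adj b x → deg G x = 2) : a = b := by
  by_contra hab
  have key : ∀ y x p : V, [y, x, p].Nodup → G.Adj y x → G.Adj x p → deg G p = 2 →
      deg G y ≤ deg G x → deg G x ≤ deg G p → False := by
    intro y x p hnd h1 h2 h3 h4 h5
    simp only [List.nodup_cons, List.mem_cons, List.not_mem_nil, or_false, not_or,
      List.nodup_nil, and_true, not_false_eq_true] at hnd
    have h6 := two_le_deg h1.symm h2 hnd.1.2
    refine no_low hs hmax hw (u := x) (by omega) ?_
    intro z hz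
    rcases nbr_two (by omega) h1.symm h2 hnd.1.2 hz with rfl | rfl
    · omega
    · omega
  by_cases h3 : deg G w = 3
  · have hadj : ¬ G.Adj a b := by
      intro h
      have := ha2 b h
      omega
    obtain ⟨y, x, p, z, hz, hnd, h4, h5, h6, h7, h8⟩ := lemE hs hab hadj
      (fun x => by rw [hb, ← h3]; exact hmax x) (by rw [ha, hb])
    have hp : deg G p = 2 := by
      rcases hz with rfl | rfl
      · exact ha2 p h6.symm
      · exact hb2 p h6.symm
    refine key y x p ?_ h4 h5 hp h7 h8
    simp only [List.nodup_cons, List.mem_cons, List.not_mem_nil, or_false, not_or,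
      List.nodup_nil, and_true, not_false_eq_true] at hnd ⊢
    tauto
  · have haw : a ≠ w := by
      rintro rfl
      exact h3 ha
    have hadj : ¬ G.Adj a w := by
      intro h
      have := ha2 w h
      omega
    rcases lemW hs haw hadj hmax (by omega) with
      ⟨p, hp, -, hd, -⟩ | ⟨y, x, p, hnd, -, -, -, h4, h5, h6, h7, h8, -⟩
    · have := ha2 p hp.symm
      omega
    · refine key y x p ?_ h4 h5 (ha2 p h6.symm) h7 h8
      simp only [List.nodup_cons, List.mem_cons, List.not_mem_nil, or_false, not_or,
        List.nodup_nil, and_true, not_false_eq_true] at hnd ⊢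
      tauto

end Pool.Agent.Q115.Mono
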