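import Pool.Agent.Q115.FiveLower

namespace Pool.Agent.Q115.Mono

open SimpleGraph

variable {V : Type*} {G : SimpleGraph V}

/-- the handshake lemma in the present notation -/
theorem sum_deg [Fintype V] (G : SimpleGraph V) : ∑ v, deg G v = 2 * G.edgeSet.ncard := by
  classical
  have h1 : ∀ v, deg G v = G.degree v := by
    intro v
    unfold deg
    rw [← G.card_neighborSet_eq_degree, ← Nat.card_eq_fintype_card, Nat.card_coe_set_eq]
  have h2 : G.edgeSet.ncard = G.edgeFinset.card := by
    rw [← coe_edgeFinset, Set.ncard_coe_finset]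
  rw [h2, ← G.sum_degrees_eq_twice_card_edges]
  exact Finset.sum_congr rfl fun v _ => h1 v

open Classical in
/-- number of neighbours of degree two -/
noncomputable def N2 [Fintype V] (G : SimpleGraph V) (v : V) : ℕ :=
  (Finset.univ.filter fun x => G.Adj v x ∧ deg G x = 2).card

theorem N2_le [Fintype V] (v : V) : N2 G v ≤ deg G v := by
  classical
  unfold N2 deg
  rw [← Set.ncard_coe_finset]
  apply Set.ncard_le_ncard _ (Set.toFinite _)
  intro x hx
  simp only [Finset.coe_filter, Finset.mem_univ, true_and, Set.mem_ofPred_eq] at hx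
  exact hx.1

theorem N2_eq_deg [Fintype V] {v : V} (h : deg G v ≤ N2 G v) {x : V} (hx : G.Adj v x) :
    deg G x = 2 := by
  classical
  unfold N2 deg at h
  rw [← Set.ncard_coe_finset] at h
  have h1 : ((Finset.univ.filter fun x => G.Adj v x ∧ (G.neighborSet x).ncard = 2 :
      Finset V) : Set V) ⊆ G.neighborSet v := by
    intro x hx
    simp only [Finset.coe_filter, Finset.mem_univ, true_and, Set.mem_ofPred_eq] at hx
    exact hx.1
  have h2 := Set.eq_of_subset_of_ncard_le h1 h (Set.toFinite _)
  have h3 : x ∈ G.neighborSet v := hx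
  rw [← h2] at h3
  simp only [Finset.coe_filter, Finset.mem_univ, true_and, Set.mem_ofPred_eq] at h3
  exact h3.2

open Classical in
/-- the number of neighbours of degree at least three -/
noncomputable def NH [Fintype V] (G : SimpleGraph V) (v : V) : ℕ :=
  (Finset.univ.filter fun x => G.Adj v x ∧ 3 ≤ deg G x).card

open Classical in
/-- double counting of pairs (hub, neighbour of degree two) -/
theorem double_count [Fintype V] (G : SimpleGraph V) :
    ∑ v, (if 3 ≤ deg G v then N2 G v else 0) = ∑ x, (if deg G x = 2 then NH G x else 0) := by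
  have h1 : ∀ v, (if 3 ≤ deg G v then N2 G v else 0) =
      ∑ x, (if (G.Adj v x ∧ 3 ≤ deg G v) ∧ deg G x = 2 then 1 else 0) := by
    intro v
    unfold N2
    rw [Finset.card_filter]
    split_ifs with h
    · apply Finset.sum_congr rfl
      intro x _
      simp [h]
    · symm
      apply Finset.sum_eq_zero
      intro x _
      simp [h]
  have h2 : ∀ x, (if deg G x = 2 then NH G x else 0) =
      ∑ v, (if (G.Adj v x ∧ 3 ≤ deg G v) ∧ deg G x = 2 then 1 else 0) := by
    intro x
    unfold NH
    rw [Finset.card_filter]
    split_ifs with h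
    · apply Finset.sum_congr rfl
      intro v _
      simp [h, G.adj_comm v x]
    · symm
      apply Finset.sum_eq_zero
      intro v _
      simp [h]
  rw [Finset.sum_congr rfl fun v _ => h1 v, Finset.sum_congr rfl fun x _ => h2 x,
    Finset.sum_comm]

/-- the degrees inside the set of vertices of degree two have even sum -/
theorem even_two [Fintype V] (G : SimpleGraph V) :
    ∃ m, ∑ v, (if deg G v = 2 then N2 G v else 0) = 2 * m := by
  classical
  let G2 : SimpleGraph V :=
    { Adj := fun a b => G.Adj a b ∧ deg G a = 2 ∧ deg G b = 2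
      symm := ⟨fun _ _ h => ⟨h.1.symm, h.2.2, h.2.1⟩⟩
      loopless := ⟨fun a h => G.loopless.irrefl a h.1⟩ }
  refine ⟨G2.edgeSet.ncard, ?_⟩
  rw [← sum_deg G2]
  apply Finset.sum_congr rfl
  intro v _
  unfold N2
  by_cases h : deg G v = 2
  · rw [if_pos h]
    show _ = (G2.neighborSet v).ncard
    rw [← Set.ncard_coe_finset]
    congr 1
    ext x
    simp [G2, h]
  · rw [if_neg h]
    show _ = (G2.neighborSet v).ncard
    have : G2.neighborSet v = ∅ := by
      ext x
      simp [G2, h]
    rw [this, Set.ncard_empty]

/-- a hub of degree three with three neighbours of degree two forces maximum degree three -/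
theorem bad_max [Finite V] (hs : Sat5 G) {w : V} (hmax : ∀ x, deg G x ≤ deg G w)
    (hw : 3 ≤ deg G w) {a : V} (ha : deg G a = 3)
    (ha2 : ∀ x, G.Adj a x → deg G x = 2) : deg G w = 3 := by
  by_contra h3
  have haw : a ≠ w := by
    rintro rfl
    exact h3 ha
  have hadj : ¬ G.Adj a w := by
    intro h
    have := ha2 w h
    omega
  rcases lemW hs haw hadj hmax (by omega) with
    ⟨p, hp, -, hd, -⟩ | ⟨y, x, p, hnd, -, -, -, h4, h5, h6, h7, h8, -⟩
  · have := ha2 p hp.symm
    omega
  · have h9 := ha2 p h6.symm
    simp only [List.nodup_cons, List.mem_cons, List.not_mem_nil, or_false, not_or,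
      List.nodup_nil, and_true, not_false_eq_true] at hnd
    have h10 := two_le_deg h4.symm h5 hnd.1.2.1
    refine no_low hs hmax hw (u := x) (by omega) ?_
    intro z hz
    rcases nbr_two (by omega) h4.symm h5 hnd.1.2.1 hz with rfl | rfl
    · omega
    · omega

/-- with a leaf present the maximum degree is at least four -/
theorem leaf_four [Fintype V] (hs : Sat5 G) {w : V} (hmax : ∀ x, deg G x ≤ deg G w)
    (hw : 3 ≤ deg G w) (hpos : ∀ v, 1 ≤ deg G v) {u : V} (hu : deg G u = 1) :
    4 ≤ deg G w := by
  classical
  by_contra hcon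
  have hw3 : deg G w = 3 := by omega
  have huw := leaf_adj hs hmax hw hu
  have huniq : ∀ z, deg G z = deg G w → z = w := by
    intro z hz
    have h1 : G.Adj u z := leaf_adj hs (fun x => by rw [hz]; exact hmax x) (by omega) hu
    exact nbr_one hu.le huw h1
  have hall : ∀ v, v = w ∨ G.Adj w v := by
    intro v
    have h1 := hpos v
    have h2 := hmax v
    rcases (by omega : deg G v = 1 ∨ deg G v = 2 ∨ deg G v = deg G w) with h | h | h
    · exact Or.inr (leaf_adj hs hmax hw h).symm
    · right
      by_contra h3
      refine no_low hs hmax hw h ?_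
      intro z hz
      by_contra h4
      have h5 := hmax z
      have : z = w := huniq z (by omega)
      exact h3 (this ▸ hz.symm)
    · exact Or.inl (huniq v h)
  have hcard : (Finset.univ : Finset V).card ≤ 4 := by
    have h1 : ((Finset.univ : Finset V) : Set V) ⊆ insert w (G.neighborSet w) := by
      intro v _
      rcases hall v with h | h
      · exact Or.inl h
      · exact Or.inr h
    have h2 := Set.ncard_le_ncard h1 (Set.toFinite _)
    rw [Set.ncard_coe_finset] at h2
    have h3 := Set.ncard_insert_le w (G.neighborSet w)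
    unfold deg at hw3
    omega
  obtain ⟨t, htu, ht⟩ := exists_other (G := G) (v := w) (by omega) u
  have h1 := closed_small hs Finset.univ hcard (fun a _ b _ => Finset.mem_univ b)
    (Finset.mem_univ u) (Finset.mem_univ t) (Ne.symm htu)
  have h2 := nbr_one hu.le huw h1
  exact G.loopless.irrefl w (h2 ▸ ht)

/-- with a leaf present the degree two neighbours of the top vertex have a second hub -/
theorem leaf_shared [Finite V] (hs : Sat5 G) {w : V} (hmax : ∀ x, deg G x ≤ deg G w)
    (hw : 4 ≤ deg G w) {u : V} (hu : deg G u = 1) {x : V} (hx : G.Adj w x)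
    (hdx : deg G x = 2) {x' : V} (hne' : x' ≠ w) (hx' : G.Adj x x') : 3 ≤ deg G x' := by
  by_contra hcon
  have hdx' : deg G x' ≤ 2 := by omega
  have huw := leaf_adj hs hmax (by omega) hu
  have huniq : ∀ z, deg G z = deg G w → z = w := by
    intro z hz
    have h1 : G.Adj u z := leaf_adj hs (fun x => by rw [hz]; exact hmax x) (by omega) hu
    exact nbr_one hu.le huw h1
  have nux : u ≠ x := by
    rintro rfl
    omega
  have nwx : w ≠ x := by
    rintro rfl
    omega
  have nwu : w ≠ u := by
    rintro rfl
    omega
  have hadj : ¬ G.Adj u x := by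
    intro h
    exact nwx (nbr_one hu.le huw h).symm
  obtain ⟨l, hl, hlen⟩ := hs.B u x nux hadj
  have hu' := deg_sup_left nux hadj
  have hxx' := deg_sup_right nux hadj
  have ho : ∀ z, z ≠ u → z ≠ x → deg (G ⊔ edge u x) z = deg G z := fun z => deg_sup_other
  have hw' := ho w nwu nwx
  have hne : ∀ j k (hj : j < l.length) (hk : k < l.length), j ≠ k → l[j] ≠ l[k] :=
    fun j k hj hk hjk h => hjk (inc_inj hl hj hk h)
  have hna : ∀ z, (G ⊔ edge u x).Adj u z → z = w ∨ z = x := by
    intro z hz
    rw [sup_edge_adj] at hz
    rcases hz with hz | ⟨⟨-, hz⟩ | ⟨hz, -⟩, -⟩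
    · exact Or.inl (nbr_one hu.le huw hz)
    · exact Or.inr hz
    · exact absurd hz nux
  have hnb : ∀ z, (G ⊔ edge u x).Adj x z → z = w ∨ z = x' ∨ z = u := by
    intro z hz
    rw [sup_edge_adj] at hz
    rcases hz with hz | ⟨⟨hz, -⟩ | ⟨-, hz⟩, -⟩
    · rcases nbr_two hdx.le hx.symm hx' (Ne.symm hne') hz with h | h
      · exact Or.inl h
      · exact Or.inr (Or.inl h)
    · exact absurd hz.symm nux
    · exact Or.inr (Or.inr hz)
  have hx'u : x' ≠ u := by
    rintro rfl
    exact hadj hx'.symm
  have hx'x : x' ≠ x := by
    rintro rfl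
    exact G.loopless.irrefl _ hx'
  -- `w` is the last vertex
  have hlast : ∀ i (h : i + 1 < l.length), l[i] ≠ w := by
    intro i h hi
    have h1 := (inc_idx hl i h).2
    rw [hi, hw'] at h1
    have hx2 : l[i + 1] ≠ w := by
      rw [← hi]
      exact (hne _ _ _ _ (by omega))
    by_cases h2 : l[i + 1] = u
    · rw [h2, hu'] at h1
      omega
    · by_cases h3 : l[i + 1] = x
      · rw [h3, hxx'] at h1
        omega
      · rw [ho _ h2 h3] at h1
        exact hx2 (huniq _ (le_antisymm (hmax _) h1))
  obtain ⟨i, hi, hfail⟩ := exists_fail hl (fun h => by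
    have := hs.A l h
    omega)
  have hup := inc_idx hl i hi
  by_cases hA : G.Adj l[i] l[i + 1]
  · have hd : deg G l[i + 1] < deg G l[i] := by
      by_contra hcon
      exact hfail ⟨hA, not_lt.mp hcon⟩
    have h2 := hup.2
    by_cases h3 : l[i + 1] = u
    · rw [h3] at hA
      exact hlast i hi (nbr_one hu.le huw hA.symm)
    · by_cases h4 : l[i + 1] = x
      · rw [h4] at hA hd
        rcases nbr_two hdx.le hx.symm hx' (Ne.symm hne') hA.symm with h | h
        · exact hlast i hi h
        · rw [h] at hd
          omega
      · rw [ho _ h3 h4] at h2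
        have := deg_mono (G := G) (G' := G ⊔ edge u x) le_sup_left l[i]
        omega
  · have h1 := hup.1
    rw [sup_edge_adj] at h1
    have h1' : (l[i] = u ∧ l[i + 1] = x) ∨ (l[i] = x ∧ l[i + 1] = u) := by tauto
    rcases h1' with ⟨h2, h3⟩ | ⟨h2, h3⟩
    · rcases Nat.eq_zero_or_pos i with h0 | h0
      · subst h0
        have h4 := inc_idx hl 1 (by omega)
        have h3' : l[1] = x := h3
        rw [h3'] at h4
        rcases hnb _ h4.1 with h5 | h5 | h5
        · exact hlast (1 + 1) (by omega) h5
        · have h6 := h4.2
          rw [h5, hxx', ho _ hx'u hx'x] at h6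
          omega
        · have h6 : l[0] ≠ l[1 + 1] := hne _ _ _ _ (by omega)
          exact h6 (h2.trans h5.symm)
      · obtain ⟨j, rfl⟩ : ∃ j, i = j + 1 := ⟨i - 1, by omega⟩
        have h4 := inc_idx hl j (by omega)
        rw [h2] at h4
        rcases hna _ h4.1.symm with h5 | h5
        · exact hlast j (by omega) h5
        · have h6 : l[j] ≠ l[j + 1 + 1] := hne _ _ _ _ (by omega)
          exact h6 (h5.trans h3.symm)
    · have h4 := hup.2
      rw [h2, h3, hxx', hu'] at h4
      omega

theorem lower_noleaf [Fintype V] (hs : Sat5 G) {w : V} (hmax : ∀ x, deg G x ≤ deg G w)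
    (hw : 3 ≤ deg G w) (hpos : ∀ v, 2 ≤ deg G v) :
    14 * Fintype.card V ≤ 6 * ∑ v, deg G v := by
  classical
  have hNH : ∀ x, deg G x = 2 → 1 ≤ NH G x := by
    intro x hx
    unfold NH
    rw [Nat.one_le_iff_ne_zero, Ne, Finset.card_eq_zero, Finset.filter_eq_empty_iff]
    intro h
    apply no_low hs hmax hw hx
    intro z hz
    have := h (Finset.mem_univ z)
    push Not at this
    have := this hz
    omega
  have hdc := double_count G
  by_cases hbad : ∃ a, deg G a = 3 ∧ ∀ x, G.Adj a x → deg G x = 2
  · obtain ⟨a, ha, ha2⟩ := hbad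
    have hw3 := bad_max hs hmax hw ha ha2
    have hdeg : ∀ v, deg G v = 2 ∨ deg G v = 3 := by
      intro v
      have := hpos v
      have := hmax v
      omega
    -- the hubs other than `a` have at most two neighbours of degree two
    have hN2 : ∀ v, deg G v = 3 → v ≠ a → N2 G v ≤ 2 := by
      intro v hv hva
      by_contra hcon
      have h3 : deg G v ≤ N2 G v := by omega
      exact hva (bad_unique hs hmax hw hv ha (fun x hx => N2_eq_deg h3 hx) ha2)
    have hsum1 : ∑ v, (if 3 ≤ deg G v then N2 G v else 0) ≤
        ∑ v, (if deg G v = 3 then 2 else 0) + 1 := by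
      have h4 : ∀ v, (if 3 ≤ deg G v then N2 G v else 0) ≤
          (if deg G v = 3 then 2 else 0) + (if v = a then 1 else 0) := by
        intro v
        rcases hdeg v with h | h
        · rw [if_neg (by omega)]
          exact Nat.zero_le _
        · rw [if_pos (by omega), if_pos h]
          by_cases hva : v = a
          · rw [if_pos hva]
            have := N2_le (G := G) v
            omega
          · rw [if_neg hva]
            have := hN2 v h hva
            omega
      calc _ ≤ ∑ v, ((if deg G v = 3 then 2 else 0) + (if v = a then 1 else 0)) :=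
            Finset.sum_le_sum fun v _ => h4 v
        _ = _ := by
            rw [Finset.sum_add_distrib, Finset.sum_ite_eq' Finset.univ a]
            simp
    set n2 := ∑ v, (if deg G v = 2 then 1 else 0) with hn2
    set n3 := ∑ v, (if deg G v = 3 then 1 else 0) with hn3
    have hs2 : ∑ v, (if deg G v = 3 then 2 else 0) = 2 * n3 := by
      rw [hn3, Finset.mul_sum]
      apply Finset.sum_congr rfl
      intro v _
      split_ifs <;> rfl
    have hsum2 : n2 ≤ ∑ x, (if deg G x = 2 then NH G x else 0) := by
      apply Finset.sum_le_sum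
      intro x _
      split_ifs with h
      · exact hNH x h
      · exact le_rfl
    have hcard : Fintype.card V = n2 + n3 := by
      rw [hn2, hn3, ← Finset.sum_add_distrib, Fintype.card_eq_sum_ones]
      apply Finset.sum_congr rfl
      intro v _
      rcases hdeg v with h | h <;> simp [h]
    have hsd : ∑ v, deg G v = 2 * n2 + 3 * n3 := by
      rw [hn2, hn3, Finset.mul_sum, Finset.mul_sum, ← Finset.sum_add_distrib]
      apply Finset.sum_congr rfl
      intro v _
      rcases hdeg v with h | h <;> simp [h]
    -- parity
    by_cases hcase : n2 ≤ 2 * n3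
    · rw [hcard, hsd]
      omega
    · exfalso
      have heq : ∑ x, (if deg G x = 2 then NH G x else 0) = n2 := by omega
      have hNH1 : ∀ x, deg G x = 2 → NH G x = 1 := by
        have h5 : ∀ x ∈ (Finset.univ : Finset V), (if deg G x = 2 then 1 else 0) ≤
            (if deg G x = 2 then NH G x else 0) := by
          intro x _
          split_ifs with h
          · exact hNH x h
          · exact le_rfl
        have h6 := (Finset.sum_eq_sum_iff_of_le h5).mp (by rw [heq])
        intro x hx
        have := h6 x (Finset.mem_univ x)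
        rw [if_pos hx, if_pos hx] at this
        exact this.symm
      obtain ⟨m, hm⟩ := even_two G
      have h7 : ∀ x, deg G x = 2 → N2 G x = 1 := by
        intro x hx
        have h8 : N2 G x + NH G x = deg G x := by
          unfold N2 NH
          rw [← Finset.card_union_of_disjoint]
          · unfold deg
            rw [← Set.ncard_coe_finset]
            congr 1
            ext z
            simp only [Finset.coe_union, Finset.coe_filter, Finset.mem_univ, true_and,
              Set.mem_union, Set.mem_ofPred_eq, mem_neighborSet]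
            have := hdeg z
            unfold deg at this
            constructor
            · rintro (h | h)
              · exact h.1
              · exact h.1
            · intro h
              rcases this with h9 | h9
              · exact Or.inl ⟨h, h9⟩
              · exact Or.inr ⟨h, by omega⟩
          · rw [Finset.disjoint_left]
            intro z hz hz'
            simp only [Finset.mem_filter, Finset.mem_univ, true_and] at hz hz'
            omega
        have := hNH1 x hx
        omega
      have h9 : ∑ v, (if deg G v = 2 then N2 G v else 0) = n2 := by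
        rw [hn2]
        apply Finset.sum_congr rfl
        intro v _
        split_ifs with h
        · exact h7 v h
        · rfl
      omega
  · push Not at hbad
    have hpt : ∀ v, 14 + 2 * (if 3 ≤ deg G v then N2 G v else 0) ≤
        6 * deg G v + 2 * (if deg G v = 2 then NH G v else 0) := by
      intro v
      have h1 := hpos v
      have h2 := N2_le (G := G) v
      rcases (by omega : deg G v = 2 ∨ deg G v = 3 ∨ 4 ≤ deg G v) with h | h | h
      · rw [if_neg (by omega), if_pos h]
        have := hNH v h
        omega
      · rw [if_pos (by omega), if_neg (by omega)]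
        have : N2 G v ≤ 2 := by
          by_contra hcon
          obtain ⟨x, hx, hx2⟩ := hbad v h
          exact hx2 (N2_eq_deg (by omega) hx)
        omega
      · rw [if_pos (by omega), if_neg (by omega)]
        omega
    have hsum := Finset.sum_le_sum fun v (_ : v ∈ Finset.univ) => hpt v
    rw [Finset.sum_add_distrib, Finset.sum_add_distrib, ← Finset.mul_sum, ← Finset.mul_sum,
      ← Finset.mul_sum, Finset.sum_const, Finset.card_univ, smul_eq_mul, hdc] at hsum
    omega

theorem lower_leaf [Fintype V] (hs : Sat5 G) {w : V} (hmax : ∀ x, deg G x ≤ deg G w)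
    (hw : 3 ≤ deg G w) (hpos : ∀ v, 1 ≤ deg G v) {u : V} (hu : deg G u = 1) :
    14 * Fintype.card V ≤ 6 * ∑ v, deg G v := by
  classical
  have hw4 := leaf_four hs hmax hw hpos hu
  have hNH : ∀ x, deg G x = 2 → 1 ≤ NH G x := by
    intro x hx
    unfold NH
    rw [Nat.one_le_iff_ne_zero, Ne, Finset.card_eq_zero, Finset.filter_eq_empty_iff]
    intro h
    apply no_low hs hmax hw hx
    intro z hz
    have := h (Finset.mem_univ z)
    push Not at this
    have := this hz
    omega
  have hNH2 : ∀ x, deg G x = 2 → G.Adj w x → 2 ≤ NH G x := by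
    intro x hx hwx
    obtain ⟨x', hne, hx'⟩ := exists_other hx.ge w
    have h3 := leaf_shared hs hmax hw4 hu hwx hx hne hx'
    unfold NH
    have h4 : ({w, x'} : Finset V) ⊆ Finset.univ.filter fun z => G.Adj x z ∧ 3 ≤ deg G z := by
      intro z hz
      simp only [Finset.mem_insert, Finset.mem_singleton] at hz
      simp only [Finset.mem_filter, Finset.mem_univ, true_and]
      rcases hz with rfl | rfl
      · exact ⟨hwx.symm, hw⟩
      · exact ⟨hx', h3⟩
    have h5 := Finset.card_le_card h4
    rwa [Finset.card_pair (Ne.symm hne)] at h5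
  have hdc := double_count G
  have hnobad : ∀ v, deg G v = 3 → N2 G v ≤ 2 := by
    intro v hv
    by_contra hcon
    have := bad_max hs hmax hw hv (fun x hx => N2_eq_deg (by omega) hx)
    omega
  have hleaf : ∀ v, deg G v = 1 → v = u := fun v hv => leaf_unique hs hmax hw hv hu
  have hpt : ∀ v, 14 + 2 * (if 3 ≤ deg G v then N2 G v else 0) +
      2 * (if deg G v = 2 ∧ G.Adj w v then 1 else 0) + (if v = w then 6 * deg G w else 0) ≤
      6 * deg G v + 2 * (if deg G v = 2 then NH G v else 0) + (if v = u then 8 else 0) +
      (if v = w then 14 + 2 * N2 G w else 0) := by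
    intro v
    have h1 := hpos v
    have h2 := N2_le (G := G) v
    rcases (by omega : deg G v = 1 ∨ deg G v = 2 ∨ deg G v = 3 ∨ 4 ≤ deg G v) with
      h | h | h | h
    · have hvu := hleaf v h
      have hvw : v ≠ w := by
        rintro rfl
        omega
      rw [if_neg (by omega), if_neg (by omega), if_neg hvw, if_neg (by omega), if_pos hvu,
        if_neg hvw]
      omega
    · have hvw : v ≠ w := by
        rintro rfl
        omega
      rw [if_neg (by omega), if_neg hvw, if_pos h, if_neg hvw]
      have h3 := hNH v h
      by_cases h4 : G.Adj w v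
      · rw [if_pos ⟨h, h4⟩]
        have := hNH2 v h h4
        omega
      · rw [if_neg (by tauto)]
        omega
    · have hvw : v ≠ w := by
        rintro rfl
        omega
      rw [if_pos (by omega), if_neg (by omega), if_neg hvw, if_neg (by omega), if_neg hvw]
      have := hnobad v h
      omega
    · rw [if_pos (by omega), if_neg (by omega), if_neg (by omega : ¬ deg G v = 2)]
      by_cases hvw : v = w
      · subst hvw
        rw [if_pos rfl, if_pos rfl]
        omega
      · rw [if_neg hvw, if_neg hvw]
        omega
  have hsum := Finset.sum_le_sum fun v (_ : v ∈ Finset.univ) => hpt v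
  rw [Finset.sum_add_distrib, Finset.sum_add_distrib, Finset.sum_add_distrib,
    Finset.sum_add_distrib, Finset.sum_add_distrib, Finset.sum_add_distrib,
    ← Finset.mul_sum, ← Finset.mul_sum, ← Finset.mul_sum, ← Finset.mul_sum,
    Finset.sum_const, Finset.card_univ, smul_eq_mul, hdc,
    Finset.sum_ite_eq' Finset.univ w, Finset.sum_ite_eq' Finset.univ w,
    Finset.sum_ite_eq' Finset.univ u] at hsum
  have hN2w : N2 G w = ∑ v, (if deg G v = 2 ∧ G.Adj w v then 1 else 0) := by
    unfold N2
    rw [Finset.card_filter]
    apply Finset.sum_congr rfl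
    intro v _
    simp only [and_comm]
  simp only [Finset.mem_univ, if_true] at hsum
  rw [← hN2w] at hsum
  omega

/-- **Lower bound**: `7 n ≤ 6 e` for every `5`-saturated graph on `n ≥ 4` vertices -/
theorem lower [Fintype V] (hG : KSaturated 5 G) (hn : 4 ≤ Fintype.card V) :
    7 * Fintype.card V ≤ 6 * G.edgeSet.ncard := by
  classical
  have hs := sat5_of hG
  obtain ⟨w0, hw0⟩ := exists_three hs hn
  obtain ⟨w, hw⟩ : ∃ w, ∀ x, deg G x ≤ deg G w := by
    obtain ⟨w, -, hw⟩ := Finset.exists_max_image Finset.univ (deg G) ⟨w0, Finset.mem_univ _⟩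
    exact ⟨w, fun x => hw x (Finset.mem_univ _)⟩
  have hw3 : 3 ≤ deg G w := hw0.trans (hw w0)
  have hpos : ∀ u, 1 ≤ deg G u := no_isolated hs hw (fun v => by
    by_contra h
    push Not at h
    have : (Finset.univ : Finset V) ⊆ {v} := fun x _ => by simpa using h x
    have := Finset.card_le_card this
    rw [Finset.card_univ, Finset.card_singleton] at this
    omega)
  have h1 := sum_deg G
  by_cases hleaf : ∃ u, deg G u = 1
  · obtain ⟨u, hu⟩ := hleaf
    have := lower_leaf hs hw hw3 hpos hu
    omega
  · push Not at hleaf
    have := lower_noleaf hs hw hw3 (fun v => by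
      have := hpos v
      have := hleaf v
      omega)
    omega

end Pool.Agent.Q115.Mono
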