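import Pool.Agent.Q115.FiveUpper

namespace Pool.Agent.Q115.Mono

open SimpleGraph

/-- adjacency masks of the graph `L` -/
def ML : List ℕ := [6, 9, 25, 38, 36, 24]
/-- degrees of the graph `L` -/
def DL : List ℕ := [2, 2, 3, 3, 2, 2]

theorem checksL : Checks 6 ML DL where
  sym := by decide +kernel
  irr := by decide +kernel
  deg := by decide +kernel
  no5 := by decide +kernel
  pair := by decide +kernel

theorem ladL : Lad (tabG 6 ML checksL.sym checksL.irr) :=
  tab_lad checksL (by decide +kernel)

theorem edgesL : (tabG 6 ML checksL.sym checksL.irr).edgeSet.ncard ≤ 7 :=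
  tab_edges checksL (by decide +kernel)

/-- adjacency masks of the graph `K` -/
def MK : List ℕ := [14, 13, 11, 7]
/-- degrees of the graph `K` -/
def DK : List ℕ := [3, 3, 3, 3]

theorem checksK : Checks 4 MK DK where
  sym := by decide +kernel
  irr := by decide +kernel
  deg := by decide +kernel
  no5 := by decide +kernel
  pair := by decide +kernel

theorem goodK : Good (tabG 4 MK checksK.sym checksK.irr) :=
  tab_good checksK (by decide +kernel)

theorem edgesK : (tabG 4 MK checksK.sym checksK.irr).edgeSet.ncard ≤ 6 :=
  tab_edges checksK (by decide +kernel)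

/-- adjacency masks of the graph `X7` -/
def MX7 : List ℕ := [68, 112, 41, 20, 74, 6, 19]
/-- degrees of the graph `X7` -/
def DX7 : List ℕ := [2, 3, 3, 2, 3, 2, 3]

theorem checksX7 : Checks 7 MX7 DX7 where
  sym := by decide +kernel
  irr := by decide +kernel
  deg := by decide +kernel
  no5 := by decide +kernel
  pair := by decide +kernel

theorem goodX7 : Good (tabG 7 MX7 checksX7.sym checksX7.irr) :=
  tab_good checksX7 (by decide +kernel)

theorem edgesX7 : (tabG 7 MX7 checksX7.sym checksX7.irr).edgeSet.ncard ≤ 9 :=
  tab_edges checksX7 (by decide +kernel)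

/-- adjacency masks of the graph `X8` -/
def MX8 : List ℕ := [162, 129, 208, 240, 12, 9, 12, 15]
/-- degrees of the graph `X8` -/
def DX8 : List ℕ := [3, 2, 3, 4, 2, 2, 2, 4]

theorem checksX8 : Checks 8 MX8 DX8 where
  sym := by decide +kernel
  irr := by decide +kernel
  deg := by decide +kernel
  no5 := by decide +kernel
  pair := by decide +kernel

theorem goodX8 : Good (tabG 8 MX8 checksX8.sym checksX8.irr) :=
  tab_good checksX8 (by decide +kernel)

theorem edgesX8 : (tabG 8 MX8 checksX8.sym checksX8.irr).edgeSet.ncard ≤ 11 :=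
  tab_edges checksX8 (by decide +kernel)

/-- adjacency masks of the graph `X9` -/
def MX9 : List ℕ := [134, 9, 89, 262, 292, 80, 164, 65, 24]
/-- degrees of the graph `X9` -/
def DX9 : List ℕ := [3, 2, 4, 3, 3, 2, 3, 2, 2]

theorem checksX9 : Checks 9 MX9 DX9 where
  sym := by decide +kernel
  irr := by decide +kernel
  deg := by decide +kernel
  no5 := by decide +kernel
  pair := by decide +kernel

theorem goodX9 : Good (tabG 9 MX9 checksX9.sym checksX9.irr) :=
  tab_good checksX9 (by decide +kernel)

theorem edgesX9 : (tabG 9 MX9 checksX9.sym checksX9.irr).edgeSet.ncard ≤ 12 :=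
  tab_edges checksX9 (by decide +kernel)

/-- adjacency masks of the graph `X11` -/
def MX11 : List ℕ := [1184, 384, 1096, 20, 1096, 513, 20, 3, 1538, 288, 277]
/-- degrees of the graph `X11` -/
def DX11 : List ℕ := [3, 2, 3, 2, 3, 2, 2, 2, 3, 2, 4]

theorem checksX11 : Checks 11 MX11 DX11 where
  sym := by decide +kernel
  irr := by decide +kernel
  deg := by decide +kernel
  no5 := by decide +kernel
  pair := by decide +kernel

theorem goodX11 : Good (tabG 11 MX11 checksX11.sym checksX11.irr) :=
  tab_good checksX11 (by decide +kernel)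

theorem edgesX11 : (tabG 11 MX11 checksX11.sym checksX11.irr).edgeSet.ncard ≤ 14 :=
  tab_edges checksX11 (by decide +kernel)

end Pool.Agent.Q115.Mono
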