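import Pool.Agent.Q115.FiveSum

namespace Pool.Agent.Q115.Mono

open SimpleGraph

variable {V W T : Type*}

/-- the step relation of an increasing path when the degree of `u` is raised by one -/
def RUp (G : SimpleGraph V) (u a b : V) : Prop :=
  G.Adj a b ∧ ((a = u ∧ deg G a + 1 ≤ deg G b) ∨ (b = u ∧ deg G a ≤ deg G b + 1) ∨
    (a ≠ u ∧ b ≠ u ∧ deg G a ≤ deg G b))

/-- raising the degree of `u` alone creates an increasing path on five vertices -/
def SelfS (G : SimpleGraph V) (u : V) : Prop :=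
  ∃ l : List V, l.Nodup ∧ l.IsChain (RUp G u) ∧ 5 ≤ l.length

/-- `u` ends an increasing path on four vertices once its degree is raised -/
def End4 (G : SimpleGraph V) (u : V) : Prop :=
  ∃ y x p, [y, x, p, u].Nodup ∧ G.Adj y x ∧ G.Adj x p ∧ G.Adj p u ∧
    deg G y ≤ deg G x ∧ deg G x ≤ deg G p ∧ deg G p ≤ deg G u + 1

/-- graphs that may be added to ladders -/
def Good (G : SimpleGraph V) : Prop :=
  KSaturated 5 G ∧ ∀ v, SelfS G v ∨ (End4 G v ∧ deg G v ≤ 3) ∨ 3 ≤ deg G v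

/-- the property of the ladder -/
def Lad (G : SimpleGraph V) : Prop :=
  KSaturated 5 G ∧ ∀ v, SelfS G v ∨ (End4 G v ∧ deg G v = 3)

theorem self_gen [Finite T] {A : SimpleGraph V} {G : SimpleGraph T} (f : V → T)
    (hf : Function.Injective f) (hadj : ∀ a b, A.Adj a b → G.Adj (f a) (f b))
    (hdeg : ∀ a, deg G (f a) = deg A a) {u : V} {t : T} (ht : ∀ a, f a ≠ t)
    (hna : ¬ G.Adj (f u) t) (hs : SelfS A u) :
    ∃ l, Inc (G ⊔ edge (f u) t) l ∧ 5 ≤ l.length := by
  obtain ⟨l, h1, h2, h3⟩ := hs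
  refine ⟨l.map f, ⟨h1.map hf, ?_⟩, by rwa [List.length_map]⟩
  rw [List.isChain_map]
  refine h2.imp fun a b hab => ?_
  obtain ⟨h4, h5⟩ := hab
  refine ⟨sup_edge_adj.mpr (Or.inl (hadj a b h4)), ?_⟩
  have hu : deg (G ⊔ edge (f u) t) (f u) = deg A u + 1 := by
    rw [deg_sup_left (ht u) hna, hdeg]
  have ho : ∀ x, x ≠ u → deg (G ⊔ edge (f u) t) (f x) = deg A x := by
    intro x hx
    rw [deg_sup_other (fun h => hx (hf h)) (ht x), hdeg]
  rcases h5 with ⟨rfl, h5⟩ | ⟨rfl, h5⟩ | ⟨h6, h7, h5⟩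
  · rw [hu, ho b (by rintro rfl; exact A.loopless.irrefl _ h4)]
    exact h5
  · rw [hu, ho a (by rintro rfl; exact A.loopless.irrefl _ h4)]
    exact h5
  · rw [ho a h6, ho b h7]
    exact h5

theorem end4_gen [Finite T] {A : SimpleGraph V} {G : SimpleGraph T} (f : V → T)
    (hf : Function.Injective f) (hadj : ∀ a b, A.Adj a b → G.Adj (f a) (f b))
    (hdeg : ∀ a, deg G (f a) = deg A a) {u : V} {t : T} (ht : ∀ a, f a ≠ t)
    (hna : ¬ G.Adj (f u) t) (hs : End4 A u) (hle : deg A u ≤ deg G t) :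
    ∃ l, Inc (G ⊔ edge (f u) t) l ∧ 5 ≤ l.length := by
  obtain ⟨y, x, p, h1, h2, h3, h4, h5, h6, h7⟩ := hs
  simp only [List.nodup_cons, List.mem_cons, List.not_mem_nil, or_false, not_or,
    List.nodup_nil, and_true, not_false_eq_true] at h1
  obtain ⟨⟨nyx, nyp, nyu⟩, ⟨nxp, nxu⟩, npu⟩ := h1
  have hu : deg (G ⊔ edge (f u) t) (f u) = deg A u + 1 := by
    rw [deg_sup_left (ht u) hna, hdeg]
  have htd : deg (G ⊔ edge (f u) t) t = deg G t + 1 := deg_sup_right (ht u) hna
  have ho : ∀ x, x ≠ u → deg (G ⊔ edge (f u) t) (f x) = deg A x := by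
    intro x hx
    rw [deg_sup_other (fun h => hx (hf h)) (ht x), hdeg]
  refine ⟨[f y, f x, f p, f u, t], ⟨?_, ?_⟩, by simp⟩
  · have hn : ∀ a b, a ≠ b → f a ≠ f b := fun a b hab h => hab (hf h)
    simp [hn _ _ nyx, hn _ _ nyp, hn _ _ nyu, hn _ _ nxp, hn _ _ nxu, hn _ _ npu, ht]
  · simp only [List.isChain_cons_cons, List.isChain_singleton, and_true]
    refine ⟨⟨sup_edge_adj.mpr (Or.inl (hadj _ _ h2)), ?_⟩,
      ⟨sup_edge_adj.mpr (Or.inl (hadj _ _ h3)), ?_⟩,
      ⟨sup_edge_adj.mpr (Or.inl (hadj _ _ h4)), ?_⟩,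
      ⟨sup_edge_adj.mpr (Or.inr ⟨Or.inl ⟨rfl, rfl⟩, ht u⟩), ?_⟩⟩
    · rw [ho _ nyu, ho _ nxu]; exact h5
    · rw [ho _ nxu, ho _ npu]; exact h6
    · rw [ho _ npu, hu]; exact h7
    · rw [hu, htd]; omega

theorem edges_sum' [Finite V] [Finite W] {G : SimpleGraph V} {H : SimpleGraph W} :
    (G ⊕g H).edgeSet.ncard ≤ G.edgeSet.ncard + H.edgeSet.ncard := by
  classical
  have hsub : (G ⊕g H).edgeSet ⊆ (Sym2.map Sum.inl '' G.edgeSet) ∪
      (Sym2.map Sum.inr '' H.edgeSet) := by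
    intro e he
    induction e using Sym2.ind with
    | _ x y =>
      rw [mem_edgeSet] at he
      cases x with
      | inl x =>
        cases y with
        | inl y => exact Or.inl ⟨s(x, y), sum_adj_inl.mp he, rfl⟩
        | inr y => exact absurd he (by simp [SimpleGraph.sum])
      | inr x =>
        cases y with
        | inl y => exact absurd he (by simp [SimpleGraph.sum])
        | inr y => exact Or.inr ⟨s(x, y), sum_adj_inr.mp he, rfl⟩
  have hf1 : (Sym2.map (Sum.inl : V → V ⊕ W) '' G.edgeSet).Finite := Set.toFinite _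
  have hf2 : (Sym2.map (Sum.inr : W → V ⊕ W) '' H.edgeSet).Finite := Set.toFinite _
  calc (G ⊕g H).edgeSet.ncard ≤ ((Sym2.map Sum.inl '' G.edgeSet) ∪
      (Sym2.map Sum.inr '' H.edgeSet)).ncard := Set.ncard_le_ncard hsub (hf1.union hf2)
    _ ≤ (Sym2.map (Sum.inl : V → V ⊕ W) '' G.edgeSet).ncard +
        (Sym2.map (Sum.inr : W → V ⊕ W) '' H.edgeSet).ncard := Set.ncard_union_le _ _
    _ ≤ G.edgeSet.ncard + H.edgeSet.ncard :=
        Nat.add_le_add (Set.ncard_image_le (Set.toFinite _)) (Set.ncard_image_le (Set.toFinite _))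

theorem self_inr {A : SimpleGraph V} {B : SimpleGraph W} {v : W} (h : SelfS B v) :
    SelfS (A ⊕g B) (Sum.inr v) := by
  obtain ⟨l, h1, h2, h3⟩ := h
  refine ⟨l.map Sum.inr, h1.map Sum.inr_injective, ?_, by rwa [List.length_map]⟩
  rw [List.isChain_map]
  refine h2.imp fun a b hab => ?_
  obtain ⟨h4, h5⟩ := hab
  refine ⟨sum_adj_inr.mpr h4, ?_⟩
  rw [deg_inr, deg_inr]
  simpa using h5

theorem self_inl {A : SimpleGraph V} {B : SimpleGraph W} {v : V} (h : SelfS A v) :
    SelfS (A ⊕g B) (Sum.inl v) := by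
  obtain ⟨l, h1, h2, h3⟩ := h
  refine ⟨l.map Sum.inl, h1.map Sum.inl_injective, ?_, by rwa [List.length_map]⟩
  rw [List.isChain_map]
  refine h2.imp fun a b hab => ?_
  obtain ⟨h4, h5⟩ := hab
  refine ⟨sum_adj_inl.mpr h4, ?_⟩
  rw [deg_inl, deg_inl]
  simpa using h5

theorem end4_inr {A : SimpleGraph V} {B : SimpleGraph W} {v : W} (h : End4 B v) :
    End4 (A ⊕g B) (Sum.inr v) := by
  obtain ⟨y, x, p, h1, h2, h3, h4, h5, h6, h7⟩ := h
  refine ⟨Sum.inr y, Sum.inr x, Sum.inr p, ?_, sum_adj_inr.mpr h2, sum_adj_inr.mpr h3,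
    sum_adj_inr.mpr h4, ?_, ?_, ?_⟩
  · have := h1.map (Sum.inr_injective (α := V))
    simpa using this
  · rw [deg_inr, deg_inr]; exact h5
  · rw [deg_inr, deg_inr]; exact h6
  · rw [deg_inr, deg_inr]; exact h7

/-- adding a ladder -/
theorem good_sum [Fintype V] [Fintype W] {A : SimpleGraph V} {B : SimpleGraph W}
    (hA : Lad A) (hB : Good B) : Good (A ⊕g B) := by
  have hcross : ∀ u v, ∃ l, Inc ((A ⊕g B) ⊔ edge (Sum.inl u) (Sum.inr v)) l ∧
      5 ≤ l.length := by
    intro u v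
    have hna : ¬ (A ⊕g B).Adj (Sum.inl u) (Sum.inr v) := by simp [SimpleGraph.sum]
    have hna' : ¬ (A ⊕g B).Adj (Sum.inr v) (Sum.inl u) := fun h => hna h.symm
    rcases hA.2 u with hu | ⟨hu, hu3⟩
    · exact self_gen Sum.inl Sum.inl_injective (fun a b h => sum_adj_inl.mpr h)
        (fun a => deg_inl a) (fun a => by simp) hna hu
    · rcases hB.2 v with hv | ⟨hv, hv3⟩ | hv
      · rw [edge_comm]
        exact self_gen Sum.inr Sum.inr_injective (fun a b h => sum_adj_inr.mpr h)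
          (fun a => deg_inr a) (fun a => by simp) hna' hv
      · rw [edge_comm]
        exact end4_gen Sum.inr Sum.inr_injective (fun a b h => sum_adj_inr.mpr h)
          (fun a => deg_inr a) (fun a => by simp) hna' hv (by rw [deg_inl]; omega)
      · exact end4_gen Sum.inl Sum.inl_injective (fun a b h => sum_adj_inl.mpr h)
          (fun a => deg_inl a) (fun a => by simp) hna hu (by rw [deg_inr]; omega)
  refine ⟨sum_saturated (by omega) hA.1.1 ?_ hB.1 hcross, ?_⟩
  · intro u v huv hadj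
    exact (le_mp_iff (by omega)).mp (hA.1.2 u v huv hadj)
  · intro v
    cases v with
    | inl v =>
      rcases hA.2 v with hv | ⟨hv, hv3⟩
      · exact Or.inl (self_inl hv)
      · exact Or.inr (Or.inr (by rw [deg_inl]; omega))
    | inr v =>
      rcases hB.2 v with hv | ⟨hv, hv3⟩ | hv
      · exact Or.inl (self_inr hv)
      · exact Or.inr (Or.inl ⟨end4_inr hv, by rw [deg_inr]; exact hv3⟩)
      · exact Or.inr (Or.inr (by rw [deg_inr]; exact hv))

/-- adding `q` ladders -/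
theorem good_iter {m N e e' : ℕ} {L : SimpleGraph (Fin m)} (hL : Lad L)
    (heL : L.edgeSet.ncard ≤ e) {B : SimpleGraph (Fin N)} (hB : Good B)
    (heB : B.edgeSet.ncard ≤ e') (q : ℕ) :
    ∃ (T : Type) (_ : Fintype T) (G : SimpleGraph T), Fintype.card T = m * q + N ∧ Good G ∧
      G.edgeSet.ncard ≤ e * q + e' := by
  induction q with
  | zero => exact ⟨Fin N, inferInstance, B, by simp, hB, by simpa using heB⟩
  | succ q ih =>
    obtain ⟨T, hT, G, h1, h2, h3⟩ := ih
    refine ⟨Fin m ⊕ T, inferInstance, L ⊕g G, ?_, good_sum hL h2, ?_⟩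
    · rw [Fintype.card_sum, Fintype.card_fin, h1]; ring
    · have := edges_sum' (G := L) (H := G)
      nlinarith

theorem h_le_iter {m N e e' : ℕ} {L : SimpleGraph (Fin m)} (hL : Lad L)
    (heL : L.edgeSet.ncard ≤ e) {B : SimpleGraph (Fin N)} (hB : Good B)
    (heB : B.edgeSet.ncard ≤ e') (q : ℕ) : h (m * q + N) 5 ≤ e * q + e' := by
  obtain ⟨T, hT, G, h1, h2, h3⟩ := good_iter hL heL hB heB q
  exact (h_le (by omega) h2.1 h1).trans h3

/-! ### checking concrete graphs -/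

/-- adjacency table given by bit masks -/
def adjB (M : List ℕ) (u v : ℕ) : Bool := Nat.testBit (M.getD u 0) v

/-- degree table -/
def dB (D : List ℕ) (u : ℕ) : ℕ := D.getD u 0

/-- the graph of a table -/
def tabG (N : ℕ) (M : List ℕ) (hsym : ∀ u v : Fin N, adjB M u v = true → adjB M v u = true)
    (hirr : ∀ u : Fin N, adjB M u u = false) : SimpleGraph (Fin N) where
  Adj u v := adjB M u v = true
  symm := ⟨fun u v h => hsym u v h⟩
  loopless := ⟨fun u h => by
    have := hirr u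
    rw [h] at this
    exact Bool.noConfusion this⟩

/-- one step of an increasing path -/
abbrev upT (M D : List ℕ) (a b : ℕ) : Prop := adjB M a b = true ∧ dB D a ≤ dB D b

/-- one step of an increasing path after adding the edge `uv` -/
abbrev upE (M D : List ℕ) (u v a b : ℕ) : Prop :=
  (adjB M a b = true ∨ (a = u ∧ b = v) ∨ (a = v ∧ b = u)) ∧
    dB D a + (if a = u ∨ a = v then 1 else 0) ≤ dB D b + (if b = u ∨ b = v then 1 else 0)

/-- one step of an increasing path after raising the degree of `u` -/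
abbrev upR (M D : List ℕ) (u a b : ℕ) : Prop :=
  adjB M a b = true ∧
    dB D a + (if a = u then 1 else 0) ≤ dB D b + (if b = u then 1 else 0)

/-- there is a path with five vertices -/
abbrev Five (N : ℕ) (R : ℕ → ℕ → Prop) : Prop :=
  ∃ a b : Fin N, a ≠ b ∧ R a b ∧ ∃ c : Fin N, (c ≠ a ∧ c ≠ b) ∧ R b c ∧
    ∃ d : Fin N, (d ≠ a ∧ d ≠ b ∧ d ≠ c) ∧ R c d ∧
      ∃ e : Fin N, (e ≠ a ∧ e ≠ b ∧ e ≠ c ∧ e ≠ d) ∧ R d e

instance (M D : List ℕ) (u v a b : ℕ) : Decidable (upE M D u v a b) := by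
  unfold upE
  infer_instance

instance (M D : List ℕ) (u a b : ℕ) : Decidable (upR M D u a b) := by
  unfold upR
  infer_instance

instance (N : ℕ) (R : ℕ → ℕ → Prop) [∀ a b, Decidable (R a b)] : Decidable (Five N R) := by
  unfold Five
  infer_instance

/-- the vertex `u` ends a path with four vertices -/
abbrev Four (N : ℕ) (M D : List ℕ) (u : Fin N) : Prop :=
  ∃ y x : Fin N, (y ≠ x ∧ y ≠ u ∧ x ≠ u) ∧ upT M D y x ∧
    ∃ p : Fin N, (p ≠ y ∧ p ≠ x ∧ p ≠ u) ∧ upT M D x p ∧ adjB M p u = true ∧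
      dB D p ≤ dB D u + 1

/-- all checks for a table -/
structure Checks (N : ℕ) (M D : List ℕ) : Prop where
  sym : ∀ u v : Fin N, adjB M u v = true → adjB M v u = true
  irr : ∀ u : Fin N, adjB M u u = false
  deg : ∀ u : Fin N, (Finset.univ.filter fun v : Fin N => adjB M u v = true).card = dB D u
  no5 : ¬ Five N (upT M D)
  pair : ∀ u v : Fin N, u < v → adjB M u v = false → Five N (upE M D u v)

section
variable {N : ℕ} {M D : List ℕ} (hC : Checks N M D)
include hC

theorem tab_deg (u : Fin N) : deg (tabG N M hC.sym hC.irr) u = dB D u := by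
  rw [← hC.deg u, ← Set.ncard_coe_finset]
  unfold deg
  congr 1
  ext v
  simp [tabG]

omit hC in
theorem five_inc {G : SimpleGraph (Fin N)} {R : ℕ → ℕ → Prop}
    (hR : ∀ a b : Fin N, R a b → a ≠ b → Up G a b) (h5 : Five N R) :
    ∃ l, Inc G l ∧ 5 ≤ l.length := by
  obtain ⟨a, b, h1, h2, c, ⟨h3, h4⟩, h5, d, ⟨h6, h7, h8⟩, h9, e, ⟨h10, h11, h12, h13⟩, h14⟩ := h5
  refine ⟨[a, b, c, d, e], ⟨?_, ?_⟩, by simp⟩
  · simp only [List.nodup_cons, List.mem_cons, List.not_mem_nil, or_false, not_or,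
      List.nodup_nil, and_true, not_false_eq_true]
    exact ⟨⟨h1, Ne.symm h3, Ne.symm h6, Ne.symm h10⟩, ⟨Ne.symm h4, Ne.symm h7, Ne.symm h11⟩,
      ⟨Ne.symm h8, Ne.symm h12⟩, Ne.symm h13⟩
  · simp only [List.isChain_cons_cons, List.isChain_singleton, and_true]
    exact ⟨hR a b h2 h1, hR b c h5 (Ne.symm h4), hR c d h9 (Ne.symm h8), hR d e h14 (Ne.symm h13)⟩

theorem tab_sat : KSaturated 5 (tabG N M hC.sym hC.irr) := by
  have hdeg := tab_deg hC
  refine ⟨?_, ?_⟩
  · rw [mp_lt_iff (by omega)]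
    intro l hl
    by_contra hcon
    push Not at hcon
    have hne : ∀ j k (hj : j < l.length) (hk : k < l.length), j ≠ k → l[j] ≠ l[k] :=
      fun j k hj hk hjk h => hjk (inc_inj hl hj hk h)
    have hup : ∀ i (h : i + 1 < l.length), upT M D l[i] l[i + 1] := by
      intro i h
      have := inc_idx hl i h
      exact ⟨this.1, by rw [← hdeg, ← hdeg]; exact this.2⟩
    apply hC.no5
    refine ⟨l[0], l[1], hne _ _ _ _ (by omega), hup 0 (by omega), l[2],
      ⟨hne _ _ _ _ (by omega), hne _ _ _ _ (by omega)⟩, hup 1 (by omega), l[3],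
      ⟨hne _ _ _ _ (by omega), hne _ _ _ _ (by omega), hne _ _ _ _ (by omega)⟩,
      hup 2 (by omega), l[4],
      ⟨hne _ _ _ _ (by omega), hne _ _ _ _ (by omega), hne _ _ _ _ (by omega),
        hne _ _ _ _ (by omega)⟩, hup 3 (by omega)⟩
  · have key : ∀ u v : Fin N, u < v → ¬ (tabG N M hC.sym hC.irr).Adj u v →
        5 ≤ mp (tabG N M hC.sym hC.irr ⊔ edge u v) := by
      intro u v huv hadj
      rw [le_mp_iff (by omega)]
      have hA : adjB M u v = false := by
        cases h : adjB M u v with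
        | false => rfl
        | true => exact absurd h hadj
      refine five_inc ?_ (hC.pair u v huv hA)
      intro a b hab hne
      have hd : ∀ x : Fin N, deg (tabG N M hC.sym hC.irr ⊔ edge u v) x =
          dB D x + (if (x : ℕ) = u ∨ (x : ℕ) = v then 1 else 0) := by
        intro x
        by_cases h1 : x = u
        · subst h1
          rw [deg_sup_left (ne_of_lt huv) hadj, hdeg]
          simp
        · by_cases h2 : x = v
          · subst h2
            rw [deg_sup_right (ne_of_lt huv) hadj, hdeg]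
            simp
          · rw [deg_sup_other h1 h2, hdeg]
            have h1' : (x : ℕ) ≠ u := fun h => h1 (Fin.ext h)
            have h2' : (x : ℕ) ≠ v := fun h => h2 (Fin.ext h)
            simp [h1', h2']
      refine ⟨?_, ?_⟩
      · rw [sup_edge_adj]
        rcases hab.1 with h | ⟨h, h'⟩ | ⟨h, h'⟩
        · exact Or.inl h
        · exact Or.inr ⟨Or.inl ⟨Fin.ext h, Fin.ext h'⟩, hne⟩
        · exact Or.inr ⟨Or.inr ⟨Fin.ext h, Fin.ext h'⟩, hne⟩
      · rw [hd, hd]
        exact hab.2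
    intro u v huv hadj
    rcases lt_or_gt_of_ne huv with h | h
    · exact key u v h hadj
    · rw [edge_comm]
      exact key v u h (fun h' => hadj h'.symm)

theorem tab_end4 {u : Fin N} (h : Four N M D u) : End4 (tabG N M hC.sym hC.irr) u := by
  have hdeg := tab_deg hC
  obtain ⟨y, x, ⟨h1, h2, h3⟩, ⟨h4, h5⟩, p, ⟨h6, h7, h8⟩, ⟨h9, h10⟩, h11, h12⟩ := h
  refine ⟨y, x, p, ?_, h4, h9, h11, ?_, ?_, ?_⟩
  · simp only [List.nodup_cons, List.mem_cons, List.not_mem_nil, or_false, not_or,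
      List.nodup_nil, and_true, not_false_eq_true]
    exact ⟨⟨h1, Ne.symm h6, h2⟩, ⟨Ne.symm h7, h3⟩, h8⟩
  · rw [hdeg, hdeg]; exact h5
  · rw [hdeg, hdeg]; exact h10
  · rw [hdeg, hdeg]; exact h12

theorem tab_self {u : Fin N} (h : Five N (upR M D u)) :
    SelfS (tabG N M hC.sym hC.irr) u := by
  have hdeg := tab_deg hC
  obtain ⟨a, b, h1, h2, c, ⟨h3, h4⟩, h5, d, ⟨h6, h7, h8⟩, h9, e, ⟨h10, h11, h12, h13⟩, h14⟩ := h
  have hR : ∀ a b : Fin N, upR M D u a b → a ≠ b → RUp (tabG N M hC.sym hC.irr) u a b := by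
    intro a b hab hne
    refine ⟨hab.1, ?_⟩
    have h15 := hab.2
    rw [hdeg, hdeg]
    by_cases ha : a = u
    · subst ha
      have hb : (b : ℕ) ≠ a := fun h => hne (Fin.ext h.symm)
      rw [if_pos rfl, if_neg hb] at h15
      exact Or.inl ⟨rfl, h15⟩
    · have ha' : (a : ℕ) ≠ u := fun h => ha (Fin.ext h)
      by_cases hb : b = u
      · subst hb
        rw [if_pos rfl, if_neg ha'] at h15
        exact Or.inr (Or.inl ⟨rfl, h15⟩)
      · have hb' : (b : ℕ) ≠ u := fun h => hb (Fin.ext h)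
        rw [if_neg ha', if_neg hb'] at h15
        exact Or.inr (Or.inr ⟨ha, hb, h15⟩)
  refine ⟨[a, b, c, d, e], ?_, ?_, by simp⟩
  · simp only [List.nodup_cons, List.mem_cons, List.not_mem_nil, or_false, not_or,
      List.nodup_nil, and_true, not_false_eq_true]
    exact ⟨⟨h1, Ne.symm h3, Ne.symm h6, Ne.symm h10⟩, ⟨Ne.symm h4, Ne.symm h7, Ne.symm h11⟩,
      ⟨Ne.symm h8, Ne.symm h12⟩, Ne.symm h13⟩
  · simp only [List.isChain_cons_cons, List.isChain_singleton, and_true]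
    exact ⟨hR a b h2 h1, hR b c h5 (Ne.symm h4), hR c d h9 (Ne.symm h8), hR d e h14 (Ne.symm h13)⟩

theorem tab_good
    (hv : ∀ v : Fin N, 3 ≤ dB D v ∨ (Four N M D v ∧ dB D v ≤ 3) ∨ Five N (upR M D v)) :
    Good (tabG N M hC.sym hC.irr) := by
  refine ⟨tab_sat hC, fun v => ?_⟩
  rcases hv v with h | ⟨h, h'⟩ | h
  · exact Or.inr (Or.inr (by rw [tab_deg hC]; exact h))
  · exact Or.inr (Or.inl ⟨tab_end4 hC h, by rw [tab_deg hC]; exact h'⟩)
  · exact Or.inl (tab_self hC h)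

theorem tab_lad (hv : ∀ v : Fin N, (Four N M D v ∧ dB D v = 3) ∨ Five N (upR M D v)) :
    Lad (tabG N M hC.sym hC.irr) := by
  refine ⟨tab_sat hC, fun v => ?_⟩
  rcases hv v with ⟨h, h'⟩ | h
  · exact Or.inr ⟨tab_end4 hC h, by rw [tab_deg hC]; exact h'⟩
  · exact Or.inl (tab_self hC h)

theorem tab_edges {e : ℕ} (he : ∑ u : Fin N, dB D u = 2 * e) :
    (tabG N M hC.sym hC.irr).edgeSet.ncard ≤ e := by
  have h1 := sum_deg (tabG N M hC.sym hC.irr)
  have h2 : ∑ u : Fin N, deg (tabG N M hC.sym hC.irr) u = ∑ u : Fin N, dB D u :=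
    Finset.sum_congr rfl fun u _ => tab_deg hC u
  omega

end

end Pool.Agent.Q115.Mono
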