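import Pool.Agent.Q115.FiveSum

namespace Pool.Agent.Q115.Mono

open SimpleGraph

variable {V : Type*} [Finite V] {G : SimpleGraph V}

/-- the step `a → b` of an increasing path of `G + uv` is not a step of `G` -/
def Fail (G : SimpleGraph V) (u v a b : V) : Prop :=
  (a = u ∧ b = v) ∨ (a = v ∧ b = u) ∨
    (a ≠ u ∧ a ≠ v ∧ (b = u ∨ b = v) ∧ G.Adj a b ∧ deg G a = deg G b + 1)

theorem fail_of {u v a b : V} (huv : u ≠ v) (hadj : ¬ G.Adj u v)
    (h : Up (G ⊔ edge u v) a b) (hn : ¬ Up G a b) : Fail G u v a b := by
  have hu' := deg_sup_left huv hadj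
  have hv' := deg_sup_right huv hadj
  have ho : ∀ x, x ≠ u → x ≠ v → deg (G ⊔ edge u v) x = deg G x := fun x => deg_sup_other
  obtain ⟨h1, h2⟩ := h
  rw [sup_edge_adj] at h1
  by_cases hG : G.Adj a b
  · have h3 : ¬ deg G a ≤ deg G b := fun h => hn ⟨hG, h⟩
    by_cases ha : a = u
    · subst ha
      rw [hu'] at h2
      by_cases hb : b = v
      · subst hb
        exact absurd hG hadj
      · rw [ho b (Ne.symm hG.ne) hb] at h2
        omega
    · by_cases ha' : a = v
      · subst ha'
        rw [hv'] at h2
        by_cases hb : b = u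
        · subst hb
          exact absurd hG.symm hadj
        · rw [ho b hb (Ne.symm hG.ne)] at h2
          omega
      · rw [ho a ha ha'] at h2
        right; right
        by_cases hb : b = u
        · subst hb
          rw [hu'] at h2
          exact ⟨ha, ha', Or.inl rfl, hG, by omega⟩
        · by_cases hb' : b = v
          · subst hb'
            rw [hv'] at h2
            exact ⟨ha, ha', Or.inr rfl, hG, by omega⟩
          · rw [ho b hb hb'] at h2
            omega
  · rcases h1 with h1 | ⟨h1 | h1, -⟩
    · exact absurd h1 hG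
    · exact Or.inl h1
    · exact Or.inr (Or.inl h1)

/-- an increasing path on five vertices of `G + uv`, with a step that is not one of `G` -/
theorem five (hs : Sat5 G) {u v : V} (huv : u ≠ v) (hadj : ¬ G.Adj u v) :
    ∃ p : ℕ → V, (∀ i j, i < 5 → j < 5 → p i = p j → i = j) ∧
      (∀ i, i < 4 → Up (G ⊔ edge u v) (p i) (p (i + 1))) ∧
      ∃ i, i < 4 ∧ Fail G u v (p i) (p (i + 1)) := by
  obtain ⟨l, hl, hlen⟩ := hs.B u v huv hadj
  let p : ℕ → V := fun i => l.getD i u
  have hp : ∀ i (hi : i < 5), p i = l[i]'(by omega) := by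
    intro i hi
    simp only [p]
    exact List.getD_eq_getElem _ _ (by omega)
  have hinj : ∀ i j, i < 5 → j < 5 → p i = p j → i = j := by
    intro i j hi hj h
    rw [hp i hi, hp j hj] at h
    exact inc_inj hl (by omega) (by omega) h
  have hst : ∀ i, i < 4 → Up (G ⊔ edge u v) (p i) (p (i + 1)) := by
    intro i hi
    rw [hp i (by omega), hp (i + 1) (by omega)]
    exact inc_idx hl i (by omega)
  refine ⟨p, hinj, hst, ?_⟩
  by_contra hcon
  push Not at hcon
  have hG : ∀ i, i < 4 → Up G (p i) (p (i + 1)) := by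
    intro i hi
    by_contra hn
    exact hcon i hi (fail_of huv hadj (hst i hi) hn)
  refine no_five hs (hG 0 (by omega)) (hG 1 (by omega)) (hG 2 (by omega)) (hG 3 (by omega)) ?_
  have hne : ∀ i j, i < 5 → j < 5 → i ≠ j → p i ≠ p j := fun i j hi hj hij h =>
    hij (hinj i j hi hj h)
  simp only [List.nodup_cons, List.mem_cons, List.not_mem_nil, or_false, not_or,
    List.nodup_nil, and_true, not_false_eq_true]
  exact ⟨⟨hne _ _ (by omega) (by omega) (by omega), hne _ _ (by omega) (by omega) (by omega),
    hne _ _ (by omega) (by omega) (by omega), hne _ _ (by omega) (by omega) (by omega)⟩,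
    ⟨hne _ _ (by omega) (by omega) (by omega), hne _ _ (by omega) (by omega) (by omega),
    hne _ _ (by omega) (by omega) (by omega)⟩,
    ⟨hne _ _ (by omega) (by omega) (by omega), hne _ _ (by omega) (by omega) (by omega)⟩,
    hne _ _ (by omega) (by omega) (by omega)⟩

/-- the neighbours of a vertex of degree three -/
theorem nbr_three {v a b c : V} (hd : deg G v ≤ 3) (ha : G.Adj v a) (hb : G.Adj v b)
    (hc : G.Adj v c) (hab : a ≠ b) (hac : a ≠ c) (hbc : b ≠ c) {x : V} (hx : G.Adj v x) :
    x = a ∨ x = b ∨ x = c := by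
  by_contra hcon
  push Not at hcon
  have h1 : ({x, a, b, c} : Set V).ncard = 4 := by
    rw [Set.ncard_insert_of_notMem (by simp [hcon.1, hcon.2.1, hcon.2.2]),
      Set.ncard_insert_of_notMem (by simp [hab, hac]), Set.ncard_pair hbc]
  have h2 : ({x, a, b, c} : Set V) ⊆ G.neighborSet v := by
    intro y hy
    simp only [Set.mem_insert_iff, Set.mem_singleton_iff] at hy
    rcases hy with rfl | rfl | rfl | rfl
    · exact hx
    · exact ha
    · exact hb
    · exact hc
  have h3 := Set.ncard_le_ncard h2 (Set.toFinite _)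
  unfold deg at hd
  omega

theorem exists_third {v a b : V} (hd : 3 ≤ deg G v) : ∃ c, G.Adj v c ∧ c ≠ a ∧ c ≠ b := by
  by_contra hcon
  push Not at hcon
  have h1 : G.neighborSet v ⊆ {a, b} := by
    intro y hy
    rw [Set.mem_insert_iff, Set.mem_singleton_iff]
    by_contra h
    push Not at h
    exact h.2 (hcon y hy h.1)
  have h3 := Set.ncard_le_ncard h1 (Set.toFinite _)
  have h4 := Set.ncard_insert_le a {b}
  rw [Set.ncard_singleton] at h4
  unfold deg at hd
  omega

/-- the hub of a pair of adjacent vertices of degree two -/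
theorem hub_unique (hs : Sat5 G) {w v v' a : V} (hmax : ∀ x, deg G x ≤ deg G w)
    (hv : deg G v = 2) (hv' : deg G v' = 2) (h1 : G.Adj v v') (h2 : G.Adj v a)
    (ha : 4 ≤ deg G a) : a = w := by
  by_contra haw
  have hw : 4 ≤ deg G w := ha.trans (hmax a)
  have hva : v' ≠ a := by
    rintro rfl
    omega
  have hvw : v ≠ w := by
    rintro rfl
    omega
  have hadj : ¬ G.Adj v w := by
    intro h
    rcases nbr_two hv.le h1 h2 hva h with h | h
    · rw [h] at hw
      omega
    · exact haw h.symm
  rcases lemW hs hvw hadj hmax (by omega) with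
    ⟨p, hp, -, hd, -⟩ | ⟨y, x, p, hn, -, -, -, h3, h4, h5, h6, h7, h8⟩
  · rcases nbr_two hv.le h1 h2 hva hp.symm with h | h
    · rw [h] at hd
      omega
    · rw [h] at hd
      omega
  · simp only [List.nodup_cons, List.mem_cons, List.not_mem_nil, or_false, not_or,
      List.nodup_nil, and_true, not_false_eq_true] at hn
    rcases nbr_two hv.le h1 h2 hva h5.symm with h | h
    · rw [h] at h4 h7
      refine no_low hs hmax (by omega) hv' ?_
      intro z hz
      rcases nbr_two hv'.le h1.symm h4.symm (Ne.symm hn.2.1.2) hz with rfl | rfl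
      · omega
      · omega
    · rw [h] at h8
      omega

end Pool.Agent.Q115.Mono
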