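import Pool.Agent.Q115.FiveX1

namespace Pool.Agent.Q115.Mono

open SimpleGraph

variable {V : Type*} [Finite V] {G : SimpleGraph V}

open Classical in
/-- the degree after adding `uv` -/
noncomputable def dg (G : SimpleGraph V) (u v x : V) : ℕ :=
  deg G x + if x = u ∨ x = v then 1 else 0

omit [Finite V] in
theorem dg_u {u v : V} : dg G u v u = deg G u + 1 := by simp [dg]

omit [Finite V] in
theorem dg_v {u v : V} : dg G u v v = deg G v + 1 := by simp [dg]

omit [Finite V] in
theorem dg_o {u v x : V} (hu : x ≠ u) (hv : x ≠ v) : dg G u v x = deg G x := by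
  simp [dg, hu, hv]

omit [Finite V] in
theorem dg_ge {u v x : V} : deg G x ≤ dg G u v x := by
  unfold dg
  omega

theorem up_elim {u v a b : V} (huv : u ≠ v) (hadj : ¬ G.Adj u v)
    (h : Up (G ⊔ edge u v) a b) :
    (G.Adj a b ∨ (a = u ∧ b = v) ∨ (a = v ∧ b = u)) ∧ dg G u v a ≤ dg G u v b := by
  have hd : ∀ x, deg (G ⊔ edge u v) x = dg G u v x := by
    intro x
    by_cases hu : x = u
    · subst hu
      rw [dg_u, deg_sup_left huv hadj]
    · by_cases hv : x = v
      · subst hv
        rw [dg_v, deg_sup_right huv hadj]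
      · rw [dg_o hu hv, deg_sup_other hu hv]
  obtain ⟨h1, h2⟩ := h
  rw [sup_edge_adj] at h1
  rw [hd, hd] at h2
  refine ⟨?_, h2⟩
  rcases h1 with h1 | ⟨h1 | h1, -⟩
  · exact Or.inl h1
  · exact Or.inr (Or.inl h1)
  · exact Or.inr (Or.inr h1)

/-- the partner `v'` of a vertex `v` of degree two has no other neighbour of degree two -/
theorem partner_high (hs : Sat5 G) {w : V} (hmax : ∀ x, deg G x ≤ deg G w)
    (hw : 3 ≤ deg G w) {v v' s : V} (hv : deg G v ≤ 2) (hv' : deg G v' = 2) (h1 : G.Adj v v')
    (h2 : G.Adj s v') (hne : s ≠ v) : 3 ≤ deg G s := by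
  by_contra hcon
  refine no_low hs hmax hw hv' ?_
  intro z hz
  rcases nbr_two hv'.le h1.symm h2.symm (Ne.symm hne) hz with rfl | rfl
  · exact hv
  · omega

/-- the step into the partner of `v` is impossible when `v` has got the new edge -/
theorem no_pred_partner (hs : Sat5 G) {w : V} (hmax : ∀ x, deg G x ≤ deg G w)
    (hw : 3 ≤ deg G w) {v v' t : V} (hvt : v ≠ t) (hadj : ¬ G.Adj v t)
    (hv : deg G v = 2) (hv' : deg G v' = 2) (h1 : G.Adj v v') (ht : v' ≠ t) {s : V}
    (h : Up (G ⊔ edge v t) s v') : False := by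
  obtain ⟨h3, h4⟩ := up_elim hvt hadj h
  rw [dg_o h1.ne' ht] at h4
  rcases h3 with h3 | ⟨-, h3⟩ | ⟨-, h3⟩
  · by_cases hsv : s = v
    · rw [hsv, dg_u] at h4
      omega
    · have h5 := partner_high hs hmax hw hv.le hv' h1 h3 hsv
      have h6 := dg_ge (G := G) (u := v) (v := t) (x := s)
      omega
  · exact ht h3
  · exact h1.ne' h3

/-- if a hub of degree at least four has a neighbour in a pair of vertices of degree two, then
all vertices of degree three are adjacent to it -/
theorem three_adj (hs : Sat5 G) {w v v' a : V} (hmax : ∀ x, deg G x ≤ deg G w)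
    (hw : 4 ≤ deg G w) (hv : deg G v = 2) (hv' : deg G v' = 2) (h1 : G.Adj v v')
    (h2 : G.Adj v w) (ha : deg G a = 3) (hna : ∀ x, G.Adj a x → deg G x ≤ 3) : False := by
  have hvw' : v' ≠ w := by
    rintro rfl
    omega
  have hva : v ≠ a := by
    rintro rfl
    omega
  have hva' : v' ≠ a := by
    rintro rfl
    omega
  have hvw : v ≠ w := h2.ne
  have haw : a ≠ w := by
    rintro rfl
    omega
  have hnb : ∀ x, G.Adj v x → x = v' ∨ x = w := fun x hx => nbr_two hv.le h1 h2 hvw' hx
  have hadj : ¬ G.Adj v a := by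
    intro h
    rcases hnb a h with h | h
    · exact hva' h.symm
    · exact haw h
  have sa : ∀ s, ¬ Up (G ⊔ edge v a) a s := by
    intro s h
    obtain ⟨h3, h4⟩ := up_elim hva hadj h
    rw [dg_v] at h4
    rcases h3 with h3 | ⟨h3, -⟩ | ⟨-, h3⟩
    · have h5 := hna s h3
      rw [dg_o (by rintro rfl; exact hadj h3.symm) h3.ne'] at h4
      omega
    · exact hva h3.symm
    · rw [h3, dg_u] at h4
      omega
  have pv : ∀ s, Up (G ⊔ edge v a) s v → s = v' := by
    intro s h
    obtain ⟨h3, h4⟩ := up_elim hva hadj h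
    rw [dg_u] at h4
    rcases h3 with h3 | ⟨-, h3⟩ | ⟨h3, -⟩
    · rcases hnb s h3.symm with h | h
      · exact h
      · rw [h, dg_o hvw.symm haw.symm] at h4
        omega
    · exact absurd h3 hva
    · rw [h3, dg_v] at h4
      omega
  obtain ⟨p, hinj, hst, i, hi, hf⟩ := five hs hva hadj
  have hcase : p i = v ∧ p (i + 1) = a := by
    rcases hf with h | ⟨h3, h4⟩ | ⟨h3, h4, h5, h6, h7⟩
    · exact h
    · have := hst i hi
      rw [h3] at this
      exact absurd this (sa _)
    · rcases h5 with h5 | h5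
      · rw [h5] at h6 h7
        rcases hnb _ h6.symm with h8 | h8
        · rw [h8] at h7
          omega
        · rw [h8] at h7
          omega
      · rw [h5] at h6 h7
        have := hna _ h6.symm
        omega
  obtain ⟨h3, h4⟩ := hcase
  by_cases hi3 : i = 3
  · subst hi3
    have h5 := pv _ (by have := hst 2 (by omega); rwa [h3] at this)
    have h6 := hst 1 (by omega)
    rw [h5] at h6
    exact no_pred_partner hs hmax (by omega) hva hadj hv hv' h1 hva' h6
  · have := hst (i + 1) (by omega)
    rw [h4] at this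
    exact sa _ this

/-- a neighbour of degree three of a hub of degree at least five -/
theorem no_three_five (hs : Sat5 G) {w v v' b : V} (hmax : ∀ x, deg G x ≤ deg G w)
    (hw : 5 ≤ deg G w) (huniq : ∀ x, x ≠ w → deg G x ≤ 3) (hv : deg G v = 2)
    (hv' : deg G v' = 2) (h1 : G.Adj v v') (h2 : G.Adj v w) (hb : deg G b = 3) : False := by
  have hvw' : v' ≠ w := by
    rintro rfl
    omega
  have hvb : v ≠ b := by
    rintro rfl
    omega
  have hvb' : v' ≠ b := by
    rintro rfl
    omega
  have hvw : v ≠ w := h2.ne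
  have hbw : b ≠ w := by
    rintro rfl
    omega
  have hnb : ∀ x, G.Adj v x → x = v' ∨ x = w := fun x hx => nbr_two hv.le h1 h2 hvw' hx
  have hadj : ¬ G.Adj v b := by
    intro h
    rcases hnb b h with h | h
    · exact hvb' h.symm
    · exact hbw h
  have sw : ∀ s, ¬ Up (G ⊔ edge v b) w s := by
    intro s h
    obtain ⟨h3, h4⟩ := up_elim hvb hadj h
    rw [dg_o hvw.symm hbw.symm] at h4
    have hsw : s ≠ w := by
      rintro rfl
      rcases h3 with h3 | ⟨h3, -⟩ | ⟨h3, -⟩
      · exact G.irrefl h3
      · exact hvw h3.symm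
      · exact hbw h3.symm
    have h5 := huniq s hsw
    have h6 : dg G v b s ≤ deg G s + 1 := by
      unfold dg
      split_ifs <;> omega
    omega
  have sb : ∀ s, Up (G ⊔ edge v b) b s → s = w := by
    intro s h
    by_contra hsw
    obtain ⟨h3, h4⟩ := up_elim hvb hadj h
    rw [dg_v] at h4
    rcases h3 with h3 | ⟨h3, -⟩ | ⟨-, h3⟩
    · have h5 := huniq s hsw
      rw [dg_o (by rintro rfl; exact hadj h3.symm) h3.ne'] at h4
      omega
    · exact hvb h3.symm
    · rw [h3, dg_u] at h4
      omega
  have pv : ∀ s, Up (G ⊔ edge v b) s v → s = v' := by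
    intro s h
    obtain ⟨h3, h4⟩ := up_elim hvb hadj h
    rw [dg_u] at h4
    rcases h3 with h3 | ⟨-, h3⟩ | ⟨h3, -⟩
    · rcases hnb s h3.symm with h | h
      · exact h
      · rw [h, dg_o hvw.symm hbw.symm] at h4
        omega
    · exact absurd h3 hvb
    · rw [h3, dg_v] at h4
      omega
  obtain ⟨p, hinj, hst, i, hi, hf⟩ := five hs hvb hadj
  have hcase : p i = v ∧ p (i + 1) = b := by
    rcases hf with h | ⟨h3, h4⟩ | ⟨h3, h4, h5, h6, h7⟩
    · exact h
    · have := hst i hi
      rw [h3] at this
      have := sb _ this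
      rw [h4] at this
      exact absurd this hvw
    · rcases h5 with h5 | h5
      · rw [h5] at h6 h7
        rcases hnb _ h6.symm with h8 | h8
        · rw [h8] at h7
          omega
        · rw [h8] at h7
          omega
      · rw [h5] at h6 h7
        by_cases h8 : p i = w
        · rw [h8] at h7
          omega
        · have := huniq _ h8
          omega
  obtain ⟨h3, h4⟩ := hcase
  -- `v` has at most one predecessor, `b` at most one successor
  rcases (by omega : 2 ≤ i ∨ i ≤ 1) with h5 | h5
  · obtain ⟨j, rfl⟩ : ∃ j, i = j + 2 := ⟨i - 2, by omega⟩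
    have h6 := hst (j + 1) (by omega)
    rw [h3] at h6
    have h7 := pv _ h6
    have h8 := hst j (by omega)
    rw [h7] at h8
    exact no_pred_partner hs hmax (by omega) hvb hadj hv hv' h1 hvb' h8
  · have h6 := hst (i + 1) (by omega)
    rw [h4] at h6
    have h7 := sb _ h6
    have h8 := hst (i + 1 + 1) (by omega)
    rw [h7] at h8
    exact sw _ h8

end Pool.Agent.Q115.Mono
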