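import Pool.Agent.Q115.FiveX2

namespace Pool.Agent.Q115.Mono

open SimpleGraph

variable {V : Type*} [Finite V] {G : SimpleGraph V}

/-- the neighbours of degree two of a vertex `b` of degree three adjacent to the unique hub `w`:
if one lies in a pair of vertices of degree two, then so does the other one -/
theorem hub_three (hs : Sat5 G) {w b x x' x'' : V} (hmax : ∀ y, deg G y ≤ deg G w)
    (hw : 4 ≤ deg G w) (hb : deg G b = 3) (hbw : G.Adj b w) (hbx : G.Adj b x)
    (hbx' : G.Adj b x') (hx : deg G x = 2) (hx' : deg G x' = 2) (hne : x ≠ x')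
    (hxx : G.Adj x x'') (hx'' : deg G x'' = 2) :
    ∃ y, G.Adj x' y ∧ deg G y ≤ 2 ∧ y ≠ x := by
  have hwx : x ≠ w := by
    rintro rfl
    omega
  have hwx' : x' ≠ w := by
    rintro rfl
    omega
  have hwx'' : x'' ≠ w := by
    rintro rfl
    omega
  have hbx'' : b ≠ x'' := by
    rintro rfl
    omega
  have hbw' : b ≠ w := hbw.ne
  have hnb : ∀ y, G.Adj x y → y = b ∨ y = x'' := fun y hy =>
    nbr_two hx.le hbx.symm hxx hbx'' hy
  have hnbb : ∀ y, G.Adj b y → y = w ∨ y = x ∨ y = x' := fun y hy =>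
    nbr_three hb.le hbw hbx hbx' hwx.symm hwx'.symm hne hy
  have hadj : ¬ G.Adj x w := by
    intro h
    rcases hnb w h with h | h
    · exact hbw' h.symm
    · exact hwx'' h.symm
  have sw : ∀ s, ¬ Up (G ⊔ edge x w) w s := by
    intro s h
    obtain ⟨h3, h4⟩ := up_elim hwx hadj h
    rw [dg_v] at h4
    rcases h3 with h3 | ⟨h3, -⟩ | ⟨-, h3⟩
    · rw [dg_o (by rintro rfl; exact hadj h3.symm) h3.ne'] at h4
      have := hmax s
      omega
    · exact hwx h3.symm
    · rw [h3, dg_u] at h4
      omega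
  have sx : ∀ s, Up (G ⊔ edge x w) x s → s = b ∨ s = w := by
    intro s h
    obtain ⟨h3, h4⟩ := up_elim hwx hadj h
    rw [dg_u] at h4
    rcases h3 with h3 | ⟨-, h3⟩ | ⟨h3, -⟩
    · rcases hnb s h3 with h | h
      · exact Or.inl h
      · rw [h, dg_o hxx.ne' hwx''] at h4
        omega
    · exact Or.inr h3
    · exact absurd h3 hwx
  have px : ∀ s, Up (G ⊔ edge x w) s x → s = b ∨ s = x'' := by
    intro s h
    obtain ⟨h3, h4⟩ := up_elim hwx hadj h
    rw [dg_u] at h4
    rcases h3 with h3 | ⟨-, h3⟩ | ⟨h3, -⟩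
    · exact hnb s h3.symm
    · exact absurd h3 hwx
    · rw [h3, dg_v] at h4
      omega
  have pb : ∀ s, Up (G ⊔ edge x w) s b → s = x ∨ s = x' := by
    intro s h
    obtain ⟨h3, h4⟩ := up_elim hwx hadj h
    rw [dg_o hbx.ne hbw'] at h4
    rcases h3 with h3 | ⟨-, h3⟩ | ⟨-, h3⟩
    · rcases hnbb s h3.symm with h | h | h
      · rw [h, dg_v] at h4
        omega
      · exact Or.inl h
      · exact Or.inr h
    · exact absurd h3 hbw'
    · exact absurd h3 hbx.ne
  have px' : ∀ s, Up (G ⊔ edge x w) s x' → G.Adj x' s ∧ deg G s ≤ 2 := by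
    intro s h
    obtain ⟨h3, h4⟩ := up_elim hwx hadj h
    rw [dg_o hne.symm hwx'] at h4
    rcases h3 with h3 | ⟨-, h3⟩ | ⟨-, h3⟩
    · refine ⟨h3.symm, ?_⟩
      have := dg_ge (G := G) (u := x) (v := w) (x := s)
      omega
    · exact absurd h3 hwx'
    · exact absurd h3 hne.symm
  obtain ⟨p, hinj, hst, i, hi, hf⟩ := five hs hwx hadj
  have hne' : ∀ i j, i < 5 → j < 5 → i ≠ j → p i ≠ p j := fun i j hi hj hij h =>
    hij (hinj i j hi hj h)
  -- the end of the argument
  have key : ∀ j, j + 2 < 5 → p (j + 2) = b → (∃ k, k < 5 ∧ j + 2 < k ∧ p k = x) →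
      ∃ y, G.Adj x' y ∧ deg G y ≤ 2 ∧ y ≠ x := by
    intro j hj h1 ⟨k, hk, hjk, h2⟩
    have h3 := hst (j + 1) (by omega)
    rw [h1] at h3
    rcases pb _ h3 with h4 | h4
    · exact absurd (h4.trans h2.symm) (hne' _ _ (by omega) hk (by omega))
    · have h5 := hst j (by omega)
      rw [h4] at h5
      obtain ⟨h6, h7⟩ := px' _ h5
      exact ⟨p j, h6, h7, fun h8 => hne' j k (by omega) hk (by omega) (h8.trans h2.symm)⟩
  have hcase : (p i = x ∧ p (i + 1) = w) ∨ (p i = b ∧ p (i + 1) = x) := by
    rcases hf with h | ⟨h3, h4⟩ | ⟨h3, h4, h5, h6, h7⟩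
    · exact Or.inl h
    · have := hst i hi
      rw [h3] at this
      exact absurd this (sw _)
    · rcases h5 with h5 | h5
      · right
        rw [h5] at h6 h7
        rcases hnb _ h6.symm with h8 | h8
        · exact ⟨h8, h5⟩
        · rw [h8] at h7
          omega
      · rw [h5] at h7
        have := hmax (p i)
        omega
  rcases hcase with ⟨h3, h4⟩ | ⟨h3, h4⟩
  · by_cases hi3 : i = 3
    · subst hi3
      have h5 := hst 2 (by omega)
      rw [h3] at h5
      rcases px _ h5 with h6 | h6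
      · exact key 0 (by omega) h6 ⟨3, by omega, by omega, h3⟩
      · have h7 := hst 1 (by omega)
        rw [h6] at h7
        exact absurd h7 (fun h => no_pred_partner hs hmax (by omega) hwx hadj hx hx'' hxx hwx'' h)
    · have := hst (i + 1) (by omega)
      rw [h4] at this
      exact absurd this (sw _)
  · rcases (by omega : i = 3 ∨ i = 2 ∨ i ≤ 1) with h5 | h5 | h5
    · subst h5
      exact key 1 (by omega) h3 ⟨4, by omega, by omega, h4⟩
    · subst h5
      exact key 0 (by omega) h3 ⟨3, by omega, by omega, h4⟩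
    · have h6 := hst (i + 1) (by omega)
      rw [h4] at h6
      rcases sx _ h6 with h7 | h7
      · exact absurd (h7.trans h3.symm) (hne' _ _ (by omega) (by omega) (by omega))
      · have h8 := hst (i + 1 + 1) (by omega)
        rw [h7] at h8
        exact absurd h8 (sw _)

/-- maximum degree three: the two neighbours of degree two of a vertex `a` of degree three
adjacent to a vertex `b` of degree three -/
theorem pair_type (hs : Sat5 G) (h3 : ∀ y, deg G y ≤ 3) {a b u u' x : V} (ha : deg G a = 3)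
    (hb : deg G b = 3) (hab : G.Adj a b) (hau : G.Adj a u) (hu : deg G u = 2)
    (huu : G.Adj u u') (hu' : deg G u' = 2) (hax : G.Adj a x) (hxb : x ≠ b) (hxu : x ≠ u) :
    ∃ y, G.Adj x y ∧ y ≠ a ∧ y ≠ u ∧ y ≠ b ∧ deg G y ≤ deg G x := by
  have hub : u ≠ b := by
    rintro rfl
    omega
  have hau' : a ≠ u' := by
    rintro rfl
    omega
  have hbu' : u' ≠ b := by
    rintro rfl
    omega
  have hnb : ∀ y, G.Adj u y → y = a ∨ y = u' := fun y hy =>
    nbr_two hu.le hau.symm huu hau' hy
  have hnba : ∀ y, G.Adj a y → y = b ∨ y = u ∨ y = x := fun y hy =>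
    nbr_three ha.le hab hau hax hub.symm hxb.symm hxu.symm hy
  have hadj : ¬ G.Adj u b := by
    intro h
    rcases hnb b h with h | h
    · exact hab.ne' h
    · exact hbu' h.symm
  have hmax : ∀ y, deg G y ≤ deg G b := fun y => (h3 y).trans hb.ge
  have sb : ∀ s, ¬ Up (G ⊔ edge u b) b s := by
    intro s h
    obtain ⟨h4, h5⟩ := up_elim hub hadj h
    rw [dg_v] at h5
    rcases h4 with h4 | ⟨h4, -⟩ | ⟨-, h4⟩
    · rw [dg_o (by rintro rfl; exact hadj h4.symm) h4.ne'] at h5
      have := h3 s
      omega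
    · exact hub h4.symm
    · rw [h4, dg_u] at h5
      omega
  have su : ∀ s, Up (G ⊔ edge u b) u s → s = a ∨ s = b := by
    intro s h
    obtain ⟨h4, h5⟩ := up_elim hub hadj h
    rw [dg_u] at h5
    rcases h4 with h4 | ⟨-, h4⟩ | ⟨h4, -⟩
    · rcases hnb s h4 with h | h
      · exact Or.inl h
      · rw [h, dg_o huu.ne' hbu'] at h5
        omega
    · exact Or.inr h4
    · exact absurd h4 hub
  have pu : ∀ s, Up (G ⊔ edge u b) s u → s = a ∨ s = u' := by
    intro s h
    obtain ⟨h4, h5⟩ := up_elim hub hadj h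
    rw [dg_u] at h5
    rcases h4 with h4 | ⟨-, h4⟩ | ⟨h4, -⟩
    · exact hnb s h4.symm
    · exact absurd h4 hub
    · rw [h4, dg_v] at h5
      omega
  have pa : ∀ s, Up (G ⊔ edge u b) s a → s = u ∨ s = x := by
    intro s h
    obtain ⟨h4, h5⟩ := up_elim hub hadj h
    rw [dg_o hau.ne hab.ne] at h5
    rcases h4 with h4 | ⟨-, h4⟩ | ⟨-, h4⟩
    · rcases hnba s h4.symm with h | h | h
      · rw [h, dg_v] at h5
        omega
      · exact Or.inl h
      · exact Or.inr h
    · exact absurd h4 hab.ne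
    · exact absurd h4 hau.ne
  have px : ∀ s, Up (G ⊔ edge u b) s x → G.Adj x s ∧ s ≠ b ∧ (s ≠ u → deg G s ≤ deg G x) := by
    intro s h
    obtain ⟨h4, h5⟩ := up_elim hub hadj h
    rw [dg_o hxu hxb] at h5
    rcases h4 with h4 | ⟨-, h4⟩ | ⟨-, h4⟩
    · have hsb : s ≠ b := by
        rintro rfl
        rw [dg_v] at h5
        have := h3 x
        omega
      refine ⟨h4.symm, hsb, fun hsu => ?_⟩
      rwa [dg_o hsu hsb] at h5
    · exact absurd h4 hxb
    · exact absurd h4 hxu
  obtain ⟨p, hinj, hst, i, hi, hf⟩ := five hs hub hadj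
  have hne' : ∀ i j, i < 5 → j < 5 → i ≠ j → p i ≠ p j := fun i j hi hj hij h =>
    hij (hinj i j hi hj h)
  have key : ∀ j, j + 2 < 5 → p (j + 2) = a → (∃ k, k < 5 ∧ j + 2 < k ∧ p k = u) →
      ∃ y, G.Adj x y ∧ y ≠ a ∧ y ≠ u ∧ y ≠ b ∧ deg G y ≤ deg G x := by
    intro j hj h1 ⟨k, hk, hjk, h2⟩
    have h4 := hst (j + 1) (by omega)
    rw [h1] at h4
    rcases pa _ h4 with h5 | h5
    · exact absurd (h5.trans h2.symm) (hne' _ _ (by omega) hk (by omega))
    · have h6 := hst j (by omega)
      rw [h5] at h6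
      obtain ⟨h7, h8, h9⟩ := px _ h6
      have h10 : p j ≠ u := fun h => hne' j k (by omega) hk (by omega) (h.trans h2.symm)
      exact ⟨p j, h7, fun h => hne' j (j + 2) (by omega) (by omega) (by omega) (h.trans h1.symm),
        h10, h8, h9 h10⟩
  have hcase : (p i = u ∧ p (i + 1) = b) ∨ (p i = a ∧ p (i + 1) = u) := by
    rcases hf with h | ⟨h4, h5⟩ | ⟨h4, h5, h6, h7, h8⟩
    · exact Or.inl h
    · have := hst i hi
      rw [h4] at this
      exact absurd this (sb _)
    · rcases h6 with h6 | h6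
      · right
        rw [h6] at h7 h8
        rcases hnb _ h7.symm with h9 | h9
        · exact ⟨h9, h6⟩
        · rw [h9] at h8
          omega
      · rw [h6] at h8
        have := h3 (p i)
        omega
  rcases hcase with ⟨h4, h5⟩ | ⟨h4, h5⟩
  · by_cases hi3 : i = 3
    · subst hi3
      have h6 := hst 2 (by omega)
      rw [h4] at h6
      rcases pu _ h6 with h7 | h7
      · exact key 0 (by omega) h7 ⟨3, by omega, by omega, h4⟩
      · have h8 := hst 1 (by omega)
        rw [h7] at h8
        exact absurd h8 (fun h => no_pred_partner hs hmax hb.ge hub hadj hu hu' huu hbu' h)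
    · have := hst (i + 1) (by omega)
      rw [h5] at this
      exact absurd this (sb _)
  · rcases (by omega : i = 3 ∨ i = 2 ∨ i ≤ 1) with h6 | h6 | h6
    · subst h6
      exact key 1 (by omega) h4 ⟨4, by omega, by omega, h5⟩
    · subst h6
      exact key 0 (by omega) h4 ⟨3, by omega, by omega, h5⟩
    · have h7 := hst (i + 1) (by omega)
      rw [h5] at h7
      rcases su _ h7 with h8 | h8
      · exact absurd (h8.trans h4.symm) (hne' _ _ (by omega) (by omega) (by omega))
      · have h9 := hst (i + 1 + 1) (by omega)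
        rw [h8] at h9
        exact absurd h9 (sb _)

/-- maximum degree three: a vertex of degree two is not adjacent to two vertices of a triangle of
vertices of degree three -/
theorem no_triangle_shared (hs : Sat5 G) (h3 : ∀ y, deg G y ≤ 3) {a b c z : V}
    (ha : deg G a = 3) (hb : deg G b = 3) (hc : deg G c = 3) (hab : G.Adj a b)
    (hac : G.Adj a c) (hbc : G.Adj b c) (hz : deg G z = 2) (hza : G.Adj z a)
    (hzb : G.Adj z b) : False := by
  classical
  have hzc : z ≠ c := by
    rintro rfl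
    omega
  have hnbz : ∀ y, G.Adj z y → y = a ∨ y = b := fun y hy => nbr_two hz.le hza hzb hab.ne hy
  have hnba : ∀ y, G.Adj a y → y = b ∨ y = c ∨ y = z := fun y hy =>
    nbr_three ha.le hab hac hza.symm hbc.ne hzb.ne' hzc.symm hy
  have hnbb : ∀ y, G.Adj b y → y = a ∨ y = c ∨ y = z := fun y hy =>
    nbr_three hb.le hab.symm hbc hzb.symm hac.ne hza.ne' hzc.symm hy
  have hadj : ¬ G.Adj z c := by
    intro h
    rcases hnbz c h with h | h
    · exact hac.ne' h
    · exact hbc.ne' h
  have sc : ∀ s, ¬ Up (G ⊔ edge z c) c s := by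
    intro s h
    obtain ⟨h4, h5⟩ := up_elim hzc hadj h
    rw [dg_v] at h5
    rcases h4 with h4 | ⟨h4, -⟩ | ⟨-, h4⟩
    · rw [dg_o (by rintro rfl; exact hadj h4.symm) h4.ne'] at h5
      have := h3 s
      omega
    · exact hzc h4.symm
    · rw [h4, dg_u] at h5
      omega
  -- all neighbours of `a`, `b`, `z` lie in the set `{a, b, c, z}`
  have hS : ∀ s t, (s = a ∨ s = b ∨ s = z) → (G.Adj s t ∨ (s = z ∧ t = c) ∨ (s = c ∧ t = z)) →
      (t = a ∨ t = b ∨ t = z) ∨ t = c := by
    rintro s t hs' (h | ⟨-, h⟩ | ⟨-, h⟩)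
    · rcases hs' with rfl | rfl | rfl
      · rcases hnba t h with h | h | h <;> tauto
      · rcases hnbb t h with h | h | h <;> tauto
      · rcases hnbz t h with h | h <;> tauto
    · exact Or.inr h
    · exact Or.inl (Or.inr (Or.inr h))
  have succ : ∀ s t, (s = a ∨ s = b ∨ s = z) → Up (G ⊔ edge z c) s t →
      (t = a ∨ t = b ∨ t = z) ∨ t = c := fun s t h1 h2 =>
    hS s t h1 (up_elim hzc hadj h2).1
  have pred : ∀ s t, (t = a ∨ t = b ∨ t = z) → Up (G ⊔ edge z c) s t →
      (s = a ∨ s = b ∨ s = z) := by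
    intro s t h1 h2
    have h4 := (up_elim hzc hadj h2).1
    have h5 : (s = a ∨ s = b ∨ s = z) ∨ s = c := by
      refine hS t s h1 ?_
      rcases h4 with h | h | h
      · exact Or.inl h.symm
      · exact Or.inr (Or.inr ⟨h.2, h.1⟩)
      · exact Or.inr (Or.inl ⟨h.2, h.1⟩)
    rcases h5 with h | h
    · exact h
    · rw [h] at h2
      exact absurd h2 (sc _)
  obtain ⟨p, hinj, hst, i, hi, hf⟩ := five hs hzc hadj
  have hpi : p i = a ∨ p i = b ∨ p i = z := by
    rcases hf with h | ⟨h4, h5⟩ | ⟨h4, h5, h6, h7, h8⟩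
    · exact Or.inr (Or.inr h.1)
    · have := hst i hi
      rw [h4] at this
      exact absurd this (sc _)
    · rcases h6 with h6 | h6
      · rw [h6] at h7
        rcases hnbz _ h7.symm with h9 | h9
        · exact Or.inl h9
        · exact Or.inr (Or.inl h9)
      · rw [h6] at h8
        have := h3 (p i)
        omega
  -- going back and forth from `p i`
  have hback : ∀ k, k ≤ i → (p (i - k) = a ∨ p (i - k) = b ∨ p (i - k) = z) := by
    intro k
    induction k with
    | zero => intro _; exact hpi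
    | succ k ih =>
      intro hk
      have h4 := ih (by omega)
      refine pred _ _ h4 ?_
      have h5 := hst (i - (k + 1)) (by omega)
      have h6 : i - (k + 1) + 1 = i - k := by omega
      rwa [h6] at h5
  have hforw : ∀ k, i + k < 5 → ((p (i + k) = a ∨ p (i + k) = b ∨ p (i + k) = z) ∨
      p (i + k) = c) := by
    intro k
    induction k with
    | zero => intro _; exact Or.inl hpi
    | succ k ih =>
      intro hk
      have h5 := hst (i + k) (by omega)
      rcases ih (by omega) with h4 | h4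
      · exact succ _ _ h4 h5
      · rw [h4] at h5
        exact absurd h5 (sc _)
  have hall : ∀ j ∈ Finset.range 5, p j ∈ ({a, b, z, c} : Finset V) := by
    intro j hj
    rw [Finset.mem_range] at hj
    simp only [Finset.mem_insert, Finset.mem_singleton]
    rcases le_total j i with h | h
    · have h4 := hback (i - j) (by omega)
      have h5 : i - (i - j) = j := by omega
      rw [h5] at h4
      tauto
    · have h4 := hforw (j - i) (by omega)
      have h5 : i + (j - i) = j := by omega
      rw [h5] at h4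
      tauto
  have h4 := Finset.card_le_card_of_injOn (s := Finset.range 5) (t := {a, b, z, c}) p hall (by
    intro j hj k hk h
    simp only [Finset.coe_range, Set.mem_Iio] at hj hk
    exact hinj j k hj hk h)
  rw [Finset.card_range] at h4
  have h5 : ({a, b, z, c} : Finset V).card ≤ 4 := Finset.card_le_four
  omega

/-- `z` has a neighbour `p` of degree three which continues in the right way -/
def Serv (G : SimpleGraph V) (z : V) : Prop :=
  ∃ p x, G.Adj z p ∧ deg G p = 3 ∧ G.Adj p x ∧ x ≠ z ∧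
    (deg G x = 3 ∨ (deg G x = 2 ∧ ∃ y, G.Adj x y ∧ deg G y = 2))

/-- maximum degree three: one of two non-adjacent vertices of degree three serves -/
theorem serve (hs : Sat5 G) (h3 : ∀ y, deg G y ≤ 3) (h2 : ∀ y, 2 ≤ deg G y) {a c : V}
    (ha : deg G a = 3) (hc : deg G c = 3) (hne : a ≠ c) (hadj : ¬ G.Adj a c) :
    Serv G a ∨ Serv G c := by
  have hmax : ∀ x, deg G x ≤ deg G c := fun x => (h3 x).trans hc.ge
  obtain ⟨y, x, p, z, hz, hn, h4, h5, h6, h7, h8⟩ :=
    lemE hs hne hadj hmax (ha.trans hc.symm)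
  simp only [List.nodup_cons, List.mem_cons, List.not_mem_nil, or_false, not_or,
    List.nodup_nil, and_true, not_false_eq_true] at hn
  have hx2 := h2 x
  have hp : deg G p = 3 := by
    have h9 := h2 p
    have h10 := h3 p
    by_contra hcon
    have hp2 : deg G p = 2 := by omega
    refine no_low hs hmax hc.ge (u := x) (by omega) ?_
    intro t ht
    rcases nbr_two (by omega) h4.symm h5 hn.1.2.1 ht with rfl | rfl
    · omega
    · omega
  have hserv : Serv G z := by
    refine ⟨p, x, h6.symm, hp, h5.symm, hn.2.1.2, ?_⟩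
    have h9 := h3 x
    rcases (by omega : deg G x = 3 ∨ deg G x = 2) with h | h
    · exact Or.inl h
    · refine Or.inr ⟨h, y, h4.symm, ?_⟩
      have := h2 y
      omega
  rcases hz with rfl | rfl
  · exact Or.inl hserv
  · exact Or.inr hserv

end Pool.Agent.Q115.Mono
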