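import Pool.Agent.Q115.FiveX3

namespace Pool.Agent.Q115.Mono

open SimpleGraph

variable {V : Type*} [Finite V] {G : SimpleGraph V}

/-- with a leaf and only one vertex of degree at least four, all vertices of degree three are
adjacent to it -/
theorem leaf_three_adj (hs : Sat5 G) {w u a : V} (hmax : ∀ x, deg G x ≤ deg G w)
    (hw : 4 ≤ deg G w) (h3 : ∀ x, x ≠ w → deg G x ≤ 3) (hu : deg G u = 1)
    (ha : deg G a = 3) : G.Adj a w := by
  by_contra haw
  have huw := leaf_adj hs hmax (by omega) hu
  have hnu : ∀ x, G.Adj u x → x = w := fun x hx => nbr_one hu.le huw hx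
  have hua : u ≠ a := by
    rintro rfl
    omega
  have haw' : a ≠ w := by
    rintro rfl
    omega
  have hadj : ¬ G.Adj u a := fun h => haw' (hnu a h)
  have sa : ∀ s, ¬ Up (G ⊔ edge u a) a s := by
    intro s h
    obtain ⟨h4, h5⟩ := up_elim hua hadj h
    rw [dg_v] at h5
    rcases h4 with h4 | ⟨h4, -⟩ | ⟨-, h4⟩
    · rw [dg_o (by rintro rfl; exact hadj h4.symm) h4.ne'] at h5
      have := h3 s (by rintro rfl; exact haw h4)
      omega
    · exact hua h4.symm
    · rw [h4, dg_u] at h5
      omega
  have pu : ∀ s, ¬ Up (G ⊔ edge u a) s u := by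
    intro s h
    obtain ⟨h4, h5⟩ := up_elim hua hadj h
    rw [dg_u] at h5
    rcases h4 with h4 | ⟨-, h4⟩ | ⟨h4, -⟩
    · rw [hnu s h4.symm, dg_o huw.ne' haw'.symm] at h5
      omega
    · exact hua h4
    · rw [h4, dg_v] at h5
      omega
  obtain ⟨p, hinj, hst, i, hi, hf⟩ := five hs hua hadj
  rcases hf with ⟨h4, h5⟩ | ⟨h4, h5⟩ | ⟨h4, h5, h6, h7, h8⟩
  · by_cases hi0 : i = 0
    · subst hi0
      have := hst 1 (by omega)
      rw [h5] at this
      exact sa _ this
    · obtain ⟨j, rfl⟩ : ∃ j, i = j + 1 := ⟨i - 1, by omega⟩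
      have := hst j (by omega)
      rw [h4] at this
      exact pu _ this
  · have := hst i hi
    rw [h4] at this
    exact sa _ this
  · rcases h6 with h6 | h6
    · rw [h6] at h7 h8
      rw [hnu _ h7.symm] at h8
      omega
    · rw [h6] at h7 h8
      have := h3 (p i) (by
        intro h9
        rw [h9] at h7
        exact haw h7.symm)
      omega

/-- with a leaf: for every vertex `a` of degree three there is an increasing path on three
vertices which avoids `a` and ends at a neighbour of `w`, and `w` has degree four -/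
theorem leaf_path (hs : Sat5 G) {w u a : V} (hmax : ∀ x, deg G x ≤ deg G w)
    (hw : 4 ≤ deg G w) (h3 : ∀ x, x ≠ w → deg G x ≤ 3) (hu : deg G u = 1)
    (ha : deg G a = 3) :
    deg G w = 4 ∧ ∃ p0 p1 p2, p0 ≠ p2 ∧ p0 ≠ a ∧ p1 ≠ a ∧ p2 ≠ a ∧ p0 ≠ w ∧ p1 ≠ w ∧ p2 ≠ w ∧
      G.Adj p0 p1 ∧ G.Adj p1 p2 ∧ G.Adj p2 w ∧ deg G p0 ≤ deg G p1 ∧ deg G p1 ≤ deg G p2 := by
  have haw := leaf_three_adj hs hmax hw h3 hu ha
  have huw := leaf_adj hs hmax (by omega) hu
  have hnu : ∀ x, G.Adj u x → x = w := fun x hx => nbr_one hu.le huw hx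
  have hua : u ≠ a := by
    rintro rfl
    omega
  have hadj : ¬ G.Adj u a := fun h => haw.ne (hnu a h)
  have sa : ∀ s, Up (G ⊔ edge u a) a s → s = w := by
    intro s h
    obtain ⟨h4, h5⟩ := up_elim hua hadj h
    rw [dg_v] at h5
    by_contra hsw
    rcases h4 with h4 | ⟨h4, -⟩ | ⟨-, h4⟩
    · rw [dg_o (by rintro rfl; exact hadj h4.symm) h4.ne'] at h5
      have := h3 s hsw
      omega
    · exact hua h4.symm
    · rw [h4, dg_u] at h5
      omega
  have sw : ∀ s, Up (G ⊔ edge u a) w s → s = a := by
    intro s h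
    obtain ⟨h4, h5⟩ := up_elim hua hadj h
    rw [dg_o huw.ne' haw.ne'] at h5
    by_contra hsa
    have hsw : s ≠ w := by
      rintro rfl
      rcases h4 with h4 | ⟨h4, -⟩ | ⟨h4, -⟩
      · exact G.irrefl h4
      · exact huw.ne' h4
      · exact haw.ne' h4
    by_cases hsu : s = u
    · rw [hsu, dg_u] at h5
      omega
    · rw [dg_o hsu hsa] at h5
      have := h3 s hsw
      omega
  have pu : ∀ s, ¬ Up (G ⊔ edge u a) s u := by
    intro s h
    obtain ⟨h4, h5⟩ := up_elim hua hadj h
    rw [dg_u] at h5
    rcases h4 with h4 | ⟨-, h4⟩ | ⟨h4, -⟩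
    · rw [hnu s h4.symm, dg_o huw.ne' haw.ne'] at h5
      omega
    · exact hua h4
    · rw [h4, dg_v] at h5
      omega
  obtain ⟨p, hinj, hst, i, hi, hf⟩ := five hs hua hadj
  have hne' : ∀ i j, i < 5 → j < 5 → i ≠ j → p i ≠ p j := fun i j hi hj hij h =>
    hij (hinj i j hi hj h)
  rcases hf with ⟨h4, h5⟩ | ⟨h4, h5⟩ | ⟨h4, h5, h6, h7, h8⟩
  · exfalso
    by_cases hi0 : i = 0
    · subst hi0
      have h6 := hst 1 (by omega)
      rw [h5] at h6
      have h7 := sa _ h6
      have h8 := hst 2 (by omega)
      rw [h7] at h8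
      exact hne' 3 1 (by omega) (by omega) (by omega) ((sw _ h8).trans h5.symm)
    · obtain ⟨j, rfl⟩ : ∃ j, i = j + 1 := ⟨i - 1, by omega⟩
      have := hst j (by omega)
      rw [h4] at this
      exact pu _ this
  · exfalso
    have := hst i hi
    rw [h5] at this
    exact pu _ this
  · rcases h6 with h6 | h6
    · exfalso
      rw [h6] at h7 h8
      rw [hnu _ h7.symm] at h8
      omega
    · rw [h6] at h7 h8
      have hpw : p i = w := by
        by_contra h9
        have := h3 _ h9
        omega
      rw [hpw] at h8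
      have hi3 : i = 3 := by
        by_contra hi3
        have h9 := hst (i + 1) (by omega)
        rw [h6] at h9
        exact hne' (i + 1 + 1) i (by omega) (by omega) (by omega) ((sa _ h9).trans hpw.symm)
      subst hi3
      have h6' : p 4 = a := h6
      -- `u` is not on the path
      have hpu : ∀ j, j < 3 → p j ≠ u := by
        intro j hj hpj
        by_cases hj0 : j = 0
        · subst hj0
          have h9 := hst 0 (by omega)
          have h10 := (up_elim hua hadj h9).1
          rw [hpj] at h10
          rcases h10 with h | ⟨-, h⟩ | ⟨h, -⟩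
          · exact hne' 1 3 (by omega) (by omega) (by omega) ((hnu _ h).trans hpw.symm)
          · exact hne' 1 4 (by omega) (by omega) (by omega) (h.trans h6'.symm)
          · exact hua h
        · obtain ⟨k, rfl⟩ : ∃ k, j = k + 1 := ⟨j - 1, by omega⟩
          have := hst k (by omega)
          rw [hpj] at this
          exact pu _ this
      have hpa : ∀ j, j < 4 → p j ≠ a := fun j hj h =>
        hne' j 4 (by omega) (by omega) (by omega) (h.trans h6'.symm)
      have hadj' : ∀ j, j < 3 → G.Adj (p j) (p (j + 1)) := by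
        intro j hj
        rcases (up_elim hua hadj (hst j (by omega))).1 with h | ⟨h, -⟩ | ⟨h, -⟩
        · exact h
        · exact absurd h (hpu j hj)
        · exact absurd h (hpa j (by omega))
      have hdeg : ∀ j, j < 2 → deg G (p j) ≤ deg G (p (j + 1)) := by
        intro j hj
        have h9 := (up_elim hua hadj (hst j (by omega))).2
        rwa [dg_o (hpu j (by omega)) (hpa j (by omega)),
          dg_o (hpu (j + 1) (by omega)) (hpa (j + 1) (by omega))] at h9
      have hpw' : ∀ j, j < 3 → p j ≠ w := fun j hj h =>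
        hne' j 3 (by omega) (by omega) (by omega) (h.trans hpw.symm)
      have h9 := hadj' 2 (by omega)
      rw [show (2 : ℕ) + 1 = 3 from rfl, hpw] at h9
      exact ⟨by omega, p 0, p 1, p 2, hne' 0 2 (by omega) (by omega) (by omega),
        hpa 0 (by omega), hpa 1 (by omega), hpa 2 (by omega), hpw' 0 (by omega),
        hpw' 1 (by omega), hpw' 2 (by omega), hadj' 0 (by omega), hadj' 1 (by omega), h9,
        hdeg 0 (by omega), hdeg 1 (by omega)⟩

/-- with a leaf there are no two adjacent vertices of degree two -/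
theorem leaf_no_pair (hs : Sat5 G) {w u x x' : V} (hmax : ∀ y, deg G y ≤ deg G w)
    (hw : 4 ≤ deg G w) (h3 : ∀ y, y ≠ w → deg G y ≤ 3) (hu : deg G u = 1)
    (hx : deg G x = 2) (hx' : deg G x' = 2) (hxx : G.Adj x x') : False := by
  have huw := leaf_adj hs hmax (by omega) hu
  have hnu : ∀ y, G.Adj u y → y = w := fun y hy => nbr_one hu.le huw hy
  obtain ⟨c, hcx', hxc⟩ := exists_other (G := G) (v := x) hx.ge x'
  have hnx : ∀ y, G.Adj x y → y = c ∨ y = x' := fun y hy => nbr_two hx.le hxc hxx hcx' hy
  have hc3 : 3 ≤ deg G c := partner_high hs hmax (by omega) hx'.le hx hxx.symm hxc.symm hcx'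
  have hx'w : x' ≠ w := by
    rintro rfl
    omega
  have hcw : c ≠ w := by
    rintro rfl
    have := leaf_shared hs hmax hw hu hxc.symm hx hx'w hxx
    omega
  have hc : deg G c = 3 := by
    have := h3 c hcw
    omega
  have hcwa := leaf_three_adj hs hmax hw h3 hu hc
  have hux : u ≠ x := by
    rintro rfl
    omega
  have hux' : u ≠ x' := by
    rintro rfl
    omega
  have huc : u ≠ c := by
    rintro rfl
    omega
  have hxw : x ≠ w := by
    rintro rfl
    omega
  have hadj : ¬ G.Adj x u := fun h => hxw (hnu x h.symm)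
  -- it is enough to find another neighbour of degree three of `c`
  have fin : ∀ d, G.Adj c d → d ≠ w → deg G d = 3 → False := by
    intro d hcd hdw hd
    have hdwa := leaf_three_adj hs hmax hw h3 hu hd
    refine no_five hs (a := x') (b := x) (c := c) (d := d) (e := w) ⟨hxx.symm, by omega⟩
      ⟨hxc, by omega⟩ ⟨hcd, by omega⟩ ⟨hdwa, by omega⟩ ?_
    have h4 : d ≠ x := by
      rintro rfl
      omega
    have h5 : d ≠ x' := by
      rintro rfl
      omega
    simp only [List.nodup_cons, List.mem_cons, List.not_mem_nil, or_false, not_or,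
      List.nodup_nil, and_true, not_false_eq_true]
    exact ⟨⟨hxx.ne', hcx'.symm, h5.symm, hx'w⟩, ⟨hxc.ne, h4.symm, hxw⟩, ⟨hcd.ne, hcw⟩, hdw⟩
  have sx : ∀ s, Up (G ⊔ edge x u) x s → s = c := by
    intro s h
    obtain ⟨h4, h5⟩ := up_elim hux.symm hadj h
    rw [dg_u] at h5
    rcases h4 with h4 | ⟨-, h4⟩ | ⟨h4, -⟩
    · rcases hnx s h4 with h | h
      · exact h
      · rw [h, dg_o hxx.ne' hux'.symm] at h5
        omega
    · rw [h4, dg_v] at h5
      omega
    · exact absurd h4 hux.symm
  have pu : ∀ s, ¬ Up (G ⊔ edge x u) s u := by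
    intro s h
    obtain ⟨h4, h5⟩ := up_elim hux.symm hadj h
    rw [dg_v] at h5
    rcases h4 with h4 | ⟨h4, -⟩ | ⟨-, h4⟩
    · rw [hnu s h4.symm, dg_o hxw.symm huw.ne'] at h5
      omega
    · rw [h4, dg_u] at h5
      omega
    · exact hux h4
  have hdo : ∀ s, s ≠ x → s ≠ u → dg G x u s = deg G s := fun s h1 h2 => dg_o h1 h2
  obtain ⟨p, hinj, hst, i, hi, hf⟩ := five hs hux.symm hadj
  have hne' : ∀ i j, i < 5 → j < 5 → i ≠ j → p i ≠ p j := fun i j hi hj hij h =>
    hij (hinj i j hi hj h)
  have hcase : (p i = u ∧ p (i + 1) = x) ∨ (p i = c ∧ p (i + 1) = x) := by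
    rcases hf with ⟨h4, h5⟩ | ⟨h4, h5⟩ | ⟨h4, h5, h6, h7, h8⟩
    · have := hst i hi
      rw [h5] at this
      exact absurd this (pu _)
    · exact Or.inl ⟨h4, h5⟩
    · rcases h6 with h6 | h6
      · right
        rw [h6] at h7 h8
        rcases hnx _ h7.symm with h | h
        · exact ⟨h, h6⟩
        · rw [h] at h8
          omega
      · rw [h6] at h7 h8
        rw [hnu _ h7.symm] at h8
        omega
  rcases hcase with ⟨h4, h5⟩ | ⟨h4, h5⟩
  · by_cases hi0 : i = 0
    · subst hi0
      have h6 := hst 1 (by omega)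
      rw [h5] at h6
      have h7 := sx _ h6
      have h8 := hst 2 (by omega)
      rw [h7] at h8
      obtain ⟨h9, h10⟩ := up_elim hux.symm hadj h8
      rw [show (2 : ℕ) + 1 = 3 from rfl] at h9 h10
      rcases h9 with h9 | ⟨h9, -⟩ | ⟨h9, -⟩
      · by_cases h11 : p 3 = w
        · -- nothing comes after `w`
          have h12 := hst 3 (by omega)
          rw [h11] at h12
          obtain ⟨h13, h14⟩ := up_elim hux.symm hadj h12
          rw [show (3 : ℕ) + 1 = 4 from rfl] at h13 h14
          rw [hdo w hxw.symm huw.ne'] at h14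
          have h15 : p 4 ≠ x := fun h => hne' 4 1 (by omega) (by omega) (by omega) (h.trans h5.symm)
          have h16 : p 4 ≠ u := fun h => hne' 4 0 (by omega) (by omega) (by omega) (h.trans h4.symm)
          have h17 : p 4 ≠ w := fun h => hne' 4 3 (by omega) (by omega) (by omega) (h.trans h11.symm)
          rw [hdo _ h15 h16] at h14
          have := h3 _ h17
          omega
        · have h12 : p 3 ≠ x := fun h => hne' 3 1 (by omega) (by omega) (by omega) (h.trans h5.symm)
          have h13 : p 3 ≠ u := fun h => hne' 3 0 (by omega) (by omega) (by omega) (h.trans h4.symm)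
          rw [hdo _ h12 h13, hdo c hxc.ne' huc.symm] at h10
          have := h3 _ h11
          exact fin _ h9 h11 (by omega)
      · exact hxc.ne' h9
      · exact huc h9.symm
    · obtain ⟨j, rfl⟩ : ∃ j, i = j + 1 := ⟨i - 1, by omega⟩
      have := hst j (by omega)
      rw [h4] at this
      exact pu _ this
  · have hi3 : i = 3 := by
      by_contra hi3
      have h9 := hst (i + 1) (by omega)
      rw [h5] at h9
      exact hne' (i + 1 + 1) i (by omega) (by omega) (by omega) ((sx _ h9).trans h4.symm)
    subst hi3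
    have h5' : p 4 = x := h5
    have h6 := hst 2 (by omega)
    rw [show (2 : ℕ) + 1 = 3 from rfl, h4] at h6
    obtain ⟨h7, h8⟩ := up_elim hux.symm hadj h6
    have hpx : ∀ j, j < 4 → p j ≠ x := fun j hj h =>
      hne' j 4 (by omega) (by omega) (by omega) (h.trans h5'.symm)
    have h9 : G.Adj (p 2) c := by
      rcases h7 with h | ⟨h, -⟩ | ⟨-, h⟩
      · exact h
      · exact absurd h (hpx 2 (by omega))
      · exact absurd h hxc.ne'
    have h10 : p 2 ≠ u := by
      intro h
      rw [h] at h9
      exact hcw (hnu _ h9)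
    rw [hdo _ (hpx 2 (by omega)) h10, hdo c hxc.ne' huc.symm] at h8
    have h11 : p 2 ≠ w := by
      intro h
      rw [h] at h8
      omega
    by_cases h12 : deg G (p 2) = 3
    · exact fin _ h9.symm h11 h12
    · -- three vertices of degree two
      have h13 := hst 1 (by omega)
      rw [show (1 : ℕ) + 1 = 2 from rfl] at h13
      obtain ⟨h14, h15⟩ := up_elim hux.symm hadj h13
      have h16 : p 1 ≠ u := by
        intro h
        have := hst 0 (by omega)
        rw [show (0 : ℕ) + 1 = 1 from rfl, h] at this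
        exact pu _ this
      have h17 : G.Adj (p 1) (p 2) := by
        rcases h14 with h | ⟨h, -⟩ | ⟨h, -⟩
        · exact h
        · exact absurd h (hpx 1 (by omega))
        · exact absurd h h16
      rw [hdo _ (hpx 1 (by omega)) h16, hdo _ (hpx 2 (by omega)) h10] at h15
      have h18 := hst 0 (by omega)
      rw [show (0 : ℕ) + 1 = 1 from rfl] at h18
      obtain ⟨h19, h20⟩ := up_elim hux.symm hadj h18
      have h21 : G.Adj (p 0) (p 1) := by
        rcases h19 with h | ⟨h, -⟩ | ⟨-, h⟩
        · exact h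
        · exact absurd h (hpx 0 (by omega))
        · exact absurd h (hpx 1 (by omega))
      rw [hdo _ (hpx 1 (by omega)) h16] at h20
      have h22 := dg_ge (G := G) (u := x) (v := u) (x := p 0)
      have h23 : p 0 ≠ p 2 := hne' 0 2 (by omega) (by omega) (by omega)
      have h24 := two_le_deg h21.symm h17 h23
      have h25 := partner_high hs hmax (by omega) (v := p 2) (v' := p 1) (by omega) (by omega)
        h17.symm h21 h23
      omega

/-- with a leaf and only one vertex of degree at least four there is no `5`-saturated graph -/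
theorem leaf_false (hs : Sat5 G) {w u : V} (hmax : ∀ y, deg G y ≤ deg G w)
    (hw : 4 ≤ deg G w) (h3 : ∀ y, y ≠ w → deg G y ≤ 3) (hpos : ∀ y, 1 ≤ deg G y)
    (hu : deg G u = 1) : False := by
  have huw := leaf_adj hs hmax (by omega) hu
  have hnu : ∀ y, G.Adj u y → y = w := fun y hy => nbr_one hu.le huw hy
  have hlu : ∀ y, deg G y = 1 → y = u := fun y hy => leaf_unique hs hmax (by omega) hy hu
  -- every neighbour of `w` other than `u` leads to a vertex of degree three
  obtain ⟨a, ha⟩ : ∃ a, deg G a = 3 := by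
    obtain ⟨x, hxu, hx⟩ := exists_other (G := G) (v := w) (by omega) u
    have h4 := hpos x
    have h5 := h3 x hx.ne'
    rcases (by omega : deg G x = 1 ∨ deg G x = 2 ∨ deg G x = 3) with h | h | h
    · exact absurd (hlu x h) hxu
    · obtain ⟨x', hx', hxx'⟩ := exists_other (G := G) (v := x) h.ge w
      have h6 := leaf_shared hs hmax hw hu hx h hx' hxx'
      exact ⟨x', by have := h3 x' hx'; omega⟩
    · exact ⟨x, h⟩
  -- the path given by `leaf_path` consists of vertices of degree three at the end
  have key : ∀ a, deg G a = 3 → ∃ p0 p1 p2, p0 ≠ p2 ∧ p0 ≠ a ∧ p1 ≠ a ∧ p2 ≠ a ∧ p0 ≠ w ∧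
      p1 ≠ w ∧ p2 ≠ w ∧ deg G p1 = 3 ∧ deg G p2 = 3 ∧ G.Adj p0 p1 ∧ G.Adj p1 p2 ∧
      G.Adj p1 w ∧ G.Adj p2 w := by
    intro a ha
    obtain ⟨-, p0, p1, p2, h4, h5, h6, h7, h8, h9, h10, h11, h12, h13, h14, h15⟩ :=
      leaf_path hs hmax hw h3 hu ha
    have h16 := two_le_deg h11.symm h12 h4
    have h17 := h3 p2 h10
    have h18 : deg G p2 = 3 := by
      by_contra h
      have h19 : deg G p2 = 2 := by omega
      have := leaf_shared hs hmax hw hu h13.symm h19 h9 h12.symm
      omega
    have h19 : deg G p1 = 3 := by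
      by_contra h
      have h20 : deg G p1 = 2 := by omega
      have h21 := partner_high hs hmax (by omega) (v := p0) (v' := p1) (s := p2) (by omega) h20 h11
        h12.symm h4.symm
      rcases (by have := hpos p0; omega : deg G p0 = 1 ∨ deg G p0 = 2) with h | h
      · have := hlu p0 h
        rw [this] at h11
        exact h9 (hnu _ h11)
      · exact leaf_no_pair hs hmax hw h3 hu h h20 h11
    exact ⟨p0, p1, p2, h4, h5, h6, h7, h8, h9, h10, h19, h18, h11, h12,
      leaf_three_adj hs hmax hw h3 hu h19, h13⟩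
  have hw4 : deg G w = 4 := (leaf_path hs hmax hw h3 hu ha).1
  obtain ⟨p0, p1, p2, a1, a2, a3, a4, a5, a6, a7, a8, a9, a10, a11, a12, a13⟩ := key a ha
  have haw := leaf_three_adj hs hmax hw h3 hu ha
  -- the neighbours of `w`
  have hnw : ∀ y, G.Adj w y → y = u ∨ y = a ∨ y = p1 ∨ y = p2 := by
    intro y hy
    by_contra hcon
    push Not at hcon
    have h4 : ({y, u, a, p1, p2} : Set V).ncard = 5 := by
      have e1 : u ≠ a := by
        rintro rfl
        omega
      have e2 : u ≠ p1 := by
        rintro rfl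
        omega
      have e3 : u ≠ p2 := by
        rintro rfl
        omega
      rw [Set.ncard_insert_of_notMem (by simp [hcon.1, hcon.2.1, hcon.2.2.1, hcon.2.2.2]),
        Set.ncard_insert_of_notMem (by simp [e1, e2, e3]),
        Set.ncard_insert_of_notMem (by simp [a3.symm, a4.symm]), Set.ncard_pair a11.ne]
    have h5 : ({y, u, a, p1, p2} : Set V) ⊆ G.neighborSet w := by
      intro z hz
      simp only [Set.mem_insert_iff, Set.mem_singleton_iff] at hz
      rcases hz with rfl | rfl | rfl | rfl | rfl
      · exact hy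
      · exact huw.symm
      · exact haw.symm
      · exact a12.symm
      · exact a13.symm
    have h6 := Set.ncard_le_ncard h5 (Set.toFinite _)
    unfold deg at hw4
    omega
  have hthree : ∀ y, deg G y = 3 → y = a ∨ y = p1 ∨ y = p2 := by
    intro y hy
    rcases hnw y (leaf_three_adj hs hmax hw h3 hu hy).symm with h | h
    · rw [h] at hy
      omega
    · exact h
  -- `a` is adjacent to `p1` and `p2`
  have hap : ∀ q r, (q = p1 ∧ r = p2) ∨ (q = p2 ∧ r = p1) → G.Adj a r := by
    intro q r hqr
    have hq : deg G q = 3 := by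
      rcases hqr with h | h <;> rw [h.1] <;> assumption
    obtain ⟨b0, b1, b2, b3, b4, b5, b6, b7, b8, b9, b10, b11, b12, b13, b14, b15⟩ := key q hq
    have h4 := hthree _ b10
    have h5 := hthree _ b11
    have h6 := b13.ne
    rcases hqr with ⟨rfl, rfl⟩ | ⟨rfl, rfl⟩
    · rcases h4 with rfl | rfl | rfl
      · rcases h5 with rfl | rfl | rfl
        · exact absurd rfl h6
        · exact absurd rfl b6
        · exact b13
      · exact absurd rfl b5
      · rcases h5 with rfl | rfl | rfl
        · exact b13.symm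
        · exact absurd rfl b6
        · exact absurd rfl h6
    · rcases h4 with rfl | rfl | rfl
      · rcases h5 with rfl | rfl | rfl
        · exact absurd rfl h6
        · exact b13
        · exact absurd rfl b6
      · rcases h5 with rfl | rfl | rfl
        · exact b13.symm
        · exact absurd rfl h6
        · exact absurd rfl b6
      · exact absurd rfl b5
  have h1 : G.Adj a p1 := hap p2 p1 (Or.inr ⟨rfl, rfl⟩)
  -- the neighbours of `p1` are `w`, `a`, `p2`
  rcases nbr_three (v := p1) a8.le a12 h1.symm a11 haw.ne' a7.symm a4.symm a10.symm with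
    h | h | h
  · exact a5 h
  · exact a2 h
  · exact a1 h

end Pool.Agent.Q115.Mono
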