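import Pool.Agent.Q115.FiveX4

namespace Pool.Agent.Q115.Mono

open SimpleGraph

variable {V : Type*} [Fintype V] {G : SimpleGraph V}

theorem N2_add_NH (h2 : ∀ y, 2 ≤ deg G y) (v : V) : N2 G v + NH G v = deg G v := by
  classical
  unfold N2 NH
  rw [← Finset.card_union_of_disjoint]
  · unfold deg
    rw [← Set.ncard_coe_finset]
    congr 1
    ext z
    simp only [Finset.coe_union, Finset.coe_filter, Finset.mem_univ, true_and,
      Set.mem_union, Set.mem_ofPred_eq, mem_neighborSet]
    have := h2 z
    unfold deg at this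
    constructor
    · rintro (h | h)
      · exact h.1
      · exact h.1
    · intro h
      rcases (by omega : (G.neighborSet z).ncard = 2 ∨ 3 ≤ (G.neighborSet z).ncard) with h9 | h9
      · exact Or.inl ⟨h, h9⟩
      · exact Or.inr ⟨h, h9⟩
  · rw [Finset.disjoint_left]
    intro z hz hz'
    simp only [Finset.mem_filter, Finset.mem_univ, true_and] at hz hz'
    omega

theorem N2_pos {v x : V} (h : G.Adj v x) (hx : deg G x = 2) : 1 ≤ N2 G v := by
  classical
  unfold N2
  rw [Nat.one_le_iff_ne_zero, Ne, Finset.card_eq_zero, ← Ne, ← Finset.nonempty_iff_ne_empty]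
  exact ⟨x, by simp [h, hx]⟩

theorem NH_pos {v x : V} (h : G.Adj v x) (hx : 3 ≤ deg G x) : 1 ≤ NH G v := by
  classical
  unfold NH
  rw [Nat.one_le_iff_ne_zero, Ne, Finset.card_eq_zero, ← Ne, ← Finset.nonempty_iff_ne_empty]
  exact ⟨x, by simp [h, hx]⟩

theorem NH_two {v x y : V} (h : G.Adj v x) (hx : 3 ≤ deg G x) (h' : G.Adj v y)
    (hy : 3 ≤ deg G y) (hxy : x ≠ y) : 2 ≤ NH G v := by
  classical
  unfold NH
  rw [← Finset.card_pair hxy]
  apply Finset.card_le_card
  intro z hz
  simp only [Finset.mem_insert, Finset.mem_singleton] at hz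
  rcases hz with rfl | rfl <;> simp [*]

theorem exists_N2 {v : V} (h : 1 ≤ N2 G v) : ∃ x, G.Adj v x ∧ deg G x = 2 := by
  classical
  unfold N2 at h
  obtain ⟨x, hx⟩ := Finset.card_pos.mp (lt_of_lt_of_le Nat.zero_lt_one h)
  simp only [Finset.mem_filter, Finset.mem_univ, true_and] at hx
  exact ⟨x, hx⟩

theorem exists_NH {v : V} (h : 1 ≤ NH G v) : ∃ x, G.Adj v x ∧ 3 ≤ deg G x := by
  classical
  unfold NH at h
  obtain ⟨x, hx⟩ := Finset.card_pos.mp (lt_of_lt_of_le Nat.zero_lt_one h)
  simp only [Finset.mem_filter, Finset.mem_univ, true_and] at hx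
  exact ⟨x, hx⟩

theorem exists_NH_two {v : V} (h : 2 ≤ NH G v) :
    ∃ x y, x ≠ y ∧ G.Adj v x ∧ 3 ≤ deg G x ∧ G.Adj v y ∧ 3 ≤ deg G y := by
  classical
  unfold NH at h
  obtain ⟨x, hx, y, hy, hxy⟩ := Finset.one_lt_card.mp (lt_of_lt_of_le one_lt_two h)
  simp only [Finset.mem_filter, Finset.mem_univ, true_and] at hx hy
  exact ⟨x, y, hxy, hx.1, hx.2, hy.1, hy.2⟩

open Classical in
/-- the contribution of `v` to `6 e - 7 n` -/
noncomputable def slk (G : SimpleGraph V) (v : V) : ℤ :=
  3 * (deg G v : ℤ) - 7 + (if deg G v = 2 then (NH G v : ℤ) else 0) -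
    (if 3 ≤ deg G v then (N2 G v : ℤ) else 0)

theorem slk_total (G : SimpleGraph V) :
    ∑ v, slk G v = 6 * (G.edgeSet.ncard : ℤ) - 7 * (Fintype.card V : ℤ) := by
  classical
  have h1 := double_count G
  have h2 := sum_deg G
  unfold slk
  rw [Finset.sum_sub_distrib, Finset.sum_add_distrib, Finset.sum_sub_distrib, ← Finset.mul_sum,
    Finset.sum_const, Finset.card_univ]
  have h3 : (∑ v, (if deg G v = 2 then (NH G v : ℤ) else 0)) =
      ((∑ v, (if deg G v = 2 then NH G v else 0) : ℕ) : ℤ) := by
    rw [Nat.cast_sum]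
    exact Finset.sum_congr rfl fun v _ => by split_ifs <;> simp
  have h4 : (∑ v, (if 3 ≤ deg G v then (N2 G v : ℤ) else 0)) =
      ((∑ v, (if 3 ≤ deg G v then N2 G v else 0) : ℕ) : ℤ) := by
    rw [Nat.cast_sum]
    exact Finset.sum_congr rfl fun v _ => by split_ifs <;> simp
  have h5 : (∑ v, (deg G v : ℤ)) = ((∑ v, deg G v : ℕ) : ℤ) := by
    rw [Nat.cast_sum]
  rw [h3, h4, h1, h5, h2]
  simp only [nsmul_eq_mul]
  push_cast
  ring

theorem slk_two {v : V} (h : deg G v = 2) : slk G v = (NH G v : ℤ) - 1 := by
  unfold slk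
  rw [if_pos h, if_neg (by omega), h]
  push_cast
  ring

theorem slk_high {v : V} (h : 3 ≤ deg G v) : slk G v = 3 * (deg G v : ℤ) - 7 - N2 G v := by
  unfold slk
  rw [if_neg (by omega), if_pos h]
  ring

/-- the sum of the numbers `N2` over the vertices of degree at least three is even -/
theorem even_high (h2 : ∀ y, 2 ≤ deg G y) :
    ∃ m, ∑ v, (if 3 ≤ deg G v then N2 G v else 0) = 2 * m := by
  classical
  obtain ⟨m, hm⟩ := even_two G
  rw [double_count]
  have h3 : ∑ v, (if deg G v = 2 then N2 G v else 0) + ∑ v, (if deg G v = 2 then NH G v else 0) =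
      2 * ∑ v : V, (if deg G v = 2 then 1 else 0) := by
    rw [← Finset.sum_add_distrib, Finset.mul_sum]
    apply Finset.sum_congr rfl
    intro v _
    split_ifs with h
    · have := N2_add_NH h2 v
      omega
    · rfl
  refine ⟨∑ v : V, (if deg G v = 2 then 1 else 0) - m, ?_⟩
  omega

/-- the case of maximum degree at least four without leaves -/
theorem case_big (hs : Sat5 G) {w : V} (hmax : ∀ y, deg G y ≤ deg G w) (hw : 4 ≤ deg G w)
    (h2 : ∀ y, 2 ≤ deg G y) (hn : 6 ≤ Fintype.card V)
    (ht : 6 * G.edgeSet.ncard ≤ 7 * Fintype.card V + 4) : Fintype.card V = 9 := by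
  classical
  have htot := slk_total G
  have hNH : ∀ x, deg G x = 2 → 1 ≤ NH G x := by
    intro x hx
    by_contra hcon
    refine no_low hs hmax (by omega) hx ?_
    intro z hz
    by_contra h
    have := NH_pos hz (by omega : 3 ≤ deg G z)
    omega
  have hnobad : ∀ v, deg G v = 3 → N2 G v ≤ 2 := by
    intro v hv
    by_contra hcon
    have := bad_max hs hmax (by omega) hv (fun x hx => N2_eq_deg (by omega) hx)
    omega
  have hnn : ∀ v, 0 ≤ slk G v := by
    intro v
    have h3 := h2 v
    rcases (by omega : deg G v = 2 ∨ deg G v = 3 ∨ 4 ≤ deg G v) with h | h | h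
    · rw [slk_two h]
      have := hNH v h
      omega
    · rw [slk_high (by omega)]
      have := hnobad v h
      omega
    · rw [slk_high (by omega)]
      have := N2_le (G := G) v
      omega
  have hle : ∀ T : Finset V, ∑ v ∈ T, slk G v ≤ 4 := by
    intro T
    have h3 := Finset.sum_le_sum_of_subset_of_nonneg (Finset.subset_univ T)
      (fun v _ _ => hnn v)
    rw [htot] at h3
    omega
  -- a hub of degree at least four has a neighbour in a pair
  have hpair : ∀ c, 4 ≤ deg G c → ∃ v v', deg G v = 2 ∧ deg G v' = 2 ∧ G.Adj v v' ∧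
      G.Adj v c := by
    intro c hc
    by_contra hcon
    push Not at hcon
    have h3 := hle (insert c (Finset.univ.filter fun x => G.Adj c x ∧ deg G x = 2))
    rw [Finset.sum_insert (by simp), slk_high (by omega)] at h3
    have h4 : ∑ v ∈ Finset.univ.filter (fun x => G.Adj c x ∧ deg G x = 2), slk G v =
        ∑ v ∈ Finset.univ.filter (fun x => G.Adj c x ∧ deg G x = 2), 1 := by
      apply Finset.sum_congr rfl
      intro v hv
      simp only [Finset.mem_filter, Finset.mem_univ, true_and] at hv
      rw [slk_two hv.2]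
      have h5 : N2 G v = 0 := by
        by_contra h
        obtain ⟨v', h6, h7⟩ := exists_N2 (by omega : 1 ≤ N2 G v)
        exact hcon v v' hv.2 h7 h6 hv.1.symm
      have := N2_add_NH h2 v
      have : NH G v = 2 := by omega
      rw [this]
      norm_num
    rw [h4, Finset.sum_const] at h3
    have h5 : (Finset.univ.filter fun x => G.Adj c x ∧ deg G x = 2).card = N2 G c := by
      unfold N2
      congr
    rw [h5] at h3
    simp only [nsmul_eq_mul, mul_one] at h3
    omega
  have huniq : ∀ c, c ≠ w → deg G c ≤ 3 := by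
    intro c hc
    by_contra h
    obtain ⟨v, v', h3, h4, h5, h6⟩ := hpair c (by omega)
    exact hc (hub_unique hs hmax h3 h4 h5 h6 (by omega))
  obtain ⟨v0, v0', p1, p2, p3, p4⟩ := hpair w hw
  have h3adj : ∀ a, deg G a = 3 → G.Adj w a := by
    intro a ha
    by_contra h
    refine three_adj hs hmax hw p1 p2 p3 p4 ha ?_
    intro x hx
    exact huniq x (by rintro rfl; exact h hx.symm)
  -- the numbers of vertices
  set k3 := (Finset.univ.filter fun x => deg G x = 3).card with hk3
  set k2 := (Finset.univ.filter fun x => deg G x = 2).card with hk2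
  have hww : w ∉ (Finset.univ.filter fun x => deg G x = 3) ∪
      (Finset.univ.filter fun x => deg G x = 2) := by
    simp only [Finset.mem_union, Finset.mem_filter, Finset.mem_univ, true_and]
    omega
  have hdisj : Disjoint (Finset.univ.filter fun x => deg G x = 3)
      (Finset.univ.filter fun x => deg G x = 2) := by
    rw [Finset.disjoint_left]
    intro x hx hx'
    simp only [Finset.mem_filter, Finset.mem_univ, true_and] at hx hx'
    omega
  have hunion : (Finset.univ : Finset V) = insert w ((Finset.univ.filter fun x => deg G x = 3) ∪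
      (Finset.univ.filter fun x => deg G x = 2)) := by
    ext x
    simp only [Finset.mem_univ, Finset.mem_insert, Finset.mem_union, Finset.mem_filter, true_and,
      true_iff]
    by_cases hx : x = w
    · exact Or.inl hx
    · have := huniq x hx
      have := h2 x
      omega
  have hcard : Fintype.card V = 1 + k3 + k2 := by
    rw [← Finset.card_univ, hunion, Finset.card_insert_of_notMem hww,
      Finset.card_union_of_disjoint hdisj]
    omega
  have hsum : 2 * G.edgeSet.ncard = deg G w + 3 * k3 + 2 * k2 := by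
    rw [← sum_deg G, hunion, Finset.sum_insert hww, Finset.sum_union hdisj]
    have e1 : ∑ x ∈ Finset.univ.filter (fun x => deg G x = 3), deg G x = 3 * k3 := by
      rw [Finset.sum_congr rfl (g := fun _ => 3) (by simp), Finset.sum_const, smul_eq_mul, mul_comm]
    have e2 : ∑ x ∈ Finset.univ.filter (fun x => deg G x = 2), deg G x = 2 * k2 := by
      rw [Finset.sum_congr rfl (g := fun _ => 2) (by simp), Finset.sum_const, smul_eq_mul, mul_comm]
    rw [e1, e2]
    ring
  have hNHw : NH G w = k3 := by
    rw [hk3]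
    unfold NH
    congr 1
    ext x
    simp only [Finset.mem_filter, Finset.mem_univ, true_and]
    constructor
    · rintro ⟨h, h'⟩
      have := huniq x h.ne'
      omega
    · intro h
      exact ⟨h3adj x h, h.ge⟩
  have hNw := N2_add_NH h2 w
  have hsw := hle {w}
  rw [Finset.sum_singleton, slk_high (by omega)] at hsw
  have hsw' : slk G w ≤ 6 * (G.edgeSet.ncard : ℤ) - 7 * (Fintype.card V : ℤ) := by
    rw [← htot]
    exact Finset.single_le_sum (fun v _ => hnn v) (Finset.mem_univ w)
  rw [slk_high (by omega)] at hsw'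
  have hcases : Fintype.card V = 9 ∨ (deg G w = 5 ∧ k3 = 1) ∨
      (deg G w = 4 ∧ k3 = 2 ∧ k2 = 5) := by
    have hD : deg G w ≤ 5 := by omega
    rcases (by omega : deg G w = 4 ∨ deg G w = 5) with h | h
    · rw [h] at hsum hNw hsw hsw' 
      rcases (by omega : k3 = 0 ∨ k3 = 1 ∨ k3 = 2 ∨ k3 = 3) with h' | h' | h' | h' <;>
        rw [h'] at hsum hcard hNHw <;> omega
    · rw [h] at hsum hNw hsw hsw'
      rcases (by omega : k3 = 0 ∨ k3 = 1) with h' | h' <;>
        rw [h'] at hsum hcard hNHw <;> omega
  rcases hcases with h | ⟨h, h'⟩ | ⟨h, h', h''⟩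
  · exact h
  · exfalso
    obtain ⟨b, hb⟩ := Finset.card_pos.mp (by omega : 0 < k3)
    simp only [Finset.mem_filter, Finset.mem_univ, true_and] at hb
    exact no_three_five hs hmax h.ge huniq p1 p2 p3 p4 hb
  · exfalso
    have hslw : slk G w = 3 := by
      rw [slk_high (by omega)]
      have : N2 G w = 2 := by omega
      rw [this, h]
      norm_num
    have htot4 : ∑ v, slk G v = 4 := by
      rw [htot, hcard, h', h'']
      have : 2 * G.edgeSet.ncard = 20 := by rw [hsum, h, h', h'']
      omega
    -- the vertices of degree three have two neighbours of degree two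
    have hb0 : ∀ b, deg G b = 3 → N2 G b = 2 := by
      intro b hb
      by_contra hcon
      have h3 := hnobad b hb
      have h4 := N2_add_NH h2 b
      obtain ⟨x, y, hxy, hx, hx', hy, hy'⟩ := exists_NH_two (by omega : 2 ≤ NH G b)
      obtain ⟨c, hcw, hc, hc'⟩ : ∃ c, c ≠ w ∧ G.Adj b c ∧ 3 ≤ deg G c := by
        by_cases hxw : x = w
        · exact ⟨y, fun h => hxy (hxw.trans h.symm), hy, hy'⟩
        · exact ⟨x, hxw, hx, hx'⟩
      have hc3 : deg G c = 3 := by
        have := huniq c hcw
        omega
      have h5 := NH_two (h3adj c hc3).symm (by omega) hc.symm hb.ge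
        (by rintro rfl; omega)
      have h6 := N2_add_NH h2 c
      have h7 := hle {w, b, c}
      rw [Finset.sum_insert (by
        simp only [Finset.mem_insert, Finset.mem_singleton, not_or]
        exact ⟨by rintro rfl; omega, hcw.symm⟩), Finset.sum_pair hc.ne, hslw,
        slk_high hb.ge, slk_high hc3.ge, hb, hc3] at h7
      omega
    obtain ⟨q, hq, hq1⟩ : ∃ q, deg G q = 2 ∧ 1 ≤ slk G q := by
      by_contra hcon
      push Not at hcon
      have h3 : ∀ v ∈ (Finset.univ : Finset V), slk G v ≤ (if v = w then 3 else 0) := by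
        intro v _
        by_cases hv : v = w
        · rw [if_pos hv, hv, hslw]
        · rw [if_neg hv]
          have h4 := huniq v hv
          have h5 := h2 v
          rcases (by omega : deg G v = 2 ∨ deg G v = 3) with h6 | h6
          · have := hcon v h6
            omega
          · rw [slk_high h6.ge, hb0 v h6, h6]
            norm_num
      have h4 := Finset.sum_le_sum h3
      rw [htot4, Finset.sum_ite_eq' Finset.univ w] at h4
      simp at h4
    rw [slk_two hq] at hq1
    have hNq : NH G q = 2 := by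
      have := N2_add_NH h2 q
      omega
    have hNq2 : N2 G q = 0 := by
      have := N2_add_NH h2 q
      omega
    obtain ⟨x, y, hxy, hx, hx', hy, hy'⟩ := exists_NH_two hNq.ge
    obtain ⟨b, hbw, hqb, hb'⟩ : ∃ c, c ≠ w ∧ G.Adj q c ∧ 3 ≤ deg G c := by
      by_cases hxw : x = w
      · exact ⟨y, fun h => hxy (hxw.trans h.symm), hy, hy'⟩
      · exact ⟨x, hxw, hx, hx'⟩
    have hb : deg G b = 3 := by
      have := huniq b hbw
      omega
    have hbwa := (h3adj b hb).symm
    obtain ⟨r, hr, hrw, hrq⟩ := exists_third (G := G) (v := b) (a := w) (b := q) hb.ge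
    have hwq : w ≠ q := by
      rintro rfl
      omega
    have hr2 : deg G r = 2 := by
      by_contra hcon
      have h3 := NH_two hbwa (by omega) hr (by have := h2 r; omega) hrw.symm
      have h4 := N2_add_NH h2 b
      have := hb0 b hb
      omega
    have hslr : N2 G r = 1 := by
      have h3 := hle {w, q, r}
      rw [Finset.sum_insert (by
        simp only [Finset.mem_insert, Finset.mem_singleton, not_or]
        exact ⟨hwq, hrw.symm⟩), Finset.sum_pair hrq.symm, hslw, slk_two hq, slk_two hr2,
        hNq] at h3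
      have := hNH r hr2
      have := N2_add_NH h2 r
      omega
    obtain ⟨r', hr', hr''⟩ := exists_N2 hslr.ge
    obtain ⟨y, hy1, hy2, hy3⟩ := hub_three hs hmax hw hb hbwa hr hqb.symm hr2 hq hrq hr' hr''
    have h3 := N2_pos hy1 (by have := h2 y; omega)
    omega

end Pool.Agent.Q115.Mono
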