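import Pool.Agent.Q115.FiveX5

namespace Pool.Agent.Q115.Mono

open SimpleGraph

variable {V : Type*} [Fintype V] {G : SimpleGraph V}

/-- a neighbour `q` of degree two of `a`, not adjacent to vertices of degree two, and the other
neighbours -/
theorem not_low_of_shared (hs : Sat5 G) (h3 : ∀ y, deg G y ≤ 3) {a b q x : V}
    (ha : deg G a = 3) (hb : deg G b = 3) (hab : G.Adj a b) (haq : G.Adj a q)
    (hq : deg G q = 2) (hq3 : ∀ y, G.Adj q y → deg G y = 3) (hax : G.Adj a x)
    (hx : deg G x = 2) (hxq : x ≠ q) : ∀ y, G.Adj x y → deg G y ≠ 2 := by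
  intro y hy hy2
  obtain ⟨r, h4, -, -, -, h5⟩ := pair_type hs h3 ha hb hab hax hx hy hy2 haq
    (by rintro rfl; omega) hxq.symm
  have := hq3 r h4
  omega

/-- the case of maximum degree three without leaves -/
theorem case_three (hs : Sat5 G) (h3 : ∀ y, deg G y ≤ 3) (h2 : ∀ y, 2 ≤ deg G y)
    (hex : ∃ w, deg G w = 3) (ht : 6 * G.edgeSet.ncard ≤ 7 * Fintype.card V + 4) :
    6 * G.edgeSet.ncard ≤ 7 * Fintype.card V := by
  classical
  obtain ⟨w, hw⟩ := hex
  have hmax : ∀ y, deg G y ≤ deg G w := fun y => (h3 y).trans hw.ge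
  have htot := slk_total G
  have hdeg : ∀ v, deg G v = 2 ∨ deg G v = 3 := by
    intro v
    have := h3 v
    have := h2 v
    omega
  have hadd := N2_add_NH h2
  have hNH : ∀ x, deg G x = 2 → 1 ≤ NH G x := by
    intro x hx
    by_contra hcon
    refine no_low hs hmax (by omega) hx ?_
    intro z hz
    by_contra h
    have := NH_pos hz (by omega : 3 ≤ deg G z)
    omega
  have hs3 : ∀ v, deg G v = 3 → slk G v = 2 - N2 G v := by
    intro v hv
    rw [slk_high hv.ge, hv]
    norm_num
  have hbadu : ∀ a b, deg G a = 3 → deg G b = 3 → N2 G a = 3 → N2 G b = 3 → a = b := by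
    intro a b ha hb ha' hb'
    exact bad_unique hs hmax hw.ge ha hb (fun x hx => N2_eq_deg (by omega) hx)
      (fun x hx => N2_eq_deg (by omega) hx)
  -- the sums over sets of vertices
  have hle5 : ∀ T : Finset V, ∑ v ∈ T, slk G v ≤ 5 := by
    intro T
    by_cases hbad : ∃ h, deg G h = 3 ∧ N2 G h = 3
    · obtain ⟨h, hh, hh'⟩ := hbad
      have h4 : ∀ v, 0 ≤ slk G v + (if v = h then 1 else 0) := by
        intro v
        rcases hdeg v with h5 | h5
        · rw [slk_two h5]
          have := hNH v h5
          split_ifs <;> omega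
        · rw [hs3 v h5]
          by_cases hv : v = h
          · rw [if_pos hv]
            have := hadd v
            omega
          · rw [if_neg hv]
            have : N2 G v ≠ 3 := fun h6 => hv (hbadu v h h5 hh h6 hh')
            have := hadd v
            omega
      have h5 := Finset.sum_le_sum_of_subset_of_nonneg (Finset.subset_univ T)
        (fun v _ _ => h4 v)
      have h6 : ∑ v ∈ T, slk G v ≤ ∑ v ∈ T, (slk G v + (if v = h then 1 else 0)) := by
        apply Finset.sum_le_sum
        intro v _
        split_ifs <;> omega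
      rw [Finset.sum_add_distrib (s := Finset.univ), htot, Finset.sum_ite_eq' Finset.univ h] at h5
      simp only [Finset.mem_univ, if_true] at h5
      omega
    · push Not at hbad
      have h4 : ∀ v, 0 ≤ slk G v := by
        intro v
        rcases hdeg v with h5 | h5
        · rw [slk_two h5]
          have := hNH v h5
          omega
        · rw [hs3 v h5]
          have := hbad v h5
          have := hadd v
          omega
      have h5 := Finset.sum_le_sum_of_subset_of_nonneg (Finset.subset_univ T)
        (fun v _ _ => h4 v)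
      rw [htot] at h5
      omega
  -- an end of a path on three vertices of degree three has no neighbour in a pair
  have hE2 : ∀ a b c x y, deg G a = 3 → deg G b = 3 → deg G c = 3 → G.Adj a b → G.Adj b c →
      a ≠ c → G.Adj a x → deg G x = 2 → G.Adj x y → deg G y ≠ 2 := by
    intro a b c x y ha hb hc hab hbc hac hax hx hxy hy
    refine no_five hs (a := y) (b := x) (c := a) (d := b) (e := c) ⟨hxy.symm, by omega⟩
      ⟨hax.symm, by omega⟩ ⟨hab, by omega⟩ ⟨hbc, by omega⟩ ?_
    have e : ∀ s t, deg G s = 2 → deg G t = 3 → s ≠ t := by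
      rintro s t h4 h5 rfl
      omega
    simp only [List.nodup_cons, List.mem_cons, List.not_mem_nil, or_false, not_or,
      List.nodup_nil, and_true, not_false_eq_true]
    exact ⟨⟨hxy.ne', e _ _ hy ha, e _ _ hy hb, e _ _ hy hc⟩,
      ⟨e _ _ hx ha, e _ _ hx hb, e _ _ hx hc⟩, ⟨hab.ne, hac⟩, hbc.ne⟩
  -- no path on four vertices of degree three
  have hT1 : ∀ a b c d, deg G a = 3 → deg G b = 3 → deg G c = 3 → deg G d = 3 → G.Adj a b →
      G.Adj b c → G.Adj c d → a ≠ c → a ≠ d → b ≠ d → False := by
    intro a b c d ha hb hc hd hab hbc hcd hac had hbd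
    have hend : ∀ a b c d, deg G a = 3 → deg G b = 3 → deg G c = 3 → deg G d = 3 → G.Adj a b →
        G.Adj b c → G.Adj c d → a ≠ c → a ≠ d → b ≠ d → N2 G a = 0 := by
      intro a b c d ha hb hc hd hab hbc hcd hac had hbd
      by_contra h
      obtain ⟨x, hx, hx'⟩ := exists_N2 (by omega : 1 ≤ N2 G a)
      have e : ∀ t, deg G t = 3 → x ≠ t := by
        rintro t h5 rfl
        omega
      refine no_five hs (a := x) (b := a) (c := b) (d := c) (e := d) ⟨hx.symm, by omega⟩
        ⟨hab, by omega⟩ ⟨hbc, by omega⟩ ⟨hcd, by omega⟩ ?_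
      simp only [List.nodup_cons, List.mem_cons, List.not_mem_nil, or_false, not_or,
        List.nodup_nil, and_true, not_false_eq_true]
      exact ⟨⟨e _ ha, e _ hb, e _ hc, e _ hd⟩, ⟨hab.ne, hac, had⟩, ⟨hbc.ne, hbd⟩, hcd.ne⟩
    have h4 := hend a b c d ha hb hc hd hab hbc hcd hac had hbd
    have h5 := hend d c b a hd hc hb ha hcd.symm hbc.symm hab.symm hbd.symm had.symm hac.symm
    have h6 := NH_two hab.symm ha.ge hbc hc.ge hac
    have h7 := NH_two hbc.symm hb.ge hcd hd.ge hbd
    have h8 := hadd b
    have h9 := hadd c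
    have h10 := hle5 {a, b, c, d}
    rw [Finset.sum_insert (by simp [hab.ne, hac, had]), Finset.sum_insert (by simp [hbc.ne, hbd]),
      Finset.sum_pair hcd.ne, hs3 a ha, hs3 b hb, hs3 c hc, hs3 d hd] at h10
    omega
  -- no triangle of vertices of degree three
  have hT2 : ∀ a b c, deg G a = 3 → deg G b = 3 → deg G c = 3 → G.Adj a b → G.Adj a c →
      G.Adj b c → False := by
    have hz : ∀ a b c, deg G a = 3 → deg G b = 3 → deg G c = 3 → G.Adj a b → G.Adj a c →
        G.Adj b c → ∃ z, G.Adj a z ∧ deg G z = 2 ∧ slk G z = 1 ∧ slk G a = 1 ∧ ¬ G.Adj z b ∧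
          ¬ G.Adj z c := by
      intro a b c ha hb hc hab hac hbc
      obtain ⟨z, hz, hzb, hzc⟩ := exists_third (G := G) (v := a) (a := b) (b := c) ha.ge
      have hz2 : deg G z = 2 := by
        rcases hdeg z with h | h
        · exact h
        · exact absurd (hT1 z a b c h ha hb hc hz.symm hab hbc hzb hzc hac.ne) (by simp)
      have hz' : N2 G z = 0 := by
        by_contra h
        obtain ⟨y, hy, hy'⟩ := exists_N2 (by omega : 1 ≤ N2 G z)
        exact hE2 a b c z y ha hb hc hab hbc hac.ne hz hz2 hy hy'
      have h4 := NH_two hab hb.ge hac hc.ge hbc.ne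
      have h5 := N2_pos hz hz2
      have h6 := hadd a
      have h7 := hadd z
      refine ⟨z, hz, hz2, ?_, ?_, ?_, ?_⟩
      · rw [slk_two hz2]
        omega
      · rw [hs3 a ha]
        omega
      · intro h
        exact no_triangle_shared hs h3 ha hb hc hab hac hbc hz2 hz.symm h
      · intro h
        exact no_triangle_shared hs h3 ha hc hb hac hab hbc.symm hz2 hz.symm h
    intro a b c ha hb hc hab hac hbc
    obtain ⟨z1, z11, z12, z13, z14, z15, z16⟩ := hz a b c ha hb hc hab hac hbc
    obtain ⟨z2, z21, z22, z23, z24, z25, z26⟩ := hz b a c hb ha hc hab.symm hbc hac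
    obtain ⟨z3, z31, z32, z33, z34, z35, z36⟩ := hz c a b hc ha hb hac.symm hbc.symm hab
    have e : ∀ s t, deg G s = 3 → deg G t = 2 → s ≠ t := by
      rintro s t h4 h5 rfl
      omega
    have n12 : z1 ≠ z2 := by
      rintro rfl
      exact z15 z21.symm
    have n13 : z1 ≠ z3 := by
      rintro rfl
      exact z16 z31.symm
    have n23 : z2 ≠ z3 := by
      rintro rfl
      exact z26 z31.symm
    have h10 := hle5 {a, b, c, z1, z2, z3}
    rw [Finset.sum_insert (by simp [hab.ne, hac.ne, e a z1 ha z12, e a z2 ha z22, e a z3 ha z32]),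
      Finset.sum_insert (by simp [hbc.ne, e b z1 hb z12, e b z2 hb z22, e b z3 hb z32]),
      Finset.sum_insert (by simp [e c z1 hc z12, e c z2 hc z22, e c z3 hc z32]),
      Finset.sum_insert (by simp [n12, n13]), Finset.sum_pair n23, z13, z14, z23, z24, z33,
      z34] at h10
    omega
  -- the neighbours of degree three of a vertex with two such neighbours
  have hT3 : ∀ b a c x, deg G b = 3 → deg G a = 3 → deg G c = 3 → G.Adj b a → G.Adj b c →
      a ≠ c → G.Adj a x → x ≠ b → deg G x = 2 ∧ ∀ y, G.Adj x y → deg G y ≠ 2 := by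
    intro b a c x hb ha hc hba hbc hac hax hxb
    have hx2 : deg G x = 2 := by
      rcases hdeg x with h | h
      · exact h
      · exfalso
        by_cases hxc : x = c
        · subst hxc
          exact hT2 a b x ha hb hc hba.symm hax hbc
        · exact hT1 x a b c h ha hb hc hax.symm hba.symm hbc hxb hxc hac
    exact ⟨hx2, fun y hy => hE2 a b c x y ha hb hc hba.symm hbc hac hax hx2 hy⟩
  have hnserv : ∀ b, deg G b = 3 → 2 ≤ NH G b → ¬ Serv G b := by
    rintro b hb hNb ⟨p, x, h4, h5, h6, h7, h8⟩
    obtain ⟨s, t, hst, hs1, hs2, ht1, ht2⟩ := exists_NH_two hNb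
    obtain ⟨c, hc, hc3, hpc⟩ : ∃ c, G.Adj b c ∧ deg G c = 3 ∧ p ≠ c := by
      by_cases hps : p = s
      · exact ⟨t, ht1, by have := h3 t; omega, fun h => hst (hps.symm.trans h)⟩
      · exact ⟨s, hs1, by have := h3 s; omega, hps⟩
    obtain ⟨h9, h10⟩ := hT3 b p c x hb h5 hc3 h4 hc hpc h6 h7
    rcases h8 with h8 | ⟨-, y, h11, h12⟩
    · omega
    · exact h10 y h11 h12
  have hserve : ∀ a c, deg G a = 3 → deg G c = 3 → a ≠ c → ¬ G.Adj a c → Serv G a ∨ Serv G c :=
    fun a c ha hc hac h => serve hs h3 h2 ha hc hac h
  obtain ⟨m, hm⟩ := even_high h2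
  by_cases hHH : ∃ b, deg G b = 3 ∧ 2 ≤ NH G b
  · exfalso
    obtain ⟨b, hb, hNb⟩ := hHH
    have hnb := hnserv b hb hNb
    have hN1 : ∀ v, deg G v = 3 → v ≠ b → N2 G v = 2 := by
      intro v hv hvb
      have h4 := hadd v
      by_cases hadj : G.Adj b v
      · have h5 := NH_pos hadj.symm hb.ge
        by_contra hcon
        obtain ⟨s, t, hst, hs1, hs2, ht1, ht2⟩ := exists_NH_two (by omega : 2 ≤ NH G v)
        obtain ⟨x, hx, hx3, hxb⟩ : ∃ x, G.Adj v x ∧ deg G x = 3 ∧ x ≠ b := by
          by_cases hsb : s = b
          · exact ⟨t, ht1, by have := h3 t; omega, fun h => hst (hsb.trans h.symm)⟩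
          · exact ⟨s, hs1, by have := h3 s; omega, hsb⟩
        obtain ⟨s', t', hst', hs1', hs2', ht1', ht2'⟩ := exists_NH_two hNb
        obtain ⟨c, hc, hc3, hvc⟩ : ∃ c, G.Adj b c ∧ deg G c = 3 ∧ v ≠ c := by
          by_cases hps : v = s'
          · exact ⟨t', ht1', by have := h3 t'; omega, fun h => hst' (hps.symm.trans h)⟩
          · exact ⟨s', hs1', by have := h3 s'; omega, hps⟩
        have := (hT3 b v c x hb hv hc3 hadj hc hvc hx hxb).1
        omega
      · have h5 : Serv G v := by
          rcases hserve b v hb hv (Ne.symm hvb) hadj with h | h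
          · exact absurd h hnb
          · exact h
        have h6 : NH G v < 2 := by
          by_contra hcon
          exact hnserv v hv (by omega) h5
        obtain ⟨p, x, h7, h8, -⟩ := h5
        have h9 := NH_pos h7 h8.ge
        omega
    have hNb3 : NH G b ≤ 3 := by
      have := hadd b
      omega
    have hsum : ∑ v, (if 3 ≤ deg G v then N2 G v else 0) + 2 =
        2 * ∑ v : V, (if deg G v = 3 then 1 else 0) + N2 G b := by
      have h4 : ∀ v, (if 3 ≤ deg G v then N2 G v else 0) + (if v = b then 2 else 0) =
          2 * (if deg G v = 3 then 1 else 0) + (if v = b then N2 G b else 0) := by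
        intro v
        by_cases hvb : v = b
        · subst hvb
          simp only [if_pos rfl, hb, le_refl, if_true]
          omega
        · rw [if_neg hvb, if_neg hvb]
          rcases hdeg v with h | h
          · rw [if_neg (by omega), if_neg (by omega)]
          · rw [if_pos h.ge, if_pos h, hN1 v h hvb]
      have h5 := Finset.sum_congr (rfl : (Finset.univ : Finset V) = Finset.univ)
        (fun v (_ : v ∈ Finset.univ) => h4 v)
      rw [Finset.sum_add_distrib, Finset.sum_add_distrib, ← Finset.mul_sum,
        Finset.sum_ite_eq' Finset.univ b, Finset.sum_ite_eq' Finset.univ b] at h5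
      simpa using h5
    have hcase : N2 G b = 0 := by
      have := hadd b
      rcases (by omega : NH G b = 2 ∨ NH G b = 3) with h | h
      · exfalso
        have : N2 G b = 1 := by omega
        omega
      · omega
    -- now `b` has three neighbours of degree three
    have hall3 : ∀ v, G.Adj b v → deg G v = 3 := by
      intro v hv
      rcases hdeg v with h | h
      · have := N2_pos hv h
        omega
      · exact h
    have hnn : ∀ v, 0 ≤ slk G v := by
      intro v
      rcases hdeg v with h5 | h5
      · rw [slk_two h5]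
        have := hNH v h5
        omega
      · rw [hs3 v h5]
        by_cases hvb : v = b
        · rw [hvb, hcase]
          norm_num
        · rw [hN1 v h5 hvb]
          norm_num
    have hle4 : ∀ T : Finset V, ∑ v ∈ T, slk G v ≤ 4 := by
      intro T
      have h5 := Finset.sum_le_sum_of_subset_of_nonneg (Finset.subset_univ T)
        (fun v _ _ => hnn v)
      rw [htot] at h5
      omega
    -- the neighbours of degree two of a neighbour of `b`
    have hz : ∀ a, G.Adj b a → ∃ x y, x ≠ y ∧ G.Adj a x ∧ G.Adj a y ∧ deg G x = 2 ∧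
        deg G y = 2 ∧ slk G x = 1 ∧ slk G y = 1 := by
      intro a hba
      have ha := hall3 a hba
      obtain ⟨c, hc, hca, -⟩ := exists_third (G := G) (v := b) (a := a) (b := a) hb.ge
      have hc3 := hall3 c hc
      obtain ⟨x, hx, hxb, -⟩ := exists_third (G := G) (v := a) (a := b) (b := b) ha.ge
      obtain ⟨y, hy, hyb, hyx⟩ := exists_third (G := G) (v := a) (a := b) (b := x) ha.ge
      have key : ∀ x, G.Adj a x → x ≠ b → deg G x = 2 ∧ slk G x = 1 := by
        intro x hx hxb
        obtain ⟨h4, h5⟩ := hT3 b a c x hb ha hc3 hba hc hca.symm hx hxb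
        refine ⟨h4, ?_⟩
        have h6 : N2 G x = 0 := by
          by_contra h
          obtain ⟨y, hy, hy'⟩ := exists_N2 (by omega : 1 ≤ N2 G x)
          exact h5 y hy hy'
        have := hadd x
        rw [slk_two h4]
        omega
      exact ⟨x, y, hyx.symm, hx, hy, (key x hx hxb).1, (key y hy hyb).1, (key x hx hxb).2,
        (key y hy hyb).2⟩
    obtain ⟨a1, h11, -, -⟩ := exists_third (G := G) (v := b) (a := b) (b := b) hb.ge
    obtain ⟨a2, h21, h22, -⟩ := exists_third (G := G) (v := b) (a := a1) (b := a1) hb.ge
    obtain ⟨a3, h31, h32, h33⟩ := exists_third (G := G) (v := b) (a := a1) (b := a2) hb.ge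
    obtain ⟨z, z', hzz, hz1, -, hz3, -, hz5, -⟩ := hz a1 h11
    obtain ⟨c, hbc, hcz⟩ : ∃ c, G.Adj b c ∧ ¬ G.Adj c z := by
      by_contra hcon
      push Not at hcon
      have e1 := hcon a2 h21
      have e2 := hcon a3 h31
      rcases nbr_two hz3.le hz1.symm e1.symm h22.symm e2.symm with h | h
      · exact h32 h
      · exact h33 h
    obtain ⟨x, y, hxy, hx1, hy1, hx2, hy2, hx3, hy3⟩ := hz c hbc
    have hzx : z ≠ x := by
      rintro rfl
      exact hcz hx1
    have hzy : z ≠ y := by
      rintro rfl
      exact hcz hy1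
    have e : ∀ t, deg G t = 2 → b ≠ t := by
      rintro t h5 rfl
      omega
    have h10 := hle4 {b, z, x, y}
    rw [Finset.sum_insert (by simp [e z hz3, e x hx2, e y hy2]),
      Finset.sum_insert (by simp [hzx, hzy]), Finset.sum_pair hxy, hz5, hx3, hy3, hs3 b hb,
      hcase] at h10
    norm_num at h10
  · push Not at hHH
    by_cases hbad : ∃ h, deg G h = 3 ∧ N2 G h = 3
    · exfalso
      obtain ⟨h, hh, hh'⟩ := hbad
      have hN1 : ∀ v, deg G v = 3 → v ≠ h → N2 G v = 2 := by
        intro v hv hvh
        have h4 : N2 G v ≠ 3 := fun h6 => hvh (hbadu v h hv hh h6 hh')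
        have h5 := hHH v hv
        have h6 := hadd v
        omega
      have hsum : ∑ v, (if 3 ≤ deg G v then N2 G v else 0) =
          2 * ∑ v : V, (if deg G v = 3 then 1 else 0) + 1 := by
        have h4 : ∀ v, (if 3 ≤ deg G v then N2 G v else 0) =
            2 * (if deg G v = 3 then 1 else 0) + (if v = h then 1 else 0) := by
          intro v
          by_cases hvb : v = h
          · subst hvb
            simp only [if_pos rfl, hh, le_refl, if_true, hh']
          · rw [if_neg hvb]
            rcases hdeg v with h' | h'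
            · rw [if_neg (by omega), if_neg (by omega)]
            · rw [if_pos h'.ge, if_pos h', hN1 v h' hvb]
        rw [Finset.sum_congr rfl (fun v (_ : v ∈ Finset.univ) => h4 v), Finset.sum_add_distrib,
          ← Finset.mul_sum, Finset.sum_ite_eq' Finset.univ h]
        simp
      omega
    · push Not at hbad
      have hNH1 : ∀ v, deg G v = 3 → NH G v = 1 ∧ N2 G v = 2 := by
        intro v hv
        have h4 := hHH v hv
        have h5 := hbad v hv
        have h6 := hadd v
        omega
      have huni : ∀ v x y, deg G v = 3 → G.Adj v x → deg G x = 3 → G.Adj v y → deg G y = 3 →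
          x = y := by
        intro v x y hv hx hx3 hy hy3
        by_contra hxy
        have := NH_two hx hx3.ge hy hy3.ge hxy
        have := (hNH1 v hv).1
        omega
      by_contra hcon
      -- a vertex of degree two with two neighbours of degree three
      obtain ⟨q, hq, hq1⟩ : ∃ q, deg G q = 2 ∧ 1 ≤ slk G q := by
        by_contra hno
        push Not at hno
        have h4 : ∀ v ∈ (Finset.univ : Finset V), slk G v ≤ 0 := by
          intro v _
          rcases hdeg v with h5 | h5
          · have := hno v h5
            omega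
          · rw [hs3 v h5, (hNH1 v h5).2]
            norm_num
        have h5 := Finset.sum_nonpos h4
        rw [htot] at h5
        omega
      rw [slk_two hq] at hq1
      have hfull : ∀ x, deg G x = 2 → (∀ y, G.Adj x y → deg G y ≠ 2) →
          ∀ y, G.Adj x y → deg G y = 3 := by
        intro x _ hx' y hy
        rcases hdeg y with h | h
        · exact absurd h (hx' y hy)
        · exact h
      have hq2 : ∀ y, G.Adj q y → deg G y ≠ 2 := by
        intro y hy hy2
        have := N2_pos hy hy2
        have := hadd q
        omega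
      -- the partner of a hub of such a vertex does not serve
      have hP : ∀ q a b, deg G q = 2 → (∀ y, G.Adj q y → deg G y ≠ 2) → deg G a = 3 →
          G.Adj a q → deg G b = 3 → G.Adj a b → ¬ Serv G b := by
        rintro q a b hq hq2 ha haq hb hab ⟨p, x, h4, h5, h6, h7, h8⟩
        have hpa : p = a := huni b p a hb h4 h5 hab.symm ha
        subst hpa
        rcases h8 with h8 | ⟨h8, y, h9, h10⟩
        · exact h7 (huni p x b ha h6 h8 hab hb)
        · have hxq : x ≠ q := by
            rintro rfl
            exact hq2 y h9 h10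
          exact not_low_of_shared hs h3 ha hb hab haq hq (hfull q hq hq2) h6 h8 hxq y h9 h10
      have hpart : ∀ a, deg G a = 3 → ∃ b, G.Adj a b ∧ deg G b = 3 := by
        intro a ha
        obtain ⟨b, hb, hb'⟩ := exists_NH (hNH1 a ha).1.ge
        exact ⟨b, hb, by have := h3 b; omega⟩
      have hP2 : ∀ q a c, deg G q = 2 → (∀ y, G.Adj q y → deg G y ≠ 2) → deg G a = 3 →
          deg G c = 3 → a ≠ c → G.Adj a q → G.Adj c q → G.Adj a c := by
        intro q a c hq hq2 ha hc hac haq hcq
        obtain ⟨b, hab, hb⟩ := hpart a ha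
        obtain ⟨d, hcd, hd⟩ := hpart c hc
        have h4 := hP q a b hq hq2 ha haq hb hab
        have h5 := hP q c d hq hq2 hc hcq hd hcd
        by_cases hbd : b = d
        · subst hbd
          exact absurd (huni b a c hb hab.symm ha hcd.symm hc) hac
        · by_cases hadj : G.Adj b d
          · have h6 : d = a := huni b d a hb hadj hd hab.symm ha
            subst h6
            exact hcd.symm
          · rcases hserve b d hb hd hbd hadj with h | h
            · exact absurd h h4
            · exact absurd h h5
      obtain ⟨a, c, hac, ha1, ha2, hc1, hc2⟩ := exists_NH_two (by omega : 2 ≤ NH G q)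
      have ha : deg G a = 3 := by
        have := h3 a
        omega
      have hc : deg G c = 3 := by
        have := h3 c
        omega
      have hadj := hP2 q a c hq hq2 ha hc hac ha1.symm hc1.symm
      obtain ⟨x, hx, hxc, hxq⟩ := exists_third (G := G) (v := a) (a := c) (b := q) ha.ge
      have hx2 : deg G x = 2 := by
        rcases hdeg x with h | h
        · exact h
        · exact absurd (huni a x c ha hx h hadj hc) hxc
      have hx3 := not_low_of_shared hs h3 ha hc hadj ha1.symm hq (hfull q hq hq2) hx hx2 hxq
      obtain ⟨c', hc'a, hxc'⟩ := exists_other (G := G) (v := x) hx2.ge a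
      have hc'3 := hfull x hx2 hx3 c' hxc'
      have h4 := hP2 x a c' hx2 hx3 ha hc'3 (Ne.symm hc'a) hx hxc'.symm
      have h5 : c' = c := huni a c' c ha h4 hc'3 hadj hc
      subst h5
      -- the closed set
      have hqc' : q ≠ c' := by
        rintro rfl
        omega
      have hqa : q ≠ a := by
        rintro rfl
        omega
      have h6 := closed_small hs {a, c', q, x} Finset.card_le_four (by
        intro s hs' t hst
        simp only [Finset.mem_insert, Finset.mem_singleton] at hs' ⊢
        rcases hs' with rfl | rfl | rfl | rfl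
        · rcases nbr_three ha.le hadj ha1.symm hx hqc'.symm hxc.symm hxq.symm hst with h | h | h <;>
            tauto
        · rcases nbr_three hc.le hadj.symm hc1.symm hxc'.symm hqa.symm hx.ne hxq.symm hst
            with h | h | h <;> tauto
        · rcases nbr_two hq.le ha1 hc1 hac hst with h | h <;> tauto
        · rcases nbr_two hx2.le hx.symm hxc' hac hst with h | h <;> tauto)
        (u := q) (v := x) (by simp) (by simp) hxq.symm
      rcases nbr_two hq.le ha1 hc1 hac h6 with h | h
      · exact hx.ne' h
      · exact hxc h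

end Pool.Agent.Q115.Mono
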