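import Pool.Agent.Q115.FiveX6

/-! The value `h(5, 5) = 9`: kernel check over all graphs on five vertices. -/

namespace Pool.Agent.Q115.Mono

open SimpleGraph

/-- position of the pair `uv` in the mask -/
def pos5 (u v : ℕ) : ℕ :=
  [10, 0, 1, 2, 3, 0, 10, 4, 5, 6, 1, 4, 10, 7, 8, 2, 5, 7, 10, 9, 3, 6, 8, 9, 10].getD (5 * u + v) 10

/-- adjacency read off the mask -/
def ad5 (m u v : ℕ) : Bool := Nat.testBit m (pos5 u v)

/-- degree read off the mask -/
def dg5 (m u : ℕ) : ℕ :=
  (ad5 m u 0).toNat + (ad5 m u 1).toNat + (ad5 m u 2).toNat + (ad5 m u 3).toNat + (ad5 m u 4).toNat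

/-- step of an increasing path -/
def up5 (m a b : ℕ) : Bool := ad5 m a b && Nat.ble (dg5 m a) (dg5 m b)

/-- there is an increasing path through all five vertices -/
def ham5 (m : ℕ) : Bool :=
  [0, 1, 2, 3, 4].any fun a => [0, 1, 2, 3, 4].any fun b => up5 m a b &&
    [0, 1, 2, 3, 4].any fun c => c != a && up5 m b c &&
      [0, 1, 2, 3, 4].any fun d => d != a && d != b && up5 m c d &&
        [0, 1, 2, 3, 4].any fun e => e != a && e != b && e != c && up5 m d e

/-- the graph of the mask is `5`-saturated -/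
def sat5B (m : ℕ) : Bool :=
  !ham5 m && (List.range 10).all fun i => Nat.testBit m i || ham5 (m ||| 2 ^ i)

/-- the graph has at least nine edges or is not `5`-saturated -/
def chk5 (m : ℕ) : Bool :=
  Nat.ble 18 (dg5 m 0 + dg5 m 1 + dg5 m 2 + dg5 m 3 + dg5 m 4) || !sat5B m

theorem all5 : (List.range 1024).all chk5 = true := by
  decide +kernel

/-- the pairs of vertices -/
def ep : Fin 10 → Fin 5 × Fin 5 :=
  ![(0, 1), (0, 2), (0, 3), (0, 4), (1, 2), (1, 3), (1, 4), (2, 3), (2, 4), (3, 4)]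

open Classical in
/-- the mask of a graph on five vertices -/
noncomputable def mask (G : SimpleGraph (Fin 5)) : ℕ :=
  Nat.ofBits (fun i : Fin 10 => decide (G.Adj (ep i).1 (ep i).2))

theorem mask_bit (G : SimpleGraph (Fin 5)) (i : ℕ) (hi : i < 10) :
    Nat.testBit (mask G) i = true ↔ G.Adj (ep ⟨i, hi⟩).1 (ep ⟨i, hi⟩).2 := by
  classical
  unfold mask
  rw [Nat.testBit_ofBits_lt _ _ hi, decide_eq_true_iff]

theorem mask_bit_ge (G : SimpleGraph (Fin 5)) (i : ℕ) (hi : 10 ≤ i) :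
    Nat.testBit (mask G) i = false := by
  unfold mask
  exact Nat.testBit_ofBits_ge _ _ hi

theorem ad5_mask (G : SimpleGraph (Fin 5)) (u v : Fin 5) :
    ad5 (mask G) u v = true ↔ G.Adj u v := by
  unfold ad5
  fin_cases u <;> fin_cases v
  all_goals first
    | exact ⟨fun h => absurd ((mask_bit_ge G 10 le_rfl).symm.trans h) (by simp),
        fun h => absurd h (G.irrefl)⟩
    | exact mask_bit G 0 (by omega)
    | exact mask_bit G 1 (by omega)
    | exact mask_bit G 2 (by omega)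
    | exact mask_bit G 3 (by omega)
    | exact mask_bit G 4 (by omega)
    | exact mask_bit G 5 (by omega)
    | exact mask_bit G 6 (by omega)
    | exact mask_bit G 7 (by omega)
    | exact mask_bit G 8 (by omega)
    | exact mask_bit G 9 (by omega)
    | exact (mask_bit G 0 (by omega)).trans (G.adj_comm _ _)
    | exact (mask_bit G 1 (by omega)).trans (G.adj_comm _ _)
    | exact (mask_bit G 2 (by omega)).trans (G.adj_comm _ _)
    | exact (mask_bit G 3 (by omega)).trans (G.adj_comm _ _)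
    | exact (mask_bit G 4 (by omega)).trans (G.adj_comm _ _)
    | exact (mask_bit G 5 (by omega)).trans (G.adj_comm _ _)
    | exact (mask_bit G 6 (by omega)).trans (G.adj_comm _ _)
    | exact (mask_bit G 7 (by omega)).trans (G.adj_comm _ _)
    | exact (mask_bit G 8 (by omega)).trans (G.adj_comm _ _)
    | exact (mask_bit G 9 (by omega)).trans (G.adj_comm _ _)

theorem deg_mask (G : SimpleGraph (Fin 5)) (u : Fin 5) : deg G u = dg5 (mask G) u := by
  classical
  have h1 : deg G u = ∑ v : Fin 5, (ad5 (mask G) u v).toNat := by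
    unfold deg
    have h2 : G.neighborSet u = ((Finset.univ.filter fun v => G.Adj u v : Finset (Fin 5)) :
        Set (Fin 5)) := by
      ext v
      simp
    rw [h2, Set.ncard_coe_finset, Finset.card_filter]
    apply Finset.sum_congr rfl
    intro v _
    by_cases h : G.Adj u v
    · rw [if_pos h, (ad5_mask G u v).mpr h]
      rfl
    · rw [if_neg h]
      have : ad5 (mask G) u v = false := by
        rw [← Bool.not_eq_true]
        exact fun h' => h ((ad5_mask G u v).mp h')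
      rw [this]
      rfl
  rw [h1, Fin.sum_univ_five]
  rfl

theorem mask_lt (G : SimpleGraph (Fin 5)) : mask G < 1024 := by
  unfold mask
  exact Nat.ofBits_lt_two_pow _

theorem up5_mask (G : SimpleGraph (Fin 5)) (a b : Fin 5) :
    up5 (mask G) a b = true ↔ Up G a b := by
  unfold up5 Up
  rw [Bool.and_eq_true, ad5_mask, Nat.ble_eq, deg_mask, deg_mask]

theorem ham5_of_inc {G : SimpleGraph (Fin 5)} {a b c d e : Fin 5} (h1 : Up G a b)
    (h2 : Up G b c) (h3 : Up G c d) (h4 : Up G d e) (hac : c ≠ a) (had : d ≠ a) (hbd : d ≠ b)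
    (hae : e ≠ a) (hbe : e ≠ b) (hce : e ≠ c) : ham5 (mask G) = true := by
  have hm : ∀ x : Fin 5, (x : ℕ) ∈ [0, 1, 2, 3, 4] := by
    intro x
    fin_cases x <;> simp
  have hne : ∀ x y : Fin 5, x ≠ y → ((x : ℕ) != (y : ℕ)) = true := by
    intro x y h
    rw [bne_iff_ne]
    exact fun h' => h (Fin.ext h')
  unfold ham5
  rw [List.any_eq_true]
  refine ⟨a, hm a, ?_⟩
  rw [List.any_eq_true]
  refine ⟨b, hm b, ?_⟩
  rw [Bool.and_eq_true]
  refine ⟨(up5_mask G a b).mpr h1, ?_⟩
  rw [List.any_eq_true]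
  refine ⟨c, hm c, ?_⟩
  rw [Bool.and_eq_true, Bool.and_eq_true]
  refine ⟨⟨hne _ _ hac, (up5_mask G b c).mpr h2⟩, ?_⟩
  rw [List.any_eq_true]
  refine ⟨d, hm d, ?_⟩
  rw [Bool.and_eq_true, Bool.and_eq_true, Bool.and_eq_true]
  refine ⟨⟨⟨hne _ _ had, hne _ _ hbd⟩, (up5_mask G c d).mpr h3⟩, ?_⟩
  rw [List.any_eq_true]
  refine ⟨e, hm e, ?_⟩
  rw [Bool.and_eq_true, Bool.and_eq_true, Bool.and_eq_true]
  exact ⟨⟨⟨hne _ _ hae, hne _ _ hbe⟩, hne _ _ hce⟩, (up5_mask G d e).mpr h4⟩

theorem inc_of_ham5 {G : SimpleGraph (Fin 5)} (h : ham5 (mask G) = true) :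
    ∃ a b c d e : Fin 5, Up G a b ∧ Up G b c ∧ Up G c d ∧ Up G d e ∧ [a, b, c, d, e].Nodup := by
  have hm : ∀ x : ℕ, x ∈ [0, 1, 2, 3, 4] → ∃ y : Fin 5, (y : ℕ) = x := by
    intro x hx
    simp only [List.mem_cons, List.not_mem_nil, or_false] at hx
    exact ⟨⟨x, by omega⟩, rfl⟩
  unfold ham5 at h
  rw [List.any_eq_true] at h
  obtain ⟨a, ha, h⟩ := h
  obtain ⟨a, rfl⟩ := hm a ha
  rw [List.any_eq_true] at h
  obtain ⟨b, hb, h⟩ := h
  obtain ⟨b, rfl⟩ := hm b hb
  rw [Bool.and_eq_true] at h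
  obtain ⟨h1, h⟩ := h
  rw [List.any_eq_true] at h
  obtain ⟨c, hc, h⟩ := h
  obtain ⟨c, rfl⟩ := hm c hc
  rw [Bool.and_eq_true, Bool.and_eq_true] at h
  obtain ⟨⟨h2, h3⟩, h⟩ := h
  rw [List.any_eq_true] at h
  obtain ⟨d, hd, h⟩ := h
  obtain ⟨d, rfl⟩ := hm d hd
  rw [Bool.and_eq_true, Bool.and_eq_true, Bool.and_eq_true] at h
  obtain ⟨⟨⟨h4, h5⟩, h6⟩, h⟩ := h
  rw [List.any_eq_true] at h
  obtain ⟨e, he, h⟩ := h
  obtain ⟨e, rfl⟩ := hm e he
  rw [Bool.and_eq_true, Bool.and_eq_true, Bool.and_eq_true] at h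
  obtain ⟨⟨⟨h7, h8⟩, h9⟩, h10⟩ := h
  rw [bne_iff_ne] at h2 h4 h5 h7 h8 h9
  have u1 := (up5_mask G a b).mp h1
  have u2 := (up5_mask G b c).mp h3
  have u3 := (up5_mask G c d).mp h6
  have u4 := (up5_mask G d e).mp h10
  refine ⟨a, b, c, d, e, u1, u2, u3, u4, ?_⟩
  simp only [List.nodup_cons, List.mem_cons, List.not_mem_nil, or_false, not_or,
    List.nodup_nil, and_true, not_false_eq_true]
  refine ⟨⟨u1.1.ne, ?_, ?_, ?_⟩, ⟨u2.1.ne, ?_, ?_⟩, ⟨u3.1.ne, ?_⟩, u4.1.ne⟩
  · rintro rfl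
    exact h2 rfl
  · rintro rfl
    exact h4 rfl
  · rintro rfl
    exact h7 rfl
  · rintro rfl
    exact h5 rfl
  · rintro rfl
    exact h8 rfl
  · rintro rfl
    exact h9 rfl

theorem mask_sup (G : SimpleGraph (Fin 5)) (i : ℕ) (hi : i < 10) :
    mask (G ⊔ edge (ep ⟨i, hi⟩).1 (ep ⟨i, hi⟩).2) = mask G ||| 2 ^ i := by
  have hinj : ∀ i j : Fin 10, ((ep j).1 = (ep i).1 ∧ (ep j).2 = (ep i).2) ∨
      ((ep j).1 = (ep i).2 ∧ (ep j).2 = (ep i).1) → j = i := by
    decide
  have hne : ∀ i : Fin 10, (ep i).1 ≠ (ep i).2 := by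
    decide
  apply Nat.eq_of_testBit_eq
  intro j
  rw [Nat.testBit_or, Nat.testBit_two_pow]
  by_cases hj : j < 10
  · rw [Bool.eq_iff_iff, mask_bit _ j hj, Bool.or_eq_true, mask_bit _ j hj, decide_eq_true_iff,
      sup_edge_adj]
    constructor
    · rintro (h | ⟨h, -⟩)
      · exact Or.inl h
      · right
        have := hinj _ _ h
        rw [Fin.mk.injEq] at this
        exact this.symm
    · rintro (h | h)
      · exact Or.inl h
      · subst h
        exact Or.inr ⟨Or.inl ⟨rfl, rfl⟩, hne _⟩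
  · rw [mask_bit_ge _ j (by omega), mask_bit_ge _ j (by omega)]
    simp
    omega

/-- a `5`-saturated graph on five vertices has at least nine edges -/
theorem five_five {G : SimpleGraph (Fin 5)} (hs : Sat5 G) : 9 ≤ G.edgeSet.ncard := by
  have h1 := List.all_eq_true.mp all5 (mask G) (List.mem_range.mpr (mask_lt G))
  unfold chk5 at h1
  rw [Bool.or_eq_true] at h1
  rcases h1 with h1 | h1
  · rw [Nat.ble_eq] at h1
    have h2 := sum_deg G
    rw [Fin.sum_univ_five, deg_mask, deg_mask, deg_mask, deg_mask, deg_mask] at h2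
    have h3 : dg5 (mask G) ((0 : Fin 5) : ℕ) + dg5 (mask G) ((1 : Fin 5) : ℕ) +
        dg5 (mask G) ((2 : Fin 5) : ℕ) + dg5 (mask G) ((3 : Fin 5) : ℕ) +
        dg5 (mask G) ((4 : Fin 5) : ℕ) = dg5 (mask G) 0 + dg5 (mask G) 1 + dg5 (mask G) 2 +
        dg5 (mask G) 3 + dg5 (mask G) 4 := rfl
    omega
  · exfalso
    rw [Bool.not_eq_true'] at h1
    have h2 : sat5B (mask G) = true := by
      unfold sat5B
      rw [Bool.and_eq_true, Bool.not_eq_true', List.all_eq_true]
      constructor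
      · rw [← Bool.not_eq_true]
        intro h
        obtain ⟨a, b, c, d, e, u1, u2, u3, u4, hn⟩ := inc_of_ham5 h
        exact no_five hs u1 u2 u3 u4 hn
      · intro i hi
        rw [List.mem_range] at hi
        rw [Bool.or_eq_true]
        by_cases h : Nat.testBit (mask G) i = true
        · exact Or.inl h
        · right
          rw [← mask_sup G i hi]
          rw [mask_bit G i hi] at h
          have hne : (ep ⟨i, hi⟩).1 ≠ (ep ⟨i, hi⟩).2 := by
            have : ∀ i : Fin 10, (ep i).1 ≠ (ep i).2 := by decide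
            exact this _
          obtain ⟨p, hinj, hst, -⟩ := five hs hne h
          have hne' : ∀ i j, i < 5 → j < 5 → i ≠ j → p i ≠ p j := fun i j hi hj hij h =>
            hij (hinj i j hi hj h)
          exact ham5_of_inc (hst 0 (by omega)) (hst 1 (by omega)) (hst 2 (by omega))
            (hst 3 (by omega)) (hne' _ _ (by omega) (by omega) (by omega))
            (hne' _ _ (by omega) (by omega) (by omega)) (hne' _ _ (by omega) (by omega) (by omega))
            (hne' _ _ (by omega) (by omega) (by omega)) (hne' _ _ (by omega) (by omega) (by omega))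
            (hne' _ _ (by omega) (by omega) (by omega))
    rw [h1] at h2
    exact Bool.noConfusion h2

end Pool.Agent.Q115.Mono
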