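import Pool.Agent.Q115.FiveX7
import Pool.Agent.Q115.FiveTables

namespace Pool.Agent.Q115.Mono

open SimpleGraph

/-- with a leaf the maximum degree vertex is the only vertex of degree at least four -/
theorem leaf_unique_hub {V : Type*} [Fintype V] {G : SimpleGraph V} (hs : Sat5 G) {w u : V}
    (hmax : ∀ y, deg G y ≤ deg G w) (hw : 4 ≤ deg G w) (hpos : ∀ y, 1 ≤ deg G y)
    (hu : deg G u = 1) (ht : 6 * G.edgeSet.ncard ≤ 7 * Fintype.card V + 4) :
    ∀ c, c ≠ w → deg G c ≤ 3 := by
  classical
  have huw := leaf_adj hs hmax (by omega) hu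
  have hlu : ∀ y, deg G y = 1 → y = u := fun y hy => leaf_unique hs hmax (by omega) hy hu
  have huniq : ∀ z, deg G z = deg G w → z = w := by
    intro z hz
    have h1 : G.Adj u z := leaf_adj hs (fun x => by rw [hz]; exact hmax x) (by omega) hu
    exact nbr_one hu.le huw h1
  intro c hcw
  by_contra hc
  have htot := slk_total G
  have hsu : slk G u = -4 := by
    unfold slk
    rw [if_neg (by omega), if_neg (by omega), hu]
    norm_num
  have hsw : slk G w = 3 * (deg G w : ℤ) - 7 - N2 G w := slk_high (by omega)
  have hsc : 1 ≤ slk G c := by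
    rw [slk_high (by omega)]
    have := N2_le (G := G) c
    omega
  have hD := hmax c
  have hcw' : deg G c ≠ deg G w := fun h => hcw (huniq c h)
  have hnn : ∀ v, v ≠ u → 0 ≤ slk G v := by
    intro v hvu
    have h3 := hpos v
    rcases (by omega : deg G v = 1 ∨ deg G v = 2 ∨ deg G v = 3 ∨ 4 ≤ deg G v) with
      h | h | h | h
    · exact absurd (hlu v h) hvu
    · rw [slk_two h]
      have : 1 ≤ NH G v := by
        by_contra hcon
        refine no_low hs hmax (by omega) h ?_
        intro z hz
        by_contra h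
        have := NH_pos hz (by omega : 3 ≤ deg G z)
        omega
      omega
    · rw [slk_high (by omega)]
      have : N2 G v ≤ 2 := by
        by_contra hcon
        have := bad_max hs hmax (by omega) h (fun x hx => N2_eq_deg (by omega) hx)
        omega
      omega
    · rw [slk_high (by omega)]
      have := N2_le (G := G) v
      omega
  set S := Finset.univ.filter fun x => G.Adj w x ∧ deg G x = 2 with hS
  have hS1 : ∑ v ∈ S, (1 : ℤ) ≤ ∑ v ∈ S, slk G v := by
    apply Finset.sum_le_sum
    intro v hv
    simp only [hS, Finset.mem_filter, Finset.mem_univ, true_and] at hv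
    obtain ⟨x', hx', hxx'⟩ := exists_other (G := G) (v := v) hv.2.ge w
    have h4 := leaf_shared hs hmax hw hu hv.1 hv.2 hx' hxx'
    have h5 := NH_two hv.1.symm (by omega) hxx' h4 (Ne.symm hx')
    rw [slk_two hv.2]
    omega
  have hScard : (S.card : ℤ) = N2 G w := by
    unfold N2
    rw [hS]
  rw [Finset.sum_const, nsmul_eq_mul, mul_one, hScard] at hS1
  have hwS : w ∉ insert c S := by
    simp only [hS, Finset.mem_insert, Finset.mem_filter, Finset.mem_univ, true_and, not_or]
    exact ⟨Ne.symm hcw, fun h => G.irrefl h.1⟩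
  have hcS : c ∉ S := by
    simp only [hS, Finset.mem_filter, Finset.mem_univ, true_and]
    omega
  have huT : u ∉ insert w (insert c S) := by
    simp only [hS, Finset.mem_insert, Finset.mem_filter, Finset.mem_univ, true_and, not_or]
    refine ⟨huw.ne, ?_, ?_⟩
    · rintro rfl
      omega
    · omega
  have hsub : ∑ v ∈ insert u (insert w (insert c S)), slk G v ≤ ∑ v, slk G v := by
    apply Finset.sum_le_sum_of_subset_of_nonneg (Finset.subset_univ _)
    intro v _ hv
    apply hnn
    rintro rfl
    exact hv (Finset.mem_insert_self _ _)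
  rw [Finset.sum_insert huT, Finset.sum_insert hwS, Finset.sum_insert hcS, htot, hsu, hsw] at hsub
  omega

/-- **The exact lower bound.** -/
theorem lower_exact {V : Type*} [Fintype V] {G : SimpleGraph V} (hG : KSaturated 5 G)
    (hn : 6 ≤ Fintype.card V) (ht : 6 * G.edgeSet.ncard ≤ 7 * Fintype.card V + 4) :
    6 * G.edgeSet.ncard = 7 * Fintype.card V ∨ Fintype.card V = 9 := by
  classical
  have hs := sat5_of hG
  obtain ⟨w0, hw0⟩ := exists_three hs (by omega)
  obtain ⟨w, hw⟩ : ∃ w, ∀ x, deg G x ≤ deg G w := by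
    obtain ⟨w, -, hw⟩ := Finset.exists_max_image Finset.univ (deg G) ⟨w0, Finset.mem_univ _⟩
    exact ⟨w, fun x => hw x (Finset.mem_univ _)⟩
  have hw3 : 3 ≤ deg G w := hw0.trans (hw w0)
  have hpos : ∀ u, 1 ≤ deg G u := no_isolated hs hw (fun v => by
    by_contra h
    push Not at h
    have : (Finset.univ : Finset V) ⊆ {v} := fun x _ => by simpa using h x
    have := Finset.card_le_card this
    rw [Finset.card_univ, Finset.card_singleton] at this
    omega)
  by_cases hleaf : ∃ u, deg G u = 1
  · exfalso
    obtain ⟨u, hu⟩ := hleaf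
    have hw4 := leaf_four hs hw hw3 hpos hu
    exact leaf_false hs hw hw4 (leaf_unique_hub hs hw hw4 hpos hu ht) hpos hu
  · push Not at hleaf
    have h2 : ∀ y, 2 ≤ deg G y := by
      intro y
      have := hpos y
      have := hleaf y
      omega
    rcases (by omega : deg G w = 3 ∨ 4 ≤ deg G w) with h | h
    · left
      have h3 := case_three hs (fun y => (hw y).trans h.le) h2 ⟨w, h⟩ ht
      have h4 := lower hG (by omega)
      omega
    · exact Or.inr (case_big hs hw h h2 hn ht)

/-- adjacency masks of the sporadic graph on nine vertices -/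
def MY9 : List ℕ := [66, 129, 72, 132, 288, 272, 261, 266, 240]
/-- degrees of the sporadic graph on nine vertices -/
def DY9 : List ℕ := [2, 2, 2, 2, 2, 2, 3, 3, 4]

theorem checksY9 : Checks 9 MY9 DY9 where
  sym := by decide +kernel
  irr := by decide +kernel
  deg := by decide +kernel
  no5 := by decide +kernel
  pair := by decide +kernel

theorem edgesY9 : (tabG 9 MY9 checksY9.sym checksY9.irr).edgeSet.ncard ≤ 11 :=
  tab_edges checksY9 (by decide +kernel)

/-- adjacency masks of the complete graph on five vertices without an edge -/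
def MZ5 : List ℕ := [30, 29, 27, 7, 7]
/-- degrees -/
def DZ5 : List ℕ := [4, 4, 4, 3, 3]

theorem checksZ5 : Checks 5 MZ5 DZ5 where
  sym := by decide +kernel
  irr := by decide +kernel
  deg := by decide +kernel
  no5 := by decide +kernel
  pair := by decide +kernel

theorem edgesZ5 : (tabG 5 MZ5 checksZ5.sym checksZ5.irr).edgeSet.ncard ≤ 9 :=
  tab_edges checksZ5 (by decide +kernel)

theorem h_mem (n : ℕ) : ∃ G : SimpleGraph (Fin n), KSaturated 5 G ∧ G.edgeSet.ncard = h n 5 := by
  have hne : {m | ∃ G : SimpleGraph (Fin n), KSaturated 5 G ∧ G.edgeSet.ncard = m}.Nonempty := by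
    obtain ⟨G, hG⟩ := exists_sat_any n 5 (by omega)
    exact ⟨_, G, hG, rfl⟩
  exact Nat.sInf_mem hne

theorem h_nine : h 9 5 = 11 := by
  apply le_antisymm
  · exact (h_le (by omega) (tab_sat checksY9) (by simp)).trans edgesY9
  · obtain ⟨G, hG, hm⟩ := h_mem 9
    have := lower hG (by simp)
    rw [Fintype.card_fin, hm] at this
    omega

theorem h_five : h 5 5 = 9 := by
  apply le_antisymm
  · exact (h_le (by omega) (tab_sat checksZ5) (by simp)).trans edgesZ5
  · obtain ⟨G, hG, hm⟩ := h_mem 5
    rw [← hm]
    exact five_five (sat5_of hG)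

theorem h_small (n : ℕ) (hn : n ≤ 4) : h n 5 = n.choose 2 := by
  classical
  obtain ⟨G, hG, hm⟩ := h_mem n
  have htop : G = ⊤ := by
    ext a b
    rw [top_adj]
    constructor
    · exact fun h => h.ne
    · intro hab
      by_contra hadj
      obtain ⟨l, hl, hlen⟩ := (sat5_of hG).B a b hab hadj
      have := hl.1.length_le_card
      rw [Fintype.card_fin] at this
      omega
  rw [← hm, htop, ← coe_edgeFinset, Set.ncard_coe_finset, card_edgeFinset_top_eq_card_choose_two,
    Fintype.card_fin]

theorem h_ge (n e : ℕ) (hn : 6 ≤ n) (h9 : n ≠ 9) (he : 6 * e ≤ 7 * n + 4) (he' : 6 * e ≠ 7 * n) :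
    e < h n 5 := by
  obtain ⟨G, hG, hm⟩ := h_mem n
  by_contra hcon
  push Not at hcon
  have h1 := lower hG (by rw [Fintype.card_fin]; omega)
  rcases lower_exact hG (by rwa [Fintype.card_fin]) (by rw [Fintype.card_fin, hm]; omega) with
    h | h
  · rw [Fintype.card_fin, hm] at h
    rw [Fintype.card_fin, hm] at h1
    omega
  · rw [Fintype.card_fin] at h
    exact h9 h

end Pool.Agent.Q115.Mono
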