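import Pool.Agent.Q115.GX3

/-! Expander decomposition of near-extremal graphs of large girth; the expander form of the girth
conjecture. -/

set_option autoImplicit false

open Finset

namespace Pool.Agent.Q115.GX

theorem girth_decomp (k : ℕ) (hk : 1 ≤ k) (c ε : ℝ) (hc : 0 < c) (hε : 0 < ε) :
    ∃ η : ℝ, 0 < η ∧ ∃ D N : ℕ, ∀ (V : Type) [Fintype V] [DecidableEq V] (G : SimpleGraph V)
      [DecidableRel G.Adj], N ≤ Fintype.card V → ((2 * k : ℕ) : ℕ∞) < G.egirth →
      c * (Fintype.card V : ℝ) ^ (1 + 1 / (k : ℝ)) ≤ (G.edgeFinset.card : ℝ) →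
      ∃ Ps : Finset (Finset V), (∀ U ∈ Ps, ∀ W ∈ Ps, U ≠ W → Disjoint U W) ∧
        (1 - ε) * (2 * (G.edgeFinset.card : ℝ)) ≤
          (∑ U ∈ Ps, ∑ x ∈ U, ((U.filter (fun y => G.Adj x y)).card : ℝ)) ∧
        ∀ U ∈ Ps, η * (Fintype.card V : ℝ) ≤ (U.card : ℝ) ∧
          (∀ x ∈ U, η * (Fintype.card V : ℝ) ^ (1 / (k : ℝ)) ≤
              ((U.filter (fun y => G.Adj x y)).card : ℝ) ∧
            (G.degree x : ℝ) ≤ η⁻¹ * (Fintype.card V : ℝ) ^ (1 / (k : ℝ))) ∧
          (∀ S ⊆ U, 2 * S.card ≤ U.card →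
            η * (Fintype.card V : ℝ) ^ (1 / (k : ℝ)) * S.card ≤
              ∑ x ∈ S, (((U \ S).filter (fun y => G.Adj x y)).card : ℝ)) ∧
          ∀ x ∈ U, ∀ y ∈ U, ∃ p : G.Walk x y, p.length ≤ D ∧ ∀ z ∈ p.support, z ∈ U := by
  have hkR : (0 : ℝ) < k := by exact_mod_cast hk
  have hα : (0 : ℝ) < 1 / (k : ℝ) := by positivity
  obtain ⟨η, hη, hmain⟩ := decomp (1 / (k : ℝ)) 24 (2 * c) ε hα (by norm_num) (by linarith) hε
  have hγ : 1 < 1 + η ^ 2 := by have : 0 < η ^ 2 := by positivity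
                                linarith
  obtain ⟨J, hJ⟩ := pow_unbounded_of_one_lt (((η / 2) ^ k)⁻¹) hγ
  have hJ' : 1 < (1 + η ^ 2) ^ J * (η / 2) ^ k := by
    have hp : 0 < (η / 2) ^ k := by positivity
    calc (1 : ℝ) = ((η / 2) ^ k)⁻¹ * (η / 2) ^ k := (inv_mul_cancel₀ hp.ne').symm
      _ < _ := mul_lt_mul_of_pos_right hJ hp
  obtain ⟨N, hN⟩ := exists_nat_ge (max ((2 / η) ^ (k : ℝ)) 1)
  refine ⟨η, hη, 2 * (k + J), N, ?_⟩
  intro V _ _ G _ hVN hg hsize
  have hg' := (Pool.TH815.GR.egirth_iff G _).1 hg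
  have hsumdeg : ∑ x, ((univ.filter (fun y => G.Adj x y)).card : ℝ) =
      2 * (G.edgeFinset.card : ℝ) := by
    have : 2 * (G.edgeFinset.card : ℝ) = ∑ v, (G.degree v : ℝ) := by
      rw [← Nat.cast_sum, G.sum_degrees_eq_twice_card_edges]
      push_cast
      rfl
    rw [this]
    apply sum_congr rfl
    intro x _
    rw [← G.card_neighborFinset_eq_degree, G.neighborFinset_eq_filter]
  have hdegeq : ∀ x, ((univ.filter (fun y => G.Adj x y)).card : ℝ) = (G.degree x : ℝ) := by
    intro x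
    rw [← G.card_neighborFinset_eq_degree, G.neighborFinset_eq_filter]
  obtain ⟨Ps, hP1, hP2, hP3⟩ := hmain V G (fun X => her_girth G hk hg' X)
    (by rw [hsumdeg]; linarith)
  rw [hsumdeg] at hP2
  refine ⟨Ps, hP1, hP2, ?_⟩
  intro U hU
  obtain ⟨q1, q2, q3, q4⟩ := hP3 U hU
  refine ⟨q1, fun x hx => ⟨(q3 x hx).1, by rw [← hdegeq]; exact (q3 x hx).2⟩, q4, ?_⟩
  -- diameter
  set n : ℝ := (Fintype.card V : ℝ) with hn
  have hnN : (N : ℝ) ≤ n := by rw [hn]; exact_mod_cast hVN
  have hn1 : 1 ≤ n := ((le_max_right _ _).trans hN).trans hnN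
  have hnpos : 0 < n := by linarith
  set r : ℝ := n ^ (1 / (k : ℝ)) with hr
  have hrpos : 0 < r := by positivity
  have hrk : r ^ k = n := by
    rw [hr, ← Real.rpow_natCast, ← Real.rpow_mul hnpos.le, one_div_mul_cancel hkR.ne',
      Real.rpow_one]
  have hr2 : 2 ≤ η * r := by
    have h1 : (2 / η) ^ (k : ℝ) ≤ n := ((le_max_left _ _).trans hN).trans hnN
    have h2 : ((2 / η) ^ (k : ℝ)) ^ (1 / (k : ℝ)) ≤ r :=
      Real.rpow_le_rpow (by positivity) h1 hα.le
    rw [← Real.rpow_mul (by positivity), mul_one_div_cancel hkR.ne', Real.rpow_one] at h2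
    rw [div_le_iff₀ hη] at h2
    linarith
  have hlamD : η * r / (η⁻¹ * r) = η ^ 2 := by
    field_simp
  have key : ∀ x ∈ U, ∀ [DecidablePred (fun y => Reach G U (k + J) x y)],
      U.card < 2 * (U.filter (fun y => Reach G U (k + J) x y)).card := by
    classical
    intro x hx _
    have h1 := ball_growth G U (η * r) (η⁻¹ * r) (by positivity) (by positivity)
      (fun y hy => (q3 y hy).2) q4 x k J
    rcases h1 with h1 | h1
    · convert h1
    · exfalso
      have h2 := ball_start G hk hg' U ⌈η * r⌉₊ (by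
        intro y hy
        exact Nat.ceil_le.2 (q3 y hy).1) x hx
      rw [hlamD] at h1
      have h3 : (η / 2 * r) ^ k ≤
          (((⌈η * r⌉₊ - 1) ^ k : ℕ) : ℝ) := by
        push_cast
        apply pow_le_pow_left₀ (by positivity)
        have h4 : 1 ≤ ⌈η * r⌉₊ := by
          rw [Nat.one_le_ceil_iff]; linarith
        rw [Nat.cast_sub h4]
        have h5 := Nat.le_ceil (η * r)
        push_cast
        linarith
      have h4 : (((⌈η * r⌉₊ - 1) ^ k : ℕ) : ℝ) ≤
          ((U.filter (fun y => Reach G U k x y)).card : ℝ) := by exact_mod_cast h2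
      have h5 : ((U.filter (fun y => Reach G U (k + J) x y)).card : ℝ) ≤ n := by
        rw [hn]
        exact_mod_cast card_le_univ _
      have h6 : (1 + η ^ 2) ^ J * (η / 2 * r) ^ k ≤ n := by
        calc (1 + η ^ 2) ^ J * (η / 2 * r) ^ k
            ≤ (1 + η ^ 2) ^ J * ((U.filter (fun y => Reach G U k x y)).card : ℝ) :=
              mul_le_mul_of_nonneg_left (h3.trans h4) (by positivity)
          _ ≤ _ := h1
          _ ≤ n := by convert h5
      rw [mul_pow, hrk, ← mul_assoc] at h6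
      have h7 : 1 * n < (1 + η ^ 2) ^ J * (η / 2) ^ k * n := mul_lt_mul_of_pos_right hJ' hnpos
      linarith
  intro x hx y hy
  classical
  have k1 := key x hx
  have k2 := key y hy
  have : ((U.filter (fun z => Reach G U (k + J) x z)) ∩
      (U.filter (fun z => Reach G U (k + J) y z))).Nonempty := by
    rw [nonempty_iff_ne_empty]
    intro hemp
    have hdis := disjoint_iff_inter_eq_empty.2 hemp
    have h1 := card_union_of_disjoint hdis
    have h2 : ((U.filter (fun z => Reach G U (k + J) x z)) ∪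
      (U.filter (fun z => Reach G U (k + J) y z))).card ≤ U.card :=
      card_le_card (union_subset (filter_subset _ _) (filter_subset _ _))
    omega
  obtain ⟨z, hz⟩ := this
  rw [mem_inter, mem_filter, mem_filter] at hz
  obtain ⟨p, hp, hp'⟩ := hz.1.2.trans hz.2.2
  exact ⟨p, by omega, hp'⟩

/-- The expander form of the girth conjecture. -/
def ExpanderForm (k : ℕ) : Prop :=
  ∃ C : ℝ, ∀ d : ℕ, 1 ≤ d → ∃ (m : ℕ) (G : SimpleGraph (Fin m)), 0 < m ∧
    (m : ℝ) ≤ C * (d : ℝ) ^ k ∧ ((2 * k : ℕ) : ℕ∞) < G.egirth ∧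
    (∀ x, (d : ℝ) ≤ ((G.neighborSet x).ncard : ℝ) ∧ ((G.neighborSet x).ncard : ℝ) ≤ C * d) ∧
    (∀ S : Finset (Fin m), 2 * S.card ≤ m →
      (d : ℝ) * S.card ≤ ∑ x ∈ S, ((G.neighborSet x \ (S : Set (Fin m))).ncard : ℝ)) ∧
    ∀ x y, ∃ p : G.Walk x y, (p.length : ℝ) ≤ C

theorem lift_walk {V W : Type*} (G : SimpleGraph V) (φ : W → V) (hφ : Function.Injective φ) :
    ∀ (a b : V) (p : G.Walk a b), (∀ z ∈ p.support, z ∈ Set.range φ) → ∀ i j : W, φ i = a →
      φ j = b → ∃ q : (G.comap φ).Walk i j, q.length = p.length := by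
  intro a b p
  induction p with
  | nil =>
    intro _ i j hi hj
    have : i = j := hφ (hi.trans hj.symm)
    subst this
    exact ⟨SimpleGraph.Walk.nil, by simp⟩
  | @cons a c b h p ih =>
    intro hsup i j hi hj
    have hc : c ∈ Set.range φ := hsup c (by
      rw [SimpleGraph.Walk.support_cons]
      exact List.mem_cons_of_mem _ p.start_mem_support)
    obtain ⟨l, hl⟩ := hc
    obtain ⟨q, hq⟩ := ih (fun z hz => hsup z (by
      rw [SimpleGraph.Walk.support_cons]
      exact List.mem_cons_of_mem _ hz)) l j hl hj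
    have hadj : (G.comap φ).Adj i l := by
      rw [SimpleGraph.comap_adj, hi, hl]; exact h
    exact ⟨SimpleGraph.Walk.cons hadj q, by simp [hq]⟩

theorem expanderForm_of_girthConj {k : ℕ} (hk : 1 ≤ k) (h : Pool.TH815.GR.GirthConj k) :
    ExpanderForm k := by
  classical
  obtain ⟨c, hc, N, hN⟩ := h
  obtain ⟨η, hη, D, N', hmain⟩ := girth_decomp k hk c (1 / 2) hc (by norm_num)
  obtain ⟨t, ht⟩ := exists_nat_ge (max (1 / η) (N + N' + 1 : ℝ))
  have ht1 : 1 / η ≤ (t : ℝ) := (le_max_left _ _).trans ht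
  have ht2 : (N : ℝ) + N' + 1 ≤ t := (le_max_right _ _).trans ht
  have ht3 : N + N' + 1 ≤ t := by exact_mod_cast ht2
  have htpos : (0 : ℝ) < t := by
    have : (0 : ℝ) ≤ N := Nat.cast_nonneg _
    have : (0 : ℝ) ≤ N' := Nat.cast_nonneg _
    linarith
  refine ⟨max (max ((t : ℝ) ^ k) (η⁻¹ * t)) D, fun d hd => ?_⟩
  have hd1 : (1 : ℝ) ≤ d := by exact_mod_cast hd
  set n : ℕ := (t * d) ^ k with hn
  have hnN0 : N + N' ≤ n := by
    have h1 : N + N' ≤ t * d := by nlinarith
    exact h1.trans (Nat.le_self_pow (by omega) _)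
  obtain ⟨G, hG, hE⟩ := hN n (by omega)
  have hroot : (n : ℝ) ^ (1 / (k : ℝ)) = t * d := by
    rw [hn]
    push_cast
    rw [← Real.rpow_natCast, ← Real.rpow_mul (by positivity)]
    have : (k : ℝ) * (1 / (k : ℝ)) = 1 := by
      have : (k : ℝ) ≠ 0 := by positivity
      field_simp
    rw [this, Real.rpow_one]
  have hcard : ((Fintype.card (Fin n) : ℕ) : ℝ) = n := by rw [Fintype.card_fin]
  have hedge : (G.edgeFinset.card : ℝ) = (G.edgeSet.ncard : ℝ) := by
    rw [← SimpleGraph.coe_edgeFinset, Set.ncard_coe_finset]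
  obtain ⟨Ps, hP1, hP2, hP3⟩ := hmain (Fin n) G (by rw [Fintype.card_fin]; omega) hG
    (by rw [hcard, hedge]; exact hE)
  have hnpos : (0 : ℝ) < n := by
    have : 0 < n := by
      rw [hn]
      exact pow_pos (Nat.mul_pos (by omega) (by omega)) k
    exact_mod_cast this
  have hEpos : 0 < (G.edgeFinset.card : ℝ) := by
    rw [hedge]
    exact lt_of_lt_of_le (by positivity) hE
  have hPne : Ps.Nonempty := by
    rw [nonempty_iff_ne_empty]
    rintro rfl
    rw [sum_empty] at hP2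
    linarith
  obtain ⟨U, hU⟩ := hPne
  obtain ⟨q1, q2, q3, q4⟩ := hP3 U hU
  rw [hcard] at q1 q2 q3
  rw [hroot] at q2 q3
  have hUpos : 0 < U.card := by
    have : (0 : ℝ) < U.card := lt_of_lt_of_le (by positivity) q1
    exact_mod_cast this
  have hηt : 1 ≤ η * t := by
    rw [div_le_iff₀ hη] at ht1
    linarith
  set φ := U.orderEmbOfFin rfl with hφ
  have hφU : ∀ i, φ i ∈ U := fun i => U.orderEmbOfFin_mem rfl i
  have hrange : ∀ y ∈ U, ∃ j, φ j = y := by
    intro y hy
    have : y ∈ Set.range φ := by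
      rw [hφ, range_orderEmbOfFin]
      exact hy
    exact this
  have hnb : ∀ (i : Fin U.card) (S : Finset (Fin U.card)),
      ((G.comap φ).neighborSet i \ (S : Set (Fin U.card))).ncard =
        ((U \ S.image φ).filter fun y => G.Adj (φ i) y).card := by
    intro i S
    have e : φ '' ((G.comap φ).neighborSet i \ (S : Set (Fin U.card))) =
        (((U \ S.image φ).filter fun y => G.Adj (φ i) y : Finset _) : Set (Fin n)) := by
      ext y
      simp only [Set.mem_image, Set.mem_sdiff, SimpleGraph.mem_neighborSet, SimpleGraph.comap_adj,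
        coe_filter, mem_sdiff, mem_image, mem_coe, not_exists, not_and, Set.mem_ofPred_eq]
      constructor
      · rintro ⟨j, ⟨hj, hjS⟩, rfl⟩
        refine ⟨⟨hφU j, ?_⟩, hj⟩
        intro l hl hlj
        exact hjS (φ.injective hlj ▸ hl)
      · rintro ⟨⟨hy, hyS⟩, hadj⟩
        obtain ⟨j, rfl⟩ := hrange y hy
        exact ⟨j, ⟨hadj, fun hj => hyS j hj rfl⟩, rfl⟩
    rw [← Set.ncard_image_of_injective _ φ.injective, e, Set.ncard_coe_finset]
  have hnb0 : ∀ i : Fin U.card, ((G.comap φ).neighborSet i).ncard =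
      (U.filter fun y => G.Adj (φ i) y).card := by
    intro i
    have := hnb i ∅
    simpa using this
  refine ⟨U.card, G.comap φ, hUpos, ?_, ?_, fun i => ⟨?_, ?_⟩, ?_, ?_⟩
  · have h1 : U.card ≤ n := by
      have := card_le_univ U
      rwa [Fintype.card_fin] at this
    calc (U.card : ℝ) ≤ n := by exact_mod_cast h1
      _ = (t : ℝ) ^ k * (d : ℝ) ^ k := by rw [hn]; push_cast; rw [mul_pow]
      _ ≤ _ := mul_le_mul_of_nonneg_right ((le_max_left _ _).trans (le_max_left _ _))
        (by positivity)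
  · refine lt_of_lt_of_le hG ?_
    exact SimpleGraph.IsContained.egirth_le
      ⟨(SimpleGraph.Embedding.comap φ.toEmbedding G).toCopy⟩
  · rw [hnb0]
    refine le_trans ?_ (q2 _ (hφU i)).1
    nlinarith
  · rw [hnb0]
    calc ((U.filter fun y => G.Adj (φ i) y).card : ℝ) ≤ (G.degree (φ i) : ℝ) := by
          rw [← G.card_neighborFinset_eq_degree]
          apply Nat.cast_le.2
          apply card_le_card
          intro y hy
          rw [mem_filter] at hy
          simpa using hy.2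
      _ ≤ η⁻¹ * (t * d) := (q2 _ (hφU i)).2
      _ = η⁻¹ * t * d := by ring
      _ ≤ _ := mul_le_mul_of_nonneg_right ((le_max_right _ _).trans (le_max_left _ _))
        (by positivity)
  · intro S hS
    have hc : (S.image φ).card = S.card := card_image_of_injective _ φ.injective
    have h1 := q3 (S.image φ) (by
      intro y hy
      rw [mem_image] at hy
      obtain ⟨j, _, rfl⟩ := hy
      exact hφU j) (by rw [hc]; exact hS)
    rw [hc, sum_image (fun a _ b _ h => φ.injective h)] at h1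
    simp only [hnb]
    refine le_trans ?_ h1
    apply mul_le_mul_of_nonneg_right _ (Nat.cast_nonneg _)
    nlinarith
  · intro i j
    obtain ⟨p, hp, hp'⟩ := q4 (φ i) (hφU i) (φ j) (hφU j)
    obtain ⟨q, hq⟩ := lift_walk G φ φ.injective _ _ p (fun z hz => by
      obtain ⟨l, hl⟩ := hrange z (hp' z hz)
      exact ⟨l, hl⟩) i j rfl rfl
    refine ⟨q, ?_⟩
    rw [hq]
    refine le_trans ?_ (le_max_right _ _)
    exact_mod_cast hp

theorem girthConj_iff_expander {k : ℕ} (hk : 1 ≤ k) :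
    Pool.TH815.GR.GirthConj k ↔ ExpanderForm k := by
  refine ⟨expanderForm_of_girthConj hk, ?_⟩
  rintro ⟨C, hC⟩
  apply Pool.TH815.GR.girthConj_of_almostRegularForm hk
  refine ⟨C, fun d hd => ?_⟩
  obtain ⟨m, G, h1, h2, h3, h4, -, -⟩ := hC d hd
  exact ⟨m, G, h1, h2, h3, h4⟩

end Pool.Agent.Q115.GX
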