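import Pool.Agent.Q115.GV2

/-! The balanced expander form of the order of magnitude of `ex (n, F)`. -/

set_option autoImplicit false

open Finset

namespace Pool.Agent.Q115.GV

open Pool.Agent.Q115.GY Pool.Agent.Q115.GW

/-- embedding of `Fin m` in `Fin n` keeps a graph `F`-free if `F` has no isolated vertex -/
theorem free_map {W : Type} (F : SimpleGraph W) (hF : ∀ v, ∃ w, F.Adj v w) {V V' : Type}
    (φ : V ↪ V') (G : SimpleGraph V) (hG : F.Free G) : F.Free (G.map φ) := by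
  classical
  rintro ⟨f⟩
  apply hG
  have hran : ∀ v, ∃ a, φ a = f v := by
    intro v
    obtain ⟨w, hw⟩ := hF v
    have h := f.toHom.map_adj hw
    rw [SimpleGraph.map_adj] at h
    obtain ⟨a, b, _, ha, _⟩ := h
    exact ⟨a, ha⟩
  choose g hg using hran
  refine ⟨⟨⟨g, ?_⟩, ?_⟩⟩
  · intro a b hab
    have h := f.toHom.map_adj hab
    rw [SimpleGraph.map_adj] at h
    obtain ⟨a', b', hadj, ha, hb⟩ := h
    have e1 : a' = g a := φ.injective (by rw [hg]; exact ha)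
    have e2 : b' = g b := φ.injective (by rw [hg]; exact hb)
    rw [← e1, ← e2]
    exact hadj
  · intro a b hab
    apply f.injective
    show f a = f b
    rw [← hg a, ← hg b]
    exact congrArg φ hab

/-- the balanced expander form -/
def BalForm {W : Type} (F : SimpleGraph W) (α : ℝ) (q : ℕ) : Prop :=
  ∃ C : ℝ, ∀ d : ℕ, 1 ≤ d → ∃ (m : ℕ) (G : SimpleGraph (Fin m)), 0 < m ∧
    (m : ℝ) ≤ C * (d : ℝ) ^ (1 / α) ∧ F.Free G ∧
    (∀ x, (d : ℝ) ≤ ((G.neighborSet x).ncard : ℝ) ∧ ((G.neighborSet x).ncard : ℝ) ≤ C * d) ∧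
    (∀ S : Finset (Fin m), 2 * S.card ≤ m →
      (d : ℝ) * S.card ≤ ∑ x ∈ S, ((G.neighborSet x \ (S : Set (Fin m))).ncard : ℝ)) ∧
    (∀ (x y : Fin m) (l : ℕ), q ≤ l →
      ({p : G.Walk x y | p.length = l}.ncard : ℝ) * m ≤ (C * d) ^ l) ∧
    ∀ x y : Fin m, ∃ l : ℕ, q ≤ l ∧ (l : ℝ) ≤ C ∧
      (d : ℝ) ^ l ≤ C * (({p : G.Walk x y | p.length = l}.ncard : ℝ) * m)

/-- hereditary bound and trace bound for all `F`-free graphs -/
def Good {W : Type} (F : SimpleGraph W) (α M : ℝ) (q : ℕ) (Q : ℝ → ℝ) : Prop :=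
  (∀ (V : Type) [Fintype V] [DecidableEq V] (G : SimpleGraph V) [DecidableRel G.Adj], F.Free G →
    ∀ X : Finset V, ∑ x ∈ X, ((X.filter (fun y => G.Adj x y)).card : ℝ) ≤
      M * (X.card : ℝ) ^ (1 + α)) ∧
  (∀ (V : Type) [Fintype V] (H : SimpleGraph V), F.Free H → ∀ K : ℝ, 0 < K →
    (∀ x, ((H.neighborSet x).ncard : ℝ) ≤ K * (Fintype.card V : ℝ) ^ α) →
    ∑ x, (nw H (2 * q) x x : ℝ) ≤ Q K * ((Fintype.card V : ℝ) ^ α) ^ (2 * q))

/-- decomposition of near-extremal `F`-free graphs -/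
theorem decomp_free {W : Type} (F : SimpleGraph W) (α M : ℝ) (q : ℕ) (Q : ℝ → ℝ) (hα : 0 < α)
    (hM : 0 < M) (hq : 1 ≤ q) (hQ : ∀ K, 0 < K → 0 < Q K) (hgood : Good F α M q Q) (c ε : ℝ)
    (hc : 0 < c) (hε : 0 < ε) :
    ∃ (η : ℝ) (L : ℕ), 0 < η ∧ ∀ (V : Type) [Fintype V] [DecidableEq V] (G : SimpleGraph V)
      [DecidableRel G.Adj], F.Free G →
      c * (Fintype.card V : ℝ) ^ (1 + α) ≤ (G.edgeFinset.card : ℝ) →
      ∃ Ps : Finset (Finset V), (∀ U ∈ Ps, ∀ W ∈ Ps, U ≠ W → Disjoint U W) ∧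
        (1 - ε) * (2 * (G.edgeFinset.card : ℝ)) ≤
          (∑ U ∈ Ps, ∑ x ∈ U, ((U.filter (fun y => G.Adj x y)).card : ℝ)) ∧
        ∀ U ∈ Ps, η * (Fintype.card V : ℝ) ≤ (U.card : ℝ) ∧ 2 ≤ U.card ∧
          (∀ x ∈ U, (G.degree x : ℝ) ≤ η⁻¹ * (Fintype.card V : ℝ) ^ α) ∧
          Balanced (G.comap (Subtype.val : U → V)) (2 * q) ((Fintype.card V : ℝ) ^ α) η L := by
  obtain ⟨η, L, hη, h⟩ := decomp_bal α M (2 * c) ε q Q hα hM (by positivity) hε hq hQ
  refine ⟨η, L, hη, ?_⟩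
  intro V _ _ G _ hfree hsize
  have hdegeq : ∀ x, ((univ.filter (fun y => G.Adj x y)).card : ℝ) = (G.degree x : ℝ) := by
    intro x
    rw [← G.card_neighborFinset_eq_degree, G.neighborFinset_eq_filter]
  have hsumdeg : ∑ x, ((univ.filter (fun y => G.Adj x y)).card : ℝ) =
      2 * (G.edgeFinset.card : ℝ) := by
    have : 2 * (G.edgeFinset.card : ℝ) = ∑ v, (G.degree v : ℝ) := by
      rw [← Nat.cast_sum, G.sum_degrees_eq_twice_card_edges]
      push_cast
      rfl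
    rw [this]
    exact sum_congr rfl (fun x _ => hdegeq x)
  obtain ⟨Ps, hP1, hP2, hP3⟩ := h V G (hgood.1 V G hfree) (fun K hK H hH hHdeg => by
    refine hgood.2 V H ?_ K hK hHdeg
    intro hcon
    exact hfree (hcon.trans (SimpleGraph.IsContained.of_le hH))) (by rw [hsumdeg]; linarith)
  rw [hsumdeg] at hP2
  refine ⟨Ps, hP1, hP2, fun U hU => ?_⟩
  obtain ⟨p1, p2, p3, p4⟩ := hP3 U hU
  exact ⟨p1, p2, fun x hx => by rw [← hdegeq]; exact p3 x hx, p4⟩

theorem balForm_of_lower {W : Type} (F : SimpleGraph W) (α M : ℝ) (q : ℕ) (Q : ℝ → ℝ)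
    (hα : 0 < α) (hα1 : α ≤ 1)
    (hM : 0 < M) (hq : 1 ≤ q) (hQ : ∀ K, 0 < K → 0 < Q K) (hgood : Good F α M q Q)
    (h : ∃ c : ℝ, 0 < c ∧ ∀ᶠ n : ℕ in Filter.atTop,
      c * (n : ℝ) ^ (1 + α) ≤ (SimpleGraph.extremalNumber n F : ℝ)) : BalForm F α (2 * q) := by
  classical
  obtain ⟨c, hc, h⟩ := h
  obtain ⟨N, hN⟩ := Filter.eventually_atTop.1 h
  obtain ⟨η, L, hη, hmain⟩ := decomp_free F α M q Q hα hM hq hQ hgood (c / 2) (1 / 2)
    (by positivity) (by norm_num)
  obtain ⟨τ, hτ⟩ := exists_nat_ge (max (1 / η) (N + 1 : ℝ))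
  have hτ1 : 1 / η ≤ (τ : ℝ) := (le_max_left _ _).trans hτ
  have hτ2 : (N : ℝ) + 1 ≤ τ := (le_max_right _ _).trans hτ
  have hN0 : (0 : ℝ) ≤ N := Nat.cast_nonneg _
  have hτpos : (0 : ℝ) < τ := by linarith
  have hτge1 : (1 : ℝ) ≤ τ := by linarith
  have hητ : 1 ≤ η * τ := by
    rw [div_le_iff₀ hη] at hτ1
    linarith
  set C : ℝ := max (max (2 * (τ : ℝ) ^ (1 / α)) (2 * η⁻¹ * τ)) (max L (max η⁻¹ 1)) with hC
  have hC1 : 2 * (τ : ℝ) ^ (1 / α) ≤ C := (le_max_left _ _).trans (le_max_left _ _)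
  have hC2 : 2 * η⁻¹ * τ ≤ C := (le_max_right _ _).trans (le_max_left _ _)
  have hC3 : (L : ℝ) ≤ C := (le_max_left _ _).trans (le_max_right _ _)
  have hC4 : η⁻¹ ≤ C := (le_max_left _ _).trans ((le_max_right _ _).trans (le_max_right _ _))
  refine ⟨C, fun d hd => ?_⟩
  have hd1 : (1 : ℝ) ≤ d := by exact_mod_cast hd
  have hd0 : (0 : ℝ) < d := by linarith
  have hτd : (1 : ℝ) ≤ τ * d := by nlinarith
  set ρ : ℝ := (τ * d : ℝ) ^ (1 / α) with hρ
  have hρ1 : 1 ≤ ρ := Real.one_le_rpow hτd (by positivity)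
  have hρτ : (τ : ℝ) * d ≤ ρ := by
    calc (τ : ℝ) * d = (τ * d : ℝ) ^ (1 : ℝ) := (Real.rpow_one _).symm
      _ ≤ ρ := Real.rpow_le_rpow_of_exponent_le hτd (by
          rw [le_div_iff₀ hα]; linarith)
  set n : ℕ := ⌈ρ⌉₊ with hn
  have hρn : ρ ≤ n := Nat.le_ceil _
  have hn2 : (n : ℝ) ≤ 2 * ρ := by
    have := Nat.ceil_lt_add_one (by linarith : 0 ≤ ρ)
    linarith
  have hnpos : (0 : ℝ) < n := by linarith
  have hnN : N ≤ n := by
    have h1 : (N : ℝ) ≤ n := by nlinarith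
    exact_mod_cast h1
  have hρα : ρ ^ α = τ * d := by
    rw [hρ, ← Real.rpow_mul (by positivity), one_div_mul_cancel hα.ne', Real.rpow_one]
  have hnα1 : τ * d ≤ (n : ℝ) ^ α := by
    rw [← hρα]
    exact Real.rpow_le_rpow (by linarith) hρn hα.le
  have hnα2 : (n : ℝ) ^ α ≤ 2 * (τ * d) := by
    calc (n : ℝ) ^ α ≤ (2 * ρ) ^ α := Real.rpow_le_rpow hnpos.le hn2 hα.le
      _ = (2 : ℝ) ^ α * ρ ^ α := Real.mul_rpow (by norm_num) (by linarith)
      _ ≤ 2 * (τ * d) := by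
          rw [hρα]
          apply mul_le_mul_of_nonneg_right _ (by positivity)
          calc (2 : ℝ) ^ α ≤ (2 : ℝ) ^ (1 : ℝ) :=
                Real.rpow_le_rpow_of_exponent_le (by norm_num) hα1
            _ = 2 := Real.rpow_one _
  have hex : c / 2 * (n : ℝ) ^ (1 + α) < (SimpleGraph.extremalNumber (Fintype.card (Fin n)) F : ℝ) := by
    rw [Fintype.card_fin]
    have h1 := hN n hnN
    have h2 : 0 < c * (n : ℝ) ^ (1 + α) := by positivity
    linarith
  obtain ⟨G, hdec, hG, hE⟩ := (SimpleGraph.lt_extremalNumber_iff_of_nonneg F (by positivity)).1 hex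
  have hcard : ((Fintype.card (Fin n) : ℕ) : ℝ) = n := by rw [Fintype.card_fin]
  have hEcast : c / 2 * (n : ℝ) ^ (1 + α) ≤ (G.edgeFinset.card : ℝ) := hE.le
  obtain ⟨Ps, hP1, hP2, hP3⟩ := hmain (Fin n) G hG (by rw [hcard]; exact hEcast)
  have hEpos : 0 < (G.edgeFinset.card : ℝ) := lt_of_lt_of_le (by positivity) hEcast
  have hPne : Ps.Nonempty := by
    rw [nonempty_iff_ne_empty]
    rintro rfl
    rw [sum_empty] at hP2
    linarith
  obtain ⟨U, hU⟩ := hPne
  obtain ⟨q1, q2, q3, b1, b2, b3, b4⟩ := hP3 U hU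
  rw [hcard] at q1 q3 b1 b2 b3 b4
  -- transport to `Fin U.card`
  have e : Fin U.card ≃ U := (Fintype.equivFinOfCardEq (Fintype.card_coe U)).symm
  set G' : SimpleGraph (Fin U.card) := (G.comap (Subtype.val : U → Fin n)).comap e with hG'
  obtain ⟨iso, hiso⟩ : ∃ iso : G' ≃g G.comap (Subtype.val : U → Fin n), ∀ x, iso x = e x :=
    ⟨SimpleGraph.Iso.comap e _, fun x => rfl⟩
  have hcU : Fintype.card U = U.card := Fintype.card_coe U
  have hnbr : ∀ (x : Fin U.card) (S : Finset (Fin U.card)),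
      (G'.neighborSet x \ (S : Set (Fin U.card))).ncard =
      ((G.comap (Subtype.val : U → Fin n)).neighborSet (e x) \
        ((S.map e.toEmbedding : Finset U) : Set U)).ncard := by
    intro x S
    rw [← Set.ncard_image_of_injective _ e.injective]
    congr 1
    ext y
    simp only [Set.mem_image, Set.mem_sdiff, SimpleGraph.mem_neighborSet, SimpleGraph.comap_adj,
      mem_coe, mem_map, Equiv.coe_toEmbedding, not_exists, not_and]
    constructor
    · rintro ⟨z, ⟨hz1, hz2⟩, rfl⟩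
      refine ⟨hz1, fun w hw hwz => hz2 ?_⟩
      rwa [e.injective hwz] at hw
    · rintro ⟨hy1, hy2⟩
      refine ⟨e.symm y, ⟨?_, ?_⟩, e.apply_symm_apply y⟩
      · show G.Adj _ _
        rw [e.apply_symm_apply]
        exact hy1
      · intro hS
        exact hy2 _ hS (e.apply_symm_apply y)
  have hnbr0 : ∀ x : Fin U.card, (G'.neighborSet x).ncard =
      ((G.comap (Subtype.val : U → Fin n)).neighborSet (e x)).ncard := by
    intro x
    have := hnbr x ∅
    simpa using this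
  have hnw : ∀ (l : ℕ) (x y : Fin U.card), {p : G'.Walk x y | p.length = l}.ncard =
      nw (G.comap (Subtype.val : U → Fin n)) l (e x) (e y) := by
    intro l x y
    apply le_antisymm
    · have h1 := nw_mono G' (G.comap (Subtype.val : U → Fin n)) iso.toHom iso.injective l x y
      have h2 : ∀ z, iso.toHom z = e z := fun z => hiso z
      rw [h2, h2] at h1
      exact h1
    · have h1 := nw_mono (G.comap (Subtype.val : U → Fin n)) G' iso.symm.toHom iso.symm.injective l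
        (e x) (e y)
      have h2 : ∀ z, iso.symm.toHom (e z) = z := fun z => by
        rw [← hiso]; exact iso.symm_apply_apply z
      rw [h2, h2] at h1
      exact h1
  refine ⟨U.card, G', by omega, ?_, ?_, fun x => ⟨?_, ?_⟩, fun S hS => ?_, fun x y l hl => ?_,
    fun x y => ?_⟩
  · have h1 : U.card ≤ n := by
      have := card_le_univ U
      rwa [Fintype.card_fin] at this
    calc (U.card : ℝ) ≤ n := by exact_mod_cast h1
      _ ≤ 2 * ρ := hn2
      _ = 2 * (τ : ℝ) ^ (1 / α) * (d : ℝ) ^ (1 / α) := by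
          rw [hρ, Real.mul_rpow hτpos.le hd0.le]; ring
      _ ≤ _ := mul_le_mul_of_nonneg_right hC1 (by positivity)
  · intro hcon
    apply hG
    refine hcon.trans ((SimpleGraph.IsContained.trans ⟨iso.toCopy⟩) ?_)
    exact ⟨(SimpleGraph.Embedding.comap (Function.Embedding.subtype _) G).toCopy⟩
  · rw [hnbr0]
    refine le_trans ?_ (b1 (e x)).1
    calc (d : ℝ) ≤ η * τ * d := by nlinarith
      _ = η * (τ * d) := by ring
      _ ≤ _ := mul_le_mul_of_nonneg_left hnα1 hη.le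
  · rw [hnbr0]
    refine (b1 (e x)).2.trans ?_
    calc η⁻¹ * (n : ℝ) ^ α ≤ η⁻¹ * (2 * (τ * d)) :=
          mul_le_mul_of_nonneg_left hnα2 (by positivity)
      _ = 2 * η⁻¹ * τ * d := by ring
      _ ≤ _ := mul_le_mul_of_nonneg_right hC2 hd0.le
  · simp only [hnbr]
    have h1 := b2 (S.map e.toEmbedding) (by rw [card_map, hcU]; exact hS)
    rw [card_map, sum_map] at h1
    refine le_trans ?_ h1
    apply mul_le_mul_of_nonneg_right _ (Nat.cast_nonneg _)
    calc (d : ℝ) ≤ η * τ * d := by nlinarith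
      _ = η * (τ * d) := by ring
      _ ≤ _ := mul_le_mul_of_nonneg_left hnα1 hη.le
  · rw [hnw]
    have h1 := b3 (e x) (e y) l hl
    rw [hcU] at h1
    refine h1.trans ?_
    apply pow_le_pow_left₀ (by positivity)
    calc η⁻¹ * (n : ℝ) ^ α ≤ η⁻¹ * (2 * (τ * d)) :=
          mul_le_mul_of_nonneg_left hnα2 (by positivity)
      _ = 2 * η⁻¹ * τ * d := by ring
      _ ≤ _ := mul_le_mul_of_nonneg_right hC2 hd0.le
  · obtain ⟨l, hl1, hl2, hl3⟩ := b4 (e x) (e y)
    refine ⟨l, hl1, (by exact_mod_cast hl2 : (l : ℝ) ≤ L).trans hC3, ?_⟩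
    rw [hnw]
    rw [hcU] at hl3
    have h1 : (d : ℝ) ^ l ≤ ((n : ℝ) ^ α) ^ l := by
      apply pow_le_pow_left₀ hd0.le
      refine le_trans ?_ hnα1
      nlinarith
    have h2 : ((n : ℝ) ^ α) ^ l ≤ η⁻¹ *
        ((nw (G.comap (Subtype.val : U → Fin n)) l (e x) (e y) : ℝ) * U.card) := by
      rw [inv_mul_eq_div, le_div_iff₀ hη]
      linarith
    refine h1.trans (h2.trans ?_)
    exact mul_le_mul_of_nonneg_right hC4 (by positivity)

theorem lower_of_balForm {W : Type} (F : SimpleGraph W) (hF : ∀ v, ∃ w, F.Adj v w) (α M : ℝ)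
    (q : ℕ) (Q : ℝ → ℝ) (hα : 0 < α) (hM : 0 < M) (hgood : Good F α M q Q)
    (h : BalForm F α (2 * q)) : ∃ c : ℝ, 0 < c ∧ ∀ᶠ n : ℕ in Filter.atTop,
      c * (n : ℝ) ^ (1 + α) ≤ (SimpleGraph.extremalNumber n F : ℝ) := by
  classical
  obtain ⟨C, hC⟩ := h
  have hC0 : 0 < C := by
    obtain ⟨m, I, hm, hm2, -⟩ := hC 1 le_rfl
    have : (0 : ℝ) < m := by exact_mod_cast hm
    simp at hm2
    linarith
  refine ⟨(1 / M) ^ (1 / α) / 2 * ((1 / 2) ^ (1 + 1 / α) * (1 / C) ^ (1 + α)), by positivity, ?_⟩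
  filter_upwards [Filter.eventually_ge_atTop ⌈C⌉₊] with n hn
  have hnC : C ≤ n := (Nat.le_ceil _).trans (by exact_mod_cast hn)
  have hn0 : (0 : ℝ) < n := by linarith
  set ρ : ℝ := (n / C) ^ α with hρ
  have hbase : 1 ≤ n / C := by rw [le_div_iff₀ (by positivity)]; linarith
  have hρ1 : 1 ≤ ρ := Real.one_le_rpow hbase hα.le
  have hρk : ρ ^ (1 / α) = n / C := by
    rw [hρ, ← Real.rpow_mul (by positivity)]
    have : α * (1 / α) = 1 := by field_simp
    rw [this, Real.rpow_one]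
  set d : ℕ := ⌊ρ⌋₊ with hd
  have hd1 : 1 ≤ d := by
    rw [hd, Nat.le_floor_iff (by linarith)]
    exact_mod_cast hρ1
  have hdr : (d : ℝ) ≤ ρ := Nat.floor_le (by linarith)
  have hdr2 : 1 / 2 * ρ ≤ d := by
    have h1 : ρ < d + 1 := Nat.lt_floor_add_one ρ
    have h2 : (1 : ℝ) ≤ d := by exact_mod_cast hd1
    linarith
  have hdpos : (0 : ℝ) < d := by exact_mod_cast hd1
  obtain ⟨m, G, hm, hmC, hfree, hdeg, -, -, -⟩ := hC d hd1
  have hmpos : (0 : ℝ) < m := by exact_mod_cast hm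
  have hmn : (m : ℝ) ≤ n := by
    calc (m : ℝ) ≤ C * (d : ℝ) ^ (1 / α) := hmC
      _ ≤ C * ρ ^ (1 / α) := by
          apply mul_le_mul_of_nonneg_left _ hC0.le
          exact Real.rpow_le_rpow hdpos.le hdr (by positivity)
      _ = n := by rw [hρk]; field_simp
  have hmn' : m ≤ n := by exact_mod_cast hmn
  -- edges of `G`
  have hrow : ∀ x : Fin m, (d : ℝ) ≤ ((univ.filter (fun y => G.Adj x y)).card : ℝ) := by
    intro x
    refine (hdeg x).1.trans (le_of_eq ?_)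
    rw [← Set.ncard_coe_finset]
    congr 2
    ext y
    simp
  have hedges : (m : ℝ) * d ≤ 2 * (G.edgeFinset.card : ℝ) := by
    have h1 : 2 * (G.edgeFinset.card : ℝ) = ∑ v, (G.degree v : ℝ) := by
      rw [← Nat.cast_sum, G.sum_degrees_eq_twice_card_edges]
      push_cast
      rfl
    rw [h1]
    calc (m : ℝ) * d = ∑ b : Fin m, (d : ℝ) := by
          rw [sum_const, card_univ, Fintype.card_fin, nsmul_eq_mul]
      _ ≤ _ := by
          apply sum_le_sum
          intro x _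
          refine (hrow x).trans (le_of_eq ?_)
          rw [← G.card_neighborFinset_eq_degree, G.neighborFinset_eq_filter]
  have hext : (G.edgeFinset.card : ℝ) ≤ (SimpleGraph.extremalNumber n F : ℝ) := by
    have h1 := SimpleGraph.card_edgeFinset_le_extremalNumber
      (free_map F hF (Fin.castLEEmb hmn') G hfree)
    rw [Fintype.card_fin] at h1
    have h2 : (G.map (Fin.castLEEmb hmn')).edgeFinset.card = G.edgeFinset.card := by
      rw [← Set.ncard_coe_finset, ← Set.ncard_coe_finset, SimpleGraph.coe_edgeFinset,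
        SimpleGraph.coe_edgeFinset, SimpleGraph.edgeSet_map]
      exact Set.ncard_image_of_injective _ (Fin.castLEEmb hmn').sym2Map.injective
    rw [h2] at h1
    exact_mod_cast h1
  -- lower bound for `m`
  have hher := hgood.1 (Fin m) G hfree univ
  rw [card_univ, Fintype.card_fin] at hher
  have hmd : (m : ℝ) * d ≤ M * (m : ℝ) ^ (1 + α) := by
    refine le_trans ?_ hher
    calc (m : ℝ) * d = ∑ b : Fin m, (d : ℝ) := by
          rw [sum_const, card_univ, Fintype.card_fin, nsmul_eq_mul]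
      _ ≤ _ := sum_le_sum (fun x _ => hrow x)
  have hdm : (d : ℝ) / M ≤ (m : ℝ) ^ α := by
    rw [Real.rpow_add hmpos, Real.rpow_one] at hmd
    rw [div_le_iff₀ hM]
    have : (m : ℝ) * d ≤ m * ((m : ℝ) ^ α * M) := by linarith
    exact le_of_mul_le_mul_left this hmpos
  have hmlow : ((d : ℝ) / M) ^ (1 / α) ≤ m := by
    have := Real.rpow_le_rpow (by positivity) hdm (show (0 : ℝ) ≤ 1 / α by positivity)
    rwa [← Real.rpow_mul hmpos.le, mul_one_div_cancel hα.ne', Real.rpow_one] at this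
  refine le_trans ?_ hext
  have hfin : (1 / M) ^ (1 / α) * ((1 / 2) ^ (1 + 1 / α) * (1 / C) ^ (1 + α)) * (n : ℝ) ^ (1 + α) ≤
      m * d := by
    calc (1 / M) ^ (1 / α) * ((1 / 2) ^ (1 + 1 / α) * (1 / C) ^ (1 + α)) * (n : ℝ) ^ (1 + α)
        = (1 / M) ^ (1 / α) * ((1 / 2) ^ (1 + 1 / α) * (n / C) ^ (1 + α)) := by
          rw [div_eq_mul_one_div (n : ℝ) C, Real.mul_rpow hn0.le (by positivity)]
          ring
      _ = (1 / M) ^ (1 / α) * (1 / 2 * ρ) ^ (1 + 1 / α) := by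
          rw [Real.mul_rpow (by norm_num) (by linarith)]
          congr 2
          rw [hρ, ← Real.rpow_mul (by positivity)]
          congr 1
          field_simp
          ring
      _ ≤ (1 / M) ^ (1 / α) * (d : ℝ) ^ (1 + 1 / α) := by
          apply mul_le_mul_of_nonneg_left _ (by positivity)
          exact Real.rpow_le_rpow (by positivity) hdr2 (by positivity)
      _ = ((d : ℝ) / M) ^ (1 / α) * d := by
          rw [Real.rpow_add hdpos, Real.rpow_one, div_eq_mul_one_div (d : ℝ) M,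
            Real.mul_rpow hdpos.le (by positivity)]
          ring
      _ ≤ m * d := mul_le_mul_of_nonneg_right hmlow hdpos.le
  have e : (1 / M) ^ (1 / α) / 2 * ((1 / 2) ^ (1 + 1 / α) * (1 / C) ^ (1 + α)) * (n : ℝ) ^ (1 + α) =
      ((1 / M) ^ (1 / α) * ((1 / 2) ^ (1 + 1 / α) * (1 / C) ^ (1 + α)) * (n : ℝ) ^ (1 + α)) / 2 := by
    ring
  rw [e]
  linarith

end Pool.Agent.Q115.GV
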