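import Pool.Agent.Q115.GY1
import Pool.Agent.Q115.GY2

/-! Weak regularity partitions of graphs of large girth at the scale `n ^ (1 + 1 / k)`. -/

set_option autoImplicit false

open Finset

namespace Pool.Agent.Q115.GY

/-- indicator function -/
noncomputable def ind {V : Type*} [DecidableEq V] (S : Finset V) (x : V) : ℝ :=
  if x ∈ S then 1 else 0

section

variable {V : Type*} [Fintype V] [DecidableEq V]

omit [Fintype V] in
theorem ind_mem (S : Finset V) (x : V) : 0 ≤ ind S x ∧ ind S x ≤ 1 := by
  unfold ind; split_ifs <;> norm_num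

theorem avg_comp {ι κ : Type*} [DecidableEq ι] [DecidableEq κ] (χ : V → ι) (e : ι → κ)
    (he : Function.Injective e) (f : V → ℝ) (x : V) : avg (fun y => e (χ y)) f x = avg χ f x := by
  unfold avg
  simp only [he.eq_iff]

theorem avg_inj {ι : Type*} [DecidableEq ι] (χ : V → ι) (hχ : Function.Injective χ) (f : V → ℝ)
    (x : V) : avg χ f x = f x := by
  unfold avg
  have : univ.filter (fun y => χ y = χ x) = {x} := by
    ext y; simp [hχ.eq_iff]
  rw [this]
  simp

/-- the averaged form in terms of the classes -/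
theorem avg_form (G : SimpleGraph V) [DecidableRel G.Adj] {ι : Type*} [Fintype ι] [DecidableEq ι]
    (χ : V → ι) (S T : Finset V) :
    ∑ x, ∑ y, avg χ (ind S) x * G.adjMatrix ℝ x y * avg χ (ind T) y =
      ∑ a : ι, ∑ b : ι,
        ((G.interedges (univ.filter (fun x => χ x = a)) (univ.filter (fun x => χ x = b))).card : ℝ) *
          ((S.filter (fun x => χ x = a)).card : ℝ) * ((T.filter (fun x => χ x = b)).card : ℝ) /
          (((univ.filter (fun x => χ x = a)).card : ℝ) *
            ((univ.filter (fun x => χ x = b)).card : ℝ)) := by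
  have hav : ∀ (S : Finset V) (a : ι) (x : V), χ x = a → avg χ (ind S) x =
      ((S.filter (fun x => χ x = a)).card : ℝ) / ((univ.filter (fun x => χ x = a)).card : ℝ) := by
    intro S a x hx
    unfold avg
    rw [hx]
    congr 1
    unfold ind
    rw [sum_boole]
    congr 2
    ext y
    simp only [mem_filter, mem_univ, true_and]
    exact and_comm
  rw [← sum_fiberwise univ χ]
  apply sum_congr rfl
  intro a _
  have h1 : ∑ x ∈ univ.filter (fun x => χ x = a), ∑ y,
        avg χ (ind S) x * G.adjMatrix ℝ x y * avg χ (ind T) y =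
      ∑ b : ι, ∑ x ∈ univ.filter (fun x => χ x = a), ∑ y ∈ univ.filter (fun x => χ x = b),
        avg χ (ind S) x * G.adjMatrix ℝ x y * avg χ (ind T) y := by
    rw [sum_comm (s := (univ : Finset ι))]
    apply sum_congr rfl
    intro x _
    rw [sum_fiberwise univ χ]
  rw [h1]
  apply sum_congr rfl
  intro b _
  have h2 : ∀ x ∈ univ.filter (fun x => χ x = a), ∑ y ∈ univ.filter (fun x => χ x = b),
        avg χ (ind S) x * G.adjMatrix ℝ x y * avg χ (ind T) y =
      ∑ y ∈ univ.filter (fun x => χ x = b), G.adjMatrix ℝ x y *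
        (((S.filter (fun x => χ x = a)).card : ℝ) /
          ((univ.filter (fun x => χ x = a)).card : ℝ) *
          (((T.filter (fun x => χ x = b)).card : ℝ) /
          ((univ.filter (fun x => χ x = b)).card : ℝ))) := by
    intro x hx
    rw [mem_filter] at hx
    apply sum_congr rfl
    intro y hy
    rw [mem_filter] at hy
    rw [hav S a x hx.2, hav T b y hy.2]
    ring
  rw [sum_congr rfl h2]
  simp only [← sum_mul]
  have h3 : ∑ x ∈ univ.filter (fun x => χ x = a), ∑ y ∈ univ.filter (fun x => χ x = b),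
      G.adjMatrix ℝ x y =
      ((G.interedges (univ.filter (fun x => χ x = a)) (univ.filter (fun x => χ x = b))).card : ℝ) := by
    simp only [SimpleGraph.adjMatrix_apply]
    rw [← sum_product', sum_boole]
    rfl
  rw [h3, div_mul_div_comm]
  ring

theorem ind_form (G : SimpleGraph V) [DecidableRel G.Adj] (S T : Finset V) :
    ∑ x, ∑ y, ind S x * G.adjMatrix ℝ x y * ind T y = ((G.interedges S T).card : ℝ) := by
  unfold ind
  have h1 : ∀ x, ∑ y, (if x ∈ S then (1 : ℝ) else 0) * G.adjMatrix ℝ x y *
      (if y ∈ T then 1 else 0) = if x ∈ S then ∑ y ∈ T, G.adjMatrix ℝ x y else 0 := by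
    intro x
    by_cases h : x ∈ S
    · simp only [h, if_true, one_mul, mul_ite, mul_one, mul_zero]
      rw [sum_ite_mem, univ_inter]
    · simp [h]
  simp only [h1]
  rw [sum_ite_mem, univ_inter]
  simp only [SimpleGraph.adjMatrix_apply]
  rw [← sum_product', sum_boole]
  rfl

end

/-- number of large eigenvalues -/
theorem eig_count {V : Type*} [Fintype V] [DecidableEq V] (G : SimpleGraph V) [DecidableRel G.Adj]
    {k : ℕ} (hk : 1 ≤ k) (hg : ∀ (v : V) (p : G.Walk v v), p.IsCycle → 2 * k < p.length)
    (K : ℝ) (hK : 0 < K)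
    (hD : ∀ x, (G.degree x : ℝ) ≤ K * (Fintype.card V : ℝ) ^ (1 / (k : ℝ)))
    (hA : (G.adjMatrix ℝ).IsHermitian) (hV : 0 < Fintype.card V) :
    ∑ i, hA.eigenvalues i ^ (2 * k) ≤
      ((k : ℝ) + 1) ^ 2 * (4 * K) ^ k * ((Fintype.card V : ℝ) ^ (1 / (k : ℝ))) ^ (2 * k) := by
  set n : ℝ := (Fintype.card V : ℝ) with hn
  have hnpos : 0 < n := by rw [hn]; exact_mod_cast hV
  have hkR : (0 : ℝ) < k := by exact_mod_cast hk
  have hrk : (n ^ (1 / (k : ℝ))) ^ k = n := by
    rw [← Real.rpow_natCast, ← Real.rpow_mul hnpos.le, one_div_mul_cancel hkR.ne', Real.rpow_one]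
  rw [sum_eig hA k]
  refine (frob_pow G hg (K * n ^ (1 / (k : ℝ))) (by positivity) hD).trans ?_
  rw [← hn, ← mul_assoc 4 K, mul_pow (4 * K), hrk, mul_comm 2 k, pow_mul, hrk]
  apply le_of_eq
  ring

/-- **Weak regularity for graphs of large girth.** -/
theorem weak_regularity (k : ℕ) (hk : 1 ≤ k) (ε : ℝ) (hε : 0 < ε) :
    ∃ M : ℕ, ∀ (V : Type) [Fintype V] [DecidableEq V] (G : SimpleGraph V) [DecidableRel G.Adj],
      ((2 * k : ℕ) : ℕ∞) < G.egirth →
      ∃ χ : V → Fin M, ∀ S T : Finset V,
        |((G.interedges S T).card : ℝ) - ∑ a : Fin M, ∑ b : Fin M,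
          ((G.interedges (univ.filter (fun x => χ x = a))
            (univ.filter (fun x => χ x = b))).card : ℝ) *
          ((S.filter (fun x => χ x = a)).card : ℝ) * ((T.filter (fun x => χ x = b)).card : ℝ) /
          (((univ.filter (fun x => χ x = a)).card : ℝ) *
            ((univ.filter (fun x => χ x = b)).card : ℝ))| ≤
        ε * (Fintype.card V : ℝ) ^ (1 + 1 / (k : ℝ)) := by
  classical
  have hkR : (0 : ℝ) < k := by exact_mod_cast hk
  have hα : (0 : ℝ) < 1 / (k : ℝ) := by positivity
  set K : ℝ := 768 / ε with hK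
  have hKpos : 0 < K := by positivity
  obtain ⟨M1, hM1⟩ := cut_approx k hk (((k : ℝ) + 1) ^ 2 * (4 * K) ^ k) (ε / 3)
    (by positivity) (by positivity)
  obtain ⟨N, hN⟩ := exists_nat_ge (max ((96 / ε) ^ (k : ℝ)) 1)
  refine ⟨max M1 N, ?_⟩
  intro V _ _ G _ hg
  by_cases hsmall : Fintype.card V ≤ N
  · -- few vertices: singletons
    obtain ⟨e⟩ : Nonempty (V ↪ Fin (max M1 N)) := by
      rw [Function.Embedding.nonempty_iff_card_le, Fintype.card_fin]
      exact hsmall.trans (le_max_right _ _)
    refine ⟨e, fun S T => ?_⟩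
    rw [← avg_form G e S T, ← ind_form G S T]
    simp only [avg_inj e e.injective]
    rw [sub_self, abs_zero]
    positivity
  · push Not at hsmall
    have hg' := (Pool.TH815.GR.egirth_iff G _).1 hg
    set n : ℝ := (Fintype.card V : ℝ) with hn
    have hnN : (N : ℝ) ≤ n := by rw [hn]; exact_mod_cast hsmall.le
    have hn1 : 1 ≤ n := ((le_max_right _ _).trans hN).trans hnN
    have hnpos : 0 < n := by linarith
    set r : ℝ := n ^ (1 / (k : ℝ)) with hr
    have hrpos : 0 < r := by positivity
    have hr96 : 96 / ε ≤ r := by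
      have h1 : (96 / ε) ^ (k : ℝ) ≤ n := ((le_max_left _ _).trans hN).trans hnN
      have h2 : ((96 / ε) ^ (k : ℝ)) ^ (1 / (k : ℝ)) ≤ r :=
        Real.rpow_le_rpow (by positivity) h1 hα.le
      rwa [← Real.rpow_mul (by positivity), mul_one_div_cancel hkR.ne', Real.rpow_one] at h2
    have hnr : n ^ (1 + 1 / (k : ℝ)) = n * r := by
      rw [Real.rpow_add hnpos, Real.rpow_one]
    -- low-degree part
    set H : Finset V := univ.filter (fun x => K * n ^ (1 / (k : ℝ)) < (G.degree x : ℝ)) with hH
    let F : SimpleGraph V :=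
      { Adj := fun a b => G.Adj a b ∧ a ∉ H ∧ b ∉ H
        symm := ⟨fun a b h => ⟨h.1.symm, h.2.2, h.2.1⟩⟩
        loopless := ⟨fun a h => G.irrefl h.1⟩ }
    have hFG : F ≤ G := fun a b h => h.1
    have hFg : ∀ (v : V) (p : F.Walk v v), p.IsCycle → 2 * k < p.length := by
      intro v p hp
      have := hg' v (p.map (SimpleGraph.Hom.ofLE hFG))
        (SimpleGraph.Walk.IsCycle.map (fun a b h => h) hp)
      simpa using this
    have hFdeg : ∀ x, (F.degree x : ℝ) ≤ K * n ^ (1 / (k : ℝ)) := by
      intro x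
      by_cases hx : x ∈ H
      · have : F.degree x = 0 := by
          rw [← F.card_neighborFinset_eq_degree, card_eq_zero]
          ext y
          rw [SimpleGraph.mem_neighborFinset]
          simp only [notMem_empty, iff_false]
          exact fun h => h.2.1 hx
        rw [this, Nat.cast_zero]
        positivity
      · have h1 : ¬ K * n ^ (1 / (k : ℝ)) < (G.degree x : ℝ) := by
          intro h
          exact hx (by rw [hH, mem_filter]; exact ⟨mem_univ _, h⟩)
        push Not at h1
        refine le_trans ?_ h1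
        rw [← F.card_neighborFinset_eq_degree, ← G.card_neighborFinset_eq_degree]
        apply Nat.cast_le.2
        apply card_le_card
        intro y hy
        rw [SimpleGraph.mem_neighborFinset] at hy ⊢
        exact hy.1
    have hAF : (F.adjMatrix ℝ).IsHermitian := by
      ext i j
      simp [Matrix.conjTranspose_apply, SimpleGraph.adjMatrix_apply, F.adj_comm i j]
    have heig := eig_count F hk hFg K hKpos hFdeg hAF (by
      have : (0 : ℝ) < Fintype.card V := hnpos
      exact_mod_cast this)
    rw [← hn, ← hr] at heig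
    obtain ⟨χ, hχ⟩ := hM1 V (F.adjMatrix ℝ) hAF r hrpos heig
    -- mass outside `F`
    have htail := Pool.TH815.GR.tail G hk hg' K hKpos
    rw [← hn] at htail
    have hmass : ∑ x, ∑ y, (G.adjMatrix ℝ x y - F.adjMatrix ℝ x y) ≤ ε / 3 * r * n := by
      have hpt : ∀ x y, G.adjMatrix ℝ x y - F.adjMatrix ℝ x y ≤
          (if x ∈ H then G.adjMatrix ℝ x y else 0) + (if y ∈ H then G.adjMatrix ℝ x y else 0) := by
        intro x y
        simp only [SimpleGraph.adjMatrix_apply]
        by_cases h1 : G.Adj x y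
        · by_cases h2 : x ∈ H
          · have : ¬ F.Adj x y := fun h => h.2.1 h2
            simp only [h1, h2, this, if_true, if_false]
            split_ifs <;> norm_num
          · by_cases h3 : y ∈ H
            · have : ¬ F.Adj x y := fun h => h.2.2 h3
              simp [h1, h2, h3, this]
            · have : F.Adj x y := ⟨h1, h2, h3⟩
              simp [h1, h2, h3, this]
        · have : ¬ F.Adj x y := fun h => h1 h.1
          simp [h1, this]
      have hrowsum : ∀ x, ∑ y, G.adjMatrix ℝ x y = (G.degree x : ℝ) := by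
        intro x
        simp [SimpleGraph.adjMatrix_apply, ← G.card_neighborFinset_eq_degree,
          G.neighborFinset_eq_filter]
      have e1 : ∑ x, ∑ y, (if x ∈ H then G.adjMatrix ℝ x y else 0) = ∑ x ∈ H, (G.degree x : ℝ) := by
        have : ∀ x, ∑ y, (if x ∈ H then G.adjMatrix ℝ x y else 0) =
            if x ∈ H then (G.degree x : ℝ) else 0 := by
          intro x
          by_cases h : x ∈ H
          · simp only [h, if_true, hrowsum]
          · simp [h]
        simp only [this]
        rw [sum_ite_mem, univ_inter]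
      have e2 : ∑ x, ∑ y, (if y ∈ H then G.adjMatrix ℝ x y else 0) = ∑ x ∈ H, (G.degree x : ℝ) := by
        rw [sum_comm, ← e1]
        apply sum_congr rfl
        intro x _
        apply sum_congr rfl
        intro y _
        simp only [SimpleGraph.adjMatrix_apply, G.adj_comm x y]
      calc ∑ x, ∑ y, (G.adjMatrix ℝ x y - F.adjMatrix ℝ x y)
          ≤ ∑ x, ∑ y, ((if x ∈ H then G.adjMatrix ℝ x y else 0) +
            (if y ∈ H then G.adjMatrix ℝ x y else 0)) :=
            sum_le_sum (fun x _ => sum_le_sum (fun y _ => hpt x y))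
        _ = ∑ x ∈ H, (G.degree x : ℝ) + ∑ x ∈ H, (G.degree x : ℝ) := by
            simp only [sum_add_distrib]
            rw [e1, e2]
        _ ≤ 2 * (8 * n + 64 / K * n ^ (1 + 1 / (k : ℝ))) := by
            have := htail
            linarith
        _ ≤ ε / 3 * r * n := by
            rw [hnr, hK]
            have h96 : 96 ≤ ε * r := by
              rw [div_le_iff₀ hε] at hr96
              linarith
            have : 64 / (768 / ε) * (n * r) = ε / 12 * (n * r) := by
              field_simp; norm_num
            rw [this]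
            nlinarith
    have hnonneg : ∀ x y, 0 ≤ G.adjMatrix ℝ x y - F.adjMatrix ℝ x y := by
      intro x y
      simp only [SimpleGraph.adjMatrix_apply]
      by_cases h2 : F.Adj x y
      · simp [h2, hFG h2]
      · simp only [h2, if_false, sub_zero]
        split_ifs <;> norm_num
    have hform : ∀ f g : V → ℝ, (∀ x, 0 ≤ f x ∧ f x ≤ 1) → (∀ x, 0 ≤ g x ∧ g x ≤ 1) →
        ∑ x, ∑ y, f x * F.adjMatrix ℝ x y * g y ≤ ∑ x, ∑ y, f x * G.adjMatrix ℝ x y * g y ∧
        ∑ x, ∑ y, f x * G.adjMatrix ℝ x y * g y ≤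
          ∑ x, ∑ y, f x * F.adjMatrix ℝ x y * g y + ε / 3 * r * n := by
      intro f g hf hg
      have h1 : ∑ x, ∑ y, f x * G.adjMatrix ℝ x y * g y =
          ∑ x, ∑ y, f x * F.adjMatrix ℝ x y * g y +
          ∑ x, ∑ y, f x * (G.adjMatrix ℝ x y - F.adjMatrix ℝ x y) * g y := by
        rw [← sum_add_distrib]
        apply sum_congr rfl
        intro x _
        rw [← sum_add_distrib]
        apply sum_congr rfl
        intro y _
        ring
      have h2 : 0 ≤ ∑ x, ∑ y, f x * (G.adjMatrix ℝ x y - F.adjMatrix ℝ x y) * g y :=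
        sum_nonneg (fun x _ => sum_nonneg (fun y _ =>
          mul_nonneg (mul_nonneg (hf x).1 (hnonneg x y)) (hg y).1))
      have h3 : ∑ x, ∑ y, f x * (G.adjMatrix ℝ x y - F.adjMatrix ℝ x y) * g y ≤
          ε / 3 * r * n := by
        refine le_trans (sum_le_sum (fun x _ => sum_le_sum (fun y _ => ?_))) hmass
        calc f x * (G.adjMatrix ℝ x y - F.adjMatrix ℝ x y) * g y
            ≤ 1 * (G.adjMatrix ℝ x y - F.adjMatrix ℝ x y) * 1 := by
              apply mul_le_mul _ (hg y).2 (hg y).1
              · rw [one_mul]; exact hnonneg x y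
              · exact mul_le_mul_of_nonneg_right (hf x).2 (hnonneg x y)
          _ = _ := by ring
      constructor
      · linarith
      · linarith
    have hle : M1 ≤ max M1 N := le_max_left _ _
    refine ⟨fun x => Fin.castLE hle (χ x), fun S T => ?_⟩
    rw [← avg_form G (fun x => Fin.castLE hle (χ x)) S T, ← ind_form G S T]
    simp only [avg_comp χ (Fin.castLE hle) (Fin.castLE_injective hle)]
    have q1 := hχ (ind S) (ind T) (ind_mem S) (ind_mem T)
    have a1 : ∀ x, 0 ≤ avg χ (ind S) x ∧ avg χ (ind S) x ≤ 1 :=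
      avg_mem χ (ind S) (fun x => (ind_mem S x).1) (fun x => (ind_mem S x).2)
    have a2 : ∀ x, 0 ≤ avg χ (ind T) x ∧ avg χ (ind T) x ≤ 1 :=
      avg_mem χ (ind T) (fun x => (ind_mem T x).1) (fun x => (ind_mem T x).2)
    have q2 := hform (ind S) (ind T) (ind_mem S) (ind_mem T)
    have q3 := hform _ _ a1 a2
    rw [hnr]
    rw [← hn] at q1
    rw [abs_le] at q1 ⊢
    have e : ε * (n * r) = ε / 3 * r * n + ε / 3 * r * n + ε / 3 * r * n := by ring
    have e0 : 0 < ε / 3 * r * n := by positivity
    rw [e]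
    constructor
    · linarith [q1.1, q2.1, q2.2, q3.1, q3.2]
    · linarith [q1.2, q2.1, q2.2, q3.1, q3.2]

end Pool.Agent.Q115.GY
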