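import Pool.Agent.Q115.GV3
import Pool.Agent.Q115.GW5

/-! Graphs without a cycle of length `2 k`: hereditary bound and trace bound. -/

set_option autoImplicit false

open Finset

namespace Pool.Agent.Q115.GV

open Pool.Agent.Q115.GY Pool.Agent.Q115.GW

/-- number of edges of a graph without a cycle of length `2 k` -/
theorem bondy_simonovits (k : ℕ) (hk : 2 ≤ k) : ∃ M : ℝ, 0 < M ∧ ∀ (V : Type) [Fintype V]
    [DecidableEq V] (G : SimpleGraph V) [DecidableRel G.Adj],
    (SimpleGraph.cycleGraph (2 * k)).Free G →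
    ∑ x, (G.degree x : ℝ) ≤ M * (Fintype.card V : ℝ) ^ (1 + 1 / (k : ℝ)) := by
  obtain ⟨B, hB, htail⟩ := tail k hk
  refine ⟨B + 2, by positivity, ?_⟩
  intro V _ _ G _ hfree
  have hkpos : (0 : ℝ) < k := by
    have : 0 < k := by omega
    exact_mod_cast this
  rcases isEmpty_or_nonempty V with hemp | hne
  · simp only [univ_eq_empty, sum_empty]
    positivity
  have hmpos : (0 : ℝ) < (Fintype.card V : ℝ) := by exact_mod_cast Fintype.card_pos
  set m : ℝ := (Fintype.card V : ℝ) with hm
  set r : ℝ := m ^ (1 / (k : ℝ)) with hr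
  have hrpos : 0 < r := by positivity
  have hrk : r ^ k = m := root_pow m hmpos k (by omega)
  have hmr : m ^ (1 + 1 / (k : ℝ)) = m * r := by
    rw [Real.rpow_add hmpos, Real.rpow_one]
  have h1 := htail V G hfree r hrpos
  rw [← hm] at h1
  set T : ℝ := ∑ x ∈ univ.filter (fun x => r < (G.degree x : ℝ)), (G.degree x : ℝ) with hT
  have hT0 : 0 ≤ T := sum_nonneg (fun x _ => Nat.cast_nonneg _)
  have hTle : T ≤ (B + 1) * (m * r) := by
    have e1 : m ^ k = (m * r) ^ (k - 1) * r := by
      have : m ^ k = m ^ (k - 1) * m := by rw [← pow_succ]; congr 1; omega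
      rw [this, mul_pow]
      nth_rewrite 2 [← hrk]
      have : r ^ k = r ^ (k - 1) * r := by rw [← pow_succ]; congr 1; omega
      rw [this]; ring
    have h2 : T ^ (k - 1) ≤ ((B + 1) * (m * r)) ^ (k - 1) := by
      have h3 : T ^ (k - 1) * r ≤ ((B + 1) * (m * r)) ^ (k - 1) * r := by
        calc T ^ (k - 1) * r ≤ B * m ^ k := h1
          _ = B * (m * r) ^ (k - 1) * r := by rw [e1]; ring
          _ ≤ (B + 1) ^ (k - 1) * (m * r) ^ (k - 1) * r := by
              apply mul_le_mul_of_nonneg_right _ hrpos.le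
              apply mul_le_mul_of_nonneg_right _ (by positivity)
              calc B ≤ B + 1 := by linarith
                _ ≤ (B + 1) ^ (k - 1) := le_self_pow₀ (by linarith) (by omega)
          _ = _ := by rw [mul_pow (B + 1)]
      exact le_of_mul_le_mul_right h3 hrpos
    exact le_of_pow_le_pow_left₀ (by omega) (by positivity) h2
  calc ∑ x, (G.degree x : ℝ)
      ≤ ∑ x, (r + (if r < (G.degree x : ℝ) then (G.degree x : ℝ) else 0)) := by
        apply sum_le_sum
        intro x _
        split_ifs with h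
        · linarith
        · push Not at h; linarith
    _ = m * r + T := by
        rw [sum_add_distrib, sum_const, card_univ, nsmul_eq_mul, ← sum_filter, ← hm]
    _ ≤ m * r + (B + 1) * (m * r) := by linarith
    _ = _ := by rw [hmr]; ring

theorem good_even (k : ℕ) (hk : 2 ≤ k) : ∃ M : ℝ, 0 < M ∧
    Good (SimpleGraph.cycleGraph (2 * k)) (1 / (k : ℝ)) M k
      (fun K => (4 * (k : ℝ) ^ 2) ^ (k - 1) * K ^ k) := by
  classical
  obtain ⟨M, hM, hbs⟩ := bondy_simonovits k hk
  refine ⟨M, hM, ?_, ?_⟩
  · intro V _ _ G _ hfree X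
    have hF : (SimpleGraph.cycleGraph (2 * k)).Free (G.comap (Subtype.val : X → V)) := by
      intro hcon
      apply hfree
      refine hcon.trans ?_
      exact ⟨(SimpleGraph.Embedding.comap (Function.Embedding.subtype _) G).toCopy⟩
    have h1 := hbs X (G.comap (Subtype.val : X → V)) hF
    rw [Fintype.card_coe] at h1
    refine le_trans (le_of_eq ?_) h1
    rw [← sum_coe_sort X (fun x => ((X.filter (fun y => G.Adj x y)).card : ℝ))]
    apply sum_congr rfl
    intro x _
    rw [← SimpleGraph.card_neighborFinset_eq_degree]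
    congr 1
    have : X.filter (fun y => G.Adj x y) =
        ((G.comap (Subtype.val : X → V)).neighborFinset x).map (Function.Embedding.subtype _) := by
      ext y
      simp only [mem_filter, mem_map, SimpleGraph.mem_neighborFinset, SimpleGraph.comap_adj,
        Function.Embedding.coe_subtype, Subtype.exists, exists_and_right, exists_eq_right]
      constructor
      · rintro ⟨h1, h2⟩
        exact ⟨h1, h2⟩
      · rintro ⟨h1, h2⟩
        exact ⟨h1, h2⟩
    rw [this, card_map]
  · intro V _ H hfree K hK hdeg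
    rcases isEmpty_or_nonempty V with hemp | hne
    · simp only [univ_eq_empty, sum_empty]
      positivity
    have hmpos : (0 : ℝ) < (Fintype.card V : ℝ) := by exact_mod_cast Fintype.card_pos
    set m : ℝ := (Fintype.card V : ℝ) with hm
    set r : ℝ := m ^ (1 / (k : ℝ)) with hr
    have hrpos : 0 < r := by positivity
    have hrk : r ^ k = m := root_pow m hmpos k (by omega)
    have hdegeq : ∀ x, ((H.neighborSet x).ncard : ℝ) = (H.degree x : ℝ) := by
      intro x
      rw [← H.card_neighborFinset_eq_degree, ← Set.ncard_coe_finset,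
        SimpleGraph.coe_neighborFinset]
    have hA := adj_herm H
    have h1 := schatten_scale H k hk hfree K r hK hrpos hrk (fun x => by
      rw [← hdegeq]; exact hdeg x) hA
    rw [← trace_pow hA] at h1
    refine le_trans (le_of_eq ?_) h1
    unfold Matrix.trace
    apply sum_congr rfl
    intro x _
    rw [Matrix.diag_apply, nw_eq]

/-- **The balanced expander form of the even cycle problem.** -/
theorem even_iff (k : ℕ) (hk : 2 ≤ k) :
    (∃ c : ℝ, 0 < c ∧ ∀ᶠ n : ℕ in Filter.atTop, c * (n : ℝ) ^ (1 + 1 / (k : ℝ)) ≤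
      (SimpleGraph.extremalNumber n (SimpleGraph.cycleGraph (2 * k)) : ℝ)) ↔
    BalForm (SimpleGraph.cycleGraph (2 * k)) (1 / (k : ℝ)) (2 * k) := by
  have hk1 : (1 : ℝ) ≤ k := by
    have : 1 ≤ k := by omega
    exact_mod_cast this
  have hkpos : (0 : ℝ) < k := by linarith
  obtain ⟨M, hM, hgood⟩ := good_even k hk
  have hα : (0 : ℝ) < 1 / (k : ℝ) := by positivity
  have hα1 : 1 / (k : ℝ) ≤ 1 := by rw [div_le_one hkpos]; exact hk1
  have hQ : ∀ K : ℝ, 0 < K → 0 < (fun K : ℝ => (4 * (k : ℝ) ^ 2) ^ (k - 1) * K ^ k) K := by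
    intro K hK
    show 0 < (4 * (k : ℝ) ^ 2) ^ (k - 1) * K ^ k
    positivity
  constructor
  · intro h
    exact balForm_of_lower _ _ M k _ hα hα1 hM (by omega) hQ hgood h
  · intro h
    refine lower_of_balForm _ ?_ _ M k _ hα hM hgood h
    intro v
    obtain ⟨n, hn⟩ : ∃ n, 2 * k = n + 2 := ⟨2 * k - 2, by omega⟩
    revert v
    rw [hn]
    intro v
    refine ⟨v + 1, ?_⟩
    rw [SimpleGraph.cycleGraph_adj]
    right
    simp

end Pool.Agent.Q115.GV
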