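import Pool.Agent.Q115.GW2

/-! Regularity in the operator norm for graphs without a cycle of length `2 k`. -/

set_option autoImplicit false

open Finset

namespace Pool.Agent.Q115.GW

open Pool.Agent.Q115.GY

section

variable {V : Type*} [Fintype V] [DecidableEq V]

theorem rowsum (F : SimpleGraph V) [DecidableRel F.Adj] (x : V) :
    ∑ y, F.adjMatrix ℝ x y = (F.degree x : ℝ) := by
  simp [SimpleGraph.adjMatrix_apply, ← F.card_neighborFinset_eq_degree,
    F.neighborFinset_eq_filter]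

theorem half (F : SimpleGraph V) [DecidableRel F.Adj] (L : Finset V)
    (hL : ∀ x y, F.Adj x y → x ∈ L ∨ y ∈ L) :
    ∑ x, (F.degree x : ℝ) ≤ 2 * ∑ x ∈ L, (F.degree x : ℝ) := by
  have e1 : ∑ x, ∑ y, (if x ∈ L then F.adjMatrix ℝ x y else 0) = ∑ x ∈ L, (F.degree x : ℝ) := by
    have : ∀ x, ∑ y, (if x ∈ L then F.adjMatrix ℝ x y else 0) =
        if x ∈ L then (F.degree x : ℝ) else 0 := by
      intro x
      by_cases h : x ∈ L
      · simp only [h, if_true, rowsum]
      · simp [h]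
    simp only [this]
    rw [sum_ite_mem, univ_inter]
  have e2 : ∑ x, ∑ y, (if y ∈ L then F.adjMatrix ℝ x y else 0) = ∑ x ∈ L, (F.degree x : ℝ) := by
    rw [sum_comm, ← e1]
    apply sum_congr rfl
    intro x _
    apply sum_congr rfl
    intro y _
    simp only [SimpleGraph.adjMatrix_apply, F.adj_comm x y]
  calc ∑ x, (F.degree x : ℝ) = ∑ x, ∑ y, F.adjMatrix ℝ x y :=
        sum_congr rfl (fun x _ => (rowsum F x).symm)
    _ ≤ ∑ x, ∑ y, ((if x ∈ L then F.adjMatrix ℝ x y else 0) +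
          (if y ∈ L then F.adjMatrix ℝ x y else 0)) := by
        apply sum_le_sum; intro x _
        apply sum_le_sum; intro y _
        simp only [SimpleGraph.adjMatrix_apply]
        by_cases h : F.Adj x y
        · rcases hL x y h with h1 | h1
          · simp only [h, h1, if_true]
            split_ifs <;> norm_num
          · simp only [h, h1, if_true]
            split_ifs <;> norm_num
        · simp [h]
    _ = 2 * ∑ x ∈ L, (F.degree x : ℝ) := by
        simp only [sum_add_distrib]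
        rw [e1, e2]
        ring

/-- **Delocalization.** The mass of an eigenvector on a small set. -/
theorem deloc (G : SimpleGraph V) [DecidableRel G.Adj] (k : ℕ) (hk : 2 ≤ k)
    (hfree : (SimpleGraph.cycleGraph (2 * k)).Free G) (D : ℝ) (hD0 : 0 < D)
    (hD : ∀ x, (G.degree x : ℝ) ≤ D) (φ : V → ℝ) (μ : ℝ)
    (hφ : ∀ x, ∑ y, G.adjMatrix ℝ x y * φ y = μ * φ x) (hφ1 : ∑ x, φ x ^ 2 = 1) (S : Finset V) :
    μ ^ (2 * k) * (∑ x ∈ S, φ x ^ 2) ^ k ≤ (4 * (k : ℝ) ^ 2 * D) ^ (k - 1) * (2 * (S.card * D)) := by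
  classical
  let F : SimpleGraph V :=
    { Adj := fun a b => G.Adj a b ∧ (a ∈ S ∨ b ∈ S)
      symm := ⟨fun a b h => ⟨h.1.symm, h.2.symm⟩⟩
      loopless := ⟨fun a h => G.irrefl h.1⟩ }
  have hFG : F ≤ G := fun a b h => h.1
  have hFfree : (SimpleGraph.cycleGraph (2 * k)).Free F := by
    intro hcon
    exact hfree (hcon.trans (SimpleGraph.IsContained.of_le hFG))
  have hFdegG : ∀ x, (F.degree x : ℝ) ≤ (G.degree x : ℝ) := by
    intro x
    rw [← F.card_neighborFinset_eq_degree, ← G.card_neighborFinset_eq_degree]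
    apply Nat.cast_le.2
    apply card_le_card
    intro y hy
    rw [SimpleGraph.mem_neighborFinset] at hy ⊢
    exact hy.1
  have hFdeg : ∀ x, (F.degree x : ℝ) ≤ D := fun x => (hFdegG x).trans (hD x)
  have hA : (F.adjMatrix ℝ).IsHermitian := by
    ext i j
    simp [Matrix.conjTranspose_apply, SimpleGraph.adjMatrix_apply, F.adj_comm i j]
  set u : V → ℝ := fun x => if x ∈ S then φ x else 0 with hu
  set U : ℝ := ∑ x ∈ S, φ x ^ 2 with hU
  have hU0 : 0 ≤ U := sum_nonneg (fun x _ => sq_nonneg _)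
  have hu2 : ∑ x, u x ^ 2 = U := by
    have : ∀ x, u x ^ 2 = if x ∈ S then φ x ^ 2 else 0 := by
      intro x
      simp only [hu]
      split_ifs <;> simp
    rw [sum_congr rfl (fun x _ => this x), sum_ite_mem, univ_inter]
  have hform : ∑ x, ∑ y, u x * F.adjMatrix ℝ x y * φ y = μ * U := by
    have : ∀ x, ∑ y, u x * F.adjMatrix ℝ x y * φ y = if x ∈ S then μ * φ x ^ 2 else 0 := by
      intro x
      by_cases hx : x ∈ S
      · have e : ∀ y, u x * F.adjMatrix ℝ x y * φ y = φ x * (G.adjMatrix ℝ x y * φ y) := by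
          intro y
          simp only [hu, hx, if_true, SimpleGraph.adjMatrix_apply]
          by_cases h : G.Adj x y
          · have : F.Adj x y := ⟨h, Or.inl hx⟩
            simp [h, this]
          · have : ¬ F.Adj x y := fun h' => h h'.1
            simp [h, this]
        rw [sum_congr rfl (fun y _ => e y), ← mul_sum, hφ x, if_pos hx]
        ring
      · simp [hu, hx]
    rw [sum_congr rfl (fun x _ => this x), sum_ite_mem, univ_inter, ← mul_sum]
  have h1 := form_le hA k (by omega) u φ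
  rw [hform, hu2, hφ1, mul_one] at h1
  have h2 := schatten F k hk hFfree D hD0 hFdeg hA
  have h3 : ∑ x, (F.degree x : ℝ) ≤ 2 * (S.card * D) := by
    refine (half F S (fun x y h => h.2)).trans ?_
    apply mul_le_mul_of_nonneg_left _ (by norm_num)
    calc ∑ x ∈ S, (F.degree x : ℝ) ≤ ∑ x ∈ S, D := sum_le_sum (fun x _ => hFdeg x)
      _ = _ := by rw [sum_const, nsmul_eq_mul]
  have h4 : (μ * U) ^ (2 * k) ≤ (4 * (k : ℝ) ^ 2 * D) ^ (k - 1) * (2 * (S.card * D)) * U ^ k :=
    h1.trans (mul_le_mul_of_nonneg_right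
      (h2.trans (mul_le_mul_of_nonneg_left h3 (by positivity))) (by positivity))
  rcases hU0.eq_or_lt with h0 | hUpos
  · rw [← h0, zero_pow (by omega), mul_zero]
    positivity
  · have h5 : (μ * U) ^ (2 * k) = μ ^ (2 * k) * U ^ k * U ^ k := by
      rw [mul_pow, mul_assoc, ← pow_add]
      congr 2
      omega
    rw [h5] at h4
    exact le_of_mul_le_mul_right h4 (by positivity)

/-- classes on which given functions are almost constant -/
theorem rounding (sn : ℝ) (hsn : 0 < sn) (T R : ℕ) (hT : 0 < T) (I : Finset V) (hI : I.card ≤ R)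
    (v : V → V → ℝ) :
    ∃ χ : V → Fin ((2 * (T ^ 2 + 1) + 1) ^ R), ∀ i ∈ I, ∃ w : Fin ((2 * (T ^ 2 + 1) + 1) ^ R) → ℝ,
      ∀ x, (|sn * v i x| ≤ T → |v i x - w (χ x)| ≤ 1 / (T * sn)) ∧
        (¬ |sn * v i x| ≤ T → w (χ x) = 0) := by
  classical
  have hTpos : (0 : ℝ) < T := by exact_mod_cast hT
  have hT1 : (1 : ℝ) ≤ T := by exact_mod_cast hT
  set B : ℕ := 2 * (T ^ 2 + 1) + 1 with hB
  set q : V → V → ℤ := fun x i =>
    if |sn * v i x| ≤ T then ⌊(T : ℝ) * (sn * v i x)⌋ else (T : ℤ) ^ 2 + 1 with hq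
  set ψ : V → (V → ℤ) := fun x i => if i ∈ I then q x i else 0 with hψ
  have hqmem : ∀ x i, q x i ∈ Icc (-((T : ℤ) ^ 2 + 1)) ((T : ℤ) ^ 2 + 1) := by
    intro x i
    rw [mem_Icc]
    simp only [hq]
    by_cases h : |sn * v i x| ≤ T
    · rw [if_pos h]
      rw [abs_le] at h
      have h1 : (T : ℝ) * (sn * v i x) ≤ (T : ℝ) ^ 2 := by nlinarith
      have h2 : -(T : ℝ) ^ 2 ≤ (T : ℝ) * (sn * v i x) := by nlinarith
      constructor
      · rw [Int.le_floor]
        push_cast
        linarith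
      · have : ⌊(T : ℝ) * (sn * v i x)⌋ ≤ (T : ℤ) ^ 2 := by
          have := Int.floor_le ((T : ℝ) * (sn * v i x))
          have h3 : ((⌊(T : ℝ) * (sn * v i x)⌋ : ℤ) : ℝ) ≤ (((T : ℤ) ^ 2 : ℤ) : ℝ) := by
            push_cast
            linarith
          exact_mod_cast h3
        linarith
    · rw [if_neg h]
      constructor
      · have : (0 : ℤ) ≤ (T : ℤ) ^ 2 := by positivity
        linarith
      · exact le_rfl
  have himg : (univ.image ψ).card ≤ B ^ R := by
    have hsub : univ.image ψ ⊆ Fintype.piFinset (fun i : V =>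
        if i ∈ I then Icc (-((T : ℤ) ^ 2 + 1)) ((T : ℤ) ^ 2 + 1) else {0}) := by
      intro u hu
      rw [mem_image] at hu
      obtain ⟨x, _, rfl⟩ := hu
      rw [Fintype.mem_piFinset]
      intro i
      simp only [hψ]
      by_cases hi : i ∈ I
      · simp only [hi, if_true]
        exact hqmem x i
      · simp [hi]
    refine (card_le_card hsub).trans ?_
    rw [Fintype.card_piFinset]
    have : ∏ i : V, (if i ∈ I then Icc (-((T : ℤ) ^ 2 + 1)) ((T : ℤ) ^ 2 + 1) else {0}).card =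
        ∏ i : V, (if i ∈ I then B else 1) := by
      apply prod_congr rfl
      intro i _
      by_cases hi : i ∈ I
      · simp only [hi, if_true, Int.card_Icc, hB]
        have : ((T : ℤ) ^ 2 + 1 + 1 - -((T : ℤ) ^ 2 + 1)) = ((2 * (T ^ 2 + 1) + 1 : ℕ) : ℤ) := by
          push_cast; ring
        rw [this, Int.toNat_natCast]
      · simp [hi]
    rw [this, prod_ite_mem, univ_inter, prod_const]
    exact Nat.pow_le_pow_right (by omega) hI
  obtain ⟨e⟩ : Nonempty ((univ.image ψ) ↪ Fin (B ^ R)) := by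
    rw [Function.Embedding.nonempty_iff_card_le, Fintype.card_coe, Fintype.card_fin]
    exact himg
  set χ : V → Fin (B ^ R) := fun x => e ⟨ψ x, mem_image_of_mem ψ (mem_univ x)⟩ with hχ
  have hχψ : ∀ x y, χ x = χ y → ψ x = ψ y := by
    intro x y h
    have := e.injective h
    exact congrArg Subtype.val this
  refine ⟨χ, fun i hi => ?_⟩
  set w0 : V → ℝ := fun x => if |sn * v i x| ≤ T then
    (⌊(T : ℝ) * (sn * v i x)⌋ : ℝ) / (T * sn) else 0 with hw0
  have hw0q : ∀ x, w0 x = if q x i = (T : ℤ) ^ 2 + 1 then 0 else (q x i : ℝ) / (T * sn) := by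
    intro x
    simp only [hw0, hq]
    by_cases h : |sn * v i x| ≤ T
    · simp only [h, if_true]
      have h1 : (T : ℝ) * (sn * v i x) ≤ (T : ℝ) ^ 2 := by
        rw [abs_le] at h; nlinarith
      have h2 : ⌊(T : ℝ) * (sn * v i x)⌋ ≠ (T : ℤ) ^ 2 + 1 := by
        intro h3
        have := Int.floor_le ((T : ℝ) * (sn * v i x))
        rw [h3] at this
        push_cast at this
        linarith
      rw [if_neg h2]
    · simp only [h, if_false, if_true]
  have hconst : ∀ x y, χ x = χ y → w0 x = w0 y := by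
    intro x y h
    have h1 := congrFun (hχψ x y h) i
    simp only [hψ, hi, if_true] at h1
    rw [hw0q, hw0q, h1]
  obtain ⟨w, hw⟩ : ∃ w : Fin (B ^ R) → ℝ, ∀ x, w (χ x) = w0 x := by
    refine ⟨fun c => if h : ∃ x, χ x = c then w0 h.choose else 0, ?_⟩
    intro x
    have h : ∃ x', χ x' = χ x := ⟨x, rfl⟩
    simp only [h, dif_pos]
    exact hconst _ _ h.choose_spec
  refine ⟨w, fun x => ?_⟩
  rw [hw x]
  simp only [hw0]
  have hTsn : 0 < (T : ℝ) * sn := by positivity
  constructor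
  · intro h
    simp only [h, if_true]
    have h1 := Int.floor_le ((T : ℝ) * (sn * v i x))
    have h2 := Int.lt_floor_add_one ((T : ℝ) * (sn * v i x))
    have h3 : v i x - (⌊(T : ℝ) * (sn * v i x)⌋ : ℝ) / (T * sn) =
        ((T : ℝ) * (sn * v i x) - ⌊(T : ℝ) * (sn * v i x)⌋) / (T * sn) := by
      field_simp
    rw [h3, abs_div, abs_of_pos hTsn, abs_of_nonneg (by linarith)]
    exact div_le_div_of_nonneg_right (by linarith) hTsn.le
  · intro h
    simp only [h, if_false]

/-! ### The projection -/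

variable {ι : Type*} [DecidableEq ι]

/-- class averages as a function of the class -/
noncomputable def cav (χ : V → ι) (f : V → ℝ) (c : ι) : ℝ :=
  (∑ y ∈ univ.filter (fun y => χ y = c), f y) / ((univ.filter (fun y => χ y = c)).card : ℝ)

theorem avg_eq_cav (χ : V → ι) (f : V → ℝ) (x : V) : avg χ f x = cav χ f (χ x) := rfl

theorem pythagoras (χ : V → ι) (f : V → ℝ) :
    ∑ x, f x ^ 2 = ∑ x, (f x - avg χ f x) ^ 2 + ∑ x, avg χ f x ^ 2 := by
  have h := avg_orth χ f (cav χ f)
  have h2 : ∀ x, f x ^ 2 = (f x - avg χ f x) ^ 2 + avg χ f x ^ 2 +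
      2 * ((f x - avg χ f x) * cav χ f (χ x)) := by
    intro x
    rw [← avg_eq_cav]
    ring
  rw [sum_congr rfl (fun x _ => h2 x), sum_add_distrib, sum_add_distrib, ← mul_sum, h, mul_zero,
    add_zero]

theorem avg_norm_le (χ : V → ι) (f : V → ℝ) : ∑ x, avg χ f x ^ 2 ≤ ∑ x, f x ^ 2 := by
  rw [pythagoras χ f]
  have : 0 ≤ ∑ x, (f x - avg χ f x) ^ 2 := sum_nonneg (fun x _ => sq_nonneg _)
  linarith

theorem sub_avg_norm_le (χ : V → ι) (f : V → ℝ) :
    ∑ x, (f x - avg χ f x) ^ 2 ≤ ∑ x, f x ^ 2 := by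
  rw [pythagoras χ f]
  have : 0 ≤ ∑ x, avg χ f x ^ 2 := sum_nonneg (fun x _ => sq_nonneg _)
  linarith

end

/-- Cauchy–Schwarz with square roots -/
theorem cs {α : Type*} (s : Finset α) (a b : α → ℝ) :
    ∑ i ∈ s, |a i| * |b i| ≤ Real.sqrt (∑ i ∈ s, a i ^ 2) * Real.sqrt (∑ i ∈ s, b i ^ 2) := by
  rw [← Real.sqrt_mul (sum_nonneg (fun i _ => sq_nonneg _))]
  apply Real.le_sqrt_of_sq_le
  have := sum_mul_sq_le_sq_mul_sq s (fun i => |a i|) (fun i => |b i|)
  simpa only [sq_abs] using this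

/-- **Regularity in the operator norm.** -/
theorem op_approx (k : ℕ) (hk : 2 ≤ k) (K ε : ℝ) (hK : 0 < K) (hε : 0 < ε) :
    ∃ M : ℕ, ∀ (V : Type) [Fintype V] [DecidableEq V] (G : SimpleGraph V) [DecidableRel G.Adj],
      (SimpleGraph.cycleGraph (2 * k)).Free G →
      (∀ x, (G.degree x : ℝ) ≤ K * (Fintype.card V : ℝ) ^ (1 / (k : ℝ))) →
      ∃ χ : V → Fin M, ∀ f g : V → ℝ,
        |∑ x, ∑ y, f x * G.adjMatrix ℝ x y * g y -
          ∑ x, ∑ y, avg χ f x * G.adjMatrix ℝ x y * avg χ g y| ≤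
          ε * (Fintype.card V : ℝ) ^ (1 / (k : ℝ)) *
            (Real.sqrt (∑ x, f x ^ 2) * Real.sqrt (∑ x, g x ^ 2)) := by
  classical
  have hkR : (2 : ℝ) ≤ k := by exact_mod_cast hk
  have hkpos : (0 : ℝ) < k := by linarith
  -- parameters
  set Q : ℝ := (4 * (k : ℝ) ^ 2) ^ (k - 1) * K ^ k with hQ
  have hQpos : 0 < Q := by positivity
  set δ : ℝ := ε / 4 with hδ
  have hδpos : 0 < δ := by positivity
  obtain ⟨R, hR⟩ := exists_nat_ge (Q / δ ^ (2 * k))
  set c0 : ℝ := ε / (4 * ((R : ℝ) + 1) * (Q + 1)) with hc0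
  have hRnn : (0 : ℝ) ≤ R := Nat.cast_nonneg _
  have hc0pos : 0 < c0 := by positivity
  obtain ⟨T, hT⟩ := exists_nat_ge (max 1 (max (2 / c0) (2 * Q / (δ * (c0 / 2)) ^ (2 * k))))
  have hT1 : (1 : ℝ) ≤ T := (le_max_left _ _).trans hT
  have hT2 : 2 / c0 ≤ T := (le_max_left _ _).trans ((le_max_right _ _).trans hT)
  have hT3 : 2 * Q / (δ * (c0 / 2)) ^ (2 * k) ≤ T :=
    (le_max_right _ _).trans ((le_max_right _ _).trans hT)
  have hTpos : (0 : ℝ) < T := by linarith
  have hTnat : 0 < T := by exact_mod_cast hTpos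
  refine ⟨(2 * (T ^ 2 + 1) + 1) ^ R, ?_⟩
  intro V _ _ G _ hfree hdeg
  rcases isEmpty_or_nonempty V with hemp | hne
  · refine ⟨fun x => (hemp.false x).elim, fun f g => by simp⟩
  obtain ⟨n, hn⟩ : ∃ n : ℝ, n = (Fintype.card V : ℝ) := ⟨_, rfl⟩
  have hnpos : 0 < n := by rw [hn]; exact_mod_cast Fintype.card_pos
  rw [← hn] at hdeg ⊢
  set r : ℝ := n ^ (1 / (k : ℝ)) with hr
  have hrpos : 0 < r := by positivity
  have hrk : r ^ k = n := by
    rw [hr, ← Real.rpow_natCast, ← Real.rpow_mul hnpos.le, one_div_mul_cancel hkpos.ne',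
      Real.rpow_one]
  set sn : ℝ := Real.sqrt n with hsn
  have hsnpos : 0 < sn := Real.sqrt_pos.2 hnpos
  have hsn2 : sn * sn = n := Real.mul_self_sqrt hnpos.le
  have hA : (G.adjMatrix ℝ).IsHermitian := by
    ext i j
    simp [Matrix.conjTranspose_apply, SimpleGraph.adjMatrix_apply, G.adj_comm i j]
  set μ := hA.eigenvalues with hμ
  set v : V → V → ℝ := ev hA with hv
  have heven : ∀ i, 0 ≤ μ i ^ (2 * k) := fun i => by
    rw [pow_mul]; positivity
  have hDpos : 0 < K * r := by positivity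
  -- the Schatten norm
  have hsum : ∑ i, μ i ^ (2 * k) ≤ Q * r ^ (2 * k) := by
    refine (schatten G k hk hfree (K * r) hDpos hdeg hA).trans ?_
    have h1 : ∑ x, (G.degree x : ℝ) ≤ n * (K * r) := by
      calc ∑ x, (G.degree x : ℝ) ≤ ∑ x : V, K * r := sum_le_sum (fun x _ => hdeg x)
        _ = _ := by rw [sum_const, card_univ, nsmul_eq_mul, ← hn]
    refine (mul_le_mul_of_nonneg_left h1 (by positivity)).trans (le_of_eq ?_)
    have e1 : r ^ (2 * k) = r ^ (k - 1) * r * n := by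
      rw [← pow_succ, ← hrk, ← pow_add]; congr 1; omega
    have e2 : K ^ k = K ^ (k - 1) * K := by rw [← pow_succ]; congr 1; omega
    rw [hQ, e1, e2, mul_pow, mul_pow]
    ring
  -- large eigenvalues
  set I : Finset V := univ.filter (fun i => δ * r < |μ i|) with hI
  have hIcard : I.card ≤ R := by
    have h1 : (I.card : ℝ) * (δ * r) ^ (2 * k) ≤ Q * r ^ (2 * k) := by
      refine le_trans ?_ hsum
      calc (I.card : ℝ) * (δ * r) ^ (2 * k) = ∑ i ∈ I, (δ * r) ^ (2 * k) := by
            rw [sum_const, nsmul_eq_mul]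
        _ ≤ ∑ i ∈ I, μ i ^ (2 * k) := by
            apply sum_le_sum
            intro i hi
            rw [hI, mem_filter] at hi
            calc (δ * r) ^ (2 * k) ≤ |μ i| ^ (2 * k) :=
                  pow_le_pow_left₀ (by positivity) hi.2.le _
              _ = μ i ^ (2 * k) := by
                  rw [pow_mul, sq_abs, ← pow_mul]
        _ ≤ ∑ i, μ i ^ (2 * k) :=
            sum_le_sum_of_subset_of_nonneg (subset_univ _) (fun i _ _ => heven i)
    rw [mul_pow, ← mul_assoc] at h1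
    have h2 : (I.card : ℝ) * δ ^ (2 * k) ≤ Q := le_of_mul_le_mul_right h1 (by positivity)
    have h3 : (I.card : ℝ) ≤ Q / δ ^ (2 * k) := by
      rw [le_div_iff₀ (by positivity)]; exact h2
    exact_mod_cast h3.trans hR
  have hμbd : ∀ i, |μ i| ≤ (Q + 1) * r := by
    intro i
    by_contra hcon
    push Not at hcon
    have h1 : μ i ^ (2 * k) ≤ Q * r ^ (2 * k) :=
      (single_le_sum (fun i _ => heven i) (mem_univ i)).trans hsum
    have h2 : ((Q + 1) * r) ^ (2 * k) < |μ i| ^ (2 * k) :=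
      pow_lt_pow_left₀ hcon (by positivity) (by omega)
    have h3 : |μ i| ^ (2 * k) = μ i ^ (2 * k) := by rw [pow_mul, sq_abs, ← pow_mul]
    rw [h3, mul_pow] at h2
    have h4 : Q ≤ (Q + 1) ^ (2 * k) := by
      calc Q ≤ Q + 1 := by linarith
        _ ≤ (Q + 1) ^ (2 * k) := le_self_pow₀ (by linarith) (by omega)
    have h5 : Q * r ^ (2 * k) ≤ (Q + 1) ^ (2 * k) * r ^ (2 * k) :=
      mul_le_mul_of_nonneg_right h4 (by positivity)
    linarith
  obtain ⟨χ, hχ⟩ := rounding sn hsnpos T R hTnat I hIcard v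
  -- rounding in `L²`
  have hround : ∀ i ∈ I, ∃ w : Fin ((2 * (T ^ 2 + 1) + 1) ^ R) → ℝ,
      ∑ x, (v i x - w (χ x)) ^ 2 ≤ c0 ^ 2 := by
    intro i hi
    obtain ⟨w, hw⟩ := hχ i hi
    refine ⟨w, ?_⟩
    set S : Finset V := univ.filter (fun x => ¬ |sn * v i x| ≤ T) with hS
    have hScard : (S.card : ℝ) * T ^ 2 ≤ n := by
      have h1 : ∑ x ∈ S, (T : ℝ) ^ 2 ≤ ∑ x ∈ S, n * v i x ^ 2 := by
        apply sum_le_sum
        intro x hx
        rw [hS, mem_filter, not_le] at hx
        have h2 := pow_le_pow_left₀ hTpos.le hx.2.le 2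
        rw [sq_abs, mul_pow, sq sn, hsn2] at h2
        exact h2
      have h3 : ∑ x ∈ S, n * v i x ^ 2 ≤ ∑ x, n * v i x ^ 2 :=
        sum_le_sum_of_subset_of_nonneg (subset_univ _) (fun x _ _ => by positivity)
      rw [← mul_sum, ← mul_sum] at h3
      rw [sum_const, nsmul_eq_mul, ← mul_sum] at h1
      have h4 : ∑ x, v i x ^ 2 = 1 := ev_norm hA i
      rw [h4, mul_one] at h3
      exact h1.trans h3
    have hSmass : ∑ x ∈ S, v i x ^ 2 ≤ (c0 / 2) ^ 2 := by
      have h1 := deloc G k hk hfree (K * r) hDpos hdeg (v i) (μ i) (fun x => ev_mul hA i x)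
        (ev_norm hA i) S
      set U : ℝ := ∑ x ∈ S, v i x ^ 2 with hU
      have hU0 : 0 ≤ U := sum_nonneg (fun x _ => sq_nonneg _)
      have hμi : (δ * r) ^ (2 * k) ≤ μ i ^ (2 * k) := by
        rw [hI, mem_filter] at hi
        calc (δ * r) ^ (2 * k) ≤ |μ i| ^ (2 * k) :=
              pow_le_pow_left₀ (by positivity) hi.2.le _
          _ = μ i ^ (2 * k) := by rw [pow_mul, sq_abs, ← pow_mul]
      have h2 : (δ * r) ^ (2 * k) * U ^ k ≤ (4 * (k : ℝ) ^ 2 * (K * r)) ^ (k - 1) *
          (2 * ((S.card : ℝ) * (K * r))) :=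
        (mul_le_mul_of_nonneg_right hμi (by positivity)).trans h1
      have h3 : (4 * (k : ℝ) ^ 2 * (K * r)) ^ (k - 1) * (2 * ((S.card : ℝ) * (K * r))) * T ^ 2 ≤
          2 * Q * r ^ (2 * k) := by
        have e1 : r ^ (2 * k) = r ^ (k - 1) * r * n := by
          rw [← pow_succ, ← hrk, ← pow_add]; congr 1; omega
        have e2 : K ^ k = K ^ (k - 1) * K := by rw [← pow_succ]; congr 1; omega
        calc (4 * (k : ℝ) ^ 2 * (K * r)) ^ (k - 1) * (2 * ((S.card : ℝ) * (K * r))) * T ^ 2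
            = (4 * (k : ℝ) ^ 2 * (K * r)) ^ (k - 1) * (2 * (K * r)) * ((S.card : ℝ) * T ^ 2) := by
              ring
          _ ≤ (4 * (k : ℝ) ^ 2 * (K * r)) ^ (k - 1) * (2 * (K * r)) * n :=
              mul_le_mul_of_nonneg_left hScard (by positivity)
          _ = 2 * Q * r ^ (2 * k) := by
              rw [hQ, e1, e2, mul_pow, mul_pow K r]
              ring
      have h4 : (δ * r) ^ (2 * k) * U ^ k * T ^ 2 ≤ 2 * Q * r ^ (2 * k) :=
        (mul_le_mul_of_nonneg_right h2 (by positivity)).trans h3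
      have h5 : δ ^ (2 * k) * U ^ k * T ^ 2 ≤ 2 * Q := by
        have : δ ^ (2 * k) * U ^ k * T ^ 2 * r ^ (2 * k) ≤ 2 * Q * r ^ (2 * k) := by
          refine le_trans (le_of_eq ?_) h4
          rw [mul_pow]; ring
        exact le_of_mul_le_mul_right this (by positivity)
      rw [div_le_iff₀ (by positivity)] at hT3
      have h6 : δ ^ (2 * k) * U ^ k * T ^ 2 ≤ T ^ 2 * (δ * (c0 / 2)) ^ (2 * k) := by
        refine h5.trans (hT3.trans ?_)
        apply mul_le_mul_of_nonneg_right _ (by positivity)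
        nlinarith
      have h7 : U ^ k ≤ ((c0 / 2) ^ 2) ^ k := by
        rw [mul_pow δ] at h6
        have h8 : U ^ k * (δ ^ (2 * k) * T ^ 2) ≤ (c0 / 2) ^ (2 * k) * (δ ^ (2 * k) * T ^ 2) := by
          calc U ^ k * (δ ^ (2 * k) * T ^ 2) = δ ^ (2 * k) * U ^ k * T ^ 2 := by ring
            _ ≤ _ := h6
            _ = _ := by ring
        rw [← pow_mul]
        exact le_of_mul_le_mul_right h8 (by positivity)
      exact le_of_pow_le_pow_left₀ (by omega) (by positivity) h7
    -- pointwise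
    have hpt : ∀ x, (v i x - w (χ x)) ^ 2 ≤ (1 / (T * sn)) ^ 2 +
        (if x ∈ S then v i x ^ 2 else 0) := by
      intro x
      by_cases h : |sn * v i x| ≤ T
      · have h1 := (hw x).1 h
        have h2 : (v i x - w (χ x)) ^ 2 ≤ (1 / (T * sn)) ^ 2 := by
          rw [← sq_abs]
          exact pow_le_pow_left₀ (abs_nonneg _) h1 2
        have h3 : 0 ≤ (if x ∈ S then v i x ^ 2 else 0) := by
          split_ifs
          · positivity
          · exact le_rfl
        linarith
      · have h1 := (hw x).2 h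
        have hxS : x ∈ S := by rw [hS, mem_filter]; exact ⟨mem_univ _, h⟩
        rw [h1, sub_zero, if_pos hxS]
        have : 0 ≤ (1 / (T * sn)) ^ 2 := sq_nonneg _
        linarith
    calc ∑ x, (v i x - w (χ x)) ^ 2 ≤ ∑ x, ((1 / (T * sn)) ^ 2 +
          (if x ∈ S then v i x ^ 2 else 0)) := sum_le_sum (fun x _ => hpt x)
      _ = (1 / (T : ℝ)) ^ 2 + ∑ x ∈ S, v i x ^ 2 := by
          rw [sum_add_distrib, sum_const, card_univ, nsmul_eq_mul, sum_ite_mem, univ_inter, ← hn]
          congr 1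
          rw [← hsn2]
          field_simp
      _ ≤ (c0 / 2) ^ 2 + (c0 / 2) ^ 2 := by
          apply add_le_add _ hSmass
          apply pow_le_pow_left₀ (by positivity)
          rw [div_le_iff₀ hc0pos] at hT2
          rw [div_le_div_iff₀ hTpos (by norm_num)]
          linarith
      _ ≤ c0 ^ 2 := by nlinarith [sq_nonneg c0]
  refine ⟨χ, ?_⟩
  intro f g
  rw [form_eq hA f g, form_eq hA (avg χ f) (avg χ g), ← sum_sub_distrib]
  -- norms
  set nf : ℝ := Real.sqrt (∑ x, f x ^ 2) with hnf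
  set ng : ℝ := Real.sqrt (∑ x, g x ^ 2) with hng
  have hnf0 : 0 ≤ nf := Real.sqrt_nonneg _
  have hng0 : 0 ≤ ng := Real.sqrt_nonneg _
  have hcoefs : ∀ h : V → ℝ, ∑ i, (∑ x, h x * v i x) ^ 2 = ∑ x, h x ^ 2 := by
    intro h
    have := ev_parseval hA h h
    simp only [← sq] at this
    exact this.symm
  have hcoef1 : ∀ h : V → ℝ, ∀ i, |∑ x, h x * v i x| ≤ Real.sqrt (∑ x, h x ^ 2) := by
    intro h i
    apply Real.abs_le_sqrt
    rw [← hcoefs h]
    exact single_le_sum (fun i _ => sq_nonneg (∑ x, h x * v i x)) (mem_univ i)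
  have havg : ∀ h : V → ℝ, Real.sqrt (∑ x, avg χ h x ^ 2) ≤ Real.sqrt (∑ x, h x ^ 2) := fun h =>
    Real.sqrt_le_sqrt (avg_norm_le χ h)
  have hdiff : ∀ h : V → ℝ, ∀ i ∈ I,
      |∑ x, h x * v i x - ∑ x, avg χ h x * v i x| ≤ Real.sqrt (∑ x, h x ^ 2) * c0 := by
    intro h i hi
    obtain ⟨w, hw⟩ := hround i hi
    have h1 : ∑ x, h x * v i x - ∑ x, avg χ h x * v i x =
        ∑ x, (h x - avg χ h x) * (v i x - w (χ x)) := by
      have := avg_orth χ h w
      rw [← sum_sub_distrib]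
      calc ∑ x, (h x * v i x - avg χ h x * v i x)
          = ∑ x, ((h x - avg χ h x) * (v i x - w (χ x)) + (h x - avg χ h x) * w (χ x)) := by
            apply sum_congr rfl
            intro x _
            ring
        _ = _ := by rw [sum_add_distrib, this, add_zero]
    rw [h1]
    refine (abs_sum_le_sum_abs _ _).trans ?_
    simp only [abs_mul]
    refine (cs univ (fun x => h x - avg χ h x) (fun x => v i x - w (χ x))).trans ?_
    apply mul_le_mul
    · exact Real.sqrt_le_sqrt (sub_avg_norm_le χ h)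
    · calc Real.sqrt (∑ x, (v i x - w (χ x)) ^ 2) ≤ Real.sqrt (c0 ^ 2) := Real.sqrt_le_sqrt hw
        _ = c0 := Real.sqrt_sq hc0pos.le
    · exact Real.sqrt_nonneg _
    · exact Real.sqrt_nonneg _
  rw [← sum_filter_add_sum_filter_not univ (fun i => i ∈ I)]
  have hfI : univ.filter (fun i => i ∈ I) = I := by ext; simp
  rw [hfI]
  -- large part
  have hlarge : |∑ i ∈ I, (μ i * ((∑ x, f x * v i x) * ∑ x, g x * v i x) -
      μ i * ((∑ x, avg χ f x * v i x) * ∑ x, avg χ g x * v i x))| ≤ ε / 2 * r * (nf * ng) := by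
    refine (abs_sum_le_sum_abs _ _).trans ?_
    have h1 : ∀ i ∈ I, |μ i * ((∑ x, f x * v i x) * ∑ x, g x * v i x) -
      μ i * ((∑ x, avg χ f x * v i x) * ∑ x, avg χ g x * v i x)| ≤
        (Q + 1) * r * (2 * c0 * (nf * ng)) := by
      intro i hi
      rw [← mul_sub, abs_mul]
      apply mul_le_mul (hμbd i) _ (abs_nonneg _) (by positivity)
      set a := ∑ x, f x * v i x
      set b := ∑ x, g x * v i x
      set a' := ∑ x, avg χ f x * v i x
      set b' := ∑ x, avg χ g x * v i x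
      have h2 : a * b - a' * b' = (a - a') * b + a' * (b - b') := by ring
      rw [h2]
      calc |(a - a') * b + a' * (b - b')| ≤ |(a - a') * b| + |a' * (b - b')| := abs_add_le _ _
        _ = |a - a'| * |b| + |a'| * |b - b'| := by rw [abs_mul, abs_mul]
        _ ≤ (nf * c0) * ng + nf * (ng * c0) := by
            apply add_le_add
            · exact mul_le_mul (hdiff f i hi) (hcoef1 g i) (abs_nonneg _) (by positivity)
            · exact mul_le_mul ((hcoef1 (avg χ f) i).trans (havg f)) (hdiff g i hi)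
                (abs_nonneg _) hnf0
        _ = 2 * c0 * (nf * ng) := by ring
    refine (sum_le_sum h1).trans ?_
    rw [sum_const, nsmul_eq_mul]
    have hIR : (I.card : ℝ) ≤ R := by exact_mod_cast hIcard
    have hnn : 0 ≤ nf * ng := mul_nonneg hnf0 hng0
    calc (I.card : ℝ) * ((Q + 1) * r * (2 * c0 * (nf * ng)))
        ≤ ((R : ℝ) + 1) * ((Q + 1) * r * (2 * c0 * (nf * ng))) :=
          mul_le_mul_of_nonneg_right (by linarith) (by positivity)
      _ = ε / 2 * r * (nf * ng) := by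
          rw [hc0]
          field_simp
          ring
  -- small part
  have hsmall : ∀ f g : V → ℝ,
      |∑ i ∈ univ.filter (fun i => ¬ i ∈ I), μ i * ((∑ x, f x * v i x) * ∑ x, g x * v i x)| ≤
        δ * r * (Real.sqrt (∑ x, f x ^ 2) * Real.sqrt (∑ x, g x ^ 2)) := by
    intro f g
    refine (abs_sum_le_sum_abs _ _).trans ?_
    have h1 : ∀ i ∈ univ.filter (fun i => ¬ i ∈ I),
        |μ i * ((∑ x, f x * v i x) * ∑ x, g x * v i x)| ≤
        δ * r * (|∑ x, f x * v i x| * |∑ x, g x * v i x|) := by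
      intro i hi
      rw [mem_filter, hI, mem_filter] at hi
      have h2 : |μ i| ≤ δ * r := by
        by_contra hcon
        push Not at hcon
        exact hi.2 ⟨mem_univ _, hcon⟩
      rw [abs_mul, abs_mul]
      exact mul_le_mul_of_nonneg_right h2 (by positivity)
    refine (sum_le_sum h1).trans ?_
    rw [← mul_sum]
    apply mul_le_mul_of_nonneg_left _ (by positivity)
    calc ∑ i ∈ univ.filter (fun i => ¬ i ∈ I), |∑ x, f x * v i x| * |∑ x, g x * v i x|
        ≤ ∑ i, |∑ x, f x * v i x| * |∑ x, g x * v i x| :=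
          sum_le_sum_of_subset_of_nonneg (subset_univ _) (fun i _ _ => by positivity)
      _ ≤ Real.sqrt (∑ i, (∑ x, f x * v i x) ^ 2) * Real.sqrt (∑ i, (∑ x, g x * v i x) ^ 2) :=
          cs univ _ _
      _ = _ := by rw [hcoefs f, hcoefs g]
  have s1 := hsmall f g
  have s2 := hsmall (avg χ f) (avg χ g)
  have s3 : δ * r * (Real.sqrt (∑ x, avg χ f x ^ 2) * Real.sqrt (∑ x, avg χ g x ^ 2)) ≤
      δ * r * (nf * ng) := by
    apply mul_le_mul_of_nonneg_left _ (by positivity)
    exact mul_le_mul (havg f) (havg g) (Real.sqrt_nonneg _) hnf0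
  rw [sum_sub_distrib (s := univ.filter (fun i => ¬ i ∈ I))]
  have htri : ∀ a b c : ℝ, |a + (b - c)| ≤ |a| + |b| + |c| := by
    intro a b c
    calc |a + (b - c)| ≤ |a| + |b - c| := abs_add_le _ _
      _ ≤ |a| + (|b| + |c|) := by
          have := abs_sub b c
          linarith
      _ = _ := by ring
  refine (htri _ _ _).trans ?_
  have : ε * r * (nf * ng) = ε / 2 * r * (nf * ng) + δ * r * (nf * ng) + δ * r * (nf * ng) := by
    rw [hδ]; ring
  rw [this]
  exact add_le_add (add_le_add hlarge s1) (s2.trans s3)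

end Pool.Agent.Q115.GW
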