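import Pool.Agent.Q115.GW3

/-! Traces of powers and averages over the classes of a partition. -/

set_option autoImplicit false

open Finset

namespace Pool.Agent.Q115.GW

open Pool.Agent.Q115.GY

variable {V : Type*} [Fintype V] [DecidableEq V]

omit [DecidableEq V] in
/-- trace of a product and the operator norm -/
theorem trace_le (E X Y : Matrix V V ℝ) (η : ℝ) (hη : 0 ≤ η)
    (hE : ∀ f g : V → ℝ, |∑ x, ∑ y, f x * E x y * g y| ≤
      η * (Real.sqrt (∑ x, f x ^ 2) * Real.sqrt (∑ x, g x ^ 2))) :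
    |(E * X * Y).trace| ≤
      η * (Real.sqrt (∑ x, ∑ y, X x y ^ 2) * Real.sqrt (∑ x, ∑ y, Y x y ^ 2)) := by
  have h1 : (E * X * Y).trace = ∑ z, ∑ x, ∑ y, Y z x * E x y * X y z := by
    unfold Matrix.trace
    simp only [Matrix.diag_apply, Matrix.mul_apply, sum_mul]
    rw [sum_comm]
    apply sum_congr rfl; intro z _
    apply sum_congr rfl; intro x _
    apply sum_congr rfl; intro y _
    ring
  rw [h1]
  refine (abs_sum_le_sum_abs _ _).trans ?_
  calc ∑ z, |∑ x, ∑ y, Y z x * E x y * X y z|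
      ≤ ∑ z, η * (Real.sqrt (∑ x, Y z x ^ 2) * Real.sqrt (∑ y, X y z ^ 2)) :=
        sum_le_sum (fun z _ => hE (fun x => Y z x) (fun y => X y z))
    _ = η * ∑ z, |Real.sqrt (∑ x, Y z x ^ 2)| * |Real.sqrt (∑ y, X y z ^ 2)| := by
        rw [mul_sum]
        apply sum_congr rfl; intro z _
        rw [abs_of_nonneg (Real.sqrt_nonneg _), abs_of_nonneg (Real.sqrt_nonneg _)]
    _ ≤ η * (Real.sqrt (∑ z, (Real.sqrt (∑ x, Y z x ^ 2)) ^ 2) *
          Real.sqrt (∑ z, (Real.sqrt (∑ y, X y z ^ 2)) ^ 2)) :=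
        mul_le_mul_of_nonneg_left (cs univ _ _) hη
    _ = η * (Real.sqrt (∑ z, ∑ x, Y z x ^ 2) * Real.sqrt (∑ z, ∑ y, X y z ^ 2)) := by
        have e : ∀ z, (Real.sqrt (∑ x, Y z x ^ 2)) ^ 2 = ∑ x, Y z x ^ 2 := fun z =>
          Real.sq_sqrt (sum_nonneg (fun x _ => sq_nonneg _))
        have e' : ∀ z, (Real.sqrt (∑ y, X y z ^ 2)) ^ 2 = ∑ y, X y z ^ 2 := fun z =>
          Real.sq_sqrt (sum_nonneg (fun x _ => sq_nonneg _))
        simp only [e, e']
    _ = _ := by
        rw [sum_comm (f := fun z y => X y z ^ 2)]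
        ring

theorem ev_symm_pow {A : Matrix V V ℝ} (hA : A.IsHermitian) (q : ℕ) (x y : V) :
    (A ^ q) x y = (A ^ q) y x := by
  have h := hA.pow q
  have := h.apply y x
  simpa using this

/-- Frobenius norm of a product of powers of two symmetric matrices -/
theorem frob_mix {A B : Matrix V V ℝ} (hA : A.IsHermitian) (hB : B.IsHermitian) (p q : ℕ) :
    ∑ x, ∑ y, ((B ^ p * A ^ q) x y) ^ 2 ≤
      ∑ i, hA.eigenvalues i ^ (2 * (p + q)) + ∑ j, hB.eigenvalues j ^ (2 * (p + q)) := by
  set μ := hA.eigenvalues with hμ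
  set ν := hB.eigenvalues with hν
  set c : V → V → ℝ := fun i j => ∑ x, ev hA i x * ev hB j x with hc
  -- expansion in the eigenvectors of `A`
  have h1 : ∀ x, ∑ y, ((B ^ p * A ^ q) x y) ^ 2 =
      ∑ i, μ i ^ (2 * q) * (∑ z, (B ^ p) x z * ev hA i z) ^ 2 := by
    intro x
    have h := ev_parseval hA (fun y => (B ^ p * A ^ q) x y) (fun y => (B ^ p * A ^ q) x y)
    simp only [← sq] at h
    rw [h]
    apply sum_congr rfl
    intro i _
    have h2 : ∑ y, (B ^ p * A ^ q) x y * ev hA i y = μ i ^ q * ∑ z, (B ^ p) x z * ev hA i z := by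
      simp only [Matrix.mul_apply, sum_mul]
      rw [sum_comm, mul_sum]
      apply sum_congr rfl
      intro z _
      have := ev_pow hA i q z
      simp only [mul_assoc, ← mul_sum]
      rw [this]
      ring
    rw [h2, mul_pow, ← pow_mul, mul_comm q 2]
  -- expansion in the eigenvectors of `B`
  have h2 : ∀ i, ∑ x, (∑ z, (B ^ p) x z * ev hA i z) ^ 2 = ∑ j, ν j ^ (2 * p) * c i j ^ 2 := by
    intro i
    have h := ev_parseval hB (fun x => ∑ z, (B ^ p) x z * ev hA i z)
      (fun x => ∑ z, (B ^ p) x z * ev hA i z)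
    simp only [← sq] at h
    rw [h]
    apply sum_congr rfl
    intro j _
    have h3 : ∑ x, (∑ z, (B ^ p) x z * ev hA i z) * ev hB j x = ν j ^ p * c i j := by
      simp only [sum_mul]
      rw [sum_comm, hc]
      simp only
      rw [mul_sum]
      apply sum_congr rfl
      intro z _
      have := ev_pow hB j p z
      calc ∑ x, (B ^ p) x z * ev hA i z * ev hB j x
          = ev hA i z * ∑ x, (B ^ p) z x * ev hB j x := by
            rw [mul_sum]
            apply sum_congr rfl
            intro x _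
            rw [ev_symm_pow hB p x z]
            ring
        _ = _ := by rw [this]; ring
    rw [h3, mul_pow, ← pow_mul, mul_comm p 2]
  have hci : ∀ i, ∑ j, c i j ^ 2 = 1 := by
    intro i
    have h := ev_parseval hB (ev hA i) (ev hA i)
    simp only [← sq] at h
    rw [ev_norm hA i] at h
    exact h.symm
  have hcj : ∀ j, ∑ i, c i j ^ 2 = 1 := by
    intro j
    have h := ev_parseval hA (ev hB j) (ev hB j)
    simp only [← sq] at h
    rw [ev_norm hB j] at h
    rw [h]
    apply sum_congr rfl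
    intro i _
    simp only [hc]
    congr 1
    apply sum_congr rfl
    intro x _
    ring
  have hyoung : ∀ a b : ℝ, (a ^ 2) ^ q * (b ^ 2) ^ p ≤ (a ^ 2) ^ (p + q) + (b ^ 2) ^ (p + q) := by
    intro a b
    have ha : 0 ≤ a ^ 2 := sq_nonneg a
    have hb : 0 ≤ b ^ 2 := sq_nonneg b
    rcases le_total (a ^ 2) (b ^ 2) with h | h
    · calc (a ^ 2) ^ q * (b ^ 2) ^ p ≤ (b ^ 2) ^ q * (b ^ 2) ^ p :=
            mul_le_mul_of_nonneg_right (pow_le_pow_left₀ ha h q) (by positivity)
        _ = (b ^ 2) ^ (p + q) := by rw [← pow_add, add_comm]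
        _ ≤ _ := by
            have : 0 ≤ (a ^ 2) ^ (p + q) := by positivity
            linarith
    · calc (a ^ 2) ^ q * (b ^ 2) ^ p ≤ (a ^ 2) ^ q * (a ^ 2) ^ p :=
            mul_le_mul_of_nonneg_left (pow_le_pow_left₀ hb h p) (by positivity)
        _ = (a ^ 2) ^ (p + q) := by rw [← pow_add, add_comm]
        _ ≤ _ := by
            have : 0 ≤ (b ^ 2) ^ (p + q) := by positivity
            linarith
  calc ∑ x, ∑ y, ((B ^ p * A ^ q) x y) ^ 2
      = ∑ i, μ i ^ (2 * q) * ∑ x, (∑ z, (B ^ p) x z * ev hA i z) ^ 2 := by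
        rw [sum_congr rfl (fun x _ => h1 x), sum_comm]
        apply sum_congr rfl
        intro i _
        rw [mul_sum]
    _ = ∑ i, ∑ j, μ i ^ (2 * q) * ν j ^ (2 * p) * c i j ^ 2 := by
        apply sum_congr rfl
        intro i _
        rw [h2 i, mul_sum]
        apply sum_congr rfl
        intro j _
        ring
    _ ≤ ∑ i, ∑ j, (μ i ^ (2 * (p + q)) + ν j ^ (2 * (p + q))) * c i j ^ 2 := by
        apply sum_le_sum; intro i _
        apply sum_le_sum; intro j _
        apply mul_le_mul_of_nonneg_right _ (sq_nonneg _)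
        have := hyoung (μ i) (ν j)
        simp only [← pow_mul] at this
        exact this
    _ = _ := by
        simp only [add_mul, sum_add_distrib]
        congr 1
        · apply sum_congr rfl
          intro i _
          rw [← mul_sum, hci i, mul_one]
        · rw [sum_comm]
          apply sum_congr rfl
          intro j _
          rw [← mul_sum, hcj j, mul_one]

theorem trace_pow {A : Matrix V V ℝ} (hA : A.IsHermitian) (l : ℕ) :
    (A ^ l).trace = ∑ i, hA.eigenvalues i ^ l := by
  unfold Matrix.trace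
  simp only [Matrix.diag_apply]
  rw [sum_congr rfl (fun x _ => diag_pow hA l x), sum_comm]
  apply sum_congr rfl
  intro i _
  rw [← mul_sum, ev_norm hA i, mul_one]

/-- higher moments from the moment of order `2 k` -/
theorem high_moment {A : Matrix V V ℝ} (hA : A.IsHermitian) (k : ℕ) (hk : 1 ≤ k) (Q r : ℝ)
    (hQ : 0 < Q) (hr : 0 < r) (hS : ∑ i, hA.eigenvalues i ^ (2 * k) ≤ Q * r ^ (2 * k)) (m : ℕ)
    (hm : 2 * k ≤ m) : ∑ i, |hA.eigenvalues i| ^ m ≤ (Q + 1) ^ m * r ^ m := by
  set μ := hA.eigenvalues with hμ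
  have heven : ∀ i, |μ i| ^ (2 * k) = μ i ^ (2 * k) := fun i => by
    rw [pow_mul, sq_abs, ← pow_mul]
  have hnn : ∀ i, 0 ≤ μ i ^ (2 * k) := fun i => by rw [← heven]; positivity
  have hbd : ∀ i, |μ i| ≤ (Q + 1) * r := by
    intro i
    by_contra hcon
    push Not at hcon
    have h1 : μ i ^ (2 * k) ≤ Q * r ^ (2 * k) :=
      (single_le_sum (fun i _ => hnn i) (mem_univ i)).trans hS
    have h2 : ((Q + 1) * r) ^ (2 * k) < |μ i| ^ (2 * k) :=
      pow_lt_pow_left₀ hcon (by positivity) (by omega)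
    rw [heven, mul_pow] at h2
    have h4 : Q ≤ (Q + 1) ^ (2 * k) := by
      calc Q ≤ Q + 1 := by linarith
        _ ≤ (Q + 1) ^ (2 * k) := le_self_pow₀ (by linarith) (by omega)
    have h5 : Q * r ^ (2 * k) ≤ (Q + 1) ^ (2 * k) * r ^ (2 * k) :=
      mul_le_mul_of_nonneg_right h4 (by positivity)
    linarith
  obtain ⟨t, rfl⟩ : ∃ t, m = t + 2 * k := ⟨m - 2 * k, by omega⟩
  calc ∑ i, |μ i| ^ (t + 2 * k) = ∑ i, |μ i| ^ t * μ i ^ (2 * k) := by
        apply sum_congr rfl
        intro i _
        rw [pow_add, heven]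
    _ ≤ ∑ i, ((Q + 1) * r) ^ t * μ i ^ (2 * k) := by
        apply sum_le_sum
        intro i _
        exact mul_le_mul_of_nonneg_right (pow_le_pow_left₀ (abs_nonneg _) (hbd i) t) (hnn i)
    _ = ((Q + 1) * r) ^ t * ∑ i, μ i ^ (2 * k) := by rw [mul_sum]
    _ ≤ ((Q + 1) * r) ^ t * (Q * r ^ (2 * k)) := mul_le_mul_of_nonneg_left hS (by positivity)
    _ ≤ ((Q + 1) * r) ^ t * ((Q + 1) ^ (2 * k) * r ^ (2 * k)) := by
        apply mul_le_mul_of_nonneg_left _ (by positivity)
        apply mul_le_mul_of_nonneg_right _ (by positivity)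
        calc Q ≤ Q + 1 := by linarith
          _ ≤ (Q + 1) ^ (2 * k) := le_self_pow₀ (by linarith) (by omega)
    _ = _ := by rw [mul_pow, pow_add, pow_add]; ring

/-- **Traces of powers of two nearby matrices.** -/
theorem trace_diff {A B : Matrix V V ℝ} (hA : A.IsHermitian) (hB : B.IsHermitian) (k : ℕ)
    (hk : 1 ≤ k) (Q r : ℝ) (hQ : 0 < Q) (hr : 0 < r)
    (hSA : ∑ i, hA.eigenvalues i ^ (2 * k) ≤ Q * r ^ (2 * k))
    (hSB : ∑ i, hB.eigenvalues i ^ (2 * k) ≤ Q * r ^ (2 * k))
    (η : ℝ) (hη : 0 ≤ η)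
    (hE : ∀ f g : V → ℝ, |∑ x, ∑ y, f x * (A - B) x y * g y| ≤
      η * (Real.sqrt (∑ x, f x ^ 2) * Real.sqrt (∑ x, g x ^ 2)))
    (l : ℕ) (hl : 2 * k < l) :
    |(A ^ l).trace - (B ^ l).trace| ≤ η * (2 * l * (Q + 1) ^ (l - 1) * r ^ (l - 1)) := by
  -- Frobenius norms
  have hfrob : ∀ p q : ℕ, k ≤ p + q →
      Real.sqrt (∑ x, ∑ y, ((B ^ p * A ^ q) x y) ^ 2) ≤
        Real.sqrt 2 * ((Q + 1) ^ (p + q) * r ^ (p + q)) := by
    intro p q hpq
    have h1 := frob_mix hA hB p q
    have h2 := high_moment hA k hk Q r hQ hr hSA (2 * (p + q)) (by omega)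
    have h3 := high_moment hB k hk Q r hQ hr hSB (2 * (p + q)) (by omega)
    have e : ∀ a : ℝ, |a| ^ (2 * (p + q)) = a ^ (2 * (p + q)) := fun a => by
      rw [pow_mul, sq_abs, ← pow_mul]
    simp only [e] at h2 h3
    have h4 : ∑ x, ∑ y, ((B ^ p * A ^ q) x y) ^ 2 ≤ 2 * ((Q + 1) ^ (p + q) * r ^ (p + q)) ^ 2 := by
      have e2 : ((Q + 1) ^ (p + q) * r ^ (p + q)) ^ 2 =
          (Q + 1) ^ (2 * (p + q)) * r ^ (2 * (p + q)) := by
        rw [mul_pow, ← pow_mul, ← pow_mul, mul_comm (p + q) 2]
      rw [e2]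
      linarith
    calc Real.sqrt (∑ x, ∑ y, ((B ^ p * A ^ q) x y) ^ 2)
        ≤ Real.sqrt (2 * ((Q + 1) ^ (p + q) * r ^ (p + q)) ^ 2) := Real.sqrt_le_sqrt h4
      _ = _ := by
          rw [Real.sqrt_mul (by norm_num), Real.sqrt_sq (by positivity)]
  -- one term of the telescoping sum
  have hterm : ∀ j m : ℕ, j + m = l - 1 → |(A ^ j * (A - B) * B ^ m).trace| ≤
      η * (2 * ((Q + 1) ^ (l - 1) * r ^ (l - 1))) := by
    intro j m hjm
    have hs2 : Real.sqrt 2 * Real.sqrt 2 = 2 := Real.mul_self_sqrt (by norm_num)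
    have hcyc : (A ^ j * (A - B) * B ^ m).trace = ((A - B) * (B ^ m * A ^ j)).trace := by
      rw [mul_assoc, Matrix.trace_mul_comm, mul_assoc]
    by_cases hmk : k ≤ m
    · have e : (A - B) * (B ^ m * A ^ j) = (A - B) * (B ^ k * A ^ 0) * (B ^ (m - k) * A ^ j) := by
        rw [pow_zero, mul_one, mul_assoc, ← mul_assoc (B ^ k), ← pow_add,
          show k + (m - k) = m by omega]
      rw [hcyc, e]
      refine (trace_le (A - B) _ _ η hη hE).trans ?_
      apply mul_le_mul_of_nonneg_left _ hη
      calc _ ≤ (Real.sqrt 2 * ((Q + 1) ^ (k + 0) * r ^ (k + 0))) *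
            (Real.sqrt 2 * ((Q + 1) ^ (m - k + j) * r ^ (m - k + j))) :=
            mul_le_mul (hfrob k 0 (by omega)) (hfrob (m - k) j (by omega)) (Real.sqrt_nonneg _)
              (by positivity)
        _ = (Real.sqrt 2 * Real.sqrt 2) * (((Q + 1) ^ (k + 0) * (Q + 1) ^ (m - k + j)) *
              (r ^ (k + 0) * r ^ (m - k + j))) := by ring
        _ = _ := by
            rw [hs2, ← pow_add, ← pow_add, show k + 0 + (m - k + j) = l - 1 by omega]
    · have e : (A - B) * (B ^ m * A ^ j) =
          (A - B) * (B ^ m * A ^ (j - k)) * (B ^ 0 * A ^ k) := by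
        rw [pow_zero, one_mul, mul_assoc, mul_assoc (B ^ m), ← pow_add,
          show j - k + k = j by omega]
      rw [hcyc, e]
      refine (trace_le (A - B) _ _ η hη hE).trans ?_
      apply mul_le_mul_of_nonneg_left _ hη
      calc _ ≤ (Real.sqrt 2 * ((Q + 1) ^ (m + (j - k)) * r ^ (m + (j - k)))) *
            (Real.sqrt 2 * ((Q + 1) ^ (0 + k) * r ^ (0 + k))) :=
            mul_le_mul (hfrob m (j - k) (by omega)) (hfrob 0 k (by omega)) (Real.sqrt_nonneg _)
              (by positivity)
        _ = (Real.sqrt 2 * Real.sqrt 2) * (((Q + 1) ^ (m + (j - k)) * (Q + 1) ^ (0 + k)) *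
              (r ^ (m + (j - k)) * r ^ (0 + k))) := by ring
        _ = _ := by
            rw [hs2, ← pow_add, ← pow_add, show m + (j - k) + (0 + k) = l - 1 by omega]
  -- telescoping
  have htel : ∀ t : ℕ, t ≤ l → (A ^ l).trace - (A ^ (l - t) * B ^ t).trace =
      ∑ m ∈ range t, (A ^ (l - 1 - m) * (A - B) * B ^ m).trace := by
    intro t
    induction t with
    | zero => intro _; simp
    | succ t ih =>
      intro ht
      rw [sum_range_succ, ← ih (by omega)]
      have e1 : A ^ (l - t) = A ^ (l - 1 - t) * A := by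
        rw [← pow_succ]; congr 1; omega
      have e2 : l - (t + 1) = l - 1 - t := by omega
      have e3 : B ^ (t + 1) = B * B ^ t := pow_succ' B t
      rw [e1, e2, e3, mul_sub, sub_mul, Matrix.trace_sub, ← mul_assoc]
      ring
  have h1 := htel l le_rfl
  rw [Nat.sub_self, pow_zero, one_mul] at h1
  rw [h1]
  refine (abs_sum_le_sum_abs _ _).trans ?_
  calc ∑ m ∈ range l, |(A ^ (l - 1 - m) * (A - B) * B ^ m).trace|
      ≤ ∑ m ∈ range l, η * (2 * ((Q + 1) ^ (l - 1) * r ^ (l - 1))) := by
        apply sum_le_sum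
        intro m hm
        rw [mem_range] at hm
        exact hterm (l - 1 - m) m (by omega)
    _ = _ := by
        rw [sum_const, card_range, nsmul_eq_mul]
        ring

/-! ### The averaged matrix -/

variable {ι : Type*} [DecidableEq ι]

theorem avg_adj (χ : V → ι) (f h : V → ℝ) :
    ∑ x, f x * avg χ h x = ∑ x, avg χ f x * h x := by
  have h1 := avg_orth χ f (cav χ h)
  have h2 := avg_orth χ h (cav χ f)
  have e1 : ∑ x, f x * avg χ h x = ∑ x, avg χ f x * avg χ h x := by
    have : ∑ x, f x * avg χ h x - ∑ x, avg χ f x * avg χ h x =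
        ∑ x, (f x - avg χ f x) * cav χ h (χ x) := by
      rw [← sum_sub_distrib]
      apply sum_congr rfl
      intro x _
      rw [← avg_eq_cav]
      ring
    rw [h1] at this
    linarith
  have e2 : ∑ x, avg χ f x * h x = ∑ x, avg χ f x * avg χ h x := by
    have : ∑ x, avg χ f x * h x - ∑ x, avg χ f x * avg χ h x =
        ∑ x, (h x - avg χ h x) * cav χ f (χ x) := by
      rw [← sum_sub_distrib]
      apply sum_congr rfl
      intro x _
      rw [← avg_eq_cav]
      ring
    rw [h2] at this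
    linarith
  rw [e1, e2]

/-- the matrix of averages over pairs of classes -/
noncomputable def bl (χ : V → ι) (A : Matrix V V ℝ) : Matrix V V ℝ :=
  Matrix.of fun x y => avg χ (fun z => avg χ (fun w => A z w) y) x

theorem bl_form (χ : V → ι) (A : Matrix V V ℝ) (f g : V → ℝ) :
    ∑ x, ∑ y, f x * bl χ A x y * g y = ∑ x, ∑ y, avg χ f x * A x y * avg χ g y := by
  unfold bl
  simp only [Matrix.of_apply]
  have h1 : ∑ x, ∑ y, f x * avg χ (fun z => avg χ (fun w => A z w) y) x * g y =
      ∑ y, g y * ∑ x, f x * avg χ (fun z => avg χ (fun w => A z w) y) x := by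
    rw [sum_comm]
    apply sum_congr rfl
    intro y _
    rw [mul_sum]
    apply sum_congr rfl
    intro x _
    ring
  rw [h1]
  simp only [avg_adj χ f]
  have h2 : ∑ y, g y * ∑ x, avg χ f x * avg χ (fun w => A x w) y =
      ∑ x, avg χ f x * ∑ y, g y * avg χ (fun w => A x w) y := by
    simp only [mul_sum]
    rw [sum_comm]
    apply sum_congr rfl
    intro x _
    apply sum_congr rfl
    intro y _
    ring
  rw [h2]
  simp only [avg_adj χ g, mul_sum]
  apply sum_congr rfl
  intro x _
  apply sum_congr rfl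
  intro y _
  ring

omit [DecidableEq V] in
theorem bl_apply (χ : V → ι) (A : Matrix V V ℝ) (x y : V) :
    bl χ A x y = (∑ z ∈ univ.filter (fun z => χ z = χ x), ∑ w ∈ univ.filter (fun w => χ w = χ y),
      A z w) / (((univ.filter (fun z => χ z = χ x)).card : ℝ) *
        ((univ.filter (fun z => χ z = χ y)).card : ℝ)) := by
  unfold bl avg
  simp only [Matrix.of_apply]
  rw [← sum_div, div_div, mul_comm ((univ.filter (fun z => χ z = χ y)).card : ℝ)]

theorem bl_herm (χ : V → ι) {A : Matrix V V ℝ} (hA : A.IsHermitian) : (bl χ A).IsHermitian := by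
  ext x y
  rw [Matrix.conjTranspose_apply, star_trivial, bl_apply, bl_apply]
  congr 1
  · refine sum_comm.trans ?_
    apply sum_congr rfl
    intro z _
    apply sum_congr rfl
    intro w _
    have := hA.apply z w
    simpa using this
  · ring

/-- averaging does not increase the Schatten norm -/
theorem bl_schatten (χ : V → ι) {A : Matrix V V ℝ} (hA : A.IsHermitian)
    (hB : (bl χ A).IsHermitian) (k : ℕ) :
    ∑ j, hB.eigenvalues j ^ (2 * k) ≤ ∑ i, hA.eigenvalues i ^ (2 * k) := by
  set μ := hA.eigenvalues with hμ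
  set ν := hB.eigenvalues with hν
  set c : V → V → ℝ := fun i j => ∑ x, ev hB j x * ev hA i x with hc
  have hcj : ∀ j, ∑ i, c i j ^ 2 = 1 := by
    intro j
    have h := ev_parseval hA (ev hB j) (ev hB j)
    simp only [← sq] at h
    rw [ev_norm hB j] at h
    exact h.symm
  have hci : ∀ i, ∑ j, c i j ^ 2 = 1 := by
    intro i
    have h := ev_parseval hB (ev hA i) (ev hA i)
    simp only [← sq] at h
    rw [ev_norm hA i] at h
    rw [h]
    apply sum_congr rfl
    intro j _
    simp only [hc]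
    congr 1
    apply sum_congr rfl
    intro x _
    ring
  have hjen : ∀ j, ν j ^ (2 * k) ≤ ∑ i, c i j ^ 2 * μ i ^ (2 * k) := by
    intro j
    by_cases h0 : ν j = 0
    · rcases Nat.eq_zero_or_pos k with hk | hk
      · subst hk
        simp [hcj j]
      · rw [h0, zero_pow (by omega)]
        apply sum_nonneg
        intro i _
        have : 0 ≤ μ i ^ (2 * k) := by rw [pow_mul]; positivity
        positivity
    · -- the eigenvector is constant on classes
      have hconst : ∀ x y, χ x = χ y → ev hB j x = ev hB j y := by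
        intro x y hxy
        have h1 := ev_mul hB j x
        have h2 := ev_mul hB j y
        have h3 : ∀ z, bl χ A x z = bl χ A y z := by
          intro z
          rw [bl_apply, bl_apply, hxy]
        simp only [h3] at h1
        rw [h1] at h2
        exact mul_left_cancel₀ h0 h2
      have havg : avg χ (ev hB j) = ev hB j := by
        funext x
        unfold avg
        have : ∑ y ∈ univ.filter (fun y => χ y = χ x), ev hB j y =
            ((univ.filter (fun y => χ y = χ x)).card : ℝ) * ev hB j x := by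
          rw [← nsmul_eq_mul, ← sum_const]
          apply sum_congr rfl
          intro y hy
          rw [mem_filter] at hy
          exact hconst y x hy.2
        rw [this]
        have hpos : (0 : ℝ) < ((univ.filter (fun y => χ y = χ x)).card : ℝ) := by
          have : 0 < (univ.filter (fun y => χ y = χ x)).card :=
            card_pos.2 ⟨x, mem_filter.2 ⟨mem_univ _, rfl⟩⟩
          exact_mod_cast this
        field_simp
      have hν1 : ν j = ∑ i, c i j ^ 2 * μ i := by
        have h1 : ∑ x, ∑ y, ev hB j x * bl χ A x y * ev hB j y = ν j := by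
          have : ∀ x, ∑ y, ev hB j x * bl χ A x y * ev hB j y = ν j * ev hB j x ^ 2 := by
            intro x
            have h2 := ev_mul hB j x
            simp only [mul_assoc, ← mul_sum]
            rw [h2]
            ring
          rw [sum_congr rfl (fun x _ => this x), ← mul_sum, ev_norm hB j, mul_one]
        rw [bl_form, havg, form_eq hA] at h1
        rw [← h1]
        apply sum_congr rfl
        intro i _
        simp only [hc]
        ring
      rw [hν1]
      exact Real.pow_arith_mean_le_arith_mean_pow_of_even univ (fun i => c i j ^ 2) μ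
        (fun i _ => sq_nonneg _) (hcj j) (even_two_mul k)
  calc ∑ j, ν j ^ (2 * k) ≤ ∑ j, ∑ i, c i j ^ 2 * μ i ^ (2 * k) := sum_le_sum (fun j _ => hjen j)
    _ = ∑ i, μ i ^ (2 * k) := by
        rw [sum_comm]
        apply sum_congr rfl
        intro i _
        rw [← sum_mul, hci i, one_mul]

end Pool.Agent.Q115.GW
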