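import Mathlib

/-! Partitions minimising (edges between the classes) + (entropy): the large classes expand. -/

set_option autoImplicit false

open Finset

namespace Pool.Agent.Q115.GX

variable {V : Type*} [Fintype V] [DecidableEq V]

/-- the class of `x` -/
def cls (χ : V → V) (x : V) : Finset V := univ.filter (fun y => χ y = χ x)

/-- truncated logarithm -/
noncomputable def ell (τ : ℝ) (s : ℝ) : ℝ := Real.logb 2 (max (s / τ) 1)

theorem ell_nonneg (τ s : ℝ) : 0 ≤ ell τ s :=
  Real.logb_nonneg (by norm_num) (le_max_right _ _)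

theorem ell_mono {τ : ℝ} (hτ : 0 < τ) {s t : ℝ} (h : s ≤ t) : ell τ s ≤ ell τ t := by
  unfold ell
  apply Real.logb_le_logb_of_le (by norm_num) (lt_of_lt_of_le one_pos (le_max_right _ _))
  exact max_le_max (div_le_div_of_nonneg_right h hτ.le) le_rfl

theorem ell_half {τ : ℝ} (hτ : 0 < τ) {s : ℝ} (h : 2 * τ ≤ s) : ell τ (s / 2) = ell τ s - 1 := by
  unfold ell
  have h1 : 1 ≤ s / 2 / τ := by
    rw [le_div_iff₀ hτ]; linarith
  have h2 : 1 ≤ s / τ := by
    rw [le_div_iff₀ hτ]; linarith
  rw [max_eq_left h1, max_eq_left h2]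
  have : s / 2 / τ = (s / τ) / 2 := by ring
  rw [this, Real.logb_div (by positivity) (by norm_num), Real.logb_self_eq_one (by norm_num)]

/-- the functional -/
noncomputable def Psi (a : V → V → ℝ) (lam τ : ℝ) (χ : V → V) : ℝ :=
  (∑ x, ∑ y, if χ x = χ y then 0 else a x y) + 2 * lam * ∑ x, ell τ ((cls χ x).card : ℝ)

theorem split_step (a : V → V → ℝ) (hs : ∀ x y, a x y = a y x) (lam τ : ℝ) (hlam : 0 ≤ lam)
    (hτ : 0 < τ) (χ : V → V) (v : V) (S : Finset V)
    (hS : S ⊆ univ.filter (fun y => χ y = v)) (hSne : S.Nonempty)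
    (hbig : 2 * τ ≤ ((univ.filter (fun y => χ y = v)).card : ℝ))
    (hhalf : 2 * S.card ≤ (univ.filter (fun y => χ y = v)).card)
    (hmin : ∀ χ' : V → V, Psi a lam τ χ ≤ Psi a lam τ χ') :
    lam * S.card ≤ ∑ x ∈ S, ∑ y ∈ (univ.filter (fun y => χ y = v)) \ S, a x y := by
  classical
  set P : Finset V := univ.filter (fun y => χ y = v) with hP
  have hSc : 1 ≤ S.card := hSne.card_pos
  -- an unused colour
  have hns : ¬ Function.Surjective χ := by
    intro hsur
    have hinj := Finite.injective_iff_surjective.2 hsur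
    have : P.card ≤ 1 := by
      rw [Finset.card_le_one]
      intro x hx y hy
      rw [hP, mem_filter] at hx hy
      exact hinj (hx.2.trans hy.2.symm)
    omega
  have : ∃ w, ∀ x, χ x ≠ w := by
    by_contra hcon
    push Not at hcon
    exact hns (fun w => hcon w)
  obtain ⟨w, hw⟩ := this
  set χ' : V → V := fun x => if x ∈ S then w else χ x with hχ'
  have hPmem : ∀ x, x ∈ P ↔ χ x = v := by
    intro x; rw [hP, mem_filter]; simp
  have hSP : ∀ x ∈ S, χ x = v := fun x hx => (hPmem x).1 (hS hx)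
  -- first sum
  have h1 : ∀ x y, (if χ' x = χ' y then (0 : ℝ) else a x y) =
      (if χ x = χ y then 0 else a x y) + (if x ∈ S then (if y ∈ P \ S then a x y else 0) else 0) +
        (if y ∈ S then (if x ∈ P \ S then a x y else 0) else 0) := by
    intro x y
    simp only [hχ', mem_sdiff]
    by_cases hx : x ∈ S <;> by_cases hy : y ∈ S
    · simp [hx, hy, hSP x hx, hSP y hy]
    · by_cases hyP : χ y = v
      · have : ¬ w = v := fun h => hw y (hyP.trans h.symm)
        simp [hx, hy, hSP x hx, hyP, (hPmem y).2 hyP, this]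
      · have h2 : ¬ w = χ y := fun h => hw y h.symm
        have h3 : ¬ v = χ y := fun h => hyP h.symm
        have h4 : y ∉ P := fun h => hyP ((hPmem y).1 h)
        simp [hx, hy, hSP x hx, h2, h3, h4]
    · by_cases hxP : χ x = v
      · have : ¬ v = w := fun h => hw x (hxP.trans h)
        simp [hx, hy, hSP y hy, hxP, (hPmem x).2 hxP, this]
      · have h2 : ¬ χ x = w := fun h => hw x h
        have h4 : x ∉ P := fun h => hxP ((hPmem x).1 h)
        simp [hx, hy, hSP y hy, h2, h4, hxP]
    · simp [hx, hy]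
  have h2 : ∑ x, ∑ y, (if χ' x = χ' y then (0 : ℝ) else a x y) =
      (∑ x, ∑ y, if χ x = χ y then 0 else a x y) + 2 * ∑ x ∈ S, ∑ y ∈ P \ S, a x y := by
    simp only [h1, sum_add_distrib]
    have e1 : ∑ x, ∑ y, (if x ∈ S then (if y ∈ P \ S then a x y else 0) else 0) =
        ∑ x ∈ S, ∑ y ∈ P \ S, a x y := by
      rw [← sum_filter_add_sum_filter_not univ (fun x => x ∈ S)]
      have z : ∑ x ∈ univ.filter (fun x => ¬ x ∈ S),
          ∑ y, (if x ∈ S then (if y ∈ P \ S then a x y else 0) else 0) = 0 := by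
        apply sum_eq_zero
        intro x hx
        rw [mem_filter] at hx
        simp [hx.2]
      rw [z, add_zero]
      have f : univ.filter (fun x => x ∈ S) = S := by ext; simp
      rw [f]
      apply sum_congr rfl
      intro x hx
      simp only [hx, if_true]
      rw [← sum_filter]
      congr 1
      ext; simp
    have e2 : ∑ x, ∑ y, (if y ∈ S then (if x ∈ P \ S then a x y else 0) else 0) =
        ∑ x ∈ S, ∑ y ∈ P \ S, a x y := by
      rw [sum_comm, ← e1]
      apply sum_congr rfl
      intro x _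
      apply sum_congr rfl
      intro y _
      rw [hs x y]
    rw [e1, e2]; ring
  -- second sum
  have h3 : ∑ x, ell τ ((cls χ' x).card : ℝ) =
      ∑ x, ell τ ((cls χ x).card : ℝ) + S.card * ell τ (S.card : ℝ) +
        ((P \ S).card : ℝ) * ell τ ((P \ S).card : ℝ) - P.card * ell τ (P.card : ℝ) := by
    have hdisj : ∀ f : V → ℝ, ∑ x, f x = ∑ x ∈ S, f x + ∑ x ∈ P \ S, f x + ∑ x ∈ Pᶜ, f x := by
      intro f
      have := sum_add_sum_compl P f
      rw [← this, ← sum_sdiff hS]
      ring
    rw [hdisj (fun x => ell τ ((cls χ' x).card : ℝ)), hdisj (fun x => ell τ ((cls χ x).card : ℝ))]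
    have a1 : ∀ x ∈ S, cls χ' x = S := by
      intro x hx
      ext y
      simp only [cls, mem_filter, mem_univ, true_and, hχ', hx, if_true]
      by_cases hy : y ∈ S
      · simp [hy]
      · simp [hy, hw y]
    have a2 : ∀ x ∈ P \ S, cls χ' x = P \ S := by
      intro x hx
      rw [mem_sdiff] at hx
      ext y
      simp only [cls, mem_filter, mem_univ, true_and, hχ', hx.2, if_false, mem_sdiff]
      by_cases hy : y ∈ S
      · simp only [hy, if_true, not_true, and_false, iff_false]
        exact fun h => hw x h.symm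
      · simp only [hy, if_false, not_false_eq_true, and_true, hPmem, (hPmem x).1 hx.1]
    have a3 : ∀ x ∈ Pᶜ, cls χ' x = cls χ x := by
      intro x hx
      rw [mem_compl] at hx
      have hxS : x ∉ S := fun h => hx (hS h)
      ext y
      simp only [cls, mem_filter, mem_univ, true_and, hχ', hxS, if_false]
      by_cases hy : y ∈ S
      · simp only [hy, if_true, hSP y hy]
        constructor
        · intro h; exact absurd h.symm (hw x)
        · intro h; exact absurd ((hPmem x).2 h.symm) hx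
      · simp only [hy, if_false]
    have a4 : ∀ x ∈ P, cls χ x = P := by
      intro x hx
      ext y
      simp only [cls, mem_filter, mem_univ, true_and, hPmem, (hPmem x).1 hx]
    have b1 : ∑ x ∈ S, ell τ ((cls χ' x).card : ℝ) = S.card * ell τ (S.card : ℝ) := by
      rw [sum_congr rfl (fun x hx => by rw [a1 x hx]), sum_const, nsmul_eq_mul]
    have b2 : ∑ x ∈ P \ S, ell τ ((cls χ' x).card : ℝ) =
        ((P \ S).card : ℝ) * ell τ ((P \ S).card : ℝ) := by
      rw [sum_congr rfl (fun x hx => by rw [a2 x hx]), sum_const, nsmul_eq_mul]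
    have b3 : ∑ x ∈ Pᶜ, ell τ ((cls χ' x).card : ℝ) = ∑ x ∈ Pᶜ, ell τ ((cls χ x).card : ℝ) :=
      sum_congr rfl (fun x hx => by rw [a3 x hx])
    have b4 : ∑ x ∈ S, ell τ ((cls χ x).card : ℝ) = S.card * ell τ (P.card : ℝ) := by
      rw [sum_congr rfl (fun x hx => by rw [a4 x (hS hx)]), sum_const, nsmul_eq_mul]
    have b5 : ∑ x ∈ P \ S, ell τ ((cls χ x).card : ℝ) =
        ((P \ S).card : ℝ) * ell τ (P.card : ℝ) := by
      rw [sum_congr rfl (fun x hx => by rw [a4 x (sdiff_subset hx)]), sum_const, nsmul_eq_mul]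
    have hc : ((P \ S).card : ℝ) = P.card - S.card := by
      rw [card_sdiff_of_subset hS, Nat.cast_sub (card_le_card hS)]
    rw [b1, b2, b3, b4, b5, hc]
    ring
  have h4 := hmin χ'
  unfold Psi at h4
  rw [h2, h3] at h4
  have hc : ((P \ S).card : ℝ) = P.card - S.card := by
    rw [card_sdiff_of_subset hS, Nat.cast_sub (card_le_card hS)]
  have hhalf' : 2 * (S.card : ℝ) ≤ P.card := by exact_mod_cast hhalf
  have g1 : ell τ (S.card : ℝ) ≤ ell τ (P.card : ℝ) - 1 := by
    rw [← ell_half hτ hbig]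
    exact ell_mono hτ (by linarith)
  have g2 : ell τ ((P \ S).card : ℝ) ≤ ell τ (P.card : ℝ) := by
    apply ell_mono hτ
    rw [hc]
    have : (0 : ℝ) ≤ S.card := Nat.cast_nonneg _
    linarith
  have hS0 : (0 : ℝ) ≤ S.card := Nat.cast_nonneg _
  have hPS0 : (0 : ℝ) ≤ (P \ S).card := Nat.cast_nonneg _
  have g3 : (S.card : ℝ) * ell τ (S.card : ℝ) ≤ S.card * (ell τ (P.card : ℝ) - 1) :=
    mul_le_mul_of_nonneg_left g1 hS0
  have g4 : ((P \ S).card : ℝ) * ell τ ((P \ S).card : ℝ) ≤ (P \ S).card * ell τ (P.card : ℝ) :=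
    mul_le_mul_of_nonneg_left g2 hPS0
  have g5 : (S.card : ℝ) * ell τ (S.card : ℝ) +
      ((P \ S).card : ℝ) * ell τ ((P \ S).card : ℝ) - P.card * ell τ (P.card : ℝ) ≤ - S.card := by
    have : ((P \ S).card : ℝ) * ell τ (P.card : ℝ) = (P.card - S.card) * ell τ (P.card : ℝ) := by
      rw [hc]
    linarith
  have g6 : 2 * lam * ((S.card : ℝ) * ell τ (S.card : ℝ) +
      ((P \ S).card : ℝ) * ell τ ((P \ S).card : ℝ) - P.card * ell τ (P.card : ℝ)) ≤
      2 * lam * (- S.card) := mul_le_mul_of_nonneg_left g5 (by linarith)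
  linarith

/-- **Partition into expanders.** -/
theorem exists_partition (a : V → V → ℝ) (hs : ∀ x y, a x y = a y x)
    (lam τ : ℝ) (hlam : 0 ≤ lam) (hτ : 0 < τ) (hV : Nonempty V) :
    ∃ χ : V → V,
      (∑ x, ∑ y, if χ x = χ y then 0 else a x y) ≤
        2 * lam * (Fintype.card V * ell τ (Fintype.card V : ℝ)) ∧
      ∀ v : V, 2 * τ ≤ ((univ.filter (fun y => χ y = v)).card : ℝ) →
        ∀ S ⊆ univ.filter (fun y => χ y = v), 2 * S.card ≤ (univ.filter (fun y => χ y = v)).card →
          lam * S.card ≤ ∑ x ∈ S, ∑ y ∈ (univ.filter (fun y => χ y = v)) \ S, a x y := by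
  classical
  obtain ⟨χ, hχ⟩ := Finite.exists_min (Psi a lam τ)
  refine ⟨χ, ?_, ?_⟩
  · obtain ⟨v0⟩ := hV
    have h := hχ (fun _ => v0)
    have h1 : Psi a lam τ (fun _ => v0) =
        2 * lam * (Fintype.card V * ell τ (Fintype.card V : ℝ)) := by
      unfold Psi
      have : ∀ x : V, cls (fun _ => v0) x = univ := by
        intro x; ext y; simp [cls]
      simp only [this, if_true, sum_const_zero, zero_add, sum_const, card_univ, nsmul_eq_mul]
    rw [h1] at h
    have h2 : (∑ x, ∑ y, if χ x = χ y then 0 else a x y) ≤ Psi a lam τ χ := by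
      unfold Psi
      have : 0 ≤ 2 * lam * ∑ x, ell τ ((cls χ x).card : ℝ) :=
        mul_nonneg (by linarith) (sum_nonneg (fun x _ => ell_nonneg _ _))
      linarith
    linarith
  · intro v hbig S hS hhalf
    rcases S.eq_empty_or_nonempty with rfl | hne
    · simp
    · exact split_step a hs lam τ hlam hτ χ v S hS hne hbig hhalf hχ

end Pool.Agent.Q115.GX
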