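import Pool.Agent.Q115.GX2
import Pool.Agent.TH815.GR12

/-! Choice of the parameters, hereditary bound for graphs of large girth, bounded diameter. -/

set_option autoImplicit false

open Finset

namespace Pool.Agent.Q115.GX

/-- **Decomposition into expanders** under a hereditary bound for the number of edges. -/
theorem decomp (α M c ε : ℝ) (hα : 0 < α) (hM : 0 < M) (hc : 0 < c) (hε : 0 < ε) :
    ∃ η : ℝ, 0 < η ∧ ∀ (V : Type) [Fintype V] [DecidableEq V] (G : SimpleGraph V)
      [DecidableRel G.Adj],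
      (∀ X : Finset V, ∑ x ∈ X, ((X.filter (fun y => G.Adj x y)).card : ℝ) ≤
        M * (X.card : ℝ) ^ (1 + α)) →
      c * (Fintype.card V : ℝ) ^ (1 + α) ≤ ∑ x, ((univ.filter (fun y => G.Adj x y)).card : ℝ) →
      ∃ Ps : Finset (Finset V), (∀ U ∈ Ps, ∀ W ∈ Ps, U ≠ W → Disjoint U W) ∧
        (1 - ε) * (∑ x, ((univ.filter (fun y => G.Adj x y)).card : ℝ)) ≤
          (∑ U ∈ Ps, ∑ x ∈ U, ((U.filter (fun y => G.Adj x y)).card : ℝ)) ∧
        ∀ U ∈ Ps, η * (Fintype.card V : ℝ) ≤ (U.card : ℝ) ∧ 2 ≤ U.card ∧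
          (∀ x ∈ U, η * (Fintype.card V : ℝ) ^ α ≤ ((U.filter (fun y => G.Adj x y)).card : ℝ) ∧
            ((univ.filter (fun y => G.Adj x y)).card : ℝ) ≤ η⁻¹ * (Fintype.card V : ℝ) ^ α) ∧
          ∀ S ⊆ U, 2 * S.card ≤ U.card → η * (Fintype.card V : ℝ) ^ α * S.card ≤
            ∑ x ∈ S, (((U \ S).filter (fun y => G.Adj x y)).card : ℝ) := by
  set A : ℝ := (2 : ℝ) ^ (2 + α) * M ^ (1 + α) with hA
  have hApos : 0 < A := by positivity
  set θ : ℝ := (ε * c / (3 * M)) ^ (1 / α) / 2 with hθ
  have hθpos : 0 < θ := by positivity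
  set K : ℝ := (6 * A / (ε * c)) ^ (1 / α) with hK
  have hKpos : 0 < K := by positivity
  set L : ℝ := Real.logb 2 (max (1 / θ) 1) with hL
  have hL0 : 0 ≤ L := Real.logb_nonneg (by norm_num) (le_max_right _ _)
  set β : ℝ := ε * c / (6 * (L + 1)) with hβ
  have hβpos : 0 < β := by positivity
  have h1 : M * (2 * θ) ^ α = ε * c / 3 := by
    have : 2 * θ = (ε * c / (3 * M)) ^ (1 / α) := by rw [hθ]; ring
    rw [this, ← Real.rpow_mul (by positivity), one_div_mul_cancel hα.ne', Real.rpow_one]
    field_simp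
  have h2 : 2 * (A / K ^ α) = ε * c / 3 := by
    rw [hK, ← Real.rpow_mul (by positivity), one_div_mul_cancel hα.ne', Real.rpow_one]
    field_simp
    ring
  have h3 : 2 * β * L ≤ ε * c / 3 := by
    rw [hβ]
    have e : 2 * (ε * c / (6 * (L + 1))) * L = ε * c / 3 * (L / (L + 1)) := by
      field_simp; ring
    rw [e]
    have : L / (L + 1) ≤ 1 := by
      rw [div_le_one (by linarith)]; linarith
    have hp : 0 ≤ ε * c / 3 := by positivity
    nlinarith
  refine ⟨min (2 * θ) (min β K⁻¹), by positivity, ?_⟩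
  intro V _ _ G _ her hsize
  obtain ⟨Ps, hP1, hP2, hP3⟩ := decomp_aux G α M K θ β hα hM hKpos hθpos hβpos her
  refine ⟨Ps, hP1, ?_, ?_⟩
  · set T : ℝ := ∑ x, ((univ.filter (fun y => G.Adj x y)).card : ℝ) with hT
    have h4 : (2 * (A / K ^ α) + 2 * β * L + M * (2 * θ) ^ α) *
        (Fintype.card V : ℝ) ^ (1 + α) ≤ ε * T := by
      calc (2 * (A / K ^ α) + 2 * β * L + M * (2 * θ) ^ α) * (Fintype.card V : ℝ) ^ (1 + α)
          ≤ (ε * c) * (Fintype.card V : ℝ) ^ (1 + α) := by
            apply mul_le_mul_of_nonneg_right _ (by positivity)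
            rw [h1, h2]; linarith
        _ = ε * (c * (Fintype.card V : ℝ) ^ (1 + α)) := by ring
        _ ≤ ε * T := mul_le_mul_of_nonneg_left hsize hε.le
    linarith
  · intro U hU
    obtain ⟨q1, q2, q3, q4⟩ := hP3 U hU
    have hn0 : (0 : ℝ) ≤ (Fintype.card V : ℝ) := Nat.cast_nonneg _
    have hna : (0 : ℝ) ≤ (Fintype.card V : ℝ) ^ α := by positivity
    have m1 : min (2 * θ) (min β K⁻¹) ≤ 2 * θ := min_le_left _ _
    have m2 : min (2 * θ) (min β K⁻¹) ≤ β := (min_le_right _ _).trans (min_le_left _ _)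
    have m3 : min (2 * θ) (min β K⁻¹) ≤ K⁻¹ := (min_le_right _ _).trans (min_le_right _ _)
    have m0 : 0 < min (2 * θ) (min β K⁻¹) := by positivity
    have m4 : K ≤ (min (2 * θ) (min β K⁻¹))⁻¹ := by
      have := (inv_le_inv₀ (by positivity) m0).2 m3
      rwa [inv_inv] at this
    refine ⟨(mul_le_mul_of_nonneg_right m1 hn0).trans q1, q2, ?_, ?_⟩
    · intro x hx
      exact ⟨(mul_le_mul_of_nonneg_right m2 hna).trans (q3 x hx).1,
        (q3 x hx).2.trans (mul_le_mul_of_nonneg_right m4 hna)⟩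
    · intro S hS hh
      refine le_trans ?_ (q4 S hS hh)
      apply mul_le_mul_of_nonneg_right _ (Nat.cast_nonneg _)
      exact mul_le_mul_of_nonneg_right m2 hna

/-- The hereditary bound for graphs of large girth. -/
theorem her_girth {V : Type} [Fintype V] [DecidableEq V] (G : SimpleGraph V) [DecidableRel G.Adj]
    {k : ℕ} (hk : 1 ≤ k) (hg : ∀ (v : V) (p : G.Walk v v), p.IsCycle → 2 * k < p.length)
    (X : Finset V) :
    ∑ x ∈ X, ((X.filter (fun y => G.Adj x y)).card : ℝ) ≤
      24 * (X.card : ℝ) ^ (1 + 1 / (k : ℝ)) := by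
  classical
  set F : SimpleGraph X := G.comap (Subtype.val) with hF
  have hFg : ∀ (v : X) (p : F.Walk v v), p.IsCycle → 2 * k < p.length := by
    intro v p hp
    have hinj : Function.Injective (Subtype.val : X → V) := Subtype.val_injective
    have := hg v.1 (p.map (⟨Subtype.val, fun {a b} h => h⟩ : F →g G))
      (SimpleGraph.Walk.IsCycle.map hinj hp)
    simpa using this
  have h1 := Pool.TH815.GR.edges_le F hk hFg
  have h2 : 2 * (F.edgeFinset.card : ℝ) = ∑ x ∈ X, ((X.filter (fun y => G.Adj x y)).card : ℝ) := by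
    have : 2 * (F.edgeFinset.card : ℝ) = ∑ v, (F.degree v : ℝ) := by
      rw [← Nat.cast_sum, F.sum_degrees_eq_twice_card_edges]
      push_cast
      rfl
    rw [this, ← Finset.sum_coe_sort X]
    apply sum_congr rfl
    intro x _
    congr 1
    rw [← F.card_neighborFinset_eq_degree]
    apply card_bij (fun (y : X) _ => y.1)
    · intro y hy
      rw [SimpleGraph.mem_neighborFinset] at hy
      rw [mem_filter]
      exact ⟨y.2, hy⟩
    · intro y _ z _ h
      exact Subtype.ext h
    · intro y hy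
      rw [mem_filter] at hy
      exact ⟨⟨y, hy.1⟩, by rw [SimpleGraph.mem_neighborFinset]; exact hy.2, rfl⟩
  rw [h2, Fintype.card_coe] at h1
  rcases Nat.eq_zero_or_pos X.card with h0 | hpos
  · rw [card_eq_zero] at h0
    subst h0
    simp only [sum_empty]
    positivity
  · have hX : (1 : ℝ) ≤ X.card := by exact_mod_cast hpos
    have : (X.card : ℝ) ≤ (X.card : ℝ) ^ (1 + 1 / (k : ℝ)) := by
      calc (X.card : ℝ) = (X.card : ℝ) ^ (1 : ℝ) := (Real.rpow_one _).symm
        _ ≤ _ := Real.rpow_le_rpow_of_exponent_le hX (by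
          have : (0 : ℝ) ≤ 1 / (k : ℝ) := by positivity
          linarith)
    linarith

section diam

variable {V : Type*}

/-- `y` can be reached from `x` in at most `j` steps inside `U` -/
def Reach (G : SimpleGraph V) (U : Finset V) (j : ℕ) (x y : V) : Prop :=
  ∃ p : G.Walk x y, p.length ≤ j ∧ ∀ z ∈ p.support, z ∈ U

theorem Reach.step {G : SimpleGraph V} {U : Finset V} {j : ℕ} {x y z : V} (h : Reach G U j x y)
    (ha : G.Adj y z) (hz : z ∈ U) : Reach G U (j + 1) x z := by
  obtain ⟨p, hp, hp'⟩ := h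
  refine ⟨p.concat ha, by rw [SimpleGraph.Walk.length_concat]; omega, ?_⟩
  intro w hw
  rw [SimpleGraph.Walk.support_concat] at hw
  simp only [List.mem_append, List.mem_singleton] at hw
  rcases hw with hw | rfl
  · exact hp' w hw
  · exact hz

theorem Reach.mono {G : SimpleGraph V} {U : Finset V} {j j' : ℕ} {x y : V} (h : Reach G U j x y)
    (hj : j ≤ j') : Reach G U j' x y := by
  obtain ⟨p, hp, hp'⟩ := h
  exact ⟨p, hp.trans hj, hp'⟩

theorem Reach.mem {G : SimpleGraph V} {U : Finset V} {j : ℕ} {x y : V} (h : Reach G U j x y) :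
    y ∈ U := by
  obtain ⟨p, _, hp'⟩ := h
  exact hp' y p.end_mem_support

theorem Reach.trans {G : SimpleGraph V} {U : Finset V} {j j' : ℕ} {x y z : V}
    (h : Reach G U j x z) (h' : Reach G U j' y z) : Reach G U (j + j') x y := by
  obtain ⟨p, hp, hp'⟩ := h
  obtain ⟨q, hq, hq'⟩ := h'
  refine ⟨p.append q.reverse, ?_, ?_⟩
  · rw [SimpleGraph.Walk.length_append, SimpleGraph.Walk.length_reverse]; omega
  · intro w hw
    rw [SimpleGraph.Walk.mem_support_append_iff, SimpleGraph.Walk.support_reverse,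
      List.mem_reverse] at hw
    rcases hw with hw | hw
    · exact hp' w hw
    · exact hq' w hw

variable [Fintype V] [DecidableEq V]

theorem grow (G : SimpleGraph V) [DecidableRel G.Adj] (U S : Finset V) (lam D : ℝ)
    (hdeg : ∀ y ∈ U, ((univ.filter (fun z => G.Adj y z)).card : ℝ) ≤ D)
    (hexp : lam * S.card ≤ ∑ x ∈ S, (((U \ S).filter (fun y => G.Adj x y)).card : ℝ)) :
    lam * S.card ≤ D * (((U \ S).filter (fun y => ∃ x ∈ S, G.Adj x y)).card : ℝ) := by
  classical
  refine hexp.trans ?_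
  have h1 : ∀ x ∈ S, (((U \ S).filter (fun y => G.Adj x y)).card : ℝ) =
      ∑ y ∈ (U \ S).filter (fun y => ∃ x ∈ S, G.Adj x y), if G.Adj x y then (1 : ℝ) else 0 := by
    intro x hx
    rw [sum_boole, filter_filter]
    congr 2
    ext y
    simp only [mem_filter]
    constructor
    · rintro ⟨h1, h⟩; exact ⟨h1, ⟨x, hx, h⟩, h⟩
    · rintro ⟨h1, _, h⟩; exact ⟨h1, h⟩
  rw [sum_congr rfl h1, sum_comm, mul_comm D, ← nsmul_eq_mul, ← sum_const]
  apply sum_le_sum
  intro y hy
  rw [mem_filter, mem_sdiff] at hy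
  rw [sum_boole]
  refine le_trans ?_ (hdeg y hy.1.1)
  apply Nat.cast_le.2
  apply card_le_card
  intro x hx
  rw [mem_filter] at hx ⊢
  exact ⟨mem_univ _, hx.2.symm⟩

open Classical in
/-- Growth of the balls inside an expander. -/
theorem ball_growth (G : SimpleGraph V) [DecidableRel G.Adj] (U : Finset V) (lam D : ℝ)
    (hlam : 0 < lam) (hD : 0 < D)
    (hdeg : ∀ y ∈ U, ((univ.filter (fun z => G.Adj y z)).card : ℝ) ≤ D)
    (hexp : ∀ S ⊆ U, 2 * S.card ≤ U.card →
      lam * S.card ≤ ∑ x ∈ S, (((U \ S).filter (fun y => G.Adj x y)).card : ℝ))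
    (x : V) (i : ℕ) : ∀ j : ℕ,
      U.card < 2 * (U.filter (fun y => Reach G U (i + j) x y)).card ∨
      (1 + lam / D) ^ j * ((U.filter (fun y => Reach G U i x y)).card : ℝ) ≤
        ((U.filter (fun y => Reach G U (i + j) x y)).card : ℝ) := by
  intro j
  induction j with
  | zero => right; simp
  | succ j ih =>
    set S := U.filter (fun y => Reach G U (i + j) x y) with hS
    set S' := U.filter (fun y => Reach G U (i + (j + 1)) x y) with hS'
    have hSS' : S ⊆ S' := by
      intro y hy
      rw [hS, mem_filter] at hy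
      rw [hS', mem_filter]
      exact ⟨hy.1, hy.2.mono (by omega)⟩
    by_cases hbig : U.card < 2 * S.card
    · left
      have := card_le_card hSS'
      omega
    · rcases ih with ih | ih
      · exact absurd ih hbig
      · right
        push Not at hbig
        have h1 := grow G U S lam D hdeg (hexp S (filter_subset _ _) hbig)
        set T := (U \ S).filter (fun y => ∃ x ∈ S, G.Adj x y) with hT
        have hTS' : S ∪ T ⊆ S' := by
          apply union_subset hSS'
          intro y hy
          rw [hT, mem_filter, mem_sdiff] at hy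
          obtain ⟨⟨hyU, _⟩, z, hz, hadj⟩ := hy
          rw [hS, mem_filter] at hz
          rw [hS', mem_filter]
          exact ⟨hyU, hz.2.step hadj hyU⟩
        have hdisj : Disjoint S T := by
          rw [Finset.disjoint_left]
          intro y hy hy'
          rw [hT, mem_filter, mem_sdiff] at hy'
          exact hy'.1.2 hy
        have hcard : (S.card : ℝ) + T.card ≤ S'.card := by
          have := card_le_card hTS'
          rw [card_union_of_disjoint hdisj] at this
          exact_mod_cast this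
        have h2 : lam / D * S.card ≤ T.card := by
          rw [div_mul_eq_mul_div, div_le_iff₀ hD]
          linarith
        have h3 : (1 + lam / D) * ((1 + lam / D) ^ j *
            ((U.filter (fun y => Reach G U i x y)).card : ℝ)) ≤ (1 + lam / D) * S.card :=
          mul_le_mul_of_nonneg_left ih (by positivity)
        calc (1 + lam / D) ^ (j + 1) * ((U.filter (fun y => Reach G U i x y)).card : ℝ)
            = (1 + lam / D) * ((1 + lam / D) ^ j *
              ((U.filter (fun y => Reach G U i x y)).card : ℝ)) := by ring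
          _ ≤ (1 + lam / D) * S.card := h3
          _ ≤ S'.card := by linarith

omit [Fintype V] [DecidableEq V] in
theorem reach_of_NW {F G : SimpleGraph V} {U : Finset V}
    (hFG : ∀ a b, F.Adj a b → G.Adj a b ∧ a ∈ U ∧ b ∈ U) {n : ℕ} {a b c d : V}
    (h : Pool.Agent.H268R2.LB.NW F n a b c d) : Reach G U n a d := by
  induction h with
  | @one a b h =>
    obtain ⟨h1, h2, h3⟩ := hFG _ _ h
    refine Reach.step (j := 0) (y := a) ?_ h1 h3
    exact ⟨SimpleGraph.Walk.nil, by simp, by simpa using h2⟩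
  | step _ hadj _ ih =>
    obtain ⟨h1, h2, h3⟩ := hFG _ _ hadj
    exact ih.step h1 h3

open Classical in
/-- The first `k` steps. -/
theorem ball_start (G : SimpleGraph V) [DecidableRel G.Adj] {k : ℕ} (hk : 1 ≤ k)
    (hg : ∀ (v : V) (p : G.Walk v v), p.IsCycle → 2 * k < p.length) (U : Finset V) (δ : ℕ)
    (hδ : ∀ x ∈ U, δ ≤ (U.filter (fun y => G.Adj x y)).card) (x : V) (hx : x ∈ U) :
    (δ - 1) ^ k ≤ (U.filter (fun y => Reach G U k x y)).card := by
  let F : SimpleGraph V :=
    { Adj := fun a b => G.Adj a b ∧ a ∈ U ∧ b ∈ U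
      symm := ⟨fun a b h => ⟨h.1.symm, h.2.2, h.2.1⟩⟩
      loopless := ⟨fun a h => G.irrefl h.1⟩ }
  have hFG : F ≤ G := fun a b h => h.1
  have hFg : ∀ (v : V) (p : F.Walk v v), p.IsCycle → 2 * k < p.length := by
    intro v p hp
    have := hg v (p.map (SimpleGraph.Hom.ofLE hFG))
      (SimpleGraph.Walk.IsCycle.map (fun a b h => h) hp)
    simpa using this
  obtain ⟨E, hE, hE'⟩ := Pool.TH815.GR.growthT hFg (fun _ => U)
    (fun _ y => if y ∈ U then U.filter (fun z => G.Adj y z) else ∅) (fun _ => δ)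
    (by
      intro i y hy z hz
      simp only [hy, if_true, mem_filter] at hz
      exact ⟨hz.1, hz.2, hy, hz.1⟩)
    (by
      intro i y hy
      simp only [hy, if_true]
      exact hδ y hy) hx k le_rfl
  rw [prod_const, card_range] at hE
  refine hE.trans (card_le_card ?_)
  intro y hy
  obtain ⟨h1, h2⟩ := hE' y hy
  rw [mem_filter]
  refine ⟨h1, ?_⟩
  rcases h2 with ⟨h, _⟩ | ⟨b, c, h⟩
  · omega
  · exact reach_of_NW (fun a b h => h) h

end diam

end Pool.Agent.Q115.GX
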