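import Pool.Agent.TH815.GR12

/-! Counting walks in graphs of large girth: the Frobenius norm of the `k`-th power of the
adjacency matrix. -/

set_option autoImplicit false

open Finset

namespace Pool.Agent.Q115.GY

open Pool.Agent.H268R2.LB

variable {V : Type*} {G : SimpleGraph V}

/-- `x` and `y` are joined by a nonbacktracking walk with `l` steps -/
def P (G : SimpleGraph V) (l : ℕ) (x y : V) : Prop :=
  (l = 0 ∧ x = y) ∨ ∃ b c, NW G l x b c y

/-- the penultimate vertex is unique -/
theorem penult {k : ℕ} (hg : ∀ (v : V) (p : G.Walk v v), p.IsCycle → 2 * k < p.length)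
    {l l' : ℕ} {x b c y b' c' : V} (h : NW G l x b c y) (h' : NW G l' x b' c' y)
    (hl : l + l' ≤ 2 * k) : c = c' := by
  by_contra hne
  exact no_closed hg (NW.append h h'.rev hne) hl

theorem NW_inv {l : ℕ} {x b c d : V} (h : NW G l x b c d) : P G (l - 1) x c := by
  cases h with
  | one h => exact Or.inl ⟨rfl, rfl⟩
  | step h1 h2 h3 => exact Or.inr ⟨_, _, h1⟩

variable [Fintype V]

open Classical in
/-- the number of neighbours of `y` at distance `l` from `x` -/
theorem count_nbrs [DecidableEq V] (G : SimpleGraph V) [DecidableRel G.Adj] {k : ℕ}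
    (hg : ∀ (v : V) (p : G.Walk v v), p.IsCycle → 2 * k < p.length) (D : ℝ)
    (hD : ∀ x, (G.degree x : ℝ) ≤ D) (l : ℕ) (hl : l + 1 ≤ k) (x y : V) :
    ∑ z, (if P G l x z then (1 : ℝ) else 0) * G.adjMatrix ℝ z y ≤
      (if P G (l + 1) x y then 1 else 0) +
        D * (if 1 ≤ l ∧ P G (l - 1) x y then 1 else 0) := by
  have hD0 : 0 ≤ D := (Nat.cast_nonneg _).trans (hD x)
  have h1 : ∑ z, (if P G l x z then (1 : ℝ) else 0) * G.adjMatrix ℝ z y =
      ((univ.filter (fun z => P G l x z ∧ G.Adj z y)).card : ℝ) := by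
    rw [card_filter]
    push_cast
    apply sum_congr rfl
    intro z _
    rw [SimpleGraph.adjMatrix_apply]
    by_cases h1 : P G l x z <;> by_cases h2 : G.Adj z y <;> simp [h1, h2]
  rw [h1]
  -- split by the last step
  set Z := univ.filter (fun z => P G l x z ∧ G.Adj z y) with hZ
  set Z2 := Z.filter (fun z => ∃ b, NW G l x b y z) with hZ2
  set Z1 := Z.filter (fun z => ¬ ∃ b, NW G l x b y z) with hZ1
  have hsplit : (Z.card : ℝ) = Z2.card + Z1.card := by
    have := card_filter_add_card_filter_not (s := Z) (fun z => ∃ b, NW G l x b y z)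
    exact_mod_cast this.symm
  have e2 : (Z2.card : ℝ) ≤ D * (if 1 ≤ l ∧ P G (l - 1) x y then 1 else 0) := by
    rcases Z2.eq_empty_or_nonempty with h0 | ⟨z, hz⟩
    · rw [h0, card_empty, Nat.cast_zero]
      split_ifs <;> simp [hD0]
    · have hz' := hz
      rw [hZ2, mem_filter] at hz'
      obtain ⟨b, hb⟩ := hz'.2
      rw [if_pos ⟨hb.pos, NW_inv hb⟩, mul_one]
      refine le_trans ?_ (hD y)
      rw [← G.card_neighborFinset_eq_degree]
      apply Nat.cast_le.2
      apply card_le_card
      intro w hw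
      rw [hZ2, mem_filter, hZ, mem_filter] at hw
      rw [SimpleGraph.mem_neighborFinset]
      exact hw.1.2.2.symm
  have key : ∀ z ∈ Z1, ∃ b, NW G (l + 1) x b z y := by
    intro z hz
    rw [hZ1, mem_filter, hZ, mem_filter] at hz
    obtain ⟨⟨_, hP, hadj⟩, hno⟩ := hz
    rcases hP with ⟨h0, hxz⟩ | ⟨b, c, hNW⟩
    · subst h0
      subst hxz
      exact ⟨y, NW.one hadj⟩
    · have hne : c ≠ y := by
        rintro rfl
        exact hno ⟨b, hNW⟩
      exact ⟨b, NW.step hNW hadj hne⟩
  have e1 : (Z1.card : ℝ) ≤ (if P G (l + 1) x y then 1 else 0) := by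
    rcases Z1.eq_empty_or_nonempty with h0 | ⟨z, hz⟩
    · rw [h0, card_empty, Nat.cast_zero]
      split_ifs <;> simp
    · obtain ⟨b, hb⟩ := key z hz
      have : P G (l + 1) x y := Or.inr ⟨b, z, hb⟩
      rw [if_pos this]
      have : Z1.card ≤ 1 := by
        rw [card_le_one]
        intro w hw w' hw'
        obtain ⟨b1, hb1⟩ := key w hw
        obtain ⟨b2, hb2⟩ := key w' hw'
        exact penult hg hb1 hb2 (by omega)
      exact_mod_cast this
  rw [hsplit]
  linarith

open Classical in
/-- Entries of powers of the adjacency matrix. -/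
theorem walk_bound [DecidableEq V] (G : SimpleGraph V) [DecidableRel G.Adj] {k : ℕ}
    (hg : ∀ (v : V) (p : G.Walk v v), p.IsCycle → 2 * k < p.length) (s : ℝ) (hs : 0 < s)
    (hD : ∀ x, (G.degree x : ℝ) ≤ s ^ 2) (x : V) : ∀ m, m ≤ k → ∀ y,
    ((G.adjMatrix ℝ) ^ m) x y ≤
      ∑ l ∈ range (m + 1), (if P G l x y then (1 : ℝ) else 0) * ((2 * s) ^ m / s ^ l) := by
  intro m
  induction m with
  | zero =>
    intro _ y
    simp only [pow_zero, zero_add, sum_range_one, div_one, mul_one, Matrix.one_apply]
    by_cases h : x = y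
    · subst h
      have : P G 0 x x := Or.inl ⟨rfl, rfl⟩
      simp [this]
    · simp only [h, if_false]
      split_ifs <;> simp
  | succ m ih =>
    intro hm y
    rw [pow_succ, Matrix.mul_apply]
    set c : ℕ → ℝ := fun l => (2 * s) ^ m / s ^ l with hc
    have hcpos : ∀ l, 0 ≤ c l := fun l => by simp only [hc]; positivity
    have h1 : ∑ z, ((G.adjMatrix ℝ) ^ m) x z * G.adjMatrix ℝ z y ≤
        ∑ z, (∑ l ∈ range (m + 1), (if P G l x z then (1 : ℝ) else 0) * c l) *
          G.adjMatrix ℝ z y := by
      apply sum_le_sum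
      intro z _
      apply mul_le_mul_of_nonneg_right (ih (by omega) z)
      rw [SimpleGraph.adjMatrix_apply]
      split_ifs <;> norm_num
    have h2 : ∑ z, (∑ l ∈ range (m + 1), (if P G l x z then (1 : ℝ) else 0) * c l) *
          G.adjMatrix ℝ z y =
        ∑ l ∈ range (m + 1), c l *
          ∑ z, (if P G l x z then (1 : ℝ) else 0) * G.adjMatrix ℝ z y := by
      simp only [sum_mul, mul_sum]
      rw [sum_comm]
      apply sum_congr rfl
      intro l _
      apply sum_congr rfl
      intro z _
      ring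
    have h3 : ∑ l ∈ range (m + 1), c l *
          ∑ z, (if P G l x z then (1 : ℝ) else 0) * G.adjMatrix ℝ z y ≤
        ∑ l ∈ range (m + 1), c l * ((if P G (l + 1) x y then 1 else 0) +
          s ^ 2 * (if 1 ≤ l ∧ P G (l - 1) x y then 1 else 0)) := by
      apply sum_le_sum
      intro l hl
      rw [mem_range] at hl
      exact mul_le_mul_of_nonneg_left (count_nbrs G hg _ hD l (by omega) x y) (hcpos l)
    refine (h1.trans (h2.le.trans h3)).trans ?_
    have h4 : ∑ l ∈ range (m + 1), c l * ((if P G (l + 1) x y then (1 : ℝ) else 0) +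
          s ^ 2 * (if 1 ≤ l ∧ P G (l - 1) x y then 1 else 0)) =
        (∑ l ∈ range (m + 1), c l * (if P G (l + 1) x y then (1 : ℝ) else 0)) +
        ∑ l ∈ range (m + 1), c l * (s ^ 2 * (if 1 ≤ l ∧ P G (l - 1) x y then (1 : ℝ) else 0)) := by
      rw [← sum_add_distrib]
      apply sum_congr rfl
      intro l _
      ring
    rw [h4]
    have hshift : ∀ l, c l = s * c (l + 1) := by
      intro l
      simp only [hc, pow_succ]
      field_simp
    have hfin : ∑ l ∈ range (m + 1 + 1),
        (if P G l x y then (1 : ℝ) else 0) * ((2 * s) ^ (m + 1) / s ^ l) =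
        (∑ l ∈ range (m + 1 + 1), (s * c l) * (if P G l x y then (1 : ℝ) else 0)) +
        ∑ l ∈ range (m + 1 + 1), (s * c l) * (if P G l x y then (1 : ℝ) else 0) := by
      rw [← sum_add_distrib]
      apply sum_congr rfl
      intro l _
      simp only [hc, pow_succ]
      ring
    rw [hfin]
    apply add_le_add
    · rw [sum_range_succ' _ (m + 1)]
      have : ∑ l ∈ range (m + 1), c l * (if P G (l + 1) x y then (1 : ℝ) else 0) =
          ∑ l ∈ range (m + 1), s * c (l + 1) * (if P G (l + 1) x y then (1 : ℝ) else 0) := by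
        apply sum_congr rfl
        intro l _
        rw [hshift l]
      rw [this]
      have : 0 ≤ s * c 0 * (if P G 0 x y then (1 : ℝ) else 0) := by
        apply mul_nonneg (mul_nonneg hs.le (hcpos 0))
        split_ifs <;> norm_num
      linarith
    · rw [sum_range_succ' _ m]
      have h0 : c 0 * (s ^ 2 * (if 1 ≤ 0 ∧ P G (0 - 1) x y then (1 : ℝ) else 0)) = 0 := by simp
      rw [h0, add_zero]
      have : ∑ l ∈ range m, c (l + 1) *
            (s ^ 2 * (if 1 ≤ l + 1 ∧ P G (l + 1 - 1) x y then (1 : ℝ) else 0)) =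
          ∑ l ∈ range m, s * c l * (if P G l x y then (1 : ℝ) else 0) := by
        apply sum_congr rfl
        intro l _
        rw [hshift l]
        simp only [le_add_iff_nonneg_left, zero_le, Nat.add_sub_cancel, true_and]
        ring
      rw [this]
      apply sum_le_sum_of_subset_of_nonneg
      · intro l hl
        rw [mem_range] at hl ⊢
        omega
      · intro l _ _
        apply mul_nonneg (mul_nonneg hs.le (hcpos l))
        split_ifs <;> norm_num

open Classical in
/-- Size of the spheres. -/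
theorem sphere_card [DecidableEq V] (G : SimpleGraph V) [DecidableRel G.Adj] (D : ℝ)
    (hD : ∀ x, (G.degree x : ℝ) ≤ D) (x : V) : ∀ l,
    ∑ y, (if P G l x y then (1 : ℝ) else 0) ≤ D ^ l := by
  have hD0 : 0 ≤ D := (Nat.cast_nonneg _).trans (hD x)
  intro l
  induction l with
  | zero =>
    rw [pow_zero]
    have : ∀ y, (if P G 0 x y then (1 : ℝ) else 0) ≤ if y = x then 1 else 0 := by
      intro y
      by_cases h : P G 0 x y
      · rcases h with ⟨_, h⟩ | ⟨b, c, h⟩
        · simp [h]
          split_ifs <;> norm_num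
        · exact absurd h.pos (by omega)
      · simp only [h, if_false]
        split_ifs <;> norm_num
    refine (sum_le_sum (fun y _ => this y)).trans ?_
    simp
  | succ l ih =>
    have h1 : ∀ y, (if P G (l + 1) x y then (1 : ℝ) else 0) ≤
        ∑ z, (if P G l x z then (1 : ℝ) else 0) * G.adjMatrix ℝ z y := by
      intro y
      have hnn : ∀ z, 0 ≤ (if P G l x z then (1 : ℝ) else 0) * G.adjMatrix ℝ z y := by
        intro z
        rw [SimpleGraph.adjMatrix_apply]
        split_ifs <;> norm_num
      by_cases h : P G (l + 1) x y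
      · rw [if_pos h]
        rcases h with ⟨h, _⟩ | ⟨b, c, h⟩
        · omega
        · have hc := NW_inv h
          rw [Nat.add_sub_cancel] at hc
          have hadj := h.adj_last
          refine le_trans ?_ (single_le_sum (fun z _ => hnn z) (mem_univ c))
          rw [if_pos hc, SimpleGraph.adjMatrix_apply, if_pos hadj]
          norm_num
      · rw [if_neg h]
        exact sum_nonneg (fun z _ => hnn z)
    refine (sum_le_sum (fun y _ => h1 y)).trans ?_
    rw [sum_comm]
    have h2 : ∀ z, ∑ y, (if P G l x z then (1 : ℝ) else 0) * G.adjMatrix ℝ z y ≤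
        (if P G l x z then (1 : ℝ) else 0) * D := by
      intro z
      rw [← mul_sum]
      apply mul_le_mul_of_nonneg_left
      · have : ∑ y, G.adjMatrix ℝ z y = (G.degree z : ℝ) := by
          simp [SimpleGraph.adjMatrix_apply, ← G.card_neighborFinset_eq_degree,
            G.neighborFinset_eq_filter]
        rw [this]
        exact hD z
      · split_ifs <;> norm_num
    refine (sum_le_sum (fun z _ => h2 z)).trans ?_
    rw [← sum_mul, pow_succ]
    exact mul_le_mul_of_nonneg_right ih hD0

/-- **Frobenius norm of the `k`-th power.** -/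
theorem frob_pow [DecidableEq V] (G : SimpleGraph V) [DecidableRel G.Adj] {k : ℕ}
    (hg : ∀ (v : V) (p : G.Walk v v), p.IsCycle → 2 * k < p.length) (D : ℝ) (hD0 : 0 < D)
    (hD : ∀ x, (G.degree x : ℝ) ≤ D) :
    ∑ x, ∑ y, (((G.adjMatrix ℝ) ^ k) x y) ^ 2 ≤
      Fintype.card V * (((k : ℝ) + 1) ^ 2 * (4 * D) ^ k) := by
  classical
  set s : ℝ := Real.sqrt D with hs
  have hspos : 0 < s := Real.sqrt_pos.2 hD0
  have hs2 : s ^ 2 = D := Real.sq_sqrt hD0.le
  have hrow : ∀ x, ∑ y, (((G.adjMatrix ℝ) ^ k) x y) ^ 2 ≤ ((k : ℝ) + 1) ^ 2 * (4 * D) ^ k := by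
    intro x
    have hnn : ∀ y, 0 ≤ ((G.adjMatrix ℝ) ^ k) x y := by
      intro y
      rw [SimpleGraph.adjMatrix_pow_apply_eq_card_walk]
      exact Nat.cast_nonneg _
    have h1 : ∀ y, (((G.adjMatrix ℝ) ^ k) x y) ^ 2 ≤
        ((k : ℝ) + 1) * ∑ l ∈ range (k + 1),
          (if P G l x y then (1 : ℝ) else 0) * ((2 * s) ^ k / s ^ l) ^ 2 := by
      intro y
      have h2 := walk_bound G hg s hspos (by rw [hs2]; exact hD) x k le_rfl y
      calc (((G.adjMatrix ℝ) ^ k) x y) ^ 2
          ≤ (∑ l ∈ range (k + 1),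
            (if P G l x y then (1 : ℝ) else 0) * ((2 * s) ^ k / s ^ l)) ^ 2 :=
            pow_le_pow_left₀ (hnn y) h2 2
        _ ≤ ((range (k + 1)).card : ℝ) * ∑ l ∈ range (k + 1),
            ((if P G l x y then (1 : ℝ) else 0) * ((2 * s) ^ k / s ^ l)) ^ 2 :=
            sq_sum_le_card_mul_sum_sq
        _ = _ := by
            rw [card_range]
            push_cast
            congr 1
            apply sum_congr rfl
            intro l _
            rw [mul_pow]
            split_ifs <;> simp
    refine (sum_le_sum (fun y _ => h1 y)).trans ?_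
    rw [← mul_sum, sum_comm]
    have h3 : ∀ l ∈ range (k + 1),
        ∑ y, (if P G l x y then (1 : ℝ) else 0) * ((2 * s) ^ k / s ^ l) ^ 2 ≤ (4 * D) ^ k := by
      intro l _
      rw [← sum_mul]
      have h4 := sphere_card G D hD x l
      calc (∑ y, (if P G l x y then (1 : ℝ) else 0)) * ((2 * s) ^ k / s ^ l) ^ 2
          ≤ D ^ l * ((2 * s) ^ k / s ^ l) ^ 2 := mul_le_mul_of_nonneg_right h4 (by positivity)
        _ = (4 * D) ^ k := by
            rw [div_pow, ← pow_mul, ← pow_mul, mul_comm k 2, mul_comm l 2, pow_mul, pow_mul,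
              mul_pow, hs2]
            field_simp
            norm_num
            rw [mul_comm 4 D]
    calc ((k : ℝ) + 1) * ∑ l ∈ range (k + 1), ∑ y,
          (if P G l x y then (1 : ℝ) else 0) * ((2 * s) ^ k / s ^ l) ^ 2
        ≤ ((k : ℝ) + 1) * ∑ l ∈ range (k + 1), (4 * D) ^ k :=
          mul_le_mul_of_nonneg_left (sum_le_sum h3) (by positivity)
      _ = _ := by
          rw [sum_const, card_range, nsmul_eq_mul]
          push_cast
          ring
  refine (sum_le_sum (fun x _ => hrow x)).trans ?_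
  rw [sum_const, card_univ, nsmul_eq_mul]

end Pool.Agent.Q115.GY
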