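import Pool.Agent.Q115.GX3
import Pool.Agent.Q116.ZK.Tail
import Pool.Agent.Q116.ZK.Reg

/-! Near-extremal `K_{s,t}`-free graphs: decomposition into expanders of linear size and bounded
diameter. -/

set_option autoImplicit false

open Finset

namespace Pool.Agent.Q115.GZ

open Q116.KR Q116.ZK Pool.Agent.Q115.GX

theorem one_sub_eq (s : ℕ) (_ : 2 ≤ s) : (2 : ℝ) - 1 / (s : ℝ) = 1 + (1 - 1 / (s : ℝ)) := by ring

theorem alpha_pos {s : ℕ} (hs : 2 ≤ s) : (0 : ℝ) < 1 - 1 / (s : ℝ) := by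
  have h : (2 : ℝ) ≤ s := by exact_mod_cast hs
  have : 1 / (s : ℝ) ≤ 1 / 2 := one_div_le_one_div_of_le (by norm_num) h
  linarith

theorem alpha_half {s : ℕ} (hs : 2 ≤ s) : (1 / 2 : ℝ) ≤ 1 - 1 / (s : ℝ) := by
  have h : (2 : ℝ) ≤ s := by exact_mod_cast hs
  have : 1 / (s : ℝ) ≤ 1 / 2 := one_div_le_one_div_of_le (by norm_num) h
  linarith

/-- A rectangular Kővári–Sós–Turán bound. -/
theorem kst_rect {A : Type} [DecidableEq A] (R : A → A → Prop) [DecidableRel R] {s t : ℕ}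
    (hs : 1 ≤ s) (ht : 1 ≤ t) (hR : NoST R s t) (S T : Finset A)
    (hE : 2 * (s : ℝ) * T.card ≤ ∑ b ∈ T, ((S.filter (fun a => R a b)).card : ℝ)) :
    ((∑ b ∈ T, ((S.filter (fun a => R a b)).card : ℝ)) / 2) ^ s ≤
      (t - 1 : ℕ) * (S.card : ℝ) ^ s * (T.card : ℝ) ^ (s - 1) := by
  classical
  have hR' : NoST (fun (a : A) (b : T) => R a b.1) s t := by
    rintro ⟨a, b, ha, hb, hab⟩
    exact hR ⟨a, fun j => (b j).1, ha, fun i j h => hb (Subtype.ext h), hab⟩
  have e : ∑ b ∈ T, ((S.filter (fun a => R a b)).card : ℝ) =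
      ∑ b : T, ((S.filter (fun a => R a b.1)).card : ℝ) := by
    rw [← Finset.sum_coe_sort T]
  have h := kst_sum (fun (a : A) (b : T) => R a b.1) hs ht hR' S (by
    rw [Fintype.card_coe]
    rw [e] at hE
    convert hE)
  rw [Fintype.card_coe] at h
  rw [e]
  convert h

/-- The hereditary bound for `K_{s,t}`-free graphs. -/
theorem her_kst {V : Type} [Fintype V] [DecidableEq V] (G : SimpleGraph V) [DecidableRel G.Adj]
    {s t : ℕ} (hs : 2 ≤ s) (ht : 1 ≤ t) (hG : (KK s t).Free G) (X : Finset V) :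
    ∑ x ∈ X, ((X.filter (fun y => G.Adj x y)).card : ℝ) ≤
      (2 * s + 2 * t) * (X.card : ℝ) ^ (1 + (1 - 1 / (s : ℝ))) := by
  classical
  have hsw : ∑ x ∈ X, ((X.filter (fun y => G.Adj x y)).card : ℝ) =
      ∑ b ∈ X, ((X.filter (fun a => G.Adj a b)).card : ℝ) := by
    apply sum_congr rfl
    intro x _
    simp only [G.adj_comm x]
  rw [hsw]
  set E : ℝ := ∑ b ∈ X, ((X.filter (fun a => G.Adj a b)).card : ℝ) with hE
  rcases Nat.eq_zero_or_pos X.card with h0 | hpos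
  · have : X = ∅ := card_eq_zero.1 h0
    rw [hE, this, sum_empty]
    positivity
  have hX : (1 : ℝ) ≤ X.card := by exact_mod_cast hpos
  have hX0 : (0 : ℝ) < X.card := by linarith
  have hα := alpha_pos hs
  have hs0 : (0 : ℝ) < s := by
    have : 0 < s := by omega
    exact_mod_cast this
  have ht0 : (0 : ℝ) < t := by exact_mod_cast ht
  have hpow : (X.card : ℝ) ≤ (X.card : ℝ) ^ (1 + (1 - 1 / (s : ℝ))) := by
    calc (X.card : ℝ) = (X.card : ℝ) ^ (1 : ℝ) := (Real.rpow_one _).symm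
      _ ≤ _ := Real.rpow_le_rpow_of_exponent_le hX (by linarith)
  by_cases hlow : E ≤ 2 * s * X.card
  · have : 2 * (s : ℝ) * X.card ≤ 2 * s * (X.card : ℝ) ^ (1 + (1 - 1 / (s : ℝ))) :=
      mul_le_mul_of_nonneg_left hpow (by positivity)
    have h2 : 0 ≤ 2 * (t : ℝ) * (X.card : ℝ) ^ (1 + (1 - 1 / (s : ℝ))) := by positivity
    rw [add_mul]
    linarith
  · push Not at hlow
    have h1 := kst_rect G.Adj (by omega) ht (noST_of_free hG) X X hlow.le
    rw [← hE] at h1
    have hE0 : 0 ≤ E := sum_nonneg (fun _ _ => Nat.cast_nonneg _)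
    have h2 : (E / 2) ^ s ≤ ((t : ℝ) * (X.card : ℝ) ^ (1 + (1 - 1 / (s : ℝ)))) ^ s := by
      refine h1.trans ?_
      rw [mul_pow]
      have e1 : ((X.card : ℝ) ^ (1 + (1 - 1 / (s : ℝ)))) ^ s =
          (X.card : ℝ) ^ s * (X.card : ℝ) ^ (s - 1) := by
        rw [← Real.rpow_natCast, ← Real.rpow_mul hX0.le, ← pow_add, ← Real.rpow_natCast]
        congr 1
        have : ((s + (s - 1) : ℕ) : ℝ) = s + (s - 1) := by
          push_cast [Nat.cast_sub (show 1 ≤ s by omega)]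
          ring
        rw [this]
        field_simp
      rw [e1, ← mul_assoc]
      apply mul_le_mul_of_nonneg_right _ (by positivity)
      apply mul_le_mul_of_nonneg_right _ (by positivity)
      have h3 : ((t - 1 : ℕ) : ℝ) ≤ t := by
        have : t - 1 ≤ t := by omega
        exact_mod_cast this
      have h4 : (t : ℝ) ≤ (t : ℝ) ^ s := by
        have : t ≤ t ^ s := Nat.le_self_pow (by omega) t
        exact_mod_cast this
      linarith
    have h3 : E / 2 ≤ (t : ℝ) * (X.card : ℝ) ^ (1 + (1 - 1 / (s : ℝ))) :=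
      le_of_pow_le_pow_left₀ (by omega) (by positivity) h2
    have h4 : 0 ≤ 2 * (s : ℝ) * (X.card : ℝ) ^ (1 + (1 - 1 / (s : ℝ))) := by positivity
    rw [add_mul]
    linarith

end Pool.Agent.Q115.GZ
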