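import Pool.Agent.Q115.GZ1
import Pool.Agent.Q115.GX4

/-! Near-extremal `K_{s,t}`-free graphs: expanders of bounded diameter; the expander form. -/

set_option autoImplicit false

open Finset

namespace Pool.Agent.Q115.GZ

open Q116.KR Q116.ZK Pool.Agent.Q115.GX

open Classical in
/-- Balls of radius 2 have linear size. -/
theorem ball_two {V : Type} [Fintype V] [DecidableEq V] (G : SimpleGraph V) [DecidableRel G.Adj]
    {s t : ℕ} (hs : 2 ≤ s) (ht : 1 ≤ t) (hG : (KK s t).Free G) (δ : ℝ) (hδ : 0 < δ)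
    (U : Finset V)
    (hdeg : ∀ x ∈ U, δ * (Fintype.card V : ℝ) ^ (1 - 1 / (s : ℝ)) ≤
      ((U.filter (fun y => G.Adj x y)).card : ℝ)) (x : V) (hx : x ∈ U) :
    min (min 1 ((δ / 2) ^ s / t)) (δ ^ 2 / (2 * s)) * (Fintype.card V : ℝ) ≤
      ((U.filter (fun y => Reach G U 2 x y)).card : ℝ) := by
  set n : ℝ := (Fintype.card V : ℝ) with hn
  have hn1 : 1 ≤ n := by
    rw [hn]
    have : 0 < Fintype.card V := Fintype.card_pos_iff.2 ⟨x⟩
    exact_mod_cast this
  have hn0 : 0 < n := by linarith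
  have hs0 : (0 : ℝ) < s := by
    have : 0 < s := by omega
    exact_mod_cast this
  have ht0 : (0 : ℝ) < t := by exact_mod_cast ht
  set D : ℝ := δ * n ^ (1 - 1 / (s : ℝ)) with hD
  have hDpos : 0 < D := by positivity
  set S := U.filter (fun y => G.Adj x y) with hS
  set T := U.filter (fun y => Reach G U 2 x y) with hT
  have hx0 : Reach G U 0 x x := ⟨SimpleGraph.Walk.nil, by simp, by simpa using hx⟩
  have hST : ∀ a ∈ S, (U.filter (fun y => G.Adj a y)) ⊆ T.filter (fun y => G.Adj a y) := by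
    intro a ha y hy
    rw [hS, mem_filter] at ha
    rw [mem_filter] at hy
    rw [mem_filter, hT, mem_filter]
    exact ⟨⟨hy.1, (hx0.step ha.2 ha.1).step hy.2 hy.1⟩, hy.2⟩
  have hScard : D ≤ S.card := hdeg x hx
  have hS0 : (0 : ℝ) < S.card := hDpos.trans_le hScard
  set E : ℝ := ∑ b ∈ T, ((S.filter (fun a => G.Adj a b)).card : ℝ) with hE
  have hEge : (S.card : ℝ) * D ≤ E := by
    have e1 : E = ∑ a ∈ S, ((T.filter (fun b => G.Adj a b)).card : ℝ) := by
      rw [hE]
      simp only [card_filter]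
      push_cast
      rw [sum_comm]
    rw [e1, ← nsmul_eq_mul, ← sum_const]
    apply sum_le_sum
    intro a ha
    refine (hdeg a (mem_filter.1 ha).1).trans ?_
    exact_mod_cast card_le_card (hST a ha)
  have hmul : ∀ a b c : ℝ, min (min a b) c * n ≤ a * n ∧ min (min a b) c * n ≤ b * n ∧
      min (min a b) c * n ≤ c * n := by
    intro a b c
    refine ⟨?_, ?_, ?_⟩ <;> apply mul_le_mul_of_nonneg_right _ hn0.le
    · exact (min_le_left _ _).trans (min_le_left _ _)
    · exact (min_le_left _ _).trans (min_le_right _ _)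
    · exact min_le_right _ _
  by_cases hcase : 2 * (s : ℝ) * T.card ≤ E
  · have h1 := kst_rect G.Adj (by omega) ht (noST_of_free hG) S T hcase
    rw [← hE] at h1
    have h2 : ((S.card : ℝ) * D / 2) ^ s ≤ (E / 2) ^ s :=
      pow_le_pow_left₀ (by positivity) (by linarith) s
    have h3 := h2.trans h1
    have e1 : ((S.card : ℝ) * D / 2) ^ s = (S.card : ℝ) ^ s * ((δ / 2) ^ s * n ^ (s - 1)) := by
      have : (S.card : ℝ) * D / 2 = S.card * (δ / 2 * n ^ (1 - 1 / (s : ℝ))) := by
        rw [hD]; ring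
      rw [this, mul_pow, mul_pow]
      congr 2
      rw [← Real.rpow_natCast, ← Real.rpow_mul hn0.le, ← Real.rpow_natCast]
      congr 1
      rw [Nat.cast_sub (show 1 ≤ s by omega)]
      push_cast
      field_simp
    rw [e1] at h3
    have h4 : (δ / 2) ^ s * n ^ (s - 1) ≤ t * (T.card : ℝ) ^ (s - 1) := by
      have hp : 0 < (S.card : ℝ) ^ s := by positivity
      refine le_of_mul_le_mul_left ?_ hp
      refine h3.trans ?_
      have h5 : ((t - 1 : ℕ) : ℝ) ≤ t := by
        have : t - 1 ≤ t := by omega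
        exact_mod_cast this
      calc ((t - 1 : ℕ) : ℝ) * (S.card : ℝ) ^ s * (T.card : ℝ) ^ (s - 1)
          ≤ t * (S.card : ℝ) ^ s * (T.card : ℝ) ^ (s - 1) := by
            apply mul_le_mul_of_nonneg_right _ (by positivity)
            exact mul_le_mul_of_nonneg_right h5 (by positivity)
        _ = _ := by ring
    set c0 : ℝ := min 1 ((δ / 2) ^ s / t) with hc0
    have hc0pos : 0 < c0 := by positivity
    have hc01 : c0 ≤ 1 := min_le_left _ _
    have h5 : (c0 * n) ^ (s - 1) ≤ (T.card : ℝ) ^ (s - 1) := by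
      rw [mul_pow]
      have h6 : c0 ^ (s - 1) ≤ c0 := by
        calc c0 ^ (s - 1) ≤ c0 ^ 1 := pow_le_pow_of_le_one hc0pos.le hc01 (by omega)
          _ = c0 := pow_one _
      have h7 : c0 ≤ (δ / 2) ^ s / t := min_le_right _ _
      calc c0 ^ (s - 1) * n ^ (s - 1) ≤ (δ / 2) ^ s / t * n ^ (s - 1) :=
            mul_le_mul_of_nonneg_right (h6.trans h7) (by positivity)
        _ = ((δ / 2) ^ s * n ^ (s - 1)) / t := by ring
        _ ≤ _ := by
            rw [div_le_iff₀ ht0]
            linarith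
    have h6 : c0 * n ≤ T.card := le_of_pow_le_pow_left₀ (by omega) (Nat.cast_nonneg _) h5
    refine le_trans ?_ h6
    exact mul_le_mul_of_nonneg_right (min_le_left _ _) hn0.le
  · push Not at hcase
    refine (hmul _ _ _).2.2.trans ?_
    have h1 : D * D ≤ S.card * D := mul_le_mul_of_nonneg_right hScard hDpos.le
    have h2 : δ ^ 2 * n ≤ D * D := by
      have h3 : n ≤ (n ^ (1 - 1 / (s : ℝ))) * (n ^ (1 - 1 / (s : ℝ))) := by
        rw [← Real.rpow_add hn0]
        calc n = n ^ (1 : ℝ) := (Real.rpow_one _).symm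
          _ ≤ _ := Real.rpow_le_rpow_of_exponent_le hn1 (by
              have := alpha_half hs
              linarith)
      calc δ ^ 2 * n ≤ δ ^ 2 * ((n ^ (1 - 1 / (s : ℝ))) * (n ^ (1 - 1 / (s : ℝ)))) :=
            mul_le_mul_of_nonneg_left h3 (by positivity)
        _ = D * D := by rw [hD]; ring
    rw [div_mul_eq_mul_div, div_le_iff₀ (by positivity)]
    linarith

/-- **Decomposition of near-extremal `K_{s,t}`-free graphs.** -/
theorem kst_decomp (s t : ℕ) (hs : 2 ≤ s) (ht : 1 ≤ t) (c ε : ℝ) (hc : 0 < c) (hε : 0 < ε) :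
    ∃ η : ℝ, 0 < η ∧ ∃ D : ℕ, ∀ (V : Type) [Fintype V] [DecidableEq V] (G : SimpleGraph V)
      [DecidableRel G.Adj], (KK s t).Free G →
      c * (Fintype.card V : ℝ) ^ (2 - 1 / (s : ℝ)) ≤ (G.edgeFinset.card : ℝ) →
      ∃ Ps : Finset (Finset V), (∀ U ∈ Ps, ∀ W ∈ Ps, U ≠ W → Disjoint U W) ∧
        (1 - ε) * (2 * (G.edgeFinset.card : ℝ)) ≤
          (∑ U ∈ Ps, ∑ x ∈ U, ((U.filter (fun y => G.Adj x y)).card : ℝ)) ∧
        ∀ U ∈ Ps, 2 ≤ U.card ∧ η * (Fintype.card V : ℝ) ≤ (U.card : ℝ) ∧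
          (∀ x ∈ U, η * (Fintype.card V : ℝ) ^ (1 - 1 / (s : ℝ)) ≤
              ((U.filter (fun y => G.Adj x y)).card : ℝ) ∧
            (G.degree x : ℝ) ≤ η⁻¹ * (Fintype.card V : ℝ) ^ (1 - 1 / (s : ℝ))) ∧
          (∀ S ⊆ U, 2 * S.card ≤ U.card →
            η * (Fintype.card V : ℝ) ^ (1 - 1 / (s : ℝ)) * S.card ≤
              ∑ x ∈ S, (((U \ S).filter (fun y => G.Adj x y)).card : ℝ)) ∧
          ∀ x ∈ U, ∀ y ∈ U, ∃ p : G.Walk x y, p.length ≤ D ∧ ∀ z ∈ p.support, z ∈ U := by
  have hα := alpha_pos hs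
  have hs0 : (0 : ℝ) < s := by
    have : 0 < s := by omega
    exact_mod_cast this
  have ht0 : (0 : ℝ) < t := by exact_mod_cast ht
  obtain ⟨η, hη, hmain⟩ := decomp (1 - 1 / (s : ℝ)) (2 * s + 2 * t) (2 * c) ε hα (by positivity)
    (by linarith) hε
  have hγ : 1 < 1 + η ^ 2 := by have : 0 < η ^ 2 := by positivity
                                linarith
  set c1 : ℝ := min (min 1 ((η / 2) ^ s / t)) (η ^ 2 / (2 * s)) with hc1
  have hc1pos : 0 < c1 := by positivity
  obtain ⟨J, hJ⟩ := pow_unbounded_of_one_lt (c1⁻¹) hγ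
  have hJ' : 1 < (1 + η ^ 2) ^ J * c1 := by
    calc (1 : ℝ) = c1⁻¹ * c1 := (inv_mul_cancel₀ hc1pos.ne').symm
      _ < _ := mul_lt_mul_of_pos_right hJ hc1pos
  refine ⟨η, hη, 2 * (2 + J), ?_⟩
  intro V _ _ G _ hfree hsize
  have hdegeq : ∀ x, ((univ.filter (fun y => G.Adj x y)).card : ℝ) = (G.degree x : ℝ) := by
    intro x
    rw [← G.card_neighborFinset_eq_degree, G.neighborFinset_eq_filter]
  have hsumdeg : ∑ x, ((univ.filter (fun y => G.Adj x y)).card : ℝ) =
      2 * (G.edgeFinset.card : ℝ) := by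
    have : 2 * (G.edgeFinset.card : ℝ) = ∑ v, (G.degree v : ℝ) := by
      rw [← Nat.cast_sum, G.sum_degrees_eq_twice_card_edges]
      push_cast
      rfl
    rw [this]
    exact sum_congr rfl (fun x _ => hdegeq x)
  obtain ⟨Ps, hP1, hP2, hP3⟩ := hmain V G (fun X => her_kst G hs ht hfree X)
    (by rw [hsumdeg, ← one_sub_eq s hs]; linarith)
  rw [hsumdeg] at hP2
  refine ⟨Ps, hP1, hP2, ?_⟩
  intro U hU
  obtain ⟨q1, q2, q3, q4⟩ := hP3 U hU
  refine ⟨q2, q1, fun x hx => ⟨(q3 x hx).1, by rw [← hdegeq]; exact (q3 x hx).2⟩, q4, ?_⟩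
  set n : ℝ := (Fintype.card V : ℝ) with hn
  have key : ∀ x ∈ U, ∀ [DecidablePred (fun y => Reach G U (2 + J) x y)],
      U.card < 2 * (U.filter (fun y => Reach G U (2 + J) x y)).card := by
    classical
    intro x hx _
    have hn1 : 1 ≤ n := by
      rw [hn]
      have : 0 < Fintype.card V := Fintype.card_pos_iff.2 ⟨x⟩
      exact_mod_cast this
    have hnpos : 0 < n := by linarith
    set r : ℝ := n ^ (1 - 1 / (s : ℝ)) with hr
    have hrpos : 0 < r := by positivity
    have hlamD : η * r / (η⁻¹ * r) = η ^ 2 := by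
      field_simp
    have h1 := ball_growth G U (η * r) (η⁻¹ * r) (by positivity) (by positivity)
      (fun y hy => (q3 y hy).2) q4 x 2 J
    rcases h1 with h1 | h1
    · convert h1
    · exfalso
      have h2 := ball_two G hs ht hfree η hη U (fun y hy => (q3 y hy).1) x hx
      rw [hlamD] at h1
      have h5 : ((U.filter (fun y => Reach G U (2 + J) x y)).card : ℝ) ≤ n := by
        rw [hn]
        exact_mod_cast card_le_univ _
      have h6 : (1 + η ^ 2) ^ J * (c1 * n) ≤ n := by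
        calc (1 + η ^ 2) ^ J * (c1 * n)
            ≤ (1 + η ^ 2) ^ J * ((U.filter (fun y => Reach G U 2 x y)).card : ℝ) :=
              mul_le_mul_of_nonneg_left h2 (by positivity)
          _ ≤ _ := h1
          _ ≤ n := by convert h5
      rw [← mul_assoc] at h6
      have h7 : 1 * n < (1 + η ^ 2) ^ J * c1 * n := mul_lt_mul_of_pos_right hJ' hnpos
      linarith
  intro x hx y hy
  classical
  have k1 := key x hx
  have k2 := key y hy
  have : ((U.filter (fun z => Reach G U (2 + J) x z)) ∩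
      (U.filter (fun z => Reach G U (2 + J) y z))).Nonempty := by
    rw [nonempty_iff_ne_empty]
    intro hemp
    have hdis := disjoint_iff_inter_eq_empty.2 hemp
    have h1 := card_union_of_disjoint hdis
    have h2 : ((U.filter (fun z => Reach G U (2 + J) x z)) ∪
      (U.filter (fun z => Reach G U (2 + J) y z))).card ≤ U.card :=
      card_le_card (union_subset (filter_subset _ _) (filter_subset _ _))
    omega
  obtain ⟨z, hz⟩ := this
  rw [mem_inter, mem_filter, mem_filter] at hz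
  obtain ⟨p, hp, hp'⟩ := hz.1.2.trans hz.2.2
  exact ⟨p, by omega, hp'⟩

end Pool.Agent.Q115.GZ
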