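import Pool.Agent.Q115.GZ2

/-! The expander form of the order of magnitude problem for `ex (n, K_{s,t})`. -/

set_option autoImplicit false

open Finset

namespace Pool.Agent.Q115.GZ

open Q116.KR Q116.ZK Pool.Agent.Q115.GX

/-- An induced subgraph as a graph on `Fin m`. -/
theorem transport {n : ℕ} (G : SimpleGraph (Fin n)) [DecidableRel G.Adj] (U : Finset (Fin n))
    (d D : ℝ) (L : ℕ)
    (hdeg : ∀ x ∈ U, d ≤ ((U.filter (fun y => G.Adj x y)).card : ℝ) ∧ (G.degree x : ℝ) ≤ D)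
    (hexp : ∀ S ⊆ U, 2 * S.card ≤ U.card →
      d * S.card ≤ ∑ x ∈ S, (((U \ S).filter (fun y => G.Adj x y)).card : ℝ))
    (hwalk : ∀ x ∈ U, ∀ y ∈ U, ∃ p : G.Walk x y, p.length ≤ L ∧ ∀ z ∈ p.support, z ∈ U) :
    ∃ G' : SimpleGraph (Fin U.card), Nonempty (G' ↪g G) ∧
      (∀ x, d ≤ ((G'.neighborSet x).ncard : ℝ) ∧ ((G'.neighborSet x).ncard : ℝ) ≤ D) ∧
      (∀ S : Finset (Fin U.card), 2 * S.card ≤ U.card →
        d * S.card ≤ ∑ x ∈ S, ((G'.neighborSet x \ (S : Set (Fin U.card))).ncard : ℝ)) ∧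
      ∀ x y, ∃ p : G'.Walk x y, p.length ≤ L := by
  classical
  set φ := U.orderEmbOfFin rfl with hφ
  have hφU : ∀ i, φ i ∈ U := fun i => U.orderEmbOfFin_mem rfl i
  have hrange : ∀ y ∈ U, ∃ j, φ j = y := by
    intro y hy
    have : y ∈ Set.range φ := by
      rw [hφ, range_orderEmbOfFin]
      exact hy
    exact this
  have hnb : ∀ (i : Fin U.card) (S : Finset (Fin U.card)),
      ((G.comap φ).neighborSet i \ (S : Set (Fin U.card))).ncard =
        ((U \ S.image φ).filter fun y => G.Adj (φ i) y).card := by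
    intro i S
    have e : φ '' ((G.comap φ).neighborSet i \ (S : Set (Fin U.card))) =
        (((U \ S.image φ).filter fun y => G.Adj (φ i) y : Finset _) : Set (Fin n)) := by
      ext y
      simp only [Set.mem_image, Set.mem_sdiff, SimpleGraph.mem_neighborSet, SimpleGraph.comap_adj,
        coe_filter, mem_sdiff, mem_image, mem_coe, not_exists, not_and, Set.mem_ofPred_eq]
      constructor
      · rintro ⟨j, ⟨hj, hjS⟩, rfl⟩
        refine ⟨⟨hφU j, ?_⟩, hj⟩
        intro l hl hlj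
        exact hjS (φ.injective hlj ▸ hl)
      · rintro ⟨⟨hy, hyS⟩, hadj⟩
        obtain ⟨j, rfl⟩ := hrange y hy
        exact ⟨j, ⟨hadj, fun hj => hyS j hj rfl⟩, rfl⟩
    rw [← Set.ncard_image_of_injective _ φ.injective, e, Set.ncard_coe_finset]
  have hnb0 : ∀ i : Fin U.card, ((G.comap φ).neighborSet i).ncard =
      (U.filter fun y => G.Adj (φ i) y).card := by
    intro i
    have := hnb i ∅
    simpa using this
  refine ⟨G.comap φ, ⟨SimpleGraph.Embedding.comap φ.toEmbedding G⟩, fun i => ⟨?_, ?_⟩, ?_, ?_⟩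
  · rw [hnb0]
    exact (hdeg _ (hφU i)).1
  · rw [hnb0]
    refine le_trans ?_ (hdeg _ (hφU i)).2
    rw [← G.card_neighborFinset_eq_degree]
    apply Nat.cast_le.2
    apply card_le_card
    intro y hy
    rw [mem_filter] at hy
    simpa using hy.2
  · intro S hS
    have hc : (S.image φ).card = S.card := card_image_of_injective _ φ.injective
    have h1 := hexp (S.image φ) (by
      intro y hy
      rw [mem_image] at hy
      obtain ⟨j, _, rfl⟩ := hy
      exact hφU j) (by rw [hc]; exact hS)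
    rw [hc, sum_image (fun a _ b _ h => φ.injective h)] at h1
    simp only [hnb]
    exact h1
  · intro i j
    obtain ⟨p, hp, hp'⟩ := hwalk (φ i) (hφU i) (φ j) (hφU j)
    obtain ⟨q, hq⟩ := lift_walk G φ φ.injective _ _ p (fun z hz => by
      obtain ⟨l, hl⟩ := hrange z (hp' z hz)
      exact ⟨l, hl⟩) i j rfl rfl
    exact ⟨q, by omega⟩

/-- The expander form of the problem for `K_{s,t}`. -/
def ExpForm (s t : ℕ) : Prop :=
  ∃ C : ℝ, ∀ d : ℕ, 1 ≤ d → ∃ (m : ℕ) (G : SimpleGraph (Fin m)), 0 < m ∧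
    (m : ℝ) ≤ C * (d : ℝ) ^ ((s : ℝ) / (s - 1)) ∧
    (completeBipartiteGraph (Fin s) (Fin t)).Free G ∧
    (∀ x, (d : ℝ) ≤ ((G.neighborSet x).ncard : ℝ) ∧ ((G.neighborSet x).ncard : ℝ) ≤ C * d) ∧
    (∀ S : Finset (Fin m), 2 * S.card ≤ m →
      (d : ℝ) * S.card ≤ ∑ x ∈ S, ((G.neighborSet x \ (S : Set (Fin m))).ncard : ℝ)) ∧
    ∀ x y, ∃ p : G.Walk x y, (p.length : ℝ) ≤ C

theorem expForm_of_LB {s t : ℕ} (hs : 2 ≤ s) (ht : 1 ≤ t) (h : LB s t s) : ExpForm s t := by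
  classical
  obtain ⟨c, hc, h⟩ := h
  obtain ⟨N, hN⟩ := Filter.eventually_atTop.1 h
  have hα := alpha_pos hs
  have hs2 : (2 : ℝ) ≤ s := by exact_mod_cast hs
  have hs0 : (0 : ℝ) < s := by linarith
  set α : ℝ := 1 - 1 / (s : ℝ) with hαdef
  have hαinv : (s : ℝ) / (s - 1) = 1 / α := by
    rw [hαdef]
    have : (s : ℝ) - 1 ≠ 0 := by linarith
    field_simp
  have hα1 : α ≤ 1 := by
    rw [hαdef]
    have : 0 < 1 / (s : ℝ) := by positivity
    linarith
  obtain ⟨η, hη, D, hmain⟩ := kst_decomp s t hs ht c (1 / 2) hc (by norm_num)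
  obtain ⟨τ, hτ⟩ := exists_nat_ge (max (1 / η) (N + 1 : ℝ))
  have hτ1 : 1 / η ≤ (τ : ℝ) := (le_max_left _ _).trans hτ
  have hτ2 : (N : ℝ) + 1 ≤ τ := (le_max_right _ _).trans hτ
  have hτpos : (0 : ℝ) < τ := by
    have : (0 : ℝ) ≤ N := Nat.cast_nonneg _
    linarith
  have hτge1 : (1 : ℝ) ≤ τ := by
    have : (0 : ℝ) ≤ N := Nat.cast_nonneg _
    linarith
  have hητ : 1 ≤ η * τ := by
    rw [div_le_iff₀ hη] at hτ1
    linarith
  refine ⟨max (max (2 * (τ : ℝ) ^ (1 / α)) (2 * η⁻¹ * τ)) D, fun d hd => ?_⟩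
  have hd1 : (1 : ℝ) ≤ d := by exact_mod_cast hd
  have hd0 : (0 : ℝ) < d := by linarith
  have hτd : (1 : ℝ) ≤ τ * d := by nlinarith
  set ρ : ℝ := (τ * d : ℝ) ^ (1 / α) with hρ
  have hρ1 : 1 ≤ ρ := Real.one_le_rpow hτd (by positivity)
  have hρτ : (τ : ℝ) * d ≤ ρ := by
    calc (τ : ℝ) * d = (τ * d : ℝ) ^ (1 : ℝ) := (Real.rpow_one _).symm
      _ ≤ ρ := Real.rpow_le_rpow_of_exponent_le hτd (by
          rw [le_div_iff₀ hα]; linarith)
  set n : ℕ := ⌈ρ⌉₊ with hn
  have hρn : ρ ≤ n := Nat.le_ceil _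
  have hn2 : (n : ℝ) ≤ 2 * ρ := by
    have := Nat.ceil_lt_add_one (by linarith : 0 ≤ ρ)
    linarith
  have hnpos : (0 : ℝ) < n := by linarith
  have hnN : N ≤ n := by
    have h1 : (N : ℝ) ≤ n := by nlinarith
    exact_mod_cast h1
  have hρα : ρ ^ α = τ * d := by
    rw [hρ, ← Real.rpow_mul (by positivity), one_div_mul_cancel hα.ne', Real.rpow_one]
  have hnα1 : τ * d ≤ (n : ℝ) ^ α := by
    rw [← hρα]
    exact Real.rpow_le_rpow (by linarith) hρn hα.le
  have hnα2 : (n : ℝ) ^ α ≤ 2 * (τ * d) := by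
    calc (n : ℝ) ^ α ≤ (2 * ρ) ^ α := Real.rpow_le_rpow hnpos.le hn2 hα.le
      _ = (2 : ℝ) ^ α * ρ ^ α := Real.mul_rpow (by norm_num) (by linarith)
      _ ≤ 2 * (τ * d) := by
          rw [hρα]
          apply mul_le_mul_of_nonneg_right _ (by positivity)
          calc (2 : ℝ) ^ α ≤ (2 : ℝ) ^ (1 : ℝ) :=
                Real.rpow_le_rpow_of_exponent_le (by norm_num) hα1
            _ = 2 := Real.rpow_one _
  obtain ⟨G, hG, hGE⟩ := exists_graph' (n := n) (m := n) (KK_ne_bot' (s := s) (t := t) (by omega) ht)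
  have hcard : ((Fintype.card (Fin n) : ℕ) : ℝ) = n := by rw [Fintype.card_fin]
  have hedge : (G.edgeFinset.card : ℝ) = (G.edgeSet.ncard : ℝ) := by
    rw [← SimpleGraph.coe_edgeFinset, Set.ncard_coe_finset]
  have hEn : c * (n : ℝ) ^ (2 - 1 / (s : ℝ)) ≤ (G.edgeFinset.card : ℝ) := by
    rw [hedge, hGE]
    exact hN n hnN
  obtain ⟨Ps, hP1, hP2, hP3⟩ := hmain (Fin n) G hG (by rw [hcard]; exact hEn)
  have hEpos : 0 < (G.edgeFinset.card : ℝ) := lt_of_lt_of_le (by positivity) hEn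
  have hPne : Ps.Nonempty := by
    rw [nonempty_iff_ne_empty]
    rintro rfl
    rw [sum_empty] at hP2
    linarith
  obtain ⟨U, hU⟩ := hPne
  obtain ⟨q0, q1, q2, q3, q4⟩ := hP3 U hU
  rw [hcard] at q1 q2 q3
  obtain ⟨G', ⟨e⟩, r1, r2, r3⟩ := transport G U d (η⁻¹ * (n : ℝ) ^ α) D
    (fun x hx => ⟨by
      refine le_trans ?_ (q2 x hx).1
      calc (d : ℝ) ≤ η * τ * d := by nlinarith
        _ = η * (τ * d) := by ring
        _ ≤ _ := mul_le_mul_of_nonneg_left hnα1 hη.le, (q2 x hx).2⟩)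
    (fun S hS hh => by
      refine le_trans ?_ (q3 S hS hh)
      apply mul_le_mul_of_nonneg_right _ (Nat.cast_nonneg _)
      calc (d : ℝ) ≤ η * τ * d := by nlinarith
        _ = η * (τ * d) := by ring
        _ ≤ _ := mul_le_mul_of_nonneg_left hnα1 hη.le) q4
  refine ⟨U.card, G', by omega, ?_, ?_, fun x => ⟨(r1 x).1, ?_⟩, r2, ?_⟩
  · have h1 : U.card ≤ n := by
      have := card_le_univ U
      rwa [Fintype.card_fin] at this
    rw [hαinv]
    calc (U.card : ℝ) ≤ n := by exact_mod_cast h1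
      _ ≤ 2 * ρ := hn2
      _ = 2 * (τ : ℝ) ^ (1 / α) * (d : ℝ) ^ (1 / α) := by
          rw [hρ, Real.mul_rpow hτpos.le hd0.le]; ring
      _ ≤ _ := mul_le_mul_of_nonneg_right ((le_max_left _ _).trans (le_max_left _ _))
        (by positivity)
  · intro hcon
    exact hG (hcon.trans ⟨e.toCopy⟩)
  · refine (r1 x).2.trans ?_
    calc η⁻¹ * (n : ℝ) ^ α ≤ η⁻¹ * (2 * (τ * d)) :=
          mul_le_mul_of_nonneg_left hnα2 (by positivity)
      _ = 2 * η⁻¹ * τ * d := by ring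
      _ ≤ _ := mul_le_mul_of_nonneg_right ((le_max_right _ _).trans (le_max_left _ _)) hd0.le
  · intro x y
    obtain ⟨p, hp⟩ := r3 x y
    refine ⟨p, ?_⟩
    refine le_trans ?_ (le_max_right _ _)
    exact_mod_cast hp

theorem LB_of_expForm {s t : ℕ} (hs : 2 ≤ s) (ht : 1 ≤ t) (h : ExpForm s t) : LB s t s := by
  classical
  obtain ⟨C, hC⟩ := h
  have hC0 : 0 < C := by
    obtain ⟨m, I, hm, hm2, -⟩ := hC 1 le_rfl
    have : (0 : ℝ) < m := by exact_mod_cast hm
    simp at hm2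
    linarith
  have hα := alpha_pos hs
  have hs2 : (2 : ℝ) ≤ s := by exact_mod_cast hs
  have hs0 : (0 : ℝ) < s := by linarith
  have ht0 : (0 : ℝ) < t := by exact_mod_cast ht
  set α : ℝ := 1 - 1 / (s : ℝ) with hαdef
  have hαinv : (s : ℝ) / (s - 1) = 1 / α := by
    rw [hαdef]
    have : (s : ℝ) - 1 ≠ 0 := by linarith
    field_simp
  set B : ℝ := 2 * s + 2 * t with hB
  have hBpos : 0 < B := by positivity
  refine ⟨(1 / B) ^ (1 / α) * ((1 / 2) ^ (1 + 1 / α) * (1 / (2 * C)) ^ (1 + α)), by positivity, ?_⟩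
  filter_upwards [Filter.eventually_ge_atTop ⌈2 * C⌉₊] with n hn
  have hnC : 2 * C ≤ n := (Nat.le_ceil _).trans (by exact_mod_cast hn)
  have hn0 : (0 : ℝ) < n := by linarith
  set ρ : ℝ := (n / (2 * C)) ^ α with hρ
  have hbase : 1 ≤ n / (2 * C) := by rw [le_div_iff₀ (by positivity)]; linarith
  have hρ1 : 1 ≤ ρ := Real.one_le_rpow hbase hα.le
  have hρk : ρ ^ (1 / α) = n / (2 * C) := by
    rw [hρ, ← Real.rpow_mul (by positivity)]
    have : α * (1 / α) = 1 := by field_simp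
    rw [this, Real.rpow_one]
  set d : ℕ := ⌊ρ⌋₊ with hd
  have hd1 : 1 ≤ d := by
    rw [hd, Nat.le_floor_iff (by linarith)]
    exact_mod_cast hρ1
  have hdr : (d : ℝ) ≤ ρ := Nat.floor_le (by linarith)
  have hdr2 : 1 / 2 * ρ ≤ d := by
    have h1 : ρ < d + 1 := Nat.lt_floor_add_one ρ
    have h2 : (1 : ℝ) ≤ d := by exact_mod_cast hd1
    linarith
  have hdpos : (0 : ℝ) < d := by exact_mod_cast hd1
  obtain ⟨m, G, hm, hmC, hfree, hdeg, -, -⟩ := hC d hd1
  have hmpos : (0 : ℝ) < m := by exact_mod_cast hm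
  have hmn : (m : ℝ) ≤ n / 2 := by
    rw [hαinv] at hmC
    calc (m : ℝ) ≤ C * (d : ℝ) ^ (1 / α) := hmC
      _ ≤ C * ρ ^ (1 / α) := by
          apply mul_le_mul_of_nonneg_left _ hC0.le
          exact Real.rpow_le_rpow hdpos.le hdr (by positivity)
      _ = n / 2 := by rw [hρk]; field_simp
  have hmn' : Fintype.card (Fin m) + Fintype.card (Fin m) ≤ n := by
    rw [Fintype.card_fin]
    have : (m : ℝ) + m ≤ n := by linarith
    exact_mod_cast this
  have hext := ext_of_rel' G.Adj (by omega) ht (noST_of_free hfree)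
    (NoST.symm_of_symm (noST_of_free hfree)) hmn'
  -- number of ones
  have hrow : ∀ x : Fin m, (d : ℝ) ≤ ((univ.filter (fun y => G.Adj x y)).card : ℝ) := by
    intro x
    refine (hdeg x).1.trans (le_of_eq ?_)
    rw [← Set.ncard_coe_finset]
    congr 2
    ext y
    simp
  have hcnt : (m : ℝ) * d ≤ cnt G.Adj := by
    unfold cnt
    calc (m : ℝ) * d = ∑ b : Fin m, (d : ℝ) := by
          rw [sum_const, card_univ, Fintype.card_fin, nsmul_eq_mul]
      _ ≤ ∑ b : Fin m, ∑ a : Fin m, (if G.Adj a b then (1 : ℝ) else 0) := by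
          apply sum_le_sum
          intro b _
          rw [sum_boole]
          refine (hrow b).trans (le_of_eq ?_)
          congr 2
          ext y
          simp [G.adj_comm]
      _ = _ := by
          apply sum_congr rfl
          intro b _
          apply sum_congr rfl
          intro a _
          congr
  -- lower bound for `m`
  have hher := her_kst G hs ht hfree univ
  rw [card_univ, Fintype.card_fin, ← hαdef] at hher
  have hmd : (m : ℝ) * d ≤ B * (m : ℝ) ^ (1 + α) := by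
    refine le_trans ?_ hher
    calc (m : ℝ) * d = ∑ b : Fin m, (d : ℝ) := by
          rw [sum_const, card_univ, Fintype.card_fin, nsmul_eq_mul]
      _ ≤ _ := sum_le_sum (fun x _ => hrow x)
  have hdm : (d : ℝ) / B ≤ (m : ℝ) ^ α := by
    rw [Real.rpow_add hmpos, Real.rpow_one] at hmd
    rw [div_le_iff₀ hBpos]
    have : (m : ℝ) * d ≤ m * ((m : ℝ) ^ α * B) := by linarith
    exact le_of_mul_le_mul_left this hmpos
  have hmlow : ((d : ℝ) / B) ^ (1 / α) ≤ m := by
    have := Real.rpow_le_rpow (by positivity) hdm (show (0 : ℝ) ≤ 1 / α by positivity)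
    rwa [← Real.rpow_mul hmpos.le, mul_one_div_cancel hα.ne', Real.rpow_one] at this
  refine le_trans ?_ hext
  refine le_trans ?_ hcnt
  have h2α : (2 : ℝ) - 1 / (s : ℝ) = 1 + α := by rw [hαdef]; ring
  rw [h2α]
  calc (1 / B) ^ (1 / α) * ((1 / 2) ^ (1 + 1 / α) * (1 / (2 * C)) ^ (1 + α)) * (n : ℝ) ^ (1 + α)
      = (1 / B) ^ (1 / α) * ((1 / 2) ^ (1 + 1 / α) * (n / (2 * C)) ^ (1 + α)) := by
        rw [div_eq_mul_one_div (n : ℝ) (2 * C), Real.mul_rpow hn0.le (by positivity)]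
        ring
    _ = (1 / B) ^ (1 / α) * (1 / 2 * ρ) ^ (1 + 1 / α) := by
        rw [Real.mul_rpow (by norm_num) (by linarith)]
        congr 2
        rw [hρ, ← Real.rpow_mul (by positivity)]
        congr 1
        field_simp
        ring
    _ ≤ (1 / B) ^ (1 / α) * (d : ℝ) ^ (1 + 1 / α) := by
        apply mul_le_mul_of_nonneg_left _ (by positivity)
        exact Real.rpow_le_rpow (by positivity) hdr2 (by positivity)
    _ = ((d : ℝ) / B) ^ (1 / α) * d := by
        rw [Real.rpow_add hdpos, Real.rpow_one, div_eq_mul_one_div (d : ℝ) B,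
          Real.mul_rpow hdpos.le (by positivity)]
        ring
    _ ≤ m * d := mul_le_mul_of_nonneg_right hmlow hdpos.le

theorem LB_iff_expForm {s t : ℕ} (hs : 2 ≤ s) (ht : 1 ≤ t) : LB s t s ↔ ExpForm s t :=
  ⟨expForm_of_LB hs ht, LB_of_expForm hs ht⟩

end Pool.Agent.Q115.GZ
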