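import Pool.Agent.W296.HL3
import Pool.Agent.Results.MP_a08d0a_co.SmoothedLevel

/-! Bisectors of a set of points and crossings of the middle level of the dual lines. -/

set_option autoImplicit false

namespace Pool.Agent.Q115.HLBase

open Finset Pool.Agent.H189R2.Lev
open Pool.Agent.W296.HL (Line GeneralPosition IsBisector)
open Pool.Agent.Results.MP_a08d0a_co.SmoothedLevel (Simple crossings)

variable {n : ℕ} {a B : Fin n → ℝ}

/-- the points `(a i, B i)` -/
def pts (a B : Fin n → ℝ) (i : Fin n) : ℝ × ℝ := (a i, B i)

lemma pts_inj (ha : Function.Injective a) : Function.Injective (pts a B) := by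
  intro i j h
  exact ha (Prod.ext_iff.mp h).1

lemma mem_line_pts (i : Fin n) (x y : ℝ) : pts a B i ∈ Line x 1 y ↔ ht a B i x = y := by
  unfold pts Line ht
  simp only [Set.mem_ofPred_eq]
  constructor <;> intro h <;> linarith

lemma gp (ha : Function.Injective a) (hS : Simple a B) :
    GeneralPosition (univ.image (pts a B)) := by
  intro α β γ hαβ p hp q hq r hr hpq hpr hqr hcon
  rw [mem_image] at hp hq hr
  obtain ⟨i, -, rfl⟩ := hp
  obtain ⟨j, -, rfl⟩ := hq
  obtain ⟨l, -, rfl⟩ := hr
  have hij : i ≠ j := fun h => hpq (by rw [h])
  have hil : i ≠ l := fun h => hpr (by rw [h])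
  have hjl : j ≠ l := fun h => hqr (by rw [h])
  obtain ⟨h1, h2, h3⟩ := hcon
  simp only [Line, pts, Set.mem_ofPred_eq] at h1 h2 h3
  by_cases hβ : β = 0
  · rw [hβ] at h1 h2 hαβ
    have hα : α ≠ 0 := by
      rcases hαβ with h | h
      · exact h
      · exact absurd rfl h
    have : a i = a j := mul_left_cancel₀ hα (by linarith)
    exact hij (ha this)
  · apply hS.2 i j l hij hil hjl
    refine ⟨α / β, ?_, ?_⟩
    · unfold ht
      field_simp
      linarith
    · unfold ht
      field_simp
      linarith

/-- the indices on the line through two points of a simple family -/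
lemma on_line (hS : Simple a B) {i j : Fin n} (hij : i ≠ j) {x : ℝ} (hx : ht a B i x = ht a B j x)
    (l : Fin n) : ht a B l x = ht a B i x ↔ l = i ∨ l = j := by
  constructor
  · intro h
    by_contra hcon
    push Not at hcon
    exact hS.2 i j l hij (Ne.symm hcon.1) (Ne.symm hcon.2) ⟨x, hx, h.symm⟩
  · rintro (rfl | rfl)
    · rfl
    · exact hx.symm

open scoped Classical in
lemma count (hS : Simple a B) {i j : Fin n} (hij : i ≠ j) {x : ℝ}
    (hx : ht a B i x = ht a B j x) :
    (univ.filter (fun l => ht a B i x < ht a B l x)).card +
      (univ.filter (fun l => ht a B l x < ht a B i x)).card + 2 = n := by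
  have h1 := Finset.card_filter_add_card_filter_not (s := (univ : Finset (Fin n)))
    (fun l => ht a B i x < ht a B l x)
  have h2 := Finset.card_filter_add_card_filter_not
    (s := univ.filter (fun l => ¬ ht a B i x < ht a B l x))
    (fun l => ht a B l x < ht a B i x)
  have h3 : (univ.filter (fun l => ¬ ht a B i x < ht a B l x)).filter
      (fun l => ht a B l x < ht a B i x) = univ.filter (fun l => ht a B l x < ht a B i x) := by
    ext l
    simp only [mem_filter, mem_univ, true_and, not_lt]
    exact ⟨fun h => h.2, fun h => ⟨h.le, h⟩⟩
  have h4 : (univ.filter (fun l => ¬ ht a B i x < ht a B l x)).filter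
      (fun l => ¬ ht a B l x < ht a B i x) = {i, j} := by
    ext l
    simp only [mem_filter, mem_univ, true_and, not_lt, mem_insert, mem_singleton]
    rw [← on_line hS hij hx l]
    constructor
    · rintro ⟨h5, h6⟩
      exact le_antisymm h5 h6
    · intro h
      exact ⟨h.le, h.ge⟩
  rw [h3, h4, card_pair hij] at h2
  simp only [card_univ, Fintype.card_fin] at h1
  omega

lemma cr_eq {i j : Fin n} (h : a i ≠ a j) : ht a B i (cr a B i j) = ht a B j (cr a B i j) := by
  have h' : a i - a j ≠ 0 := sub_ne_zero.mpr h
  unfold ht cr
  field_simp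
  ring

lemma cr_unique {i j : Fin n} (h : a i ≠ a j) {x : ℝ} (hx : ht a B i x = ht a B j x) :
    x = cr a B i j := by
  have h' : a i - a j ≠ 0 := sub_ne_zero.mpr h
  unfold cr
  rw [eq_div_iff h']
  unfold ht at hx
  linarith

open scoped Classical in
lemma card_img (ha : Function.Injective a) (s : ℝ × ℝ → Prop) :
    ((univ.image (pts a B)).filter s).card = (univ.filter (fun l => s (pts a B l))).card := by
  rw [Finset.filter_image, Finset.card_image_of_injective _ (pts_inj ha)]

/-- the line through the points of a pair -/
noncomputable def lin (a B : Fin n → ℝ) (q : Fin n × Fin n) : Set (ℝ × ℝ) :=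
  Line (cr a B q.1 q.2) 1 (ht a B q.1 (cr a B q.1 q.2))

open scoped Classical in
/-- for an even number of points in general position the bisectors are the lines through the pairs
with exactly `n / 2 - 1` points below -/
theorem bis_eq (ha : Function.Injective a) (hS : Simple a B) (hn : Even n) :
    {L | IsBisector (univ.image (pts a B)) L}.ncard = (crossings a B (n / 2 - 1)).ncard := by
  have hcard : (univ.image (pts a B)).card = n := by
    rw [Finset.card_image_of_injective _ (pts_inj ha)]; simp
  have key : {L | IsBisector (univ.image (pts a B)) L} = lin a B '' crossings a B (n / 2 - 1) := by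
    ext L
    constructor
    · rintro ⟨α, β, γ, hαβ, rfl, ⟨p, hp, q, hq, hpq, hpL, hqL⟩, h1, h2⟩
      rw [hcard] at h1 h2
      obtain ⟨i, -, rfl⟩ := mem_image.mp hp
      obtain ⟨j, -, rfl⟩ := mem_image.mp hq
      have hij : i ≠ j := fun h => hpq (by rw [h])
      have haij : a i ≠ a j := fun h => hij (ha h)
      simp only [Line, pts, Set.mem_ofPred_eq] at hpL hqL
      have hβ : β ≠ 0 := by
        intro h0
        rw [h0] at hpL hqL hαβ
        have hα : α ≠ 0 := by
          rcases hαβ with h | h
          · exact h
          · exact absurd rfl h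
        exact haij (mul_left_cancel₀ hα (by linarith))
      have hi : ht a B i (α / β) = γ / β := by
        unfold ht
        field_simp
        linarith
      have hj : ht a B j (α / β) = γ / β := by
        unfold ht
        field_simp
        linarith
      have hbelow : (univ.filter (fun l => ht a B l (α / β) < γ / β)).card = n / 2 - 1 := by
        rcases lt_or_gt_of_ne hβ with hneg | hpos
        · rw [card_img ha] at h2
          rw [← h2]
          congr 1
          refine Finset.filter_congr (fun l _ => ?_)
          have e : ht a B l (α / β) * β = α * (pts a B l).1 + β * (pts a B l).2 := by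
            unfold ht pts; field_simp
          rw [lt_div_iff_of_neg hneg, e]
        · rw [card_img ha] at h1
          rw [← h1]
          congr 1
          refine Finset.filter_congr (fun l _ => ?_)
          have e : ht a B l (α / β) * β = α * (pts a B l).1 + β * (pts a B l).2 := by
            unfold ht pts; field_simp
          rw [lt_div_iff₀ hpos, e]
      have hline : Line α β γ = Line (α / β) 1 (γ / β) := by
        ext z
        simp only [Line, Set.mem_ofPred_eq]
        constructor
        · intro h
          field_simp
          linarith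
        · intro h
          field_simp at h
          linarith
      have hmk : ∀ u v : Fin n, u < v → a u ≠ a v → ht a B u (α / β) = γ / β →
          ht a B v (α / β) = γ / β → Line α β γ ∈ lin a B '' crossings a B (n / 2 - 1) := by
        intro u v huv hauv hu hv
        have hx := cr_unique hauv (hu.trans hv.symm)
        refine ⟨(u, v), ⟨huv, hauv, ?_⟩, ?_⟩
        · simp only
          rw [← hx, hu]
          have e1 : {l | ht a B l (α / β) < γ / β} =
              ((univ.filter (fun l => ht a B l (α / β) < γ / β) : Finset _) : Set _) := by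
            ext l; simp
          rw [e1, Set.ncard_coe_finset, hbelow]
        · unfold lin
          simp only
          rw [← hx, hu, hline]
      rcases lt_or_gt_of_ne hij with h | h
      · exact hmk i j h haij hi hj
      · exact hmk j i h haij.symm hj hi
    · rintro ⟨q, ⟨hlt, haq, hk⟩, rfl⟩
      have hne : q.1 ≠ q.2 := hlt.ne
      have hx := cr_eq (B := B) haq
      have e1 : {l | ht a B l (cr a B q.1 q.2) < ht a B q.1 (cr a B q.1 q.2)} =
          ((univ.filter (fun l => ht a B l (cr a B q.1 q.2) < ht a B q.1 (cr a B q.1 q.2)) :
            Finset _) : Set _) := by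
        ext l; simp
      rw [e1, Set.ncard_coe_finset] at hk
      have hc := count hS hne hx
      refine ⟨cr a B q.1 q.2, 1, ht a B q.1 (cr a B q.1 q.2), Or.inr one_ne_zero, rfl,
        ⟨pts a B q.1, mem_image_of_mem _ (mem_univ _), pts a B q.2, mem_image_of_mem _ (mem_univ _),
          fun h => hne (pts_inj ha h), ?_, ?_⟩, ?_, ?_⟩
      · unfold lin
        rw [mem_line_pts]
      · unfold lin
        rw [mem_line_pts, hx]
      · rw [hcard, card_img ha, ← hk]
        congr 1
        refine Finset.filter_congr (fun l _ => ?_)
        have e : cr a B q.1 q.2 * (pts a B l).1 + 1 * (pts a B l).2 =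
            ht a B l (cr a B q.1 q.2) := by unfold pts ht; ring
        rw [e]
      · rw [hcard, card_img ha]
        have e2 : (univ.filter (fun l => ht a B q.1 (cr a B q.1 q.2) <
            cr a B q.1 q.2 * (pts a B l).1 + 1 * (pts a B l).2)) =
            univ.filter (fun l => ht a B q.1 (cr a B q.1 q.2) < ht a B l (cr a B q.1 q.2)) := by
          refine Finset.filter_congr (fun l _ => ?_)
          have e : cr a B q.1 q.2 * (pts a B l).1 + 1 * (pts a B l).2 =
              ht a B l (cr a B q.1 q.2) := by unfold pts ht; ring
          rw [e]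
        rw [e2]
        obtain ⟨m, hm⟩ := hn
        omega
  rw [key]
  refine Set.InjOn.ncard_image ?_
  rintro ⟨i, j⟩ ⟨h1, h2, -⟩ ⟨i', j'⟩ ⟨h1', h2', -⟩ h
  simp only at h1 h2 h1' h2'
  have hx := cr_eq (B := B) h2
  have hx' := cr_eq (B := B) h2'
  have hm1 : pts a B i' ∈ lin a B (i, j) := by
    rw [h]; unfold lin; rw [mem_line_pts]
  have hm2 : pts a B j' ∈ lin a B (i, j) := by
    rw [h]; unfold lin; rw [mem_line_pts, hx']
  unfold lin at hm1 hm2
  rw [mem_line_pts] at hm1 hm2
  have k1 := (on_line hS h1.ne hx i').mp hm1
  have k2 := (on_line hS h1.ne hx j').mp hm2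
  rcases k1 with rfl | rfl <;> rcases k2 with rfl | rfl
  · exact absurd h1' (lt_irrefl _)
  · rfl
  · exact absurd (h1.trans h1') (lt_irrefl _)
  · exact absurd h1' (lt_irrefl _)

end Pool.Agent.Q115.HLBase
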