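import Pool.Agent.Q115.HLBase
import Pool.Agent.Y344.KD.Lines

/-! Random deletions and the middle level: probabilities. -/

set_option autoImplicit false

namespace Pool.Agent.Q115.HLDel

open Finset Pool.Agent.H189R2.Lev Pool.Agent.H189R2.Iid Pool.Agent.Y344.KD

/-- a convolution of binomial coefficients -/
theorem conv_choose (a : ℕ) : ∀ N b : ℕ, ∑ j ∈ range (N + 1), j.choose a * (N - j).choose b =
    (N + 1).choose (a + b + 1) := by
  intro N
  induction N with
  | zero =>
    intro b
    rcases a with _ | a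
    · rcases b with _ | b
      · simp
      · rw [Nat.choose_eq_zero_of_lt (by omega : 0 + 1 < 0 + (b + 1) + 1)]
        simp
    · rw [Nat.choose_eq_zero_of_lt (by omega : 0 + 1 < a + 1 + b + 1)]
      simp
  | succ N ih =>
    intro b
    rw [sum_range_succ]
    have hN : ∀ j ∈ range (N + 1), N + 1 - j = (N - j) + 1 := by
      intro j hj
      rw [mem_range] at hj
      omega
    rcases b with _ | b
    · have h := ih 0
      simp only [Nat.choose_zero_right, mul_one, add_zero] at h ⊢
      rw [h, Nat.choose_succ_succ (N + 1) a]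
      ring
    · have h1 : ∑ j ∈ range (N + 1), j.choose a * (N + 1 - j).choose (b + 1) =
          ∑ j ∈ range (N + 1), (j.choose a * (N - j).choose b +
            j.choose a * (N - j).choose (b + 1)) := by
        apply sum_congr rfl
        intro j hj
        rw [hN j hj, Nat.choose_succ_succ, mul_add]
      rw [h1, sum_add_distrib, ih, ih]
      simp only [Nat.sub_self, Nat.choose_zero_succ, mul_zero, add_zero]
      rw [show a + (b + 1) + 1 = (a + b + 1) + 1 by ring, Nat.choose_succ_succ (N + 1)]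

/-- probability that `j` and `N - j` elements have the same number of survivors -/
noncomputable def hb (N j : ℕ) (r : ℝ) : ℝ := ∑ k ∈ range (N + 1), bb k j r * bb k (N - j) r

theorem hb_nonneg (N j : ℕ) {r : ℝ} (h0 : 0 ≤ r) (h1 : r ≤ 1) : 0 ≤ hb N j r :=
  sum_nonneg fun _ _ => mul_nonneg (bb_nonneg _ _ h0 h1) (bb_nonneg _ _ h0 h1)

theorem bb_prod {k j N : ℕ} (hj : j ≤ N) (r : ℝ) :
    bb k j r * bb k (N - j) r =
      ((j.choose k * (N - j).choose k : ℕ) : ℝ) * ((1 - r) ^ (2 * k) * r ^ (N - 2 * k)) := by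
  rcases lt_or_ge j k with h | h
  · rw [bb_zero h, Nat.choose_eq_zero_of_lt h]; simp
  rcases lt_or_ge (N - j) k with h' | h'
  · rw [bb_zero h', Nat.choose_eq_zero_of_lt h']; simp
  unfold bb
  have e : N - 2 * k = (j - k) + (N - j - k) := by omega
  rw [e, two_mul, pow_add, pow_add]
  push_cast
  ring

theorem sum_hb (N : ℕ) {r : ℝ} (h0 : 0 ≤ r) (h1 : r ≤ 1 / 2) :
    ∑ j ∈ range (N + 1), hb N j r ≤ 2 := by
  have hr1 : 0 ≤ 1 - r := by linarith
  unfold hb
  rw [sum_comm]
  have e1 : ∀ k ∈ range (N + 1), ∑ j ∈ range (N + 1), bb k j r * bb k (N - j) r =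
      ((N + 1).choose (2 * k + 1) : ℝ) * ((1 - r) ^ (2 * k) * r ^ (N - 2 * k)) := by
    intro k _
    rw [sum_congr rfl (fun j hj => bb_prod (by rw [mem_range] at hj; omega) r), ← sum_mul,
      ← Nat.cast_sum, conv_choose k N k]
    congr 3
    ring
  rw [sum_congr rfl e1]
  set g : ℕ → ℝ := fun m => ((N + 1).choose m : ℝ) * ((1 - r) ^ m * r ^ (N + 1 - m)) with hg
  have hg0 : ∀ m, 0 ≤ g m := by
    intro m
    rw [hg]
    positivity
  have e2 : (1 - r) * ∑ k ∈ range (N + 1), ((N + 1).choose (2 * k + 1) : ℝ) *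
      ((1 - r) ^ (2 * k) * r ^ (N - 2 * k)) = ∑ k ∈ range (N + 1), g (2 * k + 1) := by
    rw [mul_sum]
    apply sum_congr rfl
    intro k _
    rw [hg]
    simp only
    have : N + 1 - (2 * k + 1) = N - 2 * k := by omega
    rw [this, pow_succ]
    ring
  have e3 : ∑ k ∈ range (N + 1), g (2 * k + 1) ≤ ∑ m ∈ range (2 * N + 2), g m := by
    have hinj : Set.InjOn (fun k : ℕ => 2 * k + 1) (range (N + 1)) := by
      intro x _ y _ hxy
      simp only at hxy
      omega
    rw [← sum_image hinj]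
    apply sum_le_sum_of_subset_of_nonneg
    · intro m hm
      rw [mem_image] at hm
      obtain ⟨k, hk, rfl⟩ := hm
      rw [mem_range] at hk ⊢
      omega
    · intro m _ _
      exact hg0 m
  have e4 : ∑ m ∈ range (2 * N + 2), g m = 1 := by
    have h := add_pow (1 - r) r (N + 1)
    have h2 : ∑ m ∈ range (2 * N + 2), g m = ∑ m ∈ range (N + 1 + 1), g m := by
      symm
      apply sum_subset
      · intro m hm
        rw [mem_range] at hm ⊢
        omega
      · intro m _ hm
        rw [mem_range] at hm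
        rw [hg]
        simp only
        rw [Nat.choose_eq_zero_of_lt (by omega)]
        simp
    rw [h2, show (1 : ℝ) = (1 - r + r) ^ (N + 1) by simp, h]
    apply sum_congr rfl
    intro m _
    rw [hg]
    ring
  have e5 : (1 - r) * ∑ k ∈ range (N + 1), ((N + 1).choose (2 * k + 1) : ℝ) *
      ((1 - r) ^ (2 * k) * r ^ (N - 2 * k)) ≤ 1 := by
    rw [e2, ← e4]
    exact e3
  have e6 : 0 ≤ ∑ k ∈ range (N + 1), ((N + 1).choose (2 * k + 1) : ℝ) *
      ((1 - r) ^ (2 * k) * r ^ (N - 2 * k)) := sum_nonneg fun k _ => by positivity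
  nlinarith

theorem bb_total (j K : ℕ) {r : ℝ} (h0 : 0 ≤ r) (h1 : r ≤ 1) : ∑ k ∈ range K, bb k j r ≤ 1 := by
  have h := add_pow (1 - r) r j
  have e : ∑ k ∈ range (j + 1), bb k j r = 1 := by
    rw [show (1 : ℝ) = (1 - r + r) ^ j by simp, h]
    apply sum_congr rfl
    intro m _
    unfold bb
    ring
  rw [← e]
  rcases le_or_gt K (j + 1) with hK | hK
  · exact sum_le_sum_of_subset_of_nonneg (range_subset_range.mpr hK)
      (fun k _ _ => bb_nonneg k j h0 h1)
  · refine le_of_eq (sum_subset (range_subset_range.mpr hK.le) ?_).symm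
    intro k _ hk
    rw [mem_range] at hk
    exact bb_zero (by omega) r

theorem hb_le {N j : ℕ} {r M : ℝ} (h0 : 0 ≤ r) (h1 : r ≤ 1) (hM : 0 ≤ M)
    (h : (∀ k, bb k j r ≤ M) ∨ (∀ k, bb k (N - j) r ≤ M)) : hb N j r ≤ M := by
  unfold hb
  rcases h with h | h
  · calc _ ≤ ∑ k ∈ range (N + 1), M * bb k (N - j) r :=
          sum_le_sum fun k _ => mul_le_mul_of_nonneg_right (h k) (bb_nonneg _ _ h0 h1)
      _ = M * ∑ k ∈ range (N + 1), bb k (N - j) r := by rw [mul_sum]
      _ ≤ M * 1 := mul_le_mul_of_nonneg_left (bb_total _ _ h0 h1) hM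
      _ = M := mul_one M
  · calc _ ≤ ∑ k ∈ range (N + 1), bb k j r * M :=
          sum_le_sum fun k _ => mul_le_mul_of_nonneg_left (h k) (bb_nonneg _ _ h0 h1)
      _ = (∑ k ∈ range (N + 1), bb k j r) * M := by rw [sum_mul]
      _ ≤ 1 * M := mul_le_mul_of_nonneg_right (bb_total _ _ h0 h1) hM
      _ = M := one_mul M

theorem hb_sup {n j : ℕ} {r : ℝ} (hn : 2 ≤ n) (hr : 0 < r) (hr2 : r ≤ 1 / 2) (_hj : j ≤ n - 2) :
    hb (n - 2) j r ≤ 9 / Real.sqrt (r * n) := by
  have hn0 : (0 : ℝ) < n := by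
    have : 0 < n := by omega
    exact_mod_cast this
  have hrn : 0 < r * n := by positivity
  have hs : 0 < Real.sqrt (r * n) := Real.sqrt_pos.mpr hrn
  rcases lt_or_ge n 4 with h4 | h4
  · have h1 : hb (n - 2) j r ≤ 1 := hb_le hr.le (by linarith) zero_le_one
      (Or.inl fun k => bb_le_one k j hr.le (by linarith))
    refine h1.trans ?_
    rw [le_div_iff₀ hs, one_mul]
    calc Real.sqrt (r * n) ≤ Real.sqrt (9 ^ 2) := by
          apply Real.sqrt_le_sqrt
          have : (n : ℝ) ≤ 4 := by exact_mod_cast h4.le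
          nlinarith
      _ = 9 := Real.sqrt_sq (by norm_num)
  · have key : ∀ m : ℕ, n ≤ 4 * m → ∀ k, bb k m r ≤ 9 / Real.sqrt (r * n) := by
      intro m hm k
      have hm1 : 1 ≤ m := by omega
      refine (bb_sup hr hr2 hm1).trans ?_
      have hm0 : (0 : ℝ) < m := by exact_mod_cast hm1
      have hs' : 0 < Real.sqrt (r * m) := Real.sqrt_pos.mpr (by positivity)
      rw [div_le_div_iff₀ hs' hs]
      have h3 : Real.sqrt (r * n) ≤ 2 * Real.sqrt (r * m) := by
        calc Real.sqrt (r * n) ≤ Real.sqrt (2 ^ 2 * (r * m)) := by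
              apply Real.sqrt_le_sqrt
              have : (n : ℝ) ≤ 4 * m := by exact_mod_cast hm
              nlinarith
          _ = 2 * Real.sqrt (r * m) := by
              rw [Real.sqrt_mul (by norm_num), Real.sqrt_sq (by norm_num)]
      linarith
    apply hb_le hr.le (by linarith) (by positivity)
    rcases le_or_gt n (4 * j) with h | h
    · exact Or.inl (key j h)
    · exact Or.inr (key (n - 2 - j) (by omega))

/-- splitting a set of deleted elements -/
theorem split {n : ℕ} (S : Finset (Fin n)) (f : Finset (Fin n) → Finset (Fin n) → ℝ) :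
    ∑ D : Finset (Fin n), f (D ∩ S) (D \ S) = ∑ E ∈ Sᶜ.powerset, ∑ F ∈ S.powerset, f F E := by
  rw [← sum_product']
  refine Finset.sum_bij' (fun D _ => (D \ S, D ∩ S)) (fun x _ => x.2 ∪ x.1) ?_ ?_ ?_ ?_ ?_
  · intro D _
    rw [mem_product, mem_powerset, mem_powerset]
    refine ⟨?_, inter_subset_right⟩
    intro l hl
    rw [mem_sdiff] at hl
    exact mem_compl.mpr hl.2
  · intro x _
    exact mem_univ _
  · intro D _
    ext l
    simp only [mem_union, mem_inter, mem_sdiff]
    tauto
  · rintro ⟨E, F⟩ hx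
    rw [mem_product, mem_powerset, mem_powerset] at hx
    simp only at hx
    obtain ⟨hE, hF⟩ := hx
    refine Prod.ext ?_ ?_
    · ext l
      simp only [mem_union, mem_sdiff]
      constructor
      · rintro ⟨h | h, h2⟩
        · exact absurd (hF h) h2
        · exact h
      · intro h
        exact ⟨Or.inr h, mem_compl.mp (hE h)⟩
    · ext l
      simp only [mem_union, mem_inter]
      constructor
      · rintro ⟨h | h, h2⟩
        · exact h
        · exact absurd h2 (mem_compl.mp (hE h))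
      · intro h
        exact ⟨Or.inl h, hF h⟩
  · intro D _
    rfl

/-- weight inside a set -/
noncomputable def wS {n : ℕ} (r : ℝ) (S F : Finset (Fin n)) : ℝ :=
  r ^ F.card * (1 - r) ^ (S.card - F.card)

theorem wt_split {n : ℕ} (r : ℝ) (S D : Finset (Fin n)) :
    wt r D = wS r S (D ∩ S) * wS r Sᶜ (D \ S) := by
  unfold wt wS
  have h1 : D.card = (D ∩ S).card + (D \ S).card := (Finset.card_inter_add_card_sdiff D S).symm
  have h2 : (D ∩ S).card ≤ S.card := card_le_card inter_subset_right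
  have h3 : (D \ S).card ≤ Sᶜ.card := by
    apply card_le_card
    intro l hl
    rw [mem_sdiff] at hl
    exact mem_compl.mpr hl.2
  have h4 : S.card + Sᶜ.card = n := by
    have := Finset.card_add_card_compl S
    rwa [Fintype.card_fin] at this
  have h5 : n - D.card = (S.card - (D ∩ S).card) + (Sᶜ.card - (D \ S).card) := by omega
  rw [h5, h1, pow_add, pow_add]
  ring

theorem wS_bb {n : ℕ} (S : Finset (Fin n)) (k : ℕ) (r : ℝ) :
    ∑ F ∈ S.powerset, (if (S \ F).card = k then wS r S F else 0) = bb k S.card r := by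
  have h1 : ∀ F ∈ S.powerset, (if (S \ F).card = k then wS r S F else 0) =
      (fun m => if S.card - m = k then r ^ m * (1 - r) ^ (S.card - m) else 0) F.card := by
    intro F hF
    rw [mem_powerset] at hF
    simp only
    rw [card_sdiff_of_subset hF]
    rfl
  rw [sum_congr rfl h1, Finset.sum_powerset_apply_card
    (fun m => if S.card - m = k then r ^ m * (1 - r) ^ (S.card - m) else 0)]
  rcases lt_or_ge S.card k with hk | hk
  · rw [bb_zero hk]
    apply sum_eq_zero
    intro m _
    rw [if_neg (by omega)]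
    simp
  · rw [sum_eq_single (S.card - k)]
    · rw [if_pos (by omega), Nat.choose_symm hk, nsmul_eq_mul]
      unfold bb
      have : S.card - (S.card - k) = k := by omega
      rw [this]
      ring
    · intro m hm hne
      rw [mem_range] at hm
      rw [if_neg (by omega)]
      simp
    · intro h
      exact absurd (mem_range.mpr (by omega)) h

theorem wS_one {n : ℕ} (S : Finset (Fin n)) (r : ℝ) : ∑ F ∈ S.powerset, wS r S F = 1 := by
  have h := Finset.sum_pow_mul_eq_add_pow r (1 - r) S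
  unfold wS
  rw [h]
  simp

/-- the probability that two disjoint sets have the same number of survivors -/
theorem marg2 {n : ℕ} {L H : Finset (Fin n)} (hLH : Disjoint L H) {N : ℕ}
    (hN : H.card ≤ N) (r : ℝ) :
    ∑ D : Finset (Fin n), (if (L \ D).card = (H \ D).card then wt r D else 0) =
      ∑ k ∈ range (N + 1), bb k L.card r * bb k H.card r := by
  have hHL : ∀ D : Finset (Fin n), H \ D = H \ (D \ L) := by
    intro D
    ext l
    simp only [mem_sdiff]
    have : l ∈ H → l ∉ L := fun h1 h2 => Finset.disjoint_left.mp hLH h2 h1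
    tauto
  have hLL : ∀ D : Finset (Fin n), L \ D = L \ (D ∩ L) := by
    intro D
    ext l
    simp only [mem_sdiff, mem_inter]
    tauto
  have h1 : ∑ D : Finset (Fin n), (if (L \ D).card = (H \ D).card then wt r D else 0) =
      ∑ E ∈ Lᶜ.powerset, ∑ F ∈ L.powerset,
        (if (L \ F).card = (H \ E).card then wS r L F * wS r Lᶜ E else 0) := by
    rw [← split L (fun F E => if (L \ F).card = (H \ E).card then wS r L F * wS r Lᶜ E else 0)]
    apply sum_congr rfl
    intro D _
    rw [← hHL D, ← hLL D, ← wt_split]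
  have h2 : ∀ E ∈ Lᶜ.powerset, ∑ F ∈ L.powerset,
      (if (L \ F).card = (H \ E).card then wS r L F * wS r Lᶜ E else 0) =
      wS r Lᶜ E * bb (H \ E).card L.card r := by
    intro E _
    rw [← wS_bb L, mul_sum]
    apply sum_congr rfl
    intro F _
    split_ifs <;> ring
  have h3 : ∀ k, ∑ E ∈ Lᶜ.powerset, (if (H \ E).card = k then wS r Lᶜ E else 0) =
      bb k H.card r := by
    intro k
    rw [← marg H k r]
    have e : ∑ D : Finset (Fin n), (if (H \ D).card = k then wt r D else 0) =
        ∑ E ∈ Lᶜ.powerset, ∑ F ∈ L.powerset,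
          (if (H \ E).card = k then wS r L F * wS r Lᶜ E else 0) := by
      rw [← split L (fun F E => if (H \ E).card = k then wS r L F * wS r Lᶜ E else 0)]
      apply sum_congr rfl
      intro D _
      rw [← hHL D, ← wt_split]
    rw [e]
    apply sum_congr rfl
    intro E _
    split_ifs
    · rw [← sum_mul, wS_one, one_mul]
    · simp
  rw [h1, sum_congr rfl h2]
  have h4 : ∀ E ∈ Lᶜ.powerset, wS r Lᶜ E * bb (H \ E).card L.card r =
      ∑ k ∈ range (N + 1), (if (H \ E).card = k then wS r Lᶜ E else 0) * bb k L.card r := by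
    intro E _
    have hmem : (H \ E).card ∈ range (N + 1) := by
      rw [mem_range]
      have := card_le_card (sdiff_subset (s := H) (t := E))
      omega
    rw [sum_eq_single_of_mem _ hmem]
    · rw [if_pos rfl]
    · intro k _ hk
      rw [if_neg (Ne.symm hk), zero_mul]
  rw [sum_congr rfl h4, sum_comm]
  apply sum_congr rfl
  intro k _
  rw [← sum_mul, h3, mul_comm]

/-- the points above the line of the pair `q` -/
noncomputable def highSet {n : ℕ} (P : Fin n → ℝ × ℝ) (q : Fin n × Fin n) : Finset (Fin n) :=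
  (lowSet P q)ᶜ \ {q.1, q.2}

/-- the number of pairs with equally many surviving points below and above -/
noncomputable def hcnt {n : ℕ} (P : Fin n → ℝ × ℝ) (D : Finset (Fin n)) : ℕ :=
  ((T P).filter (fun q => (lowSet P q \ D).card = (highSet P q \ D).card)).card

theorem high_card {n : ℕ} {P : Fin n → ℝ × ℝ} {q : Fin n × Fin n} (hq : q ∈ T P) :
    (highSet P q).card + lev P q + 2 = n := by
  rw [mem_T] at hq
  have h1 : ({q.1, q.2} : Finset (Fin n)) ⊆ (lowSet P q)ᶜ := by
    intro l hl
    rw [mem_insert, mem_singleton] at hl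
    rw [mem_compl]
    intro h
    have h : P l ∈ low (P q.1) (P q.2) := by
      classical
      simpa [lowSet] using h
    rcases hl with rfl | rfl
    · exact fst_notMem_low _ _ h
    · exact snd_notMem_low hq h
  have hne : q.1 ≠ q.2 := by
    intro h
    rw [h] at hq
    exact lt_irrefl _ hq
  have h2 := card_sdiff_add_card_eq_card h1
  rw [card_pair hne] at h2
  have h3 := Finset.card_add_card_compl (lowSet P q)
  rw [Fintype.card_fin] at h3
  rw [lev_eq]
  unfold highSet
  omega

theorem exp_hcnt {n : ℕ} (P : Fin n → ℝ × ℝ) (r : ℝ) :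
    ∑ D : Finset (Fin n), wt r D * hcnt P D = ∑ q ∈ T P, hb (n - 2) (lev P q) r := by
  have h1 : ∀ D : Finset (Fin n), wt r D * (hcnt P D : ℝ) =
      ∑ q ∈ T P, (if (lowSet P q \ D).card = (highSet P q \ D).card then wt r D else 0) := by
    intro D
    unfold hcnt
    rw [← sum_filter, sum_const, nsmul_eq_mul, mul_comm]
  rw [sum_congr rfl (fun D _ => h1 D), sum_comm]
  apply sum_congr rfl
  intro q hq
  have hc := high_card hq
  have hd : Disjoint (lowSet P q) (highSet P q) := by
    unfold highSet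
    rw [Finset.disjoint_left]
    intro l h1 h2
    rw [mem_sdiff, mem_compl] at h2
    exact h2.1 h1
  rw [marg2 hd (N := n - 2) (by omega) r]
  unfold hb
  rw [lev_eq] at hc ⊢
  have : (highSet P q).card = n - 2 - (lowSet P q).card := by omega
  rw [this]

theorem hcnt_bound {n : ℕ} {P : Fin n → ℝ × ℝ} (hP : GP P) {r : ℝ} (hr0 : 0 < r)
    (hr : r ≤ 1 / 2) :
    ∑ D : Finset (Fin n), wt r D * hcnt P D ≤ 200 * (n : ℝ) ^ (7 / 6 : ℝ) * r ^ (-(1 / 6) : ℝ) := by
  rw [exp_hcnt]
  rcases lt_or_ge n 2 with hn | hn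
  · have : T P = ∅ := by
      rw [Finset.eq_empty_iff_forall_notMem]
      rintro ⟨i, j⟩ hq
      rw [mem_T] at hq
      have : i = j := by
        apply Fin.ext
        have := i.2
        have := j.2
        omega
      rw [this] at hq
      exact lt_irrefl _ hq
    rw [this, sum_empty]
    positivity
  have hn0 : (0 : ℝ) < n := by
    have : 0 < n := by omega
    exact_mod_cast this
  have hrn : 0 < r * n := by positivity
  have hs : 0 < Real.sqrt (r * n) := Real.sqrt_pos.mpr hrn
  have hM0 : 0 < 9 / Real.sqrt (r * n) := by positivity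
  have h := sum_below hP (w := fun j => hb (n - 2) j r) (M := 9 / Real.sqrt (r * n))
    (J := n - 2 + 1) (by omega) hM0 (fun j _ => hb_nonneg _ _ hr0.le (by linarith))
    (fun j hj => hb_sup hn hr0 hr (by omega)) (sum_hb (n - 2) hr0.le hr)
  have hEW : EW P (range (n - 2 + 1)) = T P := by
    classical
    unfold EW
    rw [filter_true_of_mem]
    intro q hq
    have := high_card hq
    rw [mem_range]
    omega
  rw [hEW] at h
  refine h.trans ?_
  have e1 : ((n - 2 + 1 : ℕ) : ℝ) ^ (1 / 3 : ℝ) ≤ (n : ℝ) ^ (1 / 3 : ℝ) := by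
    apply Real.rpow_le_rpow (by positivity) _ (by norm_num)
    exact_mod_cast (by omega : n - 2 + 1 ≤ n)
  have e2 : (9 / Real.sqrt (r * n)) ^ (1 / 3 : ℝ) ≤ 21 / 10 * (r * n) ^ (-(1 / 6) : ℝ) := by
    rw [Real.sqrt_eq_rpow, Real.div_rpow (by norm_num) (by positivity), ← Real.rpow_mul hrn.le,
      div_eq_mul_inv, ← Real.rpow_neg hrn.le]
    norm_num
    apply mul_le_mul_of_nonneg_right _ (by positivity)
    have : ((9 : ℝ) ^ (1 / 3 : ℝ)) ^ 3 ≤ (21 / 10 : ℝ) ^ 3 := by
      rw [← Real.rpow_natCast, ← Real.rpow_mul (by norm_num)]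
      norm_num
    exact le_of_pow_le_pow_left₀ (by norm_num) (by norm_num) this
  have e3 : (n : ℝ) * ((n : ℝ) ^ (1 / 3 : ℝ) * (r * n) ^ (-(1 / 6) : ℝ)) =
      (n : ℝ) ^ (7 / 6 : ℝ) * r ^ (-(1 / 6) : ℝ) := by
    rw [Real.mul_rpow hr0.le hn0.le]
    have : (n : ℝ) ^ (7 / 6 : ℝ) = (n : ℝ) ^ (1 : ℝ) * ((n : ℝ) ^ (1 / 3 : ℝ) *
        (n : ℝ) ^ (-(1 / 6) : ℝ)) := by
      rw [← Real.rpow_add hn0, ← Real.rpow_add hn0]
      norm_num
    rw [this, Real.rpow_one]
    ring
  calc 90 * n * (((n - 2 + 1 : ℕ) : ℝ) ^ (1 / 3 : ℝ) * (9 / Real.sqrt (r * n)) ^ (1 / 3 : ℝ)) ≤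
        90 * n * ((n : ℝ) ^ (1 / 3 : ℝ) * (21 / 10 * (r * n) ^ (-(1 / 6) : ℝ))) := by gcongr
    _ = 189 * ((n : ℝ) * ((n : ℝ) ^ (1 / 3 : ℝ) * (r * n) ^ (-(1 / 6) : ℝ))) := by ring
    _ = 189 * ((n : ℝ) ^ (7 / 6 : ℝ) * r ^ (-(1 / 6) : ℝ)) := by rw [e3]
    _ ≤ _ := by
      have : 0 ≤ (n : ℝ) ^ (7 / 6 : ℝ) * r ^ (-(1 / 6) : ℝ) := by positivity
      linarith

end Pool.Agent.Q115.HLDel
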