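import Pool.Agent.Q115.HLDel

/-! Random deletions and bisectors. -/

set_option autoImplicit false

namespace Pool.Agent.Q115.HLMain

open Finset Pool.Agent.H189R2.Lev Pool.Agent.H189R2.Iid Pool.Agent.Y344.KD
open Pool.Agent.Q115.HLBase Pool.Agent.Q115.HLDel
open Pool.Agent.W296.HL (Line GeneralPosition IsBisector)
open Pool.Agent.Results.MP_a08d0a_co.SmoothedLevel (Simple)

variable {n : ℕ} {a B : Fin n → ℝ}

open scoped Classical in
lemma card_img' (ha : Function.Injective a) (R : Finset (Fin n)) (s : ℝ × ℝ → Prop) :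
    ((R.image (pts a B)).filter s).card = (R.filter (fun l => s (pts a B l))).card := by
  rw [Finset.filter_image, Finset.card_image_of_injective _ (pts_inj ha)]

open scoped Classical in
/-- the bisectors of the remaining points are lines of pairs with equally many survivors on both
sides -/
theorem bis_hcnt {P : Fin n → ℝ × ℝ} (ha : Function.Injective a) (hS : Simple a B)
    (hP : ∀ i j, a j < a i → (P j).1 < (P i).1 ∧ ∀ l, (P l ∈ low (P i) (P j) ↔
      ht a B l (cr a B i j) < ht a B i (cr a B i j))) (D : Finset (Fin n)) :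
    {L | IsBisector (Dᶜ.image (pts a B)) L}.ncard ≤ hcnt P D := by
  set G := (T P).filter (fun q => (lowSet P q \ D).card = (highSet P q \ D).card) with hG
  have hsub : {L | IsBisector (Dᶜ.image (pts a B)) L} ⊆ lin a B '' (G : Set (Fin n × Fin n)) := by
    rintro L ⟨α, β, γ, hαβ, rfl, ⟨p, hp, q, hq, hpq, hpL, hqL⟩, h1, h2⟩
    obtain ⟨i, hiD, rfl⟩ := mem_image.mp hp
    obtain ⟨j, hjD, rfl⟩ := mem_image.mp hq
    have hij : i ≠ j := fun h => hpq (by rw [h])
    have haij : a i ≠ a j := fun h => hij (ha h)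
    simp only [Line, pts, Set.mem_ofPred_eq] at hpL hqL
    have hβ : β ≠ 0 := by
      intro h0
      rw [h0] at hpL hqL hαβ
      have hα : α ≠ 0 := by
        rcases hαβ with h | h
        · exact h
        · exact absurd rfl h
      exact haij (mul_left_cancel₀ hα (by linarith))
    have hi : ht a B i (α / β) = γ / β := by
      unfold ht
      field_simp
      linarith
    have hj : ht a B j (α / β) = γ / β := by
      unfold ht
      field_simp
      linarith
    have hbal : (Dᶜ.filter (fun l => ht a B l (α / β) < γ / β)).card =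
        (Dᶜ.filter (fun l => γ / β < ht a B l (α / β))).card := by
      rw [card_img' ha] at h1 h2
      have e : ∀ l, ht a B l (α / β) * β = α * (pts a B l).1 + β * (pts a B l).2 := by
        intro l
        unfold ht pts
        field_simp
      rcases lt_or_gt_of_ne hβ with hneg | hpos
      · have e1 : Dᶜ.filter (fun l => ht a B l (α / β) < γ / β) =
            Dᶜ.filter (fun l => γ < α * (pts a B l).1 + β * (pts a B l).2) :=
          Finset.filter_congr fun l _ => by rw [lt_div_iff_of_neg hneg, e]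
        have e2 : Dᶜ.filter (fun l => γ / β < ht a B l (α / β)) =
            Dᶜ.filter (fun l => α * (pts a B l).1 + β * (pts a B l).2 < γ) :=
          Finset.filter_congr fun l _ => by rw [div_lt_iff_of_neg hneg, e]
        rw [e1, e2, h1, h2]
      · have e1 : Dᶜ.filter (fun l => ht a B l (α / β) < γ / β) =
            Dᶜ.filter (fun l => α * (pts a B l).1 + β * (pts a B l).2 < γ) :=
          Finset.filter_congr fun l _ => by rw [lt_div_iff₀ hpos, e]
        have e2 : Dᶜ.filter (fun l => γ / β < ht a B l (α / β)) =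
            Dᶜ.filter (fun l => γ < α * (pts a B l).1 + β * (pts a B l).2) :=
          Finset.filter_congr fun l _ => by rw [div_lt_iff₀ hpos, e]
        rw [e1, e2, h1, h2]
    have hline : Line α β γ = Line (α / β) 1 (γ / β) := by
      ext z
      simp only [Line, Set.mem_ofPred_eq]
      constructor
      · intro h
        field_simp
        linarith
      · intro h
        field_simp at h
        linarith
    have hmk : ∀ u v : Fin n, u ≠ v → a v < a u → ht a B u (α / β) = γ / β →
        ht a B v (α / β) = γ / β → Line α β γ ∈ lin a B '' (G : Set (Fin n × Fin n)) := by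
      intro u v huv hauv hu hv
      have hx := cr_unique hauv.ne' (hu.trans hv.symm)
      have hP' := hP u v hauv
      refine ⟨(u, v), ?_, ?_⟩
      · rw [hG, mem_coe, mem_filter, mem_T]
        refine ⟨hP'.1, ?_⟩
        have e1 : lowSet P (u, v) \ D = Dᶜ.filter (fun l => ht a B l (α / β) < γ / β) := by
          ext l
          rw [mem_lowD, mem_filter, mem_compl]
          simp only
          rw [hP'.2 l, ← hx, hu]
          tauto
        have e2 : highSet P (u, v) \ D = Dᶜ.filter (fun l => γ / β < ht a B l (α / β)) := by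
          ext l
          have hl : l ∈ lowSet P (u, v) ↔ ht a B l (α / β) < γ / β := by
            have : l ∈ lowSet P (u, v) ↔ P l ∈ low (P u) (P v) := by simp [lowSet]
            rw [this, hP'.2 l, ← hx, hu]
          have hon := on_line hS huv (x := α / β) (by rw [hu, hv]) l
          rw [hu] at hon
          unfold highSet
          rw [mem_sdiff, mem_sdiff, mem_compl, hl, mem_filter, mem_compl]
          simp only [mem_insert, mem_singleton]
          rw [← hon]
          constructor
          · rintro ⟨⟨h3, h4⟩, h5⟩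
            exact ⟨h5, lt_of_le_of_ne (not_lt.mp h3) (Ne.symm h4)⟩
          · rintro ⟨h5, h6⟩
            exact ⟨⟨not_lt.mpr h6.le, h6.ne'⟩, h5⟩
        rw [e1, e2]
        exact hbal
      · unfold lin
        simp only
        rw [← hx, hu, hline]
    rcases lt_or_gt_of_ne haij with h | h
    · exact hmk j i hij.symm h hj hi
    · exact hmk i j hij h hi hj
  calc {L | IsBisector (Dᶜ.image (pts a B)) L}.ncard ≤
        (lin a B '' (G : Set (Fin n × Fin n))).ncard :=
        Set.ncard_le_ncard hsub ((Finset.finite_toSet G).image _)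
    _ ≤ (G : Set (Fin n × Fin n)).ncard := Set.ncard_image_le (Finset.finite_toSet G)
    _ = hcnt P D := by
        rw [Set.ncard_coe_finset]
        unfold hcnt
        rfl

/-- a shear -/
def shr (ε : ℝ) (p : ℝ × ℝ) : ℝ × ℝ := (p.1 + ε * p.2, p.2)

lemma shr_inj (ε : ℝ) : Function.Injective (shr ε) := by
  intro p q h
  unfold shr at h
  rw [Prod.mk.injEq] at h
  refine Prod.ext ?_ h.2
  rw [h.2] at h
  linarith [h.1]

lemma shr_line (ε α β : ℝ) (p : ℝ × ℝ) :
    α * (shr ε p).1 + (β - α * ε) * (shr ε p).2 = α * p.1 + β * p.2 := by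
  unfold shr
  ring

open scoped Classical in
lemma bis_shr (ε : ℝ) (Q : Finset (ℝ × ℝ)) :
    {L | IsBisector Q L}.ncard ≤ {L | IsBisector (Q.image (shr ε)) L}.ncard := by
  refine Set.ncard_le_ncard_of_injOn (fun L => shr ε '' L) ?_ ?_
    (Pool.Agent.W296.HL.bis_finite _)
  · rintro L ⟨α, β, γ, hαβ, rfl, ⟨p, hp, q, hq, hpq, hpL, hqL⟩, h1, h2⟩
    have hcard : (Q.image (shr ε)).card = Q.card := card_image_of_injective _ (shr_inj ε)
    refine ⟨α, β - α * ε, γ, ?_, ?_, ⟨shr ε p, mem_image_of_mem _ hp, shr ε q,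
      mem_image_of_mem _ hq, fun h => hpq (shr_inj ε h), ⟨p, hpL, rfl⟩, ⟨q, hqL, rfl⟩⟩, ?_, ?_⟩
    · by_cases h : α = 0
      · right
        rcases hαβ with h' | h'
        · exact absurd h h'
        · rw [h]; simpa using h'
      · exact Or.inl h
    · ext z
      constructor
      · rintro ⟨x, hx, rfl⟩
        show α * (shr ε x).1 + (β - α * ε) * (shr ε x).2 = γ
        rw [shr_line]
        exact hx
      · intro hz
        refine ⟨(z.1 - ε * z.2, z.2), ?_, ?_⟩
        · show α * (z.1 - ε * z.2) + β * z.2 = γ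
          have : α * z.1 + (β - α * ε) * z.2 = γ := hz
          linarith
        · unfold shr
          simp
    · rw [hcard, Finset.filter_image, card_image_of_injective _ (shr_inj ε), ← h1]
      congr 1
      exact Finset.filter_congr fun x _ => by rw [shr_line]
    · rw [hcard, Finset.filter_image, card_image_of_injective _ (shr_inj ε), ← h2]
      congr 1
      exact Finset.filter_congr fun x _ => by rw [shr_line]
  · intro L _ L' _ h
    exact (shr_inj ε).image_injective h

/-- a shear which makes the abscissae different -/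
lemma exists_shr {P : Fin n → ℝ × ℝ} (hP : Function.Injective P) :
    ∃ ε : ℝ, Function.Injective fun i => (shr ε (P i)).1 := by
  classical
  obtain ⟨ε, hε⟩ := Finset.exists_notMem
    ((univ : Finset (Fin n × Fin n)).image fun q => -((P q.1).1 - (P q.2).1) /
      ((P q.1).2 - (P q.2).2))
  refine ⟨ε, ?_⟩
  intro i j h
  by_contra hij
  have hne : P i ≠ P j := fun h => hij (hP h)
  unfold shr at h
  simp only at h
  by_cases h2 : (P i).2 = (P j).2
  · rw [h2] at h
    exact hne (Prod.ext (by linarith) h2)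
  · apply hε
    rw [mem_image]
    refine ⟨(i, j), mem_univ _, ?_⟩
    simp only
    rw [div_eq_iff (sub_ne_zero.mpr h2)]
    linarith

lemma simple_of_gp {P : Fin n → ℝ × ℝ} (hP : Function.Injective P)
    (hG : GeneralPosition (univ.image P)) {ε : ℝ}
    (hε : Function.Injective fun i => (shr ε (P i)).1) :
    Simple (fun i => (shr ε (P i)).1) (fun i => (shr ε (P i)).2) := by
  classical
  refine ⟨fun i j hij h => absurd (hε h) hij, ?_⟩
  rintro i j l hij hil hjl ⟨x, h1, h2⟩
  have hL : ∀ u : Fin n, P u ∈ Line x (1 + x * ε)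
      (ht (fun i => (shr ε (P i)).1) (fun i => (shr ε (P i)).2) i x) ↔
      ht (fun i => (shr ε (P i)).1) (fun i => (shr ε (P i)).2) u x =
      ht (fun i => (shr ε (P i)).1) (fun i => (shr ε (P i)).2) i x := by
    intro u
    unfold Line ht shr
    simp only [Set.mem_ofPred_eq]
    constructor <;> intro h <;> linarith
  have hne : x ≠ 0 ∨ 1 + x * ε ≠ 0 := by
    by_cases h : x = 0
    · right
      rw [h]
      norm_num
    · exact Or.inl h
  exact hG x (1 + x * ε) _ hne (P i) (mem_image_of_mem _ (mem_univ _)) (P j)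
    (mem_image_of_mem _ (mem_univ _)) (P l) (mem_image_of_mem _ (mem_univ _))
    (hP.ne hij) (hP.ne hil) (hP.ne hjl)
    ⟨(hL i).mpr rfl, (hL j).mpr h1.symm, (hL l).mpr h2.symm⟩

open scoped Classical in
/-- the expected number of bisectors after random deletions -/
theorem expected {P : Fin n → ℝ × ℝ} (hP : Function.Injective P)
    (hG : GeneralPosition (univ.image P)) {r : ℝ} (hr0 : 0 < r) (hr : r ≤ 1 / 2) :
    ∑ D : Finset (Fin n), wt r D * ({L | IsBisector (Dᶜ.image P) L}.ncard : ℝ) ≤
      200 * (n : ℝ) ^ (7 / 6 : ℝ) * r ^ (-(1 / 6) : ℝ) := by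
  obtain ⟨ε, hε⟩ := exists_shr hP
  have hS := simple_of_gp hP hG hε
  obtain ⟨P', hGP, hP'⟩ := exists_GP hS
  refine le_trans ?_ (hcnt_bound hGP hr0 hr)
  apply sum_le_sum
  intro D _
  apply mul_le_mul_of_nonneg_left _ (wt_nonneg hr0.le (by linarith) D)
  have h1 := bis_shr ε (Dᶜ.image P)
  have h2 := bis_hcnt hε hS hP' D
  have h3 : (Dᶜ.image P).image (shr ε) =
      Dᶜ.image (pts (fun i => (shr ε (P i)).1) (fun i => (shr ε (P i)).2)) := by
    rw [Finset.image_image]
    rfl
  rw [h3] at h1
  exact_mod_cast h1.trans h2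

/-- the weight of the sets with an even number of elements -/
lemma even_weight {r : ℝ} (hr : r ≤ 1 / 2) :
    1 / 2 ≤ ∑ D : Finset (Fin n) with Even D.card, wt r D := by
  have h1 := sum_wt (n := n) r
  have h2 : ∑ D : Finset (Fin n), wt r D * (-1) ^ D.card = (1 - 2 * r) ^ n := by
    have h := Fintype.sum_pow_mul_eq_add_pow (Fin n) (-r) (1 - r)
    rw [Fintype.card_fin] at h
    rw [show (1 - 2 * r) = -r + (1 - r) by ring, ← h]
    apply sum_congr rfl
    intro D _
    unfold wt
    rw [neg_pow r]
    ring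
  have h3 : 2 * ∑ D : Finset (Fin n) with Even D.card, wt r D =
      ∑ D : Finset (Fin n), wt r D + ∑ D : Finset (Fin n), wt r D * (-1) ^ D.card := by
    rw [← sum_add_distrib, sum_filter, mul_sum]
    apply sum_congr rfl
    intro D _
    split_ifs with h
    · rw [h.neg_one_pow]; ring
    · rw [(Nat.not_even_iff_odd.mp h).neg_one_pow]; ring
  have h4 : (0 : ℝ) ≤ (1 - 2 * r) ^ n := by
    have : 0 ≤ 1 - 2 * r := by linarith
    positivity
  rw [h1, h2] at h3
  linarith

open scoped Classical in
/-- a small set of deleted points -/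
theorem exists_subset {Q : Finset (ℝ × ℝ)} (hG : GeneralPosition Q) (hQ : Even Q.card) {δ : ℝ}
    (hδ0 : 0 < δ) (hδ : δ ≤ 1) :
    ∃ R ⊆ Q, Even R.card ∧ (1 - δ) * Q.card ≤ R.card ∧
      ({L | IsBisector R L}.ncard : ℝ) ≤
        1100 * (Q.card : ℝ) ^ (7 / 6 : ℝ) * δ ^ (-(1 / 6) : ℝ) := by
  rcases Q.eq_empty_or_nonempty with rfl | hne
  · refine ⟨∅, subset_rfl, hQ, by simp, ?_⟩
    have : {L | IsBisector (∅ : Finset (ℝ × ℝ)) L} = ∅ := by
      ext L
      simp only [Set.mem_ofPred_eq, Set.mem_empty_iff_false, iff_false]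
      rintro ⟨a, b, c, -, -, ⟨p, hp, -⟩, -⟩
      simp at hp
    rw [this]
    simp
  set n := Q.card with hn
  have hn0 : 0 < n := hne.card_pos
  have hnr : (0 : ℝ) < n := by exact_mod_cast hn0
  set e := Q.equivFin.symm with he
  set P : Fin n → ℝ × ℝ := fun i => (e i : ℝ × ℝ) with hP
  have hPinj : Function.Injective P := by
    intro i j h
    exact e.injective (Subtype.ext h)
  have himg : univ.image P = Q := by
    ext x
    rw [mem_image]
    constructor
    · rintro ⟨i, -, rfl⟩
      exact (e i).2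
    · intro hx
      exact ⟨e.symm ⟨x, hx⟩, mem_univ _, by simp [hP]⟩
  set r : ℝ := δ / 4 with hr
  have hr0 : 0 < r := by positivity
  have hr2 : r ≤ 1 / 2 := by rw [hr]; linarith
  set A : ℝ := 200 * (n : ℝ) ^ (7 / 6 : ℝ) * r ^ (-(1 / 6) : ℝ) with hA
  have hA0 : 0 < A := by positivity
  have hE := expected hPinj (by rw [himg]; exact hG) hr0 hr2
  rw [← hA] at hE
  have hC := sum_wt_card (n := n) r
  set F : Finset (Fin n) → ℝ := fun D =>
    ({L | IsBisector (Dᶜ.image P) L}.ncard : ℝ) / A + D.card / (n * r) with hF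
  have hF0 : ∀ D, 0 ≤ F D := fun D => by rw [hF]; positivity
  have hnr' : 0 < n * r := by positivity
  have hEF : ∑ D : Finset (Fin n), wt r D * F D ≤ 2 := by
    have h1 : ∑ D : Finset (Fin n), wt r D * F D =
        (∑ D : Finset (Fin n), wt r D * ({L | IsBisector (Dᶜ.image P) L}.ncard : ℝ)) / A +
        (∑ D : Finset (Fin n), wt r D * D.card) / (n * r) := by
      rw [sum_div, sum_div, ← sum_add_distrib]
      apply sum_congr rfl
      intro D _
      rw [hF]
      ring
    rw [h1, hC, div_self hnr'.ne']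
    have : (∑ D : Finset (Fin n), wt r D * ({L | IsBisector (Dᶜ.image P) L}.ncard : ℝ)) / A ≤ 1 := by
      rw [div_le_one hA0]
      exact hE
    linarith
  have hex : ∃ D : Finset (Fin n), Even D.card ∧ F D ≤ 4 := by
    by_contra hcon
    push Not at hcon
    have hw := even_weight (n := n) hr2
    have h1 : ∑ D : Finset (Fin n) with Even D.card, wt r D * 4 <
        ∑ D : Finset (Fin n) with Even D.card, wt r D * F D := by
      obtain ⟨D0, hD0, hne0⟩ := Finset.exists_ne_zero_of_sum_ne_zero
        (s := univ.filter fun D : Finset (Fin n) => Even D.card) (f := fun D => wt r D)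
        (by linarith)
      apply Finset.sum_lt_sum
      · intro D hD
        exact mul_le_mul_of_nonneg_left (hcon D (mem_filter.mp hD).2).le
          (wt_nonneg hr0.le (by linarith) D)
      · exact ⟨D0, hD0, mul_lt_mul_of_pos_left (hcon D0 (mem_filter.mp hD0).2)
          (lt_of_le_of_ne (wt_nonneg hr0.le (by linarith) D0) (Ne.symm hne0))⟩
    rw [← sum_mul] at h1
    have h2 : ∑ D : Finset (Fin n) with Even D.card, wt r D * F D ≤
        ∑ D : Finset (Fin n), wt r D * F D :=
      sum_le_sum_of_subset_of_nonneg (filter_subset _ _)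
        (fun D _ _ => mul_nonneg (wt_nonneg hr0.le (by linarith) D) (hF0 D))
    linarith
  obtain ⟨D, hDe, hD4⟩ := hex
  have hcardD : (Dᶜ.image P).card + D.card = n := by
    rw [card_image_of_injective _ hPinj, card_compl, Fintype.card_fin]
    have := card_le_univ D
    rw [Fintype.card_fin] at this
    omega
  have hb0 : 0 ≤ ({L | IsBisector (Dᶜ.image P) L}.ncard : ℝ) / A := by positivity
  have hd0 : 0 ≤ (D.card : ℝ) / (n * r) := by positivity
  rw [hF] at hD4
  simp only at hD4
  refine ⟨Dᶜ.image P, ?_, ?_, ?_, ?_⟩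
  · rw [← himg]
    exact image_subset_image (subset_univ _)
  · have : Even ((Dᶜ.image P).card + D.card) := by rw [hcardD]; exact hQ
    exact (Nat.even_add.mp this).mpr hDe
  · have h1 : (D.card : ℝ) / (n * r) ≤ 4 := by linarith
    rw [div_le_iff₀ hnr'] at h1
    have h2 : (((Dᶜ.image P).card : ℕ) : ℝ) + D.card = n := by exact_mod_cast hcardD
    have h3 : 4 * (n * r) = δ * n := by rw [hr]; ring
    linarith
  · have h1 : ({L | IsBisector (Dᶜ.image P) L}.ncard : ℝ) / A ≤ 4 := by linarith
    rw [div_le_iff₀ hA0] at h1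
    refine h1.trans ?_
    have h4 : r ^ (-(1 / 6) : ℝ) ≤ 13 / 10 * δ ^ (-(1 / 6) : ℝ) := by
      rw [hr, Real.div_rpow hδ0.le (by norm_num), div_eq_mul_inv, ← Real.rpow_neg (by norm_num),
        mul_comm]
      apply mul_le_mul_of_nonneg_right _ (by positivity)
      norm_num
      have : ((4 : ℝ) ^ (1 / 6 : ℝ)) ^ 6 ≤ (13 / 10 : ℝ) ^ 6 := by
        rw [← Real.rpow_natCast, ← Real.rpow_mul (by norm_num)]
        norm_num
      exact le_of_pow_le_pow_left₀ (by norm_num) (by norm_num) this
    have h5 : 0 ≤ (n : ℝ) ^ (7 / 6 : ℝ) := by positivity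
    have h6 : 0 ≤ δ ^ (-(1 / 6) : ℝ) := by positivity
    rw [hA]
    calc 4 * (200 * (n : ℝ) ^ (7 / 6 : ℝ) * r ^ (-(1 / 6) : ℝ)) ≤
          4 * (200 * (n : ℝ) ^ (7 / 6 : ℝ) * (13 / 10 * δ ^ (-(1 / 6) : ℝ))) := by gcongr
      _ = 1040 * ((n : ℝ) ^ (7 / 6 : ℝ) * δ ^ (-(1 / 6) : ℝ)) := by ring
      _ ≤ 1100 * (n : ℝ) ^ (7 / 6 : ℝ) * δ ^ (-(1 / 6) : ℝ) := by nlinarith [mul_nonneg h5 h6]

end Pool.Agent.Q115.HLMain
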