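import Pool.Agent.Q115.GW4

/-! Pointwise regularity of walk counts from a pointwise bound for closed walks. -/

set_option autoImplicit false

open Finset

namespace Pool.Agent.Q115.KR

open Pool.Agent.Q115.GY Pool.Agent.Q115.GW

/-- operator norm approximation from rounded eigenvectors -/
theorem op_of_round {V ι : Type} [Fintype V] [DecidableEq V] [DecidableEq ι]
    {A : Matrix V V ℝ} (hA : A.IsHermitian) (Q r ε : ℝ) (R : ℕ) (hQpos : 0 < Q) (hrpos : 0 < r)
    (hε : 0 < ε)
    (hIcard : (univ.filter (fun i => ε / 4 * r < |hA.eigenvalues i|)).card ≤ R)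
    (hμbd : ∀ i, |hA.eigenvalues i| ≤ (Q + 1) * r) (χ : V → ι)
    (hround : ∀ i ∈ univ.filter (fun i => ε / 4 * r < |hA.eigenvalues i|), ∃ w : ι → ℝ,
      ∑ x, (ev hA i x - w (χ x)) ^ 2 ≤ (ε / (4 * ((R : ℝ) + 1) * (Q + 1))) ^ 2) (f g : V → ℝ) :
    |∑ x, ∑ y, f x * A x y * g y - ∑ x, ∑ y, avg χ f x * A x y * avg χ g y| ≤
      ε * r * (Real.sqrt (∑ x, f x ^ 2) * Real.sqrt (∑ x, g x ^ 2)) := by
  classical
  set δ : ℝ := ε / 4 with hδ
  have hδpos : 0 < δ := by positivity
  set c0 : ℝ := ε / (4 * ((R : ℝ) + 1) * (Q + 1)) with hc0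
  have hRnn : (0 : ℝ) ≤ R := Nat.cast_nonneg _
  have hc0pos : 0 < c0 := by positivity
  set μ := hA.eigenvalues with hμ
  set v : V → V → ℝ := ev hA with hv
  set I : Finset V := univ.filter (fun i => δ * r < |μ i|) with hI
  rw [form_eq hA f g, form_eq hA (avg χ f) (avg χ g), ← sum_sub_distrib]
  -- norms
  set nf : ℝ := Real.sqrt (∑ x, f x ^ 2) with hnf
  set ng : ℝ := Real.sqrt (∑ x, g x ^ 2) with hng
  have hnf0 : 0 ≤ nf := Real.sqrt_nonneg _
  have hng0 : 0 ≤ ng := Real.sqrt_nonneg _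
  have hcoefs : ∀ h : V → ℝ, ∑ i, (∑ x, h x * v i x) ^ 2 = ∑ x, h x ^ 2 := by
    intro h
    have := ev_parseval hA h h
    simp only [← sq] at this
    exact this.symm
  have hcoef1 : ∀ h : V → ℝ, ∀ i, |∑ x, h x * v i x| ≤ Real.sqrt (∑ x, h x ^ 2) := by
    intro h i
    apply Real.abs_le_sqrt
    rw [← hcoefs h]
    exact single_le_sum (fun i _ => sq_nonneg (∑ x, h x * v i x)) (mem_univ i)
  have havg : ∀ h : V → ℝ, Real.sqrt (∑ x, avg χ h x ^ 2) ≤ Real.sqrt (∑ x, h x ^ 2) := fun h =>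
    Real.sqrt_le_sqrt (avg_norm_le χ h)
  have hdiff : ∀ h : V → ℝ, ∀ i ∈ I,
      |∑ x, h x * v i x - ∑ x, avg χ h x * v i x| ≤ Real.sqrt (∑ x, h x ^ 2) * c0 := by
    intro h i hi
    obtain ⟨w, hw⟩ := hround i hi
    have h1 : ∑ x, h x * v i x - ∑ x, avg χ h x * v i x =
        ∑ x, (h x - avg χ h x) * (v i x - w (χ x)) := by
      have := avg_orth χ h w
      rw [← sum_sub_distrib]
      calc ∑ x, (h x * v i x - avg χ h x * v i x)
          = ∑ x, ((h x - avg χ h x) * (v i x - w (χ x)) + (h x - avg χ h x) * w (χ x)) := by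
            apply sum_congr rfl
            intro x _
            ring
        _ = _ := by rw [sum_add_distrib, this, add_zero]
    rw [h1]
    refine (abs_sum_le_sum_abs _ _).trans ?_
    simp only [abs_mul]
    refine (cs univ (fun x => h x - avg χ h x) (fun x => v i x - w (χ x))).trans ?_
    apply mul_le_mul
    · exact Real.sqrt_le_sqrt (sub_avg_norm_le χ h)
    · calc Real.sqrt (∑ x, (v i x - w (χ x)) ^ 2) ≤ Real.sqrt (c0 ^ 2) := Real.sqrt_le_sqrt hw
        _ = c0 := Real.sqrt_sq hc0pos.le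
    · exact Real.sqrt_nonneg _
    · exact Real.sqrt_nonneg _
  rw [← sum_filter_add_sum_filter_not univ (fun i => i ∈ I)]
  have hfI : univ.filter (fun i => i ∈ I) = I := by ext; simp
  rw [hfI]
  -- large part
  have hlarge : |∑ i ∈ I, (μ i * ((∑ x, f x * v i x) * ∑ x, g x * v i x) -
      μ i * ((∑ x, avg χ f x * v i x) * ∑ x, avg χ g x * v i x))| ≤ ε / 2 * r * (nf * ng) := by
    refine (abs_sum_le_sum_abs _ _).trans ?_
    have h1 : ∀ i ∈ I, |μ i * ((∑ x, f x * v i x) * ∑ x, g x * v i x) -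
      μ i * ((∑ x, avg χ f x * v i x) * ∑ x, avg χ g x * v i x)| ≤
        (Q + 1) * r * (2 * c0 * (nf * ng)) := by
      intro i hi
      rw [← mul_sub, abs_mul]
      apply mul_le_mul (hμbd i) _ (abs_nonneg _) (by positivity)
      set a := ∑ x, f x * v i x
      set b := ∑ x, g x * v i x
      set a' := ∑ x, avg χ f x * v i x
      set b' := ∑ x, avg χ g x * v i x
      have h2 : a * b - a' * b' = (a - a') * b + a' * (b - b') := by ring
      rw [h2]
      calc |(a - a') * b + a' * (b - b')| ≤ |(a - a') * b| + |a' * (b - b')| := abs_add_le _ _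
        _ = |a - a'| * |b| + |a'| * |b - b'| := by rw [abs_mul, abs_mul]
        _ ≤ (nf * c0) * ng + nf * (ng * c0) := by
            apply add_le_add
            · exact mul_le_mul (hdiff f i hi) (hcoef1 g i) (abs_nonneg _) (by positivity)
            · exact mul_le_mul ((hcoef1 (avg χ f) i).trans (havg f)) (hdiff g i hi)
                (abs_nonneg _) hnf0
        _ = 2 * c0 * (nf * ng) := by ring
    refine (sum_le_sum h1).trans ?_
    rw [sum_const, nsmul_eq_mul]
    have hIR : (I.card : ℝ) ≤ R := by exact_mod_cast hIcard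
    have hnn : 0 ≤ nf * ng := mul_nonneg hnf0 hng0
    calc (I.card : ℝ) * ((Q + 1) * r * (2 * c0 * (nf * ng)))
        ≤ ((R : ℝ) + 1) * ((Q + 1) * r * (2 * c0 * (nf * ng))) :=
          mul_le_mul_of_nonneg_right (by linarith) (by positivity)
      _ = ε / 2 * r * (nf * ng) := by
          rw [hc0]
          field_simp
          ring
  -- small part
  have hsmall : ∀ f g : V → ℝ,
      |∑ i ∈ univ.filter (fun i => ¬ i ∈ I), μ i * ((∑ x, f x * v i x) * ∑ x, g x * v i x)| ≤
        δ * r * (Real.sqrt (∑ x, f x ^ 2) * Real.sqrt (∑ x, g x ^ 2)) := by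
    intro f g
    refine (abs_sum_le_sum_abs _ _).trans ?_
    have h1 : ∀ i ∈ univ.filter (fun i => ¬ i ∈ I),
        |μ i * ((∑ x, f x * v i x) * ∑ x, g x * v i x)| ≤
        δ * r * (|∑ x, f x * v i x| * |∑ x, g x * v i x|) := by
      intro i hi
      rw [mem_filter, hI, mem_filter] at hi
      have h2 : |μ i| ≤ δ * r := by
        by_contra hcon
        push Not at hcon
        exact hi.2 ⟨mem_univ _, hcon⟩
      rw [abs_mul, abs_mul]
      exact mul_le_mul_of_nonneg_right h2 (by positivity)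
    refine (sum_le_sum h1).trans ?_
    rw [← mul_sum]
    apply mul_le_mul_of_nonneg_left _ (by positivity)
    calc ∑ i ∈ univ.filter (fun i => ¬ i ∈ I), |∑ x, f x * v i x| * |∑ x, g x * v i x|
        ≤ ∑ i, |∑ x, f x * v i x| * |∑ x, g x * v i x| :=
          sum_le_sum_of_subset_of_nonneg (subset_univ _) (fun i _ _ => by positivity)
      _ ≤ Real.sqrt (∑ i, (∑ x, f x * v i x) ^ 2) * Real.sqrt (∑ i, (∑ x, g x * v i x) ^ 2) :=
          cs univ _ _
      _ = _ := by rw [hcoefs f, hcoefs g]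
  have s1 := hsmall f g
  have s2 := hsmall (avg χ f) (avg χ g)
  have s3 : δ * r * (Real.sqrt (∑ x, avg χ f x ^ 2) * Real.sqrt (∑ x, avg χ g x ^ 2)) ≤
      δ * r * (nf * ng) := by
    apply mul_le_mul_of_nonneg_left _ (by positivity)
    exact mul_le_mul (havg f) (havg g) (Real.sqrt_nonneg _) hnf0
  rw [sum_sub_distrib (s := univ.filter (fun i => ¬ i ∈ I))]
  have htri : ∀ a b c : ℝ, |a + (b - c)| ≤ |a| + |b| + |c| := by
    intro a b c
    calc |a + (b - c)| ≤ |a| + |b - c| := abs_add_le _ _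
      _ ≤ |a| + (|b| + |c|) := by
          have := abs_sub b c
          linarith
      _ = _ := by ring
  refine (htri _ _ _).trans ?_
  have : ε * r * (nf * ng) = ε / 2 * r * (nf * ng) + δ * r * (nf * ng) + δ * r * (nf * ng) := by
    rw [hδ]; ring
  rw [this]
  exact add_le_add (add_le_add hlarge s1) (s2.trans s3)

/-- entries of powers -/
theorem entry_pow {V : Type} [Fintype V] [DecidableEq V] {A : Matrix V V ℝ} (hA : A.IsHermitian)
    (l : ℕ) (x y : V) : (A ^ l) x y = ∑ i, hA.eigenvalues i ^ l * (ev hA i x * ev hA i y) := by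
  have h := ev_parseval hA (fun z => (A ^ l) x z) (fun z => if z = y then 1 else 0)
  simp only [mul_ite, mul_one, mul_zero, sum_ite_eq', mem_univ, if_true, ite_mul, one_mul,
    zero_mul] at h
  rw [h]
  apply sum_congr rfl
  intro i _
  have := ev_pow hA i l x
  rw [this]
  ring

/-- **Pointwise regularity.**  If the number of closed walks of length `2 q` at every vertex is at
most `Λ r ^ (2 q) / n`, then a bounded number of classes determines all entries of all powers
`A ^ l`, `l > 2 q`, up to `δ ((Λ + 1) r) ^ l / n`, and `A` in the operator norm up to `δ r`. -/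
theorem pointwise (q : ℕ) (hq : 1 ≤ q) (Λ δ : ℝ) (hΛ : 0 < Λ) (hδ : 0 < δ) :
    ∃ M : ℕ, ∀ (V : Type) [Fintype V] [DecidableEq V] (A : Matrix V V ℝ), A.IsHermitian →
      ∀ r : ℝ, 0 < r →
      (∀ x, (A ^ (2 * q)) x x * Fintype.card V ≤ Λ * r ^ (2 * q)) →
      ∃ χ : V → Fin M,
        (∀ f g : V → ℝ,
          |∑ x, ∑ y, f x * A x y * g y - ∑ x, ∑ y, avg χ f x * A x y * avg χ g y| ≤
            δ * r * (Real.sqrt (∑ x, f x ^ 2) * Real.sqrt (∑ x, g x ^ 2))) ∧
        ∀ l, 2 * q < l → ∀ x x' y y', χ x = χ x' → χ y = χ y' →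
          |(A ^ l) x y - (A ^ l) x' y'| * Fintype.card V ≤ δ * ((Λ + 1) * r) ^ l := by
  classical
  -- parameters
  obtain ⟨δ0, hδ0, hδ0a, hδ0b, hδ01⟩ : ∃ δ0 : ℝ, 0 < δ0 ∧ δ0 ≤ δ / 4 ∧ δ0 * (4 * Λ) ≤ δ ∧ δ0 ≤ 1 := by
    refine ⟨min (δ / 4) (min (δ / (4 * Λ)) 1), by positivity, min_le_left _ _, ?_, ?_⟩
    · calc min (δ / 4) (min (δ / (4 * Λ)) 1) * (4 * Λ) ≤ (δ / (4 * Λ)) * (4 * Λ) :=
            mul_le_mul_of_nonneg_right ((min_le_right _ _).trans (min_le_left _ _))
              (by positivity)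
        _ = δ := by field_simp
    · exact (min_le_right _ _).trans (min_le_right _ _)
  obtain ⟨R, hR⟩ := exists_nat_ge (Λ / δ0 ^ (2 * q))
  have hRnn : (0 : ℝ) ≤ R := Nat.cast_nonneg _
  set c0 : ℝ := δ / (4 * ((R : ℝ) + 1) * (Λ + 1)) with hc0
  have hc0pos : 0 < c0 := by positivity
  set B : ℝ := Real.sqrt (Λ / δ0 ^ (2 * q)) with hB
  have hB0 : 0 ≤ B := Real.sqrt_nonneg _
  have hB2 : B ^ 2 = Λ / δ0 ^ (2 * q) := Real.sq_sqrt (by positivity)
  obtain ⟨T, hT⟩ := exists_nat_ge (max (max 1 B) (max (1 / c0) (8 * R * B / δ)))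
  have hT1 : (1 : ℝ) ≤ T := (le_max_left _ _).trans ((le_max_left _ _).trans hT)
  have hTB : B ≤ T := (le_max_right _ _).trans ((le_max_left _ _).trans hT)
  have hTc : 1 / c0 ≤ T := (le_max_left _ _).trans ((le_max_right _ _).trans hT)
  have hTR : 8 * R * B / δ ≤ T := (le_max_right _ _).trans ((le_max_right _ _).trans hT)
  have hTpos : (0 : ℝ) < T := by linarith
  have hTnat : 0 < T := by exact_mod_cast hTpos
  refine ⟨(2 * (T ^ 2 + 1) + 1) ^ R, ?_⟩
  intro V _ _ A hA r hr htr
  rcases isEmpty_or_nonempty V with hemp | hne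
  · refine ⟨fun x => (hemp.false x).elim, fun f g => by simp, fun l _ x => (hemp.false x).elim⟩
  obtain ⟨n, hn⟩ : ∃ n : ℝ, n = (Fintype.card V : ℝ) := ⟨_, rfl⟩
  have hnpos : 0 < n := by rw [hn]; exact_mod_cast Fintype.card_pos
  rw [← hn] at htr ⊢
  set sn : ℝ := Real.sqrt n with hsn
  have hsnpos : 0 < sn := Real.sqrt_pos.2 hnpos
  have hsn2 : sn * sn = n := Real.mul_self_sqrt hnpos.le
  set μ := hA.eigenvalues with hμ
  set v : V → V → ℝ := ev hA with hv
  have heven : ∀ i, |μ i| ^ (2 * q) = μ i ^ (2 * q) := fun i => by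
    rw [pow_mul, sq_abs, ← pow_mul]
  have heven0 : ∀ i, 0 ≤ μ i ^ (2 * q) := fun i => by rw [← heven]; positivity
  -- pointwise bound for the eigenvectors
  have hflat : ∀ x, ∑ i, μ i ^ (2 * q) * v i x ^ 2 ≤ Λ * r ^ (2 * q) / n := by
    intro x
    have h1 := htr x
    rw [diag_pow hA] at h1
    rw [le_div_iff₀ hnpos]
    exact h1
  have hsum : ∑ i, μ i ^ (2 * q) ≤ Λ * r ^ (2 * q) := by
    have h1 : ∑ i, μ i ^ (2 * q) = ∑ x, ∑ i, μ i ^ (2 * q) * v i x ^ 2 := by
      rw [sum_comm]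
      apply sum_congr rfl
      intro i _
      rw [← mul_sum]
      have : ∑ x, v i x ^ 2 = 1 := ev_norm hA i
      rw [this, mul_one]
    rw [h1]
    calc ∑ x, ∑ i, μ i ^ (2 * q) * v i x ^ 2 ≤ ∑ x : V, Λ * r ^ (2 * q) / n :=
          sum_le_sum (fun x _ => hflat x)
      _ = _ := by
          rw [sum_const, card_univ, nsmul_eq_mul, ← hn]
          field_simp
  have hμbd : ∀ i, |μ i| ≤ (Λ + 1) * r := by
    intro i
    by_contra hcon
    push Not at hcon
    have h1 : μ i ^ (2 * q) ≤ Λ * r ^ (2 * q) :=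
      (single_le_sum (fun i _ => heven0 i) (mem_univ i)).trans hsum
    have h2 : ((Λ + 1) * r) ^ (2 * q) < |μ i| ^ (2 * q) :=
      pow_lt_pow_left₀ hcon (by positivity) (by omega)
    rw [heven, mul_pow] at h2
    have h4 : Λ ≤ (Λ + 1) ^ (2 * q) := by
      calc Λ ≤ Λ + 1 := by linarith
        _ ≤ (Λ + 1) ^ (2 * q) := le_self_pow₀ (by linarith) (by omega)
    have h5 : Λ * r ^ (2 * q) ≤ (Λ + 1) ^ (2 * q) * r ^ (2 * q) :=
      mul_le_mul_of_nonneg_right h4 (by positivity)
    linarith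
  set I : Finset V := univ.filter (fun i => δ0 * r < |μ i|) with hI
  have hIcard : I.card ≤ R := by
    have h1 : (I.card : ℝ) * (δ0 * r) ^ (2 * q) ≤ Λ * r ^ (2 * q) := by
      refine le_trans ?_ hsum
      calc (I.card : ℝ) * (δ0 * r) ^ (2 * q) = ∑ i ∈ I, (δ0 * r) ^ (2 * q) := by
            rw [sum_const, nsmul_eq_mul]
        _ ≤ ∑ i ∈ I, μ i ^ (2 * q) := by
            apply sum_le_sum
            intro i hi
            rw [hI, mem_filter] at hi
            rw [← heven]
            exact pow_le_pow_left₀ (by positivity) hi.2.le _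
        _ ≤ ∑ i, μ i ^ (2 * q) :=
            sum_le_sum_of_subset_of_nonneg (subset_univ _) (fun i _ _ => heven0 i)
    rw [mul_pow, ← mul_assoc] at h1
    have h2 : (I.card : ℝ) * δ0 ^ (2 * q) ≤ Λ := le_of_mul_le_mul_right h1 (by positivity)
    have h3 : (I.card : ℝ) ≤ Λ / δ0 ^ (2 * q) := by
      rw [le_div_iff₀ (by positivity)]; exact h2
    exact_mod_cast h3.trans hR
  have hvbd : ∀ i ∈ I, ∀ x, |sn * v i x| ≤ B := by
    intro i hi x
    apply Real.abs_le_sqrt
    rw [hI, mem_filter] at hi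
    have h1 : (δ0 * r) ^ (2 * q) * v i x ^ 2 ≤ Λ * r ^ (2 * q) / n := by
      calc (δ0 * r) ^ (2 * q) * v i x ^ 2 ≤ μ i ^ (2 * q) * v i x ^ 2 := by
            apply mul_le_mul_of_nonneg_right _ (sq_nonneg _)
            rw [← heven]
            exact pow_le_pow_left₀ (by positivity) hi.2.le _
        _ ≤ ∑ i, μ i ^ (2 * q) * v i x ^ 2 :=
            single_le_sum (f := fun i => μ i ^ (2 * q) * v i x ^ 2)
              (fun i _ => mul_nonneg (heven0 i) (sq_nonneg _)) (mem_univ i)
        _ ≤ _ := hflat x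
    rw [le_div_iff₀ hnpos] at h1
    rw [mul_pow, sq sn, hsn2, le_div_iff₀ (by positivity)]
    have h2 : n * v i x ^ 2 * δ0 ^ (2 * q) * r ^ (2 * q) ≤ Λ * r ^ (2 * q) := by
      calc n * v i x ^ 2 * δ0 ^ (2 * q) * r ^ (2 * q)
          = (δ0 * r) ^ (2 * q) * v i x ^ 2 * n := by rw [mul_pow]; ring
        _ ≤ _ := h1
    exact le_of_mul_le_mul_right h2 (by positivity)
  obtain ⟨χ, hχ⟩ := rounding sn hsnpos T R hTnat I hIcard v
  have hround : ∀ i ∈ I, ∃ w : Fin ((2 * (T ^ 2 + 1) + 1) ^ R) → ℝ,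
      ∀ x, |v i x - w (χ x)| ≤ 1 / (T * sn) := by
    intro i hi
    obtain ⟨w, hw⟩ := hχ i hi
    exact ⟨w, fun x => (hw x).1 ((hvbd i hi x).trans hTB)⟩
  have hIsub : univ.filter (fun i => δ / 4 * r < |μ i|) ⊆ I := by
    intro i hi
    rw [mem_filter] at hi
    rw [hI, mem_filter]
    refine ⟨mem_univ _, lt_of_le_of_lt ?_ hi.2⟩
    exact mul_le_mul_of_nonneg_right hδ0a hr.le
  refine ⟨χ, ?_, ?_⟩
  · intro f g
    refine op_of_round hA Λ r δ R hΛ hr hδ ((card_le_card hIsub).trans hIcard) hμbd χ ?_ f g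
    intro i hi
    obtain ⟨w, hw⟩ := hround i (hIsub hi)
    refine ⟨w, ?_⟩
    rw [← hc0]
    calc ∑ x, (v i x - w (χ x)) ^ 2 ≤ ∑ x : V, (1 / (T * sn)) ^ 2 := by
          apply sum_le_sum
          intro x _
          rw [← sq_abs]
          exact pow_le_pow_left₀ (abs_nonneg _) (hw x) 2
      _ = (1 / (T : ℝ)) ^ 2 := by
          rw [sum_const, card_univ, nsmul_eq_mul, ← hn, ← hsn2]
          field_simp
      _ ≤ c0 ^ 2 := by
          apply pow_le_pow_left₀ (by positivity)
          rw [div_le_iff₀ hc0pos] at hTc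
          rw [div_le_iff₀ hTpos]
          linarith
  · intro l hl x x' y y' hx hy
    -- large eigenvalues
    have hsame : ∀ i ∈ I, ∀ a b, χ a = χ b → |v i a - v i b| ≤ 2 / (T * sn) := by
      intro i hi a b hab
      obtain ⟨w, hw⟩ := hround i hi
      have h1 := hw a
      have h2 := hw b
      rw [← hab] at h2
      calc |v i a - v i b| = |(v i a - w (χ a)) - (v i b - w (χ a))| := by ring_nf
        _ ≤ |v i a - w (χ a)| + |v i b - w (χ a)| := abs_sub _ _
        _ ≤ 1 / (T * sn) + 1 / (T * sn) := add_le_add h1 h2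
        _ = _ := by ring
    have hvb : ∀ i ∈ I, ∀ a, |v i a| ≤ B / sn := by
      intro i hi a
      have h1 := hvbd i hi a
      rw [abs_mul, abs_of_pos hsnpos] at h1
      rw [le_div_iff₀ hsnpos]
      linarith
    have hprod : ∀ i ∈ I, |v i x * v i y - v i x' * v i y'| ≤ 4 * B / (T * n) := by
      intro i hi
      have e : v i x * v i y - v i x' * v i y' =
          (v i x - v i x') * v i y + v i x' * (v i y - v i y') := by ring
      rw [e]
      calc |(v i x - v i x') * v i y + v i x' * (v i y - v i y')|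
          ≤ |v i x - v i x'| * |v i y| + |v i x'| * |v i y - v i y'| := by
            rw [← abs_mul, ← abs_mul]; exact abs_add_le _ _
        _ ≤ (2 / (T * sn)) * (B / sn) + (B / sn) * (2 / (T * sn)) := by
            apply add_le_add
            · exact mul_le_mul (hsame i hi _ _ hx) (hvb i hi _) (abs_nonneg _) (by positivity)
            · exact mul_le_mul (hvb i hi _) (hsame i hi _ _ hy) (abs_nonneg _) (by positivity)
        _ = _ := by
            rw [← hsn2]
            field_simp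
            ring
    have hC0 : 0 ≤ (Λ + 1) * r := by positivity
    have hlarge : |∑ i ∈ I, μ i ^ l * (v i x * v i y - v i x' * v i y')| ≤
        δ / 2 * ((Λ + 1) * r) ^ l / n := by
      refine (abs_sum_le_sum_abs _ _).trans ?_
      calc ∑ i ∈ I, |μ i ^ l * (v i x * v i y - v i x' * v i y')|
          ≤ ∑ i ∈ I, ((Λ + 1) * r) ^ l * (4 * B / (T * n)) := by
            apply sum_le_sum
            intro i hi
            rw [abs_mul, abs_pow]
            exact mul_le_mul (pow_le_pow_left₀ (abs_nonneg _) (hμbd i) l) (hprod i hi)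
              (abs_nonneg _) (by positivity)
        _ = (I.card : ℝ) * (((Λ + 1) * r) ^ l * (4 * B / (T * n))) := by
            rw [sum_const, nsmul_eq_mul]
        _ ≤ (R : ℝ) * (((Λ + 1) * r) ^ l * (4 * B / (T * n))) := by
            apply mul_le_mul_of_nonneg_right _ (by positivity)
            exact_mod_cast hIcard
        _ = (8 * R * B / T) / 2 * ((Λ + 1) * r) ^ l / n := by
            field_simp
            ring
        _ ≤ δ / 2 * ((Λ + 1) * r) ^ l / n := by
            have h8 : 8 * (R : ℝ) * B / T ≤ δ := by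
              rw [div_le_iff₀ hTpos]
              rw [div_le_iff₀ hδ] at hTR
              linarith
            gcongr
    -- small eigenvalues
    have hsmall : ∀ a b, |∑ i ∈ univ.filter (fun i => ¬ i ∈ I), μ i ^ l * (v i a * v i b)| ≤
        δ / 4 * ((Λ + 1) * r) ^ l / n := by
      intro a b
      refine (abs_sum_le_sum_abs _ _).trans ?_
      have h1 : ∀ i ∈ univ.filter (fun i => ¬ i ∈ I), |μ i ^ l * (v i a * v i b)| ≤
          (δ0 * r) ^ (l - 2 * q) * ((μ i ^ (2 * q) * v i a ^ 2 + μ i ^ (2 * q) * v i b ^ 2) / 2) := by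
        intro i hi
        rw [mem_filter, hI, mem_filter] at hi
        have h2 : |μ i| ≤ δ0 * r := by
          by_contra hcon
          push Not at hcon
          exact hi.2 ⟨mem_univ _, hcon⟩
        have h3 : |μ i| ^ l = |μ i| ^ (l - 2 * q) * μ i ^ (2 * q) := by
          rw [← heven, ← pow_add]; congr 1; omega
        rw [abs_mul, abs_pow, h3, abs_mul]
        have h4 : |v i a| * |v i b| ≤ (v i a ^ 2 + v i b ^ 2) / 2 := by
          nlinarith [sq_nonneg (|v i a| - |v i b|), sq_abs (v i a), sq_abs (v i b)]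
        have h5 : |μ i| ^ (l - 2 * q) ≤ (δ0 * r) ^ (l - 2 * q) :=
          pow_le_pow_left₀ (abs_nonneg _) h2 _
        calc |μ i| ^ (l - 2 * q) * μ i ^ (2 * q) * (|v i a| * |v i b|)
            ≤ (δ0 * r) ^ (l - 2 * q) * μ i ^ (2 * q) * ((v i a ^ 2 + v i b ^ 2) / 2) := by
              apply mul_le_mul _ h4 (by positivity)
                (mul_nonneg (by positivity) (heven0 i))
              exact mul_le_mul_of_nonneg_right h5 (heven0 i)
          _ = _ := by ring
      refine (sum_le_sum h1).trans ?_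
      rw [← mul_sum]
      have h6 : ∑ i ∈ univ.filter (fun i => ¬ i ∈ I),
          (μ i ^ (2 * q) * v i a ^ 2 + μ i ^ (2 * q) * v i b ^ 2) / 2 ≤ Λ * r ^ (2 * q) / n := by
        calc ∑ i ∈ univ.filter (fun i => ¬ i ∈ I),
              (μ i ^ (2 * q) * v i a ^ 2 + μ i ^ (2 * q) * v i b ^ 2) / 2
            ≤ ∑ i, (μ i ^ (2 * q) * v i a ^ 2 + μ i ^ (2 * q) * v i b ^ 2) / 2 := by
              apply sum_le_sum_of_subset_of_nonneg (subset_univ _)
              intro i _ _
              have := heven0 i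
              positivity
          _ = (∑ i, μ i ^ (2 * q) * v i a ^ 2 + ∑ i, μ i ^ (2 * q) * v i b ^ 2) / 2 := by
              rw [← sum_div, sum_add_distrib]
          _ ≤ _ := by
              have := hflat a
              have := hflat b
              linarith
      calc (δ0 * r) ^ (l - 2 * q) * ∑ i ∈ univ.filter (fun i => ¬ i ∈ I),
            (μ i ^ (2 * q) * v i a ^ 2 + μ i ^ (2 * q) * v i b ^ 2) / 2
          ≤ (δ0 * r) ^ (l - 2 * q) * (Λ * r ^ (2 * q) / n) :=
            mul_le_mul_of_nonneg_left h6 (by positivity)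
        _ = δ0 ^ (l - 2 * q) * Λ * r ^ l / n := by
            have : r ^ l = r ^ (l - 2 * q) * r ^ (2 * q) := by
              rw [← pow_add]; congr 1; omega
            rw [mul_pow, this]
            ring
        _ ≤ δ / 4 * ((Λ + 1) * r) ^ l / n := by
            have h7 : δ0 ^ (l - 2 * q) ≤ δ0 := by
              calc δ0 ^ (l - 2 * q) ≤ δ0 ^ 1 :=
                    pow_le_pow_of_le_one hδ0.le hδ01 (by omega)
                _ = δ0 := pow_one _
            have h8 : δ0 ^ (l - 2 * q) * Λ ≤ δ / 4 := by nlinarith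
            have h9 : r ^ l ≤ ((Λ + 1) * r) ^ l := by
              apply pow_le_pow_left₀ hr.le
              nlinarith
            gcongr
    rw [entry_pow hA, entry_pow hA, ← sum_sub_distrib]
    rw [← sum_filter_add_sum_filter_not univ (fun i => i ∈ I)]
    have hfI : univ.filter (fun i => i ∈ I) = I := by ext; simp
    rw [hfI]
    have e1 : ∑ i ∈ I, (μ i ^ l * (v i x * v i y) - μ i ^ l * (v i x' * v i y')) =
        ∑ i ∈ I, μ i ^ l * (v i x * v i y - v i x' * v i y') :=
      sum_congr rfl (fun i _ => by ring)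
    rw [e1, sum_sub_distrib (s := univ.filter (fun i => ¬ i ∈ I))]
    have htri : ∀ a b c : ℝ, |a + (b - c)| ≤ |a| + |b| + |c| := by
      intro a b c
      calc |a + (b - c)| ≤ |a| + |b - c| := abs_add_le _ _
        _ ≤ |a| + (|b| + |c|) := by
            have := abs_sub b c
            linarith
        _ = _ := by ring
    have h10 := (htri (∑ i ∈ I, μ i ^ l * (v i x * v i y - v i x' * v i y'))
      (∑ i ∈ univ.filter (fun i => ¬ i ∈ I), μ i ^ l * (v i x * v i y))
      (∑ i ∈ univ.filter (fun i => ¬ i ∈ I), μ i ^ l * (v i x' * v i y'))).trans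
      (add_le_add (add_le_add hlarge (hsmall x y)) (hsmall x' y'))
    have e2 : δ / 2 * ((Λ + 1) * r) ^ l / n + δ / 4 * ((Λ + 1) * r) ^ l / n +
        δ / 4 * ((Λ + 1) * r) ^ l / n = δ * ((Λ + 1) * r) ^ l / n := by ring
    rw [e2, le_div_iff₀ hnpos] at h10
    exact h10

end Pool.Agent.Q115.KR
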