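import Pool.Agent.Q115.KR1
import Pool.Agent.Q115.GZ1

/-! Closed walks of length four in `K_{s,t}`-free graphs: a pointwise bound. -/

set_option autoImplicit false

open Finset

namespace Pool.Agent.Q115.KR

open Pool.Agent.Q115.GY Pool.Agent.Q115.GW

/-- common neighbours of `s` vertices -/
theorem common_le {V : Type} [Fintype V] [DecidableEq V] (G : SimpleGraph V) [DecidableRel G.Adj]
    {s t : ℕ} (ht : 1 ≤ t) (hG : Q116.KR.NoST G.Adj s t) (Z : Finset V) (hZ : Z.card = s) :
    (univ.filter (fun u => ∀ a ∈ Z, G.Adj a u)).card ≤ t - 1 := by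
  classical
  by_contra hcon
  push Not at hcon
  have h1 : t ≤ (univ.filter (fun u => ∀ a ∈ Z, G.Adj a u)).card := by omega
  obtain ⟨W, hW1, hW2⟩ := exists_subset_card_eq h1
  refine hG ⟨fun i => ((Z.equivFinOfCardEq hZ).symm i : V), fun j => ((W.equivFinOfCardEq hW2).symm j : V),
    ?_, ?_, ?_⟩
  · intro i j hij
    exact (Z.equivFinOfCardEq hZ).symm.injective (Subtype.ext hij)
  · intro i j hij
    exact (W.equivFinOfCardEq hW2).symm.injective (Subtype.ext hij)
  · intro i j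
    have h2 := hW1 ((W.equivFinOfCardEq hW2).symm j).2
    rw [mem_filter] at h2
    exact h2.2 _ ((Z.equivFinOfCardEq hZ).symm i).2

/-- common neighbours of `u` and `u'` different from `x` -/
def cn {V : Type} [Fintype V] [DecidableEq V] (G : SimpleGraph V) [DecidableRel G.Adj]
    (x u u' : V) : Finset V :=
  univ.filter (fun y => y ≠ x ∧ G.Adj y u ∧ G.Adj y u')

theorem link_count {V : Type} [Fintype V] [DecidableEq V] (G : SimpleGraph V) [DecidableRel G.Adj]
    {s t : ℕ} (hs : 2 ≤ s) (ht : 1 ≤ t) (hG : Q116.KR.NoST G.Adj s t) (x : V) :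
    ∑ u ∈ G.neighborFinset x, ∑ u' ∈ G.neighborFinset x, (cn G x u u').card.choose (s - 1) ≤
      (Fintype.card V).choose (s - 1) * (t - 1) ^ 2 := by
  classical
  set P : Finset (Finset V) := powersetCard (s - 1) (univ.erase x) with hP
  have h1 : ∀ u u', (cn G x u u').card.choose (s - 1) =
      ∑ Y ∈ P, (if ∀ y ∈ Y, G.Adj y u then 1 else 0) * (if ∀ y ∈ Y, G.Adj y u' then 1 else 0) := by
    intro u u'
    rw [← card_powersetCard]
    have h2 : powersetCard (s - 1) (cn G x u u') =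
        P.filter (fun Y => (∀ y ∈ Y, G.Adj y u) ∧ ∀ y ∈ Y, G.Adj y u') := by
      ext Y
      rw [mem_filter, hP, mem_powersetCard, mem_powersetCard]
      constructor
      · rintro ⟨h3, h4⟩
        have h5 : ∀ y ∈ Y, y ≠ x ∧ G.Adj y u ∧ G.Adj y u' := fun y hy => by
          have := h3 hy
          rw [cn, mem_filter] at this
          exact this.2
        refine ⟨⟨fun y hy => mem_erase.2 ⟨(h5 y hy).1, mem_univ _⟩, h4⟩, fun y hy => (h5 y hy).2.1,
          fun y hy => (h5 y hy).2.2⟩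
      · rintro ⟨⟨h3, h4⟩, h5, h6⟩
        refine ⟨fun y hy => ?_, h4⟩
        rw [cn, mem_filter]
        exact ⟨mem_univ _, (mem_erase.1 (h3 hy)).1, h5 y hy, h6 y hy⟩
    rw [h2, card_filter]
    apply sum_congr rfl
    intro Y _
    by_cases h3 : ∀ y ∈ Y, G.Adj y u
    · by_cases h4 : ∀ y ∈ Y, G.Adj y u'
      · simp only [if_pos h3, if_pos h4, if_pos (And.intro h3 h4), mul_one]
      · rw [if_neg (fun h => h4 h.2), if_neg h4, mul_zero]
    · rw [if_neg (fun h => h3 h.1), if_neg h3, zero_mul]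
  simp only [h1]
  have h2 : ∑ u ∈ G.neighborFinset x, ∑ u' ∈ G.neighborFinset x, ∑ Y ∈ P,
      (if ∀ y ∈ Y, G.Adj y u then 1 else 0) * (if ∀ y ∈ Y, G.Adj y u' then 1 else 0) =
      ∑ Y ∈ P, (∑ u ∈ G.neighborFinset x, if ∀ y ∈ Y, G.Adj y u then 1 else 0) ^ 2 := by
    have e : ∀ u ∈ G.neighborFinset x, ∑ u' ∈ G.neighborFinset x, ∑ Y ∈ P,
      (if ∀ y ∈ Y, G.Adj y u then 1 else 0) * (if ∀ y ∈ Y, G.Adj y u' then 1 else 0) =
      ∑ Y ∈ P, ∑ u' ∈ G.neighborFinset x,
      (if ∀ y ∈ Y, G.Adj y u then 1 else 0) * (if ∀ y ∈ Y, G.Adj y u' then 1 else 0) :=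
      fun u _ => sum_comm
    rw [sum_congr rfl e, sum_comm]
    apply sum_congr rfl
    intro Y _
    rw [sq, sum_mul_sum]
  rw [h2]
  have h3 : ∀ Y ∈ P, (∑ u ∈ G.neighborFinset x, if ∀ y ∈ Y, G.Adj y u then 1 else 0) ^ 2 ≤
      (t - 1) ^ 2 := by
    intro Y hY
    rw [hP, mem_powersetCard] at hY
    apply Nat.pow_le_pow_left
    rw [← card_filter]
    have hx : x ∉ Y := fun h => (mem_erase.1 (hY.1 h)).1 rfl
    refine le_trans (card_le_card ?_) (common_le G ht hG (insert x Y)
      (by rw [card_insert_of_notMem hx, hY.2]; omega))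
    intro u hu
    rw [mem_filter, SimpleGraph.mem_neighborFinset] at hu
    rw [mem_filter]
    refine ⟨mem_univ _, fun a ha => ?_⟩
    rw [mem_insert] at ha
    rcases ha with rfl | ha
    · exact hu.1
    · exact hu.2 a ha
  refine (sum_le_sum h3).trans ?_
  rw [sum_const, smul_eq_mul, hP, card_powersetCard]
  apply Nat.mul_le_mul_right
  apply Nat.choose_le_choose
  rw [← card_univ]
  exact card_le_card (erase_subset _ _)

/-- the number of paths of length two between two neighbours of `x` -/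
theorem link_sum {V : Type} [Fintype V] [DecidableEq V] (G : SimpleGraph V) [DecidableRel G.Adj]
    {s t : ℕ} (hs : 2 ≤ s) (ht : 1 ≤ t) (hG : Q116.KR.NoST G.Adj s t) (x : V) :
    (∑ p ∈ G.neighborFinset x ×ˢ G.neighborFinset x,
      (((cn G x p.1 p.2).card - (s - 2) : ℕ) : ℝ)) ^ (s - 1) ≤
      ((G.degree x : ℝ) ^ 2) ^ (s - 2) * ((Fintype.card V : ℝ) ^ (s - 1) * (t - 1 : ℕ) ^ 2) := by
  classical
  have h1 := link_count G hs ht hG x
  have h2 : ∑ p ∈ G.neighborFinset x ×ˢ G.neighborFinset x,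
      ((cn G x p.1 p.2).card - (s - 2)) ^ (s - 1) ≤
      (Fintype.card V) ^ (s - 1) * (t - 1) ^ 2 := by
    calc ∑ p ∈ G.neighborFinset x ×ˢ G.neighborFinset x,
        ((cn G x p.1 p.2).card - (s - 2)) ^ (s - 1)
        ≤ ∑ p ∈ G.neighborFinset x ×ˢ G.neighborFinset x,
          (s - 1).factorial * (cn G x p.1 p.2).card.choose (s - 1) := by
          apply sum_le_sum
          intro p _
          rw [← Nat.descFactorial_eq_factorial_mul_choose]
          have := Nat.pow_sub_le_descFactorial (cn G x p.1 p.2).card (s - 1)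
          refine le_trans (le_of_eq ?_) this
          congr 1
          omega
      _ = (s - 1).factorial * ∑ u ∈ G.neighborFinset x, ∑ u' ∈ G.neighborFinset x,
          (cn G x u u').card.choose (s - 1) := by
          rw [← mul_sum, sum_product]
      _ ≤ (s - 1).factorial * ((Fintype.card V).choose (s - 1) * (t - 1) ^ 2) :=
          Nat.mul_le_mul_left _ h1
      _ = (Fintype.card V).descFactorial (s - 1) * (t - 1) ^ 2 := by
          rw [Nat.descFactorial_eq_factorial_mul_choose]; ring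
      _ ≤ _ := Nat.mul_le_mul_right _ (Nat.descFactorial_le_pow _ _)
  have h3 : ∑ p ∈ G.neighborFinset x ×ˢ G.neighborFinset x,
      (((cn G x p.1 p.2).card - (s - 2) : ℕ) : ℝ) ^ (s - 1) ≤
      (Fintype.card V : ℝ) ^ (s - 1) * (t - 1 : ℕ) ^ 2 := by exact_mod_cast h2
  rcases Nat.eq_zero_or_pos (G.degree x) with h0 | hpos
  · have : G.neighborFinset x = ∅ := by
      rw [← card_eq_zero, G.card_neighborFinset_eq_degree, h0]
    rw [this]
    simp only [empty_product, sum_empty]
    rw [zero_pow (by omega)]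
    positivity
  have hdpos : (0 : ℝ) < G.degree x := by exact_mod_cast hpos
  have hcard : ((G.neighborFinset x ×ˢ G.neighborFinset x).card : ℝ) = (G.degree x : ℝ) ^ 2 := by
    rw [card_product, G.card_neighborFinset_eq_degree]
    push_cast
    ring
  have h4 := pow_sum_div_card_le_sum_pow (s := G.neighborFinset x ×ˢ G.neighborFinset x)
    (f := fun p => (((cn G x p.1 p.2).card - (s - 2) : ℕ) : ℝ)) (fun _ _ => Nat.cast_nonneg _) (s - 2)
  rw [hcard, div_le_iff₀ (by positivity)] at h4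
  have e : s - 2 + 1 = s - 1 := by omega
  rw [e] at h4
  refine h4.trans ?_
  rw [mul_comm]
  exact mul_le_mul_of_nonneg_left h3 (by positivity)

/-- closed walks of length four -/
theorem four_eq {V : Type} [Fintype V] [DecidableEq V] (G : SimpleGraph V) [DecidableRel G.Adj]
    (x : V) : ((G.adjMatrix ℝ) ^ 4) x x = ∑ p ∈ G.neighborFinset x ×ˢ G.neighborFinset x,
      ((univ.filter (fun y => G.Adj y p.1 ∧ G.Adj y p.2)).card : ℝ) := by
  classical
  have e : (G.adjMatrix ℝ) ^ 4 = G.adjMatrix ℝ * (G.adjMatrix ℝ * G.adjMatrix ℝ) * G.adjMatrix ℝ := by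
    rw [pow_succ, pow_succ, pow_succ, pow_one]
    simp only [Matrix.mul_assoc]
  rw [e, Matrix.mul_apply]
  simp only [Matrix.mul_apply, SimpleGraph.adjMatrix_apply]
  rw [sum_product]
  have h1 : ∀ u u', ∑ y, (if G.Adj u y then (1 : ℝ) else 0) * (if G.Adj y u' then 1 else 0) =
      ((univ.filter (fun y => G.Adj y u ∧ G.Adj y u')).card : ℝ) := by
    intro u u'
    rw [card_filter]
    push_cast
    apply sum_congr rfl
    intro y _
    by_cases h1 : G.Adj u y
    · by_cases h2 : G.Adj y u'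
      · rw [if_pos h1, if_pos h2, if_pos ⟨h1.symm, h2⟩, mul_one]
      · rw [if_neg h2, mul_zero, if_neg (fun h => h2 h.2)]
    · rw [if_neg h1, zero_mul, if_neg (fun h => h1 h.1.symm)]
  simp only [h1]
  have h2 : ∀ (f : V → ℝ), ∑ u, (if G.Adj x u then (1 : ℝ) else 0) * f u =
      ∑ u ∈ G.neighborFinset x, f u := by
    intro f
    rw [G.neighborFinset_eq_filter, sum_filter]
    apply sum_congr rfl
    intro u _
    split_ifs <;> simp
  simp only [h2]
  have h3 : ∀ (f : V → ℝ), ∑ u, f u * (if G.Adj u x then (1 : ℝ) else 0) =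
      ∑ u ∈ G.neighborFinset x, f u := by
    intro f
    rw [← h2]
    apply sum_congr rfl
    intro u _
    rw [mul_comm]
    by_cases h : G.Adj u x
    · rw [if_pos h, if_pos h.symm]
    · rw [if_neg h, if_neg (fun h' => h h'.symm)]
  rw [h3, sum_comm]

theorem four_walks {V : Type} [Fintype V] [DecidableEq V] (G : SimpleGraph V) [DecidableRel G.Adj]
    {s t : ℕ} (hs : 2 ≤ s) (ht : 1 ≤ t) (hG : Q116.KR.NoST G.Adj s t) (K r : ℝ) (hK : 0 < K)
    (hr : 0 < r) (hrs : r ^ s = (Fintype.card V : ℝ) ^ (s - 1)) (hr2 : (Fintype.card V : ℝ) ≤ r ^ 2)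
    (hdeg : ∀ x, (G.degree x : ℝ) ≤ K * r) (x : V) :
    ((G.adjMatrix ℝ) ^ 4) x x * Fintype.card V ≤
      (1 + (K ^ 2) ^ (s - 2) * (t : ℝ) ^ 2 + s * K ^ 2) * r ^ 4 := by
  classical
  obtain ⟨n, hn⟩ : ∃ n : ℝ, n = (Fintype.card V : ℝ) := ⟨_, rfl⟩
  have hnpos : 0 < n := by
    rw [hn]
    have : 0 < Fintype.card V := Fintype.card_pos_iff.2 ⟨x⟩
    exact_mod_cast this
  have h1 := link_sum G hs ht hG x
  rw [← hn] at hrs hr2 h1 ⊢
  set Z : ℝ := ∑ p ∈ G.neighborFinset x ×ˢ G.neighborFinset x,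
    (((cn G x p.1 p.2).card - (s - 2) : ℕ) : ℝ) with hZ
  have hZ0 : 0 ≤ Z := sum_nonneg (fun _ _ => Nat.cast_nonneg _)
  set C0 : ℝ := 1 + (K ^ 2) ^ (s - 2) * (t : ℝ) ^ 2 with hC0
  have hC01 : 1 ≤ C0 := by
    rw [hC0]
    have : 0 ≤ (K ^ 2) ^ (s - 2) * (t : ℝ) ^ 2 := by positivity
    linarith
  have hd0 : (0 : ℝ) ≤ G.degree x := Nat.cast_nonneg _
  -- the sum `Z`
  have h2 : (Z * n) ^ (s - 1) ≤ (C0 * r ^ 4) ^ (s - 1) := by
    calc (Z * n) ^ (s - 1) = Z ^ (s - 1) * n ^ (s - 1) := mul_pow _ _ _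
      _ ≤ (((G.degree x : ℝ) ^ 2) ^ (s - 2) * (n ^ (s - 1) * (t - 1 : ℕ) ^ 2)) * n ^ (s - 1) :=
          mul_le_mul_of_nonneg_right h1 (by positivity)
      _ ≤ (((K * r) ^ 2) ^ (s - 2) * (n ^ (s - 1) * (t : ℝ) ^ 2)) * n ^ (s - 1) := by
          apply mul_le_mul_of_nonneg_right _ (by positivity)
          apply mul_le_mul
          · exact pow_le_pow_left₀ (by positivity) (pow_le_pow_left₀ hd0 (hdeg x) 2) _
          · apply mul_le_mul_of_nonneg_left _ (by positivity)
            apply pow_le_pow_left₀ (Nat.cast_nonneg _)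
            have : t - 1 ≤ t := by omega
            exact_mod_cast this
          · positivity
          · positivity
      _ = ((K ^ 2) ^ (s - 2) * (t : ℝ) ^ 2) * (r ^ 4) ^ (s - 1) := by
          rw [← hrs]
          have e1 : (r ^ 4) ^ (s - 1) = (r ^ 2) ^ (s - 2) * (r ^ s * r ^ s) := by
            rw [← pow_mul, ← pow_mul, ← pow_add, ← pow_add]
            congr 1
            omega
          rw [e1, mul_pow K r 2, mul_pow (K ^ 2)]
          ring
      _ ≤ C0 ^ (s - 1) * (r ^ 4) ^ (s - 1) := by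
          apply mul_le_mul_of_nonneg_right _ (by positivity)
          calc (K ^ 2) ^ (s - 2) * (t : ℝ) ^ 2 ≤ C0 := by rw [hC0]; linarith
            _ ≤ C0 ^ (s - 1) := le_self_pow₀ hC01 (by omega)
      _ = _ := by rw [mul_pow C0]
  have h3 : Z * n ≤ C0 * r ^ 4 :=
    le_of_pow_le_pow_left₀ (by omega) (by positivity) h2
  -- comparison
  have h4 : ((G.adjMatrix ℝ) ^ 4) x x ≤ Z + s * (K * r) ^ 2 := by
    rw [four_eq]
    have h5 : ∀ p ∈ G.neighborFinset x ×ˢ G.neighborFinset x,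
        ((univ.filter (fun y => G.Adj y p.1 ∧ G.Adj y p.2)).card : ℝ) ≤
        (((cn G x p.1 p.2).card - (s - 2) : ℕ) : ℝ) + s := by
      intro p _
      have h6 : (univ.filter (fun y => G.Adj y p.1 ∧ G.Adj y p.2)).card ≤
          (cn G x p.1 p.2).card + 1 := by
        have h7 : univ.filter (fun y => G.Adj y p.1 ∧ G.Adj y p.2) ⊆
            insert x (cn G x p.1 p.2) := by
          intro y hy
          rw [mem_filter] at hy
          rw [mem_insert]
          by_cases hyx : y = x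
          · exact Or.inl hyx
          · right
            rw [cn, mem_filter]
            exact ⟨mem_univ _, hyx, hy.2.1, hy.2.2⟩
        exact (card_le_card h7).trans (card_insert_le _ _)
      have h8 : (univ.filter (fun y => G.Adj y p.1 ∧ G.Adj y p.2)).card ≤
          ((cn G x p.1 p.2).card - (s - 2)) + s := by omega
      exact_mod_cast h8
    refine (sum_le_sum h5).trans ?_
    rw [sum_add_distrib, sum_const, nsmul_eq_mul, card_product, G.card_neighborFinset_eq_degree]
    push_cast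
    have h9 : (G.degree x : ℝ) * (G.degree x : ℝ) ≤ (K * r) ^ 2 := by
      rw [← sq]
      exact pow_le_pow_left₀ hd0 (hdeg x) 2
    have h10 : (0 : ℝ) ≤ s := Nat.cast_nonneg _
    nlinarith
  calc ((G.adjMatrix ℝ) ^ 4) x x * n ≤ (Z + s * (K * r) ^ 2) * n :=
        mul_le_mul_of_nonneg_right h4 hnpos.le
    _ = Z * n + s * K ^ 2 * r ^ 2 * n := by ring
    _ ≤ C0 * r ^ 4 + s * K ^ 2 * r ^ 2 * r ^ 2 := by
        apply add_le_add h3
        exact mul_le_mul_of_nonneg_left hr2 (by positivity)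
    _ = _ := by ring

end Pool.Agent.Q115.KR
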