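import Pool.Agent.Q115.KR2
import Pool.Agent.Q115.GW5
import Pool.Agent.Q115.GV2
import Pool.Agent.Q116.ZK.Tail

/-! Walks and cycles in `K_{s,t}`-free graphs. -/

set_option autoImplicit false

open Finset

namespace Pool.Agent.Q115.KR

open Pool.Agent.Q115.GY Pool.Agent.Q115.GW Q116.KR Q116.ZK

/-- the number of cycles of length `l`, counted with a starting point and an orientation -/
noncomputable def cyc {V : Type} [Fintype V] (G : SimpleGraph V) (l : ℕ) : ℕ :=
  ∑ x, {p : G.Walk x x | p.IsCycle ∧ p.length = l}.ncard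

theorem isCycle_of_inj {V : Type} {G : SimpleGraph V} {u : V} (p : G.Walk u u)
    (h3 : 3 ≤ p.length) (hinj : ∀ j < p.length, ∀ i < j, p.getVert i ≠ p.getVert j) :
    p.IsCycle := by
  rw [SimpleGraph.Walk.isCycle_iff_isPath_tail_and_le_length]
  refine ⟨?_, h3⟩
  rw [← SimpleGraph.Walk.IsPath.getVert_injOn_iff]
  have hlen : p.tail.length + 1 = p.length := by
    apply SimpleGraph.Walk.length_tail_add_one
    intro h
    have := SimpleGraph.Walk.length_eq_zero_iff.2 h
    omega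
  have key : ∀ i j, i ≤ p.tail.length → j ≤ p.tail.length → i < j →
      p.tail.getVert i ≠ p.tail.getVert j := by
    intro i j hi hj hij h
    rw [SimpleGraph.Walk.getVert_tail, SimpleGraph.Walk.getVert_tail] at h
    by_cases hj' : j + 1 = p.length
    · rw [hj', SimpleGraph.Walk.getVert_length] at h
      have h0 := hinj (i + 1) (by omega) 0 (by omega)
      rw [SimpleGraph.Walk.getVert_zero] at h0
      exact h0 h.symm
    · exact hinj (j + 1) (by omega) (i + 1) (by omega) h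
  intro i hi j hj hij
  rw [Set.mem_ofPred_eq] at hi hj
  rcases lt_trichotomy i j with h | h | h
  · exact absurd hij (key i j hi hj h)
  · exact h
  · exact absurd hij.symm (key j i hj hi h)

theorem cyc_trace {V : Type} [Fintype V] [DecidableEq V] (G : SimpleGraph V) [DecidableRel G.Adj]
    (l : ℕ) (hl : 3 ≤ l) :
    |((G.adjMatrix ℝ) ^ l).trace - (cyc G l : ℝ)| ≤
      ((∑ w, ((G.finsetWalkLength l w w).filter
      (fun p => ∃ j ∈ range l, ∃ i ∈ range j, p.getVert i = p.getVert j)).card : ℕ) : ℝ) := by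
  classical
  have h1 : ((G.adjMatrix ℝ) ^ l).trace = ((∑ w, (G.finsetWalkLength l w w).card : ℕ) : ℝ) := by
    unfold Matrix.trace
    push_cast
    apply sum_congr rfl
    intro w _
    rw [Matrix.diag_apply, G.adjMatrix_pow_apply_eq_card_walk, SimpleGraph.card_set_walk_length_eq]
  have h2 : ∀ w, {p : G.Walk w w | p.IsCycle ∧ p.length = l}.ncard =
      ((G.finsetWalkLength l w w).filter (fun p => p.IsCycle)).card := by
    intro w
    rw [← Set.ncard_coe_finset]
    congr 1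
    ext p
    rw [Set.mem_ofPred_eq, mem_coe, mem_filter, SimpleGraph.mem_finsetWalkLength_iff]
    tauto
  have h3 : ∀ w, (G.finsetWalkLength l w w).card ≤
      ((G.finsetWalkLength l w w).filter (fun p => p.IsCycle)).card +
      ((G.finsetWalkLength l w w).filter
        (fun p => ∃ j ∈ range l, ∃ i ∈ range j, p.getVert i = p.getVert j)).card := by
    intro w
    rw [← card_filter_add_card_filter_not (s := G.finsetWalkLength l w w) (fun p => p.IsCycle)]
    apply Nat.add_le_add_left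
    apply card_le_card
    intro p hp
    rw [mem_filter] at hp ⊢
    refine ⟨hp.1, ?_⟩
    by_contra hcon
    apply hp.2
    have hlen : p.length = l := SimpleGraph.mem_finsetWalkLength_iff.1 hp.1
    apply isCycle_of_inj p (by omega)
    intro j hj i hi h
    exact hcon ⟨j, mem_range.2 (by omega), i, mem_range.2 hi, h⟩
  have h4 : cyc G l ≤ ∑ w, (G.finsetWalkLength l w w).card := by
    unfold cyc
    apply sum_le_sum
    intro w _
    rw [h2]
    exact card_le_card (filter_subset _ _)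
  have h5 : ∑ w, (G.finsetWalkLength l w w).card ≤ cyc G l + ∑ w, ((G.finsetWalkLength l w w).filter
        (fun p => ∃ j ∈ range l, ∃ i ∈ range j, p.getVert i = p.getVert j)).card := by
    unfold cyc
    rw [← sum_add_distrib]
    apply sum_le_sum
    intro w _
    rw [h2]
    exact h3 w
  rw [h1, abs_of_nonneg (by
    have : (cyc G l : ℝ) ≤ ((∑ w, (G.finsetWalkLength l w w).card : ℕ) : ℝ) := by exact_mod_cast h4
    linarith)]
  have h6 : ((∑ w, (G.finsetWalkLength l w w).card : ℕ) : ℝ) ≤ (cyc G l : ℝ) +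
      ((∑ w, ((G.finsetWalkLength l w w).filter
      (fun p => ∃ j ∈ range l, ∃ i ∈ range j, p.getVert i = p.getVert j)).card : ℕ) : ℝ) := by
    exact_mod_cast h5
  linarith

theorem diag_three {V : Type} [Fintype V] [DecidableEq V] {A : Matrix V V ℝ}
    (hA : A.IsHermitian) (x : V) : ((A ^ 3) x x) ^ 2 ≤ (A ^ 2) x x * (A ^ 4) x x := by
  rw [diag_pow hA, diag_pow hA, diag_pow hA]
  have h := sum_mul_sq_le_sq_mul_sq univ (fun i => hA.eigenvalues i * ev hA i x)
    (fun i => hA.eigenvalues i ^ 2 * ev hA i x)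
  refine le_trans (le_of_eq ?_) (h.trans (le_of_eq ?_))
  · congr 1
    apply sum_congr rfl
    intro i _
    ring
  · congr 1
    · apply sum_congr rfl
      intro i _
      ring
    · apply sum_congr rfl
      intro i _
      ring

/-- closed walks with a repeated vertex, from pointwise bounds -/
theorem repeat_le {V : Type} [Fintype V] [DecidableEq V] (G : SimpleGraph V) [DecidableRel G.Adj]
    (Λ K r w : ℝ) (hΛ : 1 ≤ Λ) (hK : 1 ≤ K) (hw1 : 1 ≤ w) (hw : w ^ 4 = (Fintype.card V : ℝ))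
    (hr : w ^ 2 ≤ r)
    (htr : ∀ x, ((G.adjMatrix ℝ) ^ 4) x x * Fintype.card V ≤ Λ * r ^ 4)
    (hdeg : ∀ x, (G.degree x : ℝ) ≤ K * r) (l : ℕ) (hl : 5 ≤ l) :
    ((∑ u, ((G.finsetWalkLength l u u).filter
      (fun p => ∃ j ∈ range l, ∃ i ∈ range j, p.getVert i = p.getVert j)).card : ℕ) : ℝ) * w ≤
      (l : ℝ) ^ 2 * (Λ * K * r) ^ l := by
  have hA := adj_herm G
  have hwpos : 0 < w := by linarith
  have hrpos : 0 < r := lt_of_lt_of_le (by positivity) hr
  set C : ℝ := Λ * K with hC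
  have hC1 : 1 ≤ C := by rw [hC]; nlinarith
  have hCΛ : Λ ≤ C := by rw [hC]; nlinarith
  have hCK : K ≤ C := by rw [hC]; nlinarith
  have hnn : ∀ m x, 0 ≤ ((G.adjMatrix ℝ) ^ m) x x := by
    intro m x
    rw [G.adjMatrix_pow_apply_eq_card_walk]
    exact Nat.cast_nonneg _
  have h1 : ∀ x, ((G.adjMatrix ℝ) ^ 1) x x = 0 := by
    intro x
    rw [pow_one, SimpleGraph.adjMatrix_apply, if_neg (G.irrefl)]
  have h2 : ∀ x, ((G.adjMatrix ℝ) ^ 2) x x = (G.degree x : ℝ) := by
    intro x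
    rw [sq, SimpleGraph.adjMatrix_mul_self_apply_self]
  -- `m = 2`
  have b2 : ∀ x, ((G.adjMatrix ℝ) ^ 2) x x * w ^ 2 ≤ (C * r) ^ 2 := by
    intro x
    rw [h2]
    calc (G.degree x : ℝ) * w ^ 2 ≤ (K * r) * r :=
          mul_le_mul (hdeg x) hr (by positivity) (by positivity)
      _ ≤ (C * r) * (C * r) := by
          apply mul_le_mul _ _ hrpos.le (by positivity)
          · exact mul_le_mul_of_nonneg_right hCK hrpos.le
          · nlinarith
      _ = _ := by ring
  -- `m ≥ 4`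
  have b4 : ∀ m, 4 ≤ m → ∀ x, ((G.adjMatrix ℝ) ^ m) x x * w ^ 4 ≤ (C * r) ^ m := by
    intro m hm x
    have hupper := Pool.Agent.Q115.GV.walk_upper G 2 (Λ * r ^ 4 / w ^ 4) (K * r) (by positivity)
      (fun z => by
        rw [le_div_iff₀ (by positivity), hw]
        exact htr z) hdeg m hm x x
    calc ((G.adjMatrix ℝ) ^ m) x x * w ^ 4
        ≤ (Λ * r ^ 4 / w ^ 4 * (K * r) ^ (m - 2 * 2)) * w ^ 4 :=
          mul_le_mul_of_nonneg_right hupper (by positivity)
      _ = Λ * K ^ (m - 4) * (r ^ 4 * r ^ (m - 4)) := by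
          rw [mul_pow]
          field_simp
      _ = Λ * K ^ (m - 4) * r ^ m := by rw [← pow_add]; congr 2; omega
      _ ≤ C ^ m * r ^ m := by
          apply mul_le_mul_of_nonneg_right _ (by positivity)
          calc Λ * K ^ (m - 4) ≤ C ^ 1 * C ^ (m - 4) := by
                rw [pow_one]
                exact mul_le_mul hCΛ (pow_le_pow_left₀ (by linarith) hCK _) (by positivity)
                  (by positivity)
            _ = C ^ (1 + (m - 4)) := by rw [pow_add]
            _ ≤ C ^ m := pow_le_pow_right₀ hC1 (by omega)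
      _ = _ := (mul_pow C r m).symm
  -- `m = 3`
  have b3 : ∀ x, ((G.adjMatrix ℝ) ^ 3) x x * w ^ 3 ≤ (C * r) ^ 3 := by
    intro x
    have e1 := diag_three hA x
    have e2 : (((G.adjMatrix ℝ) ^ 3) x x * w ^ 3) ^ 2 ≤ ((C * r) ^ 3) ^ 2 := by
      calc (((G.adjMatrix ℝ) ^ 3) x x * w ^ 3) ^ 2
          = (((G.adjMatrix ℝ) ^ 3) x x) ^ 2 * (w ^ 2 * w ^ 4) := by ring
        _ ≤ (((G.adjMatrix ℝ) ^ 2) x x * ((G.adjMatrix ℝ) ^ 4) x x) * (w ^ 2 * w ^ 4) :=
            mul_le_mul_of_nonneg_right e1 (by positivity)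
        _ = (((G.adjMatrix ℝ) ^ 2) x x * w ^ 2) * (((G.adjMatrix ℝ) ^ 4) x x * w ^ 4) := by ring
        _ ≤ (C * r) ^ 2 * (C * r) ^ 4 :=
            mul_le_mul (b2 x) (b4 4 le_rfl x) (mul_nonneg (hnn _ _) (by positivity))
              (by positivity)
        _ = _ := by ring
    exact le_of_pow_le_pow_left₀ (by norm_num) (by positivity) e2
  have b3' : ∀ m, 3 ≤ m → ∀ x, ((G.adjMatrix ℝ) ^ m) x x * w ^ 3 ≤ (C * r) ^ m := by
    intro m hm x
    rcases Nat.eq_or_lt_of_le hm with h | h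
    · rw [← h]; exact b3 x
    · refine le_trans ?_ (b4 m h x)
      apply mul_le_mul_of_nonneg_left _ (hnn _ _)
      exact pow_le_pow_right₀ hw1 (by norm_num)
  have b2' : ∀ m, 2 ≤ m → ∀ x, ((G.adjMatrix ℝ) ^ m) x x * w ^ 2 ≤ (C * r) ^ m := by
    intro m hm x
    rcases Nat.eq_or_lt_of_le hm with h | h
    · rw [← h]; exact b2 x
    · refine le_trans ?_ (b3' m h x)
      apply mul_le_mul_of_nonneg_left _ (hnn _ _)
      exact pow_le_pow_right₀ hw1 (by norm_num)
  -- products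
  have hprod : ∀ a b x, 1 ≤ a → 1 ≤ b → a + b = l →
      ((G.adjMatrix ℝ) ^ a) x x * ((G.adjMatrix ℝ) ^ b) x x * w ^ 5 ≤ (C * r) ^ l := by
    intro a b x ha hb hab
    rcases Nat.eq_or_lt_of_le ha with h | ha2
    · rw [← h, h1, zero_mul, zero_mul]; positivity
    rcases Nat.eq_or_lt_of_le hb with h | hb2
    · rw [← h, h1, mul_zero, zero_mul]; positivity
    have h3 : 3 ≤ a ∨ 3 ≤ b := by omega
    rw [← hab, pow_add (C * r)]
    rcases h3 with h3 | h3
    · calc ((G.adjMatrix ℝ) ^ a) x x * ((G.adjMatrix ℝ) ^ b) x x * w ^ 5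
          = (((G.adjMatrix ℝ) ^ a) x x * w ^ 3) * (((G.adjMatrix ℝ) ^ b) x x * w ^ 2) := by ring
        _ ≤ _ := mul_le_mul (b3' a h3 x) (b2' b hb2 x) (mul_nonneg (hnn _ _) (by positivity))
            (by positivity)
    · calc ((G.adjMatrix ℝ) ^ a) x x * ((G.adjMatrix ℝ) ^ b) x x * w ^ 5
          = (((G.adjMatrix ℝ) ^ a) x x * w ^ 2) * (((G.adjMatrix ℝ) ^ b) x x * w ^ 3) := by ring
        _ ≤ _ := mul_le_mul (b2' a ha2 x) (b3' b h3 x) (mul_nonneg (hnn _ _) (by positivity))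
            (by positivity)
  have hrep := repeat_walks G l
  have hterm : ∀ j ∈ range l, ∀ i ∈ range j, (∑ x, ((G.adjMatrix ℝ) ^ (j - i)) x x *
        ((G.adjMatrix ℝ) ^ (l - (j - i))) x x) * w ≤ (C * r) ^ l := by
    intro j hj i hi
    rw [mem_range] at hj hi
    have h5 : (∑ x, ((G.adjMatrix ℝ) ^ (j - i)) x x * ((G.adjMatrix ℝ) ^ (l - (j - i))) x x) *
        w ^ 5 ≤ w ^ 4 * (C * r) ^ l := by
      rw [sum_mul]
      calc ∑ x, ((G.adjMatrix ℝ) ^ (j - i)) x x * ((G.adjMatrix ℝ) ^ (l - (j - i))) x x * w ^ 5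
          ≤ ∑ x : V, (C * r) ^ l :=
            sum_le_sum (fun x _ => hprod _ _ x (by omega) (by omega) (by omega))
        _ = _ := by rw [sum_const, card_univ, nsmul_eq_mul, ← hw]
    have h6 : (∑ x, ((G.adjMatrix ℝ) ^ (j - i)) x x * ((G.adjMatrix ℝ) ^ (l - (j - i))) x x) *
        w * w ^ 4 ≤ (C * r) ^ l * w ^ 4 := by
      calc _ = (∑ x, ((G.adjMatrix ℝ) ^ (j - i)) x x * ((G.adjMatrix ℝ) ^ (l - (j - i))) x x) *
            w ^ 5 := by ring
        _ ≤ _ := by rw [mul_comm ((C * r) ^ l)]; exact h5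
    exact le_of_mul_le_mul_right h6 (by positivity)
  calc _ ≤ (∑ j ∈ range l, ∑ i ∈ range j, ∑ x, ((G.adjMatrix ℝ) ^ (j - i)) x x *
        ((G.adjMatrix ℝ) ^ (l - (j - i))) x x) * w :=
        mul_le_mul_of_nonneg_right hrep hwpos.le
    _ = ∑ j ∈ range l, ∑ i ∈ range j, (∑ x, ((G.adjMatrix ℝ) ^ (j - i)) x x *
        ((G.adjMatrix ℝ) ^ (l - (j - i))) x x) * w := by
        rw [sum_mul]
        apply sum_congr rfl
        intro j _
        rw [sum_mul]
    _ ≤ ∑ j ∈ range l, ∑ i ∈ range j, (C * r) ^ l :=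
        sum_le_sum (fun j hj => sum_le_sum (fun i hi => hterm j hj i hi))
    _ ≤ ∑ j ∈ range l, (l : ℝ) * (C * r) ^ l := by
        apply sum_le_sum
        intro j hj
        rw [sum_const, card_range, nsmul_eq_mul]
        apply mul_le_mul_of_nonneg_right _ (by positivity)
        exact_mod_cast (mem_range.1 hj).le
    _ = _ := by
        rw [sum_const, card_range, nsmul_eq_mul]
        ring

/-- the subgraph of the edges between vertices of degree less than `D` -/
theorem clean (V : Type) [Fintype V] [DecidableEq V] (G : SimpleGraph V) [DecidableRel G.Adj]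
    (D : ℝ) : ∃ (G' : SimpleGraph V) (_ : DecidableRel G'.Adj), G' ≤ G ∧
      (∀ x, (G'.degree x : ℝ) ≤ max D 0) ∧
      ((G.edgeFinset.card : ℝ) - (G'.edgeFinset.card : ℝ) ≤
        ∑ x ∈ univ.filter (fun x => D ≤ (G.degree x : ℝ)), (G.degree x : ℝ)) := by
  classical
  let G' : SimpleGraph V :=
    { Adj := fun x y => G.Adj x y ∧ (G.degree x : ℝ) < D ∧ (G.degree y : ℝ) < D
      symm := ⟨fun x y h => ⟨h.1.symm, h.2.2, h.2.1⟩⟩
      loopless := ⟨fun x h => G.loopless.irrefl x h.1⟩ }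
  have hG' : ∀ x y, G'.Adj x y ↔ G.Adj x y ∧ (G.degree x : ℝ) < D ∧ (G.degree y : ℝ) < D :=
    fun x y => Iff.rfl
  refine ⟨G', inferInstance, fun x y h => h.1, ?_, ?_⟩
  · intro x
    by_cases hx : (G.degree x : ℝ) < D
    · refine le_trans ?_ (le_max_left _ _)
      refine le_trans ?_ hx.le
      rw [← G'.card_neighborFinset_eq_degree, ← G.card_neighborFinset_eq_degree]
      have : (G'.neighborFinset x) ⊆ G.neighborFinset x := by
        intro y hy
        rw [SimpleGraph.mem_neighborFinset] at hy ⊢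
        exact hy.1
      exact_mod_cast card_le_card this
    · refine le_trans (le_of_eq ?_) (le_max_right _ _)
      rw [Nat.cast_eq_zero, ← G'.card_neighborFinset_eq_degree, card_eq_zero,
        eq_empty_iff_forall_notMem]
      intro y hy
      rw [SimpleGraph.mem_neighborFinset, hG'] at hy
      exact hx hy.2.1
  · set H : Finset V := univ.filter (fun x => D ≤ (G.degree x : ℝ)) with hH
    have h1 : G.edgeFinset ⊆ G'.edgeFinset ∪ H.biUnion (fun x => G.incidenceFinset x) := by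
      intro e he
      induction e with
      | _ x y =>
        rw [mem_union, mem_biUnion]
        rw [SimpleGraph.mem_edgeFinset, SimpleGraph.mem_edgeSet] at he
        by_cases hx : (G.degree x : ℝ) < D
        · by_cases hy : (G.degree y : ℝ) < D
          · left
            rw [SimpleGraph.mem_edgeFinset, SimpleGraph.mem_edgeSet, hG']
            exact ⟨he, hx, hy⟩
          · right
            refine ⟨y, ?_, ?_⟩
            · rw [hH, mem_filter]; exact ⟨mem_univ _, not_lt.1 hy⟩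
            · rw [SimpleGraph.mem_incidenceFinset, SimpleGraph.mk'_mem_incidenceSet_iff]
              exact ⟨he, Or.inr rfl⟩
        · right
          refine ⟨x, ?_, ?_⟩
          · rw [hH, mem_filter]; exact ⟨mem_univ _, not_lt.1 hx⟩
          · rw [SimpleGraph.mem_incidenceFinset, SimpleGraph.mk'_mem_incidenceSet_iff]
            exact ⟨he, Or.inl rfl⟩
    have h2 := (card_le_card h1).trans ((card_union_le _ _).trans
      (Nat.add_le_add_left card_biUnion_le _))
    simp only [SimpleGraph.card_incidenceFinset_eq_degree] at h2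
    have h3 : (G.edgeFinset.card : ℝ) ≤ (G'.edgeFinset.card : ℝ) +
        ∑ x ∈ H, (G.degree x : ℝ) := by exact_mod_cast h2
    linarith

/-- **The structure of `K_{s,t}`-free graphs.** -/
theorem main_kst (s t : ℕ) (hs : 2 ≤ s) (ht : 1 ≤ t) : ∃ C : ℝ, 0 < C ∧ ∀ δ : ℝ, 0 < δ →
    ∃ M : ℕ, ∀ (V : Type) [Fintype V] [DecidableEq V] (G : SimpleGraph V) [DecidableRel G.Adj],
      (KK s t).Free G →
      ∃ (G' : SimpleGraph V) (_ : DecidableRel G'.Adj), G' ≤ G ∧
        (G.edgeFinset.card : ℝ) - (G'.edgeFinset.card : ℝ) ≤ 2 * s * Fintype.card V ∧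
        (∀ x, (G'.degree x : ℝ) ≤ C * (Fintype.card V : ℝ) ^ (1 - 1 / (s : ℝ))) ∧
        (∀ l, 4 ≤ l → ∀ x y, (Pool.Agent.Q115.GV.nw G' l x y : ℝ) * Fintype.card V ≤
          (C * (Fintype.card V : ℝ) ^ (1 - 1 / (s : ℝ))) ^ l) ∧
        ∃ χ : V → Fin M,
          (∀ f g : V → ℝ, |∑ x, ∑ y, f x * (G'.adjMatrix ℝ x y - bl χ (G'.adjMatrix ℝ) x y) * g y| ≤
            δ * (Fintype.card V : ℝ) ^ (1 - 1 / (s : ℝ)) *
              (Real.sqrt (∑ x, f x ^ 2) * Real.sqrt (∑ x, g x ^ 2))) ∧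
          (∀ l, 5 ≤ l → ∀ x x' y y', χ x = χ x' → χ y = χ y' →
            |(Pool.Agent.Q115.GV.nw G' l x y : ℝ) - (Pool.Agent.Q115.GV.nw G' l x' y' : ℝ)| *
              Fintype.card V ≤ δ * (C * (Fintype.card V : ℝ) ^ (1 - 1 / (s : ℝ))) ^ l) ∧
          ∀ l, 5 ≤ l →
            |(cyc G' l : ℝ) - ((bl χ (G'.adjMatrix ℝ)) ^ l).trace| ≤
              (δ + (l : ℝ) ^ 2 / (Fintype.card V : ℝ) ^ (1 / 4 : ℝ)) *
                (C * (Fintype.card V : ℝ) ^ (1 - 1 / (s : ℝ))) ^ l := by
  classical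
  have hs0 : (0 : ℝ) < s := by
    have : 0 < s := by omega
    exact_mod_cast this
  have ht1 : (1 : ℝ) ≤ t := by exact_mod_cast ht
  obtain ⟨K, hK⟩ : ∃ K : ℝ, K = 2 * t := ⟨_, rfl⟩
  have hK1 : 1 ≤ K := by rw [hK]; linarith
  have hKpos : 0 < K := by linarith
  obtain ⟨Λ, hΛ⟩ : ∃ Λ : ℝ, Λ = 1 + (K ^ 2) ^ (s - 2) * (t : ℝ) ^ 2 + s * K ^ 2 := ⟨_, rfl⟩
  have hΛ1 : 1 ≤ Λ := by
    rw [hΛ]
    have h1 : 0 ≤ (K ^ 2) ^ (s - 2) * (t : ℝ) ^ 2 := by positivity
    have h2 : 0 ≤ s * K ^ 2 := by positivity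
    linarith
  have hΛpos : 0 < Λ := by linarith
  refine ⟨2 * (Λ + 1) * K, by positivity, ?_⟩
  intro δ hδ
  obtain ⟨M, hM⟩ := pointwise 2 (by norm_num) Λ δ hΛpos hδ
  refine ⟨M, ?_⟩
  intro V _ _ G _ hfree
  obtain ⟨G', hdec, hle, hdeg0, hedges⟩ := clean V G
    (2 * (t : ℝ) * (Fintype.card V : ℝ) ^ (1 - 1 / (s : ℝ)))
  have htail := Q116.ZK.tail' G (by omega : 1 ≤ s) ht hfree
  have hdegeq : ∀ x, ((G.neighborSet x).ncard : ℝ) = (G.degree x : ℝ) := by
    intro x
    rw [← G.card_neighborFinset_eq_degree, ← Set.ncard_coe_finset,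
      SimpleGraph.coe_neighborFinset]
  simp only [hdegeq] at htail
  have hNo : Q116.KR.NoST G'.Adj s t := by
    apply noST_of_free
    intro hcon
    exact hfree (hcon.trans (SimpleGraph.IsContained.of_le hle))
  rcases isEmpty_or_nonempty V with hemp | hne
  · have h0 : Fintype.card V = 0 := Fintype.card_eq_zero
    have hE : ∀ (H : SimpleGraph V) [DecidableRel H.Adj], H.edgeFinset.card = 0 := by
      intro H _
      rw [card_eq_zero, eq_empty_iff_forall_notMem]
      intro e _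
      induction e with
      | _ x y => exact hemp.false x
    refine ⟨G', hdec, hle, ?_, fun x => (hemp.false x).elim, fun _ _ x => (hemp.false x).elim,
      fun x => (hemp.false x).elim, fun f g => by simp, fun _ _ x => (hemp.false x).elim, ?_⟩
    · rw [hE G, hE G', h0]; simp
    · intro l hl
      have h1 : cyc G' l = 0 := by unfold cyc; simp
      rw [h1]
      have h2 : ∀ A : Matrix V V ℝ, A.trace = 0 := fun A => by
        unfold Matrix.trace; simp
      rw [h2]
      simp only [Nat.cast_zero, sub_self, abs_zero]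
      positivity
  obtain ⟨n, hn⟩ : ∃ n : ℝ, n = (Fintype.card V : ℝ) := ⟨_, rfl⟩
  have hn1 : 1 ≤ n := by
    rw [hn]
    have : 1 ≤ Fintype.card V := Fintype.card_pos
    exact_mod_cast this
  have hnpos : 0 < n := by linarith
  obtain ⟨r, hr⟩ : ∃ r : ℝ, r = n ^ (1 - 1 / (s : ℝ)) := ⟨_, rfl⟩
  have hrpos : 0 < r := by rw [hr]; positivity
  have hrs : r ^ s = n ^ (s - 1) := by
    rw [hr, ← Real.rpow_natCast, ← Real.rpow_mul hnpos.le, ← Real.rpow_natCast]
    congr 1
    rw [Nat.cast_sub (by omega)]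
    field_simp
    simp
  have hhalf : (1 / 2 : ℝ) ≤ 1 - 1 / (s : ℝ) := Pool.Agent.Q115.GZ.alpha_half hs
  obtain ⟨w, hw⟩ : ∃ w : ℝ, w = n ^ (1 / 4 : ℝ) := ⟨_, rfl⟩
  have hw1 : 1 ≤ w := by rw [hw]; exact Real.one_le_rpow hn1 (by norm_num)
  have hwpos : 0 < w := by linarith
  have hw4 : w ^ 4 = n := by
    rw [hw, ← Real.rpow_natCast, ← Real.rpow_mul hnpos.le]
    norm_num
  have hwr : w ^ 2 ≤ r := by
    rw [hw, hr, ← Real.rpow_natCast, ← Real.rpow_mul hnpos.le]
    apply Real.rpow_le_rpow_of_exponent_le hn1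
    push_cast
    linarith
  have hr2 : n ≤ r ^ 2 := by
    calc n = (w ^ 2) ^ 2 := by rw [← hw4]; ring
      _ ≤ r ^ 2 := pow_le_pow_left₀ (by positivity) hwr 2
  rw [← hn, ← hr] at hdeg0 htail hedges ⊢
  have hdeg : ∀ x, (G'.degree x : ℝ) ≤ K * r := by
    intro x
    have := hdeg0 x
    rwa [← hK, max_eq_left (by positivity)] at this
  have htr : ∀ x, ((G'.adjMatrix ℝ) ^ 4) x x * n ≤ Λ * r ^ 4 := by
    intro x
    have := four_walks G' hs ht hNo K r hKpos hrpos (by rw [← hn]; exact hrs)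
      (by rw [← hn]; exact hr2) hdeg x
    rwa [← hn, ← hΛ] at this
  have hA := adj_herm G'
  obtain ⟨χ, hχ1, hχ2⟩ := hM V (G'.adjMatrix ℝ) hA r hrpos (fun x => by
    rw [← hn]; exact htr x)
  rw [← hn] at hχ2
  have hC1 : (Λ + 1) * r ≤ 2 * (Λ + 1) * K * r := by
    apply mul_le_mul_of_nonneg_right _ hrpos.le
    nlinarith
  have hC2 : Λ * K * r ≤ 2 * (Λ + 1) * K * r := by
    apply mul_le_mul_of_nonneg_right _ hrpos.le
    nlinarith
  have hop : ∀ f g : V → ℝ,
      |∑ x, ∑ y, f x * (G'.adjMatrix ℝ x y - bl χ (G'.adjMatrix ℝ) x y) * g y| ≤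
      δ * r * (Real.sqrt (∑ x, f x ^ 2) * Real.sqrt (∑ x, g x ^ 2)) := by
    intro f g
    have h1 := hχ1 f g
    rw [← bl_form χ (G'.adjMatrix ℝ) f g] at h1
    refine le_trans (le_of_eq ?_) h1
    congr 1
    rw [← sum_sub_distrib]
    apply sum_congr rfl
    intro x _
    rw [← sum_sub_distrib]
    apply sum_congr rfl
    intro y _
    ring
  refine ⟨G', hdec, hle, ?_, ?_, ?_, χ, hop, ?_, ?_⟩
  · exact hedges.trans htail
  · intro x
    refine (hdeg x).trans ?_
    apply mul_le_mul_of_nonneg_right _ hrpos.le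
    nlinarith
  · intro l hl x y
    have hupper := Pool.Agent.Q115.GV.walk_upper G' 2 (Λ * r ^ 4 / n) (K * r) (by positivity)
      (fun z => by
        rw [le_div_iff₀ (by positivity)]
        exact htr z) hdeg l hl x y
    rw [Pool.Agent.Q115.GV.nw_eq] at hupper
    calc (Pool.Agent.Q115.GV.nw G' l x y : ℝ) * n
        ≤ (Λ * r ^ 4 / n * (K * r) ^ (l - 2 * 2)) * n :=
          mul_le_mul_of_nonneg_right hupper hnpos.le
      _ = Λ * K ^ (l - 4) * (r ^ 4 * r ^ (l - 4)) := by
          rw [mul_pow]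
          field_simp
      _ = Λ * K ^ (l - 4) * r ^ l := by rw [← pow_add]; congr 2; omega
      _ ≤ (Λ * K) ^ l * r ^ l := by
          apply mul_le_mul_of_nonneg_right _ (by positivity)
          rw [mul_pow]
          apply mul_le_mul
          · exact le_self_pow₀ hΛ1 (by omega)
          · exact pow_le_pow_right₀ hK1 (by omega)
          · positivity
          · positivity
      _ = (Λ * K * r) ^ l := (mul_pow _ _ _).symm
      _ ≤ _ := pow_le_pow_left₀ (by positivity) hC2 l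
  · intro l hl x x' y y' hx hy
    have h1 := hχ2 l (by omega) x x' y y' hx hy
    rw [Pool.Agent.Q115.GV.nw_eq, Pool.Agent.Q115.GV.nw_eq] at h1
    refine h1.trans ?_
    apply mul_le_mul_of_nonneg_left _ hδ.le
    exact pow_le_pow_left₀ (by positivity) hC1 l
  · intro l hl
    have hB := bl_herm χ hA
    have hSA : ∑ i, hA.eigenvalues i ^ (2 * 2) ≤ Λ * r ^ (2 * 2) := by
      rw [← trace_pow hA]
      unfold Matrix.trace
      calc ∑ x, ((G'.adjMatrix ℝ) ^ (2 * 2)).diag x ≤ ∑ x : V, Λ * r ^ 4 / n := by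
            apply sum_le_sum
            intro x _
            rw [Matrix.diag_apply, le_div_iff₀ hnpos]
            exact htr x
        _ = _ := by
            rw [sum_const, card_univ, nsmul_eq_mul, ← hn]
            field_simp
    have hSB := (bl_schatten χ hA hB 2).trans hSA
    have htd := trace_diff hA hB 2 (by norm_num) Λ r hΛpos hrpos hSA hSB (δ * r) (by positivity)
      hop l (by omega)
    have hl2 : (2 * l : ℝ) ≤ 2 ^ l := by
      have h1 : l ≤ 2 ^ (l - 1) := by
        have := Nat.lt_two_pow_self (n := l - 1)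
        omega
      have h2 : 2 * l ≤ 2 ^ l := by
        calc 2 * l ≤ 2 * 2 ^ (l - 1) := Nat.mul_le_mul_left _ h1
          _ = 2 ^ (l - 1 + 1) := by rw [pow_succ]; ring
          _ = 2 ^ l := by congr 1; omega
      exact_mod_cast h2
    have htd2 : δ * r * (2 * l * (Λ + 1) ^ (l - 1) * r ^ (l - 1)) ≤
        δ * (2 * (Λ + 1) * K * r) ^ l := by
      calc δ * r * (2 * l * (Λ + 1) ^ (l - 1) * r ^ (l - 1))
          = δ * ((2 * l) * (Λ + 1) ^ (l - 1) * (r ^ (l - 1) * r)) := by ring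
        _ = δ * ((2 * l) * (Λ + 1) ^ (l - 1) * r ^ l) := by
            rw [← pow_succ r (l - 1), show l - 1 + 1 = l by omega]
        _ ≤ δ * (2 ^ l * (Λ + 1) ^ l * r ^ l) := by
            apply mul_le_mul_of_nonneg_left _ hδ.le
            apply mul_le_mul_of_nonneg_right _ (by positivity)
            apply mul_le_mul hl2 _ (by positivity) (by positivity)
            exact pow_le_pow_right₀ (by linarith) (by omega)
        _ = δ * (2 * (Λ + 1) * r) ^ l := by rw [mul_pow, mul_pow]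
        _ ≤ _ := by
            apply mul_le_mul_of_nonneg_left _ hδ.le
            apply pow_le_pow_left₀ (by positivity)
            nlinarith [mul_nonneg (show (0 : ℝ) ≤ 2 * (Λ + 1) by positivity) hrpos.le]
    have hct := cyc_trace G' l (by omega)
    have hrep := repeat_le G' Λ K r w hΛ1 hK1 hw1 (by rw [hw4, hn]) hwr
      (by rw [← hn]; exact htr) hdeg l hl
    have hrep2 : ((∑ u, ((G'.finsetWalkLength l u u).filter
        (fun p => ∃ j ∈ range l, ∃ i ∈ range j, p.getVert i = p.getVert j)).card : ℕ) : ℝ) ≤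
        (l : ℝ) ^ 2 / w * (2 * (Λ + 1) * K * r) ^ l := by
      rw [div_mul_eq_mul_div, le_div_iff₀ hwpos]
      refine hrep.trans ?_
      apply mul_le_mul_of_nonneg_left _ (by positivity)
      exact pow_le_pow_left₀ (by positivity) hC2 l
    rw [← hw]
    calc |(cyc G' l : ℝ) - ((bl χ (G'.adjMatrix ℝ)) ^ l).trace|
        = |(((G'.adjMatrix ℝ) ^ l).trace - ((bl χ (G'.adjMatrix ℝ)) ^ l).trace) -
          (((G'.adjMatrix ℝ) ^ l).trace - (cyc G' l : ℝ))| := by congr 1; ring
      _ ≤ |((G'.adjMatrix ℝ) ^ l).trace - ((bl χ (G'.adjMatrix ℝ)) ^ l).trace| +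
          |((G'.adjMatrix ℝ) ^ l).trace - (cyc G' l : ℝ)| := abs_sub _ _
      _ ≤ δ * (2 * (Λ + 1) * K * r) ^ l + (l : ℝ) ^ 2 / w * (2 * (Λ + 1) * K * r) ^ l :=
          add_le_add (htd.trans htd2) (hct.trans hrep2)
      _ = _ := by ring

end Pool.Agent.Q115.KR
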