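import Pool.Agent.Q115.KR3
import Pool.Agent.Q115.GY1

/-! Pointwise regularity of walks in graphs of girth larger than `2 k`. -/

set_option autoImplicit false

open Finset

namespace Pool.Agent.Q115.KR

open Pool.Agent.Q115.GY Pool.Agent.Q115.GW

/-- closed walks of length `2 k` at a vertex -/
theorem girth_row {V : Type} [Fintype V] [DecidableEq V] (G : SimpleGraph V) [DecidableRel G.Adj]
    {k : ℕ} (hg : ∀ (v : V) (p : G.Walk v v), p.IsCycle → 2 * k < p.length) (D : ℝ) (hD0 : 0 < D)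
    (hD : ∀ x, (G.degree x : ℝ) ≤ D) (x : V) :
    ((G.adjMatrix ℝ) ^ (2 * k)) x x ≤ ((k : ℝ) + 1) ^ 2 * (4 * D) ^ k := by
  classical
  set s : ℝ := Real.sqrt D with hs
  have hspos : 0 < s := Real.sqrt_pos.2 hD0
  have hs2 : s ^ 2 = D := Real.sq_sqrt hD0.le
  have hA := adj_herm G
  have hsq : ((G.adjMatrix ℝ) ^ (2 * k)) x x = ∑ y, (((G.adjMatrix ℝ) ^ k) x y) ^ 2 := by
    rw [two_mul, pow_add, Matrix.mul_apply]
    apply sum_congr rfl
    intro y _
    rw [ev_symm_pow hA k y x, sq]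
  rw [hsq]
  have hnn : ∀ y, 0 ≤ ((G.adjMatrix ℝ) ^ k) x y := by
    intro y
    rw [SimpleGraph.adjMatrix_pow_apply_eq_card_walk]
    exact Nat.cast_nonneg _
  have h1 : ∀ y, (((G.adjMatrix ℝ) ^ k) x y) ^ 2 ≤
      ((k : ℝ) + 1) * ∑ l ∈ range (k + 1),
        (if P G l x y then (1 : ℝ) else 0) * ((2 * s) ^ k / s ^ l) ^ 2 := by
    intro y
    have h2 := walk_bound G hg s hspos (by rw [hs2]; exact hD) x k le_rfl y
    calc (((G.adjMatrix ℝ) ^ k) x y) ^ 2
        ≤ (∑ l ∈ range (k + 1),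
          (if P G l x y then (1 : ℝ) else 0) * ((2 * s) ^ k / s ^ l)) ^ 2 :=
          pow_le_pow_left₀ (hnn y) h2 2
      _ ≤ ((range (k + 1)).card : ℝ) * ∑ l ∈ range (k + 1),
          ((if P G l x y then (1 : ℝ) else 0) * ((2 * s) ^ k / s ^ l)) ^ 2 :=
          sq_sum_le_card_mul_sum_sq
      _ = _ := by
          rw [card_range]
          push_cast
          congr 1
          apply sum_congr rfl
          intro l _
          rw [mul_pow]
          split_ifs <;> simp
  refine (sum_le_sum (fun y _ => h1 y)).trans ?_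
  rw [← mul_sum, sum_comm]
  have h3 : ∀ l ∈ range (k + 1),
      ∑ y, (if P G l x y then (1 : ℝ) else 0) * ((2 * s) ^ k / s ^ l) ^ 2 ≤ (4 * D) ^ k := by
    intro l _
    rw [← sum_mul]
    have h4 := sphere_card G D hD x l
    calc (∑ y, (if P G l x y then (1 : ℝ) else 0)) * ((2 * s) ^ k / s ^ l) ^ 2
        ≤ D ^ l * ((2 * s) ^ k / s ^ l) ^ 2 := mul_le_mul_of_nonneg_right h4 (by positivity)
      _ = (4 * D) ^ k := by
          rw [div_pow, ← pow_mul, ← pow_mul, mul_comm k 2, mul_comm l 2, pow_mul, pow_mul,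
            mul_pow, hs2]
          field_simp
          norm_num
          rw [mul_comm 4 D]
  calc ((k : ℝ) + 1) * ∑ l ∈ range (k + 1), ∑ y,
        (if P G l x y then (1 : ℝ) else 0) * ((2 * s) ^ k / s ^ l) ^ 2
      ≤ ((k : ℝ) + 1) * ∑ l ∈ range (k + 1), (4 * D) ^ k :=
        mul_le_mul_of_nonneg_left (sum_le_sum h3) (by positivity)
    _ = _ := by
        rw [sum_const, card_range, nsmul_eq_mul]
        push_cast
        ring

theorem free_of_girth {V : Type} (G : SimpleGraph V) {k : ℕ} (hk : 2 ≤ k)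
    (hg : ∀ (v : V) (p : G.Walk v v), p.IsCycle → 2 * k < p.length) :
    (SimpleGraph.cycleGraph (2 * k)).Free G := by
  intro hcon
  obtain ⟨v, p, hp, hlen⟩ := (SimpleGraph.cycleGraph_isContained_iff (by omega)).1 hcon
  have := hg v p hp
  omega

theorem girth_mono {V : Type} {G G' : SimpleGraph V} (h : G' ≤ G) {k : ℕ}
    (hg : ∀ (v : V) (p : G.Walk v v), p.IsCycle → 2 * k < p.length) :
    ∀ (v : V) (p : G'.Walk v v), p.IsCycle → 2 * k < p.length := by
  intro v p hp
  have h1 := hg v (p.mapLe h) ((SimpleGraph.Walk.isCycle_mapLe h).2 hp)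
  rwa [SimpleGraph.Walk.length_map] at h1

/-- **The structure of graphs of girth larger than `2 k`.** -/
theorem main_girth (k : ℕ) (hk : 2 ≤ k) (ε : ℝ) (hε : 0 < ε) : ∃ (C : ℝ) (E : ℕ → ℝ), 0 < C ∧
    ∀ δ : ℝ, 0 < δ → ∃ M : ℕ, ∀ (V : Type) [Fintype V] [DecidableEq V] (G : SimpleGraph V)
      [DecidableRel G.Adj], (∀ (v : V) (p : G.Walk v v), p.IsCycle → 2 * k < p.length) →
      ∃ (G' : SimpleGraph V) (_ : DecidableRel G'.Adj), G' ≤ G ∧
        (G.edgeFinset.card : ℝ) - (G'.edgeFinset.card : ℝ) ≤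
          ε * (Fintype.card V : ℝ) ^ (1 + 1 / (k : ℝ)) ∧
        (∀ x, (G'.degree x : ℝ) ≤ C * (Fintype.card V : ℝ) ^ (1 / (k : ℝ))) ∧
        (∀ l, 2 * k ≤ l → ∀ x y, (Pool.Agent.Q115.GV.nw G' l x y : ℝ) * Fintype.card V ≤
          (C * (Fintype.card V : ℝ) ^ (1 / (k : ℝ))) ^ l) ∧
        ∃ χ : V → Fin M,
          (∀ f g : V → ℝ, |∑ x, ∑ y, f x * (G'.adjMatrix ℝ x y - bl χ (G'.adjMatrix ℝ) x y) * g y| ≤
            δ * (Fintype.card V : ℝ) ^ (1 / (k : ℝ)) *
              (Real.sqrt (∑ x, f x ^ 2) * Real.sqrt (∑ x, g x ^ 2))) ∧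
          (∀ l, 2 * k < l → ∀ x x' y y', χ x = χ x' → χ y = χ y' →
            |(Pool.Agent.Q115.GV.nw G' l x y : ℝ) - (Pool.Agent.Q115.GV.nw G' l x' y' : ℝ)| *
              Fintype.card V ≤ δ * (C * (Fintype.card V : ℝ) ^ (1 / (k : ℝ))) ^ l) ∧
          ∀ l, 2 * k < l →
            |(cyc G' l : ℝ) - ((bl χ (G'.adjMatrix ℝ)) ^ l).trace| ≤
              δ * (C * (Fintype.card V : ℝ) ^ (1 / (k : ℝ))) ^ l +
              E l * (Fintype.card V : ℝ) ^ (((l : ℝ) - 1 / 2) / (k : ℝ)) := by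
  classical
  have hkR : (2 : ℝ) ≤ k := by exact_mod_cast hk
  have hkpos : (0 : ℝ) < k := by linarith
  obtain ⟨B, hB, htail⟩ := tail k hk
  -- the degree bound
  obtain ⟨K0, hK01, hKB⟩ : ∃ K0 : ℝ, 1 ≤ K0 ∧ B ≤ ε ^ (k - 1) * K0 := by
    refine ⟨max 1 (B / ε ^ (k - 1)), le_max_left _ _, ?_⟩
    calc B = ε ^ (k - 1) * (B / ε ^ (k - 1)) := by field_simp
      _ ≤ _ := mul_le_mul_of_nonneg_left (le_max_right _ _) (by positivity)
  obtain ⟨K, hKdef⟩ : ∃ K : ℝ, K = K0 + 1 := ⟨_, rfl⟩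
  have hK1 : 1 ≤ K := by linarith
  have hKpos : 0 < K := by linarith
  obtain ⟨Λ, hΛ⟩ : ∃ Λ : ℝ, Λ = ((k : ℝ) + 1) ^ 2 * (4 * K) ^ k := ⟨_, rfl⟩
  have hΛ1 : 1 ≤ Λ := by
    rw [hΛ]
    have h1 : (1 : ℝ) ≤ ((k : ℝ) + 1) ^ 2 := by nlinarith
    have h2 : (1 : ℝ) ≤ (4 * K) ^ k := one_le_pow₀ (by linarith)
    nlinarith
  have hΛpos : 0 < Λ := by linarith
  have hE : ∀ l : ℕ, ∃ E : ℝ, 2 * k < l → ∀ (V : Type) [Fintype V] [DecidableEq V]
      (G : SimpleGraph V) [DecidableRel G.Adj], (SimpleGraph.cycleGraph (2 * k)).Free G →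
      (∀ x, (G.degree x : ℝ) ≤ K * (Fintype.card V : ℝ) ^ (1 / (k : ℝ))) →
      ((∑ w, ((G.finsetWalkLength l w w).filter
        (fun p => ∃ j ∈ range l, ∃ i ∈ range j, p.getVert i = p.getVert j)).card : ℕ) : ℝ) ≤
      E * (Fintype.card V : ℝ) ^ (((l : ℝ) - 1 / 2) / (k : ℝ)) := by
    intro l
    by_cases hl : 2 * k < l
    · obtain ⟨E, hE⟩ := degenerate k hk K hKpos l hl
      exact ⟨E, fun _ => hE⟩
    · exact ⟨0, fun h => absurd h hl⟩
  choose E hE using hE
  refine ⟨2 * (Λ + 1) * K, E, by positivity, ?_⟩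
  intro δ hδ
  obtain ⟨M, hM⟩ := pointwise k (by omega) Λ δ hΛpos hδ
  refine ⟨M, ?_⟩
  intro V _ _ G _ hg
  obtain ⟨G', hdec, hle, hdeg0, hedges⟩ := clean V G
    (K * (Fintype.card V : ℝ) ^ (1 / (k : ℝ)))
  have hg' := girth_mono hle hg
  rcases isEmpty_or_nonempty V with hemp | hne
  · have h0 : Fintype.card V = 0 := Fintype.card_eq_zero
    have hEe : ∀ (H : SimpleGraph V) [DecidableRel H.Adj], H.edgeFinset.card = 0 := by
      intro H _
      rw [card_eq_zero, eq_empty_iff_forall_notMem]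
      intro e _
      induction e with
      | _ x y => exact hemp.false x
    refine ⟨G', hdec, hle, ?_, fun x => (hemp.false x).elim, fun _ _ x => (hemp.false x).elim,
      fun x => (hemp.false x).elim, fun f g => by simp, fun _ _ x => (hemp.false x).elim, ?_⟩
    · rw [hEe G, hEe G']
      simp only [Nat.cast_zero, sub_self]
      positivity
    · intro l hl
      have h1 : cyc G' l = 0 := by unfold cyc; simp
      rw [h1]
      have h2 : ∀ A : Matrix V V ℝ, A.trace = 0 := fun A => by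
        unfold Matrix.trace; simp
      rw [h2]
      simp only [Nat.cast_zero, sub_self, abs_zero]
      have h3 : (((l : ℝ) - 1 / 2) / (k : ℝ)) ≠ 0 := by
        have : (2 * k : ℝ) < l := by exact_mod_cast hl
        have : 0 < ((l : ℝ) - 1 / 2) / (k : ℝ) := by
          apply div_pos _ hkpos
          linarith
        exact this.ne'
      rw [h0, Nat.cast_zero, Real.zero_rpow h3, mul_zero, add_zero]
      positivity
  obtain ⟨n, hn⟩ : ∃ n : ℝ, n = (Fintype.card V : ℝ) := ⟨_, rfl⟩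
  have hn1 : 1 ≤ n := by
    rw [hn]
    have : 1 ≤ Fintype.card V := Fintype.card_pos
    exact_mod_cast this
  have hnpos : 0 < n := by linarith
  obtain ⟨r, hr⟩ : ∃ r : ℝ, r = n ^ (1 / (k : ℝ)) := ⟨_, rfl⟩
  have hrpos : 0 < r := by rw [hr]; positivity
  have hrk : r ^ k = n := by rw [hr]; exact root_pow n hnpos k (by omega)
  have hnr : n ^ (1 + 1 / (k : ℝ)) = n * r := by
    rw [Real.rpow_add hnpos, Real.rpow_one, hr]
  rw [← hn, ← hr] at hdeg0 hedges ⊢
  have hdeg : ∀ x, (G'.degree x : ℝ) ≤ K * r := by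
    intro x
    have := hdeg0 x
    rwa [max_eq_left (by positivity)] at this
  have hfree := free_of_girth G hk hg
  have hfree' := free_of_girth G' hk hg'
  -- few edges are removed
  have hrem : ∑ x ∈ univ.filter (fun x => K * r ≤ (G.degree x : ℝ)), (G.degree x : ℝ) ≤
      ε * (n * r) := by
    have h1 : ∑ x ∈ univ.filter (fun x => K * r ≤ (G.degree x : ℝ)), (G.degree x : ℝ) ≤
        ∑ x ∈ univ.filter (fun x => K0 * r < (G.degree x : ℝ)), (G.degree x : ℝ) := by
      apply sum_le_sum_of_subset_of_nonneg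
      · intro x hx
        rw [mem_filter] at hx ⊢
        refine ⟨mem_univ _, lt_of_lt_of_le ?_ hx.2⟩
        apply mul_lt_mul_of_pos_right _ hrpos
        linarith
      · intro x _ _
        exact Nat.cast_nonneg _
    refine h1.trans ?_
    have h2 := htail V G hfree (K0 * r) (by positivity)
    rw [← hn] at h2
    set T : ℝ := ∑ x ∈ univ.filter (fun x => K0 * r < (G.degree x : ℝ)), (G.degree x : ℝ) with hT
    have e1 : n ^ k = (n * r) ^ (k - 1) * r := by
      have : n ^ k = n ^ (k - 1) * n := by rw [← pow_succ]; congr 1; omega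
      rw [this, mul_pow]
      nth_rewrite 2 [← hrk]
      have : r ^ k = r ^ (k - 1) * r := by rw [← pow_succ]; congr 1; omega
      rw [this]; ring
    have h3 : T ^ (k - 1) * (K0 * r) ≤ (ε * (n * r)) ^ (k - 1) * (K0 * r) := by
      calc T ^ (k - 1) * (K0 * r) ≤ B * n ^ k := h2
        _ ≤ (ε ^ (k - 1) * K0) * ((n * r) ^ (k - 1) * r) := by
            rw [e1]
            exact mul_le_mul_of_nonneg_right hKB (by positivity)
        _ = _ := by rw [mul_pow ε]; ring
    have h4 : T ^ (k - 1) ≤ (ε * (n * r)) ^ (k - 1) := le_of_mul_le_mul_right h3 (by positivity)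
    exact le_of_pow_le_pow_left₀ (by omega) (by positivity) h4
  have htr : ∀ x, ((G'.adjMatrix ℝ) ^ (2 * k)) x x * n ≤ Λ * r ^ (2 * k) := by
    intro x
    have h1 := girth_row G' hg' (K * r) (by positivity) hdeg x
    calc ((G'.adjMatrix ℝ) ^ (2 * k)) x x * n ≤ (((k : ℝ) + 1) ^ 2 * (4 * (K * r)) ^ k) * n :=
          mul_le_mul_of_nonneg_right h1 hnpos.le
      _ = _ := by
          rw [hΛ, ← hrk]
          rw [show (4 * (K * r)) ^ k = (4 * K) ^ k * r ^ k by rw [← mul_pow]; ring_nf]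
          rw [show r ^ (2 * k) = r ^ k * r ^ k by rw [← pow_add]; congr 1; omega]
          ring
  have hA := adj_herm G'
  obtain ⟨χ, hχ1, hχ2⟩ := hM V (G'.adjMatrix ℝ) hA r hrpos (fun x => by
    have := htr x
    rwa [hn] at this)
  rw [← hn] at hχ2
  have hC1 : (Λ + 1) * r ≤ 2 * (Λ + 1) * K * r := by
    apply mul_le_mul_of_nonneg_right _ hrpos.le
    nlinarith
  have hC2 : Λ * K * r ≤ 2 * (Λ + 1) * K * r := by
    apply mul_le_mul_of_nonneg_right _ hrpos.le
    nlinarith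
  have hop : ∀ f g : V → ℝ,
      |∑ x, ∑ y, f x * (G'.adjMatrix ℝ x y - bl χ (G'.adjMatrix ℝ) x y) * g y| ≤
      δ * r * (Real.sqrt (∑ x, f x ^ 2) * Real.sqrt (∑ x, g x ^ 2)) := by
    intro f g
    have h1 := hχ1 f g
    rw [← bl_form χ (G'.adjMatrix ℝ) f g] at h1
    refine le_trans (le_of_eq ?_) h1
    congr 1
    rw [← sum_sub_distrib]
    apply sum_congr rfl
    intro x _
    rw [← sum_sub_distrib]
    apply sum_congr rfl
    intro y _
    ring
  refine ⟨G', hdec, hle, ?_, ?_, ?_, χ, hop, ?_, ?_⟩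
  · rw [hnr]
    exact hedges.trans hrem
  · intro x
    refine (hdeg x).trans ?_
    apply mul_le_mul_of_nonneg_right _ hrpos.le
    nlinarith
  · intro l hl x y
    have hupper := Pool.Agent.Q115.GV.walk_upper G' k (Λ * r ^ (2 * k) / n) (K * r) (by positivity)
      (fun z => by
        rw [le_div_iff₀ (by positivity)]
        exact htr z) hdeg l hl x y
    rw [Pool.Agent.Q115.GV.nw_eq] at hupper
    calc (Pool.Agent.Q115.GV.nw G' l x y : ℝ) * n
        ≤ (Λ * r ^ (2 * k) / n * (K * r) ^ (l - 2 * k)) * n :=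
          mul_le_mul_of_nonneg_right hupper hnpos.le
      _ = Λ * K ^ (l - 2 * k) * (r ^ (2 * k) * r ^ (l - 2 * k)) := by
          rw [mul_pow]
          field_simp
      _ = Λ * K ^ (l - 2 * k) * r ^ l := by rw [← pow_add]; congr 2; omega
      _ ≤ (Λ * K) ^ l * r ^ l := by
          apply mul_le_mul_of_nonneg_right _ (by positivity)
          rw [mul_pow]
          apply mul_le_mul
          · exact le_self_pow₀ hΛ1 (by omega)
          · exact pow_le_pow_right₀ hK1 (by omega)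
          · positivity
          · positivity
      _ = (Λ * K * r) ^ l := (mul_pow _ _ _).symm
      _ ≤ _ := pow_le_pow_left₀ (by positivity) hC2 l
  · intro l hl x x' y y' hx hy
    have h1 := hχ2 l hl x x' y y' hx hy
    rw [Pool.Agent.Q115.GV.nw_eq, Pool.Agent.Q115.GV.nw_eq] at h1
    refine h1.trans ?_
    apply mul_le_mul_of_nonneg_left _ hδ.le
    exact pow_le_pow_left₀ (by positivity) hC1 l
  · intro l hl
    have hB := bl_herm χ hA
    have hSA : ∑ i, hA.eigenvalues i ^ (2 * k) ≤ Λ * r ^ (2 * k) := by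
      rw [← trace_pow hA]
      unfold Matrix.trace
      calc ∑ x, ((G'.adjMatrix ℝ) ^ (2 * k)).diag x ≤ ∑ x : V, Λ * r ^ (2 * k) / n := by
            apply sum_le_sum
            intro x _
            rw [Matrix.diag_apply, le_div_iff₀ hnpos]
            exact htr x
        _ = _ := by
            rw [sum_const, card_univ, nsmul_eq_mul, ← hn]
            field_simp
    have hSB := (bl_schatten χ hA hB k).trans hSA
    have htd := trace_diff hA hB k (by omega) Λ r hΛpos hrpos hSA hSB (δ * r) (by positivity)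
      hop l hl
    have hl1 : 1 ≤ l := by omega
    have hl2 : (2 * l : ℝ) ≤ 2 ^ l := by
      have h1 : l ≤ 2 ^ (l - 1) := by
        have := Nat.lt_two_pow_self (n := l - 1)
        omega
      have h2 : 2 * l ≤ 2 ^ l := by
        calc 2 * l ≤ 2 * 2 ^ (l - 1) := Nat.mul_le_mul_left _ h1
          _ = 2 ^ (l - 1 + 1) := by rw [pow_succ]; ring
          _ = 2 ^ l := by congr 1; omega
      exact_mod_cast h2
    have htd2 : δ * r * (2 * l * (Λ + 1) ^ (l - 1) * r ^ (l - 1)) ≤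
        δ * (2 * (Λ + 1) * K * r) ^ l := by
      calc δ * r * (2 * l * (Λ + 1) ^ (l - 1) * r ^ (l - 1))
          = δ * ((2 * l) * (Λ + 1) ^ (l - 1) * (r ^ (l - 1) * r)) := by ring
        _ = δ * ((2 * l) * (Λ + 1) ^ (l - 1) * r ^ l) := by
            rw [← pow_succ r (l - 1), show l - 1 + 1 = l by omega]
        _ ≤ δ * (2 ^ l * (Λ + 1) ^ l * r ^ l) := by
            apply mul_le_mul_of_nonneg_left _ hδ.le
            apply mul_le_mul_of_nonneg_right _ (by positivity)
            apply mul_le_mul hl2 _ (by positivity) (by positivity)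
            exact pow_le_pow_right₀ (by linarith) (by omega)
        _ = δ * (2 * (Λ + 1) * r) ^ l := by rw [mul_pow, mul_pow]
        _ ≤ _ := by
            apply mul_le_mul_of_nonneg_left _ hδ.le
            apply pow_le_pow_left₀ (by positivity)
            nlinarith [mul_nonneg (show (0 : ℝ) ≤ 2 * (Λ + 1) by positivity) hrpos.le]
    have hct := cyc_trace G' l (by omega)
    have hrep := hE l hl V G' hfree' (by rw [← hn, ← hr]; exact hdeg)
    rw [← hn] at hrep
    calc |(cyc G' l : ℝ) - ((bl χ (G'.adjMatrix ℝ)) ^ l).trace|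
        = |(((G'.adjMatrix ℝ) ^ l).trace - ((bl χ (G'.adjMatrix ℝ)) ^ l).trace) -
          (((G'.adjMatrix ℝ) ^ l).trace - (cyc G' l : ℝ))| := by congr 1; ring
      _ ≤ |((G'.adjMatrix ℝ) ^ l).trace - ((bl χ (G'.adjMatrix ℝ)) ^ l).trace| +
          |((G'.adjMatrix ℝ) ^ l).trace - (cyc G' l : ℝ)| := abs_sub _ _
      _ ≤ δ * (2 * (Λ + 1) * K * r) ^ l + E l * n ^ (((l : ℝ) - 1 / 2) / (k : ℝ)) :=
          add_le_add (htd.trans htd2) (hct.trans hrep)

end Pool.Agent.Q115.KR
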