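import Mathlib

namespace Pool.Agent.Q115.Mono

open SimpleGraph

variable {V W : Type*}

/-- The degree of a vertex. -/
noncomputable def deg (G : SimpleGraph V) (v : V) : ℕ := (G.neighborSet v).ncard

/-- The list `l` of vertices is a degree monotone path of `G`: the vertices are distinct,
consecutive ones are adjacent, and the degrees are non-decreasing or non-increasing. -/
def IsMonoPath (G : SimpleGraph V) (l : List V) : Prop :=
  l.Nodup ∧ l.IsChain G.Adj ∧
    ((l.map (deg G)).Pairwise (· ≤ ·) ∨ (l.map (deg G)).Pairwise (· ≥ ·))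

/-- The largest number of vertices of a degree monotone path. -/
noncomputable def mp (G : SimpleGraph V) : ℕ :=
  sSup {m | ∃ l : List V, IsMonoPath G l ∧ l.length = m}

/-- `G` is `k`-saturated. -/
def KSaturated (k : ℕ) (G : SimpleGraph V) : Prop :=
  mp G < k ∧ ∀ u v, u ≠ v → ¬ G.Adj u v → k ≤ mp (G ⊔ edge u v)

/-- The least number of edges of a `k`-saturated graph on `n` vertices. -/
noncomputable def h (n k : ℕ) : ℕ :=
  sInf {m | ∃ G : SimpleGraph (Fin n), KSaturated k G ∧ G.edgeSet.ncard = m}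

/-- the relation linking consecutive vertices of an increasing path -/
def Up (G : SimpleGraph V) (a b : V) : Prop := G.Adj a b ∧ deg G a ≤ deg G b

/-- increasing paths -/
def Inc (G : SimpleGraph V) (l : List V) : Prop := l.Nodup ∧ l.IsChain (Up G)

theorem chain_and {R S : V → V → Prop} {l : List V} (h1 : l.IsChain R) (h2 : l.IsChain S) :
    l.IsChain (fun a b => R a b ∧ S a b) := by
  rw [List.isChain_iff_getElem] at *
  exact fun i h => ⟨h1 i h, h2 i h⟩

theorem inc_isMonoPath {G : SimpleGraph V} {l : List V} (hl : Inc G l) : IsMonoPath G l := by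
  refine ⟨hl.1, hl.2.imp fun a b hab => hab.1, Or.inl ?_⟩
  rw [← List.isChain_iff_pairwise, List.isChain_map]
  exact hl.2.imp fun a b hab => hab.2

theorem isMonoPath_inc {G : SimpleGraph V} {l : List V} (hl : IsMonoPath G l) :
    Inc G l ∨ Inc G l.reverse := by
  obtain ⟨h1, h2, h3 | h3⟩ := hl
  · left
    rw [← List.isChain_iff_pairwise, List.isChain_map] at h3
    exact ⟨h1, chain_and h2 h3⟩
  · right
    rw [← List.isChain_iff_pairwise, List.isChain_map] at h3
    refine ⟨List.nodup_reverse.mpr h1, ?_⟩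
    rw [List.isChain_reverse]
    exact (chain_and h2 h3).imp fun a b hab => ⟨hab.1.symm, hab.2⟩

theorem mono_bdd [Fintype V] (G : SimpleGraph V) :
    BddAbove {m | ∃ l : List V, IsMonoPath G l ∧ l.length = m} := by
  refine ⟨Fintype.card V, ?_⟩
  rintro m ⟨l, hl, rfl⟩
  exact hl.1.length_le_card

theorem mp_lt_iff [Fintype V] {G : SimpleGraph V} {k : ℕ} (hk : 0 < k) :
    mp G < k ↔ ∀ l, Inc G l → l.length < k := by
  constructor
  · intro h l hl
    exact lt_of_le_of_lt (le_csSup (mono_bdd G) ⟨l, inc_isMonoPath hl, rfl⟩) h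
  · intro h
    have hne : {m | ∃ l : List V, IsMonoPath G l ∧ l.length = m}.Nonempty :=
      ⟨0, [], ⟨List.nodup_nil, List.IsChain.nil, Or.inl (by simp)⟩, rfl⟩
    obtain ⟨l, hl, hm⟩ := Nat.sSup_mem hne (mono_bdd G)
    show sSup _ < k
    rw [← hm]
    rcases isMonoPath_inc hl with h' | h'
    · exact h _ h'
    · have := h _ h'
      rwa [List.length_reverse] at this

theorem le_mp_iff [Fintype V] {G : SimpleGraph V} {k : ℕ} (hk : 0 < k) :
    k ≤ mp G ↔ ∃ l, Inc G l ∧ k ≤ l.length := by
  have := mp_lt_iff (G := G) hk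
  constructor
  · intro h
    by_contra hcon
    push Not at hcon
    exact absurd (this.mpr hcon) (not_lt.mpr h)
  · rintro ⟨l, hl, hk'⟩
    exact hk'.trans (le_csSup (mono_bdd G) ⟨l, inc_isMonoPath hl, rfl⟩)

theorem sup_edge_adj {G : SimpleGraph V} {u v x y : V} :
    (G ⊔ edge u v).Adj x y ↔ G.Adj x y ∨ (((x = u ∧ y = v) ∨ (x = v ∧ y = u)) ∧ x ≠ y) := by
  rw [sup_adj, edge_adj]

theorem deg_sup_other [Finite V] {G : SimpleGraph V} {u v x : V} (hu : x ≠ u) (hv : x ≠ v) :
    deg (G ⊔ edge u v) x = deg G x := by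
  unfold deg
  have : (G ⊔ edge u v).neighborSet x = G.neighborSet x := by
    ext y
    rw [mem_neighborSet, mem_neighborSet, sup_edge_adj]
    tauto
  rw [this]

theorem deg_sup_left [Finite V] {G : SimpleGraph V} {u v : V} (hne : u ≠ v)
    (hadj : ¬ G.Adj u v) : deg (G ⊔ edge u v) u = deg G u + 1 := by
  unfold deg
  have : (G ⊔ edge u v).neighborSet u = insert v (G.neighborSet u) := by
    ext y
    rw [mem_neighborSet, Set.mem_insert_iff, mem_neighborSet, sup_edge_adj]
    constructor
    · rintro (h | ⟨⟨-, h⟩ | ⟨h, h'⟩, h3⟩)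
      · exact Or.inr h
      · exact Or.inl h
      · exact absurd h hne
    · rintro (rfl | h)
      · exact Or.inr ⟨Or.inl ⟨rfl, rfl⟩, hne⟩
      · exact Or.inl h
  rw [this, Set.ncard_insert_of_notMem (by rwa [mem_neighborSet]) (Set.toFinite _)]

theorem deg_sup_right [Finite V] {G : SimpleGraph V} {u v : V} (hne : u ≠ v)
    (hadj : ¬ G.Adj u v) : deg (G ⊔ edge u v) v = deg G v + 1 := by
  rw [edge_comm]
  exact deg_sup_left hne.symm (fun h => hadj h.symm)

theorem deg_mono [Finite V] {G G' : SimpleGraph V} (hle : G ≤ G') (v : V) :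
    deg G v ≤ deg G' v := by
  unfold deg
  apply Set.ncard_le_ncard _ (Set.toFinite _)
  intro y hy
  exact hle hy

/-! ### transport along an equivalence -/

theorem deg_iso {G : SimpleGraph V} {G' : SimpleGraph W} (e : G ≃g G') (v : V) :
    deg G' (e v) = deg G v := by
  unfold deg
  have : G'.neighborSet (e v) = e '' G.neighborSet v := by
    ext y
    rw [mem_neighborSet, Set.mem_image]
    constructor
    · intro h
      refine ⟨e.symm y, ?_, by simp⟩
      rw [mem_neighborSet, ← e.map_adj_iff]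
      simpa using h
    · rintro ⟨x, hx, rfl⟩
      exact e.map_adj_iff.mpr hx
  rw [this, Set.ncard_image_of_injective _ e.injective]

theorem inc_iso {G : SimpleGraph V} {G' : SimpleGraph W} (e : G ≃g G') {l : List V}
    (hl : Inc G l) : Inc G' (l.map e) := by
  refine ⟨hl.1.map e.injective, ?_⟩
  rw [List.isChain_map]
  refine hl.2.imp fun a b hab => ⟨e.map_adj_iff.mpr hab.1, ?_⟩
  rw [deg_iso, deg_iso]
  exact hab.2

/-- adding corresponding edges preserves isomorphism -/
def isoEdge {G : SimpleGraph V} {G' : SimpleGraph W} (e : G ≃g G') (u v : V) :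
    (G ⊔ edge u v) ≃g (G' ⊔ edge (e u) (e v)) where
  toEquiv := e.toEquiv
  map_rel_iff' := by
    intro a b
    rw [sup_edge_adj, sup_edge_adj]
    have h1 : G'.Adj (e a) (e b) ↔ G.Adj a b := e.map_adj_iff
    have hi : ∀ x y : V, e x = e y ↔ x = y := fun x y => e.injective.eq_iff
    simp only [RelIso.coe_fn_toEquiv, ne_eq, hi, h1]

theorem ksaturated_iso [Fintype V] [Fintype W] {G : SimpleGraph V} {G' : SimpleGraph W}
    (e : G ≃g G') {k : ℕ} (hk : 0 < k) (hG : KSaturated k G) : KSaturated k G' := by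
  refine ⟨?_, ?_⟩
  · rw [mp_lt_iff hk]
    intro l hl
    have := (mp_lt_iff hk).mp hG.1 _ (inc_iso e.symm hl)
    rwa [List.length_map] at this
  · intro u v huv hadj
    obtain ⟨u, rfl⟩ := e.surjective u
    obtain ⟨v, rfl⟩ := e.surjective v
    have h1 : u ≠ v := fun h => huv (by rw [h])
    have h2 : ¬ G.Adj u v := fun h => hadj (e.map_adj_iff.mpr h)
    have h3 := hG.2 _ _ h1 h2
    rw [le_mp_iff hk] at h3 ⊢
    obtain ⟨l, hl, hlen⟩ := h3
    exact ⟨_, inc_iso (isoEdge e u v) hl, by rwa [List.length_map]⟩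

theorem h_le [Fintype V] {G : SimpleGraph V} {k n : ℕ} (hk : 0 < k) (hG : KSaturated k G)
    (hc : Fintype.card V = n) : h n k ≤ G.edgeSet.ncard := by
  classical
  let e : V ≃ Fin n := Fintype.equivFinOfCardEq hc
  let G' : SimpleGraph (Fin n) := G.map e.toEmbedding
  let i : G ≃g G' := SimpleGraph.Iso.map e G
  have h1 : KSaturated k G' := ksaturated_iso i hk hG
  have h2 : G'.edgeSet.ncard = G.edgeSet.ncard := by
    have : G'.edgeSet = (e.toEmbedding.sym2Map) '' G.edgeSet := by
      exact SimpleGraph.edgeSet_map _ _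
    rw [this, Set.ncard_image_of_injective _ e.toEmbedding.sym2Map.injective]
  rw [← h2]
  exact Nat.sInf_le ⟨G', h1, rfl⟩

/-! ### maximal graphs -/

/-- an inclusion-maximal graph with all degrees at least `δ` and no long monotone path
is saturated -/
theorem exists_saturated_of [Fintype V] {k δ : ℕ} (hk : 0 < k)
    (hne : ∃ G : SimpleGraph V, mp G < k ∧ ∀ v, δ ≤ deg G v) :
    ∃ G : SimpleGraph V, KSaturated k G ∧ ∀ v, δ ≤ deg G v := by
  classical
  let S : Set (SimpleGraph V) := {G | mp G < k ∧ ∀ v, δ ≤ deg G v}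
  obtain ⟨G, hG⟩ := (Set.toFinite S).exists_maximal hne
  refine ⟨G, ⟨hG.prop.1, ?_⟩, hG.prop.2⟩
  intro u v huv hadj
  by_contra hcon
  push Not at hcon
  have h1 : G ⊔ edge u v ∈ S :=
    ⟨hcon, fun w => (hG.prop.2 w).trans (deg_mono le_sup_left w)⟩
  have h2 : G ⊔ edge u v ≤ G := hG.le_of_ge h1 le_sup_left
  apply hadj
  apply h2
  rw [sup_edge_adj]
  exact Or.inr ⟨Or.inl ⟨rfl, rfl⟩, huv⟩

/-- the complete bipartite graph between the first `δ` and the remaining vertices -/
def bip (N δ : ℕ) : SimpleGraph (Fin N) where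
  Adj x y := (x.val < δ ∧ δ ≤ y.val) ∨ (y.val < δ ∧ δ ≤ x.val)
  symm := ⟨fun x y h => h.symm⟩
  loopless := ⟨fun x h => by omega⟩

theorem bip_deg_low {N δ : ℕ} (x : Fin N) (hx : x.val < δ) (hN : δ ≤ N) :
    deg (bip N δ) x = N - δ := by
  unfold deg
  have : (bip N δ).neighborSet x = ((Finset.univ.filter fun y : Fin N => δ ≤ y.val) : Set (Fin N)) := by
    ext y
    rw [mem_neighborSet]
    simp only [bip, Finset.coe_filter, Finset.mem_univ, true_and, Set.mem_ofPred_eq]
    omega
  rw [this, Set.ncard_coe_finset]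
  have h2 := Finset.card_filter_add_card_filter_not (s := (Finset.univ : Finset (Fin N)))
    (p := fun y : Fin N => δ ≤ y.val)
  have h3 : (Finset.univ.filter fun y : Fin N => ¬ δ ≤ y.val).card = δ := by
    have : (Finset.univ.filter fun y : Fin N => ¬ δ ≤ y.val) =
        (Finset.univ.filter fun y : Fin N => y.val < δ) := by
      apply Finset.filter_congr; intro y _; omega
    rw [this, Fin.card_filter_val_lt]
    omega
  rw [Finset.card_univ, Fintype.card_fin] at h2
  omega

theorem bip_deg_high {N δ : ℕ} (x : Fin N) (hx : δ ≤ x.val) (hN : δ ≤ N) :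
    deg (bip N δ) x = δ := by
  unfold deg
  have : (bip N δ).neighborSet x = ((Finset.univ.filter fun y : Fin N => y.val < δ) : Set (Fin N)) := by
    ext y
    rw [mem_neighborSet]
    simp only [bip, Finset.coe_filter, Finset.mem_univ, true_and, Set.mem_ofPred_eq]
    omega
  rw [this, Set.ncard_coe_finset, Fin.card_filter_val_lt]
  omega

theorem bip_mp {N δ k : ℕ} (hN : 2 * δ + 1 ≤ N) (hk : 3 ≤ k) : mp (bip N δ) < k := by
  rw [mp_lt_iff (by omega)]
  intro l hl
  by_contra hcon
  push Not at hcon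
  match l, hl, hcon with
  | a :: b :: c :: t, hl, _ =>
    have h1 := hl.2
    rw [List.isChain_cons_cons, List.isChain_cons_cons] at h1
    obtain ⟨⟨h2, h3⟩, ⟨h4, h5⟩, -⟩ := h1
    rcases h2 with ⟨h6, h7⟩ | ⟨h6, h7⟩
    · rw [bip_deg_low a h6 (by omega), bip_deg_high b h7 (by omega)] at h3
      omega
    · rcases h4 with ⟨h8, h9⟩ | ⟨h8, h9⟩
      · rw [bip_deg_low b h8 (by omega), bip_deg_high c h9 (by omega)] at h5
        omega
      · omega
  | [a, b], hl, h => simp at h; omega
  | [a], hl, h => simp at h; omega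
  | [], hl, h => simp at h; omega

theorem exists_rest {N δ k : ℕ} (hN : 2 * δ + 1 ≤ N) (hk : 3 ≤ k) :
    ∃ G : SimpleGraph (Fin N), KSaturated k G ∧ ∀ v, δ ≤ deg G v := by
  apply exists_saturated_of (by omega)
  refine ⟨bip N δ, bip_mp hN hk, ?_⟩
  intro v
  by_cases hv : v.val < δ
  · rw [bip_deg_low v hv (by omega)]; omega
  · rw [bip_deg_high v (by omega) (by omega)]

theorem exists_sat_any (n k : ℕ) (hk : 2 ≤ k) : ∃ G : SimpleGraph (Fin n), KSaturated k G := by
  obtain ⟨G, hG, -⟩ := exists_saturated_of (V := Fin n) (k := k) (δ := 0) (by omega) (by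
    refine ⟨⊥, ?_, fun v => Nat.zero_le _⟩
    rw [mp_lt_iff (by omega)]
    intro l hl
    match l, hl with
    | [], _ => simp; omega
    | [a], _ => simp; omega
    | a :: b :: t, hl =>
      have := hl.2
      rw [List.isChain_cons_cons] at this
      exact this.1.1.elim)
  exact ⟨G, hG⟩

theorem edges_le_sq {n : ℕ} (G : SimpleGraph (Fin n)) : G.edgeSet.ncard ≤ n ^ 2 := by
  classical
  have hsub : G.edgeSet ⊆ Set.range (fun p : Fin n × Fin n => s(p.1, p.2)) := by
    intro e _
    induction e using Sym2.ind with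
    | _ x y => exact ⟨(x, y), rfl⟩
  calc G.edgeSet.ncard ≤ (Set.range (fun p : Fin n × Fin n => s(p.1, p.2))).ncard :=
        Set.ncard_le_ncard hsub (Set.toFinite _)
    _ = ((fun p : Fin n × Fin n => s(p.1, p.2)) '' Set.univ).ncard := by rw [Set.image_univ]
    _ ≤ (Set.univ : Set (Fin n × Fin n)).ncard := Set.ncard_image_le (Set.toFinite _)
    _ = n ^ 2 := by rw [Set.ncard_univ, Nat.card_eq_fintype_card, Fintype.card_prod,
                      Fintype.card_fin, sq]

theorem h_le_sq (n k : ℕ) (hk : 2 ≤ k) : h n k ≤ n ^ 2 := by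
  obtain ⟨G, hG⟩ := exists_sat_any n k hk
  exact (h_le (by omega) hG (Fintype.card_fin n)).trans (edges_le_sq G)

end Pool.Agent.Q115.Mono
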