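import Pool.Agent.Q115.MonoUnion

namespace Pool.Agent.Q115.Mono

open SimpleGraph

/-- `q` copies of: four cycles of length `m` and `m` top vertices, the top vertex `x`
being joined to the vertex `x` of each of the four cycles -/
abbrev GV (q m : ℕ) := Fin q × Fin 5 × ZMod m

def gad (q m : ℕ) : SimpleGraph (GV q m) where
  Adj a b := a ≠ b ∧ a.1 = b.1 ∧ ((a.2.1 = 0 ∧ b.2.1 ≠ 0 ∧ a.2.2 = b.2.2) ∨
    (b.2.1 = 0 ∧ a.2.1 ≠ 0 ∧ a.2.2 = b.2.2) ∨
    (a.2.1 ≠ 0 ∧ a.2.1 = b.2.1 ∧ (b.2.2 = a.2.2 + 1 ∨ a.2.2 = b.2.2 + 1)))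
  symm := ⟨by
    rintro a b ⟨h1, h2, h3⟩
    refine ⟨h1.symm, h2.symm, ?_⟩
    rcases h3 with ⟨h4, h5, h6⟩ | ⟨h4, h5, h6⟩ | ⟨h4, h5, h6⟩
    · exact Or.inr (Or.inl ⟨h4, h5, h6.symm⟩)
    · exact Or.inl ⟨h4, h5, h6.symm⟩
    · exact Or.inr (Or.inr ⟨h5 ▸ h4, h5.symm, h6.symm⟩)⟩
  loopless := ⟨fun a h => h.1 rfl⟩

variable {q m : ℕ}

theorem one_ne (hm : 3 ≤ m) : (1 : ZMod m) ≠ 0 := by
  have : Fact (1 < m) := ⟨by omega⟩
  exact one_ne_zero

theorem two_ne (hm : 3 ≤ m) : (2 : ZMod m) ≠ 0 := by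
  intro h
  have h2 : ((2 : ℕ) : ZMod m) = 0 := by exact_mod_cast h
  rw [ZMod.natCast_eq_zero_iff] at h2
  have := Nat.le_of_dvd (by omega) h2
  omega

theorem deg_low (hm : 3 ≤ m) (j : Fin q) (i : Fin 5) (hi : i ≠ 0) (x : ZMod m) :
    deg (gad q m) (j, i, x) = 3 := by
  unfold deg
  have h1 := one_ne hm
  have h2 := two_ne hm
  have : (gad q m).neighborSet (j, i, x) = {(j, 0, x), (j, i, x + 1), (j, i, x - 1)} := by
    ext ⟨j', i', x'⟩
    rw [mem_neighborSet]
    simp only [gad, Set.mem_insert_iff, Set.mem_singleton_iff, Prod.mk.injEq, ne_eq]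
    constructor
    · rintro ⟨h3, h4, h5 | h5 | h5⟩
      · exact absurd h5.1 hi
      · exact Or.inl ⟨h4.symm, h5.1, h5.2.2.symm⟩
      · obtain ⟨h6, h7, h8 | h8⟩ := h5
        · exact Or.inr (Or.inl ⟨h4.symm, h7.symm, h8⟩)
        · exact Or.inr (Or.inr ⟨h4.symm, h7.symm, by rw [h8]; ring⟩)
    · rintro (⟨rfl, rfl, rfl⟩ | ⟨rfl, rfl, rfl⟩ | ⟨rfl, rfl, rfl⟩)
      · exact ⟨fun h => hi h.2.1, rfl, Or.inr (Or.inl ⟨rfl, hi, rfl⟩)⟩
      · refine ⟨fun h => h1 ?_, rfl, Or.inr (Or.inr ⟨hi, rfl, Or.inl rfl⟩)⟩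
        have := h.2.2
        exact (add_eq_left.mp this.symm)
      · refine ⟨fun h => h1 ?_, rfl, Or.inr (Or.inr ⟨hi, rfl, Or.inr (by ring)⟩)⟩
        have := h.2.2
        exact (sub_eq_self.mp this.symm)
  rw [this, Set.ncard_eq_three]
  refine ⟨_, _, _, ?_, ?_, ?_, rfl⟩
  · intro h
    simp only [Prod.mk.injEq] at h
    exact hi h.2.1.symm
  · intro h
    simp only [Prod.mk.injEq] at h
    exact hi h.2.1.symm
  · intro h
    simp only [Prod.mk.injEq, true_and] at h
    apply h2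
    have : (x + 1) - (x - 1) = 0 := by rw [h]; ring
    calc (2 : ZMod m) = (x + 1) - (x - 1) := by ring
      _ = 0 := this

theorem deg_top (hm : 3 ≤ m) (j : Fin q) (x : ZMod m) :
    deg (gad q m) (j, 0, x) = 4 := by
  unfold deg
  have : (gad q m).neighborSet (j, 0, x) = (fun i : Fin 5 => ((j, i, x) : GV q m)) ''
      {i | i ≠ 0} := by
    ext ⟨j', i', x'⟩
    rw [mem_neighborSet, Set.mem_image]
    simp only [gad, Prod.mk.injEq, ne_eq]
    constructor
    · rintro ⟨h3, h4, h5 | h5 | h5⟩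
      · exact ⟨i', h5.2.1, h4, rfl, h5.2.2⟩
      · exact absurd trivial h5.2.1
      · exact absurd trivial h5.1
    · rintro ⟨i, hi, rfl, rfl, rfl⟩
      exact ⟨fun h => hi h.2.1.symm, rfl, Or.inl ⟨trivial, hi, rfl⟩⟩
  rw [this, Set.ncard_image_of_injective]
  · have : ({i : Fin 5 | i ≠ 0} : Set (Fin 5)) = (({1, 2, 3, 4} : Finset (Fin 5)) : Set (Fin 5)) := by
      ext i
      fin_cases i <;> simp
    rw [this, Set.ncard_coe_finset]
    rfl
  · intro a b h
    simp only [Prod.mk.injEq] at h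
    exact h.2.1

theorem adj_low {j j' : Fin q} {i i' : Fin 5} {x x' : ZMod m} (hi : i ≠ 0) (hi' : i' ≠ 0)
    (h : (gad q m).Adj (j, i, x) (j', i', x')) : j = j' ∧ i = i' := by
  obtain ⟨-, h4, h5 | h5 | h5⟩ := h
  · exact absurd h5.1 hi
  · exact absurd h5.1 hi'
  · exact ⟨h4, h5.2.1⟩

theorem not_adj_top {j j' : Fin q} {x x' : ZMod m} :
    ¬ (gad q m).Adj (j, 0, x) (j', 0, x') := by
  rintro ⟨-, h4, h5 | h5 | h5⟩
  · exact h5.2.1 rfl
  · exact h5.2.1 rfl
  · exact h5.1 rfl

/-- in an increasing path all vertices but the last lie on one cycle -/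
theorem inc_struct (hm : 3 ≤ m) : ∀ (l : List (GV q m)) (a : GV q m),
    (a :: l).IsChain (Up (gad q m)) → l ≠ [] →
    a.2.1 ≠ 0 ∧ ∀ b ∈ (a :: l).dropLast, b.1 = a.1 ∧ b.2.1 = a.2.1 := by
  intro l
  induction l with
  | nil => intro a _ h; exact absurd rfl h
  | cons b t ih =>
    intro a hl _
    rw [List.isChain_cons_cons] at hl
    obtain ⟨⟨hab, hd⟩, hbt⟩ := hl
    have ha : a.2.1 ≠ 0 := by
      intro h0
      obtain ⟨ja, ia, xa⟩ := a
      obtain ⟨jb, ib, xb⟩ := b
      simp only at h0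
      subst h0
      by_cases hb : ib = 0
      · subst hb
        exact not_adj_top hab
      · rw [deg_top hm, deg_low hm _ _ hb] at hd
        omega
    refine ⟨ha, ?_⟩
    cases t with
    | nil =>
      intro c hc
      simp only [List.dropLast_cons_cons, List.dropLast_singleton, List.mem_cons,
        List.not_mem_nil, or_false] at hc
      rw [hc]
      exact ⟨rfl, rfl⟩
    | cons c s =>
      obtain ⟨hb, hall⟩ := ih b hbt (by simp)
      have hab' : a.1 = b.1 ∧ a.2.1 = b.2.1 := by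
        obtain ⟨ja, ia, xa⟩ := a
        obtain ⟨jb, ib, xb⟩ := b
        exact adj_low ha hb hab
      intro d hd'
      rw [List.dropLast_cons_cons, List.mem_cons] at hd'
      rcases hd' with rfl | hd'
      · exact ⟨rfl, rfl⟩
      · have := hall d hd'
        exact ⟨this.1.trans hab'.1.symm, this.2.trans hab'.2.symm⟩

theorem inc_length (hm : 3 ≤ m) (l : List (GV q m)) (hl : Inc (gad q m) l) :
    l.length ≤ m + 1 := by
  have : NeZero m := ⟨by omega⟩
  cases l with
  | nil => simp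
  | cons a t =>
    by_cases ht : t = []
    · subst ht; simp
    · obtain ⟨-, hall⟩ := inc_struct hm t a hl.2 ht
      have h1 : ((a :: t).dropLast).Nodup := hl.1.sublist (List.dropLast_sublist _)
      have h2 : (((a :: t).dropLast).map (fun b => b.2.2)).Nodup := by
        rw [List.nodup_map_iff_inj_on h1]
        intro x hx y hy hxy
        have hx' := hall x hx
        have hy' := hall y hy
        refine Prod.ext (hx'.1.trans hy'.1.symm) (Prod.ext (hx'.2.trans hy'.2.symm) hxy)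
      have h3 := h2.length_le_card
      rw [List.length_map, List.length_dropLast, ZMod.card] at h3
      omega

/-- the vertices of the cycle, in cyclic order, ending at `x` -/
def cyc (m : ℕ) (x : ZMod m) : List (ZMod m) :=
  (List.range m).map (fun s : ℕ => x + 1 + (s : ZMod m))

theorem cyc_nodup (x : ZMod m) : (cyc m x).Nodup := by
  unfold cyc
  rw [List.nodup_map_iff_inj_on List.nodup_range]
  intro s hs t ht hst
  rw [List.mem_range] at hs ht
  have h1 : (s : ZMod m) = (t : ZMod m) := add_left_cancel hst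
  rw [ZMod.natCast_eq_natCast_iff] at h1
  exact Nat.ModEq.eq_of_lt_of_lt h1 hs ht

theorem cyc_chain (x : ZMod m) : (cyc m x).IsChain (fun a b => b = a + 1) := by
  unfold cyc
  rw [List.isChain_map, List.isChain_iff_getElem]
  intro i hi
  rw [List.getElem_range, List.getElem_range]
  push_cast
  ring

theorem cyc_length (x : ZMod m) : (cyc m x).length = m := by
  unfold cyc
  rw [List.length_map, List.length_range]

theorem cyc_eq (hm : 3 ≤ m) (x : ZMod m) : ∃ l, cyc m x = l ++ [x] := by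
  obtain ⟨p, rfl⟩ : ∃ p, m = p + 1 := ⟨m - 1, by omega⟩
  refine ⟨(List.range p).map (fun s : ℕ => x + 1 + (s : ZMod (p + 1))), ?_⟩
  unfold cyc
  rw [List.range_succ, List.map_append, List.map_singleton]
  congr 2
  have : ((p + 1 : ℕ) : ZMod (p + 1)) = 0 := ZMod.natCast_self _
  push_cast at this
  calc x + 1 + (p : ZMod (p + 1)) = x + ((p : ZMod (p + 1)) + 1) := by ring
    _ = x := by rw [this, add_zero]

/-- the path around a cycle ending at its vertex `x` -/
def blk (j : Fin q) (i : Fin 5) (x : ZMod m) : List (GV q m) :=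
  (cyc m x).map (fun y => (j, i, y))

theorem blk_mem {j : Fin q} {i : Fin 5} {x : ZMod m} {a : GV q m} (h : a ∈ blk j i x) :
    a.1 = j ∧ a.2.1 = i := by
  unfold blk at h
  rw [List.mem_map] at h
  obtain ⟨y, -, rfl⟩ := h
  exact ⟨rfl, rfl⟩

theorem blk_length (j : Fin q) (i : Fin 5) (x : ZMod m) :
    (blk j i x : List (GV q m)).length = m := by
  unfold blk
  rw [List.length_map, cyc_length]

theorem blk_inc (hm : 3 ≤ m) (j : Fin q) (i : Fin 5) (hi : i ≠ 0) (x : ZMod m) :
    Inc (gad q m) (blk j i x) := by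
  refine ⟨?_, ?_⟩
  · unfold blk
    rw [List.nodup_map_iff_inj_on (cyc_nodup x)]
    intro a _ b _ hab
    simp only [Prod.mk.injEq] at hab
    exact hab.2.2
  · unfold blk
    rw [List.isChain_map]
    refine (cyc_chain x).imp ?_
    intro a b hab
    subst hab
    refine ⟨⟨?_, rfl, Or.inr (Or.inr ⟨hi, rfl, Or.inl rfl⟩)⟩, ?_⟩
    · intro h
      simp only [Prod.mk.injEq, true_and] at h
      exact one_ne hm (add_eq_left.mp h.symm)
    · rw [deg_low hm _ _ hi, deg_low hm _ _ hi]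

theorem blk_eq (hm : 3 ≤ m) (j : Fin q) (i : Fin 5) (x : ZMod m) :
    ∃ l : List (GV q m), blk j i x = l ++ [(j, i, x)] := by
  obtain ⟨l, hl⟩ := cyc_eq hm x
  refine ⟨l.map (fun y => (j, i, y)), ?_⟩
  unfold blk
  rw [hl, List.map_append, List.map_singleton]

theorem adj_top (j : Fin q) (i : Fin 5) (hi : i ≠ 0) (x : ZMod m) :
    (gad q m).Adj (j, i, x) (j, 0, x) := by
  refine ⟨?_, rfl, Or.inr (Or.inl ⟨rfl, hi, rfl⟩)⟩
  intro h
  simp only [Prod.mk.injEq] at h
  exact hi h.2.1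

theorem blk_top_inc (hm : 3 ≤ m) (j : Fin q) (i : Fin 5) (hi : i ≠ 0) (x : ZMod m) :
    Inc (gad q m) (blk j i x ++ [(j, 0, x)]) := by
  have h1 := blk_inc hm j i hi x
  refine ⟨?_, ?_⟩
  · rw [List.nodup_append]
    refine ⟨h1.1, List.nodup_singleton _, ?_⟩
    intro a ha b hb hab
    rw [List.mem_singleton] at hb
    subst hb; subst hab
    exact hi (blk_mem ha).2.symm
  · rw [List.isChain_append]
    refine ⟨h1.2, List.IsChain.singleton _, ?_⟩
    intro a ha b hb
    obtain ⟨l, hl⟩ := blk_eq (q := q) hm j i x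
    rw [hl] at ha
    simp only [List.getLast?_append, List.getLast?_singleton, Option.some_or,
      Option.mem_def, Option.some.injEq, List.head?_cons] at ha hb
    subst ha; subst hb
    refine ⟨adj_top j i hi x, ?_⟩
    rw [deg_low hm _ _ hi, deg_top hm]
    omega

theorem pick5 : ∀ i i' : Fin 5, ∃ k : Fin 5, k ≠ 0 ∧ k ≠ i ∧ k ≠ i' := by decide

variable {N : ℕ} {X : SimpleGraph (Fin N)}

/-- the whole graph -/
abbrev full (q m : ℕ) (X : SimpleGraph (Fin N)) : SimpleGraph (GV q m ⊕ Fin N) :=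
  gad q m ⊕g X

theorem mem_map_inl {l : List (GV q m)} {a : GV q m} :
    (Sum.inl a : GV q m ⊕ Fin N) ∈ l.map Sum.inl ↔ a ∈ l := by
  rw [List.mem_map]
  constructor
  · rintro ⟨b, hb, h⟩
    rw [Sum.inl.injEq] at h
    exact h ▸ hb
  · intro h
    exact ⟨a, h, rfl⟩

/-- a new edge at a cycle vertex -/
theorem case_low [NeZero m] (hm : 3 ≤ m) (j : Fin q) (i : Fin 5) (hi : i ≠ 0) (x : ZMod m)
    (v : GV q m ⊕ Fin N) (huv : Sum.inl (j, i, x) ≠ v)
    (hadj : ¬ (full q m X).Adj (Sum.inl (j, i, x)) v) :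
    ∃ l, Inc (full q m X ⊔ edge (Sum.inl (j, i, x)) v) l ∧ m + 2 ≤ l.length := by
  obtain ⟨k, hk0, hki, hkv⟩ : ∃ k : Fin 5, k ≠ 0 ∧ k ≠ i ∧
      ∀ y, v ≠ Sum.inl (j, k, y) := by
    cases v with
    | inl v =>
      obtain ⟨k, h1, h2, h3⟩ := pick5 i v.2.1
      refine ⟨k, h1, h2, ?_⟩
      intro y h
      rw [Sum.inl.injEq] at h
      rw [h] at h3
      exact h3 rfl
    | inr v =>
      obtain ⟨k, h1, h2, h3⟩ := pick5 i i
      exact ⟨k, h1, h2, fun y h => by simp at h⟩
  have hinc : Inc (full q m X) ((blk j k x).map Sum.inl ++ [Sum.inl (j, 0, x)]) := by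
    have := blk_top_inc (q := q) hm j k hk0 x
    rw [← inc_inl (H := X), List.map_append, List.map_singleton] at this
    exact this
  have hu : (Sum.inl (j, i, x) : GV q m ⊕ Fin N) ∉
      (blk j k x).map Sum.inl ++ [Sum.inl (j, 0, x)] := by
    rw [List.mem_append, mem_map_inl, List.mem_singleton, Sum.inl.injEq]
    rintro (h | h)
    · exact hki (blk_mem h).2.symm
    · simp only [Prod.mk.injEq] at h
      exact hi h.2.1
  have hv : v ∉ (blk j k x).map Sum.inl ++ [Sum.inl (j, 0, x)] := by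
    rw [List.mem_append, List.mem_singleton]
    rintro (h | h)
    · rw [List.mem_map] at h
      obtain ⟨b, hb, rfl⟩ := h
      have := blk_mem hb
      apply hkv b.2.2
      rw [Sum.inl.injEq]
      exact Prod.ext this.1 (Prod.ext this.2 rfl)
    · subst h
      exact hadj (sum_adj_inl.mpr (adj_top j i hi x))
  have key := inc_ext_one hinc hu hv huv hadj
    (sum_adj_inl.mpr (adj_top j i hi x).symm) (by
      rw [deg_inl, deg_inl, deg_top hm, deg_low hm _ _ hi])
  refine ⟨_, key, ?_⟩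
  rw [List.length_append, List.length_append, List.length_map, blk_length]
  simp

/-- a new edge at a top vertex, the other end having degree at least `4` -/
theorem case_top [NeZero m] (hm : 3 ≤ m) (j : Fin q) (x : ZMod m)
    (v : GV q m ⊕ Fin N) (huv : Sum.inl (j, 0, x) ≠ v)
    (hadj : ¬ (full q m X).Adj (Sum.inl (j, 0, x)) v)
    (hd : 4 ≤ deg (full q m X) v) (hv0 : ∀ j' i' y, v = Sum.inl (j', i', y) → i' = 0) :
    ∃ l, Inc (full q m X ⊔ edge (Sum.inl (j, 0, x)) v) l ∧ m + 2 ≤ l.length := by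
  obtain ⟨l, hl⟩ := blk_eq (q := q) hm j 1 x
  have h10 : (1 : Fin 5) ≠ 0 := by decide
  have hinc : Inc (full q m X) (l.map Sum.inl ++ [Sum.inl (j, 1, x)]) := by
    have := blk_inc (q := q) hm j 1 h10 x
    rw [← inc_inl (H := X), hl, List.map_append, List.map_singleton] at this
    exact this
  have hmem : ∀ a : GV q m ⊕ Fin N, a ∈ l.map Sum.inl ++ [Sum.inl (j, 1, x)] →
      ∃ y, a = Sum.inl (j, 1, y) := by
    intro a ha
    have : a ∈ (blk j 1 x).map Sum.inl := by
      rw [hl, List.map_append, List.map_singleton]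
      exact ha
    rw [List.mem_map] at this
    obtain ⟨b, hb, rfl⟩ := this
    have := blk_mem hb
    exact ⟨b.2.2, by rw [Sum.inl.injEq]; exact Prod.ext this.1 (Prod.ext this.2 rfl)⟩
  have hu : (Sum.inl (j, 0, x) : GV q m ⊕ Fin N) ∉
      l.map Sum.inl ++ [Sum.inl (j, 1, x)] := by
    intro h
    obtain ⟨y, hy⟩ := hmem _ h
    simp only [Sum.inl.injEq, Prod.mk.injEq] at hy
    exact h10 hy.2.1.symm
  have hv : v ∉ l.map Sum.inl ++ [Sum.inl (j, 1, x)] := by
    intro h
    obtain ⟨y, hy⟩ := hmem _ h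
    exact h10 (hv0 _ _ _ hy)
  have key := inc_ext_two hinc hu hv huv hadj
    (sum_adj_inl.mpr (adj_top j 1 h10 x)) (by
      rw [deg_inl, deg_inl, deg_top hm, deg_low hm _ _ h10]; omega) (by
      rw [deg_inl, deg_top hm]; exact hd)
  refine ⟨_, key, ?_⟩
  have hlen : l.length + 1 = m := by
    have := blk_length (q := q) j 1 x
    rw [hl, List.length_append] at this
    simpa using this
  simp only [List.length_append, List.length_map, List.length_singleton]
  omega

theorem full_saturated (hm : 3 ≤ m) (hX : KSaturated (m + 2) X) (hd : ∀ v, 4 ≤ deg X v) :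
    KSaturated (m + 2) (full q m X) := by
  have : NeZero m := ⟨by omega⟩
  refine sum_saturated (by omega) ?_ ?_ hX ?_
  · rw [mp_lt_iff (by omega)]
    intro l hl
    have := inc_length hm l hl
    omega
  · -- pairs inside the gadgets
    have key : ∀ u v : GV q m, u ≠ v → ¬ (gad q m).Adj u v →
        ∃ l, Inc (full q m (⊥ : SimpleGraph (Fin 0)) ⊔ edge (Sum.inl u) (Sum.inl v)) l ∧
          m + 2 ≤ l.length := by
      intro u v huv hadj
      have huv' : (Sum.inl u : GV q m ⊕ Fin 0) ≠ Sum.inl v := fun h => huv (Sum.inl.inj h)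
      have hadj' : ¬ (full q m (⊥ : SimpleGraph (Fin 0))).Adj (Sum.inl u) (Sum.inl v) :=
        fun h => hadj (sum_adj_inl.mp h)
      obtain ⟨j, i, x⟩ := u
      obtain ⟨j', i', x'⟩ := v
      by_cases hi : i = 0
      · by_cases hi' : i' = 0
        · subst hi
          subst hi'
          refine case_top hm j x _ huv' hadj' ?_ ?_
          · rw [deg_inl, deg_top hm]
          · intro j2 i2 y h
            simp only [Sum.inl.injEq, Prod.mk.injEq] at h
            exact h.2.1.symm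
        · rw [edge_comm]
          exact case_low hm j' i' hi' x' _ huv'.symm (fun h => hadj' h.symm)
      · exact case_low hm j i hi x _ huv' hadj'
    intro u v huv hadj
    obtain ⟨l, hl, hlen⟩ := key u v huv hadj
    rw [sum_sup_inl] at hl
    rcases chain_side l (hl.2.imp fun a b hab => hab.1) with ⟨l', rfl⟩ | ⟨l', rfl⟩
    · exact ⟨l', inc_inl.mp hl, by rwa [List.length_map] at hlen⟩
    · exfalso
      cases l' with
      | nil => simp at hlen
      | cons a t => exact a.elim0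
  · rintro ⟨j, i, x⟩ v
    have huv : (Sum.inl (j, i, x) : GV q m ⊕ Fin N) ≠ Sum.inr v := by simp
    have hadj : ¬ (full q m X).Adj (Sum.inl (j, i, x)) (Sum.inr v) := by
      simp [full, SimpleGraph.sum]
    by_cases hi : i = 0
    · subst hi
      refine case_top hm j x _ huv hadj ?_ ?_
      · rw [deg_inr]; exact hd v
      · intro j2 i2 y h
        simp at h
    · exact case_low hm j i hi x _ huv hadj

theorem gad_edges [NeZero m] : (gad q m).edgeSet.ncard ≤ 8 * (q * m) := by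
  classical
  let f1 : Fin q × Fin 4 × ZMod m → Sym2 (GV q m) := fun w =>
    s((w.1, w.2.1.succ, w.2.2), (w.1, 0, w.2.2))
  let f2 : Fin q × Fin 4 × ZMod m → Sym2 (GV q m) := fun w =>
    s((w.1, w.2.1.succ, w.2.2), (w.1, w.2.1.succ, w.2.2 + 1))
  have hsub : (gad q m).edgeSet ⊆ Set.range f1 ∪ Set.range f2 := by
    intro e he
    induction e using Sym2.ind with
    | _ a b =>
      rw [mem_edgeSet] at he
      obtain ⟨j, i, x⟩ := a
      obtain ⟨j', i', x'⟩ := b
      obtain ⟨-, h4, h5⟩ := he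
      simp only at h4 h5
      subst h4
      rcases h5 with ⟨h6, h7, h8⟩ | ⟨h6, h7, h8⟩ | ⟨h6, h7, h8⟩
      · subst h6; subst h8
        obtain ⟨s, rfl⟩ := Fin.exists_succ_eq.mpr h7
        exact Or.inl ⟨(j, s, x), Sym2.eq_swap⟩
      · subst h6; subst h8
        obtain ⟨s, rfl⟩ := Fin.exists_succ_eq.mpr h7
        exact Or.inl ⟨(j, s, x), rfl⟩
      · subst h7
        obtain ⟨s, rfl⟩ := Fin.exists_succ_eq.mpr h6
        rcases h8 with rfl | rfl
        · exact Or.inr ⟨(j, s, x), rfl⟩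
        · exact Or.inr ⟨(j, s, x'), Sym2.eq_swap⟩
  have hcard : ∀ f : Fin q × Fin 4 × ZMod m → Sym2 (GV q m),
      (Set.range f).ncard ≤ 4 * (q * m) := by
    intro f
    rw [← Set.image_univ]
    refine (Set.ncard_image_le (Set.toFinite _)).trans ?_
    rw [Set.ncard_univ, Nat.card_eq_fintype_card, Fintype.card_prod, Fintype.card_prod,
      Fintype.card_fin, Fintype.card_fin, ZMod.card]
    apply le_of_eq
    ring
  calc (gad q m).edgeSet.ncard ≤ (Set.range f1 ∪ Set.range f2).ncard :=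
        Set.ncard_le_ncard hsub (Set.toFinite _)
    _ ≤ (Set.range f1).ncard + (Set.range f2).ncard := Set.ncard_union_le _ _
    _ ≤ 4 * (q * m) + 4 * (q * m) := Nat.add_le_add (hcard f1) (hcard f2)
    _ = 8 * (q * m) := by ring

/-- `h(n, m + 2) ≤ (8 / 5) n + C` -/
theorem h_le_gadget (hm : 3 ≤ m) (n : ℕ) : 5 * h n (m + 2) ≤ 8 * n + 5 * (5 * m + 9) ^ 2 := by
  have : NeZero m := ⟨by omega⟩
  by_cases hn : n < 9
  · have h1 := h_le_sq n (m + 2) (by omega)
    have h2 : n ^ 2 ≤ (5 * m + 9) ^ 2 := Nat.pow_le_pow_left (by omega) 2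
    omega
  · push Not at hn
    obtain ⟨q, N, hN1, hN2, hqN⟩ : ∃ q N, 9 ≤ N ∧ N ≤ 5 * m + 9 ∧ n = q * (5 * m) + N := by
      refine ⟨(n - 9) / (5 * m), 9 + (n - 9) % (5 * m), by omega, ?_, ?_⟩
      · have := Nat.mod_lt (n - 9) (show 0 < 5 * m by omega)
        omega
      · have := Nat.div_add_mod (n - 9) (5 * m)
        rw [Nat.mul_comm] at this
        omega
    obtain ⟨X, hX, hd⟩ := exists_rest (N := N) (δ := 4) (k := m + 2) (by omega) (by omega)
    have h1 := full_saturated (q := q) hm hX hd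
    have hcard : Fintype.card (GV q m ⊕ Fin N) = n := by
      rw [Fintype.card_sum, Fintype.card_prod, Fintype.card_prod, Fintype.card_fin,
        Fintype.card_fin, Fintype.card_fin, ZMod.card, hqN]
    have h2 := h_le (by omega) h1 hcard
    have h3 : (full q m X).edgeSet.ncard ≤ (gad q m).edgeSet.ncard + N ^ 2 := edges_sum
    have h4 := gad_edges (q := q) (m := m)
    have h5 : N ^ 2 ≤ (5 * m + 9) ^ 2 := Nat.pow_le_pow_left (by omega) 2
    have h6 : 5 * (8 * (q * m)) ≤ 8 * n := by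
      rw [hqN]
      nlinarith
    omega

end Pool.Agent.Q115.Mono
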