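import Pool.Agent.Q115.MonoUnion

namespace Pool.Agent.Q115.Mono

open SimpleGraph

variable {q r N : ℕ}

/-- disjoint copies of a complete graph -/
def cl (q r : ℕ) : SimpleGraph (Fin q × Fin r) where
  Adj a b := a.1 = b.1 ∧ a.2 ≠ b.2
  symm := ⟨fun a b h => ⟨h.1.symm, h.2.symm⟩⟩
  loopless := ⟨fun a h => h.2 rfl⟩

theorem cl_deg (a : Fin q × Fin r) : deg (cl q r) a = r - 1 := by
  classical
  unfold deg
  have : (cl q r).neighborSet a =
      ((Finset.univ.erase a.2).image (fun i => (a.1, i)) : Finset (Fin q × Fin r)) := by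
    ext y
    rw [mem_neighborSet]
    simp only [cl, Finset.coe_image, Set.mem_image, Finset.mem_coe, Finset.mem_erase,
      Finset.mem_univ, and_true]
    constructor
    · rintro ⟨h1, h2⟩
      exact ⟨y.2, h2.symm, Prod.ext h1 rfl⟩
    · rintro ⟨i, hi, rfl⟩
      exact ⟨rfl, hi.symm⟩
  rw [this, Set.ncard_coe_finset, Finset.card_image_of_injective, Finset.card_erase_of_mem
    (Finset.mem_univ _), Finset.card_univ, Fintype.card_fin]
  intro i j hij
  exact (Prod.mk.injEq _ _ _ _ ▸ hij).2

theorem cl_mp (hr : 1 ≤ r) : mp (cl q r) < r + 1 := by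
  rw [mp_lt_iff (by omega)]
  intro l hl
  have h1 : ∀ l : List (Fin q × Fin r), l.IsChain (cl q r).Adj →
      ∀ j, (∀ a ∈ l.head?, a.1 = j) → ∀ a ∈ l, a.1 = j := by
    intro l
    induction l with
    | nil => intro _ j _ a ha; simp at ha
    | cons b t ih =>
      intro hc j hj a ha
      have hb : b.1 = j := hj b rfl
      rw [List.mem_cons] at ha
      rcases ha with rfl | ha
      · exact hb
      · refine ih hc.tail j ?_ a ha
        intro c hc'
        cases t with
        | nil => simp at hc'
        | cons d s =>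
          rw [List.head?_cons, Option.mem_def, Option.some.injEq] at hc'
          subst hc'
          rw [List.isChain_cons_cons] at hc
          rw [← hc.1.1]
          exact hb
  cases l with
  | nil => simp
  | cons b t =>
    have h2 := h1 (b :: t) (hl.2.imp fun a b h => h.1) b.1 (by
      intro a ha
      rw [List.head?_cons, Option.mem_def, Option.some.injEq] at ha
      rw [ha])
    have h3 : ((b :: t).map Prod.snd).Nodup := by
      rw [List.nodup_map_iff_inj_on hl.1]
      intro x hx y hy hxy
      exact Prod.ext ((h2 x hx).trans (h2 y hy).symm) hxy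
    have h4 := h3.length_le_card
    rw [Fintype.card_fin, List.length_map] at h4
    omega

/-- the vertices of the copy `j` other than `(j, i)` -/
def others (j : Fin q) (i : Fin r) : List (Fin q × Fin r) :=
  ((List.finRange r).filter (fun x => decide (x ≠ i))).map (fun x => (j, x))

theorem others_mem {j : Fin q} {i : Fin r} {a : Fin q × Fin r} (ha : a ∈ others j i) :
    a.1 = j ∧ a.2 ≠ i := by
  unfold others at ha
  rw [List.mem_map] at ha
  obtain ⟨x, hx, rfl⟩ := ha
  rw [List.mem_filter] at hx
  exact ⟨rfl, by simpa using hx.2⟩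

theorem others_nodup (j : Fin q) (i : Fin r) : (others j i).Nodup := by
  unfold others
  apply List.Nodup.map
  · intro x y hxy
    exact (Prod.mk.injEq _ _ _ _ ▸ hxy).2
  · exact (List.nodup_finRange r).filter _

theorem others_length (j : Fin q) (i : Fin r) : (others j i).length + 1 = r := by
  unfold others
  rw [List.length_map]
  have h1 := List.length_eq_length_filter_add (l := List.finRange r)
    (fun x => decide (x ≠ i))
  rw [List.length_finRange] at h1
  have h2 : ((List.finRange r).filter (fun x => !decide (x ≠ i))) = [i] := by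
    have : (fun x : Fin r => !decide (x ≠ i)) = (fun x => x == i) := by
      funext x
      by_cases h : x = i <;> simp [h]
    rw [this, List.filter_beq, List.count_eq_one_of_mem (List.nodup_finRange r)
      (List.mem_finRange i)]
    rfl
  rw [h2] at h1
  simp only [List.length_singleton] at h1
  omega

theorem others_inc (j : Fin q) (i : Fin r) : Inc (cl q r) (others j i) := by
  refine ⟨others_nodup j i, ?_⟩
  refine List.IsChain.imp_of_mem_imp ?_ (List.Pairwise.isChain (others_nodup j i))
  intro a b ha hb hab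
  refine ⟨⟨(others_mem ha).1.trans (others_mem hb).1.symm, ?_⟩, ?_⟩
  · intro h
    exact hab (Prod.ext ((others_mem ha).1.trans (others_mem hb).1.symm) h)
  · rw [cl_deg, cl_deg]

/-- a new edge at a vertex of a copy; the other end has degree at least `r - 1` -/
theorem cl_case {X : SimpleGraph (Fin N)} (hr : 2 ≤ r) (j : Fin q) (i : Fin r)
    (v : (Fin q × Fin r) ⊕ Fin N) (huv : Sum.inl (j, i) ≠ v)
    (hadj : ¬ (cl q r ⊕g X).Adj (Sum.inl (j, i)) v)
    (hd : r - 1 ≤ deg (cl q r ⊕g X) v) :
    ∃ l, Inc ((cl q r ⊕g X) ⊔ edge (Sum.inl (j, i)) v) l ∧ r + 1 ≤ l.length := by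
  obtain ⟨l, t, hlt⟩ : ∃ l t, others j i = l ++ [t] := by
    have h1 := others_length j i
    have h2 : others j i ≠ [] := by
      intro h
      rw [h] at h1
      simp at h1
      omega
    exact ⟨_, _, (List.dropLast_append_getLast h2).symm⟩
  have hinc : Inc (cl q r ⊕g X) (l.map Sum.inl ++ [Sum.inl t]) := by
    have := others_inc j i
    rw [hlt, ← inc_inl (H := X), List.map_append, List.map_singleton] at this
    exact this
  have hmem : ∀ a : (Fin q × Fin r) ⊕ Fin N, a ∈ l.map Sum.inl ++ [Sum.inl t] →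
      ∃ y, a = Sum.inl (j, y) ∧ y ≠ i := by
    intro a ha
    have : a ∈ (others j i).map Sum.inl := by
      rw [hlt, List.map_append, List.map_singleton]
      exact ha
    rw [List.mem_map] at this
    obtain ⟨b, hb, rfl⟩ := this
    have := others_mem hb
    exact ⟨b.2, by rw [Sum.inl.injEq]; exact Prod.ext this.1 rfl, this.2⟩
  have ht : t.1 = j ∧ t.2 ≠ i := others_mem (by rw [hlt]; simp)
  have htu : (cl q r ⊕g X).Adj (Sum.inl t) (Sum.inl (j, i)) :=
    sum_adj_inl.mpr ⟨ht.1, ht.2⟩
  have hu : (Sum.inl (j, i) : (Fin q × Fin r) ⊕ Fin N) ∉ l.map Sum.inl ++ [Sum.inl t] := by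
    intro h
    obtain ⟨y, hy, hne⟩ := hmem _ h
    simp only [Sum.inl.injEq, Prod.mk.injEq] at hy
    exact hne hy.2.symm
  have hv : v ∉ l.map Sum.inl ++ [Sum.inl t] := by
    intro h
    obtain ⟨y, hy, hne⟩ := hmem _ h
    subst hy
    exact hadj (sum_adj_inl.mpr ⟨rfl, hne.symm⟩)
  have key := inc_ext_two hinc hu hv huv hadj htu (by
      rw [deg_inl, deg_inl, cl_deg, cl_deg]; omega) (by
      rw [deg_inl, cl_deg]; exact hd)
  refine ⟨_, key, ?_⟩
  have h1 := others_length j i
  rw [hlt, List.length_append] at h1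
  simp only [List.length_append, List.length_map, List.length_singleton] at h1 ⊢
  omega

theorem cl_saturated {X : SimpleGraph (Fin N)} (hr : 2 ≤ r) (hX : KSaturated (r + 1) X)
    (hd : ∀ v, r - 1 ≤ deg X v) : KSaturated (r + 1) (cl q r ⊕g X) := by
  refine sum_saturated (by omega) (cl_mp (by omega)) ?_ hX ?_
  · intro u v huv hadj
    have huv' : (Sum.inl u : (Fin q × Fin r) ⊕ Fin 0) ≠ Sum.inl v :=
      fun h => huv (Sum.inl.inj h)
    have hadj' : ¬ (cl q r ⊕g (⊥ : SimpleGraph (Fin 0))).Adj (Sum.inl u) (Sum.inl v) :=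
      fun h => hadj (sum_adj_inl.mp h)
    obtain ⟨l, hl, hlen⟩ := cl_case hr u.1 u.2 _ huv' hadj' (by rw [deg_inl, cl_deg])
    have hl' : Inc ((cl q r ⊔ edge u v) ⊕g (⊥ : SimpleGraph (Fin 0))) l := by
      rw [← sum_sup_inl]
      exact hl
    rcases chain_side l (hl'.2.imp fun a b hab => hab.1) with ⟨l', rfl⟩ | ⟨l', rfl⟩
    · exact ⟨l', inc_inl.mp hl', by rwa [List.length_map] at hlen⟩
    · exfalso
      cases l' with
      | nil => simp at hlen
      | cons a t => exact a.elim0
  · intro u v
    exact cl_case hr u.1 u.2 _ (by simp) (by simp [SimpleGraph.sum])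
      (by rw [deg_inr]; exact hd v)

theorem cl_edges (hr : r = 2 ∨ r = 3) : (cl q r).edgeSet.ncard ≤ q * r := by
  classical
  have hr0 : NeZero r := ⟨by omega⟩
  let f : Fin q × Fin r → Sym2 (Fin q × Fin r) := fun w => s(w, (w.1, w.2 + 1))
  have hcyc : ∀ i i' : Fin r, i ≠ i' → i' = i + 1 ∨ i = i' + 1 := by
    intro i i' h
    have h1 := i.isLt
    have h2 := i'.isLt
    rw [Ne, Fin.ext_iff] at h
    rw [Fin.ext_iff, Fin.ext_iff, Fin.val_add, Fin.val_add, Fin.val_one']
    rcases hr with rfl | rfl <;> omega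
  have hsub : (cl q r).edgeSet ⊆ Set.range f := by
    intro e he
    induction e using Sym2.ind with
    | _ a b =>
      rw [mem_edgeSet] at he
      rcases hcyc a.2 b.2 he.2 with h | h
      · refine ⟨a, ?_⟩
        have : b = (a.1, a.2 + 1) := Prod.ext he.1.symm h
        rw [this]
      · refine ⟨b, ?_⟩
        have : a = (b.1, b.2 + 1) := Prod.ext he.1 h
        rw [this]
        exact Sym2.eq_swap
  calc (cl q r).edgeSet.ncard ≤ (Set.range f).ncard :=
        Set.ncard_le_ncard hsub (Set.toFinite _)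
    _ ≤ q * r := by
      rw [← Set.image_univ]
      refine (Set.ncard_image_le (Set.toFinite _)).trans ?_
      rw [Set.ncard_univ, Nat.card_eq_fintype_card, Fintype.card_prod,
        Fintype.card_fin, Fintype.card_fin]

/-- `h(n, k) ≤ n + C` for `k = 3, 4` -/
theorem h_le_small (hr : r = 2 ∨ r = 3) (n : ℕ) : h n (r + 1) ≤ n + 64 := by
  by_cases hn : n < 5
  · have h1 := h_le_sq n (r + 1) (by omega)
    have h2 : n ^ 2 ≤ 8 ^ 2 := Nat.pow_le_pow_left (by omega) 2
    omega
  · push Not at hn
    obtain ⟨q, N, hN1, hN2, hqN⟩ : ∃ q N, 5 ≤ N ∧ N ≤ 8 ∧ n = q * r + N := by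
      refine ⟨(n - 5) / r, 5 + (n - 5) % r, by omega, ?_, ?_⟩
      · have := Nat.mod_lt (n - 5) (show 0 < r by omega)
        omega
      · have := Nat.div_add_mod (n - 5) r
        rw [Nat.mul_comm] at this
        omega
    obtain ⟨X, hX, hd⟩ := exists_rest (N := N) (δ := r - 1) (k := r + 1) (by omega) (by omega)
    have h1 := cl_saturated (q := q) (by omega) hX hd
    have hcard : Fintype.card ((Fin q × Fin r) ⊕ Fin N) = n := by
      rw [Fintype.card_sum, Fintype.card_prod, Fintype.card_fin,
        Fintype.card_fin, Fintype.card_fin, hqN]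
    have h2 := h_le (by omega) h1 hcard
    have h3 : (cl q r ⊕g X).edgeSet.ncard ≤ (cl q r).edgeSet.ncard + N ^ 2 := edges_sum
    have h4 := cl_edges (q := q) hr
    have h5 : N ^ 2 ≤ 8 ^ 2 := Nat.pow_le_pow_left (by omega) 2
    omega

/-- `h(n, 2) = 0` -/
theorem h_two (n : ℕ) : h n 2 = 0 := by
  have h1 : KSaturated 2 (⊥ : SimpleGraph (Fin n)) := by
    refine ⟨?_, ?_⟩
    · rw [mp_lt_iff (by omega)]
      intro l hl
      match l, hl with
      | [], _ => simp
      | [a], _ => simp
      | a :: b :: t, hl =>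
        have := hl.2
        rw [List.isChain_cons_cons] at this
        exact this.1.1.elim
    · intro u v huv hadj
      rw [le_mp_iff (by omega)]
      refine ⟨[u, v], ⟨?_, ?_⟩, by simp⟩
      · simpa using huv
      · rw [List.isChain_cons_cons]
        refine ⟨⟨sup_edge_adj.mpr (Or.inr ⟨Or.inl ⟨rfl, rfl⟩, huv⟩), ?_⟩,
          List.IsChain.singleton _⟩
        rw [deg_sup_left huv hadj, deg_sup_right huv hadj]
        have : ∀ w : Fin n, deg (⊥ : SimpleGraph (Fin n)) w = 0 := by
          intro w
          unfold deg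
          have : (⊥ : SimpleGraph (Fin n)).neighborSet w = ∅ := by
            ext y; simp
          rw [this, Set.ncard_empty]
        rw [this, this]
  have h2 := h_le (by omega) h1 (Fintype.card_fin n)
  have h3 : (⊥ : SimpleGraph (Fin n)).edgeSet = ∅ := SimpleGraph.edgeSet_bot
  rw [h3, Set.ncard_empty] at h2
  omega

end Pool.Agent.Q115.Mono
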