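import Pool.Agent.Q115.MonoBase

namespace Pool.Agent.Q115.Mono

open SimpleGraph

variable {V W : Type*}

theorem deg_inl {G : SimpleGraph V} {H : SimpleGraph W} (v : V) :
    deg (G ⊕g H) (Sum.inl v) = deg G v := by
  unfold deg
  have : (G ⊕g H).neighborSet (Sum.inl v) = Sum.inl '' G.neighborSet v := by
    ext y
    rw [mem_neighborSet, Set.mem_image]
    cases y with
    | inl y => simp
    | inr y => simp [SimpleGraph.sum]
  rw [this, Set.ncard_image_of_injective _ Sum.inl_injective]

theorem deg_inr {G : SimpleGraph V} {H : SimpleGraph W} (v : W) :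
    deg (G ⊕g H) (Sum.inr v) = deg H v := by
  unfold deg
  have : (G ⊕g H).neighborSet (Sum.inr v) = Sum.inr '' H.neighborSet v := by
    ext y
    rw [mem_neighborSet, Set.mem_image]
    cases y with
    | inl y => simp [SimpleGraph.sum]
    | inr y => simp
  rw [this, Set.ncard_image_of_injective _ Sum.inr_injective]

theorem inc_inl {G : SimpleGraph V} {H : SimpleGraph W} {l : List V} :
    Inc (G ⊕g H) (l.map Sum.inl) ↔ Inc G l := by
  unfold Inc
  rw [List.isChain_map, List.nodup_map_iff Sum.inl_injective]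
  have : (fun a b => Up (G ⊕g H) (Sum.inl a) (Sum.inl b)) = Up G := by
    funext a b
    simp only [Up, sum_adj_inl, deg_inl]
  rw [this]

theorem inc_inr {G : SimpleGraph V} {H : SimpleGraph W} {l : List W} :
    Inc (G ⊕g H) (l.map Sum.inr) ↔ Inc H l := by
  unfold Inc
  rw [List.isChain_map, List.nodup_map_iff Sum.inr_injective]
  have : (fun a b => Up (G ⊕g H) (Sum.inr a) (Sum.inr b)) = Up H := by
    funext a b
    simp only [Up, sum_adj_inr, deg_inr]
  rw [this]

theorem chain_side {G : SimpleGraph V} {H : SimpleGraph W} (l : List (V ⊕ W))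
    (hl : l.IsChain (G ⊕g H).Adj) :
    (∃ l' : List V, l = l'.map Sum.inl) ∨ (∃ l' : List W, l = l'.map Sum.inr) := by
  induction l with
  | nil => exact Or.inl ⟨[], rfl⟩
  | cons a t ih =>
    have ht := ih hl.tail
    cases t with
    | nil =>
      cases a with
      | inl a => exact Or.inl ⟨[a], rfl⟩
      | inr a => exact Or.inr ⟨[a], rfl⟩
    | cons b s =>
      rw [List.isChain_cons_cons] at hl
      rcases ht with ⟨l', hl'⟩ | ⟨l', hl'⟩
      · left
        cases l' with
        | nil => simp at hl'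
        | cons b' s' =>
          rw [List.map_cons, List.cons.injEq] at hl'
          obtain ⟨rfl, rfl⟩ := hl'
          cases a with
          | inl a => exact ⟨a :: b' :: s', rfl⟩
          | inr a => exact absurd hl.1 (by simp [SimpleGraph.sum])
      · right
        cases l' with
        | nil => simp at hl'
        | cons b' s' =>
          rw [List.map_cons, List.cons.injEq] at hl'
          obtain ⟨rfl, rfl⟩ := hl'
          cases a with
          | inl a => exact absurd hl.1 (by simp [SimpleGraph.sum])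
          | inr a => exact ⟨a :: b' :: s', rfl⟩

theorem mp_sum_lt [Fintype V] [Fintype W] {G : SimpleGraph V} {H : SimpleGraph W} {k : ℕ}
    (hk : 0 < k) (hG : mp G < k) (hH : mp H < k) : mp (G ⊕g H) < k := by
  rw [mp_lt_iff hk] at *
  intro l hl
  rcases chain_side l (hl.2.imp fun a b hab => hab.1) with ⟨l', rfl⟩ | ⟨l', rfl⟩
  · rw [List.length_map]
    exact hG l' (inc_inl.mp hl)
  · rw [List.length_map]
    exact hH l' (inc_inr.mp hl)

theorem sum_sup_inl {G : SimpleGraph V} {H : SimpleGraph W} (u v : V) :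
    (G ⊕g H) ⊔ edge (Sum.inl u) (Sum.inl v) = (G ⊔ edge u v) ⊕g H := by
  ext a b
  rw [sup_edge_adj]
  cases a with
  | inl a =>
    cases b with
    | inl b => rw [sum_adj_inl, sum_adj_inl, sup_edge_adj]; simp
    | inr b => simp [SimpleGraph.sum]
  | inr a =>
    cases b with
    | inl b => simp [SimpleGraph.sum]
    | inr b => rw [sum_adj_inr, sum_adj_inr]; simp

theorem sum_sup_inr {G : SimpleGraph V} {H : SimpleGraph W} (u v : W) :
    (G ⊕g H) ⊔ edge (Sum.inr u) (Sum.inr v) = G ⊕g (H ⊔ edge u v) := by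
  ext a b
  rw [sup_edge_adj]
  cases a with
  | inl a =>
    cases b with
    | inl b => rw [sum_adj_inl, sum_adj_inl]; simp
    | inr b => simp [SimpleGraph.sum]
  | inr a =>
    cases b with
    | inl b => simp [SimpleGraph.sum]
    | inr b => rw [sum_adj_inr, sum_adj_inr, sup_edge_adj]; simp

/-- extend an increasing path by one of the two ends of the new edge -/
theorem inc_ext_one [Finite V] {G : SimpleGraph V} {u v t : V} {l : List V}
    (hl : Inc G (l ++ [t])) (hu : u ∉ l ++ [t]) (hv : v ∉ l ++ [t]) (huv : u ≠ v)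
    (hadj : ¬ G.Adj u v) (htu : G.Adj t u) (hd : deg G t ≤ deg G u + 1) :
    Inc (G ⊔ edge u v) (l ++ [t] ++ [u]) := by
  have hdeg : ∀ w ∈ l ++ [t], deg (G ⊔ edge u v) w = deg G w := by
    intro w hw
    exact deg_sup_other (fun h => hu (h ▸ hw)) (fun h => hv (h ▸ hw))
  refine ⟨?_, ?_⟩
  · rw [List.nodup_append]
    refine ⟨hl.1, List.nodup_singleton _, ?_⟩
    intro a ha b hb hab
    rw [List.mem_singleton] at hb
    exact hu (hb ▸ hab ▸ ha)
  · rw [List.isChain_append]
    refine ⟨?_, List.IsChain.singleton _, ?_⟩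
    · refine List.IsChain.imp_of_mem_imp ?_ hl.2
      intro a b ha hb hab
      refine ⟨sup_edge_adj.mpr (Or.inl hab.1), ?_⟩
      rw [hdeg a ha, hdeg b hb]
      exact hab.2
    · intro x hx y hy
      simp only [List.getLast?_append, List.getLast?_singleton, Option.some_or,
        Option.mem_def, Option.some.injEq, List.head?_cons] at hx hy
      subst hx; subst hy
      refine ⟨sup_edge_adj.mpr (Or.inl htu), ?_⟩
      rw [hdeg t (by simp), deg_sup_left huv hadj]
      exact hd

/-- extend an increasing path by both ends of the new edge -/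
theorem inc_ext_two [Finite V] {G : SimpleGraph V} {u v t : V} {l : List V}
    (hl : Inc G (l ++ [t])) (hu : u ∉ l ++ [t]) (hv : v ∉ l ++ [t]) (huv : u ≠ v)
    (hadj : ¬ G.Adj u v) (htu : G.Adj t u) (hd : deg G t ≤ deg G u + 1)
    (hd' : deg G u ≤ deg G v) :
    Inc (G ⊔ edge u v) (l ++ [t] ++ [u] ++ [v]) := by
  have h1 := inc_ext_one hl hu hv huv hadj htu hd
  refine ⟨?_, ?_⟩
  · rw [List.nodup_append]
    refine ⟨h1.1, List.nodup_singleton _, ?_⟩
    intro a ha b hb hab
    rw [List.mem_singleton] at hb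
    subst hb; subst hab
    rw [List.mem_append, List.mem_singleton] at ha
    rcases ha with ha | ha
    · exact hv ha
    · exact huv ha.symm
  · rw [List.isChain_append]
    refine ⟨h1.2, List.IsChain.singleton _, ?_⟩
    intro x hx y hy
    simp only [List.getLast?_append, List.getLast?_singleton, Option.some_or,
      Option.mem_def, Option.some.injEq, List.head?_cons] at hx hy
    subst hx; subst hy
    refine ⟨sup_edge_adj.mpr (Or.inr ⟨Or.inl ⟨rfl, rfl⟩, huv⟩), ?_⟩
    rw [deg_sup_left huv hadj, deg_sup_right huv hadj]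
    omega

/-- the number of edges of a disjoint union -/
theorem edges_sum [Finite V] {G : SimpleGraph V} {N : ℕ} {H : SimpleGraph (Fin N)} :
    (G ⊕g H).edgeSet.ncard ≤ G.edgeSet.ncard + N ^ 2 := by
  classical
  have hsub : (G ⊕g H).edgeSet ⊆ (Sym2.map Sum.inl '' G.edgeSet) ∪
      (Sym2.map Sum.inr '' H.edgeSet) := by
    intro e he
    induction e using Sym2.ind with
    | _ x y =>
      rw [mem_edgeSet] at he
      cases x with
      | inl x =>
        cases y with
        | inl y => exact Or.inl ⟨s(x, y), sum_adj_inl.mp he, rfl⟩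
        | inr y => exact absurd he (by simp [SimpleGraph.sum])
      | inr x =>
        cases y with
        | inl y => exact absurd he (by simp [SimpleGraph.sum])
        | inr y => exact Or.inr ⟨s(x, y), sum_adj_inr.mp he, rfl⟩
  have hf1 : (Sym2.map (Sum.inl : V → V ⊕ Fin N) '' G.edgeSet).Finite := Set.toFinite _
  have hf2 : (Sym2.map (Sum.inr : Fin N → V ⊕ Fin N) '' H.edgeSet).Finite := Set.toFinite _
  calc (G ⊕g H).edgeSet.ncard ≤ ((Sym2.map Sum.inl '' G.edgeSet) ∪
      (Sym2.map Sum.inr '' H.edgeSet)).ncard := Set.ncard_le_ncard hsub (hf1.union hf2)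
    _ ≤ (Sym2.map (Sum.inl : V → V ⊕ Fin N) '' G.edgeSet).ncard +
        (Sym2.map (Sum.inr : Fin N → V ⊕ Fin N) '' H.edgeSet).ncard := Set.ncard_union_le _ _
    _ ≤ G.edgeSet.ncard + H.edgeSet.ncard :=
        Nat.add_le_add (Set.ncard_image_le (Set.toFinite _)) (Set.ncard_image_le (Set.toFinite _))
    _ ≤ G.edgeSet.ncard + N ^ 2 := Nat.add_le_add_left (edges_le_sq H) _

/-- if all cross pairs and all inner pairs are fine, the disjoint union is saturated -/
theorem sum_saturated [Fintype V] [Fintype W] {G : SimpleGraph V} {H : SimpleGraph W} {k : ℕ}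
    (hk : 0 < k) (hG : mp G < k)
    (hGG : ∀ u v, u ≠ v → ¬ G.Adj u v → ∃ l, Inc (G ⊔ edge u v) l ∧ k ≤ l.length)
    (hH : KSaturated k H)
    (hc : ∀ u v, ∃ l, Inc ((G ⊕g H) ⊔ edge (Sum.inl u) (Sum.inr v)) l ∧ k ≤ l.length) :
    KSaturated k (G ⊕g H) := by
  refine ⟨mp_sum_lt hk hG hH.1, ?_⟩
  intro u v huv hadj
  rw [le_mp_iff hk]
  cases u with
  | inl u =>
    cases v with
    | inl v =>
      obtain ⟨l, hl, hlen⟩ := hGG u v (fun h => huv (by rw [h]))
        (fun h => hadj (sum_adj_inl.mpr h))
      refine ⟨l.map Sum.inl, ?_, by rwa [List.length_map]⟩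
      rw [sum_sup_inl, inc_inl]
      exact hl
    | inr v => exact hc u v
  | inr u =>
    cases v with
    | inl v =>
      rw [edge_comm]
      exact hc v u
    | inr v =>
      have := hH.2 u v (fun h => huv (by rw [h])) (fun h => hadj (sum_adj_inr.mpr h))
      rw [le_mp_iff hk] at this
      obtain ⟨l, hl, hlen⟩ := this
      refine ⟨l.map Sum.inr, ?_, by rwa [List.length_map]⟩
      rw [sum_sup_inr, inc_inr]
      exact hl

end Pool.Agent.Q115.Mono
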