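import Mathlib

set_option autoImplicit false

/-!
# Counting functions with small images

Preparation for graphs with many edges in which every subgraph of minimum degree at least three
has a vertex of large degree.
-/

namespace Q115.Quasi

open Finset

theorem pow_self_le (b : ℕ) : (b : ℝ) ^ b / (b.factorial : ℝ) ≤ 3 ^ b := by
  have h1 := Real.pow_div_factorial_le_exp (b : ℝ) (Nat.cast_nonneg b) b
  refine h1.trans ?_
  have h2 : Real.exp (b : ℝ) = (Real.exp 1) ^ b := by
    rw [← Real.exp_nat_mul]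
    simp
  rw [h2]
  exact pow_le_pow_left₀ (Real.exp_pos 1).le (Real.exp_one_lt_d9.le.trans (by norm_num)) b

theorem choose_mul_le (β b e : ℕ) (hβ : 0 < β) (hbe : b ≤ e) :
    (β.choose b : ℝ) * ((b : ℝ) / β) ^ e ≤ 3 ^ b * ((b : ℝ) / β) ^ (e - b) := by
  have hβ' : (0 : ℝ) < β := by exact_mod_cast hβ
  have h0 : (0 : ℝ) ≤ (b : ℝ) / β := by positivity
  have h1 : ((b : ℝ) / β) ^ e = ((b : ℝ) / β) ^ b * ((b : ℝ) / β) ^ (e - b) := by
    rw [← pow_add]
    congr 1
    omega
  rw [h1, ← mul_assoc]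
  apply mul_le_mul_of_nonneg_right _ (pow_nonneg h0 _)
  have h2 : (β.choose b : ℝ) ≤ (β : ℝ) ^ b / (b.factorial : ℝ) := Nat.choose_le_pow_div b β
  calc (β.choose b : ℝ) * ((b : ℝ) / β) ^ b
      ≤ ((β : ℝ) ^ b / (b.factorial : ℝ)) * ((b : ℝ) / β) ^ b :=
        mul_le_mul_of_nonneg_right h2 (pow_nonneg h0 _)
    _ = (b : ℝ) ^ b / (b.factorial : ℝ) := by
        rw [div_pow]
        field_simp
    _ ≤ 3 ^ b := pow_self_le b

open Classical in
/-- One level: the number of functions under which a given set `S` has image of size at most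
`|S|/3`. -/
theorem level (n β : ℕ) (hβ : 0 < β) (S : Finset (Fin n)) (m : ℕ) (hS : S.card ≤ m) (p : ℝ)
    (hp0 : 0 ≤ p) (hp1 : p ≤ 1) (hp : (m : ℝ) / β ≤ p ^ 12) :
    ((univ.filter (fun h : Fin n → Fin β => 3 * (S.image h).card ≤ S.card)).card : ℝ) ≤
      (β : ℝ) ^ n * ((m + 1) * 3 ^ m * p ^ (8 * S.card)) := by
  have hβ' : (0 : ℝ) < β := by exact_mod_cast hβ
  -- cover
  have hcover : (univ.filter (fun h : Fin n → Fin β => 3 * (S.image h).card ≤ S.card)) ⊆
      ((univ : Finset (Fin β)).powerset.filter (fun T => 3 * T.card ≤ S.card)).biUnion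
        (fun T => Fintype.piFinset (fun a : Fin n => if a ∈ S then T else univ)) := by
    intro h hh
    rw [mem_filter] at hh
    rw [mem_biUnion]
    refine ⟨S.image h, ?_, ?_⟩
    · rw [mem_filter, mem_powerset]
      exact ⟨subset_univ _, hh.2⟩
    · rw [Fintype.mem_piFinset]
      intro a
      by_cases ha : a ∈ S
      · rw [if_pos ha]
        exact mem_image_of_mem h ha
      · rw [if_neg ha]
        exact mem_univ _
  have hcard : ∀ T : Finset (Fin β),
      ((Fintype.piFinset (fun a : Fin n => if a ∈ S then T else univ)).card : ℝ) =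
        (β : ℝ) ^ n * ((T.card : ℝ) / β) ^ S.card := by
    intro T
    rw [Fintype.card_piFinset]
    have h1 : ∀ a : Fin n, ((if a ∈ S then T else univ : Finset (Fin β)).card : ℝ) =
        (β : ℝ) * (if a ∈ S then ((T.card : ℝ) / β) else 1) := by
      intro a
      by_cases ha : a ∈ S
      · rw [if_pos ha, if_pos ha]
        field_simp
      · rw [if_neg ha, if_neg ha]
        simp
    push_cast
    rw [Finset.prod_congr rfl (fun a _ => h1 a), Finset.prod_mul_distrib, Finset.prod_const,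
      Finset.card_univ, Fintype.card_fin]
    congr 1
    rw [Finset.prod_ite_mem, Finset.univ_inter, Finset.prod_const]
  have h1 : ((univ.filter (fun h : Fin n → Fin β => 3 * (S.image h).card ≤ S.card)).card : ℝ) ≤
      ∑ T ∈ (univ : Finset (Fin β)).powerset.filter (fun T => 3 * T.card ≤ S.card),
        (β : ℝ) ^ n * ((T.card : ℝ) / β) ^ S.card := by
    have h2 := (Finset.card_le_card hcover).trans Finset.card_biUnion_le
    have h3 : ((univ.filter (fun h : Fin n → Fin β => 3 * (S.image h).card ≤ S.card)).card : ℝ) ≤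
        ((∑ T ∈ (univ : Finset (Fin β)).powerset.filter (fun T => 3 * T.card ≤ S.card),
        (Fintype.piFinset (fun a : Fin n => if a ∈ S then T else univ)).card : ℕ) : ℝ) := by
      exact_mod_cast h2
    push_cast at h3
    refine h3.trans (le_of_eq ?_)
    apply Finset.sum_congr rfl
    intro T _
    exact hcard T
  refine h1.trans ?_
  rw [← Finset.mul_sum]
  apply mul_le_mul_of_nonneg_left _ (pow_nonneg hβ'.le _)
  -- group by size
  rw [Finset.sum_filter]
  have h2 : ∑ T ∈ (univ : Finset (Fin β)).powerset,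
      (if 3 * T.card ≤ S.card then ((T.card : ℝ) / β) ^ S.card else 0) =
      ∑ b ∈ range (β + 1), (β.choose b) •
        (if 3 * b ≤ S.card then ((b : ℝ) / β) ^ S.card else 0) := by
    have := Finset.sum_powerset_apply_card
      (fun b => (if 3 * b ≤ S.card then ((b : ℝ) / β) ^ S.card else 0))
      (x := (univ : Finset (Fin β)))
    rw [Finset.card_univ, Fintype.card_fin] at this
    exact this
  rw [h2]
  have h3 : ∀ b ∈ range (β + 1), (β.choose b) •
        (if 3 * b ≤ S.card then ((b : ℝ) / β) ^ S.card else 0) ≤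
        (if 3 * b ≤ S.card then 3 ^ m * p ^ (8 * S.card) else 0) := by
    intro b _
    by_cases hb : 3 * b ≤ S.card
    · rw [if_pos hb, if_pos hb, nsmul_eq_mul]
      refine (choose_mul_le β b S.card hβ (by omega)).trans ?_
      have h4 : (3 : ℝ) ^ b ≤ 3 ^ m := pow_le_pow_right₀ (by norm_num) (by omega)
      have h5 : ((b : ℝ) / β) ^ (S.card - b) ≤ p ^ (8 * S.card) := by
        have h6 : (b : ℝ) / β ≤ p ^ 12 := by
          refine le_trans ?_ hp
          apply div_le_div_of_nonneg_right _ hβ'.le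
          have : b ≤ m := by omega
          exact_mod_cast this
        calc ((b : ℝ) / β) ^ (S.card - b) ≤ (p ^ 12) ^ (S.card - b) :=
              pow_le_pow_left₀ (by positivity) h6 _
          _ = p ^ (12 * (S.card - b)) := by rw [pow_mul]
          _ ≤ p ^ (8 * S.card) := pow_le_pow_of_le_one hp0 hp1 (by omega)
      exact mul_le_mul h4 h5 (by positivity) (by positivity)
    · rw [if_neg hb, if_neg hb]
      simp
  refine (Finset.sum_le_sum h3).trans ?_
  rw [← Finset.sum_filter, Finset.sum_const, nsmul_eq_mul, mul_assoc]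
  apply mul_le_mul_of_nonneg_right _ (by positivity)
  have h4 : ((range (β + 1)).filter (fun b => 3 * b ≤ S.card)) ⊆ range (m + 1) := by
    intro b hb
    rw [mem_filter] at hb
    rw [mem_range]
    omega
  have h5 := Finset.card_le_card h4
  rw [Finset.card_range] at h5
  exact_mod_cast h5


/-- The set of data witnessing that the functions `g i` are bad. -/
def Bad {F n : ℕ} (Δ : ℕ) (β : Fin F → ℕ) (g : ∀ i : Fin F, Fin n → Fin (β i)) : Prop :=
  ∃ (A : Finset (Fin n)) (S : Fin F → Finset (Fin n)), A.Nonempty ∧ (∀ i, S i ⊆ A) ∧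
    (∀ i, 3 * ((S i).image (g i)).card ≤ (S i).card) ∧ (∀ i, (S i).card ≤ Δ * β i) ∧
    3 * A.card ≤ ∑ i, (S i).card

/-- The low levels for a set of size `m` carry many edges. -/
theorem low_levels {F n : ℕ} (Δ K : ℕ) (hF : 0 < F) (hK : K = 8 * F * Δ)
    (β : Fin F → ℕ) (D : ℕ → ℕ) (hD : Monotone D)
    (hβ : ∀ i : Fin F, D i * β i = n) (m : ℕ)
    (s : Fin F → ℕ) (hsm : ∀ i, s i ≤ m) (hsβ : ∀ i, s i ≤ Δ * β i) (hsum : 3 * m ≤ ∑ i, s i) :
    15 * m ≤ 8 * ∑ i ∈ univ.filter (fun i : Fin F => D (i + 1) * m ≤ K * n), s i := by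
  classical
  have hsplit := Finset.sum_filter_add_sum_filter_not univ
    (fun i : Fin F => D (i + 1) * m ≤ K * n) s
  set Hi := univ.filter (fun i : Fin F => ¬ D (i + 1) * m ≤ K * n) with hHi
  have hkey : 8 * ∑ i ∈ Hi, s i ≤ 9 * m := by
    by_cases hne : Hi.Nonempty
    · set j := Hi.min' hne with hj
      have hjmem : j ∈ Hi := Finset.min'_mem _ _
      have hjD : K * n < D (j + 1) * m := by
        rw [hHi, mem_filter] at hjmem
        exact not_le.mp hjmem.2
      rw [← Finset.add_sum_erase Hi s hjmem]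
      have hrest : 8 * ∑ i ∈ Hi.erase j, s i ≤ m := by
        have hterm : ∀ i ∈ Hi.erase j, 8 * F * s i ≤ m := by
          intro i hi
          rw [mem_erase] at hi
          have hji : j < i := lt_of_le_of_ne (Finset.min'_le _ _ hi.2) (Ne.symm hi.1)
          have h1 : D (j + 1) ≤ D i := hD (by
            have : (j : ℕ) < i := hji
            omega)
          have h2 : K * n < D i * m := lt_of_lt_of_le hjD (Nat.mul_le_mul_right m h1)
          rw [← hβ i] at h2
          have h3 : K * β i < m := by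
            have h4 : D i * (K * β i) < D i * m := by
              calc D i * (K * β i) = K * (D i * β i) := by ring
                _ < D i * m := h2
            exact lt_of_mul_lt_mul_left h4 (Nat.zero_le _)
          have h5 := hsβ i
          calc 8 * F * s i ≤ 8 * F * (Δ * β i) := Nat.mul_le_mul_left _ h5
            _ = K * β i := by rw [hK]; ring
            _ ≤ m := h3.le
        have h6 : ∑ i ∈ Hi.erase j, 8 * F * s i ≤ (Hi.erase j).card • m :=
          Finset.sum_le_card_nsmul _ _ _ hterm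
        have h7 : (Hi.erase j).card ≤ F := by
          have := Finset.card_le_univ (Hi.erase j)
          rwa [Fintype.card_fin] at this
        rw [← Finset.mul_sum, smul_eq_mul] at h6
        have h8 : F * (8 * ∑ i ∈ Hi.erase j, s i) ≤ F * m := by
          calc F * (8 * ∑ i ∈ Hi.erase j, s i) = 8 * F * ∑ i ∈ Hi.erase j, s i := by ring
            _ ≤ (Hi.erase j).card * m := h6
            _ ≤ F * m := Nat.mul_le_mul_right m h7
        exact le_of_mul_le_mul_left h8 hF
      have hjm := hsm j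
      omega
    · rw [Finset.not_nonempty_iff_eq_empty] at hne
      rw [hne]
      simp
  omega

open Classical in
/-- The number of bad choices whose witness is a given set `A`. -/
theorem per_set {F n : ℕ} (Δ K : ℕ) (hF : 0 < F) (hK : K = 8 * F * Δ) (hn : 0 < n)
    (β : Fin F → ℕ) (D : ℕ → ℕ) (hD : Monotone D) (hDpos : ∀ i, 0 < D i) (hβpos : ∀ i, 0 < β i)
    (hβ : ∀ i : Fin F, D i * β i = n)
    (hgrow : ∀ i : Fin F, K * 12 ^ (4 * (F + 1)) * D i ^ 5 ≤ D (i + 1))
    (A : Finset (Fin n)) (hA : A.Nonempty) :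
    ((univ.filter (fun g : ∀ i : Fin F, Fin n → Fin (β i) =>
      ∃ (S : Fin F → Finset (Fin n)), (∀ i, S i ⊆ A) ∧
    (∀ i, 3 * ((S i).image (g i)).card ≤ (S i).card) ∧ (∀ i, (S i).card ≤ Δ * β i) ∧
    3 * A.card ≤ ∑ i, (S i).card)).card : ℝ) ≤
    (∏ i : Fin F, (β i : ℝ) ^ n) * ((A.card : ℝ) / (12 * n)) ^ A.card := by
  set m := A.card with hm
  have hm0 : 0 < m := Finset.card_pos.mpr hA
  have hn' : (0 : ℝ) < n := by exact_mod_cast hn
  have hm' : (0 : ℝ) < m := by exact_mod_cast hm0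
  set Lo := univ.filter (fun i : Fin F => D (i + 1) * m ≤ K * n) with hLo
  have htot : (0 : ℝ) ≤ ∏ i : Fin F, (β i : ℝ) ^ n := by positivity
  by_cases hLone : Lo.Nonempty
  swap
  · -- no low level: nothing to count
    rw [Finset.not_nonempty_iff_eq_empty] at hLone
    have hempty : (univ.filter (fun g : ∀ i : Fin F, Fin n → Fin (β i) =>
      ∃ (S : Fin F → Finset (Fin n)), (∀ i, S i ⊆ A) ∧
      (∀ i, 3 * ((S i).image (g i)).card ≤ (S i).card) ∧ (∀ i, (S i).card ≤ Δ * β i) ∧
      3 * m ≤ ∑ i, (S i).card)) = ∅ := by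
      rw [Finset.filter_eq_empty_iff]
      rintro g _ ⟨S, h1, _, h3, h4⟩
      have := low_levels Δ K hF hK β D hD hβ m (fun i => (S i).card)
        (fun i => Finset.card_le_card (h1 i)) h3 h4
      rw [← hLo, hLone] at this
      simp only [Finset.sum_empty, mul_zero] at this
      omega
    rw [hempty]
    simp only [Finset.card_empty, Nat.cast_zero]
    positivity
  -- the top low level
  set j := Lo.max' hLone with hj
  have hjmem : j ∈ Lo := Finset.max'_mem _ _
  have hjD : D (j + 1) * m ≤ K * n := by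
    rw [hLo, mem_filter] at hjmem
    exact hjmem.2
  have hKpos : 0 < K := by
    rcases Nat.eq_zero_or_pos K with h | h
    · rw [h, zero_mul] at hjD
      have := Nat.mul_pos (hDpos (j + 1)) hm0
      omega
    · exact h
  have hDn : 12 ^ (4 * (F + 1)) * D j ^ 5 * m ≤ n := by
    have h1 : K * (12 ^ (4 * (F + 1)) * D j ^ 5 * m) ≤ K * n := by
      calc K * (12 ^ (4 * (F + 1)) * D j ^ 5 * m)
          = (K * 12 ^ (4 * (F + 1)) * D j ^ 5) * m := by ring
        _ ≤ D (j + 1) * m := Nat.mul_le_mul_right m (hgrow j)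
        _ ≤ K * n := hjD
    exact le_of_mul_le_mul_left h1 hKpos
  set y : ℝ := (m : ℝ) * D j / n with hy
  have hy0 : 0 ≤ y := by positivity
  have hDnR : (12 : ℝ) ^ (4 * (F + 1)) * (D j : ℝ) ^ 5 * m ≤ n := by exact_mod_cast hDn
  have hDj1 : (1 : ℝ) ≤ D j := by exact_mod_cast hDpos j
  have hy1 : y ≤ 1 := by
    rw [hy, div_le_one hn']
    refine le_trans ?_ hDnR
    have h1 : (1 : ℝ) ≤ 12 ^ (4 * (F + 1)) := one_le_pow₀ (by norm_num)
    have h2 : (D j : ℝ) ≤ (D j : ℝ) ^ 5 := le_self_pow₀ hDj1 (by norm_num)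
    calc (m : ℝ) * D j = 1 * (D j : ℝ) * m := by ring
      _ ≤ 12 ^ (4 * (F + 1)) * (D j : ℝ) ^ 5 * m := by
        apply mul_le_mul_of_nonneg_right _ hm'.le
        exact mul_le_mul h1 h2 (by positivity) (by positivity)
  obtain ⟨p, hp0, hp⟩ : ∃ p : ℝ, 0 ≤ p ∧ p ^ 12 = y := by
    refine ⟨y ^ ((12 : ℕ) : ℝ)⁻¹, Real.rpow_nonneg hy0 _, ?_⟩
    exact Real.rpow_inv_natCast_pow hy0 (by norm_num)
  have hp1 : p ≤ 1 := by
    by_contra hcon
    push Not at hcon
    have : 1 < p ^ 12 := one_lt_pow₀ hcon (by norm_num)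
    linarith
  -- main numeric inequality
  have hmain : (12 : ℝ) ^ (F + 1) * p ^ 15 ≤ m / n := by
    have h1 : ((12 : ℝ) ^ (F + 1) * p ^ 15) ^ 4 ≤ ((m : ℝ) / n) ^ 4 := by
      have h2 : ((12 : ℝ) ^ (F + 1) * p ^ 15) ^ 4 = 12 ^ (4 * (F + 1)) * y ^ 5 := by
        rw [← hp]
        ring
      rw [h2, hy]
      have h3 : (12 : ℝ) ^ (4 * (F + 1)) * ((m : ℝ) * D j / n) ^ 5 =
          ((m : ℝ) / n) ^ 4 * ((12 ^ (4 * (F + 1)) * (D j : ℝ) ^ 5 * m) / n) := by
        field_simp
      rw [h3]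
      have h4 : (12 ^ (4 * (F + 1)) * (D j : ℝ) ^ 5 * m) / n ≤ 1 := by
        rw [div_le_one hn']
        exact hDnR
      calc ((m : ℝ) / n) ^ 4 * ((12 ^ (4 * (F + 1)) * (D j : ℝ) ^ 5 * m) / n)
          ≤ ((m : ℝ) / n) ^ 4 * 1 := mul_le_mul_of_nonneg_left h4 (by positivity)
        _ = ((m : ℝ) / n) ^ 4 := mul_one _
    exact le_of_pow_le_pow_left₀ (by norm_num) (by positivity) h1
  -- the union bound
  set Sset := (Fintype.piFinset (fun _ : Fin F => A.powerset)).filter
    (fun S => 15 * m ≤ 8 * ∑ i ∈ Lo, (S i).card) with hSset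
  have hcover : (univ.filter (fun g : ∀ i : Fin F, Fin n → Fin (β i) =>
      ∃ (S : Fin F → Finset (Fin n)), (∀ i, S i ⊆ A) ∧
      (∀ i, 3 * ((S i).image (g i)).card ≤ (S i).card) ∧ (∀ i, (S i).card ≤ Δ * β i) ∧
      3 * m ≤ ∑ i, (S i).card)) ⊆
      Sset.biUnion (fun S => Fintype.piFinset (fun i : Fin F =>
        if i ∈ Lo then univ.filter (fun h : Fin n → Fin (β i) =>
          3 * ((S i).image h).card ≤ (S i).card) else univ)) := by
    intro g hg
    rw [mem_filter] at hg
    obtain ⟨_, S, h1, h2, h3, h4⟩ := hg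
    rw [mem_biUnion]
    refine ⟨S, ?_, ?_⟩
    · rw [hSset, mem_filter, Fintype.mem_piFinset]
      refine ⟨fun i => mem_powerset.mpr (h1 i), ?_⟩
      exact low_levels Δ K hF hK β D hD hβ m (fun i => (S i).card)
        (fun i => Finset.card_le_card (h1 i)) h3 h4
    · rw [Fintype.mem_piFinset]
      intro i
      by_cases hi : i ∈ Lo
      · rw [if_pos hi, mem_filter]
        exact ⟨mem_univ _, h2 i⟩
      · rw [if_neg hi]
        exact mem_univ _
  have hbound : ∀ S ∈ Sset, ((Fintype.piFinset (fun i : Fin F =>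
        if i ∈ Lo then univ.filter (fun h : Fin n → Fin (β i) =>
          3 * ((S i).image h).card ≤ (S i).card) else univ)).card : ℝ) ≤
      (∏ i : Fin F, (β i : ℝ) ^ n) * (((m + 1) * 3 ^ m) ^ F * p ^ (15 * m)) := by
    intro S hS
    rw [hSset, mem_filter, Fintype.mem_piFinset] at hS
    obtain ⟨hSA, hSlo⟩ := hS
    rw [Fintype.card_piFinset]
    push_cast
    have h1 : ∀ i ∈ (univ : Finset (Fin F)), ((if i ∈ Lo then univ.filter (fun h : Fin n → Fin (β i) =>
          3 * ((S i).image h).card ≤ (S i).card) else univ : Finset (Fin n → Fin (β i))).card : ℝ) ≤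
        (β i : ℝ) ^ n * (if i ∈ Lo then ((m + 1) * 3 ^ m * p ^ (8 * (S i).card)) else 1) := by
      intro i _
      by_cases hi : i ∈ Lo
      · rw [if_pos hi, if_pos hi]
        apply level n (β i) (hβpos i) (S i) m _ p hp0 hp1
        · rw [hp, hy]
          have h2 : (n : ℝ) = D i * β i := by exact_mod_cast (hβ i).symm
          have h3 : (0 : ℝ) < β i := by exact_mod_cast hβpos i
          have h4 : (0 : ℝ) < D i := by exact_mod_cast hDpos i
          have h5 : (D i : ℝ) ≤ D j := by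
            have : i ≤ j := Finset.le_max' _ _ hi
            exact_mod_cast hD this
          rw [div_le_div_iff₀ h3 hn', h2]
          calc (m : ℝ) * (D i * β i) = m * β i * D i := by ring
            _ ≤ m * β i * D j := mul_le_mul_of_nonneg_left h5 (by positivity)
            _ = m * D j * β i := by ring
        · exact Finset.card_le_card (mem_powerset.mp (hSA i))
      · rw [if_neg hi, if_neg hi]
        simp
    refine (Finset.prod_le_prod (fun i _ => Nat.cast_nonneg _) h1).trans ?_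
    rw [Finset.prod_mul_distrib]
    apply mul_le_mul_of_nonneg_left _ htot
    rw [Finset.prod_ite_mem, Finset.univ_inter, Finset.prod_mul_distrib, Finset.prod_const,
      Finset.prod_pow_eq_pow_sum]
    apply mul_le_mul
    · apply pow_le_pow_right₀
      · have h2 : (1 : ℝ) ≤ 3 ^ m := one_le_pow₀ (by norm_num)
        nlinarith
      · have := Finset.card_le_univ Lo
        rwa [Fintype.card_fin] at this
    · apply pow_le_pow_of_le_one hp0 hp1
      rw [← Finset.mul_sum]
      exact hSlo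
    · positivity
    · positivity
  have h1 : ((univ.filter (fun g : ∀ i : Fin F, Fin n → Fin (β i) =>
      ∃ (S : Fin F → Finset (Fin n)), (∀ i, S i ⊆ A) ∧
      (∀ i, 3 * ((S i).image (g i)).card ≤ (S i).card) ∧ (∀ i, (S i).card ≤ Δ * β i) ∧
      3 * m ≤ ∑ i, (S i).card)).card : ℝ) ≤ ∑ S ∈ Sset,
        (∏ i : Fin F, (β i : ℝ) ^ n) * (((m + 1) * 3 ^ m) ^ F * p ^ (15 * m)) := by
    have h2 := (Finset.card_le_card hcover).trans Finset.card_biUnion_le
    refine le_trans ?_ (Finset.sum_le_sum hbound)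
    exact_mod_cast h2
  refine h1.trans ?_
  rw [Finset.sum_const, nsmul_eq_mul]
  have hScard : (Sset.card : ℝ) ≤ (2 ^ m) ^ F := by
    have h2 : Sset.card ≤ (Fintype.piFinset (fun _ : Fin F => A.powerset)).card :=
      Finset.card_filter_le _ _
    rw [Fintype.card_piFinset, Finset.prod_const, Finset.card_powerset, Finset.card_univ,
      Fintype.card_fin, ← hm] at h2
    exact_mod_cast h2
  have hm1 : (m : ℝ) + 1 ≤ 2 ^ m := by
    have : m + 1 ≤ 2 ^ m := Nat.lt_two_pow_self
    exact_mod_cast this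
  calc (Sset.card : ℝ) * ((∏ i : Fin F, (β i : ℝ) ^ n) * (((m + 1) * 3 ^ m) ^ F * p ^ (15 * m)))
      ≤ ((2 : ℝ) ^ m) ^ F * ((∏ i : Fin F, (β i : ℝ) ^ n) *
          (((2 : ℝ) ^ m * 3 ^ m) ^ F * p ^ (15 * m))) := by
        apply mul_le_mul hScard _ (by positivity) (by positivity)
        apply mul_le_mul_of_nonneg_left _ htot
        apply mul_le_mul_of_nonneg_right _ (by positivity)
        apply pow_le_pow_left₀ (by positivity)
        apply mul_le_mul_of_nonneg_right hm1 (by positivity)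
    _ = (∏ i : Fin F, (β i : ℝ) ^ n) * ((12 : ℝ) ^ F * p ^ 15) ^ m := by
        have e1 : ((12 : ℝ) ^ F * p ^ 15) ^ m = (((2 : ℝ) ^ m) ^ F * ((2 : ℝ) ^ m * 3 ^ m) ^ F)
            * p ^ (15 * m) := by
          have e2 : ((2 : ℝ) ^ m) ^ F * ((2 : ℝ) ^ m * 3 ^ m) ^ F = (12 ^ F) ^ m := by
            rw [← mul_pow, ← mul_assoc, ← mul_pow, ← mul_pow, ← pow_mul, ← pow_mul, mul_comm m F]
            norm_num
          rw [e2, mul_pow, pow_mul p 15 m]
        rw [e1]
        ring
    _ ≤ (∏ i : Fin F, (β i : ℝ) ^ n) * ((m : ℝ) / (12 * n)) ^ m := by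
        apply mul_le_mul_of_nonneg_left _ htot
        apply pow_le_pow_left₀ (by positivity)
        have e3 : (12 : ℝ) ^ (F + 1) * p ^ 15 = 12 * (12 ^ F * p ^ 15) := by ring
        rw [e3] at hmain
        have e4 : (m : ℝ) / (12 * n) = (m / n) / 12 := by
          field_simp
        rw [e4, le_div_iff₀ (by norm_num)]
        linarith

theorem geom_bound (N : ℕ) : ∑ m ∈ range N, (1 / 4 : ℝ) ^ (m + 1) ≤ 1 / 3 * (1 - (1 / 4) ^ N) := by
  induction N with
  | zero => simp
  | succ N ih =>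
    rw [Finset.sum_range_succ]
    refine (add_le_add_left ih _).trans (le_of_eq ?_)
    ring

open Classical in
/-- There is a choice of functions which is not bad. -/
theorem exists_good' {F n : ℕ} (Δ K : ℕ) (hF : 0 < F) (hK : K = 8 * F * Δ) (hn : 0 < n)
    (β : Fin F → ℕ) (D : ℕ → ℕ) (hD : Monotone D) (hDpos : ∀ i, 0 < D i) (hβpos : ∀ i, 0 < β i)
    (hβ : ∀ i : Fin F, D i * β i = n)
    (hgrow : ∀ i : Fin F, K * 12 ^ (4 * (F + 1)) * D i ^ 5 ≤ D (i + 1)) :
    ∃ g : ∀ i : Fin F, Fin n → Fin (β i), ¬ Bad Δ β g := by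
  by_contra hcon
  push Not at hcon
  have hn' : (0 : ℝ) < n := by exact_mod_cast hn
  set tot : ℝ := ∏ i : Fin F, (β i : ℝ) ^ n with htotdef
  have htot : 0 < tot := by
    apply Finset.prod_pos
    intro i _
    have : (0 : ℝ) < β i := by exact_mod_cast hβpos i
    positivity
  have htotcard : ((univ : Finset (∀ i : Fin F, Fin n → Fin (β i))).card : ℝ) = tot := by
    rw [Finset.card_univ, Fintype.card_pi, htotdef]
    push_cast
    apply Finset.prod_congr rfl
    intro i _
    rw [Fintype.card_fun, Fintype.card_fin, Fintype.card_fin]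
    push_cast
    rfl
  have hcover : (univ : Finset (∀ i : Fin F, Fin n → Fin (β i))) ⊆
      ((univ : Finset (Fin n)).powerset.filter (fun A => A.Nonempty)).biUnion (fun A =>
        univ.filter (fun g : ∀ i : Fin F, Fin n → Fin (β i) =>
      ∃ (S : Fin F → Finset (Fin n)), (∀ i, S i ⊆ A) ∧
    (∀ i, 3 * ((S i).image (g i)).card ≤ (S i).card) ∧ (∀ i, (S i).card ≤ Δ * β i) ∧
    3 * A.card ≤ ∑ i, (S i).card)) := by
    intro g _
    obtain ⟨A, S, h0, h1⟩ := hcon g
    rw [mem_biUnion]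
    refine ⟨A, ?_, ?_⟩
    · rw [mem_filter, mem_powerset]
      exact ⟨subset_univ _, h0⟩
    · rw [mem_filter]
      exact ⟨mem_univ _, S, h1⟩
  have h1 : tot ≤ ∑ A ∈ (univ : Finset (Fin n)).powerset.filter (fun A => A.Nonempty),
      tot * ((A.card : ℝ) / (12 * n)) ^ A.card := by
    have h2 := (Finset.card_le_card hcover).trans Finset.card_biUnion_le
    have h3 : tot ≤ ((∑ A ∈ (univ : Finset (Fin n)).powerset.filter (fun A => A.Nonempty),
        (univ.filter (fun g : ∀ i : Fin F, Fin n → Fin (β i) =>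
      ∃ (S : Fin F → Finset (Fin n)), (∀ i, S i ⊆ A) ∧
    (∀ i, 3 * ((S i).image (g i)).card ≤ (S i).card) ∧ (∀ i, (S i).card ≤ Δ * β i) ∧
    3 * A.card ≤ ∑ i, (S i).card)).card : ℕ) : ℝ) := by
      rw [← htotcard]
      exact_mod_cast h2
    push_cast at h3
    refine h3.trans (Finset.sum_le_sum ?_)
    intro A hA
    rw [mem_filter] at hA
    exact per_set Δ K hF hK hn β D hD hDpos hβpos hβ hgrow A hA.2
  rw [← Finset.mul_sum, Finset.sum_filter] at h1
  have h2 : ∑ A ∈ (univ : Finset (Fin n)).powerset,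
      (if A.Nonempty then ((A.card : ℝ) / (12 * n)) ^ A.card else 0) =
      ∑ m ∈ range (n + 1), (n.choose m) • (if 0 < m then ((m : ℝ) / (12 * n)) ^ m else 0) := by
    have h3 := Finset.sum_powerset_apply_card
      (fun m => (if 0 < m then ((m : ℝ) / (12 * n)) ^ m else 0)) (x := (univ : Finset (Fin n)))
    rw [Finset.card_univ, Fintype.card_fin] at h3
    rw [← h3]
    apply Finset.sum_congr rfl
    intro A _
    by_cases hA : A.Nonempty
    · rw [if_pos hA, if_pos (Finset.card_pos.mpr hA)]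
    · rw [if_neg hA, if_neg (fun h => hA (Finset.card_pos.mp h))]
  rw [h2, Finset.sum_range_succ'] at h1
  simp only [lt_irrefl, if_false, smul_zero, add_zero, Nat.succ_pos, if_true] at h1
  have h4 : ∀ m ∈ range n, (n.choose (m + 1)) • (((m + 1 : ℕ) : ℝ) / (12 * n)) ^ (m + 1) ≤
      (1 / 4 : ℝ) ^ (m + 1) := by
    intro m _
    rw [nsmul_eq_mul]
    have h5 := choose_mul_le n (m + 1) (m + 1) hn le_rfl
    rw [Nat.sub_self, pow_zero, mul_one] at h5
    have h6 : (((m + 1 : ℕ) : ℝ) / (12 * n)) ^ (m + 1) =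
        (((m + 1 : ℕ) : ℝ) / n) ^ (m + 1) * (1 / 12) ^ (m + 1) := by
      rw [← mul_pow]
      congr 1
      field_simp
    rw [h6, ← mul_assoc]
    calc (n.choose (m + 1) : ℝ) * (((m + 1 : ℕ) : ℝ) / n) ^ (m + 1) * (1 / 12) ^ (m + 1)
        ≤ 3 ^ (m + 1) * (1 / 12) ^ (m + 1) := mul_le_mul_of_nonneg_right h5 (by positivity)
      _ = (1 / 4 : ℝ) ^ (m + 1) := by
        rw [← mul_pow]
        norm_num
  have h5 := (Finset.sum_le_sum h4).trans (geom_bound n)
  have h6 : (0 : ℝ) < (1 / 4) ^ n := by positivity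
  have h7 : ∑ m ∈ range n, (n.choose (m + 1)) • (((m + 1 : ℕ) : ℝ) / (12 * n)) ^ (m + 1) < 1 := by
    refine lt_of_le_of_lt h5 ?_
    linarith
  have h8 : tot * ∑ m ∈ range n, (n.choose (m + 1)) • (((m + 1 : ℕ) : ℝ) / (12 * n)) ^ (m + 1)
      < tot * 1 := mul_lt_mul_of_pos_left h7 htot
  linarith

/-- There are arbitrarily many levels with small classes and a choice which is not bad. -/
theorem exists_good (F Δ : ℕ) (hF : 0 < F) (hΔ : 0 < Δ) :
    ∃ (n : ℕ) (β : Fin F → ℕ) (g : ∀ i : Fin F, Fin n → Fin (β i)), 0 < n ∧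
      (∀ i, F * β i ≤ n) ∧ ¬ Bad Δ β g := by
  set K := 8 * F * Δ with hK
  set Q := K * 12 ^ (4 * (F + 1)) with hQ
  have hKpos : 0 < K := by positivity
  have hQpos : 0 < Q := by positivity
  have hFQ : F ≤ Q := by
    have h1 : F ≤ K := by
      rw [hK]
      nlinarith
    have h2 : K ≤ Q := by
      rw [hQ]
      exact Nat.le_mul_of_pos_right _ (by positivity)
    omega
  let D : ℕ → ℕ := fun i => Q ^ (6 ^ i)
  have hD : Monotone D := by
    intro i j hij
    exact Nat.pow_le_pow_right hQpos (Nat.pow_le_pow_right (by norm_num) hij)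
  have hDpos : ∀ i, 0 < D i := fun i => by positivity
  let β : Fin F → ℕ := fun i => Q ^ (6 ^ F - 6 ^ (i : ℕ))
  have hβ : ∀ i : Fin F, D i * β i = Q ^ (6 ^ F) := by
    intro i
    change Q ^ (6 ^ (i : ℕ)) * Q ^ (6 ^ F - 6 ^ (i : ℕ)) = Q ^ (6 ^ F)
    rw [← pow_add]
    congr 1
    have : 6 ^ (i : ℕ) ≤ 6 ^ F := Nat.pow_le_pow_right (by norm_num) i.2.le
    omega
  have hβpos : ∀ i, 0 < β i := fun i => by positivity
  have hgrow : ∀ i : Fin F, K * 12 ^ (4 * (F + 1)) * D i ^ 5 ≤ D (i + 1) := by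
    intro i
    change Q * (Q ^ (6 ^ (i : ℕ))) ^ 5 ≤ Q ^ (6 ^ ((i : ℕ) + 1))
    rw [← pow_mul, ← pow_succ']
    apply Nat.pow_le_pow_right hQpos
    have : 0 < 6 ^ (i : ℕ) := by positivity
    rw [pow_succ]
    omega
  obtain ⟨g, hg⟩ := exists_good' Δ K hF hK (n := Q ^ (6 ^ F)) (by positivity) β D hD hDpos hβpos
    hβ hgrow
  refine ⟨Q ^ (6 ^ F), β, g, by positivity, ?_, hg⟩
  intro i
  rw [← hβ i]
  apply Nat.mul_le_mul_right
  calc F ≤ Q := hFQ
    _ = Q ^ 1 := (pow_one Q).symm
    _ ≤ Q ^ (6 ^ (i : ℕ)) := Nat.pow_le_pow_right hQpos (Nat.one_le_iff_ne_zero.mpr (by positivity))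

end Q115.Quasi
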