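import Pool.Agent.H161R2.UCEv

set_option autoImplicit false

/-!
# Random bipartite graphs of arbitrary density: deterministic part
-/

namespace Pool.Agent.Q115.RB

open Finset Pool.Agent.H161R2.UC
open scoped Classical

/-- the row `i` as a set -/
def rowSet {m n : ℕ} (M : Mat m n) (i : Fin m) : Finset (Fin n) := univ.filter fun x => M i x = true

lemma mem_rowSet {m n : ℕ} (M : Mat m n) (i : Fin m) (x : Fin n) :
    x ∈ rowSet M i ↔ M i x = true := by simp [rowSet]

lemma unionOf_insert {m n : ℕ} (M : Mat m n) (T : Finset (Fin m)) (j : Fin m) :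
    unionOf M (insert j T) = unionOf M T ∪ rowSet M j := by
  ext x
  rw [Finset.mem_union, mem_unionOf, mem_unionOf, mem_rowSet]
  constructor
  · rintro ⟨i, hi, hx⟩
    rcases Finset.mem_insert.mp hi with rfl | hi
    · exact Or.inr hx
    · exact Or.inl ⟨i, hi, hx⟩
  · rintro (⟨i, hi, hx⟩ | hx)
    · exact ⟨i, Finset.mem_insert_of_mem hi, hx⟩
    · exact ⟨j, Finset.mem_insert_self _ _, hx⟩

/-- the rows outside `T` with fewer than `s` elements outside the union over `T` -/
noncomputable def light {m n : ℕ} (M : Mat m n) (s : ℕ) (T : Finset (Fin m)) : Finset (Fin m) :=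
  univ.filter fun j => j ∉ T ∧ (rowSet M j \ unionOf M T).card < s

/-- the number of members with fewer than three fifths of the elements -/
noncomputable def Small {m n : ℕ} (M : Mat m n) : Finset (Finset (Fin n)) :=
  (fam M).filter (fun A => 5 * A.card < 3 * n)

/-- the index sets `T` of size at most `t` -/
noncomputable def idx (m t : ℕ) : Finset (Finset (Fin m)) :=
  (univ : Finset (Finset (Fin m))).filter (fun T => T.card ≤ t)

lemma small_le {m n : ℕ} (M : Mat m n) (s t : ℕ) (ht : 3 * n ≤ 5 * s * t) :
    (Small M).card ≤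
      ∑ T ∈ (idx m t).filter (fun T => 5 * (unionOf M T).card < 3 * n), 2 ^ (light M s T).card := by
  have hsub : Small M ⊆
      ((idx m t).filter (fun T => 5 * (unionOf M T).card < 3 * n)).biUnion (fun T =>
        (light M s T).powerset.image (fun J => unionOf M (T ∪ J))) := by
    intro A hA
    unfold Small at hA
    rw [Finset.mem_filter, mem_fam] at hA
    obtain ⟨⟨I, hI⟩, hA⟩ := hA
    set Y : Finset (Fin m) := univ.filter (fun j => rowSet M j ⊆ A) with hY
    have hYA : unionOf M Y = A := by
      ext x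
      rw [mem_unionOf]
      constructor
      · rintro ⟨i, hi, hx⟩
        exact (Finset.mem_filter.mp hi).2 ((mem_rowSet M i x).mpr hx)
      · intro hx
        rw [← hI, mem_unionOf] at hx
        obtain ⟨i, hi, hx⟩ := hx
        refine ⟨i, Finset.mem_filter.mpr ⟨Finset.mem_univ _, ?_⟩, hx⟩
        intro y hy
        rw [← hI, mem_unionOf]
        exact ⟨i, hi, (mem_rowSet M i y).mp hy⟩
    have hne : (Y.powerset.filter (fun T => s * T.card ≤ (unionOf M T).card)).Nonempty :=
      ⟨∅, by simp⟩
    obtain ⟨T, hT, hmax⟩ := Finset.exists_max_image _ (fun T => T.card) hne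
    rw [Finset.mem_filter, Finset.mem_powerset] at hT
    obtain ⟨hTY, hTs⟩ := hT
    have hUT : unionOf M T ⊆ A := by
      rw [← hYA]; exact unionOf_mono M hTY
    have hUc := Finset.card_le_card hUT
    rw [Finset.mem_biUnion]
    refine ⟨T, ?_, ?_⟩
    · rw [Finset.mem_filter]
      refine ⟨?_, by omega⟩
      unfold idx
      rw [Finset.mem_filter]
      refine ⟨Finset.mem_univ _, ?_⟩
      by_contra hcon
      push Not at hcon
      have h1 : 5 * s * t ≤ 5 * (s * T.card) := by
        calc 5 * s * t = 5 * (s * t) := by ring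
          _ ≤ 5 * (s * T.card) := Nat.mul_le_mul_left _ (Nat.mul_le_mul_left _ hcon.le)
      omega
    · rw [Finset.mem_image]
      refine ⟨Y \ T, ?_, ?_⟩
      · rw [Finset.mem_powerset]
        intro j hj
        rw [Finset.mem_sdiff] at hj
        unfold light
        rw [Finset.mem_filter]
        refine ⟨Finset.mem_univ _, hj.2, ?_⟩
        by_contra hcon
        push Not at hcon
        have h1 : insert j T ∈ Y.powerset.filter (fun T => s * T.card ≤ (unionOf M T).card) := by
          rw [Finset.mem_filter, Finset.mem_powerset]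
          refine ⟨Finset.insert_subset hj.1 hTY, ?_⟩
          rw [unionOf_insert, Finset.card_insert_of_notMem hj.2]
          have h2 : (unionOf M T ∪ rowSet M j).card = (unionOf M T).card + (rowSet M j \ unionOf M T).card := by
            rw [← Finset.card_union_of_disjoint Finset.disjoint_sdiff, Finset.union_sdiff_self_eq_union]
          rw [h2, mul_add, mul_one]
          omega
        have h2 := hmax _ h1
        rw [Finset.card_insert_of_notMem hj.2] at h2
        omega
      · rw [Finset.union_sdiff_of_subset hTY, hYA]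
  refine (Finset.card_le_card hsub).trans (Finset.card_biUnion_le.trans ?_)
  refine Finset.sum_le_sum fun T _ => ?_
  refine Finset.card_image_le.trans ?_
  rw [Finset.card_powerset]

/-- the factor of the row `j` -/
noncomputable def fac {n : ℕ} (s : ℕ) (U : Finset (Fin n)) (r : Fin n → Bool) : ℝ :=
  1 + 2 ^ s * (1 / 2) ^ ((univ.filter fun x => r x = true) \ U).card

lemma fac_pos {n : ℕ} (s : ℕ) (U : Finset (Fin n)) (r : Fin n → Bool) : 0 < fac s U r := by
  unfold fac; positivity

lemma two_pow_light {m n : ℕ} (M : Mat m n) (s : ℕ) (T : Finset (Fin m)) :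
    (2 : ℝ) ^ (light M s T).card ≤
      ∏ j : Fin m, (if j ∈ T then 1 else fac s (unionOf M T) (M j)) := by
  have h1 : (2 : ℝ) ^ (light M s T).card = ∏ j : Fin m, (if j ∈ light M s T then (2:ℝ) else 1) := by
    rw [Finset.prod_ite_mem]
    simp
  rw [h1]
  refine Finset.prod_le_prod (fun j _ => by split_ifs <;> norm_num) (fun j _ => ?_)
  by_cases hj : j ∈ light M s T
  · rw [if_pos hj]
    unfold light at hj
    rw [Finset.mem_filter] at hj
    rw [if_neg hj.2.1]
    unfold fac
    have h2 : (1:ℝ) ≤ 2 ^ s * (1 / 2) ^ ((univ.filter fun x => M j x = true) \ unionOf M T).card := by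
      have h3 : ((univ.filter fun x => M j x = true) \ unionOf M T).card ≤ s := hj.2.2.le
      calc (1:ℝ) = 2 ^ s * (1 / 2) ^ s := by rw [← mul_pow]; norm_num
        _ ≤ _ := mul_le_mul_of_nonneg_left
          (pow_le_pow_of_le_one (by norm_num) (by norm_num) h3) (by positivity)
    linarith
  · rw [if_neg hj]
    split_ifs
    · exact le_rfl
    · unfold fac
      have : (0:ℝ) ≤ 2 ^ s * (1 / 2) ^ ((univ.filter fun x => M j x = true) \ unionOf M T).card := by
        positivity
      linarith

/-- rows in `T` from `M`, the others from `M'` -/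
noncomputable def mix {m n : ℕ} (T : Finset (Fin m)) (M M' : Mat m n) : Mat m n :=
  fun i => if i ∈ T then M i else M' i

lemma unionOf_mix {m n : ℕ} (T : Finset (Fin m)) (M M' : Mat m n) :
    unionOf (mix T M M') T = unionOf M T := by
  ext x
  rw [mem_unionOf, mem_unionOf]
  constructor
  · rintro ⟨i, hi, hx⟩
    unfold mix at hx
    rw [if_pos hi] at hx
    exact ⟨i, hi, hx⟩
  · rintro ⟨i, hi, hx⟩
    refine ⟨i, hi, ?_⟩
    unfold mix
    rw [if_pos hi]
    exact hx

lemma mix_mix {m n : ℕ} (T : Finset (Fin m)) (M M' : Mat m n) :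
    mix T (mix T M M') (mix T M' M) = M := by
  funext i
  unfold mix
  by_cases h : i ∈ T <;> simp [h]

lemma wt_mix (p : ℝ) {m n : ℕ} (T : Finset (Fin m)) (M M' : Mat m n) :
    wt p (mix T M M') * wt p (mix T M' M) = wt p M * wt p M' := by
  unfold wt
  rw [← Finset.prod_mul_distrib, ← Finset.prod_mul_distrib]
  refine Finset.prod_congr rfl fun i _ => ?_
  unfold mix
  by_cases h : i ∈ T
  · simp [h]
  · simp [h, mul_comm]

lemma sum_wt (p : ℝ) {m n : ℕ} : ∑ M : Mat m n, wt p M = 1 := by
  have := Ex_rows p (m := m) (n := n) (fun _ _ => 1)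
  simpa [Ev_one, Ex] using this

lemma Ex_mix (p : ℝ) {m n : ℕ} (T : Finset (Fin m)) (f : Mat m n → ℝ) :
    Ex p f = Ex p (fun M => Ex p (fun M' => f (mix T M M'))) := by
  unfold Ex
  have h1 : (∑ M : Mat m n, wt p M * ∑ M' : Mat m n, wt p M' * f (mix T M M')) =
      ∑ z : Mat m n × Mat m n, wt p z.1 * wt p z.2 * f (mix T z.1 z.2) := by
    rw [Fintype.sum_prod_type]
    refine Finset.sum_congr rfl fun M _ => ?_
    rw [Finset.mul_sum]
    refine Finset.sum_congr rfl fun M' _ => by ring
  have h2 : (∑ M : Mat m n, wt p M * f M) =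
      ∑ z : Mat m n × Mat m n, wt p z.1 * wt p z.2 * f z.1 := by
    rw [Fintype.sum_prod_type]
    refine Finset.sum_congr rfl fun M _ => ?_
    have : (∑ M' : Mat m n, wt p M * wt p M' * f M) = wt p M * f M * ∑ M' : Mat m n, wt p M' := by
      rw [Finset.mul_sum]
      refine Finset.sum_congr rfl fun M' _ => by ring
    rw [this, sum_wt, mul_one]
  rw [h1, h2]
  let e : Mat m n × Mat m n ≃ Mat m n × Mat m n :=
    { toFun := fun z => (mix T z.1 z.2, mix T z.2 z.1)
      invFun := fun z => (mix T z.1 z.2, mix T z.2 z.1)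
      left_inv := fun z => Prod.ext (mix_mix T z.1 z.2) (mix_mix T z.2 z.1)
      right_inv := fun z => Prod.ext (mix_mix T z.1 z.2) (mix_mix T z.2 z.1) }
  rw [← Equiv.sum_comp e (fun z : Mat m n × Mat m n => wt p z.1 * wt p z.2 * f z.1)]
  refine Finset.sum_congr rfl fun z _ => ?_
  show wt p (mix T z.1 z.2) * wt p (mix T z.2 z.1) * f (mix T z.1 z.2) =
    wt p z.1 * wt p z.2 * f (mix T z.1 z.2)
  rw [wt_mix]

end Pool.Agent.Q115.RB
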