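import Pool.Agent.Q115.RBDet

set_option autoImplicit false

/-!
# Random bipartite graphs of arbitrary density: expected number of small unions
-/

namespace Pool.Agent.Q115.RB

open Finset Pool.Agent.H161R2.UC
open scoped Classical

lemma Ev_fac (p : ℝ) {n : ℕ} (s : ℕ) (U : Finset (Fin n)) :
    Ev p (fac s U) = 1 + 2 ^ s * (1 - p / 2) ^ (n - U.card) := by
  have h := Ev_prod p (k := n) (fun x b => if x ∈ U then 1 else (if b = true then (1/2:ℝ) else 1))
  have e : ∀ r : Fin n → Bool, (∏ x, (if x ∈ U then (1:ℝ) else (if r x = true then (1/2:ℝ) else 1))) =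
      (1 / 2) ^ ((univ.filter fun x => r x = true) \ U).card := by
    intro r
    have : ∀ x, (if x ∈ U then (1:ℝ) else (if r x = true then (1/2:ℝ) else 1)) =
        if x ∈ ((univ.filter fun x => r x = true) \ U) then (1/2:ℝ) else 1 := by
      intro x
      by_cases hx : x ∈ U <;> by_cases hr : r x = true <;> simp [hx, hr]
    rw [Finset.prod_congr rfl (fun x _ => this x), Finset.prod_ite_mem]
    simp
  have e2 : (∏ x : Fin n, (p * (if x ∈ U then (1:ℝ) else (if (true = true) then (1/2:ℝ) else 1)) +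
      (1 - p) * (if x ∈ U then (1:ℝ) else (if (false = true) then (1/2:ℝ) else 1)))) =
      (1 - p / 2) ^ (n - U.card) := by
    have : ∀ x : Fin n, (p * (if x ∈ U then (1:ℝ) else (if (true = true) then (1/2:ℝ) else 1)) +
      (1 - p) * (if x ∈ U then (1:ℝ) else (if (false = true) then (1/2:ℝ) else 1))) =
        if x ∈ Uᶜ then (1 - p / 2) else 1 := by
      intro x
      by_cases hx : x ∈ U
      · simp [hx]
      · simp [hx]
        ring
    rw [Finset.prod_congr rfl (fun x _ => this x), Finset.prod_ite_mem]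
    simp [Finset.card_compl]
  rw [e2] at h
  simp_rw [e] at h
  rw [← h]
  unfold fac Ev
  have h3 : (∑ r : Fin n → Bool, (∏ x, bw p (r x))) = 1 := by
    have := Ev_one p (k := n)
    simpa [Ev] using this
  calc _ = ∑ r : Fin n → Bool, ((∏ x, bw p (r x)) + 2 ^ s * ((∏ x, bw p (r x)) *
        (1 / 2) ^ ((univ.filter fun x => r x = true) \ U).card)) := by
        refine Finset.sum_congr rfl fun r _ => by ring
    _ = _ := by rw [Finset.sum_add_distrib, h3, ← Finset.mul_sum]

/-- expectation for one index set -/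
lemma Ex_one {p : ℝ} (h0 : 0 < p) (h1 : p < 1) {m n : ℕ} (s : ℕ) (T : Finset (Fin m)) :
    Ex p (fun M : Mat m n => ind (5 * (unionOf M T).card < 3 * n) * 2 ^ (light M s T).card) ≤
      (1 + 2 ^ s * Real.exp (-(n * p / 5))) ^ m := by
  have hG1 : (1:ℝ) ≤ 1 + 2 ^ s * Real.exp (-(n * p / 5)) := by
    have : (0:ℝ) ≤ 2 ^ s * Real.exp (-(n * p / 5)) := by positivity
    linarith
  have hstep : Ex p (fun M : Mat m n => ind (5 * (unionOf M T).card < 3 * n) * 2 ^ (light M s T).card) ≤
      Ex p (fun M : Mat m n => ind (5 * (unionOf M T).card < 3 * n) *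
        ∏ j : Fin m, (if j ∈ T then 1 else fac s (unionOf M T) (M j))) := by
    refine Ex_mono h0.le h1.le fun M => ?_
    exact mul_le_mul_of_nonneg_left (two_pow_light M s T) (ind_nonneg _)
  refine hstep.trans ?_
  rw [Ex_mix p T]
  have hin : ∀ M : Mat m n, Ex p (fun M' : Mat m n =>
      ind (5 * (unionOf (mix T M M') T).card < 3 * n) *
        ∏ j : Fin m, (if j ∈ T then 1 else fac s (unionOf (mix T M M') T) (mix T M M' j))) ≤
      (1 + 2 ^ s * Real.exp (-(n * p / 5))) ^ m := by
    intro M
    have e1 : (fun M' : Mat m n =>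
      ind (5 * (unionOf (mix T M M') T).card < 3 * n) *
        ∏ j : Fin m, (if j ∈ T then 1 else fac s (unionOf (mix T M M') T) (mix T M M' j))) =
      fun M' : Mat m n => ind (5 * (unionOf M T).card < 3 * n) *
        ∏ j : Fin m, (if j ∈ T then 1 else fac s (unionOf M T) (M' j)) := by
      funext M'
      rw [unionOf_mix]
      congr 1
      refine Finset.prod_congr rfl fun j _ => ?_
      by_cases hj : j ∈ T
      · rw [if_pos hj, if_pos hj]
      · rw [if_neg hj, if_neg hj]
        unfold mix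
        rw [if_neg hj]
    rw [e1]
    by_cases hU : 5 * (unionOf M T).card < 3 * n
    · rw [ind_pos hU]
      simp only [one_mul]
      have h := Ex_rows p (m := m) (n := n) (fun j r => if j ∈ T then 1 else fac s (unionOf M T) r)
      rw [h]
      have e2 : ∀ j : Fin m, Ev p (fun r : Fin n → Bool => if j ∈ T then 1 else fac s (unionOf M T) r) ≤
          1 + 2 ^ s * Real.exp (-(n * p / 5)) := by
        intro j
        by_cases hj : j ∈ T
        · simp only [if_pos hj]
          rw [Ev_one]
          exact hG1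
        · simp only [if_neg hj]
          have : Ev p (fun r : Fin n → Bool => fac s (unionOf M T) r) =
            1 + 2 ^ s * (1 - p / 2) ^ (n - (unionOf M T).card) := Ev_fac p s _
          rw [this]
          have h5 : (1 - p / 2) ^ (n - (unionOf M T).card) ≤ Real.exp (-(n * p / 5)) := by
            have hb : 1 - p / 2 ≤ Real.exp (-(p / 2)) := Real.one_sub_le_exp_neg _
            have hb0 : 0 ≤ 1 - p / 2 := by linarith
            calc (1 - p / 2) ^ (n - (unionOf M T).card)
                ≤ (Real.exp (-(p / 2))) ^ (n - (unionOf M T).card) := pow_le_pow_left₀ hb0 hb _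
              _ = Real.exp (((n - (unionOf M T).card : ℕ) : ℝ) * (-(p / 2))) := by
                rw [Real.exp_nat_mul]
              _ ≤ Real.exp (-(n * p / 5)) := by
                apply Real.exp_le_exp.mpr
                have h6 : 2 * n ≤ 5 * (n - (unionOf M T).card) := by omega
                have h7 : (2 * (n:ℝ)) ≤ 5 * ((n - (unionOf M T).card : ℕ) : ℝ) := by exact_mod_cast h6
                nlinarith
          have : (2:ℝ) ^ s * (1 - p / 2) ^ (n - (unionOf M T).card) ≤
            2 ^ s * Real.exp (-(n * p / 5)) := mul_le_mul_of_nonneg_left h5 (by positivity)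
          linarith
      have e3 : ∀ j : Fin m, 0 ≤ Ev p (fun r : Fin n → Bool => if j ∈ T then 1 else fac s (unionOf M T) r) := by
        intro j
        refine Ev_nonneg h0.le h1.le fun r => ?_
        split_ifs
        · norm_num
        · exact (fac_pos _ _ _).le
      calc _ ≤ ∏ j : Fin m, (1 + 2 ^ s * Real.exp (-(n * p / 5))) :=
            Finset.prod_le_prod (fun j _ => e3 j) (fun j _ => e2 j)
        _ = _ := by simp
    · rw [ind_neg hU]
      simp only [zero_mul]
      have : Ex p (fun _ : Mat m n => (0:ℝ)) = 0 := by simp [Ex]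
      rw [this]
      positivity
  calc Ex p (fun M : Mat m n => Ex p (fun M' : Mat m n =>
      ind (5 * (unionOf (mix T M M') T).card < 3 * n) *
        ∏ j : Fin m, (if j ∈ T then 1 else fac s (unionOf (mix T M M') T) (mix T M M' j))))
      ≤ Ex p (fun _ : Mat m n => (1 + 2 ^ s * Real.exp (-(n * p / 5))) ^ m) :=
        Ex_mono h0.le h1.le hin
    _ = (1 + 2 ^ s * Real.exp (-(n * p / 5))) ^ m := by
      unfold Ex
      rw [← Finset.sum_mul, sum_wt, one_mul]

lemma Ex_small {p : ℝ} (h0 : 0 < p) (h1 : p < 1) {m n : ℕ} (s t : ℕ) (ht : 3 * n ≤ 5 * s * t) :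
    Ex p (fun M : Mat m n => ((Small M).card : ℝ)) ≤
      ((idx m t).card : ℝ) * (1 + 2 ^ s * Real.exp (-(n * p / 5))) ^ m := by
  have h2 : ∀ M : Mat m n, ((Small M).card : ℝ) ≤
      ∑ T ∈ idx m t, ind (5 * (unionOf M T).card < 3 * n) * 2 ^ (light M s T).card := by
    intro M
    have h3 : ((Small M).card : ℝ) ≤ ((∑ T ∈ (idx m t).filter (fun T => 5 * (unionOf M T).card < 3 * n),
        2 ^ (light M s T).card : ℕ) : ℝ) := by exact_mod_cast small_le M s t ht
    refine h3.trans (le_of_eq ?_)
    push_cast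
    rw [Finset.sum_filter]
    refine Finset.sum_congr rfl fun T _ => ?_
    by_cases hT : 5 * (unionOf M T).card < 3 * n
    · rw [if_pos hT, ind_pos hT, one_mul]
    · rw [if_neg hT, ind_neg hT, zero_mul]
  refine (Ex_mono h0.le h1.le h2).trans ?_
  rw [Ex_sum]
  calc _ ≤ ∑ T ∈ idx m t, (1 + 2 ^ s * Real.exp (-(n * p / 5))) ^ m :=
        Finset.sum_le_sum fun T _ => Ex_one h0 h1 s T
    _ = _ := by rw [Finset.sum_const, nsmul_eq_mul]

/-- number of small index sets -/
lemma idx_le {y : ℝ} (hy : 0 < y) (hy1 : y ≤ 1) (m t : ℕ) :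
    ((idx m t).card : ℝ) * y ^ t ≤ Real.exp (m * y) := by
  have h1 : ∑ T : Finset (Fin m), y ^ T.card = (1 + y) ^ m := by
    rw [sum_card m (fun k => y ^ k)]
    rw [show (1 + y) = y + 1 by ring, add_pow]
    refine Finset.sum_congr rfl fun k _ => ?_
    rw [one_pow, mul_one, mul_comm]
  have h2 : ((idx m t).card : ℝ) * y ^ t ≤ ∑ T : Finset (Fin m), y ^ T.card := by
    calc ((idx m t).card : ℝ) * y ^ t = ∑ T ∈ idx m t, y ^ t := by
          rw [Finset.sum_const, nsmul_eq_mul]
      _ ≤ ∑ T ∈ idx m t, y ^ T.card := by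
          refine Finset.sum_le_sum fun T hT => ?_
          unfold idx at hT
          rw [Finset.mem_filter] at hT
          exact pow_le_pow_of_le_one hy.le hy1 hT.2
      _ ≤ _ := Finset.sum_le_sum_of_subset_of_nonneg (Finset.subset_univ _)
          (fun T _ _ => by positivity)
  refine h2.trans ?_
  rw [h1, Real.exp_nat_mul]
  refine pow_le_pow_left₀ (by linarith) ?_ _
  have := Real.add_one_le_exp y
  linarith

/-- the final bound for the expected number of small members -/
lemma Ex_small_le {p : ℝ} (h0 : 0 < p) (h1 : p < 1) {m n : ℕ} (hmp : 1 ≤ m * p) (hnp : 20 ≤ n * p)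
    (hl : Real.log (m * p) ≤ n * p / 8) :
    Ex p (fun M : Mat m n => ((Small M).card : ℝ)) ≤ Real.exp ((13 * Real.log (m * p) + 2) / p) := by
  have hn0 : (0:ℝ) < n := by
    by_contra hcon
    have : (n:ℝ) = 0 := le_antisymm (not_lt.mp hcon) (by positivity)
    rw [this] at hnp; linarith
  -- choose s
  set s : ℕ := ⌈(n * p / 20 : ℝ)⌉₊ with hs
  have hs1 : (n * p / 20 : ℝ) ≤ s := Nat.le_ceil _
  have hs2 : (s : ℝ) ≤ n * p / 10 := by
    have := Nat.ceil_lt_add_one (show (0:ℝ) ≤ n * p / 20 by positivity)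
    linarith
  set t : ℕ := ⌈(12 / p : ℝ)⌉₊ with ht
  have ht1 : (12 / p : ℝ) ≤ t := Nat.le_ceil _
  have ht2 : (t : ℝ) ≤ 13 / p := by
    have h3 := Nat.ceil_lt_add_one (show (0:ℝ) ≤ 12 / p by positivity)
    have h4 : (1:ℝ) ≤ 1 / p := by rw [le_div_iff₀ h0]; linarith
    have h5 : (13 / p : ℝ) = 12 / p + 1 / p := by ring
    linarith
  have hst : 3 * n ≤ 5 * s * t := by
    have h3 : (3 * n : ℝ) ≤ 5 * s * t := by
      calc (3 * n : ℝ) = 5 * (n * p / 20) * (12 / p) := by field_simp; norm_num
        _ ≤ 5 * s * t := by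
          refine mul_le_mul (by linarith) ht1 (by positivity) (by positivity)
    exact_mod_cast h3
  refine (Ex_small h0 h1 s t hst).trans ?_
  -- the base
  have hb1 : (2:ℝ) ^ s * Real.exp (-(n * p / 5)) ≤ Real.exp (-(n * p / 8)) := by
    have h3 : (2:ℝ) ^ s = Real.exp (s * Real.log 2) := by
      rw [Real.exp_nat_mul, Real.exp_log (by norm_num)]
    rw [h3, ← Real.exp_add]
    apply Real.exp_le_exp.mpr
    have h4 := Real.log_two_lt_d9
    have h5 : (s:ℝ) * Real.log 2 ≤ (n * p / 10) * 0.7 :=
      mul_le_mul hs2 (by linarith) (Real.log_nonneg (by norm_num)) (by positivity)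
    nlinarith
  have hb2 : (1 + 2 ^ s * Real.exp (-(n * p / 5))) ^ m ≤ Real.exp (1 / p) := by
    have h3 : 1 + 2 ^ s * Real.exp (-(n * p / 5)) ≤ Real.exp (Real.exp (-(n * p / 8))) := by
      have := Real.add_one_le_exp (Real.exp (-(n * p / 8)))
      linarith
    calc (1 + 2 ^ s * Real.exp (-(n * p / 5))) ^ m ≤ (Real.exp (Real.exp (-(n * p / 8)))) ^ m :=
          pow_le_pow_left₀ (by positivity) h3 _
      _ = Real.exp (m * Real.exp (-(n * p / 8))) := by rw [Real.exp_nat_mul]
      _ ≤ Real.exp (1 / p) := by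
        apply Real.exp_le_exp.mpr
        rw [le_div_iff₀ h0]
        have h4 : (m:ℝ) * p ≤ Real.exp (n * p / 8) := by
          have h5 : (0:ℝ) < m * p := by linarith
          rw [← Real.exp_log h5]
          exact Real.exp_le_exp.mpr hl
        calc (m:ℝ) * Real.exp (-(n * p / 8)) * p = (m * p) * Real.exp (-(n * p / 8)) := by ring
          _ ≤ Real.exp (n * p / 8) * Real.exp (-(n * p / 8)) :=
            mul_le_mul_of_nonneg_right h4 (Real.exp_pos _).le
          _ = 1 := by rw [← Real.exp_add]; simp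
  have hmp0 : (0:ℝ) < m * p := by linarith
  have hy := idx_le (y := 1 / (m * p)) (by positivity) (by rw [div_le_one hmp0]; exact hmp) m t
  have hm0 : (m:ℝ) ≠ 0 := by
    intro h; rw [h] at hmp0; simp at hmp0
  have e1 : (m:ℝ) * (1 / (m * p)) = 1 / p := by field_simp
  rw [e1] at hy
  have hidx : ((idx m t).card : ℝ) ≤ Real.exp (1 / p) * (m * p) ^ t := by
    have h3 : ((idx m t).card : ℝ) = ((idx m t).card : ℝ) * (1 / (m * p)) ^ t * (m * p) ^ t := by
      rw [mul_assoc, ← mul_pow, one_div_mul_cancel hmp0.ne', one_pow, mul_one]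
    rw [h3]
    exact mul_le_mul_of_nonneg_right hy (by positivity)
  have hpow : ((m:ℝ) * p) ^ t ≤ Real.exp (13 * Real.log (m * p) / p) := by
    have h3 : ((m:ℝ) * p) ^ t = Real.exp (t * Real.log (m * p)) := by
      rw [Real.exp_nat_mul, Real.exp_log hmp0]
    rw [h3]
    apply Real.exp_le_exp.mpr
    have h4 : 0 ≤ Real.log (m * p) := Real.log_nonneg hmp
    calc (t:ℝ) * Real.log (m * p) ≤ 13 / p * Real.log (m * p) := mul_le_mul_of_nonneg_right ht2 h4
      _ = _ := by ring
  calc ((idx m t).card : ℝ) * (1 + 2 ^ s * Real.exp (-(n * p / 5))) ^ m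
      ≤ (Real.exp (1 / p) * (m * p) ^ t) * Real.exp (1 / p) :=
        mul_le_mul hidx hb2 (by positivity) (by positivity)
    _ ≤ (Real.exp (1 / p) * Real.exp (13 * Real.log (m * p) / p)) * Real.exp (1 / p) := by
        refine mul_le_mul_of_nonneg_right ?_ (Real.exp_pos _).le
        exact mul_le_mul_of_nonneg_left hpow (Real.exp_pos _).le
    _ = Real.exp ((13 * Real.log (m * p) + 2) / p) := by
        rw [← Real.exp_add, ← Real.exp_add]
        congr 1
        ring

end Pool.Agent.Q115.RB
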