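import Pool.Agent.Q115.RBMid

set_option autoImplicit false

/-!
# Random bipartite graphs of arbitrary density: very dense and very sparse ranges
-/

namespace Pool.Agent.Q115.RB

open Finset Pool.Agent.H161R2.UC
open scoped Classical

/-! ## very dense -/

lemma small_card_le_one {m n : ℕ} (M : Mat m n) (h : ∀ i, ¬ 5 * (rowSet M i).card < 3 * n) :
    (Small M).card ≤ 1 := by
  rw [Finset.card_le_one]
  have key : ∀ A ∈ Small M, A = ∅ := by
    intro A hA
    unfold Small at hA
    rw [Finset.mem_filter, mem_fam] at hA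
    obtain ⟨⟨I, rfl⟩, hA⟩ := hA
    rcases Finset.eq_empty_or_nonempty I with rfl | ⟨i, hi⟩
    · ext x; simp [mem_unionOf]
    · exfalso
      have h1 : rowSet M i ⊆ unionOf M I := by
        intro x hx
        rw [mem_unionOf]
        exact ⟨i, hi, (mem_rowSet M i x).mp hx⟩
      have h2 := Finset.card_le_card h1
      have h3 := h i
      omega
  intro A hA B hB
  rw [key A hA, key B hB]

lemma seven_le {m n : ℕ} (M : Mat m n) (c : Fin 7 → Fin n)
    (h : ∀ a b, a ≠ b → ¬ ∀ i, M i (c a) = M i (c b)) : 7 ≤ (fam M).card := by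
  rw [← card_fam_tr]
  have h1 : (univ.image (fun a : Fin 7 => unionOf (tr M) {c a})).card = 7 := by
    rw [Finset.card_image_of_injective, Finset.card_univ, Fintype.card_fin]
    intro a b hab
    by_contra hne
    apply h a b hne
    intro i
    have h2 : i ∈ unionOf (tr M) {c a} ↔ i ∈ unionOf (tr M) {c b} := by
      simp only at hab
      rw [hab]
    rw [mem_unionOf, mem_unionOf] at h2
    simp only [Finset.mem_singleton, exists_eq_left, tr] at h2
    by_cases h3 : M i (c a) = true
    · rw [h3, h2.mp h3]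
    · by_cases h4 : M i (c b) = true
      · exact absurd (h2.mpr h4) h3
      · rw [Bool.not_eq_true] at h3 h4
        rw [h3, h4]
  rw [← h1]
  refine Finset.card_le_card fun A hA => ?_
  rw [Finset.mem_image] at hA
  obtain ⟨a, _, rfl⟩ := hA
  rw [mem_fam]
  exact ⟨_, rfl⟩

lemma Ev_add (p : ℝ) {k : ℕ} (f g : (Fin k → Bool) → ℝ) :
    Ev p (fun r => f r + g r) = Ev p f + Ev p g := by
  unfold Ev
  rw [← Finset.sum_add_distrib]
  refine Finset.sum_congr rfl fun r _ => ?_
  ring

lemma Ev_const_mul (p : ℝ) {k : ℕ} (c : ℝ) (f : (Fin k → Bool) → ℝ) :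
    Ev p (fun r => c * f r) = c * Ev p f := by
  unfold Ev
  rw [Finset.mul_sum]
  refine Finset.sum_congr rfl fun r _ => ?_
  ring

/-- an event concerning one row -/
lemma Pr_row (p : ℝ) {m n : ℕ} (i : Fin m) (A : (Fin n → Bool) → Prop) :
    Pr p (fun M : Mat m n => A (M i)) = Ev p (fun r => ind (A r)) := by
  rw [Pr_eq_Ex]
  have h := Ex_rows p (m := m) (n := n) (fun j r => if j = i then ind (A r) else 1)
  have e1 : (fun M : Mat m n => ind (A (M i))) =
      fun M : Mat m n => ∏ j : Fin m, (if j = i then ind (A (M j)) else 1) := by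
    funext M
    rw [Finset.prod_ite_eq' univ i (fun j => ind (A (M j)))]
    simp
  rw [e1, h]
  have e2 : ∀ j : Fin m, Ev p (fun r : Fin n → Bool => if j = i then ind (A r) else 1) =
      if j = i then Ev p (fun r => ind (A r)) else 1 := by
    intro j
    by_cases hj : j = i
    · simp only [if_pos hj]
    · simp only [if_neg hj]
      exact Ev_one p
  rw [Finset.prod_congr rfl (fun j _ => e2 j), Finset.prod_ite_eq' univ i (fun _ => Ev p (fun r => ind (A r)))]
  simp

lemma Ev_half (p : ℝ) {n : ℕ} :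
    Ev p (fun r : Fin n → Bool => (1 / 2 : ℝ) ^ (univ.filter fun x => r x = true).card) = (1 - p / 2) ^ n := by
  have h := Ev_fac p (n := n) 0 ∅
  have e : fac (n := n) 0 ∅ = fun r => 1 + (1 / 2 : ℝ) ^ (univ.filter fun x => r x = true).card := by
    funext r
    unfold fac
    simp
  rw [e, Ev_add, Ev_one] at h
  simp only [pow_zero, one_mul, Finset.card_empty, Nat.sub_zero] at h
  linarith

/-- light rows are unlikely if `p ≥ 3/4` -/
lemma Pr_light {p : ℝ} (h0 : 3 / 4 ≤ p) (h1 : p ≤ 1) {m n : ℕ} :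
    Pr p (fun M : Mat m n => ∃ i ∈ (univ : Finset (Fin m)), 5 * (rowSet M i).card < 3 * n) ≤
      m * (19 / 20 : ℝ) ^ n := by
  have hp0 : 0 ≤ p := by linarith
  refine (Pr_exists hp0 h1 _ _).trans ?_
  have key : ∀ i : Fin m, Pr p (fun M : Mat m n => 5 * (rowSet M i).card < 3 * n) ≤ (19 / 20 : ℝ) ^ n := by
    intro i
    have e := Pr_row p (m := m) (n := n) i (fun r => 5 * (univ.filter fun x => r x = true).card < 3 * n)
    have e' : Pr p (fun M : Mat m n => 5 * (rowSet M i).card < 3 * n) =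
      Ev p (fun r : Fin n → Bool => ind (5 * (univ.filter fun x => r x = true).card < 3 * n)) := e
    rw [e']
    set h := 3 * n / 5 with hh
    have h2 : ∀ r : Fin n → Bool, ind (5 * (univ.filter fun x => r x = true).card < 3 * n) ≤
        2 ^ h * (1 / 2 : ℝ) ^ (univ.filter fun x => r x = true).card := by
      intro r
      by_cases hr : 5 * (univ.filter fun x => r x = true).card < 3 * n
      · rw [ind_pos hr]
        have h3 : (univ.filter fun x => r x = true).card ≤ h := by omega
        calc (1:ℝ) = 2 ^ h * (1 / 2) ^ h := by rw [← mul_pow]; norm_num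
          _ ≤ _ := mul_le_mul_of_nonneg_left
            (pow_le_pow_of_le_one (by norm_num) (by norm_num) h3) (by positivity)
      · rw [ind_neg hr]; positivity
    refine (Ev_mono hp0 h1 h2).trans ?_
    rw [Ev_const_mul, Ev_half]
    have h3 : (1 - p / 2) ^ n ≤ (5 / 8 : ℝ) ^ n := pow_le_pow_left₀ (by linarith) (by linarith) _
    have h4 : (2:ℝ) ^ h ≤ (38 / 25 : ℝ) ^ n := by
      have h5 : ((2:ℝ) ^ h) ^ 5 ≤ ((38 / 25 : ℝ) ^ n) ^ 5 := by
        calc ((2:ℝ) ^ h) ^ 5 = 2 ^ (h * 5) := by rw [pow_mul]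
          _ ≤ 2 ^ (3 * n) := pow_le_pow_right₀ (by norm_num) (by omega)
          _ = 8 ^ n := by rw [pow_mul]; norm_num
          _ ≤ ((38 / 25 : ℝ) ^ 5) ^ n := pow_le_pow_left₀ (by norm_num) (by norm_num) _
          _ = _ := by rw [← pow_mul, ← pow_mul, mul_comm]
      exact le_of_pow_le_pow_left₀ (by norm_num) (by positivity) h5
    calc (2:ℝ) ^ h * (1 - p / 2) ^ n ≤ (38 / 25 : ℝ) ^ n * (5 / 8) ^ n :=
          mul_le_mul h4 h3 (pow_nonneg (by linarith) _) (by positivity)
      _ = (19 / 20 : ℝ) ^ n := by rw [← mul_pow]; norm_num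
  calc _ ≤ ∑ i ∈ (univ : Finset (Fin m)), (19 / 20 : ℝ) ^ n := Finset.sum_le_sum fun i _ => key i
    _ = _ := by rw [Finset.sum_const, nsmul_eq_mul, Finset.card_univ, Fintype.card_fin]

/-- two columns coincide -/
lemma Pr_cols {p : ℝ} (h0 : 0 ≤ p) (h1 : p ≤ 1) {m n : ℕ} (x y : Fin n) (hxy : x ≠ y) :
    Pr p (fun M : Mat m n => ∀ i, M i x = M i y) ≤ (1 - 2 * p * (1 - p)) ^ m := by
  rw [Pr_eq_Ex]
  have e1 : (fun M : Mat m n => ind (∀ i, M i x = M i y)) =
      fun M : Mat m n => ∏ i : Fin m, ind (M i x = M i y) := by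
    funext M
    rw [ind_prod]
    simp
  rw [e1]
  have h := Ex_rows p (m := m) (n := n) (fun _ r => ind (r x = r y))
  rw [h, Finset.prod_const, Finset.card_univ, Fintype.card_fin]
  refine pow_le_pow_left₀ (Ev_nonneg h0 h1 fun r => ind_nonneg _) ?_ _
  have h2 : ∀ r : Fin n → Bool, ind (r x = r y) ≤
      ind ((∀ i ∈ ({x, y} : Finset (Fin n)), r i = false) ∧ (∀ i ∈ (∅ : Finset (Fin n)), r i = true)) +
      ind ((∀ i ∈ (∅ : Finset (Fin n)), r i = false) ∧ (∀ i ∈ ({x, y} : Finset (Fin n)), r i = true)) := by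
    intro r
    by_cases hr : r x = r y
    · rw [ind_pos hr]
      by_cases hx : r x = true
      · have h3 : (∀ i ∈ (∅ : Finset (Fin n)), r i = false) ∧ (∀ i ∈ ({x, y} : Finset (Fin n)), r i = true) := by
          refine ⟨by simp, fun i hi => ?_⟩
          rw [Finset.mem_insert, Finset.mem_singleton] at hi
          rcases hi with rfl | rfl
          · exact hx
          · rw [← hr]; exact hx
        rw [ind_pos h3]
        have := ind_nonneg ((∀ i ∈ ({x, y} : Finset (Fin n)), r i = false) ∧ (∀ i ∈ (∅ : Finset (Fin n)), r i = true))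
        linarith
      · rw [Bool.not_eq_true] at hx
        have h3 : (∀ i ∈ ({x, y} : Finset (Fin n)), r i = false) ∧ (∀ i ∈ (∅ : Finset (Fin n)), r i = true) := by
          refine ⟨fun i hi => ?_, by simp⟩
          rw [Finset.mem_insert, Finset.mem_singleton] at hi
          rcases hi with rfl | rfl
          · exact hx
          · rw [← hr]; exact hx
        rw [ind_pos h3]
        have := ind_nonneg ((∀ i ∈ (∅ : Finset (Fin n)), r i = false) ∧ (∀ i ∈ ({x, y} : Finset (Fin n)), r i = true))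
        linarith
    · rw [ind_neg hr]
      exact add_nonneg (ind_nonneg _) (ind_nonneg _)
  refine (Ev_mono h0 h1 h2).trans (le_of_eq ?_)
  rw [Ev_add, Ev_cyl p _ _ (by simp), Ev_cyl p _ _ (by simp), Finset.card_pair hxy]
  simp
  ring

/-- the good event of the dense range -/
def Good {m n : ℕ} (M : Mat m n) : Prop :=
  (∃ x, ∀ i, M i x = true) ∨ 6 * (Small M).card < (fam M).card

lemma good_frankl {m n : ℕ} (hm : 0 < m) (hn : 0 < n) {M : Mat m n} (h : Good M) : Frankl M := by
  rcases h with h | h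
  · exact frankl_of_common hm M h
  · exact strict_frankl (strict_of_W M (W_pos_of_small hn M h))

theorem high {ε : ℝ} (hε : 0 < ε) :
    ∃ C : ℝ, 1 ≤ C ∧ ∀ (m n : ℕ) (p : ℝ), 3 / 4 ≤ p → p ≤ 1 → C ≤ m * p → C ≤ n * p →
      40 * Real.log (m * p) ≤ n * p →
      Pr p (fun M : Mat m n => ¬ Good M) ≤ ε := by
  -- three tails
  have t1 : Filter.Tendsto (fun y : ℝ => 4 / 3 * Real.exp (-(y / 40))) Filter.atTop (nhds 0) := by
    have h := (Real.tendsto_exp_neg_atTop_nhds_zero.comp
      (Filter.tendsto_id.atTop_div_const (show (0:ℝ) < 40 by norm_num))).const_mul (4 / 3 : ℝ)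
    rw [mul_zero] at h
    exact h
  have t2 : Filter.Tendsto (fun y : ℝ => Real.exp (-Real.sqrt y)) Filter.atTop (nhds 0) :=
    Real.tendsto_exp_neg_atTop_nhds_zero.comp Real.tendsto_sqrt_atTop
  have t3 : Filter.Tendsto (fun y : ℝ => 49 * Real.exp (-(3 / 8 * Real.log y))) Filter.atTop (nhds 0) := by
    have h := (Real.tendsto_exp_neg_atTop_nhds_zero.comp
      (Filter.Tendsto.const_mul_atTop (show (0:ℝ) < 3 / 8 by norm_num) Real.tendsto_log_atTop)).const_mul (49 : ℝ)
    rw [mul_zero] at h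
    exact h
  have ev := ((t1.eventually (gt_mem_nhds (show 0 < ε / 3 by linarith))).and
    ((t2.eventually (gt_mem_nhds (show 0 < ε / 3 by linarith))).and
    (t3.eventually (gt_mem_nhds (show 0 < ε / 3 by linarith)))))
  rw [Filter.eventually_atTop] at ev
  obtain ⟨C1, hC1⟩ := ev
  refine ⟨max 40 C1, le_trans (by norm_num) (le_max_left _ _), fun m n p h0 h1 hmp hnp hl => ?_⟩
  have hp0 : (0:ℝ) < p := by linarith
  have hn0 : (0:ℝ) ≤ n := by positivity
  have hn40 : (40:ℝ) ≤ n := by
    have h2 : 40 ≤ n * p := (le_max_left _ _).trans hnp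
    nlinarith
  have hnC : C1 ≤ (n:ℝ) := by
    have h2 : C1 ≤ n * p := (le_max_right _ _).trans hnp
    have h3 : (n:ℝ) * p ≤ n := by nlinarith
    linarith
  obtain ⟨ht1, ht2, ht3⟩ := hC1 n hnC
  have hm0 : (0:ℝ) ≤ m := by positivity
  have hmp40 : (40:ℝ) ≤ m * p := (le_max_left _ _).trans hmp
  have hlog : 0 ≤ Real.log (m * p) := Real.log_nonneg (by linarith)
  have hlog40 : Real.log (m * p) ≤ n / 40 := by
    have h3 : (n:ℝ) * p ≤ n := by nlinarith
    linarith
  -- the seven columns
  have hn7 : 7 ≤ n := by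
    have : (7:ℝ) ≤ n := by linarith
    exact_mod_cast this
  set c : Fin 7 → Fin n := fun a => ⟨a.val, lt_of_lt_of_le a.isLt hn7⟩ with hc
  have hcinj : ∀ a b, a ≠ b → c a ≠ c b := by
    intro a b hab h
    apply hab
    have : (c a).val = (c b).val := by rw [h]
    exact Fin.ext this
  -- first bound
  have hP1 : Pr p (fun M : Mat m n => ∃ i ∈ (univ : Finset (Fin m)), 5 * (rowSet M i).card < 3 * n) ≤ ε / 3 := by
    refine (Pr_light h0 h1).trans ?_
    have h2 : (m:ℝ) ≤ 4 / 3 * Real.exp (n / 40) := by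
      have h3 : (m:ℝ) * p ≤ Real.exp (n / 40) := by
        rw [← Real.exp_log (show (0:ℝ) < m * p by linarith)]
        exact Real.exp_le_exp.mpr hlog40
      nlinarith
    have h4 : (19 / 20 : ℝ) ^ n ≤ Real.exp (-(n / 20)) := by
      have h5 : (19 / 20 : ℝ) ≤ Real.exp (-(1 / 20)) := by
        have := Real.one_sub_le_exp_neg (1 / 20 : ℝ)
        linarith
      calc (19 / 20 : ℝ) ^ n ≤ (Real.exp (-(1 / 20))) ^ n := pow_le_pow_left₀ (by norm_num) h5 _
        _ = Real.exp (n * (-(1 / 20))) := by rw [Real.exp_nat_mul]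
        _ = _ := by congr 1; ring
    calc (m:ℝ) * (19 / 20 : ℝ) ^ n ≤ (4 / 3 * Real.exp (n / 40)) * Real.exp (-(n / 20)) :=
          mul_le_mul h2 h4 (by positivity) (by positivity)
      _ = 4 / 3 * Real.exp (-(n / 40)) := by
          rw [mul_assoc, ← Real.exp_add]; congr 2; ring
      _ ≤ ε / 3 := ht1.le
  have hP2 : Pr p (fun M : Mat m n => (¬ ∃ x, ∀ i, M i x = true) ∧
      ∃ z ∈ (univ.filter (fun z : Fin 7 × Fin 7 => z.1 ≠ z.2)), ∀ i, M i (c z.1) = M i (c z.2)) ≤ 2 * (ε / 3) := by
    by_cases hcase : (1 - p) * m ≤ 1 / 4 * Real.log n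
    · have h2 : Pr p (fun M : Mat m n => (¬ ∃ x, ∀ i, M i x = true) ∧
          ∃ z ∈ (univ.filter (fun z : Fin 7 × Fin 7 => z.1 ≠ z.2)), ∀ i, M i (c z.1) = M i (c z.2)) ≤
          Pr p (fun M : Mat m n => ¬ ∃ x, ∀ i, M i x = true) :=
        Pr_mono hp0.le h1 fun M hM => hM.1
      refine h2.trans ?_
      rw [Pr_common]
      have h3 : Real.exp (-(1 / 2 * Real.log n)) ≤ p ^ m := by
        have h4 : Real.exp (-(2 * (1 - p))) ≤ p := by
          have := one_sub_ge (p := 1 - p) (by linarith) (by linarith)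
          linarith
        calc Real.exp (-(1 / 2 * Real.log n)) ≤ Real.exp (m * (-(2 * (1 - p)))) := by
              apply Real.exp_le_exp.mpr
              nlinarith
          _ = (Real.exp (-(2 * (1 - p)))) ^ m := by rw [Real.exp_nat_mul]
          _ ≤ p ^ m := pow_le_pow_left₀ (Real.exp_pos _).le h4 _
      have hpm1 : p ^ m ≤ 1 := pow_le_one₀ hp0.le h1
      have h5 : (1 - p ^ m) ^ n ≤ Real.exp (-Real.sqrt n) := by
        calc (1 - p ^ m) ^ n ≤ (Real.exp (-(p ^ m))) ^ n :=
              pow_le_pow_left₀ (by linarith) (Real.one_sub_le_exp_neg _) _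
          _ = Real.exp (n * (-(p ^ m))) := by rw [Real.exp_nat_mul]
          _ ≤ Real.exp (-Real.sqrt n) := by
              apply Real.exp_le_exp.mpr
              have hnpos : (0:ℝ) < n := by linarith
              have h6 : Real.sqrt n = n * Real.exp (-(1 / 2 * Real.log n)) := by
                have h7 : Real.exp (1 / 2 * Real.log n) = Real.sqrt n := by
                  rw [Real.sqrt_eq_rpow, Real.rpow_def_of_pos hnpos]
                  congr 1
                  ring
                rw [Real.exp_neg, h7]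
                have h8 : Real.sqrt (n:ℝ) ≠ 0 := (Real.sqrt_pos.mpr hnpos).ne'
                field_simp
                rw [Real.sq_sqrt hnpos.le]
              rw [h6]
              nlinarith
      linarith
    · push Not at hcase
      have h2 : Pr p (fun M : Mat m n => (¬ ∃ x, ∀ i, M i x = true) ∧
          ∃ z ∈ (univ.filter (fun z : Fin 7 × Fin 7 => z.1 ≠ z.2)), ∀ i, M i (c z.1) = M i (c z.2)) ≤
          Pr p (fun M : Mat m n => ∃ z ∈ (univ.filter (fun z : Fin 7 × Fin 7 => z.1 ≠ z.2)),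
            ∀ i, M i (c z.1) = M i (c z.2)) :=
        Pr_mono hp0.le h1 fun M hM => hM.2
      refine h2.trans ((Pr_exists hp0.le h1 _ _).trans ?_)
      have h3 : ∀ z ∈ (univ.filter (fun z : Fin 7 × Fin 7 => z.1 ≠ z.2)),
          Pr p (fun M : Mat m n => ∀ i, M i (c z.1) = M i (c z.2)) ≤ Real.exp (-(3 / 8 * Real.log n)) := by
        intro z hz
        refine (Pr_cols hp0.le h1 _ _ (hcinj _ _ (Finset.mem_filter.mp hz).2)).trans ?_
        have hb : 0 ≤ 1 - 2 * p * (1 - p) := by nlinarith
        calc (1 - 2 * p * (1 - p)) ^ m ≤ (Real.exp (-(2 * p * (1 - p)))) ^ m :=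
              pow_le_pow_left₀ hb (Real.one_sub_le_exp_neg _) _
          _ = Real.exp (m * (-(2 * p * (1 - p)))) := by rw [Real.exp_nat_mul]
          _ ≤ _ := by
              apply Real.exp_le_exp.mpr
              have h5 : 0 ≤ (1 - p) * m := mul_nonneg (by linarith) hm0
              nlinarith
      have hcard : (univ.filter (fun z : Fin 7 × Fin 7 => z.1 ≠ z.2)).card ≤ 49 := by
        refine (Finset.card_filter_le _ _).trans ?_
        simp
      calc _ ≤ ∑ z ∈ (univ.filter (fun z : Fin 7 × Fin 7 => z.1 ≠ z.2)), Real.exp (-(3 / 8 * Real.log n)) :=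
            Finset.sum_le_sum h3
        _ = ((univ.filter (fun z : Fin 7 × Fin 7 => z.1 ≠ z.2)).card : ℝ) * Real.exp (-(3 / 8 * Real.log n)) := by
            rw [Finset.sum_const, nsmul_eq_mul]
        _ ≤ 49 * Real.exp (-(3 / 8 * Real.log n)) := by
            refine mul_le_mul_of_nonneg_right ?_ (Real.exp_pos _).le
            exact_mod_cast hcard
        _ ≤ 2 * (ε / 3) := by linarith
  have hstep : Pr p (fun M : Mat m n => ¬ Good M) ≤
      Pr p (fun M : Mat m n => (∃ i ∈ (univ : Finset (Fin m)), 5 * (rowSet M i).card < 3 * n) ∨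
        ((¬ ∃ x, ∀ i, M i x = true) ∧
      ∃ z ∈ (univ.filter (fun z : Fin 7 × Fin 7 => z.1 ≠ z.2)), ∀ i, M i (c z.1) = M i (c z.2))) := by
    refine Pr_mono hp0.le h1 fun M hM => ?_
    by_contra hcon
    push Not at hcon
    obtain ⟨h2, h3⟩ := hcon
    apply hM
    unfold Good
    by_cases h4 : ∃ x, ∀ i, M i x = true
    · exact Or.inl h4
    · right
      have h5 := small_card_le_one M (fun i => not_lt.mpr (h2 i (Finset.mem_univ i)))
      have h6 : 7 ≤ (fam M).card := by
        refine seven_le M c fun a b hab => ?_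
        push Not at h4
        have := h3 h4 (a, b) (by simp [hab])
        push Not
        exact this
      omega
  refine hstep.trans ((Pr_or hp0.le h1 _ _).trans ?_)
  linarith

end Pool.Agent.Q115.RB
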