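import Pool.Agent.Q115.RBExp

set_option autoImplicit false

/-!
# Random bipartite graphs of arbitrary density: lower bound for the number of unions
-/

namespace Pool.Agent.Q115.RB

open Finset Pool.Agent.H161R2.UC
open scoped Classical

/-- the largest union avoiding `X` -/
noncomputable def avoid {m n : ℕ} (M : Mat m n) (X : Finset (Fin n)) : Finset (Fin n) :=
  unionOf M (univ.filter fun i => ∀ y ∈ X, M i y = false)

/-- the elements outside `X` that lie only in rows meeting `X` -/
noncomputable def extra {m n : ℕ} (M : Mat m n) (X : Finset (Fin n)) : Finset (Fin n) :=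
  univ.filter fun x => x ∉ X ∧ ∀ i, ¬ ((∀ y ∈ X, M i y = false) ∧
    (∀ y ∈ ({x} : Finset (Fin n)), M i y = true))

lemma compl_avoid {m n : ℕ} (M : Mat m n) (X : Finset (Fin n)) :
    (avoid M X)ᶜ ⊆ X ∪ extra M X := by
  intro x hx
  rw [Finset.mem_compl] at hx
  rw [Finset.mem_union]
  by_cases hX : x ∈ X
  · exact Or.inl hX
  · right
    unfold extra
    rw [Finset.mem_filter]
    refine ⟨Finset.mem_univ _, hX, ?_⟩
    rintro i ⟨h1, h2⟩
    apply hx
    unfold avoid
    rw [mem_unionOf]
    exact ⟨i, Finset.mem_filter.mpr ⟨Finset.mem_univ _, h1⟩, h2 x (Finset.mem_singleton_self _)⟩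

lemma sub_compl_avoid {m n : ℕ} (M : Mat m n) (X : Finset (Fin n)) : X ⊆ (avoid M X)ᶜ := by
  intro x hx
  rw [Finset.mem_compl]
  unfold avoid
  rw [mem_unionOf]
  rintro ⟨i, hi, h⟩
  rw [(Finset.mem_filter.mp hi).2 x hx] at h
  exact Bool.noConfusion h

/-- the sets of size `k` with few extra elements -/
noncomputable def good {m n : ℕ} (M : Mat m n) (k : ℕ) : Finset (Finset (Fin n)) :=
  (powersetCard k (univ : Finset (Fin n))).filter (fun X => (extra M X).card ≤ k)

lemma good_le {m n : ℕ} (M : Mat m n) (k : ℕ) : (good M k).card ≤ 4 ^ k * (fam M).card := by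
  refine Finset.card_le_mul_card_image_of_maps_to (f := avoid M) ?_ _ ?_
  · intro X _
    rw [mem_fam]
    exact ⟨_, rfl⟩
  · intro A _
    rcases Finset.eq_empty_or_nonempty ((good M k).filter (fun X => avoid M X = A)) with h | ⟨X0, h0⟩
    · rw [h]; simp
    · rw [Finset.mem_filter] at h0
      obtain ⟨h0, hA0⟩ := h0
      unfold good at h0
      rw [Finset.mem_filter, Finset.mem_powersetCard] at h0
      have h1 : Aᶜ.card ≤ 2 * k := by
        rw [← hA0]
        refine (Finset.card_le_card (compl_avoid M X0)).trans ((Finset.card_union_le _ _).trans ?_)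
        omega
      calc ((good M k).filter (fun X => avoid M X = A)).card ≤ (Aᶜ.powerset).card := by
            refine Finset.card_le_card fun X hX => ?_
            rw [Finset.mem_filter] at hX
            rw [Finset.mem_powerset, ← hX.2]
            exact sub_compl_avoid M X
        _ = 2 ^ Aᶜ.card := Finset.card_powerset _
        _ ≤ 2 ^ (2 * k) := Nat.pow_le_pow_right (by norm_num) h1
        _ = 4 ^ k := by rw [pow_mul]; norm_num

/-- the expected number of extra elements -/
lemma Ex_extra {p : ℝ} (h0 : 0 < p) (h1 : p < 1) {m n : ℕ} (X : Finset (Fin n)) :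
    Ex p (fun M : Mat m n => ((extra M X).card : ℝ)) ≤ n * (1 - p * (1 - p) ^ X.card) ^ m := by
  have e1 : ∀ M : Mat m n, ((extra M X).card : ℝ) = ∑ x ∈ univ.filter (fun x : Fin n => x ∉ X),
      ind (∀ i ∈ (univ : Finset (Fin m)), ¬ ((∀ y ∈ X, M i y = false) ∧
    (∀ y ∈ ({x} : Finset (Fin n)), M i y = true))) := by
    intro M
    unfold extra
    rw [Finset.card_filter, Finset.sum_filter]
    push_cast
    refine Finset.sum_congr rfl fun x _ => ?_
    by_cases hx : x ∉ X
    · rw [if_pos hx]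
      by_cases h : ∀ i ∈ (univ : Finset (Fin m)), ¬ ((∀ y ∈ X, M i y = false) ∧
          (∀ y ∈ ({x} : Finset (Fin n)), M i y = true))
      · rw [ind_pos h, if_pos ⟨hx, fun i => h i (Finset.mem_univ i)⟩]
      · rw [ind_neg h, if_neg]
        intro h'
        exact h fun i _ => h'.2 i
    · rw [if_neg hx, if_neg fun h' => hx h'.1]
  simp_rw [e1]
  rw [Ex_sum]
  have hq1 : (1 - p) ^ X.card ≤ 1 := pow_le_one₀ (by linarith) (by linarith)
  have hq0 : 0 ≤ (1 - p) ^ X.card := pow_nonneg (by linarith) _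
  have hb : 0 ≤ 1 - p * (1 - p) ^ X.card := by nlinarith
  have e2 : ∀ x ∈ univ.filter (fun x : Fin n => x ∉ X), Ex p (fun M : Mat m n =>
      ind (∀ i ∈ (univ : Finset (Fin m)), ¬ ((∀ y ∈ X, M i y = false) ∧
    (∀ y ∈ ({x} : Finset (Fin n)), M i y = true)))) = (1 - p * (1 - p) ^ X.card) ^ m := by
    intro x hx
    rw [Finset.mem_filter] at hx
    have e3 : (fun M : Mat m n => ind (∀ i ∈ (univ : Finset (Fin m)), ¬ ((∀ y ∈ X, M i y = false) ∧
      (∀ y ∈ ({x} : Finset (Fin n)), M i y = true)))) = fun M : Mat m n =>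
      ∏ i : Fin m, ind (¬ ((∀ y ∈ X, M i y = false) ∧ (∀ y ∈ ({x} : Finset (Fin n)), M i y = true))) := by
      funext M
      rw [ind_prod]
    rw [e3]
    have h := Ex_rows p (m := m) (n := n) (fun _ r => ind (¬ ((∀ y ∈ X, r y = false) ∧
      (∀ y ∈ ({x} : Finset (Fin n)), r y = true))))
    rw [h, Finset.prod_const, Finset.card_univ, Fintype.card_fin, Ev_not_cyl _ _ _
      (Finset.disjoint_singleton_right.mpr hx.2)]
    rw [Finset.card_singleton, pow_one, mul_comm p]
  rw [Finset.sum_congr rfl e2, Finset.sum_const, nsmul_eq_mul]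
  refine mul_le_mul_of_nonneg_right ?_ (pow_nonneg hb _)
  have : (univ.filter (fun x : Fin n => x ∉ X)).card ≤ n := by
    simpa using Finset.card_filter_le (univ : Finset (Fin n)) (fun x => x ∉ X)
  exact_mod_cast this

/-- few unions are unlikely -/
lemma Pr_few {p : ℝ} (h0 : 0 < p) (h1 : p < 1) {m n : ℕ} (k : ℕ) :
    Pr p (fun M : Mat m n => 2 * (4 ^ k * ((fam M).card : ℝ)) < (n.choose k : ℝ)) ≤
      2 * (n * (1 - p * (1 - p) ^ k) ^ m) / (k + 1) := by
  rcases Nat.lt_or_ge n k with hnk | hnk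
  · have hc : n.choose k = 0 := Nat.choose_eq_zero_of_lt hnk
    rw [hc]
    have : Pr p (fun M : Mat m n => 2 * (4 ^ k * ((fam M).card : ℝ)) < ((0 : ℕ) : ℝ)) = 0 := by
      unfold Pr
      refine Finset.sum_eq_zero fun M _ => ?_
      rw [if_neg]
      push_cast
      have : (0:ℝ) ≤ 2 * (4 ^ k * ((fam M).card : ℝ)) := by positivity
      linarith
    rw [this]
    have hq1 : (1 - p) ^ k ≤ 1 := pow_le_one₀ (by linarith) (by linarith)
    have hq0 : 0 ≤ (1 - p) ^ k := pow_nonneg (by linarith) _
    have hb : 0 ≤ 1 - p * (1 - p) ^ k := by nlinarith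
    positivity
  have hcpos : (0:ℝ) < (n.choose k : ℝ) := by exact_mod_cast Nat.choose_pos hnk
  -- the sum of the numbers of extra elements
  set F : Mat m n → ℝ := fun M => ∑ X ∈ powersetCard k (univ : Finset (Fin n)), ((extra M X).card : ℝ)
    with hF
  have hEF : Ex p F ≤ (n.choose k : ℝ) * (n * (1 - p * (1 - p) ^ k) ^ m) := by
    rw [hF, Ex_sum]
    calc _ ≤ ∑ X ∈ powersetCard k (univ : Finset (Fin n)), (n * (1 - p * (1 - p) ^ k) ^ m : ℝ) := by
          refine Finset.sum_le_sum fun X hX => ?_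
          have := Ex_extra h0 h1 (m := m) X
          rwa [(Finset.mem_powersetCard.mp hX).2] at this
      _ = _ := by
          rw [Finset.sum_const, nsmul_eq_mul, Finset.card_powersetCard, Finset.card_univ,
            Fintype.card_fin]
  have hstep : ∀ M : Mat m n, 2 * (4 ^ k * ((fam M).card : ℝ)) < (n.choose k : ℝ) →
      (n.choose k : ℝ) * (k + 1) / 2 ≤ F M := by
    intro M hM
    have h2 : ((good M k).card : ℝ) ≤ 4 ^ k * ((fam M).card : ℝ) := by exact_mod_cast good_le M k
    have h3 : ((good M k).card : ℝ) ≤ (n.choose k : ℝ) / 2 := by linarith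
    set B : Finset (Finset (Fin n)) := (powersetCard k (univ : Finset (Fin n))).filter
        (fun X => ¬ (extra M X).card ≤ k) with hB
    have h4 : ((good M k).card : ℝ) + (B.card : ℝ) = (n.choose k : ℝ) := by
      have := Finset.card_filter_add_card_filter_not (s := powersetCard k (univ : Finset (Fin n)))
        (fun X => (extra M X).card ≤ k)
      rw [Finset.card_powersetCard, Finset.card_univ, Fintype.card_fin] at this
      exact_mod_cast this
    have h5 : (B.card : ℝ) * (k + 1) ≤ F M := by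
      have h51 : (B.card : ℝ) * (k + 1) = ∑ X ∈ B, ((k:ℝ) + 1) := by
        rw [Finset.sum_const, nsmul_eq_mul]
      have h52 : ∑ X ∈ B, ((k:ℝ) + 1) ≤ ∑ X ∈ B, ((extra M X).card : ℝ) := by
        refine Finset.sum_le_sum fun X hX => ?_
        have := (Finset.mem_filter.mp hX).2
        have h6 : k + 1 ≤ (extra M X).card := by omega
        exact_mod_cast h6
      have h53 : ∑ X ∈ B, ((extra M X).card : ℝ) ≤ F M := by
        rw [hF]
        exact Finset.sum_le_sum_of_subset_of_nonneg (Finset.filter_subset _ _)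
          (fun X _ _ => by positivity)
      rw [h51]
      exact h52.trans h53
    have h6 : (n.choose k : ℝ) / 2 ≤ (B.card : ℝ) := by linarith
    have h7 : (n.choose k : ℝ) / 2 * (k + 1) ≤ (B.card : ℝ) * (k + 1) :=
      mul_le_mul_of_nonneg_right h6 (by positivity)
    calc (n.choose k : ℝ) * (k + 1) / 2 = (n.choose k : ℝ) / 2 * (k + 1) := by ring
      _ ≤ _ := h7.trans h5
  have hPr := Pr_mono h0.le h1.le hstep
  refine hPr.trans ?_
  have hF0 : ∀ M, 0 ≤ F M := fun M => Finset.sum_nonneg fun X _ => by positivity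
  have hmk := markov h0.le h1.le F hF0 ((n.choose k : ℝ) * (k + 1) / 2)
  have hc : (0:ℝ) < (n.choose k : ℝ) * (k + 1) / 2 := by positivity
  have h8 : Pr p (fun M => (n.choose k : ℝ) * (k + 1) / 2 ≤ F M) ≤
      ((n.choose k : ℝ) * (n * (1 - p * (1 - p) ^ k) ^ m)) / ((n.choose k : ℝ) * (k + 1) / 2) := by
    rw [le_div_iff₀ hc, mul_comm]
    exact hmk.trans hEF
  refine h8.trans (le_of_eq ?_)
  field_simp

/-- the number of unions of rows and of columns -/
lemma card_fam_le_tr {m n : ℕ} (M : Mat m n) : (fam M).card ≤ (fam (tr M)).card := by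
  refine Finset.card_le_card_of_injOn (fun A => unionOf (tr M) Aᶜ) ?_ ?_
  · intro A _
    rw [Finset.mem_coe, mem_fam]
    exact ⟨_, rfl⟩
  · intro A hA B hB hAB
    have key : ∀ A ∈ fam M, unionOf M (unionOf (tr M) Aᶜ)ᶜ = A := by
      intro A hA
      rw [mem_fam] at hA
      obtain ⟨I, rfl⟩ := hA
      ext x
      rw [mem_unionOf, mem_unionOf]
      constructor
      · rintro ⟨i, hi, hx⟩
        rw [Finset.mem_compl, mem_unionOf] at hi
        push Not at hi
        by_contra hcon
        have h1 : x ∈ (unionOf M I)ᶜ := by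
          rw [Finset.mem_compl, mem_unionOf]
          exact hcon
        exact hi x h1 hx
      · rintro ⟨i, hi, hx⟩
        refine ⟨i, ?_, hx⟩
        rw [Finset.mem_compl, mem_unionOf]
        rintro ⟨y, hy, h2⟩
        rw [Finset.mem_compl, mem_unionOf] at hy
        exact hy ⟨i, hi, h2⟩
    simp only at hAB
    rw [← key A hA, ← key B hB, hAB]

lemma card_fam_tr {m n : ℕ} (M : Mat m n) : (fam (tr M)).card = (fam M).card :=
  le_antisymm (card_fam_le_tr (tr M)) (card_fam_le_tr M)

/-- few unions are unlikely, second form -/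
lemma Pr_few' {p : ℝ} (h0 : 0 < p) (h1 : p < 1) {m n : ℕ} (k : ℕ) :
    Pr p (fun M : Mat m n => 2 * (4 ^ k * ((fam M).card : ℝ)) < (m.choose k : ℝ)) ≤
      2 * (m * (1 - p * (1 - p) ^ k) ^ n) / (k + 1) := by
  have h := Pr_few h0 h1 (m := n) (n := m) k
  rw [← Pr_tr] at h
  simp_rw [card_fam_tr] at h
  exact h

end Pool.Agent.Q115.RB
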