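import Pool.Agent.Q115.RBLow

set_option autoImplicit false

/-!
# Random bipartite graphs of arbitrary density: the main range
-/

namespace Pool.Agent.Q115.RB

open Finset Pool.Agent.H161R2.UC
open scoped Classical

/-- some element lies in strictly more than half of the members -/
def Strict {m n : ℕ} (M : Mat m n) : Prop :=
  ∃ x : Fin n, (fam M).card < 2 * ((fam M).filter (fun A => x ∈ A)).card

lemma strict_frankl {m n : ℕ} {M : Mat m n} (h : Strict M) : Frankl M := by
  obtain ⟨x, hx⟩ := h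
  exact ⟨x, hx.le⟩

lemma strict_of_W {m n : ℕ} (M : Mat m n) (h : 0 < W M) : Strict M := by
  by_contra hcon
  unfold Strict at hcon
  push Not at hcon
  have h1 : ∑ x : Fin n, ((fam M).filter (fun A => x ∈ A)).card = ∑ A ∈ fam M, A.card := by
    simp_rw [Finset.card_filter]
    rw [Finset.sum_comm]
    refine Finset.sum_congr rfl fun A _ => ?_
    rw [← Finset.card_filter]
    congr 1
    ext x; simp
  have h2 : ∑ x : Fin n, 2 * ((fam M).filter (fun A => x ∈ A)).card ≤ ∑ x : Fin n, (fam M).card :=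
    Finset.sum_le_sum fun x _ => hcon x
  rw [← Finset.mul_sum, h1, Finset.sum_const, Finset.card_univ, Fintype.card_fin, smul_eq_mul] at h2
  unfold W at h
  rw [Finset.sum_sub_distrib, ← Finset.mul_sum, Finset.sum_const, nsmul_eq_mul] at h
  have h3 : (2 : ℝ) * ((∑ A ∈ fam M, A.card : ℕ) : ℝ) ≤ n * (fam M).card := by exact_mod_cast h2
  push_cast at h3
  nlinarith

lemma W_pos_of_small {m n : ℕ} (hn : 0 < n) (M : Mat m n)
    (h : 6 * (Small M).card < (fam M).card) : 0 < W M := by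
  have h1 : (n:ℝ) / 5 * ((fam M).card - 6 * (Small M).card) ≤ W M := by
    unfold W
    rw [← Finset.sum_filter_add_sum_filter_not (fam M) (fun A => 5 * A.card < 3 * n)]
    have h2 : -((n:ℝ) * (Small M).card) ≤ ∑ A ∈ (fam M).filter (fun A => 5 * A.card < 3 * n),
        (2 * (A.card : ℝ) - n) := by
      calc -((n:ℝ) * (Small M).card) = ∑ A ∈ (fam M).filter (fun A => 5 * A.card < 3 * n), (-(n:ℝ)) := by
            rw [Finset.sum_const, nsmul_eq_mul]
            unfold Small
            ring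
        _ ≤ _ := by
            refine Finset.sum_le_sum fun A _ => ?_
            have : (0:ℝ) ≤ A.card := by positivity
            linarith
    have hc := Finset.card_filter_add_card_filter_not (s := fam M) (fun A => 5 * A.card < 3 * n)
    have h3 : ((n:ℝ) / 5) * ((fam M).card - (Small M).card) ≤
        ∑ A ∈ (fam M).filter (fun A => ¬ 5 * A.card < 3 * n), (2 * (A.card : ℝ) - n) := by
      have h4 : (((fam M).filter (fun A => ¬ 5 * A.card < 3 * n)).card : ℝ) =
          (fam M).card - (Small M).card := by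
        unfold Small
        have : (((fam M).filter (fun A => 5 * A.card < 3 * n)).card : ℝ) +
          (((fam M).filter (fun A => ¬ 5 * A.card < 3 * n)).card : ℝ) = ((fam M).card : ℝ) := by
          exact_mod_cast hc
        linarith
      rw [← h4]
      calc ((n:ℝ) / 5) * (((fam M).filter (fun A => ¬ 5 * A.card < 3 * n)).card : ℝ)
          = ∑ A ∈ (fam M).filter (fun A => ¬ 5 * A.card < 3 * n), ((n:ℝ) / 5) := by
            rw [Finset.sum_const, nsmul_eq_mul]; ring
        _ ≤ _ := by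
            refine Finset.sum_le_sum fun A hA => ?_
            have h5 := (Finset.mem_filter.mp hA).2
            have h6 : (3 * (n:ℝ)) ≤ 5 * A.card := by exact_mod_cast not_lt.mp h5
            linarith
    nlinarith
  have h2 : (6 * (Small M).card : ℝ) < (fam M).card := by exact_mod_cast h
  have h3 : (0:ℝ) < n := by exact_mod_cast hn
  have h4 : (0:ℝ) < (n:ℝ) / 5 * ((fam M).card - 6 * (Small M).card) :=
    mul_pos (by positivity) (by linarith)
  linarith

/-- `1 - p ≥ exp (-2p)` up to `3/4` -/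
lemma one_sub_ge {p : ℝ} (h0 : 0 ≤ p) (h1 : p ≤ 3 / 4) : Real.exp (-(2 * p)) ≤ 1 - p := by
  have h2 : 1 + 2 * p + 2 * p ^ 2 + 4 / 3 * p ^ 3 ≤ Real.exp (2 * p) := by
    have h3 := Real.sum_le_exp_of_nonneg (show (0:ℝ) ≤ 2 * p by linarith) 4
    have h4 : ∑ i ∈ range 4, (2 * p) ^ i / (i.factorial : ℝ) = 1 + 2 * p + 2 * p ^ 2 + 4 / 3 * p ^ 3 := by
      simp [Finset.sum_range_succ, Nat.factorial]
      ring
    linarith
  rw [Real.exp_neg, inv_le_iff_one_le_mul₀ (Real.exp_pos _)]
  have h5 : 1 ≤ (1 + 2 * p + 2 * p ^ 2 + 4 / 3 * p ^ 3) * (1 - p) := by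
    have h6 : (1 + 2 * p + 2 * p ^ 2 + 4 / 3 * p ^ 3) * (1 - p) =
      1 + p * (1 - 2 / 3 * p ^ 2 - 4 / 3 * p ^ 3) := by ring
    rw [h6]
    have h7 : 2 / 3 * p ^ 2 + 4 / 3 * p ^ 3 ≤ 1 := by nlinarith [sq_nonneg p, mul_nonneg h0 h0, pow_nonneg h0 3]
    nlinarith
  have h8 := mul_le_mul_of_nonneg_right h2 (show (0:ℝ) ≤ 1 - p by linarith)
  linarith

/-- the closure error for `k` close to `(log (mp) + 2) / (4p)` -/
lemma closure_le {p x : ℝ} {a b k : ℕ} (h0 : 0 < p) (h1 : p ≤ 3 / 4) (hab : (a:ℝ) ≤ b) (hx1 : 1 ≤ x)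
    (hxb : x ≤ b * p) (hk1 : (Real.log x + 2) / 4 / p ≤ k) (hk2 : (k:ℝ) ≤ (Real.log x + 2) / 4 / p + 1) :
    2 * (a * (1 - p * (1 - p) ^ k) ^ b) / (k + 1) ≤
      4 * (b * p) * Real.exp (-(Real.exp (-3) * Real.sqrt (b * p))) := by
  have hlog : 0 ≤ Real.log x := Real.log_nonneg hx1
  have hbp : 0 < b * p := by linarith
  have hq : Real.exp (-(Real.log x / 2) - 3) ≤ (1 - p) ^ k := by
    calc Real.exp (-(Real.log x / 2) - 3) ≤ Real.exp (k * (-(2 * p))) := by
          apply Real.exp_le_exp.mpr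
          have h2 : (k:ℝ) * p ≤ (Real.log x + 2) / 4 + p := by
            calc (k:ℝ) * p ≤ ((Real.log x + 2) / 4 / p + 1) * p := mul_le_mul_of_nonneg_right hk2 h0.le
              _ = _ := by field_simp
          nlinarith
      _ = (Real.exp (-(2 * p))) ^ k := by rw [Real.exp_nat_mul]
      _ ≤ (1 - p) ^ k := pow_le_pow_left₀ (Real.exp_pos _).le (one_sub_ge h0.le h1) _
  have hs : Real.exp (-3) * Real.sqrt (b * p) ≤ (b * p) * (1 - p) ^ k := by
    have h2 : Real.sqrt (b * p) = (b * p) * Real.exp (-(Real.log (b * p) / 2)) := by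
      have h3 : Real.exp (Real.log (b * p) / 2) = Real.sqrt (b * p) := by
        rw [Real.sqrt_eq_rpow, Real.rpow_def_of_pos hbp]
        congr 1
        ring
      rw [Real.exp_neg, h3]
      have h4 : Real.sqrt (b * p) ≠ 0 := (Real.sqrt_pos.mpr hbp).ne'
      field_simp
      rw [Real.sq_sqrt hbp.le]
    have h3 : Real.log x ≤ Real.log (b * p) := Real.log_le_log (by linarith) hxb
    calc Real.exp (-3) * Real.sqrt (b * p)
        = (b * p) * (Real.exp (-3) * Real.exp (-(Real.log (b * p) / 2))) := by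
          rw [h2]; ring
      _ ≤ (b * p) * Real.exp (-(Real.log x / 2) - 3) := by
          refine mul_le_mul_of_nonneg_left ?_ hbp.le
          rw [← Real.exp_add]
          apply Real.exp_le_exp.mpr
          linarith
      _ ≤ _ := mul_le_mul_of_nonneg_left hq hbp.le
  have hq1 : (1 - p) ^ k ≤ 1 := pow_le_one₀ (by linarith) (by linarith)
  have hq0 : 0 ≤ (1 - p) ^ k := pow_nonneg (by linarith) _
  have hb : 0 ≤ 1 - p * (1 - p) ^ k := by nlinarith
  have hexp : (1 - p * (1 - p) ^ k) ^ b ≤ Real.exp (-(Real.exp (-3) * Real.sqrt (b * p))) := by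
    calc (1 - p * (1 - p) ^ k) ^ b ≤ (Real.exp (-(p * (1 - p) ^ k))) ^ b :=
          pow_le_pow_left₀ hb (Real.one_sub_le_exp_neg _) _
      _ = Real.exp (b * (-(p * (1 - p) ^ k))) := by rw [Real.exp_nat_mul]
      _ ≤ _ := by
        apply Real.exp_le_exp.mpr
        have : (b:ℝ) * (-(p * (1 - p) ^ k)) = -((b * p) * (1 - p) ^ k) := by ring
        rw [this]
        linarith
  have hk3 : 1 / 2 / p ≤ (k:ℝ) + 1 := by
    have : (1 / 2 / p : ℝ) ≤ (Real.log x + 2) / 4 / p := by
      apply div_le_div_of_nonneg_right _ h0.le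
      linarith
    linarith
  have hk4 : (0:ℝ) < (k:ℝ) + 1 := by positivity
  have hE := Real.exp_pos (-(Real.exp (-3) * Real.sqrt (b * p)))
  set E := Real.exp (-(Real.exp (-3) * Real.sqrt (b * p))) with hEdef
  rw [div_le_iff₀ hk4]
  have ha0 : (0:ℝ) ≤ a := by positivity
  calc 2 * (a * (1 - p * (1 - p) ^ k) ^ b) ≤ 2 * (b * E) := by
        have := mul_le_mul hab hexp (pow_nonneg hb _) (by positivity)
        linarith
    _ = 4 * (b * p) * E * (1 / 2 / p) := by field_simp; ring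
    _ ≤ 4 * (b * p) * E * (k + 1) := mul_le_mul_of_nonneg_left hk3 (by positivity)

lemma tail_small {ε : ℝ} (hε : 0 < ε) :
    ∃ C : ℝ, ∀ y : ℝ, C ≤ y → 4 * y * Real.exp (-(Real.exp (-3) * Real.sqrt y)) ≤ ε := by
  have h1 := Real.tendsto_pow_mul_exp_neg_atTop_nhds_zero 2
  have h2 : Filter.Tendsto (fun y : ℝ => Real.exp (-3) * Real.sqrt y) Filter.atTop Filter.atTop :=
    Filter.Tendsto.const_mul_atTop (Real.exp_pos _) Real.tendsto_sqrt_atTop
  have h3 := (h1.comp h2).const_mul (4 * Real.exp 6)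
  rw [mul_zero] at h3
  have h4 := (h3.eventually (gt_mem_nhds hε)).and (Filter.eventually_ge_atTop (0:ℝ))
  rw [Filter.eventually_atTop] at h4
  obtain ⟨C, hC⟩ := h4
  refine ⟨C, fun y hy => ?_⟩
  obtain ⟨h5, h6⟩ := hC y hy
  simp only [Function.comp] at h5
  refine le_of_eq_of_le ?_ h5.le
  rw [mul_pow, Real.sq_sqrt h6, ← Real.exp_nat_mul]
  have h7 : Real.exp 6 * Real.exp (((2:ℕ):ℝ) * -3) = 1 := by
    rw [← Real.exp_add]; norm_num
  calc 4 * y * Real.exp (-(Real.exp (-3) * Real.sqrt y))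
      = 4 * (Real.exp 6 * Real.exp (((2:ℕ):ℝ) * -3)) * y * Real.exp (-(Real.exp (-3) * Real.sqrt y)) := by
        rw [h7]; ring
    _ = _ := by ring

/-- lower bound for binomial coefficients -/
lemma choose_ge {a k : ℕ} (hk : 2 * k ≤ a) : ((a:ℝ) / 2) ^ k ≤ (k:ℝ) ^ k * (a.choose k : ℝ) := by
  have h1 : ((a + 1 - k : ℕ) : ℝ) ^ k ≤ (k.factorial : ℝ) * (a.choose k : ℝ) := by
    have := Nat.pow_sub_le_descFactorial a k
    rw [Nat.descFactorial_eq_factorial_mul_choose] at this
    exact_mod_cast this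
  have h2 : ((k.factorial : ℕ) : ℝ) ≤ (k:ℝ) ^ k := by exact_mod_cast Nat.factorial_le_pow k
  have h3 : ((a:ℝ) / 2) ≤ ((a + 1 - k : ℕ) : ℝ) := by
    have : a ≤ 2 * (a + 1 - k) := by omega
    have : (a:ℝ) ≤ 2 * ((a + 1 - k : ℕ) : ℝ) := by exact_mod_cast this
    linarith
  calc ((a:ℝ) / 2) ^ k ≤ ((a + 1 - k : ℕ) : ℝ) ^ k := pow_le_pow_left₀ (by positivity) h3 _
    _ ≤ (k.factorial : ℝ) * (a.choose k : ℝ) := h1
    _ ≤ _ := mul_le_mul_of_nonneg_right h2 (by positivity)

/-- the ratio estimate -/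
lemma ratio_le {p x : ℝ} {a k : ℕ} (h0 : 0 < p) (h1 : p ≤ 1) (hx1 : 1 ≤ x)
    (ha : 2 * Real.exp 56 * (Real.log x + 6) ≤ a * p)
    (hk1 : (Real.log x + 2) / 4 / p ≤ k) (hk2 : (k:ℝ) ≤ (Real.log x + 2) / 4 / p + 1) :
    Real.exp ((13 * Real.log x + 2) / p) * 4 ^ k ≤ 1 / x * (a.choose k : ℝ) := by
  have hlog : 0 ≤ Real.log x := Real.log_nonneg hx1
  have he56 : (0:ℝ) < Real.exp 56 := Real.exp_pos _
  have hkp : (k:ℝ) * p ≤ (Real.log x + 6) / 4 := by
    calc (k:ℝ) * p ≤ ((Real.log x + 2) / 4 / p + 1) * p := mul_le_mul_of_nonneg_right hk2 h0.le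
      _ = (Real.log x + 2) / 4 + p := by field_simp
      _ ≤ _ := by linarith
  have hka : 8 * Real.exp 56 * (k:ℝ) ≤ a := by
    have h2 : 8 * Real.exp 56 * (k:ℝ) * p ≤ a * p := by
      calc 8 * Real.exp 56 * (k:ℝ) * p = 8 * Real.exp 56 * ((k:ℝ) * p) := by ring
        _ ≤ 8 * Real.exp 56 * ((Real.log x + 6) / 4) := mul_le_mul_of_nonneg_left hkp (by positivity)
        _ = 2 * Real.exp 56 * (Real.log x + 6) := by ring
        _ ≤ _ := ha
    exact le_of_mul_le_mul_right h2 h0
  have he1 : (1:ℝ) ≤ Real.exp 56 := by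
    have := Real.add_one_le_exp (56:ℝ)
    linarith
  have h2k : 2 * k ≤ a := by
    have h3 : (2 * (k:ℝ)) ≤ a := by
      have hk0 : (0:ℝ) ≤ k := by positivity
      nlinarith
    exact_mod_cast h3
  have hch := choose_ge h2k
  have hkpos : (0:ℝ) < k := by
    have : (0:ℝ) < (Real.log x + 2) / 4 / p := by positivity
    linarith
  -- 4^k * exp(56)^k * k^k ≤ (a/2)^k
  have h3 : (4 * Real.exp 56 * (k:ℝ)) ^ k ≤ ((a:ℝ) / 2) ^ k :=
    pow_le_pow_left₀ (by positivity) (by linarith) _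
  have h4 : (4:ℝ) ^ k * Real.exp 56 ^ k ≤ (a.choose k : ℝ) := by
    have h5 : (4 * Real.exp 56 * (k:ℝ)) ^ k = (k:ℝ) ^ k * (4 ^ k * Real.exp 56 ^ k) := by
      rw [mul_pow, mul_pow]; ring
    rw [h5] at h3
    exact le_of_mul_le_mul_left (h3.trans hch) (by positivity)
  have h5 : x * Real.exp ((13 * Real.log x + 2) / p) ≤ Real.exp 56 ^ k := by
    rw [← Real.exp_nat_mul]
    have hx : x = Real.exp (Real.log x) := (Real.exp_log (by linarith)).symm
    calc x * Real.exp ((13 * Real.log x + 2) / p)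
        = Real.exp (Real.log x + (13 * Real.log x + 2) / p) := by
          rw [Real.exp_add, ← hx]
      _ ≤ Real.exp (k * 56) := by
          apply Real.exp_le_exp.mpr
          have h6 : Real.log x ≤ Real.log x / p := by
            rw [le_div_iff₀ h0]
            nlinarith
          calc Real.log x + (13 * Real.log x + 2) / p
              ≤ Real.log x / p + (13 * Real.log x + 2) / p := by linarith
            _ = (14 * Real.log x + 2) / p := by ring
            _ ≤ 14 * (Real.log x + 2) / p := by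
                apply div_le_div_of_nonneg_right _ h0.le
                linarith
            _ = (Real.log x + 2) / 4 / p * 56 := by ring
            _ ≤ k * 56 := mul_le_mul_of_nonneg_right hk1 (by norm_num)
  rw [one_div, inv_mul_eq_div, le_div_iff₀ (by linarith)]
  calc Real.exp ((13 * Real.log x + 2) / p) * 4 ^ k * x
      = 4 ^ k * (x * Real.exp ((13 * Real.log x + 2) / p)) := by ring
    _ ≤ 4 ^ k * Real.exp 56 ^ k := mul_le_mul_of_nonneg_left h5 (by positivity)
    _ ≤ _ := h4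

/-- the core estimate -/
lemma core {p : ℝ} (h0 : 0 < p) (h1 : p < 1) {m n : ℕ} (k : ℕ) (cc : ℕ) (δ₁ δ₂ : ℝ)
    (hcc : 0 < cc)
    (hfew : Pr p (fun M : Mat m n => 2 * (4 ^ k * ((fam M).card : ℝ)) < (cc : ℝ)) ≤ δ₁)
    (hsm : Ex p (fun M : Mat m n => ((Small M).card : ℝ)) * 4 ^ k ≤ δ₂ * (cc : ℝ)) :
    Pr p (fun M : Mat m n => ¬ (6 * (Small M).card < (fam M).card)) ≤ δ₁ + 12 * δ₂ := by
  have hcc' : (0:ℝ) < cc := by exact_mod_cast hcc
  have hstep : Pr p (fun M : Mat m n => ¬ (6 * (Small M).card < (fam M).card)) ≤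
      Pr p (fun M : Mat m n => 2 * (4 ^ k * ((fam M).card : ℝ)) < (cc : ℝ) ∨
        (cc : ℝ) / (12 * 4 ^ k) ≤ ((Small M).card : ℝ)) := by
    refine Pr_mono h0.le h1.le fun M hM => ?_
    by_cases h : 2 * (4 ^ k * ((fam M).card : ℝ)) < (cc : ℝ)
    · exact Or.inl h
    · right
      push Not at h hM
      have h2 : ((fam M).card : ℝ) ≤ 6 * (Small M).card := by exact_mod_cast hM
      rw [div_le_iff₀ (by positivity)]
      have h3 : (0:ℝ) < 4 ^ k := by positivity
      nlinarith
  refine hstep.trans ((Pr_or h0.le h1.le _ _).trans (add_le_add hfew ?_))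
  have hmk := markov h0.le h1.le (fun M : Mat m n => ((Small M).card : ℝ)) (fun M => by positivity)
    ((cc : ℝ) / (12 * 4 ^ k))
  have h4 : (0:ℝ) < (cc : ℝ) / (12 * 4 ^ k) := by positivity
  have h5 : Pr p (fun M : Mat m n => (cc : ℝ) / (12 * 4 ^ k) ≤ ((Small M).card : ℝ)) ≤
      Ex p (fun M : Mat m n => ((Small M).card : ℝ)) / ((cc : ℝ) / (12 * 4 ^ k)) := by
    rw [le_div_iff₀ h4, mul_comm]
    exact hmk
  refine h5.trans ?_
  rw [div_le_iff₀ h4]
  have h6 : (0:ℝ) < 4 ^ k := by positivity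
  calc Ex p (fun M : Mat m n => ((Small M).card : ℝ))
      = (Ex p (fun M : Mat m n => ((Small M).card : ℝ)) * 4 ^ k) / 4 ^ k := by field_simp
    _ ≤ (δ₂ * (cc : ℝ)) / 4 ^ k := div_le_div_of_nonneg_right hsm h6.le
    _ = 12 * δ₂ * (cc / (12 * 4 ^ k)) := by field_simp

/-- the main range -/
theorem mid {ε : ℝ} (hε : 0 < ε) :
    ∃ C : ℝ, 1 ≤ C ∧ ∀ (m n : ℕ) (p : ℝ), 0 < p → p ≤ 3 / 4 → C ≤ m * p → C ≤ n * p →
      Real.exp 60 * Real.log (m * p) ≤ n * p →
      Pr p (fun M : Mat m n => ¬ (6 * (Small M).card < (fam M).card)) ≤ ε := by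
  obtain ⟨C1, hC1⟩ := tail_small (half_pos hε)
  set C : ℝ := max (max (Real.exp 120) C1) (24 / ε) with hC
  have hC120 : Real.exp 120 ≤ C := (le_max_left _ _).trans (le_max_left _ _)
  have hCC1 : C1 ≤ C := (le_max_right _ _).trans (le_max_left _ _)
  have hCε : 24 / ε ≤ C := le_max_right _ _
  have he4 : (16:ℝ) ≤ Real.exp 4 := by
    have h := Real.quadratic_le_exp_of_nonneg (show (0:ℝ) ≤ 4 by norm_num)
    have h' := Real.sum_le_exp_of_nonneg (show (0:ℝ) ≤ 4 by norm_num) 4
    simp [Finset.sum_range_succ, Nat.factorial] at h'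
    linarith
  have he56 : (1:ℝ) ≤ Real.exp 56 := by
    have := Real.add_one_le_exp (56:ℝ)
    linarith
  have he60 : Real.exp 60 = Real.exp 4 * Real.exp 56 := by rw [← Real.exp_add]; norm_num
  have he120 : Real.exp 120 = Real.exp 60 * Real.exp 60 := by rw [← Real.exp_add]; norm_num
  have h6016 : 16 * Real.exp 56 ≤ Real.exp 60 := by
    rw [he60]; exact mul_le_mul_of_nonneg_right he4 (by positivity)
  have h12016 : 24 * Real.exp 56 ≤ Real.exp 120 := by
    rw [he120]
    have : (16:ℝ) ≤ Real.exp 60 := by linarith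
    nlinarith
  have hC1le : (1:ℝ) ≤ C := by linarith
  have hC20 : (20:ℝ) ≤ C := by linarith
  refine ⟨C, hC1le, fun m n p h0 h1 hmp hnp hl => ?_⟩
  have hmp1 : (1:ℝ) ≤ m * p := by linarith
  have hlog : 0 ≤ Real.log (m * p) := Real.log_nonneg hmp1
  have hl8 : Real.log (m * p) ≤ n * p / 8 := by
    have : 8 * Real.log (m * p) ≤ Real.exp 60 * Real.log (m * p) :=
      mul_le_mul_of_nonneg_right (by linarith) hlog
    linarith
  have hEs := Ex_small_le h0 (by linarith) hmp1 (by linarith) hl8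
  -- the two conditions
  have hcondn : 2 * Real.exp 56 * (Real.log (m * p) + 6) ≤ n * p := by
    have h2 : 4 * Real.exp 56 * Real.log (m * p) ≤ n * p := by
      have : 4 * Real.exp 56 * Real.log (m * p) ≤ Real.exp 60 * Real.log (m * p) :=
        mul_le_mul_of_nonneg_right (by linarith) hlog
      linarith
    have h3 : 24 * Real.exp 56 ≤ n * p := by linarith
    linarith
  have hcondm : 2 * Real.exp 56 * (Real.log (m * p) + 6) ≤ m * p := by
    set y : ℝ := m * p with hy
    set r := Real.sqrt y with hr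
    have hr2 : r * r = y := Real.mul_self_sqrt (by linarith)
    have hr60 : Real.exp 60 ≤ r := by
      apply Real.le_sqrt_of_sq_le
      rw [sq, ← he120]
      linarith
    have hr1 : 1 ≤ r := by linarith
    have hlr : Real.log y ≤ 2 * r := by
      have h2 : Real.log y = 2 * Real.log r := by
        rw [← hr2, Real.log_mul (by linarith) (by linarith)]; ring
      have h3 := Real.log_le_sub_one_of_pos (show 0 < r by linarith)
      linarith
    calc 2 * Real.exp 56 * (Real.log y + 6) ≤ 2 * Real.exp 56 * (2 * r + 6 * r) := by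
          refine mul_le_mul_of_nonneg_left ?_ (by positivity)
          linarith
      _ = 16 * Real.exp 56 * r := by ring
      _ ≤ Real.exp 60 * r := mul_le_mul_of_nonneg_right h6016 (by linarith)
      _ ≤ r * r := mul_le_mul_of_nonneg_right hr60 (by linarith)
      _ = y := hr2
  set k : ℕ := ⌈(Real.log (m * p) + 2) / 4 / p⌉₊ with hk
  have hk1 : (Real.log (m * p) + 2) / 4 / p ≤ k := Nat.le_ceil _
  have hk2 : (k:ℝ) ≤ (Real.log (m * p) + 2) / 4 / p + 1 :=
    (Nat.ceil_lt_add_one (by positivity)).le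
  have hinv : 1 / (m * p) ≤ ε / 24 := by
    rw [div_le_iff₀ (by linarith)]
    have h2 : 24 / ε ≤ m * p := by linarith
    rw [div_le_iff₀ hε] at h2
    linarith
  have fin : ∀ a : ℕ, 2 * Real.exp 56 * (Real.log (m * p) + 6) ≤ a * p →
      Pr p (fun M : Mat m n => 2 * (4 ^ k * ((fam M).card : ℝ)) < (a.choose k : ℝ)) ≤ ε / 2 →
      Pr p (fun M : Mat m n => ¬ (6 * (Small M).card < (fam M).card)) ≤ ε := by
    intro a ha hfew
    have hr := ratio_le h0 (by linarith) hmp1 ha hk1 hk2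
    have hpos : 0 < a.choose k := by
      by_contra hcon
      have h2 : a.choose k = 0 := by omega
      rw [h2] at hr
      have h3 : 0 < Real.exp ((13 * Real.log (m * p) + 2) / p) * 4 ^ k := by positivity
      simp at hr
      linarith
    have h2 := core h0 (by linarith) (m := m) (n := n) k (a.choose k) (ε / 2) (1 / (m * p)) hpos hfew
      ((mul_le_mul_of_nonneg_right hEs (by positivity)).trans hr)
    linarith
  rcases le_total n m with hnm | hnm
  · refine fin n hcondn ?_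
    refine (Pr_few h0 (by linarith) k).trans ?_
    refine (closure_le h0 h1 (show (n:ℝ) ≤ m by exact_mod_cast hnm) hmp1 le_rfl hk1 hk2).trans ?_
    exact hC1 _ (hCC1.trans hmp)
  · refine fin m hcondm ?_
    refine (Pr_few' h0 (by linarith) k).trans ?_
    have hmn : (m:ℝ) ≤ n := by exact_mod_cast hnm
    refine (closure_le h0 h1 hmn hmp1 (mul_le_mul_of_nonneg_right hmn h0.le) hk1 hk2).trans ?_
    exact hC1 _ (hCC1.trans hnp)

end Pool.Agent.Q115.RB
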