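import Pool.Agent.Q115.RBSparse

set_option autoImplicit false

/-!
# Random bipartite graphs of arbitrary density: Poonen's strict form
-/

namespace Pool.Agent.Q115.RB

open Finset Pool.Agent.H161R2.UC
open scoped Classical

/-- the universe of the family of unions -/
noncomputable def uni {m n : ℕ} (M : Mat m n) : Finset (Fin n) := (fam M).biUnion id

/-- the conclusion of Poonen's conjecture for the family `fam M` -/
def Poonen {m n : ℕ} (M : Mat m n) : Prop :=
  (∀ x ∈ uni M, ∀ y ∈ uni M, x ≠ y → ∃ A ∈ fam M, (x ∈ A ∧ y ∉ A) ∨ (y ∈ A ∧ x ∉ A)) →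
  fam M ≠ (uni M).powerset → Strict M

lemma mem_uni {m n : ℕ} (M : Mat m n) (x : Fin n) : x ∈ uni M ↔ ∃ i, M i x = true := by
  unfold uni
  rw [Finset.mem_biUnion]
  constructor
  · rintro ⟨A, hA, hx⟩
    rw [mem_fam] at hA
    obtain ⟨I, rfl⟩ := hA
    simp only [id, mem_unionOf] at hx
    obtain ⟨i, _, hi⟩ := hx
    exact ⟨i, hi⟩
  · rintro ⟨i, hi⟩
    refine ⟨unionOf M {i}, (mem_fam _ _).mpr ⟨_, rfl⟩, ?_⟩
    simp only [id, mem_unionOf]
    exact ⟨i, Finset.mem_singleton_self _, hi⟩

lemma sub_uni {m n : ℕ} {M : Mat m n} {A : Finset (Fin n)} (hA : A ∈ fam M) : A ⊆ uni M := by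
  intro x hx
  unfold uni
  rw [Finset.mem_biUnion]
  exact ⟨A, hA, hx⟩

lemma poonen_of_good {m n : ℕ} (hn : 0 < n) {M : Mat m n} (h : Good M) : Poonen M := by
  intro hs hne
  rcases h with ⟨x, hx⟩ | h
  · -- an element common to all rows
    have hmem : ∀ A ∈ fam M, A ≠ ∅ → x ∈ A := by
      intro A hA hA0
      rw [mem_fam] at hA
      obtain ⟨I, rfl⟩ := hA
      obtain ⟨y, hy⟩ := Finset.nonempty_iff_ne_empty.mpr hA0
      rw [mem_unionOf] at hy ⊢
      obtain ⟨i, hi, _⟩ := hy
      exact ⟨i, hi, hx i⟩
    have h3 : 3 ≤ (fam M).card := by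
      by_cases hy : ∃ y ∈ uni M, y ≠ x
      · obtain ⟨y, hyU, hyx⟩ := hy
        have hxU : x ∈ uni M := by
          rw [mem_uni] at hyU ⊢
          obtain ⟨i, _⟩ := hyU
          exact ⟨i, hx i⟩
        obtain ⟨A, hA, hsep⟩ := hs x hxU y hyU hyx.symm
        have hA0 : A ≠ ∅ := by
          rintro rfl
          simp at hsep
        have hxA := hmem A hA hA0
        have hyA : y ∉ A := by
          rcases hsep with h | h
          · exact h.2
          · exact absurd hxA h.2
        obtain ⟨B, hB, hyB⟩ : ∃ B ∈ fam M, y ∈ B := by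
          unfold uni at hyU
          rw [Finset.mem_biUnion] at hyU
          exact hyU
        have hcard : ({∅, A, B} : Finset (Finset (Fin n))).card = 3 := by
          rw [Finset.card_insert_of_notMem, Finset.card_pair]
          · intro h; rw [h] at hyA; exact hyA hyB
          · rw [Finset.mem_insert, Finset.mem_singleton]
            rintro (h | h)
            · exact hA0 h.symm
            · rw [← h] at hyB; simp at hyB
        rw [← hcard]
        refine Finset.card_le_card ?_
        intro C hC
        rw [Finset.mem_insert, Finset.mem_insert, Finset.mem_singleton] at hC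
        rcases hC with rfl | rfl | rfl
        · exact empty_mem_fam M
        · exact hA
        · exact hB
      · push Not at hy
        exfalso
        apply hne
        ext S
        rw [Finset.mem_powerset]
        constructor
        · exact fun hS => sub_uni hS
        · intro hS
          rcases Finset.eq_empty_or_nonempty S with rfl | ⟨z, hz⟩
          · exact empty_mem_fam M
          · have hzx := hy z (hS hz)
            subst hzx
            have hzU := hS hz
            unfold uni at hzU
            rw [Finset.mem_biUnion] at hzU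
            obtain ⟨A, hA, hzA⟩ := hzU
            have : S = A := by
              ext w
              constructor
              · intro hw
                rw [hy w (hS hw)]; exact hzA
              · intro hw
                rw [hy w (sub_uni hA hw)]; exact hz
            rw [this]; exact hA
    refine ⟨x, ?_⟩
    have h1 : (fam M).filter (fun A => ¬ x ∈ A) ⊆ {∅} := by
      intro A hA
      rw [Finset.mem_filter] at hA
      rw [Finset.mem_singleton]
      by_contra h0
      exact hA.2 (hmem A hA.1 h0)
    have h2 := Finset.card_le_card h1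
    rw [Finset.card_singleton] at h2
    have h4 := Finset.card_filter_add_card_filter_not (s := fam M) (fun A => x ∈ A)
    omega
  · exact strict_of_W M (W_pos_of_small hn M h)

/-- two equal columns with exactly one entry -/
def Twins {m n : ℕ} (N : Mat n m) : Prop := ∃ x y, x ≠ y ∧ N x = N y ∧ Single (N x)

lemma poonen_of_twins {m n : ℕ} {M : Mat m n} (h : Twins (tr M)) : Poonen M := by
  obtain ⟨x, y, hxy, he, i, _, hi⟩ := h
  intro hs
  exfalso
  have hix : M i x = true := hi i (Finset.mem_singleton_self _)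
  have hiy : M i y = true := by
    have := congrFun he i
    simp only [tr] at this
    rw [← this]; exact hix
  obtain ⟨A, hA, hsep⟩ := hs x ((mem_uni M x).mpr ⟨i, hix⟩) y ((mem_uni M y).mpr ⟨i, hiy⟩) hxy
  have hiff : x ∈ A ↔ y ∈ A := by
    rw [mem_fam] at hA
    obtain ⟨I, rfl⟩ := hA
    rw [mem_unionOf, mem_unionOf]
    have : ∀ j, M j x = M j y := fun j => congrFun he j
    simp_rw [this]
  rcases hsep with h | h
  · exact h.2 (hiff.mp h.1)
  · exact h.2 (hiff.mpr h.1)

lemma poonen_of_le_one {m n : ℕ} {M : Mat m n}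
    (h : ∀ i x y, M i x = true → M i y = true → x = y) : Poonen M := by
  intro _ hne
  exfalso
  apply hne
  ext S
  rw [Finset.mem_powerset]
  constructor
  · exact fun hS => sub_uni hS
  · intro hS
    apply mem_fam_of
    intro x hx
    obtain ⟨i, hi⟩ := (mem_uni M x).mp (hS hx)
    exact ⟨i, hi, fun y hy => by rw [h i y x hy hi]; exact hx⟩

/-! ### probability of twins -/

/-- the row is the unit vector `i` -/
def IsUnit' {m : ℕ} (r : Fin m → Bool) (i : Fin m) : Prop :=
  (∀ y ∈ ({i} : Finset (Fin m))ᶜ, r y = false) ∧ (∀ y ∈ ({i} : Finset (Fin m)), r y = true)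

lemma isUnit'_unique {m : ℕ} {r : Fin m → Bool} {i j : Fin m} (hi : IsUnit' r i) (hj : IsUnit' r j) :
    i = j := by
  by_contra hne
  have h1 := hi.2 i (Finset.mem_singleton_self _)
  rw [hj.1 i (by simp [hne])] at h1
  exact Bool.noConfusion h1

lemma isUnit'_ext {m : ℕ} {r s : Fin m → Bool} {i : Fin m} (hr : IsUnit' r i) (hs : IsUnit' s i) :
    r = s := by
  funext j
  by_cases hj : j = i
  · rw [hj, hr.2 i (Finset.mem_singleton_self _), hs.2 i (Finset.mem_singleton_self _)]
  · rw [hr.1 j (by simp [hj]), hs.1 j (by simp [hj])]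

/-- units occurring in the rows of `A` -/
noncomputable def units {m n : ℕ} (N : Mat n m) (A : Finset (Fin n)) : Finset (Fin m) :=
  univ.filter fun i => ∃ x ∈ A, IsUnit' (N x) i

/-- rows of `A` which are units -/
noncomputable def singles {m n : ℕ} (N : Mat n m) (A : Finset (Fin n)) : Finset (Fin n) :=
  A.filter fun x => Single (N x)

lemma mem_singles {m n : ℕ} (N : Mat n m) (A : Finset (Fin n)) (x : Fin n) :
    x ∈ singles N A ↔ x ∈ A ∧ Single (N x) := by
  unfold singles
  rw [Finset.mem_filter]

lemma singles_le_units {m n : ℕ} (N : Mat n m) (A : Finset (Fin n)) (h : ¬ Twins N) :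
    (singles N A).card ≤ (units N A).card := by
  have hex : ∀ x ∈ singles N A, ∃ i, IsUnit' (N x) i := by
    intro x hx
    obtain ⟨i, hi⟩ := (Finset.mem_filter.mp hx).2
    exact ⟨i, hi⟩
  rcases Nat.eq_zero_or_pos m with hm | hm
  · have : singles N A = ∅ := by
      rw [Finset.eq_empty_iff_forall_notMem]
      intro x hx
      obtain ⟨i, _⟩ := hex x hx
      subst hm
      exact i.elim0
    rw [this]; simp
  let f : Fin n → Fin m := fun x => if h : ∃ i, IsUnit' (N x) i then h.choose else ⟨0, hm⟩
  have hf : ∀ x ∈ singles N A, IsUnit' (N x) (f x) := by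
    intro x hx
    have h1 := hex x hx
    show IsUnit' (N x) (if h : ∃ i, IsUnit' (N x) i then h.choose else ⟨0, hm⟩)
    rw [dif_pos h1]
    exact h1.choose_spec
  refine Finset.card_le_card_of_injOn f ?_ ?_
  · intro x hx
    unfold units
    rw [Finset.mem_coe, Finset.mem_filter]
    exact ⟨Finset.mem_univ _, x, (Finset.mem_filter.mp hx).1, hf x hx⟩
  · intro x hx y hy hxy
    by_contra hne
    apply h
    refine ⟨x, y, hne, ?_, (Finset.mem_filter.mp hx).2⟩
    have h1 := hf x hx
    have h2 := hf y hy
    rw [← hxy] at h2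
    exact isUnit'_ext h1 h2

lemma Ev_units (p : ℝ) {m : ℕ} (I : Finset (Fin m)) :
    Ev p (fun r : Fin m → Bool => ind (∀ i ∈ I, ¬ IsUnit' r i)) =
      1 - I.card * ((1 - p) ^ (m - 1) * p) := by
  have e : ∀ r : Fin m → Bool, ind (∀ i ∈ I, ¬ IsUnit' r i) = 1 - ∑ i ∈ I, ind (IsUnit' r i) := by
    intro r
    by_cases h : ∀ i ∈ I, ¬ IsUnit' r i
    · rw [ind_pos h, Finset.sum_eq_zero (fun i hi => ind_neg (h i hi))]; ring
    · rw [ind_neg h]
      push Not at h
      obtain ⟨i, hi, hu⟩ := h
      rw [Finset.sum_eq_single i, ind_pos hu]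
      · ring
      · intro j _ hj
        exact ind_neg fun h' => hj (isUnit'_unique h' hu)
      · intro h'; exact absurd hi h'
  simp_rw [e]
  rw [Ev_sub, Ev_one]
  have h2 : Ev p (fun r : Fin m → Bool => ∑ i ∈ I, ind (IsUnit' r i)) =
      ∑ i ∈ I, Ev p (fun r : Fin m → Bool => ind (IsUnit' r i)) := by
    unfold Ev
    rw [Finset.sum_comm]
    refine Finset.sum_congr rfl fun r _ => ?_
    rw [Finset.mul_sum]
  rw [h2]
  have h3 : ∀ i ∈ I, Ev p (fun r : Fin m → Bool => ind (IsUnit' r i)) = (1 - p) ^ (m - 1) * p := by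
    intro i _
    have := Ev_cyl p ({i} : Finset (Fin m))ᶜ {i}
      (Finset.disjoint_left.mpr fun a ha hb => (Finset.mem_compl.mp ha) hb)
    rw [Finset.card_compl, Fintype.card_fin, Finset.card_singleton, pow_one] at this
    exact this
  rw [Finset.sum_congr rfl h3, Finset.sum_const, nsmul_eq_mul]

/-- few unit rows are unlikely -/
lemma Ex_few_singles {p : ℝ} (h0 : 0 ≤ p) (h1 : p ≤ 1) {m n : ℕ} (A : Finset (Fin n)) (h : ℕ) :
    Ex p (fun N : Mat n m => ind ((singles N A).card < h)) ≤
      2 ^ h * (1 - m * ((1 - p) ^ (m - 1) * p) / 2) ^ A.card := by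
  have hpt : ∀ N : Mat n m, ind ((singles N A).card < h) ≤
      2 ^ h * ∏ x : Fin n, (if x ∈ A then (1 - ind (Single (N x)) / 2) else 1) := by
    intro N
    have e : ∏ x : Fin n, (if x ∈ A then (1 - ind (Single (N x)) / 2) else 1) =
        (1 / 2 : ℝ) ^ (singles N A).card := by
      have : ∀ x : Fin n, (if x ∈ A then (1 - ind (Single (N x)) / 2) else 1) =
          if x ∈ singles N A then (1 / 2 : ℝ) else 1 := by
        intro x
        by_cases hx : x ∈ A
        · by_cases hs : Single (N x)
          · rw [if_pos hx, if_pos ((mem_singles N A x).mpr ⟨hx, hs⟩), ind_pos hs]; norm_num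
          · rw [if_pos hx, if_neg (fun h' => hs ((mem_singles N A x).mp h').2), ind_neg hs]; norm_num
        · rw [if_neg hx, if_neg (fun h' => hx ((mem_singles N A x).mp h').1)]
      rw [Finset.prod_congr rfl (fun x _ => this x), Finset.prod_ite_mem]
      simp
    rw [e]
    by_cases hc : (singles N A).card < h
    · rw [ind_pos hc]
      calc (1:ℝ) = 2 ^ h * (1 / 2) ^ h := by rw [← mul_pow]; norm_num
        _ ≤ _ := mul_le_mul_of_nonneg_left
          (pow_le_pow_of_le_one (by norm_num) (by norm_num) hc.le) (by positivity)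
    · rw [ind_neg hc]; positivity
  refine (Ex_mono h0 h1 hpt).trans (le_of_eq ?_)
  have hr := Ex_rows p (m := n) (n := m) (fun x r => if x ∈ A then (1 - ind (Single r) / 2) else 1)
  have e3 : Ex p (fun N : Mat n m => 2 ^ h * ∏ x : Fin n, (if x ∈ A then (1 - ind (Single (N x)) / 2) else 1)) =
      2 ^ h * Ex p (fun N : Mat n m => ∏ x : Fin n, (if x ∈ A then (1 - ind (Single (N x)) / 2) else 1)) := by
    unfold Ex
    rw [Finset.mul_sum]
    refine Finset.sum_congr rfl fun N _ => by ring
  rw [e3, hr]
  congr 1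
  have e4 : ∀ x : Fin n, Ev p (fun r : Fin m → Bool => if x ∈ A then (1 - ind (Single r) / 2) else 1) =
      if x ∈ A then (1 - m * ((1 - p) ^ (m - 1) * p) / 2) else 1 := by
    intro x
    by_cases hx : x ∈ A
    · simp only [if_pos hx]
      have e5 : (fun r : Fin m → Bool => 1 - ind (Single r) / 2) =
          fun r : Fin m → Bool => 1 - (1 / 2) * ind (Single r) := by
        funext r; ring
      rw [e5, Ev_sub, Ev_one, Ev_const_mul, Ev_single]
      ring
    · simp only [if_neg hx]
      exact Ev_one p
  rw [Finset.prod_congr rfl (fun x _ => e4 x), Finset.prod_ite_mem]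
  simp

/-- no twins are unlikely -/
lemma Pr_no_twins {p : ℝ} (h0 : 0 ≤ p) (h1 : p ≤ 1) {m n : ℕ} (A : Finset (Fin n)) (h : ℕ)
    (hh : (h : ℝ) * ((1 - p) ^ (m - 1) * p) ≤ 1) :
    Pr p (fun N : Mat n m => ¬ Twins N) ≤
      2 ^ h * (1 - m * ((1 - p) ^ (m - 1) * p) / 2) ^ A.card +
        (1 - h * ((1 - p) ^ (m - 1) * p)) ^ Aᶜ.card := by
  rw [Pr_eq_Ex, Ex_mix p A]
  set a : ℝ := (1 - p) ^ (m - 1) * p with ha
  have ha0 : 0 ≤ a := mul_nonneg (pow_nonneg (by linarith) _) h0
  have hin : ∀ N : Mat n m, Ex p (fun N' : Mat n m => ind (¬ Twins (mix A N N'))) ≤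
      ind ((singles N A).card < h) + (1 - h * a) ^ Aᶜ.card := by
    intro N
    by_cases hJ : (singles N A).card < h
    · rw [ind_pos hJ]
      have h2 : Ex p (fun N' : Mat n m => ind (¬ Twins (mix A N N'))) ≤ Ex p (fun _ : Mat n m => 1) := by
        refine Ex_mono h0 h1 fun N' => ?_
        by_cases h' : ¬ Twins (mix A N N')
        · rw [ind_pos h']
        · rw [ind_neg h']; norm_num
      have h3 : Ex p (fun _ : Mat n m => (1:ℝ)) = 1 := by
        unfold Ex
        simp only [mul_one]
        exact sum_wt p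
      have h4 : 0 ≤ (1 - h * a) ^ Aᶜ.card := pow_nonneg (by linarith) _
      linarith
    · rw [ind_neg hJ, zero_add]
      push Not at hJ
      -- pointwise bound by a product over the rows outside A
      have hpt : ∀ N' : Mat n m, ind (¬ Twins (mix A N N')) ≤
          ind (h ≤ (units N A).card) * ∏ y : Fin n, (if y ∈ Aᶜ then ind (∀ i ∈ units N A, ¬ IsUnit' (N' y) i) else 1) := by
        intro N'
        by_cases ht : Twins (mix A N N')
        · rw [ind_neg (not_not.mpr ht)]
          refine mul_nonneg (ind_nonneg _) (Finset.prod_nonneg fun y _ => ?_)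
          split_ifs
          · exact ind_nonneg _
          · norm_num
        · rw [ind_pos ht]
          have hs : singles (mix A N N') A = singles N A := by
            unfold singles
            refine Finset.filter_congr fun x hx => ?_
            unfold mix
            rw [if_pos hx]
          have hu : units (mix A N N') A = units N A := by
            unfold units
            ext i
            simp only [Finset.mem_filter, Finset.mem_univ, true_and]
            constructor
            · rintro ⟨x, hx, hi⟩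
              unfold mix at hi
              rw [if_pos hx] at hi
              exact ⟨x, hx, hi⟩
            · rintro ⟨x, hx, hi⟩
              refine ⟨x, hx, ?_⟩
              unfold mix
              rw [if_pos hx]
              exact hi
          have hc := singles_le_units (mix A N N') A ht
          rw [hs, hu] at hc
          rw [ind_pos (show h ≤ (units N A).card by omega), one_mul]
          refine le_of_eq (Finset.prod_eq_one fun y _ => ?_).symm
          split_ifs with hy
          · apply ind_pos
            intro i hi hiu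
            apply ht
            unfold units at hi
            rw [Finset.mem_filter] at hi
            obtain ⟨_, x, hx, hix⟩ := hi
            have hyA : y ∉ A := Finset.mem_compl.mp hy
            refine ⟨x, y, ?_, ?_, ?_⟩
            · rintro rfl; exact hyA hx
            · unfold mix
              rw [if_pos hx, if_neg hyA]
              exact isUnit'_ext hix hiu
            · unfold mix
              rw [if_pos hx]
              exact ⟨i, hix⟩
          · rfl
      refine (Ex_mono h0 h1 hpt).trans ?_
      by_cases hU : h ≤ (units N A).card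
      · rw [ind_pos hU]
        simp only [one_mul]
        have hr := Ex_rows p (m := n) (n := m) (fun y r => if y ∈ Aᶜ then ind (∀ i ∈ units N A, ¬ IsUnit' r i) else 1)
        rw [hr]
        have e4 : ∀ y : Fin n, Ev p (fun r : Fin m → Bool => if y ∈ Aᶜ then ind (∀ i ∈ units N A, ¬ IsUnit' r i) else 1) =
            if y ∈ Aᶜ then (1 - (units N A).card * a) else 1 := by
          intro y
          by_cases hy : y ∈ Aᶜ
          · simp only [if_pos hy]
            exact Ev_units p _
          · simp only [if_neg hy]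
            exact Ev_one p
        rw [Finset.prod_congr rfl (fun y _ => e4 y), Finset.prod_ite_mem]
        simp only [Finset.univ_inter, Finset.prod_const]
        have h5 : 0 ≤ 1 - (units N A).card * a := by
          rw [ha, ← Ev_units p (units N A)]
          exact Ev_nonneg h0 h1 fun r => ind_nonneg _
        refine pow_le_pow_left₀ h5 ?_ _
        have h6 : (h:ℝ) ≤ (units N A).card := by exact_mod_cast hU
        have := mul_le_mul_of_nonneg_right h6 ha0
        linarith
      · rw [ind_neg hU]
        simp only [zero_mul]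
        have : Ex p (fun _ : Mat n m => (0:ℝ)) = 0 := by simp [Ex]
        rw [this]
        exact pow_nonneg (by linarith) _
  have h2 := Ex_mono h0 h1 hin
  refine h2.trans ?_
  have e5 : Ex p (fun N : Mat n m => ind ((singles N A).card < h) + (1 - h * a) ^ Aᶜ.card) =
      Ex p (fun N : Mat n m => ind ((singles N A).card < h)) + (1 - h * a) ^ Aᶜ.card := by
    unfold Ex
    have : ∀ N : Mat n m, wt p N * (ind ((singles N A).card < h) + (1 - h * a) ^ Aᶜ.card) =
        wt p N * ind ((singles N A).card < h) + wt p N * (1 - h * a) ^ Aᶜ.card := fun N => by ring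
    simp_rw [this]
    rw [Finset.sum_add_distrib, ← Finset.sum_mul, sum_wt, one_mul]
  rw [e5]
  have := Ex_few_singles h0 h1 (m := m) A h
  linarith

/-- a row with two elements one of which lies in another row -/
lemma Pr_cherry {p : ℝ} (h0 : 0 ≤ p) (h1 : p ≤ 1) {m n : ℕ} :
    Pr p (fun M : Mat m n => ∃ z ∈ (univ.filter (fun z : (Fin m × Fin m) × (Fin n × Fin n) =>
        z.1.1 ≠ z.1.2 ∧ z.2.1 ≠ z.2.2)),
      (M z.1.1 z.2.1 = true ∧ M z.1.1 z.2.2 = true) ∧ M z.1.2 z.2.1 = true) ≤
      (m * m) * (n * n) * p ^ 3 := by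
  refine (Pr_exists h0 h1 _ _).trans ?_
  have key : ∀ z ∈ (univ.filter (fun z : (Fin m × Fin m) × (Fin n × Fin n) =>
        z.1.1 ≠ z.1.2 ∧ z.2.1 ≠ z.2.2)),
      Pr p (fun M : Mat m n => (M z.1.1 z.2.1 = true ∧ M z.1.1 z.2.2 = true) ∧ M z.1.2 z.2.1 = true) ≤ p ^ 3 := by
    intro z hz
    obtain ⟨hij, hxy⟩ := (Finset.mem_filter.mp hz).2
    rw [Pr_eq_Ex]
    set i := z.1.1
    set j := z.1.2
    set x := z.2.1
    set y := z.2.2
    have hr := Ex_rows p (m := m) (n := n) (fun k r => if k = i then
      ind ((∀ t ∈ (∅ : Finset (Fin n)), r t = false) ∧ (∀ t ∈ ({x, y} : Finset (Fin n)), r t = true))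
      else if k = j then
      ind ((∀ t ∈ (∅ : Finset (Fin n)), r t = false) ∧ (∀ t ∈ ({x} : Finset (Fin n)), r t = true)) else 1)
    have hpt : ∀ M : Mat m n, ind ((M i x = true ∧ M i y = true) ∧ M j x = true) ≤
        ∏ k : Fin m, (if k = i then
      ind ((∀ t ∈ (∅ : Finset (Fin n)), M k t = false) ∧ (∀ t ∈ ({x, y} : Finset (Fin n)), M k t = true))
      else if k = j then
      ind ((∀ t ∈ (∅ : Finset (Fin n)), M k t = false) ∧ (∀ t ∈ ({x} : Finset (Fin n)), M k t = true)) else 1) := by
      intro M
      by_cases hM : (M i x = true ∧ M i y = true) ∧ M j x = true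
      · rw [ind_pos hM]
        refine le_of_eq (Finset.prod_eq_one fun k _ => ?_).symm
        by_cases hk : k = i
        · rw [if_pos hk, hk]
          apply ind_pos
          refine ⟨by simp, fun t ht => ?_⟩
          rw [Finset.mem_insert, Finset.mem_singleton] at ht
          rcases ht with rfl | rfl
          · exact hM.1.1
          · exact hM.1.2
        · rw [if_neg hk]
          by_cases hk2 : k = j
          · rw [if_pos hk2, hk2]
            apply ind_pos
            refine ⟨by simp, fun t ht => ?_⟩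
            rw [Finset.mem_singleton] at ht
            rw [ht]; exact hM.2
          · rw [if_neg hk2]
      · rw [ind_neg hM]
        refine Finset.prod_nonneg fun k _ => ?_
        split_ifs
        · exact ind_nonneg _
        · exact ind_nonneg _
        · norm_num
    refine (Ex_mono h0 h1 hpt).trans ?_
    rw [hr]
    have e : ∀ k : Fin m, Ev p (fun r : Fin n → Bool => if k = i then
      ind ((∀ t ∈ (∅ : Finset (Fin n)), r t = false) ∧ (∀ t ∈ ({x, y} : Finset (Fin n)), r t = true))
      else if k = j then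
      ind ((∀ t ∈ (∅ : Finset (Fin n)), r t = false) ∧ (∀ t ∈ ({x} : Finset (Fin n)), r t = true)) else 1) =
        (if k = i then p ^ 2 else 1) * (if k = j then p else 1) := by
      intro k
      by_cases hk : k = i
      · have hkj : ¬ k = j := by rw [hk]; exact hij
        simp only [if_pos hk, if_neg hkj, mul_one]
        rw [Ev_cyl p _ _ (by simp), Finset.card_pair hxy]
        simp
      · by_cases hk2 : k = j
        · simp only [if_neg hk, if_pos hk2, one_mul]
          rw [Ev_cyl p _ _ (by simp)]
          simp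
        · simp only [if_neg hk, if_neg hk2, mul_one]
          exact Ev_one p
    rw [Finset.prod_congr rfl (fun k _ => e k), Finset.prod_mul_distrib,
      Finset.prod_ite_eq' univ i (fun _ => p ^ 2), Finset.prod_ite_eq' univ j (fun _ => p)]
    simp only [Finset.mem_univ, if_true]
    exact le_of_eq (by ring)
  calc _ ≤ ∑ z ∈ (univ.filter (fun z : (Fin m × Fin m) × (Fin n × Fin n) =>
        z.1.1 ≠ z.1.2 ∧ z.2.1 ≠ z.2.2)), p ^ 3 := Finset.sum_le_sum key
    _ = ((univ.filter (fun z : (Fin m × Fin m) × (Fin n × Fin n) =>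
        z.1.1 ≠ z.1.2 ∧ z.2.1 ≠ z.2.2)).card : ℝ) * p ^ 3 := by
        rw [Finset.sum_const, nsmul_eq_mul]
    _ ≤ _ := by
        refine mul_le_mul_of_nonneg_right ?_ (by positivity)
        have : (univ.filter (fun z : (Fin m × Fin m) × (Fin n × Fin n) =>
        z.1.1 ≠ z.1.2 ∧ z.2.1 ≠ z.2.2)).card ≤ (m * m) * (n * n) := by
          refine (Finset.card_filter_le _ _).trans ?_
          simp
        exact_mod_cast this

lemma poonen_of_no_cherry {m n : ℕ} {M : Mat m n}
    (h : ¬ ∃ z ∈ (univ.filter (fun z : (Fin m × Fin m) × (Fin n × Fin n) =>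
        z.1.1 ≠ z.1.2 ∧ z.2.1 ≠ z.2.2)),
      (M z.1.1 z.2.1 = true ∧ M z.1.1 z.2.2 = true) ∧ M z.1.2 z.2.1 = true) : Poonen M := by
  push Not at h
  by_cases h1 : ∀ i x y, M i x = true → M i y = true → x = y
  · exact poonen_of_le_one h1
  · push Not at h1
    obtain ⟨i, x, y, hx, hy, hxy⟩ := h1
    apply poonen_of_twins
    have key : ∀ u v, u ≠ v → M i u = true → M i v = true → ∀ j, j ≠ i → M j u = false := by
      intro u v huv hu hv j hj
      have := h ((i, j), (u, v)) (by simp [huv, hj.symm]) ⟨hu, hv⟩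
      simpa using this
    refine ⟨x, y, hxy, ?_, i, ?_, ?_⟩
    · funext j
      show M j x = M j y
      by_cases hj : j = i
      · rw [hj, hx, hy]
      · rw [key x y hxy hx hy j hj, key y x (Ne.symm hxy) hy hx j hj]
    · intro j hj
      exact key x y hxy hx hy j (by simpa using hj)
    · intro j hj
      rw [Finset.mem_singleton] at hj
      rw [hj]; exact hx

theorem poonen_sparse {ε : ℝ} (hε : 0 < ε) {D R : ℝ} (hD : 0 < D) (hR : 1 ≤ R) :
    ∃ K : ℝ, ∀ (m n : ℕ) (p : ℝ), 0 ≤ p → p ≤ 1 → K ≤ m → K ≤ n → (m:ℝ) ≤ R * n → n * p ≤ D →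
      Pr p (fun M : Mat m n => ¬ Poonen M) ≤ ε := by
  set κ : ℝ := Real.exp (-(2 * (R * D))) with hκ
  have hκ0 : 0 < κ := Real.exp_pos _
  have hR0 : 0 < R := by linarith
  obtain ⟨L, hL0, hL⟩ : ∃ L : ℝ, 0 < L ∧ Real.exp (-(κ ^ 2 * L / (96 * (D + 1)))) ≤ ε / 2 := by
    have h := (Real.tendsto_exp_neg_atTop_nhds_zero.comp
      (Filter.Tendsto.const_mul_atTop (show 0 < κ ^ 2 / (96 * (D + 1)) by positivity) Filter.tendsto_id))
    have ev := (h.eventually (gt_mem_nhds (half_pos hε))).and (Filter.eventually_gt_atTop (0:ℝ))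
    obtain ⟨L, hL⟩ := ev.exists
    refine ⟨L, hL.2, ?_⟩
    have h2 := hL.1.le
    simp only [Function.comp, id] at h2
    have e : κ ^ 2 * L / (96 * (D + 1)) = κ ^ 2 / (96 * (D + 1)) * L := by ring
    rw [e]
    exact h2
  obtain ⟨V, hV0, hV1, hV⟩ : ∃ V : ℝ, 0 < V ∧ 24 * (D + 1) ≤ V ∧ ∀ y, V ≤ y → Real.exp (-(y / 16)) ≤ ε / 2 := by
    have h := (Real.tendsto_exp_neg_atTop_nhds_zero.comp
      (Filter.tendsto_id.atTop_div_const (show (0:ℝ) < 16 by norm_num))).eventually
      (gt_mem_nhds (half_pos hε))
    rw [Filter.eventually_atTop] at h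
    obtain ⟨a, ha⟩ := h
    refine ⟨max a (24 * (D + 1)), lt_of_lt_of_le (by positivity) (le_max_right _ _), le_max_right _ _,
      fun y hy => ?_⟩
    exact (ha y ((le_max_left _ _).trans hy)).le
  refine ⟨max (max (2 * D) 2) (max (V ^ 2 / (κ ^ 2 * L)) (L ^ 3 * R ^ 2 / ε ^ 2)),
    fun m n p h0 h1 hm hn hmn hnp => ?_⟩
  have hn2D : 2 * D ≤ n := (le_max_left _ _).trans ((le_max_left _ _).trans hn)
  have hn2 : (2:ℝ) ≤ n := (le_max_right _ _).trans ((le_max_left _ _).trans hn)
  have hm2 : (2:ℝ) ≤ m := (le_max_right _ _).trans ((le_max_left _ _).trans hm)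
  have hmV : V ^ 2 / (κ ^ 2 * L) ≤ m := (le_max_left _ _).trans ((le_max_right _ _).trans hm)
  have hmL : L ^ 3 * R ^ 2 / ε ^ 2 ≤ m := (le_max_right _ _).trans ((le_max_right _ _).trans hm)
  have hm0 : (0:ℝ) < m := by linarith
  have hn0 : (0:ℝ) < n := by linarith
  have hm1' : 1 ≤ m := by
    have : (1:ℝ) ≤ m := by linarith
    exact_mod_cast this
  have hp12 : p ≤ 1 / 2 := by
    by_contra hcon
    push Not at hcon
    nlinarith
  have hmp : m * p ≤ R * D := by
    calc (m:ℝ) * p ≤ (R * n) * p := mul_le_mul_of_nonneg_right hmn h0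
      _ = R * (n * p) := by ring
      _ ≤ R * D := mul_le_mul_of_nonneg_left hnp hR0.le
  by_cases hcase : L ≤ m * (n * p) ^ 2
  · -- twins
    set a : ℝ := (1 - p) ^ (m - 1) * p with ha
    have hq : κ ≤ (1 - p) ^ (m - 1) := by
      calc κ ≤ Real.exp (((m - 1 : ℕ) : ℝ) * (-(2 * p))) := by
            apply Real.exp_le_exp.mpr
            rw [Nat.cast_sub hm1']
            push_cast
            nlinarith
        _ = (Real.exp (-(2 * p))) ^ (m - 1) := by rw [Real.exp_nat_mul]
        _ ≤ _ := pow_le_pow_left₀ (Real.exp_pos _).le (one_sub_ge h0 (by linarith)) _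
    have hap : κ * p ≤ a := mul_le_mul_of_nonneg_right hq h0
    have hap2 : a ≤ p := by
      have : (1 - p) ^ (m - 1) ≤ 1 := pow_le_one₀ (by linarith) (by linarith)
      nlinarith
    have ha0 : 0 ≤ a := by nlinarith
    have hma : m * a ≤ 1 := by
      have h2 := Ev_mono h0 h1 (k := m) (f := fun r => ind (Single r)) (g := fun _ => 1) (fun r => by
        by_cases h : Single r
        · rw [ind_pos h]
        · rw [ind_neg h]; norm_num)
      rw [Ev_single, Ev_one] at h2
      exact h2
    set ν : ℝ := n * m * a with hν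
    have hν1 : κ * (m * (n * p)) ≤ ν := by
      calc κ * (m * (n * p)) = (n * m) * (κ * p) := by ring
        _ ≤ (n * m) * a := mul_le_mul_of_nonneg_left hap (by positivity)
    have hν2 : κ ^ 2 * L * m ≤ ν ^ 2 := by
      calc κ ^ 2 * L * m ≤ κ ^ 2 * (m * (n * p) ^ 2) * m := by
            refine mul_le_mul_of_nonneg_right ?_ hm0.le
            exact mul_le_mul_of_nonneg_left hcase (by positivity)
        _ = (κ * (m * (n * p))) ^ 2 := by ring
        _ ≤ ν ^ 2 := pow_le_pow_left₀ (by positivity) hν1 _
    have hν0 : 0 ≤ ν := by positivity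
    have hνV : V ≤ ν := by
      rw [div_le_iff₀ (by positivity)] at hmV
      have : V ^ 2 ≤ ν ^ 2 := by nlinarith
      exact le_of_pow_le_pow_left₀ (by norm_num) hν0 this
    set h : ℕ := ⌊ν / (12 * (D + 1))⌋₊ with hh
    have hh1 : (h:ℝ) ≤ ν / (12 * (D + 1)) := Nat.floor_le (by positivity)
    have hh2 : ν / (24 * (D + 1)) ≤ h := by
      have h3 := Nat.lt_floor_add_one (ν / (12 * (D + 1)))
      have h4 : 1 ≤ ν / (24 * (D + 1)) := by
        rw [le_div_iff₀ (by positivity)]
        linarith
      have h5 : ν / (12 * (D + 1)) = 2 * (ν / (24 * (D + 1))) := by field_simp; ring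
      linarith
    have hh3 : (h:ℝ) ≤ ν / 12 := by
      refine hh1.trans ?_
      apply div_le_div_of_nonneg_left hν0 (by norm_num)
      nlinarith
    have hna : n * a ≤ D := by
      have : n * a ≤ n * p := mul_le_mul_of_nonneg_left hap2 hn0.le
      linarith
    have hha : (h:ℝ) * a ≤ 1 := by
      calc (h:ℝ) * a ≤ ν / (12 * (D + 1)) * a := mul_le_mul_of_nonneg_right hh1 ha0
        _ = (n * a) * (m * a) / (12 * (D + 1)) := by rw [hν]; ring
        _ ≤ D * 1 / (12 * (D + 1)) := by
            apply div_le_div_of_nonneg_right _ (by positivity)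
            exact mul_le_mul hna hma (by positivity) hD.le
        _ ≤ 1 := by
            rw [div_le_one (by positivity)]
            linarith
    -- the halves
    set A : Finset (Fin n) := univ.filter (fun x => x.val < n / 2) with hA
    have hAc : (n:ℝ) / 4 ≤ A.card := by
      have h3 : A.card = n / 2 := by
        rw [hA, Fin.card_filter_val_lt]
        exact min_eq_right (by omega)
      have h4 : 2 ≤ n := by exact_mod_cast hn2
      have h5 : n ≤ 4 * A.card := by omega
      have h6 : (n:ℝ) ≤ 4 * A.card := by exact_mod_cast h5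
      linarith
    have hBc : (n:ℝ) / 4 ≤ Aᶜ.card := by
      have h3 : A.card = n / 2 := by
        rw [hA, Fin.card_filter_val_lt]
        exact min_eq_right (by omega)
      have h5 : n ≤ 4 * Aᶜ.card := by
        rw [Finset.card_compl, Fintype.card_fin]
        omega
      have h6 : (n:ℝ) ≤ 4 * Aᶜ.card := by exact_mod_cast h5
      linarith
    have hT := Pr_no_twins h0 h1 (m := m) (n := n) A h hha
    rw [← Pr_tr] at hT
    have hstep : Pr p (fun M : Mat m n => ¬ Poonen M) ≤ Pr p (fun M : Mat m n => ¬ Twins (tr M)) :=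
      Pr_mono h0 h1 fun M hM ht => hM (poonen_of_twins ht)
    refine hstep.trans (hT.trans ?_)
    have t1 : (2:ℝ) ^ h * (1 - m * a / 2) ^ A.card ≤ ε / 2 := by
      have h3 : (2:ℝ) ^ h = Real.exp (h * Real.log 2) := by
        rw [Real.exp_nat_mul, Real.exp_log (by norm_num)]
      have h4 : (1 - m * a / 2) ^ A.card ≤ Real.exp (-(ν / 8)) := by
        calc (1 - m * a / 2) ^ A.card ≤ (Real.exp (-(m * a / 2))) ^ A.card :=
              pow_le_pow_left₀ (by linarith) (Real.one_sub_le_exp_neg _) _
          _ = Real.exp (A.card * (-(m * a / 2))) := by rw [Real.exp_nat_mul]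
          _ ≤ _ := by
              apply Real.exp_le_exp.mpr
              have h5 : (0:ℝ) ≤ m * a := by positivity
              have h6 : (n:ℝ) / 4 * (m * a) ≤ A.card * (m * a) := mul_le_mul_of_nonneg_right hAc h5
              have h7 : ν = n * (m * a) := by rw [hν]; ring
              rw [h7]
              linarith
      calc (2:ℝ) ^ h * (1 - m * a / 2) ^ A.card ≤ Real.exp (h * Real.log 2) * Real.exp (-(ν / 8)) := by
            rw [h3]
            exact mul_le_mul_of_nonneg_left h4 (Real.exp_pos _).le
        _ = Real.exp (h * Real.log 2 + -(ν / 8)) := by rw [Real.exp_add]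
        _ ≤ Real.exp (-(ν / 16)) := by
            apply Real.exp_le_exp.mpr
            have h5 := Real.log_two_lt_d9
            have h6 : (h:ℝ) * Real.log 2 ≤ ν / 12 * 0.7 :=
              mul_le_mul hh3 (by linarith) (Real.log_nonneg (by norm_num)) (by positivity)
            linarith
        _ ≤ ε / 2 := hV ν hνV
    have t2 : (1 - h * a) ^ Aᶜ.card ≤ ε / 2 := by
      calc (1 - h * a) ^ Aᶜ.card ≤ (Real.exp (-(h * a))) ^ Aᶜ.card :=
            pow_le_pow_left₀ (by linarith) (Real.one_sub_le_exp_neg _) _
        _ = Real.exp (Aᶜ.card * (-(h * a))) := by rw [Real.exp_nat_mul]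
        _ ≤ Real.exp (-(κ ^ 2 * L / (96 * (D + 1)))) := by
            apply Real.exp_le_exp.mpr
            have h5 : (ν / (24 * (D + 1))) * a ≤ h * a := mul_le_mul_of_nonneg_right hh2 ha0
            have h6 : (n:ℝ) / 4 * (ν / (24 * (D + 1)) * a) ≤ Aᶜ.card * (h * a) :=
              mul_le_mul hBc h5 (by positivity) (by positivity)
            have h7 : (n:ℝ) / 4 * (ν / (24 * (D + 1)) * a) = ν ^ 2 / m / (96 * (D + 1)) := by
              rw [hν]; field_simp; ring
            have h8 : κ ^ 2 * L / (96 * (D + 1)) ≤ ν ^ 2 / m / (96 * (D + 1)) := by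
              apply div_le_div_of_nonneg_right _ (by positivity)
              rw [le_div_iff₀ hm0]
              exact hν2
            rw [h7] at h6
            linarith
        _ ≤ ε / 2 := hL
    linarith
  · push Not at hcase
    have hstep : Pr p (fun M : Mat m n => ¬ Poonen M) ≤ _ :=
      (Pr_mono h0 h1 fun M hM => by
        by_contra hcon
        exact hM (poonen_of_no_cherry hcon)).trans (Pr_cherry h0 h1 (m := m) (n := n))
    refine hstep.trans ?_
    have e1 : (m * m : ℝ) * (n * n) * p ^ 3 = m * (n * p) ^ 2 * (m * p) := by ring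
    rw [e1]
    have hnp0 : 0 ≤ n * p := by positivity
    have h2 : m * (n * p) ^ 2 * (m * p) ≤ L * (R * (n * p)) := by
      refine mul_le_mul hcase.le ?_ (by positivity) hL0.le
      calc (m:ℝ) * p ≤ (R * n) * p := mul_le_mul_of_nonneg_right hmn h0
        _ = _ := by ring
    refine h2.trans ?_
    rw [div_le_iff₀ (by positivity)] at hmL
    have h3 : (L * (R * (n * p))) ^ 2 * m ≤ ε ^ 2 * m := by
      calc (L * (R * (n * p))) ^ 2 * m = (L ^ 2 * R ^ 2) * (m * (n * p) ^ 2) := by ring
        _ ≤ (L ^ 2 * R ^ 2) * L := mul_le_mul_of_nonneg_left hcase.le (by positivity)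
        _ = L ^ 3 * R ^ 2 := by ring
        _ ≤ m * ε ^ 2 := hmL
        _ = ε ^ 2 * m := by ring
    have h4 := le_of_mul_le_mul_right h3 hm0
    exact le_of_pow_le_pow_left₀ (by norm_num) hε.le h4

/-- all edge probabilities, comparable sizes -/
theorem poonen_all {ε : ℝ} (hε : 0 < ε) {R : ℝ} (hR : 1 ≤ R) :
    ∃ K : ℝ, ∀ (m n : ℕ) (p : ℝ), 0 ≤ p → p ≤ 1 → K ≤ m → K ≤ n → (n:ℝ) ≤ R * m → (m:ℝ) ≤ R * n →
      Pr p (fun M : Mat m n => ¬ Poonen M) ≤ ε := by
  obtain ⟨C, hC1, hC⟩ := one_side hε
  have hlogR : 0 ≤ Real.log R := Real.log_nonneg hR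
  have hR0 : 0 < R := by linarith
  obtain ⟨D, hD0, hD1, hD2⟩ : ∃ D : ℝ, R * C + 1 ≤ D ∧ (∀ y, D ≤ y → Real.exp 60 * Real.log y ≤ y / 4) ∧
      4 * (Real.exp 60 * Real.log R) ≤ D := by
    have h := Real.isLittleO_log_id_atTop.def (show 0 < Real.exp (-60) / 4 by positivity)
    rw [Filter.eventually_atTop] at h
    obtain ⟨a, ha⟩ := h
    refine ⟨max (R * C + 1) (max a (4 * (Real.exp 60 * Real.log R))), le_max_left _ _, fun y hy => ?_,
      (le_max_right _ _).trans (le_max_right _ _)⟩
    have h1 := ha y ((le_max_left _ _).trans ((le_max_right _ _).trans hy))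
    have hy1 : 1 ≤ y := by
      have h2 : R * C + 1 ≤ y := (le_max_left _ _).trans hy
      nlinarith
    simp only [id, Real.norm_eq_abs] at h1
    rw [abs_of_nonneg (Real.log_nonneg hy1), abs_of_nonneg (by linarith)] at h1
    calc Real.exp 60 * Real.log y ≤ Real.exp 60 * (Real.exp (-60) / 4 * y) :=
          mul_le_mul_of_nonneg_left h1 (Real.exp_pos _).le
      _ = (Real.exp 60 * Real.exp (-60)) * (y / 4) := by ring
      _ = y / 4 := by rw [← Real.exp_add]; simp
  have hDpos : 0 < D := by nlinarith
  obtain ⟨K, hK⟩ := poonen_sparse hε hDpos hR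
  refine ⟨max K 1, fun m n p h0 h1 hm hn hnm hmn => ?_⟩
  have hm1 : (1:ℝ) ≤ m := (le_max_right _ _).trans hm
  have hn1 : (1:ℝ) ≤ n := (le_max_right _ _).trans hn
  have hm0 : (0:ℝ) < m := by linarith
  have hn0 : (0:ℝ) < n := by linarith
  rcases le_or_gt (n * p) D with hnp | hnp
  · exact hK m n p h0 h1 ((le_max_left _ _).trans hm) ((le_max_left _ _).trans hn) hmn hnp
  · have hp0 : 0 < p := by
      rcases h0.lt_or_eq with h | h
      · exact h
      · rw [← h, mul_zero] at hnp
        linarith
    have hmp : C ≤ m * p := by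
      have h2 : n * p ≤ R * (m * p) := by
        calc (n:ℝ) * p ≤ (R * m) * p := mul_le_mul_of_nonneg_right hnm h0
          _ = _ := by ring
      have h3 : R * C ≤ R * (m * p) := by linarith
      exact le_of_mul_le_mul_left h3 hR0
    have hnpC : C ≤ n * p := by nlinarith
    have hnp0 : 0 < n * p := by positivity
    have hcond : Real.exp 60 * Real.log (m * p) ≤ n * p := by
      have h2 : Real.log (m * p) ≤ Real.log R + Real.log (n * p) := by
        rw [← Real.log_mul hR0.ne' hnp0.ne']
        apply Real.log_le_log (by positivity)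
        calc (m:ℝ) * p ≤ (R * n) * p := mul_le_mul_of_nonneg_right hmn h0
          _ = _ := by ring
      have h3 := hD1 (n * p) hnp.le
      have h4 : Real.exp 60 * Real.log (m * p) ≤ Real.exp 60 * (Real.log R + Real.log (n * p)) :=
        mul_le_mul_of_nonneg_left h2 (Real.exp_pos _).le
      linarith
    refine le_trans (Pr_mono h0 h1 fun M hM h => hM (poonen_of_good ?_ h)) (hC m n p h0 h1 hmp hnpC hcond)
    exact_mod_cast hn0

end Pool.Agent.Q115.RB
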