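import Pool.Agent.Q115.RBHigh

set_option autoImplicit false

/-!
# Random bipartite graphs of arbitrary density: the very sparse range and the result
-/

namespace Pool.Agent.Q115.RB

open Finset Pool.Agent.H161R2.UC
open scoped Classical

/-- the row has exactly one element -/
def Single {n : ℕ} (r : Fin n → Bool) : Prop :=
  ∃ x, (∀ y ∈ ({x} : Finset (Fin n))ᶜ, r y = false) ∧ (∀ y ∈ ({x} : Finset (Fin n)), r y = true)

lemma frankl_of_single {m n : ℕ} (M : Mat m n) (h : ∃ i, Single (M i)) : Frankl M := by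
  obtain ⟨i, x, h1, h2⟩ := h
  refine ⟨x, ?_⟩
  have hc := Finset.card_filter_add_card_filter_not (s := fam M) (fun A => x ∈ A)
  have h3 : ((fam M).filter (fun A => ¬ x ∈ A)).card ≤ ((fam M).filter (fun A => x ∈ A)).card := by
    refine Finset.card_le_card_of_injOn (fun A => insert x A) ?_ ?_
    · intro A hA
      rw [Finset.mem_coe, Finset.mem_filter, mem_fam] at hA
      obtain ⟨⟨I, rfl⟩, _⟩ := hA
      rw [Finset.mem_coe, Finset.mem_filter, mem_fam]
      refine ⟨⟨insert i I, ?_⟩, Finset.mem_insert_self _ _⟩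
      rw [unionOf_insert]
      ext y
      rw [Finset.mem_union, Finset.mem_insert, mem_rowSet]
      constructor
      · rintro (h | h)
        · exact Or.inr h
        · left
          by_contra hne
          have := h1 y (by simp [hne])
          rw [this] at h
          exact Bool.noConfusion h
      · rintro (rfl | h)
        · exact Or.inr (h2 y (Finset.mem_singleton_self _))
        · exact Or.inl h
    · intro A hA B hB hAB
      rw [Finset.mem_coe, Finset.mem_filter] at hA hB
      simp only at hAB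
      rw [← Finset.erase_insert hA.2, ← Finset.erase_insert hB.2, hAB]
  omega

lemma Ev_single (p : ℝ) {n : ℕ} :
    Ev p (fun r : Fin n → Bool => ind (Single r)) = n * ((1 - p) ^ (n - 1) * p) := by
  have e : ∀ r : Fin n → Bool, ind (Single r) = ∑ x : Fin n,
      ind ((∀ y ∈ ({x} : Finset (Fin n))ᶜ, r y = false) ∧ (∀ y ∈ ({x} : Finset (Fin n)), r y = true)) := by
    intro r
    by_cases h : Single r
    · rw [ind_pos h]
      obtain ⟨x, hx⟩ := h
      rw [Finset.sum_eq_single x, ind_pos hx]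
      · intro z _ hz
        apply ind_neg
        intro h'
        have h2 := h'.2 z (Finset.mem_singleton_self _)
        rw [hx.1 z (by simp [hz])] at h2
        exact Bool.noConfusion h2
      · intro h'
        exact absurd (Finset.mem_univ x) h'
    · rw [ind_neg h]
      symm
      refine Finset.sum_eq_zero fun x _ => ind_neg fun h' => h ⟨x, h'⟩
  simp_rw [e]
  have h2 : Ev p (fun r : Fin n → Bool => ∑ x : Fin n,
      ind ((∀ y ∈ ({x} : Finset (Fin n))ᶜ, r y = false) ∧ (∀ y ∈ ({x} : Finset (Fin n)), r y = true))) =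
      ∑ x : Fin n, Ev p (fun r : Fin n → Bool =>
      ind ((∀ y ∈ ({x} : Finset (Fin n))ᶜ, r y = false) ∧ (∀ y ∈ ({x} : Finset (Fin n)), r y = true))) := by
    unfold Ev
    rw [Finset.sum_comm]
    refine Finset.sum_congr rfl fun r _ => ?_
    rw [Finset.mul_sum]
  rw [h2]
  have h3 : ∀ x : Fin n, Ev p (fun r : Fin n → Bool =>
      ind ((∀ y ∈ ({x} : Finset (Fin n))ᶜ, r y = false) ∧ (∀ y ∈ ({x} : Finset (Fin n)), r y = true))) =
      (1 - p) ^ (n - 1) * p := by
    intro x
    rw [Ev_cyl p _ _ (Finset.disjoint_left.mpr fun a ha hb => (Finset.mem_compl.mp ha) hb)]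
    rw [Finset.card_compl, Fintype.card_fin, Finset.card_singleton, pow_one]
  rw [Finset.sum_congr rfl (fun x _ => h3 x), Finset.sum_const, nsmul_eq_mul, Finset.card_univ,
    Fintype.card_fin]

lemma Pr_no_single {p : ℝ} {m n : ℕ} :
    Pr p (fun M : Mat m n => ¬ ∃ i, Single (M i)) = (1 - n * ((1 - p) ^ (n - 1) * p)) ^ m := by
  rw [Pr_eq_Ex]
  have e1 : (fun M : Mat m n => ind (¬ ∃ i, Single (M i))) =
      fun M : Mat m n => ∏ i : Fin m, ind (¬ Single (M i)) := by
    funext M
    rw [ind_prod]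
    simp
  rw [e1]
  have h := Ex_rows p (m := m) (n := n) (fun _ r => ind (¬ Single r))
  rw [h, Finset.prod_const, Finset.card_univ, Fintype.card_fin]
  congr 1
  simp_rw [ind_not]
  rw [Ev_sub, Ev_one, Ev_single]

/-- two elements in one row -/
lemma Pr_two {p : ℝ} (h0 : 0 ≤ p) (h1 : p ≤ 1) {m n : ℕ} :
    Pr p (fun M : Mat m n => ∃ z ∈ (univ.filter (fun z : Fin m × (Fin n × Fin n) => z.2.1 ≠ z.2.2)),
      M z.1 z.2.1 = true ∧ M z.1 z.2.2 = true) ≤ m * (n * n) * p ^ 2 := by
  refine (Pr_exists h0 h1 _ _).trans ?_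
  have key : ∀ z ∈ (univ.filter (fun z : Fin m × (Fin n × Fin n) => z.2.1 ≠ z.2.2)),
      Pr p (fun M : Mat m n => M z.1 z.2.1 = true ∧ M z.1 z.2.2 = true) ≤ p ^ 2 := by
    intro z hz
    have hne := (Finset.mem_filter.mp hz).2
    have e := Pr_row p (m := m) (n := n) z.1 (fun r => r z.2.1 = true ∧ r z.2.2 = true)
    have e' : Pr p (fun M : Mat m n => M z.1 z.2.1 = true ∧ M z.1 z.2.2 = true) =
      Ev p (fun r : Fin n → Bool => ind (r z.2.1 = true ∧ r z.2.2 = true)) := e
    rw [e']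
    have h2 := Ev_cyl p (∅ : Finset (Fin n)) {z.2.1, z.2.2} (by simp)
    rw [Finset.card_pair hne] at h2
    simp only [Finset.card_empty, pow_zero, one_mul] at h2
    rw [← h2]
    refine Ev_mono h0 h1 fun r => ?_
    by_cases hr : r z.2.1 = true ∧ r z.2.2 = true
    · rw [ind_pos hr, ind_pos]
      refine ⟨by simp, fun i hi => ?_⟩
      rw [Finset.mem_insert, Finset.mem_singleton] at hi
      rcases hi with rfl | rfl
      · exact hr.1
      · exact hr.2
    · rw [ind_neg hr]; exact ind_nonneg _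
  calc _ ≤ ∑ z ∈ (univ.filter (fun z : Fin m × (Fin n × Fin n) => z.2.1 ≠ z.2.2)), p ^ 2 :=
        Finset.sum_le_sum key
    _ = ((univ.filter (fun z : Fin m × (Fin n × Fin n) => z.2.1 ≠ z.2.2)).card : ℝ) * p ^ 2 := by
        rw [Finset.sum_const, nsmul_eq_mul]
    _ ≤ _ := by
        refine mul_le_mul_of_nonneg_right ?_ (by positivity)
        have : (univ.filter (fun z : Fin m × (Fin n × Fin n) => z.2.1 ≠ z.2.2)).card ≤ m * (n * n) := by
          refine (Finset.card_filter_le _ _).trans ?_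
          simp
        exact_mod_cast this

/-- the matrix has an entry `true` -/
def NonZero {m n : ℕ} (M : Mat m n) : Prop := ∃ i x, M i x = true

lemma nonzero_tr {m n : ℕ} (M : Mat m n) : NonZero (tr M) ↔ NonZero M :=
  ⟨fun ⟨x, i, h⟩ => ⟨i, x, h⟩, fun ⟨i, x, h⟩ => ⟨x, i, h⟩⟩

theorem low {ε : ℝ} (hε : 0 < ε) {D : ℝ} (hD : 0 < D) :
    ∃ K : ℝ, ∀ (m n : ℕ) (p : ℝ), 0 ≤ p → p ≤ 1 → K ≤ m → K ≤ n → n * p ≤ D →
      Pr p (fun M : Mat m n => NonZero M ∧ ¬ ∃ i, Single (M i)) ≤ ε := by
  -- threshold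
  obtain ⟨L, hL0, hL⟩ : ∃ L : ℝ, 0 < L ∧ Real.exp (-(L * Real.exp (-(2 * D)))) ≤ ε := by
    have h := (Real.tendsto_exp_neg_atTop_nhds_zero.comp
      (Filter.Tendsto.atTop_mul_const (Real.exp_pos (-(2 * D))) Filter.tendsto_id))
    have ev := (h.eventually (gt_mem_nhds hε)).and (Filter.eventually_gt_atTop (0:ℝ))
    obtain ⟨L, hL⟩ := ev.exists
    exact ⟨L, hL.2, hL.1.le⟩
  refine ⟨max (2 * D) (max (L ^ 2 / ε) 1), fun m n p h0 h1 hm hn hnp => ?_⟩
  have hn2D : 2 * D ≤ n := (le_max_left _ _).trans hn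
  have hmL : L ^ 2 / ε ≤ m := (le_max_left _ _).trans ((le_max_right _ _).trans hm)
  have hn1 : (1:ℝ) ≤ n := (le_max_right _ _).trans ((le_max_right _ _).trans hn)
  have hm1 : (1:ℝ) ≤ m := (le_max_right _ _).trans ((le_max_right _ _).trans hm)
  have hn1' : 1 ≤ n := by exact_mod_cast hn1
  have hp12 : p ≤ 1 / 2 := by
    by_contra hcon
    push Not at hcon
    nlinarith
  by_cases hcase : L ≤ m * (n * p)
  · refine (Pr_mono h0 h1 (B := fun M : Mat m n => ¬ ∃ i, Single (M i)) fun M hM => hM.2).trans ?_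
    rw [Pr_no_single]
    have hq : Real.exp (-(2 * D)) ≤ (1 - p) ^ (n - 1) := by
      calc Real.exp (-(2 * D)) ≤ Real.exp (((n - 1 : ℕ) : ℝ) * (-(2 * p))) := by
            apply Real.exp_le_exp.mpr
            rw [Nat.cast_sub hn1']
            push_cast
            nlinarith
        _ = (Real.exp (-(2 * p))) ^ (n - 1) := by rw [Real.exp_nat_mul]
        _ ≤ _ := pow_le_pow_left₀ (Real.exp_pos _).le (one_sub_ge h0 (by linarith)) _
    have hb : 0 ≤ 1 - n * ((1 - p) ^ (n - 1) * p) := by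
      have h2 := Ev_mono h0 h1 (k := n) (f := fun r => ind (Single r)) (g := fun _ => 1) (fun r => by
        by_cases h : Single r
        · rw [ind_pos h]
        · rw [ind_neg h]; norm_num)
      rw [Ev_single, Ev_one] at h2
      linarith
    calc (1 - n * ((1 - p) ^ (n - 1) * p)) ^ m ≤ (Real.exp (-(n * ((1 - p) ^ (n - 1) * p)))) ^ m :=
          pow_le_pow_left₀ hb (Real.one_sub_le_exp_neg _) _
      _ = Real.exp (m * (-(n * ((1 - p) ^ (n - 1) * p)))) := by rw [Real.exp_nat_mul]
      _ ≤ Real.exp (-(L * Real.exp (-(2 * D)))) := by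
          apply Real.exp_le_exp.mpr
          have h2 : L * Real.exp (-(2 * D)) ≤ (m * (n * p)) * (1 - p) ^ (n - 1) :=
            mul_le_mul hcase hq (Real.exp_pos _).le (by positivity)
          have h3 : (m:ℝ) * (-(n * ((1 - p) ^ (n - 1) * p))) = -((m * (n * p)) * (1 - p) ^ (n - 1)) := by ring
          rw [h3]
          linarith
      _ ≤ ε := hL
  · push Not at hcase
    refine (Pr_mono h0 h1 (B := fun M : Mat m n =>
      ∃ z ∈ (univ.filter (fun z : Fin m × (Fin n × Fin n) => z.2.1 ≠ z.2.2)),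
      M z.1 z.2.1 = true ∧ M z.1 z.2.2 = true) fun M hM => ?_).trans ?_
    · obtain ⟨⟨i, x, hx⟩, h2⟩ := hM
      by_contra hcon
      push Not at hcon
      apply h2
      refine ⟨i, x, ?_, ?_⟩
      · intro y hy
        have hyx : y ≠ x := by simpa using hy
        have h3 := hcon (i, (x, y)) (by simp [hyx.symm]) hx
        simpa using h3
      · intro y hy
        rw [Finset.mem_singleton] at hy
        rw [hy]; exact hx
    · refine (Pr_two h0 h1).trans ?_
      rw [div_le_iff₀ hε] at hmL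
      have hm0 : (0:ℝ) < m := by linarith
      have h2 : (m:ℝ) * (m * (n * n) * p ^ 2) ≤ m * ε := by
        calc (m:ℝ) * (m * (n * n) * p ^ 2) = (m * (n * p)) ^ 2 := by ring
          _ ≤ L ^ 2 := pow_le_pow_left₀ (by positivity) hcase.le _
          _ ≤ m * ε := hmL
      exact le_of_mul_le_mul_left h2 hm0

/-- one colour class, not too sparse -/
theorem one_side {ε : ℝ} (hε : 0 < ε) :
    ∃ C : ℝ, 1 ≤ C ∧ ∀ (m n : ℕ) (p : ℝ), 0 ≤ p → p ≤ 1 → C ≤ m * p → C ≤ n * p →
      Real.exp 60 * Real.log (m * p) ≤ n * p →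
      Pr p (fun M : Mat m n => ¬ Good M) ≤ ε := by
  obtain ⟨C1, h11, h12⟩ := mid hε
  obtain ⟨C2, h21, h22⟩ := high hε
  refine ⟨max C1 C2, le_trans h11 (le_max_left _ _), fun m n p h0 h1 hmp hnp hl => ?_⟩
  have hlog : 0 ≤ Real.log (m * p) :=
    Real.log_nonneg (h11.trans ((le_max_left _ _).trans hmp))
  have hp0 : 0 < p := by
    rcases h0.lt_or_eq with h | h
    · exact h
    · rw [← h, mul_zero] at hmp
      have := h11.trans ((le_max_left _ _).trans hmp)
      linarith
  by_cases hp : p ≤ 3 / 4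
  · have h2 := h12 m n p hp0 hp ((le_max_left _ _).trans hmp) ((le_max_left _ _).trans hnp) hl
    refine le_trans (Pr_mono h0 h1 fun M hM => ?_) h2
    exact fun h => hM (Or.inr h)
  · push Not at hp
    have h40 : (40:ℝ) ≤ Real.exp 60 := by
      have := Real.add_one_le_exp (60:ℝ)
      linarith
    exact h22 m n p hp.le h1 ((le_max_right _ _).trans hmp) ((le_max_right _ _).trans hnp)
      ((mul_le_mul_of_nonneg_right h40 hlog).trans hl)

lemma frankl_of_good {m n : ℕ} {M : Mat m n} (hM : NonZero M) (h : Good M) : Frankl M := by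
  obtain ⟨i, x, _⟩ := hM
  exact good_frankl (Nat.pos_of_ne_zero fun h' => by subst h'; exact i.elim0)
    (Nat.pos_of_ne_zero fun h' => by subst h'; exact x.elim0) h

/-- the exponent -/
noncomputable def gam : ℝ := Real.exp (-60) / 32

lemma gam_pos : 0 < gam := by unfold gam; positivity

/-- one colour class, all edge probabilities -/
theorem all_p {ε : ℝ} (hε : 0 < ε) {R : ℝ} (hR : 1 ≤ R) :
    ∃ K : ℝ, ∀ (m n : ℕ) (p : ℝ), 0 ≤ p → p ≤ 1 → K ≤ m → K ≤ n → (n:ℝ) ≤ R * m →
      Real.log m ≤ (1 + gam) * Real.log n →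
      Pr p (fun M : Mat m n => NonZero M ∧ ¬ Frankl M) ≤ ε := by
  obtain ⟨C, hC1, hC⟩ := one_side hε
  -- the threshold D
  have hlogR : 0 ≤ Real.log R := Real.log_nonneg hR
  obtain ⟨D, hD0, hD1, hD2⟩ : ∃ D : ℝ, R * C + 1 ≤ D ∧ (∀ y, D ≤ y → Real.exp 60 * Real.log y ≤ y / 4) ∧
      Real.log R ≤ D := by
    have h := Real.isLittleO_log_id_atTop.def (show 0 < Real.exp (-60) / 4 by positivity)
    rw [Filter.eventually_atTop] at h
    obtain ⟨a, ha⟩ := h
    refine ⟨max (R * C + 1) (max a (Real.log R)), le_max_left _ _, fun y hy => ?_,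
      (le_max_right _ _).trans (le_max_right _ _)⟩
    have h1 := ha y ((le_max_left _ _).trans ((le_max_right _ _).trans hy))
    have hy1 : 1 ≤ y := by
      have h2 : R * C + 1 ≤ y := (le_max_left _ _).trans hy
      nlinarith
    simp only [id, Real.norm_eq_abs] at h1
    rw [abs_of_nonneg (Real.log_nonneg hy1), abs_of_nonneg (by linarith)] at h1
    calc Real.exp 60 * Real.log y ≤ Real.exp 60 * (Real.exp (-60) / 4 * y) :=
          mul_le_mul_of_nonneg_left h1 (Real.exp_pos _).le
      _ = (Real.exp 60 * Real.exp (-60)) * (y / 4) := by ring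
      _ = y / 4 := by rw [← Real.exp_add]; simp
  have hDpos : 0 < D := by nlinarith
  obtain ⟨K1, hK1⟩ := low hε hDpos
  -- tail for the singletons
  obtain ⟨K2, hK2⟩ : ∃ K2 : ℝ, ∀ y : ℝ, K2 ≤ y → Real.exp (-Real.sqrt y) ≤ ε := by
    have h := (Real.tendsto_exp_neg_atTop_nhds_zero.comp Real.tendsto_sqrt_atTop).eventually
      (gt_mem_nhds hε)
    rw [Filter.eventually_atTop] at h
    obtain ⟨a, ha⟩ := h
    exact ⟨a, fun y hy => (ha y hy).le⟩
  refine ⟨max K1 (max K2 1), fun m n p h0 h1 hm hn hnm hlog => ?_⟩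
  have hmK1 : K1 ≤ m := (le_max_left _ _).trans hm
  have hnK1 : K1 ≤ n := (le_max_left _ _).trans hn
  have hmK2 : K2 ≤ m := (le_max_left _ _).trans ((le_max_right _ _).trans hm)
  have hm1 : (1:ℝ) ≤ m := (le_max_right _ _).trans ((le_max_right _ _).trans hm)
  have hn1 : (1:ℝ) ≤ n := (le_max_right _ _).trans ((le_max_right _ _).trans hn)
  have hn1' : 1 ≤ n := by exact_mod_cast hn1
  have hm0 : (0:ℝ) < m := by linarith
  have hn0 : (0:ℝ) < n := by linarith
  rcases le_or_gt (n * p) D with hnp | hnp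
  · refine le_trans (Pr_mono h0 h1 fun M hM => ?_) (hK1 m n p h0 h1 hmK1 hnK1 hnp)
    exact ⟨hM.1, fun h => hM.2 (frankl_of_single M h)⟩
  have hp0 : 0 < p := by
    rcases h0.lt_or_eq with h | h
    · exact h
    · rw [← h, mul_zero] at hnp
      linarith
  have hnp1 : 1 ≤ n * p := by nlinarith
  rcases le_or_gt (n * p) (Real.log m / 4) with hnl | hnl
  · -- singletons
    have hp34 : p ≤ 3 / 4 := by
      by_contra hcon
      push Not at hcon
      have h2 : Real.log n ≤ n := (Real.log_le_sub_one_of_pos hn0).trans (by linarith)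
      have hg : gam ≤ 1 := by
        unfold gam
        have : Real.exp (-60) ≤ 1 := Real.exp_le_one_iff.mpr (by norm_num)
        linarith
      have h3 : Real.log m ≤ 2 * n := by
        have h4 : 0 ≤ Real.log n := Real.log_nonneg hn1
        nlinarith [gam_pos]
      nlinarith
    refine (Pr_mono h0 h1 (B := fun M : Mat m n => ¬ ∃ i, Single (M i)) fun M hM h =>
      hM.2 (frankl_of_single M h)).trans ?_
    rw [Pr_no_single]
    have hq : Real.exp (-(Real.log m / 2)) ≤ (1 - p) ^ (n - 1) := by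
      calc Real.exp (-(Real.log m / 2)) ≤ Real.exp (((n - 1 : ℕ) : ℝ) * (-(2 * p))) := by
            apply Real.exp_le_exp.mpr
            rw [Nat.cast_sub hn1']
            push_cast
            nlinarith
        _ = (Real.exp (-(2 * p))) ^ (n - 1) := by rw [Real.exp_nat_mul]
        _ ≤ _ := pow_le_pow_left₀ (Real.exp_pos _).le (one_sub_ge h0 hp34) _
    have hb : 0 ≤ 1 - n * ((1 - p) ^ (n - 1) * p) := by
      have h2 := Ev_mono h0 h1 (k := n) (f := fun r => ind (Single r)) (g := fun _ => 1) (fun r => by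
        by_cases h : Single r
        · rw [ind_pos h]
        · rw [ind_neg h]; norm_num)
      rw [Ev_single, Ev_one] at h2
      linarith
    have hsq : Real.sqrt m = m * Real.exp (-(Real.log m / 2)) := by
      have h7 : Real.exp (Real.log m / 2) = Real.sqrt m := by
        rw [Real.sqrt_eq_rpow, Real.rpow_def_of_pos hm0]
        congr 1
        ring
      rw [Real.exp_neg, h7]
      have h8 : Real.sqrt (m:ℝ) ≠ 0 := (Real.sqrt_pos.mpr hm0).ne'
      field_simp
      rw [Real.sq_sqrt hm0.le]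
    calc (1 - n * ((1 - p) ^ (n - 1) * p)) ^ m ≤ (Real.exp (-(n * ((1 - p) ^ (n - 1) * p)))) ^ m :=
          pow_le_pow_left₀ hb (Real.one_sub_le_exp_neg _) _
      _ = Real.exp (m * (-(n * ((1 - p) ^ (n - 1) * p)))) := by rw [Real.exp_nat_mul]
      _ ≤ Real.exp (-Real.sqrt m) := by
          apply Real.exp_le_exp.mpr
          have h3 : (m:ℝ) * (-(n * ((1 - p) ^ (n - 1) * p))) = -((n * p) * (m * (1 - p) ^ (n - 1))) := by ring
          rw [h3, hsq]
          have h4 : m * Real.exp (-(Real.log m / 2)) ≤ m * (1 - p) ^ (n - 1) :=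
            mul_le_mul_of_nonneg_left hq hm0.le
          have h5 : 0 ≤ m * (1 - p) ^ (n - 1) := mul_nonneg hm0.le (pow_nonneg (by linarith) _)
          nlinarith
      _ ≤ ε := hK2 m hmK2
  · -- the main range
    have hR0 : 0 < R := by linarith
    have hmp : C ≤ m * p := by
      have h2 : n * p ≤ R * (m * p) := by
        calc (n:ℝ) * p ≤ (R * m) * p := mul_le_mul_of_nonneg_right hnm h0
          _ = _ := by ring
      have h3 : R * C ≤ R * (m * p) := by linarith
      exact le_of_mul_le_mul_left h3 hR0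
    have hnpC : C ≤ n * p := by nlinarith
    have hcond : Real.exp 60 * Real.log (m * p) ≤ n * p := by
      have e1 : Real.log (m * p) = Real.log m - Real.log n + Real.log (n * p) := by
        rw [Real.log_mul hm0.ne' hp0.ne', Real.log_mul hn0.ne' hp0.ne']; ring
      have h2 : Real.log m - Real.log n ≤ gam * Real.log n := by linarith
      have h3 : Real.log n ≤ Real.log R + Real.log m := by
        rw [← Real.log_mul hR0.ne' hm0.ne']
        exact Real.log_le_log hn0 hnm
      have h4 : Real.log n ≤ 5 * (n * p) := by linarith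
      have h5 : Real.exp 60 * (gam * Real.log n) ≤ n * p / 4 := by
        have h6 : Real.exp 60 * gam = 1 / 32 := by
          unfold gam
          rw [← mul_div_assoc, ← Real.exp_add]; simp
        calc Real.exp 60 * (gam * Real.log n) = (Real.exp 60 * gam) * Real.log n := by ring
          _ = 1 / 32 * Real.log n := by rw [h6]
          _ ≤ n * p / 4 := by linarith
      have h6 := hD1 (n * p) hnp.le
      rw [e1]
      have h7 : Real.exp 60 * (Real.log m - Real.log n) ≤ Real.exp 60 * (gam * Real.log n) :=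
        mul_le_mul_of_nonneg_left h2 (Real.exp_pos _).le
      nlinarith
    refine le_trans (Pr_mono h0 h1 fun M hM => ?_) (hC m n p h0 h1 hmp hnpC hcond)
    exact fun h => hM.2 (frankl_of_good hM.1 h)

/-- both colour classes, comparable sizes, all edge probabilities -/
theorem both {ε : ℝ} (hε : 0 < ε) {R : ℝ} (hR : 1 ≤ R) :
    ∃ K : ℝ, ∀ (m n : ℕ) (p : ℝ), 0 ≤ p → p ≤ 1 → K ≤ m → K ≤ n → (n:ℝ) ≤ R * m → (m:ℝ) ≤ R * n →
      Pr p (fun M : Mat m n => NonZero M ∧ ¬ (Frankl M ∧ Frankl (tr M))) ≤ ε := by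
  obtain ⟨K, hK⟩ := all_p (half_pos hε) hR
  obtain ⟨K2, hK2⟩ : ∃ K2 : ℝ, ∀ y : ℝ, K2 ≤ y → Real.log R ≤ gam * Real.log y := by
    have h := (Filter.Tendsto.const_mul_atTop gam_pos Real.tendsto_log_atTop).eventually_ge_atTop (Real.log R)
    rw [Filter.eventually_atTop] at h
    exact h
  refine ⟨max K (max K2 1), fun m n p h0 h1 hm hn hnm hmn => ?_⟩
  have hmK : K ≤ m := (le_max_left _ _).trans hm
  have hnK : K ≤ n := (le_max_left _ _).trans hn
  have hmK2 : K2 ≤ m := (le_max_left _ _).trans ((le_max_right _ _).trans hm)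
  have hnK2 : K2 ≤ n := (le_max_left _ _).trans ((le_max_right _ _).trans hn)
  have hm1 : (1:ℝ) ≤ m := (le_max_right _ _).trans ((le_max_right _ _).trans hm)
  have hn1 : (1:ℝ) ≤ n := (le_max_right _ _).trans ((le_max_right _ _).trans hn)
  have hR0 : 0 < R := by linarith
  have key : ∀ a b : ℕ, (1:ℝ) ≤ a → (1:ℝ) ≤ b → K2 ≤ b → (a:ℝ) ≤ R * b →
      Real.log a ≤ (1 + gam) * Real.log b := by
    intro a b ha hb hb2 hab
    have h2 : Real.log a ≤ Real.log R + Real.log b := by
      rw [← Real.log_mul hR0.ne' (by linarith)]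
      exact Real.log_le_log (by linarith) hab
    have h3 := hK2 b hb2
    linarith
  have hA := hK m n p h0 h1 hmK hnK hnm (key m n hm1 hn1 hnK2 hmn)
  have hB := hK n m p h0 h1 hnK hmK hmn (key n m hn1 hm1 hmK2 hnm)
  rw [← Pr_tr] at hB
  calc Pr p (fun M : Mat m n => NonZero M ∧ ¬ (Frankl M ∧ Frankl (tr M)))
      ≤ Pr p (fun M : Mat m n => (NonZero M ∧ ¬ Frankl M) ∨ (NonZero (tr M) ∧ ¬ Frankl (tr M))) := by
        refine Pr_mono h0 h1 fun M hM => ?_
        by_cases h : Frankl M
        · exact Or.inr ⟨(nonzero_tr M).mpr hM.1, fun h' => hM.2 ⟨h, h'⟩⟩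
        · exact Or.inl ⟨hM.1, h⟩
    _ ≤ ε / 2 + ε / 2 := (Pr_or h0 h1 _ _).trans (add_le_add hA hB)
    _ = ε := by ring

end Pool.Agent.Q115.RB
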