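import Mathlib

set_option autoImplicit false
open scoped Classical Pointwise
open Finset

universe u v

namespace Pool.Agent.Q115.SD

section Basic

variable {Γ : Type u} [AddCommGroup Γ]

theorem sum_mem_nsmul (B : Finset Γ) : ∀ (k : ℕ) (f : Fin k → Γ), (∀ i, f i ∈ B) →
    ∑ i, f i ∈ k • B := by
  intro k
  induction k with
  | zero => intro f _; simp
  | succ k ih =>
    intro f hf
    rw [Fin.sum_univ_castSucc, succ_nsmul]
    exact add_mem_add (ih _ fun i => hf _) (hf _)

theorem nsmul_mem_nsmul (B : Finset Γ) {b : Γ} (hb : b ∈ B) (k : ℕ) : k • b ∈ k • B := by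
  have := sum_mem_nsmul B k (fun _ => b) (fun _ => hb)
  simpa using this

/-- Plünnecke-Ruzsa with real constants. -/
theorem plu (A : Finset Γ) (hA : A.Nonempty) (B : Finset Γ) (M : ℝ)
    (h : ((A + B).card : ℝ) ≤ M * A.card) (m n : ℕ) :
    (((m • B - n • B).card : ℕ) : ℝ) ≤ M ^ (m + n) * A.card := by
  have h0 : (0 : ℝ) < A.card := by exact_mod_cast hA.card_pos
  have h1 := pluennecke_ruzsa_inequality_nsmul_sub_nsmul_add hA B m n
  have h2 : (((m • B - n • B).card : ℕ) : ℝ)
      ≤ (((A + B).card : ℝ) / A.card) ^ (m + n) * A.card := by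
    have := (NNRat.cast_le (K := ℝ)).mpr h1
    push_cast at this
    exact this
  refine h2.trans ?_
  gcongr
  rw [div_le_iff₀ h0]
  exact h

/-- Plünnecke-Ruzsa, sums only. -/
theorem plu' (A : Finset Γ) (hA : A.Nonempty) (B : Finset Γ) (M : ℝ)
    (h : ((A + B).card : ℝ) ≤ M * A.card) (m : ℕ) :
    (((m • B).card : ℕ) : ℝ) ≤ M ^ m * A.card := by
  have h1 := plu A hA B M h m 0
  rw [zero_nsmul, sub_zero] at h1
  simpa using h1

end Basic

section Mod

variable {R : Type v} [CommRing R] {Γ : Type u} [AddCommGroup Γ] [Module R Γ]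

/-- The dilate `c A`. -/
noncomputable def dil (c : R) (A : Finset Γ) : Finset Γ := A.image (fun x => c • x)

theorem mem_dil {c : R} {A : Finset Γ} {x : Γ} : x ∈ dil c A ↔ ∃ a ∈ A, c • a = x := by
  simp [dil]

theorem smul_mem_dil (c : R) {A : Finset Γ} {a : Γ} (ha : a ∈ A) : c • a ∈ dil c A :=
  mem_dil.2 ⟨a, ha, rfl⟩

theorem dil_one (A : Finset Γ) : dil (1 : R) A = A := by simp [dil]

/-- The union of the dilates `v A`, `v ∈ V`. -/
noncomputable def uni (V : Finset R) (A : Finset Γ) : Finset Γ := V.biUnion fun v => dil v A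

theorem smul_mem_uni {V : Finset R} {A : Finset Γ} {v : R} (hv : v ∈ V) {a : Γ} (ha : a ∈ A) :
    v • a ∈ uni V A :=
  mem_biUnion.2 ⟨v, hv, smul_mem_dil v ha⟩

theorem card_add_uni (A : Finset Γ) (V : Finset R) (M : ℝ)
    (hV : ∀ v ∈ V, ((A + dil v A).card : ℝ) ≤ M * A.card) :
    ((A + uni V A).card : ℝ) ≤ (V.card * M) * A.card := by
  have h1 : A + uni V A ⊆ V.biUnion fun v => A + dil v A := by
    intro x hx
    obtain ⟨a, ha, b, hb, rfl⟩ := mem_add.1 hx
    obtain ⟨v, hv, hb⟩ := mem_biUnion.1 hb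
    exact mem_biUnion.2 ⟨v, hv, add_mem_add ha hb⟩
  have h2 : (A + uni V A).card ≤ ∑ v ∈ V, (A + dil v A).card :=
    (card_le_card h1).trans card_biUnion_le
  have h3 : ((∑ v ∈ V, (A + dil v A).card : ℕ) : ℝ) ≤ ∑ _v ∈ V, M * A.card := by
    push_cast
    exact sum_le_sum hV
  calc ((A + uni V A).card : ℝ) ≤ ((∑ v ∈ V, (A + dil v A).card : ℕ) : ℝ) := by exact_mod_cast h2
    _ ≤ ∑ _v ∈ V, M * A.card := h3
    _ = (V.card * M) * A.card := by rw [sum_const, nsmul_eq_mul]; ring

/-- The union trick. -/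
theorem union_trick (A : Finset Γ) (hA : A.Nonempty) (V : Finset R) (M : ℝ)
    (hV : ∀ v ∈ V, ((A + dil v A).card : ℝ) ≤ M * A.card) (m n : ℕ) :
    (((m • uni V A - n • uni V A).card : ℕ) : ℝ) ≤ (V.card * M) ^ (m + n) * A.card :=
  plu A hA _ _ (card_add_uni A V M hV) m n

theorem one_le_of (A : Finset Γ) (hA : A.Nonempty) {c : R} {M : ℝ}
    (h : ((A + dil c A).card : ℝ) ≤ M * A.card) : 1 ≤ M := by
  have h0 : (0 : ℝ) < A.card := by exact_mod_cast hA.card_pos
  have h2 : (A.card : ℝ) ≤ ((A + dil c A).card : ℝ) := by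
    have hne : (dil c A).Nonempty := hA.image _
    exact_mod_cast card_le_card_add_right hne
  nlinarith

end Mod

section Field

variable {F : Type v} [Field F] {Γ : Type u} [AddCommGroup Γ] [Module F Γ]

theorem smul_inj {c : F} (hc : c ≠ 0) : Function.Injective (fun x : Γ => c • x) := by
  intro x y hxy
  have : c⁻¹ • (c • x) = c⁻¹ • (c • y) := by
    simp only at hxy
    rw [hxy]
  simpa [smul_smul, inv_mul_cancel₀ hc] using this

theorem card_dil {c : F} (hc : c ≠ 0) (A : Finset Γ) : (dil c A).card = A.card :=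
  card_image_of_injective _ (smul_inj hc)

theorem dil_add (c : F) (A B : Finset Γ) : dil c (A + B) = dil c A + dil c B := by
  ext x
  simp only [mem_dil, mem_add]
  constructor
  · rintro ⟨_, ⟨a, ha, b, hb, rfl⟩, rfl⟩
    exact ⟨c • a, ⟨a, ha, rfl⟩, c • b, ⟨b, hb, rfl⟩, (smul_add _ _ _).symm⟩
  · rintro ⟨_, ⟨a, ha, rfl⟩, _, ⟨b, hb, rfl⟩, rfl⟩
    exact ⟨a + b, ⟨a, ha, b, hb, rfl⟩, smul_add _ _ _⟩

theorem dil_sub (c : F) (A B : Finset Γ) : dil c (A - B) = dil c A - dil c B := by
  ext x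
  simp only [mem_dil, mem_sub]
  constructor
  · rintro ⟨_, ⟨a, ha, b, hb, rfl⟩, rfl⟩
    exact ⟨c • a, ⟨a, ha, rfl⟩, c • b, ⟨b, hb, rfl⟩, (smul_sub _ _ _).symm⟩
  · rintro ⟨_, ⟨a, ha, rfl⟩, _, ⟨b, hb, rfl⟩, rfl⟩
    exact ⟨a - b, ⟨a, ha, b, hb, rfl⟩, smul_sub _ _ _⟩

theorem dil_dil (c d : F) (A : Finset Γ) : dil c (dil d A) = dil (c * d) A := by
  ext x
  simp only [mem_dil]
  constructor
  · rintro ⟨_, ⟨a, ha, rfl⟩, rfl⟩
    exact ⟨a, ha, mul_smul _ _ _⟩
  · rintro ⟨a, ha, rfl⟩
    exact ⟨d • a, ⟨a, ha, rfl⟩, (mul_smul _ _ _).symm⟩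

/-- The triangle inequality for dilates: sums of products of dilates are small. -/
theorem mul_small (A : Finset Γ) (hA : A.Nonempty) (l μ : F) (L : ℝ)
    (hl : ((A + dil l A).card : ℝ) ≤ L * A.card)
    (h : ((A + dil μ A).card : ℝ) ≤ L * A.card) :
    ((A + dil (l * μ) A).card : ℝ) ≤ L ^ 2 * A.card := by
  have h0 : (0 : ℝ) < A.card := by exact_mod_cast hA.card_pos
  have hL : 1 ≤ L := one_le_of A hA h
  by_cases hl0 : l = 0
  · subst hl0
    rw [zero_mul]
    refine hl.trans ?_
    have : L ≤ L ^ 2 := by nlinarith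
    gcongr
  have h1 := ruzsa_triangle_inequality_add_add_add A (dil l A) (dil (l * μ) A)
  rw [← dil_dil, ← dil_add, card_dil hl0, card_dil hl0] at h1
  have h2 : ((A + dil l (dil μ A)).card : ℝ) * A.card ≤ (A + dil l A).card * (A + dil μ A).card := by
    exact_mod_cast h1
  have h3 : ((A + dil l A).card : ℝ) * (A + dil μ A).card ≤ (L * A.card) * (L * A.card) := by
    gcongr
  have h4 : ((A + dil l (dil μ A)).card : ℝ) * A.card ≤ (L ^ 2 * A.card) * A.card := by
    calc _ ≤ _ := h2.trans h3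
      _ = _ := by ring
  rw [← dil_dil]
  exact le_of_mul_le_mul_right h4 h0

/-- One small nonzero dilate makes `A + A` small. -/
theorem double_small (A : Finset Γ) {u : F} (hA : A.Nonempty) (hu : u ≠ 0) (K : ℝ)
    (h : ((A + dil u A).card : ℝ) ≤ K * A.card) :
    ((A + dil (1 : F) A).card : ℝ) ≤ K ^ 2 * A.card := by
  have h0 : (0 : ℝ) < A.card := by exact_mod_cast hA.card_pos
  have h1 := ruzsa_triangle_inequality_add_add_add A (dil u A) A
  rw [card_dil hu, add_comm (dil u A) A] at h1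
  have h2 : ((A + A).card : ℝ) * A.card ≤ (A + dil u A).card * (A + dil u A).card := by
    exact_mod_cast h1
  have h3 : ((A + dil u A).card : ℝ) * (A + dil u A).card ≤ (K * A.card) * (K * A.card) := by
    have : (0 : ℝ) ≤ K * A.card := le_trans (Nat.cast_nonneg _) h
    gcongr
  have h4 : ((A + A).card : ℝ) * A.card ≤ (K ^ 2 * A.card) * A.card := by
    calc _ ≤ _ := h2.trans h3
      _ = _ := by ring
  rw [dil_one]
  exact le_of_mul_le_mul_right h4 h0

/-- One step of the iteration. -/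
theorem step (A : Finset Γ) (hA : A.Nonempty) (U : Finset F) (L : ℝ) (hcard : 2 ≤ U.card)
    (hU : ∀ u ∈ U, ((A + dil u A).card : ℝ) ≤ L * A.card) :
    (∀ n : ℕ, ((A + dil (n : F) A).card : ℝ) ≤ (4 * L) ^ 4 * A.card) ∨
    ∃ U' : Finset F, U'.card = U.card ^ 2 ∧
      ∀ u ∈ U', ((A + dil u A).card : ℝ) ≤ (7 * L ^ 2) ^ 7 * A.card := by
  have h0 : (0 : ℝ) < A.card := by exact_mod_cast hA.card_pos
  obtain ⟨u₁, hu₁, u₂, hu₂, hne⟩ := Finset.one_lt_card.1 hcard
  have hL : 1 ≤ L := one_le_of A hA (hU u₁ hu₁)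
  -- a nonzero element of `U`
  obtain ⟨u₀, hu₀, hu₀0⟩ : ∃ u ∈ U, u ≠ 0 := by
    by_cases h : u₁ = 0
    · exact ⟨u₂, hu₂, fun h2 => hne (h.trans h2.symm)⟩
    · exact ⟨u₁, hu₁, h⟩
  have hone := double_small A hA hu₀0 L (hU u₀ hu₀)
  let P : ℕ → Prop := fun n => ∃ a ∈ U, ∃ b ∈ U, ∃ c ∈ U, ∃ d ∈ U, c ≠ d ∧ (n : F) * (c - d) = a - b
  by_cases hP : ∀ n, P n
  · left
    intro n
    obtain ⟨a, ha, b, hb, c, hc, d, hd, hcd, he⟩ := hP n
    have hcd' : c - d ≠ 0 := sub_ne_zero.2 hcd
    set V : Finset F := {a, b, c, d} with hV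
    have hVc : V.card ≤ 4 := card_le_four
    have hVs : ∀ v ∈ V, ((A + dil v A).card : ℝ) ≤ L * A.card := by
      intro v hv
      simp only [hV, mem_insert, mem_singleton] at hv
      rcases hv with rfl | rfl | rfl | rfl
      · exact hU _ ha
      · exact hU _ hb
      · exact hU _ hc
      · exact hU _ hd
    have h1 := union_trick A hA V L hVs 2 2
    have h2 : (dil (c - d) (A + dil (n : F) A)) ⊆ 2 • uni V A - 2 • uni V A := by
      intro x hx
      obtain ⟨y, hy, rfl⟩ := mem_dil.1 hx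
      obtain ⟨p, hp, q', hq', rfl⟩ := mem_add.1 hy
      obtain ⟨q, hq, rfl⟩ := mem_dil.1 hq'
      have h3 : (c - d) • (p + (n : F) • q) = (c • p + a • q) - (d • p + b • q) := by
        rw [smul_add, smul_smul, mul_comm, he, sub_smul, sub_smul]
        abel
      rw [h3, two_nsmul]
      refine sub_mem_sub (add_mem_add ?_ ?_) (add_mem_add ?_ ?_)
      · exact smul_mem_uni (by simp [hV]) hp
      · exact smul_mem_uni (by simp [hV]) hq
      · exact smul_mem_uni (by simp [hV]) hp
      · exact smul_mem_uni (by simp [hV]) hq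
    have h4 := card_le_card h2
    rw [card_dil hcd'] at h4
    have h5 : ((A + dil (n : F) A).card : ℝ) ≤ ((2 • uni V A - 2 • uni V A).card : ℝ) := by
      exact_mod_cast h4
    refine h5.trans (h1.trans ?_)
    have h6 : (V.card : ℝ) ≤ 4 := by exact_mod_cast hVc
    gcongr
  · right
    push Not at hP
    -- least natural number outside
    obtain ⟨n, hn, hmin⟩ : ∃ n, ¬ P n ∧ ∀ m < n, P m := by
      refine ⟨Nat.find hP, Nat.find_spec hP, fun m hm => ?_⟩
      by_contra h
      exact Nat.find_min hP hm h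
    have hn0 : n ≠ 0 := by
      rintro rfl
      exact hn ⟨u₁, hu₁, u₁, hu₁, u₁, hu₁, u₂, hu₂, hne, by simp⟩
    obtain ⟨m, rfl⟩ := Nat.exists_eq_succ_of_ne_zero hn0
    obtain ⟨a, ha, b, hb, c, hc, d, hd, hcd, he⟩ := hmin m (Nat.lt_succ_self m)
    have hcd' : c - d ≠ 0 := sub_ne_zero.2 hcd
    have he' : a - b + (c - d) = ((m.succ : ℕ) : F) * (c - d) := by
      push_cast
      rw [add_mul, he]
      ring
    let f : F × F → F := fun p => (c - d) * p.1 + (a - b + (c - d)) * p.2
    have hinj : Set.InjOn f (U ×ˢ U : Finset (F × F)) := by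
      rintro ⟨x, y⟩ hxy ⟨z, w⟩ hzw h
      simp only [coe_product, Set.mem_prod, mem_coe] at hxy hzw
      simp only [f] at h
      by_cases hyw : y = w
      · subst hyw
        have : (c - d) * x = (c - d) * z := by linear_combination h
        have := mul_left_cancel₀ hcd' this
        rw [this]
      · exfalso
        apply hn
        refine ⟨z, hzw.1, x, hxy.1, y, hxy.2, w, hzw.2, hyw, ?_⟩
        have h7 : (c - d) * (((m.succ : ℕ) : F) * (y - w)) = (c - d) * (z - x) := by
          rw [he'] at h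
          linear_combination h
        exact mul_left_cancel₀ hcd' h7
    refine ⟨(U ×ˢ U).image f, ?_, ?_⟩
    · rw [card_image_of_injOn hinj, card_product, sq]
    · intro t ht
      obtain ⟨⟨u, u'⟩, huu, rfl⟩ := mem_image.1 ht
      rw [mem_product] at huu
      obtain ⟨hu, hu'⟩ := huu
      simp only at hu hu'
      set V : Finset F := {1, c * u, d * u, a * u', b * u', c * u', d * u'} with hV
      have hVc : V.card ≤ 7 := by
        rw [hV]
        refine (card_insert_le _ _).trans ?_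
        have := card_le_six (a := c * u) (b := d * u) (c := a * u') (d := b * u') (e := c * u')
          (f := d * u')
        omega
      have hVs : ∀ v ∈ V, ((A + dil v A).card : ℝ) ≤ L ^ 2 * A.card := by
        intro v hv
        simp only [hV, mem_insert, mem_singleton] at hv
        rcases hv with rfl | rfl | rfl | rfl | rfl | rfl | rfl
        · exact hone
        all_goals exact mul_small A hA _ _ L (hU _ ‹_›) (hU _ ‹_›)
      have h1 := union_trick A hA V (L ^ 2) hVs 4 3
      have h2 : A + dil (f (u, u')) A ⊆ 4 • uni V A - 3 • uni V A := by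
        intro x hx
        obtain ⟨p, hp, q', hq', rfl⟩ := mem_add.1 hx
        obtain ⟨q, hq, rfl⟩ := mem_dil.1 hq'
        have h3 : p + f (u, u') • q = ((1 : F) • p + (c * u) • q + (a * u') • q + (c * u') • q)
            - ((d * u) • q + (b * u') • q + (d * u') • q) := by
          have : f (u, u') = c * u + a * u' + c * u' - (d * u + b * u' + d * u') := by
            simp only [f]; ring
          rw [this, sub_smul, add_smul, add_smul, add_smul, add_smul, one_smul]
          abel
        have e4 : (4 : ℕ) • uni V A = uni V A + uni V A + uni V A + uni V A := by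
          rw [show (4 : ℕ) = 3 + 1 from rfl, succ_nsmul, show (3 : ℕ) = 2 + 1 from rfl, succ_nsmul,
            two_nsmul]
        have e3 : (3 : ℕ) • uni V A = uni V A + uni V A + uni V A := by
          rw [show (3 : ℕ) = 2 + 1 from rfl, succ_nsmul, two_nsmul]
        rw [h3, e4, e3]
        refine sub_mem_sub (add_mem_add (add_mem_add (add_mem_add ?_ ?_) ?_) ?_)
          (add_mem_add (add_mem_add ?_ ?_) ?_)
        · exact smul_mem_uni (by simp [hV]) hp
        all_goals exact smul_mem_uni (by simp [hV]) hq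
      have h4 : ((A + dil (f (u, u')) A).card : ℝ) ≤ ((4 • uni V A - 3 • uni V A).card : ℝ) := by
        exact_mod_cast card_le_card h2
      refine h4.trans (h1.trans ?_)
      have h6 : (V.card : ℝ) ≤ 7 := by exact_mod_cast hVc
      gcongr

/-- The iteration. -/
theorem iterate (A : Finset Γ) (hA : A.Nonempty) (U : Finset F) (K : ℝ) (hcard : 2 ≤ U.card)
    (hU : ∀ u ∈ U, ((A + dil u A).card : ℝ) ≤ K * A.card) : ∀ j : ℕ,
    (∀ n : ℕ, ((A + dil (n : F) A).card : ℝ) ≤ (7 * K) ^ (21 ^ j) * A.card) ∨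
    ∃ U' : Finset F, U'.card = U.card ^ (2 ^ j) ∧
      ∀ u ∈ U', ((A + dil u A).card : ℝ) ≤ (7 * K) ^ (21 ^ j) * A.card := by
  obtain ⟨u₁, hu₁⟩ : U.Nonempty := card_pos.1 (by omega)
  have hK : 1 ≤ K := one_le_of A hA (hU u₁ hu₁)
  have h7 : (1 : ℝ) ≤ 7 * K := by linarith
  intro j
  induction j with
  | zero =>
    right
    refine ⟨U, by simp, fun u hu => (hU u hu).trans ?_⟩
    have : K ≤ (7 * K) ^ (21 ^ 0) := by rw [pow_zero, pow_one]; linarith
    gcongr
  | succ j ih =>
    have hmono : (7 * K) ^ (21 ^ j) ≤ (7 * K) ^ (21 ^ (j + 1)) :=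
      pow_le_pow_right₀ h7 (Nat.pow_le_pow_right (by norm_num) (by omega))
    rcases ih with h | ⟨U', hU'c, hU'⟩
    · left
      intro n
      refine (h n).trans ?_
      gcongr
    · have hc2 : 2 ≤ U'.card := by
        rw [hU'c]
        calc 2 ≤ U.card := hcard
          _ = U.card ^ 1 := (pow_one _).symm
          _ ≤ U.card ^ (2 ^ j) := Nat.pow_le_pow_right (by omega) (Nat.one_le_two_pow)
      set L : ℝ := (7 * K) ^ (21 ^ j) with hL
      have hL1 : 1 ≤ L := one_le_pow₀ h7
      have h21 : 1 ≤ 21 ^ j := Nat.one_le_pow _ _ (by norm_num)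
      rcases step A hA U' L hc2 hU' with h | ⟨U'', hU''c, hU''⟩
      · left
        intro n
        refine (h n).trans ?_
        have : (4 * L) ^ 4 ≤ (7 * K) ^ (21 ^ (j + 1)) := by
          calc (4 * L) ^ 4 ≤ ((7 * K) * L) ^ 4 := by
                gcongr
                linarith
            _ = (7 * K) ^ (4 * (21 ^ j + 1)) := by
                rw [hL, ← pow_succ', ← pow_mul]
                ring_nf
            _ ≤ (7 * K) ^ (21 ^ (j + 1)) := by
                apply pow_le_pow_right₀ h7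
                rw [pow_succ]
                omega
        gcongr
      · right
        refine ⟨U'', ?_, fun u hu => (hU'' u hu).trans ?_⟩
        · rw [hU''c, hU'c, ← pow_mul, ← pow_succ]
        · have : (7 * L ^ 2) ^ 7 ≤ (7 * K) ^ (21 ^ (j + 1)) := by
            calc (7 * L ^ 2) ^ 7 ≤ ((7 * K) * L ^ 2) ^ 7 := by
                  gcongr
                  linarith
              _ = (7 * K) ^ ((2 * 21 ^ j + 1) * 7) := by
                  rw [hL, ← pow_mul (7 * K) (21 ^ j) 2, ← pow_succ', ← pow_mul]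
                  ring_nf
              _ ≤ (7 * K) ^ (21 ^ (j + 1)) := by
                  apply pow_le_pow_right₀ h7
                  rw [pow_succ]
                  omega
          gcongr

/-- Few small dilates. -/
theorem few (A : Finset Γ) (U : Finset F) (L : ℝ) (hL : 0 ≤ L)
    (hU : ∀ u ∈ U, ((A + dil u A).card : ℝ) ≤ L * A.card) (hbig : L < A.card) :
    U.card ≤ A.card ^ 4 := by
  have hex : ∀ u : F, ∃ q : (Γ × Γ) × (Γ × Γ), u ∈ U →
      (q.1 ∈ A ×ˢ A ∧ q.2 ∈ A ×ˢ A) ∧ q.1.2 ≠ q.2.2 ∧ u • (q.1.2 - q.2.2) = q.2.1 - q.1.1 := by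
    intro u
    by_cases hu : u ∈ U
    · have h1 : (A + dil u A).card < (A ×ˢ A).card := by
        have h2 := hU u hu
        have h3 : ((A + dil u A).card : ℝ) < ((A ×ˢ A).card : ℝ) := by
          rw [card_product]
          push_cast
          have : (0 : ℝ) < A.card := lt_of_le_of_lt hL hbig
          nlinarith
        exact_mod_cast h3
      obtain ⟨x, hx, y, hy, hxy, he⟩ := Finset.exists_ne_map_eq_of_card_lt_of_maps_to h1
        (f := fun p : Γ × Γ => p.1 + u • p.2) (fun p hp => by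
          have hp' := mem_product.1 (mem_coe.1 hp)
          exact mem_coe.2 (add_mem_add hp'.1 (smul_mem_dil u hp'.2)))
      refine ⟨(x, y), fun _ => ⟨⟨hx, hy⟩, ?_, ?_⟩⟩
      · intro h2
        simp only at he h2
        rw [h2] at he
        exact hxy (Prod.ext (add_right_cancel he) h2)
      · simp only at he ⊢
        rw [smul_sub, sub_eq_sub_iff_add_eq_add, add_comm, he, add_comm]
    · exact ⟨((0, 0), (0, 0)), fun h => absurd h hu⟩
  choose q hq using hex
  have h4 : A.card ^ 4 = ((A ×ˢ A) ×ˢ (A ×ˢ A)).card := by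
    rw [card_product, card_product]; ring
  rw [h4]
  refine card_le_card_of_injOn q (fun u hu => ?_) ?_
  · exact mem_coe.2 (mem_product.2 (hq u hu).1)
  · intro u hu v hv huv
    have h1 := (hq u hu).2
    have h2 := (hq v hv).2
    rw [← huv] at h2
    have h3 : u • ((q u).1.2 - (q u).2.2) = v • ((q u).1.2 - (q u).2.2) := by
      rw [h1.2, h2.2]
    have h5 : (u - v) • ((q u).1.2 - (q u).2.2) = 0 := by
      rw [sub_smul, h3, sub_self]
    rcases smul_eq_zero.1 h5 with h | h
    · exact sub_eq_zero.1 h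
    · exact absurd (sub_eq_zero.1 h) h1.1

/-- All natural dilates are small, or `A` is small. -/
theorem main (A : Finset Γ) (hA : A.Nonempty) (U : Finset F) (K : ℝ) (j : ℕ)
    (hU : ∀ u ∈ U, ((A + dil u A).card : ℝ) ≤ K * A.card)
    (hj : (Finite F ∧ Nat.card F < U.card ^ (2 ^ j)) ∨ A.card ^ 4 < U.card ^ (2 ^ j)) :
    (∀ n : ℕ, ((A + dil (n : F) A).card : ℝ) ≤ (7 * K) ^ (21 ^ j) * A.card) ∨
    (A.card : ℝ) ≤ (7 * K) ^ (21 ^ j) := by
  have hcard : 2 ≤ U.card := by
    by_contra h
    have h1 : U.card ^ (2 ^ j) ≤ 1 := by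
      have : U.card ≤ 1 := by omega
      exact pow_le_one₀ (by omega) this
    rcases hj with ⟨hf, h2⟩ | h2
    · have : 0 < Nat.card F := Nat.card_pos
      omega
    · have : 0 < A.card ^ 4 := pow_pos hA.card_pos 4
      omega
  rcases iterate A hA U K hcard hU j with h | ⟨U', hc, hU'⟩
  · exact Or.inl h
  · right
    obtain ⟨u₁, hu₁⟩ : U.Nonempty := card_pos.1 (by omega)
    have hK : 1 ≤ K := one_le_of A hA (hU u₁ hu₁)
    rcases hj with ⟨hf, h2⟩ | h2
    · exfalso
      have := Fintype.ofFinite F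
      have := card_le_univ U'
      rw [Nat.card_eq_fintype_card] at h2
      omega
    · by_contra h3
      push Not at h3
      have := few A U' _ (by positivity) hU' h3
      omega

end Field

end Pool.Agent.Q115.SD
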