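import Pool.Agent.TH414.UD.Q1
import Pool.Agent.TH414.Dil.Final
import Pool.Agent.Q115.SD

set_option autoImplicit false
open scoped Classical Pointwise

universe u v

namespace Pool.Agent.Q115.SDC

variable {Γ : Type u} [AddCommGroup Γ]

/-- The trivial covering of `A` by `|A|` translates of a point. -/
theorem point (A : Finset Γ) (hA : A.Nonempty) :
    ∃ (B : Set (Fin 1 → ℝ)) (ψ : (Fin 1 → ℤ) →+ Γ) (H : AddSubgroup Γ) (T : Finset Γ),
      Convex ℝ B ∧ IsCompact B ∧ (interior B).Nonempty ∧ (∀ x ∈ B, -x ∈ B) ∧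
      Finite H ∧
      {x : Fin 1 → ℤ | (fun i => (x i : ℝ)) ∈ B}.ncard * Nat.card H ≤ A.card ∧
      T.card = A.card ∧
      ∀ a ∈ A, ∃ t ∈ T, ∃ x : Fin 1 → ℤ, (fun i => (x i : ℝ)) ∈ B ∧
        ∃ h ∈ H, a = t + ψ x + h := by
  refine ⟨Metric.closedBall 0 (1 / 2), 0, ⊥, A, convex_closedBall _ _,
    isCompact_closedBall _ _, ?_, ?_, inferInstance, ?_, rfl, ?_⟩
  · exact ⟨0, Metric.ball_subset_interior_closedBall (Metric.mem_ball_self (by norm_num))⟩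
  · intro x hx
    rw [mem_closedBall_zero_iff] at hx ⊢
    rwa [norm_neg]
  · have h1 : {x : Fin 1 → ℤ | (fun i => (x i : ℝ)) ∈
        Metric.closedBall (0 : Fin 1 → ℝ) (1 / 2)} = {0} := by
      ext x
      simp only [Set.mem_ofPred_eq, Set.mem_singleton_iff, mem_closedBall_zero_iff]
      constructor
      · intro h1
        funext i
        have h3 := (norm_le_pi_norm (fun i => (x i : ℝ)) i).trans h1
        rw [Real.norm_eq_abs, abs_le] at h3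
        have h5 : (-1 : ℝ) < (x i : ℝ) := by linarith [h3.1]
        have h6 : (x i : ℝ) < 1 := by linarith [h3.2]
        have h7 : (-1 : ℤ) < x i := by exact_mod_cast h5
        have h8 : x i < 1 := by exact_mod_cast h6
        simp only [Pi.zero_apply]
        omega
      · rintro rfl
        rw [pi_norm_le_iff_of_nonneg (by norm_num)]
        intro i
        simp
    rw [h1, Set.ncard_singleton]
    have h2 : Nat.card (⊥ : AddSubgroup Γ) = 1 := by simp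
    rw [h2]
    exact hA.card_pos
  · intro a ha
    refine ⟨a, ha, 0, ?_, 0, rfl, by simp⟩
    rw [mem_closedBall_zero_iff, pi_norm_le_iff_of_nonneg (by norm_num)]
    intro i
    simp

/-- The conclusions from small dilates (or from a small set). -/
theorem concl (A : Finset Γ) (hA : A.Nonempty) (L : ℝ)
    (h : (∀ n : ℕ, ((A + A.image fun x => n • x).card : ℝ) ≤ L * A.card) ∨ (A.card : ℝ) ≤ L) :
    (∃ (H : AddSubgroup Γ) (T : Finset Γ), Finite H ∧ (T.card : ℝ) ≤ L ∧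
      ∀ a ∈ A, ∃ t ∈ T, a - t ∈ H) ∧
    (∃ (H : AddSubgroup Γ) (T : Finset Γ), Finite H ∧ (Nat.card H : ℝ) ≤ L ^ 5404 * A.card ∧
      (T.card : ℝ) ≤ L ^ 5406 ∧ ∀ a ∈ A, ∃ t ∈ T, a - t ∈ H) ∧
    (∃ (B : Set (Fin 1 → ℝ)) (ψ : (Fin 1 → ℤ) →+ Γ) (H : AddSubgroup Γ) (T : Finset Γ),
      Convex ℝ B ∧ IsCompact B ∧ (interior B).Nonempty ∧ (∀ x ∈ B, -x ∈ B) ∧
      Finite H ∧
      {x : Fin 1 → ℤ | (fun i => (x i : ℝ)) ∈ B}.ncard * Nat.card H ≤ A.card ∧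
      (T.card : ℝ) ≤ 8 * L ^ 10812 ∧
      ∀ a ∈ A, ∃ t ∈ T, ∃ x : Fin 1 → ℤ, (fun i => (x i : ℝ)) ∈ B ∧
        ∃ h ∈ H, a = t + ψ x + h) ∧
    ((∀ p : ℕ, p.Prime → (p : ℝ) ≤ 16 * L ^ 4 → ∀ x : Γ, p • x = 0 → x = 0) →
      (∃ (H : AddSubgroup Γ) (T : Finset Γ), Finite H ∧ (Nat.card H : ℝ) ≤ 2 * L * A.card ∧
        (T.card : ℝ) ≤ L ∧ ∀ a ∈ A, ∃ t ∈ T, a - t ∈ H) ∧
      (∃ (B : Set (Fin 1 → ℝ)) (ψ : (Fin 1 → ℤ) →+ Γ) (H : AddSubgroup Γ) (T : Finset Γ),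
        Convex ℝ B ∧ IsCompact B ∧ (interior B).Nonempty ∧ (∀ x ∈ B, -x ∈ B) ∧
        Finite H ∧
        {x : Fin 1 → ℤ | (fun i => (x i : ℝ)) ∈ B}.ncard * Nat.card H ≤ A.card ∧
        (T.card : ℝ) ≤ 8 * L ^ 2 ∧
        ∀ a ∈ A, ∃ t ∈ T, ∃ x : Fin 1 → ℤ, (fun i => (x i : ℝ)) ∈ B ∧
          ∃ h ∈ H, a = t + ψ x + h)) := by
  have hA0 : (0 : ℝ) < A.card := by exact_mod_cast hA.card_pos
  have hA1 : (1 : ℝ) ≤ A.card := by exact_mod_cast hA.card_pos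
  have hL : 1 ≤ L := by
    rcases h with h | h
    · have h1 := h 0
      have h2 : (A.card : ℝ) ≤ ((A + A.image (fun a => 0 • a)).card : ℝ) := by
        have hne : (A.image (fun a : Γ => 0 • a)).Nonempty := hA.image _
        exact_mod_cast Finset.card_le_card_add_right hne
      nlinarith
    · linarith
  rcases h with h | h
  · refine ⟨?_, (Pool.Agent.TH414.UD.q1A A hA L h).1, (Pool.Agent.TH414.UD.q1A A hA L h).2,
      fun hΓ => ⟨?_, ?_⟩⟩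
    · obtain ⟨U, hfin, hc⟩ := Pool.Agent.TH414.Dil.start A hA L h
      obtain ⟨X, hX, hcov⟩ := Pool.Agent.TH414.Dil.reps U A
      exact ⟨U, X, hfin, by rw [hX]; exact hc, hcov⟩
    · obtain ⟨U, hfin, hc, hU⟩ := Pool.Agent.TH414.Dil.structure_thm A hA L hL hΓ h
      obtain ⟨X, hX, hcov⟩ := Pool.Agent.TH414.Dil.reps U A
      exact ⟨U, X, hfin, hU, by rw [hX]; exact hc, hcov⟩
    · obtain ⟨U, hfin, hc, hU⟩ := Pool.Agent.TH414.Dil.structure_thm A hA L hL hΓ h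
      exact Pool.Agent.TH414.Dil.q1_form A hA L hL U hc hU
  · have hp : ∀ k : ℕ, k ≠ 0 → L ≤ L ^ k := fun k hk => le_self_pow₀ hL hk
    have hq : ∀ k : ℕ, 1 ≤ L ^ k := fun k => one_le_pow₀ hL
    have hbot : (Nat.card (⊥ : AddSubgroup Γ) : ℝ) = 1 := by simp
    have htriv : ∀ a ∈ A, ∃ t ∈ A, a - t ∈ (⊥ : AddSubgroup Γ) :=
      fun a ha => ⟨a, ha, by simp⟩
    obtain ⟨B, ψ, H, T, h1, h2, h3, h4, h5, h6, h7, h8⟩ := point A hA
    refine ⟨⟨⊥, A, inferInstance, h, htriv⟩, ⟨⊥, A, inferInstance, ?_, ?_, htriv⟩,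
      ⟨B, ψ, H, T, h1, h2, h3, h4, h5, h6, ?_, h8⟩, fun _ => ⟨⟨⊥, A, inferInstance, ?_, h, htriv⟩,
      ⟨B, ψ, H, T, h1, h2, h3, h4, h5, h6, ?_, h8⟩⟩⟩
    · rw [hbot]
      have := hq 5404
      nlinarith
    · exact h.trans (hp 5406 (by norm_num))
    · rw [h7]
      have := hp 10812 (by norm_num)
      linarith
    · rw [hbot]
      nlinarith
    · rw [h7]
      have := hp 2 (by norm_num)
      linarith

end Pool.Agent.Q115.SDC
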