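import Pool.Agent.Q115.SDC

set_option autoImplicit false
open scoped Classical Pointwise

universe u v

namespace Pool.Agent.Q115.SDD

theorem smallDilates (F : Type v) [Field F] (Γ : Type u) [AddCommGroup Γ] [Module F Γ]
    (K : ℝ) (A : Finset Γ) (hA : A.Nonempty) (U : Finset F) (j : ℕ)
    (hU : ∀ u ∈ U, ((A + A.image (fun a => u • a)).card : ℝ) ≤ K * (A.card : ℝ))
    (hj : (Finite F ∧ Nat.card F < U.card ^ (2 ^ j)) ∨ A.card ^ 4 < U.card ^ (2 ^ j))
    (L : ℝ) (hL : L = (7 * K) ^ (21 ^ j)) :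
    ((∀ n : ℕ, ((A + A.image (fun a => n • a)).card : ℝ) ≤ L * A.card) ∨ (A.card : ℝ) ≤ L) ∧
    (∃ (H : AddSubgroup Γ) (T : Finset Γ), Finite H ∧ (T.card : ℝ) ≤ L ∧
      ∀ a ∈ A, ∃ t ∈ T, a - t ∈ H) ∧
    (∃ (H : AddSubgroup Γ) (T : Finset Γ), Finite H ∧ (Nat.card H : ℝ) ≤ L ^ 5404 * A.card ∧
      (T.card : ℝ) ≤ L ^ 5406 ∧ ∀ a ∈ A, ∃ t ∈ T, a - t ∈ H) ∧
    (∃ (B : Set (Fin 1 → ℝ)) (ψ : (Fin 1 → ℤ) →+ Γ) (H : AddSubgroup Γ) (T : Finset Γ),
      Convex ℝ B ∧ IsCompact B ∧ (interior B).Nonempty ∧ (∀ x ∈ B, -x ∈ B) ∧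
      Finite H ∧
      {x : Fin 1 → ℤ | (fun i => (x i : ℝ)) ∈ B}.ncard * Nat.card H ≤ A.card ∧
      (T.card : ℝ) ≤ 8 * L ^ 10812 ∧
      ∀ a ∈ A, ∃ t ∈ T, ∃ x : Fin 1 → ℤ, (fun i => (x i : ℝ)) ∈ B ∧
        ∃ h ∈ H, a = t + ψ x + h) ∧
    (((ringChar F : ℝ) = 0 ∨ 16 * L ^ 4 < ringChar F) →
      (∃ (H : AddSubgroup Γ) (T : Finset Γ), Finite H ∧ (Nat.card H : ℝ) ≤ 2 * L * A.card ∧
        (T.card : ℝ) ≤ L ∧ ∀ a ∈ A, ∃ t ∈ T, a - t ∈ H) ∧
      (∃ (B : Set (Fin 1 → ℝ)) (ψ : (Fin 1 → ℤ) →+ Γ) (H : AddSubgroup Γ) (T : Finset Γ),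
        Convex ℝ B ∧ IsCompact B ∧ (interior B).Nonempty ∧ (∀ x ∈ B, -x ∈ B) ∧
        Finite H ∧
        {x : Fin 1 → ℤ | (fun i => (x i : ℝ)) ∈ B}.ncard * Nat.card H ≤ A.card ∧
        (T.card : ℝ) ≤ 8 * L ^ 2 ∧
        ∀ a ∈ A, ∃ t ∈ T, ∃ x : Fin 1 → ℤ, (fun i => (x i : ℝ)) ∈ B ∧
          ∃ h ∈ H, a = t + ψ x + h)) ∧
    (ringChar F = 0 → (A.card : ℝ) ≤ L) := by
  have h1 := Pool.Agent.Q115.SD.main A hA U K j hU hj
  have h2 : (∀ n : ℕ, ((A + A.image (fun a => n • a)).card : ℝ) ≤ L * A.card) ∨ (A.card : ℝ) ≤ L := by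
    rw [hL]
    rcases h1 with h | h
    · left
      intro n
      have h3 := h n
      have h4 : Pool.Agent.Q115.SD.dil (n : F) A
          = A.image (fun a => n • a) := by
        unfold Pool.Agent.Q115.SD.dil
        congr 1
        funext a
        exact Nat.cast_smul_eq_nsmul F n a
      rw [h4] at h3
      exact h3
    · exact Or.inr h
  obtain ⟨c1, c2, c3, c4⟩ := Pool.Agent.Q115.SDC.concl A hA L h2
  refine ⟨h2, c1, c2, c3, fun hch => c4 ?_, fun hch => ?_⟩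
  · intro p hp hp16 x hx
    have h5 : ((p : ℕ) : F) • x = 0 := by rw [Nat.cast_smul_eq_nsmul]; exact hx
    rcases smul_eq_zero.1 h5 with h6 | h6
    · exfalso
      have h7 : ringChar F ∣ p := ringChar.dvd h6
      rcases (Nat.dvd_prime hp).1 h7 with h8 | h8
      · have h9 : ((1 : ℕ) : F) = 0 := by
          rw [← h8]
          exact ringChar.Nat.cast_ringChar
        simp at h9
      · rcases hch with h9 | h9
        · rw [h8] at h9
          have : (p : ℝ) ≠ 0 := by exact_mod_cast hp.ne_zero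
          exact this h9
        · rw [h8] at h9
          linarith
    · exact h6
  · obtain ⟨H, T, hf, hT, hc⟩ := c1
    have : CharZero F := by
      have := ringChar.charP F
      rw [hch] at this
      exact CharP.charP_to_charZero F
    have hH : ∀ h ∈ H, h = 0 := by
      intro h hh
      have h10 : IsOfFinAddOrder (⟨h, hh⟩ : H) := isOfFinAddOrder_of_finite _
      rw [isOfFinAddOrder_iff_nsmul_eq_zero] at h10
      obtain ⟨n, hn, h11⟩ := h10
      have h12 : n • h = 0 := by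
        have := congrArg Subtype.val h11
        simpa using this
      have h13 : (n : F) • h = 0 := by rw [Nat.cast_smul_eq_nsmul]; exact h12
      rcases smul_eq_zero.1 h13 with h14 | h14
      · exact absurd h14 (by exact_mod_cast hn.ne')
      · exact h14
    have hsub : A ⊆ T := by
      intro a ha
      obtain ⟨t, ht, hat⟩ := hc a ha
      have := sub_eq_zero.1 (hH _ hat)
      rwa [this]
    have h15 : (A.card : ℝ) ≤ T.card := by exact_mod_cast Finset.card_le_card hsub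
    linarith

end Pool.Agent.Q115.SDD
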