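import Pool.Agent.Q115.GY2

/-! A regularity lemma with relative errors for weights which are square-integrable on all
partitions with a bounded number of classes. -/

set_option autoImplicit false

open Finset

namespace Pool.Agent.Q115.SR

open Pool.Agent.Q115.GY

section general

variable {Ω : Type*} [Fintype Ω] [DecidableEq Ω] {ι κ : Type*} [DecidableEq ι] [DecidableEq κ]

theorem avg_const (χ : Ω → ι) (f : Ω → ℝ) {p q : Ω} (h : χ p = χ q) : avg χ f p = avg χ f q := by
  unfold avg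
  rw [h]

theorem orth (χ : Ω → ι) (f g : Ω → ℝ) (hg : ∀ p q, χ p = χ q → g p = g q) :
    ∑ p, (f p - avg χ f p) * g p = 0 := by
  classical
  have hex : ∃ w : ι → ℝ, ∀ p, w (χ p) = g p := by
    refine ⟨fun c => if h : ∃ x, χ x = c then g h.choose else 0, ?_⟩
    intro x
    have h : ∃ x', χ x' = χ x := ⟨x, rfl⟩
    simp only [h, dif_pos]
    exact hg _ _ h.choose_spec
  obtain ⟨w, hw⟩ := hex
  rw [← avg_orth χ f w]
  exact sum_congr rfl (fun p _ => by rw [hw])

theorem sum_avg (χ : Ω → ι) (f : Ω → ℝ) : ∑ p, avg χ f p = ∑ p, f p := by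
  have := orth χ f (fun _ => 1) (fun _ _ _ => rfl)
  simp only [mul_one, sum_sub_distrib] at this
  linarith

theorem pythagoras (χ : Ω → ι) (χ' : Ω → κ) (href : ∀ p q, χ' p = χ' q → χ p = χ q)
    (f : Ω → ℝ) :
    ∑ p, avg χ' f p ^ 2 = ∑ p, avg χ f p ^ 2 + ∑ p, (avg χ' f p - avg χ f p) ^ 2 := by
  have h1 := orth χ f (avg χ f) (fun p q h => avg_const χ f h)
  have h2 := orth χ' f (avg χ f) (fun p q h => avg_const χ f (href p q h))
  have h3 : ∑ p, (avg χ' f p - avg χ f p) * avg χ f p = 0 := by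
    have : ∑ p, (avg χ' f p - avg χ f p) * avg χ f p =
        ∑ p, (f p - avg χ f p) * avg χ f p - ∑ p, (f p - avg χ' f p) * avg χ f p := by
      rw [← sum_sub_distrib]
      apply sum_congr rfl
      intro p _
      ring
    rw [this, h1, h2, sub_zero]
  have h4 : ∑ p, avg χ' f p ^ 2 = ∑ p, avg χ f p ^ 2 + ∑ p, (avg χ' f p - avg χ f p) ^ 2 +
      2 * ∑ p, (avg χ' f p - avg χ f p) * avg χ f p := by
    rw [mul_sum, ← sum_add_distrib, ← sum_add_distrib]
    apply sum_congr rfl
    intro p _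
    ring
  rw [h4, h3]
  ring

end general

variable {V : Type*} [Fintype V] [DecidableEq V]

/-- the sets of the family containing `x` -/
def col (F : Finset (Finset V)) (x : V) : Finset (Finset V) := F.filter (fun S => x ∈ S)

/-- colour of a pair -/
def col2 (F : Finset (Finset V)) (p : V × V) : Finset (Finset V) × Finset (Finset V) :=
  (col F p.1, col F p.2)

/-- the class of `x` -/
def cell (F : Finset (Finset V)) (x : V) : Finset V := univ.filter (fun y => col F y = col F x)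

theorem mem_cell (F : Finset (Finset V)) (x y : V) : y ∈ cell F x ↔ col F y = col F x := by
  simp [cell]

theorem self_mem_cell (F : Finset (Finset V)) (x : V) : x ∈ cell F x := by
  rw [mem_cell]

theorem cell_card_pos (F : Finset (Finset V)) (x : V) : 0 < (cell F x).card :=
  card_pos.2 ⟨x, self_mem_cell F x⟩

theorem cell_eq (F : Finset (Finset V)) {x y : V} (h : col F x = col F y) :
    cell F x = cell F y := by
  unfold cell
  rw [h]

theorem col_ref {F F' : Finset (Finset V)} (hF : F ⊆ F') {x y : V} (h : col F' x = col F' y) :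
    col F x = col F y := by
  have h1 : ∀ S ∈ F, (x ∈ S ↔ y ∈ S) := by
    intro S hS
    have h2 : S ∈ col F' x ↔ S ∈ col F' y := by rw [h]
    simp only [col, mem_filter, hF hS, true_and] at h2
    exact h2
  unfold col
  ext S
  simp only [mem_filter]
  constructor
  · rintro ⟨a, b⟩; exact ⟨a, (h1 S a).1 b⟩
  · rintro ⟨a, b⟩; exact ⟨a, (h1 S a).2 b⟩

theorem col2_ref {F F' : Finset (Finset V)} (hF : F ⊆ F') (p q : V × V)
    (h : col2 F' p = col2 F' q) : col2 F p = col2 F q := by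
  simp only [col2, Prod.mk.injEq] at h ⊢
  exact ⟨col_ref hF h.1, col_ref hF h.2⟩

theorem class_eq (F : Finset (Finset V)) (p : V × V) :
    univ.filter (fun q => col2 F q = col2 F p) = cell F p.1 ×ˢ cell F p.2 := by
  ext q
  simp only [mem_filter, mem_univ, true_and, col2, Prod.mk.injEq, mem_product, mem_cell]

/-- averages over the products of classes -/
noncomputable def E (F : Finset (Finset V)) (f : V × V → ℝ) (p : V × V) : ℝ := avg (col2 F) f p

theorem E_eq (F : Finset (Finset V)) (f : V × V → ℝ) (p : V × V) :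
    E F f p = (∑ q ∈ cell F p.1 ×ˢ cell F p.2, f q) /
      (((cell F p.1).card : ℝ) * ((cell F p.2).card : ℝ)) := by
  unfold E avg
  rw [class_eq, card_product]
  push_cast
  rfl

theorem E_nonneg (F : Finset (Finset V)) (f : V × V → ℝ) (hf : ∀ p, 0 ≤ f p) (p : V × V) :
    0 ≤ E F f p := by
  rw [E_eq]
  exact div_nonneg (sum_nonneg (fun q _ => hf q)) (by positivity)

/-- the energy -/
noncomputable def q (F : Finset (Finset V)) (f : V × V → ℝ) : ℝ := ∑ p, E F f p ^ 2

theorem q_ref {F F' : Finset (Finset V)} (hF : F ⊆ F') (f : V × V → ℝ) :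
    q F' f = q F f + ∑ p, (E F' f p - E F f p) ^ 2 :=
  pythagoras (col2 F) (col2 F') (fun p q h => col2_ref hF p q h) f

/-- weak regularity -/
def Weak (F : Finset (Finset V)) (f : V × V → ℝ) (γ : ℝ) : Prop :=
  ∀ S T : Finset V, |∑ p ∈ S ×ˢ T, (f p - E F f p)| ≤ γ * (Fintype.card V : ℝ) ^ 2

theorem cs (S T : Finset V) (g : V × V → ℝ) :
    (∑ p ∈ S ×ˢ T, g p) ^ 2 ≤ (S.card : ℝ) * T.card * ∑ p ∈ S ×ˢ T, g p ^ 2 := by
  have := sq_sum_le_card_mul_sum_sq (s := S ×ˢ T) (f := g)
  rw [card_product] at this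
  push_cast at this
  exact this

theorem weak_step (F : Finset (Finset V)) (f : V × V → ℝ) (γ : ℝ) (hγ : 0 < γ)
    (h : ¬ Weak F f γ) :
    ∃ F', F ⊆ F' ∧ F'.card ≤ F.card + 2 ∧
      q F f + γ ^ 2 * (Fintype.card V : ℝ) ^ 2 ≤ q F' f := by
  unfold Weak at h
  push Not at h
  obtain ⟨S, T, h⟩ := h
  refine ⟨insert S (insert T F), (subset_insert _ _).trans (subset_insert _ _), ?_, ?_⟩
  · have h1 := card_insert_le S (insert T F)
    have h2 := card_insert_le T F
    omega
  · set F' := insert S (insert T F) with hF'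
    have hsub : F ⊆ F' := (subset_insert _ _).trans (subset_insert _ _)
    rw [q_ref hsub]
    -- the sum over `S × T` is the same for `f` and `E F' f`
    have hSmem : ∀ x y, col F' x = col F' y → (x ∈ S ↔ y ∈ S) := by
      intro x y hxy
      have h2 : S ∈ col F' x ↔ S ∈ col F' y := by rw [hxy]
      simp only [col, mem_filter, hF', mem_insert_self, true_and] at h2
      exact h2
    have hTmem : ∀ x y, col F' x = col F' y → (x ∈ T ↔ y ∈ T) := by
      intro x y hxy
      have h2 : T ∈ col F' x ↔ T ∈ col F' y := by rw [hxy]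
      have hT : T ∈ F' := by rw [hF']; simp
      simp only [col, mem_filter, hT, true_and] at h2
      exact h2
    have h0 := orth (col2 F') f (fun p => if p ∈ S ×ˢ T then 1 else 0) (by
      intro p r hpr
      simp only [col2, Prod.mk.injEq] at hpr
      simp only [mem_product, hSmem _ _ hpr.1, hTmem _ _ hpr.2])
    have h1 : ∑ p ∈ S ×ˢ T, (f p - E F' f p) = 0 := by
      rw [← h0]
      simp only [mul_ite, mul_one, mul_zero]
      rw [sum_ite_mem, univ_inter]
      rfl
    have h2 : ∑ p ∈ S ×ˢ T, (f p - E F f p) = ∑ p ∈ S ×ˢ T, (E F' f p - E F f p) := by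
      have : ∑ p ∈ S ×ˢ T, (f p - E F f p) =
          ∑ p ∈ S ×ˢ T, (f p - E F' f p) + ∑ p ∈ S ×ˢ T, (E F' f p - E F f p) := by
        rw [← sum_add_distrib]
        apply sum_congr rfl
        intro p _
        ring
      rw [this, h1, zero_add]
    rw [h2] at h
    have h3 := cs S T (fun p => E F' f p - E F f p)
    set n : ℝ := (Fintype.card V : ℝ) with hn
    have hn0 : 0 ≤ n := Nat.cast_nonneg _
    have hSn : (S.card : ℝ) ≤ n := by rw [hn]; exact_mod_cast card_le_univ S
    have hTn : (T.card : ℝ) ≤ n := by rw [hn]; exact_mod_cast card_le_univ T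
    have hsum0 : 0 ≤ ∑ p ∈ S ×ˢ T, (E F' f p - E F f p) ^ 2 := sum_nonneg (fun p _ => sq_nonneg _)
    have hsumle : ∑ p ∈ S ×ˢ T, (E F' f p - E F f p) ^ 2 ≤ ∑ p, (E F' f p - E F f p) ^ 2 :=
      sum_le_sum_of_subset_of_nonneg (subset_univ _) (fun p _ _ => sq_nonneg _)
    have h4 : (γ * n ^ 2) ^ 2 < (∑ p ∈ S ×ˢ T, (E F' f p - E F f p)) ^ 2 := by
      rw [← sq_abs (∑ p ∈ S ×ˢ T, (E F' f p - E F f p))]
      exact pow_lt_pow_left₀ h (by positivity) (by norm_num)
    have h5 : (S.card : ℝ) * T.card * ∑ p ∈ S ×ˢ T, (E F' f p - E F f p) ^ 2 ≤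
        n * n * ∑ p, (E F' f p - E F f p) ^ 2 := by
      apply mul_le_mul _ hsumle hsum0 (by positivity)
      exact mul_le_mul hSn hTn (Nat.cast_nonneg _) hn0
    have hnpos : 0 < n := by
      rcases hn0.eq_or_lt with h' | h'
      · exfalso
        rw [← h'] at h4 h5
        have : (∑ p ∈ S ×ˢ T, (E F' f p - E F f p)) ^ 2 ≤ 0 := by
          refine h3.trans (h5.trans ?_)
          simp
        nlinarith [sq_nonneg (γ * (0 : ℝ) ^ 2)]
      · exact h'
    have h6 : γ ^ 2 * n ^ 2 * n ^ 2 < n ^ 2 * ∑ p, (E F' f p - E F f p) ^ 2 := by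
      calc γ ^ 2 * n ^ 2 * n ^ 2 = (γ * n ^ 2) ^ 2 := by ring
        _ < _ := h4
        _ ≤ _ := h3
        _ ≤ _ := h5
        _ = _ := by ring
    have h7 : γ ^ 2 * n ^ 2 < ∑ p, (E F' f p - E F f p) ^ 2 := by
      have : n ^ 2 * (γ ^ 2 * n ^ 2) < n ^ 2 * ∑ p, (E F' f p - E F f p) ^ 2 := by linarith
      exact lt_of_mul_lt_mul_left this (by positivity)
    linarith

theorem q_nonneg (F : Finset (Finset V)) (f : V × V → ℝ) : 0 ≤ q F f :=
  sum_nonneg (fun _ _ => sq_nonneg _)

theorem weak_lemma (f : V × V → ℝ) (C γ : ℝ) (hγ : 0 < γ) (K m : ℕ) (hK : C < K * γ ^ 2)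
    (hV : 0 < Fintype.card V)
    (hq : ∀ F : Finset (Finset V), F.card ≤ m + 2 * K → q F f ≤ C * (Fintype.card V : ℝ) ^ 2)
    (F : Finset (Finset V)) (hF : F.card ≤ m) :
    ∃ F', F ⊆ F' ∧ F'.card ≤ m + 2 * K ∧ Weak F' f γ := by
  by_contra hcon
  push Not at hcon
  have key : ∀ j, j ≤ K → ∃ F', F ⊆ F' ∧ F'.card ≤ m + 2 * j ∧
      j * γ ^ 2 * (Fintype.card V : ℝ) ^ 2 ≤ q F' f := by
    intro j
    induction j with
    | zero =>
      intro _
      refine ⟨F, subset_rfl, by omega, ?_⟩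
      simp only [Nat.cast_zero, zero_mul]
      exact q_nonneg F f
    | succ j ih =>
      intro hj
      obtain ⟨F', h1, h2, h3⟩ := ih (by omega)
      have h4 := hcon F' h1 (by omega)
      obtain ⟨F'', h5, h6, h7⟩ := weak_step F' f γ hγ h4
      refine ⟨F'', h1.trans h5, by omega, ?_⟩
      push_cast
      linarith
  obtain ⟨F', h1, h2, h3⟩ := key K le_rfl
  have h4 := hq F' h2
  have hn : (0 : ℝ) < (Fintype.card V : ℝ) ^ 2 := by
    have : (0 : ℝ) < Fintype.card V := by exact_mod_cast hV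
    positivity
  have h5 : C * (Fintype.card V : ℝ) ^ 2 < K * γ ^ 2 * (Fintype.card V : ℝ) ^ 2 :=
    mul_lt_mul_of_pos_right hK hn
  linarith

/-- the bounds for the sizes of the families -/
noncomputable def mm (C : ℝ) (γ : ℕ → ℝ) (m0 : ℕ) : ℕ → ℕ
  | 0 => m0
  | j + 1 => mm C γ m0 j + 2 * (⌊C / γ (mm C γ m0 j) ^ 2⌋₊ + 1)

theorem mm_mono (C : ℝ) (γ : ℕ → ℝ) (m0 : ℕ) : Monotone (mm C γ m0) := by
  apply monotone_nat_of_le_succ
  intro j
  simp only [mm]
  omega

theorem strong_lemma (f : V × V → ℝ) (C δ : ℝ) (γ : ℕ → ℝ) (hγ : ∀ m, 0 < γ m)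
    (m0 J : ℕ) (hJ : C < J * δ) (hV : 0 < Fintype.card V)
    (hq : ∀ F : Finset (Finset V), F.card ≤ mm C γ m0 J → q F f ≤ C * (Fintype.card V : ℝ) ^ 2)
    (F0 : Finset (Finset V)) (hF0 : F0.card ≤ m0) :
    ∃ j < J, ∃ F F', F0 ⊆ F ∧ F ⊆ F' ∧ F.card ≤ mm C γ m0 j ∧ F'.card ≤ mm C γ m0 (j + 1) ∧
      Weak F' f (γ (mm C γ m0 j)) ∧
      q F' f ≤ q F f + δ * (Fintype.card V : ℝ) ^ 2 := by
  by_contra hcon
  push Not at hcon
  have key : ∀ j, j ≤ J → ∃ F, F0 ⊆ F ∧ F.card ≤ mm C γ m0 j ∧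
      j * δ * (Fintype.card V : ℝ) ^ 2 ≤ q F f := by
    intro j
    induction j with
    | zero =>
      intro _
      refine ⟨F0, subset_rfl, by simpa [mm] using hF0, ?_⟩
      simp only [Nat.cast_zero, zero_mul]
      exact q_nonneg F0 f
    | succ j ih =>
      intro hj
      obtain ⟨F, h1, h2, h3⟩ := ih (by omega)
      obtain ⟨F', h4, h5, h6⟩ := weak_lemma f C (γ (mm C γ m0 j)) (hγ _)
        (⌊C / γ (mm C γ m0 j) ^ 2⌋₊ + 1) (mm C γ m0 j) (by
          have h7 := Nat.lt_floor_add_one (C / γ (mm C γ m0 j) ^ 2)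
          have h8 : 0 < γ (mm C γ m0 j) ^ 2 := by have := hγ (mm C γ m0 j); positivity
          rw [div_lt_iff₀ h8] at h7
          push_cast
          exact h7) hV
        (fun F hF => hq F (hF.trans (mm_mono C γ m0 hj))) F h2
      have h9 := hcon j (by omega) F F' h1 h4 h2 h5 h6
      refine ⟨F', h1.trans h4, h5, ?_⟩
      push_cast
      linarith
  obtain ⟨F, h1, h2, h3⟩ := key J le_rfl
  have h4 := hq F h2
  have hn : (0 : ℝ) < (Fintype.card V : ℝ) ^ 2 := by
    have : (0 : ℝ) < Fintype.card V := by exact_mod_cast hV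
    positivity
  have h5 : C * (Fintype.card V : ℝ) ^ 2 < J * δ * (Fintype.card V : ℝ) ^ 2 :=
    mul_lt_mul_of_pos_right hJ hn
  linarith

/-- number of classes and number of elements of small classes -/
theorem small_cells (F : Finset (Finset V)) (r : ℝ) (hr : 0 ≤ r) :
    ((univ.filter (fun x => ((cell F x).card : ℝ) < r)).card : ℝ) ≤ 2 ^ F.card * r := by
  classical
  set I := univ.filter (fun x => ((cell F x).card : ℝ) < r) with hI
  have h1 : I.card = ∑ c ∈ I.image (col F), (I.filter (fun x => col F x = c)).card :=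
    card_eq_sum_card_image (col F) I
  have h2 : ∀ c ∈ I.image (col F), ((I.filter (fun x => col F x = c)).card : ℝ) ≤ r := by
    intro c hc
    rw [mem_image] at hc
    obtain ⟨x, hx, rfl⟩ := hc
    rw [hI, mem_filter] at hx
    refine le_trans ?_ hx.2.le
    apply Nat.cast_le.2
    apply card_le_card
    intro y hy
    rw [mem_filter] at hy
    rw [mem_cell]
    exact hy.2
  rw [h1]
  push_cast
  refine (sum_le_sum h2).trans ?_
  rw [sum_const, nsmul_eq_mul]
  apply mul_le_mul_of_nonneg_right _ hr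
  have h3 : (I.image (col F)).card ≤ 2 ^ F.card := by
    rw [← card_powerset]
    apply card_le_card
    intro c hc
    rw [mem_image] at hc
    obtain ⟨x, _, rfl⟩ := hc
    rw [mem_powerset]
    exact filter_subset _ _
  exact_mod_cast h3

/-- a regular pair, with the error relative to the weight of the pair -/
def RegPair (f : V × V → ℝ) (ε : ℝ) (A B : Finset V) : Prop :=
  ∀ X ⊆ A, ∀ Y ⊆ B, |∑ p ∈ X ×ˢ Y, f p -
    (∑ p ∈ A ×ˢ B, f p) * X.card * Y.card / (A.card * B.card)| ≤ ε * ∑ p ∈ A ×ˢ B, f p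

end Pool.Agent.Q115.SR
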