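import Pool.Agent.Q115.SR2
import Pool.Agent.Q115.GZ1

/-! `K_{s,t}`-free graphs of bounded normalised degree are upper regular. -/

set_option autoImplicit false

open Finset

namespace Pool.Agent.Q115.SR

open Pool.Agent.Q115.GY Q116.KR Q116.ZK Pool.Agent.Q115.GX

theorem avg_sq_le {Ω : Type*} [Fintype Ω] [DecidableEq Ω] {ι : Type*} [DecidableEq ι]
    (χ : Ω → ι) (f : Ω → ℝ) : ∑ p, avg χ f p ^ 2 ≤ ∑ p, f p ^ 2 := by
  have h1 := orth χ f (avg χ f) (fun p q h => avg_const χ f h)
  have h2 : 0 ≤ ∑ p, (f p - avg χ f p) ^ 2 := sum_nonneg (fun _ _ => sq_nonneg _)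
  have h3 : ∑ p, f p ^ 2 = ∑ p, avg χ f p ^ 2 + ∑ p, (f p - avg χ f p) ^ 2 +
      2 * ∑ p, (f p - avg χ f p) * avg χ f p := by
    rw [mul_sum, ← sum_add_distrib, ← sum_add_distrib]
    apply sum_congr rfl
    intro p _
    ring
  rw [h1] at h3
  linarith

theorem inv_cells {V : Type*} [Fintype V] [DecidableEq V] (F : Finset (Finset V)) :
    ∑ x, 1 / ((cell F x).card : ℝ) ≤ 2 ^ F.card := by
  classical
  have h1 : ∑ x, 1 / ((cell F x).card : ℝ) =
      ∑ c ∈ univ.image (col F), ∑ x ∈ univ.filter (fun x => col F x = c),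
        1 / ((cell F x).card : ℝ) := by
    rw [sum_fiberwise_of_maps_to (fun x _ => mem_image_of_mem (col F) (mem_univ x))]
  have h2 : ∀ c ∈ univ.image (col F), ∑ x ∈ univ.filter (fun x => col F x = c),
        1 / ((cell F x).card : ℝ) = 1 := by
    intro c hc
    rw [mem_image] at hc
    obtain ⟨x0, _, rfl⟩ := hc
    have h3 : ∀ x ∈ univ.filter (fun x => col F x = col F x0),
        1 / ((cell F x).card : ℝ) = 1 / ((cell F x0).card : ℝ) := by
      intro x hx
      rw [mem_filter] at hx
      rw [cell_eq F hx.2]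
    rw [sum_congr rfl h3, sum_const, nsmul_eq_mul]
    have h4 : ((univ.filter (fun x => col F x = col F x0)).card : ℝ) = (cell F x0).card := rfl
    rw [h4]
    have h5 : (0 : ℝ) < (cell F x0).card := by exact_mod_cast cell_card_pos F x0
    exact mul_one_div_cancel h5.ne'
  rw [h1, sum_congr rfl h2, sum_const, nsmul_eq_mul, mul_one]
  have h3 : (univ.image (col F)).card ≤ 2 ^ F.card := by
    rw [← card_powerset]
    apply card_le_card
    intro c hc
    rw [mem_image] at hc
    obtain ⟨x, _, rfl⟩ := hc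
    rw [mem_powerset]
    exact filter_subset _ _
  exact_mod_cast h3

section

variable {V : Type} [Fintype V] [DecidableEq V]

theorem pow_choose (s c : ℕ) (hs : 1 ≤ s) :
    (c : ℝ) ^ s ≤ 2 ^ s * (s.factorial * (c.choose s : ℝ)) + (2 * s) ^ s := by
  by_cases h : c < 2 * s
  · have h1 : (c : ℝ) ≤ 2 * s := by exact_mod_cast h.le
    have h2 : (c : ℝ) ^ s ≤ (2 * s) ^ s := pow_le_pow_left₀ (Nat.cast_nonneg _) h1 s
    have h3 : (0 : ℝ) ≤ 2 ^ s * (s.factorial * (c.choose s : ℝ)) := by positivity
    linarith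
  · push Not at h
    have h1 := Nat.pow_le_choose (α := ℝ) s c
    rw [div_le_iff₀ (by positivity)] at h1
    have h2 : (c : ℝ) / 2 ≤ ((c + 1 - s : ℕ) : ℝ) := by
      rw [Nat.cast_sub (by omega)]
      push_cast
      have : (2 : ℝ) * s ≤ c := by exact_mod_cast h
      linarith
    have h3 : ((c : ℝ) / 2) ^ s ≤ s.factorial * (c.choose s : ℝ) := by
      refine (pow_le_pow_left₀ (by positivity) h2 s).trans ?_
      push_cast at h1 ⊢
      linarith
    rw [div_pow, div_le_iff₀ (by positivity)] at h3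
    have h4 : (0 : ℝ) ≤ (2 * s) ^ s := by positivity
    linarith

open Classical in
/-- the `s`-th moments of the degrees into a set -/
theorem moment (R : V → V → Prop) {s t : ℕ} (hs : 1 ≤ s) (ht : 1 ≤ t) (hR : NoST R s t)
    (H : Finset V) :
    ∑ b : V, ((H.filter (fun a => R a b)).card : ℝ) ^ s ≤
      2 ^ s * t * (H.card : ℝ) ^ s + (2 * s) ^ s * Fintype.card V := by
  have h1 := kst R ht hR H
  have h2 : ∑ b : V, (s.factorial * ((H.filter (fun a => R a b)).card.choose s : ℝ)) ≤
      t * (H.card : ℝ) ^ s := by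
    rw [← mul_sum]
    have h3 : ∑ b : V, ((H.filter (fun a => R a b)).card.choose s : ℝ) ≤
        (t : ℝ) * (H.card.choose s : ℝ) := by
      have : ∑ b : V, ((H.filter (fun a => R a b)).card.choose s : ℝ) ≤
          (((t - 1) * H.card.choose s : ℕ) : ℝ) := by
        exact_mod_cast h1
      refine this.trans ?_
      push_cast
      apply mul_le_mul_of_nonneg_right _ (Nat.cast_nonneg _)
      have : t - 1 ≤ t := by omega
      exact_mod_cast this
    have h4 : (s.factorial : ℝ) * (H.card.choose s : ℝ) ≤ (H.card : ℝ) ^ s := by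
      have := Nat.descFactorial_le_pow H.card s
      rw [Nat.descFactorial_eq_factorial_mul_choose] at this
      exact_mod_cast this
    calc (s.factorial : ℝ) * ∑ b : V, ((H.filter (fun a => R a b)).card.choose s : ℝ)
        ≤ s.factorial * (t * (H.card.choose s : ℝ)) :=
          mul_le_mul_of_nonneg_left h3 (by positivity)
      _ = t * (s.factorial * (H.card.choose s : ℝ)) := by ring
      _ ≤ _ := mul_le_mul_of_nonneg_left h4 (by positivity)
  calc ∑ b : V, ((H.filter (fun a => R a b)).card : ℝ) ^ s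
      ≤ ∑ b : V, (2 ^ s * (s.factorial * ((H.filter (fun a => R a b)).card.choose s : ℝ)) +
          (2 * s) ^ s) := sum_le_sum (fun b _ => pow_choose s _ hs)
    _ = 2 ^ s * ∑ b : V, (s.factorial * ((H.filter (fun a => R a b)).card.choose s : ℝ)) +
          Fintype.card V * (2 * s) ^ s := by
        rw [sum_add_distrib, ← mul_sum, sum_const, card_univ, nsmul_eq_mul]
    _ ≤ 2 ^ s * (t * (H.card : ℝ) ^ s) + Fintype.card V * (2 * s) ^ s := by
        have := mul_le_mul_of_nonneg_left h2 (show (0 : ℝ) ≤ 2 ^ s by positivity)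
        linarith
    _ = _ := by ring

/-- the normalised adjacency function -/
noncomputable def nf (G : SimpleGraph V) [DecidableRel G.Adj] (s : ℕ) (p : V × V) : ℝ :=
  (Fintype.card V : ℝ) ^ (1 / (s : ℝ)) * (if G.Adj p.1 p.2 then 1 else 0)

open Classical in
/-- **Upper regularity.** -/
theorem upper_regular (s t : ℕ) (hs : 2 ≤ s) (ht : 1 ≤ t) (K : ℝ) (hK : 0 < K) (m : ℕ)
    (G : SimpleGraph V) [DecidableRel G.Adj] (hG : (KK s t).Free G)
    (hn : 4 ^ m * K ≤ (Fintype.card V : ℝ) ^ (1 / (s : ℝ)))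
    (hdeg : ∀ x, (G.degree x : ℝ) ≤ K * (Fintype.card V : ℝ) ^ (1 - 1 / (s : ℝ)))
    (F : Finset (Finset V)) (hF : F.card ≤ m) :
    q F (nf G s) ≤ (2 ^ s * t + (2 * s) ^ s + 2) * (Fintype.card V : ℝ) ^ 2 := by
  rcases isEmpty_or_nonempty V with hemp | hV
  · unfold q
    rw [univ_eq_empty, sum_empty]
    positivity
  obtain ⟨n, hnn⟩ : ∃ n : ℝ, n = (Fintype.card V : ℝ) := ⟨_, rfl⟩
  have hnpos : 0 < n := by rw [hnn]; exact_mod_cast Fintype.card_pos
  have hs0 : (0 : ℝ) < s := by
    have : 0 < s := by omega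
    exact_mod_cast this
  rw [← hnn] at hn hdeg ⊢
  set r : ℝ := n ^ (1 / (s : ℝ)) with hr
  have hrpos : 0 < r := by positivity
  have hrs : r ^ s = n := by
    rw [hr, ← Real.rpow_natCast, ← Real.rpow_mul hnpos.le, one_div_mul_cancel hs0.ne',
      Real.rpow_one]
  -- column degrees into a class
  set c : V → V → ℝ := fun x y => (((cell F x).filter (fun a => G.Adj a y)).card : ℝ) with hc
  have hc0 : ∀ x y, 0 ≤ c x y := fun x y => Nat.cast_nonneg _
  set a : V → ℝ := fun x => ((cell F x).card : ℝ) with ha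
  have ha0 : ∀ x, 0 < a x := fun x => by
    simp only [ha]; exact_mod_cast cell_card_pos F x
  have hca : ∀ x y, c x y ≤ a x := fun x y => by
    simp only [hc, ha]; exact_mod_cast card_le_card (filter_subset _ _)
  set g : V → V → ℝ := fun x y => r * c x y / a x with hg
  have hE : ∀ x y, E F (nf G s) (x, y) = avg (col F) (g x) y := by
    intro x y
    rw [E_eq]
    have h1 : ∑ p ∈ cell F x ×ˢ cell F y, nf G s p =
        ∑ y' ∈ cell F y, r * c x y' := by
      rw [sum_product_right]
      apply sum_congr rfl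
      intro y' _
      unfold nf
      simp only [← mul_sum, sum_boole, ← hnn, hc]
      rfl
    unfold avg
    simp only
    have h2 : univ.filter (fun y' => col F y' = col F y) = cell F y := rfl
    rw [h1, h2]
    simp only [hg]
    rw [← sum_div]
    simp only [ha]
    rw [div_div]
  have hq : q F (nf G s) ≤ ∑ x, ∑ y, (1 + g x y ^ s) := by
    unfold q
    rw [Fintype.sum_prod_type]
    apply sum_le_sum
    intro x _
    simp only [hE]
    refine (avg_sq_le (col F) (g x)).trans (sum_le_sum (fun y _ => ?_))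
    have hg0 : 0 ≤ g x y := by
      simp only [hg]
      exact div_nonneg (mul_nonneg hrpos.le (hc0 x y)) (ha0 x).le
    by_cases h1 : g x y ≤ 1
    · have h2 : g x y ^ 2 ≤ 1 := pow_le_one₀ hg0 h1
      have h3 : 0 ≤ g x y ^ s := by positivity
      linarith
    · push Not at h1
      have h2 : g x y ^ 2 ≤ g x y ^ s := pow_le_pow_right₀ h1.le hs
      linarith
  -- the moments
  have hT : ∀ x, ∑ y, g x y ^ s ≤ 2 ^ s * t * n + (2 * s) ^ s * n ^ 2 * (1 / 2 ^ m) * (1 / a x) +
      (if a x < 2 ^ m then K * n ^ (1 - 1 / (s : ℝ)) * n else 0) := by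
    intro x
    have hgs : ∀ y, g x y ^ s = n / a x ^ s * c x y ^ s := by
      intro y
      simp only [hg]
      rw [div_pow, mul_pow, hrs]
      ring
    simp only [hgs, ← mul_sum]
    have has : 0 < a x ^ s := pow_pos (ha0 x) s
    by_cases hax : a x < 2 ^ m
    · rw [if_pos hax]
      have h1 : ∑ y, c x y ^ s ≤ a x ^ s * (K * n ^ (1 - 1 / (s : ℝ))) := by
        have h2 : ∀ y, c x y ^ s ≤ a x ^ (s - 1) * c x y := by
          intro y
          have : c x y ^ s = c x y ^ (s - 1) * c x y := by
            rw [← pow_succ]; congr 1; omega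
          rw [this]
          exact mul_le_mul_of_nonneg_right (pow_le_pow_left₀ (hc0 x y) (hca x y) _) (hc0 x y)
        refine (sum_le_sum (fun y _ => h2 y)).trans ?_
        rw [← mul_sum]
        have h3 : ∑ y, c x y ≤ a x * (K * n ^ (1 - 1 / (s : ℝ))) := by
          have h4 : ∑ y, c x y = ∑ b ∈ cell F x, (G.degree b : ℝ) := by
            simp only [hc, card_filter]
            push_cast
            rw [sum_comm]
            apply sum_congr rfl
            intro b _
            rw [← G.card_neighborFinset_eq_degree, G.neighborFinset_eq_filter, card_filter]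
            push_cast
            rfl
          rw [h4]
          refine (sum_le_sum (fun b _ => hdeg b)).trans ?_
          rw [sum_const, nsmul_eq_mul]
        calc a x ^ (s - 1) * ∑ y, c x y ≤ a x ^ (s - 1) * (a x * (K * n ^ (1 - 1 / (s : ℝ)))) :=
              mul_le_mul_of_nonneg_left h3 (pow_pos (ha0 x) _).le
          _ = a x ^ s * (K * n ^ (1 - 1 / (s : ℝ))) := by
              have : a x ^ s = a x ^ (s - 1) * a x := by
                rw [← pow_succ]; congr 1; omega
              rw [this]; ring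
      have h2 : n / a x ^ s * ∑ y, c x y ^ s ≤ K * n ^ (1 - 1 / (s : ℝ)) * n := by
        calc n / a x ^ s * ∑ y, c x y ^ s
            ≤ n / a x ^ s * (a x ^ s * (K * n ^ (1 - 1 / (s : ℝ)))) :=
              mul_le_mul_of_nonneg_left h1 (div_nonneg hnpos.le has.le)
          _ = _ := by
              rw [← mul_assoc, div_mul_cancel₀ _ has.ne']
              ring
      have h3 : 0 ≤ 2 ^ s * (t : ℝ) * n := by positivity
      have h4 : 0 ≤ (2 * (s : ℝ)) ^ s * n ^ 2 * (1 / 2 ^ m) * (1 / a x) := by
        have := ha0 x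
        positivity
      linarith
    · rw [if_neg hax]
      push Not at hax
      have h1 := moment G.Adj (by omega) ht (noST_of_free hG) (cell F x)
      have h2 : ∑ y, c x y ^ s ≤ 2 ^ s * t * a x ^ s + (2 * s) ^ s * n := by
        simp only [hc, ha, hnn]
        convert h1
      have h3 : a x * 2 ^ m ≤ a x ^ s := by
        have h4 : a x ≤ a x ^ (s - 1) := by
          have h5 : 1 ≤ a x := by
            simp only [ha]
            exact_mod_cast cell_card_pos F x
          exact le_self_pow₀ h5 (by omega)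
        have h6 : a x ^ s = a x * a x ^ (s - 1) := by
          rw [← pow_succ']; congr 1; omega
        rw [h6]
        exact mul_le_mul_of_nonneg_left (hax.trans h4) (ha0 x).le
      calc n / a x ^ s * ∑ y, c x y ^ s
          ≤ n / a x ^ s * (2 ^ s * t * a x ^ s + (2 * s) ^ s * n) :=
            mul_le_mul_of_nonneg_left h2 (div_nonneg hnpos.le has.le)
        _ = 2 ^ s * t * n + (2 * s) ^ s * n ^ 2 * (1 / a x ^ s) := by
            have := has.ne'
            field_simp
        _ ≤ 2 ^ s * t * n + (2 * s) ^ s * n ^ 2 * (1 / (a x * 2 ^ m)) := by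
            have h7 : 1 / a x ^ s ≤ 1 / (a x * 2 ^ m) :=
              one_div_le_one_div_of_le (mul_pos (ha0 x) (by positivity)) h3
            have h8 := mul_le_mul_of_nonneg_left h7
              (show (0 : ℝ) ≤ (2 * s) ^ s * n ^ 2 by positivity)
            linarith
        _ = _ := by
            have := (ha0 x).ne'
            field_simp
            ring
  refine hq.trans ?_
  have h1 : ∑ x, ∑ y, (1 + g x y ^ s) = n ^ 2 + ∑ x, ∑ y, g x y ^ s := by
    simp only [sum_add_distrib, sum_const, card_univ, nsmul_eq_mul, mul_one, ← hnn]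
    ring
  rw [h1]
  have h2 : ∑ x, ∑ y, g x y ^ s ≤
      2 ^ s * t * n ^ 2 + (2 * s) ^ s * n ^ 2 + n ^ 2 := by
    refine (sum_le_sum (fun x _ => hT x)).trans ?_
    rw [sum_add_distrib, sum_add_distrib, sum_const, card_univ, nsmul_eq_mul, ← hnn, ← mul_sum]
    have h3 : ∑ x, 1 / a x ≤ 2 ^ m := by
      refine (inv_cells F).trans ?_
      exact pow_le_pow_right₀ (by norm_num) hF
    have h4 : (2 * (s : ℝ)) ^ s * n ^ 2 * (1 / 2 ^ m) * ∑ x, 1 / a x ≤ (2 * s) ^ s * n ^ 2 := by
      calc (2 * (s : ℝ)) ^ s * n ^ 2 * (1 / 2 ^ m) * ∑ x, 1 / a x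
          ≤ (2 * (s : ℝ)) ^ s * n ^ 2 * (1 / 2 ^ m) * 2 ^ m :=
            mul_le_mul_of_nonneg_left h3 (by positivity)
        _ = _ := by field_simp
    have h5 : ∑ x, (if a x < 2 ^ m then K * n ^ (1 - 1 / (s : ℝ)) * n else 0) ≤ n ^ 2 := by
      rw [← sum_filter, sum_const, nsmul_eq_mul]
      have h6 := small_cells F ((2 : ℝ) ^ m) (by positivity)
      have h7 : ((univ.filter (fun x => a x < 2 ^ m)).card : ℝ) ≤ 4 ^ m := by
        refine h6.trans ?_
        have : (2 : ℝ) ^ F.card ≤ 2 ^ m := pow_le_pow_right₀ (by norm_num) hF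
        calc (2 : ℝ) ^ F.card * 2 ^ m ≤ 2 ^ m * 2 ^ m :=
              mul_le_mul_of_nonneg_right this (by positivity)
          _ = 4 ^ m := by rw [← mul_pow]; norm_num
      have h8 : r * n ^ (1 - 1 / (s : ℝ)) = n := by
        rw [hr, ← Real.rpow_add hnpos]
        have : 1 / (s : ℝ) + (1 - 1 / (s : ℝ)) = 1 := by ring
        rw [this, Real.rpow_one]
      calc ((univ.filter (fun x => a x < 2 ^ m)).card : ℝ) * (K * n ^ (1 - 1 / (s : ℝ)) * n)
          ≤ 4 ^ m * (K * n ^ (1 - 1 / (s : ℝ)) * n) :=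
            mul_le_mul_of_nonneg_right h7 (by positivity)
        _ = (4 ^ m * K) * n ^ (1 - 1 / (s : ℝ)) * n := by ring
        _ ≤ r * n ^ (1 - 1 / (s : ℝ)) * n := by
            apply mul_le_mul_of_nonneg_right _ hnpos.le
            exact mul_le_mul_of_nonneg_right hn (by positivity)
        _ = n ^ 2 := by rw [h8]; ring
    have h6 : n * (2 ^ s * (t : ℝ) * n) = 2 ^ s * t * n ^ 2 := by ring
    rw [h6]
    linarith
  linarith

end

end Pool.Agent.Q115.SR
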