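import Pool.Agent.Q115.SR3
import Pool.Agent.Q115.GZ3

/-! The regularity lemma for `K_{s,t}`-free graphs and the regular form of the conjecture. -/

set_option autoImplicit false

open Finset

namespace Pool.Agent.Q115.SR

open Pool.Agent.Q115.GY Q116.KR Q116.ZK Pool.Agent.Q115.GX Pool.Agent.Q115.GZ

/-- `(A, B)` is a pair of large sets, dense on the scale `n ^ (-1 / s)`, and regular with an error
relative to the number of its edges. -/
def GoodPair {V : Type} [Fintype V] (G : SimpleGraph V) [DecidableRel G.Adj] (s : ℕ) (ε δ : ℝ)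
    (A B : Finset V) : Prop :=
  δ * (Fintype.card V : ℝ) ≤ (A.card : ℝ) ∧ δ * (Fintype.card V : ℝ) ≤ (B.card : ℝ) ∧
  δ * (Fintype.card V : ℝ) ^ (-(1 / (s : ℝ))) * (A.card * B.card) ≤
    ((G.interedges A B).card : ℝ) ∧
  ∀ X ⊆ A, ∀ Y ⊆ B, |((G.interedges X Y).card : ℝ) -
    ((G.interedges A B).card : ℝ) * X.card * Y.card / (A.card * B.card)| ≤
    ε * ((G.interedges A B).card : ℝ)

theorem kst_regularity (s t : ℕ) (hs : 2 ≤ s) (ht : 1 ≤ t) (ε : ℝ) (hε : 0 < ε) (m0 : ℕ) :
    ∃ (M : ℕ) (δ : ℝ) (N : ℕ), 0 < δ ∧ ∀ (V : Type) [Fintype V] [DecidableEq V]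
      (G : SimpleGraph V) [DecidableRel G.Adj], (KK s t).Free G → N ≤ Fintype.card V →
      ∀ χ₀ : V → Fin m0, ∃ χ : V → Fin M, (∀ x y, χ x = χ y → χ₀ x = χ₀ y) ∧
        (({p : V × V | G.Adj p.1 p.2 ∧ ¬ GoodPair G s ε δ (univ.filter (fun z => χ z = χ p.1))
          (univ.filter (fun z => χ z = χ p.2))}.ncard : ℕ) : ℝ) ≤
          ε * (Fintype.card V : ℝ) ^ (2 - 1 / (s : ℝ)) := by
  classical
  have hs0 : (0 : ℝ) < s := by
    have : 0 < s := by omega
    exact_mod_cast this
  have ht0 : (0 : ℝ) < t := by exact_mod_cast ht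
  set C : ℝ := 2 ^ s * t + (2 * s) ^ s + 2 with hC
  set ε1 : ℝ := ε / 2 with hε1
  have hε1pos : 0 < ε1 := by positivity
  obtain ⟨M1, δ, hδ, hmain⟩ := abstract_regularity C ε1 (by positivity) hε1pos m0
  set K : ℝ := 2 * t with hK
  set B : ℝ := 8 * s / (ε1 * δ ^ 3) + 8 * s / ε with hB
  have hBpos : 0 < B := by positivity
  obtain ⟨N, hN⟩ := exists_nat_ge (max ((4 ^ M1 * K) ^ (s : ℝ)) (max (B ^ (2 : ℝ)) 1))
  refine ⟨2 ^ M1, δ, N, hδ, ?_⟩
  intro V _ _ G _ hG hVN χ₀
  obtain ⟨n, hn⟩ : ∃ n : ℝ, n = (Fintype.card V : ℝ) := ⟨_, rfl⟩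
  have hnN : (N : ℝ) ≤ n := by rw [hn]; exact_mod_cast hVN
  have hn1 : 1 ≤ n := (((le_max_right _ _).trans (le_max_right _ _)).trans hN).trans hnN
  have hnpos : 0 < n := by linarith
  obtain ⟨r, hr⟩ : ∃ r : ℝ, r = n ^ (1 / (s : ℝ)) := ⟨_, rfl⟩
  have hrpos : 0 < r := by rw [hr]; positivity
  have hrK : 4 ^ M1 * K ≤ r := by
    have h1 : (4 ^ M1 * K) ^ (s : ℝ) ≤ n := ((le_max_left _ _).trans hN).trans hnN
    have h2 := Real.rpow_le_rpow (by positivity) h1 (show (0 : ℝ) ≤ 1 / (s : ℝ) by positivity)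
    rwa [← Real.rpow_mul (by positivity), mul_one_div_cancel hs0.ne', Real.rpow_one, ← hr] at h2
  have hnr : n / r = n ^ (1 - 1 / (s : ℝ)) := by
    rw [hr, Real.rpow_sub hnpos, Real.rpow_one]
  have hn2r : n ^ 2 / r = n ^ (2 - 1 / (s : ℝ)) := by
    rw [hr, Real.rpow_sub hnpos]
    norm_num
  have hBn : B ≤ n / r := by
    have h1 : B ^ (2 : ℝ) ≤ n := (((le_max_left _ _).trans (le_max_right _ _)).trans hN).trans hnN
    have h2 := Real.rpow_le_rpow (by positivity) h1 (show (0 : ℝ) ≤ 1 / 2 by norm_num)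
    rw [← Real.rpow_mul hBpos.le] at h2
    norm_num at h2
    rw [hnr]
    refine h2.trans ?_
    exact Real.rpow_le_rpow_of_exponent_le hn1 (alpha_half hs)
  -- low-degree part
  set H : Finset V := univ.filter (fun x => K * n ^ (1 - 1 / (s : ℝ)) ≤
    ((G.neighborSet x).ncard : ℝ)) with hH
  have htail : ∑ x ∈ H, ((G.neighborSet x).ncard : ℝ) ≤ 2 * s * n := by
    have h1 := tail' G (show 1 ≤ s by omega) ht hG
    rw [← hn] at h1
    convert h1
  have hncard : ∀ x, ((G.neighborSet x).ncard : ℝ) = (G.degree x : ℝ) := by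
    intro x
    rw [← G.card_neighborFinset_eq_degree, ← Set.ncard_coe_finset]
    congr 2
    ext y
    simp
  let G' : SimpleGraph V :=
    { Adj := fun a b => G.Adj a b ∧ a ∉ H ∧ b ∉ H
      symm := ⟨fun a b h => ⟨h.1.symm, h.2.2, h.2.1⟩⟩
      loopless := ⟨fun a h => G.irrefl h.1⟩ }
  have hG'G : G' ≤ G := fun a b h => h.1
  have hG' : (KK s t).Free G' := fun hcon => hG (hcon.trans (SimpleGraph.IsContained.of_le hG'G))
  have hG'deg : ∀ x, (G'.degree x : ℝ) ≤ K * n ^ (1 - 1 / (s : ℝ)) := by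
    intro x
    by_cases hx : x ∈ H
    · have : G'.degree x = 0 := by
        rw [← G'.card_neighborFinset_eq_degree, card_eq_zero]
        ext y
        rw [SimpleGraph.mem_neighborFinset]
        simp only [notMem_empty, iff_false]
        exact fun h => h.2.1 hx
      rw [this, Nat.cast_zero]
      positivity
    · have h1 : ¬ K * n ^ (1 - 1 / (s : ℝ)) ≤ (G.degree x : ℝ) := by
        intro h
        exact hx (by rw [hH, mem_filter, hncard]; exact ⟨mem_univ _, h⟩)
      push Not at h1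
      refine le_trans ?_ h1.le
      rw [← G'.card_neighborFinset_eq_degree, ← G.card_neighborFinset_eq_degree]
      apply Nat.cast_le.2
      apply card_le_card
      intro y hy
      rw [SimpleGraph.mem_neighborFinset] at hy ⊢
      exact hy.1
  have hVpos : 0 < Fintype.card V := by
    have : (0 : ℝ) < Fintype.card V := by rw [← hn]; exact hnpos
    exact_mod_cast this
  -- the family
  set F0 : Finset (Finset V) := univ.image (fun i : Fin m0 => univ.filter (fun x => χ₀ x = i))
    with hF0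
  have hF0c : F0.card ≤ m0 := by
    rw [hF0]
    refine card_image_le.trans ?_
    rw [card_univ, Fintype.card_fin]
  obtain ⟨F, hF0F, hFc, hFbad⟩ := hmain V (nf G' s) (by
      intro p
      unfold nf
      split_ifs <;> simp
      positivity) hVpos (by
      intro F hF
      have := upper_regular s t hs ht K (by positivity) M1 G' hG' (by rw [← hn, ← hr]; exact hrK)
        (by rw [← hn]; exact hG'deg) F hF
      exact this) F0 hF0c
  rw [← hn] at hFbad
  -- the colouring
  have himg : (univ.image (col F)).card ≤ 2 ^ M1 := by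
    have h1 : (univ.image (col F)).card ≤ 2 ^ F.card := by
      rw [← card_powerset]
      apply card_le_card
      intro c hc
      rw [mem_image] at hc
      obtain ⟨x, _, rfl⟩ := hc
      rw [mem_powerset]
      exact filter_subset _ _
    exact h1.trans (Nat.pow_le_pow_right (by norm_num) hFc)
  obtain ⟨e⟩ : Nonempty ((univ.image (col F)) ↪ Fin (2 ^ M1)) := by
    rw [Function.Embedding.nonempty_iff_card_le, Fintype.card_coe, Fintype.card_fin]
    exact himg
  set χ : V → Fin (2 ^ M1) := fun x => e ⟨col F x, mem_image_of_mem (col F) (mem_univ x)⟩ with hχ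
  have hχiff : ∀ x y, χ x = χ y ↔ col F x = col F y := by
    intro x y
    simp only [hχ, e.injective.eq_iff, Subtype.mk.injEq]
  have hclass : ∀ x, univ.filter (fun z => χ z = χ x) = cell F x := by
    intro x
    ext z
    rw [mem_filter, mem_cell, hχiff]
    simp
  refine ⟨χ, ?_, ?_⟩
  · intro x y hxy
    have h1 := col_ref hF0F ((hχiff x y).1 hxy)
    have h2 : univ.filter (fun z => χ₀ z = χ₀ x) ∈ col F0 x := by
      unfold col
      rw [mem_filter, hF0, mem_image]
      exact ⟨⟨χ₀ x, mem_univ _, rfl⟩, by simp⟩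
    rw [h1] at h2
    unfold col at h2
    rw [mem_filter, mem_filter] at h2
    exact h2.2.2.symm
  -- edges of `G` and of `G'`
  set bad : Finset (V × V) := univ.filter (fun p => G.Adj p.1 p.2 ∧ ¬ G'.Adj p.1 p.2) with hbad
  have hbadc : (bad.card : ℝ) ≤ 4 * s * n := by
    have h1 : bad.card ≤ ∑ p : V × V, ((if p.1 ∈ H ∧ G.Adj p.1 p.2 then 1 else 0) +
        (if p.2 ∈ H ∧ G.Adj p.1 p.2 then 1 else 0)) := by
      rw [hbad, card_filter]
      apply sum_le_sum
      rintro ⟨x, y⟩ _
      by_cases h : G.Adj x y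
      · by_cases hx : x ∈ H
        · simp [h, hx]
          split_ifs <;> omega
        · by_cases hy : y ∈ H
          · simp [h, hx, hy]
            split_ifs <;> omega
          · have : G'.Adj x y := ⟨h, hx, hy⟩
            simp [h, this]
      · simp [h]
    have h2 : ∑ p : V × V, ((if p.1 ∈ H ∧ G.Adj p.1 p.2 then 1 else 0) +
        (if p.2 ∈ H ∧ G.Adj p.1 p.2 then 1 else 0)) = 2 * ∑ x ∈ H, G.degree x := by
      rw [sum_add_distrib, Fintype.sum_prod_type, Fintype.sum_prod_type_right]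
      have e1 : ∀ x, ∑ y, (if x ∈ H ∧ G.Adj x y then 1 else 0) = if x ∈ H then G.degree x else 0 := by
        intro x
        by_cases hx : x ∈ H
        · simp only [hx, true_and, if_true]
          rw [← card_filter, ← G.card_neighborFinset_eq_degree, G.neighborFinset_eq_filter]
        · simp [hx]
      have e2 : ∀ y, ∑ x, (if y ∈ H ∧ G.Adj x y then 1 else 0) = if y ∈ H then G.degree y else 0 := by
        intro y
        rw [← e1 y]
        apply sum_congr rfl
        intro x _
        simp only [G.adj_comm x y]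
      simp only [e1, e2]
      rw [sum_ite_mem, univ_inter]
      ring
    rw [h2] at h1
    have h3 : (bad.card : ℝ) ≤ 2 * ∑ x ∈ H, (G.degree x : ℝ) := by exact_mod_cast h1
    simp only [hncard] at htail
    linarith
  have hinter : ∀ X Y : Finset V, ((G'.interedges X Y).card : ℝ) ≤ ((G.interedges X Y).card : ℝ) ∧
      ((G.interedges X Y).card : ℝ) ≤ ((G'.interedges X Y).card : ℝ) + 4 * s * n := by
    intro X Y
    constructor
    · apply Nat.cast_le.2
      apply card_le_card
      intro p hp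
      rw [SimpleGraph.mem_interedges_iff] at hp ⊢
      exact ⟨hp.1, hp.2.1, hG'G hp.2.2⟩
    · have : G.interedges X Y ⊆ G'.interedges X Y ∪ bad := by
        intro p hp
        rw [SimpleGraph.mem_interedges_iff] at hp
        rw [mem_union, SimpleGraph.mem_interedges_iff, hbad, mem_filter]
        by_cases h : G'.Adj p.1 p.2
        · exact Or.inl ⟨hp.1, hp.2.1, h⟩
        · exact Or.inr ⟨mem_univ _, hp.2.2, h⟩
      have h1 := (card_le_card this).trans (card_union_le _ _)
      have h2 : ((G.interedges X Y).card : ℝ) ≤ ((G'.interedges X Y).card : ℝ) + bad.card := by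
        exact_mod_cast h1
      linarith
  have hsumf : ∀ X Y : Finset V, ∑ p ∈ X ×ˢ Y, nf G' s p = r * ((G'.interedges X Y).card : ℝ) := by
    intro X Y
    unfold nf
    rw [← mul_sum, ← hn, ← hr, sum_boole]
    rfl
  have hneg : n ^ (-(1 / (s : ℝ))) = 1 / r := by
    rw [Real.rpow_neg hnpos.le, hr]
    exact (one_div _).symm
  -- good pairs
  have hgood : ∀ p : V × V, Good F (nf G' s) ε1 δ p → GoodPair G s ε δ (cell F p.1) (cell F p.2) := by
    intro p hp
    obtain ⟨h1, h2, h3, h4⟩ := hp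
    rw [← hn] at h1 h2
    rw [hsumf] at h3
    obtain ⟨a, ha⟩ : ∃ a : ℝ, a = ((cell F p.1).card : ℝ) := ⟨_, rfl⟩
    obtain ⟨b, hb⟩ : ∃ b : ℝ, b = ((cell F p.2).card : ℝ) := ⟨_, rfl⟩
    rw [← ha] at h1 h3
    rw [← hb] at h2 h3
    have ha0 : 0 < a := lt_of_lt_of_le (by positivity) h1
    have hb0 : 0 < b := lt_of_lt_of_le (by positivity) h2
    set e' : ℝ := ((G'.interedges (cell F p.1) (cell F p.2)).card : ℝ) with he'
    have he'low : δ * (a * b) / r ≤ e' := by
      rw [div_le_iff₀ hrpos]; linarith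
    have he'0 : 0 ≤ e' := Nat.cast_nonneg _
    have hI := hinter (cell F p.1) (cell F p.2)
    rw [← he'] at hI
    refine ⟨by rw [← hn, ← ha]; exact h1, by rw [← hn, ← hb]; exact h2, ?_, ?_⟩
    · rw [← hn, hneg, ← ha, ← hb]
      refine le_trans (le_of_eq ?_) (he'low.trans hI.1)
      ring
    · intro X hX Y hY
      have h5 := h4 X hX Y hY
      rw [hsumf, hsumf, ← he', ← ha, ← hb] at h5
      rw [← ha, ← hb]
      have h6 : |((G'.interedges X Y).card : ℝ) - e' * X.card * Y.card / (a * b)| ≤ ε1 * e' := by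
        have h7 : r * ((G'.interedges X Y).card : ℝ) - r * e' * X.card * Y.card / (a * b) =
            r * (((G'.interedges X Y).card : ℝ) - e' * X.card * Y.card / (a * b)) := by ring
        rw [h7, abs_mul, abs_of_pos hrpos] at h5
        have h8 : ε1 * (r * e') = r * (ε1 * e') := by ring
        rw [h8] at h5
        exact le_of_mul_le_mul_left h5 hrpos
      have hJ := hinter X Y
      have hXa : (X.card : ℝ) ≤ a := by rw [ha]; exact_mod_cast card_le_card hX
      have hYb : (Y.card : ℝ) ≤ b := by rw [hb]; exact_mod_cast card_le_card hY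
      have hfrac : (X.card : ℝ) * Y.card / (a * b) ≤ 1 := by
        rw [div_le_one (by positivity)]
        exact mul_le_mul hXa hYb (Nat.cast_nonneg _) ha0.le
      have hfrac0 : 0 ≤ (X.card : ℝ) * Y.card / (a * b) := by
        apply div_nonneg (mul_nonneg (Nat.cast_nonneg _) (Nat.cast_nonneg _)) (by positivity)
      set φ : ℝ := (X.card : ℝ) * Y.card / (a * b) with hφ
      set g : ℝ := ((G.interedges (cell F p.1) (cell F p.2)).card : ℝ) with hg
      have e1 : g * X.card * Y.card / (a * b) = g * φ := by rw [hφ]; ring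
      have e2 : e' * X.card * Y.card / (a * b) = e' * φ := by rw [hφ]; ring
      rw [e1]
      rw [e2] at h6
      -- the error terms
      have herr : 8 * s * n ≤ ε1 * e' := by
        have h9 : (δ * n) * (δ * n) ≤ a * b := mul_le_mul h1 h2 (by positivity) ha0.le
        have h10 : δ ^ 3 * (n * (n / r)) ≤ e' := by
          refine le_trans ?_ he'low
          rw [le_div_iff₀ hrpos]
          calc δ ^ 3 * (n * (n / r)) * r = δ * ((δ * n) * (δ * n)) := by
                field_simp
            _ ≤ δ * (a * b) := mul_le_mul_of_nonneg_left h9 hδ.le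
        have h11 : 8 * s / (ε1 * δ ^ 3) ≤ n / r := by
          refine le_trans ?_ hBn
          rw [hB]
          have : 0 ≤ 8 * (s : ℝ) / ε := by positivity
          linarith
        have h12 : 8 * (s : ℝ) ≤ n / r * (ε1 * δ ^ 3) := by
          rwa [div_le_iff₀ (by positivity)] at h11
        calc 8 * (s : ℝ) * n ≤ n / r * (ε1 * δ ^ 3) * n := mul_le_mul_of_nonneg_right h12 hnpos.le
          _ = ε1 * (δ ^ 3 * (n * (n / r))) := by ring
          _ ≤ ε1 * e' := mul_le_mul_of_nonneg_left h10 hε1pos.le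
      have h13 : |((G.interedges X Y).card : ℝ) - g * φ| ≤
          |((G'.interedges X Y).card : ℝ) - e' * φ| + 8 * s * n := by
        have h14 : ((G.interedges X Y).card : ℝ) - g * φ =
            (((G'.interedges X Y).card : ℝ) - e' * φ) +
            ((((G.interedges X Y).card : ℝ) - ((G'.interedges X Y).card : ℝ)) -
              (g - e') * φ) := by ring
        rw [h14]
        refine (abs_add_le _ _).trans ?_
        have h15 : |(((G.interedges X Y).card : ℝ) - ((G'.interedges X Y).card : ℝ)) -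
              (g - e') * φ| ≤ 8 * s * n := by
          have h16 : 0 ≤ (g - e') * φ := mul_nonneg (by linarith [hI.1]) hfrac0
          have h17 : (g - e') * φ ≤ (g - e') * 1 :=
            mul_le_mul_of_nonneg_left hfrac (by linarith [hI.1])
          rw [abs_le]
          constructor <;> linarith [hJ.1, hJ.2, hI.1, hI.2]
        linarith
      calc |((G.interedges X Y).card : ℝ) - g * φ| ≤ ε1 * e' + ε1 * e' := by linarith
        _ = ε * e' := by rw [hε1]; ring
        _ ≤ ε * g := mul_le_mul_of_nonneg_left hI.1 hε.le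
  -- number of bad pairs
  have hset : {p : V × V | G.Adj p.1 p.2 ∧ ¬ GoodPair G s ε δ (univ.filter (fun z => χ z = χ p.1))
      (univ.filter (fun z => χ z = χ p.2))} ⊆
      ((bad ∪ univ.filter (fun p => G'.Adj p.1 p.2 ∧ ¬ Good F (nf G' s) ε1 δ p) :
        Finset (V × V)) : Set (V × V)) := by
    rintro p ⟨hp1, hp2⟩
    rw [hclass, hclass] at hp2
    rw [mem_coe, mem_union, hbad, mem_filter, mem_filter]
    by_cases h : G'.Adj p.1 p.2
    · exact Or.inr ⟨mem_univ _, h, fun hg => hp2 (hgood p hg)⟩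
    · exact Or.inl ⟨mem_univ _, hp1, h⟩
  have h1 := Set.ncard_le_ncard hset (Set.toFinite _)
  rw [Set.ncard_coe_finset] at h1
  have h2 := h1.trans (card_union_le _ _)
  have h3 : r * ((univ.filter (fun p => G'.Adj p.1 p.2 ∧ ¬ Good F (nf G' s) ε1 δ p)).card : ℝ) ≤
      ε1 * n ^ 2 := by
    refine le_trans (le_of_eq ?_) hFbad
    unfold nf
    rw [← mul_sum, ← hn, ← hr, sum_boole, filter_filter]
    congr 3
    ext p
    simp [and_comm]
  have h4 : ((univ.filter (fun p => G'.Adj p.1 p.2 ∧ ¬ Good F (nf G' s) ε1 δ p)).card : ℝ) ≤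
      ε1 * (n ^ 2 / r) := by
    rw [← mul_div_assoc, le_div_iff₀ hrpos]
    linarith
  have h5 : 4 * s * n ≤ ε1 * (n ^ 2 / r) := by
    have h6 : 8 * s / ε ≤ n / r := by
      refine le_trans ?_ hBn
      rw [hB]
      have : 0 ≤ 8 * (s : ℝ) / (ε1 * δ ^ 3) := by positivity
      linarith
    rw [div_le_iff₀ hε] at h6
    have h7 : ε1 * (n ^ 2 / r) = (n / r * ε) * n / 2 := by rw [hε1]; ring
    rw [h7]
    have h8 := mul_le_mul_of_nonneg_right h6 hnpos.le
    linarith
  rw [← hn, ← hn2r]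
  calc (({p : V × V | G.Adj p.1 p.2 ∧ ¬ GoodPair G s ε δ (univ.filter (fun z => χ z = χ p.1))
      (univ.filter (fun z => χ z = χ p.2))}.ncard : ℕ) : ℝ)
      ≤ (bad.card : ℝ) +
        ((univ.filter (fun p => G'.Adj p.1 p.2 ∧ ¬ Good F (nf G' s) ε1 δ p)).card : ℝ) := by
        exact_mod_cast h2
    _ ≤ ε1 * (n ^ 2 / r) + ε1 * (n ^ 2 / r) := add_le_add (hbadc.trans h5) h4
    _ = ε * (n ^ 2 / r) := by rw [hε1]; ring

/-- The regular form of the order of magnitude conjecture for `K_{s,t}`. -/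
def RegularForm (s t : ℕ) : Prop :=
  ∀ ε : ℝ, 0 < ε → ∃ δ : ℝ, 0 < δ ∧ ∃ N : ℕ, ∀ n ≥ N, ∃ (a b : ℕ) (R : Fin a → Fin b → Prop),
    δ * n ≤ a ∧ a ≤ n ∧ δ * n ≤ b ∧ b ≤ n ∧ NoST R s t ∧ NoST R t s ∧
    δ * (n : ℝ) ^ (2 - 1 / (s : ℝ)) ≤ (({p : Fin a × Fin b | R p.1 p.2}.ncard : ℕ) : ℝ) ∧
    ∀ (X : Set (Fin a)) (Y : Set (Fin b)),
      |(({p : Fin a × Fin b | p.1 ∈ X ∧ p.2 ∈ Y ∧ R p.1 p.2}.ncard : ℕ) : ℝ) -
        (({p : Fin a × Fin b | R p.1 p.2}.ncard : ℕ) : ℝ) * X.ncard * Y.ncard / (a * b)| ≤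
      ε * (({p : Fin a × Fin b | R p.1 p.2}.ncard : ℕ) : ℝ)

theorem regularForm_of_LB {s t : ℕ} (hs : 2 ≤ s) (ht : 1 ≤ t) (h : LB s t s) :
    RegularForm s t := by
  classical
  intro ε hε
  obtain ⟨c, hc, h⟩ := h
  obtain ⟨N0, hN0⟩ := Filter.eventually_atTop.1 h
  have hs0 : (0 : ℝ) < s := by
    have : 0 < s := by omega
    exact_mod_cast this
  obtain ⟨M, δ, N1, hδ, hmain⟩ := kst_regularity s t hs ht (min ε c) (by positivity) 1
  refine ⟨min δ (δ ^ 3), by positivity, max (max N0 N1) 1, fun n hn => ?_⟩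
  have hnN0 : N0 ≤ n := ((le_max_left _ _).trans (le_max_left _ _)).trans hn
  have hnN1 : N1 ≤ n := ((le_max_right _ _).trans (le_max_left _ _)).trans hn
  have hn1 : 1 ≤ n := (le_max_right _ _).trans hn
  have hnpos : (0 : ℝ) < n := by exact_mod_cast hn1
  obtain ⟨G, hG, hGE⟩ := exists_graph' (n := n) (m := n) (KK_ne_bot' (s := s) (t := t) (by omega) ht)
  obtain ⟨χ, -, hχ⟩ := hmain (Fin n) G hG (by rw [Fintype.card_fin]; exact hnN1) (fun _ => 0)
  rw [Fintype.card_fin] at hχ
  -- number of ordered pairs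
  have hpairs : 2 * c * (n : ℝ) ^ (2 - 1 / (s : ℝ)) ≤
      (({p : Fin n × Fin n | G.Adj p.1 p.2}.ncard : ℕ) : ℝ) := by
    have h1 : ({p : Fin n × Fin n | G.Adj p.1 p.2}.ncard : ℕ) = 2 * G.edgeFinset.card := by
      have h2 : {p : Fin n × Fin n | G.Adj p.1 p.2} =
          ((univ.filter (fun p : Fin n × Fin n => G.Adj p.1 p.2) : Finset _) : Set _) := by
        ext p; simp
      rw [h2, Set.ncard_coe_finset, ← G.sum_degrees_eq_twice_card_edges, card_filter,
        Fintype.sum_prod_type]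
      apply sum_congr rfl
      intro x _
      rw [← card_filter, ← G.card_neighborFinset_eq_degree, G.neighborFinset_eq_filter]
    have h2 : (G.edgeFinset.card : ℝ) = (G.edgeSet.ncard : ℝ) := by
      rw [← SimpleGraph.coe_edgeFinset, Set.ncard_coe_finset]
    rw [h1]
    push_cast
    rw [h2, hGE]
    have := hN0 n hnN0
    linarith
  have hex : ∃ p : Fin n × Fin n, GoodPair G s (min ε c) δ (univ.filter (fun z => χ z = χ p.1))
      (univ.filter (fun z => χ z = χ p.2)) := by
    by_contra hcon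
    push Not at hcon
    have h1 : {p : Fin n × Fin n | G.Adj p.1 p.2 ∧ ¬ GoodPair G s (min ε c) δ
        (univ.filter (fun z => χ z = χ p.1)) (univ.filter (fun z => χ z = χ p.2))} =
        {p : Fin n × Fin n | G.Adj p.1 p.2} := by
      ext p
      simp only [Set.mem_ofPred_eq]
      exact ⟨fun h => h.1, fun h => ⟨h, hcon p⟩⟩
    rw [h1] at hχ
    have h2 : min ε c * (n : ℝ) ^ (2 - 1 / (s : ℝ)) ≤ c * (n : ℝ) ^ (2 - 1 / (s : ℝ)) :=
      mul_le_mul_of_nonneg_right (min_le_right _ _) (by positivity)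
    have h3 : 0 < c * (n : ℝ) ^ (2 - 1 / (s : ℝ)) := by positivity
    linarith
  obtain ⟨p, hp1, hp2, hp3, hp4⟩ := hex
  rw [Fintype.card_fin] at hp1 hp2 hp3
  set A := univ.filter (fun z => χ z = χ p.1) with hA
  set B := univ.filter (fun z => χ z = χ p.2) with hB
  set φ := A.orderEmbOfFin rfl with hφ
  set ψ := B.orderEmbOfFin rfl with hψ
  have hφA : ∀ i, φ i ∈ A := fun i => A.orderEmbOfFin_mem rfl i
  have hψB : ∀ i, ψ i ∈ B := fun i => B.orderEmbOfFin_mem rfl i
  have hAn : A.card ≤ n := by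
    have := card_le_univ A
    rwa [Fintype.card_fin] at this
  have hBn : B.card ≤ n := by
    have := card_le_univ B
    rwa [Fintype.card_fin] at this
  have hrA : ∀ y ∈ A, ∃ j, φ j = y := by
    intro y hy
    have : y ∈ Set.range φ := by
      rw [hφ, range_orderEmbOfFin]
      exact hy
    exact this
  have hrB : ∀ y ∈ B, ∃ j, ψ j = y := by
    intro y hy
    have : y ∈ Set.range ψ := by
      rw [hψ, range_orderEmbOfFin]
      exact hy
    exact this
  set R : Fin A.card → Fin B.card → Prop := fun i j => G.Adj (φ i) (ψ j) with hR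
  have hcount : ∀ (X : Finset (Fin A.card)) (Y : Finset (Fin B.card)),
      {p : Fin A.card × Fin B.card | p.1 ∈ (X : Set _) ∧ p.2 ∈ (Y : Set _) ∧ R p.1 p.2}.ncard =
        (G.interedges (X.image φ) (Y.image ψ)).card := by
    intro X Y
    have hinj : Function.Injective (fun p : Fin A.card × Fin B.card => (φ p.1, ψ p.2)) := by
      rintro ⟨a, b⟩ ⟨a', b'⟩ h
      simp only [Prod.mk.injEq] at h
      rw [φ.injective h.1, ψ.injective h.2]
    rw [← Set.ncard_image_of_injective _ hinj,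
      ← Set.ncard_coe_finset (G.interedges (X.image φ) (Y.image ψ))]
    congr 1
    ext ⟨x, y⟩
    simp only [Set.mem_image, Set.mem_ofPred_eq, mem_coe, Prod.exists, Prod.mk.injEq,
      SimpleGraph.mem_interedges_iff, mem_image]
    constructor
    · rintro ⟨a, b, ⟨ha, hb, hab⟩, rfl, rfl⟩
      exact ⟨⟨a, ha, rfl⟩, ⟨b, hb, rfl⟩, hab⟩
    · rintro ⟨⟨a, ha, rfl⟩, ⟨b, hb, rfl⟩, hab⟩
      exact ⟨a, b, ⟨ha, hb, hab⟩, rfl, rfl⟩
  have himA : (univ : Finset (Fin A.card)).image φ = A := by
    ext y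
    rw [mem_image]
    constructor
    · rintro ⟨a, _, rfl⟩; exact hφA a
    · intro hy
      obtain ⟨j, rfl⟩ := hrA y hy
      exact ⟨j, mem_univ _, rfl⟩
  have himB : (univ : Finset (Fin B.card)).image ψ = B := by
    ext y
    rw [mem_image]
    constructor
    · rintro ⟨a, _, rfl⟩; exact hψB a
    · intro hy
      obtain ⟨j, rfl⟩ := hrB y hy
      exact ⟨j, mem_univ _, rfl⟩
  have htot : {p : Fin A.card × Fin B.card | R p.1 p.2}.ncard = (G.interedges A B).card := by
    have := hcount univ univ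
    rw [himA, himB] at this
    rw [← this]
    congr 1
    ext p
    simp
  have hst : NoST R s t := by
    rintro ⟨a, b, ha, hb, hab⟩
    exact noST_of_free hG ⟨fun i => φ (a i), fun j => ψ (b j), fun i j h => ha (φ.injective h),
      fun i j h => hb (ψ.injective h), hab⟩
  have hts : NoST R t s := by
    rintro ⟨a, b, ha, hb, hab⟩
    exact NoST.symm_of_symm (noST_of_free hG) ⟨fun i => φ (a i), fun j => ψ (b j),
      fun i j h => ha (φ.injective h), fun i j h => hb (ψ.injective h), hab⟩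
  refine ⟨A.card, B.card, R, ?_, hAn, ?_, hBn, hst, hts, ?_, ?_⟩
  · exact (mul_le_mul_of_nonneg_right (min_le_left _ _) hnpos.le).trans hp1
  · exact (mul_le_mul_of_nonneg_right (min_le_left _ _) hnpos.le).trans hp2
  · rw [htot]
    refine le_trans ?_ hp3
    have h1 : (n : ℝ) ^ (2 - 1 / (s : ℝ)) = (n : ℝ) ^ (-(1 / (s : ℝ))) * (n * n) := by
      rw [show (2 : ℝ) - 1 / (s : ℝ) = -(1 / (s : ℝ)) + 2 by ring, Real.rpow_add hnpos]
      norm_num
      left
      ring
    rw [h1]
    obtain ⟨α, hα⟩ : ∃ α : ℝ, α = (A.card : ℝ) := ⟨_, rfl⟩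
    obtain ⟨β, hβ⟩ : ∃ β : ℝ, β = (B.card : ℝ) := ⟨_, rfl⟩
    rw [← hα] at hp1 ⊢
    rw [← hβ] at hp2 ⊢
    have hα0 : 0 ≤ α := by rw [hα]; exact Nat.cast_nonneg _
    have h2 : (δ * n) * (δ * n) ≤ α * β := mul_le_mul hp1 hp2 (by positivity) hα0
    have hnn : 0 ≤ (n : ℝ) ^ (-(1 / (s : ℝ))) := by positivity
    calc min δ (δ ^ 3) * ((n : ℝ) ^ (-(1 / (s : ℝ))) * (n * n))
        ≤ δ ^ 3 * ((n : ℝ) ^ (-(1 / (s : ℝ))) * (n * n)) :=
          mul_le_mul_of_nonneg_right (min_le_right _ _) (by positivity)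
      _ = δ * (n : ℝ) ^ (-(1 / (s : ℝ))) * ((δ * n) * (δ * n)) := by ring
      _ ≤ _ := mul_le_mul_of_nonneg_left h2 (by positivity)
  · intro X Y
    have hX : X = ((X.toFinset : Finset _) : Set _) := by simp
    have hY : Y = ((Y.toFinset : Finset _) : Set _) := by simp
    rw [hX, hY, hcount, htot, Set.ncard_coe_finset, Set.ncard_coe_finset]
    have h1 := hp4 (X.toFinset.image φ) (by
      intro y hy
      rw [mem_image] at hy
      obtain ⟨a, _, rfl⟩ := hy
      exact hφA a) (Y.toFinset.image ψ) (by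
      intro y hy
      rw [mem_image] at hy
      obtain ⟨a, _, rfl⟩ := hy
      exact hψB a)
    rw [card_image_of_injective _ φ.injective, card_image_of_injective _ ψ.injective] at h1
    refine h1.trans ?_
    exact mul_le_mul_of_nonneg_right (min_le_left _ _) (Nat.cast_nonneg _)

theorem LB_of_regularForm {s t : ℕ} (hs : 2 ≤ s) (ht : 1 ≤ t) (h : RegularForm s t) :
    LB s t s := by
  classical
  obtain ⟨δ, hδ, N, h⟩ := h 1 one_pos
  have hs0 : (0 : ℝ) < s := by
    have : 0 < s := by omega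
    exact_mod_cast this
  refine ⟨δ * (1 / 4) ^ (2 - 1 / (s : ℝ)), by positivity, ?_⟩
  filter_upwards [Filter.eventually_ge_atTop (2 * N + 4)] with n hn
  set k : ℕ := n / 2 with hk
  have hkN : k ≥ N := by omega
  obtain ⟨a, b, R, -, ha, -, hb, hst, hts, hR, -⟩ := h k hkN
  have hext := ext_of_rel' (n := n) R (by omega) ht hst hts (by
    rw [Fintype.card_fin, Fintype.card_fin]
    omega)
  have hcnt : cnt R = (({p : Fin a × Fin b | R p.1 p.2}.ncard : ℕ) : ℝ) := by
    have h2 : {p : Fin a × Fin b | R p.1 p.2} =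
        ((univ.filter (fun p : Fin a × Fin b => R p.1 p.2) : Finset _) : Set _) := by
      ext p; simp
    rw [h2, Set.ncard_coe_finset, card_filter, Fintype.sum_prod_type_right]
    push_cast
    unfold cnt
    apply sum_congr rfl
    intro x _
    apply sum_congr rfl
    intro y _
    congr
  refine le_trans ?_ hext
  rw [hcnt]
  refine le_trans ?_ hR
  rw [mul_assoc, ← Real.mul_rpow (by norm_num) (Nat.cast_nonneg _)]
  apply mul_le_mul_of_nonneg_left _ hδ.le
  apply Real.rpow_le_rpow (by positivity)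
  · have : n ≤ 4 * k := by omega
    have h1 : (n : ℝ) ≤ 4 * k := by exact_mod_cast this
    linarith
  · have := alpha_pos hs
    linarith

theorem LB_iff_regularForm {s t : ℕ} (hs : 2 ≤ s) (ht : 1 ≤ t) : LB s t s ↔ RegularForm s t :=
  ⟨regularForm_of_LB hs ht, LB_of_regularForm hs ht⟩

end Pool.Agent.Q115.SR
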