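import Mathlib

namespace Pool.Agent.Q115.SatStar

/-- The map `f` places a (not necessarily induced) copy of `H` in `G`. -/
def IsCopy {k n : ℕ} (H : SimpleGraph (Fin k)) (G : SimpleGraph (Fin n))
    (f : Fin k → Fin n) : Prop :=
  Function.Injective f ∧ ∀ a b, H.Adj a b → G.Adj (f a) (f b)

/-- The map `c` (only its values on edges of `G` matter) is a proper edge colouring of `G`:
two different edges at a common vertex get different colours. -/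
def IsProper {n : ℕ} (G : SimpleGraph (Fin n)) (c : Sym2 (Fin n) → ℕ) : Prop :=
  ∀ x y z, G.Adj x y → G.Adj x z → y ≠ z → c s(x, y) ≠ c s(x, z)

/-- In the copy `f` of `H` all edges have distinct colours. -/
def IsRainbow {k n : ℕ} (H : SimpleGraph (Fin k)) (c : Sym2 (Fin n) → ℕ)
    (f : Fin k → Fin n) : Prop :=
  ∀ a b a' b', H.Adj a b → H.Adj a' b' → s(a, b) ≠ s(a', b') →
    c s(f a, f b) ≠ c s(f a', f b')

/-- `G` is `H`-saturated. -/
def Saturated {k n : ℕ} (H : SimpleGraph (Fin k)) (G : SimpleGraph (Fin n)) : Prop :=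
  (¬ ∃ f, IsCopy H G f) ∧
    ∀ u v, u ≠ v → ¬ G.Adj u v → ∃ f, IsCopy H (G ⊔ SimpleGraph.edge u v) f

/-- `G` is rainbow `H`-saturated. -/
def RainbowSaturated {k n : ℕ} (H : SimpleGraph (Fin k)) (G : SimpleGraph (Fin n)) : Prop :=
  (∃ c, IsProper G c ∧ ¬ ∃ f, IsCopy H G f ∧ IsRainbow H c f) ∧
    ∀ u v, u ≠ v → ¬ G.Adj u v → ∀ c, IsProper (G ⊔ SimpleGraph.edge u v) c →
      ∃ f, IsCopy H (G ⊔ SimpleGraph.edge u v) f ∧ IsRainbow H c f

/-- The saturation number `sat(n, H)`. -/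
noncomputable def sat {k : ℕ} (n : ℕ) (H : SimpleGraph (Fin k)) : ℕ :=
  sInf {m | ∃ G : SimpleGraph (Fin n), Saturated H G ∧ G.edgeSet.ncard = m}

/-- The rainbow saturation number `sat*(n, H)`. -/
noncomputable def satStar {k : ℕ} (n : ℕ) (H : SimpleGraph (Fin k)) : ℕ :=
  sInf {m | ∃ G : SimpleGraph (Fin n), RainbowSaturated H G ∧ G.edgeSet.ncard = m}

/-- The graph `P₄ ∪ K₂`: the path `0 - 1 - 2 - 3` and the disjoint edge `4 - 5`. -/
def pathEdge : SimpleGraph (Fin 6) :=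
  SimpleGraph.fromEdgeSet {s(0, 1), s(1, 2), s(2, 3), s(4, 5)}

instance : DecidableRel pathEdge.Adj := by
  unfold pathEdge
  infer_instance

theorem pathEdge_adj (a b : Fin 6) (h : pathEdge.Adj a b) :
    (a = 0 ∧ b = 1) ∨ (a = 1 ∧ b = 0) ∨ (a = 1 ∧ b = 2) ∨ (a = 2 ∧ b = 1) ∨
    (a = 2 ∧ b = 3) ∨ (a = 3 ∧ b = 2) ∨ (a = 4 ∧ b = 5) ∨ (a = 5 ∧ b = 4) := by
  revert a b
  decide

theorem adj01 : pathEdge.Adj 0 1 := by decide
theorem adj12 : pathEdge.Adj 1 2 := by decide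
theorem adj23 : pathEdge.Adj 2 3 := by decide
theorem adj45 : pathEdge.Adj 4 5 := by decide

/-- explicit form of containing `P₄ ∪ K₂` -/
def HasP {n : ℕ} (G : SimpleGraph (Fin n)) : Prop :=
  ∃ a b c d e g : Fin n, [a, b, c, d, e, g].Nodup ∧
    G.Adj a b ∧ G.Adj b c ∧ G.Adj c d ∧ G.Adj e g

theorem isCopy_mk {n : ℕ} {G : SimpleGraph (Fin n)} {a b c d e g : Fin n}
    (hn : [a, b, c, d, e, g].Nodup) (h1 : G.Adj a b) (h2 : G.Adj b c) (h3 : G.Adj c d)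
    (h4 : G.Adj e g) : IsCopy pathEdge G ![a, b, c, d, e, g] := by
  refine ⟨?_, ?_⟩
  · apply List.nodup_ofFn.mp
    simpa using hn
  · intro x y hxy
    rcases pathEdge_adj x y hxy with ⟨rfl, rfl⟩ | ⟨rfl, rfl⟩ | ⟨rfl, rfl⟩ | ⟨rfl, rfl⟩ |
      ⟨rfl, rfl⟩ | ⟨rfl, rfl⟩ | ⟨rfl, rfl⟩ | ⟨rfl, rfl⟩
    · exact h1
    · exact h1.symm
    · exact h2
    · exact h2.symm
    · exact h3
    · exact h3.symm
    · exact h4
    · exact h4.symm

theorem nodup_of_inj {n : ℕ} {f : Fin 6 → Fin n} (hf : Function.Injective f) :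
    [f 0, f 1, f 2, f 3, f 4, f 5].Nodup := by
  have h := List.nodup_ofFn.mpr hf
  simpa [List.ofFn_succ] using h

theorem hasP_iff {n : ℕ} {G : SimpleGraph (Fin n)} :
    (∃ f, IsCopy pathEdge G f) ↔ HasP G := by
  constructor
  · rintro ⟨f, hf, ha⟩
    exact ⟨f 0, f 1, f 2, f 3, f 4, f 5, nodup_of_inj hf, ha _ _ adj01, ha _ _ adj12,
      ha _ _ adj23, ha _ _ adj45⟩
  · rintro ⟨a, b, c, d, e, g, hn, h1, h2, h3, h4⟩
    exact ⟨_, isCopy_mk hn h1 h2 h3 h4⟩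

end Pool.Agent.Q115.SatStar
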