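import Pool.Agent.Q115.SatStarBase

namespace Pool.Agent.Q115.SatStar

open SimpleGraph

variable {n : ℕ} {G : SimpleGraph (Fin n)}

theorem not_hasP_of_cover2 {x y : Fin n}
    (h : ∀ u v, G.Adj u v → u = x ∨ u = y ∨ v = x ∨ v = y) : ¬ HasP G := by
  rintro ⟨a, b, c, d, e, g, hn, h1, -, h3, h4⟩
  have k1 := h _ _ h1
  have k2 := h _ _ h3
  have k3 := h _ _ h4
  simp only [List.nodup_cons, List.mem_cons, List.not_mem_nil, or_false, not_or,
    List.nodup_nil, and_true, not_false_eq_true] at hn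
  grind

theorem not_hasP_of_finset {S : Finset (Fin n)} (hS : S.card ≤ 5)
    (h : ∀ u v, G.Adj u v → u ∈ S) : ¬ HasP G := by
  rintro ⟨a, b, c, d, e, g, hn, h1, h2, h3, h4⟩
  have hsub : [a, b, c, d, e, g].toFinset ⊆ S := by
    intro z hz
    simp only [List.mem_toFinset, List.mem_cons, List.not_mem_nil, or_false] at hz
    rcases hz with rfl | rfl | rfl | rfl | rfl | rfl
    · exact h _ _ h1
    · exact h _ _ h2
    · exact h _ _ h3
    · exact h _ _ h3.symm
    · exact h _ _ h4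
    · exact h _ _ h4.symm
  have := Finset.card_le_card hsub
  rw [List.toFinset_card_of_nodup hn] at this
  simp at this
  omega

/-- three disjoint edges, all covered by `p, q, r`: each of `p, q, r` has a private partner. -/
theorem match3 {p q r : Fin n} (h : ∀ u v, G.Adj u v → (u = p ∨ u = q ∨ u = r) ∨
      (v = p ∨ v = q ∨ v = r)) (hP : HasP G) :
    ∃ x y z, G.Adj p x ∧ G.Adj q y ∧ G.Adj r z ∧ x ≠ y ∧ x ≠ z ∧ y ≠ z ∧
      x ≠ p ∧ x ≠ q ∧ x ≠ r ∧ y ≠ p ∧ y ≠ q ∧ y ≠ r ∧ z ≠ p ∧ z ≠ q ∧ z ≠ r := by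
  obtain ⟨a, b, c, d, e, g, hn, h1, -, h3, h4⟩ := hP
  have hw : ∀ u v, G.Adj u v → ∃ u' v', G.Adj u' v' ∧ (u' = p ∨ u' = q ∨ u' = r) ∧
      (∀ z, z ≠ u → z ≠ v → z ≠ u' ∧ z ≠ v') := by
    intro u v huv
    rcases h u v huv with hh | hh
    · exact ⟨u, v, huv, hh, fun z h1 h2 => ⟨h1, h2⟩⟩
    · exact ⟨v, u, huv.symm, hh, fun z h1 h2 => ⟨h2, h1⟩⟩
  obtain ⟨a', b', k1, m1, e1⟩ := hw _ _ h1
  obtain ⟨c', d', k2, m2, e2⟩ := hw _ _ h3
  obtain ⟨e', g', k3, m3, e3⟩ := hw _ _ h4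
  simp only [List.nodup_cons, List.mem_cons, List.not_mem_nil, or_false, not_or,
      List.nodup_nil, and_true, not_false_eq_true] at hn
  obtain ⟨⟨q1, q2, q3, q4, q5⟩, ⟨q6, q7, q8, q9⟩, ⟨q10, q11, q12⟩, ⟨q13, q14⟩, q15⟩ := hn
  have c1 := e1 c (Ne.symm q2) (Ne.symm q6)
  have d1 := e1 d (Ne.symm q3) (Ne.symm q7)
  have i1 := e1 e (Ne.symm q4) (Ne.symm q8)
  have g1 := e1 g (Ne.symm q5) (Ne.symm q9)
  have i2 := e2 e (Ne.symm q11) (Ne.symm q13)
  have g2 := e2 g (Ne.symm q12) (Ne.symm q14)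
  have ha1 := e2 a' (Ne.symm c1.1) (Ne.symm d1.1)
  have ha2 := e3 a' (Ne.symm i1.1) (Ne.symm g1.1)
  have hb1 := e2 b' (Ne.symm c1.2) (Ne.symm d1.2)
  have hb2 := e3 b' (Ne.symm i1.2) (Ne.symm g1.2)
  have hc := e3 c' (Ne.symm i2.1) (Ne.symm g2.1)
  have hd := e3 d' (Ne.symm i2.2) (Ne.symm g2.2)
  have n1 := k1.ne
  have n10 := k2.ne
  have n15 := k3.ne
  obtain ⟨n2, n3⟩ := ha1
  obtain ⟨n4, n5⟩ := ha2
  obtain ⟨n6, n7⟩ := hb1
  obtain ⟨n8, n9⟩ := hb2
  obtain ⟨n11, n12⟩ := hc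
  obtain ⟨n13, n14⟩ := hd
  clear c1 d1 i1 g1 i2 g2 e1 e2 e3 hw h1 h3 h4 h q1 q2 q3 q4 q5 q6 q7 q8 q9 q10 q11 q12 q13 q14 q15
  rcases m1 with rfl | rfl | rfl <;> rcases m2 with rfl | rfl | rfl <;>
    rcases m3 with rfl | rfl | rfl <;> first
    | exact absurd rfl n2
    | exact absurd rfl n4
    | exact absurd rfl n11
    | skip
  · exact ⟨b', d', g', k1, k2, k3, n7, n9, n14, n1.symm, n6, n8, n3.symm, n10.symm, n13,
      n5.symm, n12.symm, n15.symm⟩
  · exact ⟨b', g', d', k1, k3, k2, n9, n7, n14.symm, n1.symm, n8, n6, n5.symm, n15.symm,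
      n12.symm, n3.symm, n13, n10.symm⟩
  · exact ⟨d', b', g', k2, k1, k3, n7.symm, n14, n9, n10.symm, n3.symm, n13, n6, n1.symm, n8,
      n12.symm, n5.symm, n15.symm⟩
  · exact ⟨g', b', d', k3, k1, k2, n9.symm, n14.symm, n7, n15.symm, n5.symm, n12.symm, n8,
      n1.symm, n6, n13, n3.symm, n10.symm⟩
  · exact ⟨d', g', b', k2, k3, k1, n14, n7.symm, n9.symm, n10.symm, n13, n3.symm, n12.symm,
      n15.symm, n5.symm, n6, n8, n1.symm⟩
  · exact ⟨g', d', b', k3, k2, k1, n14.symm, n9.symm, n7.symm, n15.symm, n12.symm, n5.symm,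
      n13, n10.symm, n3.symm, n8, n6, n1.symm⟩


/-- six vertices are pairwise distinct -/
def Ne6 (a b c d e g : Fin n) : Prop :=
  a ≠ b ∧ a ≠ c ∧ a ≠ d ∧ a ≠ e ∧ a ≠ g ∧ b ≠ c ∧ b ≠ d ∧ b ≠ e ∧ b ≠ g ∧ c ≠ d ∧ c ≠ e ∧
    c ≠ g ∧ d ≠ e ∧ d ≠ g ∧ e ≠ g

/-- five vertices are pairwise distinct -/
def Ne5 (a b c d e : Fin n) : Prop :=
  a ≠ b ∧ a ≠ c ∧ a ≠ d ∧ a ≠ e ∧ b ≠ c ∧ b ≠ d ∧ b ≠ e ∧ c ≠ d ∧ c ≠ e ∧ d ≠ e

theorem no6 (h : ¬ HasP G) {a b c d e g : Fin n} (hne : Ne6 a b c d e g)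
    (h1 : G.Adj a b) (h2 : G.Adj b c) (h3 : G.Adj c d) (h4 : G.Adj e g) : False := by
  apply h
  refine ⟨a, b, c, d, e, g, ?_, h1, h2, h3, h4⟩
  unfold Ne6 at hne
  simp only [List.nodup_cons, List.mem_cons, List.not_mem_nil, or_false, not_or,
      List.nodup_nil, and_true, not_false_eq_true]
  obtain ⟨q1, q2, q3, q4, q5, q6, q7, q8, q9, q10, q11, q12, q13, q14, q15⟩ := hne
  exact ⟨⟨q1, q2, q3, q4, q5⟩, ⟨q6, q7, q8, q9⟩, ⟨q10, q11, q12⟩, ⟨q13, q14⟩, q15⟩

theorem sup_edge_adj {u v x y : Fin n} (h : (G ⊔ edge u v).Adj x y) :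
    G.Adj x y ∨ (x = u ∧ y = v) ∨ (x = v ∧ y = u) := by
  rw [sup_adj, edge_adj] at h
  tauto

theorem core_contra (hs : Saturated pathEdge G) {v1 p q r v5 o u : Fin n}
    (hne : Ne6 v1 p q r v5 o) (h1 : G.Adj v1 p) (h2 : G.Adj p q) (h3 : G.Adj q r)
    (h4 : G.Adj r v5) (hop : G.Adj o p) (hu : ∀ w, ¬ G.Adj u w)
    (hcov : ∀ x y, G.Adj x y → (x = p ∨ x = q ∨ x = r) ∨ (y = p ∨ y = q ∨ y = r)) :
    False := by
  have hP : ¬ HasP G := fun h => hs.1 (hasP_iff.mpr h)
  unfold Ne6 at hne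
  obtain ⟨m1, m2, m3, m4, m5, m6, m7, m8, m9, m10, m11, m12, m13, m14, m15⟩ := hne
  have hq : ∀ w, w ≠ p → w ≠ q → w ≠ r → G.Adj q w → w = v5 := by
    intro w w1 w2 w3 hqw
    by_contra w4
    by_cases hw : w = v1
    · subst hw
      refine no6 hP (a := w) (b := q) (c := r) (d := v5) (e := o) (g := p) ?_ hqw.symm h3 h4 hop
      unfold Ne6; grind
    · refine no6 hP (a := w) (b := q) (c := r) (d := v5) (e := v1) (g := p) ?_ hqw.symm h3 h4 h1
      unfold Ne6; grind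
  have hur : u ≠ r := fun h => hu v5 (h ▸ h4)
  have hup : u ≠ p := fun h => hu q (h ▸ h2)
  have huq : u ≠ q := fun h => hu r (h ▸ h3)
  have hqv : G.Adj q v5 := by
    have h5 : HasP (G ⊔ edge r u) :=
      hasP_iff.mp (hs.2 r u (Ne.symm hur) (fun h => hu r h.symm))
    obtain ⟨x, y, z, k1, k2, k3, -, -, -, -, -, -, y1, y2, y3, -⟩ := match3 (p := p) (q := q) (r := r)
      (fun x y hxy => by
        rcases sup_edge_adj hxy with h | ⟨rfl, rfl⟩ | ⟨rfl, rfl⟩
        · exact hcov _ _ h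
        · tauto
        · tauto) h5
    rcases sup_edge_adj k2 with h | ⟨h, -⟩ | ⟨h, -⟩
    · have := hq y y1 y2 y3 h
      exact this ▸ h
    · exact absurd h m10
    · exact absurd h.symm huq
  have hr : ∀ w, w ≠ p → w ≠ q → w ≠ r → G.Adj r w → w = v5 := by
    intro w w1 w2 w3 hrw
    by_contra w4
    by_cases hw : w = v1
    · subst hw
      refine no6 hP (a := w) (b := r) (c := q) (d := v5) (e := o) (g := p) ?_ hrw.symm h3.symm
        hqv hop
      unfold Ne6; grind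
    · refine no6 hP (a := w) (b := r) (c := q) (d := v5) (e := v1) (g := p) ?_ hrw.symm h3.symm
        hqv h1
      unfold Ne6; grind
  have h5 : HasP (G ⊔ edge p u) :=
    hasP_iff.mp (hs.2 p u (Ne.symm hup) (fun h => hu p h.symm))
  obtain ⟨x, y, z, k1, k2, k3, -, -, hyz, -, -, -, y1, y2, y3, z1, z2, z3⟩ :=
    match3 (p := p) (q := q) (r := r)
      (fun x y hxy => by
        rcases sup_edge_adj hxy with h | ⟨rfl, rfl⟩ | ⟨rfl, rfl⟩
        · exact hcov _ _ h
        · tauto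
        · tauto) h5
  have e1 : y = v5 := by
    rcases sup_edge_adj k2 with h | ⟨h, -⟩ | ⟨h, -⟩
    · exact hq y y1 y2 y3 h
    · exact absurd h.symm m6
    · exact absurd h.symm huq
  have e2 : z = v5 := by
    rcases sup_edge_adj k3 with h | ⟨h, -⟩ | ⟨h, -⟩
    · exact hr z z1 z2 z3 h
    · exact absurd h.symm m7
    · exact absurd h.symm hur
  exact hyz (e1.trans e2.symm)

theorem path5_contra (hs : Saturated pathEdge G) {v1 p q r v5 o u w : Fin n}
    (hne : Ne6 v1 p q r v5 o) (h1 : G.Adj v1 p) (h2 : G.Adj p q) (h3 : G.Adj q r)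
    (h4 : G.Adj r v5) (how : G.Adj o w) (hu : ∀ w, ¬ G.Adj u w) : False := by
  have hP : ¬ HasP G := fun h => hs.1 (hasP_iff.mpr h)
  have hne' := hne
  unfold Ne6 at hne'
  obtain ⟨m1, m2, m3, m4, m5, m6, m7, m8, m9, m10, m11, m12, m13, m14, m15⟩ := hne'
  have cA : ∀ x y, G.Adj x y → (x = v1 ∨ x = p ∨ x = q ∨ x = r) ∨
      (y = v1 ∨ y = p ∨ y = q ∨ y = r) := by
    intro x y hxy
    by_contra hc
    refine no6 hP (a := v1) (b := p) (c := q) (d := r) (e := x) (g := y) ?_ h1 h2 h3 hxy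
    have := hxy.ne
    unfold Ne6; grind
  have cB : ∀ x y, G.Adj x y → (x = v5 ∨ x = p ∨ x = q ∨ x = r) ∨
      (y = v5 ∨ y = p ∨ y = q ∨ y = r) := by
    intro x y hxy
    by_contra hc
    refine no6 hP (a := p) (b := q) (c := r) (d := v5) (e := x) (g := y) ?_ h2 h3 h4 hxy
    have := hxy.ne
    unfold Ne6; grind
  have h15 : ¬ G.Adj v1 v5 := by
    intro h
    have hw : w = v1 ∨ w = p ∨ w = q ∨ w = r := by
      have := cA _ _ how
      grind
    rcases hw with rfl | rfl | rfl | rfl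
    · refine no6 hP (a := o) (b := w) (c := p) (d := q) (e := r) (g := v5) ?_ how h1 h2 h4
      unfold Ne6; grind
    · refine no6 hP (a := o) (b := w) (c := q) (d := r) (e := v5) (g := v1) ?_ how h2 h3 h.symm
      unfold Ne6; grind
    · refine no6 hP (a := o) (b := w) (c := r) (d := v5) (e := v1) (g := p) ?_ how h3 h4 h1
      unfold Ne6; grind
    · refine no6 hP (a := o) (b := w) (c := v5) (d := v1) (e := p) (g := q) ?_ how h4 h.symm h2
      unfold Ne6; grind
  have hcov : ∀ x y, G.Adj x y → (x = p ∨ x = q ∨ x = r) ∨ (y = p ∨ y = q ∨ y = r) := by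
    intro x y hxy
    by_contra hc
    have hA := cA x y hxy
    have hB := cB x y hxy
    have h15' : ¬ G.Adj v5 v1 := fun h => h15 h.symm
    grind
  have hw : w = p ∨ w = q ∨ w = r := by
    have := hcov _ _ how
    grind
  rcases hw with rfl | rfl | rfl
  · exact core_contra hs hne h1 h2 h3 h4 how hu hcov
  · refine no6 hP (a := o) (b := w) (c := r) (d := v5) (e := v1) (g := p) ?_ how h3 h4 h1
    unfold Ne6; grind
  · refine core_contra hs (v1 := v5) (p := w) (q := q) (r := p) (v5 := v1) (o := o) (u := u)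
      ?_ h4.symm h3.symm h2.symm h1.symm how hu (fun x y hxy => by
        have := hcov x y hxy; tauto)
    unfold Ne6; grind


/-- with at least two isolated vertices there is a `P₄`. -/
theorem exists_path4 (hs : Saturated pathEdge G) {u v : Fin n} (huv : u ≠ v)
    (hu : ∀ w, ¬ G.Adj u w) (hv : ∀ w, ¬ G.Adj v w) :
    ∃ a b c d, a ≠ b ∧ a ≠ c ∧ a ≠ d ∧ b ≠ c ∧ b ≠ d ∧ c ≠ d ∧ G.Adj a b ∧ G.Adj b c ∧
      G.Adj c d := by
  obtain ⟨a, b, c, d, e, g, hn, h1, h2, h3, -⟩ := hasP_iff.mp (hs.2 u v huv (hu v))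
  simp only [List.nodup_cons, List.mem_cons, List.not_mem_nil, or_false, not_or,
      List.nodup_nil, and_true, not_false_eq_true] at hn
  obtain ⟨⟨q1, q2, q3, q4, q5⟩, ⟨q6, q7, q8, q9⟩, ⟨q10, q11, q12⟩, ⟨q13, q14⟩, q15⟩ := hn
  have hu' : ∀ w, ¬ G.Adj w u := fun w h => hu w h.symm
  have hv' : ∀ w, ¬ G.Adj w v := fun w h => hv w h.symm
  refine ⟨a, b, c, d, q1, q2, q3, q6, q7, q10, ?_⟩
  have e1 := sup_edge_adj h1
  have e2 := sup_edge_adj h2
  have e3 := sup_edge_adj h3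
  grind

theorem no_cover2 (hs : Saturated pathEdge G) {u v : Fin n} (huv : u ≠ v)
    (hu : ∀ w, ¬ G.Adj u w) (hv : ∀ w, ¬ G.Adj v w) {x y : Fin n}
    (h : ∀ s t, G.Adj s t → s = x ∨ s = y ∨ t = x ∨ t = y) : False := by
  by_cases hx : x = u
  · subst hx
    refine not_hasP_of_cover2 (x := x) (y := y) ?_ (hasP_iff.mp (hs.2 x v huv (hu v)))
    intro s t hst
    rcases sup_edge_adj hst with k | ⟨k, -⟩ | ⟨-, k⟩
    · exact h _ _ k
    · tauto
    · tauto
  · refine not_hasP_of_cover2 (x := x) (y := y) ?_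
      (hasP_iff.mp (hs.2 x u hx (fun k => hu x k.symm)))
    intro s t hst
    rcases sup_edge_adj hst with k | ⟨k, -⟩ | ⟨-, k⟩
    · exact h _ _ k
    · tauto
    · tauto

theorem structure_of_saturated (hs : Saturated pathEdge G) {u v : Fin n} (huv : u ≠ v)
    (hu : ∀ w, ¬ G.Adj u w) (hv : ∀ w, ¬ G.Adj v w) :
    ∃ a b c d e : Fin n, Ne5 a b c d e ∧
      ∀ x ∈ ({a, b, c, d, e} : Finset (Fin n)), ∀ y ∈ ({a, b, c, d, e} : Finset (Fin n)),
        x ≠ y → G.Adj x y := by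
  have hP : ¬ HasP G := fun h => hs.1 (hasP_iff.mpr h)
  by_cases h5 : ∃ a b c d e : Fin n, Ne5 a b c d e ∧ G.Adj a b ∧ G.Adj b c ∧ G.Adj c d ∧
      G.Adj d e
  · obtain ⟨a, b, c, d, e, hne, h1, h2, h3, h4⟩ := h5
    refine ⟨a, b, c, d, e, hne, ?_⟩
    have hin : ∀ o w, G.Adj o w → o ∈ ({a, b, c, d, e} : Finset (Fin n)) := by
      intro o w how
      by_contra ho
      simp only [Finset.mem_insert, Finset.mem_singleton, not_or] at ho
      refine path5_contra hs (v1 := a) (p := b) (q := c) (r := d) (v5 := e) (o := o) (u := u)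
        ?_ h1 h2 h3 h4 how hu
      unfold Ne5 at hne
      unfold Ne6
      grind
    intro x hx y hy hxy
    by_contra hadj
    refine not_hasP_of_finset (S := {a, b, c, d, e}) (Finset.card_le_five) ?_
      (hasP_iff.mp (hs.2 x y hxy hadj))
    intro s t hst
    rcases sup_edge_adj hst with k | ⟨k, -⟩ | ⟨k, -⟩
    · exact hin _ _ k
    · exact k ▸ hx
    · exact k ▸ hy
  · exfalso
    have no5 : ∀ a b c d e : Fin n, Ne5 a b c d e → G.Adj a b → G.Adj b c → G.Adj c d →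
        G.Adj d e → False := by
      intro a b c d e hne h1 h2 h3 h4
      exact h5 ⟨a, b, c, d, e, hne, h1, h2, h3, h4⟩
    clear h5
    obtain ⟨a, b, c, d, m1, m2, m3, m4, m5, m6, h1, h2, h3⟩ := exists_path4 hs huv hu hv
    have cov : ∀ x y, G.Adj x y → (x = a ∨ x = b ∨ x = c ∨ x = d) ∨
        (y = a ∨ y = b ∨ y = c ∨ y = d) := by
      intro x y hxy
      by_contra hc
      refine no6 hP (a := a) (b := b) (c := c) (d := d) (e := x) (g := y) ?_ h1 h2 h3 hxy
      have := hxy.ne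
      unfold Ne6; grind
    by_cases hin : ∀ o w, G.Adj o w → o ∈ ({a, b, c, d} : Finset (Fin n))
    · have hau : a ≠ u := fun h => hu b (h ▸ h1)
      refine not_hasP_of_finset (S := {a, b, c, d, u}) (Finset.card_le_five) ?_
        (hasP_iff.mp (hs.2 a u hau (fun k => hu a k.symm)))
      intro s t hst
      rcases sup_edge_adj hst with k | ⟨k, -⟩ | ⟨k, -⟩
      · have := hin _ _ k
        simp only [Finset.mem_insert, Finset.mem_singleton] at this ⊢
        tauto
      · simp [k]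
      · simp [k]
    · push Not at hin
      obtain ⟨o, w, how, ho⟩ := hin
      simp only [Finset.mem_insert, Finset.mem_singleton, not_or] at ho
      obtain ⟨o1, o2, o3, o4⟩ := ho
      have hw : w = a ∨ w = b ∨ w = c ∨ w = d := by
        have := cov _ _ how
        tauto
      have had : ¬ G.Adj a d := by
        intro had
        rcases hw with rfl | rfl | rfl | rfl
        · exact no5 o w b c d (by unfold Ne5; grind) how h1 h2 h3
        · exact no5 o w a d c (by unfold Ne5; grind) how h1.symm had h3.symm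
        · exact no5 o w d a b (by unfold Ne5; grind) how h3 had.symm h1
        · exact no5 o w c b a (by unfold Ne5; grind) how h3.symm h2.symm h1.symm
      have hout : ∀ x, x ≠ a → x ≠ b → x ≠ c → x ≠ d → ¬ G.Adj a x ∧ ¬ G.Adj d x := by
        intro x x1 x2 x3 x4
        refine ⟨fun hx => ?_, fun hx => ?_⟩
        · exact no5 x a b c d (by unfold Ne5; grind) hx.symm h1 h2 h3
        · exact no5 a b c d x (by unfold Ne5; grind) h1 h2 h3 hx
      refine no_cover2 hs huv hu hv (x := b) (y := c) ?_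
      intro x y hxy
      by_contra hc
      have hcv := cov x y hxy
      have hxy' := hxy.symm
      have had' : ¬ G.Adj d a := fun k => had k.symm
      have hl := G.loopless
      have hne := hxy.ne
      have o1 := hout x
      have o2 := hout y
      grind

theorem saturated_ten_edges (hn : 20 ≤ n) (hs : Saturated pathEdge G) :
    10 ≤ G.edgeSet.ncard := by
  classical
  have hE : G.edgeSet.ncard = G.edgeFinset.card := by
    rw [← coe_edgeFinset, Set.ncard_coe_finset]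
  rw [hE]
  by_contra hlt
  push Not at hlt
  have hsum : ∑ v, G.degree v = 2 * G.edgeFinset.card := G.sum_degrees_eq_twice_card_edges
  let D : Finset (Fin n) := Finset.univ.filter (fun v => ∃ w, G.Adj v w)
  have hD : D.card ≤ ∑ v, G.degree v := by
    calc D.card = ∑ v ∈ D, 1 := by simp
      _ ≤ ∑ v ∈ D, G.degree v := by
          apply Finset.sum_le_sum
          intro v hv
          simp only [D, Finset.mem_filter, Finset.mem_univ, true_and] at hv
          obtain ⟨w, hw⟩ := hv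
          exact (G.degree_pos_iff_exists_adj v).mpr ⟨w, hw⟩
      _ ≤ ∑ v, G.degree v := Finset.sum_le_sum_of_subset (Finset.subset_univ _)
  have hDc : 1 < Dᶜ.card := by
    rw [Finset.card_compl, Fintype.card_fin]
    omega
  obtain ⟨u, hu, v, hv, huv⟩ := Finset.one_lt_card.mp hDc
  simp only [D, Finset.mem_compl, Finset.mem_filter, Finset.mem_univ, true_and,
    not_exists] at hu hv
  obtain ⟨a, b, c, d, e, hne, hK⟩ := structure_of_saturated hs huv hu hv
  have hcard : ({a, b, c, d, e} : Finset (Fin n)).card = 5 := by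
    unfold Ne5 at hne
    obtain ⟨m1, m2, m3, m4, m5, m6, m7, m8, m9, m10⟩ := hne
    rw [Finset.card_insert_of_notMem, Finset.card_insert_of_notMem,
      Finset.card_insert_of_notMem, Finset.card_insert_of_notMem, Finset.card_singleton] <;>
    simp only [Finset.mem_insert, Finset.mem_singleton, not_or] <;> tauto
  have hdeg : ∀ x ∈ ({a, b, c, d, e} : Finset (Fin n)), 4 ≤ G.degree x := by
    intro x hx
    have hsub : ({a, b, c, d, e} : Finset (Fin n)).erase x ⊆ G.neighborFinset x := by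
      intro y hy
      rw [Finset.mem_erase] at hy
      rw [mem_neighborFinset]
      exact hK x hx y hy.2 hy.1.symm
    have := Finset.card_le_card hsub
    rw [Finset.card_erase_of_mem hx, hcard] at this
    exact this
  have h20 : 20 ≤ ∑ v, G.degree v := by
    calc 20 = ∑ v ∈ ({a, b, c, d, e} : Finset (Fin n)), 4 := by
            rw [Finset.sum_const, hcard]; rfl
      _ ≤ ∑ v ∈ ({a, b, c, d, e} : Finset (Fin n)), G.degree v := Finset.sum_le_sum hdeg
      _ ≤ ∑ v, G.degree v := Finset.sum_le_sum_of_subset (Finset.subset_univ _)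
  omega

end Pool.Agent.Q115.SatStar
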