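import Pool.Agent.Q115.SatStarUpper
import Pool.Agent.Q115.SatStarLower

namespace Pool.Agent.Q115.SatStar

open SimpleGraph

theorem isE9_iff (x y : ℕ) : isE9 x y = true ↔ (x, y) ∈ E9 ∨ (y, x) ∈ E9 := by
  simp only [isE9, List.any_eq_true, Bool.or_eq_true, Bool.and_eq_true, Nat.beq_eq]
  constructor
  · rintro ⟨w, hw, ⟨rfl, rfl⟩ | ⟨rfl, rfl⟩⟩
    · exact Or.inl hw
    · exact Or.inr hw
  · rintro (h | h)
    · exact ⟨_, h, Or.inl ⟨rfl, rfl⟩⟩
    · exact ⟨_, h, Or.inr ⟨rfl, rfl⟩⟩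

theorem E9_lt : ∀ w ∈ E9, w.1 < w.2 + 1 ∧ w.2 < 9 ∧ w.1 ≠ w.2 ∧ w.1 ≤ 2 := by decide

/-- triangle with two pendant edges at each vertex, plus isolated vertices -/
def gStar (n : ℕ) : SimpleGraph (Fin n) where
  Adj x y := isE9 x.val y.val = true
  symm := ⟨by
    intro x y h
    rw [isE9_iff] at h ⊢
    tauto⟩
  loopless := ⟨by
    intro x h
    rw [isE9_iff] at h
    rcases h with h | h
    · exact (E9_lt _ h).2.2.1 rfl
    · exact (E9_lt _ h).2.2.1 rfl⟩

theorem gStar_adj {n : ℕ} {x y : Fin n} : (gStar n).Adj x y ↔ isE9 x.val y.val = true :=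
  Iff.rfl

/-- the good colouring -/
def colN (x y : ℕ) : ℕ := if 3 ≤ max x y then max x y % 2 else x + y + 1

theorem colN_symm (x y : ℕ) : colN x y = colN y x := by
  unfold colN
  rw [max_comm, Nat.add_comm x y]

def col (n : ℕ) : Sym2 (Fin n) → ℕ :=
  Sym2.lift ⟨fun x y => colN x.val y.val, fun x y => colN_symm x.val y.val⟩

theorem col_mk {n : ℕ} (x y : Fin n) : col n s(x, y) = colN x.val y.val := rfl

theorem col_proper_b : ((List.range 9).all fun x => (List.range 9).all fun y =>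
    (List.range 9).all fun z => !isE9 x y || !isE9 x z || Nat.beq y z ||
      !Nat.beq (colN x y) (colN x z)) = true := by decide +kernel

theorem isE9_lt {x y : ℕ} (h : isE9 x y = true) : x < 9 ∧ y < 9 := by
  rw [isE9_iff] at h
  rcases h with h | h
  · have := E9_lt _ h
    simp only at this
    omega
  · have := E9_lt _ h
    simp only at this
    omega

theorem col_proper (n : ℕ) : IsProper (gStar n) (col n) := by
  intro x y z h1 h2 hyz
  rw [gStar_adj] at h1 h2
  have l1 := isE9_lt h1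
  have l2 := isE9_lt h2
  have k := col_proper_b
  rw [List.all_eq_true] at k
  have k := k x.val (List.mem_range.mpr l1.1)
  rw [List.all_eq_true] at k
  have k := k y.val (List.mem_range.mpr l1.2)
  rw [List.all_eq_true] at k
  have k := k z.val (List.mem_range.mpr l2.2)
  rw [h1, h2, (beqf y.val z.val).mpr (fun h => hyz (Fin.ext h))] at k
  simp only [Bool.not_true, Bool.false_or, Bool.not_eq_true', beqf] at k
  rw [col_mk, col_mk]
  exact k

theorem colN_spec {x y : ℕ} (h : isE9 x y = true) :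
    (x ≤ 2 ∧ y ≤ 2) ∨ ((x ≤ 2 ∨ y ≤ 2) ∧ colN x y ≤ 1) := by
  unfold colN
  rw [isE9_iff] at h
  rcases h with h | h
  · have := E9_lt _ h
    simp only at this
    split_ifs <;> omega
  · have := E9_lt _ h
    simp only at this
    split_ifs <;> omega

theorem four {a b c d : ℕ} (h1 : a ≠ b) (h2 : a ≠ c) (h3 : a ≠ d) (h4 : b ≠ c) (h5 : b ≠ d)
    (h6 : c ≠ d) (ha : a ≤ 2) (hb : b ≤ 2) (hc : c ≤ 2) (hd : d ≤ 2) : False := by
  omega

theorem col_noRainbow (n : ℕ) :
    ¬ ∃ f, IsCopy pathEdge (gStar n) f ∧ IsRainbow pathEdge (col n) f := by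
  rintro ⟨f, ⟨hf, hc⟩, hr⟩
  have h1 := colN_spec (gStar_adj.mp (hc _ _ adj01))
  have h2 := colN_spec (gStar_adj.mp (hc _ _ adj23))
  have h3 := colN_spec (gStar_adj.mp (hc _ _ adj45))
  have r1 := hr _ _ _ _ adj01 adj23 (by decide)
  have r2 := hr _ _ _ _ adj01 adj45 (by decide)
  have r3 := hr _ _ _ _ adj23 adj45 (by decide)
  rw [col_mk, col_mk] at r1 r2 r3
  have hne : ∀ i j : Fin 6, i ≠ j → (f i).val ≠ (f j).val :=
    fun i j hij h => hij (hf (Fin.ext h))
  have n1 := hne 0 1 (by decide)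
  have n2 := hne 0 2 (by decide)
  have n3 := hne 0 3 (by decide)
  have n4 := hne 0 4 (by decide)
  have n5 := hne 0 5 (by decide)
  have n6 := hne 1 2 (by decide)
  have n7 := hne 1 3 (by decide)
  have n8 := hne 1 4 (by decide)
  have n9 := hne 1 5 (by decide)
  have n10 := hne 2 3 (by decide)
  have n11 := hne 2 4 (by decide)
  have n12 := hne 2 5 (by decide)
  have n13 := hne 3 4 (by decide)
  have n14 := hne 3 5 (by decide)
  have n15 := hne 4 5 (by decide)
  have pick : ∀ x y : ℕ, (x ≤ 2 ∧ y ≤ 2) ∨ ((x ≤ 2 ∨ y ≤ 2) ∧ colN x y ≤ 1) →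
      x ≤ 2 ∨ y ≤ 2 := by
    intro x y h
    tauto
  have p1 := pick _ _ h1
  have p2 := pick _ _ h2
  have p3 := pick _ _ h3
  clear hne hc hr hf pick
  rcases h1 with ⟨u1, u2⟩ | ⟨-, u1⟩
  · rcases p2 with u3 | u3 <;> rcases p3 with u4 | u4
    · exact four n1 n2 n4 n6 n8 n11 u1 u2 u3 u4
    · exact four n1 n2 n5 n6 n9 n12 u1 u2 u3 u4
    · exact four n1 n3 n4 n7 n8 n13 u1 u2 u3 u4
    · exact four n1 n3 n5 n7 n9 n14 u1 u2 u3 u4
  · rcases h2 with ⟨u2, u3⟩ | ⟨-, u2⟩
    · rcases p1 with u4 | u4 <;> rcases p3 with u5 | u5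
      · exact four n2 n3 n4 n10 n11 n13 u4 u2 u3 u5
      · exact four n2 n3 n5 n10 n12 n14 u4 u2 u3 u5
      · exact four n6 n7 n8 n10 n11 n13 u4 u2 u3 u5
      · exact four n6 n7 n9 n10 n12 n14 u4 u2 u3 u5
    · rcases h3 with ⟨u3, u4⟩ | ⟨-, u3⟩
      · rcases p1 with u5 | u5 <;> rcases p2 with u6 | u6
        · exact four n2 n4 n5 n11 n12 n15 u5 u6 u3 u4
        · exact four n3 n4 n5 n13 n14 n15 u5 u6 u3 u4
        · exact four n6 n8 n9 n11 n12 n15 u5 u6 u3 u4
        · exact four n7 n8 n9 n13 n14 n15 u5 u6 u3 u4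
      · clear n1 n2 n3 n4 n5 n6 n7 n8 n9 n10 n11 n12 n13 n14 n15 p1 p2 p3
        generalize colN (f 0).val (f 1).val = z1 at *
        generalize colN (f 2).val (f 3).val = z2 at *
        generalize colN (f 4).val (f 5).val = z3 at *
        omega

/-- placement of the local vertices -/
def phi {n : ℕ} (p q : Fin n) (i : ℕ) : Fin n :=
  if i = 9 then p else if i = 10 then q else if h : i < n then ⟨i, h⟩ else p

theorem phi_lt {n : ℕ} (hn : 9 ≤ n) (p q : Fin n) {i : ℕ} (hi : i < 9) :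
    (phi p q i).val = i := by
  unfold phi
  rw [if_neg (by omega), if_neg (by omega), dif_pos (by omega)]

theorem phi_nine {n : ℕ} (p q : Fin n) : phi p q 9 = p := by
  simp [phi]

theorem phi_ten {n : ℕ} (p q : Fin n) : phi p q 10 = q := by
  simp [phi]

theorem transfer {n : ℕ} {G : SimpleGraph (Fin n)} {c : Sym2 (Fin n) → ℕ} (hc : IsProper G c)
    (φ : ℕ → Fin n) (N : ℕ) (hφ : ∀ i j, i < N → j < N → φ i = φ j → i = j)
    (E : List (ℕ × ℕ)) (hE : ∀ p ∈ E, p.1 < N ∧ p.2 < N ∧ G.Adj (φ p.1) (φ p.2))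
    (cands : List (ℕ × ℕ × ℕ × ℕ × ℕ × ℕ)) (hs : search N cands E [] 0 = true) :
    ∃ f, IsCopy pathEdge G f ∧ IsRainbow pathEdge c f := by
  have hL : Local (fun x y => x < N ∧ y < N ∧ G.Adj (φ x) (φ y))
      (fun x y => c s(φ x, φ y)) := by
    refine ⟨?_, ?_, ?_⟩
    · rintro x y ⟨h1, h2, h3⟩
      exact ⟨h2, h1, h3.symm⟩
    · intro x y
      rw [Sym2.eq_swap]
    · rintro x y z ⟨h1, h2, h3⟩ ⟨h4, h5, h6⟩ hyz
      exact hc _ _ _ h3 h6 (fun h => hyz (hφ _ _ h2 h5 h))
  obtain ⟨a, b, d, e, g, h, ⟨m1, m2, m3, m4, m5, m6, m7, m8, m9, m10, m11, m12, m13, m14, m15⟩,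
    ⟨l1, l2, l3, l4, l5, l6⟩, ⟨r1, r2, r3, r4⟩, ⟨s1, s2, s3, s4, s5, s6⟩⟩ :=
    search_sound hL N cands E [] 0 id hE ⟨by intro s t h; omega, by simp⟩ hs
  simp only at r1 r2 r3 r4 s1 s2 s3 s4 s5 s6
  have hne : ∀ i j, i < N → j < N → i ≠ j → φ i ≠ φ j :=
    fun i j hi hj hij h => hij (hφ i j hi hj h)
  refine ⟨![φ a, φ b, φ d, φ e, φ g, φ h], isCopy_mk ?_ r1.2.2 r2.2.2 r3.2.2 r4.2.2, ?_⟩
  · simp only [List.nodup_cons, List.mem_cons, List.not_mem_nil, or_false, not_or,
      List.nodup_nil, and_true, not_false_eq_true]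
    exact ⟨⟨hne _ _ l1 l2 m1, hne _ _ l1 l3 m2, hne _ _ l1 l4 m3, hne _ _ l1 l5 m4,
      hne _ _ l1 l6 m5⟩, ⟨hne _ _ l2 l3 m6, hne _ _ l2 l4 m7, hne _ _ l2 l5 m8,
      hne _ _ l2 l6 m9⟩, ⟨hne _ _ l3 l4 m10, hne _ _ l3 l5 m11, hne _ _ l3 l6 m12⟩,
      ⟨hne _ _ l4 l5 m13, hne _ _ l4 l6 m14⟩, hne _ _ l5 l6 m15⟩
  · have hcol : ∀ x y, pathEdge.Adj x y →
        (s(x, y) = s(0, 1) ∧ c s((![φ a, φ b, φ d, φ e, φ g, φ h] : Fin 6 → Fin n) x,
          (![φ a, φ b, φ d, φ e, φ g, φ h] : Fin 6 → Fin n) y) = c s(φ a, φ b)) ∨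
        (s(x, y) = s(1, 2) ∧ c s((![φ a, φ b, φ d, φ e, φ g, φ h] : Fin 6 → Fin n) x,
          (![φ a, φ b, φ d, φ e, φ g, φ h] : Fin 6 → Fin n) y) = c s(φ b, φ d)) ∨
        (s(x, y) = s(2, 3) ∧ c s((![φ a, φ b, φ d, φ e, φ g, φ h] : Fin 6 → Fin n) x,
          (![φ a, φ b, φ d, φ e, φ g, φ h] : Fin 6 → Fin n) y) = c s(φ d, φ e)) ∨
        (s(x, y) = s(4, 5) ∧ c s((![φ a, φ b, φ d, φ e, φ g, φ h] : Fin 6 → Fin n) x,
          (![φ a, φ b, φ d, φ e, φ g, φ h] : Fin 6 → Fin n) y) = c s(φ g, φ h)) := by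
      intro x y hxy
      rcases pathEdge_adj x y hxy with ⟨rfl, rfl⟩ | ⟨rfl, rfl⟩ | ⟨rfl, rfl⟩ | ⟨rfl, rfl⟩ |
        ⟨rfl, rfl⟩ | ⟨rfl, rfl⟩ | ⟨rfl, rfl⟩ | ⟨rfl, rfl⟩
      · exact Or.inl ⟨rfl, rfl⟩
      · exact Or.inl ⟨Sym2.eq_swap, congrArg c Sym2.eq_swap⟩
      · exact Or.inr (Or.inl ⟨rfl, rfl⟩)
      · exact Or.inr (Or.inl ⟨Sym2.eq_swap, congrArg c Sym2.eq_swap⟩)
      · exact Or.inr (Or.inr (Or.inl ⟨rfl, rfl⟩))
      · exact Or.inr (Or.inr (Or.inl ⟨Sym2.eq_swap, congrArg c Sym2.eq_swap⟩))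
      · exact Or.inr (Or.inr (Or.inr ⟨rfl, rfl⟩))
      · exact Or.inr (Or.inr (Or.inr ⟨Sym2.eq_swap, congrArg c Sym2.eq_swap⟩))
    intro x y x' y' h1 h2 hne'
    rcases hcol x y h1 with ⟨e1, c1⟩ | ⟨e1, c1⟩ | ⟨e1, c1⟩ | ⟨e1, c1⟩ <;>
      rcases hcol x' y' h2 with ⟨e2, c2⟩ | ⟨e2, c2⟩ | ⟨e2, c2⟩ | ⟨e2, c2⟩ <;>
      rw [c1, c2] <;> first
      | exact absurd (e1.trans e2.symm) hne'
      | assumption
      | (apply Ne.symm; assumption)

theorem gStar_rainbowSaturated {n : ℕ} (hn : 9 ≤ n) : RainbowSaturated pathEdge (gStar n) := by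
  refine ⟨⟨col n, col_proper n, col_noRainbow n⟩, ?_⟩
  have hE9 : ∀ (p q u v : Fin n), ∀ w ∈ E9, w.1 < 9 ∧ w.2 < 9 ∧
      (gStar n ⊔ edge u v).Adj (phi p q w.1) (phi p q w.2) := by
    intro p q u v w hw
    have h := E9_lt w hw
    refine ⟨by omega, by omega, ?_⟩
    rw [sup_adj]
    left
    rw [gStar_adj, phi_lt hn p q (by omega), phi_lt hn p q (by omega), isE9_iff]
    exact Or.inl hw
  have main : ∀ u v : Fin n, u ≠ v → ¬ (gStar n).Adj u v → u.val ≤ v.val →
      ∀ c, IsProper (gStar n ⊔ edge u v) c →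
        ∃ f, IsCopy pathEdge (gStar n ⊔ edge u v) f ∧ IsRainbow pathEdge c f := by
    intro u v huv hadj hle c hc
    have huv' : u.val ≠ v.val := fun h => huv (Fin.ext h)
    have huvadj : (gStar n ⊔ edge u v).Adj u v := by
      rw [sup_adj, edge_adj]
      right
      exact ⟨Or.inl ⟨rfl, rfl⟩, huv⟩
    rw [gStar_adj, Bool.not_eq_true] at hadj
    by_cases hv : v.val < 9
    · have hu : u.val < 9 := by omega
      have hcheck := check_near u.val v.val hu hv huv' hadj
      refine transfer hc (phi u u) 9 ?_ (E9 ++ [(u.val, v.val)]) ?_ _ hcheck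
      · intro i j hi hj h
        have h' := congrArg Fin.val h
        rwa [phi_lt hn _ _ hi, phi_lt hn _ _ hj] at h'
      · intro w hw
        rcases List.mem_append.mp hw with hw | hw
        · exact hE9 _ _ _ _ w hw
        · rw [List.mem_singleton] at hw
          subst hw
          refine ⟨hu, hv, ?_⟩
          have e1 : phi u u u.val = u := Fin.ext (phi_lt hn u u hu)
          have e2 : phi u u v.val = v := Fin.ext (phi_lt hn u u hv)
          rw [e1, e2]
          exact huvadj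
    · by_cases hu : u.val < 9
      · have hcheck := check_mid u.val hu
        refine transfer hc (phi v v) 10 ?_ (E9 ++ [(u.val, 9)]) ?_ _ hcheck
        · intro i j hi hj h
          have h' := congrArg Fin.val h
          by_cases h1 : i < 9
          · by_cases h2 : j < 9
            · rwa [phi_lt hn _ _ h1, phi_lt hn _ _ h2] at h'
            · have : j = 9 := by omega
              subst this
              rw [phi_lt hn _ _ h1, phi_nine] at h'
              omega
          · have : i = 9 := by omega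
            subst this
            by_cases h2 : j < 9
            · rw [phi_lt hn _ _ h2, phi_nine] at h'
              omega
            · omega
        · intro w hw
          rcases List.mem_append.mp hw with hw | hw
          · obtain ⟨k1, k2, k3⟩ := hE9 v v u v w hw
            exact ⟨by omega, by omega, k3⟩
          · rw [List.mem_singleton] at hw
            subst hw
            refine ⟨by show u.val < 10; omega, by show 9 < 10; omega, ?_⟩
            have e1 : phi v v u.val = u := Fin.ext (phi_lt hn v v hu)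
            show (gStar n ⊔ edge u v).Adj (phi v v u.val) (phi v v 9)
            rw [e1, phi_nine]
            exact huvadj
      · have hcheck := check_far
        refine transfer hc (phi u v) 11 ?_ (E9 ++ [(9, 10)]) ?_ _ hcheck
        · intro i j hi hj h
          have h' := congrArg Fin.val h
          by_cases h1 : i < 9
          · by_cases h2 : j < 9
            · rwa [phi_lt hn _ _ h1, phi_lt hn _ _ h2] at h'
            · have : j = 9 ∨ j = 10 := by omega
              rcases this with rfl | rfl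
              · rw [phi_lt hn _ _ h1, phi_nine] at h'
                omega
              · rw [phi_lt hn _ _ h1, phi_ten] at h'
                omega
          · have : i = 9 ∨ i = 10 := by omega
            rcases this with rfl | rfl
            · by_cases h2 : j < 9
              · rw [phi_lt hn _ _ h2, phi_nine] at h'
                omega
              · have : j = 9 ∨ j = 10 := by omega
                rcases this with rfl | rfl
                · rfl
                · rw [phi_nine, phi_ten] at h'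
                  omega
            · by_cases h2 : j < 9
              · rw [phi_lt hn _ _ h2, phi_ten] at h'
                omega
              · have : j = 9 ∨ j = 10 := by omega
                rcases this with rfl | rfl
                · rw [phi_nine, phi_ten] at h'
                  omega
                · rfl
        · intro w hw
          rcases List.mem_append.mp hw with hw | hw
          · obtain ⟨k1, k2, k3⟩ := hE9 u v u v w hw
            exact ⟨by omega, by omega, k3⟩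
          · rw [List.mem_singleton] at hw
            subst hw
            refine ⟨by show 9 < 11; omega, by show 10 < 11; omega, ?_⟩
            show (gStar n ⊔ edge u v).Adj (phi u v 9) (phi u v 10)
            rw [phi_nine, phi_ten]
            exact huvadj
  intro u v huv hadj c hc
  rcases Nat.le_total u.val v.val with hle | hle
  · exact main u v huv hadj hle c hc
  · have he : edge u v = edge v u := by
      rw [edge_comm]
    rw [he] at hc ⊢
    exact main v u huv.symm (fun h => hadj h.symm) hle c hc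

theorem gStar_edges (n : ℕ) (hn : 9 ≤ n) : (gStar n).edgeSet.ncard ≤ 9 := by
  classical
  have h0 : 0 < n := by omega
  let ψ : ℕ × ℕ → Sym2 (Fin n) := fun w =>
    s(⟨w.1 % n, Nat.mod_lt _ h0⟩, ⟨w.2 % n, Nat.mod_lt _ h0⟩)
  have hsub : (gStar n).edgeSet ⊆ ((E9.toFinset.image ψ : Finset (Sym2 (Fin n))) :
      Set (Sym2 (Fin n))) := by
    intro e he
    induction e using Sym2.ind with
    | _ x y =>
      rw [mem_edgeSet, gStar_adj, isE9_iff] at he
      rw [Finset.mem_coe, Finset.mem_image]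
      rcases he with h | h
      · refine ⟨_, List.mem_toFinset.mpr h, ?_⟩
        simp only [ψ, Nat.mod_eq_of_lt x.isLt, Nat.mod_eq_of_lt y.isLt]
      · refine ⟨_, List.mem_toFinset.mpr h, ?_⟩
        simp only [ψ, Nat.mod_eq_of_lt x.isLt, Nat.mod_eq_of_lt y.isLt]
        exact Sym2.eq_swap
  calc (gStar n).edgeSet.ncard ≤ ((E9.toFinset.image ψ : Finset (Sym2 (Fin n))) :
      Set (Sym2 (Fin n))).ncard := Set.ncard_le_ncard hsub (Finset.finite_toSet _)
    _ = (E9.toFinset.image ψ).card := Set.ncard_coe_finset _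
    _ ≤ E9.toFinset.card := Finset.card_image_le
    _ ≤ E9.length := List.toFinset_card_le _
    _ = 9 := rfl

/-- saturated graphs exist (take a maximal graph without the forbidden graph) -/
theorem exists_saturated {k : ℕ} (n : ℕ) (H : SimpleGraph (Fin k)) (hH : ∃ a b, H.Adj a b) :
    ∃ G : SimpleGraph (Fin n), Saturated H G := by
  classical
  let S : Set (SimpleGraph (Fin n)) := {G | ¬ ∃ f, IsCopy H G f}
  have hne : S.Nonempty := by
    refine ⟨⊥, ?_⟩
    rintro ⟨f, -, hf⟩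
    obtain ⟨a, b, hab⟩ := hH
    exact (hf a b hab).elim
  obtain ⟨G, hG⟩ := (Set.toFinite S).exists_maximal hne
  refine ⟨G, hG.prop, ?_⟩
  intro u v huv hadj
  by_contra hcon
  have h1 : G ⊔ edge u v ∈ S := hcon
  have h2 : G ⊔ edge u v ≤ G := hG.le_of_ge h1 le_sup_left
  apply hadj
  apply h2
  rw [sup_adj, edge_adj]
  exact Or.inr ⟨Or.inl ⟨rfl, rfl⟩, huv⟩

theorem satStar_le {n : ℕ} (hn : 9 ≤ n) : satStar n pathEdge ≤ 9 := by
  have h : satStar n pathEdge ≤ (gStar n).edgeSet.ncard :=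
    Nat.sInf_le ⟨gStar n, gStar_rainbowSaturated hn, rfl⟩
  exact h.trans (gStar_edges n hn)

theorem le_sat {n : ℕ} (hn : 20 ≤ n) : 10 ≤ sat n pathEdge := by
  obtain ⟨G, hG⟩ := exists_saturated n pathEdge ⟨0, 1, adj01⟩
  have hne : {m | ∃ G : SimpleGraph (Fin n), Saturated pathEdge G ∧
      G.edgeSet.ncard = m}.Nonempty := ⟨_, G, hG, rfl⟩
  obtain ⟨G', hG', hm⟩ := Nat.sInf_mem hne
  show 10 ≤ sInf _
  rw [← hm]
  exact saturated_ten_edges hn hG'

end Pool.Agent.Q115.SatStar
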