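import Pool.Agent.Q115.SatStarBase

namespace Pool.Agent.Q115.SatStar

open SimpleGraph

theorem beqf (a b : ℕ) : Nat.beq a b = false ↔ a ≠ b := by
  rw [← Bool.not_eq_true, Nat.beq_eq]

/-- colour stored for the pair `x y` -/
def look : List (ℕ × ℕ × ℕ) → ℕ → ℕ → Option ℕ
  | [], _, _ => none
  | (p, q, t) :: A, x, y =>
    if (Nat.beq p x && Nat.beq q y) || (Nat.beq p y && Nat.beq q x) then some t else look A x y

/-- check that the six vertices span a rainbow copy among the coloured edges -/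
def rainbowAt (N : ℕ) (A : List (ℕ × ℕ × ℕ)) (f : ℕ × ℕ × ℕ × ℕ × ℕ × ℕ) : Bool :=
  match f with
  | (a, b, c, d, e, g) =>
    match look A a b, look A b c, look A c d, look A e g with
    | some p, some q, some r, some s =>
      (!Nat.beq p q) && (!Nat.beq p r) && (!Nat.beq p s) && (!Nat.beq q r) && (!Nat.beq q s) &&
      (!Nat.beq r s) &&
      (!Nat.beq a b) && (!Nat.beq a c) && (!Nat.beq a d) && (!Nat.beq a e) && (!Nat.beq a g) &&
      (!Nat.beq b c) && (!Nat.beq b d) && (!Nat.beq b e) && (!Nat.beq b g) &&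
      (!Nat.beq c d) && (!Nat.beq c e) && (!Nat.beq c g) &&
      (!Nat.beq d e) && (!Nat.beq d g) && (!Nat.beq e g) &&
      Nat.blt a N && Nat.blt b N && Nat.blt c N && Nat.blt d N && Nat.blt e N && Nat.blt g N
    | _, _, _, _ => false

/-- the new edge `x y` with colour `t` clashes with an earlier edge -/
def clash (A : List (ℕ × ℕ × ℕ)) (x y t : ℕ) : Bool :=
  A.any fun w => Nat.beq w.2.2 t &&
    ((Nat.beq w.1 x && !Nat.beq w.2.1 y) || (Nat.beq w.1 y && !Nat.beq w.2.1 x) ||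
     (Nat.beq w.2.1 x && !Nat.beq w.1 y) || (Nat.beq w.2.1 y && !Nat.beq w.1 x))

/-- search through all proper colourings up to renaming the colours -/
def search (N : ℕ) (cands : List (ℕ × ℕ × ℕ × ℕ × ℕ × ℕ)) :
    List (ℕ × ℕ) → List (ℕ × ℕ × ℕ) → ℕ → Bool
  | [], _, _ => false
  | (x, y) :: rest, A, k =>
    (List.range (k + 1)).all fun t =>
      clash A x y t || cands.any (rainbowAt N ((x, y, t) :: A)) ||
        search N cands rest ((x, y, t) :: A) (if Nat.beq t k then k + 1 else k)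

/-- what the soundness theorem needs to know about the local picture -/
structure Local (R : ℕ → ℕ → Prop) (c : ℕ → ℕ → ℕ) : Prop where
  symm : ∀ x y, R x y → R y x
  csymm : ∀ x y, c x y = c y x
  proper : ∀ x y z, R x y → R x z → y ≠ z → c x y ≠ c x z

/-- the stored colours describe the real ones -/
def Inv (R : ℕ → ℕ → Prop) (c : ℕ → ℕ → ℕ) (A : List (ℕ × ℕ × ℕ)) (k : ℕ) (σ : ℕ → ℕ) :
    Prop :=
  (∀ s t, s < k → t < k → σ s = σ t → s = t) ∧
    ∀ x y t, (x, y, t) ∈ A → R x y ∧ c x y = σ t ∧ t < k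

theorem look_spec {A : List (ℕ × ℕ × ℕ)} {x y t : ℕ} (h : look A x y = some t) :
    (x, y, t) ∈ A ∨ (y, x, t) ∈ A := by
  induction A with
  | nil => simp [look] at h
  | cons w A ih =>
    obtain ⟨p, q, s⟩ := w
    simp only [look] at h
    split_ifs at h with hc
    · simp only [Option.some.injEq] at h
      subst h
      simp only [Bool.or_eq_true, Bool.and_eq_true, Nat.beq_eq] at hc
      rcases hc with ⟨rfl, rfl⟩ | ⟨rfl, rfl⟩
      · left; simp
      · right; simp
    · rcases ih h with h' | h'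
      · left; exact List.mem_cons_of_mem _ h'
      · right; exact List.mem_cons_of_mem _ h'

theorem look_inv {R : ℕ → ℕ → Prop} {c : ℕ → ℕ → ℕ} {A : List (ℕ × ℕ × ℕ)} {k : ℕ}
    {σ : ℕ → ℕ} (hL : Local R c) (hI : Inv R c A k σ) {x y t : ℕ} (h : look A x y = some t) :
    R x y ∧ c x y = σ t ∧ t < k := by
  rcases look_spec h with h' | h'
  · exact hI.2 _ _ _ h'
  · obtain ⟨h1, h2, h3⟩ := hI.2 _ _ _ h'
    exact ⟨hL.symm _ _ h1, by rw [hL.csymm]; exact h2, h3⟩

/-- a rainbow copy in the local picture -/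
def LocalRainbow (N : ℕ) (R : ℕ → ℕ → Prop) (c : ℕ → ℕ → ℕ) : Prop :=
  ∃ a b d e g h : ℕ, (a ≠ b ∧ a ≠ d ∧ a ≠ e ∧ a ≠ g ∧ a ≠ h ∧ b ≠ d ∧ b ≠ e ∧ b ≠ g ∧ b ≠ h ∧
    d ≠ e ∧ d ≠ g ∧ d ≠ h ∧ e ≠ g ∧ e ≠ h ∧ g ≠ h) ∧
    (a < N ∧ b < N ∧ d < N ∧ e < N ∧ g < N ∧ h < N) ∧
    (R a b ∧ R b d ∧ R d e ∧ R g h) ∧
    (c a b ≠ c b d ∧ c a b ≠ c d e ∧ c a b ≠ c g h ∧ c b d ≠ c d e ∧ c b d ≠ c g h ∧
      c d e ≠ c g h)

theorem rainbowAt_sound {R : ℕ → ℕ → Prop} {c : ℕ → ℕ → ℕ} {A : List (ℕ × ℕ × ℕ)} {k : ℕ}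
    {σ : ℕ → ℕ} {N : ℕ} (hL : Local R c) (hI : Inv R c A k σ)
    {f : ℕ × ℕ × ℕ × ℕ × ℕ × ℕ} (h : rainbowAt N A f = true) : LocalRainbow N R c := by
  obtain ⟨a, b, d, e, g, i⟩ := f
  simp only [rainbowAt] at h
  split at h
  · rename_i p q r s h1 h2 h3 h4
    simp only [Bool.and_eq_true, Bool.not_eq_true', beqf, Nat.blt_eq] at h
    obtain ⟨⟨⟨⟨⟨⟨⟨⟨⟨⟨⟨⟨⟨⟨⟨⟨⟨⟨⟨⟨⟨⟨⟨⟨⟨⟨e1, e2⟩, e3⟩, e4⟩, e5⟩, e6⟩, e7⟩, e8⟩, e9⟩, e10⟩, e11⟩,
      e12⟩, e13⟩, e14⟩, e15⟩, e16⟩, e17⟩, e18⟩, e19⟩, e20⟩, e21⟩, e22⟩, e23⟩, e24⟩, e25⟩, e26⟩,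
      e27⟩ := h
    obtain ⟨k1, l1, o1⟩ := look_inv hL hI h1
    obtain ⟨k2, l2, o2⟩ := look_inv hL hI h2
    obtain ⟨k3, l3, o3⟩ := look_inv hL hI h3
    obtain ⟨k4, l4, o4⟩ := look_inv hL hI h4
    have hinj := hI.1
    refine ⟨a, b, d, e, g, i, ⟨e7, e8, e9, e10, e11, e12, e13, e14, e15, e16, e17, e18, e19,
      e20, e21⟩, ⟨e22, e23, e24, e25, e26, e27⟩, ⟨k1, k2, k3, k4⟩, ?_⟩
    rw [l1, l2, l3, l4]
    exact ⟨fun hh => e1 (hinj _ _ o1 o2 hh), fun hh => e2 (hinj _ _ o1 o3 hh),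
      fun hh => e3 (hinj _ _ o1 o4 hh), fun hh => e4 (hinj _ _ o2 o3 hh),
      fun hh => e5 (hinj _ _ o2 o4 hh), fun hh => e6 (hinj _ _ o3 o4 hh)⟩
  · exact absurd h (by simp)

theorem clash_sound {R : ℕ → ℕ → Prop} {c : ℕ → ℕ → ℕ} {A : List (ℕ × ℕ × ℕ)} {k : ℕ}
    {σ : ℕ → ℕ} (hL : Local R c) (hI : Inv R c A k σ) {x y t : ℕ} (hR : R x y)
    (hc : c x y = σ t) (h : clash A x y t = true) : False := by
  simp only [clash, List.any_eq_true, Bool.and_eq_true, Bool.or_eq_true, Nat.beq_eq,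
    Bool.not_eq_true', beqf] at h
  obtain ⟨⟨p, q, s⟩, hw, h1, h2⟩ := h
  simp only at h1 h2
  subst h1
  obtain ⟨hR', hc', hlt⟩ := hI.2 _ _ _ hw
  have hyx := hL.symm _ _ hR
  have hqp := hL.symm _ _ hR'
  have s1 := hL.csymm x y
  have s2 := hL.csymm p q
  rcases h2 with ((⟨e1, e2⟩ | ⟨e1, e2⟩) | ⟨e1, e2⟩) | ⟨e1, e2⟩
  · subst e1
    exact hL.proper _ _ _ hR' hR e2 (hc'.trans hc.symm)
  · subst e1
    exact hL.proper _ _ _ hR' hyx e2 (hc'.trans (hc.symm.trans s1))
  · subst e1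
    exact hL.proper _ _ _ hqp hR e2 (s2.symm.trans (hc'.trans hc.symm))
  · subst e1
    exact hL.proper _ _ _ hqp hyx e2 (s2.symm.trans (hc'.trans (hc.symm.trans s1)))

theorem search_sound {R : ℕ → ℕ → Prop} {c : ℕ → ℕ → ℕ} (hL : Local R c) (N : ℕ)
    (cands : List (ℕ × ℕ × ℕ × ℕ × ℕ × ℕ)) (rest : List (ℕ × ℕ)) :
    ∀ (A : List (ℕ × ℕ × ℕ)) (k : ℕ) (σ : ℕ → ℕ), (∀ p ∈ rest, R p.1 p.2) →
      Inv R c A k σ → search N cands rest A k = true → LocalRainbow N R c := by
  induction rest with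
  | nil => intro A k σ _ _ h; simp [search] at h
  | cons w rest ih =>
    intro A k σ hrest hI h
    obtain ⟨x, y⟩ := w
    have hR : R x y := hrest _ (List.mem_cons_self ..)
    have hrest' : ∀ p ∈ rest, R p.1 p.2 := fun p hp => hrest p (List.mem_cons_of_mem _ hp)
    simp only [search, List.all_eq_true, List.mem_range, Bool.or_eq_true] at h
    have key : ∀ t σ', t < k + 1 → Inv R c A k σ' → c x y = σ' t →
        Inv R c ((x, y, t) :: A) (if Nat.beq t k then k + 1 else k) σ' →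
        LocalRainbow N R c := by
      intro t σ' ht hI0 hc hI'
      rcases h t ht with (h1 | h1) | h1
      · exact (clash_sound hL hI0 hR hc h1).elim
      · rw [List.any_eq_true] at h1
        obtain ⟨f, -, hf⟩ := h1
        exact rainbowAt_sound hL hI' hf
      · exact ih _ _ σ' hrest' hI' h1
    by_cases hex : ∃ t, t < k ∧ c x y = σ t
    · obtain ⟨t, ht, hc⟩ := hex
      have hb : Nat.beq t k = false := by
        rw [beqf]; omega
      refine key t σ (by omega) hI hc ?_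
      rw [hb]
      refine ⟨hI.1, ?_⟩
      intro x' y' t' hm
      rcases List.mem_cons.mp hm with hm | hm
      · simp only [Prod.mk.injEq] at hm
        obtain ⟨rfl, rfl, rfl⟩ := hm
        exact ⟨hR, hc, ht⟩
      · exact hI.2 _ _ _ hm
    · push Not at hex
      have hI0 : Inv R c A k (Function.update σ k (c x y)) := by
        refine ⟨?_, ?_⟩
        · intro s t hs ht hst
          rw [Function.update_of_ne (by omega), Function.update_of_ne (by omega)] at hst
          exact hI.1 s t hs ht hst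
        · intro x' y' t' hm
          obtain ⟨g1, g2, g3⟩ := hI.2 _ _ _ hm
          refine ⟨g1, ?_, g3⟩
          rw [Function.update_of_ne (by omega)]
          exact g2
      refine key k (Function.update σ k (c x y)) (by omega) hI0 (by simp) ?_
      have hb : Nat.beq k k = true := by simp
      rw [hb]
      refine ⟨?_, ?_⟩
      · intro s t hs ht hst
        simp only [if_true] at hs ht
        by_cases h1 : s = k
        · by_cases h2 : t = k
          · omega
          · subst h1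
            rw [Function.update_self, Function.update_of_ne h2] at hst
            exact absurd hst (hex t (by omega))
        · by_cases h2 : t = k
          · subst h2
            rw [Function.update_self, Function.update_of_ne h1] at hst
            exact absurd hst.symm (hex s (by omega))
          · rw [Function.update_of_ne h1, Function.update_of_ne h2] at hst
            exact hI.1 s t (by omega) (by omega) hst
      · intro x' y' t' hm
        rcases List.mem_cons.mp hm with hm | hm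
        · simp only [Prod.mk.injEq] at hm
          obtain ⟨rfl, rfl, rfl⟩ := hm
          exact ⟨hR, by simp, by simp⟩
        · obtain ⟨g1, g2, g3⟩ := hI0.2 _ _ _ hm
          exact ⟨g1, g2, by simp only [if_true]; omega⟩

/-- all candidate copies, computed from the edge list -/
def gen (E : List (ℕ × ℕ)) : List (ℕ × ℕ × ℕ × ℕ × ℕ × ℕ) :=
  let D := E ++ E.map Prod.swap
  E.flatMap fun m =>
    (D.filter fun p => Nat.beq p.2 m.1 && !Nat.beq p.1 m.2).flatMap fun p =>
      (D.filter fun q => Nat.beq q.1 m.2 && !Nat.beq q.2 m.1 && !Nat.beq q.2 p.1).flatMap fun q =>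
        (E.filter fun r => !Nat.beq r.1 p.1 && !Nat.beq r.1 m.1 && !Nat.beq r.1 m.2 &&
          !Nat.beq r.1 q.2 && !Nat.beq r.2 p.1 && !Nat.beq r.2 m.1 && !Nat.beq r.2 m.2 &&
          !Nat.beq r.2 q.2).map fun r => (p.1, m.1, m.2, q.2, r.1, r.2)

/-- the nine edges of the graph -/
def E9 : List (ℕ × ℕ) :=
  [(0, 1), (1, 2), (0, 2), (0, 3), (0, 4), (1, 5), (1, 6), (2, 7), (2, 8)]

def checkPair (N x y : ℕ) : Bool :=
  let E := E9 ++ [(x, y)]
  search N (gen E) E [] 0

theorem check_far : checkPair 11 9 10 = true := by decide +kernel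

theorem check_mid : ∀ x < 9, checkPair 10 x 9 = true := by decide +kernel

/-- whether `x y` is one of the nine edges -/
def isE9 (x y : ℕ) : Bool :=
  E9.any fun w => (Nat.beq w.1 x && Nat.beq w.2 y) || (Nat.beq w.1 y && Nat.beq w.2 x)

theorem check_near_b : ((List.range 9).all fun x => (List.range 9).all fun y =>
    Nat.beq x y || isE9 x y || checkPair 9 x y) = true := by decide +kernel

theorem check_near (x y : ℕ) (hx : x < 9) (hy : y < 9) (hxy : x ≠ y)
    (h : isE9 x y = false) : checkPair 9 x y = true := by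
  have h1 := check_near_b
  rw [List.all_eq_true] at h1
  have h2 := h1 x (List.mem_range.mpr hx)
  rw [List.all_eq_true] at h2
  have h3 := h2 y (List.mem_range.mpr hy)
  rw [h, Bool.or_false, (beqf x y).mpr hxy, Bool.false_or] at h3
  exact h3

end Pool.Agent.Q115.SatStar
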