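import Mathlib

namespace Pool.Agent.Q115.StarD

open MeasureTheory Filter Topology SimpleGraph
open scoped unitInterval

/-- A graphon: a symmetric measurable function `[0,1]² → [0,1]`. -/
structure Graphon where
  toFun : I → I → ℝ
  symm' : ∀ x y, toFun x y = toFun y x
  meas : Measurable (Function.uncurry toFun)
  nonneg : ∀ x y, 0 ≤ toFun x y
  le_one : ∀ x y, toFun x y ≤ 1

/-- The value of the graphon on an (unordered) pair of vertices, for vertex positions `x`. -/
def Graphon.edgeVal (W : Graphon) {V : Type*} (x : V → I) : Sym2 V → ℝ :=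
  Sym2.lift ⟨fun i j => W.toFun (x i) (x j), fun _ _ => W.symm' _ _⟩

open Classical in
/-- The homomorphism density `t(G, W)`. -/
noncomputable def homDensity {V : Type*} [Fintype V] (G : SimpleGraph V) (W : Graphon) : ℝ :=
  ∫ x : V → I, ∏ e : G.edgeSet, W.edgeVal x e

variable (W : Graphon)

theorem edgeVal_nonneg {V : Type*} (x : V → I) (e : Sym2 V) : 0 ≤ W.edgeVal x e := by
  induction e using Sym2.ind with
  | _ a b => exact W.nonneg _ _

theorem edgeVal_le_one {V : Type*} (x : V → I) (e : Sym2 V) : W.edgeVal x e ≤ 1 := by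
  induction e using Sym2.ind with
  | _ a b => exact W.le_one _ _

theorem edgeVal_map {V V' : Type*} (f : V → V') (x : V' → I) (e : Sym2 V) :
    W.edgeVal x (e.map f) = W.edgeVal (x ∘ f) e := by
  induction e using Sym2.ind with
  | _ a b => rfl

/-- density of a disjoint union -/
theorem density_sum {V V' : Type*} [Fintype V] [Fintype V'] (G : SimpleGraph V)
    (H : SimpleGraph V') : homDensity (G ⊕g H) W = homDensity G W * homDensity H W := by
  classical
  unfold homDensity
  have h1 : ∀ x : V ⊕ V' → I, (∏ e : (G ⊕g H).edgeSet, W.edgeVal x e) =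
      (∏ e : G.edgeSet, W.edgeVal (fun i => x (Sum.inl i)) e) *
      (∏ e : H.edgeSet, W.edgeVal (fun i => x (Sum.inr i)) e) := by
    intro x
    rw [← Equiv.prod_comp (edgeSetSumEquiv (G := G) (H := H)).symm, Fintype.prod_sum_type]
    congr 1
    · apply Finset.prod_congr rfl
      rintro ⟨e, he⟩ _
      induction e using Sym2.ind with
      | _ a b => rfl
    · apply Finset.prod_congr rfl
      rintro ⟨e, he⟩ _
      induction e using Sym2.ind with
      | _ a b => rfl
  simp_rw [h1]
  have h2 := (volume_measurePreserving_sumPiEquivProdPi (fun _ : V ⊕ V' => I)).integral_comp'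
    (g := fun z : (V → I) × (V' → I) => (∏ e : G.edgeSet, W.edgeVal z.1 e) *
      (∏ e : H.edgeSet, W.edgeVal z.2 e))
  rw [← integral_prod_mul (μ := (volume : Measure (V → I))) (ν := (volume : Measure (V' → I)))
    (fun z => ∏ e : G.edgeSet, W.edgeVal z e) (fun z => ∏ e : H.edgeSet, W.edgeVal z e)]
  exact h2

/-- The star with center `0` and leaves `1, …, s`. -/
def star (s : ℕ) : SimpleGraph (Fin (s + 1)) where
  Adj i j := i ≠ j ∧ (i = 0 ∨ j = 0)
  symm := ⟨fun _ _ h => ⟨h.1.symm, h.2.symm⟩⟩
  loopless := ⟨fun _ h => h.1 rfl⟩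

/-- the degree function of a graphon -/
noncomputable def dg (x : I) : ℝ := ∫ y, W.toFun x y

/-- the `j`-th moment of the degree function -/
noncomputable def mom (j : ℕ) : ℝ := ∫ x, dg W x ^ j

theorem sect_meas (x : I) : Measurable (W.toFun x) := by
  have := W.meas.comp (measurable_prodMk_left (x := x))
  exact this

theorem sect_int (x : I) : Integrable (W.toFun x) := by
  refine Integrable.of_bound (sect_meas W x).aestronglyMeasurable 1 ?_
  refine Eventually.of_forall fun y => ?_
  rw [Real.norm_of_nonneg (W.nonneg _ _)]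
  exact W.le_one _ _

theorem dg_nonneg (x : I) : 0 ≤ dg W x := integral_nonneg fun y => W.nonneg x y

theorem dg_le_one (x : I) : dg W x ≤ 1 := by
  have h := integral_mono (sect_int W x) (integrable_const (1 : ℝ)) (fun y => W.le_one x y)
  simpa [dg] using h

theorem dg_meas : Measurable (dg W) := by
  have h1 : StronglyMeasurable (Function.uncurry W.toFun) := W.meas.stronglyMeasurable
  exact (h1.integral_prod_right (ν := (volume : Measure I))).measurable

theorem pow_int (j : ℕ) : Integrable (fun x => dg W x ^ j) := by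
  refine Integrable.of_bound ((dg_meas W).pow_const j).aestronglyMeasurable 1 ?_
  refine Eventually.of_forall fun y => ?_
  rw [Real.norm_of_nonneg (pow_nonneg (dg_nonneg W y) j)]
  exact pow_le_one₀ (dg_nonneg W y) (dg_le_one W y)

theorem density_star (s : ℕ) : homDensity (star s) W = mom W s := by
  classical
  unfold homDensity mom
  -- the product over the edges
  let f : Fin s → (star s).edgeSet := fun i =>
    ⟨s(0, i.succ), by
      rw [mem_edgeSet]
      exact ⟨(Fin.succ_ne_zero i).symm, Or.inl rfl⟩⟩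
  have hf : Function.Bijective f := by
    constructor
    · intro i j hij
      have h1 : s((0 : Fin (s + 1)), i.succ) = s(0, j.succ) := congrArg Subtype.val hij
      rw [Sym2.eq_iff] at h1
      rcases h1 with ⟨-, h1⟩ | ⟨h1, -⟩
      · exact Fin.succ_injective _ h1
      · exact absurd h1.symm (Fin.succ_ne_zero j)
    · rintro ⟨e, he⟩
      induction e using Sym2.ind with
      | _ a b =>
        rw [mem_edgeSet] at he
        obtain ⟨hne, h0 | h0⟩ := he
        · subst h0
          obtain ⟨i, rfl⟩ := Fin.exists_succ_eq.mpr (Ne.symm hne)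
          exact ⟨i, rfl⟩
        · subst h0
          obtain ⟨i, rfl⟩ := Fin.exists_succ_eq.mpr hne
          exact ⟨i, Subtype.ext Sym2.eq_swap⟩
  have h1 : ∀ x : Fin (s + 1) → I, (∏ e : (star s).edgeSet, W.edgeVal x e) =
      ∏ i : Fin s, W.toFun (x 0) (x i.succ) := by
    intro x
    rw [← Fintype.prod_bijective f hf (fun i => W.toFun (x 0) (x i.succ)) _ (fun i => rfl)]
  simp_rw [h1]
  have h2 := (volume_preserving_piFinSuccAbove (fun _ : Fin (s + 1) => I) 0).integral_comp'
    (g := fun z : I × (Fin s → I) => ∏ i : Fin s, W.toFun z.1 (z.2 i))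
  have h3 : ∀ x : Fin (s + 1) → I,
      (∏ i : Fin s, W.toFun ((MeasurableEquiv.piFinSuccAbove (fun _ => I) 0) x).1
        (((MeasurableEquiv.piFinSuccAbove (fun _ => I) 0) x).2 i)) =
      ∏ i : Fin s, W.toFun (x 0) (x i.succ) := by
    intro x
    rfl
  rw [show (∫ x : Fin (s + 1) → I, ∏ i : Fin s, W.toFun (x 0) (x i.succ)) = _ from h2]
  have hm : Measurable (fun z : I × (Fin s → I) => ∏ i : Fin s, W.toFun z.1 (z.2 i)) := by
    apply Finset.measurable_prod
    intro i _
    exact W.meas.comp (measurable_fst.prodMk ((measurable_pi_apply i).comp measurable_snd))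
  have hint : Integrable (fun z : I × (Fin s → I) => ∏ i : Fin s, W.toFun z.1 (z.2 i))
      ((volume : Measure I).prod (volume : Measure (Fin s → I))) := by
    refine Integrable.of_bound hm.aestronglyMeasurable 1 ?_
    refine Eventually.of_forall fun z => ?_
    rw [Real.norm_of_nonneg (Finset.prod_nonneg fun i _ => W.nonneg _ _)]
    exact Finset.prod_le_one (fun i _ => W.nonneg _ _) (fun i _ => W.le_one _ _)
  rw [show (volume : Measure (I × (Fin s → I))) =
    (volume : Measure I).prod (volume : Measure (Fin s → I)) from rfl, integral_prod _ hint]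
  apply integral_congr_ae
  refine Eventually.of_forall fun x => ?_
  show (∫ y : Fin s → I, ∏ i : Fin s, W.toFun x (y i)) = dg W x ^ s
  rw [integral_fintype_prod_volume_eq_pow (fun y => W.toFun x y), Fintype.card_fin]
  rfl

/-! ### moments -/

theorem mom_zero : mom W 0 = 1 := by
  simp [mom]

theorem mom_nonneg (j : ℕ) : 0 ≤ mom W j := integral_nonneg fun x => pow_nonneg (dg_nonneg W x) j

theorem mom_anti (j : ℕ) : mom W (j + 1) ≤ mom W j := by
  refine integral_mono (pow_int W (j + 1)) (pow_int W j) (fun x => ?_)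
  exact pow_le_pow_of_le_one (dg_nonneg W x) (dg_le_one W x) (Nat.le_succ j)

theorem mom_anti' {i j : ℕ} (h : i ≤ j) : mom W j ≤ mom W i :=
  antitone_nat_of_succ_le (mom_anti W) h

theorem mom_quad (j : ℕ) (a b : ℝ) :
    0 ≤ a ^ 2 * mom W (j + 2) - 2 * a * b * mom W (j + 1) + b ^ 2 * mom W j := by
  have h1 : 0 ≤ ∫ x, dg W x ^ j * (a * dg W x - b) ^ 2 :=
    integral_nonneg fun x => mul_nonneg (pow_nonneg (dg_nonneg W x) j) (sq_nonneg _)
  have h2 : (∫ x, dg W x ^ j * (a * dg W x - b) ^ 2) =
      a ^ 2 * mom W (j + 2) - 2 * a * b * mom W (j + 1) + b ^ 2 * mom W j := by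
    have h3 : ∀ x, dg W x ^ j * (a * dg W x - b) ^ 2 =
        a ^ 2 * dg W x ^ (j + 2) - 2 * a * b * dg W x ^ (j + 1) + b ^ 2 * dg W x ^ j := by
      intro x
      ring
    simp_rw [h3]
    have i1 : Integrable (fun x => a ^ 2 * dg W x ^ (j + 2)) := (pow_int W (j + 2)).const_mul _
    have i2 : Integrable (fun x => 2 * a * b * dg W x ^ (j + 1)) :=
      (pow_int W (j + 1)).const_mul _
    have i3 : Integrable (fun x => b ^ 2 * dg W x ^ j) := (pow_int W j).const_mul _
    have i12 : Integrable (fun x => a ^ 2 * dg W x ^ (j + 2) - 2 * a * b * dg W x ^ (j + 1)) :=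
      i1.sub i2
    rw [integral_add i12 i3, integral_sub i1 i2, integral_const_mul, integral_const_mul,
      integral_const_mul]
    rfl
  rw [← h2]
  exact h1

/-- log-convexity of the moments -/
theorem mom_cs (j : ℕ) (hpos : 0 < mom W (j + 2)) :
    mom W (j + 1) ^ 2 ≤ mom W j * mom W (j + 2) := by
  have h := mom_quad W j (mom W (j + 1)) (mom W (j + 2))
  have h2 : 0 ≤ mom W (j + 2) * (mom W j * mom W (j + 2) - mom W (j + 1) ^ 2) := by
    nlinarith
  have h3 := nonneg_of_mul_nonneg_right h2 hpos
  linarith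

/-- minus the logarithm of the moments -/
noncomputable def ym (j : ℕ) : ℝ := - Real.log (mom W j)

theorem ym_zero : ym W 0 = 0 := by simp [ym, mom_zero]

theorem mom_le_one (j : ℕ) : mom W j ≤ 1 := by
  have := mom_anti' W (Nat.zero_le j)
  rwa [mom_zero] at this

theorem ym_nonneg (j : ℕ) : 0 ≤ ym W j := by
  unfold ym
  have := Real.log_nonpos (mom_nonneg W j) (mom_le_one W j)
  linarith

theorem ym_mono {i j : ℕ} (h : i ≤ j) (hpos : 0 < mom W j) : ym W i ≤ ym W j := by
  unfold ym
  have := Real.log_le_log hpos (mom_anti' W h)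
  linarith

theorem ym_concave (j : ℕ) (hpos : 0 < mom W (j + 2)) :
    ym W j + ym W (j + 2) ≤ 2 * ym W (j + 1) := by
  have h0 := mom_anti' W (Nat.le_add_right j 2)
  have h1 := mom_anti W (j + 1)
  have hp1 : 0 < mom W (j + 1) := lt_of_lt_of_le hpos h1
  have hp0 : 0 < mom W j := lt_of_lt_of_le hpos h0
  have h2 := Real.log_le_log (by positivity) (mom_cs W j hpos)
  rw [Real.log_pow, Real.log_mul hp0.ne' hpos.ne'] at h2
  unfold ym
  push_cast at h2
  linarith

/-- `j y_{j+1} ≤ (j+1) y_j` -/
theorem ym_ratio (j : ℕ) (hpos : 0 < mom W (j + 1)) :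
    (j : ℝ) * ym W (j + 1) ≤ (j + 1) * ym W j := by
  induction j with
  | zero => simp [ym_zero]
  | succ j ih =>
    have hp : 0 < mom W (j + 1) := lt_of_lt_of_le hpos (mom_anti W (j + 1))
    have h1 := ih hp
    have h2 := ym_concave W j hpos
    have h3 : (0 : ℝ) ≤ j := Nat.cast_nonneg j
    push_cast
    have h4 : (j + 1 : ℝ) * ym W (j + 2) ≤ (j + 1) * (2 * ym W (j + 1) - ym W j) :=
      mul_le_mul_of_nonneg_left (by linarith) (by linarith)
    have h5 : (j + 1 : ℕ) + 1 = j + 2 := rfl
    rw [h5]
    nlinarith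

/-- increments decrease -/
theorem ym_incr (s m : ℕ) (hpos : 0 < mom W (s + m + 1)) :
    ym W (s + m + 1) - ym W (s + m) ≤ ym W (s + 1) - ym W s := by
  induction m with
  | zero => exact le_rfl
  | succ m ih =>
    have hp : 0 < mom W (s + m + 1) := lt_of_lt_of_le hpos (mom_anti W (s + m + 1))
    have h1 := ih hp
    have h2 := ym_concave W (s + m) hpos
    have h3 : s + (m + 1) + 1 = s + m + 2 := by ring
    have h4 : s + (m + 1) = s + m + 1 := by ring
    rw [h3, h4]
    linarith

theorem ym_far (s m : ℕ) (hpos : 0 < mom W (s + m)) :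
    ym W (s + m) ≤ ym W s + m * (ym W (s + 1) - ym W s) := by
  induction m with
  | zero => simp
  | succ m ih =>
    have hp : 0 < mom W (s + m) := lt_of_lt_of_le hpos (mom_anti W (s + m))
    have h1 := ih hp
    have h2 := ym_incr W s m hpos
    have h4 : s + (m + 1) = s + m + 1 := by ring
    rw [h4]
    push_cast
    linarith

end Pool.Agent.Q115.StarD
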