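import Pool.Agent.Q115.StarDensity

namespace Pool.Agent.Q115.StarD

open MeasureTheory Filter Topology SimpleGraph
open scoped unitInterval

/-! ### threshold graphons -/

theorem int_thr (a : I) (u v : ℝ) : (∫ x : I, (if x < a then u else v)) = a * u + (1 - a) * v := by
  classical
  have h1 : ∀ x : I, (if x < a then u else v) =
      v + (Set.Iio a).indicator (fun _ => u - v) x := by
    intro x
    by_cases h : x < a
    · rw [if_pos h, Set.indicator_of_mem (Set.mem_Iio.mpr h)]; ring
    · rw [if_neg h, Set.indicator_of_notMem (fun h' => h (Set.mem_Iio.mp h'))]; ring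
  simp_rw [h1]
  rw [integral_add (integrable_const _) ((integrable_const _).indicator measurableSet_Iio),
    integral_indicator_const _ measurableSet_Iio, integral_const]
  have h2 : (volume : Measure I).real (Set.Iio a) = a := by
    rw [Measure.real, unitInterval.volume_Iio, ENNReal.toReal_ofReal a.2.1]
  rw [h2]
  simp only [probReal_univ, smul_eq_mul, one_mul]
  ring

/-- the graphon equal to `1` if one of the coordinates is less than `a` and to `p` otherwise -/
noncomputable def thr (a p : I) : Graphon where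
  toFun x y := if x < a then 1 else if y < a then 1 else p
  symm' x y := by
    by_cases h1 : x < a <;> by_cases h2 : y < a <;> simp [h1, h2]
  meas := by
    refine Measurable.ite (measurableSet_lt measurable_fst measurable_const) measurable_const ?_
    exact Measurable.ite (measurableSet_lt measurable_snd measurable_const) measurable_const
      measurable_const
  nonneg x y := by
    split_ifs
    · exact zero_le_one
    · exact zero_le_one
    · exact p.2.1
  le_one x y := by
    split_ifs
    · exact le_rfl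
    · exact le_rfl
    · exact p.2.2

theorem dg_thr (a p : I) (x : I) :
    dg (thr a p) x = if x < a then 1 else (a : ℝ) + (1 - a) * p := by
  unfold dg thr
  simp only
  split_ifs with h
  · simp
  · rw [int_thr]
    ring

theorem mom_thr (a p : I) (j : ℕ) :
    mom (thr a p) j = a + (1 - a) * ((a : ℝ) + (1 - a) * p) ^ j := by
  unfold mom
  have h1 : ∀ x, dg (thr a p) x ^ j = if x < a then (1 : ℝ) else ((a : ℝ) + (1 - a) * p) ^ j := by
    intro x
    rw [dg_thr]
    split_ifs
    · exact one_pow j
    · rfl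
  simp_rw [h1]
  rw [int_thr]
  ring

/-- existence of a graphon which is almost extremal for `s = m + 2` -/
theorem near_extremal (m : ℕ) (q : ℝ) (hq : Real.log 2 ≤ q) :
    ∃ W : Graphon, 0 < mom W (m + 3) ∧
      (m + 2) * q - Real.log (1 + 2 ^ (m + 2)) ≤ ym W (m + 2) ∧
      ym W (m + 3) ≤ (m + 2) * q ∧
      ym W (m + 1) ≤ (m + 1) * q + (m + 2) * Real.log 2 := by
  set p : ℝ := Real.exp (-q) with hp
  have hp0 : 0 < p := Real.exp_pos _
  have hp2 : p ≤ 1 / 2 := by
    rw [hp, Real.exp_neg, one_div]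
    apply inv_anti₀ (by norm_num)
    calc (2 : ℝ) = Real.exp (Real.log 2) := (Real.exp_log (by norm_num)).symm
      _ ≤ Real.exp q := Real.exp_le_exp.mpr hq
  set a : ℝ := p ^ (m + 2) with ha
  have ha0 : 0 < a := by positivity
  have hap : a ≤ p := by
    rw [ha, pow_succ]
    have : p ^ (m + 1) ≤ 1 := pow_le_one₀ hp0.le (by linarith)
    nlinarith
  have hlogp : Real.log p = -q := Real.log_exp _
  have hloga : Real.log a = -((m + 2) * q) := by
    rw [ha, Real.log_pow, hlogp]
    push_cast
    ring
  let A : I := ⟨a, ha0.le, by linarith⟩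
  let P : I := ⟨p, hp0.le, by linarith⟩
  have hmom : ∀ j, mom (thr A P) j = a + (1 - a) * (a + (1 - a) * p) ^ j := mom_thr A P
  have hc0 : 0 < a + (1 - a) * p := by nlinarith
  have hge : ∀ j, a ≤ mom (thr A P) j := by
    intro j
    rw [hmom]
    have : 0 ≤ (1 - a) * (a + (1 - a) * p) ^ j :=
      mul_nonneg (by linarith) (pow_nonneg hc0.le j)
    linarith
  refine ⟨thr A P, lt_of_lt_of_le ha0 (hge _), ?_, ?_, ?_⟩
  · -- lower bound for `y_{m+2}`
    have h1 : mom (thr A P) (m + 2) ≤ (1 + 2 ^ (m + 2)) * a := by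
      rw [hmom]
      have h2 : (a + (1 - a) * p) ^ (m + 2) ≤ (2 * p) ^ (m + 2) :=
        pow_le_pow_left₀ hc0.le (by nlinarith) _
      have h3 : (1 - a) * (a + (1 - a) * p) ^ (m + 2) ≤ (2 * p) ^ (m + 2) := by
        have h4 : 0 ≤ (a + (1 - a) * p) ^ (m + 2) := pow_nonneg hc0.le _
        nlinarith
      rw [mul_pow] at h3
      rw [← ha] at h3
      linarith
    have h2 := Real.log_le_log (lt_of_lt_of_le ha0 (hge (m + 2))) h1
    rw [Real.log_mul (by positivity) ha0.ne', hloga] at h2
    unfold ym
    linarith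
  · have h2 := Real.log_le_log ha0 (hge (m + 3))
    rw [hloga] at h2
    unfold ym
    linarith
  · have h1 : (1 / 2) ^ (m + 2) * p ^ (m + 1) ≤ mom (thr A P) (m + 1) := by
      rw [hmom]
      have h2 : ((1 / 2) * p) ^ (m + 1) ≤ (a + (1 - a) * p) ^ (m + 1) :=
        pow_le_pow_left₀ (by positivity) (by nlinarith) _
      have h3 : (1 / 2) * ((1 / 2) * p) ^ (m + 1) ≤ (1 - a) * (a + (1 - a) * p) ^ (m + 1) :=
        mul_le_mul (by linarith) h2 (by positivity) (by linarith)
      have h4 : (1 / 2 : ℝ) ^ (m + 2) * p ^ (m + 1) = (1 / 2) * ((1 / 2) * p) ^ (m + 1) := by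
        rw [mul_pow]; ring
      rw [h4]
      linarith
    have h2 := Real.log_le_log (by positivity) h1
    rw [Real.log_mul (by positivity) (by positivity), Real.log_pow, Real.log_pow, hlogp,
      one_div, Real.log_inv] at h2
    unfold ym
    push_cast at h2
    linarith

/-! ### the pairs of graphs -/

/-- `K_{1,m+1} ⊔ K_{1,m+3}` -/
def GG (m : ℕ) : SimpleGraph (Fin (m + 2) ⊕ Fin (m + 4)) := star (m + 1) ⊕g star (m + 3)

/-- `2 K_{1,m+2}` -/
def HH (m : ℕ) : SimpleGraph (Fin (m + 3) ⊕ Fin (m + 3)) := star (m + 2) ⊕g star (m + 2)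

theorem dens_GG (m : ℕ) (W : Graphon) :
    homDensity (GG m) W = mom W (m + 1) * mom W (m + 3) := by
  unfold GG
  rw [density_sum, density_star, density_star]

theorem dens_HH (m : ℕ) (W : Graphon) :
    homDensity (HH m) W = mom W (m + 2) * mom W (m + 2) := by
  unfold HH
  rw [density_sum, density_star]

theorem pos_of_ne (m : ℕ) (W : Graphon) (h : homDensity (GG m) W ≠ 0) : 0 < mom W (m + 3) := by
  rw [dens_GG] at h
  exact lt_of_le_of_ne (mom_nonneg W _) (Ne.symm (right_ne_zero_of_mul h))

theorem ratio_eq (m : ℕ) (W : Graphon) (h : 0 < mom W (m + 3)) :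
    Real.log (homDensity (HH m) W) / Real.log (homDensity (GG m) W) =
      2 * ym W (m + 2) / (ym W (m + 1) + ym W (m + 3)) := by
  have h2 : 0 < mom W (m + 2) := lt_of_lt_of_le h (mom_anti' W (by omega))
  have h1 : 0 < mom W (m + 1) := lt_of_lt_of_le h (mom_anti' W (by omega))
  rw [dens_GG, dens_HH, Real.log_mul h2.ne' h2.ne', Real.log_mul h1.ne' h.ne']
  unfold ym
  rw [← neg_div_neg_eq]
  congr 1 <;> ring

/-- `ρ(G,H)` is finite and equal to `ρ` -/
def HasExponent {V V' : Type} [Fintype V] [Fintype V'] (G : SimpleGraph V)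
    (H : SimpleGraph V') (ρ : ℝ) : Prop :=
  (∀ W : Graphon, homDensity G W ≠ 0 → homDensity H W ≠ 0) ∧
  IsLUB {r : ℝ | ∃ W : Graphon, homDensity G W ≠ 0 ∧ homDensity G W ≠ 1 ∧
    r = Real.log (homDensity H W) / Real.log (homDensity G W)} ρ

/-- the exponent of the pair number `m` -/
noncomputable def rho (m : ℕ) : ℝ := 2 * (m + 2) / (2 * m + 3)

theorem hasExponent (m : ℕ) : HasExponent (GG m) (HH m) (rho m) := by
  have hm : (0 : ℝ) ≤ m := Nat.cast_nonneg m
  refine ⟨?_, ?_, ?_⟩
  · intro W h
    have h3 := pos_of_ne m W h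
    have h2 : 0 < mom W (m + 2) := lt_of_lt_of_le h3 (mom_anti' W (by omega))
    rw [dens_HH]
    positivity
  · rintro r ⟨W, h0, h1, rfl⟩
    have h3 := pos_of_ne m W h0
    rw [ratio_eq m W h3]
    have hy0 := ym_nonneg W (m + 1)
    have hy1 := ym_nonneg W (m + 3)
    have hy2 := ym_nonneg W (m + 2)
    have hle : ym W (m + 2) ≤ ym W (m + 3) := ym_mono W (by omega) h3
    have hr := ym_ratio W (m + 1) (lt_of_lt_of_le h3 (mom_anti' W (by omega)))
    push_cast at hr
    have hr' : ((m : ℝ) + 1) * ym W (m + 2) ≤ (m + 2) * ym W (m + 1) := by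
      have : (m : ℝ) + 1 + 1 = m + 2 := by ring
      rw [this] at hr
      exact hr
    rcases (add_nonneg hy0 hy1).eq_or_lt with h4 | h4
    · rw [← h4, div_zero]
      unfold rho
      positivity
    · unfold rho
      rw [div_le_div_iff₀ h4 (by positivity)]
      nlinarith
  · intro b hb
    by_contra hcon
    push Not at hcon
    have hlt : b * (2 * m + 3) < 2 * (m + 2) := by
      unfold rho at hcon
      rwa [lt_div_iff₀ (by positivity)] at hcon
    set C1 := Real.log (1 + 2 ^ (m + 2)) with hC1
    have hC1p : 0 ≤ C1 := Real.log_nonneg (by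
      have : (0 : ℝ) ≤ 2 ^ (m + 2) := by positivity
      linarith)
    have hl2 : 0 < Real.log 2 := Real.log_pos (by norm_num)
    set D := 2 * (m + 2) - b * (2 * m + 3) with hD
    have hD0 : 0 < D := by rw [hD]; linarith
    -- choose `q` large
    set q := (2 * C1 + |b| * ((m + 2) * Real.log 2) + 1) / D + C1 + Real.log 2 + 1 with hq
    have hb0 : 0 ≤ |b| := abs_nonneg b
    have hfrac : 0 ≤ (2 * C1 + |b| * ((m + 2) * Real.log 2) + 1) / D := by positivity
    have hqlog : Real.log 2 ≤ q := by rw [hq]; linarith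
    have hq1 : C1 + 1 ≤ q := by rw [hq]; linarith
    have hqD : 2 * C1 + |b| * ((m + 2) * Real.log 2) + 1 ≤ q * D := by
      have h1 : (2 * C1 + |b| * ((m + 2) * Real.log 2) + 1) / D ≤ q := by rw [hq]; linarith
      rwa [div_le_iff₀ hD0] at h1
    obtain ⟨W, h3, e1, e2, e3⟩ := near_extremal m q hqlog
    rw [← hC1] at e1
    have hyp : 0 < ym W (m + 2) := by nlinarith
    have hle : ym W (m + 2) ≤ ym W (m + 3) := ym_mono W (by omega) h3
    have hy0 := ym_nonneg W (m + 1)
    have hden : 0 < ym W (m + 1) + ym W (m + 3) := by linarith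
    have h1 : 0 < mom W (m + 1) := lt_of_lt_of_le h3 (mom_anti' W (by omega))
    have hne : homDensity (GG m) W ≠ 0 := by
      rw [dens_GG]; positivity
    have hne1 : homDensity (GG m) W ≠ 1 := by
      intro h
      have h4 : Real.log (homDensity (GG m) W) = 0 := by rw [h, Real.log_one]
      rw [dens_GG, Real.log_mul h1.ne' h3.ne'] at h4
      unfold ym at hden
      linarith
    have hbb := hb ⟨W, hne, hne1, rfl⟩
    rw [ratio_eq m W h3, div_le_iff₀ hden] at hbb
    have hbabs : b ≤ |b| := le_abs_self b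
    by_cases hbs : 0 ≤ b
    · rw [abs_of_nonneg hbs] at hqD
      have h5 : b * (ym W (m + 1) + ym W (m + 3)) ≤
          b * ((2 * m + 3) * q + (m + 2) * Real.log 2) :=
        mul_le_mul_of_nonneg_left (by linarith) hbs
      rw [hD] at hqD
      nlinarith
    · have : b * (ym W (m + 1) + ym W (m + 3)) ≤ 0 :=
        mul_nonpos_of_nonpos_of_nonneg (by linarith) hden.le
      linarith

/-! ### one sequence cannot serve two pairs -/

theorem one_lt_rho (m : ℕ) : 1 < rho m := by
  unfold rho
  rw [lt_div_iff₀ (by positivity)]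
  linarith

theorem not_two {m m' : ℕ} (hmm : m < m') (F : ℕ → Graphon)
    (h1 : Tendsto (fun n => Real.log (homDensity (HH m) (F n)) /
      Real.log (homDensity (GG m) (F n))) atTop (𝓝 (rho m)))
    (h2 : Tendsto (fun n => Real.log (homDensity (HH m') (F n)) /
      Real.log (homDensity (GG m') (F n))) atTop (𝓝 (rho m'))) : False := by
  obtain ⟨d, rfl⟩ : ∃ d, m' = m + (d + 1) := ⟨m' - m - 1, by omega⟩
  set R : ℕ → ℝ := fun n => Real.log (homDensity (HH m) (F n)) /
      Real.log (homDensity (GG m) (F n)) with hR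
  have hm : (0 : ℝ) ≤ m := Nat.cast_nonneg m
  have hd0 : (0 : ℝ) ≤ d := Nat.cast_nonneg d
  have hrho : 0 < rho m := by
    have := one_lt_rho m
    linarith
  have hlim : Tendsto (fun n => 1 + ((d : ℝ) + 1) * (2 / R n - (2 * m + 3) / (m + 2))) atTop
      (𝓝 1) := by
    have h3 : Tendsto (fun n => 2 / R n) atTop (𝓝 (2 / rho m)) :=
      tendsto_const_nhds.div h1 hrho.ne'
    have h4 : (2 : ℝ) / rho m = (2 * m + 3) / (m + 2) := by
      unfold rho
      field_simp
    have h5 := ((h3.sub_const ((2 * m + 3) / (m + 2))).const_mul ((d : ℝ) + 1)).const_add 1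
    rw [h4, sub_self, mul_zero, add_zero] at h5
    exact h5
  have hev1 : ∀ᶠ n in atTop, 1 < Real.log (homDensity (HH (m + (d + 1))) (F n)) /
      Real.log (homDensity (GG (m + (d + 1))) (F n)) :=
    h2.eventually (lt_mem_nhds (one_lt_rho _))
  have hev2 : ∀ᶠ n in atTop, 1 < R n := h1.eventually (lt_mem_nhds (one_lt_rho m))
  have hle : ∀ᶠ n in atTop, Real.log (homDensity (HH (m + (d + 1))) (F n)) /
      Real.log (homDensity (GG (m + (d + 1))) (F n)) ≤
      1 + ((d : ℝ) + 1) * (2 / R n - (2 * m + 3) / (m + 2)) := by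
    filter_upwards [hev1, hev2] with n hn1 hn2
    have hne : homDensity (GG (m + (d + 1))) (F n) ≠ 0 := by
      intro h
      rw [h, Real.log_zero, div_zero] at hn1
      linarith
    set W := F n with hW
    have hp := pos_of_ne _ W hne
    rw [ratio_eq _ W hp] at hn1 ⊢
    have hpm : 0 < mom W (m + 3) := lt_of_lt_of_le hp (mom_anti' W (by omega))
    have hRn : R n = 2 * ym W (m + 2) / (ym W (m + 1) + ym W (m + 3)) := ratio_eq m W hpm
    rw [hRn] at hn2 ⊢
    have hy0 := ym_nonneg W (m + 1)
    have hy1 := ym_nonneg W (m + 3)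
    have hden : 0 < ym W (m + 1) + ym W (m + 3) := by
      rcases (add_nonneg hy0 hy1).eq_or_lt with h4 | h4
      · rw [← h4, div_zero] at hn2
        linarith
      · exact h4
    have hys : 0 < ym W (m + 2) := by
      rw [lt_div_iff₀ hden] at hn2
      linarith
    -- the quantities of the second pair
    have a1 : ym W (m + 2) ≤ ym W (m + (d + 1) + 1) := ym_mono W (by omega)
      (lt_of_lt_of_le hp (mom_anti' W (by omega)))
    have a2 : ym W (m + (d + 1) + 2) ≤ ym W (m + (d + 1) + 3) := ym_mono W (by omega) hp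
    have a3 : ym W (m + 2) ≤ ym W (m + (d + 1) + 2) := ym_mono W (by omega)
      (lt_of_lt_of_le hp (mom_anti' W (by omega)))
    have a4 := ym_far W (m + 2) (d + 1) (lt_of_lt_of_le hp (mom_anti' W (by omega)))
    have a5 : m + 2 + (d + 1) = m + (d + 1) + 2 := by ring
    have a6 : m + 2 + 1 = m + 3 := by ring
    rw [a5, a6] at a4
    push_cast at a4
    have hr := ym_ratio W (m + 1) (lt_of_lt_of_le hpm (mom_anti' W (by omega)))
    push_cast at hr
    have hr' : ((m : ℝ) + 1) * ym W (m + 2) ≤ (m + 2) * ym W (m + 1) := by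
      have : (m : ℝ) + 1 + 1 = m + 2 := by ring
      rw [this] at hr
      exact hr
    -- `2 / R = (y_{m+1} + y_{m+3}) / y_{m+2}`
    have b1 : 2 / (2 * ym W (m + 2) / (ym W (m + 1) + ym W (m + 3))) =
        (ym W (m + 1) + ym W (m + 3)) / ym W (m + 2) := by
      field_simp
    rw [b1]
    set Y := ym W (m + 2) with hY
    set Z := ym W (m + (d + 1) + 2) with hZ
    -- the left side is at most `1 + (Z - Y) / Y`
    have c1 : 2 * Z / (ym W (m + (d + 1) + 1) + ym W (m + (d + 1) + 3)) ≤ 1 + (Z - Y) / Y := by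
      have c2 : 2 * Z / (ym W (m + (d + 1) + 1) + ym W (m + (d + 1) + 3)) ≤ 2 * Z / (Y + Z) := by
        apply div_le_div_of_nonneg_left (by linarith) (by linarith) (by linarith)
      have c3 : 2 * Z / (Y + Z) ≤ 1 + (Z - Y) / Y := by
        rw [div_le_iff₀ (by linarith)]
        have c4 : (1 + (Z - Y) / Y) * (Y + Z) = 2 * Z + (Z - Y) * (Z / Y) := by
          field_simp
          ring
        rw [c4]
        have c5 : 0 ≤ (Z - Y) * (Z / Y) := by
          apply mul_nonneg (by linarith)
          apply div_nonneg (by linarith) hys.le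
        linarith
      exact c2.trans c3
    have c6 : (Z - Y) / Y ≤
        ((d : ℝ) + 1) * ((ym W (m + 1) + ym W (m + 3)) / Y - (2 * m + 3) / (m + 2)) := by
      have c7 : (Z - Y) / Y ≤ ((d : ℝ) + 1) * ((ym W (m + 3) - Y) / Y) := by
        rw [← mul_div_assoc]
        apply div_le_div_of_nonneg_right _ hys.le
        linarith
      have c8 : (ym W (m + 3) - Y) / Y ≤
          (ym W (m + 1) + ym W (m + 3)) / Y - (2 * m + 3) / (m + 2) := by
        have c9 : ((m : ℝ) + 1) / (m + 2) ≤ ym W (m + 1) / Y := by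
          rw [div_le_div_iff₀ (by positivity) hys]
          linarith
        have c10 : (2 * (m : ℝ) + 3) / (m + 2) = (m + 1) / (m + 2) + 1 := by
          field_simp
          ring
        rw [c10, add_div, sub_div, div_self hys.ne']
        linarith
      exact c7.trans (mul_le_mul_of_nonneg_left c8 (by linarith))
    linarith
  have := le_of_tendsto_of_tendsto h2 hlim hle
  have h3 := one_lt_rho (m + (d + 1))
  linarith

end Pool.Agent.Q115.StarD
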