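import Pool.Agent.Q115.UDDesign

namespace Pool.Agent.Q115.UD

open Finset

/-- the inductive inequality between the binomial coefficients -/
theorem choose_aux {k : ℕ} (hk : 3 ≤ k) (j : ℕ) (hj : j + 1 ≤ k - 2) :
    (((k * (k + 1)).choose (j + 1) : ℕ) : ℤ) * (k * (k - 1) * (k ^ 2 + 2 - j * (k + 1))) ≤
      (((k ^ 2).choose (j + 2) : ℕ) : ℤ) * ((j + 2) * (k ^ 2 + 2)) := by
  induction j with
  | zero =>
    have e1 : (((k ^ 2).choose 2 : ℕ) : ℤ) * 2 = k ^ 2 * (k ^ 2 - 1) := by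
      have h := Nat.choose_succ_right_eq (k ^ 2) 1
      rw [Nat.choose_one_right] at h
      have h1 : 1 ≤ k ^ 2 := Nat.one_le_pow _ _ (by omega)
      have h2 : (((k ^ 2).choose (1 + 1) * (1 + 1) : ℕ) : ℤ) = ((k ^ 2 * (k ^ 2 - 1) : ℕ) : ℤ) := by
        rw [h]
      rw [Nat.cast_mul, Nat.cast_mul, Nat.cast_sub h1] at h2
      push_cast at h2
      exact h2
    rw [zero_add, Nat.choose_one_right]
    push_cast
    have e2 : (((k ^ 2).choose 2 : ℕ) : ℤ) * ((0 + 2) * (k ^ 2 + 2)) =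
        k ^ 2 * (k ^ 2 - 1) * (k ^ 2 + 2) := by rw [← e1]; ring
    have e3 : (k : ℤ) * (k + 1) * (k * (k - 1) * (k ^ 2 + 2 - 0 * (k + 1))) =
        k ^ 2 * (k ^ 2 - 1) * (k ^ 2 + 2) := by ring
    linarith
  | succ j ih =>
    have ih := ih (by omega)
    have h1 := Nat.choose_succ_right_eq (k ^ 2) (j + 2)
    have h2 := Nat.choose_succ_right_eq (k * (k + 1)) (j + 1)
    have hkk : k ≤ k ^ 2 := Nat.le_self_pow two_ne_zero k
    have hj1 : j + 2 ≤ k ^ 2 := by omega
    have hj2 : j + 1 ≤ k * (k + 1) := by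
      have : k * (k + 1) = k ^ 2 + k := by ring
      omega
    obtain ⟨A, hA⟩ : ∃ A : ℤ, A = (((k ^ 2).choose (j + 2) : ℕ) : ℤ) := ⟨_, rfl⟩
    obtain ⟨A', hA'⟩ : ∃ A : ℤ, A = (((k ^ 2).choose (j + 3) : ℕ) : ℤ) := ⟨_, rfl⟩
    obtain ⟨B, hB⟩ : ∃ A : ℤ, A = (((k * (k + 1)).choose (j + 1) : ℕ) : ℤ) := ⟨_, rfl⟩
    obtain ⟨B', hB'⟩ : ∃ A : ℤ, A = (((k * (k + 1)).choose (j + 2) : ℕ) : ℤ) := ⟨_, rfl⟩
    have h1' : A' * (j + 3) = A * (k ^ 2 - (j + 2)) := by
      rw [hA, hA']
      have : (((k ^ 2).choose (j + 2 + 1) * (j + 2 + 1) : ℕ) : ℤ) =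
          (((k ^ 2).choose (j + 2) * (k ^ 2 - (j + 2)) : ℕ) : ℤ) := by rw [h1]
      rw [Nat.cast_mul, Nat.cast_mul, Nat.cast_sub hj1] at this
      push_cast at this
      linarith
    have h2' : B' * (j + 2) = B * (k * (k + 1) - (j + 1)) := by
      rw [hB, hB']
      have : (((k * (k + 1)).choose (j + 1 + 1) * (j + 1 + 1) : ℕ) : ℤ) =
          (((k * (k + 1)).choose (j + 1) * (k * (k + 1) - (j + 1)) : ℕ) : ℤ) := by rw [h2]
      rw [Nat.cast_mul, Nat.cast_mul, Nat.cast_sub hj2] at this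
      push_cast at this
      linarith
    rw [← hA, ← hB] at ih
    show (((k * (k + 1)).choose (j + 2) : ℕ) : ℤ) * _ ≤ (((k ^ 2).choose (j + 3) : ℕ) : ℤ) * _
    rw [← hA', ← hB']
    have hk' : (3 : ℤ) ≤ k := by exact_mod_cast hk
    have hjk : (j : ℤ) + 4 ≤ k := by
      have : j + 4 ≤ k := by omega
      exact_mod_cast this
    have hj0 : (0 : ℤ) ≤ j := by positivity
    have hB0 : 0 ≤ B := by rw [hB]; positivity
    push_cast
    obtain ⟨D, hD⟩ : ∃ D : ℤ, D = k * (k + 1) - (j + 1) := ⟨_, rfl⟩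
    obtain ⟨X, hX⟩ : ∃ X : ℤ, X = (k : ℤ) ^ 2 + 2 - j * (k + 1) := ⟨_, rfl⟩
    have hXD : X ≤ D := by rw [hX, hD]; nlinarith
    have e1 : (k : ℤ) ^ 2 + 2 - (j + 1) * (k + 1) = X - (k + 1) := by rw [hX]; ring
    have e2 : (k : ℤ) ^ 2 - (j + 2) = D - (k + 1) := by rw [hD]; ring
    rw [e1]
    rw [← hX] at ih
    rw [e2] at h1'
    rw [← hD] at h2'
    have hDk : 0 ≤ D - (k + 1) := by rw [← e2]; nlinarith
    -- multiply by `j + 2`
    have step : (j + 2) * (B' * (k * (k - 1) * (X - (k + 1)))) ≤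
        (j + 2) * (A' * ((j + 3) * (k ^ 2 + 2))) := by
      have s1 : (j + 2) * (B' * (k * (k - 1) * (X - (k + 1)))) =
          B * (k * (k - 1)) * (D * (X - (k + 1))) := by
        calc (j + 2) * (B' * (k * (k - 1) * (X - (k + 1)))) =
            (B' * (j + 2)) * (k * (k - 1) * (X - (k + 1))) := by ring
          _ = _ := by rw [h2']; ring
      have s2 : (j + 2) * (A' * ((j + 3) * ((k : ℤ) ^ 2 + 2))) =
          (A * ((j + 2) * (k ^ 2 + 2))) * (D - (k + 1)) := by
        calc (j + 2) * (A' * ((j + 3) * ((k : ℤ) ^ 2 + 2))) =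
            (A' * (j + 3)) * ((j + 2) * (k ^ 2 + 2)) := by ring
          _ = _ := by rw [h1']; ring
      rw [s1, s2]
      have s3 := mul_le_mul_of_nonneg_right ih hDk
      have s4 : B * (k * (k - 1)) * (D * (X - (k + 1))) ≤
          B * (k * (k - 1) * X) * (D - (k + 1)) := by
        have s5 : D * (X - (k + 1)) ≤ X * (D - (k + 1)) := by nlinarith
        have s6 : 0 ≤ B * ((k : ℤ) * (k - 1)) :=
          mul_nonneg hB0 (mul_nonneg (by linarith) (by linarith))
        calc B * (k * (k - 1)) * (D * (X - (k + 1))) ≤ B * (k * (k - 1)) * (X * (D - (k + 1))) :=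
              mul_le_mul_of_nonneg_left s5 s6
          _ = _ := by ring
      linarith
    have := le_of_mul_le_mul_left step (by linarith)
    have e3 : (j : ℤ) + 1 + 2 = j + 3 := by ring
    rw [e3]
    exact this

theorem choose_le {k j : ℕ} (hj : 1 ≤ j) (hj' : j ≤ k - 2) :
    (k * (k + 1)).choose j ≤ (k ^ 2).choose (j + 1) := by
  obtain ⟨j, rfl⟩ : ∃ i, j = i + 1 := ⟨j - 1, by omega⟩
  have hk : 3 ≤ k := by omega
  have h := choose_aux hk j hj'
  have hk' : (3 : ℤ) ≤ k := by exact_mod_cast hk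
  have hjk : (j : ℤ) + 3 ≤ k := by
    have : j + 3 ≤ k := by omega
    exact_mod_cast this
  have hj0 : (0 : ℤ) ≤ j := by positivity
  have h1 : ((j : ℤ) + 2) * (k ^ 2 + 2) ≤ k * (k - 1) * (k ^ 2 + 2 - j * (k + 1)) := by
    have a1 : ((j : ℤ) + 2) * (k ^ 2 + 2) ≤ (k - 1) * (k ^ 2 + 2) :=
      mul_le_mul_of_nonneg_right (by linarith) (by positivity)
    have a2 : (k : ℤ) ^ 2 + 2 ≤ k * (k ^ 2 + 2 - j * (k + 1)) := by
      have : (j : ℤ) * (k + 1) ≤ (k - 3) * (k + 1) :=
        mul_le_mul_of_nonneg_right (by linarith) (by linarith)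
      nlinarith
    have a3 := mul_le_mul_of_nonneg_left a2 (by linarith : (0 : ℤ) ≤ k - 1)
    nlinarith
  have hA : (0 : ℤ) ≤ (((k * (k + 1)).choose (j + 1) : ℕ) : ℤ) := by positivity
  have h2 := (mul_le_mul_of_nonneg_left h1 hA).trans h
  have h3 := le_of_mul_le_mul_right h2 (by positivity)
  exact_mod_cast h3

variable {V : Type*} [Fintype V] [DecidableEq V]

theorem affine_facts {G : Finset (Finset V)} {k : ℕ} (h : IsAffinePlane G k) (hk : 2 ≤ k) :
    (∀ x, deg G x = k + 1) ∧ G.card = k * (k + 1) ∧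
      ∀ B ∈ G, ∀ B' ∈ G, B ≠ B' → (B ∩ B').card ≤ 1 := by
  obtain ⟨h1, h2, h3⟩ := h
  have hd := deg_mul h2 h3
  have hdeg : ∀ x, deg G x = k + 1 := by
    intro x
    have := hd x
    rw [h1, one_mul] at this
    have e : k ^ 2 - 1 = (k + 1) * (k - 1) := by
      obtain ⟨m, rfl⟩ : ∃ m, k = m + 1 := ⟨k - 1, by omega⟩
      simp only [Nat.add_sub_cancel]
      have : (m + 1) ^ 2 = (m + 1 + 1) * m + 1 := by ring
      omega
    rw [e] at this
    exact Nat.eq_of_mul_eq_mul_right (by omega) this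
  refine ⟨hdeg, ?_, ?_⟩
  · have hs := sum_deg G
    rw [sum_congr rfl fun x _ => hdeg x, sum_const, card_univ, smul_eq_mul, h1,
      sum_congr rfl h2, sum_const, smul_eq_mul] at hs
    have : G.card * k = k * (k + 1) * k := by rw [← hs]; ring
    exact Nat.eq_of_mul_eq_mul_right (by omega) this
  · intro B hB B' hB' hne
    by_contra hcon
    push Not at hcon
    obtain ⟨x, hx, y, hy, hxy⟩ := one_lt_card.mp hcon
    rw [mem_inter] at hx hy
    have := h3 x y hxy
    have h4 : 1 < codeg G x y := by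
      rw [codeg, one_lt_card]
      exact ⟨B, mem_filter.mpr ⟨hB, hx.1, hy.1⟩, B', mem_filter.mpr ⟨hB', hx.2, hy.2⟩, hne⟩
    omega

theorem affine_average {G : Finset (Finset V)} {k : ℕ} (h : IsAffinePlane G k) (hk : 2 ≤ k) :
    Fintype.card V * (unions G).card ≤ 2 * ∑ S ∈ unions G, S.card := by
  classical
  obtain ⟨h4, h5, h6⟩ := affine_facts h hk
  obtain ⟨h1, h2, h3⟩ := h
  have hφ : ∀ j : ℕ, ∃ φ : Finset (Finset V) → Finset V, 1 ≤ j → j ≤ k - 2 →
      (∀ M ∈ powersetCard j G, (φ M).card = j + 1) ∧ Set.InjOn φ (powersetCard j G) := by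
    intro j
    by_cases hj : 1 ≤ j ∧ j ≤ k - 2
    · have hcard : (powersetCard j G).card ≤ (powersetCard (j + 1) (univ : Finset V)).card := by
        rw [card_powersetCard, card_powersetCard, card_univ, h1, h5]
        exact choose_le hj.1 hj.2
      let ι : {M // M ∈ powersetCard j G} ↪ {C // C ∈ powersetCard (j + 1) (univ : Finset V)} :=
        (powersetCard j G).equivFin.toEmbedding.trans ((Fin.castLEEmb hcard).trans
          (powersetCard (j + 1) (univ : Finset V)).equivFin.symm.toEmbedding)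
      refine ⟨fun M => if hM : M ∈ powersetCard j G then (ι ⟨M, hM⟩).1 else ∅, fun _ _ => ?_⟩
      constructor
      · intro M hM
        simp only [hM, dif_pos]
        exact (mem_powersetCard.mp (ι ⟨M, hM⟩).2).2
      · intro M hM M' hM' hMM
        rw [mem_coe] at hM hM'
        simp only [hM, hM', dif_pos] at hMM
        have := ι.injective (Subtype.ext hMM)
        exact congrArg Subtype.val this
    · exact ⟨fun _ => ∅, fun h7 h8 => absurd ⟨h7, h8⟩ hj⟩
  choose φ hφ using hφ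
  let Φ : Finset (Finset V) → Finset V := fun M => if M = ∅ then ∅ else φ M.card M
  have hΦ0 : Φ ∅ = ∅ := if_pos rfl
  have hΦ : ∀ M ⊆ G, M.card ≤ k - 2 → M ≠ ∅ → (Φ M).card = M.card + 1 := by
    intro M hM hMc hne
    show (if M = ∅ then ∅ else φ M.card M).card = M.card + 1
    rw [if_neg hne]
    exact (hφ M.card (card_pos.mpr (nonempty_iff_ne_empty.mpr hne)) hMc).1 M
      (mem_powersetCard.mpr ⟨hM, rfl⟩)
  refine criterion G (k - 2) Φ ?_ ?_ ?_
  · rintro M ⟨hM, hMc⟩ M' ⟨hM', hMc'⟩ hMM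
    by_cases hne : M = ∅
    · by_cases hne' : M' = ∅
      · rw [hne, hne']
      · have := hΦ M' hM' hMc' hne'
        rw [← hMM, hne, hΦ0, card_empty] at this
        omega
    · by_cases hne' : M' = ∅
      · have := hΦ M hM hMc hne
        rw [hMM, hne', hΦ0, card_empty] at this
        omega
      · have e1 := hΦ M hM hMc hne
        have e2 := hΦ M' hM' hMc' hne'
        rw [hMM, e2] at e1
        have e3 : M.card = M'.card := by omega
        have e4 : φ M.card M = φ M.card M' := by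
          have : (if M = ∅ then ∅ else φ M.card M) = if M' = ∅ then ∅ else φ M'.card M' := hMM
          rw [if_neg hne, if_neg hne'] at this
          rw [this, e3]
        exact (hφ M.card (card_pos.mpr (nonempty_iff_ne_empty.mpr hne)) hMc).2
          (mem_coe.mpr (mem_powersetCard.mpr ⟨hM, rfl⟩))
          (mem_coe.mpr (mem_powersetCard.mpr ⟨hM', e3.symm⟩)) e4
  · intro M hM hMc _
    by_cases hne : M = ∅
    · rw [hne, hΦ0]
      refine ⟨compl_mem (c := k) (l := 1) (r := k + 1) (fun x => (h4 x).ge)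
        (fun x y hxy => (h3 x y hxy).le) (by omega) (by rw [card_empty]; omega), ?_⟩
      rw [card_empty]
      exact Nat.zero_le _
    · have e1 := hΦ M hM hMc hne
      refine ⟨compl_mem (c := k) (l := 1) (r := k + 1) (fun x => (h4 x).ge)
        (fun x y hxy => (h3 x y hxy).le) (by omega) (by omega), ?_⟩
      obtain ⟨B, hB⟩ := nonempty_iff_ne_empty.mpr hne
      have e2 : B.card ≤ (M.sup id).card := card_le_card (le_sup (f := id) hB)
      rw [h2 B (hM hB)] at e2
      omega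
  · intro T hT hTc
    refine big_union (k := k) (μ := 1) hTc (fun B hB => (h2 B (hT hB)).ge)
      (fun B hB B' hB' => h6 B (hT hB) B' (hT hB')) (by omega) ?_
    rw [h1]
    obtain ⟨m, rfl⟩ : ∃ m, k = m + 2 := ⟨k - 2, by omega⟩
    simp only [Nat.add_sub_cancel]
    apply le_of_eq
    ring

end Pool.Agent.Q115.UD
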