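import Mathlib

/-! # Union-closed families generated by the blocks of designs -/

namespace Pool.Agent.Q115.UD

open Finset

variable {V : Type*} [Fintype V] [DecidableEq V]

/-- The family of all unions of subfamilies of `G` (the empty union included). -/
def unions (G : Finset (Finset V)) : Finset (Finset V) := G.powerset.image fun T => T.sup id

theorem mem_unions {G : Finset (Finset V)} {S : Finset V} :
    S ∈ unions G ↔ ∀ x ∈ S, ∃ B ∈ G, x ∈ B ∧ B ⊆ S := by
  simp only [unions, mem_image, mem_powerset]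
  constructor
  · rintro ⟨T, hT, rfl⟩ x hx
    rw [mem_sup] at hx
    obtain ⟨B, hB, hx⟩ := hx
    exact ⟨B, hT hB, hx, le_sup (f := id) hB⟩
  · intro h
    refine ⟨G.filter (· ⊆ S), filter_subset _ _, ?_⟩
    apply subset_antisymm
    · refine Finset.sup_le fun B hB => ?_
      exact (mem_filter.mp hB).2
    · intro x hx
      obtain ⟨B, hB, hxB, hBS⟩ := h x hx
      exact mem_sup.mpr ⟨B, mem_filter.mpr ⟨hB, hBS⟩, hxB⟩

/-- A member with fewer than half of the points is the union of few generators. -/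
theorem exists_cover {G : Finset (Finset V)} {c : ℕ}
    (hbig : ∀ T ⊆ G, T.card = c + 1 → Fintype.card V ≤ 2 * (T.sup id).card)
    {S : Finset V} (hS : S ∈ unions G) (hsmall : 2 * S.card < Fintype.card V) :
    ∃ M ⊆ G, M.sup id = S ∧ M.card ≤ c ∧ M.card ≤ S.card := by
  classical
  rw [mem_unions] at hS
  choose! b hb using hS
  refine ⟨S.image b, ?_, ?_, ?_, card_image_le⟩
  · intro B hB
    obtain ⟨x, hx, rfl⟩ := mem_image.mp hB
    exact (hb x hx).1
  · apply subset_antisymm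
    · refine Finset.sup_le fun B hB => ?_
      obtain ⟨x, hx, rfl⟩ := mem_image.mp hB
      exact (hb x hx).2.2
    · intro x hx
      exact mem_sup.mpr ⟨b x, mem_image_of_mem _ hx, (hb x hx).2.1⟩
  · by_contra hcon
    push Not at hcon
    obtain ⟨T, hT, hTc⟩ := exists_subset_card_eq (show c + 1 ≤ (S.image b).card from hcon)
    have h1 : T ⊆ G := by
      intro B hB
      obtain ⟨x, hx, rfl⟩ := mem_image.mp (hT hB)
      exact (hb x hx).1
    have h2 := hbig T h1 hTc
    have h3 : T.sup id ⊆ S := by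
      refine Finset.sup_le fun B hB => ?_
      obtain ⟨x, hx, rfl⟩ := mem_image.mp (hT hB)
      exact (hb x hx).2.2
    have h4 := card_le_card h3
    omega

/-- The general criterion. -/
theorem criterion (G : Finset (Finset V)) (c : ℕ) (Φ : Finset (Finset V) → Finset V)
    (hinj : Set.InjOn Φ {M | M ⊆ G ∧ M.card ≤ c})
    (hΦ : ∀ M ⊆ G, M.card ≤ c → M.card ≤ (M.sup id).card →
      (Φ M)ᶜ ∈ unions G ∧ (Φ M).card ≤ (M.sup id).card)
    (hbig : ∀ T ⊆ G, T.card = c + 1 → Fintype.card V ≤ 2 * (T.sup id).card) :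
    Fintype.card V * (unions G).card ≤ 2 * ∑ S ∈ unions G, S.card := by
  classical
  have hcov : ∀ S ∈ (unions G).filter fun S => 2 * S.card < Fintype.card V,
      ∃ M ⊆ G, M.sup id = S ∧ M.card ≤ c ∧ M.card ≤ S.card := by
    intro S hS
    rw [mem_filter] at hS
    exact exists_cover hbig hS.1 hS.2
  choose! M hM using hcov
  set sm := (unions G).filter fun S => 2 * S.card < Fintype.card V with hsm
  set lg := (unions G).filter fun S => ¬ 2 * S.card < Fintype.card V with hlg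
  have hmem : ∀ S ∈ sm, (Φ (M S))ᶜ ∈ lg ∧ (Φ (M S)).card ≤ S.card := by
    intro S hS
    obtain ⟨h1, h2, h3, h4⟩ := hM S hS
    obtain ⟨h5, h6⟩ := hΦ (M S) h1 h3 (by rw [h2]; exact h4)
    rw [h2] at h6
    refine ⟨?_, h6⟩
    rw [hlg, mem_filter]
    refine ⟨h5, ?_⟩
    rw [card_compl]
    have := (mem_filter.mp hS).2
    omega
  have hinj' : Set.InjOn (fun S => (Φ (M S))ᶜ) sm := by
    intro S hS S' hS' h
    rw [mem_coe] at hS hS'
    obtain ⟨h1, h2, h3, h4⟩ := hM S hS
    obtain ⟨h1', h2', h3', h4'⟩ := hM S' hS'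
    have h5 : Φ (M S) = Φ (M S') := compl_injective h
    have h6 := hinj ⟨h1, h3⟩ ⟨h1', h3'⟩ h5
    rw [← h2, ← h2', h6]
  have hsub : sm.image (fun S => (Φ (M S))ᶜ) ⊆ lg := by
    intro T hT
    obtain ⟨S, hS, rfl⟩ := mem_image.mp hT
    exact (hmem S hS).1
  have key : (0 : ℤ) ≤ ∑ S ∈ unions G, (2 * (S.card : ℤ) - Fintype.card V) := by
    rw [← sum_filter_add_sum_filter_not (unions G) (fun S => 2 * S.card < Fintype.card V)]
    have h1 : ∑ T ∈ sm.image (fun S => (Φ (M S))ᶜ), (2 * (T.card : ℤ) - Fintype.card V) ≤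
        ∑ T ∈ lg, (2 * (T.card : ℤ) - Fintype.card V) := by
      refine sum_le_sum_of_subset_of_nonneg hsub ?_
      intro T hT _
      have := (mem_filter.mp hT).2
      have h : (Fintype.card V : ℤ) ≤ 2 * T.card := by exact_mod_cast not_lt.mp this
      linarith
    rw [sum_image hinj'] at h1
    have h2 : 0 ≤ ∑ S ∈ sm, (2 * (S.card : ℤ) - Fintype.card V) +
        ∑ S ∈ sm, (2 * (((Φ (M S))ᶜ).card : ℤ) - Fintype.card V) := by
      rw [← sum_add_distrib]
      refine sum_nonneg fun S hS => ?_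
      have h3 := (hmem S hS).2
      have h4 : ((Φ (M S))ᶜ).card + (Φ (M S)).card = Fintype.card V := by
        rw [card_compl]
        have := card_le_univ (Φ (M S))
        omega
      have h5 : (((Φ (M S))ᶜ).card : ℤ) + (Φ (M S)).card = Fintype.card V := by
        exact_mod_cast h4
      have h6 : ((Φ (M S)).card : ℤ) ≤ S.card := by exact_mod_cast h3
      linarith
    linarith
  rw [sum_sub_distrib, sum_const, ← mul_sum, nsmul_eq_mul] at key
  have : ((unions G).card : ℤ) * Fintype.card V ≤ 2 * ∑ S ∈ unions G, (S.card : ℤ) := by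
    linarith
  have h2 : (unions G).card * Fintype.card V ≤ 2 * ∑ S ∈ unions G, S.card := by
    exact_mod_cast this
  rw [mul_comm]
  exact h2

/-- From the average size to a frequent element. -/
theorem sum_card_eq (F : Finset (Finset V)) :
    ∑ S ∈ F, S.card = ∑ x : V, (F.filter fun S => x ∈ S).card := by
  simp only [card_eq_sum_ones, sum_filter]
  rw [sum_comm]
  refine sum_congr rfl fun S _ => ?_
  simp

theorem exists_abundant [Nonempty V] {F : Finset (Finset V)}
    (h : Fintype.card V * F.card ≤ 2 * ∑ S ∈ F, S.card) :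
    ∃ x : V, F.card ≤ 2 * (F.filter fun S => x ∈ S).card := by
  by_contra hcon
  push Not at hcon
  rw [sum_card_eq, mul_sum] at h
  have h2 : ∑ x : V, 2 * (F.filter fun S => x ∈ S).card < ∑ _x : V, F.card :=
    sum_lt_sum_of_nonempty univ_nonempty fun x _ => hcon x
  rw [sum_const, card_univ, smul_eq_mul] at h2
  omega

/-- Sets missing few points are unions of blocks. -/
theorem compl_mem {G : Finset (Finset V)} {r l c : ℕ}
    (hr : ∀ x : V, r ≤ (G.filter fun B => x ∈ B).card)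
    (hl : ∀ x y : V, x ≠ y → (G.filter fun B => x ∈ B ∧ y ∈ B).card ≤ l)
    (hc : c * l < r) {C : Finset V} (hC : C.card ≤ c) : Cᶜ ∈ unions G := by
  classical
  rw [mem_unions]
  intro x hx
  rw [mem_compl] at hx
  by_contra hcon
  push Not at hcon
  have hsub : (G.filter fun B => x ∈ B) ⊆ C.biUnion fun y => G.filter fun B => x ∈ B ∧ y ∈ B := by
    intro B hB
    rw [mem_filter] at hB
    have h := hcon B hB.1 hB.2
    rw [not_subset] at h
    obtain ⟨y, hy, hyC⟩ := h
    rw [mem_compl, not_not] at hyC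
    rw [mem_biUnion]
    exact ⟨y, hyC, mem_filter.mpr ⟨hB.1, hB.2, hy⟩⟩
  have h1 := card_le_card hsub
  have h2 : (C.biUnion fun y => G.filter fun B => x ∈ B ∧ y ∈ B).card ≤ C.card * l := by
    refine card_biUnion_le_card_mul _ _ _ fun y hy => hl x y ?_
    rintro rfl
    exact hx hy
  have h3 : C.card * l ≤ c * l := Nat.mul_le_mul_right l hC
  have := hr x
  omega

theorem arith_aux {U s v k c μ : ℤ} (hc : 0 ≤ c) (hμ : 0 ≤ μ) (hU : 0 ≤ U) (hk : 1 ≤ k)
    (hcon : 2 * U + 1 ≤ v) (hv : v * (k + c * μ) ≤ 2 * (c + 1) * k ^ 2) (hsk : (c + 1) * k ≤ s)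
    (hcs : s ^ 2 ≤ U * (s + (c + 1) * (c * μ))) : False := by
  obtain ⟨a, ha⟩ : ∃ a, a = (c + 1) * k := ⟨_, rfl⟩
  obtain ⟨m, hm⟩ : ∃ m, m = (c + 1) * (c * μ) := ⟨_, rfl⟩
  have hm0 : 0 ≤ m := by rw [hm]; positivity
  have ha0 : 0 < a := by rw [ha]; positivity
  rw [← ha] at hsk
  rw [← hm] at hcs
  have h1 : v * (a + m) ≤ 2 * a ^ 2 := by
    have := mul_le_mul_of_nonneg_right hv (by linarith : (0 : ℤ) ≤ c + 1)
    rw [ha, hm]
    linarith [this]
  have hs0 : 0 < s := by linarith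
  have h2 : (2 * U + 1) * (s + m) ≤ v * (s + m) :=
    mul_le_mul_of_nonneg_right hcon (by linarith)
  have h3 : v * a ≤ 2 * a * a := by nlinarith
  have h4 : v ≤ 2 * a := le_of_mul_le_mul_right h3 ha0
  have h5 : 2 * (s ^ 2 - a ^ 2) < v * (s - a) := by nlinarith
  have h6 : 0 ≤ (s - a) * (2 * (s + a) - v) := mul_nonneg (by linarith) (by linarith)
  nlinarith

/-- Several blocks with small intersections have a large union. -/
theorem big_union {T : Finset (Finset V)} {v k μ c : ℕ} (hT : T.card = c + 1)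
    (hk : ∀ B ∈ T, k ≤ B.card) (hμ : ∀ B ∈ T, ∀ B' ∈ T, B ≠ B' → (B ∩ B').card ≤ μ)
    (hk0 : 0 < k) (hv : v * (k + c * μ) ≤ 2 * (c + 1) * k ^ 2) :
    v ≤ 2 * (T.sup id).card := by
  classical
  set U := T.sup id with hU
  set t : V → ℤ := fun x => ((T.filter fun B => x ∈ B).card : ℤ) with ht
  have hsub : ∀ B ∈ T, B ⊆ U := fun B hB => le_sup (f := id) hB
  have h1 : ∑ x ∈ U, t x = ∑ B ∈ T, (B.card : ℤ) := by
    simp only [ht, card_eq_sum_ones, sum_filter, Nat.cast_sum]
    rw [sum_comm]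
    refine sum_congr rfl fun B hB => ?_
    rw [← Nat.cast_sum, ← Nat.cast_sum]
    congr 1
    rw [← sum_filter]
    congr 1
    ext x
    simp only [mem_filter]
    exact ⟨fun h => h.2, fun h => ⟨hsub B hB h, h⟩⟩
  have h2 : ∑ x ∈ U, t x ^ 2 = ∑ B ∈ T, ∑ B' ∈ T, ((B ∩ B').card : ℤ) := by
    have e1 : ∀ x ∈ U, t x ^ 2 = ∑ B ∈ T, ∑ B' ∈ T, if x ∈ B ∩ B' then (1 : ℤ) else 0 := by
      intro x _
      simp only [ht, card_eq_sum_ones, sum_filter, Nat.cast_sum, sq]
      rw [sum_mul_sum]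
      refine sum_congr rfl fun B _ => sum_congr rfl fun B' _ => ?_
      by_cases hB : x ∈ B <;> by_cases hB' : x ∈ B' <;> simp [hB, hB']
    rw [sum_congr rfl e1, sum_comm]
    refine sum_congr rfl fun B hB => ?_
    rw [sum_comm]
    refine sum_congr rfl fun B' hB' => ?_
    rw [← sum_filter, sum_const, nsmul_eq_mul, mul_one]
    congr 2
    ext x
    simp only [mem_filter]
    exact ⟨fun h => h.2, fun h => ⟨hsub B hB (mem_inter.mp h).1, h⟩⟩
  have h3 : ∑ B ∈ T, ∑ B' ∈ T, ((B ∩ B').card : ℤ) ≤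
      ∑ B ∈ T, (B.card : ℤ) + (c + 1) * (c * μ) := by
    have e2 : ∀ B ∈ T, ∑ B' ∈ T, ((B ∩ B').card : ℤ) ≤ B.card + c * μ := by
      intro B hB
      rw [← add_sum_erase T _ hB, inter_self]
      have : ∑ B' ∈ T.erase B, ((B ∩ B').card : ℤ) ≤ ∑ _B' ∈ T.erase B, (μ : ℤ) := by
        refine sum_le_sum fun B' hB' => ?_
        rw [mem_erase] at hB'
        exact_mod_cast hμ B hB B' hB'.2 (Ne.symm hB'.1)
      rw [sum_const, card_erase_of_mem hB, hT, nsmul_eq_mul, Nat.add_sub_cancel] at this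
      linarith
    calc ∑ B ∈ T, ∑ B' ∈ T, ((B ∩ B').card : ℤ) ≤ ∑ B ∈ T, ((B.card : ℤ) + c * μ) :=
          sum_le_sum e2
      _ = _ := by
          rw [sum_add_distrib, sum_const, hT, nsmul_eq_mul]
          push_cast
          ring
  have hcs : (∑ x ∈ U, t x) ^ 2 ≤ U.card * ∑ x ∈ U, t x ^ 2 := sq_sum_le_card_mul_sum_sq
  set s : ℤ := ∑ B ∈ T, (B.card : ℤ) with hs
  have hsk : ((c : ℤ) + 1) * k ≤ s := by
    have : ∑ _B ∈ T, (k : ℤ) ≤ s := sum_le_sum fun B hB => by exact_mod_cast hk B hB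
    rw [sum_const, hT, nsmul_eq_mul] at this
    push_cast at this
    exact this
  rw [h1, h2] at hcs
  have hcs2 : s ^ 2 ≤ U.card * (s + (c + 1) * (c * μ)) :=
    hcs.trans (mul_le_mul_of_nonneg_left h3 (by positivity))
  by_contra hcon
  push Not at hcon
  have hcon' : 2 * (U.card : ℤ) + 1 ≤ v := by exact_mod_cast hcon
  have hv' : (v : ℤ) * (k + c * μ) ≤ 2 * (c + 1) * k ^ 2 := by exact_mod_cast hv
  have hk1 : (1 : ℤ) ≤ k := by exact_mod_cast hk0
  exact arith_aux (Nat.cast_nonneg c) (Nat.cast_nonneg μ) (Nat.cast_nonneg _) hk1 hcon' hv' hsk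
    hcs2

/-- A family of at most `|V|` blocks with small intersections, in which every point lies in many
blocks and two points in few. -/
theorem incidence (G : Finset (Finset V)) (k r l μ c : ℕ) (hb : G.card ≤ Fintype.card V)
    (hr : ∀ x : V, r ≤ (G.filter fun B => x ∈ B).card)
    (hl : ∀ x y : V, x ≠ y → (G.filter fun B => x ∈ B ∧ y ∈ B).card ≤ l)
    (hk : ∀ B ∈ G, k ≤ B.card)
    (hμ : ∀ B ∈ G, ∀ B' ∈ G, B ≠ B' → (B ∩ B').card ≤ μ)
    (hc : c * l < r) (hk0 : 0 < k)
    (hv : Fintype.card V * (k + c * μ) ≤ 2 * (c + 1) * k ^ 2) :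
    Fintype.card V * (unions G).card ≤ 2 * ∑ S ∈ unions G, S.card := by
  classical
  have hι : Nonempty ({B // B ∈ G} ↪ V) := by
    apply Function.Embedding.nonempty_of_card_le
    rw [Fintype.card_coe]
    exact hb
  obtain ⟨ι⟩ := hι
  let Φ : Finset (Finset V) → Finset V := fun M =>
    ((univ : Finset {B // B ∈ G}).filter fun B => B.1 ∈ M).map ι
  have hΦc : ∀ M ⊆ G, (Φ M).card = M.card := by
    intro M hM
    show (((univ : Finset {B // B ∈ G}).filter fun B => B.1 ∈ M).map ι).card = M.card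
    rw [card_map]
    refine card_bij (fun B _ => B.1) ?_ ?_ ?_
    · intro B hB
      exact (mem_filter.mp hB).2
    · intro B _ B' _ h
      exact Subtype.ext h
    · intro B hB
      exact ⟨⟨B, hM hB⟩, mem_filter.mpr ⟨mem_univ _, hB⟩, rfl⟩
  refine criterion G c Φ ?_ ?_ ?_
  · rintro M ⟨hM, -⟩ M' ⟨hM', -⟩ h
    have h' : ((univ : Finset {B // B ∈ G}).filter fun B => B.1 ∈ M) =
        (univ : Finset {B // B ∈ G}).filter fun B => B.1 ∈ M' := map_injective ι h
    ext B
    constructor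
    · intro hB
      have : (⟨B, hM hB⟩ : {B // B ∈ G}) ∈ (univ : Finset {B // B ∈ G}).filter fun B => B.1 ∈ M :=
        mem_filter.mpr ⟨mem_univ _, hB⟩
      rw [h'] at this
      exact (mem_filter.mp this).2
    · intro hB
      have : (⟨B, hM' hB⟩ : {B // B ∈ G}) ∈
          (univ : Finset {B // B ∈ G}).filter fun B => B.1 ∈ M' :=
        mem_filter.mpr ⟨mem_univ _, hB⟩
      rw [← h'] at this
      exact (mem_filter.mp this).2
  · intro M hM hMc hMs
    refine ⟨compl_mem hr hl hc ?_, ?_⟩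
    · rw [hΦc M hM]; exact hMc
    · rw [hΦc M hM]; exact hMs
  · intro T hT hTc
    exact big_union hTc (fun B hB => hk B (hT hB))
      (fun B hB B' hB' => hμ B (hT hB) B' (hT hB')) hk0 hv

end Pool.Agent.Q115.UD
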