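import Pool.Agent.Q115.UDBase

namespace Pool.Agent.Q115.UD

open Finset

variable {V : Type*} [Fintype V] [DecidableEq V]

/-- number of blocks through a point -/
def deg (G : Finset (Finset V)) (x : V) : ℕ := (G.filter fun B => x ∈ B).card

/-- number of blocks through two points -/
def codeg (G : Finset (Finset V)) (x y : V) : ℕ := (G.filter fun B => x ∈ B ∧ y ∈ B).card

theorem sum_deg (G : Finset (Finset V)) : ∑ x : V, deg G x = ∑ B ∈ G, B.card := by
  simp only [deg, card_eq_sum_ones, sum_filter]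
  rw [sum_comm]
  refine sum_congr rfl fun S _ => ?_
  simp

theorem sum_inter (G : Finset (Finset V)) (B : Finset V) :
    ∑ B' ∈ G, (B ∩ B').card = ∑ x ∈ B, deg G x := by
  simp only [deg, card_eq_sum_ones, sum_filter]
  rw [sum_comm]
  refine sum_congr rfl fun S _ => ?_
  rw [← sum_filter, filter_mem_eq_inter]

theorem sum_inter_sq (G : Finset (Finset V)) (B : Finset V) :
    ∑ B' ∈ G, (B ∩ B').card ^ 2 = ∑ x ∈ B, ∑ y ∈ B, codeg G x y := by
  have e1 : ∀ B' ∈ G, (B ∩ B').card ^ 2 =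
      ∑ x ∈ B, ∑ y ∈ B, if x ∈ B' ∧ y ∈ B' then 1 else 0 := by
    intro B' _
    have h : (B ∩ B').card = ∑ x ∈ B, if x ∈ B' then 1 else 0 := by
      rw [← sum_filter, ← card_eq_sum_ones, filter_mem_eq_inter]
    rw [h, sq, sum_mul_sum]
    refine sum_congr rfl fun x _ => sum_congr rfl fun y _ => ?_
    by_cases hx : x ∈ B' <;> by_cases hy : y ∈ B' <;> simp [hx, hy]
  rw [sum_congr rfl e1, sum_comm]
  refine sum_congr rfl fun x _ => ?_
  rw [sum_comm]
  refine sum_congr rfl fun y _ => ?_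
  rw [codeg, card_eq_sum_ones, sum_filter]

theorem codeg_self (G : Finset (Finset V)) (x : V) : codeg G x x = deg G x := by
  simp [codeg, deg]

/-- In a 2-design `deg x (k - 1) = l (v - 1)`. -/
theorem deg_mul {G : Finset (Finset V)} {k l : ℕ} (hk : ∀ B ∈ G, B.card = k)
    (hl : ∀ x y : V, x ≠ y → codeg G x y = l) (x : V) :
    deg G x * (k - 1) = l * (Fintype.card V - 1) := by
  have h1 : ∑ y ∈ univ.erase x, codeg G x y = l * (Fintype.card V - 1) := by
    rw [sum_congr rfl fun y hy => hl x y (ne_of_mem_erase hy).symm, sum_const,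
      card_erase_of_mem (mem_univ x), card_univ, smul_eq_mul, mul_comm]
  have h2 : ∑ y ∈ univ.erase x, codeg G x y = ∑ B ∈ G.filter (fun B => x ∈ B), (B.erase x).card := by
    simp only [codeg, card_eq_sum_ones]
    simp_rw [← filter_filter]
    simp only [sum_filter (s := G.filter fun B => x ∈ B)]
    rw [sum_comm]
    refine sum_congr rfl fun B _ => ?_
    rw [← sum_filter]
    congr 1
    ext y
    simp only [mem_filter, mem_erase, mem_univ, and_true]
  rw [← h1, h2, sum_congr rfl (g := fun _ => k - 1), sum_const, smul_eq_mul, deg]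
  intro B hB
  rw [mem_filter] at hB
  rw [card_erase_of_mem hB.2, hk B hB.1]

/-- A symmetric 2-design: as many blocks as points, all blocks of size `k`, every two
different points in exactly `l` blocks. -/
def IsSymmetricDesign (G : Finset (Finset V)) (k l : ℕ) : Prop :=
  G.card = Fintype.card V ∧ (∀ B ∈ G, B.card = k) ∧ ∀ x y : V, x ≠ y → codeg G x y = l

/-- An affine plane of order `k`. -/
def IsAffinePlane (G : Finset (Finset V)) (k : ℕ) : Prop :=
  Fintype.card V = k ^ 2 ∧ (∀ B ∈ G, B.card = k) ∧ ∀ x y : V, x ≠ y → codeg G x y = 1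

theorem sym_facts {G : Finset (Finset V)} {k l : ℕ} (h : IsSymmetricDesign G k l) (hk : 2 ≤ k)
    [Nonempty V] :
    l * (Fintype.card V - 1) = k * (k - 1) ∧ (∀ x, deg G x = k) ∧ 1 ≤ l ∧ l ≤ k ∧
      ∀ B ∈ G, ∀ B' ∈ G, B ≠ B' → (B ∩ B').card = l := by
  obtain ⟨h1, h2, h3⟩ := h
  have hv : 0 < Fintype.card V := Fintype.card_pos
  have hd := deg_mul h2 h3
  have hs : ∑ x : V, deg G x = Fintype.card V * k := by
    rw [sum_deg, sum_congr rfl h2, sum_const, smul_eq_mul, h1]
  have h4 : l * (Fintype.card V - 1) = k * (k - 1) := by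
    have e : ∑ x : V, deg G x * (k - 1) = ∑ _x : V, l * (Fintype.card V - 1) :=
      sum_congr rfl fun x _ => hd x
    rw [← sum_mul, hs, sum_const, card_univ, smul_eq_mul, mul_assoc] at e
    exact (Nat.eq_of_mul_eq_mul_left hv e).symm
  have h5 : ∀ x, deg G x = k := by
    intro x
    have := hd x
    rw [h4] at this
    exact Nat.eq_of_mul_eq_mul_right (by omega) this
  have h6 : 1 ≤ l := by
    rcases Nat.eq_zero_or_pos l with rfl | h
    · rw [zero_mul] at h4
      have : 0 < k * (k - 1) := Nat.mul_pos (by omega) (by omega)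
      omega
    · exact h
  obtain ⟨B₀, hB₀⟩ : G.Nonempty := card_pos.mp (h1 ▸ hv)
  have hkv : k ≤ Fintype.card V := by
    rw [← h2 B₀ hB₀]
    exact card_le_univ _
  have h7 : l ≤ k := by
    have : l * (k - 1) ≤ k * (k - 1) := by
      rw [← h4]
      exact Nat.mul_le_mul_left l (by omega)
    exact Nat.le_of_mul_le_mul_right this (by omega)
  refine ⟨h4, h5, h6, h7, ?_⟩
  intro B hB B' hB' hne
  have e1 : ∑ B' ∈ G, (B ∩ B').card = k * k := by
    rw [sum_inter, sum_congr rfl fun x _ => h5 x, sum_const, smul_eq_mul, h2 B hB]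
  have e2 : ∑ B' ∈ G, (B ∩ B').card ^ 2 = k * (k + (k - 1) * l) := by
    rw [sum_inter_sq]
    have : ∀ x ∈ B, ∑ y ∈ B, codeg G x y = k + (k - 1) * l := by
      intro x hx
      rw [← add_sum_erase B _ hx, codeg_self, h5 x,
        sum_congr rfl fun y hy => h3 x y (ne_of_mem_erase hy).symm, sum_const,
        card_erase_of_mem hx, h2 B hB, smul_eq_mul]
    rw [sum_congr rfl this, sum_const, smul_eq_mul, h2 B hB]
  rw [← add_sum_erase G _ hB, inter_self, h2 B hB] at e1 e2
  have e3 : ∑ B' ∈ G.erase B, (((B ∩ B').card : ℤ) - l) ^ 2 = 0 := by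
    have f1 : ∑ B' ∈ G.erase B, (((B ∩ B').card : ℤ)) = k * k - k := by
      have : ((k + ∑ B' ∈ G.erase B, (B ∩ B').card : ℕ) : ℤ) = ((k * k : ℕ) : ℤ) := by rw [e1]
      push_cast at this
      linarith
    have f2 : ∑ B' ∈ G.erase B, (((B ∩ B').card : ℤ)) ^ 2 = k * (k + (k - 1) * l) - k ^ 2 := by
      have : ((k ^ 2 + ∑ B' ∈ G.erase B, (B ∩ B').card ^ 2 : ℕ) : ℤ) =
          ((k * (k + (k - 1) * l) : ℕ) : ℤ) := by rw [e2]
      have hk1 : ((k - 1 : ℕ) : ℤ) = k - 1 := by
        rw [Nat.cast_sub (by omega)]; simp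
      push_cast at this
      rw [hk1] at this
      linarith
    have f3 : ((G.erase B).card : ℤ) * l = k * (k - 1) := by
      rw [card_erase_of_mem hB, h1]
      have : ((l * (Fintype.card V - 1) : ℕ) : ℤ) = ((k * (k - 1) : ℕ) : ℤ) := by rw [h4]
      rw [Nat.cast_mul, Nat.cast_mul, Nat.cast_sub (n := k) (m := 1) (by omega)] at this
      rw [mul_comm]
      rw [this]
      simp
    have f4 : ∑ B' ∈ G.erase B, (((B ∩ B').card : ℤ) - l) ^ 2 =
        ∑ B' ∈ G.erase B, (((B ∩ B').card : ℤ)) ^ 2 -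
          2 * l * ∑ B' ∈ G.erase B, (((B ∩ B').card : ℤ)) + (G.erase B).card * l ^ 2 := by
      rw [mul_sum, ← sum_sub_distrib, ← nsmul_eq_mul, ← sum_const, ← sum_add_distrib]
      refine sum_congr rfl fun B' _ => ?_
      ring
    rw [f4, f1, f2]
    have : ((G.erase B).card : ℤ) * l ^ 2 = l * (k * (k - 1)) := by rw [← f3]; ring
    rw [this]
    ring
  have e4 := (sum_eq_zero_iff_of_nonneg fun B' _ => sq_nonneg _).mp e3 B'
    (mem_erase.mpr ⟨hne.symm, hB'⟩)
  have e5 : ((B ∩ B').card : ℤ) - l = 0 := pow_eq_zero_iff (two_ne_zero) |>.mp e4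
  have : ((B ∩ B').card : ℤ) = l := by linarith
  exact_mod_cast this

theorem symmetric_average {G : Finset (Finset V)} {k l : ℕ} (h : IsSymmetricDesign G k l)
    (hk : 2 ≤ k) [Nonempty V] :
    Fintype.card V * (unions G).card ≤ 2 * ∑ S ∈ unions G, S.card := by
  obtain ⟨h4, h5, h6, h7, h8⟩ := sym_facts h hk
  obtain ⟨h1, h2, h3⟩ := h
  have hv : 0 < Fintype.card V := Fintype.card_pos
  have hc1 : (k - 1) / l * l < k := by
    have := Nat.div_mul_le_self (k - 1) l
    omega
  have hc2 : k ≤ ((k - 1) / l + 1) * l := by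
    have h9 : k - 1 < l * ((k - 1) / l + 1) := Nat.lt_mul_div_succ (k - 1) (by omega)
    rw [mul_comm] at h9
    omega
  refine incidence G k k l l ((k - 1) / l) h1.le (fun x => (h5 x).ge)
    (fun x y hxy => (h3 x y hxy).le) (fun B hB => (h2 B hB).ge)
    (fun B hB B' hB' hne => (h8 B hB B' hB' hne).le) hc1 (by omega) ?_
  set c := (k - 1) / l with hc
  have e1 : (l : ℤ) * (Fintype.card V - 1) = k * (k - 1) := by
    have : ((l * (Fintype.card V - 1) : ℕ) : ℤ) = ((k * (k - 1) : ℕ) : ℤ) := by rw [h4]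
    rw [Nat.cast_mul, Nat.cast_mul, Nat.cast_sub (n := k) (m := 1) (by omega),
      Nat.cast_sub (m := 1) hv] at this
    simpa using this
  have e2 : (k : ℤ) ≤ (c + 1) * l := by exact_mod_cast hc2
  have e3 : (1 : ℤ) ≤ l := by exact_mod_cast h6
  have e4 : (l : ℤ) ≤ k := by exact_mod_cast h7
  have e5 : (2 : ℤ) ≤ k := by exact_mod_cast hk
  have goal : (Fintype.card V : ℤ) * (k + c * l) ≤ 2 * (c + 1) * k ^ 2 := by
    obtain ⟨t, ht⟩ : ∃ t : ℤ, t = (c + 1) * l := ⟨_, rfl⟩
    rw [← ht] at e2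
    have g1 : (l : ℤ) * Fintype.card V = k ^ 2 - k + l := by linarith
    have g2 : ((k : ℤ) ^ 2 - k + l) * (k + t - l) ≤ 2 * t * k ^ 2 := by
      have : 0 ≤ (t - k) * ((k : ℤ) ^ 2 + k - l) := mul_nonneg (by linarith) (by nlinarith)
      nlinarith [sq_nonneg ((k : ℤ) - l), mul_nonneg (by linarith : (0 : ℤ) ≤ k)
        (by linarith : (0 : ℤ) ≤ (k : ℤ) - l), mul_nonneg (sq_nonneg (k : ℤ))
        (by linarith : (0 : ℤ) ≤ l)]
    have g3 : (l : ℤ) * (Fintype.card V * (k + c * l)) ≤ l * (2 * (c + 1) * k ^ 2) := by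
      have a1 : (l : ℤ) * (Fintype.card V * (k + c * l)) =
          ((k : ℤ) ^ 2 - k + l) * (k + t - l) := by rw [ht, ← g1]; ring
      have a2 : (l : ℤ) * (2 * (c + 1) * k ^ 2) = 2 * t * k ^ 2 := by rw [ht]; ring
      rw [a1, a2]
      exact g2
    exact le_of_mul_le_mul_left g3 (by linarith)
  exact_mod_cast goal

end Pool.Agent.Q115.UD
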