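import Pool.Agent.Q115.UDAffine

namespace Pool.Agent.Q115.UD

open Finset

variable {V : Type*} [Fintype V] [DecidableEq V]

/-- The general criterion, strict form. -/
theorem criterion_strict (G : Finset (Finset V)) (c : ℕ) (Φ : Finset (Finset V) → Finset V)
    (hinj : Set.InjOn Φ {M | M ⊆ G ∧ M.card ≤ c})
    (hΦ : ∀ M ⊆ G, M.card ≤ c → M.card ≤ (M.sup id).card →
      (Φ M)ᶜ ∈ unions G ∧ (Φ M).card ≤ (M.sup id).card)
    (hbig : ∀ T ⊆ G, T.card = c + 1 → Fintype.card V ≤ 2 * (T.sup id).card)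
    (hs : (∃ S₀ ∈ unions G, 2 * S₀.card < Fintype.card V ∧
        ∀ M ⊆ G, M.card ≤ c → M.sup id = S₀ → (Φ M).card < S₀.card) ∨
      ∃ T₀ ∈ unions G, Fintype.card V < 2 * T₀.card ∧
        ∀ M ⊆ G, M.card ≤ c → 2 * (M.sup id).card < Fintype.card V → (Φ M)ᶜ ≠ T₀) :
    Fintype.card V * (unions G).card < 2 * ∑ S ∈ unions G, S.card := by
  classical
  have hcov : ∀ S ∈ (unions G).filter fun S => 2 * S.card < Fintype.card V,
      ∃ M ⊆ G, M.sup id = S ∧ M.card ≤ c ∧ M.card ≤ S.card := by
    intro S hS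
    rw [mem_filter] at hS
    exact exists_cover hbig hS.1 hS.2
  choose! M hM using hcov
  set sm := (unions G).filter fun S => 2 * S.card < Fintype.card V with hsm
  set lg := (unions G).filter fun S => ¬ 2 * S.card < Fintype.card V with hlg
  have hmem : ∀ S ∈ sm, (Φ (M S))ᶜ ∈ lg ∧ (Φ (M S)).card ≤ S.card := by
    intro S hS
    obtain ⟨h1, h2, h3, h4⟩ := hM S hS
    obtain ⟨h5, h6⟩ := hΦ (M S) h1 h3 (by rw [h2]; exact h4)
    rw [h2] at h6
    refine ⟨?_, h6⟩
    rw [hlg, mem_filter]
    refine ⟨h5, ?_⟩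
    rw [card_compl]
    have := (mem_filter.mp hS).2
    omega
  have hinj' : Set.InjOn (fun S => (Φ (M S))ᶜ) sm := by
    intro S hS S' hS' h
    rw [mem_coe] at hS hS'
    obtain ⟨h1, h2, h3, h4⟩ := hM S hS
    obtain ⟨h1', h2', h3', h4'⟩ := hM S' hS'
    have h5 : Φ (M S) = Φ (M S') := compl_injective h
    have h6 := hinj ⟨h1, h3⟩ ⟨h1', h3'⟩ h5
    rw [← h2, ← h2', h6]
  have hsub : sm.image (fun S => (Φ (M S))ᶜ) ⊆ lg := by
    intro T hT
    obtain ⟨S, hS, rfl⟩ := mem_image.mp hT
    exact (hmem S hS).1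
  have hnonneg : ∀ T ∈ lg, T ∉ sm.image (fun S => (Φ (M S))ᶜ) →
      (0 : ℤ) ≤ 2 * (T.card : ℤ) - Fintype.card V := by
    intro T hT _
    have := (mem_filter.mp hT).2
    have h : (Fintype.card V : ℤ) ≤ 2 * T.card := by exact_mod_cast not_lt.mp this
    linarith
  have hpair : ∀ S ∈ sm, 0 ≤ (2 * (S.card : ℤ) - Fintype.card V) +
      (2 * (((Φ (M S))ᶜ).card : ℤ) - Fintype.card V) ∧
      ((Φ (M S)).card < S.card → 0 < (2 * (S.card : ℤ) - Fintype.card V) +
      (2 * (((Φ (M S))ᶜ).card : ℤ) - Fintype.card V)) := by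
    intro S hS
    have h3 := (hmem S hS).2
    have h4 : ((Φ (M S))ᶜ).card + (Φ (M S)).card = Fintype.card V := by
      rw [card_compl]
      have := card_le_univ (Φ (M S))
      omega
    have h5 : (((Φ (M S))ᶜ).card : ℤ) + (Φ (M S)).card = Fintype.card V := by
      exact_mod_cast h4
    have h6 : ((Φ (M S)).card : ℤ) ≤ S.card := by exact_mod_cast h3
    refine ⟨by linarith, fun h7 => ?_⟩
    have h8 : ((Φ (M S)).card : ℤ) + 1 ≤ S.card := by exact_mod_cast h7
    linarith
  have key : (0 : ℤ) < ∑ S ∈ unions G, (2 * (S.card : ℤ) - Fintype.card V) := by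
    rw [← sum_filter_add_sum_filter_not (unions G) (fun S => 2 * S.card < Fintype.card V)]
    rcases hs with ⟨S₀, hS₀, hS₁, hS₂⟩ | ⟨T₀, hT₀, hT₁, hT₂⟩
    · have h1 : ∑ T ∈ sm.image (fun S => (Φ (M S))ᶜ), (2 * (T.card : ℤ) - Fintype.card V) ≤
          ∑ T ∈ lg, (2 * (T.card : ℤ) - Fintype.card V) :=
        sum_le_sum_of_subset_of_nonneg hsub hnonneg
      rw [sum_image hinj'] at h1
      have hmS : S₀ ∈ sm := mem_filter.mpr ⟨hS₀, hS₁⟩
      have h2 : 0 < ∑ S ∈ sm, (2 * (S.card : ℤ) - Fintype.card V) +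
          ∑ S ∈ sm, (2 * (((Φ (M S))ᶜ).card : ℤ) - Fintype.card V) := by
        rw [← sum_add_distrib]
        refine sum_pos' (fun S hS => (hpair S hS).1) ⟨S₀, hmS, (hpair S₀ hmS).2 ?_⟩
        obtain ⟨g1, g2, g3, g4⟩ := hM S₀ hmS
        exact hS₂ (M S₀) g1 g3 g2
      linarith
    · have hT3 : T₀ ∈ lg := mem_filter.mpr ⟨hT₀, by omega⟩
      have hT4 : T₀ ∉ sm.image (fun S => (Φ (M S))ᶜ) := by
        intro hcon
        obtain ⟨S, hS, hST⟩ := mem_image.mp hcon
        obtain ⟨g1, g2, g3, g4⟩ := hM S hS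
        refine hT₂ (M S) g1 g3 ?_ hST
        rw [g2]
        exact (mem_filter.mp hS).2
      have h1 : ∑ T ∈ sm.image (fun S => (Φ (M S))ᶜ), (2 * (T.card : ℤ) - Fintype.card V) <
          ∑ T ∈ lg, (2 * (T.card : ℤ) - Fintype.card V) := by
        refine sum_lt_sum_of_subset hsub hT3 hT4 ?_ hnonneg
        have : (Fintype.card V : ℤ) < 2 * T₀.card := by exact_mod_cast hT₁
        linarith
      rw [sum_image hinj'] at h1
      have h2 : 0 ≤ ∑ S ∈ sm, (2 * (S.card : ℤ) - Fintype.card V) +
          ∑ S ∈ sm, (2 * (((Φ (M S))ᶜ).card : ℤ) - Fintype.card V) := by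
        rw [← sum_add_distrib]
        exact sum_nonneg fun S hS => (hpair S hS).1
      linarith
  rw [sum_sub_distrib, sum_const, ← mul_sum, nsmul_eq_mul] at key
  have : ((unions G).card : ℤ) * Fintype.card V < 2 * ∑ S ∈ unions G, (S.card : ℤ) := by
    linarith
  have h2 : (unions G).card * Fintype.card V < 2 * ∑ S ∈ unions G, S.card := by
    exact_mod_cast this
  rw [mul_comm]
  exact h2

theorem exists_strict {F : Finset (Finset V)}
    (h : Fintype.card V * F.card < 2 * ∑ S ∈ F, S.card) :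
    ∃ x : V, F.card < 2 * (F.filter fun S => x ∈ S).card := by
  by_contra hcon
  push Not at hcon
  rw [sum_card_eq, mul_sum] at h
  have h2 : ∑ x : V, 2 * (F.filter fun S => x ∈ S).card ≤ ∑ _x : V, F.card :=
    sum_le_sum fun x _ => hcon x
  rw [sum_const, card_univ, smul_eq_mul] at h2
  omega

theorem block_mem {G : Finset (Finset V)} {B : Finset V} (hB : B ∈ G) : B ∈ unions G :=
  mem_unions.mpr fun _ hx => ⟨B, hB, hx, subset_rfl⟩

theorem affine_strict {G : Finset (Finset V)} {k : ℕ} (h : IsAffinePlane G k) (hk : 2 ≤ k) :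
    Fintype.card V * (unions G).card < 2 * ∑ S ∈ unions G, S.card := by
  classical
  obtain ⟨h4, h5, h6⟩ := affine_facts h hk
  obtain ⟨h1, h2, h3⟩ := h
  have hφ : ∀ j : ℕ, ∃ φ : Finset (Finset V) → Finset V, 1 ≤ j → j ≤ k - 2 →
      (∀ M ∈ powersetCard j G, (φ M).card = j + 1) ∧ Set.InjOn φ (powersetCard j G) := by
    intro j
    by_cases hj : 1 ≤ j ∧ j ≤ k - 2
    · have hcard : (powersetCard j G).card ≤ (powersetCard (j + 1) (univ : Finset V)).card := by
        rw [card_powersetCard, card_powersetCard, card_univ, h1, h5]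
        exact choose_le hj.1 hj.2
      let ι : {M // M ∈ powersetCard j G} ↪ {C // C ∈ powersetCard (j + 1) (univ : Finset V)} :=
        (powersetCard j G).equivFin.toEmbedding.trans ((Fin.castLEEmb hcard).trans
          (powersetCard (j + 1) (univ : Finset V)).equivFin.symm.toEmbedding)
      refine ⟨fun M => if hM : M ∈ powersetCard j G then (ι ⟨M, hM⟩).1 else ∅, fun _ _ => ?_⟩
      constructor
      · intro M hM
        simp only [hM, dif_pos]
        exact (mem_powersetCard.mp (ι ⟨M, hM⟩).2).2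
      · intro M hM M' hM' hMM
        rw [mem_coe] at hM hM'
        simp only [hM, hM', dif_pos] at hMM
        have := ι.injective (Subtype.ext hMM)
        exact congrArg Subtype.val this
    · exact ⟨fun _ => ∅, fun h7 h8 => absurd ⟨h7, h8⟩ hj⟩
  choose φ hφ using hφ
  let Φ : Finset (Finset V) → Finset V := fun M => if M = ∅ then ∅ else φ M.card M
  have hΦ0 : Φ ∅ = ∅ := if_pos rfl
  have hΦ : ∀ M ⊆ G, M.card ≤ k - 2 → M ≠ ∅ → (Φ M).card = M.card + 1 := by
    intro M hM hMc hne
    show (if M = ∅ then ∅ else φ M.card M).card = M.card + 1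
    rw [if_neg hne]
    exact (hφ M.card (card_pos.mpr (nonempty_iff_ne_empty.mpr hne)) hMc).1 M
      (mem_powersetCard.mpr ⟨hM, rfl⟩)
  have hk2 : 4 ≤ k ^ 2 := by nlinarith
  have : Nonempty V := Fintype.card_pos_iff.mp (by omega)
  refine criterion_strict G (k - 2) Φ ?_ ?_ ?_ ?_
  · rintro M ⟨hM, hMc⟩ M' ⟨hM', hMc'⟩ hMM
    by_cases hne : M = ∅
    · by_cases hne' : M' = ∅
      · rw [hne, hne']
      · have := hΦ M' hM' hMc' hne'
        rw [← hMM, hne, hΦ0, card_empty] at this
        omega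
    · by_cases hne' : M' = ∅
      · have := hΦ M hM hMc hne
        rw [hMM, hne', hΦ0, card_empty] at this
        omega
      · have e1 := hΦ M hM hMc hne
        have e2 := hΦ M' hM' hMc' hne'
        rw [hMM, e2] at e1
        have e3 : M.card = M'.card := by omega
        have e4 : φ M.card M = φ M.card M' := by
          have : (if M = ∅ then ∅ else φ M.card M) = if M' = ∅ then ∅ else φ M'.card M' := hMM
          rw [if_neg hne, if_neg hne'] at this
          rw [this, e3]
        exact (hφ M.card (card_pos.mpr (nonempty_iff_ne_empty.mpr hne)) hMc).2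
          (mem_coe.mpr (mem_powersetCard.mpr ⟨hM, rfl⟩))
          (mem_coe.mpr (mem_powersetCard.mpr ⟨hM', e3.symm⟩)) e4
  · intro M hM hMc _
    by_cases hne : M = ∅
    · rw [hne, hΦ0]
      refine ⟨compl_mem (c := k) (l := 1) (r := k + 1) (fun x => (h4 x).ge)
        (fun x y hxy => (h3 x y hxy).le) (by omega) (by rw [card_empty]; omega), ?_⟩
      rw [card_empty]
      exact Nat.zero_le _
    · have e1 := hΦ M hM hMc hne
      refine ⟨compl_mem (c := k) (l := 1) (r := k + 1) (fun x => (h4 x).ge)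
        (fun x y hxy => (h3 x y hxy).le) (by omega) (by omega), ?_⟩
      obtain ⟨B, hB⟩ := nonempty_iff_ne_empty.mpr hne
      have e2 : B.card ≤ (M.sup id).card := card_le_card (le_sup (f := id) hB)
      rw [h2 B (hM hB)] at e2
      omega
  · intro T hT hTc
    refine big_union (k := k) (μ := 1) hTc (fun B hB => (h2 B (hT hB)).ge)
      (fun B hB B' hB' => h6 B (hT hB) B' (hT hB')) (by omega) ?_
    rw [h1]
    obtain ⟨m, rfl⟩ : ∃ m, k = m + 2 := ⟨k - 2, by omega⟩
    simp only [Nat.add_sub_cancel]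
    apply le_of_eq
    ring
  · obtain ⟨x⟩ := ‹Nonempty V›
    have hx : 0 < deg G x := by rw [h4 x]; omega
    obtain ⟨B, hB⟩ := card_pos.mp hx
    have hBG : B ∈ G := (mem_filter.mp hB).1
    rcases Nat.lt_or_ge 2 k with h3k | h2k
    · left
      refine ⟨B, block_mem hBG, ?_, ?_⟩
      · rw [h1, h2 B hBG]; nlinarith
      · intro M hM hMc hMB
        have hne : M ≠ ∅ := by
          rintro rfl
          rw [sup_empty] at hMB
          have := h2 B hBG
          rw [← hMB] at this
          simp at this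
          omega
        rw [hΦ M hM hMc hne, h2 B hBG]
        omega
    · right
      have hk' : k = 2 := by omega
      refine ⟨({x} : Finset V)ᶜ, compl_mem (c := k) (l := 1) (r := k + 1) (fun x => (h4 x).ge)
        (fun x y hxy => (h3 x y hxy).le) (by omega) (by rw [card_singleton]; omega), ?_, ?_⟩
      · rw [card_compl, card_singleton]
        have : Fintype.card V = 4 := by rw [h1, hk']; norm_num
        omega
      · intro M hM hMc _ hcon
        have hM0 : M = ∅ := by
          rw [← card_eq_zero]; omega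
        rw [hM0, hΦ0] at hcon
        have := compl_injective hcon
        exact (singleton_ne_empty x) this.symm

theorem symmetric_strict {G : Finset (Finset V)} {k l : ℕ} (h : IsSymmetricDesign G k l)
    (hk : 2 ≤ k) [Nonempty V] :
    Fintype.card V * (unions G).card < 2 * ∑ S ∈ unions G, S.card := by
  classical
  obtain ⟨h4, h5, h6, h7, h8⟩ := sym_facts h hk
  obtain ⟨h1, h2, h3⟩ := h
  have hv : 0 < Fintype.card V := Fintype.card_pos
  obtain ⟨B₀, hB₀⟩ : G.Nonempty := card_pos.mp (h1 ▸ hv)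
  -- the size of a block is smaller than the number of points
  have hkv : k < Fintype.card V := by
    have hle : k ≤ Fintype.card V := by
      rw [← h2 B₀ hB₀]
      exact card_le_univ _
    rcases Nat.lt_or_ge k (Fintype.card V) with h | h
    · exact h
    · exfalso
      have hG : G ⊆ {univ} := by
        intro B hB
        rw [mem_singleton]
        exact eq_univ_of_card B (by rw [h2 B hB]; omega)
      have := card_le_card hG
      rw [card_singleton, h1] at this
      omega
  have hlk : l < k := by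
    by_contra hcon
    have hlk : l = k := by omega
    rw [hlk] at h4
    have : Fintype.card V - 1 = k - 1 := Nat.eq_of_mul_eq_mul_left (by omega) h4
    omega
  have hc1 : (k - 1) / l * l < k := by
    have := Nat.div_mul_le_self (k - 1) l
    omega
  have hc3 : 1 ≤ (k - 1) / l := (Nat.one_le_div_iff (by omega)).mpr (by omega)
  have hc4 : (k - 1) / l < k := lt_of_le_of_lt (Nat.div_le_self _ _) (by omega)
  have hc2 : k ≤ ((k - 1) / l + 1) * l := by
    have h9 : k - 1 < l * ((k - 1) / l + 1) := Nat.lt_mul_div_succ (k - 1) (by omega)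
    rw [mul_comm] at h9
    omega
  have hcl : ∀ C : Finset V, C.card ≤ (k - 1) / l → Cᶜ ∈ unions G := fun C hC =>
    compl_mem (fun x => (h5 x).ge) (fun x y hxy => (h3 x y hxy).le) hc1 hC
  have hv3 : Fintype.card V * (k + (k - 1) / l * l) ≤ 2 * ((k - 1) / l + 1) * k ^ 2 := by
    set c := (k - 1) / l with hc
    have e1 : (l : ℤ) * (Fintype.card V - 1) = k * (k - 1) := by
      have : ((l * (Fintype.card V - 1) : ℕ) : ℤ) = ((k * (k - 1) : ℕ) : ℤ) := by rw [h4]
      rw [Nat.cast_mul, Nat.cast_mul, Nat.cast_sub (n := k) (m := 1) (by omega),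
        Nat.cast_sub (m := 1) hv] at this
      simpa using this
    have e2 : (k : ℤ) ≤ (c + 1) * l := by exact_mod_cast hc2
    have e3 : (1 : ℤ) ≤ l := by exact_mod_cast h6
    have e4 : (l : ℤ) ≤ k := by exact_mod_cast h7
    have e5 : (2 : ℤ) ≤ k := by exact_mod_cast hk
    have goal : (Fintype.card V : ℤ) * (k + c * l) ≤ 2 * (c + 1) * k ^ 2 := by
      obtain ⟨t, ht⟩ : ∃ t : ℤ, t = (c + 1) * l := ⟨_, rfl⟩
      rw [← ht] at e2
      have g1 : (l : ℤ) * Fintype.card V = k ^ 2 - k + l := by linarith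
      have g2 : ((k : ℤ) ^ 2 - k + l) * (k + t - l) ≤ 2 * t * k ^ 2 := by
        have : 0 ≤ (t - k) * ((k : ℤ) ^ 2 + k - l) := mul_nonneg (by linarith) (by nlinarith)
        nlinarith [sq_nonneg ((k : ℤ) - l), mul_nonneg (by linarith : (0 : ℤ) ≤ k)
          (by linarith : (0 : ℤ) ≤ (k : ℤ) - l), mul_nonneg (sq_nonneg (k : ℤ))
          (by linarith : (0 : ℤ) ≤ l)]
      have g3 : (l : ℤ) * (Fintype.card V * (k + c * l)) ≤ l * (2 * (c + 1) * k ^ 2) := by
        have a1 : (l : ℤ) * (Fintype.card V * (k + c * l)) =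
            ((k : ℤ) ^ 2 - k + l) * (k + t - l) := by rw [ht, ← g1]; ring
        have a2 : (l : ℤ) * (2 * (c + 1) * k ^ 2) = 2 * t * k ^ 2 := by rw [ht]; ring
        rw [a1, a2]
        exact g2
      exact le_of_mul_le_mul_left g3 (by linarith)
    exact_mod_cast goal
  have hι : Nonempty ({B // B ∈ G} ↪ V) := by
    apply Function.Embedding.nonempty_of_card_le
    rw [Fintype.card_coe]
    exact h1.le
  obtain ⟨ι⟩ := hι
  let Φ : Finset (Finset V) → Finset V := fun M =>
    ((univ : Finset {B // B ∈ G}).filter fun B => B.1 ∈ M).map ι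
  have hΦc : ∀ M ⊆ G, (Φ M).card = M.card := by
    intro M hM
    show (((univ : Finset {B // B ∈ G}).filter fun B => B.1 ∈ M).map ι).card = M.card
    rw [card_map]
    refine card_bij (fun B _ => B.1) ?_ ?_ ?_
    · intro B hB
      exact (mem_filter.mp hB).2
    · intro B _ B' _ h
      exact Subtype.ext h
    · intro B hB
      exact ⟨⟨B, hM hB⟩, mem_filter.mpr ⟨mem_univ _, hB⟩, rfl⟩
  refine criterion_strict G ((k - 1) / l) Φ ?_ ?_ ?_ ?_
  · rintro M ⟨hM, -⟩ M' ⟨hM', -⟩ h
    have h' : ((univ : Finset {B // B ∈ G}).filter fun B => B.1 ∈ M) =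
        (univ : Finset {B // B ∈ G}).filter fun B => B.1 ∈ M' := map_injective ι h
    ext B
    constructor
    · intro hB
      have : (⟨B, hM hB⟩ : {B // B ∈ G}) ∈ (univ : Finset {B // B ∈ G}).filter fun B => B.1 ∈ M :=
        mem_filter.mpr ⟨mem_univ _, hB⟩
      rw [h'] at this
      exact (mem_filter.mp this).2
    · intro hB
      have : (⟨B, hM' hB⟩ : {B // B ∈ G}) ∈
          (univ : Finset {B // B ∈ G}).filter fun B => B.1 ∈ M' :=
        mem_filter.mpr ⟨mem_univ _, hB⟩
      rw [← h'] at this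
      exact (mem_filter.mp this).2
  · intro M hM hMc hMs
    refine ⟨hcl _ ?_, ?_⟩
    · rw [hΦc M hM]; exact hMc
    · rw [hΦc M hM]; exact hMs
  · intro T hT hTc
    exact big_union hTc (fun B hB => (h2 B (hT hB)).ge)
      (fun B hB B' hB' hne => (h8 B (hT hB) B' (hT hB') hne).le) (by omega) hv3
  · rcases Nat.lt_or_ge (2 * k) (Fintype.card V) with hsm | hlg
    · left
      refine ⟨B₀, block_mem hB₀, by rw [h2 B₀ hB₀]; exact hsm, ?_⟩
      intro M hM hMc _
      rw [hΦc M hM, h2 B₀ hB₀]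
      omega
    · right
      obtain ⟨x⟩ := ‹Nonempty V›
      refine ⟨({x} : Finset V)ᶜ, hcl _ (by rw [card_singleton]; exact hc3), ?_, ?_⟩
      · rw [card_compl, card_singleton]
        omega
      · intro M hM hMc hMs hcon
        have h9 : Φ M = {x} := compl_injective hcon
        have h10 : M.card = 1 := by rw [← hΦc M hM, h9, card_singleton]
        obtain ⟨B, hB⟩ := card_eq_one.mp h10
        rw [hB, sup_singleton] at hMs
        have : B ∈ G := hM (by rw [hB]; exact mem_singleton_self B)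
        have h11 := h2 B this
        simp only [id] at hMs
        omega

end Pool.Agent.Q115.UD
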