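import Pool.Agent.Q115.UDStrict

namespace Pool.Agent.Q115.UD

open Finset

variable {V : Type*} [Fintype V] [DecidableEq V]

theorem system_strict (G : Finset (Finset V)) (k r l μ c : ℕ) (hb : G.card ≤ Fintype.card V)
    (hr : ∀ x : V, r ≤ (G.filter fun B => x ∈ B).card)
    (hl : ∀ x y : V, x ≠ y → (G.filter fun B => x ∈ B ∧ y ∈ B).card ≤ l)
    (hk : ∀ B ∈ G, k ≤ B.card)
    (hμ : ∀ B ∈ G, ∀ B' ∈ G, B ≠ B' → (B ∩ B').card ≤ μ)
    (hc : c * l < r) (hv : Fintype.card V * (k + c * μ) ≤ 2 * (c + 1) * k ^ 2)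
    (hc1 : 1 ≤ c) (hck : c < k) (hv3 : 3 ≤ Fintype.card V) :
    Fintype.card V * (unions G).card < 2 * ∑ S ∈ unions G, S.card := by
  classical
  have hι : Nonempty ({B // B ∈ G} ↪ V) := by
    apply Function.Embedding.nonempty_of_card_le
    rw [Fintype.card_coe]
    exact hb
  obtain ⟨ι⟩ := hι
  let Φ : Finset (Finset V) → Finset V := fun M =>
    ((univ : Finset {B // B ∈ G}).filter fun B => B.1 ∈ M).map ι
  have hΦc : ∀ M ⊆ G, (Φ M).card = M.card := by
    intro M hM
    show (((univ : Finset {B // B ∈ G}).filter fun B => B.1 ∈ M).map ι).card = M.card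
    rw [card_map]
    refine card_bij (fun B _ => B.1) ?_ ?_ ?_
    · intro B hB
      exact (mem_filter.mp hB).2
    · intro B _ B' _ h
      exact Subtype.ext h
    · intro B hB
      exact ⟨⟨B, hM hB⟩, mem_filter.mpr ⟨mem_univ _, hB⟩, rfl⟩
  refine criterion_strict G c Φ ?_ ?_ ?_ ?_
  · rintro M ⟨hM, -⟩ M' ⟨hM', -⟩ h
    have h' : ((univ : Finset {B // B ∈ G}).filter fun B => B.1 ∈ M) =
        (univ : Finset {B // B ∈ G}).filter fun B => B.1 ∈ M' := map_injective ι h
    ext B
    constructor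
    · intro hB
      have : (⟨B, hM hB⟩ : {B // B ∈ G}) ∈ (univ : Finset {B // B ∈ G}).filter fun B => B.1 ∈ M :=
        mem_filter.mpr ⟨mem_univ _, hB⟩
      rw [h'] at this
      exact (mem_filter.mp this).2
    · intro hB
      have : (⟨B, hM' hB⟩ : {B // B ∈ G}) ∈
          (univ : Finset {B // B ∈ G}).filter fun B => B.1 ∈ M' :=
        mem_filter.mpr ⟨mem_univ _, hB⟩
      rw [← h'] at this
      exact (mem_filter.mp this).2
  · intro M hM hMc hMs
    refine ⟨compl_mem hr hl hc ?_, ?_⟩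
    · rw [hΦc M hM]; exact hMc
    · rw [hΦc M hM]; exact hMs
  · intro T hT hTc
    exact big_union hTc (fun B hB => hk B (hT hB))
      (fun B hB B' hB' => hμ B (hT hB) B' (hT hB')) (by omega) hv
  · by_cases hex : ∃ S ∈ unions G, S.Nonempty ∧ 2 * S.card < Fintype.card V
    · left
      obtain ⟨S, hS, ⟨x, hx⟩, hSv⟩ := hex
      refine ⟨S, hS, hSv, fun M hM hMc _ => ?_⟩
      obtain ⟨B, hB, -, hBS⟩ := mem_unions.mp hS x hx
      have h1 := hk B hB
      have h2 := card_le_card hBS
      rw [hΦc M hM]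
      omega
    · right
      have hne : Nonempty V := Fintype.card_pos_iff.mp (by omega)
      obtain ⟨x⟩ := hne
      refine ⟨({x} : Finset V)ᶜ, compl_mem hr hl hc (by rw [card_singleton]; exact hc1), ?_, ?_⟩
      · rw [card_compl, card_singleton]
        omega
      · intro M hM hMc hMs hcon
        have h9 : Φ M = {x} := compl_injective hcon
        have h10 : M.card = 1 := by rw [← hΦc M hM, h9, card_singleton]
        obtain ⟨B, hB⟩ := card_eq_one.mp h10
        rw [hB, sup_singleton] at hMs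
        have hBG : B ∈ G := hM (by rw [hB]; exact mem_singleton_self B)
        simp only [id] at hMs
        have h11 := hk B hBG
        exact hex ⟨B, block_mem hBG, card_pos.mp (by omega), hMs⟩

end Pool.Agent.Q115.UD
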