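import Mathlib

set_option autoImplicit false

/-!
# Graphs without a four-spoke wheel and with minimum degree almost half of the order

`W4` is the wheel with four spokes (hub joined to all vertices of a four-cycle).
Every `W4`-free graph on `n` vertices, `n` large, with minimum degree at least `(499/1000) n` has a
vertex partition into two classes each of which induces a graph of maximum degree at most one.
-/

namespace Q115.WheelFour

open Finset

/-- The wheel with hub `0` and rim `1, 2, 3, 4` (in this cyclic order). -/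
def W4 : SimpleGraph (Fin 5) where
  Adj i j := i ≠ j ∧ (i = 0 ∨ j = 0 ∨ (i.val + j.val) % 2 = 1)
  symm := ⟨by
    intro i j h
    refine ⟨h.1.symm, ?_⟩
    rcases h.2 with h | h | h
    · exact Or.inr (Or.inl h)
    · exact Or.inl h
    · exact Or.inr (Or.inr (by rw [add_comm]; exact h))⟩
  loopless := ⟨fun i h => h.1 rfl⟩

instance : DecidableRel W4.Adj := fun i j =>
  inferInstanceAs (Decidable (i ≠ j ∧ (i = 0 ∨ j = 0 ∨ (i.val + j.val) % 2 = 1)))

/-- Every two-colouring of `W4` has a vertex with two neighbours of its own colour. -/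
theorem W4_two_col : ∀ s : Fin 5 → Bool,
    ∃ i j k : Fin 5, j ≠ k ∧ W4.Adj i j ∧ W4.Adj i k ∧ s j = s i ∧ s k = s i := by
  decide

/-- If every vertex has at most one neighbour of its own colour, there is no `W4`. -/
theorem free_of_col {V : Type} (G : SimpleGraph V) (c : V → Bool)
    (h : ∀ v a b, G.Adj v a → G.Adj v b → c a = c v → c b = c v → a = b) :
    W4.Free G := by
  rintro ⟨f⟩
  obtain ⟨i, j, k, hjk, h1, h2, h3, h4⟩ := W4_two_col (fun i => c (f i))
  have := h (f i) (f j) (f k) (f.toHom.map_rel h1) (f.toHom.map_rel h2) h3 h4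
  exact hjk (f.injective this)

/-- A wheel from its five vertices. -/
theorem contains_of {V : Type} (G : SimpleGraph V) {v a b p q : V} (hab : a ≠ b) (hpq : p ≠ q)
    (hva : G.Adj v a) (hvb : G.Adj v b) (hvp : G.Adj v p) (hvq : G.Adj v q)
    (hap : G.Adj a p) (haq : G.Adj a q) (hbp : G.Adj b p) (hbq : G.Adj b q) :
    ¬ W4.Free G := by
  intro hfree
  apply hfree
  refine ⟨⟨⟨![v, a, p, b, q], ?_⟩, ?_⟩⟩
  · intro i j hij
    fin_cases i <;> fin_cases j <;>
      first
        | exact absurd hij (by decide)
        | simpa using hva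
        | simpa using hva.symm
        | simpa using hvb
        | simpa using hvb.symm
        | simpa using hvp
        | simpa using hvp.symm
        | simpa using hvq
        | simpa using hvq.symm
        | simpa using hap
        | simpa using hap.symm
        | simpa using haq
        | simpa using haq.symm
        | simpa using hbp
        | simpa using hbp.symm
        | simpa using hbq
        | simpa using hbq.symm
  · have e1 := hva.ne
    have e2 := hvb.ne
    have e3 := hvp.ne
    have e4 := hvq.ne
    have e5 := hap.ne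
    have e6 := haq.ne
    have e7 := hbp.ne
    have e8 := hbq.ne
    intro i j hij
    fin_cases i <;> fin_cases j <;> first | rfl | (exfalso; simp_all)

open Classical in
/-- In a `W4`-free graph two neighbours of `v` have at most one common neighbour inside `N(v)`. -/
theorem card_le_one {V : Type} [Fintype V] (G : SimpleGraph V) (hG : W4.Free G) {v a b : V}
    (hab : a ≠ b) (hva : G.Adj v a) (hvb : G.Adj v b) :
    ((G.neighborFinset v ∩ (G.neighborFinset a ∩ G.neighborFinset b))).card ≤ 1 := by
  rw [Finset.card_le_one]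
  intro p hp q hq
  simp only [mem_inter, SimpleGraph.mem_neighborFinset] at hp hq
  by_contra hpq
  exact contains_of G hab hpq hva hvb hp.1 hq.1 hp.2.1 hq.2.1 hp.2.2 hq.2.2 hG

open Classical in
/-- Many almost disjoint large sets do not fit into a small one. -/
theorem many_sets {V : Type} (g : V → Finset V) (T : Finset V) (t : ℕ) (S : Finset V)
    (h1 : ∀ a ∈ S, t ≤ (g a ∩ T).card)
    (h2 : ∀ a ∈ S, ∀ b ∈ S, a ≠ b → ((g a ∩ T) ∩ (g b ∩ T)).card ≤ 1) :
    S.card * t ≤ (S.biUnion (fun a => g a ∩ T)).card + S.card * S.card := by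
  induction S using Finset.induction_on with
  | empty => simp
  | insert x S hx ih =>
    have ih' := ih (fun a ha => h1 a (mem_insert_of_mem ha))
      (fun a ha b hb hab => h2 a (mem_insert_of_mem ha) b (mem_insert_of_mem hb) hab)
    rw [Finset.biUnion_insert, Finset.card_insert_of_notMem hx]
    have h3 : ((g x ∩ T) ∩ S.biUnion (fun a => g a ∩ T)).card ≤ S.card := by
      rw [Finset.inter_biUnion]
      refine (Finset.card_biUnion_le).trans ?_
      have : ∀ a ∈ S, ((g x ∩ T) ∩ (g a ∩ T)).card ≤ 1 := by
        intro a ha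
        apply h2 x (mem_insert_self _ _) a (mem_insert_of_mem ha)
        rintro rfl
        exact hx ha
      exact (Finset.sum_le_sum this).trans (by simp)
    have h4 := Finset.card_union_add_card_inter (g x ∩ T) (S.biUnion (fun a => g a ∩ T))
    have h5 := h1 x (mem_insert_self _ _)
    have e1 : (S.card + 1) * t = S.card * t + t := by ring
    have e2 : (S.card + 1) * (S.card + 1) = S.card * S.card + 2 * S.card + 1 := by ring
    rw [e1, e2]
    omega

open Classical in
/-- The vertices of `N(x)` with at least `n/1000` neighbours in `N(x)`. -/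
noncomputable def big {V : Type} [Fintype V] (G : SimpleGraph V) (x : V) : Finset V :=
  (G.neighborFinset x).filter (fun a => Fintype.card V ≤
      1000 * (G.neighborFinset a ∩ G.neighborFinset x).card)

open Classical in
/-- In a large `W4`-free graph fewer than 2000 vertices of `N(x)` have at least `n/1000`
neighbours in `N(x)`. -/
theorem few_big {V : Type} [Fintype V] (G : SimpleGraph V) (hG : W4.Free G)
    (hn : 10000000 ≤ Fintype.card V) (x : V) : (big G x).card < 2000 := by
  by_contra hcon
  push Not at hcon
  obtain ⟨S, hS, hScard⟩ := Finset.exists_subset_card_eq hcon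
  have hS' : ∀ a ∈ S, G.Adj x a ∧ Fintype.card V ≤
      1000 * (G.neighborFinset a ∩ G.neighborFinset x).card := by
    intro a ha
    have := hS ha
    rw [big, mem_filter, SimpleGraph.mem_neighborFinset] at this
    exact this
  have key := many_sets (fun a => G.neighborFinset a) (G.neighborFinset x) ((Fintype.card V + 999) / 1000) S
    (fun a ha => by
      have := (hS' a ha).2
      omega)
    (fun a ha b hb hab => by
      refine le_trans (Finset.card_le_card ?_)
        (card_le_one G hG hab (hS' a ha).1 (hS' b hb).1)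
      intro p hp
      simp only [mem_inter] at hp ⊢
      exact ⟨hp.1.2, hp.1.1, hp.2.1⟩)
  have h2 : (S.biUnion (fun a => G.neighborFinset a ∩ G.neighborFinset x)).card ≤
      Fintype.card V := Finset.card_le_univ _
  rw [hScard] at key
  omega

open Classical in
/-- The structure theorem. -/
theorem structure_thm {V : Type} [Fintype V] (G : SimpleGraph V) (hG : W4.Free G)
    (hn : 10000000 ≤ Fintype.card V)
    (hdeg : ∀ v, 499 * Fintype.card V ≤ 1000 * G.degree v) :
    ∃ c : V → Bool, ∀ v a b, G.Adj v a → G.Adj v b → c a = c v → c b = c v → a = b := by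
  set n := Fintype.card V with hndef
  have hdeg' : ∀ v, 499 * n ≤ 1000 * (G.neighborFinset v).card := by
    intro v
    rw [SimpleGraph.card_neighborFinset_eq_degree]
    exact hdeg v
  have hne : Nonempty V := by
    rw [← Fintype.card_pos_iff]; omega
  obtain ⟨x⟩ := hne
  -- choose `y`
  obtain ⟨y, hy1, hy2⟩ : ∃ y ∈ G.neighborFinset x,
      1000 * (G.neighborFinset y ∩ G.neighborFinset x).card < n := by
    by_contra hcon
    push Not at hcon
    have h1 := few_big G hG hn x
    rw [big, Finset.filter_true_of_mem (fun a ha => hcon a ha)] at h1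
    have := hdeg' x
    omega
  set A1 := G.neighborFinset y \ G.neighborFinset x with hA1
  set B1 := G.neighborFinset x \ G.neighborFinset y with hB1
  have hA1card : 498 * n ≤ 1000 * A1.card := by
    have h1 := Finset.card_sdiff_add_card_inter (G.neighborFinset y) (G.neighborFinset x)
    have h2 := hdeg' y
    rw [← hA1] at h1
    omega
  have hB1card : 498 * n ≤ 1000 * B1.card := by
    have h1 := Finset.card_sdiff_add_card_inter (G.neighborFinset x) (G.neighborFinset y)
    have h2 := hdeg' x
    rw [← hB1] at h1
    rw [Finset.inter_comm] at hy2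
    omega
  have hdisj : Disjoint A1 B1 := by
    rw [Finset.disjoint_left]
    intro p hp hq
    rw [hA1, mem_sdiff] at hp
    rw [hB1, mem_sdiff] at hq
    exact hp.2 hq.1
  have hsum : A1.card + B1.card ≤ n := by
    rw [← Finset.card_union_of_disjoint hdisj]
    exact Finset.card_le_univ _
  -- neighbourhood split
  have hsplit : ∀ v, 499 * n ≤ 1000 * (G.neighborFinset v ∩ A1).card +
      1000 * (G.neighborFinset v ∩ B1).card + 4 * n := by
    intro v
    have h1 : (G.neighborFinset v).card ≤ (G.neighborFinset v ∩ A1).card +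
        (G.neighborFinset v ∩ B1).card + (univ \ (A1 ∪ B1)).card := by
      have hsub : G.neighborFinset v ⊆ ((G.neighborFinset v ∩ A1) ∪
          (G.neighborFinset v ∩ B1)) ∪ (univ \ (A1 ∪ B1)) := by
        intro p hp
        simp only [mem_union, mem_inter, mem_sdiff, mem_univ, true_and]
        by_cases h1 : p ∈ A1
        · exact Or.inl (Or.inl ⟨hp, h1⟩)
        · by_cases h2 : p ∈ B1
          · exact Or.inl (Or.inr ⟨hp, h2⟩)
          · exact Or.inr (by tauto)
      refine (Finset.card_le_card hsub).trans ((Finset.card_union_le _ _).trans ?_)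
      exact Nat.add_le_add_right (Finset.card_union_le _ _) _
    have h2 : (univ \ (A1 ∪ B1)).card = n - (A1.card + B1.card) := by
      rw [Finset.card_sdiff_of_subset (Finset.subset_univ _), Finset.card_univ,
        Finset.card_union_of_disjoint hdisj]
    have h3 := hdeg' v
    omega
  have hB1miss : ∀ v, (B1 \ G.neighborFinset v).card + (G.neighborFinset v ∩ B1).card = B1.card := by
    intro v
    have := Finset.card_sdiff_add_card_inter B1 (G.neighborFinset v)
    rw [Finset.inter_comm] at this
    exact this
  have hA1miss : ∀ v, (A1 \ G.neighborFinset v).card + (G.neighborFinset v ∩ A1).card = A1.card := by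
    intro v
    have := Finset.card_sdiff_add_card_inter A1 (G.neighborFinset v)
    rw [Finset.inter_comm] at this
    exact this
  -- no vertex has many neighbours on both sides
  have hboth : ∀ v, n ≤ 20 * (G.neighborFinset v ∩ A1).card →
      20 * (G.neighborFinset v ∩ B1).card < n := by
    intro v hvA
    by_contra hvB
    push Not at hvB
    have hbig := few_big G hG hn y
    -- typical neighbours in A1
    set D := (G.neighborFinset v ∩ A1) \ big G y with hD
    have hDcard : 1 < D.card := by
      have h1 := Finset.le_card_sdiff (big G y) (G.neighborFinset v ∩ A1)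
      rw [← hD] at h1
      omega
    obtain ⟨a, ha, b, hb, hab⟩ := Finset.one_lt_card.mp hDcard
    have htyp : ∀ a ∈ D, G.Adj v a ∧ 1000 * (B1 \ G.neighborFinset a).card ≤ 8 * n := by
      intro a ha
      rw [hD, mem_sdiff, mem_inter, SimpleGraph.mem_neighborFinset, big, mem_filter] at ha
      refine ⟨ha.1.1, ?_⟩
      have hay : a ∈ G.neighborFinset y := by
        have := ha.1.2
        rw [hA1, mem_sdiff] at this
        exact this.1
      have h1 : 1000 * (G.neighborFinset a ∩ G.neighborFinset y).card < n := by
        by_contra hc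
        push Not at hc
        exact ha.2 ⟨hay, hc⟩
      have h2 : (G.neighborFinset a ∩ A1).card ≤ (G.neighborFinset a ∩ G.neighborFinset y).card := by
        apply Finset.card_le_card
        intro p hp
        rw [mem_inter] at hp ⊢
        refine ⟨hp.1, ?_⟩
        have := hp.2
        rw [hA1, mem_sdiff] at this
        exact this.1
      have h3 := hsplit a
      have h4 := hB1miss a
      omega
    obtain ⟨hva, ha2⟩ := htyp a ha
    obtain ⟨hvb, hb2⟩ := htyp b hb
    have h5 := card_le_one G hG hab hva hvb
    have hsub : G.neighborFinset v ∩ B1 ⊆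
        (G.neighborFinset v ∩ (G.neighborFinset a ∩ G.neighborFinset b)) ∪
        ((B1 \ G.neighborFinset a) ∪ (B1 \ G.neighborFinset b)) := by
      intro p hp
      simp only [mem_union, mem_inter, mem_sdiff] at hp ⊢
      by_cases h1 : p ∈ G.neighborFinset a
      · by_cases h2 : p ∈ G.neighborFinset b
        · exact Or.inl ⟨hp.1, h1, h2⟩
        · exact Or.inr (Or.inr ⟨hp.2, h2⟩)
      · exact Or.inr (Or.inl ⟨hp.2, h1⟩)
    have h6 := Finset.card_le_card hsub
    have h7 := Finset.card_union_le (G.neighborFinset v ∩ (G.neighborFinset a ∩ G.neighborFinset b))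
      ((B1 \ G.neighborFinset a) ∪ (B1 \ G.neighborFinset b))
    have h8 := Finset.card_union_le (B1 \ G.neighborFinset a) (B1 \ G.neighborFinset b)
    omega
  -- the colouring
  refine ⟨fun v => decide (20 * (G.neighborFinset v ∩ A1).card < n), ?_⟩
  -- general final step
  have hfinal : ∀ (X : Finset V) (v a b : V), 498 * n ≤ 1000 * X.card →
      1000 * (X \ G.neighborFinset v).card ≤ 57 * n →
      1000 * (X \ G.neighborFinset a).card ≤ 57 * n →
      1000 * (X \ G.neighborFinset b).card ≤ 57 * n →
      G.Adj v a → G.Adj v b → a = b := by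
    intro X v a b hX hv ha hb hva hvb
    by_contra hab
    have h5 := card_le_one G hG hab hva hvb
    have hsub : X ⊆
        (G.neighborFinset v ∩ (G.neighborFinset a ∩ G.neighborFinset b)) ∪
        ((X \ G.neighborFinset v) ∪ ((X \ G.neighborFinset a) ∪ (X \ G.neighborFinset b))) := by
      intro p hp
      simp only [mem_union, mem_inter, mem_sdiff] at hp ⊢
      by_cases h0 : p ∈ G.neighborFinset v
      · by_cases h1 : p ∈ G.neighborFinset a
        · by_cases h2 : p ∈ G.neighborFinset b
          · exact Or.inl ⟨h0, h1, h2⟩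
          · exact Or.inr (Or.inr (Or.inr ⟨hp, h2⟩))
        · exact Or.inr (Or.inr (Or.inl ⟨hp, h1⟩))
      · exact Or.inr (Or.inl ⟨hp, h0⟩)
    have h6 := Finset.card_le_card hsub
    have h7 := Finset.card_union_le (G.neighborFinset v ∩ (G.neighborFinset a ∩ G.neighborFinset b))
      ((X \ G.neighborFinset v) ∪ ((X \ G.neighborFinset a) ∪ (X \ G.neighborFinset b)))
    have h8 := Finset.card_union_le (X \ G.neighborFinset v)
      ((X \ G.neighborFinset a) ∪ (X \ G.neighborFinset b))
    have h9 := Finset.card_union_le (X \ G.neighborFinset a) (X \ G.neighborFinset b)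
    omega
  intro v a b hva hvb hca hcb
  by_cases hv : 20 * (G.neighborFinset v ∩ A1).card < n
  · have hside : ∀ w, 20 * (G.neighborFinset w ∩ A1).card < n →
        1000 * (B1 \ G.neighborFinset w).card ≤ 57 * n := by
      intro w hw
      have h3 := hsplit w
      have h4 := hB1miss w
      omega
    simp only [hv, decide_true, decide_eq_true_eq] at hca hcb
    exact hfinal B1 v a b hB1card (hside v hv) (hside a hca) (hside b hcb) hva hvb
  · have hside : ∀ w, ¬ 20 * (G.neighborFinset w ∩ A1).card < n →
        1000 * (A1 \ G.neighborFinset w).card ≤ 57 * n := by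
      intro w hw
      have h3 := hsplit w
      have h4 := hA1miss w
      have h5 := hboth w (by omega)
      omega
    simp only [hv, decide_false, decide_eq_false_iff_not] at hca hcb
    exact hfinal A1 v a b hA1card (hside v hv) (hside a hca) (hside b hcb) hva hvb

/-! ### The example -/

/-- The complete bipartite graph with parts of size `2m` together with a perfect matching inside
each part. -/
def K (m : ℕ) : SimpleGraph (Bool × Fin m × Bool) where
  Adj u v := u.1 ≠ v.1 ∨ (u.1 = v.1 ∧ u.2.1 = v.2.1 ∧ u.2.2 ≠ v.2.2)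
  symm := ⟨by
    intro u v h
    rcases h with h | h
    · exact Or.inl h.symm
    · exact Or.inr ⟨h.1.symm, h.2.1.symm, h.2.2.symm⟩⟩
  loopless := ⟨by
    intro u h
    rcases h with h | h
    · exact h rfl
    · exact h.2.2 rfl⟩

theorem bool_eq {a b c : Bool} (h1 : a ≠ b) (h2 : a ≠ c) : b = c := by
  cases a <;> cases b <;> cases c <;> simp_all

theorem K_free (m : ℕ) : W4.Free (K m) := by
  apply free_of_col (K m) (fun v => v.1)
  intro v a b hva hvb ha hb
  have h1 : v.1 = a.1 ∧ v.2.1 = a.2.1 ∧ v.2.2 ≠ a.2.2 := by
    rcases hva with h | h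
    · exact absurd ha.symm h
    · exact h
  have h2 : v.1 = b.1 ∧ v.2.1 = b.2.1 ∧ v.2.2 ≠ b.2.2 := by
    rcases hvb with h | h
    · exact absurd hb.symm h
    · exact h
  refine Prod.ext ?_ (Prod.ext ?_ ?_)
  · rw [← h1.1, ← h2.1]
  · rw [← h1.2.1, ← h2.2.1]
  · exact bool_eq h1.2.2 h2.2.2

theorem K_maximal (m : ℕ) (u v : Bool × Fin m × Bool) (huv : u ≠ v) (hadj : ¬ (K m).Adj u v) :
    ¬ W4.Free (K m ⊔ SimpleGraph.edge u v) := by
  have h1 : u.1 = v.1 := by
    by_contra h
    exact hadj (Or.inl h)
  have h2 : u.2.1 ≠ v.2.1 := by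
    intro h
    apply hadj
    refine Or.inr ⟨h1, h, fun h3 => huv (Prod.ext h1 (Prod.ext h h3))⟩
  have hnew : (K m ⊔ SimpleGraph.edge u v).Adj u v := by
    rw [SimpleGraph.sup_adj, SimpleGraph.edge_adj]
    exact Or.inr ⟨Or.inl ⟨rfl, rfl⟩, huv⟩
  have hold : ∀ {x y}, (K m).Adj x y → (K m ⊔ SimpleGraph.edge u v).Adj x y := by
    intro x y h
    rw [SimpleGraph.sup_adj]
    exact Or.inl h
  refine contains_of (K m ⊔ SimpleGraph.edge u v) (v := u) (a := (u.1, u.2.1, !u.2.2)) (b := v)
    (p := (!u.1, u.2.1, true)) (q := (!u.1, u.2.1, false)) ?_ ?_ ?_ hnew ?_ ?_ ?_ ?_ ?_ ?_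
  · intro h
    apply h2
    rw [← h]
  · intro h
    simp at h
  · exact hold (Or.inr ⟨rfl, rfl, by simp⟩)
  · exact hold (Or.inl (by simp))
  · exact hold (Or.inl (by simp))
  · exact hold (Or.inl (by simp))
  · exact hold (Or.inl (by simp))
  · exact hold (Or.inl (by simp [← h1]))
  · exact hold (Or.inl (by simp [← h1]))

theorem card_K (m : ℕ) : Fintype.card (Bool × Fin m × Bool) = 4 * m := by
  simp only [Fintype.card_prod, Fintype.card_bool, Fintype.card_fin]
  ring

open Classical in
theorem K_degree (m : ℕ) (v : Bool × Fin m × Bool) :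
    Fintype.card (Bool × Fin m × Bool) < 2 * (K m).degree v := by
  rw [card_K]
  have h : 2 * m < (K m).degree v := by
    rw [← SimpleGraph.card_neighborFinset_eq_degree]
    have h1 : (insert (v.1, v.2.1, !v.2.2) ((univ : Finset (Fin m × Bool)).map
        ⟨fun x => ((!v.1, x) : Bool × Fin m × Bool), fun x y h => by
          simpa using h⟩)).card ≤ ((K m).neighborFinset v).card := by
      apply Finset.card_le_card
      intro w hw
      rw [SimpleGraph.mem_neighborFinset]
      rw [mem_insert, mem_map] at hw
      rcases hw with hw | ⟨x, _, hx⟩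
      · subst hw
        exact Or.inr ⟨rfl, rfl, by simp⟩
      · have hx' : (!v.1, x) = w := hx
        subst hx'
        exact Or.inl (by simp)
    rw [Finset.card_insert_of_notMem, Finset.card_map, Finset.card_univ, Fintype.card_prod,
      Fintype.card_bool, Fintype.card_fin] at h1
    · omega
    · rw [mem_map]
      rintro ⟨x, _, hx⟩
      have hx' : (!v.1, x) = (v.1, v.2.1, !v.2.2) := hx
      have := congrArg Prod.fst hx'
      simp at this
  omega

/-- Distinct vertices of `K m` have distinct neighbourhoods. -/
theorem K_twin_free (m : ℕ) {u v : Bool × Fin m × Bool}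
    (h : ∀ w, (K m).Adj u w ↔ (K m).Adj v w) : u = v := by
  have h1 : ¬ (K m).Adj u v := by
    rw [h v]
    exact (K m).irrefl
  have h2 : u.1 = v.1 := by
    by_contra hne
    exact h1 (Or.inl hne)
  have h3 : (K m).Adj v (u.1, u.2.1, !u.2.2) := by
    rw [← h]
    exact Or.inr ⟨rfl, rfl, by simp⟩
  rcases h3 with h3 | h3
  · exact absurd h2.symm h3
  · refine Prod.ext h2 (Prod.ext h3.2.1.symm ?_)
    have h4 := h3.2.2
    have h5 : v.2.2 ≠ !u.2.2 := h4
    cases hv : v.2.2 <;> cases hu : u.2.2 <;> simp_all

/-! ### Consequences of the structure theorem -/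

/-- A colouring in which each vertex has at most one neighbour of its colour gives a homomorphism
to the complete graph on four vertices. -/
theorem hom_K4 {V : Type} (G : SimpleGraph V) (c : V → Bool)
    (h : ∀ v a b, G.Adj v a → G.Adj v b → c a = c v → c b = c v → a = b) :
    Nonempty (G →g (⊤ : SimpleGraph (Bool × Bool))) := by
  classical
  let _ : LinearOrder V := linearOrderOfSTO WellOrderingRel
  refine ⟨⟨fun v => (c v, decide (∃ w, G.Adj v w ∧ c w = c v ∧ v < w)), ?_⟩⟩
  have key : ∀ v w, G.Adj v w → v < w →
      (c v, decide (∃ w, G.Adj v w ∧ c w = c v ∧ v < w)) ≠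
      (c w, decide (∃ x, G.Adj w x ∧ c x = c w ∧ w < x)) := by
    intro v w hvw hlt heq
    have h1 : c v = c w := congrArg Prod.fst heq
    have h2 := congrArg Prod.snd heq
    have h3 : ∃ x, G.Adj v x ∧ c x = c v ∧ v < x := ⟨w, hvw, h1.symm, hlt⟩
    simp only [h3, decide_true] at h2
    have h4 : ∃ x, G.Adj w x ∧ c x = c w ∧ w < x := by
      simpa using h2.symm
    obtain ⟨x, hx1, hx2, hx3⟩ := h4
    have := h w x v hx1 hvw.symm hx2 h1
    subst this
    exact absurd hx3 (not_lt_of_gt hlt)
  intro v w hvw
  rw [SimpleGraph.top_adj]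
  rcases lt_or_gt_of_ne hvw.ne with hlt | hlt
  · exact key v w hvw hlt
  · exact (key w v hvw.symm hlt).symm

/-- In a maximal `W4`-free graph with such a colouring all edges between the classes are present. -/
theorem cross_adj {V : Type} (G : SimpleGraph V)
    (hmax : ∀ u v, u ≠ v → ¬ G.Adj u v → ¬ W4.Free (G ⊔ SimpleGraph.edge u v)) (c : V → Bool)
    (h : ∀ v a b, G.Adj v a → G.Adj v b → c a = c v → c b = c v → a = b) {u v : V}
    (huv : c u ≠ c v) : G.Adj u v := by
  by_contra hadj
  have hne : u ≠ v := fun he => huv (by rw [he])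
  apply hmax u v hne hadj
  apply free_of_col _ c
  have hold : ∀ x y, (G ⊔ SimpleGraph.edge u v).Adj x y → c y = c x → G.Adj x y := by
    intro x y hxy hc
    rw [SimpleGraph.sup_adj, SimpleGraph.edge_adj] at hxy
    rcases hxy with hxy | ⟨⟨h1, h2⟩ | ⟨h1, h2⟩, _⟩
    · exact hxy
    · subst h1 h2
      exact absurd hc.symm huv
    · subst h1 h2
      exact absurd hc huv
  intro x a b hxa hxb ha hb
  exact h x a b (hold x a hxa ha) (hold x b hxb hb) ha hb

/-- The neighbourhoods of such a graph shatter no set of three vertices. -/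
theorem shatter_le {V : Type} (G : SimpleGraph V) (c : V → Bool)
    (h : ∀ v a b, G.Adj v a → G.Adj v b → c a = c v → c b = c v → a = b)
    (hcross : ∀ u v, c u ≠ c v → G.Adj u v) (S : Finset V)
    (hS : ∀ T ⊆ S, ∃ v, ∀ x ∈ S, G.Adj v x ↔ x ∈ T) : S.card ≤ 2 := by
  classical
  by_contra hcard
  push Not at hcard
  obtain ⟨a, b, d, ha, hb, hd, hab, had, hbd⟩ := Finset.two_lt_card_iff.mp hcard
  obtain ⟨v, hv⟩ := hS ∅ (Finset.empty_subset _)
  have hcol : ∀ x ∈ S, c x = c v := by
    intro x hx
    by_contra hne
    have h1 := (hv x hx).mp (hcross v x (fun he => hne he.symm))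
    simp at h1
  obtain ⟨w, hw⟩ := hS {a, b} (by
    intro x hx
    simp only [Finset.mem_insert, Finset.mem_singleton] at hx
    rcases hx with hx | hx
    · rw [hx]; exact ha
    · rw [hx]; exact hb)
  by_cases hwv : c w = c v
  · have h1 := (hw a ha).mpr (by simp)
    have h2 := (hw b hb).mpr (by simp)
    exact hab (h w a b h1 h2 (by rw [hcol a ha, hwv]) (by rw [hcol b hb, hwv]))
  · have h1 := (hw d hd).mp (hcross w d (by rw [hcol d hd]; exact hwv))
    simp only [Finset.mem_insert, Finset.mem_singleton] at h1
    rcases h1 with h1 | h1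
    · exact had h1.symm
    · exact hbd h1.symm

/-! ### Disjoint unions -/

/-- The disjoint union of a family of graphs. -/
def disj {I : Type} {V : I → Type} (G : ∀ i, SimpleGraph (V i)) : SimpleGraph (Σ i, V i) where
  Adj x y := ∃ (i : I) (a b : V i), (G i).Adj a b ∧ x = ⟨i, a⟩ ∧ y = ⟨i, b⟩
  symm := ⟨by
    rintro x y ⟨i, a, b, h, hx, hy⟩
    exact ⟨i, b, a, h.symm, hy, hx⟩⟩
  loopless := ⟨by
    rintro x ⟨i, a, b, h, hx, hy⟩
    rw [hx] at hy
    have := sigma_mk_injective hy
    exact h.ne this⟩

theorem disj_free {I : Type} {V : I → Type} (G : ∀ i, SimpleGraph (V i))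
    (hG : ∀ i, W4.Free (G i)) : W4.Free (disj G) := by
  rintro ⟨f⟩
  obtain ⟨i, a0, h0⟩ : ∃ (i : I) (a : V i), f 0 = ⟨i, a⟩ := ⟨(f 0).1, (f 0).2, rfl⟩
  have hall : ∀ j : Fin 5, ∃ a : V i, f j = ⟨i, a⟩ := by
    intro j
    by_cases hj : j = 0
    · exact ⟨a0, by rw [hj]; exact h0⟩
    · have hadj : W4.Adj 0 j := ⟨fun h => hj h.symm, Or.inl rfl⟩
      have h1 : (disj G).Adj (f 0) (f j) := f.toHom.map_rel hadj
      obtain ⟨i', a, b, _, hx, hy⟩ := h1
      rw [h0] at hx
      have hi : i = i' := congrArg Sigma.fst hx
      subst hi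
      exact ⟨b, hy⟩
  choose g hg using hall
  apply hG i
  refine ⟨⟨⟨g, ?_⟩, ?_⟩⟩
  · intro j k hjk
    have h1 : (disj G).Adj (f j) (f k) := f.toHom.map_rel hjk
    obtain ⟨i', a, b, hab, hx, hy⟩ := h1
    rw [hg j] at hx
    rw [hg k] at hy
    have hi : i = i' := congrArg Sigma.fst hx
    subst hi
    have e1 : g j = a := sigma_mk_injective hx
    have e2 : g k = b := sigma_mk_injective hy
    rw [e1, e2]
    exact hab
  · intro j k hjk
    apply f.injective
    have e : (⟨i, g j⟩ : Σ i, V i) = ⟨i, g k⟩ := by
      have : g j = g k := hjk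
      rw [this]
    change f j = f k
    rw [hg j, hg k]
    exact e

/-- There is one finite `W4`-free graph to which all `W4`-free graphs on fewer than `N` vertices
and the complete graph on four vertices are homomorphic. -/
theorem universal (N : ℕ) : ∃ (W : Type) (_ : Fintype W) (F : SimpleGraph W), W4.Free F ∧
    Nonempty ((⊤ : SimpleGraph (Bool × Bool)) →g F) ∧
    ∀ (V : Type) [Fintype V] (G : SimpleGraph V), Fintype.card V < N → W4.Free G →
      Nonempty (G →g F) := by
  classical
  let I : Type := Option (Σ k : Fin N, {F : SimpleGraph (Fin k) // W4.Free F})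
  let Vt : I → Type := fun i => match i with
    | none => Bool × Bool
    | some p => Fin p.1
  let Gt : ∀ i : I, SimpleGraph (Vt i) := fun i => match i with
    | none => ⊤
    | some p => p.2.1
  have hfin : ∀ i, Nonempty (Fintype (Vt i)) := by
    intro i
    rcases i with _ | p
    · exact ⟨inferInstanceAs (Fintype (Bool × Bool))⟩
    · exact ⟨inferInstanceAs (Fintype (Fin p.1))⟩
  have hfin' : ∀ i, Finite (Vt i) := fun i => (hfin i).elim (fun h => Finite.of_fintype _)
  have hI : Finite I := inferInstance
  have hsig : Finite (Σ i, Vt i) := inferInstance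
  have hfree : ∀ i, W4.Free (Gt i) := by
    intro i
    rcases i with _ | p
    · rintro ⟨f⟩
      have h1 : Fintype.card (Fin 5) ≤ Fintype.card (Bool × Bool) :=
        Fintype.card_le_of_injective (fun j => (f j : Bool × Bool)) f.injective
      simp at h1
    · exact p.2.2
  have hinj : ∀ i : I, Nonempty (Gt i →g disj Gt) := by
    intro i
    refine ⟨⟨fun a => ⟨i, a⟩, ?_⟩⟩
    intro a b hab
    exact ⟨i, a, b, hab, rfl, rfl⟩
  refine ⟨Σ i, Vt i, Fintype.ofFinite _, disj Gt, disj_free Gt hfree, hinj none, ?_⟩
  intro V _ G hcard hG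
  let e := Fintype.equivFin V
  have hfree' : W4.Free (G.comap e.symm) := by
    rintro ⟨f⟩
    apply hG
    exact ⟨⟨⟨fun j => e.symm (f j), fun {a b} hab => f.toHom.map_rel hab⟩,
      fun a b hab => f.injective (e.symm.injective hab)⟩⟩
  obtain ⟨φ⟩ := hinj (some ⟨⟨Fintype.card V, hcard⟩, ⟨G.comap e.symm, hfree'⟩⟩)
  refine ⟨⟨fun v => φ (e v), ?_⟩⟩
  intro v w hvw
  apply φ.map_rel
  change (G.comap e.symm).Adj (e v) (e w)
  simpa using hvw

open Classical in
/-- `W4`-free graphs with minimum degree at least `α n`, `α > 1/2`, have bounded order. -/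
theorem bounded_order (α : ℝ) (hα : 1 / 2 < α) : ∃ N : ℕ, ∀ (V : Type) [Fintype V]
    (G : SimpleGraph V), W4.Free G → (∀ v, α * Fintype.card V ≤ (G.degree v : ℝ)) →
    Fintype.card V ≤ N := by
  obtain ⟨N1, hN1⟩ := exists_nat_gt (1 / (α - 1 / 2))
  refine ⟨10000000 + N1, ?_⟩
  intro V _ G hG hdeg
  by_contra hcon
  push Not at hcon
  have hpos : (0 : ℝ) < α - 1 / 2 := by linarith
  have hcardN : (N1 : ℝ) ≤ Fintype.card V := by
    have : N1 ≤ Fintype.card V := by omega
    exact_mod_cast this
  have hbig : 1 < (α - 1 / 2) * Fintype.card V := by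
    have h1 : 1 / (α - 1 / 2) < Fintype.card V := lt_of_lt_of_le hN1 hcardN
    rw [div_lt_iff₀ hpos] at h1
    linarith
  have hcard0 : (0 : ℝ) ≤ Fintype.card V := Nat.cast_nonneg _
  obtain ⟨c, hc⟩ := structure_thm G hG (by omega) (by
    intro v
    have h1 := hdeg v
    have h2 : (499 * Fintype.card V : ℝ) ≤ 1000 * G.degree v := by nlinarith
    exact_mod_cast h2)
  -- degree bound
  have hdb : ∀ v, G.degree v ≤ (univ.filter (fun w => c w ≠ c v)).card + 1 := by
    intro v
    rw [← SimpleGraph.card_neighborFinset_eq_degree]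
    have h1 : G.neighborFinset v ⊆ (univ.filter (fun w => c w ≠ c v)) ∪
        ((G.neighborFinset v).filter (fun w => c w = c v)) := by
      intro w hw
      rw [mem_union, mem_filter, mem_filter]
      by_cases h : c w = c v
      · exact Or.inr ⟨hw, h⟩
      · exact Or.inl ⟨mem_univ _, h⟩
    have h2 : ((G.neighborFinset v).filter (fun w => c w = c v)).card ≤ 1 := by
      rw [Finset.card_le_one]
      intro a ha b hb
      rw [mem_filter, SimpleGraph.mem_neighborFinset] at ha hb
      exact hc v a b ha.1 hb.1 ha.2 hb.2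
    have h3 := Finset.card_le_card h1
    have h4 := Finset.card_union_le (univ.filter (fun w => c w ≠ c v))
      ((G.neighborFinset v).filter (fun w => c w = c v))
    omega
  have hne : Nonempty V := by
    rw [← Fintype.card_pos_iff]; omega
  obtain ⟨x⟩ := hne
  have hx := hdeg x
  have hxb : (G.degree x : ℝ) ≤ (univ.filter (fun w => c w ≠ c x)).card + 1 := by
    exact_mod_cast hdb x
  have hsum : (univ.filter (fun w => c w = c x)).card + (univ.filter (fun w => c w ≠ c x)).card
      = Fintype.card V := by
    rw [Finset.card_filter_add_card_filter_not (fun w => c w = c x)]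
    exact Finset.card_univ
  have hnonempty : 0 < (univ.filter (fun w => c w ≠ c x)).card := by
    have h1 : (1 : ℝ) < (univ.filter (fun w => c w ≠ c x)).card + 1 := by nlinarith
    have h2 : (0 : ℝ) < (univ.filter (fun w => c w ≠ c x)).card := by linarith
    exact_mod_cast h2
  obtain ⟨y, hy⟩ := Finset.card_pos.mp hnonempty
  have hy' : c y ≠ c x := (mem_filter.mp hy).2
  have hyd := hdeg y
  have hyb : (G.degree y : ℝ) ≤ (univ.filter (fun w => c w ≠ c y)).card + 1 := by
    exact_mod_cast hdb y
  have heq : (univ.filter (fun w => c w ≠ c y)) = (univ.filter (fun w => c w = c x)) := by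
    apply Finset.filter_congr
    intro w _
    constructor
    · intro h
      exact (bool_eq hy' h.symm).symm
    · intro h h2
      exact hy' (h2.symm.trans h)
  rw [heq] at hyb
  have hsum' : ((univ.filter (fun w => c w = c x)).card : ℝ) +
      (univ.filter (fun w => c w ≠ c x)).card = Fintype.card V := by
    exact_mod_cast hsum
  nlinarith

end Q115.WheelFour
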